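import Pool.Agent.MFE.DIRB

/-!
# MFE.GRN: Green formulas on the ellipse

`green0`: let `H : ℝ → ℝ` be smooth, `H = 0` on `(-∞, 1]`, `H = 1` on `[2, ∞)`, `0 ≤ H ≤ 1`
(`Real.smoothTransition (s - 1)`) and `η_s(q) = H (wE q / s)`, which has compact support in the
ellipse. `green1` with `f = u η_s`, `g = F`:
`∫ u η_s lap F = -∫ η_s gdot u F - ∫ (u/s) H'(wE/s) gdot wE F`. The last integrand is bounded
(`|u| ≤ C wE ≤ 2 C s` on the support of `H'(wE/s)`) and supported in `{s < wE < 2s}` whose area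
tends to zero: the limit `s → 0` gives `∫_Ell u lap F = -∫_Ell gdot u F` (dominated convergence;
all integrands are bounded and continuous on `Ell`).

`dir_sym`: `dir_approx` for both and `green0_symm` for the polynomial solutions (`|wE r| ≤ C wE`).
`dir_energy`: for `f` continuous on `CEll α` and `C¹` inside: `green0` with `u = F`
(`dir_bound`, `dir_c1`, `reg_c2`).

`pohozaev_like`: for `w = G(v)` continuous on the plane, zero outside the ellipse, `C¹` inside with
bounded gradient: `∫ (2 w + x·∇w) = 0`. Proof: `div(x w η_s) = (2w + x·∇w) η_s +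
w H'(wE/s) (x·∇wE)/s`, the integral of the left side is zero (`ibp_dx`, `ibp_dy` or
`integral_eq_zero...`), `|w| ≤ C wE` (Lipschitz, zero outside... assume it), and `s → 0`.
-/

open scoped ContDiff

namespace Pool.Agent.MFE

theorem area_ell {α : ℝ} (hα : 0 < α) :
    MeasureTheory.volume (Ell α) = ENNReal.ofReal (Real.pi / α) := by
  have h1 : MeasureTheory.volume {q : ℝ × ℝ | q.1 ^ 2 + q.2 ^ 2 < 1} = NNReal.pi := by
    have h2 : (Complex.measurableEquivRealProd ⁻¹' {q : ℝ × ℝ | q.1 ^ 2 + q.2 ^ 2 < 1}) =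
        Metric.ball (0 : ℂ) 1 := by
      ext z
      simp only [Set.mem_preimage, Set.mem_ofPred_eq, Complex.measurableEquivRealProd_apply,
        Metric.mem_ball, dist_zero_right]
      have h3 : ‖z‖ ^ 2 = z.re ^ 2 + z.im ^ 2 := by
        rw [Complex.sq_norm, Complex.normSq_apply]; ring
      rw [← h3]
      constructor
      · intro h
        nlinarith [norm_nonneg z]
      · intro h
        nlinarith [norm_nonneg z]
    have h3 : MeasurableSet {q : ℝ × ℝ | q.1 ^ 2 + q.2 ^ 2 < 1} :=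
      (isOpen_lt (by fun_prop) continuous_const).measurableSet
    rw [← Complex.volume_preserving_equiv_real_prod.measure_preimage h3.nullMeasurableSet]
    rw [h2, Complex.volume_ball]
    simp
  set f : (ℝ × ℝ) →ₗ[ℝ] (ℝ × ℝ) :=
    LinearMap.prodMap (α • LinearMap.id) LinearMap.id with hf
  have hdet : LinearMap.det f = α := by
    rw [hf, LinearMap.det_prodMap, LinearMap.det_smul, LinearMap.det_id, Module.finrank_self]
    simp
  have hpre : Ell α = f ⁻¹' {q : ℝ × ℝ | q.1 ^ 2 + q.2 ^ 2 < 1} := by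
    ext q
    simp only [Ell, hf, Set.mem_ofPred_eq, Set.mem_preimage, LinearMap.prodMap_apply,
      LinearMap.smul_apply, LinearMap.id_coe, id, smul_eq_mul, mul_pow]
  rw [hpre, MeasureTheory.Measure.addHaar_preimage_linearMap _ (by rw [hdet]; exact hα.ne'), h1,
    hdet, abs_of_pos (inv_pos.2 hα), div_eq_inv_mul, ENNReal.ofReal_mul (inv_pos.2 hα).le]
  congr 1
  rw [← NNReal.coe_real_pi, ENNReal.ofReal_coe_nnreal]

private theorem GRN_meas (α : ℝ) : MeasurableSet (Ell α) := (isOpen_ell α).measurableSet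

private theorem GRN_fin {α : ℝ} (hα : 0 < α) : MeasureTheory.volume (Ell α) ≠ ⊤ := by
  rw [area_ell hα]; exact ENNReal.ofReal_ne_top

private theorem GRN_mem {α : ℝ} {q : ℝ × ℝ} : q ∈ Ell α ↔ 0 < wE α q := by
  unfold Ell wE
  constructor
  · intro h
    have h' : α ^ 2 * q.1 ^ 2 + q.2 ^ 2 < 1 := h
    linarith
  · intro h
    show α ^ 2 * q.1 ^ 2 + q.2 ^ 2 < 1
    linarith

private theorem GRN_sub (α : ℝ) : Ell α ⊆ CEll α := by
  intro q hq
  have h : α ^ 2 * q.1 ^ 2 + q.2 ^ 2 < 1 := hq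
  exact h.le

private theorem GRN_wE_le {α : ℝ} (q : ℝ × ℝ) : wE α q ≤ 1 := by
  unfold wE
  nlinarith [sq_nonneg (α * q.1), sq_nonneg q.2]

private theorem GRN_wE_smooth (α : ℝ) : ContDiff ℝ ∞ (wE α) := by
  unfold wE; fun_prop

private theorem GRN_coord {α : ℝ} (hα : 0 < α) {q : ℝ × ℝ} (hq : q ∈ Ell α) :
    α * |q.1| ≤ 1 ∧ |q.2| ≤ 1 := by
  have h : α ^ 2 * q.1 ^ 2 + q.2 ^ 2 < 1 := hq
  constructor
  · have h1 : (α * |q.1|) ^ 2 ≤ 1 ^ 2 := by
      rw [mul_pow, sq_abs]
      nlinarith [sq_nonneg q.2]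
    exact le_of_sq_le_sq h1 zero_le_one
  · have h1 : |q.2| ^ 2 ≤ 1 ^ 2 := by
      rw [sq_abs]
      nlinarith [sq_nonneg (α * q.1)]
    exact le_of_sq_le_sq h1 zero_le_one

private noncomputable def GRN_H (s : ℝ) : ℝ := Real.smoothTransition (s - 1)

private theorem GRN_H_smooth : ContDiff ℝ ∞ GRN_H :=
  Real.smoothTransition.contDiff.comp (contDiff_id.sub contDiff_const)

private theorem GRN_H_zero {s : ℝ} (h : s ≤ 1) : GRN_H s = 0 :=
  Real.smoothTransition.zero_of_nonpos (by linarith)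

private theorem GRN_H_one {s : ℝ} (h : 2 ≤ s) : GRN_H s = 1 :=
  Real.smoothTransition.one_of_one_le (by linarith)

private theorem GRN_H_abs (s : ℝ) : |GRN_H s| ≤ 1 := by
  unfold GRN_H
  rw [abs_of_nonneg (Real.smoothTransition.nonneg _)]
  exact Real.smoothTransition.le_one _

private theorem GRN_dH_zero {s : ℝ} (h : 2 < s) : deriv GRN_H s = 0 := by
  have h1 : GRN_H =ᶠ[nhds s] fun _ => 1 := by
    filter_upwards [lt_mem_nhds h] with t ht
    exact GRN_H_one ht.le
  rw [h1.deriv_eq]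
  simp

private theorem GRN_dH_zero' {s : ℝ} (h : s < 1) : deriv GRN_H s = 0 := by
  have h1 : GRN_H =ᶠ[nhds s] fun _ => 0 := by
    filter_upwards [gt_mem_nhds h] with t ht
    exact GRN_H_zero ht.le
  rw [h1.deriv_eq]
  simp

private theorem GRN_dH_cont : Continuous (deriv GRN_H) :=
  GRN_H_smooth.continuous_deriv (by simp)

private theorem GRN_dH_bd : ∃ B : ℝ, 0 ≤ B ∧ ∀ s, |deriv GRN_H s| ≤ B := by
  obtain ⟨B, hB⟩ := (isCompact_Icc (a := (1 : ℝ)) (b := 2)).exists_bound_of_continuousOn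
    GRN_dH_cont.continuousOn
  refine ⟨max B 0, le_max_right _ _, fun s => ?_⟩
  by_cases h1 : s < 1
  · rw [GRN_dH_zero' h1, abs_zero]; exact le_max_right _ _
  · by_cases h2 : 2 < s
    · rw [GRN_dH_zero h2, abs_zero]; exact le_max_right _ _
    · exact (hB s ⟨not_lt.1 h1, not_lt.1 h2⟩).trans (le_max_left _ _)

/-- The cut off function. -/
private noncomputable def GRN_f (α : ℝ) (n : ℕ) (w : ℝ × ℝ → ℝ) (q : ℝ × ℝ) : ℝ :=
  w q * GRN_H (((n : ℝ) + 1) * wE α q)

private theorem GRN_f_out {α : ℝ} (n : ℕ) (w : ℝ × ℝ → ℝ) {q : ℝ × ℝ}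
    (h : ((n : ℝ) + 1) * wE α q < 1) : GRN_f α n w =ᶠ[nhds q] fun _ => 0 := by
  have hc : Continuous fun z => ((n : ℝ) + 1) * wE α z :=
    continuous_const.mul (GRN_wE_smooth α).continuous
  filter_upwards [hc.continuousAt.preimage_mem_nhds (Iio_mem_nhds h)] with z hz
  have hz' : ((n : ℝ) + 1) * wE α z < 1 := hz
  unfold GRN_f
  rw [GRN_H_zero hz'.le, mul_zero]

private theorem GRN_notmem {α : ℝ} (n : ℕ) {q : ℝ × ℝ} (hq : q ∉ Ell α) :
    ((n : ℝ) + 1) * wE α q < 1 := by
  have h1 : wE α q ≤ 0 := by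
    rw [GRN_mem] at hq
    exact not_lt.1 hq
  have h2 : (0 : ℝ) ≤ (n : ℝ) + 1 := by positivity
  nlinarith

private theorem GRN_f_cd {α : ℝ} (n : ℕ) {w : ℝ × ℝ → ℝ} (hw : ContDiffOn ℝ 1 w (Ell α)) :
    ContDiff ℝ 1 (GRN_f α n w) := by
  rw [contDiff_iff_contDiffAt]
  intro q
  by_cases hq : q ∈ Ell α
  · have h1 := hw.contDiffAt ((isOpen_ell α).mem_nhds hq)
    have h2 : ContDiff ℝ 1 fun z => GRN_H (((n : ℝ) + 1) * wE α z) :=
      (GRN_H_smooth.comp (contDiff_const.mul (GRN_wE_smooth α))).of_le (by simp)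
    exact h1.mul h2.contDiffAt
  · exact contDiffAt_const.congr_of_eventuallyEq (GRN_f_out n w (GRN_notmem n hq))

private theorem GRN_f_zero {α : ℝ} (n : ℕ) (w : ℝ × ℝ → ℝ) {q : ℝ × ℝ} (hq : q ∉ Ell α) :
    GRN_f α n w q = 0 := (GRN_f_out n w (GRN_notmem n hq)).self_of_nhds

private theorem GRN_f_tsupp {α : ℝ} (n : ℕ) (w : ℝ × ℝ → ℝ) :
    tsupport (GRN_f α n w) ⊆ {q | 1 ≤ ((n : ℝ) + 1) * wE α q} := by
  refine closure_minimal ?_ ?_
  · intro q hq
    by_contra hcon
    exact hq (GRN_f_out n w (not_le.1 hcon)).self_of_nhds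
  · exact isClosed_le continuous_const (continuous_const.mul (GRN_wE_smooth α).continuous)

private theorem GRN_f_sub {α : ℝ} (n : ℕ) (w : ℝ × ℝ → ℝ) :
    tsupport (GRN_f α n w) ⊆ Ell α := by
  intro q hq
  by_contra hcon
  have h1 := GRN_f_tsupp n w hq
  have h2 := GRN_notmem n hcon
  have h3 : 1 ≤ ((n : ℝ) + 1) * wE α q := h1
  linarith

private theorem GRN_f_comp {α : ℝ} (hα : 0 < α) (n : ℕ) (w : ℝ × ℝ → ℝ) :
    HasCompactSupport (GRN_f α n w) :=
  (isCompact_cell hα).of_isClosed_subset (isClosed_tsupport _)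
    ((GRN_f_sub n w).trans (GRN_sub α))

private theorem GRN_f_dx {α : ℝ} (n : ℕ) {w : ℝ × ℝ → ℝ} (hw : ContDiffOn ℝ 1 w (Ell α))
    {q : ℝ × ℝ} (hq : q ∈ Ell α) :
    dx (GRN_f α n w) q = dx w q * GRN_H (((n : ℝ) + 1) * wE α q) +
      w q * (deriv GRN_H (((n : ℝ) + 1) * wE α q) * (((n : ℝ) + 1) * (-2 * α ^ 2 * q.1))) := by
  have h1 : DifferentiableAt ℝ w q :=
    (hw.contDiffAt ((isOpen_ell α).mem_nhds hq)).differentiableAt (by simp)
  have h2 : DifferentiableAt ℝ (wE α) q := ((GRN_wE_smooth α).differentiable (by simp)) q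
  have h3 : DifferentiableAt ℝ (fun z => ((n : ℝ) + 1) * wE α z) q := h2.const_mul _
  have h4 : DifferentiableAt ℝ GRN_H (((n : ℝ) + 1) * wE α q) :=
    (GRN_H_smooth.differentiable (by simp)) _
  have h5 : DifferentiableAt ℝ (fun z => GRN_H (((n : ℝ) + 1) * wE α z)) q :=
    DifferentiableAt.comp (g := GRN_H) q h4 h3
  have e1 := dx_mul h1 h5
  have e2 := dx_comp (F := GRN_H) h3 h4
  rw [dx_const_mul _ h2, dx_wE] at e2
  rw [e2] at e1
  exact e1

private theorem GRN_f_dy {α : ℝ} (n : ℕ) {w : ℝ × ℝ → ℝ} (hw : ContDiffOn ℝ 1 w (Ell α))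
    {q : ℝ × ℝ} (hq : q ∈ Ell α) :
    dy (GRN_f α n w) q = dy w q * GRN_H (((n : ℝ) + 1) * wE α q) +
      w q * (deriv GRN_H (((n : ℝ) + 1) * wE α q) * (((n : ℝ) + 1) * (-2 * q.2))) := by
  have h1 : DifferentiableAt ℝ w q :=
    (hw.contDiffAt ((isOpen_ell α).mem_nhds hq)).differentiableAt (by simp)
  have h2 : DifferentiableAt ℝ (wE α) q := ((GRN_wE_smooth α).differentiable (by simp)) q
  have h3 : DifferentiableAt ℝ (fun z => ((n : ℝ) + 1) * wE α z) q := h2.const_mul _
  have h4 : DifferentiableAt ℝ GRN_H (((n : ℝ) + 1) * wE α q) :=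
    (GRN_H_smooth.differentiable (by simp)) _
  have h5 : DifferentiableAt ℝ (fun z => GRN_H (((n : ℝ) + 1) * wE α z)) q :=
    DifferentiableAt.comp (g := GRN_H) q h4 h3
  have e1 := dy_mul h1 h5
  have e2 := dy_comp (F := GRN_H) h3 h4
  rw [dy_const_mul _ h2, dy_wE] at e2
  rw [e2] at e1
  exact e1

private theorem GRN_f_d_out {α : ℝ} (n : ℕ) (w : ℝ × ℝ → ℝ) {q : ℝ × ℝ} (hq : q ∉ Ell α) :
    dx (GRN_f α n w) q = 0 ∧ dy (GRN_f α n w) q = 0 := by
  have h := (GRN_f_out n w (GRN_notmem n hq)).fderiv_eq (𝕜 := ℝ)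
  unfold dx dy
  rw [h]
  simp

private theorem GRN_int {α : ℝ} (hα : 0 < α) {G : ℝ × ℝ → ℝ} {B : ℝ}
    (hG : ContinuousOn G (Ell α)) (hB : ∀ q ∈ Ell α, |G q| ≤ B) :
    MeasureTheory.IntegrableOn G (Ell α) := by
  have : MeasureTheory.IsFiniteMeasure (MeasureTheory.volume.restrict (Ell α)) :=
    ⟨by rw [MeasureTheory.Measure.restrict_apply_univ]; exact (GRN_fin hα).lt_top⟩
  refine MeasureTheory.Integrable.mono' (MeasureTheory.integrable_const B)
    (hG.aestronglyMeasurable (GRN_meas α)) ?_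
  exact (MeasureTheory.ae_restrict_iff' (GRN_meas α)).2 (Filter.Eventually.of_forall hB)

private theorem GRN_limA {α : ℝ} (hα : 0 < α) {G : ℝ × ℝ → ℝ} {B : ℝ}
    (hG : ContinuousOn G (Ell α)) (hB : ∀ q ∈ Ell α, |G q| ≤ B) :
    Filter.Tendsto (fun n : ℕ => ∫ q in Ell α, G q * GRN_H (((n : ℝ) + 1) * wE α q))
      Filter.atTop (nhds (∫ q in Ell α, G q)) := by
  refine MeasureTheory.tendsto_integral_of_dominated_convergence (fun _ => B) ?_ ?_ ?_ ?_
  · intro n
    refine ContinuousOn.aestronglyMeasurable ?_ (GRN_meas α)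
    exact hG.mul ((GRN_H_smooth.continuous.comp
      (continuous_const.mul (GRN_wE_smooth α).continuous)).continuousOn)
  · have : MeasureTheory.IsFiniteMeasure (MeasureTheory.volume.restrict (Ell α)) :=
      ⟨by rw [MeasureTheory.Measure.restrict_apply_univ]; exact (GRN_fin hα).lt_top⟩
    exact MeasureTheory.integrable_const B
  · intro n
    refine (MeasureTheory.ae_restrict_iff' (GRN_meas α)).2 (Filter.Eventually.of_forall ?_)
    intro q hq
    rw [norm_mul, Real.norm_eq_abs, Real.norm_eq_abs]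
    calc |G q| * |GRN_H (((n : ℝ) + 1) * wE α q)| ≤ |G q| * 1 :=
          mul_le_mul_of_nonneg_left (GRN_H_abs _) (abs_nonneg _)
      _ ≤ B := by rw [mul_one]; exact hB q hq
  · refine (MeasureTheory.ae_restrict_iff' (GRN_meas α)).2 (Filter.Eventually.of_forall ?_)
    intro q hq
    refine tendsto_const_nhds.congr' ?_
    have hw := GRN_mem.1 hq
    obtain ⟨N, hN⟩ := exists_nat_gt (2 / wE α q)
    filter_upwards [Filter.eventually_ge_atTop N] with n hn
    have h1 : (N : ℝ) ≤ (n : ℝ) := by exact_mod_cast hn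
    rw [div_lt_iff₀ hw] at hN
    rw [GRN_H_one (by nlinarith), mul_one]

private theorem GRN_limB {α : ℝ} (hα : 0 < α) {w K : ℝ × ℝ → ℝ} {C B : ℝ}
    (hw : ContinuousOn w (Ell α)) (hK : ContinuousOn K (Ell α))
    (bw : ∀ q ∈ Ell α, |w q| ≤ C * wE α q) (hB : ∀ q ∈ Ell α, |K q| ≤ B) :
    (∀ n : ℕ, MeasureTheory.IntegrableOn (fun q => w q *
      (deriv GRN_H (((n : ℝ) + 1) * wE α q) * (((n : ℝ) + 1) * K q))) (Ell α)) ∧
    Filter.Tendsto (fun n : ℕ => ∫ q in Ell α, w q *
      (deriv GRN_H (((n : ℝ) + 1) * wE α q) * (((n : ℝ) + 1) * K q)))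
      Filter.atTop (nhds 0) := by
  obtain ⟨A, hA0, hA⟩ := GRN_dH_bd
  have hcont : ∀ n : ℕ, ContinuousOn (fun q => w q *
      (deriv GRN_H (((n : ℝ) + 1) * wE α q) * (((n : ℝ) + 1) * K q))) (Ell α) := by
    intro n
    refine hw.mul (ContinuousOn.mul ?_ (continuousOn_const.mul hK))
    exact (GRN_dH_cont.comp (continuous_const.mul (GRN_wE_smooth α).continuous)).continuousOn
  have hbd : ∀ (n : ℕ), ∀ q ∈ Ell α, |w q *
      (deriv GRN_H (((n : ℝ) + 1) * wE α q) * (((n : ℝ) + 1) * K q))| ≤ 2 * C * A * B := by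
    intro n q hq
    have hwq := GRN_mem.1 hq
    have hn0 : (0 : ℝ) < (n : ℝ) + 1 := by positivity
    have hC0 : 0 ≤ C := by
      by_contra hneg
      have h1 := bw q hq
      have h2 := abs_nonneg (w q)
      have h3 : C * wE α q < 0 := mul_neg_of_neg_of_pos (not_le.1 hneg) hwq
      linarith
    have hB0 : 0 ≤ B := (abs_nonneg _).trans (hB q hq)
    by_cases h2 : 2 < ((n : ℝ) + 1) * wE α q
    · rw [GRN_dH_zero h2, zero_mul, mul_zero, abs_zero]
      positivity
    · have h3 := not_lt.1 h2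
      rw [abs_mul, abs_mul, abs_mul, abs_of_pos hn0]
      have h4 : |w q| * ((n : ℝ) + 1) ≤ 2 * C := by
        calc |w q| * ((n : ℝ) + 1) ≤ C * wE α q * ((n : ℝ) + 1) :=
              mul_le_mul_of_nonneg_right (bw q hq) hn0.le
          _ = C * (((n : ℝ) + 1) * wE α q) := by ring
          _ ≤ C * 2 := mul_le_mul_of_nonneg_left h3 hC0
          _ = 2 * C := by ring
      calc |w q| * (|deriv GRN_H (((n : ℝ) + 1) * wE α q)| * (((n : ℝ) + 1) * |K q|))
          = (|w q| * ((n : ℝ) + 1)) * |deriv GRN_H (((n : ℝ) + 1) * wE α q)| * |K q| := by ring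
        _ ≤ (2 * C) * A * B := by
            refine mul_le_mul (mul_le_mul h4 (hA _) (abs_nonneg _) (by positivity)) (hB q hq)
              (abs_nonneg _) (by positivity)
  refine ⟨fun n => GRN_int hα (hcont n) (hbd n), ?_⟩
  have h0 : (0 : ℝ) = ∫ q in Ell α, (0 : ℝ) := by simp
  rw [h0]
  refine MeasureTheory.tendsto_integral_of_dominated_convergence (fun _ => 2 * C * A * B)
    ?_ ?_ ?_ ?_
  · intro n
    exact (hcont n).aestronglyMeasurable (GRN_meas α)
  · have : MeasureTheory.IsFiniteMeasure (MeasureTheory.volume.restrict (Ell α)) :=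
      ⟨by rw [MeasureTheory.Measure.restrict_apply_univ]; exact (GRN_fin hα).lt_top⟩
    exact MeasureTheory.integrable_const _
  · intro n
    exact (MeasureTheory.ae_restrict_iff' (GRN_meas α)).2 (Filter.Eventually.of_forall (hbd n))
  · refine (MeasureTheory.ae_restrict_iff' (GRN_meas α)).2 (Filter.Eventually.of_forall ?_)
    intro q hq
    refine tendsto_const_nhds.congr' ?_
    have hwq := GRN_mem.1 hq
    obtain ⟨N, hN⟩ := exists_nat_gt (2 / wE α q)
    filter_upwards [Filter.eventually_ge_atTop N] with n hn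
    have h1 : (N : ℝ) ≤ (n : ℝ) := by exact_mod_cast hn
    rw [div_lt_iff₀ hwq] at hN
    rw [GRN_dH_zero (by nlinarith), zero_mul, mul_zero]

theorem green0 {α : ℝ} (hα : 0 < α) {u F : ℝ × ℝ → ℝ} {C : ℝ}
    (hu : ContDiffOn ℝ 1 u (Ell α)) (hF : ContDiffOn ℝ 2 F (Ell α))
    (bu : ∀ q ∈ Ell α, |u q| ≤ C * wE α q)
    (gu : ∀ q ∈ Ell α, |dx u q| ≤ C ∧ |dy u q| ≤ C)
    (gF : ∀ q ∈ Ell α, |dx F q| ≤ C ∧ |dy F q| ≤ C) (lF : ∀ q ∈ Ell α, |lap F q| ≤ C) :
    ∫ q in Ell α, u q * lap F q = -∫ q in Ell α, gdot u F q := by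
  have hu0 : ContinuousOn u (Ell α) := hu.continuousOn
  have hux := cont_dx (isOpen_ell α) hu
  have huy := cont_dy (isOpen_ell α) hu
  have hF1 : ContDiffOn ℝ 1 F (Ell α) := hF.of_le (by norm_num)
  have hFx := cont_dx (isOpen_ell α) hF1
  have hFy := cont_dy (isOpen_ell α) hF1
  have hFl := cont_lap (isOpen_ell α) hF
  have hC0 : ∀ q ∈ Ell α, 0 ≤ C := fun q hq => (abs_nonneg _).trans (gu q hq).1
  have bu1 : ∀ q ∈ Ell α, |u q| ≤ C := by
    intro q hq
    refine (bu q hq).trans ?_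
    have := mul_le_mul_of_nonneg_left (GRN_wE_le (α := α) q) (hC0 q hq)
    linarith
  -- the three limits
  have hG1c : ContinuousOn (fun q => u q * lap F q) (Ell α) := hu0.mul hFl
  have hG1b : ∀ q ∈ Ell α, |u q * lap F q| ≤ C * C := by
    intro q hq
    rw [abs_mul]
    exact mul_le_mul (bu1 q hq) (lF q hq) (abs_nonneg _) (hC0 q hq)
  have L1 := GRN_limA hα hG1c hG1b
  have hG2c : ContinuousOn (fun q => gdot u F q) (Ell α) :=
    (hux.mul hFx).add (huy.mul hFy)
  have hG2b : ∀ q ∈ Ell α, |gdot u F q| ≤ C * C + C * C := by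
    intro q hq
    unfold gdot
    refine (abs_add_le _ _).trans (add_le_add ?_ ?_)
    · rw [abs_mul]
      exact mul_le_mul (gu q hq).1 (gF q hq).1 (abs_nonneg _) (hC0 q hq)
    · rw [abs_mul]
      exact mul_le_mul (gu q hq).2 (gF q hq).2 (abs_nonneg _) (hC0 q hq)
  have L2 := GRN_limA hα hG2c hG2b
  have hKc : ContinuousOn (fun q : ℝ × ℝ => (-2 * α ^ 2 * q.1) * dx F q + (-2 * q.2) * dy F q)
      (Ell α) := by
    refine ContinuousOn.add (ContinuousOn.mul ?_ hFx) (ContinuousOn.mul ?_ hFy)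
    · exact (by fun_prop : Continuous fun q : ℝ × ℝ => -2 * α ^ 2 * q.1).continuousOn
    · exact (by fun_prop : Continuous fun q : ℝ × ℝ => -2 * q.2).continuousOn
  have hKb : ∀ q ∈ Ell α, |(-2 * α ^ 2 * q.1) * dx F q + (-2 * q.2) * dy F q| ≤
      2 * α * C + 2 * C := by
    intro q hq
    obtain ⟨c1, c2⟩ := GRN_coord hα hq
    refine (abs_add_le _ _).trans (add_le_add ?_ ?_)
    · rw [abs_mul]
      refine mul_le_mul ?_ (gF q hq).1 (abs_nonneg _) (by positivity)
      rw [abs_mul, abs_mul, abs_neg, abs_two, abs_of_pos (by positivity : (0 : ℝ) < α ^ 2)]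
      calc 2 * α ^ 2 * |q.1| = 2 * α * (α * |q.1|) := by ring
        _ ≤ 2 * α * 1 := mul_le_mul_of_nonneg_left c1 (by positivity)
        _ = 2 * α := mul_one _
    · rw [abs_mul]
      refine mul_le_mul ?_ (gF q hq).2 (abs_nonneg _) (by positivity)
      rw [abs_mul, abs_neg, abs_two]
      linarith
  obtain ⟨I3, L3⟩ := GRN_limB hα hu0 hKc bu hKb
  have key : ∀ n : ℕ, (∫ q in Ell α, u q * lap F q * GRN_H (((n : ℝ) + 1) * wE α q)) =
      -((∫ q in Ell α, gdot u F q * GRN_H (((n : ℝ) + 1) * wE α q)) +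
        ∫ q in Ell α, u q * (deriv GRN_H (((n : ℝ) + 1) * wE α q) *
          (((n : ℝ) + 1) * ((-2 * α ^ 2 * q.1) * dx F q + (-2 * q.2) * dy F q)))) := by
    intro n
    have e1 := green1 (isOpen_ell α) (GRN_f_cd n hu) (GRN_f_comp hα n u) (GRN_f_sub n u) hF
    have e2 : (∫ q, GRN_f α n u q * lap F q) =
        ∫ q in Ell α, u q * lap F q * GRN_H (((n : ℝ) + 1) * wE α q) := by
      rw [← MeasureTheory.setIntegral_eq_integral_of_forall_compl_eq_zero
        (s := Ell α) (fun q hq => by rw [GRN_f_zero n u hq, zero_mul])]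
      refine MeasureTheory.setIntegral_congr_fun (GRN_meas α) fun q _ => ?_
      unfold GRN_f
      ring
    have e3 : (∫ q, gdot (GRN_f α n u) F q) =
        (∫ q in Ell α, gdot u F q * GRN_H (((n : ℝ) + 1) * wE α q)) +
        ∫ q in Ell α, u q * (deriv GRN_H (((n : ℝ) + 1) * wE α q) *
          (((n : ℝ) + 1) * ((-2 * α ^ 2 * q.1) * dx F q + (-2 * q.2) * dy F q))) := by
      rw [← MeasureTheory.setIntegral_eq_integral_of_forall_compl_eq_zero
        (s := Ell α) (fun q hq => by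
          unfold gdot
          rw [(GRN_f_d_out n u hq).1, (GRN_f_d_out n u hq).2, zero_mul, zero_mul, add_zero])]
      have hint : MeasureTheory.IntegrableOn
          (fun q => gdot u F q * GRN_H (((n : ℝ) + 1) * wE α q)) (Ell α) := by
        refine GRN_int hα (B := C * C + C * C) (hG2c.mul ((GRN_H_smooth.continuous.comp
          (continuous_const.mul (GRN_wE_smooth α).continuous)).continuousOn)) fun q hq => ?_
        rw [abs_mul]
        calc |gdot u F q| * |GRN_H (((n : ℝ) + 1) * wE α q)| ≤ |gdot u F q| * 1 :=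
              mul_le_mul_of_nonneg_left (GRN_H_abs _) (abs_nonneg _)
          _ ≤ C * C + C * C := by rw [mul_one]; exact hG2b q hq
      rw [← MeasureTheory.integral_add hint (I3 n)]
      refine MeasureTheory.setIntegral_congr_fun (GRN_meas α) fun q hq => ?_
      unfold gdot
      rw [GRN_f_dx n hu hq, GRN_f_dy n hu hq]
      ring
    rw [e2, e3] at e1
    exact e1
  have L4 := (L2.add L3).neg
  rw [add_zero] at L4
  exact tendsto_nhds_unique L1 (L4.congr fun n => (key n).symm)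

theorem green0_symm {α : ℝ} (hα : 0 < α) {u F : ℝ × ℝ → ℝ} {C : ℝ}
    (hu : ContDiffOn ℝ 2 u (Ell α)) (hF : ContDiffOn ℝ 2 F (Ell α))
    (bu : ∀ q ∈ Ell α, |u q| ≤ C * wE α q) (bF : ∀ q ∈ Ell α, |F q| ≤ C * wE α q)
    (gu : ∀ q ∈ Ell α, |dx u q| ≤ C ∧ |dy u q| ≤ C)
    (gF : ∀ q ∈ Ell α, |dx F q| ≤ C ∧ |dy F q| ≤ C)
    (lu : ∀ q ∈ Ell α, |lap u q| ≤ C) (lF : ∀ q ∈ Ell α, |lap F q| ≤ C) :
    ∫ q in Ell α, u q * lap F q = ∫ q in Ell α, F q * lap u q := by
  have hu1 : ContDiffOn ℝ 1 u (Ell α) := hu.of_le (by norm_num)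
  have hF1 : ContDiffOn ℝ 1 F (Ell α) := hF.of_le (by norm_num)
  rw [green0 hα hu1 hF bu gu gF lF, green0 hα hF1 hu bF gF gu lu]
  congr 1
  refine MeasureTheory.integral_congr_ae (Filter.Eventually.of_forall fun q => ?_)
  simp only [gdot]
  ring

private theorem GRN_polbd {α : ℝ} (hα : 0 < α) (r : MvPolynomial (Fin 2) ℝ) :
    ∃ C : ℝ, ∀ q ∈ CEll α, |ev r q| ≤ C ∧ |dx (fun z => wE α z * ev r z) q| ≤ C ∧
      |dy (fun z => wE α z * ev r z) q| ≤ C ∧ |lap (fun z => wE α z * ev r z) q| ≤ C := by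
  have hs : ContDiff ℝ ∞ (fun z => wE α z * ev r z) := (GRN_wE_smooth α).mul (ev_smooth r)
  have h1 : ContDiffOn ℝ 1 (fun z => wE α z * ev r z) Set.univ :=
    (hs.of_le (by simp)).contDiffOn
  have h2 : ContDiffOn ℝ 2 (fun z => wE α z * ev r z) Set.univ :=
    (hs.of_le ENat.LEInfty.out).contDiffOn
  obtain ⟨A, hA⟩ := (isCompact_cell hα).exists_bound_of_continuousOn
    (ev_smooth r).continuous.continuousOn
  obtain ⟨B, hB⟩ := (isCompact_cell hα).exists_bound_of_continuousOn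
    ((cont_dx isOpen_univ h1).mono (Set.subset_univ _))
  obtain ⟨C, hC⟩ := (isCompact_cell hα).exists_bound_of_continuousOn
    ((cont_dy isOpen_univ h1).mono (Set.subset_univ _))
  obtain ⟨D, hD⟩ := (isCompact_cell hα).exists_bound_of_continuousOn
    ((cont_lap isOpen_univ h2).mono (Set.subset_univ _))
  refine ⟨max (max A B) (max C D), fun q hq => ⟨?_, ?_, ?_, ?_⟩⟩
  · exact (hA q hq).trans ((le_max_left _ _).trans (le_max_left _ _))
  · exact (hB q hq).trans ((le_max_right _ _).trans (le_max_left _ _))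
  · exact (hC q hq).trans ((le_max_left _ _).trans (le_max_right _ _))
  · exact (hD q hq).trans ((le_max_right _ _).trans (le_max_right _ _))

theorem dir_sym {α : ℝ} (hα : 0 < α) (hα1 : α ≤ 1) {f₁ f₂ u₁ u₂ : ℝ × ℝ → ℝ}
    (hf1 : ContinuousOn f₁ (CEll α)) (hf2 : ContinuousOn f₂ (CEll α)) (h1 : Dir α f₁ u₁)
    (h2 : Dir α f₂ u₂) :
    ∫ q in Ell α, f₁ q * u₂ q = ∫ q in Ell α, f₂ q * u₁ q := by
  -- bounds for the data
  obtain ⟨B1, hB1⟩ := (isCompact_cell hα).exists_bound_of_continuousOn hf1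
  obtain ⟨B2, hB2⟩ := (isCompact_cell hα).exists_bound_of_continuousOn hf2
  set B : ℝ := max (max B1 B2) 0 with hB
  have hB0 : 0 ≤ B := le_max_right _ _
  have b1 : ∀ q ∈ Ell α, |f₁ q| ≤ B := fun q hq =>
    (hB1 q (GRN_sub α hq)).trans ((le_max_left _ _).trans (le_max_left _ _))
  have b2 : ∀ q ∈ Ell α, |f₂ q| ≤ B := fun q hq =>
    (hB2 q (GRN_sub α hq)).trans ((le_max_right _ _).trans (le_max_left _ _))
  have c1 : ∀ q ∈ Ell α, |u₁ q| ≤ B := by
    intro q hq
    have h := dir_bound hα hf1 h1 b1 q hq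
    have := mul_le_mul_of_nonneg_left (GRN_wE_le (α := α) q) (by positivity : 0 ≤ B / 2)
    linarith
  have c2 : ∀ q ∈ Ell α, |u₂ q| ≤ B := by
    intro q hq
    have h := dir_bound hα hf2 h2 b2 q hq
    have := mul_le_mul_of_nonneg_left (GRN_wE_le (α := α) q) (by positivity : 0 ≤ B / 2)
    linarith
  have i12 : MeasureTheory.IntegrableOn (fun q => f₁ q * u₂ q) (Ell α) :=
    GRN_int hα (B := B * B) ((hf1.mono (GRN_sub α)).mul h2.cont.continuousOn) fun q hq => by
      rw [abs_mul]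
      exact mul_le_mul (b1 q hq) (c2 q hq) (abs_nonneg _) hB0
  have i21 : MeasureTheory.IntegrableOn (fun q => f₂ q * u₁ q) (Ell α) :=
    GRN_int hα (B := B * B) ((hf2.mono (GRN_sub α)).mul h1.cont.continuousOn) fun q hq => by
      rw [abs_mul]
      exact mul_le_mul (b2 q hq) (c1 q hq) (abs_nonneg _) hB0
  set A : ℝ := (MeasureTheory.volume.real (Ell α)) with hA
  have hA0 : 0 ≤ A := MeasureTheory.measureReal_nonneg
  have main : ∀ ε : ℝ, 0 < ε → ε ≤ 1 →
      |(∫ q in Ell α, f₁ q * u₂ q) - ∫ q in Ell α, f₂ q * u₁ q| ≤ ε * (2 * (2 * B + 1) * A) := by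
    intro ε hε hε1
    obtain ⟨p1, r1, s1, t1, w1⟩ := dir_approx hα hf1 h1 hε
    obtain ⟨p2, r2, s2, t2, w2⟩ := dir_approx hα hf2 h2 hε
    have hpol : ∀ r, ∀ q ∈ Ell α, polSol α r q = wE α q * ev r q := by
      intro r q hq
      unfold polSol
      rw [if_neg (not_le.2 (GRN_mem.1 hq))]
    obtain ⟨C1, d1⟩ := GRN_polbd hα r1
    obtain ⟨C2, d2⟩ := GRN_polbd hα r2
    have sm : ∀ r, ContDiffOn ℝ 2 (fun z => wE α z * ev r z) (Ell α) := fun r =>
      (((GRN_wE_smooth α).mul (ev_smooth r)).of_le ENat.LEInfty.out).contDiffOn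
    have hsym := green0_symm (C := max C1 C2) hα (sm r1) (sm r2)
      (fun q hq => by
        have hw := GRN_mem.1 hq
        rw [abs_mul, abs_of_pos hw, mul_comm]
        exact mul_le_mul_of_nonneg_right
          ((d1 q (GRN_sub α hq)).1.trans (le_max_left _ _)) hw.le)
      (fun q hq => by
        have hw := GRN_mem.1 hq
        rw [abs_mul, abs_of_pos hw, mul_comm]
        exact mul_le_mul_of_nonneg_right
          ((d2 q (GRN_sub α hq)).1.trans (le_max_right _ _)) hw.le)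
      (fun q hq => ⟨(d1 q (GRN_sub α hq)).2.1.trans (le_max_left _ _),
        (d1 q (GRN_sub α hq)).2.2.1.trans (le_max_left _ _)⟩)
      (fun q hq => ⟨(d2 q (GRN_sub α hq)).2.1.trans (le_max_right _ _),
        (d2 q (GRN_sub α hq)).2.2.1.trans (le_max_right _ _)⟩)
      (fun q hq => (d1 q (GRN_sub α hq)).2.2.2.trans (le_max_left _ _))
      (fun q hq => (d2 q (GRN_sub α hq)).2.2.2.trans (le_max_right _ _))
    have hsym2 : (∫ q in Ell α, ev p1 q * polSol α r2 q) =
        ∫ q in Ell α, ev p2 q * polSol α r1 q := by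
      have e1 : (∫ q in Ell α, ev p1 q * polSol α r2 q) =
          -∫ q in Ell α, (fun z => wE α z * ev r2 z) q * lap (fun z => wE α z * ev r1 z) q := by
        rw [← MeasureTheory.integral_neg]
        refine MeasureTheory.setIntegral_congr_fun (GRN_meas α) fun q hq => ?_
        simp only
        rw [hpol r2 q hq, ← s1 q]
        ring
      have e2 : (∫ q in Ell α, ev p2 q * polSol α r1 q) =
          -∫ q in Ell α, (fun z => wE α z * ev r1 z) q * lap (fun z => wE α z * ev r2 z) q := by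
        rw [← MeasureTheory.integral_neg]
        refine MeasureTheory.setIntegral_congr_fun (GRN_meas α) fun q hq => ?_
        simp only
        rw [hpol r1 q hq, ← s2 q]
        ring
      rw [e1, e2, hsym]
    have polc : ∀ r, ContinuousOn (polSol α r) (Ell α) := fun r => (polSol_cont α r).continuousOn
    have evc : ∀ r, ContinuousOn (ev r) (Ell α) := fun r => (ev_smooth r).continuous.continuousOn
    have pb1 : ∀ q ∈ Ell α, |polSol α r1 q| ≤ B + 1 := by
      intro q hq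
      have := abs_sub_abs_le_abs_sub (polSol α r1 q) (u₁ q)
      have h3 := w1 q
      rw [abs_sub_comm] at h3
      have := c1 q hq
      linarith
    have pb2 : ∀ q ∈ Ell α, |polSol α r2 q| ≤ B + 1 := by
      intro q hq
      have := abs_sub_abs_le_abs_sub (polSol α r2 q) (u₂ q)
      have h3 := w2 q
      rw [abs_sub_comm] at h3
      have := c2 q hq
      linarith
    have eb1 : ∀ q ∈ Ell α, |ev p1 q| ≤ B + 1 := by
      intro q hq
      have := abs_sub_abs_le_abs_sub (ev p1 q) (f₁ q)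
      have h3 := t1 q (GRN_sub α hq)
      rw [abs_sub_comm] at h3
      have := b1 q hq
      linarith
    have eb2 : ∀ q ∈ Ell α, |ev p2 q| ≤ B + 1 := by
      intro q hq
      have := abs_sub_abs_le_abs_sub (ev p2 q) (f₂ q)
      have h3 := t2 q (GRN_sub α hq)
      rw [abs_sub_comm] at h3
      have := b2 q hq
      linarith
    have j12 : MeasureTheory.IntegrableOn (fun q => ev p1 q * polSol α r2 q) (Ell α) :=
      GRN_int hα (B := (B + 1) * (B + 1)) ((evc p1).mul (polc r2)) fun q hq => by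
        rw [abs_mul]
        exact mul_le_mul (eb1 q hq) (pb2 q hq) (abs_nonneg _) (by positivity)
    have j21 : MeasureTheory.IntegrableOn (fun q => ev p2 q * polSol α r1 q) (Ell α) :=
      GRN_int hα (B := (B + 1) * (B + 1)) ((evc p2).mul (polc r1)) fun q hq => by
        rw [abs_mul]
        exact mul_le_mul (eb2 q hq) (pb1 q hq) (abs_nonneg _) (by positivity)
    have k1 : |(∫ q in Ell α, f₁ q * u₂ q) - ∫ q in Ell α, ev p1 q * polSol α r2 q| ≤
        ε * (2 * B + 1) * A := by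
      rw [← MeasureTheory.integral_sub i12 j12, ← Real.norm_eq_abs]
      refine MeasureTheory.norm_setIntegral_le_of_norm_le_const (GRN_fin hα).lt_top
        fun q hq => ?_
      have e : f₁ q * u₂ q - ev p1 q * polSol α r2 q =
          f₁ q * (u₂ q - polSol α r2 q) + (f₁ q - ev p1 q) * polSol α r2 q := by ring
      rw [Real.norm_eq_abs, e]
      refine (abs_add_le _ _).trans ?_
      rw [abs_mul, abs_mul]
      have m1 := mul_le_mul (b1 q hq) (w2 q) (abs_nonneg _) hB0
      have m2 := mul_le_mul (t1 q (GRN_sub α hq)) (pb2 q hq) (abs_nonneg _) hε.le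
      linarith
    have k2 : |(∫ q in Ell α, f₂ q * u₁ q) - ∫ q in Ell α, ev p2 q * polSol α r1 q| ≤
        ε * (2 * B + 1) * A := by
      rw [← MeasureTheory.integral_sub i21 j21, ← Real.norm_eq_abs]
      refine MeasureTheory.norm_setIntegral_le_of_norm_le_const (GRN_fin hα).lt_top
        fun q hq => ?_
      have e : f₂ q * u₁ q - ev p2 q * polSol α r1 q =
          f₂ q * (u₁ q - polSol α r1 q) + (f₂ q - ev p2 q) * polSol α r1 q := by ring
      rw [Real.norm_eq_abs, e]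
      refine (abs_add_le _ _).trans ?_
      rw [abs_mul, abs_mul]
      have m1 := mul_le_mul (b2 q hq) (w1 q) (abs_nonneg _) hB0
      have m2 := mul_le_mul (t2 q (GRN_sub α hq)) (pb1 q hq) (abs_nonneg _) hε.le
      linarith
    rw [hsym2] at k1
    have a1 := abs_le.1 k1
    have a2 := abs_le.1 k2
    rw [abs_le]
    constructor <;> linarith
  by_contra hne
  have hpos : 0 < |(∫ q in Ell α, f₁ q * u₂ q) - ∫ q in Ell α, f₂ q * u₁ q| :=
    abs_pos.2 (sub_ne_zero.2 hne)
  set d := |(∫ q in Ell α, f₁ q * u₂ q) - ∫ q in Ell α, f₂ q * u₁ q|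
  set S : ℝ := 2 * (2 * B + 1) * A with hS
  have hS0 : 0 ≤ S := by positivity
  have hε0 : 0 < min 1 (d / (2 * (S + 1))) := lt_min one_pos (by positivity)
  have h3 := main _ hε0 (min_le_left _ _)
  have h4 : min 1 (d / (2 * (S + 1))) * S ≤ d / 2 := by
    calc min 1 (d / (2 * (S + 1))) * S ≤ d / (2 * (S + 1)) * S :=
          mul_le_mul_of_nonneg_right (min_le_right _ _) hS0
      _ ≤ d / (2 * (S + 1)) * (S + 1) :=
          mul_le_mul_of_nonneg_left (by linarith) (by positivity)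
      _ = d / 2 := by field_simp
  linarith

theorem dir_energy {α : ℝ} (hα : 0 < α) (hα1 : α ≤ 1) {f u : ℝ × ℝ → ℝ}
    (hf : ContinuousOn f (CEll α)) (hf1 : ContDiffOn ℝ 1 f (Ell α)) (h : Dir α f u) :
    ∫ q in Ell α, gdot u u q = ∫ q in Ell α, f q * u q := by
  obtain ⟨B, hB⟩ := (isCompact_cell hα).exists_bound_of_continuousOn hf
  set M : ℝ := max B 0 with hM
  have hM0 : 0 ≤ M := le_max_right _ _
  have hbM : ∀ q ∈ Ell α, |f q| ≤ M := fun q hq => (hB q (GRN_sub α hq)).trans (le_max_left _ _)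
  obtain ⟨hu2, hueq⟩ := reg_c2 (isOpen_ell α) h.cont.continuousOn hf1 h.weak
  obtain ⟨hu1, gx, gy, _, _, hg, hgb⟩ := dir_c1 hα hα1 hf h hbM
  have hbd := dir_bound hα hf h hbM
  have hgr : ∀ q ∈ Ell α, |dx u q| ≤ 17 * M ∧ |dy u q| ≤ 17 * M := by
    intro q hq
    rw [(hg q hq).1, (hg q hq).2]
    exact hgb q (GRN_sub α hq)
  have h0 := green0 (C := 17 * M) hα hu1 hu2
    (fun q hq => (hbd q hq).trans (by
      have := (GRN_mem.1 hq).le
      nlinarith)) hgr hgr
    (fun q hq => by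
      have e1 := hueq q hq
      have e2 : |lap u q| = |f q| := by rw [← e1, abs_neg]
      rw [e2]
      have := hbM q hq
      linarith)
  have h1 : (∫ q in Ell α, f q * u q) = -∫ q in Ell α, u q * lap u q := by
    rw [← MeasureTheory.integral_neg]
    refine MeasureTheory.setIntegral_congr_fun (GRN_meas α) fun q hq => ?_
    rw [← hueq q hq]
    ring
  rw [h1, h0, neg_neg]

theorem pohozaev_like {α : ℝ} (hα : 0 < α) {w : ℝ × ℝ → ℝ} {C : ℝ}
    (hw : ContDiffOn ℝ 1 w (Ell α)) (bw : ∀ q ∈ Ell α, |w q| ≤ C * wE α q)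
    (gw : ∀ q ∈ Ell α, |dx w q| ≤ C ∧ |dy w q| ≤ C) :
    ∫ q in Ell α, (2 * w q + (q.1 * dx w q + q.2 * dy w q)) = 0 := by
  have hw0 : ContinuousOn w (Ell α) := hw.continuousOn
  have hwx := cont_dx (isOpen_ell α) hw
  have hwy := cont_dy (isOpen_ell α) hw
  have hC0 : ∀ q ∈ Ell α, 0 ≤ C := fun q hq => (abs_nonneg _).trans (gw q hq).1
  have bw1 : ∀ q ∈ Ell α, |w q| ≤ C := by
    intro q hq
    refine (bw q hq).trans ?_
    have := mul_le_mul_of_nonneg_left (GRN_wE_le (α := α) q) (hC0 q hq)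
    linarith
  have hxc : Continuous fun q : ℝ × ℝ => q.1 := continuous_fst
  have hyc : Continuous fun q : ℝ × ℝ => q.2 := continuous_snd
  have hGc : ContinuousOn (fun q => 2 * w q + (q.1 * dx w q + q.2 * dy w q)) (Ell α) :=
    (continuousOn_const.mul hw0).add ((hxc.continuousOn.mul hwx).add (hyc.continuousOn.mul hwy))
  have hGb : ∀ q ∈ Ell α, |2 * w q + (q.1 * dx w q + q.2 * dy w q)| ≤
      2 * C + (1 / α * C + 1 * C) := by
    intro q hq
    obtain ⟨c1, c2⟩ := GRN_coord hα hq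
    have c3 : |q.1| ≤ 1 / α := by
      rw [le_div_iff₀ hα]; linarith
    refine (abs_add_le _ _).trans (add_le_add ?_ ((abs_add_le _ _).trans (add_le_add ?_ ?_)))
    · rw [abs_mul, abs_two]
      have := bw1 q hq
      linarith
    · rw [abs_mul]
      exact mul_le_mul c3 (gw q hq).1 (abs_nonneg _) (by positivity)
    · rw [abs_mul]
      exact mul_le_mul c2 (gw q hq).2 (abs_nonneg _) zero_le_one
  have L1 := GRN_limA hα hGc hGb
  have hKc : ContinuousOn (fun q : ℝ × ℝ => (-2 * α ^ 2 * q.1) * q.1 + (-2 * q.2) * q.2)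
      (Ell α) :=
    (by fun_prop : Continuous fun q : ℝ × ℝ =>
      (-2 * α ^ 2 * q.1) * q.1 + (-2 * q.2) * q.2).continuousOn
  have hKb : ∀ q ∈ Ell α, |(-2 * α ^ 2 * q.1) * q.1 + (-2 * q.2) * q.2| ≤ 2 := by
    intro q hq
    have h : α ^ 2 * q.1 ^ 2 + q.2 ^ 2 < 1 := hq
    rw [abs_le]
    constructor
    · nlinarith
    · nlinarith [sq_nonneg (α * q.1), sq_nonneg q.2]
  obtain ⟨I2, L2⟩ := GRN_limB hα hw0 hKc bw hKb
  have key : ∀ n : ℕ, (∫ q in Ell α, (2 * w q + (q.1 * dx w q + q.2 * dy w q)) *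
      GRN_H (((n : ℝ) + 1) * wE α q)) + (∫ q in Ell α, w q *
        (deriv GRN_H (((n : ℝ) + 1) * wE α q) *
          (((n : ℝ) + 1) * ((-2 * α ^ 2 * q.1) * q.1 + (-2 * q.2) * q.2)))) = 0 := by
    intro n
    have hcd := GRN_f_cd n hw
    have hcs := GRN_f_comp hα n w
    have hdxc : Continuous (dx (GRN_f α n w)) :=
      continuousOn_univ.1 (cont_dx isOpen_univ hcd.contDiffOn)
    have hdyc : Continuous (dy (GRN_f α n w)) :=
      continuousOn_univ.1 (cont_dy isOpen_univ hcd.contDiffOn)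
    have e1 := ibp_dx isOpen_univ hcd hcs (Set.subset_univ _)
      (g := fun z : ℝ × ℝ => z.1) contDiff_fst.contDiffOn
    have e2 := ibp_dy isOpen_univ hcd hcs (Set.subset_univ _)
      (g := fun z : ℝ × ℝ => z.2) contDiff_snd.contDiffOn
    have g1 : ∀ q : ℝ × ℝ, dx (fun z : ℝ × ℝ => z.1) q = 1 := by
      intro q
      have := dx_fst (q := q) (fun s : ℝ => s) differentiableAt_id
      simpa using this
    have g2 : ∀ q : ℝ × ℝ, dy (fun z : ℝ × ℝ => z.2) q = 1 := by
      intro q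
      have := dy_snd (q := q) (fun s : ℝ => s) differentiableAt_id
      simpa using this
    simp only [g1, g2, mul_one] at e1 e2
    have cs1 : HasCompactSupport (fun q => dx (GRN_f α n w) q * q.1) := by
      refine HasCompactSupport.intro (isCompact_cell hα) fun q hq => ?_
      have hq' : q ∉ Ell α := fun h => hq (GRN_sub α h)
      rw [(GRN_f_d_out n w hq').1, zero_mul]
    have cs2 : HasCompactSupport (fun q => dy (GRN_f α n w) q * q.2) := by
      refine HasCompactSupport.intro (isCompact_cell hα) fun q hq => ?_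
      have hq' : q ∉ Ell α := fun h => hq (GRN_sub α h)
      rw [(GRN_f_d_out n w hq').2, zero_mul]
    have int0 : MeasureTheory.Integrable (GRN_f α n w) :=
      hcd.continuous.integrable_of_hasCompactSupport hcs
    have int1 : MeasureTheory.Integrable (fun q => dx (GRN_f α n w) q * q.1) :=
      (hdxc.mul hxc).integrable_of_hasCompactSupport cs1
    have int2 : MeasureTheory.Integrable (fun q => dy (GRN_f α n w) q * q.2) :=
      (hdyc.mul hyc).integrable_of_hasCompactSupport cs2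
    have e3 : (∫ q, (2 * GRN_f α n w q + (dx (GRN_f α n w) q * q.1 +
        dy (GRN_f α n w) q * q.2))) = 0 := by
      have int3 : MeasureTheory.Integrable (fun q => dx (GRN_f α n w) q * q.1 +
        dy (GRN_f α n w) q * q.2) := int1.add int2
      rw [MeasureTheory.integral_add (int0.const_mul 2) int3,
        MeasureTheory.integral_const_mul, MeasureTheory.integral_add int1 int2]
      linarith
    have hint : MeasureTheory.IntegrableOn (fun q => (2 * w q + (q.1 * dx w q + q.2 * dy w q)) *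
        GRN_H (((n : ℝ) + 1) * wE α q)) (Ell α) := by
      refine GRN_int hα (B := 2 * C + (1 / α * C + 1 * C))
        (hGc.mul ((GRN_H_smooth.continuous.comp
          (continuous_const.mul (GRN_wE_smooth α).continuous)).continuousOn)) fun q hq => ?_
      rw [abs_mul]
      calc |2 * w q + (q.1 * dx w q + q.2 * dy w q)| * |GRN_H (((n : ℝ) + 1) * wE α q)|
          ≤ |2 * w q + (q.1 * dx w q + q.2 * dy w q)| * 1 :=
            mul_le_mul_of_nonneg_left (GRN_H_abs _) (abs_nonneg _)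
        _ ≤ _ := by rw [mul_one]; exact hGb q hq
    rw [← MeasureTheory.setIntegral_eq_integral_of_forall_compl_eq_zero
        (s := Ell α) (fun q hq => by
          rw [GRN_f_zero n w hq, (GRN_f_d_out n w hq).1, (GRN_f_d_out n w hq).2]
          ring)] at e3
    rw [← MeasureTheory.integral_add hint (I2 n), ← e3]
    refine MeasureTheory.setIntegral_congr_fun (GRN_meas α) fun q hq => ?_
    rw [GRN_f_dx n hw hq, GRN_f_dy n hw hq]
    unfold GRN_f
    ring
  have L3 := L1.add L2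
  rw [add_zero] at L3
  exact tendsto_nhds_unique (L3.congr key) tendsto_const_nhds

end Pool.Agent.MFE
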