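import Pool.Agent.MFE.GNNB
import Pool.Agent.MFE.GRN

/-!
# MFE.AMP: uniqueness at given amplitude, nondegeneracy

`gsol_dir`: `weak_of_c2`. `gsol_of_dir`: `reg_exp`.
`amp_unique`: wlog `μ₁ ≤ μ₂`, `s = √(μ₂/μ₁) ≥ 1`, `D = {q | (s q.1, s q.2) ∈ Ell α} ⊆ Ell α` (solid,
in the strip), `vt q = v₁ (s q.1, s q.2)`: `-lap vt = μ₂ e^vt` in `D` (`lap_scale`), `vt = 0` outside
`D`. `hk_compare` on `D` with the first solution `v₂`, the second `vt` (`Super` for `vt`: scale the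
derivatives of `v₁`; for `v₂`: restrict): `{q ∈ D : v₂ ≤ vt - ε} ` is closed, because it is
relatively closed in `D` and contained in the compact set `{vt ≥ ε} ⊆ D` (`v₂ ≥ 0`). So `v₂ = vt` on
`D`. If `s > 1`: at `q = (0, 1/s)`, `vt = 0` (outside `D`) but `v₂ > 0` (`q ∈ Ell α`), and `q` is a
limit of points of `D`: contradiction to continuity. So `s = 1`.

`nondeg`: `φ` even, `-lap φ = μ e^v φ + m e^v`, zero outside, `φ(0) = 0`. Replacing `φ`, `m` by their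
negatives let `m ≥ 0`. `X := x·∇v`: `lap X = 2 lap v + x·∇(lap v)`, so `-lap X = E X + 2E`,
`E = μ e^v`. `ζ := φ - (m/(2μ)) X`: `-lap ζ = E ζ`, `ζ(0) = 0`, `ζ ≥ φ` in `Ell α` by
`euler_nonpos`, so `{ζ ≤ -ε}` is a relatively closed subset of the compact set `{φ ≤ -ε} ⊆ Ell α`,
hence closed. `ζ` bounded: `dir_c1` for `v`. `hk_linear`: `ζ = 0` in `Ell α`. If `m = 0`: `φ = 0`.
If `m > 0`: `X = (2μ/m) φ`
in `Ell α` has zero boundary values. On the `y`-axis `X(0,s) = s ∂_y v(0,s)`, so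
`∂_y v (0,s) → 0` for `s → 1`, and `v(0,s) = -∫_s^1 ∂_y v(0,r) dr = o(1 - s)`. But `v ≥ c wE` with
`c = μ/(2(1+α²)) > 0` (`dir_le` or `wmp_bdd`: `-lap (c wE) = μ ≤ μ e^v`), and `wE (0,s) = 1 - s² ≥ 1 - s`:
contradiction.
-/

open scoped ContDiff

namespace Pool.Agent.MFE

private theorem AMP_two : (2 : WithTop ℕ∞) ≤ ∞ := WithTop.coe_le_coe.2 le_top

private theorem AMP_three : (3 : WithTop ℕ∞) ≤ ∞ := WithTop.coe_le_coe.2 le_top

private theorem AMP_mem {α : ℝ} {q : ℝ × ℝ} : q ∈ Ell α ↔ 0 < wE α q := by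
  unfold Ell wE
  rw [Set.mem_ofPred_eq]
  constructor <;> intro h <;> linarith

private theorem AMP_cmem {α : ℝ} {q : ℝ × ℝ} : q ∈ CEll α ↔ 0 ≤ wE α q := by
  unfold CEll wE
  rw [Set.mem_ofPred_eq]
  constructor <;> intro h <;> linarith

private theorem AMP_zero (α : ℝ) : ((0 : ℝ), (0 : ℝ)) ∈ Ell α := by
  rw [AMP_mem]; simp [wE]

private theorem AMP_snd {α : ℝ} {q : ℝ × ℝ} (hq : q ∈ CEll α) : |q.2| ≤ 1 := by
  have h : α ^ 2 * q.1 ^ 2 + q.2 ^ 2 ≤ 1 := hq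
  have h1 : |q.2| ^ 2 ≤ 1 ^ 2 := by
    rw [sq_abs]
    nlinarith [sq_nonneg (α * q.1)]
  exact le_of_sq_le_sq h1 (by norm_num)

private theorem AMP_str (α : ℝ) : Ell α ⊆ Str 2 := by
  intro q hq
  have h : α ^ 2 * q.1 ^ 2 + q.2 ^ 2 < 1 := hq
  have := AMP_snd (α := α) (q := q) h.le
  show |q.2| < 2
  linarith

private theorem AMP_fst {α : ℝ} (hα : 0 < α) {q : ℝ × ℝ} (hq : q ∈ CEll α) :
    |q.1| ≤ 1 / α := by
  have h : α ^ 2 * q.1 ^ 2 + q.2 ^ 2 ≤ 1 := hq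
  rw [le_div_iff₀ hα]
  have h1 : (|q.1| * α) ^ 2 ≤ 1 ^ 2 := by
    rw [mul_pow, sq_abs]
    nlinarith [sq_nonneg q.2]
  exact le_of_sq_le_sq h1 (by norm_num)

private theorem AMP_sub (α : ℝ) : Ell α ⊆ CEll α := fun q hq => by
  have h : α ^ 2 * q.1 ^ 2 + q.2 ^ 2 < 1 := hq
  exact h.le

theorem gsol_dir {α μ : ℝ} {v : ℝ × ℝ → ℝ} (h : GSol α μ v) :
    Dir α (fun q => μ * Real.exp (v q)) v :=
  ⟨h.cont, h.zero, weak_of_c2 (isOpen_ell α) (h.smooth.of_le AMP_two) h.eq⟩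

theorem gsol_of_dir {α μ : ℝ} {v : ℝ × ℝ → ℝ} (hμ : 0 < μ)
    (h : Dir α (fun q => μ * Real.exp (v q)) v) : GSol α μ v := by
  obtain ⟨h1, h2⟩ := reg_exp (isOpen_ell α) h.cont.continuousOn h.weak
  exact ⟨hμ, h.cont, h.zero, h1, h2⟩

private theorem AMP_core {α μ₁ μ₂ : ℝ} {v₁ v₂ : ℝ × ℝ → ℝ} (hα : 0 < α)
    (h1 : GSol α μ₁ v₁) (h2 : GSol α μ₂ v₂) (h0 : v₁ (0, 0) = v₂ (0, 0)) (hle : μ₁ ≤ μ₂) :
    μ₁ = μ₂ ∧ v₁ = v₂ := by
  have p1 := h1.mu_pos
  have p2 := h2.mu_pos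
  obtain ⟨s, hs⟩ : ∃ s, s = Real.sqrt (μ₂ / μ₁) := ⟨_, rfl⟩
  have hq1 : 1 ≤ μ₂ / μ₁ := by rw [le_div_iff₀ p1]; linarith
  have hs1 : 1 ≤ s := by
    rw [hs]
    exact Real.one_le_sqrt.2 hq1
  have hs0 : 0 < s := by linarith
  have hs2 : s ^ 2 * μ₁ = μ₂ := by
    rw [hs, Real.sq_sqrt (by linarith)]
    field_simp
  have cg : ContDiff ℝ ∞ (fun q : ℝ × ℝ => ((s * q.1, s * q.2) : ℝ × ℝ)) := by fun_prop
  have ccg : Continuous (fun q : ℝ × ℝ => ((s * q.1, s * q.2) : ℝ × ℝ)) := cg.continuous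
  obtain ⟨D, hD⟩ : ∃ D : Set (ℝ × ℝ), D = {q | (s * q.1, s * q.2) ∈ Ell α} := ⟨_, rfl⟩
  have hDm : ∀ q, q ∈ D ↔ (s * q.1, s * q.2) ∈ Ell α := fun q => by rw [hD]; rfl
  have hDo : IsOpen D := by
    rw [hD]
    exact (isOpen_ell α).preimage ccg
  have hsol : Solid D := by
    refine ⟨hDo, ?_, ?_⟩
    · rw [hDm]
      show ((s * 0, s * 0) : ℝ × ℝ) ∈ Ell α
      rw [mul_zero]
      exact AMP_zero α
    · intro x y x' y' hxy hx hy
      rw [hDm] at hxy ⊢
      refine (solid_ell hα).solid (s * x) (s * y) (s * x') (s * y') hxy ?_ ?_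
      · rw [abs_mul, abs_mul]
        exact mul_le_mul_of_nonneg_left hx (abs_nonneg _)
      · rw [abs_mul, abs_mul]
        exact mul_le_mul_of_nonneg_left hy (abs_nonneg _)
  have hDE : D ⊆ Ell α := by
    intro q hq
    rw [hDm] at hq
    refine (solid_ell hα).solid (s * q.1) (s * q.2) q.1 q.2 hq ?_ ?_
    · rw [abs_mul, abs_of_pos hs0]
      nlinarith [abs_nonneg q.1]
    · rw [abs_mul, abs_of_pos hs0]
      nlinarith [abs_nonneg q.2]
  have hL : D ⊆ Str 2 := hDE.trans (AMP_str α)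
  have hmt : Set.MapsTo (fun q : ℝ × ℝ => ((s * q.1, s * q.2) : ℝ × ℝ)) D (Ell α) :=
    fun q hq => (hDm q).1 hq
  have hvt : ContDiffOn ℝ 2 (fun q : ℝ × ℝ => v₁ (s * q.1, s * q.2)) D :=
    (h1.smooth.comp cg.contDiffOn hmt).of_le AMP_two
  have hvtc : Continuous (fun q : ℝ × ℝ => v₁ (s * q.1, s * q.2)) := h1.cont.comp ccg
  have lap1 : ∀ q ∈ D, lap (fun q : ℝ × ℝ => v₁ (s * q.1, s * q.2)) q =
      s ^ 2 * lap v₁ (s * q.1, s * q.2) := fun q hq =>
    lap_scale s (isOpen_ell α) (h1.smooth.of_le AMP_two) ((hDm q).1 hq)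
  have sup2 : Super D (fun q => μ₂ * Real.exp (v₂ q)) := by
    obtain ⟨⟨gx, cx, gx1⟩, ⟨gy, cy, gy1⟩⟩ := h2.super hα
    exact ⟨⟨gx, cx.mono (Set.inter_subset_inter_left _ hDE), fun q hq h => gx1 q (hDE hq) h⟩,
      ⟨gy, cy.mono (Set.inter_subset_inter_left _ hDE), fun q hq h => gy1 q (hDE hq) h⟩⟩
  have sup1 : Super D (fun q => μ₂ * Real.exp (v₁ (s * q.1, s * q.2))) := by
    obtain ⟨⟨gx, cx, gx1⟩, ⟨gy, cy, gy1⟩⟩ := h1.super hα
    have ox : IsOpen (Ell α ∩ {q : ℝ × ℝ | 0 < q.1}) :=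
      (isOpen_ell α).inter (isOpen_lt continuous_const continuous_fst)
    have oy : IsOpen (Ell α ∩ {q : ℝ × ℝ | 0 < q.2}) :=
      (isOpen_ell α).inter (isOpen_lt continuous_const continuous_snd)
    refine ⟨⟨fun q => gx (s * q.1, s * q.2), cx.comp (cg.of_le AMP_two).contDiffOn ?_, ?_⟩,
      ⟨fun q => gy (s * q.1, s * q.2), cy.comp (cg.of_le AMP_two).contDiffOn ?_, ?_⟩⟩
    · exact fun q hq => ⟨(hDm q).1 hq.1, mul_pos hs0 hq.2⟩
    · intro q hq hx
      obtain ⟨a1, a2⟩ := gx1 _ ((hDm q).1 hq) (mul_pos hs0 hx)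
      refine ⟨a1, ?_⟩
      rw [lap_scale s ox cx ⟨(hDm q).1 hq, mul_pos hs0 hx⟩]
      have a3 := mul_le_mul_of_nonneg_left a2 (sq_nonneg s)
      calc μ₂ * Real.exp (v₁ (s * q.1, s * q.2)) * gx (s * q.1, s * q.2)
          = s ^ 2 * (μ₁ * Real.exp (v₁ (s * q.1, s * q.2)) * gx (s * q.1, s * q.2)) := by
            rw [← hs2]; ring
        _ ≤ s ^ 2 * -lap gx (s * q.1, s * q.2) := a3
        _ = -(s ^ 2 * lap gx (s * q.1, s * q.2)) := by ring
    · exact fun q hq => ⟨(hDm q).1 hq.1, mul_pos hs0 hq.2⟩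
    · intro q hq hx
      obtain ⟨a1, a2⟩ := gy1 _ ((hDm q).1 hq) (mul_pos hs0 hx)
      refine ⟨a1, ?_⟩
      rw [lap_scale s oy cy ⟨(hDm q).1 hq, mul_pos hs0 hx⟩]
      have a3 := mul_le_mul_of_nonneg_left a2 (sq_nonneg s)
      calc μ₂ * Real.exp (v₁ (s * q.1, s * q.2)) * gy (s * q.1, s * q.2)
          = s ^ 2 * (μ₁ * Real.exp (v₁ (s * q.1, s * q.2)) * gy (s * q.1, s * q.2)) := by
            rw [← hs2]; ring
        _ ≤ s ^ 2 * -lap gy (s * q.1, s * q.2) := a3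
        _ = -(s ^ 2 * lap gy (s * q.1, s * q.2)) := by ring
  have key := hk_compare hsol hL (μ := μ₂) (M := v₂ (0, 0)) p2 (v₁ := v₂)
    (v₂ := fun q => v₁ (s * q.1, s * q.2)) ((h2.smooth.mono hDE).of_le AMP_two) hvt
    (h2.evx hα) (h2.evy hα)
    (fun x y => by
      show v₁ (s * -x, s * y) = v₁ (s * x, s * y)
      rw [mul_neg]
      exact h1.evx hα _ _)
    (fun x y => by
      show v₁ (s * x, s * -y) = v₁ (s * x, s * y)
      rw [mul_neg]
      exact h1.evy hα _ _)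
    (fun q _ => by rw [abs_of_nonneg (h2.nonneg hα q)]; exact h2.le_max hα q)
    (fun q _ => by
      rw [abs_of_nonneg (h1.nonneg hα _), ← h0]
      exact h1.le_max hα _)
    (fun q hq => h2.eq q (hDE hq))
    (fun q hq => by
      rw [lap1 q hq]
      have e := h1.eq _ ((hDm q).1 hq)
      rw [← hs2]
      calc -(s ^ 2 * lap v₁ (s * q.1, s * q.2)) = s ^ 2 * -lap v₁ (s * q.1, s * q.2) := by ring
        _ = s ^ 2 * μ₁ * Real.exp (v₁ (s * q.1, s * q.2)) := by rw [e]; ring)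
    sup2 sup1 (by
      show v₂ (0, 0) = v₁ (s * 0, s * 0)
      rw [mul_zero, h0])
    (fun ε hε => by
      have e : {q | q ∈ D ∧ v₂ q ≤ v₁ (s * q.1, s * q.2) - ε} =
          {q | v₂ q ≤ v₁ (s * q.1, s * q.2) - ε} := by
        ext q
        refine ⟨fun h => h.2, fun h => ⟨?_, h⟩⟩
        by_contra hq
        have h3 : v₁ (s * q.1, s * q.2) = 0 := h1.zero _ fun h => hq ((hDm q).2 h)
        have h4 := h2.nonneg hα q
        have h5 : v₂ q ≤ v₁ (s * q.1, s * q.2) - ε := h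
        linarith
      rw [e]
      exact isClosed_le h2.cont (hvtc.sub continuous_const))
  have hs_eq : s = 1 := by
    by_contra hne
    have hgt : 1 < s := lt_of_le_of_ne hs1 (Ne.symm hne)
    have hcl : ((0 : ℝ), 1 / s) ∈ closure D := by
      have c1 : Continuous (fun q : ℝ × ℝ => ((q.1 / s, q.2 / s) : ℝ × ℝ)) := by fun_prop
      have c2 : ((0 : ℝ), (1 : ℝ)) ∈ closure (Ell α) := by
        rw [closure_ell hα, AMP_cmem]
        simp [wE]
      have c3 := map_mem_closure c1 c2 (t := D) (fun q hq => by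
        rw [hDm]
        show ((s * (q.1 / s), s * (q.2 / s)) : ℝ × ℝ) ∈ Ell α
        rw [mul_div_cancel₀ _ hs0.ne', mul_div_cancel₀ _ hs0.ne']
        exact hq)
      simpa using c3
    have hcc : IsClosed {q : ℝ × ℝ | v₂ q = v₁ (s * q.1, s * q.2)} := isClosed_eq h2.cont hvtc
    have e1 : v₂ ((0 : ℝ), 1 / s) = v₁ (s * (0 : ℝ), s * (1 / s)) :=
      closure_minimal (fun q hq => key q hq) hcc hcl
    rw [mul_zero, mul_one_div_cancel hs0.ne'] at e1
    have e2 : v₁ ((0 : ℝ), (1 : ℝ)) = 0 := h1.zero _ (by rw [AMP_mem]; simp [wE])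
    have e3 : 0 < v₂ ((0 : ℝ), 1 / s) := by
      apply h2.pos hα
      rw [AMP_mem]
      have : 1 / s < 1 := by rw [div_lt_one hs0]; exact hgt
      have h4 : 0 < 1 / s := by positivity
      show 0 < 1 - α ^ 2 * (0 : ℝ) ^ 2 - (1 / s) ^ 2
      nlinarith
    linarith
  have hμ : μ₁ = μ₂ := by rw [← hs2, hs_eq]; ring
  refine ⟨hμ, ?_⟩
  funext q
  by_cases hq : q ∈ Ell α
  · have := key q ((hDm q).2 (by rw [hs_eq, one_mul, one_mul]; exact hq))
    rw [this]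
    show v₁ q = v₁ (s * q.1, s * q.2)
    rw [hs_eq, one_mul, one_mul]
  · rw [h1.zero q hq, h2.zero q hq]

theorem amp_unique {α μ₁ μ₂ : ℝ} {v₁ v₂ : ℝ × ℝ → ℝ} (hα : 0 < α) (hα1 : α ≤ 1)
    (h1 : GSol α μ₁ v₁) (h2 : GSol α μ₂ v₂) (h0 : v₁ (0, 0) = v₂ (0, 0)) :
    μ₁ = μ₂ ∧ v₁ = v₂ := by
  rcases le_total μ₁ μ₂ with h | h
  · exact AMP_core hα h1 h2 h0 h
  · obtain ⟨e1, e2⟩ := AMP_core hα h2 h1 h0.symm h
    exact ⟨e1.symm, e2.symm⟩

/-- barrier from below -/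
private theorem AMP_low {α μ : ℝ} {v : ℝ × ℝ → ℝ} (hα : 0 < α) (h : GSol α μ v) :
    ∀ q ∈ CEll α, μ / (2 * (1 + α ^ 2)) * wE α q ≤ v q := by
  have hs : ContDiff ℝ ∞ (wE α) := by unfold wE; fun_prop
  have hfr : ∀ q ∈ frontier (Ell α), q ∈ CEll α ∧ q ∉ Ell α := by
    intro q hq
    rw [frontier, (isOpen_ell α).interior_eq, closure_ell hα] at hq
    exact hq
  have key := wmp_bdd (isOpen_ell α)
    (((isCompact_cell hα).isBounded).subset (AMP_sub α))
    (u := fun q => μ / (2 * (1 + α ^ 2)) * wE α q) (b := v)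
    ((contDiff_const.mul (hs.of_le AMP_two)).contDiffOn) (h.smooth.of_le AMP_two)
    ((continuous_const.mul hs.continuous).continuousOn) h.cont.continuousOn
    (fun q hq => by
      rw [lap_const_mul isOpen_univ _ (hs.of_le AMP_two).contDiffOn (Set.mem_univ q), lap_wE,
        h.eq q hq]
      have h1 : 1 ≤ Real.exp (v q) := Real.one_le_exp (h.nonneg hα q)
      have h2 : -(μ / (2 * (1 + α ^ 2)) * (-2 * (1 + α ^ 2))) = μ := by
        have : (1 + α ^ 2) ≠ 0 := by positivity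
        field_simp
      rw [h2]
      have := h.mu_pos
      nlinarith)
    (fun q hq => by
      obtain ⟨a1, a2⟩ := hfr q hq
      rw [AMP_cmem] at a1
      have a3 : wE α q = 0 := le_antisymm (not_lt.1 fun hh => a2 (AMP_mem.2 hh)) a1
      rw [a3, mul_zero, h.zero q a2])
  intro q hq
  rw [← closure_ell hα] at hq
  exact key q hq

private theorem AMP_nd {α μ m : ℝ} {v φ : ℝ × ℝ → ℝ} (hα : 0 < α) (hα1 : α ≤ 1)
    (h : GSol α μ v) (hm : 0 ≤ m)
    (hc : Continuous φ) (hz : ∀ q, q ∉ Ell α → φ q = 0) (hs : ContDiffOn ℝ ∞ φ (Ell α))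
    (evx : EvX φ) (evy : EvY φ) (h0 : φ (0, 0) = 0)
    (heq : ∀ q ∈ Ell α, -lap φ q = μ * Real.exp (v q) * φ q + m * Real.exp (v q)) :
    (∀ q, φ q = 0) ∧ m = 0 := by
  have hμ := h.mu_pos
  have hv2 := h.smooth.of_le AMP_two
  obtain ⟨X, hX⟩ : ∃ X : ℝ × ℝ → ℝ, X = fun z => z.1 * dx v z + z.2 * dy v z := ⟨_, rfl⟩
  have hXs : ContDiffOn ℝ ∞ X (Ell α) := by
    rw [hX]
    exact (contDiff_fst.contDiffOn.mul (smooth_dx (isOpen_ell α) h.smooth)).add
      (contDiff_snd.contDiffOn.mul (smooth_dy (isOpen_ell α) h.smooth))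
  have hXv : ∀ z, X z = z.1 * dx v z + z.2 * dy v z := fun z => by rw [hX]
  have hlapX : ∀ q ∈ Ell α, -lap X q = μ * Real.exp (v q) * X q + 2 * (μ * Real.exp (v q)) := by
    intro q hq
    have e1 := lap_euler (isOpen_ell α) (h.smooth.of_le AMP_three) hq
    rw [← hX] at e1
    have hdv : DifferentiableAt ℝ v q :=
      (hv2.contDiffAt ((isOpen_ell α).mem_nhds hq)).differentiableAt (by norm_num)
    have hle : ∀ z ∈ Ell α, lap v z = -μ * Real.exp (v z) := fun z hz => by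
      have := h.eq z hz
      linarith
    have hde : DifferentiableAt ℝ (fun z => Real.exp (v z)) q := hdv.exp
    have e2 : dx (lap v) q = -μ * (Real.exp (v q) * dx v q) := by
      rw [dx_congr (isOpen_ell α) hle hq, dx_const_mul _ hde,
        dx_comp hdv Real.differentiableAt_exp, Real.deriv_exp]
    have e3 : dy (lap v) q = -μ * (Real.exp (v q) * dy v q) := by
      rw [dy_congr (isOpen_ell α) hle hq, dy_const_mul _ hde,
        dy_comp hdv Real.differentiableAt_exp, Real.deriv_exp]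
    rw [e1, e2, e3, hle q hq, hXv q]
    ring
  obtain ⟨ζ, hζ⟩ : ∃ ζ : ℝ × ℝ → ℝ, ζ = fun z => φ z - m / (2 * μ) * X z := ⟨_, rfl⟩
  have hζv : ∀ z, ζ z = φ z - m / (2 * μ) * X z := fun z => by rw [hζ]
  have hζs : ContDiffOn ℝ ∞ ζ (Ell α) := by
    rw [hζ]
    exact hs.sub (contDiffOn_const.mul hXs)
  have hXn : ∀ q ∈ Ell α, X q ≤ 0 := fun q hq => by
    rw [hXv]
    exact h.euler_nonpos hα q hq
  have hm2 : 0 ≤ m / (2 * μ) := by positivity
  have hζφ : ∀ q ∈ Ell α, φ q ≤ ζ q := fun q hq => by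
    rw [hζv]
    nlinarith [hXn q hq]
  -- bounds
  have hrc : Continuous (fun q => μ * Real.exp (v q)) :=
    continuous_const.mul (Real.continuous_exp.comp h.cont)
  obtain ⟨C, hC⟩ : ∃ C, C = μ * Real.exp (v (0, 0)) := ⟨_, rfl⟩
  have hE : ∀ q, 0 < μ * Real.exp (v q) ∧ μ * Real.exp (v q) ≤ C := fun q => by
    rw [hC]
    exact ⟨by positivity, mul_le_mul_of_nonneg_left (Real.exp_le_exp.2 (h.le_max hα q)) hμ.le⟩
  obtain ⟨-, gx, gy, -, -, g1, g2⟩ := dir_c1 hα hα1 hrc.continuousOn (gsol_dir h) (M := C)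
    (fun q _ => by rw [abs_of_pos (hE q).1]; exact (hE q).2)
  have hXb : ∀ q ∈ Ell α, |X q| ≤ 1 / α * (17 * C) + 1 * (17 * C) := by
    intro q hq
    rw [hXv, (g1 q hq).1, (g1 q hq).2]
    have hC0 : 0 ≤ 17 * C := (abs_nonneg _).trans (g2 q (AMP_sub α hq)).1
    refine (abs_add_le _ _).trans (add_le_add ?_ ?_)
    · rw [abs_mul]
      exact mul_le_mul (AMP_fst hα (AMP_sub α hq)) (g2 q (AMP_sub α hq)).1 (abs_nonneg _)
        (by positivity)
    · rw [abs_mul]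
      exact mul_le_mul (AMP_snd (AMP_sub α hq)) (g2 q (AMP_sub α hq)).2 (abs_nonneg _)
        (by norm_num)
  obtain ⟨B, hB⟩ := (isCompact_cell hα).exists_bound_of_continuousOn (hc.continuousOn (s := CEll α))
  have hζb : ∀ q ∈ Ell α, |ζ q| ≤ B + m / (2 * μ) * (1 / α * (17 * C) + 1 * (17 * C)) := by
    intro q hq
    rw [hζv]
    refine (abs_sub _ _).trans (add_le_add (hB q (AMP_sub α hq)) ?_)
    rw [abs_mul, abs_of_nonneg hm2]
    exact mul_le_mul_of_nonneg_left (hXb q hq) hm2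
  have hζ0 : ∀ q ∈ Ell α, ζ q = 0 := by
    refine hk_linear (solid_ell hα) (AMP_str α) (c := fun q => μ * Real.exp (v q)) (C := C)
      hrc.continuousOn (fun q _ => hE q) (hζs.of_le AMP_two) ?_ ?_ ?_ ?_ hζb ?_ (h.super hα)
    · intro x y
      rw [hζv, hζv, hXv, hXv, evx]
      show φ (x, y) - m / (2 * μ) * (-x * dx v (-x, y) + y * dy v (-x, y)) =
        φ (x, y) - m / (2 * μ) * (x * dx v (x, y) + y * dy v (x, y))
      rw [dx_of_evx (h.evx hα), dy_of_evx (h.evx hα)]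
      ring
    · intro x y
      rw [hζv, hζv, hXv, hXv, evy]
      show φ (x, y) - m / (2 * μ) * (x * dx v (x, -y) + -y * dy v (x, -y)) =
        φ (x, y) - m / (2 * μ) * (x * dx v (x, y) + y * dy v (x, y))
      rw [dx_of_evy (h.evy hα), dy_of_evy (h.evy hα)]
      ring
    · rw [hζv, hXv, h0]
      simp
    · intro q hq
      have e1 : lap ζ q = lap φ q - m / (2 * μ) * lap X q := by
        rw [hζ, lap_sub (isOpen_ell α) (hs.of_le AMP_two)
          (contDiffOn_const.mul (hXs.of_le AMP_two)) hq,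
          lap_const_mul (isOpen_ell α) _ (hXs.of_le AMP_two) hq]
      have e2 := heq q hq
      have e3 := hlapX q hq
      have e4 : -lap ζ q = -lap φ q - m / (2 * μ) * -lap X q := by rw [e1]; ring
      rw [e4, e2, e3, hζv]
      field_simp
      ring
    · intro ε hε
      have hK : IsClosed {q | φ q ≤ -ε} := isClosed_le hc continuous_const
      have hKE : {q | φ q ≤ -ε} ⊆ Ell α := by
        intro q hq
        by_contra hne
        have h1 : φ q ≤ -ε := hq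
        rw [hz q hne] at h1
        linarith
      have e : {q | q ∈ Ell α ∧ ζ q ≤ -ε} = {q | φ q ≤ -ε} ∩ ζ ⁻¹' Set.Iic (-ε) := by
        ext q
        constructor
        · intro hq
          exact ⟨(hζφ q hq.1).trans hq.2, hq.2⟩
        · intro hq
          exact ⟨hKE hq.1, hq.2⟩
      rw [e]
      exact (hζs.continuousOn.mono hKE).preimage_isClosed_of_isClosed hK isClosed_Iic
  have hm0 : m = 0 := by
    by_contra hne
    have hmp : 0 < m := lt_of_le_of_ne hm (Ne.symm hne)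
    -- on the axis
    have hax : ∀ r : ℝ, 0 < r → r < 1 → r * dy v (0, r) = 2 * μ / m * φ (0, r) := by
      intro r hr hr1
      have hmem : ((0 : ℝ), r) ∈ Ell α := by
        rw [AMP_mem]
        show 0 < 1 - α ^ 2 * (0 : ℝ) ^ 2 - r ^ 2
        nlinarith
      have e1 := hζ0 _ hmem
      rw [hζv, hXv] at e1
      have e2 : φ (0, r) = m / (2 * μ) * (r * dy v (0, r)) := by
        have : φ (0, r) - m / (2 * μ) * ((0 : ℝ) * dx v (0, r) + r * dy v (0, r)) = 0 := e1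
        linarith
      rw [e2]
      field_simp
    obtain ⟨c, hcdef⟩ : ∃ c, c = μ / (2 * (1 + α ^ 2)) := ⟨_, rfl⟩
    have hcp : 0 < c := by rw [hcdef]; positivity
    have hφ1 : φ ((0 : ℝ), (1 : ℝ)) = 0 := hz _ (by rw [AMP_mem]; simp [wE])
    have hv1 : v ((0 : ℝ), (1 : ℝ)) = 0 := h.zero _ (by rw [AMP_mem]; simp [wE])
    -- φ (0, r) is small near r = 1
    have hcr : Continuous (fun r : ℝ => φ ((0 : ℝ), r)) := hc.comp (by fun_prop)
    have hδ : 0 < c * m / (4 * μ) := by positivity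
    obtain ⟨δ, hδ0, hδ1⟩ := Metric.continuous_iff.1 hcr 1 _ hδ
    obtain ⟨s, hs1, hs2, hs3⟩ : ∃ s : ℝ, 1 / 2 < s ∧ s < 1 ∧ 1 - δ < s := by
      refine ⟨max (3 / 4) (1 - δ / 2), ?_, ?_, ?_⟩
      · exact lt_of_lt_of_le (by norm_num) (le_max_left _ _)
      · exact max_lt (by norm_num) (by linarith)
      · exact lt_of_lt_of_le (by linarith) (le_max_right _ _)
    have hder : ∀ r ∈ Set.Ioo s 1, HasDerivAt (fun r : ℝ => v ((0 : ℝ), r)) (dy v (0, r)) r := by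
      intro r hr
      have hmem : ((0 : ℝ), r) ∈ Ell α := by
        rw [AMP_mem]
        show 0 < 1 - α ^ 2 * (0 : ℝ) ^ 2 - r ^ 2
        nlinarith [hr.1, hr.2]
      have hd : DifferentiableAt ℝ v ((0 : ℝ), r) :=
        (hv2.contDiffAt ((isOpen_ell α).mem_nhds hmem)).differentiableAt (by norm_num)
      exact hasDerivAt_dy hd
    have hvc : Continuous (fun r : ℝ => v ((0 : ℝ), r)) := h.cont.comp (by fun_prop)
    obtain ⟨r, hr, hr2⟩ := exists_hasDerivAt_eq_slope (fun r : ℝ => v ((0 : ℝ), r))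
      (fun r => dy v (0, r)) hs2 hvc.continuousOn hder
    have hr0 : 0 < r := by linarith [hr.1]
    have e1 := hax r hr0 hr.2
    have e2 := AMP_low hα h (0, s) (by
      rw [AMP_cmem]
      show 0 ≤ 1 - α ^ 2 * (0 : ℝ) ^ 2 - s ^ 2
      nlinarith)
    rw [← hcdef] at e2
    have e2' : c * (1 - α ^ 2 * (0 : ℝ) ^ 2 - s ^ 2) ≤ v (0, s) := e2
    have e3 : dy v (0, r) * (1 - s) = v (0, 1) - v (0, s) := by
      rw [hr2]
      have : (1 - s) ≠ 0 := by linarith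
      field_simp
    rw [hv1] at e3
    have e4 : dy v (0, r) ≤ -c := by
      by_contra hh
      push Not at hh
      have h1s : 0 < 1 - s := by linarith
      have := mul_lt_mul_of_pos_right hh h1s
      have h9 : 1 - α ^ 2 * (0 : ℝ) ^ 2 - s ^ 2 = 1 - s ^ 2 := by ring
      rw [h9] at e2'
      have h5 : c * (1 - s) ≤ c * (1 - s ^ 2) := mul_le_mul_of_nonneg_left (by nlinarith) hcp.le
      linarith
    have e5 := hδ1 r (by
      rw [Real.dist_eq, abs_lt]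
      constructor <;> linarith [hr.1, hr.2])
    rw [Real.dist_eq, hφ1, sub_zero] at e5
    have e6 := (abs_lt.1 e5).1
    have e7 : -(c / 2) < 2 * μ / m * φ (0, r) := by
      have h1 : 0 < 2 * μ / m := by positivity
      have h2 := mul_lt_mul_of_pos_left e6 h1
      have h3 : 2 * μ / m * -(c * m / (4 * μ)) = -(c / 2) := by
        field_simp
        ring
      linarith
    rw [← e1] at e7
    have h2r : 1 / 2 < r := by linarith [hr.1]
    nlinarith
  refine ⟨fun q => ?_, hm0⟩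
  by_cases hq : q ∈ Ell α
  · have := hζ0 q hq
    rw [hζv, hm0] at this
    simpa using this
  · exact hz q hq

theorem nondeg {α μ m : ℝ} {v φ : ℝ × ℝ → ℝ} (hα : 0 < α) (hα1 : α ≤ 1) (h : GSol α μ v)
    (hc : Continuous φ) (hz : ∀ q, q ∉ Ell α → φ q = 0) (hs : ContDiffOn ℝ ∞ φ (Ell α))
    (evx : EvX φ) (evy : EvY φ) (h0 : φ (0, 0) = 0)
    (heq : ∀ q ∈ Ell α, -lap φ q = μ * Real.exp (v q) * φ q + m * Real.exp (v q)) :
    (∀ q, φ q = 0) ∧ m = 0 := by
  rcases le_total 0 m with hm | hm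
  · exact AMP_nd hα hα1 h hm hc hz hs evx evy h0 heq
  · have key := AMP_nd hα hα1 h (m := -m) (φ := fun q => -1 * φ q) (by linarith)
      (continuous_const.mul hc) (fun q hq => by rw [hz q hq, mul_zero])
      (contDiffOn_const.mul hs)
      (fun x y => by
        show -1 * φ (-x, y) = -1 * φ (x, y)
        rw [evx])
      (fun x y => by
        show -1 * φ (x, -y) = -1 * φ (x, y)
        rw [evy])
      (by rw [h0, mul_zero]) (fun q hq => by
        rw [lap_const_mul (isOpen_ell α) _ (hs.of_le AMP_two) hq]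
        have := heq q hq
        linarith)
    refine ⟨fun q => ?_, by linarith [key.2]⟩
    have := key.1 q
    linarith

end Pool.Agent.MFE
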