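import Pool.Agent.MFE.DIR

/-!
# MFE.BFD: the Banach space of bounded continuous functions on the plane (definitions)
-/

open scoped BoundedContinuousFunction

namespace Pool.Agent.MFE

/-- bounded continuous functions on the plane with the sup norm -/
abbrev BF := (ℝ × ℝ) →ᵇ ℝ

/-- average over the four reflections -/
noncomputable def sym4 (f : ℝ × ℝ → ℝ) (q : ℝ × ℝ) : ℝ :=
  (f (q.1, q.2) + f (-q.1, q.2) + f (q.1, -q.2) + f (-q.1, -q.2)) / 4

/-- `K` is the (symmetrised) solution operator of the Dirichlet problem -/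
structure IsKop (α : ℝ) (K : BF →L[ℝ] BF) : Prop where
  dir : ∀ f : BF, Dir α (sym4 f) (K f)
  comp : IsCompactOperator K
  evx : ∀ f : BF, EvX (K f)
  evy : ∀ f : BF, EvY (K f)

/-- `E` is the exponential map -/
def IsExp (E : BF → BF) : Prop := ∀ (f : BF) (q : ℝ × ℝ), E f q = Real.exp (f q)

end Pool.Agent.MFE
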