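import Pool.Agent.MFE.STB

/-!
# MFE.STC: the family of bump solutions: existence for every amplitude `> pst`, estimates

`bump_exists`: for `0 < a < ast` the function `k ↦ k cos k cosh a - a sin k sinh a` on `(0, π/2)`,
divided by `sin k cosh a`: `k cot k - a tanh a`, is strictly decreasing (`(k cot k)' =
(sin k cos k - k)/sin² k < 0`) from `1 - a tanh a > 0` to `-a tanh a < 0`; so there is a unique
`k = k(a)`, continuous in `a`. `pB a (k a) → pst` for `a → ast` (`k → 0`) and `→ ∞` for `a → 0`
(`k → π/2`, `k²/a² → ∞`). Intermediate value theorem. (It suffices: for `p > pst`, find `a₁` with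
`pB a₁ (k a₁) > p` and `a₂` with `pB a₂ (k a₂) < p`; continuity of `a ↦ k a` on `[a₁,a₂]`: strict
monotonicity, or parametrise the other way round: for `k ∈ (0,π/2)` let `a = a(k)` be the inverse
of the increasing homeomorphism `a ↦ a tanh a`.)
`bump_amp_gt`: `pB a k > pst` for every bump: `f(a) := pB a (k(a))`... direct argument: the
function `a ↦ log (cosh a (1 + k²/a²))` along the curve is decreasing; or by comparison. Direct:
with `s = a tanh a = k cot k ∈ (0,1)` one has `a² = s² + ...`; simplest: `d/ds` of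
`A(s) = log cosh a(s)`: `A' = tanh a · a'`, `a' = 1/(tanh a + a/cosh² a)`, so `A' ≤ 1` and
`A' = s a'/a ≤ ...`; `B(s) = log (1 + k²/a²) = log (a² + k²) - 2 log a`. Since
`d(log a)/ds = a'/a = 1/(s + a²/cosh² a) ≥ ...`. If this is awkward use the comparison
principle: a bump with amplitude `≤ pst` would equal a one dimensional solution (`hk_compare`).
(`bump_amp_gt` is not needed for the other modules; it may be dropped.)
`bump_mu_lower`: `mu1 a e^{pB/2} = 2(a²+k²)/cosh a`. If `a ≥ 1/2`: `≥ 2 (1/4)/cosh (5/4) ≥ 1/4`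
(`cosh (5/4) < 2`). If `a < 1/2`: `k cot k = a tanh a < 1/4`, so `k ≥ 1` (`cot 1 = 0.642 > 1/4`),
and `2(a²+k²)/cosh a ≥ 2/cosh(1/2) ≥ 1`.
-/

open scoped ContDiff

namespace Pool.Agent.MFE

theorem bump_exists {p : ℝ} (hp : pst < p) : ∃ a k : ℝ, Bump a k ∧ pB a k = p := by
  set P : ℝ := Real.exp (p / 2) with hP
  have hlog : Real.log (Real.cosh ast) < p / 2 := by
    have h : 2 * Real.log (Real.cosh ast) < p := hp
    linarith
  have hPc : Real.cosh ast < P := by
    rw [hP, ← Real.exp_log (Real.cosh_pos ast)]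
    exact Real.exp_lt_exp.2 hlog
  have hle : ∀ a ∈ Set.Icc (0 : ℝ) ast, Real.cosh a < P := by
    intro a ha
    refine lt_of_le_of_lt ?_ hPc
    rw [Real.cosh_le_cosh, abs_of_nonneg ha.1, abs_of_pos ast_pos]
    exact ha.2
  set r : ℝ → ℝ := fun a => √(P / Real.cosh a - 1) with hr
  set κ : ℝ → ℝ := fun a => min (a * r a) (Real.pi / 2) with hκ
  set Ψ : ℝ → ℝ := fun a => r a * Real.cos (κ a) * Real.cosh a - Real.sin (κ a) * Real.sinh a
    with hΨ
  have hrc : Continuous r := by
    refine Real.continuous_sqrt.comp ((continuous_const.div Real.continuous_cosh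
      (fun a => (Real.cosh_pos a).ne')).sub continuous_const)
  have hκc : Continuous κ := (continuous_id.mul hrc).min continuous_const
  have hΨc : Continuous Ψ :=
    ((hrc.mul (Real.continuous_cos.comp hκc)).mul Real.continuous_cosh).sub
      ((Real.continuous_sin.comp hκc).mul Real.continuous_sinh)
  have hrsq : ∀ a ∈ Set.Icc (0 : ℝ) ast, 0 < r a ∧ r a ^ 2 = P / Real.cosh a - 1 := by
    intro a ha
    have h1 : 1 < P / Real.cosh a := by
      rw [lt_div_iff₀ (Real.cosh_pos a), one_mul]
      exact hle a ha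
    exact ⟨Real.sqrt_pos.2 (by linarith), Real.sq_sqrt (by linarith)⟩
  have hast := ast_pos
  have hend : Ψ ast < 0 := by
    obtain ⟨h1, -⟩ := hrsq ast ⟨hast.le, le_rfl⟩
    rcases le_or_gt (Real.pi / 2) (ast * r ast) with hc | hc
    · have h2 : κ ast = Real.pi / 2 := min_eq_right hc
      simp only [hΨ]
      rw [h2, Real.cos_pi_div_two, Real.sin_pi_div_two]
      have := Real.sinh_pos_iff.2 hast
      linarith
    · have h2 : κ ast = ast * r ast := min_eq_left hc.le
      have hk0 : 0 < ast * r ast := mul_pos hast h1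
      have h3 := Real.lt_tan hk0 hc
      have hcos : 0 < Real.cos (ast * r ast) :=
        Real.cos_pos_of_mem_Ioo ⟨by linarith [Real.pi_pos], hc⟩
      rw [Real.tan_eq_sin_div_cos, lt_div_iff₀ hcos] at h3
      have h4 : ast * Real.sinh ast = Real.cosh ast := by
        have h5 := ast_eq
        rw [Real.tanh_eq_sinh_div_cosh, ← mul_div_assoc, div_eq_one_iff_eq
          (Real.cosh_pos ast).ne'] at h5
        exact h5
      have h5 : ast * Ψ ast = Real.cosh ast *
          (ast * r ast * Real.cos (ast * r ast) - Real.sin (ast * r ast)) := by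
        simp only [hΨ]
        rw [h2]
        linear_combination (-Real.sin (ast * r ast)) * h4
      have h6 : ast * Ψ ast < 0 := by
        rw [h5]
        exact mul_neg_of_pos_of_neg (Real.cosh_pos _) (by linarith)
      by_contra hcon
      have := mul_nonneg hast.le (not_lt.1 hcon)
      linarith
  have hstart : 0 < Ψ 0 := by
    obtain ⟨h1, -⟩ := hrsq 0 ⟨le_rfl, hast.le⟩
    have h2 : κ 0 = 0 := by
      simp only [hκ, zero_mul]
      exact min_eq_left (by positivity)
    simp only [hΨ]
    rw [h2, Real.cos_zero, Real.sin_zero, Real.cosh_zero]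
    simpa using h1
  obtain ⟨a, ha, hΨa⟩ := intermediate_value_Icc' hast.le hΨc.continuousOn
    (show (0 : ℝ) ∈ Set.Icc (Ψ ast) (Ψ 0) from ⟨hend.le, hstart.le⟩)
  have ha0 : 0 < a := by
    rcases ha.1.eq_or_lt with h | h
    · rw [← h] at hΨa
      linarith
    · exact h
  obtain ⟨hr0, hr2⟩ := hrsq a ha
  have hsinh := Real.sinh_pos_iff.2 ha0
  have hlt : a * r a < Real.pi / 2 := by
    by_contra hcon
    have h2 : κ a = Real.pi / 2 := min_eq_right (not_lt.1 hcon)
    simp only [hΨ] at hΨa
    rw [h2, Real.cos_pi_div_two, Real.sin_pi_div_two] at hΨa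
    linarith
  have hκa : κ a = a * r a := min_eq_left hlt.le
  simp only [hΨ] at hΨa
  rw [hκa] at hΨa
  refine ⟨a, a * r a, ⟨ha0, mul_pos ha0 hr0, hlt, ?_⟩, ?_⟩
  · linear_combination a * hΨa
  · have h1 : Real.cosh a * (1 + (a * r a) ^ 2 / a ^ 2) = P := by
      rw [mul_pow, hr2]
      have := (Real.cosh_pos a).ne'
      field_simp
      ring
    unfold pB
    rw [h1, hP, Real.log_exp]
    ring

theorem bump_mu_lower {a k : ℝ} (h : Bump a k) :
    1 / 4 ≤ mu1 a * Real.exp (pB a k / 2) := by
  have ha := h.a_pos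
  have hk := h.k_pos
  have hlt : a < 5 / 4 := h.a_lt.trans ast_bounds.2
  have hch := Real.cosh_pos a
  have hpos : 0 < Real.cosh a * (1 + k ^ 2 / a ^ 2) := by positivity
  have e1 : mu1 a * Real.exp (pB a k / 2) = 2 * (a ^ 2 + k ^ 2) / Real.cosh a := by
    unfold pB mu1
    rw [mul_div_cancel_left₀ _ (two_ne_zero), Real.exp_log hpos]
    field_simp
  rw [e1, le_div_iff₀ hch]
  have hexp : Real.cosh a ≤ Real.exp (a ^ 2 / 2) := Real.cosh_le_exp_half_sq a
  have he1 := Real.exp_one_lt_d9
  rcases le_or_gt (7 / 8) a with hc | hc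
  · have h1 : Real.exp (a ^ 2 / 2) ≤ Real.exp 1 := Real.exp_le_exp.2 (by nlinarith)
    nlinarith [sq_nonneg k]
  · have hk2 : 1 / 2 ≤ k := by
      by_contra hcon
      have hk3 : k < 1 / 2 := not_le.1 hcon
      have h1 := Real.one_sub_sq_div_two_le_cos (x := k)
      have h2 := Real.sin_lt hk
      have h3 : Real.sinh a < Real.cosh a := Real.sinh_lt_cosh a
      have h4 := h.rel
      have hs := Real.sinh_pos_iff.2 ha
      have h5 : 7 / 8 ≤ Real.cos k := by nlinarith
      have h6 : a * Real.sin k * Real.sinh a ≤ a * k * Real.cosh a := by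
        have h7 : a * Real.sin k ≤ a * k := mul_le_mul_of_nonneg_left h2.le ha.le
        calc a * Real.sin k * Real.sinh a ≤ a * k * Real.sinh a :=
              mul_le_mul_of_nonneg_right h7 hs.le
          _ ≤ a * k * Real.cosh a := mul_le_mul_of_nonneg_left h3.le (by positivity)
      have h8 : k * (7 / 8) * Real.cosh a ≤ k * Real.cos k * Real.cosh a :=
        mul_le_mul_of_nonneg_right (mul_le_mul_of_nonneg_left h5 hk.le) hch.le
      have h9 : (7 / 8 - a) * (k * Real.cosh a) ≤ 0 := by nlinarith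
      have h10 : 0 < (7 / 8 - a) * (k * Real.cosh a) :=
        mul_pos (by linarith) (mul_pos hk hch)
      linarith
    have h1 : Real.exp (a ^ 2 / 2) ≤ Real.exp (1 / 2) := Real.exp_le_exp.2 (by nlinarith)
    have h2 : Real.exp (1 / 2) ^ 2 = Real.exp 1 := by
      rw [← Real.exp_nat_mul]; norm_num
    have h3 : Real.exp (1 / 2) < 2 := by
      nlinarith [Real.exp_pos (1 / 2)]
    nlinarith [sq_nonneg a]

end Pool.Agent.MFE
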