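import Pool.Agent.MFE.BND
import Pool.Agent.MFE.STC

/-!
# MFE.BLWA: blow-up regime: first bounds (uniform in `0 < α ≤ 1`), `p = v(0) > pst`

`mu_lower`: let `(a,k)` be a bump with `pB a k = p` (`bump_exists`), `V = VB a k`, `μB = mu1 a`,
`μB e^{p/2} ≥ 1/4` (`bump_mu_lower`). Suppose `μ < μB`, `s = √(μ/μB) < 1`. `Vs q = V (s q.1, s q.2)` is
positive and smooth on `{|y| < 1/s}` and solves `-lap Vs = μ e^Vs` there (`lap_scale`, `vb_eq`).
`hk_compare` on `D = Ell α` (`v₁ = Vs`, `v₂ = v`, same amplitude, `Super` from `vb_dx_neg`,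
`vb_dy_neg` scaled (`lap_dx`), and `GSol.super`): `{q ∈ Ell α : Vs ≤ v - ε}` is closed: relatively
closed in `Ell α` and contained in the compact set `{v ≥ ε} ⊆ Ell α`. So `Vs = v` on `Ell α`; at the
boundary point `(0,1)`: `v = 0` and `Vs (0,1) = V (0,s) > 0`, contradiction to continuity.

`circ_min`: `b = μ e^p/8`, `Rad q = p - 2 log (1 + b |q|²)`: `-lap Rad = 8b/(1+b|q|²)² = μ e^Rad`
(`lap_log`). If `v > Rad` on the whole circle `|q| = r`: `hk_compare` on `Disc (0,0) r`, `v₁ = v`,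
`v₂ = Rad` (`{v ≤ Rad - ε}` is closed: no limit points on the circle), gives `v = Rad` on the disc
and on the circle: contradiction. `Super` for `Rad`: `-dx Rad = 4 b x/(1+b|q|²) > 0` for `x > 0`.

`pt_bound`: `circ_min` with `r = 1/4`: `|q| = 1/4`, `v q ≤ p - 2 log (μ e^p/128) =
-p - 2 log μ + 2 log 128 ≤ 2 log 4 + 2 log 128` by `mu_lower`. `|q.1|, |q.2| ≤ 1/4`, so
`v (1/4,1/4) ≤ v q` (`anti_x`, `anti_y`).
`mu_le60`: `gsol_lower` at `(1/4,1/4)`: `(μ/4)(7/8) ≤ 2 log 512 < 12.5`.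
-/

open scoped ContDiff

namespace Pool.Agent.MFE

variable {α μ : ℝ} {v : ℝ × ℝ → ℝ}

private theorem BLWA_two : (2 : WithTop ℕ∞) ≤ ∞ := ENat.LEInfty.out

/-- solutions with negative derivatives in the quadrants -/
private theorem BLWA_super {D : Set (ℝ × ℝ)} (hD : IsOpen D) {w : ℝ × ℝ → ℝ}
    (hw : ContDiffOn ℝ ∞ w D) (heq : ∀ q ∈ D, -lap w q = μ * Real.exp (w q))
    (hx : ∀ q ∈ D, 0 < q.1 → dx w q < 0) (hy : ∀ q ∈ D, 0 < q.2 → dy w q < 0) :
    Super D (fun q => μ * Real.exp (w q)) := by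
  have hE : ∀ z ∈ D, lap w z = (-1) * (μ * Real.exp (w z)) := by
    intro z hz; have := heq z hz; linarith
  have hd : ∀ q ∈ D, DifferentiableAt ℝ w q := fun q hq =>
    (hw.contDiffAt (hD.mem_nhds hq)).differentiableAt (by simp)
  have hx1 : ∀ q ∈ D, dx (lap w) q = (-1) * (μ * (Real.exp (w q) * dx w q)) := by
    intro q hq
    rw [dx_congr hD hE hq, dx_const_mul (-1) ((hd q hq).exp.const_mul μ),
      dx_const_mul μ (hd q hq).exp,
      dx_comp (F := Real.exp) (hd q hq) Real.differentiableAt_exp, Real.deriv_exp]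
  have hy1 : ∀ q ∈ D, dy (lap w) q = (-1) * (μ * (Real.exp (w q) * dy w q)) := by
    intro q hq
    rw [dy_congr hD hE hq, dy_const_mul (-1) ((hd q hq).exp.const_mul μ),
      dy_const_mul μ (hd q hq).exp,
      dy_comp (F := Real.exp) (hd q hq) Real.differentiableAt_exp, Real.deriv_exp]
  have hw3 : ContDiffOn ℝ 3 w D := hw.of_le ENat.LEInfty.out
  have hdx : ContDiffOn ℝ 2 (dx w) D := (smooth_dx hD hw).of_le BLWA_two
  have hdy : ContDiffOn ℝ 2 (dy w) D := (smooth_dy hD hw).of_le BLWA_two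
  refine ⟨⟨fun z => (-1) * dx w z, (contDiffOn_const.mul hdx).mono Set.inter_subset_left, ?_⟩,
    ⟨fun z => (-1) * dy w z, (contDiffOn_const.mul hdy).mono Set.inter_subset_left, ?_⟩⟩
  · intro q hq hq0
    have h0 := hx q hq hq0
    refine ⟨by linarith, ?_⟩
    rw [lap_const_mul hD (-1) hdx hq, lap_dx hD hw3 hq, hx1 q hq]
    apply le_of_eq; ring
  · intro q hq hq0
    have h0 := hy q hq hq0
    refine ⟨by linarith, ?_⟩
    rw [lap_const_mul hD (-1) hdy hq, lap_dy hD hw3 hq, hy1 q hq]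
    apply le_of_eq; ring

private theorem BLWA_super_mono {D D' : Set (ℝ × ℝ)} (hs : D' ⊆ D) {c : ℝ × ℝ → ℝ}
    (h : Super D c) : Super D' c := by
  obtain ⟨⟨gx, h1, h2⟩, ⟨gy, h3, h4⟩⟩ := h
  exact ⟨⟨gx, h1.mono (Set.inter_subset_inter_left _ hs), fun q hq => h2 q (hs hq)⟩,
    ⟨gy, h3.mono (Set.inter_subset_inter_left _ hs), fun q hq => h4 q (hs hq)⟩⟩

private theorem BLWA_str : Ell α ⊆ Str 1 := by
  intro q hq
  have h1 : α ^ 2 * q.1 ^ 2 + q.2 ^ 2 < 1 := hq
  have h2 : q.2 ^ 2 < 1 := by nlinarith [sq_nonneg (α * q.1)]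
  show |q.2| < 1
  rw [← sq_abs] at h2
  nlinarith [abs_nonneg q.2]

theorem mu_lower (hα : 0 < α) (hα1 : α ≤ 1) (h : GSol α μ v) (hp : pst < v (0, 0)) :
    Real.exp (-(v (0, 0)) / 2) / 4 ≤ μ := by
  obtain ⟨a, k, hB, hpB⟩ := bump_exists hp
  have hμ := h.mu_pos
  have hμB : 0 < mu1 a := mu1_pos hB.a_pos
  have hlow := bump_mu_lower hB
  rw [hpB] at hlow
  by_cases hcase : mu1 a ≤ μ
  · refine le_trans ?_ hcase
    have e1 : Real.exp (v (0, 0) / 2) * Real.exp (-(v (0, 0)) / 2) = 1 := by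
      rw [← Real.exp_add, show v (0, 0) / 2 + -(v (0, 0)) / 2 = 0 by ring, Real.exp_zero]
    have hpos := Real.exp_pos (-(v (0, 0)) / 2)
    have := mul_le_mul_of_nonneg_right hlow hpos.le
    calc Real.exp (-(v (0, 0)) / 2) / 4 = 1 / 4 * Real.exp (-(v (0, 0)) / 2) := by ring
      _ ≤ mu1 a * Real.exp (v (0, 0) / 2) * Real.exp (-(v (0, 0)) / 2) := this
      _ = mu1 a * (Real.exp (v (0, 0) / 2) * Real.exp (-(v (0, 0)) / 2)) := by ring
      _ = mu1 a := by rw [e1, mul_one]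
  exfalso
  push Not at hcase
  set s := √(μ / mu1 a) with hs
  have hq0 : 0 < μ / mu1 a := div_pos hμ hμB
  have hq1 : μ / mu1 a < 1 := by rw [div_lt_one hμB]; exact hcase
  have hs0 : 0 < s := Real.sqrt_pos.mpr hq0
  have hs2 : s ^ 2 = μ / mu1 a := Real.sq_sqrt hq0.le
  have hs2' : s ^ 2 * mu1 a = μ := by rw [hs2]; field_simp
  have hs1 : s < 1 := by nlinarith
  have hStr : IsOpen (Str 1) := STB_str_open
  set Vs : ℝ × ℝ → ℝ := fun q => VB a k (s * q.1, s * q.2) with hVs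
  have hmap : ContDiff ℝ ∞ (fun q : ℝ × ℝ => (s * q.1, s * q.2)) := by fun_prop
  have hin : ∀ q : ℝ × ℝ, |q.2| ≤ 1 → (s * q.1, s * q.2) ∈ Str 1 := by
    intro q hq
    show |s * q.2| < 1
    rw [abs_mul, abs_of_pos hs0]
    nlinarith [abs_nonneg q.2]
  have hinE : ∀ q ∈ Ell α, (s * q.1, s * q.2) ∈ Str 1 := fun q hq =>
    hin q (le_of_lt (show |q.2| < 1 from BLWA_str hq))
  have hVsc : Continuous Vs := (vb_cont hB).comp hmap.continuous
  have hVss : ContDiffOn ℝ ∞ Vs (Ell α) :=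
    (vb_smooth hB).comp hmap.contDiffOn fun q hq => hinE q hq
  have hvb2 : ContDiffOn ℝ 2 (VB a k) (Str 1) := (vb_smooth hB).of_le BLWA_two
  have hdiff : ∀ q ∈ Ell α, DifferentiableAt ℝ (VB a k) (s * q.1, s * q.2) := fun q hq =>
    (hvb2.contDiffAt (hStr.mem_nhds (hinE q hq))).differentiableAt (by norm_num)
  have hVeq : ∀ q ∈ Ell α, -lap Vs q = μ * Real.exp (Vs q) := by
    intro q hq
    have e := vb_eq hB _ (hinE q hq)
    show -lap (fun z => VB a k (s * z.1, s * z.2)) q = μ * Real.exp (VB a k (s * q.1, s * q.2))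
    rw [lap_scale s hStr hvb2 (hinE q hq), ← hs2']
    linear_combination s ^ 2 * e
  have hbd : ∀ q, 0 ≤ Vs q ∧ Vs q ≤ v (0, 0) := by
    intro q
    have := vb_le hB (s * q.1, s * q.2)
    rw [hpB] at this
    exact this
  have hsuper : Super (Ell α) (fun q => μ * Real.exp (Vs q)) := by
    apply BLWA_super (isOpen_ell α) hVss hVeq
    · intro q hq hq0
      show dx (fun z => VB a k (s * z.1, s * z.2)) q < 0
      rw [dx_scale s (hdiff q hq)]
      have := vb_dx_neg hB _ (hinE q hq) (by show 0 < s * q.1; positivity)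
      nlinarith
    · intro q hq hq0
      show dy (fun z => VB a k (s * z.1, s * z.2)) q < 0
      rw [dy_scale s (hdiff q hq)]
      have := vb_dy_neg hB _ (hinE q hq) (by show 0 < s * q.2; positivity)
      nlinarith
  have hcmp := hk_compare (solid_ell hα) (L := 1) BLWA_str hμ (v₁ := Vs) (v₂ := v)
    (M := v (0, 0)) (hVss.of_le BLWA_two) (h.smooth.of_le BLWA_two)
    (by
      intro x y
      show VB a k (s * -x, s * y) = VB a k (s * x, s * y)
      rw [mul_neg]; exact vb_evx _ _)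
    (by
      intro x y
      show VB a k (s * x, s * -y) = VB a k (s * x, s * y)
      rw [mul_neg]; exact vb_evy _ _)
    (GSol.evx hα h) (GSol.evy hα h)
    (fun q _ => by rw [abs_of_nonneg (hbd q).1]; exact (hbd q).2)
    (fun q _ => gsol_abs hα h q) hVeq h.eq hsuper (GSol.super hα h)
    (by
      show VB a k (s * 0, s * 0) = v (0, 0)
      rw [mul_zero, vb_zero hB, hpB])
    (by
      intro ε hε
      have hset : {q | q ∈ Ell α ∧ Vs q ≤ v q - ε} = {q | ε ≤ v q} ∩ {q | Vs q ≤ v q - ε} := by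
        ext q
        constructor
        · rintro ⟨_, h2⟩
          have := (hbd q).1
          exact ⟨by show ε ≤ v q; linarith, h2⟩
        · rintro ⟨h1, h2⟩
          refine ⟨?_, h2⟩
          by_contra hcon
          have h1' : ε ≤ v q := h1
          rw [h.zero q hcon] at h1'
          linarith
      rw [hset]
      exact (isClosed_le continuous_const h.cont).inter
        (isClosed_le hVsc (h.cont.sub continuous_const)))
  have heqon : Set.EqOn Vs v (closure (Ell α)) :=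
    Set.EqOn.closure (fun q hq => hcmp q hq) hVsc h.cont
  have h01 : ((0 : ℝ), (1 : ℝ)) ∈ closure (Ell α) := by
    rw [closure_ell hα]
    show α ^ 2 * (0 : ℝ) ^ 2 + (1 : ℝ) ^ 2 ≤ 1
    norm_num
  have h01' : ((0 : ℝ), (1 : ℝ)) ∉ Ell α := by
    intro hcon
    have : α ^ 2 * (0 : ℝ) ^ 2 + (1 : ℝ) ^ 2 < 1 := hcon
    norm_num at this
  have e1 := heqon h01
  rw [h.zero _ h01'] at e1
  have e2 := vb_pos hB _ (hin ((0 : ℝ), (1 : ℝ)) (by simp))
  have e3 : Vs (0, 1) = VB a k (s * (0 : ℝ), s * (1 : ℝ)) := rfl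
  rw [e3] at e1
  linarith

theorem circ_min (hα : 0 < α) (hα1 : α ≤ 1) (h : GSol α μ v) {r : ℝ} (hr : 0 < r)
    (hr1 : r < 1) : ∃ q : ℝ × ℝ, q.1 ^ 2 + q.2 ^ 2 = r ^ 2 ∧
      v q ≤ v (0, 0) - 2 * Real.log (1 + μ * Real.exp (v (0, 0)) * r ^ 2 / 8) := by
  by_contra hcon
  push Not at hcon
  have hμ := h.mu_pos
  set p := v (0, 0) with hp
  have hexp := Real.exp_pos p
  set b := μ * Real.exp p / 8 with hb
  have hb0 : 0 < b := by positivity
  -- the radial solution
  set f : ℝ × ℝ → ℝ := fun q => 1 + b * (q.1 ^ 2 + q.2 ^ 2) with hf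
  have hfs : ContDiff ℝ ∞ f := by rw [hf]; fun_prop
  have hfpos : ∀ q, 0 < f q := by intro q; show 0 < 1 + b * (q.1 ^ 2 + q.2 ^ 2); positivity
  have hfd : ∀ q, DifferentiableAt ℝ f q := fun q => hfs.differentiable (by simp) q
  have hfx : ∀ q, dx f q = 2 * b * q.1 := by
    intro q
    rw [dx_eq_deriv (hfd q)]
    have : HasDerivAt (fun s : ℝ => f (s, q.2)) (b * (2 * q.1 ^ 1 * 1)) q.1 := by
      show HasDerivAt (fun s : ℝ => 1 + b * (s ^ 2 + q.2 ^ 2)) (b * (2 * q.1 ^ 1 * 1)) q.1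
      have := ((((hasDerivAt_id q.1).pow 2).add_const (q.2 ^ 2)).const_mul b).const_add 1
      simpa using this
    rw [this.deriv]; ring
  have hfy : ∀ q, dy f q = 2 * b * q.2 := by
    intro q
    rw [dy_eq_deriv (hfd q)]
    have : HasDerivAt (fun s : ℝ => f (q.1, s)) (b * (2 * q.2 ^ 1 * 1)) q.2 := by
      show HasDerivAt (fun s : ℝ => 1 + b * (q.1 ^ 2 + s ^ 2)) (b * (2 * q.2 ^ 1 * 1)) q.2
      have := ((((hasDerivAt_id q.2).pow 2).const_add (q.1 ^ 2)).const_mul b).const_add 1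
      simpa using this
    rw [this.deriv]; ring
  have hflap : ∀ q, lap f q = 4 * b := by
    intro q
    have e1 : dx f = fun q => (2 * b) * q.1 := funext hfx
    have e2 : dy f = fun q => (2 * b) * q.2 := funext hfy
    rw [lap, e1, e2, dx_const_mul _ differentiableAt_fst, dy_const_mul _ differentiableAt_snd,
      dx_fst (fun x => x) differentiableAt_id, dy_snd (fun x => x) differentiableAt_id]
    simp
    ring
  set Rad : ℝ × ℝ → ℝ := fun q => p + (-2) * Real.log (f q) with hRad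
  have hlogs : ContDiff ℝ ∞ (fun q => Real.log (f q)) := hfs.log fun q => (hfpos q).ne'
  have hRads : ContDiff ℝ ∞ Rad := contDiff_const.add (contDiff_const.mul hlogs)
  have hlogd : ∀ q, DifferentiableAt ℝ (fun q => Real.log (f q)) q := fun q =>
    hlogs.differentiable (by simp) q
  have hcp : ContDiff ℝ 2 (fun _ : ℝ × ℝ => p) := contDiff_const
  have hRlap : ∀ q, -lap Rad q = μ * Real.exp (Rad q) := by
    intro q
    have e1 : lap Rad q = lap (fun _ : ℝ × ℝ => p) q + lap (fun q => (-2) * Real.log (f q)) q :=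
      lap_add isOpen_univ hcp.contDiffOn ((contDiff_const.mul hlogs).of_le BLWA_two).contDiffOn
        (Set.mem_univ q)
    have e2 : lap (fun _ : ℝ × ℝ => p) q = 0 := by
      have := lap_fst (q := q) (fun _ : ℝ => p) contDiff_const
      simpa using this
    rw [e1, e2, lap_const_mul isOpen_univ (-2) (hlogs.of_le BLWA_two).contDiffOn (Set.mem_univ q),
      lap_log isOpen_univ (hfs.of_le BLWA_two).contDiffOn (fun z _ => hfpos z) (Set.mem_univ q),
      hflap, gdot, hfx, hfy]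
    have hfq := hfpos q
    have e3 : Real.exp (Rad q) = Real.exp p / f q ^ 2 := by
      show Real.exp (p + (-2) * Real.log (f q)) = _
      rw [Real.exp_add]
      have : Real.exp ((-2) * Real.log (f q)) = (f q ^ 2)⁻¹ := by
        rw [show (-2) * Real.log (f q) = -(Real.log (f q ^ 2)) by
          rw [Real.log_pow]; push_cast; ring, Real.exp_neg, Real.exp_log (by positivity)]
      rw [this]; rfl
    rw [e3]
    have e4 : μ * (Real.exp p / f q ^ 2) = 8 * b / f q ^ 2 := by rw [hb]; ring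
    rw [e4]
    have e5 : f q * (4 * b) - (2 * b * q.1 * (2 * b * q.1) + 2 * b * q.2 * (2 * b * q.2))
        = 4 * b := by
      show (1 + b * (q.1 ^ 2 + q.2 ^ 2)) * (4 * b) - _ = _
      ring
    rw [e5]; ring
  have hRx : ∀ q, dx Rad q = (-2) * (2 * b * q.1 / f q) := by
    intro q
    have e1 : dx Rad q = dx (fun _ : ℝ × ℝ => p) q + dx (fun q => (-2) * Real.log (f q)) q :=
      dx_add (differentiableAt_const _) ((hlogd q).const_mul _)
    have e2 : dx (fun _ : ℝ × ℝ => p) q = 0 := by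
      have := dx_fst (q := q) (fun _ : ℝ => p) (differentiableAt_const _)
      simpa using this
    rw [e1, e2, dx_const_mul (-2) (hlogd q),
      dx_comp (F := Real.log) (hfd q) (Real.differentiableAt_log (hfpos q).ne'), Real.deriv_log,
      hfx]
    ring
  have hRy : ∀ q, dy Rad q = (-2) * (2 * b * q.2 / f q) := by
    intro q
    have e1 : dy Rad q = dy (fun _ : ℝ × ℝ => p) q + dy (fun q => (-2) * Real.log (f q)) q :=
      dy_add (differentiableAt_const _) ((hlogd q).const_mul _)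
    have e2 : dy (fun _ : ℝ × ℝ => p) q = 0 := by
      have := dy_fst (q := q) (fun _ : ℝ => p) (differentiableAt_const _)
      simpa using this
    rw [e1, e2, dy_const_mul (-2) (hlogd q),
      dy_comp (F := Real.log) (hfd q) (Real.differentiableAt_log (hfpos q).ne'), Real.deriv_log,
      hfy]
    ring
  set D := Disc ((0 : ℝ), (0 : ℝ)) r with hD
  have hDo : IsOpen D := (solid_disc hr).isOpen
  have hDE : D ⊆ Ell α := by
    intro q hq
    have h1 : (q.1 - 0) ^ 2 + (q.2 - 0) ^ 2 < r ^ 2 := hq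
    rw [sub_zero, sub_zero] at h1
    show α ^ 2 * q.1 ^ 2 + q.2 ^ 2 < 1
    have h2 : α ^ 2 * q.1 ^ 2 ≤ 1 * q.1 ^ 2 :=
      mul_le_mul_of_nonneg_right (by nlinarith) (sq_nonneg _)
    nlinarith
  have hsRad : Super D (fun q => μ * Real.exp (Rad q)) := by
    apply BLWA_super hDo hRads.contDiffOn (fun q _ => hRlap q)
    · intro q _ hq0
      rw [hRx]
      have := hfpos q
      have : 0 < 2 * b * q.1 / f q := by positivity
      linarith
    · intro q _ hq0
      rw [hRy]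
      have := hfpos q
      have : 0 < 2 * b * q.2 / f q := by positivity
      linarith
  have hfb : ∀ q ∈ D, f q ≤ 1 + b * r ^ 2 := by
    intro q hq
    have h1 : (q.1 - 0) ^ 2 + (q.2 - 0) ^ 2 < r ^ 2 := hq
    rw [sub_zero, sub_zero] at h1
    show 1 + b * (q.1 ^ 2 + q.2 ^ 2) ≤ 1 + b * r ^ 2
    nlinarith
  have hlogb : 0 ≤ Real.log (1 + b * r ^ 2) := Real.log_nonneg (by
    have : 0 ≤ b * r ^ 2 := by positivity
    linarith)
  have hp0 : 0 ≤ p := (gsol_amp_pos hα h).le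
  have hf0 : f (0, 0) = 1 := by show 1 + b * ((0 : ℝ) ^ 2 + (0 : ℝ) ^ 2) = 1; norm_num
  have hcmp := hk_compare (solid_disc hr) (L := 1) (hDE.trans BLWA_str) hμ (v₁ := v) (v₂ := Rad)
    (M := p + 2 * Real.log (1 + b * r ^ 2)) ((h.smooth.of_le BLWA_two).mono hDE)
    (hRads.of_le BLWA_two).contDiffOn (GSol.evx hα h) (GSol.evy hα h)
    (by
      intro x y
      show p + (-2) * Real.log (1 + b * ((-x) ^ 2 + y ^ 2)) =
        p + (-2) * Real.log (1 + b * (x ^ 2 + y ^ 2))
      rw [neg_sq])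
    (by
      intro x y
      show p + (-2) * Real.log (1 + b * (x ^ 2 + (-y) ^ 2)) =
        p + (-2) * Real.log (1 + b * (x ^ 2 + y ^ 2))
      rw [neg_sq])
    (fun q _ => (gsol_abs hα h q).trans (by linarith))
    (fun q hq => by
      have h1 : 0 ≤ Real.log (f q) := Real.log_nonneg (by
        show 1 ≤ 1 + b * (q.1 ^ 2 + q.2 ^ 2)
        have : 0 ≤ b * (q.1 ^ 2 + q.2 ^ 2) := by positivity
        linarith)
      have h2 : Real.log (f q) ≤ Real.log (1 + b * r ^ 2) :=
        Real.log_le_log (hfpos q) (hfb q hq)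
      show |p + (-2) * Real.log (f q)| ≤ _
      rw [abs_le]; constructor <;> linarith)
    (fun q hq => h.eq q (hDE hq)) (fun q _ => hRlap q)
    (BLWA_super_mono hDE (GSol.super hα h)) hsRad
    (by
      show v (0, 0) = p + (-2) * Real.log (f (0, 0))
      rw [hf0, Real.log_one]; simp [hp])
    (by
      intro ε hε
      have hset : {q | q ∈ D ∧ v q ≤ Rad q - ε} =
          CDisc (0, 0) r ∩ {q | v q ≤ Rad q - ε} := by
        ext q
        constructor
        · rintro ⟨h1, h2⟩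
          have h1' : (q.1 - 0) ^ 2 + (q.2 - 0) ^ 2 < r ^ 2 := h1
          exact ⟨le_of_lt h1', h2⟩
        · rintro ⟨h1, h2⟩
          refine ⟨?_, h2⟩
          have h1' : (q.1 - 0) ^ 2 + (q.2 - 0) ^ 2 ≤ r ^ 2 := h1
          rcases lt_or_eq_of_le h1' with h3 | h3
          · exact h3
          · exfalso
            rw [sub_zero, sub_zero] at h3
            have h4 := hcon q h3
            have h5 : Rad q = p - 2 * Real.log (1 + μ * Real.exp p * r ^ 2 / 8) := by
              show p + (-2) * Real.log (1 + b * (q.1 ^ 2 + q.2 ^ 2)) = _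
              rw [h3, hb]
              have : μ * Real.exp p / 8 * r ^ 2 = μ * Real.exp p * r ^ 2 / 8 := by ring
              rw [this]; ring
            have h2' : v q ≤ Rad q - ε := h2
            rw [h5] at h2'
            linarith
      rw [hset]
      have hcl : IsClosed (CDisc ((0 : ℝ), (0 : ℝ)) r) := isClosed_le (by fun_prop) continuous_const
      exact hcl.inter (isClosed_le h.cont (hRads.continuous.sub continuous_const)))
  -- at the point `(r, 0)`
  have heq : Set.EqOn (fun s : ℝ => v (s, 0)) (fun s : ℝ => Rad (s, 0)) (Set.Ioo 0 r) := by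
    intro s hs
    apply hcmp
    show (s - 0) ^ 2 + ((0 : ℝ) - 0) ^ 2 < r ^ 2
    nlinarith [hs.1, hs.2]
  have hcl := heq.closure (h.cont.comp (by fun_prop)) (hRads.continuous.comp (by fun_prop))
  rw [closure_Ioo hr.ne] at hcl
  have e1 := hcl (⟨hr.le, le_rfl⟩ : r ∈ Set.Icc 0 r)
  have e2 := hcon (r, 0) (by show r ^ 2 + (0 : ℝ) ^ 2 = r ^ 2; ring)
  have e3 : Rad (r, 0) = p - 2 * Real.log (1 + μ * Real.exp p * r ^ 2 / 8) := by
    show p + (-2) * Real.log (1 + b * (r ^ 2 + (0 : ℝ) ^ 2)) = _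
    have : b * (r ^ 2 + (0 : ℝ) ^ 2) = μ * Real.exp p * r ^ 2 / 8 := by rw [hb]; ring
    rw [this]; ring
  have e1' : v (r, 0) = Rad (r, 0) := e1
  rw [e1', e3] at e2
  exact lt_irrefl _ e2

theorem pt_bound (hα : 0 < α) (hα1 : α ≤ 1) (h : GSol α μ v) (hp : pst < v (0, 0)) :
    v (1 / 4, 1 / 4) ≤ 2 * Real.log 512 := by
  obtain ⟨q, hq, hv⟩ := circ_min hα hα1 h (r := 1 / 4) (by norm_num) (by norm_num)
  have hμ := h.mu_pos
  have hlow := mu_lower hα hα1 h hp
  set p := v (0, 0) with hpdef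
  have hexp := Real.exp_pos p
  have h1 : Real.log (μ * Real.exp p / 128) ≤
      Real.log (1 + μ * Real.exp p * (1 / 4) ^ 2 / 8) := by
    apply Real.log_le_log (by positivity)
    have : μ * Real.exp p * (1 / 4) ^ 2 / 8 = μ * Real.exp p / 128 := by ring
    rw [this]; linarith
  have h2 : Real.log (μ * Real.exp p / 128) = Real.log μ + p - Real.log 128 := by
    rw [Real.log_div (by positivity) (by norm_num), Real.log_mul hμ.ne' hexp.ne', Real.log_exp]
  have h3 : -p / 2 - Real.log 4 ≤ Real.log μ := by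
    have : Real.log (Real.exp (-p / 2) / 4) ≤ Real.log μ :=
      Real.log_le_log (by positivity) hlow
    rw [Real.log_div (Real.exp_pos _).ne' (by norm_num), Real.log_exp] at this
    exact this
  have h4 : Real.log 512 = Real.log 4 + Real.log 128 := by
    rw [← Real.log_mul (by norm_num) (by norm_num)]; norm_num
  have hq1 : |q.1| ≤ 1 / 4 := abs_le_of_sq_le_sq (by nlinarith [sq_nonneg q.2]) (by norm_num)
  have hq2 : |q.2| ≤ 1 / 4 := abs_le_of_sq_le_sq (by nlinarith [sq_nonneg q.1]) (by norm_num)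
  have h14 : |(1 / 4 : ℝ)| = 1 / 4 := abs_of_pos (by norm_num)
  have a1 : v (1 / 4, 1 / 4) ≤ v (q.1, 1 / 4) := GSol.anti_x hα h (by rw [h14]; exact hq1)
  have a2 : v (q.1, 1 / 4) ≤ v (q.1, q.2) := GSol.anti_y hα h (by rw [h14]; exact hq2)
  have a3 : v (q.1, q.2) = v q := rfl
  rw [a3] at a2
  linarith

theorem mu_le60 (hα : 0 < α) (hα1 : α ≤ 1) (h : GSol α μ v) (hp : pst < v (0, 0)) :
    μ ≤ 60 := by
  have h1 := pt_bound hα hα1 h hp
  have hμ := h.mu_pos
  have hα2 : α ^ 2 ≤ 1 := by nlinarith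
  have hmem : ((1 / 4 : ℝ), (1 / 4 : ℝ)) ∈ Ell α := by
    show α ^ 2 * (1 / 4 : ℝ) ^ 2 + (1 / 4 : ℝ) ^ 2 < 1
    nlinarith
  have h2 := gsol_lower hα hα1 h _ hmem
  have hw : 7 / 8 ≤ wE α (1 / 4, 1 / 4) := by
    show 7 / 8 ≤ 1 - α ^ 2 * (1 / 4 : ℝ) ^ 2 - (1 / 4 : ℝ) ^ 2
    nlinarith
  have h3 : Real.log 512 = 9 * Real.log 2 := by
    rw [show (512 : ℝ) = 2 ^ 9 by norm_num, Real.log_pow]; push_cast; ring
  have h4 := Real.log_two_lt_d9
  have h5 : μ / 4 * (7 / 8) ≤ μ / 4 * wE α (1 / 4, 1 / 4) :=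
    mul_le_mul_of_nonneg_left hw (by linarith)
  linarith

end Pool.Agent.MFE
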