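import Pool.Agent.MFE.BLWA

/-!
# MFE.BLWB: blow-up regime: bounds away from the origin

`disc_int`: `v` is superharmonic, `CDisc (1/4,1/4) (16/25) ⊆ Ell α` (`√2/4 + 16/25 < 1`):
`disc_le` and `pt_bound`: `∫ v ≤ π (16/25)² · 2 log 512 < 17`.
`off_x`: `K = v (ρ,0)`, `s = ρ/2`. On the rectangle `Q = (0,ρ) × (0,s)` the harmonic function
`b = (1 - y/s)² - ((x - s)/s)²` satisfies `K b ≤ v` on the boundary: bottom: `b ≤ 1`, `v (x,0) ≥ K`
(`anti_x`); top: `b ≤ 0`; sides `|x - s| = s`: `b ≤ 0`. `wmp_bdd`: `v ≥ K b` in `Q`. On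
`|x - s| ≤ s/4`, `0 ≤ y ≤ s/2`: `b ≥ 3/16`; area `s²/4`: `17 ≥ ∫_Q v ≥ K (3/64) s²`
(`Q ⊆ Disc (1/4,1/4) (16/25)`, `v ≥ 0`), so `K ≤ 17·64·4/(3ρ²) < 2000/ρ²`. Same for `off_y`.
`off_bound`: `anti_x`, `anti_y`.
-/

open scoped ContDiff

namespace Pool.Agent.MFE

variable {α μ : ℝ} {v : ℝ × ℝ → ℝ}

private theorem BLWB_two : (2 : WithTop ℕ∞) ≤ ∞ := ENat.LEInfty.out

private theorem BLWB_cd (hα : 0 < α) (hα1 : α ≤ 1) : CDisc (1 / 4, 1 / 4) (16 / 25) ⊆ Ell α := by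
  intro q hq
  have h1 : (q.1 - 1 / 4) ^ 2 + (q.2 - 1 / 4) ^ 2 ≤ (16 / 25) ^ 2 := hq
  set u := q.1 - 1 / 4 with hu
  set w := q.2 - 1 / 4 with hw
  have h2 : (u + w) ^ 2 ≤ 2 * (u ^ 2 + w ^ 2) := by nlinarith [sq_nonneg (u - w)]
  have h3 : u + w ≤ 906 / 1000 := by
    by_contra hcon
    push Not at hcon
    nlinarith
  have h4 : q.1 ^ 2 + q.2 ^ 2 = u ^ 2 + w ^ 2 + (u + w) / 2 + 1 / 8 := by
    rw [hu, hw]; ring
  have h5 : q.1 ^ 2 + q.2 ^ 2 < 1 := by rw [h4]; norm_num at h1 ⊢; linarith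
  show α ^ 2 * q.1 ^ 2 + q.2 ^ 2 < 1
  have h6 : α ^ 2 * q.1 ^ 2 ≤ 1 * q.1 ^ 2 :=
    mul_le_mul_of_nonneg_right (by nlinarith) (sq_nonneg _)
  linarith

theorem disc_int (hα : 0 < α) (hα1 : α ≤ 1) (h : GSol α μ v) (hp : pst < v (0, 0)) :
    ∫ q in Disc (1 / 4, 1 / 4) (16 / 25), v q ≤ 17 := by
  have hμ := h.mu_pos
  have h1 := disc_le (isOpen_ell α) (h.smooth.of_le BLWB_two) (q₀ := (1 / 4, 1 / 4))
    (r := 16 / 25) (by norm_num) (BLWB_cd hα hα1) (fun q hq => by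
      have := h.eq q (BLWB_cd hα hα1 hq)
      have := Real.exp_pos (v q)
      have : 0 < μ * Real.exp (v q) := by positivity
      linarith)
  have h2 := pt_bound hα hα1 h hp
  have h3 : Real.log 512 = 9 * Real.log 2 := by
    rw [show (512 : ℝ) = 2 ^ 9 by norm_num, Real.log_pow]; push_cast; ring
  have h4 := Real.log_two_lt_d9
  have h5 := Real.pi_lt_d2
  have hπ := Real.pi_pos
  refine h1.trans ?_
  have h6 : v (1 / 4, 1 / 4) ≤ 12.48 := by rw [h3] at h2; linarith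
  calc Real.pi * (16 / 25) ^ 2 * v (1 / 4, 1 / 4) ≤ Real.pi * (16 / 25) ^ 2 * 12.48 :=
        mul_le_mul_of_nonneg_left h6 (by positivity)
    _ ≤ 3.15 * (16 / 25) ^ 2 * 12.48 := by
        apply mul_le_mul_of_nonneg_right _ (by norm_num)
        exact mul_le_mul_of_nonneg_right h5.le (by norm_num)
    _ ≤ 17 := by norm_num

/-- the comparison in the rectangle -/
private theorem BLWB_rect {W : Set (ℝ × ℝ)} {G : ℝ × ℝ → ℝ}
    (hGc : Continuous G) (hG0 : ∀ q, 0 ≤ G q) (hGs : ContDiffOn ℝ 2 G W)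
    (hWs : ∀ q : ℝ × ℝ, 0 ≤ q.1 → q.1 ≤ 2 / 5 → 0 ≤ q.2 → q.2 ≤ 2 / 5 → q ∈ W)
    (hGl : ∀ q ∈ W, lap G q ≤ 0)
    (hint : ∫ q in Disc (1 / 4, 1 / 4) (16 / 25), G q ≤ 17) {ρ : ℝ}
    (hρ : 0 < ρ) (hρ1 : ρ ≤ 2 / 5) (hanti : ∀ x : ℝ, 0 ≤ x → x ≤ ρ → G (ρ, 0) ≤ G (x, 0)) :
    G (ρ, 0) ≤ 2000 / ρ ^ 2 := by
  obtain ⟨K, hK⟩ : ∃ K, K = G (ρ, 0) := ⟨_, rfl⟩
  have hK0 : 0 ≤ K := by rw [hK]; exact hG0 _
  obtain ⟨s, hs⟩ : ∃ s, s = ρ / 2 := ⟨_, rfl⟩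
  have hs0 : 0 < s := by rw [hs]; linarith
  have hρs : ρ = 2 * s := by rw [hs]; ring
  set Q : Set (ℝ × ℝ) := {q | (0 < q.1 ∧ q.1 < ρ) ∧ (0 < q.2 ∧ q.2 < s)} with hQ
  have hQo : IsOpen Q := by
    have h1 : IsOpen {q : ℝ × ℝ | 0 < q.1} := isOpen_lt continuous_const continuous_fst
    have h2 : IsOpen {q : ℝ × ℝ | q.1 < ρ} := isOpen_lt continuous_fst continuous_const
    have h3 : IsOpen {q : ℝ × ℝ | 0 < q.2} := isOpen_lt continuous_const continuous_snd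
    have h4 : IsOpen {q : ℝ × ℝ | q.2 < s} := isOpen_lt continuous_snd continuous_const
    exact (h1.inter h2).inter (h3.inter h4)
  set E : Set (ℝ × ℝ) := {q | (0 ≤ q.1 ∧ q.1 ≤ ρ) ∧ (0 ≤ q.2 ∧ q.2 ≤ s)} with hE
  have hEc : IsClosed E := by
    have h1 : IsClosed {q : ℝ × ℝ | 0 ≤ q.1} := isClosed_le continuous_const continuous_fst
    have h2 : IsClosed {q : ℝ × ℝ | q.1 ≤ ρ} := isClosed_le continuous_fst continuous_const
    have h3 : IsClosed {q : ℝ × ℝ | 0 ≤ q.2} := isClosed_le continuous_const continuous_snd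
    have h4 : IsClosed {q : ℝ × ℝ | q.2 ≤ s} := isClosed_le continuous_snd continuous_const
    exact (h1.inter h2).inter (h3.inter h4)
  have hQE : Q ⊆ E := fun q hq => ⟨⟨hq.1.1.le, hq.1.2.le⟩, ⟨hq.2.1.le, hq.2.2.le⟩⟩
  have hclE : closure Q ⊆ E := closure_minimal hQE hEc
  have hEW : E ⊆ W := fun q hq => hWs q hq.1.1 (by linarith [hq.1.2]) hq.2.1
    (by linarith [hq.2.2])
  have hb : Bornology.IsBounded Q := by
    have h1 : Q ⊆ Set.Icc 0 ρ ×ˢ Set.Icc 0 s := fun q hq =>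
      ⟨⟨hq.1.1.le, hq.1.2.le⟩, ⟨hq.2.1.le, hq.2.2.le⟩⟩
    exact (isCompact_Icc.prod isCompact_Icc).isBounded.subset h1
  -- the harmonic function
  set F1 : ℝ → ℝ := fun x => -(K * ((x - s) / s) ^ 2) with hF1
  set F2 : ℝ → ℝ := fun y => K * (1 - y / s) ^ 2 with hF2
  have hF1s : ContDiff ℝ 2 F1 := by rw [hF1]; fun_prop
  have hF2s : ContDiff ℝ 2 F2 := by rw [hF2]; fun_prop
  set B : ℝ × ℝ → ℝ := fun q => F1 q.1 + F2 q.2 with hB
  have hBs : ContDiff ℝ 2 B := (hF1s.comp contDiff_fst).add (hF2s.comp contDiff_snd)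
  have hd1 : deriv (deriv F1) = fun _ => -(2 * K / s ^ 2) := by
    have e1 : deriv F1 = fun x => -(2 * K / s ^ 2) * (x - s) := by
      ext x
      have : HasDerivAt F1 (-(K * (2 * ((x - s) / s) ^ 1 * (1 / s)))) x :=
        (((((hasDerivAt_id x).sub_const s).div_const s).pow 2).const_mul K).neg
      rw [this.deriv]; field_simp
    rw [e1]
    ext x
    have : HasDerivAt (fun x : ℝ => -(2 * K / s ^ 2) * (x - s)) (-(2 * K / s ^ 2) * 1) x :=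
      ((hasDerivAt_id x).sub_const s).const_mul _
    rw [this.deriv]; ring
  have hd2 : deriv (deriv F2) = fun _ => 2 * K / s ^ 2 := by
    have e1 : deriv F2 = fun y => -(2 * K / s) * (1 - y / s) := by
      ext y
      have : HasDerivAt F2 (K * (2 * (1 - y / s) ^ 1 * (-(1 / s)))) y :=
        ((((hasDerivAt_id y).div_const s).const_sub 1).pow 2).const_mul K
      rw [this.deriv]; field_simp
    rw [e1]
    ext y
    have : HasDerivAt (fun y : ℝ => -(2 * K / s) * (1 - y / s)) (-(2 * K / s) * (-(1 / s))) y :=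
      (((hasDerivAt_id y).div_const s).const_sub 1).const_mul _
    rw [this.deriv]; field_simp
  have hBl : ∀ z, lap B z = 0 := by
    intro z
    have h1 : ContDiff ℝ 2 (fun z : ℝ × ℝ => F1 z.1) := hF1s.comp contDiff_fst
    have h2 : ContDiff ℝ 2 (fun z : ℝ × ℝ => F2 z.2) := hF2s.comp contDiff_snd
    have e : lap B z = lap (fun z : ℝ × ℝ => F1 z.1) z + lap (fun z : ℝ × ℝ => F2 z.2) z :=
      lap_add isOpen_univ h1.contDiffOn h2.contDiffOn (Set.mem_univ z)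
    rw [e, lap_fst F1 hF1s, lap_snd F2 hF2s, hd1, hd2]
    ring
  have hBval : ∀ z, B z = K * ((1 - z.2 / s) ^ 2 - ((z.1 - s) / s) ^ 2) := by
    intro z
    show -(K * ((z.1 - s) / s) ^ 2) + K * (1 - z.2 / s) ^ 2 = _
    ring
  have hyb : ∀ z ∈ E, (1 - z.2 / s) ^ 2 ≤ 1 := by
    intro z hz
    have h1 : 0 ≤ z.2 / s := div_nonneg hz.2.1 hs0.le
    have h2 : z.2 / s ≤ 1 := by rw [div_le_one hs0]; exact hz.2.2
    nlinarith
  have main : ∀ q ∈ closure Q, B q ≤ G q := by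
    refine wmp_bdd hQo hb (u := B) (b := G) hBs.contDiffOn (hGs.mono (hQE.trans hEW))
      hBs.continuous.continuousOn hGc.continuousOn ?_ ?_
    · intro z hz
      have := hGl z (hEW (hQE hz))
      rw [hBl]; linarith
    · intro z hz
      have hzE : z ∈ E := hclE (frontier_subset_closure hz)
      have hzQ : z ∉ Q := by
        have : z ∈ closure Q \ interior Q := hz
        rw [hQo.interior_eq] at this
        exact this.2
      have hyy := hyb z hzE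
      rw [hBval]
      rcases eq_or_lt_of_le hzE.2.1 with h1 | h1
      · -- bottom
        have hz2 : z = (z.1, 0) := by ext <;> simp [← h1]
        have h2 : K ≤ G z := by
          rw [hz2, hK]; exact hanti z.1 hzE.1.1 hzE.1.2
        have h3 : (1 - z.2 / s) ^ 2 - ((z.1 - s) / s) ^ 2 ≤ 1 := by
          have := sq_nonneg ((z.1 - s) / s); linarith
        calc K * ((1 - z.2 / s) ^ 2 - ((z.1 - s) / s) ^ 2) ≤ K * 1 :=
              mul_le_mul_of_nonneg_left h3 hK0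
          _ ≤ G z := by rw [mul_one]; exact h2
      have hneg : (1 - z.2 / s) ^ 2 - ((z.1 - s) / s) ^ 2 ≤ 0 → K * ((1 - z.2 / s) ^ 2 -
          ((z.1 - s) / s) ^ 2) ≤ G z := fun hle =>
        (mul_nonpos_of_nonneg_of_nonpos hK0 hle).trans (hG0 z)
      apply hneg
      rcases eq_or_lt_of_le hzE.2.2 with h2 | h2
      · have : 1 - z.2 / s = 0 := by rw [h2, div_self hs0.ne']; ring
        rw [this]
        have := sq_nonneg ((z.1 - s) / s)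
        linarith
      have hside : ((z.1 - s) / s) ^ 2 = 1 := by
        rcases eq_or_lt_of_le hzE.1.1 with h3 | h3
        · rw [← h3]; field_simp; ring
        rcases eq_or_lt_of_le hzE.1.2 with h4 | h4
        · rw [h4, hρs]; field_simp; ring
        exact absurd ⟨⟨h3, h4⟩, ⟨h1, h2⟩⟩ hzQ
      rw [hside]; linarith
  -- the smaller rectangle
  set R : Set (ℝ × ℝ) := Set.Icc (3 / 4 * s) (5 / 4 * s) ×ˢ Set.Icc (s / 4) (3 / 4 * s) with hR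
  set R' : Set (ℝ × ℝ) := Set.Ioo (3 / 4 * s) (5 / 4 * s) ×ˢ Set.Ioo 0 (s / 2) with hR'
  have hR'Q : R' ⊆ Q := by
    rintro q ⟨⟨h1, h2⟩, ⟨h3, h4⟩⟩
    refine ⟨⟨by linarith, by linarith⟩, ⟨h3, by linarith⟩⟩
  have hR'G : ∀ q ∈ R', K * (3 / 16) ≤ G q := by
    intro q hq
    refine le_trans ?_ (main q (subset_closure (hR'Q hq)))
    obtain ⟨⟨h1, h2⟩, ⟨h3, h4⟩⟩ := hq
    rw [hBval]
    apply mul_le_mul_of_nonneg_left _ hK0
    have a1 : 1 / 2 ≤ 1 - q.2 / s := by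
      have : q.2 / s ≤ 1 / 2 := by rw [div_le_iff₀ hs0]; linarith
      linarith
    have a2 : |(q.1 - s) / s| ≤ 1 / 4 := by
      rw [abs_div, abs_of_pos hs0, div_le_iff₀ hs0, abs_le]
      constructor <;> linarith
    have a3 : ((q.1 - s) / s) ^ 2 ≤ 1 / 16 := by
      rw [← sq_abs]; nlinarith [abs_nonneg ((q.1 - s) / s)]
    nlinarith
  have hR'D : R' ⊆ Disc (1 / 4, 1 / 4) (16 / 25) := by
    rintro q ⟨⟨h1, h2⟩, ⟨h3, h4⟩⟩
    show (q.1 - 1 / 4) ^ 2 + (q.2 - 1 / 4) ^ 2 < (16 / 25) ^ 2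
    have b1 : |q.1 - 1 / 4| ≤ 1 / 4 := by rw [abs_le]; constructor <;> linarith
    have b2 : |q.2 - 1 / 4| ≤ 1 / 4 := by rw [abs_le]; constructor <;> linarith
    have c1 : (q.1 - 1 / 4) ^ 2 ≤ 1 / 16 := by
      rw [← sq_abs]; nlinarith [abs_nonneg (q.1 - 1 / 4)]
    have c2 : (q.2 - 1 / 4) ^ 2 ≤ 1 / 16 := by
      rw [← sq_abs]; nlinarith [abs_nonneg (q.2 - 1 / 4)]
    linarith
  have hmR' : MeasurableSet R' := measurableSet_Ioo.prod measurableSet_Ioo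
  have hvolR : MeasureTheory.volume R' = ENNReal.ofReal (s ^ 2 / 4) := by
    rw [hR', MeasureTheory.Measure.volume_eq_prod, MeasureTheory.Measure.prod_prod,
      Real.volume_Ioo, Real.volume_Ioo, ← ENNReal.ofReal_mul (by linarith)]
    congr 1; ring
  have hDo : IsOpen (Disc ((1 / 4 : ℝ), (1 / 4 : ℝ)) (16 / 25)) :=
    isOpen_lt (by fun_prop) continuous_const
  have hDb : Disc ((1 / 4 : ℝ), (1 / 4 : ℝ)) (16 / 25) ⊆ Set.Icc (-1) 1 ×ˢ Set.Icc (-1) 1 := by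
    intro q hq
    have h1 : (q.1 - 1 / 4) ^ 2 + (q.2 - 1 / 4) ^ 2 < (16 / 25) ^ 2 := hq
    have b1 : |q.1 - 1 / 4| ≤ 16 / 25 :=
      abs_le_of_sq_le_sq (by nlinarith [sq_nonneg (q.2 - 1 / 4)]) (by norm_num)
    have b2 : |q.2 - 1 / 4| ≤ 16 / 25 :=
      abs_le_of_sq_le_sq (by nlinarith [sq_nonneg (q.1 - 1 / 4)]) (by norm_num)
    rw [abs_le] at b1 b2
    exact ⟨⟨by linarith [b1.1], by linarith [b1.2]⟩, ⟨by linarith [b2.1], by linarith [b2.2]⟩⟩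
  have hintD : MeasureTheory.IntegrableOn G (Disc ((1 / 4 : ℝ), (1 / 4 : ℝ)) (16 / 25)) :=
    (hGc.continuousOn.integrableOn_compact (isCompact_Icc.prod isCompact_Icc)).mono_set hDb
  have hge := MeasureTheory.setIntegral_ge_of_const_le_real (μ := MeasureTheory.volume)
    (s := R') (f := G) (c := K * (3 / 16)) hmR' (by rw [hvolR]; exact ENNReal.ofReal_ne_top)
    hR'G (hintD.mono_set hR'D)
  have hreal : MeasureTheory.volume.real R' = s ^ 2 / 4 := by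
    rw [MeasureTheory.Measure.real, hvolR, ENNReal.toReal_ofReal (by positivity)]
  rw [hreal] at hge
  have hmono : ∫ q in R', G q ≤ ∫ q in Disc ((1 / 4 : ℝ), (1 / 4 : ℝ)) (16 / 25), G q :=
    MeasureTheory.setIntegral_mono_set hintD
      (MeasureTheory.ae_of_all _ fun q => hG0 q) (Filter.Eventually.of_forall hR'D)
  have hfin : K * (3 / 16) * (s ^ 2 / 4) ≤ 17 := hge.trans (hmono.trans hint)
  rw [← hK, le_div_iff₀ (by positivity), hρs]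
  nlinarith

private theorem BLWB_coords (hα : 0 < α) (hα1 : α ≤ 1) {x y : ℝ} (h0 : 0 ≤ x) (h1 : x ≤ 2 / 5)
    (h2 : 0 ≤ y) (h3 : y ≤ 2 / 5) : (x, y) ∈ Ell α := by
  show α ^ 2 * x ^ 2 + y ^ 2 < 1
  have a1 : x ^ 2 ≤ 4 / 25 := by nlinarith
  have a2 : y ^ 2 ≤ 4 / 25 := by nlinarith
  have a3 : α ^ 2 * x ^ 2 ≤ 1 * x ^ 2 :=
    mul_le_mul_of_nonneg_right (by nlinarith) (sq_nonneg _)
  linarith

theorem off_x (hα : 0 < α) (hα1 : α ≤ 1) (h : GSol α μ v) (hp : pst < v (0, 0)) {ρ : ℝ}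
    (hρ : 0 < ρ) (hρ1 : ρ ≤ 2 / 5) : v (ρ, 0) ≤ 2000 / ρ ^ 2 := by
  have hμ := h.mu_pos
  refine BLWB_rect (W := Ell α) h.cont (GSol.nonneg hα h) (h.smooth.of_le BLWB_two)
    (fun q h0 h1 h2 h3 => BLWB_coords hα hα1 h0 h1 h2 h3) ?_ (disc_int hα hα1 h hp) hρ hρ1 ?_
  · intro q hq
    have := h.eq q hq
    have := Real.exp_pos (v q)
    have : 0 < μ * Real.exp (v q) := by positivity
    linarith
  · intro x h0 h1
    exact GSol.anti_x hα h (by rw [abs_of_nonneg h0, abs_of_pos hρ]; exact h1)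

private theorem BLWB_swap (f : ℝ × ℝ → ℝ) (z w : ℝ × ℝ) :
    fderiv ℝ (fun w : ℝ × ℝ => f (w.2, w.1)) z w = fderiv ℝ f (z.2, z.1) (w.2, w.1) := by
  have h1 := (ContinuousLinearEquiv.prodComm ℝ ℝ ℝ).comp_right_fderiv (f := f) (x := z)
  have h2 : f ∘ (ContinuousLinearEquiv.prodComm ℝ ℝ ℝ) = fun w : ℝ × ℝ => f (w.2, w.1) := by
    ext w; rfl
  rw [h2] at h1
  rw [h1]
  rfl

private theorem BLWB_swap_dx (f : ℝ × ℝ → ℝ) :
    dx (fun w : ℝ × ℝ => f (w.2, w.1)) = fun z => dy f (z.2, z.1) := by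
  ext z; rw [dx, BLWB_swap]; rfl

private theorem BLWB_swap_dy (f : ℝ × ℝ → ℝ) :
    dy (fun w : ℝ × ℝ => f (w.2, w.1)) = fun z => dx f (z.2, z.1) := by
  ext z; rw [dy, BLWB_swap]; rfl

private theorem BLWB_swap_lap (f : ℝ × ℝ → ℝ) (z : ℝ × ℝ) :
    lap (fun w : ℝ × ℝ => f (w.2, w.1)) z = lap f (z.2, z.1) := by
  rw [lap, lap, BLWB_swap_dx, BLWB_swap_dy, BLWB_swap_dx, BLWB_swap_dy]
  ring

theorem off_y (hα : 0 < α) (hα1 : α ≤ 1) (h : GSol α μ v) (hp : pst < v (0, 0)) {ρ : ℝ}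
    (hρ : 0 < ρ) (hρ1 : ρ ≤ 2 / 5) : v (0, ρ) ≤ 2000 / ρ ^ 2 := by
  have hμ := h.mu_pos
  have hsw : ContDiff ℝ 2 (fun w : ℝ × ℝ => (w.2, w.1)) := by fun_prop
  have hswc : Continuous (fun w : ℝ × ℝ => (w.2, w.1)) := by fun_prop
  have hint : ∫ q in Disc ((1 / 4 : ℝ), (1 / 4 : ℝ)) (16 / 25), v (q.2, q.1) ≤ 17 := by
    have hmp : MeasureTheory.MeasurePreserving (Prod.swap : ℝ × ℝ → ℝ × ℝ)
        MeasureTheory.volume MeasureTheory.volume :=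
      MeasureTheory.Measure.measurePreserving_swap
    have hemb : MeasurableEmbedding (Prod.swap : ℝ × ℝ → ℝ × ℝ) :=
      MeasurableEquiv.prodComm.measurableEmbedding
    have h1 := hmp.setIntegral_preimage_emb hemb v (Disc ((1 / 4 : ℝ), (1 / 4 : ℝ)) (16 / 25))
    have h2 : (Prod.swap : ℝ × ℝ → ℝ × ℝ) ⁻¹' Disc ((1 / 4 : ℝ), (1 / 4 : ℝ)) (16 / 25)
        = Disc ((1 / 4 : ℝ), (1 / 4 : ℝ)) (16 / 25) := by
      ext q
      show (q.2 - 1 / 4) ^ 2 + (q.1 - 1 / 4) ^ 2 < (16 / 25) ^ 2 ↔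
        (q.1 - 1 / 4) ^ 2 + (q.2 - 1 / 4) ^ 2 < (16 / 25) ^ 2
      rw [add_comm]
    rw [h2] at h1
    have h3 : ∫ q in Disc ((1 / 4 : ℝ), (1 / 4 : ℝ)) (16 / 25), v (q.2, q.1)
        = ∫ q in Disc ((1 / 4 : ℝ), (1 / 4 : ℝ)) (16 / 25), v q := h1
    rw [h3]
    exact disc_int hα hα1 h hp
  refine BLWB_rect (W := (fun w : ℝ × ℝ => (w.2, w.1)) ⁻¹' Ell α)
    (G := fun q => v (q.2, q.1)) (h.cont.comp hswc) (fun q => GSol.nonneg hα h _)
    ((h.smooth.of_le BLWB_two).comp hsw.contDiffOn fun z hz => hz)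
    (fun q h0 h1 h2 h3 => BLWB_coords hα hα1 h2 h3 h0 h1) ?_ hint hρ hρ1 ?_
  · intro q hq
    rw [BLWB_swap_lap]
    have := h.eq _ (show (q.2, q.1) ∈ Ell α from hq)
    have := Real.exp_pos (v (q.2, q.1))
    have : 0 < μ * Real.exp (v (q.2, q.1)) := by positivity
    linarith
  · intro x h0 h1
    exact GSol.anti_y hα h (by rw [abs_of_nonneg h0, abs_of_pos hρ]; exact h1)

theorem off_bound (hα : 0 < α) (hα1 : α ≤ 1) (h : GSol α μ v) (hp : pst < v (0, 0)) {ρ : ℝ}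
    (hρ : 0 < ρ) (hρ1 : ρ ≤ 2 / 5) {q : ℝ × ℝ} (hq : ρ ≤ |q.1| ∨ ρ ≤ |q.2|) :
    v q ≤ 2000 / ρ ^ 2 := by
  have e : v q = v (q.1, q.2) := rfl
  rw [e]
  rcases hq with hq | hq
  · calc v (q.1, q.2) ≤ v (ρ, q.2) := GSol.anti_x hα h (by rw [abs_of_pos hρ]; exact hq)
      _ ≤ v (ρ, 0) := GSol.anti_y hα h (by rw [abs_zero]; exact abs_nonneg _)
      _ ≤ 2000 / ρ ^ 2 := off_x hα hα1 h hp hρ hρ1
  · calc v (q.1, q.2) ≤ v (q.1, ρ) := GSol.anti_y hα h (by rw [abs_of_pos hρ]; exact hq)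
      _ ≤ v (0, ρ) := GSol.anti_x hα h (by rw [abs_zero]; exact abs_nonneg _)
      _ ≤ 2000 / ρ ^ 2 := off_y hα hα1 h hp hρ hρ1

end Pool.Agent.MFE
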