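import Pool.Agent.MFE.CAL

/-!
# MFE.BLWC: the Liouville structure (pure calculus)

`-lap v = μ e^v` on the open set `D`. In complex form `T = v_zz - v_z²/2 = T1 + i T2` is
holomorphic. Real form: with `E = μ e^v`,
`T1_x - T2_y = (Δv)_x/4 - v_x Δv/4 = -E v_x/4 + v_x E/4 = 0`,
`T1_y + T2_x = -(Δv)_y/4 + v_y Δv/4 = 0`, hence `lap T1 = lap T2 = 0`.
For `φ` with `-lap φ = E φ`: `S1 + i S2 = φ_zz - v_z φ_z`:
`S1_x - S2_y = (Δφ)_x/4 - (φ_x Δv + v_x Δφ)/4 = -(E_x φ + E φ_x)/4 + (E φ_x + v_x E φ)/4 = 0`,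
same for the other equation.
`w = e^{-v/2}`: `w_x = -v_x w/2`, `w_xx = (-v_xx/2 + v_x²/4) w`, ... give
`w_xx - w_yy = -2 T1 w`, `w_xy = T2 w`, `lap w = w (E/2 + |∇v|²/4)`; differentiating and using the
Cauchy-Riemann equations: `(lap w)_x = -2 (T1 w)_x + 2 (T2 w)_y = -2 (T1 w_x - T2 w_y)`,
`(lap w)_y = 2 (T2 w)_x + 2 (T1 w)_y = 2 (T2 w_x + T1 w_y)`.
`ω = w φ`: `ω_xx - ω_yy = -2 T1 ω + 4 S1 w`, `ω_xy = T2 ω - 2 S2 w`,
`(lap ω)_x = -2 (T1 ω_x - T2 ω_y) + 4 (S1 w_x - S2 w_y)`,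
`(lap ω)_y = 2 (T2 ω_x + T1 ω_y) - 4 (S2 w_x + S1 w_y)`.
-/

open scoped ContDiff

namespace Pool.Agent.MFE

noncomputable def T1 (v : ℝ × ℝ → ℝ) (q : ℝ × ℝ) : ℝ :=
  (dx (dx v) q - dy (dy v) q) / 4 - (dx v q ^ 2 - dy v q ^ 2) / 8

noncomputable def T2 (v : ℝ × ℝ → ℝ) (q : ℝ × ℝ) : ℝ :=
  -dy (dx v) q / 2 + dx v q * dy v q / 4

noncomputable def S1 (v φ : ℝ × ℝ → ℝ) (q : ℝ × ℝ) : ℝ :=
  (dx (dx φ) q - dy (dy φ) q) / 4 - (dx v q * dx φ q - dy v q * dy φ q) / 4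

noncomputable def S2 (v φ : ℝ × ℝ → ℝ) (q : ℝ × ℝ) : ℝ :=
  -dy (dx φ) q / 2 + (dx v q * dy φ q + dy v q * dx φ q) / 4

/-- `e^{-v/2}` -/
noncomputable def wv (v : ℝ × ℝ → ℝ) (q : ℝ × ℝ) : ℝ := Real.exp (-(v q) / 2)

variable {D : Set (ℝ × ℝ)} {v φ : ℝ × ℝ → ℝ} {μ : ℝ} {q : ℝ × ℝ}

/-! ### auxiliary calculus -/

private theorem BLWC_da {f : ℝ × ℝ → ℝ} (hD : IsOpen D) (hf : ContDiffOn ℝ ∞ f D) (hq : q ∈ D) :
    DifferentiableAt ℝ f q := (hf.contDiffAt (hD.mem_nhds hq)).differentiableAt (by simp)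

private theorem BLWC_2 {f : ℝ × ℝ → ℝ} (hf : ContDiffOn ℝ ∞ f D) : ContDiffOn ℝ 2 f D :=
  hf.of_le (WithTop.coe_le_coe.2 le_top : (2 : ℕ∞ω) ≤ ∞)

private theorem bm {f g : ℝ × ℝ → ℝ} (hf : DifferentiableAt ℝ f q) (hg : DifferentiableAt ℝ g q) :
    DifferentiableAt ℝ (fun z => f z * g z) q := hf.mul hg

private theorem bs {f g : ℝ × ℝ → ℝ} (hf : DifferentiableAt ℝ f q) (hg : DifferentiableAt ℝ g q) :
    DifferentiableAt ℝ (fun z => f z - g z) q := hf.sub hg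

private theorem ba {f g : ℝ × ℝ → ℝ} (hf : DifferentiableAt ℝ f q) (hg : DifferentiableAt ℝ g q) :
    DifferentiableAt ℝ (fun z => f z + g z) q := hf.add hg

private theorem bc {f : ℝ × ℝ → ℝ} (c : ℝ) (hf : DifferentiableAt ℝ f q) :
    DifferentiableAt ℝ (fun z => c * f z) q := hf.const_mul c

/-- `L1` -/
private noncomputable def bL1 (f : ℝ × ℝ → ℝ) (q : ℝ × ℝ) : ℝ :=
  (1 / 4) * (dx (dx f) q - dy (dy f) q)

private noncomputable def bL2 (f : ℝ × ℝ → ℝ) (q : ℝ × ℝ) : ℝ := (-1 / 2) * dy (dx f) q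

private noncomputable def bB1 (f g : ℝ × ℝ → ℝ) (q : ℝ × ℝ) : ℝ :=
  (1 / 4) * (dx f q * dx g q - dy f q * dy g q)

private noncomputable def bB2 (f g : ℝ × ℝ → ℝ) (q : ℝ × ℝ) : ℝ :=
  (1 / 4) * (dx f q * dy g q + dy f q * dx g q)

private theorem bL1_smooth {f : ℝ × ℝ → ℝ} (hD : IsOpen D) (hf : ContDiffOn ℝ ∞ f D) :
    ContDiffOn ℝ ∞ (bL1 f) D :=
  contDiffOn_const.mul ((smooth_dx hD (smooth_dx hD hf)).sub (smooth_dy hD (smooth_dy hD hf)))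

private theorem bL2_smooth {f : ℝ × ℝ → ℝ} (hD : IsOpen D) (hf : ContDiffOn ℝ ∞ f D) :
    ContDiffOn ℝ ∞ (bL2 f) D :=
  contDiffOn_const.mul (smooth_dy hD (smooth_dx hD hf))

private theorem bB1_smooth {f g : ℝ × ℝ → ℝ} (hD : IsOpen D) (hf : ContDiffOn ℝ ∞ f D)
    (hg : ContDiffOn ℝ ∞ g D) : ContDiffOn ℝ ∞ (bB1 f g) D :=
  contDiffOn_const.mul (((smooth_dx hD hf).mul (smooth_dx hD hg)).sub
    ((smooth_dy hD hf).mul (smooth_dy hD hg)))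

private theorem bB2_smooth {f g : ℝ × ℝ → ℝ} (hD : IsOpen D) (hf : ContDiffOn ℝ ∞ f D)
    (hg : ContDiffOn ℝ ∞ g D) : ContDiffOn ℝ ∞ (bB2 f g) D :=
  contDiffOn_const.mul (((smooth_dx hD hf).mul (smooth_dy hD hg)).add
    ((smooth_dy hD hf).mul (smooth_dx hD hg)))

/-- third derivatives -/
private theorem BLWC_xyy {f : ℝ × ℝ → ℝ} (hD : IsOpen D) (hf : ContDiffOn ℝ ∞ f D)
    (hq : q ∈ D) : dx (dy (dy f)) q = dy (dy (dx f)) q := by
  rw [dx_dy_comm hD (BLWC_2 (smooth_dy hD hf)) hq]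
  exact dy_congr hD (fun z hz => dx_dy_comm hD (BLWC_2 hf) hz) hq

private theorem BLWC_xxy {f : ℝ × ℝ → ℝ} (hD : IsOpen D) (hf : ContDiffOn ℝ ∞ f D)
    (hq : q ∈ D) : dx (dy (dx f)) q = dy (dx (dx f)) q :=
  dx_dy_comm hD (BLWC_2 (smooth_dx hD hf)) hq

private theorem BLWC_dxlap {f : ℝ × ℝ → ℝ} (hD : IsOpen D) (hf : ContDiffOn ℝ ∞ f D)
    (hq : q ∈ D) : dx (lap f) q = dx (dx (dx f)) q + dy (dy (dx f)) q := by
  have h1 : dx (lap f) q = dx (fun z => dx (dx f) z + dy (dy f) z) q := rfl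
  rw [h1, dx_add (BLWC_da hD (smooth_dx hD (smooth_dx hD hf)) hq)
    (BLWC_da hD (smooth_dy hD (smooth_dy hD hf)) hq), BLWC_xyy hD hf hq]

private theorem BLWC_dylap {f : ℝ × ℝ → ℝ} (hD : IsOpen D) (hf : ContDiffOn ℝ ∞ f D)
    (hq : q ∈ D) : dy (lap f) q = dx (dy (dx f)) q + dy (dy (dy f)) q := by
  have h1 : dy (lap f) q = dy (fun z => dx (dx f) z + dy (dy f) z) q := rfl
  rw [h1, dy_add (BLWC_da hD (smooth_dx hD (smooth_dx hD hf)) hq)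
    (BLWC_da hD (smooth_dy hD (smooth_dy hD hf)) hq), BLWC_xxy hD hf hq]

private theorem bL_cr {f : ℝ × ℝ → ℝ} (hD : IsOpen D) (hf : ContDiffOn ℝ ∞ f D) (hq : q ∈ D) :
    dx (bL1 f) q - dy (bL2 f) q = dx (lap f) q / 4 ∧
    dy (bL1 f) q + dx (bL2 f) q = -dy (lap f) q / 4 := by
  have hx := smooth_dx hD hf
  have hy := smooth_dy hD hf
  have dxx := BLWC_da hD (smooth_dx hD hx) hq
  have dyy := BLWC_da hD (smooth_dy hD hy) hq
  have dxy := BLWC_da hD (smooth_dy hD hx) hq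
  have e1 : dx (bL1 f) q = (1 / 4) * (dx (dx (dx f)) q - dx (dy (dy f)) q) := by
    have : dx (bL1 f) q = dx (fun z => (1 / 4) * (dx (dx f) z - dy (dy f) z)) q := rfl
    rw [this, dx_const_mul _ (bs dxx dyy), dx_sub dxx dyy]
  have e2 : dy (bL1 f) q = (1 / 4) * (dy (dx (dx f)) q - dy (dy (dy f)) q) := by
    have : dy (bL1 f) q = dy (fun z => (1 / 4) * (dx (dx f) z - dy (dy f) z)) q := rfl
    rw [this, dy_const_mul _ (bs dxx dyy), dy_sub dxx dyy]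
  have e3 : dy (bL2 f) q = (-1 / 2) * dy (dy (dx f)) q := by
    have : dy (bL2 f) q = dy (fun z => (-1 / 2) * dy (dx f) z) q := rfl
    rw [this, dy_const_mul _ dxy]
  have e4 : dx (bL2 f) q = (-1 / 2) * dx (dy (dx f)) q := by
    have : dx (bL2 f) q = dx (fun z => (-1 / 2) * dy (dx f) z) q := rfl
    rw [this, dx_const_mul _ dxy]
  rw [e1, e2, e3, e4, BLWC_xyy hD hf hq, BLWC_dxlap hD hf hq, BLWC_dylap hD hf hq,
    BLWC_xxy hD hf hq]
  constructor <;> ring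

private theorem bB_cr {f g : ℝ × ℝ → ℝ} (hD : IsOpen D) (hf : ContDiffOn ℝ ∞ f D)
    (hg : ContDiffOn ℝ ∞ g D) (hq : q ∈ D) :
    dx (bB1 f g) q + dy (bB2 f g) q = (lap f q * dx g q + dx f q * lap g q) / 4 ∧
    dy (bB1 f g) q - dx (bB2 f g) q = -(lap f q * dy g q + dy f q * lap g q) / 4 := by
  have fx := BLWC_da hD (smooth_dx hD hf) hq
  have fy := BLWC_da hD (smooth_dy hD hf) hq
  have gx := BLWC_da hD (smooth_dx hD hg) hq
  have gy := BLWC_da hD (smooth_dy hD hg) hq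
  have cf := dx_dy_comm hD (BLWC_2 hf) hq
  have cg := dx_dy_comm hD (BLWC_2 hg) hq
  have e1 : dx (bB1 f g) q = (1 / 4) * ((dx (dx f) q * dx g q + dx f q * dx (dx g) q)
      - (dy (dx f) q * dy g q + dy f q * dy (dx g) q)) := by
    have : dx (bB1 f g) q = dx (fun z => (1 / 4) * (dx f z * dx g z - dy f z * dy g z)) q := rfl
    rw [this, dx_const_mul _ (bs (bm fx gx) (bm fy gy)), dx_sub (bm fx gx) (bm fy gy),
      dx_mul fx gx, dx_mul fy gy, cf, cg]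
  have e2 : dy (bB1 f g) q = (1 / 4) * ((dy (dx f) q * dx g q + dx f q * dy (dx g) q)
      - (dy (dy f) q * dy g q + dy f q * dy (dy g) q)) := by
    have : dy (bB1 f g) q = dy (fun z => (1 / 4) * (dx f z * dx g z - dy f z * dy g z)) q := rfl
    rw [this, dy_const_mul _ (bs (bm fx gx) (bm fy gy)), dy_sub (bm fx gx) (bm fy gy),
      dy_mul fx gx, dy_mul fy gy]
  have e3 : dx (bB2 f g) q = (1 / 4) * ((dx (dx f) q * dy g q + dx f q * dy (dx g) q)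
      + (dy (dx f) q * dx g q + dy f q * dx (dx g) q)) := by
    have : dx (bB2 f g) q = dx (fun z => (1 / 4) * (dx f z * dy g z + dy f z * dx g z)) q := rfl
    rw [this, dx_const_mul _ (ba (bm fx gy) (bm fy gx)), dx_add (bm fx gy) (bm fy gx),
      dx_mul fx gy, dx_mul fy gx, cf, cg]
  have e4 : dy (bB2 f g) q = (1 / 4) * ((dy (dx f) q * dy g q + dx f q * dy (dy g) q)
      + (dy (dy f) q * dx g q + dy f q * dy (dx g) q)) := by
    have : dy (bB2 f g) q = dy (fun z => (1 / 4) * (dx f z * dy g z + dy f z * dx g z)) q := rfl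
    rw [this, dy_const_mul _ (ba (bm fx gy) (bm fy gx)), dy_add (bm fx gy) (bm fy gx),
      dy_mul fx gy, dy_mul fy gx]
  rw [e1, e2, e3, e4]
  unfold lap
  constructor <;> ring

private theorem T1_eq (v : ℝ × ℝ → ℝ) : T1 v = fun z => bL1 v z - (1 / 2) * bB1 v v z := by
  funext z; unfold T1 bL1 bB1; ring

private theorem T2_eq (v : ℝ × ℝ → ℝ) : T2 v = fun z => bL2 v z + (1 / 2) * bB2 v v z := by
  funext z; unfold T2 bL2 bB2; ring

private theorem S1_eq (v φ : ℝ × ℝ → ℝ) : S1 v φ = fun z => bL1 φ z - bB1 v φ z := by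
  funext z; unfold S1 bL1 bB1; ring

private theorem S2_eq (v φ : ℝ × ℝ → ℝ) : S2 v φ = fun z => bL2 φ z + bB2 v φ z := by
  funext z; unfold S2 bL2 bB2; ring

private theorem T1_smooth (hD : IsOpen D) (hv : ContDiffOn ℝ ∞ v D) :
    ContDiffOn ℝ ∞ (T1 v) D := by
  rw [T1_eq]
  exact (bL1_smooth hD hv).sub (contDiffOn_const.mul (bB1_smooth hD hv hv))

private theorem T2_smooth (hD : IsOpen D) (hv : ContDiffOn ℝ ∞ v D) :
    ContDiffOn ℝ ∞ (T2 v) D := by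
  rw [T2_eq]
  exact (bL2_smooth hD hv).add (contDiffOn_const.mul (bB2_smooth hD hv hv))

private theorem S1_smooth (hD : IsOpen D) (hv : ContDiffOn ℝ ∞ v D) (hφ : ContDiffOn ℝ ∞ φ D) :
    ContDiffOn ℝ ∞ (S1 v φ) D := by
  rw [S1_eq]
  exact (bL1_smooth hD hφ).sub (bB1_smooth hD hv hφ)

private theorem S2_smooth (hD : IsOpen D) (hv : ContDiffOn ℝ ∞ v D) (hφ : ContDiffOn ℝ ∞ φ D) :
    ContDiffOn ℝ ∞ (S2 v φ) D := by
  rw [S2_eq]
  exact (bL2_smooth hD hφ).add (bB2_smooth hD hv hφ)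

private theorem BLWC_exp (hD : IsOpen D) (hv : ContDiffOn ℝ ∞ v D) (hq : q ∈ D) :
    DifferentiableAt ℝ (fun z => Real.exp (v z)) q ∧
    dx (fun z => Real.exp (v z)) q = Real.exp (v q) * dx v q ∧
    dy (fun z => Real.exp (v z)) q = Real.exp (v q) * dy v q := by
  have h := BLWC_da hD hv hq
  refine ⟨h.exp, ?_, ?_⟩
  · rw [dx_comp (F := Real.exp) h (Real.differentiable_exp _), Real.deriv_exp]
  · rw [dy_comp (F := Real.exp) h (Real.differentiable_exp _), Real.deriv_exp]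

private theorem BLWC_lapv (hD : IsOpen D) (hv : ContDiffOn ℝ ∞ v D)
    (heq : ∀ q ∈ D, -lap v q = μ * Real.exp (v q)) (hq : q ∈ D) :
    lap v q = -(μ * Real.exp (v q)) ∧ dx (lap v) q = -(μ * Real.exp (v q)) * dx v q ∧
    dy (lap v) q = -(μ * Real.exp (v q)) * dy v q := by
  have h0 : ∀ z ∈ D, lap v z = (-μ) * Real.exp (v z) := fun z hz => by
    have := heq z hz; linarith
  obtain ⟨d, e1, e2⟩ := BLWC_exp hD hv hq
  refine ⟨by rw [h0 q hq]; ring, ?_, ?_⟩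
  · rw [dx_congr hD h0 hq, dx_const_mul _ d, e1]; ring
  · rw [dy_congr hD h0 hq, dy_const_mul _ d, e2]; ring

private theorem BLWC_lapφ (hD : IsOpen D) (hv : ContDiffOn ℝ ∞ v D) (hφ : ContDiffOn ℝ ∞ φ D)
    (hφe : ∀ q ∈ D, -lap φ q = μ * Real.exp (v q) * φ q) (hq : q ∈ D) :
    lap φ q = -(μ * Real.exp (v q) * φ q) ∧
    dx (lap φ) q = -(μ * Real.exp (v q)) * (dx v q * φ q + dx φ q) ∧
    dy (lap φ) q = -(μ * Real.exp (v q)) * (dy v q * φ q + dy φ q) := by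
  have h0 : ∀ z ∈ D, lap φ z = (-μ) * (Real.exp (v z) * φ z) := fun z hz => by
    have := hφe z hz; linarith
  obtain ⟨d, e1, e2⟩ := BLWC_exp hD hv hq
  have dφ := BLWC_da hD hφ hq
  refine ⟨by rw [h0 q hq]; ring, ?_, ?_⟩
  · rw [dx_congr hD h0 hq, dx_const_mul _ (bm d dφ), dx_mul d dφ, e1]; ring
  · rw [dy_congr hD h0 hq, dy_const_mul _ (bm d dφ), dy_mul d dφ, e2]; ring

theorem t_cr (hD : IsOpen D) (hv : ContDiffOn ℝ ∞ v D)
    (heq : ∀ q ∈ D, -lap v q = μ * Real.exp (v q)) (hq : q ∈ D) :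
    dx (T1 v) q = dy (T2 v) q ∧ dy (T1 v) q = -dx (T2 v) q := by
  obtain ⟨l1, l2⟩ := bL_cr hD hv hq
  obtain ⟨b1, b2⟩ := bB_cr hD hv hv hq
  obtain ⟨v0, v1, v2⟩ := BLWC_lapv hD hv heq hq
  have dL1 := BLWC_da hD (bL1_smooth hD hv) hq
  have dL2 := BLWC_da hD (bL2_smooth hD hv) hq
  have dB1 := BLWC_da hD (bB1_smooth hD hv hv) hq
  have dB2 := BLWC_da hD (bB2_smooth hD hv hv) hq
  rw [T1_eq, T2_eq, dx_sub dL1 (bc _ dB1), dy_sub dL1 (bc _ dB1),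
    dx_add dL2 (bc _ dB2), dy_add dL2 (bc _ dB2), dx_const_mul _ dB1,
    dy_const_mul _ dB1, dx_const_mul _ dB2, dy_const_mul _ dB2]
  rw [v0] at b1 b2
  rw [v1] at l1
  rw [v2] at l2
  constructor
  · linear_combination l1 - (1 / 2) * b1
  · linear_combination l2 - (1 / 2) * b2

private theorem BLWC_harm {P Q : ℝ × ℝ → ℝ} (hD : IsOpen D) (hP : ContDiffOn ℝ ∞ P D)
    (hQ : ContDiffOn ℝ ∞ Q D) (h : ∀ z ∈ D, dx P z = dy Q z ∧ dy P z = -dx Q z) (hq : q ∈ D) :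
    lap P q = 0 ∧ lap Q q = 0 := by
  have dQx := BLWC_da hD (smooth_dx hD hQ) hq
  have dPx := BLWC_da hD (smooth_dx hD hP) hq
  have dPy := BLWC_da hD (smooth_dy hD hP) hq
  constructor
  · unfold lap
    have h2 : ∀ z ∈ D, dy P z = (-1) * dx Q z := fun z hz => by rw [(h z hz).2]; ring
    rw [dx_congr hD (fun z hz => (h z hz).1) hq, dy_congr hD h2 hq, dy_const_mul _ dQx,
      dx_dy_comm hD (BLWC_2 hQ) hq]
    ring
  · unfold lap
    have h2 : ∀ z ∈ D, dx Q z = (-1) * dy P z := fun z hz => by rw [(h z hz).2]; ring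
    rw [dx_congr hD h2 hq, dy_congr hD (fun z hz => (h z hz).1.symm) hq, dx_const_mul _ dPy,
      dx_dy_comm hD (BLWC_2 hP) hq]
    ring

theorem t_harm (hD : IsOpen D) (hv : ContDiffOn ℝ ∞ v D)
    (heq : ∀ q ∈ D, -lap v q = μ * Real.exp (v q)) (hq : q ∈ D) :
    lap (T1 v) q = 0 ∧ lap (T2 v) q = 0 :=
  BLWC_harm hD (T1_smooth hD hv) (T2_smooth hD hv) (fun _ hz => t_cr hD hv heq hz) hq

theorem s_cr (hD : IsOpen D) (hv : ContDiffOn ℝ ∞ v D) (hφ : ContDiffOn ℝ ∞ φ D)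
    (heq : ∀ q ∈ D, -lap v q = μ * Real.exp (v q))
    (hφe : ∀ q ∈ D, -lap φ q = μ * Real.exp (v q) * φ q) (hq : q ∈ D) :
    dx (S1 v φ) q = dy (S2 v φ) q ∧ dy (S1 v φ) q = -dx (S2 v φ) q := by
  obtain ⟨l1, l2⟩ := bL_cr hD hφ hq
  obtain ⟨b1, b2⟩ := bB_cr hD hv hφ hq
  obtain ⟨v0, v1, v2⟩ := BLWC_lapv hD hv heq hq
  obtain ⟨p0, p1, p2⟩ := BLWC_lapφ hD hv hφ hφe hq
  have dL1 := BLWC_da hD (bL1_smooth hD hφ) hq
  have dL2 := BLWC_da hD (bL2_smooth hD hφ) hq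
  have dB1 := BLWC_da hD (bB1_smooth hD hv hφ) hq
  have dB2 := BLWC_da hD (bB2_smooth hD hv hφ) hq
  rw [S1_eq, S2_eq, dx_sub dL1 dB1, dy_sub dL1 dB1, dx_add dL2 dB2, dy_add dL2 dB2]
  rw [v0, p0] at b1 b2
  rw [p1] at l1
  rw [p2] at l2
  constructor
  · linear_combination l1 - b1
  · linear_combination l2 - b2

theorem s_harm (hD : IsOpen D) (hv : ContDiffOn ℝ ∞ v D) (hφ : ContDiffOn ℝ ∞ φ D)
    (heq : ∀ q ∈ D, -lap v q = μ * Real.exp (v q))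
    (hφe : ∀ q ∈ D, -lap φ q = μ * Real.exp (v q) * φ q) (hq : q ∈ D) :
    lap (S1 v φ) q = 0 ∧ lap (S2 v φ) q = 0 :=
  BLWC_harm hD (S1_smooth hD hv hφ) (S2_smooth hD hv hφ)
    (fun _ hz => s_cr hD hv hφ heq hφe hz) hq

private theorem BLWC_w (_hD : IsOpen D) (hv : ContDiffOn ℝ ∞ v D) :
    ContDiffOn ℝ ∞ (wv v) D := by
  unfold wv
  exact (hv.neg.div_const 2).exp

private theorem BLWC_w1 (hD : IsOpen D) (hv : ContDiffOn ℝ ∞ v D) (hq : q ∈ D) :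
    dx (wv v) q = (-1 / 2) * (dx v q * wv v q) ∧ dy (wv v) q = (-1 / 2) * (dy v q * wv v q) := by
  have h := BLWC_da hD hv hq
  have hd : DifferentiableAt ℝ (fun s : ℝ => Real.exp (-s / 2)) (v q) := by fun_prop
  have hder : deriv (fun s : ℝ => Real.exp (-s / 2)) (v q) = (-1 / 2) * Real.exp (-(v q) / 2) := by
    have h1 : HasDerivAt (fun s : ℝ => Real.exp (-s / 2)) (Real.exp (-(v q) / 2) * (-1 / 2))
        (v q) := (((hasDerivAt_id (v q)).neg).div_const 2).exp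
    rw [h1.deriv]; ring
  constructor
  · have e : dx (wv v) q = dx (fun z => (fun s : ℝ => Real.exp (-s / 2)) (v z)) q := rfl
    rw [e, dx_comp h hd, hder]; unfold wv; ring
  · have e : dy (wv v) q = dy (fun z => (fun s : ℝ => Real.exp (-s / 2)) (v z)) q := rfl
    rw [e, dy_comp h hd, hder]; unfold wv; ring

private theorem BLWC_w2 (hD : IsOpen D) (hv : ContDiffOn ℝ ∞ v D) (hq : q ∈ D) :
    dx (dx (wv v)) q = (-1 / 2) * (dx (dx v) q * wv v q) + (1 / 4) * (dx v q * dx v q * wv v q) ∧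
    dy (dx (wv v)) q = (-1 / 2) * (dy (dx v) q * wv v q) + (1 / 4) * (dx v q * dy v q * wv v q) ∧
    dy (dy (wv v)) q = (-1 / 2) * (dy (dy v) q * wv v q)
      + (1 / 4) * (dy v q * dy v q * wv v q) := by
  have dw := BLWC_da hD (BLWC_w hD hv) hq
  have dvx := BLWC_da hD (smooth_dx hD hv) hq
  have dvy := BLWC_da hD (smooth_dy hD hv) hq
  obtain ⟨w1, w2⟩ := BLWC_w1 hD hv hq
  refine ⟨?_, ?_, ?_⟩
  · rw [dx_congr hD (fun z hz => (BLWC_w1 hD hv hz).1) hq, dx_const_mul _ (bm dvx dw),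
      dx_mul dvx dw, w1]; ring
  · rw [dy_congr hD (fun z hz => (BLWC_w1 hD hv hz).1) hq, dy_const_mul _ (bm dvx dw),
      dy_mul dvx dw, w2]; ring
  · rw [dy_congr hD (fun z hz => (BLWC_w1 hD hv hz).2) hq, dy_const_mul _ (bm dvy dw),
      dy_mul dvy dw, w2]; ring

/-- derivatives of the Laplacian from the traceless part of the Hessian -/
private theorem BLWC_gl {u P Q : ℝ × ℝ → ℝ} (hD : IsOpen D) (hu : ContDiffOn ℝ ∞ u D)
    (hP : ContDiffOn ℝ ∞ P D)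
    (h1 : ∀ z ∈ D, dx (dx u) z - dy (dy u) z = P z) (h2 : ∀ z ∈ D, dy (dx u) z = Q z)
    (hq : q ∈ D) : dx (lap u) q = 2 * dy Q q + dx P q ∧ dy (lap u) q = 2 * dx Q q - dy P q := by
  have dP := BLWC_da hD hP hq
  have dxx := BLWC_da hD (smooth_dx hD (smooth_dx hD hu)) hq
  have dyy := BLWC_da hD (smooth_dy hD (smooth_dy hD hu)) hq
  constructor
  · have e : ∀ z ∈ D, lap u z = 2 * dy (dy u) z + P z := fun z hz => by
      have := h1 z hz; unfold lap; linarith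
    rw [dx_congr hD e hq, dx_add (bc _ dyy) dP, dx_const_mul _ dyy, BLWC_xyy hD hu hq,
      dy_congr hD h2 hq]
  · have e : ∀ z ∈ D, lap u z = 2 * dx (dx u) z - P z := fun z hz => by
      have := h1 z hz; unfold lap; linarith
    rw [dy_congr hD e hq, dy_sub (bc _ dxx) dP, dy_const_mul _ dxx, ← BLWC_xxy hD hu hq,
      dx_congr hD h2 hq]

private theorem BLWC_w3 (hD : IsOpen D) (hv : ContDiffOn ℝ ∞ v D) (hq : q ∈ D) :
    dx (dx (wv v)) q - dy (dy (wv v)) q = (-2) * (T1 v q * wv v q) ∧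
    dy (dx (wv v)) q = T2 v q * wv v q := by
  obtain ⟨a1, a2, a3⟩ := BLWC_w2 hD hv hq
  rw [a1, a2, a3]
  unfold T1 T2
  constructor <;> ring

theorem w_eqs (hD : IsOpen D) (hv : ContDiffOn ℝ ∞ v D)
    (heq : ∀ q ∈ D, -lap v q = μ * Real.exp (v q)) (hq : q ∈ D) :
    dx (wv v) q = -(dx v q) / 2 * wv v q ∧ dy (wv v) q = -(dy v q) / 2 * wv v q ∧
    dx (dx (wv v)) q - dy (dy (wv v)) q = -2 * T1 v q * wv v q ∧
    dy (dx (wv v)) q = T2 v q * wv v q ∧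
    lap (wv v) q = wv v q * (μ * Real.exp (v q) / 2 + gdot v v q / 4) ∧
    dx (lap (wv v)) q = -2 * (T1 v q * dx (wv v) q - T2 v q * dy (wv v) q) ∧
    dy (lap (wv v)) q = 2 * (T2 v q * dx (wv v) q + T1 v q * dy (wv v) q) := by
  obtain ⟨w1, w2⟩ := BLWC_w1 hD hv hq
  obtain ⟨w3, w4⟩ := BLWC_w3 hD hv hq
  obtain ⟨a1, a2, a3⟩ := BLWC_w2 hD hv hq
  obtain ⟨c1, c2⟩ := t_cr hD hv heq hq
  have dw := BLWC_da hD (BLWC_w hD hv) hq
  have dT1 := BLWC_da hD (T1_smooth hD hv) hq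
  have dT2 := BLWC_da hD (T2_smooth hD hv) hq
  have g := BLWC_gl (P := fun z => (-2) * (T1 v z * wv v z)) (Q := fun z => T2 v z * wv v z)
    hD (BLWC_w hD hv) (contDiffOn_const.mul ((T1_smooth hD hv).mul (BLWC_w hD hv)))
    (fun z hz => (BLWC_w3 hD hv hz).1) (fun z hz => (BLWC_w3 hD hv hz).2) hq
  rw [dx_const_mul _ (bm dT1 dw), dy_const_mul _ (bm dT1 dw), dx_mul dT1 dw, dy_mul dT1 dw,
    dx_mul dT2 dw, dy_mul dT2 dw, c1, c2] at g
  refine ⟨by rw [w1]; ring, by rw [w2]; ring, by rw [w3]; ring, w4, ?_, ?_, ?_⟩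
  · have h := heq q hq
    unfold lap at h ⊢
    rw [a1, a3]
    unfold gdot
    linear_combination (wv v q / 2) * h
  · linear_combination g.1
  · linear_combination g.2

private theorem BLWC_o1 (hD : IsOpen D) (hv : ContDiffOn ℝ ∞ v D) (hφ : ContDiffOn ℝ ∞ φ D)
    (hq : q ∈ D) :
    dx (dx (fun z => wv v z * φ z)) q - dy (dy (fun z => wv v z * φ z)) q
      = (-2) * (T1 v q * (wv v q * φ q)) + 4 * (S1 v φ q * wv v q) ∧
    dy (dx (fun z => wv v z * φ z)) q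
      = T2 v q * (wv v q * φ q) + (-2) * (S2 v φ q * wv v q) := by
  have dw := BLWC_da hD (BLWC_w hD hv) hq
  have dφ := BLWC_da hD hφ hq
  have dwx := BLWC_da hD (smooth_dx hD (BLWC_w hD hv)) hq
  have dwy := BLWC_da hD (smooth_dy hD (BLWC_w hD hv)) hq
  have dφx := BLWC_da hD (smooth_dx hD hφ) hq
  have dφy := BLWC_da hD (smooth_dy hD hφ) hq
  have ex : ∀ z ∈ D, dx (fun z => wv v z * φ z) z = dx (wv v) z * φ z + wv v z * dx φ z :=
    fun z hz => dx_mul (BLWC_da hD (BLWC_w hD hv) hz) (BLWC_da hD hφ hz)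
  have ey : ∀ z ∈ D, dy (fun z => wv v z * φ z) z = dy (wv v) z * φ z + wv v z * dy φ z :=
    fun z hz => dy_mul (BLWC_da hD (BLWC_w hD hv) hz) (BLWC_da hD hφ hz)
  obtain ⟨w1, w2⟩ := BLWC_w1 hD hv hq
  obtain ⟨w3, w4⟩ := BLWC_w3 hD hv hq
  rw [dx_congr hD ex hq, dy_congr hD ey hq, dy_congr hD ex hq,
    dx_add (bm dwx dφ) (bm dw dφx), dy_add (bm dwy dφ) (bm dw dφy),
    dy_add (bm dwx dφ) (bm dw dφx), dx_mul dwx dφ, dx_mul dw dφx, dy_mul dwy dφ,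
    dy_mul dw dφy, dy_mul dwx dφ, dy_mul dw dφx, w4, w1, w2]
  unfold S1 S2
  constructor
  · linear_combination φ q * w3
  · ring

theorem o_eqs (hD : IsOpen D) (hv : ContDiffOn ℝ ∞ v D) (hφ : ContDiffOn ℝ ∞ φ D)
    (heq : ∀ q ∈ D, -lap v q = μ * Real.exp (v q))
    (hφe : ∀ q ∈ D, -lap φ q = μ * Real.exp (v q) * φ q) (hq : q ∈ D) :
    dx (dx (fun z => wv v z * φ z)) q - dy (dy (fun z => wv v z * φ z)) q
      = -2 * T1 v q * (wv v q * φ q) + 4 * S1 v φ q * wv v q ∧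
    dy (dx (fun z => wv v z * φ z)) q = T2 v q * (wv v q * φ q) - 2 * S2 v φ q * wv v q ∧
    dx (lap (fun z => wv v z * φ z)) q
      = -2 * (T1 v q * dx (fun z => wv v z * φ z) q - T2 v q * dy (fun z => wv v z * φ z) q)
        + 4 * (S1 v φ q * dx (wv v) q - S2 v φ q * dy (wv v) q) ∧
    dy (lap (fun z => wv v z * φ z)) q
      = 2 * (T2 v q * dx (fun z => wv v z * φ z) q + T1 v q * dy (fun z => wv v z * φ z) q)
        - 4 * (S2 v φ q * dx (wv v) q + S1 v φ q * dy (wv v) q) := by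
  obtain ⟨o1, o2⟩ := BLWC_o1 hD hv hφ hq
  obtain ⟨c1, c2⟩ := t_cr hD hv heq hq
  obtain ⟨s1, s2⟩ := s_cr hD hv hφ heq hφe hq
  have hw := BLWC_w hD hv
  have ho : ContDiffOn ℝ ∞ (fun z => wv v z * φ z) D := hw.mul hφ
  have dw := BLWC_da hD hw hq
  have dO := BLWC_da hD ho hq
  have dT1 := BLWC_da hD (T1_smooth hD hv) hq
  have dT2 := BLWC_da hD (T2_smooth hD hv) hq
  have dS1 := BLWC_da hD (S1_smooth hD hv hφ) hq
  have dS2 := BLWC_da hD (S2_smooth hD hv hφ) hq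
  have g := BLWC_gl
    (P := fun z => (-2) * (T1 v z * (wv v z * φ z)) + 4 * (S1 v φ z * wv v z))
    (Q := fun z => T2 v z * (wv v z * φ z) + (-2) * (S2 v φ z * wv v z))
    hD ho ((contDiffOn_const.mul ((T1_smooth hD hv).mul ho)).add
      (contDiffOn_const.mul ((S1_smooth hD hv hφ).mul hw)))
    (fun z hz => (BLWC_o1 hD hv hφ hz).1) (fun z hz => (BLWC_o1 hD hv hφ hz).2) hq
  have m1 := bm dT1 dO
  have m2 := bm dT2 dO
  have m3 := bm dS1 dw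
  have m4 := bm dS2 dw
  rw [dx_add (bc _ m1) (bc _ m3), dy_add (bc _ m1) (bc _ m3),
    dx_add m2 (bc _ m4), dy_add m2 (bc _ m4), dx_const_mul _ m1,
    dy_const_mul _ m1, dx_const_mul _ m3, dy_const_mul _ m3, dx_const_mul _ m4,
    dy_const_mul _ m4, dx_mul dT1 dO, dy_mul dT1 dO, dx_mul dT2 dO, dy_mul dT2 dO,
    dx_mul dS1 dw, dy_mul dS1 dw, dx_mul dS2 dw, dy_mul dS2 dw, c1, c2, s1, s2] at g
  refine ⟨by rw [o1]; ring, by rw [o2]; ring, ?_, ?_⟩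
  · linear_combination g.1
  · linear_combination g.2

end Pool.Agent.MFE
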