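import Pool.Agent.MFE.CAL

/-!
# MFE.BLWD: the ray lemma (Gronwall estimates around the origin)

`A(q) = a + β |q|²`. Fix `s < min r₀ R` and let `m = sup_{|q| ≤ s} max(|u_x|, |u_y|)` (finite,
compactness). `h = lap u`. By the mean value inequality on segments from the origin, for
`|q| ≤ s`: `|h - 4b| ≤ 2sC(2m + s(β + A(s)))`, `|u| ≤ a + 2sm`,
`|u_xx| ≤ |h|/2 + (C/2)(|u| + A(s))`, `|u_xy| ≤ C(|u| + A(s))`, so
`m ≤ s [2β + sC(2m + s(β+A(s))) + 2C(a + 2sm + A(s))]`, and for `r₀` small (depending on `C`):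
`m ≤ C₁ s (β + A(s))`. Hence `|u_x(q)|, |u_y(q)| ≤ C₁ s (β + A)` for `|q| = s` (any `s < min r₀ R`), then
`|h - 4b| ≤ C₂ s² (β + A) ≤ 2 C₂ A` (as `β s² ≤ A`, `s ≤ 1`), `|u| ≤ C₃ A`, and
`u_x(q) - 2bx = ∫_0^1 [x (u_xx - 2b) + y u_xy](τ q) dτ` with
`u_xx - 2b = (h - 4b)/2 + (u_xx - u_yy)/2`: `|u_x - 2bx| ≤ C' s A`; same for `u_y`
(`u_yy - 2b = (h-4b)/2 - (u_xx - u_yy)/2`), and one more integration gives
`|u - u(0) - b s²| ≤ C' s² A`. (`A` is non-decreasing along rays.)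
-/

open scoped ContDiff

namespace Pool.Agent.MFE

/-- the squared Euclidean norm -/
def sq2 (q : ℝ × ℝ) : ℝ := q.1 ^ 2 + q.2 ^ 2

theorem RAY_convex (s : ℝ) : Convex ℝ (CDisc (0, 0) s) := by
  intro p hp q hq a b ha hb hab
  simp only [CDisc, Set.mem_ofPred_eq, sub_zero] at *
  simp only [Prod.fst_add, Prod.snd_add, Prod.smul_fst, Prod.smul_snd, smul_eq_mul]
  have h1 : (a * p.1 + b * q.1) ^ 2 + (a * p.2 + b * q.2) ^ 2 =
      (a + b) * (a * (p.1 ^ 2 + p.2 ^ 2) + b * (q.1 ^ 2 + q.2 ^ 2)) -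
        a * b * ((p.1 - q.1) ^ 2 + (p.2 - q.2) ^ 2) := by ring
  rw [h1, hab, one_mul]
  have h2 : 0 ≤ a * b * ((p.1 - q.1) ^ 2 + (p.2 - q.2) ^ 2) := by positivity
  have h3 : a * (p.1 ^ 2 + p.2 ^ 2) ≤ a * s ^ 2 := mul_le_mul_of_nonneg_left hp ha
  have h4 : b * (q.1 ^ 2 + q.2 ^ 2) ≤ b * s ^ 2 := mul_le_mul_of_nonneg_left hq hb
  have h5 : a * s ^ 2 + b * s ^ 2 = s ^ 2 := by rw [← add_mul, hab, one_mul]
  linarith

theorem RAY_compact (s : ℝ) : IsCompact (CDisc (0, 0) s) := by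
  refine IsCompact.of_isClosed_subset ((isCompact_Icc (a := -|s|) (b := |s|)).prod
    (isCompact_Icc (a := -|s|) (b := |s|))) ?_ ?_
  · exact isClosed_le (by fun_prop) continuous_const
  · intro q hq
    simp only [CDisc, Set.mem_ofPred_eq, sub_zero] at hq
    have h1 : q.1 ^ 2 ≤ s ^ 2 := by nlinarith [sq_nonneg q.2]
    have h2 : q.2 ^ 2 ≤ s ^ 2 := by nlinarith [sq_nonneg q.1]
    exact ⟨abs_le.1 (sq_le_sq.1 h1), abs_le.1 (sq_le_sq.1 h2)⟩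

theorem RAY_open (R : ℝ) : IsOpen (Disc (0, 0) R) := isOpen_lt (by fun_prop) continuous_const

theorem RAY_sub {s R : ℝ} (hs : 0 ≤ s) (hR : s < R) : CDisc (0, 0) s ⊆ Disc (0, 0) R := by
  intro q hq
  simp only [CDisc, Disc, Set.mem_ofPred_eq] at *
  nlinarith

private theorem RAY_n1 {C s : ℝ} (hs0 : 0 ≤ s) (hsr : s * (1 + 10 * C) < 1) :
    5 * C * s ≤ 1 / 2 := by
  have : s * (1 + 10 * C) = s + 2 * (5 * C * s) := by ring
  linarith

private theorem RAY_n2 {s : ℝ} (hs0 : 0 ≤ s) (hs1 : s ≤ 1) : s ^ 2 ≤ 1 ∧ s ^ 2 ≤ s := by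
  constructor <;> nlinarith

/-- the bound for `m` -/
private theorem RAY_n3 {C s m a A β : ℝ} (hC : 0 < C) (hs0 : 0 ≤ s) (hs1 : s ≤ 1)
    (hm0 : 0 ≤ m) (hβ : 0 < β) (hA0 : 0 < A) (haA : a ≤ A)
    (hCs : 5 * C * s ≤ 1 / 2)
    (hm1 : m ≤ (C * (2 * m + s * (β + A)) * s + 3 / 2 * (C * (a + 2 * s * m + A)) + 2 * β) * s) :
    m ≤ (4 + 8 * C) * s * (β + A) := by
  have e : (C * (2 * m + s * (β + A)) * s + 3 / 2 * (C * (a + 2 * s * m + A)) + 2 * β) * s =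
      (5 * C * s) * s * m + s * (C * s ^ 2 * (β + A) + 3 / 2 * C * (a + A) + 2 * β) := by ring
  rw [e] at hm1
  have hs2' := (RAY_n2 hs0 hs1).1
  have h0 : (5 * C * s) * s ≤ 1 / 2 * 1 :=
    mul_le_mul hCs hs1 hs0 (by norm_num)
  have g1 : (5 * C * s) * s * m ≤ 1 / 2 * 1 * m := mul_le_mul_of_nonneg_right h0 hm0
  have hβA : 0 ≤ β + A := by linarith
  have h1 : C * s ^ 2 * (β + A) ≤ C * 1 * (β + A) :=
    mul_le_mul_of_nonneg_right (mul_le_mul_of_nonneg_left hs2' hC.le) hβA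
  have h2 : 3 / 2 * C * (a + A) ≤ 3 / 2 * C * (2 * A) :=
    mul_le_mul_of_nonneg_left (by linarith) (by positivity)
  have h3 : 0 < C * β := mul_pos hC hβ
  have h4 : 0 < C * A := mul_pos hC hA0
  have g2 : C * s ^ 2 * (β + A) + 3 / 2 * C * (a + A) + 2 * β ≤ (2 + 4 * C) * (β + A) := by
    have k1 : C * 1 * (β + A) = C * β + C * A := by ring
    have k2 : 3 / 2 * C * (2 * A) = 3 * (C * A) := by ring
    have k3 : (2 + 4 * C) * (β + A) = 2 * β + 2 * A + 4 * (C * β) + 4 * (C * A) := by ring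
    linarith
  have g3 := mul_le_mul_of_nonneg_left g2 hs0
  have k4 : (4 + 8 * C) * s * (β + A) = 2 * (s * ((2 + 4 * C) * (β + A))) := by ring
  linarith

private theorem RAY_n4 {s β A : ℝ} (hs2' : s ^ 2 ≤ 1) (hβA : β * s ^ 2 ≤ A) (hA0 : 0 < A) :
    s ^ 2 * (β + A) ≤ 2 * A := by
  have h1 : s ^ 2 * A ≤ 1 * A := mul_le_mul_of_nonneg_right hs2' hA0.le
  have e : s ^ 2 * (β + A) = β * s ^ 2 + s ^ 2 * A := by ring
  linarith

private theorem RAY_n5 {C s m A β C₁ C₂ : ℝ} (hC : 0 < C) (hs0 : 0 ≤ s) (p1 : 0 < C₁)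
    (hC₂ : C₂ = 4 * C * (2 * C₁ + 1)) (hm2 : m ≤ C₁ * s * (β + A))
    (hsA : s ^ 2 * (β + A) ≤ 2 * A) :
    C * (2 * m + s * (β + A)) * s ≤ C₂ / 2 * A := by
  have h0 := mul_le_mul_of_nonneg_right hm2 hs0
  have e1 : C₁ * s * (β + A) * s = C₁ * (s ^ 2 * (β + A)) := by ring
  have g1 : (2 * m + s * (β + A)) * s ≤ (2 * C₁ + 1) * (s ^ 2 * (β + A)) := by
    have e2 : (2 * m + s * (β + A)) * s = 2 * (m * s) + s ^ 2 * (β + A) := by ring
    have e3 : (2 * C₁ + 1) * (s ^ 2 * (β + A)) =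
      2 * (C₁ * (s ^ 2 * (β + A))) + s ^ 2 * (β + A) := by ring
    linarith
  have g2 : (2 * C₁ + 1) * (s ^ 2 * (β + A)) ≤ (2 * C₁ + 1) * (2 * A) :=
    mul_le_mul_of_nonneg_left hsA (by positivity)
  have g3 := mul_le_mul_of_nonneg_left (g1.trans g2) hC.le
  rw [hC₂]
  calc C * (2 * m + s * (β + A)) * s = C * ((2 * m + s * (β + A)) * s) := by ring
    _ ≤ C * ((2 * C₁ + 1) * (2 * A)) := g3
    _ = 4 * C * (2 * C₁ + 1) / 2 * A := by ring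

private theorem RAY_n6 {C s m a A β C₁ C₃ : ℝ} (hC : 0 < C) (hs0 : 0 ≤ s) (p1 : 0 < C₁)
    (haA : a ≤ A) (hC₃ : C₃ = 1 + 4 * C₁) (hm2 : m ≤ C₁ * s * (β + A))
    (hsA : s ^ 2 * (β + A) ≤ 2 * A) :
    C * (a + 2 * s * m + A) ≤ C * (C₃ + 1) * A := by
  have h0 := mul_le_mul_of_nonneg_left hm2 hs0
  have e1 : s * (C₁ * s * (β + A)) = C₁ * (s ^ 2 * (β + A)) := by ring
  have g2 : C₁ * (s ^ 2 * (β + A)) ≤ C₁ * (2 * A) := mul_le_mul_of_nonneg_left hsA p1.le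
  have g3 : a + 2 * s * m + A ≤ (1 + 4 * C₁ + 1) * A := by
    have e2 : (1 + 4 * C₁ + 1) * A = A + 2 * (C₁ * (2 * A)) + A := by ring
    have e3 : a + 2 * s * m + A = a + 2 * (s * m) + A := by ring
    linarith
  rw [hC₃]
  calc C * (a + 2 * s * m + A) ≤ C * ((1 + 4 * C₁ + 1) * A) :=
        mul_le_mul_of_nonneg_left g3 hC.le
    _ = C * (1 + 4 * C₁ + 1) * A := by ring

private theorem RAY_n7 {C₂ C₃ C₄ C A X G : ℝ} (hC₄ : C₄ = C₂ / 2 + 3 / 2 * (C * (C₃ + 1)))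
    (hX : X ≤ C₂ / 2 * A) (hG : G ≤ C * (C₃ + 1) * A) : X + G / 2 + G ≤ C₄ * A := by
  have e : C₄ * A = C₂ / 2 * A + 3 / 2 * (C * (C₃ + 1) * A) := by rw [hC₄]; ring
  linarith

/-- mean value inequality on discs -/
theorem RAY_mv {f : ℝ × ℝ → ℝ} {s R B₁ B₂ : ℝ} (hs : 0 ≤ s) (hR : s < R)
    (hf : ContDiffOn ℝ 1 f (Disc (0, 0) R)) (h1 : ∀ q ∈ CDisc (0, 0) s, |dx f q| ≤ B₁)
    (h2 : ∀ q ∈ CDisc (0, 0) s, |dy f q| ≤ B₂) :
    ∀ q ∈ CDisc (0, 0) s, |f q - f (0, 0)| ≤ (B₁ + B₂) * s := by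
  intro q hq
  have h0 : ((0 : ℝ), (0 : ℝ)) ∈ CDisc (0, 0) s := by
    simp only [CDisc, Set.mem_ofPred_eq, sub_zero]
    nlinarith [sq_nonneg s]
  have hd : ∀ z ∈ CDisc (0, 0) s, DifferentiableAt ℝ f z := fun z hz =>
    (hf.contDiffAt ((RAY_open R).mem_nhds (RAY_sub hs hR hz))).differentiableAt (by simp)
  have hB : 0 ≤ B₁ + B₂ := add_nonneg ((abs_nonneg _).trans (h1 _ h0))
    ((abs_nonneg _).trans (h2 _ h0))
  have hb : ∀ z ∈ CDisc (0, 0) s, ‖fderiv ℝ f z‖ ≤ B₁ + B₂ := by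
    intro z hz
    refine ContinuousLinearMap.opNorm_le_bound _ hB fun v => ?_
    have e : fderiv ℝ f z v = v.1 * dx f z + v.2 * dy f z := fderiv_apply_eq (hd z hz) v.1 v.2
    rw [e, Real.norm_eq_abs]
    have g1 : |v.1| ≤ ‖v‖ := norm_fst_le v
    have g2 : |v.2| ≤ ‖v‖ := norm_snd_le v
    calc |v.1 * dx f z + v.2 * dy f z| ≤ |v.1| * |dx f z| + |v.2| * |dy f z| := by
          refine (abs_add_le _ _).trans ?_
          rw [abs_mul, abs_mul]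
      _ ≤ ‖v‖ * B₁ + ‖v‖ * B₂ :=
          add_le_add (mul_le_mul g1 (h1 z hz) (abs_nonneg _) (norm_nonneg _))
            (mul_le_mul g2 (h2 z hz) (abs_nonneg _) (norm_nonneg _))
      _ = (B₁ + B₂) * ‖v‖ := by ring
  have key := (RAY_convex s).norm_image_sub_le_of_norm_fderiv_le hd hb h0 hq
  rw [Real.norm_eq_abs] at key
  refine key.trans (mul_le_mul_of_nonneg_left ?_ hB)
  simp only [CDisc, Set.mem_ofPred_eq, sub_zero] at hq
  have g1 : |q.1| ≤ s := abs_le_of_sq_le_sq (by nlinarith [sq_nonneg q.2]) hs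
  have g2 : |q.2| ≤ s := abs_le_of_sq_le_sq (by nlinarith [sq_nonneg q.1]) hs
  have e : ‖q - ((0 : ℝ), (0 : ℝ))‖ = max |q.1| |q.2| := by
    rw [Prod.norm_def]; simp
  rw [e]
  exact max_le g1 g2

theorem ray (C : ℝ) (hC : 0 < C) : ∃ r₀ C' : ℝ, 0 < r₀ ∧ r₀ ≤ 1 ∧ 0 < C' ∧
    ∀ (R a β b : ℝ) (u : ℝ × ℝ → ℝ), 0 < R → 0 < a → 0 < β → |u (0, 0)| ≤ a → |b| ≤ β →
    ContDiffOn ℝ 3 u (Disc (0, 0) R) → dx u (0, 0) = 0 → dy u (0, 0) = 0 →
    lap u (0, 0) = 4 * b →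
    (∀ q ∈ Disc (0, 0) R,
      |dx (dx u) q - dy (dy u) q| ≤ C * (|u q| + (a + β * sq2 q)) ∧
      |dy (dx u) q| ≤ C * (|u q| + (a + β * sq2 q)) ∧
      |dx (lap u) q| ≤ C * (|dx u q| + |dy u q| + √(sq2 q) * (β + (a + β * sq2 q))) ∧
      |dy (lap u) q| ≤ C * (|dx u q| + |dy u q| + √(sq2 q) * (β + (a + β * sq2 q)))) →
    ∀ q ∈ Disc (0, 0) R, sq2 q < r₀ ^ 2 →
      |u q - (u (0, 0) + b * sq2 q)| ≤ C' * sq2 q * (a + β * sq2 q) ∧
      |dx u q - 2 * b * q.1| ≤ C' * √(sq2 q) * (a + β * sq2 q) ∧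
      |dy u q - 2 * b * q.2| ≤ C' * √(sq2 q) * (a + β * sq2 q) := by
  obtain ⟨C₁, hC₁⟩ : ∃ C₁ : ℝ, C₁ = 4 + 8 * C := ⟨_, rfl⟩
  obtain ⟨C₃, hC₃⟩ : ∃ C₃ : ℝ, C₃ = 1 + 4 * C₁ := ⟨_, rfl⟩
  obtain ⟨C₂, hC₂⟩ : ∃ C₂ : ℝ, C₂ = 4 * C * (2 * C₁ + 1) := ⟨_, rfl⟩
  obtain ⟨C₄, hC₄⟩ : ∃ C₄ : ℝ, C₄ = C₂ / 2 + 3 / 2 * (C * (C₃ + 1)) := ⟨_, rfl⟩
  have p1 : 0 < C₁ := by rw [hC₁]; positivity
  have p3 : 0 < C₃ := by rw [hC₃]; positivity
  have p2 : 0 < C₂ := by rw [hC₂]; positivity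
  have p4 : 0 < C₄ := by rw [hC₄]; positivity
  refine ⟨1 / (1 + 10 * C), 2 * C₄, by positivity, ?_, by positivity, ?_⟩
  · rw [div_le_one (by positivity)]; linarith
  intro R a β b u hR ha hβ hu0 hb hu hx0 hy0 hlap H q hq hqr
  obtain ⟨s, hs⟩ : ∃ s : ℝ, s = √(sq2 q) := ⟨_, rfl⟩
  have hq0 : 0 ≤ sq2 q := by unfold sq2; positivity
  have hs0 : 0 ≤ s := by rw [hs]; exact Real.sqrt_nonneg _
  have hs2 : s ^ 2 = sq2 q := by rw [hs]; exact Real.sq_sqrt hq0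
  have hsr : s < 1 / (1 + 10 * C) := by
    refine lt_of_pow_lt_pow_left₀ 2 (by positivity) ?_
    rw [hs2]; exact hqr
  have hsR : s < R := by
    refine lt_of_pow_lt_pow_left₀ 2 hR.le ?_
    rw [hs2]
    simpa [Disc, sq2] using hq
  have hs1 : s ≤ 1 := hsr.le.trans (by rw [div_le_one (by positivity)]; linarith)
  have hCs : 5 * C * s ≤ 1 / 2 := by
    rw [lt_div_iff₀ (by positivity)] at hsr
    exact RAY_n1 hs0 hsr
  rw [← hs2]
  have hsqrt : √(s ^ 2) = s := Real.sqrt_sq hs0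
  rw [hsqrt]
  obtain ⟨A, hA⟩ : ∃ A : ℝ, A = a + β * s ^ 2 := ⟨_, rfl⟩
  rw [← hA]
  have hA0 : 0 < A := by rw [hA]; positivity
  have haA : a ≤ A := by rw [hA]; have := mul_nonneg hβ.le (sq_nonneg s); linarith
  have hβA : β * s ^ 2 ≤ A := by rw [hA]; linarith
  -- the disc
  have hK : ∀ z ∈ CDisc (0, 0) s, sq2 z ≤ s ^ 2 := by
    intro z hz
    simpa [CDisc, sq2] using hz
  have hKq : q ∈ CDisc (0, 0) s := by
    have : sq2 q ≤ s ^ 2 := hs2.ge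
    simpa [CDisc, sq2] using this
  have hK0 : ((0 : ℝ), (0 : ℝ)) ∈ CDisc (0, 0) s := by
    simp only [CDisc, Set.mem_ofPred_eq, sub_zero]
    have := sq_nonneg s
    norm_num
    exact this
  have hsub := RAY_sub hs0 hsR
  have hD := RAY_open R
  have hu1 : ContDiffOn ℝ 1 u (Disc (0, 0) R) := hu.of_le (by norm_num)
  have hu2 : ContDiffOn ℝ 2 u (Disc (0, 0) R) := hu.of_le (by norm_num)
  have hux : ContDiffOn ℝ 2 (dx u) (Disc (0, 0) R) := by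
    have := c_dx (n := 2) hD (by exact_mod_cast hu)
    exact_mod_cast this
  have huy : ContDiffOn ℝ 2 (dy u) (Disc (0, 0) R) := by
    have := c_dy (n := 2) hD (by exact_mod_cast hu)
    exact_mod_cast this
  have hux1 : ContDiffOn ℝ 1 (dx u) (Disc (0, 0) R) := hux.of_le (by norm_num)
  have huy1 : ContDiffOn ℝ 1 (dy u) (Disc (0, 0) R) := huy.of_le (by norm_num)
  have hl1 : ContDiffOn ℝ 1 (lap u) (Disc (0, 0) R) := by
    have g1 := c_dx (n := 1) hD (by exact_mod_cast hux)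
    have g2 := c_dy (n := 1) hD (by exact_mod_cast huy)
    have g3 := g1.add g2
    exact_mod_cast g3
  -- the maximum
  have hcont : ContinuousOn (fun z => max |dx u z| |dy u z|) (CDisc (0, 0) s) :=
    (hux.continuousOn.mono hsub).abs.sup (huy.continuousOn.mono hsub).abs
  obtain ⟨z₀, hz₀, hmax⟩ := (RAY_compact s).exists_isMaxOn ⟨_, hK0⟩ hcont
  obtain ⟨m, hm⟩ : ∃ m : ℝ, m = max |dx u z₀| |dy u z₀| := ⟨_, rfl⟩
  have hmx : ∀ z ∈ CDisc (0, 0) s, |dx u z| ≤ m := fun z hz => by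
    rw [hm]; exact (le_max_left _ _).trans (hmax hz)
  have hmy : ∀ z ∈ CDisc (0, 0) s, |dy u z| ≤ m := fun z hz => by
    rw [hm]; exact (le_max_right _ _).trans (hmax hz)
  have hm0 : 0 ≤ m := (abs_nonneg _).trans (hmx _ hK0)
  have hAz : ∀ z ∈ CDisc (0, 0) s, a + β * sq2 z ≤ A := fun z hz => by
    rw [hA]; have := mul_le_mul_of_nonneg_left (hK z hz) hβ.le; linarith
  have hsz : ∀ z ∈ CDisc (0, 0) s, √(sq2 z) ≤ s := fun z hz => by
    rw [← hsqrt]; exact Real.sqrt_le_sqrt (hK z hz)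
  -- `u`
  have hub : ∀ z ∈ CDisc (0, 0) s, |u z| ≤ a + 2 * s * m := by
    intro z hz
    have g := RAY_mv hs0 hsR hu1 hmx hmy z hz
    have g2 := abs_sub_abs_le_abs_sub (u z) (u (0, 0))
    have g3 : (m + m) * s = 2 * s * m := by ring
    linarith
  -- `lap u`
  obtain ⟨E, hE⟩ : ∃ E : ℝ, E = C * (2 * m + s * (β + A)) := ⟨_, rfl⟩
  have hE3 : ∀ z ∈ CDisc (0, 0) s,
      C * (|dx u z| + |dy u z| + √(sq2 z) * (β + (a + β * sq2 z))) ≤ E := by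
    intro z hz
    rw [hE]
    refine mul_le_mul_of_nonneg_left ?_ hC.le
    have g1 := hmx z hz
    have g2 := hmy z hz
    have g3 : √(sq2 z) * (β + (a + β * sq2 z)) ≤ s * (β + A) :=
      mul_le_mul (hsz z hz) (by linarith [hAz z hz])
        (by have : 0 ≤ sq2 z := by unfold sq2; positivity
            positivity) hs0
    linarith
  have hlb : ∀ z ∈ CDisc (0, 0) s, |lap u z - 4 * b| ≤ 2 * E * s := by
    intro z hz
    have g := RAY_mv (B₁ := E) (B₂ := E) hs0 hsR hl1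
      (fun w hw => (H w (hsub hw)).2.2.1.trans (hE3 w hw))
      (fun w hw => (H w (hsub hw)).2.2.2.trans (hE3 w hw)) z hz
    rw [hlap] at g
    calc |lap u z - 4 * b| ≤ (E + E) * s := g
      _ = 2 * E * s := by ring
  -- second derivatives
  have hG : ∀ z ∈ CDisc (0, 0) s, C * (|u z| + (a + β * sq2 z)) ≤ C * (a + 2 * s * m + A) := by
    intro z hz
    refine mul_le_mul_of_nonneg_left ?_ hC.le
    linarith [hub z hz, hAz z hz]
  obtain ⟨G, hGd⟩ : ∃ G : ℝ, G = C * (a + 2 * s * m + A) := ⟨_, rfl⟩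
  rw [← hGd] at hG
  have hxx : ∀ z ∈ CDisc (0, 0) s, |dx (dx u) z - 2 * b| ≤ E * s + G / 2 := by
    intro z hz
    have g1 := hlb z hz
    have g2 := (H z (hsub hz)).1.trans (hG z hz)
    have e : dx (dx u) z - 2 * b = (lap u z - 4 * b) / 2 + (dx (dx u) z - dy (dy u) z) / 2 := by
      rw [lap]; ring
    rw [e]
    refine (abs_add_le _ _).trans ?_
    rw [abs_div, abs_div, abs_two]
    linarith
  have hyy : ∀ z ∈ CDisc (0, 0) s, |dy (dy u) z - 2 * b| ≤ E * s + G / 2 := by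
    intro z hz
    have g1 := hlb z hz
    have g2 := (H z (hsub hz)).1.trans (hG z hz)
    have e : dy (dy u) z - 2 * b = (lap u z - 4 * b) / 2 - (dx (dx u) z - dy (dy u) z) / 2 := by
      rw [lap]; ring
    rw [e]
    refine (abs_sub _ _).trans ?_
    rw [abs_div, abs_div, abs_two]
    linarith
  have hxy : ∀ z ∈ CDisc (0, 0) s, |dy (dx u) z| ≤ G := fun z hz =>
    (H z (hsub hz)).2.1.trans (hG z hz)
  have hyx : ∀ z ∈ CDisc (0, 0) s, |dx (dy u) z| ≤ G := fun z hz => by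
    rw [dx_dy_comm hD hu2 (hsub hz)]
    exact hxy z hz
  have hb2 : |2 * b| ≤ 2 * β := by
    rw [abs_mul, abs_two]; linarith
  have hxx' : ∀ z ∈ CDisc (0, 0) s, |dx (dx u) z| ≤ E * s + G / 2 + 2 * β := fun z hz => by
    have g := hxx z hz
    have g2 := abs_sub_abs_le_abs_sub (dx (dx u) z) (2 * b)
    linarith
  have hyy' : ∀ z ∈ CDisc (0, 0) s, |dy (dy u) z| ≤ E * s + G / 2 + 2 * β := fun z hz => by
    have g := hyy z hz
    have g2 := abs_sub_abs_le_abs_sub (dy (dy u) z) (2 * b)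
    linarith
  -- the bound for `m`
  have hm1 : m ≤ (E * s + 3 / 2 * G + 2 * β) * s := by
    have g1 := RAY_mv hs0 hsR hux1 hxx' hxy z₀ hz₀
    have g2 := RAY_mv hs0 hsR huy1 hyx hyy' z₀ hz₀
    rw [hx0, sub_zero] at g1
    rw [hy0, sub_zero] at g2
    rw [hm]
    refine max_le ?_ ?_
    · linarith
    · linarith
  have hs2' : s ^ 2 ≤ 1 := (RAY_n2 hs0 hs1).1
  have hm2 : m ≤ C₁ * s * (β + A) := by
    rw [hE, hGd] at hm1
    rw [hC₁]
    exact RAY_n3 hC hs0 hs1 hm0 hβ hA0 haA hCs hm1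
  -- improved bounds
  have hsA : s ^ 2 * (β + A) ≤ 2 * A := RAY_n4 hs2' hβA hA0
  have hEs : E * s ≤ C₂ / 2 * A := by
    rw [hE]
    exact RAY_n5 hC hs0 p1 hC₂ hm2 hsA
  have hGA : G ≤ C * (C₃ + 1) * A := by
    rw [hGd]
    exact RAY_n6 hC hs0 p1 haA hC₃ hm2 hsA
  have hS : E * s + G / 2 + G ≤ C₄ * A := RAY_n7 hC₄ hEs hGA
  -- first derivatives of `u - b |q|²`
  have hfx : ContDiffOn ℝ 1 (fun z : ℝ × ℝ => dx u z - 2 * b * z.1) (Disc (0, 0) R) :=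
    hux1.sub (by fun_prop)
  have hfy : ContDiffOn ℝ 1 (fun z : ℝ × ℝ => dy u z - 2 * b * z.2) (Disc (0, 0) R) :=
    huy1.sub (by fun_prop)
  have ddx : ∀ z ∈ CDisc (0, 0) s, DifferentiableAt ℝ (dx u) z := fun z hz =>
    (hux1.contDiffAt (hD.mem_nhds (hsub hz))).differentiableAt (by simp)
  have ddy : ∀ z ∈ CDisc (0, 0) s, DifferentiableAt ℝ (dy u) z := fun z hz =>
    (huy1.contDiffAt (hD.mem_nhds (hsub hz))).differentiableAt (by simp)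
  have du : ∀ z ∈ CDisc (0, 0) s, DifferentiableAt ℝ u z := fun z hz =>
    (hu1.contDiffAt (hD.mem_nhds (hsub hz))).differentiableAt (by simp)
  have l1 : ∀ z : ℝ × ℝ, dx (fun z : ℝ × ℝ => 2 * b * z.1) z = 2 * b := fun z => by
    rw [dx_fst (fun t => 2 * b * t) (by fun_prop)]
    simp
  have l2 : ∀ z : ℝ × ℝ, dy (fun z : ℝ × ℝ => 2 * b * z.1) z = 0 := fun z =>
    dy_fst (fun t => 2 * b * t) (by fun_prop)
  have l3 : ∀ z : ℝ × ℝ, dy (fun z : ℝ × ℝ => 2 * b * z.2) z = 2 * b := fun z => by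
    rw [dy_snd (fun t => 2 * b * t) (by fun_prop)]
    simp
  have l4 : ∀ z : ℝ × ℝ, dx (fun z : ℝ × ℝ => 2 * b * z.2) z = 0 := fun z =>
    dx_snd (fun t => 2 * b * t) (by fun_prop)
  have hFx : ∀ z ∈ CDisc (0, 0) s, |dx u z - 2 * b * z.1| ≤ C₄ * A * s := by
    intro z hz
    have g := RAY_mv (f := fun z : ℝ × ℝ => dx u z - 2 * b * z.1) (B₁ := E * s + G / 2) (B₂ := G)
      hs0 hsR hfx
      (fun w hw => by
        rw [dx_sub (ddx w hw) (by fun_prop), l1]; exact hxx w hw)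
      (fun w hw => by
        rw [dy_sub (ddx w hw) (by fun_prop), l2, sub_zero]; exact hxy w hw) z hz
    simp only [hx0, mul_zero, sub_zero] at g
    exact g.trans (mul_le_mul_of_nonneg_right hS hs0)
  have hFy : ∀ z ∈ CDisc (0, 0) s, |dy u z - 2 * b * z.2| ≤ C₄ * A * s := by
    intro z hz
    have g := RAY_mv (f := fun z : ℝ × ℝ => dy u z - 2 * b * z.2) (B₁ := G) (B₂ := E * s + G / 2)
      hs0 hsR hfy
      (fun w hw => by
        rw [dx_sub (ddy w hw) (by fun_prop), l4, sub_zero]; exact hyx w hw)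
      (fun w hw => by
        rw [dy_sub (ddy w hw) (by fun_prop), l3]; exact hyy w hw) z hz
    simp only [hy0, mul_zero, sub_zero] at g
    exact g.trans (mul_le_mul_of_nonneg_right (by linarith) hs0)
  -- `u`
  have hq2 : ∀ z : ℝ × ℝ, dx (fun z : ℝ × ℝ => b * z.1 ^ 2 + b * z.2 ^ 2) z = 2 * b * z.1 := by
    intro z
    rw [dx_add (by fun_prop) (by fun_prop), dx_fst (fun t => b * t ^ 2) (by fun_prop),
      dx_snd (fun t => b * t ^ 2) (by fun_prop)]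
    simp
    ring
  have hq3 : ∀ z : ℝ × ℝ, dy (fun z : ℝ × ℝ => b * z.1 ^ 2 + b * z.2 ^ 2) z = 2 * b * z.2 := by
    intro z
    rw [dy_add (by fun_prop) (by fun_prop), dy_fst (fun t => b * t ^ 2) (by fun_prop),
      dy_snd (fun t => b * t ^ 2) (by fun_prop)]
    simp
    ring
  have hfu : ContDiffOn ℝ 1 (fun z : ℝ × ℝ => u z - (b * z.1 ^ 2 + b * z.2 ^ 2))
      (Disc (0, 0) R) := hu1.sub (by fun_prop)
  have hU := RAY_mv (f := fun z : ℝ × ℝ => u z - (b * z.1 ^ 2 + b * z.2 ^ 2))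
      (B₁ := C₄ * A * s) (B₂ := C₄ * A * s) hs0 hsR hfu
      (fun w hw => by
        rw [dx_sub (du w hw) (by fun_prop), hq2]; exact hFx w hw)
      (fun w hw => by
        rw [dy_sub (du w hw) (by fun_prop), hq3]; exact hFy w hw) q hKq
  have e1 : b * q.1 ^ 2 + b * q.2 ^ 2 = b * s ^ 2 := by rw [hs2, sq2]; ring
  simp only [e1] at hU
  refine ⟨?_, ?_, ?_⟩
  · have e2 : u q - (u (0, 0) + b * s ^ 2) = u q - b * s ^ 2 -
        (u (0, 0) - (b * (0 : ℝ) ^ 2 + b * (0 : ℝ) ^ 2)) := by ring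
    rw [e2]
    refine hU.trans (le_of_eq ?_)
    ring
  · refine (hFx q hKq).trans ?_
    have h0 : 0 ≤ C₄ * A * s := by positivity
    have h1 : 2 * C₄ * s * A = C₄ * A * s + C₄ * A * s := by ring
    linarith
  · refine (hFy q hKq).trans ?_
    have h0 : 0 ≤ C₄ * A * s := by positivity
    have h1 : 2 * C₄ * s * A = C₄ * A * s + C₄ * A * s := by ring
    linarith

end Pool.Agent.MFE
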