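import Pool.Agent.MFE.BLWB
import Pool.Agent.MFE.BLWC
import Pool.Agent.MFE.BLWD

/-!
# MFE.BLWE: blow-up regime: precise expansion around the origin

`p = v(0)`, `aV v = e^{-p/2}`, `bV μ v = μ e^{p/2}/8`, `AV μ v q = aV v + bV μ v |q|²`.
`ann_bound` (interior estimates): let `q₀` be a point of the boundary of `Sq 0 (1/5)`; on
`Sq q₀ (1/10) ⊆ Ell α` one has `|x| ≥ 1/10` or `|y| ≥ 1/10`, so `0 ≤ v ≤ B` (`off_bound`), `μ ≤ 60`
(`mu_le60`), `|lap v| ≤ 60 e^B`; `ige` on `Sq q (1/20)` for `q ∈ Sq q₀ (1/20)` bounds `∇v` there, hence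
`∇ (lap v) = -E ∇v`, and `ige2` with half side `1/20` bounds the second derivatives at `q₀`.
`t_bound`: `T1 v`, `T2 v` are harmonic in `Ell α` (`t_harm`) and bounded on the boundary of the
square: `wmp_bdd` (for `±T`).
`w_expand`: `ray` with `u = wv v`, `R = 1/5`, `a = aV v`, `β = b = bV μ v` (`w_eqs`; at the origin
`∇v = 0` by evenness, so `lap w (0) = w μ e^p/2 = μ e^{p/2}/2 = 4 bV`), constants from `t_bound`.
With `C' r₁² ≤ 1/2` one gets `A/2 ≤ w ≤ 3A/2 ≤ 2A`.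
`beta_bounds`: `bV ≥ 1/32` by `mu_lower`; at `|q| = r₁/2` (inside): `1 ≥ w ≥ A/2 ≥ bV r₁²/8`.
`mu_upper`: `μ = 8 bV e^{-p/2}`.
`e_expand`: `μ e^v = μ/w²`, `|1/w² - 1/A²| = |A - w| (A + w)/(w² A²) ≤ C |q|²/A²`.
`xv_expand`: `x·∇v = -2 x·∇w/w`, `x·∇w = 2 bV |q|² + O(|q|² A)`:
`|x·∇v + 4 bV |q|²/A| ≤ C |q|²`.
-/

open scoped ContDiff

namespace Pool.Agent.MFE

noncomputable def aV (v : ℝ × ℝ → ℝ) : ℝ := Real.exp (-(v (0, 0)) / 2)

noncomputable def bV (μ : ℝ) (v : ℝ × ℝ → ℝ) : ℝ := μ * Real.exp (v (0, 0) / 2) / 8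

noncomputable def AV (μ : ℝ) (v : ℝ × ℝ → ℝ) (q : ℝ × ℝ) : ℝ := aV v + bV μ v * sq2 q

private theorem BLWE_sm1 {D : Set (ℝ × ℝ)} {f : ℝ × ℝ → ℝ} (h : ContDiffOn ℝ ∞ f D) :
    ContDiffOn ℝ 1 f D := by exact_mod_cast contDiffOn_infty.1 h 1

private theorem BLWE_sm2 {D : Set (ℝ × ℝ)} {f : ℝ × ℝ → ℝ} (h : ContDiffOn ℝ ∞ f D) :
    ContDiffOn ℝ 2 f D := by exact_mod_cast contDiffOn_infty.1 h 2

private theorem BLWE_sm3 {D : Set (ℝ × ℝ)} {f : ℝ × ℝ → ℝ} (h : ContDiffOn ℝ ∞ f D) :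
    ContDiffOn ℝ 3 f D := by exact_mod_cast contDiffOn_infty.1 h 3

private theorem BLWE_ell {α : ℝ} (hα : 0 < α) (hα1 : α ≤ 1) {q : ℝ × ℝ} (h1 : |q.1| ≤ 3 / 10)
    (h2 : |q.2| ≤ 3 / 10) : q ∈ Ell α := by
  show α ^ 2 * q.1 ^ 2 + q.2 ^ 2 < 1
  have a1 : q.1 ^ 2 ≤ 9 / 100 := by
    rw [← sq_abs]; nlinarith [abs_nonneg q.1]
  have a2 : q.2 ^ 2 ≤ 9 / 100 := by
    rw [← sq_abs]; nlinarith [abs_nonneg q.2]
  have a3 : α ^ 2 ≤ 1 := by nlinarith
  nlinarith [sq_nonneg q.1]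

private theorem BLWE_lap_const (K : ℝ) (q : ℝ × ℝ) : lap (fun _ => K) q = 0 := by
  have h2 : dx (fun _ : ℝ × ℝ => K) = fun _ => 0 := by
    funext z; show fderiv ℝ (fun _ : ℝ × ℝ => K) z (1, 0) = 0; simp
  have h3 : dy (fun _ : ℝ × ℝ => K) = fun _ => 0 := by
    funext z; show fderiv ℝ (fun _ : ℝ × ℝ => K) z (0, 1) = 0; simp
  have h4 : dx (fun _ : ℝ × ℝ => (0 : ℝ)) = fun _ => 0 := by
    funext z; show fderiv ℝ (fun _ : ℝ × ℝ => (0 : ℝ)) z (1, 0) = 0; simp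
  have h5 : dy (fun _ : ℝ × ℝ => (0 : ℝ)) = fun _ => 0 := by
    funext z; show fderiv ℝ (fun _ : ℝ × ℝ => (0 : ℝ)) z (0, 1) = 0; simp
  unfold lap
  rw [h2, h3, h4, h5]
  simp

private theorem BLWE_abs_le {a b c : ℝ} (h : |a - b| ≤ c) : |a| ≤ |b| + c := by
  have h1 := abs_add_le (a - b) b
  rw [sub_add_cancel] at h1
  linarith

private theorem BLWE_le_abs {a b c : ℝ} (h : |a - b| ≤ c) : |b| - c ≤ |a| := by
  have h1 := abs_add_le (b - a) a
  rw [sub_add_cancel, abs_sub_comm] at h1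
  linarith

private theorem BLWE_harm {U : Set (ℝ × ℝ)} (hU : IsOpen U) (hSU : Sq (0, 0) (1 / 5) ⊆ U)
    {T : ℝ × ℝ → ℝ} (hT : ContDiffOn ℝ 2 T U) (hl : ∀ q ∈ U, lap T q = 0) {K : ℝ}
    (hb : ∀ q ∈ Sq (0, 0) (1 / 5), (|q.1| = 1 / 5 ∨ |q.2| = 1 / 5) → |T q| ≤ K) :
    ∀ q ∈ Sq (0, 0) (1 / 5), |T q| ≤ K := by
  set D : Set (ℝ × ℝ) := {q | |q.1| < 1 / 5 ∧ |q.2| < 1 / 5} with hD
  have hDo : IsOpen D :=
    (isOpen_lt continuous_fst.abs continuous_const).inter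
      (isOpen_lt continuous_snd.abs continuous_const)
  have hSq : Sq (0, 0) (1 / 5) = {q : ℝ × ℝ | |q.1| ≤ 1 / 5 ∧ |q.2| ≤ 1 / 5} := by
    ext q
    show |q.1 - 0| ≤ 1 / 5 ∧ |q.2 - 0| ≤ 1 / 5 ↔ _
    rw [sub_zero, sub_zero]
    exact Iff.rfl
  have hSc : IsClosed (Sq (0, 0) (1 / 5)) := by
    rw [hSq]
    exact (isClosed_le continuous_fst.abs continuous_const).inter
      (isClosed_le continuous_snd.abs continuous_const)
  have hDS : D ⊆ Sq (0, 0) (1 / 5) := by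
    rw [hSq]
    intro q hq
    exact ⟨hq.1.le, hq.2.le⟩
  have hcl : closure D ⊆ Sq (0, 0) (1 / 5) := closure_minimal hDS hSc
  have hDb : Bornology.IsBounded D := by
    apply (Metric.isBounded_closedBall (x := ((0 : ℝ), (0 : ℝ))) (r := 1 / 5)).subset
    intro q hq
    rw [Metric.mem_closedBall, Prod.dist_eq, max_le_iff, Real.dist_eq, Real.dist_eq]
    show |q.1 - 0| ≤ 1 / 5 ∧ |q.2 - 0| ≤ 1 / 5
    rw [sub_zero, sub_zero]
    exact ⟨hq.1.le, hq.2.le⟩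
  have hDU : D ⊆ U := hDS.trans hSU
  have hTD : ContDiffOn ℝ 2 T D := hT.mono hDU
  have hTc : ContinuousOn T (closure D) := hT.continuousOn.mono (hcl.trans hSU)
  have hfr : ∀ q ∈ frontier D, |T q| ≤ K := by
    intro q hq
    rw [hDo.frontier_eq] at hq
    have h1 := hcl hq.1
    apply hb q h1
    rw [hSq] at h1
    by_contra hcon
    rw [not_or] at hcon
    exact hq.2 ⟨lt_of_le_of_ne h1.1 hcon.1, lt_of_le_of_ne h1.2 hcon.2⟩
  have hT' : ContDiffOn ℝ 2 (fun q => -1 * T q) D := contDiffOn_const.mul hTD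
  have m1 := wmp_bdd hDo hDb hTD (b := fun _ => K) contDiffOn_const hTc continuousOn_const
    (fun q hq => by rw [hl q (hDU hq), BLWE_lap_const]) (fun q hq => (abs_le.1 (hfr q hq)).2)
  have m2 := wmp_bdd hDo hDb hT' (b := fun _ => K) contDiffOn_const
    (continuousOn_const.mul hTc) continuousOn_const
    (fun q hq => by
      rw [lap_const_mul hDo (-1) hTD hq, hl q (hDU hq), BLWE_lap_const]; simp)
    (fun q hq => by
      have := (abs_le.1 (hfr q hq)).1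
      show -1 * T q ≤ K
      linarith)
  intro q hq
  by_cases hqD : q ∈ D
  · have h1 := m1 q (subset_closure hqD)
    have h2 : -1 * T q ≤ K := m2 q (subset_closure hqD)
    have h3 : T q ≤ K := h1
    rw [abs_le]
    constructor <;> linarith
  · apply hb q hq
    rw [hSq] at hq
    by_contra hcon
    rw [not_or] at hcon
    exact hqD ⟨lt_of_le_of_ne hq.1 hcon.1, lt_of_le_of_ne hq.2 hcon.2⟩

private theorem BLWE_sqrt_fst (q : ℝ × ℝ) : |q.1| ≤ √(sq2 q) := by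
  rw [← Real.sqrt_sq_eq_abs]
  apply Real.sqrt_le_sqrt
  show q.1 ^ 2 ≤ q.1 ^ 2 + q.2 ^ 2
  nlinarith [sq_nonneg q.2]

private theorem BLWE_sqrt_snd (q : ℝ × ℝ) : |q.2| ≤ √(sq2 q) := by
  rw [← Real.sqrt_sq_eq_abs]
  apply Real.sqrt_le_sqrt
  show q.2 ^ 2 ≤ q.1 ^ 2 + q.2 ^ 2
  nlinarith [sq_nonneg q.1]

private theorem BLWE_sq2_nonneg (q : ℝ × ℝ) : 0 ≤ sq2 q :=
  add_nonneg (sq_nonneg _) (sq_nonneg _)

theorem mu_eq_ab (μ : ℝ) (v : ℝ × ℝ → ℝ) : μ = 8 * aV v * bV μ v := by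
  unfold aV bV
  have h : Real.exp (-(v (0, 0)) / 2) * Real.exp (v (0, 0) / 2) = 1 := by
    rw [← Real.exp_add]
    have : -(v (0, 0)) / 2 + v (0, 0) / 2 = 0 := by ring
    rw [this, Real.exp_zero]
  linear_combination (-μ) * h

theorem ann_bound : ∃ C : ℝ, 0 < C ∧ ∀ (α μ : ℝ) (v : ℝ × ℝ → ℝ), 0 < α → α ≤ 1 →
    GSol α μ v → pst < v (0, 0) → ∀ q ∈ Sq (0, 0) (1 / 5), (|q.1| = 1 / 5 ∨ |q.2| = 1 / 5) →
      (∀ z ∈ Sq q (1 / 20), |dx v z| ≤ C ∧ |dy v z| ≤ C ∧ |v z| ≤ C ∧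
        |μ * Real.exp (v z)| ≤ C) ∧
      |dx (dx v) q| ≤ C ∧ |dy (dx v) q| ≤ C ∧ |dy (dy v) q| ≤ C := by
  set B : ℝ := 2000 / (1 / 10) ^ 2 with hB
  set N : ℝ := 60 * Real.exp B with hN
  set G : ℝ := 2 / (1 / 20) * B + (1 / 20) / 2 * N with hG
  have hBp : 0 < B := by rw [hB]; norm_num
  have hNp : 0 < N := by rw [hN]; positivity
  have hGp : 0 < G := by rw [hG]; positivity
  set C2 : ℝ := 16 / (1 / 20) ^ 2 * B + N + (1 / 20) * (N * G) with hC2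
  have hC2p : 0 < C2 := by rw [hC2]; positivity
  refine ⟨B + N + G + C2, by positivity, ?_⟩
  intro α μ v hα hα1 h hp q hq hqb
  have hbig : ∀ z ∈ Sq q (1 / 10), z ∈ Ell α ∧ |v z| ≤ B ∧ |μ * Real.exp (v z)| ≤ N := by
    intro z hz
    obtain ⟨hz1, hz2⟩ := hz
    obtain ⟨hq1, hq2⟩ := hq
    have hq1' : |q.1| ≤ 1 / 5 := by
      have : |q.1 - 0| ≤ 1 / 5 := hq1
      rwa [sub_zero] at this
    have hq2' : |q.2| ≤ 1 / 5 := by
      have : |q.2 - 0| ≤ 1 / 5 := hq2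
      rwa [sub_zero] at this
    have hell : z ∈ Ell α := BLWE_ell hα hα1 (by linarith [BLWE_abs_le hz1])
      (by linarith [BLWE_abs_le hz2])
    have hcase : 1 / 10 ≤ |z.1| ∨ 1 / 10 ≤ |z.2| := by
      rcases hqb with h | h
      · left; linarith [BLWE_le_abs hz1]
      · right; linarith [BLWE_le_abs hz2]
    have hv := off_bound hα hα1 h hp (ρ := 1 / 10) (by norm_num) (by norm_num) hcase
    have hv0 := h.nonneg hα z
    refine ⟨hell, ?_, ?_⟩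
    · rw [abs_of_nonneg hv0]; exact hv
    · rw [abs_of_nonneg (mul_nonneg h.mu_pos.le (Real.exp_pos _).le), hN]
      exact mul_le_mul (mu_le60 hα hα1 h hp) (Real.exp_le_exp.2 hv) (Real.exp_pos _).le
        (by norm_num)
  have hlapv : ∀ z ∈ Sq q (1 / 10), |lap v z| ≤ N := by
    intro z hz
    obtain ⟨a1, a2, a3⟩ := hbig z hz
    have := h.eq z a1
    rw [← this, abs_neg] at a3
    exact a3
  have hsubz : ∀ z ∈ Sq q (1 / 20), Sq z (1 / 20) ⊆ Sq q (1 / 10) := by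
    intro z hz w hw
    obtain ⟨hz1, hz2⟩ := hz
    obtain ⟨hw1, hw2⟩ := hw
    constructor
    · have := abs_add_le (w.1 - z.1) (z.1 - q.1)
      rw [sub_add_sub_cancel] at this
      linarith
    · have := abs_add_le (w.2 - z.2) (z.2 - q.2)
      rw [sub_add_sub_cancel] at this
      linarith
  have hgrad : ∀ z ∈ Sq q (1 / 20), |dx v z| ≤ G ∧ |dy v z| ≤ G := by
    intro z hz
    exact ige (isOpen_ell α) (BLWE_sm2 h.smooth) (q₀ := z) (d := 1 / 20) (by norm_num)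
      (fun w hw => (hbig w (hsubz z hz hw)).1) (fun w hw => (hbig w (hsubz z hz hw)).2.1)
      (fun w hw => hlapv w (hsubz z hz hw))
  have hqq : q ∈ Sq q (1 / 20) := by
    constructor
    · rw [sub_self, abs_zero]; norm_num
    · rw [sub_self, abs_zero]; norm_num
  have h1020 : Sq q (1 / 20) ⊆ Sq q (1 / 10) := by
    intro w hw
    exact ⟨by linarith [hw.1], by linarith [hw.2]⟩
  have hglap : ∀ z ∈ Sq q (1 / 20), |dx (lap v) z| ≤ N * G ∧ |dy (lap v) z| ≤ N * G := by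
    intro z hz
    obtain ⟨a1, a2, a3⟩ := hbig z (h1020 hz)
    obtain ⟨g1, g2⟩ := hgrad z hz
    have hdv : DifferentiableAt ℝ v z :=
      ((BLWE_sm1 h.smooth).contDiffAt ((isOpen_ell α).mem_nhds a1)).differentiableAt one_ne_zero
    have hde : DifferentiableAt ℝ (fun w => Real.exp (v w)) z := hdv.exp
    have hcg : ∀ w ∈ Ell α, lap v w = (-μ) * Real.exp (v w) := by
      intro w hw
      have := h.eq w hw
      linarith
    have e1 : dx (lap v) z = (-μ) * (Real.exp (v z) * dx v z) := by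
      rw [dx_congr (isOpen_ell α) hcg a1, dx_const_mul _ hde,
        dx_comp (F := Real.exp) hdv Real.differentiableAt_exp, Real.deriv_exp]
    have e2 : dy (lap v) z = (-μ) * (Real.exp (v z) * dy v z) := by
      rw [dy_congr (isOpen_ell α) hcg a1, dy_const_mul _ hde,
        dy_comp (F := Real.exp) hdv Real.differentiableAt_exp, Real.deriv_exp]
    have e3 : dx (lap v) z = -(μ * Real.exp (v z) * dx v z) := by rw [e1]; ring
    have e4 : dy (lap v) z = -(μ * Real.exp (v z) * dy v z) := by rw [e2]; ring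
    rw [e3, e4, abs_neg, abs_neg, abs_mul, abs_mul (μ * Real.exp (v z)) (dy v z)]
    exact ⟨mul_le_mul a3 g1 (abs_nonneg _) hNp.le, mul_le_mul a3 g2 (abs_nonneg _) hNp.le⟩
  obtain ⟨s1, s2, s3⟩ := ige2 (isOpen_ell α) (BLWE_sm3 h.smooth) (q₀ := q) (d := 1 / 20)
    (by norm_num) (fun w hw => (hbig w (h1020 hw)).1) (fun w hw => (hbig w (h1020 hw)).2.1)
    (fun w hw => hlapv w (h1020 hw)) hglap
  refine ⟨?_, ?_, ?_, ?_⟩
  · intro z hz
    obtain ⟨g1, g2⟩ := hgrad z hz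
    obtain ⟨a1, a2, a3⟩ := hbig z (h1020 hz)
    exact ⟨by linarith, by linarith, by linarith, by linarith⟩
  · linarith
  · linarith
  · linarith

theorem t_bound : ∃ C : ℝ, 0 < C ∧ ∀ (α μ : ℝ) (v : ℝ × ℝ → ℝ), 0 < α → α ≤ 1 →
    GSol α μ v → pst < v (0, 0) → ∀ q ∈ Sq (0, 0) (1 / 5), |T1 v q| ≤ C ∧ |T2 v q| ≤ C := by
  obtain ⟨C, hC, hb⟩ := ann_bound
  refine ⟨C + C ^ 2, by positivity, ?_⟩
  intro α μ v hα hα1 h hp
  have hSU : Sq (0, 0) (1 / 5) ⊆ Ell α := by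
    intro q hq
    obtain ⟨h1, h2⟩ := hq
    have h1' : |q.1 - 0| ≤ 1 / 5 := h1
    have h2' : |q.2 - 0| ≤ 1 / 5 := h2
    rw [sub_zero] at h1' h2'
    exact BLWE_ell hα hα1 (by linarith) (by linarith)
  have hU := isOpen_ell α
  have hx := smooth_dx hU h.smooth
  have hy := smooth_dy hU h.smooth
  have hxx := smooth_dx hU hx
  have hyx := smooth_dy hU hx
  have hyy := smooth_dy hU hy
  have hT1 : ContDiffOn ℝ ∞ (T1 v) (Ell α) :=
    ((hxx.sub hyy).div_const 4).sub (((hx.pow 2).sub (hy.pow 2)).div_const 8)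
  have hT2 : ContDiffOn ℝ ∞ (T2 v) (Ell α) :=
    (hyx.neg.div_const 2).add ((hx.mul hy).div_const 4)
  have hq5 : ∀ q : ℝ × ℝ, q ∈ Sq q (1 / 20) := by
    intro q
    constructor
    · rw [sub_self, abs_zero]; norm_num
    · rw [sub_self, abs_zero]; norm_num
  have hbd : ∀ q ∈ Sq (0, 0) (1 / 5), (|q.1| = 1 / 5 ∨ |q.2| = 1 / 5) →
      |T1 v q| ≤ C + C ^ 2 ∧ |T2 v q| ≤ C + C ^ 2 := by
    intro q hq hqb
    obtain ⟨k1, k2, k3, k4⟩ := hb α μ v hα hα1 h hp q hq hqb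
    obtain ⟨g1, g2, -, -⟩ := k1 q (hq5 q)
    rw [abs_le] at g1 g2 k2 k3 k4
    have p1 : dx v q ^ 2 ≤ C ^ 2 := sq_le_sq' g1.1 g1.2
    have p2 : dy v q ^ 2 ≤ C ^ 2 := sq_le_sq' g2.1 g2.2
    have p3 := sq_nonneg (dx v q)
    have p4 := sq_nonneg (dy v q)
    have p5 : |dx v q * dy v q| ≤ C ^ 2 := by
      rw [abs_le]
      constructor
      · nlinarith [sq_nonneg (dx v q + dy v q)]
      · nlinarith [sq_nonneg (dx v q - dy v q)]
    rw [abs_le] at p5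
    constructor
    · unfold T1
      rw [abs_le]
      constructor <;> linarith
    · unfold T2
      rw [abs_le]
      constructor <;> linarith
  have m1 := BLWE_harm hU hSU (BLWE_sm2 hT1) (fun q hq => (t_harm hU h.smooth h.eq hq).1)
    (fun q hq hqb => (hbd q hq hqb).1)
  have m2 := BLWE_harm hU hSU (BLWE_sm2 hT2) (fun q hq => (t_harm hU h.smooth h.eq hq).2)
    (fun q hq hqb => (hbd q hq hqb).2)
  exact fun q hq => ⟨m1 q hq, m2 q hq⟩

theorem w_expand : ∃ r₁ C : ℝ, 0 < r₁ ∧ r₁ ≤ 1 / 5 ∧ 0 < C ∧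
    ∀ (α μ : ℝ) (v : ℝ × ℝ → ℝ), 0 < α → α ≤ 1 → GSol α μ v → pst < v (0, 0) →
    ∀ q : ℝ × ℝ, sq2 q ≤ r₁ ^ 2 →
      |wv v q - AV μ v q| ≤ C * sq2 q * AV μ v q ∧ AV μ v q / 2 ≤ wv v q ∧
      wv v q ≤ 2 * AV μ v q ∧
      |dx (wv v) q - 2 * bV μ v * q.1| ≤ C * √(sq2 q) * AV μ v q ∧
      |dy (wv v) q - 2 * bV μ v * q.2| ≤ C * √(sq2 q) * AV μ v q := by
  obtain ⟨K, hK, hT⟩ := t_bound
  obtain ⟨r₀, C', hr₀, hr₀1, hC', hray⟩ := ray (2 * K) (by positivity)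
  set r₁ : ℝ := min (r₀ / 2) (min (1 / 10) (1 / (2 * C' + 2))) with hr₁
  have hr₁p : 0 < r₁ := lt_min (by positivity) (lt_min (by norm_num) (by positivity))
  have hr₁a : r₁ ≤ r₀ / 2 := min_le_left _ _
  have hr₁b : r₁ ≤ 1 / 10 := le_trans (min_le_right _ _) (min_le_left _ _)
  have hr₁c : r₁ ≤ 1 / (2 * C' + 2) := le_trans (min_le_right _ _) (min_le_right _ _)
  have hCr : C' * r₁ ^ 2 ≤ 1 / 2 := by
    rw [le_div_iff₀ (by positivity)] at hr₁c
    have h1 : r₁ ^ 2 ≤ r₁ := by nlinarith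
    nlinarith
  refine ⟨r₁, C', hr₁p, by linarith, hC', ?_⟩
  intro α μ v hα hα1 h hp q hq
  have hU := isOpen_ell α
  have hμ := h.mu_pos
  have ha : 0 < aV v := Real.exp_pos _
  have hbv : 0 < bV μ v := by
    unfold bV
    have := Real.exp_pos (v (0, 0) / 2)
    positivity
  have hDE : Disc (0, 0) (1 / 5) ⊆ Sq (0, 0) (1 / 5) := by
    intro z hz
    have hz' : (z.1 - 0) ^ 2 + (z.2 - 0) ^ 2 < (1 / 5) ^ 2 := hz
    constructor
    · apply abs_le_of_sq_le_sq _ (by norm_num)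
      show (z.1 - 0) ^ 2 ≤ (1 / 5) ^ 2
      nlinarith [sq_nonneg (z.2 - 0)]
    · apply abs_le_of_sq_le_sq _ (by norm_num)
      show (z.2 - 0) ^ 2 ≤ (1 / 5) ^ 2
      nlinarith [sq_nonneg (z.1 - 0)]
  have hSE : Sq (0, 0) (1 / 5) ⊆ Ell α := by
    intro q hq
    obtain ⟨h1, h2⟩ := hq
    have h1' : |q.1 - 0| ≤ 1 / 5 := h1
    have h2' : |q.2 - 0| ≤ 1 / 5 := h2
    rw [sub_zero] at h1' h2'
    exact BLWE_ell hα hα1 (by linarith) (by linarith)
  have h0E : ((0 : ℝ), (0 : ℝ)) ∈ Ell α := BLWE_ell hα hα1 (by show |(0 : ℝ)| ≤ 3 / 10; norm_num) (by show |(0 : ℝ)| ≤ 3 / 10; norm_num)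
  have hws : ContDiffOn ℝ ∞ (wv v) (Ell α) := (h.smooth.neg.div_const 2).exp
  obtain ⟨w1, w2, -, -, w5, -, -⟩ := w_eqs hU h.smooth h.eq h0E
  have hdx0 : dx v (0, 0) = 0 := by
    have := dx_of_evx (h.evx hα) 0 0
    rw [neg_zero] at this
    linarith
  have hdy0 : dy v (0, 0) = 0 := by
    have := dy_of_evy (h.evy hα) 0 0
    rw [neg_zero] at this
    linarith
  have hlap0 : lap (wv v) (0, 0) = 4 * bV μ v := by
    rw [w5]
    unfold gdot
    rw [hdx0, hdy0]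
    unfold wv bV
    have h1 : Real.exp (-(v (0, 0)) / 2) * Real.exp (v (0, 0)) = Real.exp (v (0, 0) / 2) := by
      rw [← Real.exp_add]
      congr 1
      ring
    linear_combination (μ / 2) * h1
  have hmain := hray (1 / 5) (aV v) (bV μ v) (bV μ v) (wv v) (by norm_num) ha hbv
    (by
      show |Real.exp (-(v (0, 0)) / 2)| ≤ Real.exp (-(v (0, 0)) / 2)
      rw [abs_of_pos (Real.exp_pos _)])
    (by rw [abs_of_pos hbv])
    ((BLWE_sm3 hws).mono (hDE.trans hSE))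
    (by rw [w1, hdx0]; ring) (by rw [w2, hdy0]; ring) hlap0
    (by
      intro z hz
      have hzS := hDE hz
      obtain ⟨t1, t2⟩ := hT α μ v hα hα1 h hp z hzS
      obtain ⟨-, -, v3, v4, -, v6, v7⟩ := w_eqs hU h.smooth h.eq (hSE hzS)
      have hs := BLWE_sq2_nonneg z
      have hA : 0 ≤ aV v + bV μ v * sq2 z := by positivity
      have hwz := abs_nonneg (wv v z)
      have hxz := abs_nonneg (dx (wv v) z)
      have hyz := abs_nonneg (dy (wv v) z)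
      have hsA : 0 ≤ √(sq2 z) * (bV μ v + (aV v + bV μ v * sq2 z)) := by positivity
      have u1 : |T1 v z * dx (wv v) z| ≤ K * |dx (wv v) z| := by
        rw [abs_mul]; exact mul_le_mul_of_nonneg_right t1 hxz
      have u2 : |T2 v z * dy (wv v) z| ≤ K * |dy (wv v) z| := by
        rw [abs_mul]; exact mul_le_mul_of_nonneg_right t2 hyz
      have u3 : |T2 v z * dx (wv v) z| ≤ K * |dx (wv v) z| := by
        rw [abs_mul]; exact mul_le_mul_of_nonneg_right t2 hxz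
      have u4 : |T1 v z * dy (wv v) z| ≤ K * |dy (wv v) z| := by
        rw [abs_mul]; exact mul_le_mul_of_nonneg_right t1 hyz
      have u5 : |T1 v z * wv v z| ≤ K * |wv v z| := by
        rw [abs_mul]; exact mul_le_mul_of_nonneg_right t1 hwz
      have u6 : |T2 v z * wv v z| ≤ K * |wv v z| := by
        rw [abs_mul]; exact mul_le_mul_of_nonneg_right t2 hwz
      have kA : 0 ≤ K * (aV v + bV μ v * sq2 z) := by positivity
      have kw : 0 ≤ K * |wv v z| := by positivity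
      have ks : 0 ≤ K * (√(sq2 z) * (bV μ v + (aV v + bV μ v * sq2 z))) := by positivity
      refine ⟨?_, ?_, ?_, ?_⟩
      · rw [v3]
        rw [abs_le] at u5 ⊢
        constructor <;> linarith [u5.1, u5.2]
      · rw [v4]
        rw [abs_le] at u6 ⊢
        constructor <;> linarith [u6.1, u6.2]
      · rw [v6]
        rw [abs_le] at u1 u2 ⊢
        constructor <;> linarith [u1.1, u1.2, u2.1, u2.2]
      · rw [v7]
        rw [abs_le] at u3 u4 ⊢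
        constructor <;> linarith [u3.1, u3.2, u4.1, u4.2])
  have hsq := BLWE_sq2_nonneg q
  have hqr : sq2 q < r₀ ^ 2 := by
    have : r₁ ^ 2 < r₀ ^ 2 := by nlinarith
    linarith
  have hqD : q ∈ Disc (0, 0) (1 / 5) := by
    show (q.1 - 0) ^ 2 + (q.2 - 0) ^ 2 < (1 / 5) ^ 2
    rw [sub_zero, sub_zero]
    have h1 : q.1 ^ 2 + q.2 ^ 2 ≤ r₁ ^ 2 := hq
    have h2 : r₁ ^ 2 ≤ (1 / 10) ^ 2 := by nlinarith
    norm_num at h2 ⊢
    linarith
  obtain ⟨c1, c2, c3⟩ := hmain q hqD hqr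
  have hA : 0 < AV μ v q := by unfold AV; positivity
  have hwA : |wv v q - AV μ v q| ≤ C' * sq2 q * AV μ v q := c1
  have hsm : C' * sq2 q * AV μ v q ≤ 1 / 2 * AV μ v q := by
    apply mul_le_mul_of_nonneg_right _ hA.le
    have : C' * sq2 q ≤ C' * r₁ ^ 2 := mul_le_mul_of_nonneg_left hq hC'.le
    linarith
  refine ⟨hwA, ?_, ?_, c2, c3⟩
  · have := (abs_le.1 hwA).1
    linarith
  · have := (abs_le.1 hwA).2
    linarith

theorem beta_bounds : ∃ C : ℝ, 0 < C ∧ ∀ (α μ : ℝ) (v : ℝ × ℝ → ℝ), 0 < α → α ≤ 1 →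
    GSol α μ v → pst < v (0, 0) → 1 / 32 ≤ bV μ v ∧ bV μ v ≤ C := by
  obtain ⟨r₁, C, hr₁, hr₁5, hC, hw⟩ := w_expand
  refine ⟨8 / r₁ ^ 2, by positivity, ?_⟩
  intro α μ v hα hα1 h hp
  have ha : 0 < aV v := Real.exp_pos _
  constructor
  · have h1 := mu_lower hα hα1 h hp
    unfold bV
    have h2 : Real.exp (-(v (0, 0)) / 2) * Real.exp (v (0, 0) / 2) = 1 := by
      rw [← Real.exp_add]
      have : -(v (0, 0)) / 2 + v (0, 0) / 2 = 0 := by ring
      rw [this, Real.exp_zero]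
    have h3 := mul_le_mul_of_nonneg_right h1 (Real.exp_pos (v (0, 0) / 2)).le
    linarith
  · have hq : sq2 (r₁ / 2, 0) = r₁ ^ 2 / 4 := by
      show (r₁ / 2) ^ 2 + (0 : ℝ) ^ 2 = _
      ring
    obtain ⟨-, c2, -, -, -⟩ := hw α μ v hα hα1 h hp (r₁ / 2, 0) (by
      rw [hq]; nlinarith [sq_nonneg r₁])
    have h1 : wv v (r₁ / 2, 0) ≤ 1 := by
      unfold wv
      rw [Real.exp_le_one_iff]
      have := h.nonneg hα (r₁ / 2, 0)
      linarith
    unfold AV at c2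
    rw [hq] at c2
    rw [le_div_iff₀ (by positivity)]
    linarith

theorem mu_upper : ∃ C : ℝ, 0 < C ∧ ∀ (α μ : ℝ) (v : ℝ × ℝ → ℝ), 0 < α → α ≤ 1 →
    GSol α μ v → pst < v (0, 0) → μ ≤ C * Real.exp (-(v (0, 0)) / 2) := by
  obtain ⟨C, hC, hb⟩ := beta_bounds
  refine ⟨8 * C, by positivity, ?_⟩
  intro α μ v hα hα1 h hp
  have h1 := mu_eq_ab μ v
  have h2 := (hb α μ v hα hα1 h hp).2
  have ha : 0 < aV v := Real.exp_pos _
  have h3 : 8 * aV v * bV μ v ≤ 8 * aV v * C := mul_le_mul_of_nonneg_left h2 (by positivity)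
  show μ ≤ 8 * C * aV v
  linarith

theorem e_expand : ∃ r₁ C : ℝ, 0 < r₁ ∧ r₁ ≤ 1 / 5 ∧ 0 < C ∧
    ∀ (α μ : ℝ) (v : ℝ × ℝ → ℝ), 0 < α → α ≤ 1 → GSol α μ v → pst < v (0, 0) →
    ∀ q : ℝ × ℝ, sq2 q ≤ r₁ ^ 2 →
      |μ * Real.exp (v q) - μ / AV μ v q ^ 2| ≤ C * sq2 q * (μ / AV μ v q ^ 2) := by
  obtain ⟨r₁, C, hr₁, hr₁5, hC, hw⟩ := w_expand
  refine ⟨r₁, 12 * C, hr₁, hr₁5, by positivity, ?_⟩
  intro α μ v hα hα1 h hp q hq
  obtain ⟨c1, c2, c3, -, -⟩ := hw α μ v hα hα1 h hp q hq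
  have hμ := h.mu_pos
  have ha : 0 < aV v := Real.exp_pos _
  have hbv : 0 < bV μ v := by
    unfold bV
    have := Real.exp_pos (v (0, 0) / 2)
    positivity
  have hs := BLWE_sq2_nonneg q
  have hA : 0 < AV μ v q := by unfold AV; positivity
  have hwp : 0 < wv v q := Real.exp_pos _
  set A : ℝ := AV μ v q
  set w : ℝ := wv v q with hwdef
  have hw2 : Real.exp (v q) = 1 / w ^ 2 := by
    rw [hwdef]
    unfold wv
    rw [← Real.exp_nat_mul, one_div, ← Real.exp_neg]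
    congr 1
    push_cast
    ring
  have e1 : μ * Real.exp (v q) - μ / A ^ 2 = μ * ((A - w) * (A + w) / (w ^ 2 * A ^ 2)) := by
    rw [hw2]
    field_simp
    ring
  rw [e1, abs_mul, abs_of_pos hμ]
  have e2 : |(A - w) * (A + w) / (w ^ 2 * A ^ 2)| ≤ 12 * C * sq2 q / A ^ 2 := by
    rw [abs_div, abs_mul, abs_of_pos (show 0 < w ^ 2 * A ^ 2 by positivity),
      abs_of_pos (show 0 < A + w by positivity), abs_sub_comm, div_le_div_iff₀ (by positivity)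
      (by positivity)]
    have f1 : |w - A| * (A + w) ≤ (C * sq2 q * A) * (3 * A) :=
      mul_le_mul c1 (by linarith) (by positivity) (by positivity)
    have f2 : A ^ 2 / 4 ≤ w ^ 2 := by
      have : (A / 2) ^ 2 ≤ w ^ 2 := pow_le_pow_left₀ (by positivity) c2 2
      linarith [this, (by ring : (A / 2) ^ 2 = A ^ 2 / 4)]
    have f3 : |w - A| * (A + w) * A ^ 2 ≤ (C * sq2 q * A) * (3 * A) * A ^ 2 :=
      mul_le_mul_of_nonneg_right f1 (by positivity)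
    have f4 : 12 * C * sq2 q * (A ^ 2 / 4 * A ^ 2) ≤ 12 * C * sq2 q * (w ^ 2 * A ^ 2) := by
      apply mul_le_mul_of_nonneg_left _ (by positivity)
      exact mul_le_mul_of_nonneg_right f2 (by positivity)
    have f5 : (C * sq2 q * A) * (3 * A) * A ^ 2 = 12 * C * sq2 q * (A ^ 2 / 4 * A ^ 2) := by ring
    linarith
  have e3 : μ * |(A - w) * (A + w) / (w ^ 2 * A ^ 2)| ≤ μ * (12 * C * sq2 q / A ^ 2) :=
    mul_le_mul_of_nonneg_left e2 hμ.le
  have e4 : μ * (12 * C * sq2 q / A ^ 2) = 12 * C * sq2 q * (μ / A ^ 2) := by ring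
  linarith

theorem xv_expand : ∃ r₁ C : ℝ, 0 < r₁ ∧ r₁ ≤ 1 / 5 ∧ 0 < C ∧
    ∀ (α μ : ℝ) (v : ℝ × ℝ → ℝ), 0 < α → α ≤ 1 → GSol α μ v → pst < v (0, 0) →
    ∀ q : ℝ × ℝ, sq2 q ≤ r₁ ^ 2 →
      |(q.1 * dx v q + q.2 * dy v q) + 4 * bV μ v * sq2 q / AV μ v q| ≤ C * sq2 q := by
  obtain ⟨r₁, C, hr₁, hr₁5, hC, hw⟩ := w_expand
  refine ⟨r₁, 16 * C, hr₁, hr₁5, by positivity, ?_⟩
  intro α μ v hα hα1 h hp q hq
  obtain ⟨c1, c2, c3, c4, c5⟩ := hw α μ v hα hα1 h hp q hq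
  have hU := isOpen_ell α
  have hμ := h.mu_pos
  have ha : 0 < aV v := Real.exp_pos _
  have hbv : 0 < bV μ v := by
    unfold bV
    have := Real.exp_pos (v (0, 0) / 2)
    positivity
  have hs := BLWE_sq2_nonneg q
  have hA : 0 < AV μ v q := by unfold AV; positivity
  have hwp : 0 < wv v q := Real.exp_pos _
  have hbs : bV μ v * sq2 q ≤ AV μ v q := by unfold AV; linarith
  have hqE : q ∈ Ell α := by
    have h1 := BLWE_sqrt_fst q
    have h2 := BLWE_sqrt_snd q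
    have h3 : √(sq2 q) ≤ r₁ := by
      rw [Real.sqrt_le_left hr₁.le]; exact hq
    exact BLWE_ell hα hα1 (by linarith) (by linarith)
  obtain ⟨w1, w2, -, -, -, -, -⟩ := w_eqs hU h.smooth h.eq hqE
  set A : ℝ := AV μ v q
  set w : ℝ := wv v q with hwdef
  set b : ℝ := bV μ v
  set s : ℝ := √(sq2 q) with hsdef
  have hss : s * s = sq2 q := Real.mul_self_sqrt hs
  have hs0 : 0 ≤ s := Real.sqrt_nonneg _
  have hq1 : |q.1| ≤ s := BLWE_sqrt_fst q
  have hq2 : |q.2| ≤ s := BLWE_sqrt_snd q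
  -- the error of the Euler derivative of `w`
  set e : ℝ := q.1 * (dx (wv v) q - 2 * b * q.1) + q.2 * (dy (wv v) q - 2 * b * q.2) with hedef
  have he : |e| ≤ 2 * C * sq2 q * A := by
    have g1 : |q.1 * (dx (wv v) q - 2 * b * q.1)| ≤ s * (C * s * A) := by
      rw [abs_mul]
      exact mul_le_mul hq1 c4 (abs_nonneg _) hs0
    have g2 : |q.2 * (dy (wv v) q - 2 * b * q.2)| ≤ s * (C * s * A) := by
      rw [abs_mul]
      exact mul_le_mul hq2 c5 (abs_nonneg _) hs0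
    have g3 := abs_add_le (q.1 * (dx (wv v) q - 2 * b * q.1)) (q.2 * (dy (wv v) q - 2 * b * q.2))
    have g4 : s * (C * s * A) = C * sq2 q * A := by rw [← hss]; ring
    rw [g4] at g1 g2
    linarith
  have hE : (q.1 * dx v q + q.2 * dy v q) * w = -2 * (2 * b * sq2 q + e) := by
    have e1 : q.1 * dx (wv v) q + q.2 * dy (wv v) q = 2 * b * sq2 q + e := by
      rw [hedef]
      unfold sq2
      ring
    rw [← e1, w1, w2]
    ring
  have hE2 : q.1 * dx v q + q.2 * dy v q + 4 * b * sq2 q / A =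
      4 * (b * sq2 q) * (w - A) / (w * A) - 2 * e / w := by
    have hx : q.1 * dx v q + q.2 * dy v q = -2 * (2 * b * sq2 q + e) / w := by
      rw [eq_div_iff hwp.ne']
      exact hE
    rw [hx]
    field_simp
    ring
  rw [hE2]
  have k1 : |4 * (b * sq2 q) * (w - A) / (w * A)| ≤ 8 * C * sq2 q := by
    rw [abs_div, abs_mul, abs_of_pos (show 0 < w * A by positivity),
      abs_of_nonneg (show 0 ≤ 4 * (b * sq2 q) by positivity), div_le_iff₀ (by positivity)]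
    have l1 : 4 * (b * sq2 q) * |w - A| ≤ 4 * A * (C * sq2 q * A) :=
      mul_le_mul (by linarith) c1 (abs_nonneg _) (by positivity)
    have l2 : 8 * C * sq2 q * (A / 2 * A) ≤ 8 * C * sq2 q * (w * A) := by
      apply mul_le_mul_of_nonneg_left _ (by positivity)
      exact mul_le_mul_of_nonneg_right c2 hA.le
    have l3 : 4 * A * (C * sq2 q * A) = 8 * C * sq2 q * (A / 2 * A) := by ring
    linarith
  have k2 : |2 * e / w| ≤ 8 * C * sq2 q := by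
    rw [abs_div, abs_mul, abs_of_pos hwp, abs_of_pos (show (0 : ℝ) < 2 by norm_num),
      div_le_iff₀ hwp]
    have l2 : 8 * C * sq2 q * (A / 2) ≤ 8 * C * sq2 q * w :=
      mul_le_mul_of_nonneg_left c2 (by positivity)
    linarith
  have k3 := abs_sub (4 * (b * sq2 q) * (w - A) / (w * A)) (2 * e / w)
  linarith

end Pool.Agent.MFE
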