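import Pool.Agent.MFE.BLWE

/-!
# MFE.BLWF: blow-up: the mass tends to `8π` and concentrates (fixed ellipse)

`rad_int`: polar coordinates (`disc_polar` or directly): `∫_{|q|<r} μ/(a + b|q|²)² =
π μ ∫_0^{r²} dτ/(a + bτ)² = π μ r²/(a (a + b r²)) = 8π b r²/(a + b r²)` for `μ = 8ab`.
`rad_int2`: `∫_{|q|<r} |q|² μ/(a+b|q|²)² ≤ π μ ∫_0^{r²} τ/(a+bτ)² dτ ≤ (π μ/b²) log (1 + b r²/a)
= (8π a/b) log (1 + b r²/a)`.
`mass_disc`: with `e_expand`, `1/32 ≤ b ≤ C`, `a → 0`: for every `r ≤ r₁`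
`∫_{Disc 0 r} μ e^v → 8π` (`a log (1/a) → 0`).
`blow_mass`: off `Sq 0 r`: `v ≤ 2000/r²` (`off_bound`, `r ≤ 2/5`), `μ → 0` (`mu_upper`), finite area; and
`Disc 0 r ⊆ Sq 0 r`.
-/

open scoped ContDiff
open Filter Topology

namespace Pool.Agent.MFE

private theorem BLWF_sq2_nonneg (q : ℝ × ℝ) : 0 ≤ sq2 q :=
  add_nonneg (sq_nonneg _) (sq_nonneg _)

private theorem BLWF_sq2_cont : Continuous sq2 := by
  unfold sq2; fun_prop

private theorem BLWF_cd (r : ℝ) : IsCompact (CDisc (0, 0) r) := by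
  apply Metric.isCompact_of_isClosed_isBounded
  · exact isClosed_le (by fun_prop) continuous_const
  · have hsub : CDisc (0, 0) r ⊆ Set.Icc (-|r|) (|r|) ×ˢ Set.Icc (-|r|) (|r|) := by
      intro q hq
      have hq' : (q.1 - 0) ^ 2 + (q.2 - 0) ^ 2 ≤ r ^ 2 := hq
      have h1 : |q.1| ≤ |r| := sq_le_sq.mp (by nlinarith [sq_nonneg q.2])
      have h2 : |q.2| ≤ |r| := sq_le_sq.mp (by nlinarith [sq_nonneg q.1])
      rw [abs_le] at h1 h2
      exact ⟨⟨by linarith [h1.1], by linarith [h1.2]⟩, ⟨by linarith [h2.1], by linarith [h2.2]⟩⟩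
    exact ((isCompact_Icc.prod isCompact_Icc).isBounded).subset hsub

private theorem BLWF_sub (r : ℝ) : Disc (0, 0) r ⊆ CDisc (0, 0) r := by
  intro q hq
  have h : (q.1 - 0) ^ 2 + (q.2 - 0) ^ 2 < r ^ 2 := hq
  exact h.le

private theorem BLWF_meas (r : ℝ) : MeasurableSet (Disc (0, 0) r) :=
  (isOpen_lt (by fun_prop) continuous_const).measurableSet

private theorem BLWF_int {f : ℝ × ℝ → ℝ} (hf : Continuous f) (r : ℝ) :
    MeasureTheory.IntegrableOn f (Disc (0, 0) r) :=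
  (hf.continuousOn.integrableOn_compact (BLWF_cd r)).mono_set (BLWF_sub r)

private theorem BLWF_mem {r : ℝ} {q : ℝ × ℝ} (hq : q ∈ Disc (0, 0) r) : sq2 q < r ^ 2 := by
  have h : (q.1 - 0) ^ 2 + (q.2 - 0) ^ 2 < r ^ 2 := hq
  rw [sub_zero, sub_zero] at h
  exact h

private theorem BLWF_rad {F : ℝ → ℝ} (hF : Continuous fun q => F (sq2 q)) {r : ℝ} (hr : 0 < r) :
    ∫ q in Disc (0, 0) r, F (sq2 q) = ∫ s in (0 : ℝ)..r, 2 * Real.pi * s * F (s ^ 2) := by
  rw [disc_polar hr.le hF.continuousOn]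
  congr 1
  funext s
  have h1 : circAvg (fun q => F (sq2 q)) (0, 0) s = F (s ^ 2) := by
    unfold circAvg
    have h2 : ∀ θ : ℝ, F (sq2 ((0 : ℝ) + s * Real.cos θ, (0 : ℝ) + s * Real.sin θ))
        = F (s ^ 2) := by
      intro θ
      congr 1
      show (0 + s * Real.cos θ) ^ 2 + (0 + s * Real.sin θ) ^ 2 = s ^ 2
      have := Real.sin_sq_add_cos_sq θ
      linear_combination s ^ 2 * this
    have h3 : (∫ θ in (0 : ℝ)..(2 * Real.pi),
        F (sq2 ((0 : ℝ) + s * Real.cos θ, (0 : ℝ) + s * Real.sin θ)))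
        = ∫ θ in (0 : ℝ)..(2 * Real.pi), F (s ^ 2) := by
      congr 1
      funext θ
      exact h2 θ
    show (2 * Real.pi)⁻¹ * (∫ θ in (0 : ℝ)..(2 * Real.pi),
        F (sq2 ((0 : ℝ) + s * Real.cos θ, (0 : ℝ) + s * Real.sin θ))) = F (s ^ 2)
    rw [h3, intervalIntegral.integral_const]
    have := Real.pi_pos
    rw [smul_eq_mul, sub_zero, ← mul_assoc, inv_mul_cancel₀ (by positivity), one_mul]
  rw [h1]

private theorem BLWF_pos {a b : ℝ} (ha : 0 < a) (hb : 0 < b) {t : ℝ} (ht : 0 ≤ t) :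
    0 < a + b * t := by positivity

private theorem BLWF_ab_cont {a b : ℝ} (ha : 0 < a) (hb : 0 < b) :
    Continuous fun q => 8 * a * b / (a + b * sq2 q) ^ 2 := by
  apply Continuous.div continuous_const
  · exact (continuous_const.add (continuous_const.mul BLWF_sq2_cont)).pow 2
  · intro q
    have := BLWF_pos ha hb (BLWF_sq2_nonneg q)
    positivity

/-- the amplitude tends to infinity: `aV → 0` -/
private theorem BLWF_a {v : ℕ → ℝ × ℝ → ℝ} (hp : Tendsto (fun n => v n (0, 0)) atTop atTop) :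
    Tendsto (fun n => aV (v n)) atTop (𝓝 0) := by
  unfold aV
  apply Real.tendsto_exp_atBot.comp
  have h1 : Tendsto (fun n => v n (0, 0) / 2) atTop atTop :=
    hp.atTop_div_const (by norm_num)
  have h2 := tendsto_neg_atTop_atBot.comp h1
  apply h2.congr
  intro n
  show -(v n (0, 0) / 2) = -(v n (0, 0)) / 2
  ring

private theorem BLWF_log {x : ℝ} (hx : 0 ≤ x) : Real.log (1 + x) ≤ 2 * √x := by
  have h1 : 1 + x ≤ (1 + √x) ^ 2 := by
    have := Real.sq_sqrt hx
    nlinarith [Real.sqrt_nonneg x]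
  have h2 := Real.log_le_log (by positivity) h1
  rw [Real.log_pow] at h2
  have h3 : Real.log (1 + √x) ≤ √x := by
    have := Real.log_le_sub_one_of_pos (show 0 < 1 + √x by positivity)
    linarith
  push_cast at h2
  linarith

/-- off the origin there is no mass -/
private theorem BLWF_off {α : ℝ} (hα : 0 < α) (hα1 : α ≤ 1) {μ : ℕ → ℝ} {v : ℕ → ℝ × ℝ → ℝ}
    (h : ∀ n, GSol α (μ n) (v n)) (hp : Tendsto (fun n => v n (0, 0)) atTop atTop)
    {ρ : ℝ} (hρ : 0 < ρ) (hρ1 : ρ ≤ 2 / 5) {S : Set (ℝ × ℝ)} (hS : S ⊆ Ell α)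
    (hS2 : ∀ q ∈ S, ρ ≤ |q.1| ∨ ρ ≤ |q.2|) :
    Tendsto (fun n => μ n * ∫ q in S, Real.exp (v n q)) atTop (𝓝 0) := by
  obtain ⟨C, hC, hmu⟩ := mu_upper
  have harea : MeasureTheory.volume S < ⊤ := by
    apply lt_of_le_of_lt (MeasureTheory.measure_mono hS)
    rw [area_ell hα]
    exact ENNReal.ofReal_lt_top
  have ha := BLWF_a hp
  have hev : ∀ᶠ n in atTop, pst < v n (0, 0) := hp.eventually_gt_atTop pst
  set A : ℝ := MeasureTheory.volume.real S with hA
  have hA0 : 0 ≤ A := MeasureTheory.measureReal_nonneg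
  have hlim : Tendsto (fun n => C * aV (v n) * (Real.exp (2000 / ρ ^ 2) * A)) atTop (𝓝 0) := by
    have := (ha.const_mul C).mul_const (Real.exp (2000 / ρ ^ 2) * A)
    simpa using this
  apply squeeze_zero_norm' _ hlim
  filter_upwards [hev] with n hn
  have hμ := (h n).mu_pos
  have h1 := hmu α (μ n) (v n) hα hα1 (h n) hn
  have h2 : ‖∫ q in S, Real.exp (v n q)‖ ≤ Real.exp (2000 / ρ ^ 2) * A := by
    apply MeasureTheory.norm_setIntegral_le_of_norm_le_const harea
    intro q hq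
    rw [Real.norm_eq_abs, abs_of_pos (Real.exp_pos _)]
    exact Real.exp_le_exp.2 (off_bound hα hα1 (h n) hn hρ hρ1 (hS2 q hq))
  rw [norm_mul, Real.norm_eq_abs (μ n), abs_of_pos hμ]
  exact mul_le_mul h1 h2 (norm_nonneg _) (by have := Real.exp_pos (-(v n (0, 0)) / 2); unfold aV; positivity)

theorem rad_int {a b r : ℝ} (ha : 0 < a) (hb : 0 < b) (hr : 0 < r) :
    ∫ q in Disc (0, 0) r, 8 * a * b / (a + b * sq2 q) ^ 2
      = 8 * Real.pi * (b * r ^ 2 / (a + b * r ^ 2)) := by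
  rw [BLWF_rad (F := fun t => 8 * a * b / (a + b * t) ^ 2) (BLWF_ab_cont ha hb) hr]
  have hder : ∀ s ∈ Set.uIcc (0 : ℝ) r, HasDerivAt
      (fun s : ℝ => 8 * Real.pi * (b * s ^ 2 / (a + b * s ^ 2)))
      (2 * Real.pi * s * (8 * a * b / (a + b * s ^ 2) ^ 2)) s := by
    intro s _
    have hpos := BLWF_pos ha hb (sq_nonneg s)
    have h1 : HasDerivAt (fun s : ℝ => b * s ^ 2) (b * (2 * s)) s := by
      have := (hasDerivAt_pow 2 s).const_mul b
      simpa using this
    have h2 : HasDerivAt (fun s : ℝ => a + b * s ^ 2) (b * (2 * s)) s := h1.const_add a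
    have h3 := (h1.div h2 hpos.ne').const_mul (8 * Real.pi)
    have h4 : 8 * Real.pi * ((b * (2 * s) * (a + b * s ^ 2) - b * s ^ 2 * (b * (2 * s)))
        / (a + b * s ^ 2) ^ 2) = 2 * Real.pi * s * (8 * a * b / (a + b * s ^ 2) ^ 2) := by
      field_simp
      ring
    rw [h4] at h3
    exact h3
  rw [intervalIntegral.integral_eq_sub_of_hasDerivAt hder]
  · simp
  · apply ContinuousOn.intervalIntegrable
    apply Continuous.continuousOn
    have hc : Continuous fun s : ℝ => 8 * a * b / (a + b * s ^ 2) ^ 2 := by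
      apply Continuous.div continuous_const (by fun_prop)
      intro s
      have := BLWF_pos ha hb (sq_nonneg s)
      positivity
    fun_prop

theorem rad_int2 {a b r : ℝ} (ha : 0 < a) (hb : 0 < b) (hr : 0 < r) :
    ∫ q in Disc (0, 0) r, sq2 q * (8 * a * b / (a + b * sq2 q) ^ 2)
      ≤ 8 * Real.pi * (a / b) * Real.log (1 + b * r ^ 2 / a) := by
  have hc0 : Continuous fun q => sq2 q * (8 * a * b / (a + b * sq2 q) ^ 2) :=
    BLWF_sq2_cont.mul (BLWF_ab_cont ha hb)
  rw [BLWF_rad (F := fun t => t * (8 * a * b / (a + b * t) ^ 2)) hc0 hr]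
  have hder : ∀ s ∈ Set.uIcc (0 : ℝ) r, HasDerivAt
      (fun s : ℝ => 8 * Real.pi * (a / b) * Real.log (1 + b * s ^ 2 / a))
      (16 * Real.pi * a * s / (a + b * s ^ 2)) s := by
    intro s _
    have hpos := BLWF_pos ha hb (sq_nonneg s)
    have h1 : HasDerivAt (fun s : ℝ => b * s ^ 2 / a) (b * (2 * s) / a) s := by
      have := ((hasDerivAt_pow 2 s).const_mul b).div_const a
      simpa using this
    have h2 : HasDerivAt (fun s : ℝ => 1 + b * s ^ 2 / a) (b * (2 * s) / a) s := h1.const_add 1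
    have hpos2 : 0 < 1 + b * s ^ 2 / a := by positivity
    have h3 := (h2.log hpos2.ne').const_mul (8 * Real.pi * (a / b))
    have h4 : 8 * Real.pi * (a / b) * (b * (2 * s) / a / (1 + b * s ^ 2 / a))
        = 16 * Real.pi * a * s / (a + b * s ^ 2) := by
      field_simp
      ring
    rw [h4] at h3
    exact h3
  have hc1 : Continuous fun s : ℝ => 16 * Real.pi * a * s / (a + b * s ^ 2) := by
    apply Continuous.div (by fun_prop) (by fun_prop)
    intro s
    exact (BLWF_pos ha hb (sq_nonneg s)).ne'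
  have hFT : ∫ s in (0 : ℝ)..r, 16 * Real.pi * a * s / (a + b * s ^ 2)
      = 8 * Real.pi * (a / b) * Real.log (1 + b * r ^ 2 / a) := by
    rw [intervalIntegral.integral_eq_sub_of_hasDerivAt hder (hc1.intervalIntegrable _ _)]
    simp
  rw [← hFT]
  have hc2 : Continuous fun s : ℝ => 2 * Real.pi * s * (s ^ 2 * (8 * a * b / (a + b * s ^ 2) ^ 2)) := by
    have hc : Continuous fun s : ℝ => 8 * a * b / (a + b * s ^ 2) ^ 2 := by
      apply Continuous.div continuous_const (by fun_prop)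
      intro s
      have := BLWF_pos ha hb (sq_nonneg s)
      positivity
    fun_prop
  apply intervalIntegral.integral_mono_on hr.le (hc2.intervalIntegrable _ _)
    (hc1.intervalIntegrable _ _)
  intro s hs
  have hs0 := hs.1
  have hpos := BLWF_pos ha hb (sq_nonneg s)
  have hpi := Real.pi_pos
  have e1 : 2 * Real.pi * s * (s ^ 2 * (8 * a * b / (a + b * s ^ 2) ^ 2))
      = 16 * Real.pi * a * s * (b * s ^ 2) / (a + b * s ^ 2) ^ 2 := by ring
  rw [e1, div_le_div_iff₀ (by positivity) hpos]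
  have e2 : 16 * Real.pi * a * s * (b * s ^ 2) * (a + b * s ^ 2)
      ≤ 16 * Real.pi * a * s * (a + b * s ^ 2) * (a + b * s ^ 2) := by
    apply mul_le_mul_of_nonneg_right _ hpos.le
    apply mul_le_mul_of_nonneg_left _ (by positivity)
    linarith
  have e3 : 16 * Real.pi * a * s * (a + b * s ^ 2) * (a + b * s ^ 2)
      = 16 * Real.pi * a * s * (a + b * s ^ 2) ^ 2 := by ring
  linarith

/-- bounded even though `a → 0` -/
theorem rad_int3 {a b r : ℝ} (ha : 0 < a) (hb : 0 < b) (hr : 0 < r) :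
    ∫ q in Disc (0, 0) r, sq2 q * √(sq2 q) / (a + b * sq2 q) ^ 2 ≤ 2 * Real.pi * r / b ^ 2 := by
  have hc0 : Continuous fun q => sq2 q * √(sq2 q) / (a + b * sq2 q) ^ 2 := by
    apply Continuous.div
    · exact BLWF_sq2_cont.mul BLWF_sq2_cont.sqrt
    · exact (continuous_const.add (continuous_const.mul BLWF_sq2_cont)).pow 2
    · intro q
      have := BLWF_pos ha hb (BLWF_sq2_nonneg q)
      positivity
  rw [BLWF_rad (F := fun t => t * √t / (a + b * t) ^ 2) hc0 hr]
  have hc2 : Continuous fun s : ℝ => 2 * Real.pi * s * (s ^ 2 * √(s ^ 2) / (a + b * s ^ 2) ^ 2) := by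
    have hc : Continuous fun s : ℝ => s ^ 2 * √(s ^ 2) / (a + b * s ^ 2) ^ 2 := by
      apply Continuous.div (by fun_prop) (by fun_prop)
      intro s
      have := BLWF_pos ha hb (sq_nonneg s)
      positivity
    fun_prop
  have h1 : ∫ s in (0 : ℝ)..r, 2 * Real.pi / b ^ 2 = 2 * Real.pi * r / b ^ 2 := by
    rw [intervalIntegral.integral_const, smul_eq_mul, sub_zero]
    ring
  rw [← h1]
  apply intervalIntegral.integral_mono_on hr.le (hc2.intervalIntegrable _ _)
    intervalIntegrable_const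
  intro s hs
  have hs0 := hs.1
  have hpos := BLWF_pos ha hb (sq_nonneg s)
  have hpi := Real.pi_pos
  rw [Real.sqrt_sq hs0]
  have e1 : 2 * Real.pi * s * (s ^ 2 * s / (a + b * s ^ 2) ^ 2)
      = 2 * Real.pi * s ^ 4 / (a + b * s ^ 2) ^ 2 := by ring
  rw [e1, div_le_div_iff₀ (by positivity) (by positivity)]
  have e2 : (b * s ^ 2) ^ 2 ≤ (a + b * s ^ 2) ^ 2 := by
    apply pow_le_pow_left₀ (by positivity)
    linarith
  have e3 : 2 * Real.pi * (b * s ^ 2) ^ 2 ≤ 2 * Real.pi * (a + b * s ^ 2) ^ 2 :=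
    mul_le_mul_of_nonneg_left e2 (by positivity)
  have e4 : 2 * Real.pi * s ^ 4 * b ^ 2 = 2 * Real.pi * (b * s ^ 2) ^ 2 := by ring
  rw [e4]
  exact e3

theorem mass_disc : ∃ r₁ : ℝ, 0 < r₁ ∧ r₁ ≤ 1 / 5 ∧
    ∀ (α μ : ℕ → ℝ) (v : ℕ → ℝ × ℝ → ℝ), (∀ n, 0 < α n ∧ α n ≤ 1) →
    (∀ n, GSol (α n) (μ n) (v n)) → Tendsto (fun n => v n (0, 0)) atTop atTop →
    ∀ r : ℝ, 0 < r → r ≤ r₁ →
      Tendsto (fun n => ∫ q in Disc (0, 0) r, μ n * Real.exp (v n q)) atTop
        (𝓝 (8 * Real.pi)) := by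
  obtain ⟨r₁, C, hr₁, hr₁5, hC, he⟩ := e_expand
  obtain ⟨K, hK, hb⟩ := beta_bounds
  refine ⟨r₁, hr₁, hr₁5, ?_⟩
  intro α μ v hα h hp r hr hrr
  have ha := BLWF_a hp
  have hev : ∀ᶠ n in atTop, pst < v n (0, 0) := hp.eventually_gt_atTop pst
  have hsq : Tendsto (fun n => √(aV (v n))) atTop (𝓝 0) := by
    have := ha.sqrt
    simpa using this
  have hpi := Real.pi_pos
  have hlim : Tendsto (fun n => 8 * Real.pi * (32 / r ^ 2) * aV (v n)
      + C * (8 * Real.pi * 32 * (2 * √(K * r ^ 2))) * √(aV (v n))) atTop (𝓝 0) := by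
    have h1 := ha.const_mul (8 * Real.pi * (32 / r ^ 2))
    have h2 := hsq.const_mul (C * (8 * Real.pi * 32 * (2 * √(K * r ^ 2))))
    simpa using h1.add h2
  rw [tendsto_iff_norm_sub_tendsto_zero]
  apply squeeze_zero' (Eventually.of_forall fun n => norm_nonneg _) _ hlim
  filter_upwards [hev] with n hn
  have hμ := (h n).mu_pos
  obtain ⟨b1, b2⟩ := hb (α n) (μ n) (v n) (hα n).1 (hα n).2 (h n) hn
  have he' := he (α n) (μ n) (v n) (hα n).1 (hα n).2 (h n) hn
  have ha0 : 0 < aV (v n) := Real.exp_pos _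
  have hb0 : 0 < bV (μ n) (v n) := by linarith
  have hmu := mu_eq_ab (μ n) (v n)
  set a : ℝ := aV (v n) with ha_def
  set b : ℝ := bV (μ n) (v n) with hb_def
  have hAV : ∀ q, μ n / AV (μ n) (v n) q ^ 2 = 8 * a * b / (a + b * sq2 q) ^ 2 := by
    intro q
    unfold AV
    rw [← ha_def, ← hb_def, ← hmu]
  have hcv : Continuous fun q => μ n * Real.exp (v n q) :=
    continuous_const.mul (Real.continuous_exp.comp (h n).cont)
  have hca := BLWF_ab_cont ha0 hb0
  have hci := BLWF_sq2_cont.mul hca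
  have I1 := BLWF_int hcv r
  have I2 := BLWF_int hca r
  have I3 := BLWF_int hci r
  have e1 : |(∫ q in Disc (0, 0) r, μ n * Real.exp (v n q))
      - ∫ q in Disc (0, 0) r, 8 * a * b / (a + b * sq2 q) ^ 2|
      ≤ C * ∫ q in Disc (0, 0) r, sq2 q * (8 * a * b / (a + b * sq2 q) ^ 2) := by
    rw [← MeasureTheory.integral_sub I1 I2, ← MeasureTheory.integral_const_mul,
      ← Real.norm_eq_abs]
    apply le_trans (MeasureTheory.norm_integral_le_integral_norm _)
    apply MeasureTheory.setIntegral_mono_on (I1.sub I2).norm (I3.const_mul C) (BLWF_meas r)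
    intro q hq
    have hq1 := BLWF_mem hq
    have hq2 : sq2 q ≤ r₁ ^ 2 := by
      have : r ^ 2 ≤ r₁ ^ 2 := pow_le_pow_left₀ hr.le hrr 2
      linarith
    have h1 := he' q hq2
    rw [hAV q] at h1
    show |μ n * Real.exp (v n q) - 8 * a * b / (a + b * sq2 q) ^ 2|
      ≤ C * (sq2 q * (8 * a * b / (a + b * sq2 q) ^ 2))
    rw [← mul_assoc]
    exact h1
  have e2 := rad_int2 ha0 hb0 hr
  rw [rad_int ha0 hb0 hr] at e1
  have hD : 0 < a + b * r ^ 2 := by positivity
  have e3 : |8 * Real.pi * (b * r ^ 2 / (a + b * r ^ 2)) - 8 * Real.pi|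
      ≤ 8 * Real.pi * (32 / r ^ 2) * a := by
    have e4 : 8 * Real.pi * (b * r ^ 2 / (a + b * r ^ 2)) - 8 * Real.pi
        = -(8 * Real.pi * (a / (a + b * r ^ 2))) := by
      field_simp
      ring
    rw [e4, abs_neg, abs_of_pos (by positivity)]
    have e5 : a / (a + b * r ^ 2) ≤ 32 / r ^ 2 * a := by
      rw [div_le_iff₀ hD]
      have e6 : 1 ≤ 32 / r ^ 2 * (a + b * r ^ 2) := by
        have e7 : 32 / r ^ 2 * (a + b * r ^ 2) = 32 / r ^ 2 * a + 32 * b := by
          field_simp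
        rw [e7]
        have : 0 < 32 / r ^ 2 * a := by positivity
        linarith
      have := mul_le_mul_of_nonneg_left e6 ha0.le
      linarith
    have := mul_le_mul_of_nonneg_left e5 (show 0 ≤ 8 * Real.pi by positivity)
    linarith
  have e8 : 8 * Real.pi * (a / b) * Real.log (1 + b * r ^ 2 / a)
      ≤ (8 * Real.pi * 32 * (2 * √(K * r ^ 2))) * √a := by
    have f1 := BLWF_log (x := b * r ^ 2 / a) (by positivity)
    have f2 : √(b * r ^ 2 / a) ≤ √(K * r ^ 2) / √a := by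
      rw [← Real.sqrt_div (by positivity)]
      apply Real.sqrt_le_sqrt
      apply div_le_div_of_nonneg_right _ ha0.le
      exact mul_le_mul_of_nonneg_right b2 (by positivity)
    have f3 : a / b ≤ 32 * a := by
      rw [div_le_iff₀ hb0]
      nlinarith
    have hlog : 0 ≤ Real.log (1 + b * r ^ 2 / a) := by
      apply Real.log_nonneg
      have : 0 < b * r ^ 2 / a := by positivity
      linarith
    have f4 : 8 * Real.pi * (a / b) * Real.log (1 + b * r ^ 2 / a)
        ≤ 8 * Real.pi * (32 * a) * (2 * (√(K * r ^ 2) / √a)) := by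
      apply mul_le_mul _ _ hlog (by positivity)
      · exact mul_le_mul_of_nonneg_left f3 (by positivity)
      · linarith
    have f5 : a / √a = √a := Real.div_sqrt
    have f6 : 8 * Real.pi * (32 * a) * (2 * (√(K * r ^ 2) / √a))
        = (8 * Real.pi * 32 * (2 * √(K * r ^ 2))) * (a / √a) := by ring
    rw [f6, f5] at f4
    exact f4
  have e9 : C * ∫ q in Disc (0, 0) r, sq2 q * (8 * a * b / (a + b * sq2 q) ^ 2)
      ≤ C * ((8 * Real.pi * 32 * (2 * √(K * r ^ 2))) * √a) :=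
    mul_le_mul_of_nonneg_left (le_trans e2 e8) hC.le
  rw [Real.norm_eq_abs]
  have e10 := abs_sub_le (∫ q in Disc (0, 0) r, μ n * Real.exp (v n q))
    (8 * Real.pi * (b * r ^ 2 / (a + b * r ^ 2))) (8 * Real.pi)
  linarith

/-- blow-up for a fixed ellipse -/
theorem blow_mass {α : ℝ} (hα : 0 < α) (hα1 : α ≤ 1) {μ : ℕ → ℝ} {v : ℕ → ℝ × ℝ → ℝ}
    (h : ∀ n, GSol α (μ n) (v n)) (hp : Tendsto (fun n => v n (0, 0)) atTop atTop) :
    Tendsto (fun n => μ n * ∫ q in Ell α, Real.exp (v n q)) atTop (𝓝 (8 * Real.pi)) ∧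
    ∀ r : ℝ, 0 < r → Tendsto (fun n => μ n * ∫ q in Ell α \ Sq (0, 0) r, Real.exp (v n q))
      atTop (𝓝 0) := by
  obtain ⟨r₁, hr₁, hr₁5, hm⟩ := mass_disc
  have hD : Disc (0, 0) r₁ ⊆ Ell α := by
    intro q hq
    have h1 := BLWF_mem hq
    have h2 : q.1 ^ 2 + q.2 ^ 2 < r₁ ^ 2 := h1
    show α ^ 2 * q.1 ^ 2 + q.2 ^ 2 < 1
    have h3 : α ^ 2 ≤ 1 := by nlinarith
    have h4 : α ^ 2 * q.1 ^ 2 ≤ 1 * q.1 ^ 2 := mul_le_mul_of_nonneg_right h3 (sq_nonneg _)
    nlinarith
  have hI : ∀ n, MeasureTheory.IntegrableOn (fun q => Real.exp (v n q)) (Ell α) := by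
    intro n
    have hc : Continuous fun q => Real.exp (v n q) := Real.continuous_exp.comp (h n).cont
    exact (hc.continuousOn.integrableOn_compact (isCompact_cell hα)).mono_set (by
      intro q hq
      have h1 : α ^ 2 * q.1 ^ 2 + q.2 ^ 2 < 1 := hq
      exact h1.le)
  constructor
  · have h1 := hm (fun _ => α) μ v (fun _ => ⟨hα, hα1⟩) h hp r₁ hr₁ le_rfl
    have h2 : Tendsto (fun n => μ n * ∫ q in Ell α \ Disc (0, 0) r₁, Real.exp (v n q)) atTop
        (𝓝 0) := by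
      apply BLWF_off hα hα1 h hp (ρ := r₁ / 2) (by linarith) (by linarith) Set.diff_subset
      intro q hq
      by_contra hcon
      rw [not_or, not_le, not_le] at hcon
      apply hq.2
      show (q.1 - 0) ^ 2 + (q.2 - 0) ^ 2 < r₁ ^ 2
      have a1 : q.1 ^ 2 < (r₁ / 2) ^ 2 := by
        rw [← sq_abs]
        exact pow_lt_pow_left₀ hcon.1 (abs_nonneg _) (by norm_num)
      have a2 : q.2 ^ 2 < (r₁ / 2) ^ 2 := by
        rw [← sq_abs]
        exact pow_lt_pow_left₀ hcon.2 (abs_nonneg _) (by norm_num)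
      nlinarith
    have h3 := h1.add h2
    rw [add_zero] at h3
    apply h3.congr
    intro n
    rw [MeasureTheory.integral_const_mul, ← mul_add]
    congr 1
    have h4 := MeasureTheory.integral_inter_add_diff (BLWF_meas r₁) (hI n)
    rw [← h4, Set.inter_eq_right.2 hD]
  · intro r hr
    apply BLWF_off hα hα1 h hp (ρ := min r (2 / 5)) (lt_min hr (by norm_num)) (min_le_right _ _)
      Set.diff_subset
    intro q hq
    by_contra hcon
    rw [not_or, not_le, not_le] at hcon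
    apply hq.2
    have a1 := lt_of_lt_of_le hcon.1 (min_le_left _ _)
    have a2 := lt_of_lt_of_le hcon.2 (min_le_left _ _)
    show |q.1 - 0| ≤ r ∧ |q.2 - 0| ≤ r
    rw [sub_zero, sub_zero]
    exact ⟨a1.le, a2.le⟩

end Pool.Agent.MFE
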