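import Pool.Agent.MFE.BLWE

/-!
# MFE.BLWG: blow-up: expansion of the linearised solution around the origin

`φh = φ - t`, `-lap φh = E φh`, `|φh| ≤ 1`, even. `s_bound`: as `t_bound`: near the boundary of
`Sq 0 (1/5)`, `ann_bound` for `v`, `|lap φh| ≤ E ≤ C`, `ige` for `φh`, then
`∇(lap φh) = -E (∇v φh + ∇φh)` bounded, `ige2`; `s_harm` and `wmp_bdd` in the square.
`phi_expand`: `ray` with `u = ω = wv v * φh`, `a = aV v`, `β = bV μ v`, `b = -bV φh(0)`,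
`ω(0) = aV φh(0)`, `∇ω(0) = 0`, `lap ω (0) = lap w (0) φh(0) + w(0) lap φh (0)
= 4 bV φh(0) - e^{-p/2} μ e^p φh(0) = (4 bV - 8 bV) φh(0)`; hypotheses from `o_eqs`, `t_bound`,
`s_bound` and `w_expand` (`w ≤ 2A`, `|∇w| ≤ C |q| (bV + A)`). So `|ω - φh(0)(aV - bV |q|²)| ≤ C|q|²A`;
divide by `w`: `|1/w - 1/A| ≤ C |q|²/A`, `|aV - bV|q|²| ≤ A`.
-/

open scoped ContDiff

namespace Pool.Agent.MFE

private theorem blwg_sm2 {f : ℝ × ℝ → ℝ} {D : Set (ℝ × ℝ)} (h : ContDiffOn ℝ ∞ f D) :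
    ContDiffOn ℝ 2 f D := by
  exact_mod_cast contDiffOn_infty.1 h 2

private theorem blwg_sm3 {f : ℝ × ℝ → ℝ} {D : Set (ℝ × ℝ)} (h : ContDiffOn ℝ ∞ f D) :
    ContDiffOn ℝ 3 f D := by
  exact_mod_cast contDiffOn_infty.1 h 3

private theorem blwg_dx_sub (φ : ℝ × ℝ → ℝ) (t : ℝ) : dx (fun z => φ z - t) = dx φ := by
  funext q
  unfold dx
  rw [fderiv_sub_const]

private theorem blwg_dy_sub (φ : ℝ × ℝ → ℝ) (t : ℝ) : dy (fun z => φ z - t) = dy φ := by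
  funext q
  unfold dy
  rw [fderiv_sub_const]

private theorem blwg_lap_sub (φ : ℝ × ℝ → ℝ) (t : ℝ) (q : ℝ × ℝ) :
    lap (fun z => φ z - t) q = lap φ q := by
  unfold lap
  rw [blwg_dx_sub, blwg_dy_sub]

private theorem blwg_lap_const (C : ℝ) (q : ℝ × ℝ) : lap (fun _ => C) q = 0 := by
  have h1 : dx (fun _ : ℝ × ℝ => C) = fun _ => 0 := by
    funext z; unfold dx; simp
  have h2 : dy (fun _ : ℝ × ℝ => C) = fun _ => 0 := by
    funext z; unfold dy; simp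
  unfold lap
  rw [h1, h2]
  unfold dx dy
  simp

private theorem blwg_diff {D : Set (ℝ × ℝ)} (hD : IsOpen D) {f : ℝ × ℝ → ℝ}
    (hf : ContDiffOn ℝ ∞ f D) {q : ℝ × ℝ} (hq : q ∈ D) : DifferentiableAt ℝ f q :=
  (hf.contDiffAt (hD.mem_nhds hq)).differentiableAt (by simp)

private theorem blwg_dE {D : Set (ℝ × ℝ)} (hD : IsOpen D) {v : ℝ × ℝ → ℝ}
    (hv : ContDiffOn ℝ ∞ v D) (c : ℝ) {q : ℝ × ℝ} (hq : q ∈ D) :
    dx (fun z => c * Real.exp (v z)) q = c * Real.exp (v q) * dx v q ∧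
    dy (fun z => c * Real.exp (v z)) q = c * Real.exp (v q) * dy v q := by
  have hd := blwg_diff hD hv hq
  constructor
  · rw [dx_const_mul c (f := fun z => Real.exp (v z)) hd.exp,
      dx_comp (F := Real.exp) hd Real.differentiableAt_exp, Real.deriv_exp, mul_assoc]
  · rw [dy_const_mul c (f := fun z => Real.exp (v z)) hd.exp,
      dy_comp (F := Real.exp) hd Real.differentiableAt_exp, Real.deriv_exp, mul_assoc]

/-- gradient of the Laplacian -/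
private theorem blwg_dlap {D : Set (ℝ × ℝ)} (hD : IsOpen D) {v f : ℝ × ℝ → ℝ} {μ : ℝ}
    (hv : ContDiffOn ℝ ∞ v D) (hf : ContDiffOn ℝ ∞ f D)
    (he : ∀ q ∈ D, -lap f q = μ * Real.exp (v q) * f q) {q : ℝ × ℝ} (hq : q ∈ D) :
    dx (lap f) q = -(μ * Real.exp (v q) * dx v q * f q + μ * Real.exp (v q) * dx f q) ∧
    dy (lap f) q = -(μ * Real.exp (v q) * dy v q * f q + μ * Real.exp (v q) * dy f q) := by
  have h1 : ∀ z ∈ D, lap f z = (-μ * Real.exp (v z)) * f z := fun z hz => by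
    have := he z hz
    linarith
  have hdv := blwg_diff hD hv hq
  have hdf := blwg_diff hD hf hq
  have hdE : DifferentiableAt ℝ (fun z => -μ * Real.exp (v z)) q := hdv.exp.const_mul _
  obtain ⟨e1, e2⟩ := blwg_dE hD hv (-μ) hq
  constructor
  · rw [dx_congr hD h1 hq, dx_mul hdE hdf, e1]
    ring
  · rw [dy_congr hD h1 hq, dy_mul hdE hdf, e2]
    ring

private def blwgD : Set (ℝ × ℝ) := {q | |q.1| < 1 / 5 ∧ |q.2| < 1 / 5}

private theorem blwgD_open : IsOpen blwgD := by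
  have h1 : Continuous fun q : ℝ × ℝ => |q.1| := by fun_prop
  have h2 : Continuous fun q : ℝ × ℝ => |q.2| := by fun_prop
  exact (isOpen_lt h1 continuous_const).inter (isOpen_lt h2 continuous_const)

private theorem blwgD_closure : closure blwgD = Sq (0, 0) (1 / 5) := by
  have h1 : blwgD = Set.Ioo (-(1 / 5) : ℝ) (1 / 5) ×ˢ Set.Ioo (-(1 / 5) : ℝ) (1 / 5) := by
    ext q
    simp only [blwgD, Set.mem_ofPred_eq, abs_lt, Set.mem_prod, Set.mem_Ioo]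
  have h2 : Sq (0, 0) (1 / 5) = Set.Icc (-(1 / 5) : ℝ) (1 / 5) ×ˢ Set.Icc (-(1 / 5) : ℝ) (1 / 5) := by
    ext q
    simp only [Sq, Set.mem_ofPred_eq, sub_zero, abs_le, Set.mem_prod, Set.mem_Icc]
  rw [h1, h2, closure_prod_eq, closure_Ioo (by norm_num)]

private theorem blwgD_bdd : Bornology.IsBounded blwgD := by
  have h1 : blwgD ⊆ Metric.closedBall (0 : ℝ × ℝ) 1 := by
    intro q hq
    rw [Metric.mem_closedBall, dist_zero_right, Prod.norm_def]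
    exact max_le (hq.1.le.trans (by norm_num)) (hq.2.le.trans (by norm_num))
  exact Metric.isBounded_closedBall.subset h1

private theorem blwg_sub_ell {α : ℝ} (hα : 0 < α) (hα1 : α ≤ 1) {q : ℝ × ℝ}
    (h1 : |q.1| ≤ 1 / 4) (h2 : |q.2| ≤ 1 / 4) : q ∈ Ell α := by
  change α ^ 2 * q.1 ^ 2 + q.2 ^ 2 < 1
  have h3 : q.1 ^ 2 ≤ (1 / 4) ^ 2 := by
    rw [← sq_abs]; exact pow_le_pow_left₀ (abs_nonneg _) h1 2
  have h4 : q.2 ^ 2 ≤ (1 / 4) ^ 2 := by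
    rw [← sq_abs]; exact pow_le_pow_left₀ (abs_nonneg _) h2 2
  have h5 : α ^ 2 ≤ 1 := by nlinarith
  have h6 : α ^ 2 * q.1 ^ 2 ≤ 1 * (1 / 4) ^ 2 :=
    mul_le_mul h5 h3 (sq_nonneg _) (by norm_num)
  norm_num at h4 h6 ⊢
  linarith

private theorem blwg_box {α : ℝ} (hα : 0 < α) (hα1 : α ≤ 1) {F : ℝ × ℝ → ℝ} {C : ℝ}
    (hF : ContDiffOn ℝ ∞ F (Ell α)) (hh : ∀ q ∈ Ell α, lap F q = 0)
    (hb : ∀ q ∈ Sq (0, 0) (1 / 5), (|q.1| = 1 / 5 ∨ |q.2| = 1 / 5) → |F q| ≤ C) :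
    ∀ q ∈ Sq (0, 0) (1 / 5), |F q| ≤ C := by
  have hsub : Sq (0, 0) (1 / 5) ⊆ Ell α := fun q hq => by
    have h1 : |q.1 - 0| ≤ 1 / 5 := hq.1
    have h2 : |q.2 - 0| ≤ 1 / 5 := hq.2
    rw [sub_zero] at h1 h2
    exact blwg_sub_ell hα hα1 (h1.trans (by norm_num)) (h2.trans (by norm_num))
  have hDs : blwgD ⊆ Ell α := subset_closure.trans (blwgD_closure.trans_subset hsub)
  have hF2 : ContDiffOn ℝ 2 F blwgD := blwg_sm2 (hF.mono hDs)
  have hFc : ContinuousOn F (closure blwgD) := by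
    rw [blwgD_closure]
    exact hF.continuousOn.mono hsub
  have hfr : ∀ q ∈ frontier blwgD, |F q| ≤ C := by
    intro q hq
    rw [blwgD_open.frontier_eq] at hq
    obtain ⟨h1, h2⟩ := hq
    rw [blwgD_closure] at h1
    refine hb q h1 ?_
    by_contra hcon
    push Not at hcon
    apply h2
    have h3 : |q.1 - 0| ≤ 1 / 5 := h1.1
    have h4 : |q.2 - 0| ≤ 1 / 5 := h1.2
    rw [sub_zero] at h3 h4
    exact ⟨lt_of_le_of_ne h3 hcon.1, lt_of_le_of_ne h4 hcon.2⟩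
  intro q hq
  rw [← blwgD_closure] at hq
  have hup := wmp_bdd blwgD_open blwgD_bdd (u := F) (b := fun _ => C) hF2 contDiffOn_const hFc
    continuousOn_const (fun z hz => by rw [hh z (hDs hz), blwg_lap_const])
    (fun z hz => (abs_le.1 (hfr z hz)).2) q hq
  have hlo := wmp_bdd blwgD_open blwgD_bdd (u := fun _ => -C) (b := F) contDiffOn_const hF2
    continuousOn_const hFc (fun z hz => by rw [hh z (hDs hz), blwg_lap_const])
    (fun z hz => (abs_le.1 (hfr z hz)).1) q hq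
  exact abs_le.2 ⟨hlo, hup⟩

private theorem blwg_S_smooth {D : Set (ℝ × ℝ)} (hD : IsOpen D) {v f : ℝ × ℝ → ℝ}
    (hv : ContDiffOn ℝ ∞ v D) (hf : ContDiffOn ℝ ∞ f D) :
    ContDiffOn ℝ ∞ (S1 v f) D ∧ ContDiffOn ℝ ∞ (S2 v f) D := by
  have h1 := smooth_dx hD hv
  have h2 := smooth_dy hD hv
  have h3 := smooth_dx hD hf
  have h4 := smooth_dy hD hf
  have h5 := smooth_dx hD h3
  have h6 := smooth_dy hD h4
  have h7 := smooth_dy hD h3
  constructor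
  · exact ((h5.sub h6).div_const 4).sub (((h1.mul h3).sub (h2.mul h4)).div_const 4)
  · exact ((h7.neg).div_const 2).add (((h1.mul h4).add (h2.mul h3)).div_const 4)

/-- the bound on the boundary of the square -/
private theorem blwg_bd {α μ C₁ : ℝ} (hα : 0 < α) (hα1 : α ≤ 1) {v f : ℝ × ℝ → ℝ}
    (hv : ContDiffOn ℝ ∞ v (Ell α)) (hf : ContDiffOn ℝ ∞ f (Ell α))
    (he : ∀ q ∈ Ell α, -lap f q = μ * Real.exp (v q) * f q) (hf1 : ∀ q, |f q| ≤ 1)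
    (hC₁ : 0 < C₁) {q : ℝ × ℝ} (hq : q ∈ Sq (0, 0) (1 / 5))
    (hA : ∀ z ∈ Sq q (1 / 20), |dx v z| ≤ C₁ ∧ |dy v z| ≤ C₁ ∧ |v z| ≤ C₁ ∧
        |μ * Real.exp (v z)| ≤ C₁) :
    |S1 v f q| ≤ (25600 + C₁ + 1 / 40 * (C₁ * C₁ + C₁ * (80 + C₁ / 80))) + C₁ * (80 + C₁ / 80) ∧
    |S2 v f q| ≤ (25600 + C₁ + 1 / 40 * (C₁ * C₁ + C₁ * (80 + C₁ / 80))) +
      C₁ * (80 + C₁ / 80) := by
  have hD := isOpen_ell α
  have hq1 : |q.1| ≤ 1 / 5 := by
    have h1 : |q.1 - 0| ≤ 1 / 5 := hq.1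
    rwa [sub_zero] at h1
  have hq2 : |q.2| ≤ 1 / 5 := by
    have h1 : |q.2 - 0| ≤ 1 / 5 := hq.2
    rwa [sub_zero] at h1
  have hsub : Sq q (1 / 20) ⊆ Ell α := fun z hz => by
    have h1 := abs_le.1 hz.1
    have h2 := abs_le.1 hz.2
    have h3 := abs_le.1 hq1
    have h4 := abs_le.1 hq2
    refine blwg_sub_ell hα hα1 (abs_le.2 ⟨?_, ?_⟩) (abs_le.2 ⟨?_, ?_⟩)
    · linarith [h1.1, h3.1]
    · linarith [h1.2, h3.2]
    · linarith [h2.1, h4.1]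
    · linarith [h2.2, h4.2]
  have hlap : ∀ z ∈ Sq q (1 / 20), |lap f z| ≤ C₁ := fun z hz => by
    have h1 := he z (hsub hz)
    have h2 : lap f z = -(μ * Real.exp (v z) * f z) := by linarith
    rw [h2, abs_neg, abs_mul]
    calc |μ * Real.exp (v z)| * |f z| ≤ C₁ * 1 :=
          mul_le_mul (hA z hz).2.2.2 (hf1 z) (abs_nonneg _) hC₁.le
      _ = C₁ := mul_one _
  have hsq : ∀ z ∈ Sq q (1 / 40), Sq z (1 / 40) ⊆ Sq q (1 / 20) := fun z hz w hw => by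
    have h1 := abs_le.1 hz.1
    have h2 := abs_le.1 hz.2
    have h3 := abs_le.1 hw.1
    have h4 := abs_le.1 hw.2
    refine ⟨abs_le.2 ⟨?_, ?_⟩, abs_le.2 ⟨?_, ?_⟩⟩
    · linarith [h1.1, h3.1]
    · linarith [h1.2, h3.2]
    · linarith [h2.1, h4.1]
    · linarith [h2.2, h4.2]
  have hs2 : Sq q (1 / 40) ⊆ Sq q (1 / 20) := fun z hz =>
    ⟨hz.1.trans (by norm_num), hz.2.trans (by norm_num)⟩
  have hqq : q ∈ Sq q (1 / 40) := ⟨by rw [sub_self]; norm_num, by rw [sub_self]; norm_num⟩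
  have hG : ∀ z ∈ Sq q (1 / 40), |dx f z| ≤ 80 + C₁ / 80 ∧ |dy f z| ≤ 80 + C₁ / 80 := fun z hz => by
    have h1 := ige hD (blwg_sm2 hf) (q₀ := z) (d := 1 / 40) (M := 1) (N := C₁)
      (by norm_num) ((hsq z hz).trans hsub) (fun w _ => hf1 w) (fun w hw => hlap w (hsq z hz hw))
    have h2 : 2 / (1 / 40 : ℝ) * 1 + 1 / 40 / 2 * C₁ = 80 + C₁ / 80 := by ring
    rw [h2] at h1
    exact h1
  have hG0 : 0 < 80 + C₁ / 80 := by positivity
  have hN' : ∀ z ∈ Sq q (1 / 40), |dx (lap f) z| ≤ C₁ * C₁ + C₁ * (80 + C₁ / 80) ∧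
      |dy (lap f) z| ≤ C₁ * C₁ + C₁ * (80 + C₁ / 80) := fun z hz => by
    obtain ⟨e1, e2⟩ := blwg_dlap hD hv hf he (hsub (hs2 hz))
    obtain ⟨a1, a2, -, a4⟩ := hA z (hs2 hz)
    obtain ⟨g1, g2⟩ := hG z hz
    constructor
    · rw [e1, abs_neg]
      refine (abs_add_le _ _).trans (add_le_add ?_ ?_)
      · rw [abs_mul, abs_mul]
        calc |μ * Real.exp (v z)| * |dx v z| * |f z| ≤ C₁ * C₁ * 1 :=
              mul_le_mul (mul_le_mul a4 a1 (abs_nonneg _) hC₁.le) (hf1 z) (abs_nonneg _)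
                (by positivity)
          _ = C₁ * C₁ := mul_one _
      · rw [abs_mul]
        exact mul_le_mul a4 g1 (abs_nonneg _) hC₁.le
    · rw [e2, abs_neg]
      refine (abs_add_le _ _).trans (add_le_add ?_ ?_)
      · rw [abs_mul, abs_mul]
        calc |μ * Real.exp (v z)| * |dy v z| * |f z| ≤ C₁ * C₁ * 1 :=
              mul_le_mul (mul_le_mul a4 a2 (abs_nonneg _) hC₁.le) (hf1 z) (abs_nonneg _)
                (by positivity)
          _ = C₁ * C₁ := mul_one _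
      · rw [abs_mul]
        exact mul_le_mul a4 g2 (abs_nonneg _) hC₁.le
  have hH := ige2 hD (blwg_sm3 hf) (q₀ := q) (d := 1 / 40) (M := 1)
    (N := C₁) (N' := C₁ * C₁ + C₁ * (80 + C₁ / 80)) (by norm_num) (hs2.trans hsub)
    (fun w _ => hf1 w) (fun w hw => hlap w (hs2 hw)) hN'
  have h16 : 16 / (1 / 40 : ℝ) ^ 2 * 1 + C₁ + 1 / 40 * (C₁ * C₁ + C₁ * (80 + C₁ / 80)) =
      25600 + C₁ + 1 / 40 * (C₁ * C₁ + C₁ * (80 + C₁ / 80)) := by norm_num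
  rw [h16] at hH
  set H := 25600 + C₁ + 1 / 40 * (C₁ * C₁ + C₁ * (80 + C₁ / 80)) with hHdef
  obtain ⟨k1, k2, k3⟩ := hH
  obtain ⟨g1, g2⟩ := hG q hqq
  obtain ⟨a1, a2, -, -⟩ := hA q (hs2 hqq)
  set G := 80 + C₁ / 80 with hGdef
  have m11 : |dx v q * dx f q| ≤ C₁ * G := by
    rw [abs_mul]; exact mul_le_mul a1 g1 (abs_nonneg _) hC₁.le
  have m22 : |dy v q * dy f q| ≤ C₁ * G := by
    rw [abs_mul]; exact mul_le_mul a2 g2 (abs_nonneg _) hC₁.le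
  have m12 : |dx v q * dy f q| ≤ C₁ * G := by
    rw [abs_mul]; exact mul_le_mul a1 g2 (abs_nonneg _) hC₁.le
  have m21 : |dy v q * dx f q| ≤ C₁ * G := by
    rw [abs_mul]; exact mul_le_mul a2 g1 (abs_nonneg _) hC₁.le
  have hCG : 0 < C₁ * G := mul_pos hC₁ hG0
  unfold S1 S2
  rw [abs_le] at k1 k2 k3 m11 m22 m12 m21
  constructor
  · rw [abs_le]; constructor <;> linarith [k1.1, k1.2, k3.1, k3.2, m11.1, m11.2, m22.1, m22.2]
  · rw [abs_le]; constructor <;> linarith [k2.1, k2.2, m12.1, m12.2, m21.1, m21.2]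

theorem s_bound : ∃ C : ℝ, 0 < C ∧ ∀ (α μ t : ℝ) (v φ : ℝ × ℝ → ℝ), 0 < α → α ≤ 1 →
    CD α μ t v φ → pst < v (0, 0) → (∀ q, |φ q - t| ≤ 1) → ∀ q ∈ Sq (0, 0) (1 / 5),
      |S1 v (fun z => φ z - t) q| ≤ C ∧ |S2 v (fun z => φ z - t) q| ≤ C := by
  obtain ⟨C₁, hC₁, hann⟩ := ann_bound
  refine ⟨(25600 + C₁ + 1 / 40 * (C₁ * C₁ + C₁ * (80 + C₁ / 80))) + C₁ * (80 + C₁ / 80),
    by positivity, ?_⟩
  intro α μ t v φ hα hα1 h hp hf1
  have hD := isOpen_ell α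
  have hv := h.sol.smooth
  have hf : ContDiffOn ℝ ∞ (fun z => φ z - t) (Ell α) := h.smooth.sub contDiffOn_const
  have he : ∀ q ∈ Ell α, -lap (fun z => φ z - t) q = μ * Real.exp (v q) * (φ q - t) :=
    fun q hq => by rw [blwg_lap_sub]; exact h.eq q hq
  obtain ⟨hs1, hs2⟩ := blwg_S_smooth hD hv hf
  have hb := fun (q : ℝ × ℝ) (hq : q ∈ Sq (0, 0) (1 / 5)) (hq' : |q.1| = 1 / 5 ∨ |q.2| = 1 / 5) =>
    blwg_bd hα hα1 hv hf he hf1 hC₁ hq (hann α μ v hα hα1 h.sol hp q hq hq').1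
  intro q hq
  exact ⟨blwg_box hα hα1 hs1 (fun z hz => (s_harm hD hv hf h.sol.eq he hz).1)
      (fun z hz hz' => (hb z hz hz').1) q hq,
    blwg_box hα hα1 hs2 (fun z hz => (s_harm hD hv hf h.sol.eq he hz).2)
      (fun z hz hz' => (hb z hz hz').2) q hq⟩

private theorem blwg_even0 {f : ℝ × ℝ → ℝ} (hx : EvX f) (hy : EvY f) :
    dx f (0, 0) = 0 ∧ dy f (0, 0) = 0 := by
  have h1 := dx_of_evx hx 0 0
  have h2 := dy_of_evy hy 0 0
  rw [neg_zero] at h1 h2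
  constructor <;> linarith

private theorem blwg_wv_smooth {D : Set (ℝ × ℝ)} {v : ℝ × ℝ → ℝ} (hv : ContDiffOn ℝ ∞ v D) :
    ContDiffOn ℝ ∞ (wv v) D := ((hv.neg).div_const 2).exp

/-- final division step -/
private theorem blwg_final {w A f om m sq C' Cw f0 : ℝ} (hA : 0 < A) (hw : A / 2 ≤ w)
    (hom : om = w * f) (h1 : |om - f0 * m| ≤ C' * sq * A) (h2 : |w - A| ≤ Cw * sq * A)
    (hm : |m| ≤ A) (hf0 : |f0| ≤ 1) (hC' : 0 < C') (hCw : 0 < Cw) (hsq : 0 ≤ sq) :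
    |f - f0 * (m / A)| ≤ (2 * C' + 2 * Cw) * sq := by
  have hw0 : 0 < w := lt_of_lt_of_le (by positivity) hw
  have e1 : f - f0 * (m / A) = (om - f0 * m) / w + f0 * m * ((A - w) / (w * A)) := by
    rw [hom]
    field_simp
    ring
  rw [e1]
  refine (abs_add_le _ _).trans ?_
  have b1 : |(om - f0 * m) / w| ≤ 2 * C' * sq := by
    rw [abs_div, abs_of_pos hw0, div_le_iff₀ hw0]
    refine h1.trans ?_
    have h3 : C' * sq * A ≤ C' * sq * (2 * w) :=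
      mul_le_mul_of_nonneg_left (by linarith) (by positivity)
    calc C' * sq * A ≤ C' * sq * (2 * w) := h3
      _ = 2 * C' * sq * w := by ring
  have b2 : |f0 * m * ((A - w) / (w * A))| ≤ 2 * Cw * sq := by
    rw [abs_mul, abs_div, abs_of_pos (mul_pos hw0 hA), abs_mul, abs_sub_comm A w]
    have h3 : |f0| * |m| ≤ 1 * A := mul_le_mul hf0 hm (abs_nonneg _) (by norm_num)
    have h4 : |w - A| / (w * A) ≤ Cw * sq / w := by
      rw [div_le_div_iff₀ (mul_pos hw0 hA) hw0]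
      calc |w - A| * w ≤ (Cw * sq * A) * w := mul_le_mul_of_nonneg_right h2 hw0.le
        _ = Cw * sq * (w * A) := by ring
    calc |f0| * |m| * (|w - A| / (w * A)) ≤ (1 * A) * (Cw * sq / w) :=
          mul_le_mul h3 h4 (by positivity) (by positivity)
      _ = Cw * sq * (A / w) := by ring
      _ ≤ Cw * sq * 2 := by
          refine mul_le_mul_of_nonneg_left ?_ (by positivity)
          rw [div_le_iff₀ hw0]
          linarith
      _ = 2 * Cw * sq := by ring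
  calc _ ≤ 2 * C' * sq + 2 * Cw * sq := add_le_add b1 b2
    _ = _ := by ring

/-- the hypotheses of the ray lemma -/
private theorem blwg_hyp {T1q T2q S1q S2q w A ωq ωx ωy wx wy β q1 q2 sq Ct Cs Cw : ℝ}
    (hT1 : |T1q| ≤ Ct) (hT2 : |T2q| ≤ Ct) (hS1 : |S1q| ≤ Cs) (hS2 : |S2q| ≤ Cs)
    (hCt : 0 < Ct) (hCs : 0 < Cs) (hCw : 0 < Cw) (hA : 0 < A) (hβ : 0 < β) (hw0 : 0 ≤ w)
    (hw : w ≤ 2 * A) (hq1 : |q1| ≤ sq) (hq2 : |q2| ≤ sq) (hsq : 0 ≤ sq)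
    (hwx : |wx - 2 * β * q1| ≤ Cw * sq * A) (hwy : |wy - 2 * β * q2| ≤ Cw * sq * A) :
    |-2 * T1q * ωq + 4 * S1q * w| ≤ (2 * Ct + 8 * Cs * (2 + Cw)) * (|ωq| + A) ∧
    |T2q * ωq - 2 * S2q * w| ≤ (2 * Ct + 8 * Cs * (2 + Cw)) * (|ωq| + A) ∧
    |-2 * (T1q * ωx - T2q * ωy) + 4 * (S1q * wx - S2q * wy)| ≤
      (2 * Ct + 8 * Cs * (2 + Cw)) * (|ωx| + |ωy| + sq * (β + A)) ∧
    |2 * (T2q * ωx + T1q * ωy) - 4 * (S2q * wx + S1q * wy)| ≤
      (2 * Ct + 8 * Cs * (2 + Cw)) * (|ωx| + |ωy| + sq * (β + A)) := by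
  have t1 : |T1q * ωq| ≤ Ct * |ωq| := by
    rw [abs_mul]; exact mul_le_mul_of_nonneg_right hT1 (abs_nonneg _)
  have t2 : |T2q * ωq| ≤ Ct * |ωq| := by
    rw [abs_mul]; exact mul_le_mul_of_nonneg_right hT2 (abs_nonneg _)
  have s1 : |S1q * w| ≤ Cs * (2 * A) := by
    rw [abs_mul, abs_of_nonneg hw0]; exact mul_le_mul hS1 hw hw0 hCs.le
  have s2 : |S2q * w| ≤ Cs * (2 * A) := by
    rw [abs_mul, abs_of_nonneg hw0]; exact mul_le_mul hS2 hw hw0 hCs.le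
  have hbx : |wx| ≤ sq * (2 * β + Cw * A) := by
    have h1 : |2 * β * q1| ≤ 2 * β * sq := by
      rw [abs_mul, abs_of_pos (by positivity : 0 < 2 * β)]
      exact mul_le_mul_of_nonneg_left hq1 (by positivity)
    have h2 : |wx| ≤ |wx - 2 * β * q1| + |2 * β * q1| := by
      calc |wx| = |(wx - 2 * β * q1) + 2 * β * q1| := by rw [sub_add_cancel]
        _ ≤ _ := abs_add_le _ _
    calc |wx| ≤ Cw * sq * A + 2 * β * sq := h2.trans (add_le_add hwx h1)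
      _ = _ := by ring
  have hby : |wy| ≤ sq * (2 * β + Cw * A) := by
    have h1 : |2 * β * q2| ≤ 2 * β * sq := by
      rw [abs_mul, abs_of_pos (by positivity : 0 < 2 * β)]
      exact mul_le_mul_of_nonneg_left hq2 (by positivity)
    have h2 : |wy| ≤ |wy - 2 * β * q2| + |2 * β * q2| := by
      calc |wy| = |(wy - 2 * β * q2) + 2 * β * q2| := by rw [sub_add_cancel]
        _ ≤ _ := abs_add_le _ _
    calc |wy| ≤ Cw * sq * A + 2 * β * sq := h2.trans (add_le_add hwy h1)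
      _ = _ := by ring
  have hkey : sq * (2 * β + Cw * A) ≤ (2 + Cw) * (sq * (β + A)) := by
    have h1 : 0 ≤ sq * (Cw * β + 2 * A) := by positivity
    have h2 : (2 + Cw) * (sq * (β + A)) = sq * (2 * β + Cw * A) + sq * (Cw * β + 2 * A) := by ring
    rw [h2]; linarith
  have x1 : |S1q * wx| ≤ Cs * ((2 + Cw) * (sq * (β + A))) := by
    rw [abs_mul]; exact mul_le_mul hS1 (hbx.trans hkey) (abs_nonneg _) hCs.le
  have x2 : |S2q * wy| ≤ Cs * ((2 + Cw) * (sq * (β + A))) := by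
    rw [abs_mul]; exact mul_le_mul hS2 (hby.trans hkey) (abs_nonneg _) hCs.le
  have x3 : |S2q * wx| ≤ Cs * ((2 + Cw) * (sq * (β + A))) := by
    rw [abs_mul]; exact mul_le_mul hS2 (hbx.trans hkey) (abs_nonneg _) hCs.le
  have x4 : |S1q * wy| ≤ Cs * ((2 + Cw) * (sq * (β + A))) := by
    rw [abs_mul]; exact mul_le_mul hS1 (hby.trans hkey) (abs_nonneg _) hCs.le
  have y1 : |T1q * ωx| ≤ Ct * |ωx| := by
    rw [abs_mul]; exact mul_le_mul_of_nonneg_right hT1 (abs_nonneg _)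
  have y2 : |T2q * ωy| ≤ Ct * |ωy| := by
    rw [abs_mul]; exact mul_le_mul_of_nonneg_right hT2 (abs_nonneg _)
  have y3 : |T2q * ωx| ≤ Ct * |ωx| := by
    rw [abs_mul]; exact mul_le_mul_of_nonneg_right hT2 (abs_nonneg _)
  have y4 : |T1q * ωy| ≤ Ct * |ωy| := by
    rw [abs_mul]; exact mul_le_mul_of_nonneg_right hT1 (abs_nonneg _)
  set Z := sq * (β + A) with hZ
  have hZ0 : 0 ≤ Z := by positivity
  have p1 := mul_nonneg hCs.le hA.le
  have p2 := mul_nonneg (mul_nonneg hCs.le hCw.le) hA.le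
  have p3 := mul_nonneg hCt.le hA.le
  have p4 := mul_nonneg hCt.le (abs_nonneg ωq)
  have p5 := mul_nonneg hCs.le (abs_nonneg ωq)
  have p6 := mul_nonneg (mul_nonneg hCs.le hCw.le) (abs_nonneg ωq)
  have p7 := mul_nonneg hCt.le (abs_nonneg ωx)
  have p8 := mul_nonneg hCs.le (abs_nonneg ωx)
  have p9 := mul_nonneg (mul_nonneg hCs.le hCw.le) (abs_nonneg ωx)
  have p10 := mul_nonneg hCt.le (abs_nonneg ωy)
  have p11 := mul_nonneg hCs.le (abs_nonneg ωy)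
  have p12 := mul_nonneg (mul_nonneg hCs.le hCw.le) (abs_nonneg ωy)
  have p13 := mul_nonneg hCt.le hZ0
  have e1 : (2 * Ct + 8 * Cs * (2 + Cw)) * (|ωq| + A) = 2 * (Ct * |ωq|) + 2 * (Ct * A) +
      16 * (Cs * |ωq|) + 8 * (Cs * Cw * |ωq|) + 16 * (Cs * A) + 8 * (Cs * Cw * A) := by ring
  have e2 : (2 * Ct + 8 * Cs * (2 + Cw)) * (|ωx| + |ωy| + Z) = 2 * (Ct * |ωx|) + 2 * (Ct * |ωy|) +
      2 * (Ct * Z) + 16 * (Cs * |ωx|) + 8 * (Cs * Cw * |ωx|) + 16 * (Cs * |ωy|) +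
      8 * (Cs * Cw * |ωy|) + 8 * (Cs * ((2 + Cw) * Z)) := by ring
  rw [e1, e2]
  rw [abs_le] at t1 t2 s1 s2 x1 x2 x3 x4 y1 y2 y3 y4
  refine ⟨?_, ?_, ?_, ?_⟩
  · rw [abs_le]
    constructor <;> nlinarith only [t1.1, t1.2, s1.1, s1.2, p1, p2, p3, p4, p5, p6]
  · rw [abs_le]
    constructor <;> nlinarith only [t2.1, t2.2, s2.1, s2.2, p1, p2, p3, p4, p5, p6]
  · rw [abs_le]
    constructor <;> nlinarith only [y1.1, y1.2, y2.1, y2.2, x1.1, x1.2, x2.1, x2.2, p7, p8, p9,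
      p10, p11, p12, p13]
  · rw [abs_le]
    constructor <;> nlinarith only [y3.1, y3.2, y4.1, y4.2, x3.1, x3.2, x4.1, x4.2, p7, p8, p9,
      p10, p11, p12, p13]

theorem phi_expand : ∃ r₂ C : ℝ, 0 < r₂ ∧ r₂ ≤ 1 / 5 ∧ 0 < C ∧
    ∀ (α μ t : ℝ) (v φ : ℝ × ℝ → ℝ), 0 < α → α ≤ 1 →
    CD α μ t v φ → pst < v (0, 0) → (∀ q, |φ q - t| ≤ 1) → ∀ q : ℝ × ℝ, sq2 q ≤ r₂ ^ 2 →
      |(φ q - t) - (φ (0, 0) - t) * ((aV v - bV μ v * sq2 q) / AV μ v q)| ≤ C * sq2 q := by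
  obtain ⟨Cs, hCs, hS⟩ := s_bound
  obtain ⟨Ct, hCt, hT⟩ := t_bound
  obtain ⟨r₁, Cw, hr₁, hr₁5, hCw, hW⟩ := w_expand
  obtain ⟨r₀, C', hr₀, hr₀1, hC', hray⟩ := ray (2 * Ct + 8 * Cs * (2 + Cw)) (by positivity)
  have hr₂ : 0 < min r₁ r₀ / 2 := by
    have := lt_min hr₁ hr₀
    linarith
  have hr₂1 : min r₁ r₀ / 2 < r₁ := by
    have := min_le_left r₁ r₀
    linarith
  have hr₂0 : min r₁ r₀ / 2 < r₀ := by
    have := min_le_right r₁ r₀
    linarith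
  refine ⟨min r₁ r₀ / 2, 2 * C' + 2 * Cw, hr₂, by linarith, by positivity, ?_⟩
  intro α μ t v φ hα hα1 h hp hf1 q hq
  have hD := isOpen_ell α
  have hv := h.sol.smooth
  have hf : ContDiffOn ℝ ∞ (fun z => φ z - t) (Ell α) := h.smooth.sub contDiffOn_const
  have he : ∀ q ∈ Ell α, -lap (fun z => φ z - t) q = μ * Real.exp (v q) * (φ q - t) :=
    fun q hq => by rw [blwg_lap_sub]; exact h.eq q hq
  have hwv := blwg_wv_smooth hv
  have hω : ContDiffOn ℝ ∞ (fun z => wv v z * (φ z - t)) (Ell α) := hwv.mul hf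
  have hμ := h.sol.mu_pos
  have ha : 0 < aV v := Real.exp_pos _
  have hβ : 0 < bV μ v := by unfold bV; positivity
  have hsq0 : ∀ z : ℝ × ℝ, 0 ≤ sq2 z := fun z => by unfold sq2; positivity
  have hAV : ∀ z, 0 < AV μ v z := fun z => by
    unfold AV
    have := mul_nonneg hβ.le (hsq0 z)
    linarith
  have hdisc : ∀ z ∈ Disc (0, 0) r₁, sq2 z < r₁ ^ 2 := fun z hz => by
    have h1 : (z.1 - 0) ^ 2 + (z.2 - 0) ^ 2 < r₁ ^ 2 := hz
    rw [sub_zero, sub_zero] at h1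
    exact h1
  have habs : ∀ z : ℝ × ℝ, |z.1| ≤ √(sq2 z) ∧ |z.2| ≤ √(sq2 z) := fun z => by
    constructor
    · apply Real.abs_le_sqrt
      unfold sq2
      have := sq_nonneg z.2
      linarith
    · apply Real.abs_le_sqrt
      unfold sq2
      have := sq_nonneg z.1
      linarith
  have hdsq : ∀ z ∈ Disc (0, 0) r₁, z ∈ Sq (0, 0) (1 / 5) := fun z hz => by
    have h1 : √(sq2 z) ≤ r₁ := by
      rw [← Real.sqrt_sq hr₁.le]
      exact Real.sqrt_le_sqrt (hdisc z hz).le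
    obtain ⟨h2, h3⟩ := habs z
    refine ⟨?_, ?_⟩
    · rw [sub_zero]; linarith
    · rw [sub_zero]; linarith
  have hdell : Disc (0, 0) r₁ ⊆ Ell α := fun z hz => by
    have h1 := hdsq z hz
    have h2 : |z.1 - 0| ≤ 1 / 5 := h1.1
    have h3 : |z.2 - 0| ≤ 1 / 5 := h1.2
    rw [sub_zero] at h2 h3
    exact blwg_sub_ell hα hα1 (h2.trans (by norm_num)) (h3.trans (by norm_num))
  have h00 : ((0 : ℝ), (0 : ℝ)) ∈ Ell α :=
    blwg_sub_ell hα hα1 (by rw [abs_zero]; norm_num) (by rw [abs_zero]; norm_num)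
  -- evenness
  have hvx := h.sol.evx hα
  have hvy := h.sol.evy hα
  obtain ⟨vx0, vy0⟩ := blwg_even0 hvx hvy
  have hwx : EvX (wv v) := fun x y => by unfold wv; rw [hvx x y]
  have hwy : EvY (wv v) := fun x y => by unfold wv; rw [hvy x y]
  obtain ⟨wx0, wy0⟩ := blwg_even0 hwx hwy
  have hox : EvX (fun z => wv v z * (φ z - t)) := fun x y => by
    change wv v (-x, y) * (φ (-x, y) - t) = wv v (x, y) * (φ (x, y) - t)
    rw [hwx x y, h.evx x y]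
  have hoy : EvY (fun z => wv v z * (φ z - t)) := fun x y => by
    change wv v (x, -y) * (φ (x, -y) - t) = wv v (x, y) * (φ (x, y) - t)
    rw [hwy x y, h.evy x y]
  obtain ⟨ox0, oy0⟩ := blwg_even0 hox hoy
  have hw0 : wv v (0, 0) = aV v := rfl
  have hlap0 : lap (fun z => wv v z * (φ z - t)) (0, 0) = 4 * (-(bV μ v * (φ (0, 0) - t))) := by
    rw [lap_mul hD (blwg_sm2 hwv) (blwg_sm2 hf) h00]
    have e1 := he _ h00
    have e2 := (w_eqs hD hv h.sol.eq h00).2.2.2.2.1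
    have e3 : lap (fun z => φ z - t) (0, 0) =
        -(μ * Real.exp (v (0, 0)) * (φ (0, 0) - t)) := by linarith
    have e4 : gdot v v (0, 0) = 0 := by unfold gdot; rw [vx0, vy0]; ring
    have e5 : gdot (wv v) (fun z => φ z - t) (0, 0) = 0 := by unfold gdot; rw [wx0, wy0]; ring
    rw [e3, e2, e4, e5, hw0]
    have e6 : aV v * Real.exp (v (0, 0)) = Real.exp (v (0, 0) / 2) := by
      unfold aV
      rw [← Real.exp_add]
      congr 1
      ring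
    unfold bV
    linear_combination (-(μ * (φ (0, 0) - t)) / 2) * e6
  have hu0 : |wv v (0, 0) * (φ (0, 0) - t)| ≤ aV v := by
    rw [hw0, abs_mul, abs_of_pos ha]
    exact mul_le_of_le_one_right ha.le (hf1 _)
  have hb : |-(bV μ v * (φ (0, 0) - t))| ≤ bV μ v := by
    rw [abs_neg, abs_mul, abs_of_pos hβ]
    exact mul_le_of_le_one_right hβ.le (hf1 _)
  have hmain := hray r₁ (aV v) (bV μ v) (-(bV μ v * (φ (0, 0) - t)))
    (fun z => wv v z * (φ z - t)) hr₁ ha hβ hu0 hb (blwg_sm3 (hω.mono hdell)) ox0 oy0 hlap0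
    (fun z hz => by
      obtain ⟨o1, o2, o3, o4⟩ := o_eqs hD hv hf h.sol.eq he (hdell hz)
      obtain ⟨w1, w2, w3, w4, w5⟩ := hW α μ v hα hα1 h.sol hp z (hdisc z hz).le
      obtain ⟨t1, t2⟩ := hT α μ v hα hα1 h.sol hp z (hdsq z hz)
      obtain ⟨s1, s2⟩ := hS α μ t v φ hα hα1 h hp hf1 z (hdsq z hz)
      obtain ⟨a1, a2⟩ := habs z
      have hAz : aV v + bV μ v * sq2 z = AV μ v z := rfl
      rw [o1, o2, o3, o4, hAz]
      exact blwg_hyp t1 t2 s1 s2 hCt hCs hCw (hAV z) hβ (Real.exp_pos _).le w3 a1 a2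
        (Real.sqrt_nonneg _) w4 w5)
    q (by
      change (q.1 - 0) ^ 2 + (q.2 - 0) ^ 2 < r₁ ^ 2
      rw [sub_zero, sub_zero]
      refine lt_of_le_of_lt hq ?_
      exact pow_lt_pow_left₀ hr₂1 hr₂.le two_ne_zero)
    (lt_of_le_of_lt hq (pow_lt_pow_left₀ hr₂0 hr₂.le two_ne_zero))
  obtain ⟨w1, w2, -, -, -⟩ := hW α μ v hα hα1 h.sol hp q
    (hq.trans (pow_le_pow_left₀ hr₂.le hr₂1.le 2))
  have hm1 : (wv v (0, 0) * (φ (0, 0) - t) + -(bV μ v * (φ (0, 0) - t)) * sq2 q) =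
      (φ (0, 0) - t) * (aV v - bV μ v * sq2 q) := by rw [hw0]; ring
  have hm2 := hmain.1
  rw [hm1] at hm2
  refine blwg_final (hAV q) w2 rfl hm2 w1 ?_ (hf1 _) hC' hCw (hsq0 q)
  unfold AV
  have h8 := mul_nonneg hβ.le (hsq0 q)
  rw [abs_le]
  constructor <;> linarith

end Pool.Agent.MFE
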