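import Pool.Agent.MFE.WMP

/-!
# MFE.KPOL: polynomial solutions of the Dirichlet problem on the ellipse

`pol_solve`: on polynomials `r` put `T r = -lap (wE · r)`, i.e. with `W = 1 - C(α²) X₀² - X₁²`,
`T r = -(pderiv 0 (pderiv 0 (W r)) + pderiv 1 (pderiv 1 (W r)))`: a linear map which does not
increase the total degree. It is injective: if `T r = 0` then `wE · ev r` is harmonic in `Ell α`
(`wmp_bdd` for it and its negative: zero boundary values) so it vanishes on `Ell α`, hence
`ev r = 0` on `Ell α`, a neighbourhood of `0`, and `r = 0` (a polynomial which vanishes on an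
open set: `MvPolynomial.funext_set` or one variable at a time). The space of polynomials of total
degree at most `m` (`MvPolynomial.restrictTotalDegree`) is finite dimensional, so `T` is
surjective on it (`LinearMap.injective_iff_surjective`).

`pol_dense`: Stone-Weierstrass on the compact set `CEll α`
(`ContinuousMap.exists_mem_subalgebra_near_continuous_of_separatesPoints` or similar) for the
subalgebra of restrictions of the functions `ev r`.
-/

open scoped ContDiff

namespace Pool.Agent.MFE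

/-- evaluation of a polynomial in two variables -/
noncomputable def ev (r : MvPolynomial (Fin 2) ℝ) (q : ℝ × ℝ) : ℝ :=
  MvPolynomial.eval ![q.1, q.2] r

theorem ev_smooth (r : MvPolynomial (Fin 2) ℝ) : ContDiff ℝ ∞ (ev r) := by
  induction r using MvPolynomial.induction_on with
  | C a =>
    have : ev (MvPolynomial.C a) = fun _ => a := by
      funext q
      simp [ev]
    rw [this]
    exact contDiff_const
  | add p q hp hq =>
    have : ev (p + q) = fun z => ev p z + ev q z := by
      funext z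
      simp [ev]
    rw [this]
    exact hp.add hq
  | mul_X p i hp =>
    have : ev (p * MvPolynomial.X i) = fun z => ev p z * (![z.1, z.2] : Fin 2 → ℝ) i := by
      funext z
      simp [ev]
    rw [this]
    refine hp.mul ?_
    fin_cases i
    · exact contDiff_fst
    · exact contDiff_snd

private theorem ev_diff (r : MvPolynomial (Fin 2) ℝ) (q : ℝ × ℝ) : DifferentiableAt ℝ (ev r) q :=
  ((ev_smooth r).differentiable (by simp)).differentiableAt

theorem isOpen_ell (α : ℝ) : IsOpen (Ell α) :=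
  isOpen_lt (by fun_prop) continuous_const

private theorem isClosed_cell (α : ℝ) : IsClosed (CEll α) :=
  isClosed_le (by fun_prop) continuous_const

private theorem ell_sub (α : ℝ) : Ell α ⊆ CEll α := by
  intro q hq
  have h : α ^ 2 * q.1 ^ 2 + q.2 ^ 2 < 1 := hq
  exact (show α ^ 2 * q.1 ^ 2 + q.2 ^ 2 ≤ 1 from h.le)

theorem isCompact_cell {α : ℝ} (hα : 0 < α) : IsCompact (CEll α) := by
  refine Metric.isCompact_of_isClosed_isBounded (isClosed_cell α) ?_
  refine (Metric.isBounded_closedBall (x := ((0 : ℝ), (0 : ℝ))) (r := 1 / α + 1)).subset ?_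
  rintro ⟨x, y⟩ hq
  have hq' : α ^ 2 * x ^ 2 + y ^ 2 ≤ 1 := hq
  rw [mem_closedBall_iff_norm, Prod.mk_sub_mk, sub_zero, sub_zero, Prod.norm_def,
    Real.norm_eq_abs, Real.norm_eq_abs]
  have h1 : |x| ≤ 1 / α := by
    rw [le_div_iff₀ hα]
    have h : |x * α| ≤ 1 := by
      refine abs_le_of_sq_le_sq ?_ zero_le_one
      nlinarith [sq_nonneg y]
    rwa [abs_mul, abs_of_pos hα] at h
  have h2 : |y| ≤ 1 := by
    refine abs_le_of_sq_le_sq ?_ zero_le_one
    nlinarith [sq_nonneg (α * x)]
  have h3 : 0 < 1 / α := by positivity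
  exact max_le (by linarith) (by linarith)

theorem closure_ell {α : ℝ} (hα : 0 < α) : closure (Ell α) = CEll α := by
  refine Set.Subset.antisymm (closure_minimal (ell_sub α) (isClosed_cell α)) ?_
  rintro ⟨x, y⟩ hq
  have hq' : α ^ 2 * x ^ 2 + y ^ 2 ≤ 1 := hq
  have hc : Filter.Tendsto (fun s : ℝ => (s * x, s * y)) (nhdsWithin 1 (Set.Iio 1))
      (nhds (x, y)) := by
    have : Continuous (fun s : ℝ => (s * x, s * y)) := by fun_prop
    have h := (this.tendsto 1).mono_left (nhdsWithin_le_nhds (s := Set.Iio 1))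
    simpa using h
  refine mem_closure_of_tendsto hc ?_
  have h1 : ∀ᶠ s : ℝ in nhdsWithin 1 (Set.Iio 1), 0 < s :=
    nhdsWithin_le_nhds (lt_mem_nhds one_pos)
  filter_upwards [h1, self_mem_nhdsWithin] with s hs0 hs1
  have hs1' : s < 1 := hs1
  show α ^ 2 * (s * x) ^ 2 + (s * y) ^ 2 < 1
  have e : α ^ 2 * (s * x) ^ 2 + (s * y) ^ 2 = s ^ 2 * (α ^ 2 * x ^ 2 + y ^ 2) := by ring
  rw [e]
  have h2 : s ^ 2 < 1 := by nlinarith
  have h3 : 0 ≤ α ^ 2 * x ^ 2 + y ^ 2 := by positivity
  nlinarith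

open MvPolynomial in
private theorem td_pderiv (i : Fin 2) (p : MvPolynomial (Fin 2) ℝ) :
    (pderiv i p).totalDegree ≤ p.totalDegree - 1 := by
  have h1 : pderiv i p = ∑ s ∈ p.support, monomial (s - Finsupp.single i 1) (coeff s p * s i) := by
    conv_lhs => rw [p.as_sum]
    rw [map_sum]
    exact Finset.sum_congr rfl fun s _ => pderiv_monomial
  rw [h1]
  refine (totalDegree_finsetSum _ _).trans (Finset.sup_le fun s hs => ?_)
  by_cases h : s i = 0
  · simp [h]
  · refine (totalDegree_monomial_le _ _).trans ?_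
    have h2 : s.sum (fun _ e => e) ≤ p.totalDegree := le_totalDegree hs
    have h3 : s = (s - Finsupp.single i 1) + Finsupp.single i 1 := by
      rw [tsub_add_cancel_of_le]
      rw [Finsupp.single_le_iff]
      exact Nat.one_le_iff_ne_zero.2 h
    have h4 : s.sum (fun _ e => e) = (s - Finsupp.single i 1).sum (fun _ e => e) + 1 := by
      conv_lhs => rw [h3]
      rw [Finsupp.sum_add_index' (fun _ => rfl) (fun _ _ _ => rfl),
        Finsupp.sum_single_index rfl]
    show (s - Finsupp.single i 1).sum (fun _ e => e) ≤ p.totalDegree - 1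
    omega

open MvPolynomial in
private theorem dx_ev (r : MvPolynomial (Fin 2) ℝ) (q : ℝ × ℝ) : dx (ev r) q = ev (pderiv 0 r) q := by
  induction r using MvPolynomial.induction_on with
  | C a =>
    have : ev (C a) = fun _ => a := by
      funext q
      simp [ev]
    rw [this]
    simp [dx, ev]
  | add p p' hp hq =>
    have : ev (p + p') = fun z => ev p z + ev p' z := by
      funext z
      simp [ev]
    rw [this, dx_add (ev_diff _ _) (ev_diff _ _), hp, hq]
    simp [ev]
  | mul_X p i hp =>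
    have : ev (p * X i) = fun z => ev p z * ev (X i) z := by
      funext z
      simp [ev]
    rw [this, dx_mul (ev_diff _ _) (ev_diff _ _), hp]
    have hfst : fderiv ℝ (fun z : ℝ × ℝ => z.1) q = ContinuousLinearMap.fst ℝ ℝ ℝ := fderiv_fst
    have hsnd : fderiv ℝ (fun z : ℝ × ℝ => z.2) q = ContinuousLinearMap.snd ℝ ℝ ℝ := fderiv_snd
    have h1 : dx (ev (X i)) q = ev (pderiv 0 (X i)) q := by
      fin_cases i
      · have : ev (X ((fun i => i) (⟨0, by omega⟩ : Fin 2))) = fun z : ℝ × ℝ => z.1 := by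
          funext z
          simp [ev]
        rw [this]
        simp [ev, dx, hfst]
      · have : ev (X ((fun i => i) (⟨1, by omega⟩ : Fin 2))) = fun z : ℝ × ℝ => z.2 := by
          funext z
          simp [ev]
        rw [this]
        simp [ev, dx, pderiv_X, hsnd]
    rw [h1, pderiv_mul]
    simp only [ev, map_add, map_mul]

open MvPolynomial in
private theorem dy_ev (r : MvPolynomial (Fin 2) ℝ) (q : ℝ × ℝ) : dy (ev r) q = ev (pderiv 1 r) q := by
  induction r using MvPolynomial.induction_on with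
  | C a =>
    have : ev (C a) = fun _ => a := by
      funext q
      simp [ev]
    rw [this]
    simp [dy, ev]
  | add p p' hp hq =>
    have : ev (p + p') = fun z => ev p z + ev p' z := by
      funext z
      simp [ev]
    rw [this, dy_add (ev_diff _ _) (ev_diff _ _), hp, hq]
    simp [ev]
  | mul_X p i hp =>
    have : ev (p * X i) = fun z => ev p z * ev (X i) z := by
      funext z
      simp [ev]
    rw [this, dy_mul (ev_diff _ _) (ev_diff _ _), hp]
    have hfst : fderiv ℝ (fun z : ℝ × ℝ => z.1) q = ContinuousLinearMap.fst ℝ ℝ ℝ := fderiv_fst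
    have hsnd : fderiv ℝ (fun z : ℝ × ℝ => z.2) q = ContinuousLinearMap.snd ℝ ℝ ℝ := fderiv_snd
    have h1 : dy (ev (X i)) q = ev (pderiv 1 (X i)) q := by
      fin_cases i
      · have : ev (X ((fun i => i) (⟨0, by omega⟩ : Fin 2))) = fun z : ℝ × ℝ => z.1 := by
          funext z
          simp [ev]
        rw [this]
        simp [ev, dy, pderiv_X, hfst]
      · have : ev (X ((fun i => i) (⟨1, by omega⟩ : Fin 2))) = fun z : ℝ × ℝ => z.2 := by
          funext z
          simp [ev]
        rw [this]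
        simp [ev, dy, hsnd]
    rw [h1, pderiv_mul]
    simp only [ev, map_add, map_mul]

open MvPolynomial in
private theorem lap_ev (r : MvPolynomial (Fin 2) ℝ) (q : ℝ × ℝ) :
    lap (ev r) q = ev (pderiv 0 (pderiv 0 r) + pderiv 1 (pderiv 1 r)) q := by
  have h1 : dx (ev r) = ev (pderiv 0 r) := funext (dx_ev r)
  have h2 : dy (ev r) = ev (pderiv 1 r) := funext (dy_ev r)
  rw [lap, h1, h2, dx_ev, dy_ev]
  simp [ev]

open MvPolynomial in
/-- the polynomial `wE` -/
private noncomputable def Wp (α : ℝ) : MvPolynomial (Fin 2) ℝ := 1 - C (α ^ 2) * X 0 ^ 2 - X 1 ^ 2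

open MvPolynomial in
private theorem ev_W (α : ℝ) (r : MvPolynomial (Fin 2) ℝ) :
    ev (Wp α * r) = fun z => wE α z * ev r z := by
  funext z
  simp [ev, Wp, wE]

open MvPolynomial in
private theorem td_W (α : ℝ) : (Wp α).totalDegree ≤ 2 := by
  unfold Wp
  refine (totalDegree_sub _ _).trans (max_le ((totalDegree_sub _ _).trans (max_le ?_ ?_)) ?_)
  · simp
  · refine (totalDegree_mul _ _).trans ?_
    rw [totalDegree_C, totalDegree_X_pow]
  · rw [totalDegree_X_pow]

open MvPolynomial in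
/-- the map `T` -/
private noncomputable def Tp (α : ℝ) : MvPolynomial (Fin 2) ℝ →ₗ[ℝ] MvPolynomial (Fin 2) ℝ where
  toFun r := -(pderiv 0 (pderiv 0 (Wp α * r)) + pderiv 1 (pderiv 1 (Wp α * r)))
  map_add' r s := by
    rw [mul_add]
    simp only [map_add]
    ring
  map_smul' c r := by
    rw [mul_smul_comm]
    simp only [Derivation.map_smul, RingHom.id_apply, smul_neg, smul_add]

open MvPolynomial in
private theorem Tp_apply (α : ℝ) (r : MvPolynomial (Fin 2) ℝ) :
    Tp α r = -(pderiv 0 (pderiv 0 (Wp α * r)) + pderiv 1 (pderiv 1 (Wp α * r))) := rfl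

private theorem ev_Tp (α : ℝ) (r : MvPolynomial (Fin 2) ℝ) (q : ℝ × ℝ) :
    ev (Tp α r) q = -lap (fun z => wE α z * ev r z) q := by
  rw [← ev_W, lap_ev, Tp_apply]
  simp only [ev, map_neg, map_add]

open MvPolynomial in
private theorem Tp_td (α : ℝ) (m : ℕ) (r : MvPolynomial (Fin 2) ℝ) (hr : r.totalDegree ≤ m) :
    (Tp α r).totalDegree ≤ m := by
  have h0 : (Wp α * r).totalDegree ≤ 2 + m :=
    (totalDegree_mul _ _).trans (add_le_add (td_W α) hr)
  rw [Tp_apply, totalDegree_neg]
  refine (totalDegree_add _ _).trans (max_le ?_ ?_)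
  · have h1 := td_pderiv 0 (pderiv 0 (Wp α * r))
    have h2 := td_pderiv 0 (Wp α * r)
    omega
  · have h1 := td_pderiv 1 (pderiv 1 (Wp α * r))
    have h2 := td_pderiv 1 (Wp α * r)
    omega

private theorem zero_of_ell {α : ℝ} (hα : 0 < α) {r : MvPolynomial (Fin 2) ℝ}
    (h : ∀ q ∈ Ell α, ev r q = 0) : r = 0 := by
  set δ : ℝ := 1 / (2 + 2 * α) with hδ
  have hδ0 : 0 < δ := by positivity
  have h1 : α * δ < 1 / 2 := by
    rw [hδ, mul_one_div, div_lt_div_iff₀ (by positivity) (by norm_num)]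
    linarith
  have h2 : δ < 1 / 2 := by
    rw [hδ, div_lt_div_iff₀ (by positivity) (by norm_num)]
    linarith
  refine MvPolynomial.funext_set (fun _ => Set.Ioo 0 δ) (fun _ => Set.Ioo_infinite hδ0) ?_
  intro x hx
  have hx0 := hx 0 (Set.mem_univ _)
  have hx1 := hx 1 (Set.mem_univ _)
  have hx' : x = ![x 0, x 1] := by
    funext i
    fin_cases i <;> rfl
  rw [map_zero, hx']
  refine h (x 0, x 1) ?_
  show α ^ 2 * (x 0) ^ 2 + (x 1) ^ 2 < 1
  have h3 : α * x 0 < 1 / 2 := by nlinarith [hx0.1, hx0.2]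
  have h4 : 0 ≤ α * x 0 := mul_nonneg hα.le hx0.1.le
  have h5 : x 1 < 1 / 2 := by linarith [hx1.2]
  have h6 := hx1.1
  have e : α ^ 2 * (x 0) ^ 2 = (α * x 0) ^ 2 := by ring
  rw [e]
  nlinarith

private theorem Tp_inj {α : ℝ} (hα : 0 < α) {r : MvPolynomial (Fin 2) ℝ} (h : Tp α r = 0) :
    r = 0 := by
  have hlap : ∀ q, lap (fun z => wE α z * ev r z) q = 0 := by
    intro q
    have h1 := ev_Tp α r q
    rw [h] at h1
    simp only [ev, map_zero] at h1
    simp only [ev]
    linarith
  have hsm : ContDiff ℝ ∞ (fun z => wE α z * ev r z) := by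
    rw [← ev_W]
    exact ev_smooth _
  have hsm2 : ContDiff ℝ 2 (fun z => wE α z * ev r z) := by
    exact_mod_cast contDiff_infty.1 hsm 2
  have hopen := isOpen_ell α
  have hbd : Bornology.IsBounded (Ell α) :=
    (isCompact_cell hα).isBounded.subset (ell_sub α)
  have hfr : ∀ q ∈ frontier (Ell α), wE α q = 0 := by
    intro q hq
    rw [hopen.frontier_eq, closure_ell hα] at hq
    have h1 : α ^ 2 * q.1 ^ 2 + q.2 ^ 2 ≤ 1 := hq.1
    have h2 : ¬ α ^ 2 * q.1 ^ 2 + q.2 ^ 2 < 1 := hq.2
    rw [wE]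
    linarith [not_lt.1 h2]
  have hlap0 : ∀ q, lap (fun _ : ℝ × ℝ => (0 : ℝ)) q = 0 := by
    intro q
    have h1 : dx (fun _ : ℝ × ℝ => (0 : ℝ)) = fun _ => 0 := by
      funext z
      simp [dx]
    have h2 : dy (fun _ : ℝ × ℝ => (0 : ℝ)) = fun _ => 0 := by
      funext z
      simp [dy]
    rw [lap, h1, h2]
    simp [dx, dy]
  have hle : ∀ q ∈ closure (Ell α), wE α q * ev r q ≤ 0 := by
    refine wmp_bdd (b := fun _ => 0) hopen hbd hsm2.contDiffOn
      contDiffOn_const hsm.continuous.continuousOn continuousOn_const ?_ ?_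
    · intro q _
      rw [hlap, hlap0]
    · intro q hq
      rw [hfr q hq, zero_mul]
  have hge : ∀ q ∈ closure (Ell α), 0 ≤ wE α q * ev r q := by
    refine wmp_bdd (u := fun _ => 0) hopen hbd contDiffOn_const
      hsm2.contDiffOn
      continuousOn_const hsm.continuous.continuousOn ?_ ?_
    · intro q _
      rw [hlap, hlap0]
    · intro q hq
      rw [hfr q hq, zero_mul]
  refine zero_of_ell hα fun q hq => ?_
  have h1 := hle q (subset_closure hq)
  have h2 := hge q (subset_closure hq)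
  have h3 : 0 < wE α q := by
    have : α ^ 2 * q.1 ^ 2 + q.2 ^ 2 < 1 := hq
    rw [wE]
    linarith
  have h4 : wE α q * ev r q = 0 := le_antisymm h1 h2
  exact (mul_eq_zero.1 h4).resolve_left h3.ne'

theorem pol_solve {α : ℝ} (hα : 0 < α) (p : MvPolynomial (Fin 2) ℝ) :
    ∃ r : MvPolynomial (Fin 2) ℝ, ∀ q, -lap (fun z => wE α z * ev r z) q = ev p q := by
  set m := p.totalDegree with hm
  set U := MvPolynomial.restrictTotalDegree (Fin 2) ℝ m with hU
  have hmap : ∀ r ∈ U, Tp α r ∈ U := by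
    intro r hr
    rw [hU, MvPolynomial.mem_restrictTotalDegree] at hr ⊢
    exact Tp_td α m r hr
  have hinj : Function.Injective ((Tp α).restrict hmap) := by
    rw [← LinearMap.ker_eq_bot, LinearMap.ker_eq_bot']
    rintro ⟨r, hr⟩ h0
    have h1 : Tp α r = 0 := congrArg Subtype.val h0
    exact Subtype.ext (Tp_inj hα h1)
  have hsurj := LinearMap.injective_iff_surjective.1 hinj
  obtain ⟨⟨r, hr⟩, hr2⟩ := hsurj ⟨p, by
    rw [hU, MvPolynomial.mem_restrictTotalDegree]⟩
  refine ⟨r, fun q => ?_⟩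
  have h1 : Tp α r = p := congrArg Subtype.val hr2
  rw [← ev_Tp, h1]

theorem pol_dense {α : ℝ} (hα : 0 < α) {f : ℝ × ℝ → ℝ} (hf : ContinuousOn f (CEll α))
    {ε : ℝ} (hε : 0 < ε) : ∃ p : MvPolynomial (Fin 2) ℝ, ∀ q ∈ CEll α, |f q - ev p q| < ε := by
  have : CompactSpace (CEll α) := isCompact_iff_compactSpace.1 (isCompact_cell hα)
  let c0 : C(CEll α, ℝ) := ⟨fun q => (q : ℝ × ℝ).1, by fun_prop⟩
  let c1 : C(CEll α, ℝ) := ⟨fun q => (q : ℝ × ℝ).2, by fun_prop⟩
  let Φ : MvPolynomial (Fin 2) ℝ →ₐ[ℝ] C(CEll α, ℝ) := MvPolynomial.aeval ![c0, c1]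
  have hΦ : ∀ (p : MvPolynomial (Fin 2) ℝ) (q : CEll α), Φ p q = ev p q := by
    intro p q
    induction p using MvPolynomial.induction_on with
    | C a => simp [Φ, ev]
    | add p p' hp hp' =>
      have : ev (p + p') q = ev p q + ev p' q := by simp [ev]
      rw [this, map_add, ContinuousMap.add_apply, hp, hp']
    | mul_X p i hp =>
      have : ev (p * MvPolynomial.X i) q = ev p q * ev (MvPolynomial.X i) q := by simp [ev]
      rw [this, map_mul, ContinuousMap.mul_apply, hp]
      congr 1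
      fin_cases i
      · simp [Φ, ev, c0]
      · simp [Φ, ev, c1]
  have hsep : Φ.range.SeparatesPoints := by
    intro q q' hne
    by_cases h1 : (q : ℝ × ℝ).1 = (q' : ℝ × ℝ).1
    · refine ⟨_, ⟨Φ (MvPolynomial.X 1), ⟨_, rfl⟩, rfl⟩, ?_⟩
      show Φ (MvPolynomial.X 1) q ≠ Φ (MvPolynomial.X 1) q'
      rw [hΦ, hΦ]
      intro h2
      simp [ev] at h2
      exact hne (Subtype.ext (Prod.ext h1 h2))
    · refine ⟨_, ⟨Φ (MvPolynomial.X 0), ⟨_, rfl⟩, rfl⟩, ?_⟩
      show Φ (MvPolynomial.X 0) q ≠ Φ (MvPolynomial.X 0) q'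
      rw [hΦ, hΦ]
      intro h2
      simp [ev] at h2
      exact h1 h2
  obtain ⟨⟨g, ⟨p, hp⟩⟩, hg⟩ :=
    ContinuousMap.exists_mem_subalgebra_near_continuous_of_separatesPoints Φ.range hsep
      (fun q : CEll α => f q) (continuousOn_iff_continuous_domRestrict.1 hf) ε hε
  refine ⟨p, fun q hq => ?_⟩
  have h1 := hg ⟨q, hq⟩
  have h2 : g ⟨q, hq⟩ = ev p q := by
    rw [← hp]
    exact hΦ p ⟨q, hq⟩
  have h3 : ‖g ⟨q, hq⟩ - f q‖ < ε := h1
  rw [h2, Real.norm_eq_abs, abs_sub_comm] at h3
  exact h3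

end Pool.Agent.MFE
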