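import Pool.Agent.MFE.WMP
import Pool.Agent.MFE.KPOL

/-!
# MFE.BLWH: nearly harmonic functions are small away from a singularity

`GS` is (a multiple of) the Green function of the strip `|y| < 1` with pole at the origin. With
`k = π/2`, `D₊ = cosh kx + cos ky`, `D₋ = cosh kx - cos ky`: `D lap D = |∇D|²` for both
(`lap D₊ = k²(X - γ)`, `|∇D₊|² = k²(X²-γ²)`, `lap D₋ = k²(X+γ)`, `|∇D₋|² = k²(X²-γ²)`; `X = cosh kx`,
`γ = cos ky`), so `log D₊`, `log D₋` are harmonic where positive, `GS = log D₊ - log D₋`. On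
`|y| ≤ 1`: `γ ≥ 0`, `D₊ ≥ D₋`, `GS ≥ 0`. Near the origin `D₊ ≥ 1`, `D₋ → 0`. Off `Sq 0 ρ`:
`D₋ ≥ c(ρ) (cosh kx + 1)`-type bound, so `GS ≤ C(ρ)`.

`near_harm`: let `m(δ)` be a lower bound of `GS` on the boundary of `Sq 0 δ` (`gs_large`), choose `δ`
with `M GS/m(δ) ≤ ε/2` off `Sq 0 ρ` (`gs_off`) and `η = ε/2`. On `Ell α \ Sq 0 δ` compare `±u` with
`M GS/m(δ) + η (2 - y²)/2` (`-lap = η`): on the boundary of the square it is `≥ M`, on the boundary
of the ellipse `≥ 0`. `wmp_bdd`.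
-/

open scoped ContDiff

namespace Pool.Agent.MFE

noncomputable def GS (q : ℝ × ℝ) : ℝ :=
  Real.log ((Real.cosh (Real.pi / 2 * q.1) + Real.cos (Real.pi / 2 * q.2)) /
    (Real.cosh (Real.pi / 2 * q.1) - Real.cos (Real.pi / 2 * q.2)))

/-- `cosh (πx/2) + s cos (πy/2)` -/
private noncomputable def BLWH_f (s : ℝ) (q : ℝ × ℝ) : ℝ :=
  Real.cosh (Real.pi / 2 * q.1) + s * Real.cos (Real.pi / 2 * q.2)

private theorem BLWH_GS (q : ℝ × ℝ) : GS q = Real.log (BLWH_f 1 q / BLWH_f (-1) q) := by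
  rw [GS, BLWH_f, BLWH_f, one_mul, neg_one_mul, sub_eq_add_neg]

private theorem BLWH_f_smooth (s : ℝ) : ContDiff ℝ ∞ (BLWH_f s) := by
  unfold BLWH_f
  have h1 : ContDiff ℝ ∞ (fun q : ℝ × ℝ => Real.cosh (Real.pi / 2 * q.1)) :=
    Real.contDiff_cosh.comp (contDiff_const.mul contDiff_fst)
  have h2 : ContDiff ℝ ∞ (fun q : ℝ × ℝ => Real.cos (Real.pi / 2 * q.2)) :=
    Real.contDiff_cos.comp (contDiff_const.mul contDiff_snd)
  exact h1.add (contDiff_const.mul h2)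

private theorem BLWH_cos_nonneg {y : ℝ} (hy : |y| ≤ 1) : 0 ≤ Real.cos (Real.pi / 2 * y) := by
  have hpi := Real.pi_pos
  have h := abs_le.1 hy
  refine Real.cos_nonneg_of_mem_Icc ⟨?_, ?_⟩
  · nlinarith [h.1]
  · nlinarith [h.2]

private theorem BLWH_fp {q : ℝ × ℝ} (hq : |q.2| ≤ 1) : 1 ≤ BLWH_f 1 q := by
  have h1 := Real.one_le_cosh (Real.pi / 2 * q.1)
  have h2 := BLWH_cos_nonneg hq
  rw [BLWH_f]
  linarith

private theorem BLWH_fm {q : ℝ × ℝ} (hq : |q.2| ≤ 1) (h0 : q ≠ (0, 0)) : 0 < BLWH_f (-1) q := by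
  have hpi := Real.pi_pos
  rw [BLWH_f]
  by_cases hx : q.1 = 0
  · have hy : q.2 ≠ 0 := fun hy => h0 (Prod.ext hx hy)
    have h1 : Real.cos (Real.pi / 2 * |q.2|) < Real.cos 0 := by
      refine Real.cos_lt_cos_of_nonneg_of_le_pi_div_two le_rfl ?_ ?_
      · nlinarith
      · have := abs_pos.2 hy
        positivity
    have h2 : Real.cos (Real.pi / 2 * |q.2|) = Real.cos (Real.pi / 2 * q.2) := by
      rw [← Real.cos_abs (Real.pi / 2 * q.2), abs_mul, abs_of_pos (by positivity : 0 < Real.pi / 2)]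
    rw [h2, Real.cos_zero] at h1
    have h3 := Real.one_le_cosh (Real.pi / 2 * q.1)
    linarith
  · have h1 : 1 < Real.cosh (Real.pi / 2 * q.1) :=
      Real.one_lt_cosh.2 (mul_ne_zero (by positivity) hx)
    have h2 := Real.cos_le_one (Real.pi / 2 * q.2)
    linarith

private theorem BLWH_open : IsOpen (Str 1 \ {((0 : ℝ), (0 : ℝ))}) := by
  have h : IsOpen (Str 1) := isOpen_lt (by fun_prop) continuous_const
  exact h.sdiff isClosed_singleton

theorem gs_smooth : ContDiffOn ℝ ∞ GS (Str 1 \ {(0, 0)}) := by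
  have e : GS = fun q => Real.log (BLWH_f 1 q / BLWH_f (-1) q) := funext BLWH_GS
  rw [e]
  have hm : ∀ q ∈ Str 1 \ {((0 : ℝ), (0 : ℝ))}, 0 < BLWH_f (-1) q := fun q hq =>
    BLWH_fm (le_of_lt hq.1) hq.2
  have hp : ∀ q ∈ Str 1 \ {((0 : ℝ), (0 : ℝ))}, 0 < BLWH_f 1 q := fun q hq =>
    one_pos.trans_le (BLWH_fp (le_of_lt hq.1))
  refine ContDiffOn.log ?_ fun q hq => (div_pos (hp q hq) (hm q hq)).ne'
  exact (BLWH_f_smooth 1).contDiffOn.div (BLWH_f_smooth (-1)).contDiffOn fun q hq => (hm q hq).ne'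

private theorem BLWH_lap_f (s : ℝ) (q : ℝ × ℝ) : lap (BLWH_f s) q
    = (Real.pi / 2) ^ 2 * BLWH_f (-s) q := by
  have hc : ContDiff ℝ 2 (fun x : ℝ => Real.cosh (Real.pi / 2 * x)) :=
    Real.contDiff_cosh.comp (contDiff_const.mul contDiff_id)
  have hd : ContDiff ℝ 2 (fun x : ℝ => s * Real.cos (Real.pi / 2 * x)) :=
    contDiff_const.mul (Real.contDiff_cos.comp (contDiff_const.mul contDiff_id))
  have h1 := lap_fst (q := q) (fun x : ℝ => Real.cosh (Real.pi / 2 * x)) hc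
  have h2 := lap_snd (q := q) (fun x : ℝ => s * Real.cos (Real.pi / 2 * x)) hd
  have h3 := lap_add (q := q) isOpen_univ (f := fun z : ℝ × ℝ => Real.cosh (Real.pi / 2 * z.1))
    (g := fun z : ℝ × ℝ => s * Real.cos (Real.pi / 2 * z.2))
    (hc.comp contDiff_fst).contDiffOn (hd.comp contDiff_snd).contDiffOn (Set.mem_univ q)
  have e1 : deriv (fun x : ℝ => Real.cosh (Real.pi / 2 * x))
      = fun x => Real.pi / 2 * Real.sinh (Real.pi / 2 * x) := by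
    funext x
    have h := ((hasDerivAt_id x).const_mul (Real.pi / 2)).cosh
    have h' : HasDerivAt (fun x : ℝ => Real.cosh (Real.pi / 2 * x))
      (Real.sinh (Real.pi / 2 * x) * (Real.pi / 2 * 1)) x := h
    rw [h'.deriv]
    ring
  have e2 : deriv (fun x : ℝ => Real.pi / 2 * Real.sinh (Real.pi / 2 * x)) q.1
      = (Real.pi / 2) ^ 2 * Real.cosh (Real.pi / 2 * q.1) := by
    have h := (((hasDerivAt_id q.1).const_mul (Real.pi / 2)).sinh).const_mul (Real.pi / 2)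
    have h' : HasDerivAt (fun x : ℝ => Real.pi / 2 * Real.sinh (Real.pi / 2 * x))
      (Real.pi / 2 * (Real.cosh (Real.pi / 2 * q.1) * (Real.pi / 2 * 1))) q.1 := h
    rw [h'.deriv]
    ring
  have e3 : deriv (fun x : ℝ => s * Real.cos (Real.pi / 2 * x))
      = fun x => s * (-Real.sin (Real.pi / 2 * x) * (Real.pi / 2)) := by
    funext x
    have h := (((hasDerivAt_id x).const_mul (Real.pi / 2)).cos).const_mul s
    have h' : HasDerivAt (fun x : ℝ => s * Real.cos (Real.pi / 2 * x))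
      (s * (-Real.sin (Real.pi / 2 * x) * (Real.pi / 2 * 1))) x := h
    rw [h'.deriv]
    ring
  have e4 : deriv (fun x : ℝ => s * (-Real.sin (Real.pi / 2 * x) * (Real.pi / 2))) q.2
      = -s * ((Real.pi / 2) ^ 2 * Real.cos (Real.pi / 2 * q.2)) := by
    have h := (((((hasDerivAt_id q.2).const_mul (Real.pi / 2)).sin).neg).mul_const
      (Real.pi / 2)).const_mul s
    have h' : HasDerivAt (fun x : ℝ => s * (-Real.sin (Real.pi / 2 * x) * (Real.pi / 2)))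
      (s * (-(Real.cos (Real.pi / 2 * q.2) * (Real.pi / 2 * 1)) * (Real.pi / 2))) q.2 := h
    rw [h'.deriv]
    ring
  have h4 : lap (BLWH_f s) q = lap (fun z : ℝ × ℝ => Real.cosh (Real.pi / 2 * z.1)
    + s * Real.cos (Real.pi / 2 * z.2)) q := rfl
  rw [h4, h3, h1, h2, e1, e2, e3, e4, BLWH_f]
  ring

private theorem BLWH_gdot_f {s : ℝ} (hs : s ^ 2 = 1) (q : ℝ × ℝ) : gdot (BLWH_f s) (BLWH_f s) q
    = (Real.pi / 2) ^ 2 * (BLWH_f s q * BLWH_f (-s) q) := by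
  have hd : DifferentiableAt ℝ (BLWH_f s) q :=
    ((BLWH_f_smooth s).differentiable (by simp)).differentiableAt
  have h1 : dx (BLWH_f s) q = Real.pi / 2 * Real.sinh (Real.pi / 2 * q.1) := by
    rw [dx_eq_deriv hd]
    have h := (((hasDerivAt_id q.1).const_mul (Real.pi / 2)).cosh).add_const
      (s * Real.cos (Real.pi / 2 * q.2))
    have h' : HasDerivAt (fun x : ℝ => BLWH_f s (x, q.2))
      (Real.sinh (Real.pi / 2 * q.1) * (Real.pi / 2 * 1)) q.1 := h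
    rw [h'.deriv]
    ring
  have h2 : dy (BLWH_f s) q = -(s * (Real.pi / 2) * Real.sin (Real.pi / 2 * q.2)) := by
    rw [dy_eq_deriv hd]
    have h := ((((hasDerivAt_id q.2).const_mul (Real.pi / 2)).cos).const_mul s).const_add
      (Real.cosh (Real.pi / 2 * q.1))
    have h' : HasDerivAt (fun x : ℝ => BLWH_f s (q.1, x))
      (s * (-Real.sin (Real.pi / 2 * q.2) * (Real.pi / 2 * 1))) q.2 := h
    rw [h'.deriv]
    ring
  rw [gdot, h1, h2, BLWH_f, BLWH_f]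
  have h3 := Real.cosh_sq (Real.pi / 2 * q.1)
  have h4 := Real.sin_sq_add_cos_sq (Real.pi / 2 * q.2)
  have h5 : Real.cosh (Real.pi / 2 * q.1) ^ 2 = Real.sinh (Real.pi / 2 * q.1) ^ 2 + 1 := h3
  linear_combination (Real.pi / 2) ^ 2 * s ^ 2 * h4 + (-(Real.pi / 2) ^ 2) * h5
    + (Real.pi / 2) ^ 2 * hs

theorem gs_harm {q : ℝ × ℝ} (hq : q ∈ Str 1) (h0 : q ≠ (0, 0)) : lap GS q = 0 := by
  have hm : ∀ q ∈ Str 1 \ {((0 : ℝ), (0 : ℝ))}, 0 < BLWH_f (-1) q := fun q hq =>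
    BLWH_fm (le_of_lt hq.1) hq.2
  have hp : ∀ q ∈ Str 1 \ {((0 : ℝ), (0 : ℝ))}, 0 < BLWH_f 1 q := fun q hq =>
    one_pos.trans_le (BLWH_fp (le_of_lt hq.1))
  have hD := BLWH_open
  have hqD : q ∈ Str 1 \ {((0 : ℝ), (0 : ℝ))} := ⟨hq, h0⟩
  have c1 : ∀ s, ContDiffOn ℝ 2 (BLWH_f s) (Str 1 \ {((0 : ℝ), (0 : ℝ))}) := fun s =>
    (contDiff_infty.1 (BLWH_f_smooth s) 2).contDiffOn
  have e : lap GS q = lap (fun z => Real.log (BLWH_f 1 z) - Real.log (BLWH_f (-1) z)) q := by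
    refine lap_congr hD (fun z hz => ?_) hqD
    rw [BLWH_GS, Real.log_div (hp z hz).ne' (hm z hz).ne']
  have l1 : ContDiffOn ℝ 2 (fun z => Real.log (BLWH_f 1 z)) (Str 1 \ {((0 : ℝ), (0 : ℝ))}) :=
    (c1 1).log fun z hz => (hp z hz).ne'
  have l2 : ContDiffOn ℝ 2 (fun z => Real.log (BLWH_f (-1) z)) (Str 1 \ {((0 : ℝ), (0 : ℝ))}) :=
    (c1 (-1)).log fun z hz => (hm z hz).ne'
  rw [e, lap_sub hD l1 l2 hqD, lap_log hD (c1 1) hp hqD, lap_log hD (c1 (-1)) hm hqD,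
    BLWH_lap_f, BLWH_lap_f, BLWH_gdot_f (by norm_num), BLWH_gdot_f (by norm_num)]
  ring

theorem gs_cont : ContinuousOn GS ({q : ℝ × ℝ | |q.2| ≤ 1} \ {(0, 0)}) := by
  have e : GS = fun q => Real.log (BLWH_f 1 q / BLWH_f (-1) q) := funext BLWH_GS
  rw [e]
  have hm : ∀ q ∈ {q : ℝ × ℝ | |q.2| ≤ 1} \ {((0 : ℝ), (0 : ℝ))}, 0 < BLWH_f (-1) q :=
    fun q hq => BLWH_fm hq.1 hq.2
  have hp : ∀ q ∈ {q : ℝ × ℝ | |q.2| ≤ 1} \ {((0 : ℝ), (0 : ℝ))}, 0 < BLWH_f 1 q :=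
    fun q hq => one_pos.trans_le (BLWH_fp hq.1)
  refine ContinuousOn.log ?_ fun q hq => (div_pos (hp q hq) (hm q hq)).ne'
  exact (BLWH_f_smooth 1).continuous.continuousOn.div (BLWH_f_smooth (-1)).continuous.continuousOn
    fun q hq => (hm q hq).ne'

theorem gs_nonneg {q : ℝ × ℝ} (hq : |q.2| ≤ 1) : 0 ≤ GS q := by
  by_cases h0 : q = (0, 0)
  · rw [BLWH_GS, h0]
    simp [BLWH_f]
  · rw [BLWH_GS]
    refine Real.log_nonneg ?_
    rw [one_le_div (BLWH_fm hq h0), BLWH_f, BLWH_f]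
    have := BLWH_cos_nonneg hq
    linarith

private theorem BLWH_cosh_mono {x δ : ℝ} (hx : |x| ≤ δ) :
    Real.cosh (Real.pi / 2 * x) ≤ Real.cosh (Real.pi / 2 * δ) := by
  have hpi := Real.pi_pos
  rw [Real.cosh_le_cosh, abs_mul, abs_mul]
  exact mul_le_mul_of_nonneg_left (hx.trans (le_abs_self δ)) (abs_nonneg _)

private theorem BLWH_cos_anti {x y : ℝ} (hxy : |x| ≤ |y|) (hy : |y| ≤ 1) :
    Real.cos (Real.pi / 2 * y) ≤ Real.cos (Real.pi / 2 * x) := by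
  have hpi := Real.pi_pos
  have h2 : ∀ z : ℝ, Real.cos (Real.pi / 2 * |z|) = Real.cos (Real.pi / 2 * z) := fun z => by
    rw [← Real.cos_abs (Real.pi / 2 * z), abs_mul, abs_of_pos (by positivity : 0 < Real.pi / 2)]
  rw [← h2 x, ← h2 y]
  refine Real.cos_le_cos_of_nonneg_of_le_pi (by positivity) ?_ ?_
  · nlinarith
  · exact mul_le_mul_of_nonneg_left hxy (by positivity)

theorem gs_large (M : ℝ) : ∃ δ : ℝ, 0 < δ ∧ δ < 1 ∧ ∀ q : ℝ × ℝ, q ≠ (0, 0) → |q.1| ≤ δ →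
    |q.2| ≤ δ → M ≤ GS q := by
  have hc : Continuous fun δ : ℝ => Real.cosh (Real.pi / 2 * δ) - Real.cos (Real.pi / 2 * δ) := by
    fun_prop
  have h0 : (fun δ : ℝ => Real.cosh (Real.pi / 2 * δ) - Real.cos (Real.pi / 2 * δ)) 0
      < Real.exp (-M) := by
    simp [Real.exp_pos]
  have h1 : ∀ᶠ δ : ℝ in nhdsWithin 0 (Set.Ioi 0),
      Real.cosh (Real.pi / 2 * δ) - Real.cos (Real.pi / 2 * δ) < Real.exp (-M) :=
    nhdsWithin_le_nhds (hc.continuousAt.eventually (gt_mem_nhds h0))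
  have h2 : ∀ᶠ δ : ℝ in nhdsWithin 0 (Set.Ioi 0), δ < 1 :=
    nhdsWithin_le_nhds (gt_mem_nhds one_pos)
  obtain ⟨δ, hδ, hδ1, hδ0⟩ := (h1.and (h2.and self_mem_nhdsWithin)).exists
  have hδ0' : 0 < δ := hδ0
  refine ⟨δ, hδ0', hδ1, fun q hq hx hy => ?_⟩
  have hy1 : |q.2| ≤ 1 := hy.trans hδ1.le
  have hm := BLWH_fm hy1 hq
  have hp := BLWH_fp hy1
  rw [BLWH_GS, Real.le_log_iff_exp_le (div_pos (one_pos.trans_le hp) hm), le_div_iff₀ hm]
  have h3 : BLWH_f (-1) q ≤ Real.exp (-M) := by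
    have h4 := BLWH_cosh_mono hx
    have h5 := BLWH_cos_anti (x := q.2) (y := δ) (hy.trans (le_abs_self δ))
      (by rw [abs_of_pos hδ0']; exact hδ1.le)
    rw [BLWH_f]
    linarith
  have h6 : Real.exp M * BLWH_f (-1) q ≤ Real.exp M * Real.exp (-M) :=
    mul_le_mul_of_nonneg_left h3 (Real.exp_pos M).le
  rw [← Real.exp_add, add_neg_cancel, Real.exp_zero] at h6
  linarith

theorem gs_off {ρ : ℝ} (hρ : 0 < ρ) : ∃ C : ℝ, 0 < C ∧ ∀ q : ℝ × ℝ, |q.2| ≤ 1 →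
    (ρ ≤ |q.1| ∨ ρ ≤ |q.2|) → GS q ≤ C := by
  have hpi := Real.pi_pos
  obtain ⟨r, hr⟩ : ∃ r, r = min ρ 1 := ⟨_, rfl⟩
  have hr0 : 0 < r := by rw [hr]; exact lt_min hρ one_pos
  have hrρ : r ≤ ρ := by rw [hr]; exact min_le_left _ _
  have hr1 : r ≤ 1 := by rw [hr]; exact min_le_right _ _
  obtain ⟨X, hX⟩ : ∃ X, X = Real.cosh (Real.pi / 2 * r) := ⟨_, rfl⟩
  obtain ⟨g, hg⟩ : ∃ g, g = Real.cos (Real.pi / 2 * r) := ⟨_, rfl⟩
  have hX1 : 1 < X := by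
    rw [hX]
    exact Real.one_lt_cosh.2 (by positivity)
  have hg1 : g < 1 := by
    have h := BLWH_fm (q := (0, r)) (by simpa [abs_of_pos hr0] using hr1)
      (by simp [hr0.ne'])
    rw [BLWH_f] at h
    simp only [mul_zero, Real.cosh_zero] at h
    rw [hg]
    linarith
  have hg0 : 0 ≤ g := by
    rw [hg]
    exact BLWH_cos_nonneg (by rw [abs_of_pos hr0]; exact hr1)
  obtain ⟨K, hK⟩ : ∃ K, K = (X + 1) / (X - 1) + (1 + g) / (1 - g) := ⟨_, rfl⟩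
  have hA : (X + 1) / (X - 1) ≤ K := by
    rw [hK]
    have : 0 < (1 + g) / (1 - g) := div_pos (by linarith) (by linarith)
    linarith
  have hB : (1 + g) / (1 - g) ≤ K := by
    rw [hK]
    have : 0 < (X + 1) / (X - 1) := div_pos (by linarith) (by linarith)
    linarith
  have hK1 : 1 < K := by
    refine lt_of_lt_of_le ?_ hA
    rw [one_lt_div (by linarith)]
    linarith
  rw [div_le_iff₀ (by linarith)] at hA hB
  refine ⟨Real.log K, Real.log_pos hK1, fun q hq hor => ?_⟩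
  have h0 : q ≠ (0, 0) := by
    intro h
    rw [h] at hor
    simp only [abs_zero, or_self] at hor
    linarith
  have hm := BLWH_fm hq h0
  have hp := BLWH_fp hq
  rw [BLWH_GS]
  refine Real.log_le_log (div_pos (one_pos.trans_le hp) hm) ?_
  rw [div_le_iff₀ hm, BLWH_f, BLWH_f]
  have h1 := Real.one_le_cosh (Real.pi / 2 * q.1)
  have h2 := Real.cos_le_one (Real.pi / 2 * q.2)
  rcases hor with hx | hy
  · have h3 : X ≤ Real.cosh (Real.pi / 2 * q.1) := by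
      rw [hX, Real.cosh_le_cosh, abs_mul, abs_mul, abs_of_pos hr0]
      exact mul_le_mul_of_nonneg_left (hrρ.trans hx) (abs_nonneg _)
    nlinarith
  · have h3 : Real.cos (Real.pi / 2 * q.2) ≤ g := by
      rw [hg]
      exact BLWH_cos_anti (by rw [abs_of_pos hr0]; exact hrρ.trans hy) hq
    nlinarith

private theorem BLWH_lap_b (η : ℝ) (q : ℝ × ℝ) :
    lap (fun z : ℝ × ℝ => η * (2 - z.2 ^ 2) / 2) q = -η := by
  have hd : deriv (fun y : ℝ => η * (2 - y ^ 2) / 2) = fun y => -(η * y) := by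
    funext y
    have h := (((hasDerivAt_pow 2 y).const_sub 2).const_mul η).div_const 2
    have h' : HasDerivAt (fun y : ℝ => η * (2 - y ^ 2) / 2) _ y := h
    rw [h'.deriv]
    simp
    ring
  have h1 : ContDiff ℝ 2 (fun y : ℝ => η * (2 - y ^ 2) / 2) := by fun_prop
  rw [lap_snd (fun y : ℝ => η * (2 - y ^ 2) / 2) h1, hd]
  have h2 := ((hasDerivAt_id q.2).const_mul η).neg
  have h3 : HasDerivAt (fun y : ℝ => -(η * y)) (-(η * 1)) q.2 := h2
  rw [h3.deriv]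
  ring

private theorem BLWH_cmp {α δ η M M' s : ℝ} (hα : 0 < α) (hδ0 : 0 < δ)
    (hη : 0 < η) (hM : 0 < M) (hM' : 0 < M') (hs : |s| = 1)
    (hbig : ∀ q : ℝ × ℝ, q ≠ (0, 0) → |q.1| ≤ δ → |q.2| ≤ δ → M' ≤ GS q)
    {u : ℝ × ℝ → ℝ} (hu : Continuous u) (hu0 : ∀ q, q ∉ Ell α → u q = 0)
    (hu2 : ContDiffOn ℝ 2 u (Ell α)) (huM : ∀ q, |u q| ≤ M)
    (hul : ∀ q ∈ Ell α, (δ ≤ |q.1| ∨ δ ≤ |q.2|) → |lap u q| ≤ η) :
    ∀ q ∈ Ell α, (δ < |q.1| ∨ δ < |q.2|) → s * u q ≤ M / M' * GS q + η * (2 - q.2 ^ 2) / 2 := by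
  have hc1 : Continuous fun q : ℝ × ℝ => |q.1| := by fun_prop
  have hc2 : Continuous fun q : ℝ × ℝ => |q.2| := by fun_prop
  have hsqc : IsClosed {q : ℝ × ℝ | |q.1| ≤ δ ∧ |q.2| ≤ δ} :=
    (isClosed_le hc1 continuous_const).inter (isClosed_le hc2 continuous_const)
  obtain ⟨D, hDdef⟩ : ∃ D, D = Ell α \ {q : ℝ × ℝ | |q.1| ≤ δ ∧ |q.2| ≤ δ} := ⟨_, rfl⟩
  have hD : IsOpen D := by
    rw [hDdef]
    exact (isOpen_ell α).sdiff hsqc
  have hDE : D ⊆ Ell α := by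
    rw [hDdef]
    exact Set.sdiff_subset
  have hEC : Ell α ⊆ CEll α := by
    rw [← closure_ell hα]
    exact subset_closure
  have hDb : Bornology.IsBounded D := (isCompact_cell hα).isBounded.subset (hDE.trans hEC)
  have hDor : ∀ q ∈ D, δ ≤ |q.1| ∨ δ ≤ |q.2| := by
    intro q hq
    rw [hDdef] at hq
    by_contra hneg
    push Not at hneg
    exact hq.2 ⟨hneg.1.le, hneg.2.le⟩
  have hcl : closure D ⊆ CEll α ∩ {q : ℝ × ℝ | δ ≤ |q.1| ∨ δ ≤ |q.2|} := by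
    refine closure_minimal (fun q hq => ⟨hEC (hDE hq), hDor q hq⟩) ?_
    refine (isCompact_cell hα).isClosed.inter ?_
    exact (isClosed_le continuous_const hc1).union (isClosed_le continuous_const hc2)
  have hCy : ∀ q ∈ CEll α, |q.2| ≤ 1 := by
    intro q hq
    have hq' : α ^ 2 * q.1 ^ 2 + q.2 ^ 2 ≤ 1 := hq
    refine abs_le_of_sq_le_sq ?_ zero_le_one
    nlinarith [sq_nonneg (α * q.1)]
  have hne : ∀ q : ℝ × ℝ, (δ ≤ |q.1| ∨ δ ≤ |q.2|) → q ≠ (0, 0) := by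
    intro q hq h
    rw [h] at hq
    simp only [abs_zero, or_self] at hq
    linarith
  have hDS : D ⊆ Str 1 \ {((0 : ℝ), (0 : ℝ))} := by
    intro q hq
    refine ⟨?_, hne q (hDor q hq)⟩
    have h1 : α ^ 2 * q.1 ^ 2 + q.2 ^ 2 < 1 := hDE hq
    show |q.2| < 1
    refine abs_lt_of_sq_lt_sq ?_ zero_le_one
    nlinarith [sq_nonneg (α * q.1)]
  have hclS : closure D ⊆ {q : ℝ × ℝ | |q.2| ≤ 1} \ {((0 : ℝ), (0 : ℝ))} := fun q hq =>
    ⟨hCy q (hcl hq).1, hne q (hcl hq).2⟩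
  have hb1 : ContDiff ℝ ∞ (fun z : ℝ × ℝ => η * (2 - z.2 ^ 2) / 2) := by fun_prop
  have hb1' : ContDiffOn ℝ 2 (fun z : ℝ × ℝ => η * (2 - z.2 ^ 2) / 2) D :=
    (contDiff_infty.1 hb1 2).contDiffOn
  have hGS2 : ContDiffOn ℝ 2 GS D :=
    contDiffOn_infty.1 (gs_smooth.mono hDS) 2
  have hGS2' : ContDiffOn ℝ 2 (fun z => M / M' * GS z) D := contDiffOn_const.mul hGS2
  have hsu : ContDiffOn ℝ 2 (fun z => s * u z) D := contDiffOn_const.mul (hu2.mono hDE)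
  have hkey := wmp_bdd (D := D) hD hDb (u := fun z => s * u z)
    (b := fun z => M / M' * GS z + η * (2 - z.2 ^ 2) / 2) hsu (hGS2'.add hb1')
    (by fun_prop) ((continuousOn_const.mul (gs_cont.mono hclS)).add hb1.continuous.continuousOn)
    (fun q hq => ?_) (fun q hq => ?_)
  · intro q hq hor
    refine hkey q (subset_closure ?_)
    rw [hDdef]
    refine ⟨hq, fun h => ?_⟩
    rcases hor with h1 | h1
    · linarith [h.1]
    · linarith [h.2]
  · rw [lap_const_mul hD s (hu2.mono hDE) hq, lap_add hD hGS2' hb1' hq,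
      lap_const_mul hD (M / M') hGS2 hq, gs_harm (hDS hq).1 (hDS hq).2, BLWH_lap_b]
    have h1 := hul q (hDE hq) (hDor q hq)
    have h2 : |s * lap u q| ≤ η := by
      rw [abs_mul, hs, one_mul]
      exact h1
    have h3 := neg_abs_le (s * lap u q)
    linarith
  · rw [hD.frontier_eq] at hq
    have hq1 := hcl hq.1
    have hy := hCy q hq1.1
    have hG := gs_nonneg hy
    have hy2 : q.2 ^ 2 ≤ 1 := by
      rw [← sq_abs]
      nlinarith [abs_nonneg q.2]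
    have hr : 0 ≤ η * (2 - q.2 ^ 2) / 2 := by
      have : 0 ≤ 2 - q.2 ^ 2 := by linarith
      positivity
    by_cases hE : q ∈ Ell α
    · have hin : |q.1| ≤ δ ∧ |q.2| ≤ δ := by
        by_contra hneg
        refine hq.2 ?_
        rw [hDdef]
        exact ⟨hE, hneg⟩
      have h1 := hbig q (hne q hq1.2) hin.1 hin.2
      have h2 : M ≤ M / M' * GS q := by
        have h3 := mul_le_mul_of_nonneg_left h1 (div_pos hM hM').le
        rw [div_mul_cancel₀ _ hM'.ne'] at h3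
        exact h3
      have h4 : s * u q ≤ M := by
        refine (le_abs_self _).trans ?_
        rw [abs_mul, hs, one_mul]
        exact huM q
      show s * u q ≤ M / M' * GS q + η * (2 - q.2 ^ 2) / 2
      linarith
    · show s * u q ≤ M / M' * GS q + η * (2 - q.2 ^ 2) / 2
      rw [hu0 q hE, mul_zero]
      have := mul_nonneg (div_pos hM hM').le hG
      linarith

theorem near_harm {M ρ ε : ℝ} (hM : 0 < M) (hρ : 0 < ρ) (hε : 0 < ε) :
    ∃ δ η : ℝ, 0 < δ ∧ δ < ρ ∧ 0 < η ∧ ∀ (α : ℝ) (u : ℝ × ℝ → ℝ), 0 < α → α ≤ 1 →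
      Continuous u → (∀ q, q ∉ Ell α → u q = 0) → ContDiffOn ℝ 2 u (Ell α) →
      (∀ q, |u q| ≤ M) → (∀ q ∈ Ell α, (δ ≤ |q.1| ∨ δ ≤ |q.2|) → |lap u q| ≤ η) →
      ∀ q : ℝ × ℝ, (ρ ≤ |q.1| ∨ ρ ≤ |q.2|) → |u q| ≤ ε := by
  obtain ⟨C, hC, hoff⟩ := gs_off hρ
  obtain ⟨M', hM'⟩ : ∃ M', M' = 2 * M * C / ε := ⟨_, rfl⟩
  have hM'0 : 0 < M' := by
    rw [hM']
    positivity
  obtain ⟨δ₀, hδ₀, hδ₁, hbig⟩ := gs_large M'
  refine ⟨min δ₀ (ρ / 2), ε / 2, lt_min hδ₀ (by positivity), ?_, by positivity, ?_⟩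
  · exact (min_le_right _ _).trans_lt (by linarith)
  intro α u hα hα1 hu hu0 hu2 huM hul q hor
  have _ := hα1
  by_cases hE : q ∈ Ell α
  · have hbig' : ∀ q : ℝ × ℝ, q ≠ (0, 0) → |q.1| ≤ min δ₀ (ρ / 2) → |q.2| ≤ min δ₀ (ρ / 2) →
        M' ≤ GS q := fun q h0 h1 h2 => hbig q h0 (h1.trans (min_le_left _ _))
          (h2.trans (min_le_left _ _))
    have hδρ : min δ₀ (ρ / 2) < ρ := (min_le_right _ _).trans_lt (by linarith)
    have hor' : min δ₀ (ρ / 2) < |q.1| ∨ min δ₀ (ρ / 2) < |q.2| := by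
      rcases hor with h | h
      · exact Or.inl (hδρ.trans_le h)
      · exact Or.inr (hδρ.trans_le h)
    have hδ0 : 0 < min δ₀ (ρ / 2) := lt_min hδ₀ (by positivity)
    have k1 := BLWH_cmp (s := 1) hα hδ0 (half_pos hε) hM hM'0 (by simp) hbig' hu hu0 hu2 huM hul
      q hE hor'
    have k2 := BLWH_cmp (s := -1) hα hδ0 (half_pos hε) hM hM'0 (by simp) hbig' hu hu0 hu2 huM hul
      q hE hor'
    have hy : |q.2| ≤ 1 := by
      have hq' : α ^ 2 * q.1 ^ 2 + q.2 ^ 2 < 1 := hE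
      refine abs_le_of_sq_le_sq ?_ zero_le_one
      nlinarith [sq_nonneg (α * q.1)]
    have h1 := hoff q hy hor
    have h2 : M / M' * GS q ≤ ε / 2 := by
      have h3 := mul_le_mul_of_nonneg_left h1 (div_pos hM hM'0).le
      have h4 : M / M' * C = ε / 2 := by
        rw [hM']
        field_simp
      linarith
    have h5 : ε / 2 * (2 - q.2 ^ 2) / 2 ≤ ε / 2 := by
      nlinarith [sq_nonneg q.2]
    rw [abs_le]
    constructor
    · linarith
    · linarith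
  · rw [hu0 q hE, abs_zero]
    exact hε.le

end Pool.Agent.MFE
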