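import Pool.Agent.MFE.BLWF
import Pool.Agent.MFE.BLWG
import Pool.Agent.MFE.BLWH

/-!
# MFE.BLWI: blow-up: `φ → 0` away from the origin, `|t| → 1`

`BSeq`: a sequence of critical data with `v n (0,0) → ∞` (and `> pst`), `α n → 0`, normalised by
`sup |φ n - t n| = 1`.
`mu_tend`: `mu_upper`. `e_off`: off `Sq 0 ρ`, `μ n e^{v n} ≤ μ n e^{2000/ρ²} → 0`.
`phi_small`: `|φ n| ≤ 2` (`|t n| ≤ 1` because `φ n = 0` outside the ellipse), `|lap φ n| =
μ n e^{v n} |φ n - t n| ≤ μ n e^{2000/δ²} → 0` off `Sq 0 δ`: `near_harm`.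
`t_lim`: for fixed `0 < s ≤ r₂` take `q = (s, 0)`: `phi_expand` and `phi_small`:
`(φ n q - t n) - (φ n(0) - t n)(a - b s²)/(a + b s²)` is `≤ C s²`, where `a = aV → 0`, `b ≥ 1/32`, so
the quotient tends to `-1`: `limsup |φ n (0) - 2 t n| ≤ C s²` for every `s`, so `φ n (0) - 2 t n → 0`.
`|φ n q - t n| ≤ |φ n (0) - t n| + C |q|²` for `|q| ≤ r₂` and `≤ |t n| + o(1)` off `Sq 0 ρ`; the
supremum `1` gives `1 ≤ |t n| + 2Cρ² + o(1)` for every small `ρ`, and `|t n| ≤ 1`.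
-/

open scoped ContDiff
open Filter Topology

namespace Pool.Agent.MFE

/-- normalised blow-up sequences -/
structure BSeq (α μ t : ℕ → ℝ) (v φ : ℕ → ℝ × ℝ → ℝ) : Prop where
  al : ∀ n, 0 < α n ∧ α n ≤ 1
  al0 : Tendsto α atTop (𝓝 0)
  cd : ∀ n, CD (α n) (μ n) (t n) (v n) (φ n)
  big : ∀ n, pst < v n (0, 0)
  inf : Tendsto (fun n => v n (0, 0)) atTop atTop
  le1 : ∀ n q, |φ n q - t n| ≤ 1
  att : ∀ n, ∃ q, |φ n q - t n| = 1

variable {α μ t : ℕ → ℝ} {v φ : ℕ → ℝ × ℝ → ℝ}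

theorem BSeq.t_le (h : BSeq α μ t v φ) (n : ℕ) : |t n| ≤ 1 := by
  have h1 : φ n ((0 : ℝ), (1 : ℝ)) = 0 := by
    apply (h.cd n).zero
    intro hm
    have h2 : α n ^ 2 * (0 : ℝ) ^ 2 + (1 : ℝ) ^ 2 < 1 := hm
    norm_num at h2
  have h2 := h.le1 n (0, 1)
  rw [h1, zero_sub, abs_neg] at h2
  exact h2

private theorem BLWI_exp (h : BSeq α μ t v φ) :
    Tendsto (fun n => Real.exp (-(v n (0, 0)) / 2)) atTop (𝓝 0) := by
  apply Real.tendsto_exp_atBot.comp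
  have h1 : Tendsto (fun n => v n (0, 0) / 2) atTop atTop := h.inf.atTop_div_const (by norm_num)
  have h2 := tendsto_neg_atTop_atBot.comp h1
  refine h2.congr fun n => ?_
  simp only [Function.comp_apply]
  ring

theorem BSeq.mu_tend (h : BSeq α μ t v φ) : Tendsto μ atTop (𝓝 0) := by
  obtain ⟨C, -, hC⟩ := mu_upper
  have h1 : Tendsto (fun n => C * Real.exp (-(v n (0, 0)) / 2)) atTop (𝓝 (C * 0)) :=
    (BLWI_exp h).const_mul C
  rw [mul_zero] at h1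
  exact squeeze_zero (fun n => (h.cd n).sol.mu_pos.le)
    (fun n => hC _ _ _ (h.al n).1 (h.al n).2 (h.cd n).sol (h.big n)) h1

theorem BSeq.a_tend (h : BSeq α μ t v φ) : Tendsto (fun n => aV (v n)) atTop (𝓝 0) :=
  BLWI_exp h

/-- the potential tends to zero uniformly off a neighbourhood of the origin -/
theorem BSeq.e_off (h : BSeq α μ t v φ) {ρ ε : ℝ} (hρ : 0 < ρ) (hε : 0 < ε) :
    ∀ᶠ n in atTop, ∀ q : ℝ × ℝ, (ρ ≤ |q.1| ∨ ρ ≤ |q.2|) →
      μ n * Real.exp (v n q) ≤ ε := by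
  obtain ⟨ρ', hρ'⟩ : ∃ ρ', ρ' = min ρ (2 / 5) := ⟨_, rfl⟩
  have h1 : 0 < ρ' := by rw [hρ']; exact lt_min hρ (by norm_num)
  have h2 : ρ' ≤ 2 / 5 := by rw [hρ']; exact min_le_right _ _
  have h3 : ρ' ≤ ρ := by rw [hρ']; exact min_le_left _ _
  have h4 : Tendsto (fun n => μ n * Real.exp (2000 / ρ' ^ 2)) atTop
      (𝓝 (0 * Real.exp (2000 / ρ' ^ 2))) := h.mu_tend.mul_const _
  rw [zero_mul] at h4
  filter_upwards [h4.eventually (gt_mem_nhds hε)] with n hn q hq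
  have h5 := off_bound (h.al n).1 (h.al n).2 (h.cd n).sol (h.big n) h1 h2 (q := q)
    (hq.imp h3.trans h3.trans)
  exact (mul_le_mul_of_nonneg_left (Real.exp_le_exp.2 h5) (h.cd n).sol.mu_pos.le).trans hn.le

private theorem BLWI_le2 (h : BSeq α μ t v φ) (n : ℕ) (q : ℝ × ℝ) : |φ n q| ≤ 2 := by
  have h1 := h.le1 n q
  have h2 := h.t_le n
  have h3 : φ n q = (φ n q - t n) + t n := by ring
  rw [h3]
  exact (abs_add_le _ _).trans (by linarith)

theorem BSeq.phi_small (h : BSeq α μ t v φ) {ρ ε : ℝ} (hρ : 0 < ρ) (hε : 0 < ε) :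
    ∀ᶠ n in atTop, ∀ q : ℝ × ℝ, (ρ ≤ |q.1| ∨ ρ ≤ |q.2|) → |φ n q| ≤ ε := by
  obtain ⟨δ, η, hδ, -, hη, key⟩ := near_harm (M := 2) (by norm_num) hρ hε
  filter_upwards [h.e_off hδ hη] with n hn
  refine key (α n) (φ n) (h.al n).1 (h.al n).2 (h.cd n).cont (h.cd n).zero
    ((h.cd n).smooth.of_le (WithTop.coe_le_coe.2 le_top)) (BLWI_le2 h n) ?_
  intro q hq hq2
  have h1 := (h.cd n).eq q hq
  have h2 := hn q hq2
  have h3 := h.le1 n q
  have hμ := (h.cd n).sol.mu_pos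
  have h4 : 0 ≤ μ n * Real.exp (v n q) := by positivity
  rw [← abs_neg, h1, abs_mul, abs_of_nonneg h4]
  calc μ n * Real.exp (v n q) * |φ n q - t n| ≤ μ n * Real.exp (v n q) * 1 :=
        mul_le_mul_of_nonneg_left h3 h4
    _ ≤ η := by rw [mul_one]; exact h2

theorem BSeq.phi_zero (h : BSeq α μ t v φ) :
    Tendsto (fun n => φ n (0, 0) - 2 * t n) atTop (𝓝 0) := by
  obtain ⟨r, C, hr, hr5, hC, key⟩ := phi_expand
  obtain ⟨C2, hC2, hb⟩ := beta_bounds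
  rw [Metric.tendsto_atTop]
  intro ε hε
  rw [← Filter.eventually_atTop]
  -- choice of `s`
  obtain ⟨s, hs, hsr, hsC⟩ : ∃ s : ℝ, 0 < s ∧ s ≤ r ∧ C * s ^ 2 ≤ ε / 4 := by
    refine ⟨min r (ε / (4 * C)), lt_min hr (by positivity), min_le_left _ _, ?_⟩
    obtain ⟨x, hx⟩ : ∃ x, x = min r (ε / (4 * C)) := ⟨_, rfl⟩
    rw [← hx]
    have x0 : 0 < x := by rw [hx]; exact lt_min hr (by positivity)
    have x1 : x ≤ 1 := by rw [hx]; exact (min_le_left _ _).trans (by linarith)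
    have x2 : x ≤ ε / (4 * C) := by rw [hx]; exact min_le_right _ _
    have x3 : x ^ 2 ≤ x := by nlinarith
    calc C * x ^ 2 ≤ C * (ε / (4 * C)) := mul_le_mul_of_nonneg_left (x3.trans x2) hC.le
      _ = ε / 4 := by field_simp
  have hs2 : 0 < s ^ 2 := by positivity
  have ha : Tendsto (fun n => 64 / s ^ 2 * aV (v n)) atTop (𝓝 (64 / s ^ 2 * 0)) :=
    h.a_tend.const_mul _
  rw [mul_zero] at ha
  filter_upwards [h.phi_small hs (ε := ε / 4) (by positivity),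
    ha.eventually (gt_mem_nhds (show (0 : ℝ) < ε / 4 by positivity))] with n h1 h2
  have h3 := h1 (s, 0) (Or.inl (le_abs_self s))
  have hsq : sq2 ((s : ℝ), (0 : ℝ)) = s ^ 2 := by simp [sq2]
  have h4 := key (α n) (μ n) (t n) (v n) (φ n) (h.al n).1 (h.al n).2 (h.cd n) (h.big n) (h.le1 n)
    (s, 0) (by rw [hsq]; exact pow_le_pow_left₀ hs.le hsr 2)
  rw [hsq] at h4
  obtain ⟨b1, b2⟩ := hb (α n) (μ n) (v n) (h.al n).1 (h.al n).2 (h.cd n).sol (h.big n)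
  have hAV : AV (μ n) (v n) ((s : ℝ), (0 : ℝ)) = aV (v n) + bV (μ n) (v n) * s ^ 2 := by
    unfold AV; rw [hsq]
  rw [hAV] at h4
  have ap : 0 < aV (v n) := Real.exp_pos _
  obtain ⟨a, hadef⟩ : ∃ a, a = aV (v n) := ⟨_, rfl⟩
  obtain ⟨b, hbdef⟩ : ∃ b, b = bV (μ n) (v n) := ⟨_, rfl⟩
  rw [← hadef] at h4 h2 ap
  rw [← hbdef] at h4 b1
  obtain ⟨κ, hκ⟩ : ∃ κ, κ = 2 * a / (a + b * s ^ 2) := ⟨_, rfl⟩
  have hden : 0 < a + b * s ^ 2 := by
    have : 0 ≤ b * s ^ 2 := mul_nonneg (by linarith) hs2.le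
    linarith
  have hq : (a - b * s ^ 2) / (a + b * s ^ 2) = -1 + κ := by
    rw [hκ]
    field_simp
    ring
  have κ0 : 0 ≤ κ := by rw [hκ]; positivity
  have κ1 : κ ≤ 64 / s ^ 2 * a := by
    rw [hκ, div_le_iff₀ hden]
    have e1 : 64 / s ^ 2 * a * (a + b * s ^ 2) = 64 / s ^ 2 * a * a + 64 * a * b := by
      field_simp
    rw [e1]
    have e2 : 0 ≤ 64 / s ^ 2 * a * a := by positivity
    nlinarith
  rw [hq] at h4
  have h5 := h.le1 n (0, 0)
  have e : φ n (0, 0) - 2 * t n = ((φ n (s, 0) - t n) - (φ n (0, 0) - t n) * (-1 + κ)) -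
      φ n (s, 0) + κ * (φ n (0, 0) - t n) := by ring
  rw [Real.dist_eq, sub_zero, e]
  have e1 : |κ * (φ n (0, 0) - t n)| ≤ ε / 4 := by
    rw [abs_mul, abs_of_nonneg κ0]
    calc κ * |φ n (0, 0) - t n| ≤ κ * 1 := mul_le_mul_of_nonneg_left h5 κ0
      _ ≤ ε / 4 := by rw [mul_one]; exact κ1.trans h2.le
  have e2 := abs_add_le (((φ n (s, 0) - t n) - (φ n (0, 0) - t n) * (-1 + κ)) - φ n (s, 0))
    (κ * (φ n (0, 0) - t n))
  have e3 := abs_sub ((φ n (s, 0) - t n) - (φ n (0, 0) - t n) * (-1 + κ)) (φ n (s, 0))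
  linarith

theorem BSeq.t_lim (h : BSeq α μ t v φ) : Tendsto (fun n => |t n|) atTop (𝓝 1) := by
  obtain ⟨r, C, hr, hr5, hC, key⟩ := phi_expand
  obtain ⟨C2, hC2, hb⟩ := beta_bounds
  rw [Metric.tendsto_atTop]
  intro ε hε
  rw [← Filter.eventually_atTop]
  obtain ⟨ρ, hρ, hρr, hρC⟩ : ∃ ρ : ℝ, 0 < ρ ∧ 2 * ρ ^ 2 ≤ r ^ 2 ∧ C * (2 * ρ ^ 2) ≤ ε / 4 := by
    refine ⟨min (r / 2) (ε / (8 * C)), lt_min (by linarith) (by positivity), ?_, ?_⟩
    · have x0 : 0 < min (r / 2) (ε / (8 * C)) := lt_min (by linarith) (by positivity)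
      have x1 : min (r / 2) (ε / (8 * C)) ≤ r / 2 := min_le_left _ _
      nlinarith
    · obtain ⟨x, hx⟩ : ∃ x, x = min (r / 2) (ε / (8 * C)) := ⟨_, rfl⟩
      rw [← hx]
      have x0 : 0 < x := by rw [hx]; exact lt_min (by linarith) (by positivity)
      have x1 : x ≤ 1 := by rw [hx]; exact (min_le_left _ _).trans (by linarith)
      have x2 : x ≤ ε / (8 * C) := by rw [hx]; exact min_le_right _ _
      have x3 : x ^ 2 ≤ x := by nlinarith
      calc C * (2 * x ^ 2) ≤ C * (2 * (ε / (8 * C))) :=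
            mul_le_mul_of_nonneg_left (by linarith) hC.le
        _ = ε / 4 := by field_simp; ring
  filter_upwards [h.phi_small hρ (ε := ε / 4) (by positivity),
    (Metric.tendsto_nhds.1 h.phi_zero) (ε / 4) (by positivity)] with n h1 h2
  rw [Real.dist_eq, sub_zero] at h2
  have ht := h.t_le n
  obtain ⟨q, hq⟩ := h.att n
  have main : 1 ≤ |t n| + ε / 2 := by
    by_cases hoff : ρ ≤ |q.1| ∨ ρ ≤ |q.2|
    · have h3 := h1 q hoff
      have h4 := abs_sub (φ n q) (t n)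
      linarith
    · push Not at hoff
      have hsq : sq2 q ≤ 2 * ρ ^ 2 := by
        have a1 : q.1 ^ 2 ≤ ρ ^ 2 := by
          rw [← sq_abs q.1]
          exact pow_le_pow_left₀ (abs_nonneg _) hoff.1.le 2
        have a2 : q.2 ^ 2 ≤ ρ ^ 2 := by
          rw [← sq_abs q.2]
          exact pow_le_pow_left₀ (abs_nonneg _) hoff.2.le 2
        unfold sq2
        linarith
      have hsq0 : 0 ≤ sq2 q := by unfold sq2; positivity
      have h4 := key (α n) (μ n) (t n) (v n) (φ n) (h.al n).1 (h.al n).2 (h.cd n) (h.big n)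
        (h.le1 n) q (hsq.trans hρr)
      obtain ⟨b1, b2⟩ := hb (α n) (μ n) (v n) (h.al n).1 (h.al n).2 (h.cd n).sol (h.big n)
      have ap : 0 < aV (v n) := Real.exp_pos _
      have bq : 0 ≤ bV (μ n) (v n) * sq2 q := mul_nonneg (by linarith) hsq0
      have hquo : |(aV (v n) - bV (μ n) (v n) * sq2 q) / AV (μ n) (v n) q| ≤ 1 := by
        unfold AV
        have hd : 0 < aV (v n) + bV (μ n) (v n) * sq2 q := by linarith
        rw [abs_div, abs_of_pos hd, div_le_one hd, abs_le]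
        constructor <;> linarith
      have h5 : |(φ n (0, 0) - t n) * ((aV (v n) - bV (μ n) (v n) * sq2 q) /
          AV (μ n) (v n) q)| ≤ |φ n (0, 0) - t n| := by
        rw [abs_mul]
        exact mul_le_of_le_one_right (abs_nonneg _) hquo
      have h6 : |φ n (0, 0) - t n| ≤ |φ n (0, 0) - 2 * t n| + |t n| := by
        have e : φ n (0, 0) - t n = (φ n (0, 0) - 2 * t n) + t n := by ring
        rw [e]
        exact abs_add_le _ _
      have h7 : |φ n q - t n| ≤ C * sq2 q + |φ n (0, 0) - t n| := by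
        have e : φ n q - t n = ((φ n q - t n) - (φ n (0, 0) - t n) *
          ((aV (v n) - bV (μ n) (v n) * sq2 q) / AV (μ n) (v n) q)) +
          (φ n (0, 0) - t n) * ((aV (v n) - bV (μ n) (v n) * sq2 q) / AV (μ n) (v n) q) := by
          ring
        rw [e]
        exact (abs_add_le _ _).trans (add_le_add h4 h5)
      have h8 : C * sq2 q ≤ C * (2 * ρ ^ 2) := mul_le_mul_of_nonneg_left hsq hC.le
      linarith
  rw [Real.dist_eq, abs_lt]
  constructor <;> linarith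

end Pool.Agent.MFE
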