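import Pool.Agent.MFE.BLWE
import Pool.Agent.MFE.GRN

/-!
# MFE.BLWJ: the harmonic function `P = -x·∇v + K(E (2 + x·∇v))`

`v_wE`: on `Ell α` off `Sq 0 (2/5)`: `-lap v ≤ 60 e^B`, `B = 2000/(2/5)²`, `v ≤ B` on the boundary of
the square (where `wE ≥ 1 - 8/25 ≥ 1/2`), `v = 0` on the boundary of the ellipse: `wmp_bdd` with
`C wE`, `-lap (C wE) ≥ 2C`.
`v_decay`: on `Ell α ∩ {x > 2/5}` compare with `C e^{-(x - 2/5)} wE + (μ e^B/2) wE`:
`-lap (wE e^{-x}) = e^{-x} (2(1+α²) - wE - 4 α² x) ≥ e^{-x}(2 - 1 - 4 α) ≥ 0` for `α ≤ 1/8`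
(`α x ≤ 1`, so `α² x ≤ α`); `-lap ((μ e^B/2) wE) ≥ μ e^B ≥ -lap v`; at `x = 2/5` use `v_wE`. Same for
`x < -2/5` by evenness.
`hp_exists`: `dir_c1` for `v` (`gsol_dir`): continuous extensions `gx, gy` of `dx v`, `dy v` to
`CEll α`; `X = x gx + y gy` continuous on `CEll α`; `f = E (2 + X)`, `κ` with `Dir α f κ` (`dir_exists`),
`P = κ - X` on `CEll α`. In `Ell α`: `-lap X = E (X + 2)` (`lap_euler`), so `lap P = 0`
(`dir_smooth`). `P` is even: `dir_evx`, `dir_evy`, `dx_of_evx`, ....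
`hp_bdry`: for `q` on the boundary of `Ell α` and `s < 1`: `v(sq) = ∫_s^1 -q·∇v(rq) dr`, so
`-X(q) = lim_{s→1} v(sq)/(1-s)`, between `0` and `limsup C wE(sq)/(1-s) = 2C` (`v_wE`), and by
`v_decay` `≤ 2C(e^{-|x|} + μ)` if `|x| ≥ 1/2`. There `κ = 0`, so `P(q) = -X(q)`.
`hp_bounds`: maximum principle for `P` (`wmp_bdd`).
`hp_far`: on `Ell α ∩ {x > R/2}` compare `P` with `2C(e^{-R/2} + μ) + C' (2 - y²) e^{-(x - R/2)}`
(superharmonic), `C'` the bound of `hp_bounds`.
-/

open scoped ContDiff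

namespace Pool.Agent.MFE

private theorem BLWJ_two : (2 : WithTop ℕ∞) ≤ ∞ := ENat.LEInfty.out

private theorem BLWJ_wE_smooth (α : ℝ) : ContDiff ℝ ∞ (wE α) := by
  unfold wE; fun_prop

private theorem BLWJ_ell {α : ℝ} {q : ℝ × ℝ} : q ∈ Ell α ↔ 0 < wE α q := by
  show α ^ 2 * q.1 ^ 2 + q.2 ^ 2 < 1 ↔ 0 < 1 - α ^ 2 * q.1 ^ 2 - q.2 ^ 2
  constructor <;> intro h <;> linarith

private theorem BLWJ_cell {α : ℝ} {q : ℝ × ℝ} : q ∈ CEll α ↔ 0 ≤ wE α q := by
  show α ^ 2 * q.1 ^ 2 + q.2 ^ 2 ≤ 1 ↔ 0 ≤ 1 - α ^ 2 * q.1 ^ 2 - q.2 ^ 2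
  constructor <;> intro h <;> linarith

private theorem BLWJ_bdd {α : ℝ} (hα : 0 < α) : Bornology.IsBounded (Ell α) := by
  have := (isCompact_cell hα).isBounded
  rw [← closure_ell hα] at this
  exact this.subset subset_closure

/-- points on the frontier of a subset `D = Ell ∩ O`, `O` open -/
private theorem BLWJ_fr {α : ℝ} (hα : 0 < α) {O : Set (ℝ × ℝ)} (hO : IsOpen O) {q : ℝ × ℝ}
    (hq : q ∈ frontier (Ell α ∩ O)) :
    q ∈ CEll α ∧ q ∈ closure O ∧ ((q ∉ Ell α ∧ wE α q = 0) ∨ (q ∈ Ell α ∧ q ∉ O)) := by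
  have hcl : q ∈ closure (Ell α ∩ O) := frontier_subset_closure hq
  have h1 : q ∈ CEll α := by
    rw [← closure_ell hα]
    exact closure_mono Set.inter_subset_left hcl
  have h2 : q ∈ closure O := closure_mono Set.inter_subset_right hcl
  have hno : q ∉ Ell α ∩ O := by
    have h : q ∈ closure (Ell α ∩ O) \ interior (Ell α ∩ O) := hq
    rw [((isOpen_ell α).inter hO).interior_eq] at h
    exact h.2
  refine ⟨h1, h2, ?_⟩
  by_cases h : q ∈ Ell α
  · right; exact ⟨h, fun h' => hno ⟨h, h'⟩⟩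
  · left
    refine ⟨h, ?_⟩
    rw [BLWJ_ell] at h
    rw [BLWJ_cell] at h1
    linarith

private theorem BLWJ_lap_wE_mul (α c : ℝ) (q : ℝ × ℝ) :
    lap (fun z => c * wE α z) q = c * (-2 * (1 + α ^ 2)) := by
  rw [lap_const_mul isOpen_univ c ((BLWJ_wE_smooth α).of_le BLWJ_two).contDiffOn
    (Set.mem_univ q), lap_wE]

theorem v_wE : ∃ C : ℝ, 0 < C ∧ ∀ (α μ : ℝ) (v : ℝ × ℝ → ℝ), 0 < α → α ≤ 1 →
    GSol α μ v → pst < v (0, 0) → ∀ q ∈ Ell α, (2 / 5 ≤ |q.1| ∨ 2 / 5 ≤ |q.2|) →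
      v q ≤ C * wE α q := by
  obtain ⟨B, hB⟩ : ∃ B : ℝ, B = 2000 / (2 / 5) ^ 2 := ⟨_, rfl⟩
  have hB0 : 0 < B := by rw [hB]; positivity
  refine ⟨30 * Real.exp B + 2 * B, by positivity, ?_⟩
  intro α μ v hα hα1 h hp q hq hq2
  set C := 30 * Real.exp B + 2 * B with hC
  have hC0 : 0 < C := by positivity
  set O : Set (ℝ × ℝ) := {z | 2 / 5 < |z.1| ∨ 2 / 5 < |z.2|} with hOdef
  have hO : IsOpen O := by
    have h1 : IsOpen {z : ℝ × ℝ | 2 / 5 < |z.1|} := isOpen_lt continuous_const (by fun_prop)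
    have h2 : IsOpen {z : ℝ × ℝ | 2 / 5 < |z.2|} := isOpen_lt continuous_const (by fun_prop)
    exact h1.union h2
  have hcO : closure O ⊆ {z | 2 / 5 ≤ |z.1| ∨ 2 / 5 ≤ |z.2|} := by
    apply closure_minimal
    · rintro z (hz | hz)
      · exact Or.inl hz.le
      · exact Or.inr hz.le
    · have h1 : IsClosed {z : ℝ × ℝ | 2 / 5 ≤ |z.1|} := isClosed_le continuous_const (by fun_prop)
      have h2 : IsClosed {z : ℝ × ℝ | 2 / 5 ≤ |z.2|} := isClosed_le continuous_const (by fun_prop)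
      exact h1.union h2
  -- the boundary of the square
  have hsq : ∀ z, (2 / 5 ≤ |z.1| ∨ 2 / 5 ≤ |z.2|) → z ∉ O → v z ≤ C * wE α z := by
    intro z hz hzO
    have hv : v z ≤ B := by
      rw [hB]; exact off_bound hα hα1 h hp (by norm_num) le_rfl hz
    have h1 : |z.1| ≤ 2 / 5 := by
      by_contra hcon
      exact hzO (Or.inl (not_le.mp hcon))
    have h2 : |z.2| ≤ 2 / 5 := by
      by_contra hcon
      exact hzO (Or.inr (not_le.mp hcon))
    have h1' : z.1 ^ 2 ≤ 4 / 25 := by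
      rw [← sq_abs]; nlinarith [abs_nonneg z.1]
    have h2' : z.2 ^ 2 ≤ 4 / 25 := by
      rw [← sq_abs]; nlinarith [abs_nonneg z.2]
    have hα2 : α ^ 2 ≤ 1 := by nlinarith
    have hw : 1 / 2 ≤ wE α z := by
      have : α ^ 2 * z.1 ^ 2 ≤ 1 * (4 / 25) :=
        mul_le_mul hα2 h1' (sq_nonneg _) (by norm_num)
      show 1 / 2 ≤ 1 - α ^ 2 * z.1 ^ 2 - z.2 ^ 2
      linarith
    have hexp := Real.exp_pos B
    calc v z ≤ B := hv
      _ ≤ C * (1 / 2) := by rw [hC]; linarith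
      _ ≤ C * wE α z := mul_le_mul_of_nonneg_left hw hC0.le
  by_cases hqO : q ∈ O
  · have hD : IsOpen (Ell α ∩ O) := (isOpen_ell α).inter hO
    have hwEc : ContDiff ℝ ∞ (fun z => C * wE α z) := contDiff_const.mul (BLWJ_wE_smooth α)
    refine wmp_bdd hD ((BLWJ_bdd hα).subset Set.inter_subset_left) (u := v)
      (b := fun z => C * wE α z) ((h.smooth.of_le BLWJ_two).mono Set.inter_subset_left)
      (hwEc.of_le BLWJ_two).contDiffOn h.cont.continuousOn hwEc.continuous.continuousOn ?_ ?_ q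
      (subset_closure ⟨hq, hqO⟩)
    · rintro z ⟨hz1, hz2⟩
      rw [h.eq z hz1, BLWJ_lap_wE_mul]
      have hv : v z ≤ B := by
        rw [hB]; exact off_bound hα hα1 h hp (by norm_num) le_rfl (hcO (subset_closure hz2))
      have hm : μ ≤ 60 := mu_le60 hα hα1 h hp
      have h1 : μ * Real.exp (v z) ≤ 60 * Real.exp B :=
        mul_le_mul hm (Real.exp_le_exp.mpr hv) (Real.exp_pos _).le (by norm_num)
      have h2 : 2 * C ≤ -(C * (-2 * (1 + α ^ 2))) := by nlinarith [sq_nonneg α]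
      rw [hC] at h2
      linarith
    · intro z hz
      obtain ⟨h1, h2, h3⟩ := BLWJ_fr hα hO hz
      rcases h3 with ⟨h3, h4⟩ | ⟨h3, h4⟩
      · rw [h.zero z h3]
        show 0 ≤ C * wE α z
        rw [h4]; simp
      · exact hsq z (hcO h2) h4
  · exact hsq q hq2 hqO

private theorem BLWJ_lap_exp (α : ℝ) (q : ℝ × ℝ) :
    lap (fun z => wE α z * Real.exp (-z.1)) q
      = Real.exp (-q.1) * (-2 * (1 + α ^ 2) + wE α q + 4 * α ^ 2 * q.1) := by
  have he : ContDiff ℝ 2 (fun x : ℝ => Real.exp (-x)) := by fun_prop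
  have he2 : ContDiff ℝ 2 (fun z : ℝ × ℝ => Real.exp (-z.1)) := by fun_prop
  have d1 : deriv (fun x : ℝ => Real.exp (-x)) = fun x => -Real.exp (-x) := by
    ext x
    have : HasDerivAt (fun x : ℝ => Real.exp (-x)) (Real.exp (-x) * (-1)) x :=
      (hasDerivAt_id x).neg.exp
    rw [this.deriv]; ring
  have d2 : deriv (deriv (fun x : ℝ => Real.exp (-x))) = fun x => Real.exp (-x) := by
    rw [d1]
    ext x
    have : HasDerivAt (fun x : ℝ => -Real.exp (-x)) (-(Real.exp (-x) * (-1))) x :=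
      ((hasDerivAt_id x).neg.exp).neg
    rw [this.deriv]; ring
  rw [lap_mul isOpen_univ ((BLWJ_wE_smooth α).of_le BLWJ_two).contDiffOn he2.contDiffOn
    (Set.mem_univ q), lap_wE, lap_fst (fun x => Real.exp (-x)) he, d2, gdot, dx_wE, dy_wE,
    dx_fst (fun x => Real.exp (-x)) ((he.differentiable (by norm_num)) _),
    dy_fst (fun x => Real.exp (-x)) ((he.differentiable (by norm_num)) _), d1]
  ring

/-- in the ellipse `α |x| ≤ 1` -/
private theorem BLWJ_ax {α : ℝ} (hα : 0 < α) {q : ℝ × ℝ} (hq : q ∈ CEll α) :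
    α * |q.1| ≤ 1 := by
  have h : α ^ 2 * q.1 ^ 2 + q.2 ^ 2 ≤ 1 := hq
  have h1 : (α * |q.1|) ^ 2 ≤ 1 := by
    rw [mul_pow, sq_abs]; nlinarith [sq_nonneg q.2]
  have h2 : 0 ≤ α * |q.1| := by positivity
  nlinarith

theorem v_decay : ∃ C : ℝ, 0 < C ∧ ∀ (α μ : ℝ) (v : ℝ × ℝ → ℝ), 0 < α → α ≤ 1 / 8 →
    GSol α μ v → pst < v (0, 0) → ∀ q ∈ Ell α, 2 / 5 ≤ |q.1| →
      v q ≤ C * (Real.exp (-|q.1|) + μ) * wE α q := by
  obtain ⟨C₀, hC₀, hv0⟩ := v_wE
  obtain ⟨B, hB⟩ : ∃ B : ℝ, B = 2000 / (2 / 5) ^ 2 := ⟨_, rfl⟩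
  have hB0 : 0 < B := by rw [hB]; positivity
  set C := C₀ * Real.exp 1 + Real.exp B with hC
  have hCpos : 0 < C := by positivity
  refine ⟨C, hCpos, ?_⟩
  -- first for points on the right
  have key : ∀ (α μ : ℝ) (v : ℝ × ℝ → ℝ), 0 < α → α ≤ 1 / 8 →
      GSol α μ v → pst < v (0, 0) → ∀ q ∈ Ell α, 2 / 5 ≤ q.1 →
      v q ≤ C * (Real.exp (-q.1) + μ) * wE α q := by
    intro α μ v hα hα8 h hp q hq hq1
    have hα1 : α ≤ 1 := by linarith
    have hμ := h.mu_pos
    have hexpB := Real.exp_pos B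
    set O : Set (ℝ × ℝ) := {z | 2 / 5 < z.1} with hOdef
    have hO : IsOpen O := isOpen_lt continuous_const continuous_fst
    have hcO : closure O ⊆ {z | 2 / 5 ≤ z.1} := by
      apply closure_minimal
      · intro z hz
        have hz' : _ < z.1 := hz
        exact hz'.le
      · exact isClosed_le continuous_const continuous_fst
    set b : ℝ × ℝ → ℝ := fun z => (C₀ * Real.exp (2 / 5)) * (wE α z * Real.exp (-z.1)) +
      (μ * Real.exp B / 2) * wE α z with hb
    have hwE := (BLWJ_wE_smooth α)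
    have hs1 : ContDiff ℝ ∞ (fun z : ℝ × ℝ => wE α z * Real.exp (-z.1)) :=
      hwE.mul (by fun_prop)
    have hs2 : ContDiff ℝ ∞ b := (contDiff_const.mul hs1).add (contDiff_const.mul hwE)
    have hbl : ∀ z, lap b z = (C₀ * Real.exp (2 / 5)) *
        (Real.exp (-z.1) * (-2 * (1 + α ^ 2) + wE α z + 4 * α ^ 2 * z.1)) +
        (μ * Real.exp B / 2) * (-2 * (1 + α ^ 2)) := by
      intro z
      have e := lap_add (q := z) isOpen_univ
        (f := fun z => (C₀ * Real.exp (2 / 5)) * (wE α z * Real.exp (-z.1)))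
        (g := fun z => (μ * Real.exp B / 2) * wE α z)
        ((contDiff_const.mul hs1).of_le BLWJ_two).contDiffOn
        ((contDiff_const.mul hwE).of_le BLWJ_two).contDiffOn (Set.mem_univ z)
      rw [BLWJ_lap_wE_mul, lap_const_mul isOpen_univ (C₀ * Real.exp (2 / 5))
        (hs1.of_le BLWJ_two).contDiffOn (Set.mem_univ z), BLWJ_lap_exp] at e
      exact e
    -- values for points with `x ≤ 2/5`, `x ≥ 2/5`
    have hside : ∀ z ∈ Ell α, 2 / 5 ≤ z.1 → z ∉ O → v z ≤ b z := by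
      intro z hz hz1 hzO
      have hz2 : z.1 = 2 / 5 := le_antisymm (not_lt.mp hzO) hz1
      have hw : 0 < wE α z := BLWJ_ell.mp hz
      have h1 : v z ≤ C₀ * wE α z := hv0 α μ v hα hα1 h hp z hz
        (Or.inl (by rw [hz2, abs_of_pos (by norm_num : (0 : ℝ) < 2 / 5)]))
      have h2 : b z = C₀ * wE α z + (μ * Real.exp B / 2) * wE α z := by
        have e1 : b z = (C₀ * Real.exp (2 / 5)) * (wE α z * Real.exp (-z.1)) +
          (μ * Real.exp B / 2) * wE α z := rfl
        rw [e1, hz2]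
        have : Real.exp (2 / 5) * Real.exp (-(2 / 5)) = 1 := by
          rw [← Real.exp_add]; norm_num
        linear_combination C₀ * wE α z * this
      have h3 : 0 ≤ (μ * Real.exp B / 2) * wE α z := by positivity
      linarith
    have hmain : v q ≤ b q := by
      by_cases hqO : q ∈ O
      · have hD : IsOpen (Ell α ∩ O) := (isOpen_ell α).inter hO
        refine wmp_bdd hD ((BLWJ_bdd hα).subset Set.inter_subset_left) (u := v)
          (b := b) ((h.smooth.of_le BLWJ_two).mono Set.inter_subset_left)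
          (hs2.of_le BLWJ_two).contDiffOn h.cont.continuousOn hs2.continuous.continuousOn ?_ ?_ q
          (subset_closure ⟨hq, hqO⟩)
        · rintro z ⟨hz1, hz2⟩
          have hz2' : 2 / 5 < z.1 := hz2
          rw [h.eq z hz1, hbl]
          have hv : v z ≤ B := by
            rw [hB]
            exact off_bound hα hα1 h hp (by norm_num) le_rfl
              (Or.inl (by rw [abs_of_pos (by linarith)]; exact hz2'.le))
          have h1 : μ * Real.exp (v z) ≤ μ * Real.exp B :=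
            mul_le_mul_of_nonneg_left (Real.exp_le_exp.mpr hv) hμ.le
          have h2 : μ * Real.exp B ≤ -((μ * Real.exp B / 2) * (-2 * (1 + α ^ 2))) := by
            have : 0 ≤ μ * Real.exp B * α ^ 2 := by positivity
            nlinarith
          have h3 : -2 * (1 + α ^ 2) + wE α z + 4 * α ^ 2 * z.1 ≤ 0 := by
            have hax := BLWJ_ax hα (show z ∈ CEll α from by
              rw [BLWJ_cell]; exact (BLWJ_ell.mp hz1).le)
            rw [abs_of_pos (by linarith : (0 : ℝ) < z.1)] at hax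
            have hw1 : wE α z ≤ 1 := by
              show 1 - α ^ 2 * z.1 ^ 2 - z.2 ^ 2 ≤ 1
              nlinarith [sq_nonneg (α * z.1), sq_nonneg z.2]
            have : α ^ 2 * z.1 ≤ 1 / 8 := by
              have e : α ^ 2 * z.1 = α * (α * z.1) := by ring
              rw [e]
              calc α * (α * z.1) ≤ α * 1 := mul_le_mul_of_nonneg_left hax hα.le
                _ ≤ 1 / 8 := by linarith
            nlinarith [sq_nonneg α]
          have h4 : (C₀ * Real.exp (2 / 5)) * (Real.exp (-z.1) *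
              (-2 * (1 + α ^ 2) + wE α z + 4 * α ^ 2 * z.1)) ≤ 0 := by
            apply mul_nonpos_of_nonneg_of_nonpos (by positivity)
            exact mul_nonpos_of_nonneg_of_nonpos (Real.exp_pos _).le h3
          linarith
        · intro z hz
          obtain ⟨h1, h2, h3⟩ := BLWJ_fr hα hO hz
          rcases h3 with ⟨h3, h4⟩ | ⟨h3, h4⟩
          · rw [h.zero z h3]
            show 0 ≤ (C₀ * Real.exp (2 / 5)) * (wE α z * Real.exp (-z.1)) +
              (μ * Real.exp B / 2) * wE α z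
            rw [h4]; simp
          · exact hside z h3 (hcO h2) h4
      · exact hside q hq hq1 hqO
    have hw : 0 < wE α q := BLWJ_ell.mp hq
    have he1 : Real.exp (2 / 5) ≤ Real.exp 1 := Real.exp_le_exp.mpr (by norm_num)
    have hex := Real.exp_pos (-q.1)
    have he0 := Real.exp_pos (1 : ℝ)
    calc v q ≤ b q := hmain
      _ = ((C₀ * Real.exp (2 / 5)) * Real.exp (-q.1) + (μ * Real.exp B / 2)) * wE α q := by
          show (C₀ * Real.exp (2 / 5)) * (wE α q * Real.exp (-q.1)) +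
            (μ * Real.exp B / 2) * wE α q = _
          ring
      _ ≤ (C * (Real.exp (-q.1) + μ)) * wE α q := by
          apply mul_le_mul_of_nonneg_right _ hw.le
          have a1 : C₀ * Real.exp (2 / 5) * Real.exp (-q.1) ≤ C₀ * Real.exp 1 * Real.exp (-q.1) :=
            mul_le_mul_of_nonneg_right (mul_le_mul_of_nonneg_left he1 hC₀.le) hex.le
          have a2 : C * (Real.exp (-q.1) + μ) = C₀ * Real.exp 1 * Real.exp (-q.1) +
              Real.exp B * Real.exp (-q.1) + C₀ * Real.exp 1 * μ + Real.exp B * μ := by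
            rw [hC]; ring
          have a3 : 0 ≤ Real.exp B * Real.exp (-q.1) := by positivity
          have a4 : 0 ≤ C₀ * Real.exp 1 * μ := by positivity
          have a5 : 0 ≤ Real.exp B * μ := by positivity
          rw [a2]
          linarith
  intro α μ v hα hα8 h hp q hq hq1
  rcases le_total 0 q.1 with h0 | h0
  · rw [abs_of_nonneg h0] at hq1 ⊢
    exact key α μ v hα hα8 h hp q hq hq1
  · rw [abs_of_nonpos h0] at hq1 ⊢
    have hq' : (-q.1, q.2) ∈ Ell α := by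
      have : α ^ 2 * q.1 ^ 2 + q.2 ^ 2 < 1 := hq
      show α ^ 2 * (-q.1) ^ 2 + q.2 ^ 2 < 1
      rw [neg_sq]; exact this
    have hk := key α μ v hα hα8 h hp (-q.1, q.2) hq' hq1
    have e1 : v (-q.1, q.2) = v q := GSol.evx hα h q.1 q.2
    have e2 : wE α (-q.1, q.2) = wE α q := by
      show 1 - α ^ 2 * (-q.1) ^ 2 - q.2 ^ 2 = 1 - α ^ 2 * q.1 ^ 2 - q.2 ^ 2
      rw [neg_sq]
    rw [e1, e2] at hk
    exact hk

/-- the harmonic function `P` with the solution `κ` of the Dirichlet problem -/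
structure HP (α μ : ℝ) (v P κ : ℝ × ℝ → ℝ) : Prop where
  contP : ContinuousOn P (CEll α)
  smooth : ContDiffOn ℝ ∞ P (Ell α)
  harm : ∀ q ∈ Ell α, lap P q = 0
  rel : ∀ q ∈ Ell α, P q = κ q - (q.1 * dx v q + q.2 * dy v q)
  dir : Dir α (fun q => μ * Real.exp (v q) * (2 + κ q - P q)) κ
  evx : ∀ x y : ℝ, (x, y) ∈ CEll α → P (-x, y) = P (x, y)
  evy : ∀ x y : ℝ, (x, y) ∈ CEll α → P (x, -y) = P (x, y)

theorem hp_exists {α μ : ℝ} {v : ℝ × ℝ → ℝ} (hα : 0 < α) (hα1 : α ≤ 1) (h : GSol α μ v) :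
    ∃ P κ : ℝ × ℝ → ℝ, HP α μ v P κ := by
  have hD := isOpen_ell α
  have hμ := h.mu_pos
  have hsub : Ell α ⊆ CEll α := fun q hq => by
    rw [BLWJ_cell]; exact (BLWJ_ell.mp hq).le
  have hclos : CEll α ⊆ closure (Ell α) := (closure_ell hα).ge
  have hEc : Continuous fun q => μ * Real.exp (v q) :=
    continuous_const.mul (Real.continuous_exp.comp h.cont)
  have hM : ∀ q ∈ Ell α, |μ * Real.exp (v q)| ≤ μ * Real.exp (v (0, 0)) := by
    intro q _
    rw [abs_of_pos (by positivity)]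
    exact mul_le_mul_of_nonneg_left (Real.exp_le_exp.mpr (GSol.le_max hα h q)) hμ.le
  obtain ⟨-, gx, gy, hgx, hgy, hg, -⟩ := dir_c1 hα hα1 hEc.continuousOn (gsol_dir h) hM
  -- the Euler field
  set X : ℝ × ℝ → ℝ := fun q => q.1 * gx q + q.2 * gy q with hX
  have hXc : ContinuousOn X (CEll α) := (continuousOn_fst.mul hgx).add (continuousOn_snd.mul hgy)
  set Y : ℝ × ℝ → ℝ := fun q => q.1 * dx v q + q.2 * dy v q with hY
  have hXY : ∀ q ∈ Ell α, X q = Y q := by
    intro q hq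
    show q.1 * gx q + q.2 * gy q = q.1 * dx v q + q.2 * dy v q
    rw [(hg q hq).1, (hg q hq).2]
  have hvs := h.smooth
  have hYs : ContDiffOn ℝ ∞ Y (Ell α) :=
    (contDiff_fst.contDiffOn.mul (smooth_dx hD hvs)).add
      (contDiff_snd.contDiffOn.mul (smooth_dy hD hvs))
  have hXs : ContDiffOn ℝ ∞ X (Ell α) := hYs.congr hXY
  have hEs : ContDiffOn ℝ ∞ (fun q => μ * Real.exp (v q)) (Ell α) :=
    contDiffOn_const.mul hvs.exp
  set f : ℝ × ℝ → ℝ := fun q => μ * Real.exp (v q) * (2 + X q) with hf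
  have hfc : ContinuousOn f (CEll α) := hEc.continuousOn.mul (continuousOn_const.add hXc)
  have hfs : ContDiffOn ℝ ∞ f (Ell α) := hEs.mul (contDiffOn_const.add hXs)
  obtain ⟨κ, hκ⟩ := dir_exists hα hfc
  obtain ⟨hκs, hκl⟩ := dir_smooth hfs hκ
  set P : ℝ × ℝ → ℝ := fun q => κ q - X q with hP
  have hPc : ContinuousOn P (CEll α) := hκ.cont.continuousOn.sub hXc
  have hPs : ContDiffOn ℝ ∞ P (Ell α) := hκs.sub hXs
  -- the even right hand side
  set f1 : ℝ × ℝ → ℝ := fun q => μ * Real.exp (v q) * (2 + Y q) with hf1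
  have hff1 : ∀ q ∈ Ell α, f q = f1 q := by
    intro q hq
    show μ * Real.exp (v q) * (2 + X q) = μ * Real.exp (v q) * (2 + Y q)
    rw [hXY q hq]
  have hκ1 : Dir α f1 κ := dir_congr hff1 hκ
  have hf1c : ContinuousOn f1 (Ell α) :=
    hEc.continuousOn.mul (continuousOn_const.add hYs.continuousOn)
  have hvx := GSol.evx hα h
  have hvy := GSol.evy hα h
  have hYx : EvX Y := by
    intro x y
    show -x * dx v (-x, y) + y * dy v (-x, y) = x * dx v (x, y) + y * dy v (x, y)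
    rw [dx_of_evx hvx, dy_of_evx hvx]; ring
  have hYy : EvY Y := by
    intro x y
    show x * dx v (x, -y) + -y * dy v (x, -y) = x * dx v (x, y) + y * dy v (x, y)
    rw [dx_of_evy hvy, dy_of_evy hvy]; ring
  have hκx : EvX κ := dir_evx hα hf1c hκ1 (by
    intro x y
    show μ * Real.exp (v (-x, y)) * (2 + Y (-x, y)) = μ * Real.exp (v (x, y)) * (2 + Y (x, y))
    rw [hvx, hYx])
  have hκy : EvY κ := dir_evy hα hf1c hκ1 (by
    intro x y
    show μ * Real.exp (v (x, -y)) * (2 + Y (x, -y)) = μ * Real.exp (v (x, y)) * (2 + Y (x, y))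
    rw [hvy, hYy])
  have hrx : ∀ q ∈ Ell α, (-q.1, q.2) ∈ Ell α := by
    intro q hq
    have : α ^ 2 * q.1 ^ 2 + q.2 ^ 2 < 1 := hq
    show α ^ 2 * (-q.1) ^ 2 + q.2 ^ 2 < 1
    rw [neg_sq]; exact this
  have hry : ∀ q ∈ Ell α, (q.1, -q.2) ∈ Ell α := by
    intro q hq
    have : α ^ 2 * q.1 ^ 2 + q.2 ^ 2 < 1 := hq
    show α ^ 2 * q.1 ^ 2 + (-q.2) ^ 2 < 1
    rw [neg_sq]; exact this
  have hrx' : ∀ q ∈ CEll α, (-q.1, q.2) ∈ CEll α := by
    intro q hq
    have : α ^ 2 * q.1 ^ 2 + q.2 ^ 2 ≤ 1 := hq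
    show α ^ 2 * (-q.1) ^ 2 + q.2 ^ 2 ≤ 1
    rw [neg_sq]; exact this
  have hry' : ∀ q ∈ CEll α, (q.1, -q.2) ∈ CEll α := by
    intro q hq
    have : α ^ 2 * q.1 ^ 2 + q.2 ^ 2 ≤ 1 := hq
    show α ^ 2 * q.1 ^ 2 + (-q.2) ^ 2 ≤ 1
    rw [neg_sq]; exact this
  refine ⟨P, κ, hPc, hPs, ?_, ?_, ?_, ?_, ?_⟩
  · intro q hq
    have e1 : lap P q = lap κ q - lap X q :=
      lap_sub hD (hκs.of_le BLWJ_two) (hXs.of_le BLWJ_two) hq
    have e2 : lap X q = lap Y q := lap_congr hD hXY hq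
    have e3 : lap Y q = 2 * lap v q + (q.1 * dx (lap v) q + q.2 * dy (lap v) q) :=
      lap_euler hD (hvs.of_le ENat.LEInfty.out) hq
    have hE : ∀ z ∈ Ell α, lap v z = (-1) * (μ * Real.exp (v z)) := by
      intro z hz; have := h.eq z hz; linarith
    have hdv : DifferentiableAt ℝ v q :=
      (hvs.contDiffAt (hD.mem_nhds hq)).differentiableAt (by simp)
    have hdexp : DifferentiableAt ℝ (fun z => Real.exp (v z)) q := hdv.exp
    have hx : dx (lap v) q = (-1) * (μ * (Real.exp (v q) * dx v q)) := by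
      rw [dx_congr hD hE hq, dx_const_mul (-1) (hdexp.const_mul μ), dx_const_mul μ hdexp,
        dx_comp (F := Real.exp) hdv Real.differentiableAt_exp, Real.deriv_exp]
    have hy : dy (lap v) q = (-1) * (μ * (Real.exp (v q) * dy v q)) := by
      rw [dy_congr hD hE hq, dy_const_mul (-1) (hdexp.const_mul μ), dy_const_mul μ hdexp,
        dy_comp (F := Real.exp) hdv Real.differentiableAt_exp, Real.deriv_exp]
    have e4 : -lap κ q = μ * Real.exp (v q) * (2 + X q) := hκl q hq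
    have e5 : X q = q.1 * dx v q + q.2 * dy v q := hXY q hq
    rw [e1, e2, e3, hx, hy, hE q hq]
    rw [e5] at e4
    linear_combination (-1) * e4
  · intro q hq
    show κ q - X q = _
    rw [hXY q hq]
  · refine dir_congr ?_ hκ
    intro q _
    show μ * Real.exp (v q) * (2 + X q) = μ * Real.exp (v q) * (2 + κ q - (κ q - X q))
    ring
  · have hc1 : ContinuousOn (fun q : ℝ × ℝ => P (-q.1, q.2)) (CEll α) :=
      hPc.comp (by fun_prop) hrx'
    have heq : Set.EqOn (fun q : ℝ × ℝ => P (-q.1, q.2)) P (Ell α) := by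
      intro q hq
      show κ (-q.1, q.2) - X (-q.1, q.2) = κ q - X q
      rw [hXY _ (hrx q hq), hXY q hq]
      have a1 : κ (-q.1, q.2) = κ q := hκx q.1 q.2
      have a2 : Y (-q.1, q.2) = Y q := hYx q.1 q.2
      rw [a1, a2]
    have := heq.of_subset_closure hc1 hPc hsub hclos
    intro x y hxy
    exact this hxy
  · have hc1 : ContinuousOn (fun q : ℝ × ℝ => P (q.1, -q.2)) (CEll α) :=
      hPc.comp (by fun_prop) hry'
    have heq : Set.EqOn (fun q : ℝ × ℝ => P (q.1, -q.2)) P (Ell α) := by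
      intro q hq
      show κ (q.1, -q.2) - X (q.1, -q.2) = κ q - X q
      rw [hXY _ (hry q hq), hXY q hq]
      have a1 : κ (q.1, -q.2) = κ q := hκy q.1 q.2
      have a2 : Y (q.1, -q.2) = Y q := hYy q.1 q.2
      rw [a1, a2]
    have := heq.of_subset_closure hc1 hPc hsub hclos
    intro x y hxy
    exact this hxy

/-- boundary values of `P` from a bound of `v` near the boundary -/
private theorem BLWJ_lim {α μ : ℝ} {v P κ : ℝ × ℝ → ℝ} (hα : 0 < α) (h : GSol α μ v)
    (hP : HP α μ v P κ) {q : ℝ × ℝ} (hq : wE α q = 0) {K s₀ : ℝ} (hs₀ : 0 ≤ s₀) (hs1 : s₀ < 1)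
    (hK : ∀ s : ℝ, s₀ < s → s < 1 → v (s * q.1, s * q.2) ≤ K * (1 - s)) :
    0 ≤ P q ∧ P q ≤ K := by
  have hwE : ∀ s : ℝ, wE α (s * q.1, s * q.2) = 1 - s ^ 2 := by
    intro s
    have hq' : 1 - α ^ 2 * q.1 ^ 2 - q.2 ^ 2 = 0 := hq
    show 1 - α ^ 2 * (s * q.1) ^ 2 - (s * q.2) ^ 2 = 1 - s ^ 2
    linear_combination s ^ 2 * hq'
  have hin : ∀ s : ℝ, 0 ≤ s → s < 1 → (s * q.1, s * q.2) ∈ Ell α := by
    intro s h0 h1
    rw [BLWJ_ell, hwE]; nlinarith
  have hnot : q ∉ Ell α := by rw [BLWJ_ell, hq]; exact lt_irrefl 0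
  have hcq : q ∈ CEll α := by rw [BLWJ_cell, hq]
  have hv0 : ∀ q, 0 ≤ v q := GSol.nonneg hα h
  -- derivative along the ray
  have hder : ∀ s : ℝ, 0 ≤ s → s < 1 → HasDerivAt (fun s : ℝ => v (s * q.1, s * q.2))
      (q.1 * dx v (s * q.1, s * q.2) + q.2 * dy v (s * q.1, s * q.2)) s := by
    intro s h0 h1
    have hd : DifferentiableAt ℝ v (s * q.1, s * q.2) :=
      (h.smooth.contDiffAt ((isOpen_ell α).mem_nhds (hin s h0 h1))).differentiableAt (by simp)
    have h2 : HasDerivAt (fun s : ℝ => (s * q.1, s * q.2)) (q.1, q.2) s := by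
      have a1 : HasDerivAt (fun s : ℝ => s * q.1) q.1 s := by
        simpa using (hasDerivAt_id s).mul_const q.1
      have a2 : HasDerivAt (fun s : ℝ => s * q.2) q.2 s := by
        simpa using (hasDerivAt_id s).mul_const q.2
      exact a1.prodMk a2
    have := hd.hasFDerivAt.comp_hasDerivAt s h2
    rw [fderiv_apply_eq hd] at this
    exact this
  have hvc : Continuous (fun s : ℝ => v (s * q.1, s * q.2)) := h.cont.comp (by fun_prop)
  have hv1 : v (1 * q.1, 1 * q.2) = 0 := by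
    rw [one_mul, one_mul]; exact h.zero q hnot
  -- the sequence
  have hseq : ∀ n : ℕ, ∃ ξ : ℝ, 1 - (1 - s₀) / (n + 2) < ξ ∧ ξ < 1 ∧
      κ (ξ * q.1, ξ * q.2) ≤ P (ξ * q.1, ξ * q.2) ∧
      P (ξ * q.1, ξ * q.2) ≤ κ (ξ * q.1, ξ * q.2) + K := by
    intro n
    set s := 1 - (1 - s₀) / (n + 2) with hs
    have hn : (0 : ℝ) < n + 2 := by positivity
    have hdiv : 0 < (1 - s₀) / (n + 2) := div_pos (by linarith) hn
    have hdiv2 : (1 - s₀) / (n + 2) < 1 - s₀ := by
      rw [div_lt_iff₀ hn]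
      have : (0 : ℝ) ≤ n := Nat.cast_nonneg n
      nlinarith
    have hs1' : s < 1 := by rw [hs]; linarith
    have hs0' : s₀ < s := by rw [hs]; linarith
    have hs00 : 0 ≤ s := by linarith
    obtain ⟨ξ, hξ, hξ2⟩ := exists_hasDerivAt_eq_slope (fun s : ℝ => v (s * q.1, s * q.2))
      (fun s => q.1 * dx v (s * q.1, s * q.2) + q.2 * dy v (s * q.1, s * q.2)) hs1'
      hvc.continuousOn (fun x hx => hder x (by linarith [hx.1]) hx.2)
    rw [hv1] at hξ2
    have hξ0 : 0 ≤ ξ := by linarith [hξ.1]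
    have h1s : 0 < 1 - s := by linarith
    have hle : v (s * q.1, s * q.2) ≤ K * (1 - s) := hK s hs0' hs1'
    have hge : 0 ≤ v (s * q.1, s * q.2) := hv0 _
    set V := v (s * q.1, s * q.2) / (1 - s) with hV
    have hV0 : 0 ≤ V := div_nonneg hge h1s.le
    have hVK : V ≤ K := by rw [hV, div_le_iff₀ h1s]; exact hle
    have hξ3 : q.1 * dx v (ξ * q.1, ξ * q.2) + q.2 * dy v (ξ * q.1, ξ * q.2) = -V := by
      rw [hξ2, hV]; ring
    have hrel := hP.rel _ (hin ξ hξ0 hξ.2)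
    have hrel2 : P (ξ * q.1, ξ * q.2) = κ (ξ * q.1, ξ * q.2) + ξ * V := by
      rw [hrel]
      show κ (ξ * q.1, ξ * q.2) - (ξ * q.1 * dx v (ξ * q.1, ξ * q.2) +
        ξ * q.2 * dy v (ξ * q.1, ξ * q.2)) = _
      linear_combination (-ξ) * hξ3
    refine ⟨ξ, hξ.1, hξ.2, ?_, ?_⟩
    · rw [hrel2]
      have : 0 ≤ ξ * V := mul_nonneg hξ0 hV0
      linarith
    · rw [hrel2]
      have : ξ * V ≤ 1 * V := mul_le_mul_of_nonneg_right hξ.2.le hV0
      linarith
  choose ξ hξ1 hξ2 hξ3 hξ4 using hseq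
  have hlim : Filter.Tendsto ξ Filter.atTop (nhds 1) := by
    have h1 : Filter.Tendsto (fun n : ℕ => 1 - (1 - s₀) / ((n : ℝ) + 2)) Filter.atTop
        (nhds (1 - 0)) := by
      apply Filter.Tendsto.const_sub
      apply Filter.Tendsto.div_atTop tendsto_const_nhds
      exact Filter.tendsto_atTop_add_const_right _ _ tendsto_natCast_atTop_atTop
    rw [sub_zero] at h1
    exact tendsto_of_tendsto_of_tendsto_of_le_of_le h1 tendsto_const_nhds
      (fun n => (hξ1 n).le) (fun n => (hξ2 n).le)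
  have hmap : Continuous (fun s : ℝ => (s * q.1, s * q.2)) := by fun_prop
  have hpt : Filter.Tendsto (fun n => (ξ n * q.1, ξ n * q.2)) Filter.atTop (nhds q) := by
    have h1 := (hmap.tendsto 1).comp hlim
    have h2 : ((1 : ℝ) * q.1, (1 : ℝ) * q.2) = q := by simp
    rw [h2] at h1
    exact h1
  have hκlim : Filter.Tendsto (fun n => κ (ξ n * q.1, ξ n * q.2)) Filter.atTop (nhds 0) := by
    have := (hP.dir.cont.tendsto q).comp hpt
    rw [hP.dir.zero q hnot] at this
    exact this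
  have hξnn : ∀ n, 0 ≤ ξ n := by
    intro n
    have hn : (0 : ℝ) < n + 2 := by positivity
    have : (1 - s₀) / ((n : ℝ) + 2) ≤ 1 := by
      rw [div_le_iff₀ hn]
      have : (0 : ℝ) ≤ n := Nat.cast_nonneg n
      linarith
    have := hξ1 n
    linarith
  have hPlim : Filter.Tendsto (fun n => P (ξ n * q.1, ξ n * q.2)) Filter.atTop (nhds (P q)) := by
    have hca : ContinuousWithinAt P (CEll α) q := hP.contP q hcq
    refine hca.tendsto.comp (tendsto_nhdsWithin_iff.mpr ⟨hpt, Filter.Eventually.of_forall ?_⟩)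
    intro n
    rw [BLWJ_cell]
    exact (BLWJ_ell.mp (hin (ξ n) (hξnn n) (hξ2 n))).le
  constructor
  · exact le_of_tendsto_of_tendsto hκlim hPlim (Filter.Eventually.of_forall hξ3)
  · have := le_of_tendsto_of_tendsto hPlim (hκlim.add_const K) (Filter.Eventually.of_forall hξ4)
    simpa using this

private theorem BLWJ_frw {α : ℝ} (hα : 0 < α) {q : ℝ × ℝ} (hq : q ∈ frontier (Ell α)) :
    wE α q = 0 := by
  have h1 : q ∈ CEll α := by
    rw [← closure_ell hα]; exact frontier_subset_closure hq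
  have h2 : q ∉ Ell α := by
    have h : q ∈ closure (Ell α) \ interior (Ell α) := hq
    rw [(isOpen_ell α).interior_eq] at h
    exact h.2
  rw [BLWJ_ell] at h2
  rw [BLWJ_cell] at h1
  linarith

theorem hp_bdry : ∃ C : ℝ, 0 < C ∧ ∀ (α μ : ℝ) (v P κ : ℝ × ℝ → ℝ), 0 < α → α ≤ 1 →
    GSol α μ v → pst < v (0, 0) → HP α μ v P κ → ∀ q ∈ frontier (Ell α),
      0 ≤ P q ∧ P q ≤ C ∧ (α ≤ 1 / 8 → 1 / 2 ≤ |q.1| →
        P q ≤ C * (Real.exp (-|q.1|) + μ)) := by
  obtain ⟨C₀, hC₀, hv0⟩ := v_wE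
  obtain ⟨C₁, hC₁, hv1⟩ := v_decay
  have he1 := Real.exp_pos (1 : ℝ)
  have he1' : 1 ≤ Real.exp 1 := Real.one_le_exp (by norm_num)
  refine ⟨2 * C₀ + 2 * C₁ * Real.exp 1, by positivity, ?_⟩
  intro α μ v P κ hα hα1 h hp hP q hq
  have hμ := h.mu_pos
  have hw := BLWJ_frw hα hq
  have hw' : α ^ 2 * q.1 ^ 2 + q.2 ^ 2 = 1 := by
    have : 1 - α ^ 2 * q.1 ^ 2 - q.2 ^ 2 = 0 := hw
    linarith
  have hwE : ∀ s : ℝ, wE α (s * q.1, s * q.2) = 1 - s ^ 2 := by
    intro s
    show 1 - α ^ 2 * (s * q.1) ^ 2 - (s * q.2) ^ 2 = 1 - s ^ 2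
    linear_combination (-s ^ 2) * hw'
  have hin : ∀ s : ℝ, 0 ≤ s → s < 1 → (s * q.1, s * q.2) ∈ Ell α := by
    intro s h0 h1
    rw [BLWJ_ell, hwE]; nlinarith
  -- first bound
  have hbig : 7 / 10 ≤ |q.1| ∨ 7 / 10 ≤ |q.2| := by
    by_contra hcon
    push Not at hcon
    have a1 : q.1 ^ 2 < 49 / 100 := by
      rw [← sq_abs]; nlinarith [abs_nonneg q.1, hcon.1]
    have a2 : q.2 ^ 2 < 49 / 100 := by
      rw [← sq_abs]; nlinarith [abs_nonneg q.2, hcon.2]
    have a3 : α ^ 2 * q.1 ^ 2 ≤ 1 * q.1 ^ 2 :=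
      mul_le_mul_of_nonneg_right (by nlinarith) (sq_nonneg _)
    linarith
  have hb1 := BLWJ_lim hα h hP hw (K := 2 * C₀) (s₀ := 4 / 5) (by norm_num) (by norm_num) (by
    intro s hs0 hs1
    have hvs := hv0 α μ v hα hα1 h hp (s * q.1, s * q.2) (hin s (by linarith) hs1) (by
      rcases hbig with hb | hb
      · left
        show 2 / 5 ≤ |s * q.1|
        rw [abs_mul, abs_of_pos (by linarith : (0 : ℝ) < s)]
        nlinarith [abs_nonneg q.1]
      · right
        show 2 / 5 ≤ |s * q.2|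
        rw [abs_mul, abs_of_pos (by linarith : (0 : ℝ) < s)]
        nlinarith [abs_nonneg q.2])
    rw [hwE] at hvs
    refine hvs.trans ?_
    have : 1 - s ^ 2 ≤ 2 * (1 - s) := by nlinarith
    calc C₀ * (1 - s ^ 2) ≤ C₀ * (2 * (1 - s)) := mul_le_mul_of_nonneg_left this hC₀.le
      _ = 2 * C₀ * (1 - s) := by ring)
  have hCle : 2 * C₀ ≤ 2 * C₀ + 2 * C₁ * Real.exp 1 := by
    have : 0 ≤ 2 * C₁ * Real.exp 1 := by positivity
    linarith
  refine ⟨hb1.1, hb1.2.trans hCle, ?_⟩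
  intro hα8 hq1
  have hpos : 0 < |q.1| := by linarith
  set s₀ : ℝ := max (4 / 5) (1 - 1 / |q.1|) with hs₀
  have hs₀1 : s₀ < 1 := by
    rw [hs₀]
    apply max_lt (by norm_num)
    have : 0 < 1 / |q.1| := by positivity
    linarith
  have hb2 := BLWJ_lim hα h hP hw (K := 2 * C₁ * (Real.exp 1 * Real.exp (-|q.1|) + μ)) (s₀ := s₀)
    ((by norm_num : (0 : ℝ) ≤ 4 / 5).trans (le_max_left _ _)) hs₀1 (by
    intro s hs0 hs1
    have hs45 : 4 / 5 < s := lt_of_le_of_lt (le_max_left _ _) hs0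
    have hs' : 1 - 1 / |q.1| < s := lt_of_le_of_lt (le_max_right _ _) hs0
    have hspos : 0 < s := by linarith
    have habs : |s * q.1| = s * |q.1| := by rw [abs_mul, abs_of_pos hspos]
    have hvs := hv1 α μ v hα hα8 h hp (s * q.1, s * q.2) (hin s hspos.le hs1) (by
      show 2 / 5 ≤ |s * q.1|
      rw [habs]; nlinarith)
    rw [hwE] at hvs
    refine hvs.trans ?_
    have h2 : 1 - s ^ 2 ≤ 2 * (1 - s) := by nlinarith
    have h3 : Real.exp (-|s * q.1|) ≤ Real.exp 1 * Real.exp (-|q.1|) := by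
      rw [← Real.exp_add]
      apply Real.exp_le_exp.mpr
      rw [habs]
      have : (1 - s) * |q.1| ≤ 1 := by
        have : 1 - s < 1 / |q.1| := by linarith
        calc (1 - s) * |q.1| ≤ 1 / |q.1| * |q.1| :=
              mul_le_mul_of_nonneg_right this.le hpos.le
          _ = 1 := by field_simp
      linarith
    have h4 : 0 ≤ 1 - s := by linarith
    calc C₁ * (Real.exp (-|(s * q.1, s * q.2).1|) + μ) * (1 - s ^ 2)
        ≤ C₁ * (Real.exp 1 * Real.exp (-|q.1|) + μ) * (2 * (1 - s)) := by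
          apply mul_le_mul _ h2 (by nlinarith) (by positivity)
          apply mul_le_mul_of_nonneg_left _ hC₁.le
          linarith [h3]
      _ = 2 * C₁ * (Real.exp 1 * Real.exp (-|q.1|) + μ) * (1 - s) := by ring)
  refine hb2.2.trans ?_
  have hx := Real.exp_pos (-|q.1|)
  have a1 : (2 * C₀ + 2 * C₁ * Real.exp 1) * (Real.exp (-|q.1|) + μ)
      = 2 * C₀ * (Real.exp (-|q.1|) + μ) + 2 * C₁ * (Real.exp 1 * Real.exp (-|q.1|)) +
        2 * C₁ * Real.exp 1 * μ := by ring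
  have a2 : 0 ≤ 2 * C₀ * (Real.exp (-|q.1|) + μ) := by positivity
  have a3 : 2 * C₁ * μ ≤ 2 * C₁ * Real.exp 1 * μ := by
    have : 0 ≤ 2 * C₁ * μ * (Real.exp 1 - 1) := mul_nonneg (by positivity) (by linarith)
    nlinarith
  rw [a1]
  linarith

theorem hp_bounds : ∃ C : ℝ, 0 < C ∧ ∀ (α μ : ℝ) (v P κ : ℝ × ℝ → ℝ), 0 < α → α ≤ 1 →
    GSol α μ v → pst < v (0, 0) → HP α μ v P κ → ∀ q ∈ CEll α, 0 ≤ P q ∧ P q ≤ C := by
  obtain ⟨C, hC, hb⟩ := hp_bdry
  refine ⟨C, hC, ?_⟩
  intro α μ v P κ hα hα1 h hp hP q hq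
  have hD := isOpen_ell α
  have hcl := closure_ell hα
  have hlc : ∀ (c : ℝ) (z : ℝ × ℝ), lap (fun _ : ℝ × ℝ => c) z = 0 := by
    intro c z
    have := lap_fst (q := z) (fun _ : ℝ => c) contDiff_const
    simpa using this
  have hcP : ContinuousOn P (closure (Ell α)) := by rw [hcl]; exact hP.contP
  have hq' : q ∈ closure (Ell α) := by rw [hcl]; exact hq
  constructor
  · refine wmp_bdd hD (BLWJ_bdd hα) (u := fun _ => 0) (b := P) contDiffOn_const
      (hP.smooth.of_le BLWJ_two) continuousOn_const hcP ?_ ?_ q hq'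
    · intro z hz
      rw [hlc, hP.harm z hz]
    · intro z hz
      exact (hb α μ v P κ hα hα1 h hp hP z hz).1
  · refine wmp_bdd hD (BLWJ_bdd hα) (u := P) (b := fun _ => C)
      (hP.smooth.of_le BLWJ_two) contDiffOn_const hcP continuousOn_const ?_ ?_ q hq'
    · intro z hz
      rw [hlc, hP.harm z hz]
    · intro z hz
      exact (hb α μ v P κ hα hα1 h hp hP z hz).2.1

theorem hp_far : ∃ C : ℝ, 0 < C ∧ ∀ (α μ R : ℝ) (v P κ : ℝ × ℝ → ℝ), 0 < α → α ≤ 1 / 8 →
    GSol α μ v → pst < v (0, 0) → HP α μ v P κ → 2 ≤ R → ∀ q ∈ CEll α, R ≤ |q.1| →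
      P q ≤ C * (Real.exp (-(R / 2)) + μ) := by
  obtain ⟨C₁, hC₁, hb1⟩ := hp_bdry
  obtain ⟨C₂, hC₂, hb2⟩ := hp_bounds
  refine ⟨C₁ + 2 * C₂, by positivity, ?_⟩
  -- points on the right
  have key : ∀ (α μ R : ℝ) (v P κ : ℝ × ℝ → ℝ), 0 < α → α ≤ 1 / 8 →
      GSol α μ v → pst < v (0, 0) → HP α μ v P κ → 2 ≤ R → ∀ q ∈ CEll α, R ≤ q.1 →
      P q ≤ (C₁ + 2 * C₂) * (Real.exp (-(R / 2)) + μ) := by
    intro α μ R v P κ hα hα8 h hp hP hR q hq hqR
    have hα1 : α ≤ 1 := by linarith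
    have hμ := h.mu_pos
    set O : Set (ℝ × ℝ) := {z | R / 2 < z.1} with hOdef
    have hO : IsOpen O := isOpen_lt continuous_const continuous_fst
    have hcO : closure O ⊆ {z | R / 2 ≤ z.1} := by
      apply closure_minimal
      · intro z hz
        have hz' : _ < z.1 := hz
        exact hz'.le
      · exact isClosed_le continuous_const continuous_fst
    have hcD : closure (Ell α ∩ O) ⊆ CEll α := by
      rw [← closure_ell hα]; exact closure_mono Set.inter_subset_left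
    set k := C₁ * (Real.exp (-(R / 2)) + μ) with hk
    have hk0 : 0 ≤ k := by positivity
    set A := C₂ * Real.exp (R / 2) with hA
    have hA0 : 0 < A := by positivity
    set F : ℝ → ℝ := fun x => A * Real.exp (-x) with hF
    set G : ℝ → ℝ := fun y => 2 - y ^ 2 with hG
    have hFs : ContDiff ℝ 2 F := by rw [hF]; fun_prop
    have hGs : ContDiff ℝ 2 G := by rw [hG]; fun_prop
    set b : ℝ × ℝ → ℝ := fun z => k + F z.1 * G z.2 with hb
    have hbs : ContDiff ℝ 2 b :=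
      contDiff_const.add ((hFs.comp contDiff_fst).mul (hGs.comp contDiff_snd))
    have hdF : deriv (deriv F) = fun x => A * Real.exp (-x) := by
      have d1 : deriv F = fun x => -(A * Real.exp (-x)) := by
        ext x
        have : HasDerivAt F (A * (Real.exp (-x) * (-1))) x :=
          ((hasDerivAt_id x).neg.exp).const_mul A
        rw [this.deriv]; ring
      rw [d1]
      ext x
      have : HasDerivAt (fun x : ℝ => -(A * Real.exp (-x))) (-(A * (Real.exp (-x) * (-1)))) x :=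
        (((hasDerivAt_id x).neg.exp).const_mul A).neg
      rw [this.deriv]; ring
    have hdG : deriv (deriv G) = fun _ => -2 := by
      have d1 : deriv G = fun y => -(2 * y) := by
        ext y
        have : HasDerivAt G (-(2 * y ^ 1 * 1)) y := by
          have := ((hasDerivAt_id y).pow 2).const_sub 2
          simpa using this
        rw [this.deriv]; ring
      rw [d1]
      ext y
      have : HasDerivAt (fun y : ℝ => -(2 * y)) (-(2 * 1)) y :=
        ((hasDerivAt_id y).const_mul 2).neg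
      rw [this.deriv]; ring
    have hbl : ∀ z, lap b z ≤ 0 := by
      intro z
      have hcc : ContDiff ℝ 2 (fun _ : ℝ => k) := contDiff_const
      have e : lap b z = lap (fun z : ℝ × ℝ => (fun _ : ℝ => k) z.1) z +
          lap (fun z : ℝ × ℝ => F z.1 * G z.2) z :=
        lap_add (q := z) isOpen_univ (f := fun _ : ℝ × ℝ => k)
          (g := fun z : ℝ × ℝ => F z.1 * G z.2) contDiffOn_const
          ((hFs.comp contDiff_fst).mul (hGs.comp contDiff_snd)).contDiffOn (Set.mem_univ z)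
      rw [lap_fst (fun _ : ℝ => k) hcc, lap_prod F G hFs hGs, hdF, hdG] at e
      have e2 : deriv (deriv (fun _ : ℝ => k)) z.1 = 0 := by simp
      rw [e2] at e
      rw [e]
      show 0 + (A * Real.exp (-z.1) * (2 - z.2 ^ 2) + A * Real.exp (-z.1) * (-2)) ≤ 0
      have : 0 ≤ A * Real.exp (-z.1) * z.2 ^ 2 := by positivity
      nlinarith
    have hy2 : ∀ z ∈ CEll α, z.2 ^ 2 ≤ 1 := by
      intro z hz
      have : α ^ 2 * z.1 ^ 2 + z.2 ^ 2 ≤ 1 := hz
      nlinarith [sq_nonneg (α * z.1)]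
    have hqcl : q ∈ closure (Ell α ∩ O) := by
      have h1 : q ∈ closure (Ell α) := by rw [closure_ell hα]; exact hq
      have h2 : q ∈ O := by show R / 2 < q.1; linarith
      have := hO.closure_inter (s := Ell α) ⟨h1, h2⟩
      exact this
    have main : P q ≤ b q := by
      refine wmp_bdd ((isOpen_ell α).inter hO) ((BLWJ_bdd hα).subset Set.inter_subset_left)
        (u := P) (b := b) ((hP.smooth.of_le BLWJ_two).mono Set.inter_subset_left)
        hbs.contDiffOn (hP.contP.mono hcD) hbs.continuous.continuousOn ?_ ?_ q hqcl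
      · rintro z ⟨hz1, _⟩
        rw [hP.harm z hz1]
        have := hbl z
        linarith
      · intro z hz
        obtain ⟨h1, h2, h3⟩ := BLWJ_fr hα hO hz
        have hz2 : R / 2 ≤ z.1 := hcO h2
        have hzy := hy2 z h1
        have hpos2 : 0 ≤ F z.1 * G z.2 := by
          show 0 ≤ A * Real.exp (-z.1) * (2 - z.2 ^ 2)
          apply mul_nonneg (by positivity); linarith
        rcases h3 with ⟨h3, h4⟩ | ⟨h3, h4⟩
        · have hfr : z ∈ frontier (Ell α) := by
            have : z ∈ closure (Ell α) \ interior (Ell α) := by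
              refine ⟨by rw [closure_ell hα]; exact h1, ?_⟩
              rw [(isOpen_ell α).interior_eq]; exact h3
            exact this
          have habs : |z.1| = z.1 := abs_of_pos (by linarith)
          have hbd := (hb1 α μ v P κ hα hα1 h hp hP z hfr).2.2 hα8
            (by rw [habs]; linarith)
          rw [habs] at hbd
          have : Real.exp (-z.1) ≤ Real.exp (-(R / 2)) := Real.exp_le_exp.mpr (by linarith)
          have h5 : C₁ * (Real.exp (-z.1) + μ) ≤ k := by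
            rw [hk]; exact mul_le_mul_of_nonneg_left (by linarith) hC₁.le
          show P z ≤ k + F z.1 * G z.2
          linarith
        · have hz3 : z.1 = R / 2 := le_antisymm (not_lt.mp h4) hz2
          have hbd := (hb2 α μ v P κ hα hα1 h hp hP z h1).2
          have : C₂ ≤ F z.1 * G z.2 := by
            show C₂ ≤ A * Real.exp (-z.1) * (2 - z.2 ^ 2)
            rw [hz3, hA]
            have e : C₂ * Real.exp (R / 2) * Real.exp (-(R / 2)) = C₂ := by
              rw [mul_assoc, ← Real.exp_add]; simp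
            rw [e]
            nlinarith
          show P z ≤ k + F z.1 * G z.2
          linarith
    have hfin : F q.1 * G q.2 ≤ 2 * C₂ * Real.exp (-(R / 2)) := by
      show A * Real.exp (-q.1) * (2 - q.2 ^ 2) ≤ 2 * C₂ * Real.exp (-(R / 2))
      have e : Real.exp (-q.1) ≤ Real.exp (-R) := Real.exp_le_exp.mpr (by linarith)
      have e2 : C₂ * Real.exp (R / 2) * Real.exp (-R) = C₂ * Real.exp (-(R / 2)) := by
        rw [mul_assoc, ← Real.exp_add]
        congr 2; ring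
      have h1 : A * Real.exp (-q.1) ≤ C₂ * Real.exp (-(R / 2)) := by
        rw [← e2, hA]
        exact mul_le_mul_of_nonneg_left e (by positivity)
      have hq2 := hy2 q hq
      calc A * Real.exp (-q.1) * (2 - q.2 ^ 2) ≤ (C₂ * Real.exp (-(R / 2))) * 2 := by
            apply mul_le_mul h1 (by nlinarith [sq_nonneg q.2]) (by linarith) (by positivity)
        _ = 2 * C₂ * Real.exp (-(R / 2)) := by ring
    have hbq : b q = k + F q.1 * G q.2 := rfl
    rw [hbq] at main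
    have : (C₁ + 2 * C₂) * (Real.exp (-(R / 2)) + μ) = k + 2 * C₂ * Real.exp (-(R / 2)) +
        2 * C₂ * μ := by rw [hk]; ring
    rw [this]
    have h5 : 0 ≤ 2 * C₂ * μ := by positivity
    linarith
  intro α μ R v P κ hα hα8 h hp hP hR q hq hqR
  rcases le_total 0 q.1 with h0 | h0
  · rw [abs_of_nonneg h0] at hqR
    exact key α μ R v P κ hα hα8 h hp hP hR q hq hqR
  · rw [abs_of_nonpos h0] at hqR
    have hq' : (-q.1, q.2) ∈ CEll α := by
      have : α ^ 2 * q.1 ^ 2 + q.2 ^ 2 ≤ 1 := hq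
      show α ^ 2 * (-q.1) ^ 2 + q.2 ^ 2 ≤ 1
      rw [neg_sq]; exact this
    have := key α μ R v P κ hα hα8 h hp hP hR (-q.1, q.2) hq' hqR
    have e : P (-q.1, q.2) = P q := hP.evx q.1 q.2 hq
    rw [e] at this
    exact this

end Pool.Agent.MFE
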