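import Pool.Agent.MFE.CRV

/-!
# MFE.BND: bounds for solutions and critical data

`dir_bound`, `dir_lip`, `dir_le` (comparison with `wE/(2(1+α²))`), `amp_bounds`,
`picone_nonneg` with `g = -dx v` on `Ell α ∩ {x > 0}`.
`no_cd`: let `t ≥ 0` (otherwise replace `φ, t` by `-φ, -t`). `-lap φ - Eφ = -E t ≤ 0`, `φ = 0` on the
boundary, so `φ ≤ 0` by `wmp_bdd_pot` (`b = 0`). Since `∫ e^v φ = t ∫ e^v ≥ 0` and `e^v φ ≤ 0`:
`φ = 0` (continuity), contradiction to `φ ≠ 0`.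
`cd_neg`, `cd_smul`: the equations are linear in `(φ, t)`.
`cd_dir`: `weak_of_c2`.
-/

open scoped ContDiff

namespace Pool.Agent.MFE

variable {α μ t : ℝ} {v φ : ℝ × ℝ → ℝ}

private theorem ell_zero (α : ℝ) : ((0 : ℝ), (0 : ℝ)) ∈ Ell α := by
  show α ^ 2 * (0 : ℝ) ^ 2 + (0 : ℝ) ^ 2 < 1
  norm_num

private theorem ell_sub (α : ℝ) : Ell α ⊆ CEll α := by
  intro q hq
  have h : α ^ 2 * q.1 ^ 2 + q.2 ^ 2 < 1 := hq
  exact (show α ^ 2 * q.1 ^ 2 + q.2 ^ 2 ≤ 1 from h.le)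

private theorem ell_bdd (hα : 0 < α) : Bornology.IsBounded (Ell α) :=
  (isCompact_cell hα).isBounded.subset (ell_sub α)

private theorem ell_fr (hα : 0 < α) {q : ℝ × ℝ} (hq : q ∈ frontier (Ell α)) :
    q ∉ Ell α ∧ wE α q = 0 := by
  rw [(isOpen_ell α).frontier_eq, closure_ell hα] at hq
  refine ⟨hq.2, ?_⟩
  have h1 : α ^ 2 * q.1 ^ 2 + q.2 ^ 2 ≤ 1 := hq.1
  have h2 : ¬ α ^ 2 * q.1 ^ 2 + q.2 ^ 2 < 1 := hq.2
  rw [wE]
  linarith [not_lt.1 h2]

private theorem sm2 {f : ℝ × ℝ → ℝ} {D : Set (ℝ × ℝ)} (h : ContDiffOn ℝ ∞ f D) :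
    ContDiffOn ℝ 2 f D := by
  exact_mod_cast contDiffOn_infty.1 h 2

private theorem lap_zero (q : ℝ × ℝ) : lap (fun _ : ℝ × ℝ => (0 : ℝ)) q = 0 := by
  have h1 : dx (fun _ : ℝ × ℝ => (0 : ℝ)) = fun _ => 0 := by
    funext z
    simp [dx]
  have h2 : dy (fun _ : ℝ × ℝ => (0 : ℝ)) = fun _ => 0 := by
    funext z
    simp [dy]
  rw [lap, h1, h2]
  simp [dx, dy]

theorem gsol_amp_pos (hα : 0 < α) (h : GSol α μ v) : 0 < v (0, 0) :=
  h.pos hα _ (ell_zero α)

theorem gsol_mu_le (hα : 0 < α) (hα1 : α ≤ 1) (h : GSol α μ v) : μ ≤ 4 * v (0, 0) := by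
  have h1 := (amp_bounds hα hα1 h).1
  have h0 := gsol_amp_pos hα h
  rw [div_le_iff₀ (by positivity)] at h1
  have h2 : α ^ 2 ≤ 1 := by nlinarith
  have h3 := mul_le_mul_of_nonneg_left h2 h0.le
  linarith

theorem gsol_mu_ge (hα : 0 < α) (hα1 : α ≤ 1) (h : GSol α μ v) :
    2 * v (0, 0) * Real.exp (-v (0, 0)) ≤ μ := by
  have h1 := (amp_bounds hα hα1 h).2
  have h0 := gsol_amp_pos hα h
  rw [le_div_iff₀ (by positivity)] at h1
  have h2 : 0 ≤ v (0, 0) * α ^ 2 := by positivity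
  have h3 : 2 * v (0, 0) ≤ μ * Real.exp (v (0, 0)) := by linarith
  rw [Real.exp_neg]
  rw [← div_eq_mul_inv, div_le_iff₀ (Real.exp_pos _)]
  exact h3

theorem gsol_abs (hα : 0 < α) (h : GSol α μ v) (q : ℝ × ℝ) : |v q| ≤ v (0, 0) := by
  rw [abs_of_nonneg (h.nonneg hα q)]
  exact h.le_max hα q

private theorem rhs_cont (h : GSol α μ v) : Continuous (fun q => μ * Real.exp (v q)) :=
  continuous_const.mul h.cont.rexp

private theorem rhs_bd (hα : 0 < α) (h : GSol α μ v) (q : ℝ × ℝ) :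
    |μ * Real.exp (v q)| ≤ μ * Real.exp (v (0, 0)) := by
  rw [abs_of_pos (mul_pos h.mu_pos (Real.exp_pos _))]
  exact mul_le_mul_of_nonneg_left (Real.exp_le_exp.2 (h.le_max hα q)) h.mu_pos.le

theorem gsol_lip (hα : 0 < α) (hα1 : α ≤ 1) (h : GSol α μ v) (q q' : ℝ × ℝ) :
    |v q - v q'| ≤ 17 * (μ * Real.exp (v (0, 0))) * (|q.1 - q'.1| + |q.2 - q'.2|) :=
  dir_lip hα hα1 (rhs_cont h).continuousOn (gsol_dir h) (fun q _ => rhs_bd hα h q) q q'

theorem gsol_upper (hα : 0 < α) (hα1 : α ≤ 1) (h : GSol α μ v) :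
    ∀ q ∈ Ell α, v q ≤ μ * Real.exp (v (0, 0)) / 2 * wE α q := by
  intro q hq
  exact (le_abs_self _).trans (dir_bound hα (rhs_cont h).continuousOn (gsol_dir h)
    (fun q _ => rhs_bd hα h q) q hq)

theorem gsol_lower (hα : 0 < α) (hα1 : α ≤ 1) (h : GSol α μ v) :
    ∀ q ∈ Ell α, μ / 4 * wE α q ≤ v q := by
  have hw : ContDiff ℝ 2 (wE α) := by
    unfold wE
    fun_prop
  have hu : ContDiff ℝ 2 (fun q => μ / 4 * wE α q) := contDiff_const.mul hw
  have main := wmp_bdd (u := fun q => μ / 4 * wE α q) (b := v) (isOpen_ell α) (ell_bdd hα)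
    hu.contDiffOn (sm2 h.smooth) hu.continuous.continuousOn h.cont.continuousOn ?_ ?_
  · intro q hq
    exact main q (subset_closure hq)
  · intro q hq
    have e1 : lap (fun z => μ / 4 * wE α z) q = μ / 4 * lap (wE α) q :=
      lap_const_mul (isOpen_ell α) (μ / 4) hw.contDiffOn hq
    rw [e1, lap_wE, h.eq q hq]
    have h1 : 1 ≤ Real.exp (v q) := Real.one_le_exp (h.nonneg hα q)
    have h2 := mul_le_mul_of_nonneg_left h1 h.mu_pos.le
    have h3 : α ^ 2 ≤ 1 := by nlinarith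
    have h4 := mul_le_mul_of_nonneg_left h3 h.mu_pos.le
    linarith
  · intro q hq
    obtain ⟨h1, h2⟩ := ell_fr hα hq
    show μ / 4 * wE α q ≤ v q
    rw [h2, h.zero q h1, mul_zero]

theorem gsol_stab (hα : 0 < α) (h : GSol α μ v) {f : ℝ × ℝ → ℝ} (hf : ContDiff ℝ 1 f)
    (hc : HasCompactSupport f) (hs : tsupport f ⊆ Ell α ∩ {q | 0 < q.1}) :
    ∫ q, μ * Real.exp (v q) * f q ^ 2 ≤ ∫ q, gdot f f q := by
  obtain ⟨⟨gx, hg1, hg2⟩, -⟩ := h.super hα
  have ho : IsOpen (Ell α ∩ {q : ℝ × ℝ | 0 < q.1}) :=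
    (isOpen_ell α).inter (isOpen_lt continuous_const continuous_fst)
  have h1 := picone_nonneg (c := fun q => μ * Real.exp (v q)) ho hg1
    (fun q hq => (hg2 q hq.1 hq.2).1) (rhs_cont h).continuousOn
    (fun q hq => (hg2 q hq.1 hq.2).2) hf hc hs
  have h2 : ∫ q in Ell α ∩ {q : ℝ × ℝ | 0 < q.1}, μ * Real.exp (v q) * f q ^ 2 =
      ∫ q, μ * Real.exp (v q) * f q ^ 2 := by
    refine MeasureTheory.setIntegral_eq_integral_of_forall_compl_eq_zero fun q hq => ?_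
    have : f q = 0 := by
      by_contra hne
      exact hq (hs (subset_tsupport f hne))
    rw [this]
    ring
  rw [← h2]
  exact h1

theorem cd_smul (h : CD α μ t v φ) {c : ℝ} (hc : c ≠ 0) :
    CD α μ (c * t) v (fun q => c * φ q) := by
  refine ⟨h.sol, continuous_const.mul h.cont, fun q hq => ?_, contDiffOn_const.mul h.smooth,
    fun q hq => ?_, ?_, fun x y => ?_, fun x y => ?_, ?_⟩
  · show c * φ q = 0
    rw [h.zero q hq, mul_zero]
  · rw [lap_const_mul (isOpen_ell α) c (sm2 h.smooth) hq]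
    have h1 := h.eq q hq
    have h2 : -(c * lap φ q) = c * (-lap φ q) := by ring
    rw [h2, h1]
    ring
  · have h1 : (fun q => Real.exp (v q) * (c * φ q - c * t)) =
        fun q => c * (Real.exp (v q) * (φ q - t)) := by
      funext q
      ring
    rw [h1, MeasureTheory.integral_const_mul, h.mean, mul_zero]
  · show c * φ (-x, y) = c * φ (x, y)
    rw [h.evx]
  · show c * φ (x, -y) = c * φ (x, y)
    rw [h.evy]
  · obtain ⟨q, hq⟩ := h.ne
    exact ⟨q, mul_ne_zero hc hq⟩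

theorem cd_dir (h : CD α μ t v φ) : Dir α (fun q => μ * Real.exp (v q) * (φ q - t)) φ :=
  dir_of_c2 h.cont h.zero (sm2 h.smooth) h.eq

/-- normalisation: the supremum is attained -/
theorem cd_norm (hα : 0 < α) (h : CD α μ t v φ) : ∃ (t' : ℝ) (φ' : ℝ × ℝ → ℝ) (c : ℝ), 0 < |c| ∧
    CD α μ t' v φ' ∧ 0 ≤ t' ∧ t' = c * t ∧ (∀ q, φ' q = c * φ q) ∧ (∀ q, |φ' q| ≤ 1) ∧
    ∃ q, |φ' q| = 1 := by
  obtain ⟨q₀, hq₀, hmax⟩ := (isCompact_cell hα).exists_isMaxOn
    ⟨_, ell_sub α (ell_zero α)⟩ h.cont.abs.continuousOn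
  have hall : ∀ q, |φ q| ≤ |φ q₀| := by
    intro q
    by_cases hq : q ∈ CEll α
    · exact hmax hq
    · rw [h.zero q (fun h' => hq (ell_sub α h')), abs_zero]
      exact abs_nonneg _
  have hpos : 0 < |φ q₀| := by
    obtain ⟨q, hq⟩ := h.ne
    exact lt_of_lt_of_le (abs_pos.2 hq) (hall q)
  obtain ⟨s, hs, hst⟩ : ∃ s : ℝ, |s| = 1 ∧ 0 ≤ s * t := by
    rcases le_total 0 t with ht | ht
    · exact ⟨1, abs_one, by linarith⟩
    · exact ⟨-1, by rw [abs_neg, abs_one], by linarith⟩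
  set c := s / |φ q₀| with hcdef
  have hcabs : |c| = 1 / |φ q₀| := by rw [hcdef, abs_div, hs, abs_abs]
  have hc0 : 0 < |c| := by
    rw [hcabs]
    positivity
  refine ⟨c * t, fun q => c * φ q, c, hc0, cd_smul h (abs_pos.1 hc0), ?_, rfl, fun q => rfl,
    fun q => ?_, q₀, ?_⟩
  · rw [hcdef, div_mul_eq_mul_div]
    exact div_nonneg hst hpos.le
  · rw [abs_mul, hcabs, one_div_mul_eq_div, div_le_one hpos]
    exact hall q
  · show |c * φ q₀| = 1
    rw [abs_mul, hcabs, one_div_mul_eq_div, div_self hpos.ne']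

theorem no_cd (hα : 0 < α) {g : ℝ × ℝ → ℝ} (h : CD α μ t v φ) (hg : ContDiffOn ℝ 2 g (Ell α))
    (hgc : ContinuousOn g (CEll α)) (gpos : ∀ q ∈ CEll α, 0 < g q)
    (hsup : ∀ q ∈ Ell α, μ * Real.exp (v q) * g q < -lap g q) : False := by
  obtain ⟨t', φ', c, -, h', ht', -, -, -, -⟩ := cd_norm hα h
  have hle : ∀ q ∈ closure (Ell α), φ' q ≤ 0 := by
    refine wmp_bdd_pot (u := φ') (b := fun _ => 0) (g := g) (c := fun q => μ * Real.exp (v q))
      (isOpen_ell α) (ell_bdd hα) (sm2 h'.smooth) contDiffOn_const hg h'.cont.continuousOn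
      continuousOn_const (by rwa [closure_ell hα]) (by rwa [closure_ell hα]) hsup ?_ ?_
    · intro q hq _
      rw [h'.eq q hq, lap_zero]
      have h1 : 0 ≤ μ * Real.exp (v q) * t' :=
        mul_nonneg (mul_nonneg h.sol.mu_pos.le (Real.exp_pos _).le) ht'
      linarith
    · intro q hq
      rw [h'.zero q (ell_fr hα hq).1]
  have hcF : Continuous (fun q => Real.exp (v q) * (t' - φ' q)) :=
    h.sol.cont.rexp.mul (continuous_const.sub h'.cont)
  have hint : MeasureTheory.IntegrableOn (fun q => Real.exp (v q) * (t' - φ' q)) (Ell α) :=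
    (hcF.continuousOn.integrableOn_compact (isCompact_cell hα)).mono_set (ell_sub α)
  have hzero : ∫ q in Ell α, Real.exp (v q) * (t' - φ' q) = 0 := by
    have h1 : (fun q => Real.exp (v q) * (t' - φ' q)) =
        fun q => -(Real.exp (v q) * (φ' q - t')) := by
      funext q
      ring
    rw [h1, MeasureTheory.integral_neg, h'.mean, neg_zero]
  have hnn : 0 ≤ᵐ[MeasureTheory.volume.restrict (Ell α)]
      (fun q => Real.exp (v q) * (t' - φ' q)) := by
    refine (MeasureTheory.ae_restrict_iff' (isOpen_ell α).measurableSet).2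
      (Filter.Eventually.of_forall fun q hq => ?_)
    have := hle q (subset_closure hq)
    exact mul_nonneg (Real.exp_pos _).le (by linarith)
  have hae := (MeasureTheory.setIntegral_eq_zero_iff_of_nonneg_ae hnn hint).1 hzero
  have heq := MeasureTheory.Measure.eqOn_open_of_ae_eq hae (isOpen_ell α) hcF.continuousOn
    continuousOn_const
  obtain ⟨q, hq⟩ := h'.ne
  by_cases hqE : q ∈ Ell α
  · have h1 : Real.exp (v q) * (t' - φ' q) = 0 := heq hqE
    have h2 : t' - φ' q = 0 := (mul_eq_zero.1 h1).resolve_left (Real.exp_pos _).ne'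
    have h3 := hle q (subset_closure hqE)
    exact hq (by linarith)
  · exact hq (h'.zero q hqE)

end Pool.Agent.MFE
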