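import Pool.Agent.MFE.BLWJ
import Pool.Agent.MFE.BND

/-!
# MFE.BLWK: the integral identity for `P`

`X = κ - P = x·∇v` in `Ell α`, `f = E (2 + X)`, `Dir α f κ`; `Dir α (E (φ - t)) φ` (`cd_dir`), both right
sides continuous on `CEll α`. `dir_sym`: `∫ E (φ-t) κ = ∫ E (2+X) φ`. Hence
`∫ E (φ-t) P = ∫ E (φ-t) κ - ∫ E (φ-t) X = ∫ E (2+X) φ - ∫ E (φ-t) X = 2 ∫ E φ + t ∫ E X`
`= 2 t ∫ E + t ∫ E X` (mean value condition `∫ E φ = t ∫ E`), and
`∫ E X = μ ∫ x·∇(e^v - 1) = -2 μ ∫ (e^v - 1)` (`pohozaev_like`), so the sum is `2 t μ |Ell α| =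
2 t μ π/α` (`area_ell`).
-/

open scoped ContDiff

namespace Pool.Agent.MFE

open MeasureTheory Filter Topology

private theorem BLWK_sub (α : ℝ) : Ell α ⊆ CEll α := by
  intro q hq
  have h : α ^ 2 * q.1 ^ 2 + q.2 ^ 2 < 1 := hq
  exact (show α ^ 2 * q.1 ^ 2 + q.2 ^ 2 ≤ 1 from h.le)

private theorem BLWK_int {α : ℝ} (hα : 0 < α) {f : ℝ × ℝ → ℝ} (hf : ContinuousOn f (CEll α)) :
    IntegrableOn f (Ell α) :=
  (hf.integrableOn_compact (isCompact_cell hα)).mono_set (BLWK_sub α)

private theorem BLWK_lipx {u : ℝ × ℝ → ℝ} {C : ℝ} {q : ℝ × ℝ} (hC : 0 ≤ C)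
    (hl : ∀ q q' : ℝ × ℝ, |u q - u q'| ≤ C * (|q.1 - q'.1| + |q.2 - q'.2|))
    (hd : DifferentiableAt ℝ u q) : |dx u q| ≤ C := by
  have h1 := hasDerivAt_dx hd
  have h2 : ‖deriv (fun s => u (s, q.2)) q.1‖ ≤ C := by
    refine norm_deriv_le_of_lip' hC (Eventually.of_forall fun s => ?_)
    have h3 := hl (s, q.2) q
    have h4 : |(s, q.2).1 - q.1| + |(s, q.2).2 - q.2| = |s - q.1| := by simp
    rw [h4] at h3
    simpa [Real.norm_eq_abs] using h3
  rwa [h1.deriv, Real.norm_eq_abs] at h2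

private theorem BLWK_lipy {u : ℝ × ℝ → ℝ} {C : ℝ} {q : ℝ × ℝ} (hC : 0 ≤ C)
    (hl : ∀ q q' : ℝ × ℝ, |u q - u q'| ≤ C * (|q.1 - q'.1| + |q.2 - q'.2|))
    (hd : DifferentiableAt ℝ u q) : |dy u q| ≤ C := by
  have h1 := hasDerivAt_dy hd
  have h2 : ‖deriv (fun s => u (q.1, s)) q.2‖ ≤ C := by
    refine norm_deriv_le_of_lip' hC (Eventually.of_forall fun s => ?_)
    have h3 := hl (q.1, s) q
    have h4 : |(q.1, s).1 - q.1| + |(q.1, s).2 - q.2| = |s - q.2| := by simp
    rw [h4] at h3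
    simpa [Real.norm_eq_abs] using h3
  rwa [h1.deriv, Real.norm_eq_abs] at h2

private theorem BLWK_poh {α μ : ℝ} {v : ℝ × ℝ → ℝ} (hα : 0 < α) (hα1 : α ≤ 1) (h : GSol α μ v) :
    ∫ q in Ell α, (2 * (Real.exp (v q) - 1) +
      Real.exp (v q) * (q.1 * dx v q + q.2 * dy v q)) = 0 := by
  have hm : 0 < v (0, 0) := gsol_amp_pos hα h
  have hμ := h.mu_pos
  set e : ℝ := Real.exp (v (0, 0)) with he
  have hep : 0 < e := Real.exp_pos _
  have hvd : ∀ q ∈ Ell α, DifferentiableAt ℝ v q := fun q hq =>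
    (h.smooth.differentiableOn (by simp)).differentiableAt ((isOpen_ell α).mem_nhds hq)
  have hle : ∀ q, v q ≤ v (0, 0) := fun q => (le_abs_self _).trans (gsol_abs hα h q)
  have hexp : ∀ q, Real.exp (v q) ≤ e := fun q => Real.exp_le_exp.2 (hle q)
  have hlip := gsol_lip hα hα1 h
  have hL0 : 0 ≤ 17 * (μ * e) := by positivity
  have hw1 : ContDiffOn ℝ 1 (fun q => Real.exp (v q) - 1) (Ell α) := by
    have h1 : ContDiffOn ℝ 1 v (Ell α) := by
      exact_mod_cast contDiffOn_infty.1 h.smooth 1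
    exact (h1.exp).sub contDiffOn_const
  have hdx : ∀ q ∈ Ell α, dx (fun q => Real.exp (v q) - 1) q = Real.exp (v q) * dx v q := by
    intro q hq
    have h1 := dx_comp (F := fun t => Real.exp t - 1) (hvd q hq)
      ((Real.differentiableAt_exp).sub_const 1)
    rw [h1]
    simp
  have hdy : ∀ q ∈ Ell α, dy (fun q => Real.exp (v q) - 1) q = Real.exp (v q) * dy v q := by
    intro q hq
    have h1 := dy_comp (F := fun t => Real.exp t - 1) (hvd q hq)
      ((Real.differentiableAt_exp).sub_const 1)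
    rw [h1]
    simp
  set C : ℝ := e * (17 * (μ * e)) with hC
  have hC0 : 0 ≤ C := by positivity
  have key := pohozaev_like (C := C) hα hw1 ?_ ?_
  · rw [← key]
    refine setIntegral_congr_fun (isOpen_ell α).measurableSet fun q hq => ?_
    show 2 * (Real.exp (v q) - 1) + Real.exp (v q) * (q.1 * dx v q + q.2 * dy v q) =
      2 * (Real.exp (v q) - 1) + (q.1 * dx (fun q => Real.exp (v q) - 1) q +
        q.2 * dy (fun q => Real.exp (v q) - 1) q)
    rw [hdx q hq, hdy q hq]
    ring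
  · intro q hq
    have h0 : 0 ≤ v q := h.nonneg hα q
    have h1 : 1 ≤ Real.exp (v q) := Real.one_le_exp h0
    have hwe : 0 ≤ wE α q := by
      have h5 : α ^ 2 * q.1 ^ 2 + q.2 ^ 2 < 1 := hq
      rw [wE]
      linarith
    rw [abs_of_nonneg (by linarith)]
    have h2 : Real.exp (v q) - 1 ≤ Real.exp (v q) * v q := by
      have h3 := Real.add_one_le_exp (-(v q))
      have h4 : Real.exp (-(v q)) * Real.exp (v q) = 1 := by
        rw [← Real.exp_add]
        simp
      nlinarith [Real.exp_pos (v q)]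
    have h3 : Real.exp (v q) * v q ≤ e * v q := mul_le_mul_of_nonneg_right (hexp q) h0
    have h4 : e * v q ≤ e * (μ * e / 2 * wE α q) :=
      mul_le_mul_of_nonneg_left (gsol_upper hα hα1 h q hq) hep.le
    have h5 : e * (μ * e / 2 * wE α q) ≤ C * wE α q := by
      have h6 : 0 ≤ e * (μ * e) * wE α q := by positivity
      rw [hC]
      nlinarith
    linarith
  · intro q hq
    have hx := BLWK_lipx hL0 hlip (hvd q hq)
    have hy := BLWK_lipy hL0 hlip (hvd q hq)
    rw [hdx q hq, hdy q hq, abs_mul, abs_mul, abs_of_pos (Real.exp_pos _)]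
    exact ⟨mul_le_mul (hexp q) hx (abs_nonneg _) hep.le, mul_le_mul (hexp q) hy (abs_nonneg _) hep.le⟩

theorem hp_ident {α μ t : ℝ} {v φ P κ : ℝ × ℝ → ℝ} (hα : 0 < α) (hα1 : α ≤ 1)
    (h : CD α μ t v φ) (hP : HP α μ v P κ) :
    ∫ q in Ell α, μ * Real.exp (v q) * (φ q - t) * P q = 2 * t * μ * (Real.pi / α) := by
  have hv : Continuous v := h.sol.cont
  have hφ : Continuous φ := h.cont
  have hκ : Continuous κ := hP.dir.cont
  have hPc : ContinuousOn P (CEll α) := hP.contP
  have hE : Continuous (fun q => Real.exp (v q)) := hv.rexp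
  have hms : MeasurableSet (Ell α) := (isOpen_ell α).measurableSet
  have hf1 : ContinuousOn (fun q => μ * Real.exp (v q) * (φ q - t)) (CEll α) := by
    have : Continuous (fun q => μ * Real.exp (v q) * (φ q - t)) := by fun_prop
    exact this.continuousOn
  have hf2 : ContinuousOn (fun q => μ * Real.exp (v q) * (2 + κ q - P q)) (CEll α) := by
    have h1 : ContinuousOn (fun q => μ * Real.exp (v q)) (CEll α) := by
      have : Continuous (fun q => μ * Real.exp (v q)) := by fun_prop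
      exact this.continuousOn
    have h2 : ContinuousOn (fun q => 2 + κ q) (CEll α) := by
      have : Continuous (fun q => 2 + κ q) := by fun_prop
      exact this.continuousOn
    exact h1.mul (h2.sub hPc)
  have hsym := dir_sym hα hα1 hf1 hf2 (cd_dir h) hP.dir
  have hX : ContinuousOn (fun q => κ q - P q) (CEll α) := hκ.continuousOn.sub hPc
  have i1 : IntegrableOn (fun q => μ * Real.exp (v q) * (φ q - t) * κ q) (Ell α) :=
    BLWK_int hα (hf1.mul hκ.continuousOn)
  have i2 : IntegrableOn (fun q => μ * Real.exp (v q) * (φ q - t) * (κ q - P q)) (Ell α) :=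
    BLWK_int hα (hf1.mul hX)
  have i3 : IntegrableOn (fun q => μ * Real.exp (v q) * (2 + κ q - P q) * φ q) (Ell α) :=
    BLWK_int hα (hf2.mul hφ.continuousOn)
  have i4 : IntegrableOn (fun q => Real.exp (v q) * (φ q - t)) (Ell α) :=
    BLWK_int hα (hE.mul (hφ.sub continuous_const)).continuousOn
  have hG : ContinuousOn (fun q => 2 * (Real.exp (v q) - 1) + Real.exp (v q) * (κ q - P q)) (CEll α) := by
    have h1 : Continuous (fun q => 2 * (Real.exp (v q) - 1)) := by fun_prop
    exact h1.continuousOn.add (hE.continuousOn.mul hX)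
  have i5 := BLWK_int hα hG
  have hpoh : ∫ q in Ell α, (2 * (Real.exp (v q) - 1) + Real.exp (v q) * (κ q - P q)) = 0 := by
    rw [← BLWK_poh hα hα1 h.sol]
    refine setIntegral_congr_fun hms fun q hq => ?_
    have h1 := hP.rel q hq
    show 2 * (Real.exp (v q) - 1) + Real.exp (v q) * (κ q - P q) =
      2 * (Real.exp (v q) - 1) + Real.exp (v q) * (q.1 * dx v q + q.2 * dy v q)
    rw [h1]
    ring
  have e1 : ∫ q in Ell α, μ * Real.exp (v q) * (φ q - t) * P q =
      (∫ q in Ell α, μ * Real.exp (v q) * (φ q - t) * κ q) -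
        ∫ q in Ell α, μ * Real.exp (v q) * (φ q - t) * (κ q - P q) := by
    rw [← integral_sub i1 i2]
    refine setIntegral_congr_fun hms fun q _ => ?_
    show μ * Real.exp (v q) * (φ q - t) * P q = μ * Real.exp (v q) * (φ q - t) * κ q -
      μ * Real.exp (v q) * (φ q - t) * (κ q - P q)
    ring
  rw [e1, hsym, ← integral_sub i3 i2]
  have i6 : IntegrableOn (fun _ : ℝ × ℝ => (2 * t * μ : ℝ)) (Ell α) :=
    BLWK_int hα continuousOn_const
  have e2 : ∫ q in Ell α, (μ * Real.exp (v q) * (2 + κ q - P q) * φ q -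
      μ * Real.exp (v q) * (φ q - t) * (κ q - P q)) =
      ∫ q in Ell α, ((2 * μ) * (Real.exp (v q) * (φ q - t)) +
        (t * μ) * (2 * (Real.exp (v q) - 1) + Real.exp (v q) * (κ q - P q)) + 2 * t * μ) := by
    refine setIntegral_congr_fun hms fun q _ => ?_
    show μ * Real.exp (v q) * (2 + κ q - P q) * φ q -
      μ * Real.exp (v q) * (φ q - t) * (κ q - P q) = (2 * μ) * (Real.exp (v q) * (φ q - t)) +
        (t * μ) * (2 * (Real.exp (v q) - 1) + Real.exp (v q) * (κ q - P q)) + 2 * t * μ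
    ring
  have i8 : IntegrableOn (fun q => (2 * μ) * (Real.exp (v q) * (φ q - t))) (Ell α) := i4.const_mul _
  have i9 : IntegrableOn (fun q => (t * μ) * (2 * (Real.exp (v q) - 1) +
      Real.exp (v q) * (κ q - P q))) (Ell α) := i5.const_mul _
  have i7 : IntegrableOn (fun q => (2 * μ) * (Real.exp (v q) * (φ q - t)) +
      (t * μ) * (2 * (Real.exp (v q) - 1) + Real.exp (v q) * (κ q - P q))) (Ell α) := i8.add i9
  rw [e2, integral_add i7 i6, integral_add i8 i9, integral_const_mul, integral_const_mul, h.mean,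
    hpoh, setIntegral_const, Measure.real, area_ell hα, ENNReal.toReal_ofReal (by positivity),
    smul_eq_mul]
  ring

end Pool.Agent.MFE
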