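import Pool.Agent.MFE.BLWI
import Pool.Agent.MFE.BLWJ

/-!
# MFE.BLWL: blow-up: `κ → 0` away from the origin and `P(0) → 4`

`x_bound`: `Y = -x·∇v = P - κ ≥ 0` (`euler_nonpos`), continuous on `CEll α`, `-lap Y = E (Y - 2) ≤ E Y`.
Near the origin (`|q| ≤ r₁`): `Y ≤ 4 + C r₁²` (`xv_expand`). Off `Sq 0 δ₀` (`δ₀ = r₁/2`): for `n` large
`E ≤ 1/2` (`e_off`), `Y ≤ C` on the boundary of the square and `Y = P ≤ C` on the boundary of the ellipse
(`κ = 0` there, `hp_bdry`); compare with `C (2 - y²)`: `-lap - E` of it is `C (2 - E (2 - y²)) > 0`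
(`wmp_bdd_pot`): `Y ≤ 2C`. So `|κ| ≤ P + Y ≤ C'` on `CEll (α n)`.
`kappa_small`: `|lap κ| = E |2 - Y| ≤ (2 + C) E → 0` off `Sq 0 δ` (`e_off`), `|κ| ≤ C'`, `κ = 0`
outside: `near_harm`.
`p_zero`: on the circle `|q| = s ≤ r₁/2`: `P = Y + κ`, `|κ| ≤ ε` for large `n` (the circle is off
`Sq 0 (s/2)`), `|Y - 4 b s²/(a + b s²)| ≤ C s²` (`xv_expand`), and `4 b s²/(a+bs²) → 4`. Mean value
property (`circAvg_eq`): `|P n (0,0) - 4| ≤ C s² + 2ε` for large `n`; `s`, `ε` are arbitrary.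
-/

open scoped ContDiff
open Filter Topology

namespace Pool.Agent.MFE

variable {α μ t : ℕ → ℝ} {v φ P κ : ℕ → ℝ × ℝ → ℝ}

private theorem blwl_sm2 {f : ℝ × ℝ → ℝ} {D : Set (ℝ × ℝ)} (h : ContDiffOn ℝ ∞ f D) :
    ContDiffOn ℝ 2 f D := by
  exact_mod_cast contDiffOn_infty.1 h 2

private theorem blwl_lap_const (C : ℝ) (q : ℝ × ℝ) : lap (fun _ => C) q = 0 := by
  have h1 : dx (fun _ : ℝ × ℝ => C) = fun _ => 0 := by
    funext z; unfold dx; simp
  have h2 : dy (fun _ : ℝ × ℝ => C) = fun _ => 0 := by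
    funext z; unfold dy; simp
  unfold lap
  rw [h1, h2]
  unfold dx dy
  simp

private theorem blwl_lap_g (C : ℝ) (q : ℝ × ℝ) :
    lap (fun z : ℝ × ℝ => C * (2 - z.2 ^ 2)) q = -2 * C := by
  have hF : ContDiff ℝ 2 (fun s : ℝ => C * (2 - s ^ 2)) := by fun_prop
  have h := lap_snd (q := q) (fun s : ℝ => C * (2 - s ^ 2)) hF
  rw [h]
  have h1 : ∀ s : ℝ, HasDerivAt (fun s : ℝ => C * (2 - s ^ 2)) (C * (0 - 2 * s)) s := fun s => by
    have := ((hasDerivAt_const s (2 : ℝ)).sub (hasDerivAt_pow 2 s)).const_mul C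
    refine this.congr_deriv ?_
    norm_num
  have h2 : deriv (fun s : ℝ => C * (2 - s ^ 2)) = fun s => C * (0 - 2 * s) :=
    funext fun s => (h1 s).deriv
  rw [h2]
  have h3 : HasDerivAt (fun s : ℝ => C * (0 - 2 * s)) (C * (0 - 2 * 1)) q.2 :=
    ((hasDerivAt_const q.2 (0 : ℝ)).sub ((hasDerivAt_id q.2).const_mul 2)).const_mul C
  rw [h3.deriv]
  ring

private theorem blwl_bdd {α : ℝ} (hα : 0 < α) : Bornology.IsBounded (Ell α) :=
  (isCompact_cell hα).isBounded.subset fun q hq => by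
    have h : α ^ 2 * q.1 ^ 2 + q.2 ^ 2 < 1 := hq
    exact h.le

/-- smoothness and equation of `κ` -/
private theorem blwl_kappa {α μ : ℝ} {v P κ : ℝ × ℝ → ℝ} (hs : GSol α μ v) (hP : HP α μ v P κ) :
    ContDiffOn ℝ ∞ κ (Ell α) ∧ ∀ q ∈ Ell α,
      -lap κ q = μ * Real.exp (v q) * (2 + (q.1 * dx v q + q.2 * dy v q)) := by
  have hD := isOpen_ell α
  have hv := hs.smooth
  have hg : ContDiffOn ℝ ∞ (fun q : ℝ × ℝ =>
      μ * Real.exp (v q) * (2 + (q.1 * dx v q + q.2 * dy v q))) (Ell α) := by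
    have h1 := smooth_dx hD hv
    have h2 := smooth_dy hD hv
    exact (contDiffOn_const.mul hv.exp).mul (contDiffOn_const.add
      ((contDiff_fst.contDiffOn.mul h1).add (contDiff_snd.contDiffOn.mul h2)))
  refine dir_smooth hg (dir_congr (fun q hq => ?_) hP.dir)
  have h0 := hP.rel q hq
  have h3 : 2 + κ q - P q = 2 + (q.1 * dx v q + q.2 * dy v q) := by linarith
  rw [h3]

/-- the bound for one element of the sequence -/
private theorem blwl_single {α μ : ℝ} {v P κ : ℝ × ℝ → ℝ} (hα : 0 < α)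
    (hs : GSol α μ v) (hP : HP α μ v P κ) {δ₀ C : ℝ} (hC : 0 < C)
    (hE : ∀ q : ℝ × ℝ, (δ₀ ≤ |q.1| ∨ δ₀ ≤ |q.2|) → μ * Real.exp (v q) ≤ 1 / 2)
    (hin : ∀ q ∈ Ell α, |q.1| ≤ δ₀ → |q.2| ≤ δ₀ → -(q.1 * dx v q + q.2 * dy v q) ≤ C)
    (hPC : ∀ q ∈ CEll α, 0 ≤ P q ∧ P q ≤ C) :
    ∀ q ∈ Ell α, |q.1 * dx v q + q.2 * dy v q| ≤ 2 * C ∧ |κ q| ≤ 3 * C := by
  have hD := isOpen_ell α
  obtain ⟨hκs, hκe⟩ := blwl_kappa hs hP
  have hsub : Ell α ⊆ CEll α := fun q hq => by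
    have h : α ^ 2 * q.1 ^ 2 + q.2 ^ 2 < 1 := hq
    exact h.le
  have hY2 : ∀ q ∈ CEll α, 1 ≤ 2 - q.2 ^ 2 := fun q hq => by
    have h : α ^ 2 * q.1 ^ 2 + q.2 ^ 2 ≤ 1 := hq
    have h2 : 0 ≤ α ^ 2 * q.1 ^ 2 := by positivity
    linarith
  -- the domain
  set D : Set (ℝ × ℝ) := {q | q ∈ Ell α ∧ (δ₀ < |q.1| ∨ δ₀ < |q.2|)} with hDdef
  have hDo : IsOpen D := by
    have h1 : Continuous fun q : ℝ × ℝ => |q.1| := by fun_prop
    have h2 : Continuous fun q : ℝ × ℝ => |q.2| := by fun_prop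
    exact hD.inter ((isOpen_lt continuous_const h1).union (isOpen_lt continuous_const h2))
  have hDs : D ⊆ Ell α := fun q hq => hq.1
  have hDb : Bornology.IsBounded D := (blwl_bdd hα).subset hDs
  have hDc : closure D ⊆ CEll α := by
    rw [← closure_ell hα]
    exact closure_mono hDs
  have hYell : ∀ q ∈ Ell α, P q - κ q = -(q.1 * dx v q + q.2 * dy v q) := fun q hq => by
    have := hP.rel q hq
    linarith
  have hlapu : ∀ q ∈ Ell α, lap (fun z => P z - κ z) q =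
      μ * Real.exp (v q) * (2 - (P q - κ q)) := fun q hq => by
    rw [lap_sub hD (blwl_sm2 hP.smooth) (blwl_sm2 hκs) hq, hP.harm q hq]
    have h1 := hκe q hq
    have h2 := hYell q hq
    rw [h2]
    linarith
  have hE0 : ∀ q, 0 < μ * Real.exp (v q) := fun q => mul_pos hs.mu_pos (Real.exp_pos _)
  have hED : ∀ q ∈ D, μ * Real.exp (v q) ≤ 1 / 2 := fun q hq =>
    hE q (hq.2.imp le_of_lt le_of_lt)
  have hgc : Continuous fun z : ℝ × ℝ => C * (2 - z.2 ^ 2) := by fun_prop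
  have hgc1 : Continuous fun z : ℝ × ℝ => 1 * (2 - z.2 ^ 2) := by fun_prop
  have hgs : ContDiff ℝ 2 fun z : ℝ × ℝ => C * (2 - z.2 ^ 2) := by fun_prop
  have hgs1 : ContDiff ℝ 2 fun z : ℝ × ℝ => 1 * (2 - z.2 ^ 2) := by fun_prop
  have hcu : ContinuousOn (fun z => P z - κ z) (closure D) :=
    (hP.contP.mono hDc).sub hP.dir.cont.continuousOn
  have hmain := wmp_bdd_pot hDo hDb (u := fun z => P z - κ z)
    (b := fun z => C * (2 - z.2 ^ 2)) (g := fun z => 1 * (2 - z.2 ^ 2))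
    (c := fun q => μ * Real.exp (v q))
    ((blwl_sm2 (hP.smooth.sub hκs)).mono hDs) hgs.contDiffOn hgs1.contDiffOn hcu
    hgc.continuousOn hgc1.continuousOn
    (fun q hq => by
      have := hY2 q (hDc hq)
      linarith)
    (fun q hq => by
      rw [blwl_lap_g]
      have h1 := hED q hq
      have h2 := hE0 q
      have h3 : 1 * (2 - q.2 ^ 2) ≤ 2 := by
        have := sq_nonneg q.2
        linarith
      have h4 : 1 ≤ 1 * (2 - q.2 ^ 2) := by
        have := hY2 q (hDc (subset_closure hq))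
        linarith
      have h5 : μ * Real.exp (v q) * (1 * (2 - q.2 ^ 2)) ≤ 1 / 2 * 2 :=
        mul_le_mul h1 h3 (by linarith) (by norm_num)
      linarith)
    (fun q hq _ => by
      rw [blwl_lap_g, hlapu q hq.1]
      have h1 := hED q hq
      have h2 := hE0 q
      have h3 : C * (2 - q.2 ^ 2) ≤ C * 2 :=
        mul_le_mul_of_nonneg_left (by have := sq_nonneg q.2; linarith) hC.le
      have h4 : 0 ≤ C * (2 - q.2 ^ 2) :=
        mul_nonneg hC.le (by have := hY2 q (hDc (subset_closure hq)); linarith)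
      have h5 : μ * Real.exp (v q) * (C * (2 - q.2 ^ 2)) ≤ 1 / 2 * (C * 2) :=
        mul_le_mul h1 h3 h4 (by norm_num)
      nlinarith)
    (fun q hq => by
      rw [hDo.frontier_eq] at hq
      obtain ⟨hq1, hq2⟩ := hq
      have hqc := hDc hq1
      have h6 : C * 1 ≤ C * (2 - q.2 ^ 2) := mul_le_mul_of_nonneg_left (hY2 q hqc) hC.le
      by_cases hqe : q ∈ Ell α
      · have h7 : ¬ (δ₀ < |q.1| ∨ δ₀ < |q.2|) := fun h => hq2 ⟨hqe, h⟩
        push Not at h7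
        have h8 := hin q hqe h7.1 h7.2
        change P q - κ q ≤ C * (2 - q.2 ^ 2)
        rw [hYell q hqe]
        linarith
      · have h8 := hP.dir.zero q hqe
        change P q - κ q ≤ C * (2 - q.2 ^ 2)
        rw [h8]
        have := (hPC q hqc).2
        linarith)
  intro q hq
  have hX := hs.euler_nonpos hα q hq
  have hYle : -(q.1 * dx v q + q.2 * dy v q) ≤ 2 * C := by
    by_cases hqD : q ∈ D
    · have h1 := hmain q (subset_closure hqD)
      have h2 : P q - κ q ≤ C * (2 - q.2 ^ 2) := h1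
      rw [hYell q hq] at h2
      have h3 : C * (2 - q.2 ^ 2) ≤ C * 2 :=
        mul_le_mul_of_nonneg_left (by have := sq_nonneg q.2; linarith) hC.le
      linarith
    · have h7 : ¬ (δ₀ < |q.1| ∨ δ₀ < |q.2|) := fun h => hqD ⟨hq, h⟩
      push Not at h7
      have h8 := hin q hq h7.1 h7.2
      linarith
  obtain ⟨p1, p2⟩ := hPC q (hsub hq)
  have hr := hP.rel q hq
  constructor
  · rw [abs_le]; constructor <;> linarith
  · rw [abs_le]; constructor <;> linarith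

theorem x_bound (h : BSeq α μ t v φ) (hP : ∀ n, HP (α n) (μ n) (v n) (P n) (κ n)) :
    ∃ C : ℝ, 0 < C ∧ ∀ᶠ n in atTop, ∀ q ∈ Ell (α n),
      |q.1 * dx (v n) q + q.2 * dy (v n) q| ≤ C ∧ |κ n q| ≤ C := by
  obtain ⟨C₁, hC₁, hb⟩ := hp_bounds
  obtain ⟨r₁, C₂, hr₁, hr₁5, hC₂, hx⟩ := xv_expand
  set C : ℝ := max C₁ (4 + C₂ * r₁ ^ 2) with hCdef
  have hC : 0 < C := hC₁.trans_le (le_max_left _ _)
  refine ⟨3 * C, by positivity, ?_⟩
  filter_upwards [h.e_off (ρ := r₁ / 2) (ε := 1 / 2) (by positivity) (by norm_num)] with n hn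
  have hsol := (h.cd n).sol
  have hsingle := blwl_single (h.al n).1 hsol (hP n) (δ₀ := r₁ / 2) hC hn
    (fun q hq h1 h2 => by
      have h3 : sq2 q ≤ r₁ ^ 2 := by
        unfold sq2
        have e1 : q.1 ^ 2 ≤ (r₁ / 2) ^ 2 := by
          rw [← sq_abs]; exact pow_le_pow_left₀ (abs_nonneg _) h1 2
        have e2 : q.2 ^ 2 ≤ (r₁ / 2) ^ 2 := by
          rw [← sq_abs]; exact pow_le_pow_left₀ (abs_nonneg _) h2 2
        nlinarith
      have h4 := hx (α n) (μ n) (v n) (h.al n).1 (h.al n).2 hsol (h.big n) q h3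
      have h5 := (abs_le.1 h4).1
      have ha : 0 < aV (v n) := Real.exp_pos _
      have hβ : 0 < bV (μ n) (v n) := by
        unfold bV
        have := hsol.mu_pos
        positivity
      have hs0 : 0 ≤ sq2 q := by unfold sq2; positivity
      have h6 : 4 * bV (μ n) (v n) * sq2 q / AV (μ n) (v n) q ≤ 4 := by
        have hA : 0 < AV (μ n) (v n) q := by
          unfold AV
          have := mul_nonneg hβ.le hs0
          linarith
        rw [div_le_iff₀ hA]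
        unfold AV
        nlinarith
      have h7 : C₂ * sq2 q ≤ C₂ * r₁ ^ 2 := mul_le_mul_of_nonneg_left h3 hC₂.le
      have h8 : 4 + C₂ * r₁ ^ 2 ≤ C := le_max_right _ _
      linarith)
    (fun q hq => by
      obtain ⟨b1, b2⟩ := hb (α n) (μ n) (v n) (P n) (κ n) (h.al n).1 (h.al n).2 hsol (h.big n)
        (hP n) q hq
      exact ⟨b1, b2.trans (le_max_left _ _)⟩)
  intro q hq
  obtain ⟨a1, a2⟩ := hsingle q hq
  exact ⟨a1.trans (by linarith), a2⟩

theorem kappa_small (h : BSeq α μ t v φ) (hP : ∀ n, HP (α n) (μ n) (v n) (P n) (κ n))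
    {ρ ε : ℝ} (hρ : 0 < ρ) (hε : 0 < ε) :
    ∀ᶠ n in atTop, ∀ q : ℝ × ℝ, (ρ ≤ |q.1| ∨ ρ ≤ |q.2|) → |κ n q| ≤ ε := by
  obtain ⟨C, hC, hx⟩ := x_bound h hP
  obtain ⟨δ, η, hδ, hδρ, hη, hnear⟩ := near_harm hC hρ hε
  filter_upwards [hx, h.e_off (ρ := δ) (ε := η / (2 + C)) hδ (by positivity)] with n hn1 hn2
  have hsol := (h.cd n).sol
  obtain ⟨hκs, hκe⟩ := blwl_kappa hsol (hP n)
  refine hnear (α n) (κ n) (h.al n).1 (h.al n).2 (hP n).dir.cont (hP n).dir.zero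
    (blwl_sm2 hκs) (fun q => ?_) (fun q hq hq' => ?_)
  · by_cases hq : q ∈ Ell (α n)
    · exact (hn1 q hq).2
    · rw [(hP n).dir.zero q hq, abs_zero]
      exact hC.le
  · have h1 := hκe q hq
    have h2 := (hn1 q hq).1
    have h3 := hn2 q hq'
    have hE0 : 0 < μ n * Real.exp (v n q) := mul_pos hsol.mu_pos (Real.exp_pos _)
    have h4 : lap (κ n) q = -(μ n * Real.exp (v n q) *
        (2 + (q.1 * dx (v n) q + q.2 * dy (v n) q))) := by linarith
    rw [h4, abs_neg, abs_mul, abs_of_pos hE0]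
    have h5 : |2 + (q.1 * dx (v n) q + q.2 * dy (v n) q)| ≤ 2 + C := by
      refine (abs_add_le _ _).trans ?_
      rw [abs_of_pos (by norm_num : (0 : ℝ) < 2)]
      linarith
    calc μ n * Real.exp (v n q) * |2 + (q.1 * dx (v n) q + q.2 * dy (v n) q)|
        ≤ η / (2 + C) * (2 + C) := mul_le_mul h3 h5 (abs_nonneg _) (by positivity)
      _ = η := by field_simp

/-- maximum principle on a disc -/
private theorem blwl_disc {α s c K : ℝ} {F : ℝ × ℝ → ℝ} (hF : ContDiffOn ℝ ∞ F (Ell α))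
    (hh : ∀ q ∈ Ell α, lap F q = 0) (hs : 0 < s) (hsub : ∀ q : ℝ × ℝ, sq2 q ≤ s ^ 2 → q ∈ Ell α)
    (hb : ∀ q : ℝ × ℝ, sq2 q = s ^ 2 → |F q - c| ≤ K) : |F (0, 0) - c| ≤ K := by
  have hc : Continuous fun q : ℝ × ℝ => sq2 q := by unfold sq2; fun_prop
  set D : Set (ℝ × ℝ) := {q | sq2 q < s ^ 2} with hD
  have hDo : IsOpen D := isOpen_lt hc continuous_const
  have hDc : closure D ⊆ {q | sq2 q ≤ s ^ 2} := closure_lt_subset_le hc continuous_const
  have hDf : frontier D ⊆ {q | sq2 q = s ^ 2} := frontier_lt_subset_eq hc continuous_const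
  have hDs : D ⊆ Ell α := fun q hq => hsub q (le_of_lt hq)
  have hDb : Bornology.IsBounded D := by
    have h1 : D ⊆ Metric.closedBall (0 : ℝ × ℝ) s := by
      intro q hq
      have hq' : q.1 ^ 2 + q.2 ^ 2 < s ^ 2 := hq
      rw [Metric.mem_closedBall, dist_zero_right, Prod.norm_def]
      refine max_le ?_ ?_
      · exact abs_le_of_sq_le_sq (by have := sq_nonneg q.2; linarith) hs.le
      · exact abs_le_of_sq_le_sq (by have := sq_nonneg q.1; linarith) hs.le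
    exact Metric.isBounded_closedBall.subset h1
  have hF2 : ContDiffOn ℝ 2 F D := blwl_sm2 (hF.mono hDs)
  have hFc : ContinuousOn F (closure D) :=
    hF.continuousOn.mono fun q hq => hsub q (hDc hq)
  have h0 : ((0 : ℝ), (0 : ℝ)) ∈ closure D := by
    apply subset_closure
    change (0 : ℝ) ^ 2 + (0 : ℝ) ^ 2 < s ^ 2
    have := pow_pos hs 2
    linarith
  have hup := wmp_bdd hDo hDb (u := F) (b := fun _ => c + K) hF2 contDiffOn_const hFc
    continuousOn_const (fun z hz => by rw [hh z (hDs hz), blwl_lap_const])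
    (fun z hz => by
      have := (abs_le.1 (hb z (hDf hz))).2
      linarith) _ h0
  have hlo := wmp_bdd hDo hDb (u := fun _ => c - K) (b := F) contDiffOn_const hF2
    continuousOn_const hFc (fun z hz => by rw [hh z (hDs hz), blwl_lap_const])
    (fun z hz => by
      have := (abs_le.1 (hb z (hDf hz))).1
      linarith) _ h0
  exact abs_le.2 ⟨by linarith, by linarith⟩

theorem p_zero (h : BSeq α μ t v φ) (hP : ∀ n, HP (α n) (μ n) (v n) (P n) (κ n)) :
    Tendsto (fun n => P n (0, 0)) atTop (𝓝 4) := by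
  obtain ⟨r₁, C₂, hr₁, hr₁5, hC₂, hx⟩ := xv_expand
  obtain ⟨Cb, hCb, hbeta⟩ := beta_bounds
  rw [Metric.tendsto_atTop']
  intro ε hε
  -- choice of `s`
  obtain ⟨s, hs, hs1, hs2⟩ : ∃ s : ℝ, 0 < s ∧ s ≤ r₁ ∧ C₂ * s ^ 2 ≤ ε / 4 := by
    refine ⟨min r₁ (min 1 (ε / (4 * C₂))), ?_, min_le_left _ _, ?_⟩
    · exact lt_min hr₁ (lt_min one_pos (by positivity))
    · set s := min r₁ (min 1 (ε / (4 * C₂))) with hsdef
      have h1 : 0 < s := lt_min hr₁ (lt_min one_pos (by positivity))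
      have h2 : s ≤ 1 := (min_le_right _ _).trans (min_le_left _ _)
      have h3 : s ≤ ε / (4 * C₂) := (min_le_right _ _).trans (min_le_right _ _)
      have h4 : s ^ 2 ≤ s := by nlinarith
      calc C₂ * s ^ 2 ≤ C₂ * (ε / (4 * C₂)) := mul_le_mul_of_nonneg_left (h4.trans h3) hC₂.le
        _ = ε / 4 := by field_simp
  have hks := kappa_small h hP (ρ := s / 2) (ε := ε / 4) (by positivity) (by positivity)
  have ha := h.a_tend.eventually (gt_mem_nhds (by positivity : (0 : ℝ) < ε * s ^ 2 / 512))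
  obtain ⟨N, hN⟩ := eventually_atTop.1 (hks.and ha)
  refine ⟨N, fun n hn => ?_⟩
  obtain ⟨hk, han⟩ := hN n hn.le
  have hsol := (h.cd n).sol
  obtain ⟨hα, hα1⟩ := h.al n
  have hapos : 0 < aV (v n) := Real.exp_pos _
  obtain ⟨hb1, hb2⟩ := hbeta (α n) (μ n) (v n) hα hα1 hsol (h.big n)
  have hβ : 0 < bV (μ n) (v n) := by linarith
  have hsub : ∀ q : ℝ × ℝ, sq2 q ≤ s ^ 2 → q ∈ Ell (α n) := fun q hq => by
    have h1 : q.1 ^ 2 + q.2 ^ 2 ≤ s ^ 2 := hq
    have h2 : s ^ 2 ≤ (1 / 5) ^ 2 := pow_le_pow_left₀ hs.le (hs1.trans hr₁5) 2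
    have h3 : (α n) ^ 2 ≤ 1 := by nlinarith
    have h4 : (α n) ^ 2 * q.1 ^ 2 ≤ 1 * q.1 ^ 2 :=
      mul_le_mul_of_nonneg_right h3 (sq_nonneg _)
    change (α n) ^ 2 * q.1 ^ 2 + q.2 ^ 2 < 1
    norm_num at h2
    linarith
  have hden : 0 < aV (v n) + bV (μ n) (v n) * s ^ 2 := by positivity
  have hcirc : ∀ q : ℝ × ℝ, sq2 q = s ^ 2 →
      |P n q - 4 * bV (μ n) (v n) * s ^ 2 / (aV (v n) + bV (μ n) (v n) * s ^ 2)| ≤
        C₂ * s ^ 2 + ε / 4 := fun q hq => by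
    have h1 := hx (α n) (μ n) (v n) hα hα1 hsol (h.big n) q
      (by rw [hq]; exact pow_le_pow_left₀ hs.le hs1 2)
    have h2 : AV (μ n) (v n) q = aV (v n) + bV (μ n) (v n) * s ^ 2 := by
      unfold AV; rw [hq]
    rw [hq, h2] at h1
    have h3 : s / 2 ≤ |q.1| ∨ s / 2 ≤ |q.2| := by
      by_contra hcon
      push Not at hcon
      have e1 : q.1 ^ 2 < (s / 2) ^ 2 := by
        rw [← sq_abs]; exact pow_lt_pow_left₀ hcon.1 (abs_nonneg _) two_ne_zero
      have e2 : q.2 ^ 2 < (s / 2) ^ 2 := by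
        rw [← sq_abs]; exact pow_lt_pow_left₀ hcon.2 (abs_nonneg _) two_ne_zero
      have e3 : q.1 ^ 2 + q.2 ^ 2 = s ^ 2 := hq
      nlinarith
    have h4 := hk q h3
    have h5 := (hP n).rel q (hsub q hq.le)
    have h6 : P n q - 4 * bV (μ n) (v n) * s ^ 2 / (aV (v n) + bV (μ n) (v n) * s ^ 2) =
        κ n q - ((q.1 * dx (v n) q + q.2 * dy (v n) q) +
          4 * bV (μ n) (v n) * s ^ 2 / (aV (v n) + bV (μ n) (v n) * s ^ 2)) := by
      rw [h5]; ring
    rw [h6]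
    refine (abs_sub _ _).trans ?_
    linarith
  have hz := blwl_disc (hP n).smooth (hP n).harm hs hsub hcirc
  have h4 : |4 * bV (μ n) (v n) * s ^ 2 / (aV (v n) + bV (μ n) (v n) * s ^ 2) - 4| ≤ ε / 4 := by
    have e1 : 4 * bV (μ n) (v n) * s ^ 2 / (aV (v n) + bV (μ n) (v n) * s ^ 2) - 4 =
        -(4 * aV (v n) / (aV (v n) + bV (μ n) (v n) * s ^ 2)) := by
      field_simp
      ring
    rw [e1, abs_neg, abs_of_pos (by positivity), div_le_iff₀ hden]
    have e2 : 1 / 32 * s ^ 2 ≤ bV (μ n) (v n) * s ^ 2 :=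
      mul_le_mul_of_nonneg_right hb1 (sq_nonneg _)
    have e3 : 0 < ε * aV (v n) := mul_pos hε hapos
    have e4 : ε * (1 / 32 * s ^ 2) ≤ ε * (bV (μ n) (v n) * s ^ 2) :=
      mul_le_mul_of_nonneg_left e2 hε.le
    nlinarith
  rw [Real.dist_eq]
  have h7 : |P n (0, 0) - 4| ≤ |P n (0, 0) -
      4 * bV (μ n) (v n) * s ^ 2 / (aV (v n) + bV (μ n) (v n) * s ^ 2)| +
      |4 * bV (μ n) (v n) * s ^ 2 / (aV (v n) + bV (μ n) (v n) * s ^ 2) - 4| := by
    have := abs_add_le (P n (0, 0) -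
      4 * bV (μ n) (v n) * s ^ 2 / (aV (v n) + bV (μ n) (v n) * s ^ 2))
      (4 * bV (μ n) (v n) * s ^ 2 / (aV (v n) + bV (μ n) (v n) * s ^ 2) - 4)
    rwa [sub_add_sub_cancel] at this
  linarith

end Pool.Agent.MFE
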