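import Pool.Agent.MFE.BLWK
import Pool.Agent.MFE.BLWL

/-!
# MFE.BLWM: the contradiction in the blow-up regime

`inner`: `P = P n` is harmonic and bounded by `C` (`hp_bounds`), so `|∇P| ≤ C'` on `|q| ≤ 1/2` (`ige`)
and `|P q - P 0| ≤ C'' |q|`. Let `r = min r₁ r₂`, `A = a + b|q|²`, `φh = φ - t`,
`Rad q = μ φh(0) (a - b|q|²)/A³`, radial: `∫_{Disc r} Rad (P - P 0) = 0` (`disc_radial`).
`|E φh - Rad| ≤ |E - μ/A²| + (μ/A²)|φh - φh(0)(a-b|q|²)/A| ≤ C |q|² μ/A²` (`e_expand`,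
`phi_expand`). So `|∫_{Disc r} E φh (P - P 0)| ≤ C μ ∫ |q|³/A² ≤ C μ` (`rad_int3`, `b ≥ 1/32`).
`middle`: for `q ∈ Ell`, `|x| ≤ R`, `|q| ≥ r`: `E ≤ μ e^B` (`off_bound`, `v ≤ B(r)`), `|φh| ≤ 1`,
`|P - P 0| ≤ 2C`, area `≤ 4R`: the integral of `E φh (P - P 0)` is `≤ C_R μ`.
`outer`: for `|x| > R ≥ 2`: `v ≤ C (e^{-R} + μ)` (`v_decay`, `wE ≤ 1`), so `μ ≤ E ≤ μ (1 + ε)`;
`|φ| ≤ ε` (`phi_small`); `P ≤ C (e^{-R/2} + μ)` (`hp_far`).
`regD_seq`: wlog `t n ≥ 0` for all `n` in a subsequence (replace `φ, t` by their negatives where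
`t n < 0`, `cd_smul`), so `t n → 1` (`t_lim`). Divide `hp_ident` by `μ π/α`; with
`m = μ π/α`, `∫_Ell E φh = 0`:
`2 t m = ∫ E φh P = P(0) ∫_{|x| ≤ R} E φh + O_R(μ) + ∫_{|x|>R} E φh P`
`= -P(0) ∫_{|x|>R} E φh + O_R(μ) + O(ε) m` and `-∫_{|x|>R} E φh = m (1 + O(ε))` (`φh = -t + φ`,
`|{q ∈ Ell : |x| ≤ R}| ≤ 4R`, `α n → 0`). So `2 = 4 + O(ε)`: contradiction for small `ε`.
`regD`: pass to a subsequence with `v n (0,0) > pst`; normalise: `M = sup |φ - t| > 0` (attained: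
`φ - t = -t` outside the ellipse, continuity and compactness), divide by `M`; `BSeq`.
-/

open scoped ContDiff
open Filter Topology

namespace Pool.Agent.MFE

variable {α μ t : ℕ → ℝ} {v φ P κ : ℕ → ℝ × ℝ → ℝ}

private theorem BLWM_two : (2 : WithTop ℕ∞) ≤ ∞ := ENat.LEInfty.out

private theorem BLWM_sub (α : ℝ) : Ell α ⊆ CEll α := fun q hq => by
  have h : α ^ 2 * q.1 ^ 2 + q.2 ^ 2 < 1 := hq
  exact h.le

private theorem BLWM_sq_sub {α : ℝ} (hα : 0 < α) (hα1 : α ≤ 1) {q : ℝ × ℝ} (h1 : |q.1| ≤ 3 / 5)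
    (h2 : |q.2| ≤ 3 / 5) : q ∈ Ell α := by
  show α ^ 2 * q.1 ^ 2 + q.2 ^ 2 < 1
  have a1 : q.1 ^ 2 ≤ 9 / 25 := by rw [← sq_abs]; nlinarith [abs_nonneg q.1]
  have a2 : q.2 ^ 2 ≤ 9 / 25 := by rw [← sq_abs]; nlinarith [abs_nonneg q.2]
  have a3 : α ^ 2 * q.1 ^ 2 ≤ 1 * q.1 ^ 2 :=
    mul_le_mul_of_nonneg_right (by nlinarith) (sq_nonneg _)
  linarith

/-- Lipschitz bound for harmonic functions at the origin -/
private theorem BLWM_lip {α : ℝ} (hα : 0 < α) (hα1 : α ≤ 1) {P : ℝ × ℝ → ℝ} {C : ℝ}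
    (hs : ContDiffOn ℝ ∞ P (Ell α)) (hh : ∀ q ∈ Ell α, lap P q = 0)
    (hC : ∀ q ∈ Ell α, |P q| ≤ C) {q : ℝ × ℝ} (hq : sq2 q ≤ (1 / 5) ^ 2) :
    |P q - P (0, 0)| ≤ 20 * C * √(sq2 q) := by
  have hq' : q.1 ^ 2 + q.2 ^ 2 ≤ (1 / 5) ^ 2 := hq
  have hn1 : |q.1| ≤ √(sq2 q) := by
    apply Real.abs_le_sqrt
    show q.1 ^ 2 ≤ q.1 ^ 2 + q.2 ^ 2
    nlinarith [sq_nonneg q.2]
  have hn2 : |q.2| ≤ √(sq2 q) := by
    apply Real.abs_le_sqrt
    show q.2 ^ 2 ≤ q.1 ^ 2 + q.2 ^ 2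
    nlinarith [sq_nonneg q.1]
  have hnorm : ‖q‖ ≤ √(sq2 q) := by
    rw [Prod.norm_def, Real.norm_eq_abs, Real.norm_eq_abs]
    exact max_le hn1 hn2
  have hsq15 : √(sq2 q) ≤ 1 / 5 := by
    rw [show (1 / 5 : ℝ) = √((1 / 5) ^ 2) from (Real.sqrt_sq (by norm_num)).symm]
    exact Real.sqrt_le_sqrt hq
  have hball : ∀ z ∈ Metric.closedBall (0 : ℝ × ℝ) (1 / 5), |z.1| ≤ 1 / 5 ∧ |z.2| ≤ 1 / 5 := by
    intro z hz
    rw [mem_closedBall_zero_iff, Prod.norm_def, Real.norm_eq_abs, Real.norm_eq_abs] at hz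
    exact ⟨(le_max_left _ _).trans hz, (le_max_right _ _).trans hz⟩
  have hC0 : 0 ≤ C := (abs_nonneg _).trans (hC (0, 0) (BLWM_sq_sub hα hα1 (by norm_num)
    (by norm_num)))
  have hgrad : ∀ z ∈ Metric.closedBall (0 : ℝ × ℝ) (1 / 5), ‖fderiv ℝ P z‖ ≤ 20 * C := by
    intro z hz
    obtain ⟨z1, z2⟩ := hball z hz
    have hsub : Sq z (1 / 5) ⊆ Ell α := by
      intro w hw
      have h1 : |w.1| ≤ |w.1 - z.1| + |z.1| := by
        have := abs_add_le (w.1 - z.1) z.1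
        simpa using this
      have h2 : |w.2| ≤ |w.2 - z.2| + |z.2| := by
        have := abs_add_le (w.2 - z.2) z.2
        simpa using this
      exact BLWM_sq_sub hα hα1 (by linarith [hw.1]) (by linarith [hw.2])
    have hg := ige (isOpen_ell α) (hs.of_le BLWM_two) (q₀ := z) (d := 1 / 5) (M := C) (N := 0)
      (by norm_num) hsub (fun w hw => hC w (hsub hw)) (fun w hw => by
        rw [hh w (hsub hw)]; simp)
    have e1 : 2 / (1 / 5 : ℝ) * C + 1 / 5 / 2 * 0 = 10 * C := by ring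
    rw [e1] at hg
    have hd : DifferentiableAt ℝ P z :=
      (hs.contDiffAt ((isOpen_ell α).mem_nhds (BLWM_sq_sub hα hα1 (by linarith)
        (by linarith)))).differentiableAt (by simp)
    apply ContinuousLinearMap.opNorm_le_bound _ (by positivity)
    rintro ⟨a, b⟩
    rw [fderiv_apply_eq hd, Prod.norm_def, Real.norm_eq_abs, Real.norm_eq_abs, Real.norm_eq_abs]
    set m := max |a| |b| with hm
    have ha : |a| ≤ m := le_max_left _ _
    have hb : |b| ≤ m := le_max_right _ _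
    have hm0 : 0 ≤ m := (abs_nonneg a).trans ha
    calc |a * dx P z + b * dy P z| ≤ |a * dx P z| + |b * dy P z| := abs_add_le _ _
      _ = |a| * |dx P z| + |b| * |dy P z| := by rw [abs_mul, abs_mul]
      _ ≤ m * (10 * C) + m * (10 * C) := by
          apply add_le_add
          · exact mul_le_mul ha hg.1 (abs_nonneg _) hm0
          · exact mul_le_mul hb hg.2 (abs_nonneg _) hm0
      _ = 20 * C * m := by ring
  have hq0 : (0 : ℝ × ℝ) ∈ Metric.closedBall (0 : ℝ × ℝ) (1 / 5) :=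
    Metric.mem_closedBall_self (by norm_num)
  have hqb : q ∈ Metric.closedBall (0 : ℝ × ℝ) (1 / 5) := by
    rw [mem_closedBall_zero_iff]; exact hnorm.trans hsq15
  have := Convex.norm_image_sub_le_of_norm_fderiv_le (𝕜 := ℝ) (f := P) (C := 20 * C)
    (s := Metric.closedBall (0 : ℝ × ℝ) (1 / 5)) (x := 0) (y := q) (fun z hz => by
      obtain ⟨z1, z2⟩ := hball z hz
      exact (hs.contDiffAt ((isOpen_ell α).mem_nhds (BLWM_sq_sub hα hα1 (by linarith)
        (by linarith)))).differentiableAt (by simp)) hgrad (convex_closedBall _ _) hq0 hqb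
  rw [Real.norm_eq_abs, sub_zero] at this
  have h00 : (0 : ℝ × ℝ) = (0, 0) := rfl
  rw [h00] at this
  refine this.trans ?_
  exact mul_le_mul_of_nonneg_left hnorm (by positivity)

private theorem BLWM_disc_sub {r : ℝ} (hr : 0 < r) (hr1 : r ≤ 1 / 5) {α : ℝ} (hα : 0 < α)
    (hα1 : α ≤ 1) : CDisc (0, 0) r ⊆ Ell α := by
  intro q hq
  have h : (q.1 - 0) ^ 2 + (q.2 - 0) ^ 2 ≤ r ^ 2 := hq
  rw [sub_zero, sub_zero] at h
  have hr2 : r ^ 2 ≤ 1 / 25 := by nlinarith
  apply BLWM_sq_sub hα hα1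
  · apply abs_le_of_sq_le_sq (by nlinarith [sq_nonneg q.2]) (by norm_num)
  · apply abs_le_of_sq_le_sq (by nlinarith [sq_nonneg q.1]) (by norm_num)

private theorem BLWM_disc_comp (r : ℝ) : IsCompact (CDisc (0, 0) r) := by
  have hcl : IsClosed (CDisc ((0 : ℝ), (0 : ℝ)) r) := isClosed_le (by fun_prop) continuous_const
  apply Metric.isCompact_of_isClosed_isBounded hcl
  have hsub : CDisc ((0 : ℝ), (0 : ℝ)) r ⊆ Set.Icc (-|r|) |r| ×ˢ Set.Icc (-|r|) |r| := by
    intro q hq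
    have hq' : (q.1 - 0) ^ 2 + (q.2 - 0) ^ 2 ≤ r ^ 2 := hq
    rw [sub_zero, sub_zero] at hq'
    have h1 : |q.1| ≤ |r| := sq_le_sq.mp (by nlinarith [sq_nonneg q.2])
    have h2 : |q.2| ≤ |r| := sq_le_sq.mp (by nlinarith [sq_nonneg q.1])
    rw [abs_le] at h1 h2
    exact ⟨h1, h2⟩
  exact ((isCompact_Icc.prod isCompact_Icc).isBounded).subset hsub

private theorem BLWM_disc_open (r : ℝ) : IsOpen (Disc ((0 : ℝ), (0 : ℝ)) r) :=
  isOpen_lt (by fun_prop) continuous_const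

private theorem BLWM_disc_le (r : ℝ) : Disc ((0 : ℝ), (0 : ℝ)) r ⊆ CDisc (0, 0) r := by
  intro q hq
  have h : (q.1 - 0) ^ 2 + (q.2 - 0) ^ 2 < r ^ 2 := hq
  exact h.le

private theorem BLWM_sq2_cont : Continuous sq2 := by unfold sq2; fun_prop

theorem blw_inner (h : BSeq α μ t v φ) (hP : ∀ n, HP (α n) (μ n) (v n) (P n) (κ n)) :
    ∃ r C : ℝ, 0 < r ∧ r ≤ 1 / 5 ∧ 0 < C ∧ ∀ n,
      |∫ q in Disc (0, 0) r, μ n * Real.exp (v n q) * (φ n q - t n) * (P n q - P n (0, 0))|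
        ≤ C * μ n := by
  obtain ⟨CP, hCP, hbP⟩ := hp_bounds
  obtain ⟨r₁, C₁, hr₁, hr₁5, hC₁, he⟩ := e_expand
  obtain ⟨r₂, C₂, hr₂, hr₂5, hC₂, hphi⟩ := phi_expand
  obtain ⟨Cb, hCb, hbb⟩ := beta_bounds
  set r := min r₁ r₂ with hr
  have hr0 : 0 < r := lt_min hr₁ hr₂
  have hr5 : r ≤ 1 / 5 := (min_le_left _ _).trans hr₁5
  have hπ := Real.pi_pos
  refine ⟨r, 20 * CP * (C₁ + C₂) * (2 * Real.pi * r * 1024), hr0, hr5, by positivity, ?_⟩
  intro n
  obtain ⟨hα, hα1⟩ := h.al n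
  have hcd := h.cd n
  have hsol := hcd.sol
  have hbig := h.big n
  have hμ := hsol.mu_pos
  obtain ⟨hb1, hb2⟩ := hbb (α n) (μ n) (v n) hα hα1 hsol hbig
  set a := aV (v n) with ha
  set b := bV (μ n) (v n) with hb
  have ha0 : 0 < a := Real.exp_pos _
  have hb0 : 0 < b := by linarith
  have hsubC : CDisc (0, 0) r ⊆ Ell (α n) := BLWM_disc_sub hr0 hr5 hα hα1
  have hPb : ∀ q ∈ Ell (α n), |P n q| ≤ CP := by
    intro q hq
    have := hbP (α n) (μ n) (v n) (P n) (κ n) hα hα1 hsol hbig (hP n) q (BLWM_sub _ hq)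
    rw [abs_of_nonneg this.1]; exact this.2
  -- the radial weight
  set Rf : ℝ → ℝ := fun τ => μ n * (φ n (0, 0) - t n) * (a - b * |τ|) / (a + b * |τ|) ^ 3 with hRf
  have hRc : Continuous Rf := by
    have hden : ∀ τ : ℝ, (a + b * |τ|) ^ 3 ≠ 0 := by
      intro τ
      have : 0 < a + b * |τ| := by positivity
      positivity
    exact Continuous.div (by fun_prop) (by fun_prop) hden
  have hsq : ∀ q : ℝ × ℝ, (q.1 - 0) ^ 2 + (q.2 - 0) ^ 2 = sq2 q := by
    intro q; unfold sq2; ring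
  have hrad := disc_radial (isOpen_ell (α n)) ((hP n).smooth.of_le BLWM_two) hr0.le hsubC
    (fun q hq => (hP n).harm q (hsubC hq)) hRc
  simp only [hsq] at hrad
  -- integrability
  have hEc : Continuous fun q => μ n * Real.exp (v n q) :=
    continuous_const.mul (Real.continuous_exp.comp hsol.cont)
  have hFc : Continuous fun q => μ n * Real.exp (v n q) * (φ n q - t n) :=
    hEc.mul (hcd.cont.sub continuous_const)
  have hPc : ContinuousOn (P n) (CDisc (0, 0) r) :=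
    (hP n).smooth.continuousOn.mono hsubC
  have hRcc : Continuous fun q : ℝ × ℝ => Rf (sq2 q) := hRc.comp BLWM_sq2_cont
  have hint : ∀ {g : ℝ × ℝ → ℝ}, ContinuousOn g (CDisc (0, 0) r) →
      MeasureTheory.IntegrableOn g (Disc (0, 0) r) := fun hg =>
    (hg.integrableOn_compact (BLWM_disc_comp r)).mono_set (BLWM_disc_le r)
  have hzero : ∫ q in Disc (0, 0) r, Rf (sq2 q) * (P n q - P n (0, 0)) = 0 := by
    have e1 : ∀ q : ℝ × ℝ, Rf (sq2 q) * (P n q - P n (0, 0))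
        = Rf (sq2 q) * P n q - P n (0, 0) * Rf (sq2 q) := by intro q; ring
    simp only [e1]
    have i1 : MeasureTheory.IntegrableOn (fun q => Rf (sq2 q) * P n q) (Disc (0, 0) r) :=
      hint (hRcc.continuousOn.mul hPc)
    have i2 : MeasureTheory.IntegrableOn (fun q => P n (0, 0) * Rf (sq2 q)) (Disc (0, 0) r) :=
      hint (continuousOn_const.mul hRcc.continuousOn)
    rw [MeasureTheory.integral_sub i1 i2, MeasureTheory.integral_const_mul, hrad, sub_self]
  have hsplit : ∫ q in Disc (0, 0) r,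
      μ n * Real.exp (v n q) * (φ n q - t n) * (P n q - P n (0, 0))
      = ∫ q in Disc (0, 0) r, (μ n * Real.exp (v n q) * (φ n q - t n) - Rf (sq2 q)) *
        (P n q - P n (0, 0)) := by
    have e1 : ∀ q : ℝ × ℝ, (μ n * Real.exp (v n q) * (φ n q - t n) - Rf (sq2 q)) *
        (P n q - P n (0, 0)) = μ n * Real.exp (v n q) * (φ n q - t n) * (P n q - P n (0, 0)) -
        Rf (sq2 q) * (P n q - P n (0, 0)) := by intro q; ring
    simp only [e1]
    have i3 : MeasureTheory.IntegrableOn (fun q => μ n * Real.exp (v n q) * (φ n q - t n) *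
        (P n q - P n (0, 0))) (Disc (0, 0) r) :=
      hint (hFc.continuousOn.mul (hPc.sub continuousOn_const))
    have i4 : MeasureTheory.IntegrableOn (fun q => Rf (sq2 q) * (P n q - P n (0, 0)))
        (Disc (0, 0) r) := hint (hRcc.continuousOn.mul (hPc.sub continuousOn_const))
    rw [MeasureTheory.integral_sub i3 i4, hzero, sub_zero]
  rw [hsplit]
  -- pointwise bound
  have hpt : ∀ q ∈ Disc ((0 : ℝ), (0 : ℝ)) r,
      ‖(μ n * Real.exp (v n q) * (φ n q - t n) - Rf (sq2 q)) * (P n q - P n (0, 0))‖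
      ≤ 20 * CP * (C₁ + C₂) * μ n * (sq2 q * √(sq2 q) / (a + b * sq2 q) ^ 2) := by
    intro q hq
    have hq1 : (q.1 - 0) ^ 2 + (q.2 - 0) ^ 2 < r ^ 2 := hq
    rw [hsq] at hq1
    have hs0 : 0 ≤ sq2 q := by unfold sq2; positivity
    have hA : 0 < a + b * sq2 q := by positivity
    have hr₁' : r ^ 2 ≤ r₁ ^ 2 := by
      have := min_le_left r₁ r₂; nlinarith
    have hr₂' : r ^ 2 ≤ r₂ ^ 2 := by
      have := min_le_right r₁ r₂; nlinarith
    have hr5' : r ^ 2 ≤ (1 / 5) ^ 2 := by nlinarith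
    have k1 := he (α n) (μ n) (v n) hα hα1 hsol hbig q (hq1.le.trans hr₁')
    have k2 := hphi (α n) (μ n) (t n) (v n) (φ n) hα hα1 hcd hbig (h.le1 n) q (hq1.le.trans hr₂')
    have hAV : AV (μ n) (v n) q = a + b * sq2 q := rfl
    rw [hAV] at k1 k2
    have k3 := BLWM_lip hα hα1 (hP n).smooth (hP n).harm hPb (hq1.le.trans hr5')
    have k4 := h.le1 n q
    set A := a + b * sq2 q with hAdef
    have hRfv : Rf (sq2 q) = μ n / A ^ 2 * ((φ n (0, 0) - t n) * ((a - b * sq2 q) / A)) := by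
      show μ n * (φ n (0, 0) - t n) * (a - b * |sq2 q|) / (a + b * |sq2 q|) ^ 3 = _
      rw [abs_of_nonneg hs0, ← hAdef]
      field_simp
    have k5 : |μ n * Real.exp (v n q) * (φ n q - t n) - Rf (sq2 q)|
        ≤ (C₁ + C₂) * sq2 q * (μ n / A ^ 2) := by
      have e1 : μ n * Real.exp (v n q) * (φ n q - t n) - Rf (sq2 q)
          = (μ n * Real.exp (v n q) - μ n / A ^ 2) * (φ n q - t n) +
            μ n / A ^ 2 * ((φ n q - t n) - (φ n (0, 0) - t n) * ((a - b * sq2 q) / A)) := by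
        rw [hRfv]; ring
      rw [e1]
      have hpos : 0 ≤ μ n / A ^ 2 := by positivity
      calc _ ≤ |(μ n * Real.exp (v n q) - μ n / A ^ 2) * (φ n q - t n)| +
            |μ n / A ^ 2 * ((φ n q - t n) - (φ n (0, 0) - t n) * ((a - b * sq2 q) / A))| :=
              abs_add_le _ _
        _ = |μ n * Real.exp (v n q) - μ n / A ^ 2| * |φ n q - t n| +
            μ n / A ^ 2 * |(φ n q - t n) - (φ n (0, 0) - t n) * ((a - b * sq2 q) / A)| := by
              rw [abs_mul, abs_mul, abs_of_nonneg hpos]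
        _ ≤ (C₁ * sq2 q * (μ n / A ^ 2)) * 1 + μ n / A ^ 2 * (C₂ * sq2 q) := by
              apply add_le_add
              · exact mul_le_mul k1 k4 (abs_nonneg _) (by positivity)
              · exact mul_le_mul_of_nonneg_left k2 hpos
        _ = (C₁ + C₂) * sq2 q * (μ n / A ^ 2) := by ring
    rw [norm_mul, Real.norm_eq_abs, Real.norm_eq_abs]
    calc |μ n * Real.exp (v n q) * (φ n q - t n) - Rf (sq2 q)| * |P n q - P n (0, 0)|
        ≤ ((C₁ + C₂) * sq2 q * (μ n / A ^ 2)) * (20 * CP * √(sq2 q)) :=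
          mul_le_mul k5 k3 (abs_nonneg _) (by positivity)
      _ = 20 * CP * (C₁ + C₂) * μ n * (sq2 q * √(sq2 q) / A ^ 2) := by ring
  have hgc : Continuous fun q : ℝ × ℝ => sq2 q * √(sq2 q) / (a + b * sq2 q) ^ 2 := by
    have hs2 := BLWM_sq2_cont
    refine Continuous.div (by fun_prop) (by fun_prop) ?_
    intro q
    have hs0 : 0 ≤ sq2 q := by unfold sq2; positivity
    have hA : 0 < a + b * sq2 q := by positivity
    positivity
  have h3 := rad_int3 ha0 hb0 hr0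
  rw [← Real.norm_eq_abs]
  have hbsq : 1 / b ^ 2 ≤ 1024 := by
    rw [div_le_iff₀ (by positivity)]
    nlinarith
  calc ‖∫ q in Disc (0, 0) r, (μ n * Real.exp (v n q) * (φ n q - t n) - Rf (sq2 q)) *
        (P n q - P n (0, 0))‖
      ≤ ∫ q in Disc (0, 0) r,
        20 * CP * (C₁ + C₂) * μ n * (sq2 q * √(sq2 q) / (a + b * sq2 q) ^ 2) := by
        apply MeasureTheory.norm_integral_le_of_norm_le
        · exact hint (continuous_const.mul hgc).continuousOn
        · exact (MeasureTheory.ae_restrict_iff' (BLWM_disc_open r).measurableSet).mpr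
            (Eventually.of_forall hpt)
    _ = 20 * CP * (C₁ + C₂) * μ n *
        ∫ q in Disc (0, 0) r, sq2 q * √(sq2 q) / (a + b * sq2 q) ^ 2 :=
        MeasureTheory.integral_const_mul _ _
    _ ≤ 20 * CP * (C₁ + C₂) * μ n * (2 * Real.pi * r / b ^ 2) :=
        mul_le_mul_of_nonneg_left h3 (by positivity)
    _ = 20 * CP * (C₁ + C₂) * μ n * (2 * Real.pi * r * (1 / b ^ 2)) := by ring
    _ ≤ 20 * CP * (C₁ + C₂) * μ n * (2 * Real.pi * r * 1024) :=
        mul_le_mul_of_nonneg_left (mul_le_mul_of_nonneg_left hbsq (by positivity)) (by positivity)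
    _ = 20 * CP * (C₁ + C₂) * (2 * Real.pi * r * 1024) * μ n := by ring

private theorem BLWM_vol {α R : ℝ} (hR : 0 ≤ R) :
    MeasureTheory.volume (Ell α ∩ {q : ℝ × ℝ | |q.1| ≤ R}) ≤ ENNReal.ofReal (4 * R) := by
  have hsub : Ell α ∩ {q : ℝ × ℝ | |q.1| ≤ R} ⊆ Set.Icc (-R) R ×ˢ Set.Icc (-1) 1 := by
    rintro q ⟨hq1, hq2⟩
    have h1 : α ^ 2 * q.1 ^ 2 + q.2 ^ 2 < 1 := hq1
    have h2 : |q.1| ≤ R := hq2
    have h3 : |q.2| ≤ 1 := abs_le_of_sq_le_sq (by nlinarith [sq_nonneg (α * q.1)]) (by norm_num)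
    exact ⟨abs_le.mp h2, abs_le.mp h3⟩
  refine (MeasureTheory.measure_mono hsub).trans ?_
  rw [MeasureTheory.Measure.volume_eq_prod, MeasureTheory.Measure.prod_prod, Real.volume_Icc,
    Real.volume_Icc, ← ENNReal.ofReal_mul (by linarith)]
  apply ENNReal.ofReal_le_ofReal
  linarith

theorem blw_middle (h : BSeq α μ t v φ) (hP : ∀ n, HP (α n) (μ n) (v n) (P n) (κ n))
    {r : ℝ} (hr : 0 < r) (hr1 : r ≤ 1 / 5) (R : ℝ) (hR : 1 ≤ R) :
    ∃ C : ℝ, 0 < C ∧ ∀ n,
      |∫ q in (Ell (α n) ∩ {q | |q.1| ≤ R}) \ Disc (0, 0) r,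
        μ n * Real.exp (v n q) * (φ n q - t n) * (P n q - P n (0, 0))| ≤ C * μ n := by
  obtain ⟨CP, hCP, hbP⟩ := hp_bounds
  obtain ⟨B, hB⟩ : ∃ B : ℝ, B = 2000 / (r / 2) ^ 2 := ⟨_, rfl⟩
  refine ⟨Real.exp B * CP * (4 * R), by positivity, ?_⟩
  intro n
  obtain ⟨hα, hα1⟩ := h.al n
  have hcd := h.cd n
  have hsol := hcd.sol
  have hbig := h.big n
  have hμ := hsol.mu_pos
  have h00 : ((0 : ℝ), (0 : ℝ)) ∈ Ell (α n) := BLWM_sq_sub hα hα1 (by norm_num) (by norm_num)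
  have hP0 := hbP (α n) (μ n) (v n) (P n) (κ n) hα hα1 hsol hbig (hP n) (0, 0) (BLWM_sub _ h00)
  have hvol := BLWM_vol (α := α n) (by linarith : 0 ≤ R)
  have hvol2 : MeasureTheory.volume ((Ell (α n) ∩ {q : ℝ × ℝ | |q.1| ≤ R}) \ Disc (0, 0) r)
      ≤ ENNReal.ofReal (4 * R) := (MeasureTheory.measure_mono Set.sdiff_subset).trans hvol
  have hfin : MeasureTheory.volume ((Ell (α n) ∩ {q : ℝ × ℝ | |q.1| ≤ R}) \ Disc (0, 0) r) < ⊤ :=
    hvol2.trans_lt ENNReal.ofReal_lt_top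
  have hreal : MeasureTheory.volume.real ((Ell (α n) ∩ {q : ℝ × ℝ | |q.1| ≤ R}) \ Disc (0, 0) r)
      ≤ 4 * R := ENNReal.toReal_le_of_le_ofReal (by linarith) hvol2
  have hbd := MeasureTheory.norm_setIntegral_le_of_norm_le_const (μ := MeasureTheory.volume)
    (s := (Ell (α n) ∩ {q : ℝ × ℝ | |q.1| ≤ R}) \ Disc (0, 0) r)
    (f := fun q => μ n * Real.exp (v n q) * (φ n q - t n) * (P n q - P n (0, 0)))
    (C := μ n * Real.exp B * CP) hfin (by
      rintro q ⟨⟨hq1, hq2⟩, hq3⟩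
      have hq3' : r ^ 2 ≤ (q.1 - 0) ^ 2 + (q.2 - 0) ^ 2 := not_lt.mp hq3
      rw [sub_zero, sub_zero] at hq3'
      have hoff : r / 2 ≤ |q.1| ∨ r / 2 ≤ |q.2| := by
        by_contra hcon
        push Not at hcon
        have a1 : q.1 ^ 2 < (r / 2) ^ 2 := by
          rw [← sq_abs]; nlinarith [abs_nonneg q.1, hcon.1]
        have a2 : q.2 ^ 2 < (r / 2) ^ 2 := by
          rw [← sq_abs]; nlinarith [abs_nonneg q.2, hcon.2]
        nlinarith
      have hv : v n q ≤ B := by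
        rw [hB]; exact off_bound hα hα1 hsol hbig (by linarith) (by linarith) hoff
      have hPq := hbP (α n) (μ n) (v n) (P n) (κ n) hα hα1 hsol hbig (hP n) q (BLWM_sub _ hq1)
      have hPd : |P n q - P n (0, 0)| ≤ CP := by
        rw [abs_le]; constructor <;> linarith [hPq.1, hPq.2, hP0.1, hP0.2]
      have hph := h.le1 n q
      have hex : Real.exp (v n q) ≤ Real.exp B := Real.exp_le_exp.mpr hv
      rw [Real.norm_eq_abs, abs_mul, abs_mul, abs_of_pos (by positivity :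
        0 < μ n * Real.exp (v n q))]
      calc μ n * Real.exp (v n q) * |φ n q - t n| * |P n q - P n (0, 0)|
          ≤ (μ n * Real.exp B * 1) * CP := by
            apply mul_le_mul _ hPd (abs_nonneg _) (by positivity)
            exact mul_le_mul (mul_le_mul_of_nonneg_left hex hμ.le) hph (abs_nonneg _)
              (by positivity)
        _ = μ n * Real.exp B * CP := by ring)
  rw [Real.norm_eq_abs] at hbd
  refine hbd.trans ?_
  calc μ n * Real.exp B * CP *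
      MeasureTheory.volume.real ((Ell (α n) ∩ {q : ℝ × ℝ | |q.1| ≤ R}) \ Disc (0, 0) r)
      ≤ μ n * Real.exp B * CP * (4 * R) := mul_le_mul_of_nonneg_left hreal (by positivity)
    _ = Real.exp B * CP * (4 * R) * μ n := by ring

/-- on the far part everything is close to a constant -/
theorem blw_outer (h : BSeq α μ t v φ) (hP : ∀ n, HP (α n) (μ n) (v n) (P n) (κ n))
    {ε : ℝ} (hε : 0 < ε) : ∃ R : ℝ, 2 ≤ R ∧ ∀ᶠ n in atTop, ∀ q ∈ Ell (α n), R ≤ |q.1| →
      μ n * Real.exp (v n q) ≤ μ n * (1 + ε) ∧ |φ n q| ≤ ε ∧ 0 ≤ P n q ∧ P n q ≤ ε := by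
  obtain ⟨CP, hCP, hbP⟩ := hp_bounds
  obtain ⟨Cv, hCv, hv⟩ := v_decay
  obtain ⟨Cf, hCf, hf⟩ := hp_far
  set L := Real.log (1 + ε) with hL
  have hL0 : 0 < L := Real.log_pos (by linarith)
  -- choose `R`
  have hlim : Tendsto (fun R : ℝ => Real.exp (-(R / 2))) atTop (𝓝 0) := by
    have h1 : Tendsto (fun R : ℝ => R / 2) atTop atTop := tendsto_id.atTop_div_const (by norm_num)
    exact Real.tendsto_exp_neg_atTop_nhds_zero.comp h1
  have hlimv : Tendsto (fun R : ℝ => Cv * Real.exp (-(R / 2))) atTop (𝓝 (Cv * 0)) :=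
    hlim.const_mul Cv
  have hlimf : Tendsto (fun R : ℝ => Cf * Real.exp (-(R / 2))) atTop (𝓝 (Cf * 0)) :=
    hlim.const_mul Cf
  rw [mul_zero] at hlimv hlimf
  have e1 := hlimv.eventually (gt_mem_nhds (half_pos hL0))
  have e2 := hlimf.eventually (gt_mem_nhds (half_pos hε))
  obtain ⟨R, hR1, hR2, hR3⟩ := (e1.and (e2.and (eventually_ge_atTop (2 : ℝ)))).exists
  refine ⟨R, hR3, ?_⟩
  have hμt := h.mu_tend
  have hμv : Tendsto (fun n => Cv * μ n) atTop (𝓝 (Cv * 0)) := hμt.const_mul Cv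
  have hμf : Tendsto (fun n => Cf * μ n) atTop (𝓝 (Cf * 0)) := hμt.const_mul Cf
  rw [mul_zero] at hμv hμf
  have f1 := hμv.eventually (gt_mem_nhds (half_pos hL0))
  have f2 := hμf.eventually (gt_mem_nhds (half_pos hε))
  have f3 := h.al0.eventually (gt_mem_nhds (by norm_num : (0 : ℝ) < 1 / 8))
  have f4 := h.phi_small (ρ := 1) one_pos hε
  filter_upwards [f1, f2, f3, f4] with n g1 g2 g3 g4
  intro q hq hqR
  obtain ⟨hα, hα1⟩ := h.al n
  have hcd := h.cd n
  have hsol := hcd.sol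
  have hbig := h.big n
  have hμ := hsol.mu_pos
  refine ⟨?_, g4 q (Or.inl (by linarith)), ?_, ?_⟩
  · have hvq := hv (α n) (μ n) (v n) hα g3.le hsol hbig q hq (by linarith)
    have hw1 : wE (α n) q ≤ 1 := by
      show 1 - (α n) ^ 2 * q.1 ^ 2 - q.2 ^ 2 ≤ 1
      nlinarith [sq_nonneg ((α n) * q.1), sq_nonneg q.2]
    have hw0 : 0 ≤ wE (α n) q := by
      have h1 : (α n) ^ 2 * q.1 ^ 2 + q.2 ^ 2 < 1 := hq
      show 0 ≤ 1 - (α n) ^ 2 * q.1 ^ 2 - q.2 ^ 2
      linarith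
    have hex : Real.exp (-|q.1|) ≤ Real.exp (-(R / 2)) := Real.exp_le_exp.mpr (by linarith)
    have hk : v n q ≤ L := by
      calc v n q ≤ Cv * (Real.exp (-|q.1|) + μ n) * wE (α n) q := hvq
        _ ≤ Cv * (Real.exp (-|q.1|) + μ n) * 1 :=
          mul_le_mul_of_nonneg_left hw1 (by positivity)
        _ ≤ Cv * Real.exp (-(R / 2)) + Cv * μ n := by
          have := mul_le_mul_of_nonneg_left hex hCv.le
          linarith
        _ ≤ L := by linarith
    apply mul_le_mul_of_nonneg_left _ hμ.le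
    calc Real.exp (v n q) ≤ Real.exp L := Real.exp_le_exp.mpr hk
      _ = 1 + ε := Real.exp_log (by linarith)
  · exact (hbP (α n) (μ n) (v n) (P n) (κ n) hα hα1 hsol hbig (hP n) q (BLWM_sub _ hq)).1
  · have := hf (α n) (μ n) R (v n) (P n) (κ n) hα g3.le hsol hbig (hP n) hR3 q (BLWM_sub _ hq) hqR
    calc P n q ≤ Cf * (Real.exp (-(R / 2)) + μ n) := this
      _ = Cf * Real.exp (-(R / 2)) + Cf * μ n := by ring
      _ ≤ ε := by linarith

/-- the contradiction for nonnegative `t` -/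
private theorem BLWM_pos (h : BSeq α μ t v φ) (ht : ∀ n, 0 ≤ t n) : False := by
  have hex : ∀ n, ∃ P κ : ℝ × ℝ → ℝ, HP (α n) (μ n) (v n) P κ := fun n =>
    hp_exists (h.al n).1 (h.al n).2 (h.cd n).sol
  choose P κ hP using hex
  obtain ⟨r, C₁, hr, hr5, hC₁, hin⟩ := blw_inner h hP
  obtain ⟨R, hR, hout⟩ := blw_outer h hP (ε := 1 / 10) (by norm_num)
  obtain ⟨C₂, hC₂, hmid⟩ := blw_middle h hP hr hr5 R (by linarith)
  have hπ := Real.pi_pos
  -- eventually statements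
  have htl := h.t_lim
  have hpz := p_zero h hP
  have f1 := htl.eventually (lt_mem_nhds (by norm_num : (9 / 10 : ℝ) < 1))
  have f2 := hpz.eventually (lt_mem_nhds (by norm_num : (39 / 10 : ℝ) < 4))
  have hK : 0 < Real.pi / (12 * R + C₁ + C₂) := div_pos hπ (by positivity)
  have f3 := h.al0.eventually (gt_mem_nhds hK)
  obtain ⟨n, g1, g2, g3, g4⟩ := (f1.and (f2.and (f3.and hout))).exists
  obtain ⟨hα, hα1⟩ := h.al n
  have hcd := h.cd n
  have hsol := hcd.sol
  have hbig := h.big n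
  have hμ := hsol.mu_pos
  have htn : 9 / 10 < t n := by rwa [abs_of_nonneg (ht n)] at g1
  have htn1 : t n ≤ 1 := (le_abs_self _).trans (h.t_le n)
  have hid := hp_ident hα hα1 hcd (hP n)
  -- the integrand
  set F : ℝ × ℝ → ℝ := fun q => μ n * Real.exp (v n q) * (φ n q - t n) with hF
  have hFc : Continuous F :=
    (continuous_const.mul (Real.continuous_exp.comp hsol.cont)).mul
      (hcd.cont.sub continuous_const)
  have hcomp := isCompact_cell hα
  have hintF : MeasureTheory.IntegrableOn F (Ell (α n)) :=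
    (hFc.continuousOn.integrableOn_compact hcomp).mono_set (BLWM_sub _)
  have hintFP : MeasureTheory.IntegrableOn (fun q => F q * P n q) (Ell (α n)) :=
    ((hFc.continuousOn.mul (hP n).contP).integrableOn_compact hcomp).mono_set (BLWM_sub _)
  set G : ℝ × ℝ → ℝ := fun q => F q * (P n q - P n (0, 0)) with hG
  have hintG : MeasureTheory.IntegrableOn G (Ell (α n)) :=
    ((hFc.continuousOn.mul ((hP n).contP.sub continuousOn_const)).integrableOn_compact
      hcomp).mono_set (BLWM_sub _)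
  have hmean : ∫ q in Ell (α n), F q = 0 := by
    have e : ∀ q, F q = μ n * (Real.exp (v n q) * (φ n q - t n)) := by
      intro q; show μ n * Real.exp (v n q) * (φ n q - t n) = _; ring
    simp only [e]
    rw [MeasureTheory.integral_const_mul, hcd.mean, mul_zero]
  have htot : ∫ q in Ell (α n), G q = 2 * t n * μ n * (Real.pi / α n) := by
    have e : ∀ q, G q = F q * P n q - P n (0, 0) * F q := by
      intro q; show F q * (P n q - P n (0, 0)) = _; ring
    simp only [e]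
    rw [MeasureTheory.integral_sub hintFP (hintF.const_mul _), MeasureTheory.integral_const_mul,
      hmean, mul_zero, sub_zero]
    exact hid
  -- decomposition
  set S₁ : Set (ℝ × ℝ) := Disc (0, 0) r with hS₁
  set S₂ : Set (ℝ × ℝ) := (Ell (α n) ∩ {q | |q.1| ≤ R}) \ Disc (0, 0) r with hS₂
  set S₃ : Set (ℝ × ℝ) := Ell (α n) \ (Ell (α n) ∩ {q | |q.1| ≤ R}) with hS₃
  have hmE : MeasurableSet (Ell (α n)) := (isOpen_ell _).measurableSet
  have hmR : MeasurableSet (Ell (α n) ∩ {q : ℝ × ℝ | |q.1| ≤ R}) :=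
    hmE.inter (isClosed_le (by fun_prop) continuous_const).measurableSet
  have hm1 : MeasurableSet S₁ := (BLWM_disc_open r).measurableSet
  have hS1E : S₁ ⊆ Ell (α n) ∩ {q : ℝ × ℝ | |q.1| ≤ R} := by
    intro q hq
    have hq' := BLWM_disc_le r hq
    refine ⟨BLWM_disc_sub hr hr5 hα hα1 hq', ?_⟩
    have hq1 : (q.1 - 0) ^ 2 + (q.2 - 0) ^ 2 ≤ r ^ 2 := hq'
    rw [sub_zero, sub_zero] at hq1
    have : |q.1| ≤ r := abs_le_of_sq_le_sq (by nlinarith [sq_nonneg q.2]) hr.le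
    show |q.1| ≤ R
    linarith
  have hsplit1 : ∫ q in Ell (α n), G q =
      (∫ q in Ell (α n) ∩ {q : ℝ × ℝ | |q.1| ≤ R}, G q) + ∫ q in S₃, G q := by
    have hun : Ell (α n) = (Ell (α n) ∩ {q : ℝ × ℝ | |q.1| ≤ R}) ∪ S₃ :=
      (Set.union_sdiff_cancel Set.inter_subset_left).symm
    conv_lhs => rw [hun]
    rw [MeasureTheory.setIntegral_union Set.disjoint_sdiff_right (hmE.diff hmR)
      (hintG.mono_set Set.inter_subset_left) (hintG.mono_set Set.sdiff_subset)]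
  have hsplit2 : ∫ q in Ell (α n) ∩ {q : ℝ × ℝ | |q.1| ≤ R}, G q =
      (∫ q in S₁, G q) + ∫ q in S₂, G q := by
    have hun : Ell (α n) ∩ {q : ℝ × ℝ | |q.1| ≤ R} = S₁ ∪ S₂ :=
      (Set.union_sdiff_cancel hS1E).symm
    rw [hun, MeasureTheory.setIntegral_union Set.disjoint_sdiff_right (hmR.diff hm1)
      (hintG.mono_set (hS1E.trans Set.inter_subset_left))
      (hintG.mono_set (Set.sdiff_subset.trans Set.inter_subset_left))]
  have b1 : |∫ q in S₁, G q| ≤ C₁ * μ n := hin n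
  have b2 : |∫ q in S₂, G q| ≤ C₂ * μ n := hmid n
  -- the outer part
  have hb3 : 3 * μ n * (Real.pi / α n - 4 * R) ≤ ∫ q in S₃, G q := by
    have hvolE : MeasureTheory.volume (Ell (α n)) = ENNReal.ofReal (Real.pi / α n) := area_ell hα
    have hfin3 : MeasureTheory.volume S₃ ≠ ⊤ := by
      apply ne_top_of_le_ne_top _ (MeasureTheory.measure_mono Set.sdiff_subset)
      rw [hvolE]; exact ENNReal.ofReal_ne_top
    have hvR := BLWM_vol (α := α n) (by linarith : 0 ≤ R)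
    have hvEfin : MeasureTheory.volume (Ell (α n)) ≠ ⊤ := by
      rw [hvolE]; exact ENNReal.ofReal_ne_top
    have hvRr : MeasureTheory.volume.real (Ell (α n) ∩ {q : ℝ × ℝ | |q.1| ≤ R}) ≤ 4 * R :=
      ENNReal.toReal_le_of_le_ofReal (by linarith) hvR
    have hvEr : MeasureTheory.volume.real (Ell (α n)) = Real.pi / α n := by
      rw [MeasureTheory.Measure.real, hvolE, ENNReal.toReal_ofReal (by positivity)]
    have hv3 : Real.pi / α n - 4 * R ≤ MeasureTheory.volume.real S₃ := by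
      have := MeasureTheory.measureReal_sdiff (μ := MeasureTheory.volume)
        (s₁ := Ell (α n)) (s₂ := Ell (α n) ∩ {q : ℝ × ℝ | |q.1| ≤ R}) Set.inter_subset_left hmR
        hvEfin
      rw [hS₃, this, hvEr]
      linarith
    have hge := MeasureTheory.setIntegral_ge_of_const_le_real (μ := MeasureTheory.volume)
      (s := S₃) (f := G) (c := 3 * μ n) (hmE.diff hmR) hfin3 (by
        rintro q ⟨hq1, hq2⟩
        have hqR : R < |q.1| := by
          by_contra hcon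
          exact hq2 ⟨hq1, not_lt.mp hcon⟩
        obtain ⟨k1, k2, k3, k4⟩ := g4 q hq1 hqR.le
        have hv0 : 0 ≤ v n q := GSol.nonneg hα hsol q
        have hE1 : 1 ≤ Real.exp (v n q) := Real.one_le_exp hv0
        have hph : φ n q - t n ≤ -(8 / 10) := by
          have := (abs_le.mp k2).2
          linarith
        have hPd : P n q - P n (0, 0) ≤ -(38 / 10) := by linarith
        have hprod : 3 ≤ (φ n q - t n) * (P n q - P n (0, 0)) := by nlinarith
        show 3 * μ n ≤ μ n * Real.exp (v n q) * (φ n q - t n) * (P n q - P n (0, 0))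
        have e : μ n * Real.exp (v n q) * (φ n q - t n) * (P n q - P n (0, 0))
          = μ n * (Real.exp (v n q) * ((φ n q - t n) * (P n q - P n (0, 0)))) := by ring
        rw [e]
        have : 3 ≤ Real.exp (v n q) * ((φ n q - t n) * (P n q - P n (0, 0))) := by nlinarith
        nlinarith) (hintG.mono_set Set.sdiff_subset)
    exact (mul_le_mul_of_nonneg_left hv3 (by positivity)).trans hge
  rw [hsplit1, hsplit2] at htot
  have b1' := (abs_le.mp b1).1
  have b2' := (abs_le.mp b2).1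
  have hX : 0 < Real.pi / α n := by positivity
  have h1 : 2 * t n * μ n * (Real.pi / α n) ≤ 2 * μ n * (Real.pi / α n) := by
    have : 0 ≤ μ n * (Real.pi / α n) := by positivity
    nlinarith
  have h2 : 3 * μ n * (Real.pi / α n - 4 * R) - C₁ * μ n - C₂ * μ n
      ≤ 2 * μ n * (Real.pi / α n) := by linarith
  have h3 : μ n * (Real.pi / α n) ≤ μ n * (12 * R + C₁ + C₂) := by nlinarith
  have h4 : Real.pi / α n ≤ 12 * R + C₁ + C₂ := le_of_mul_le_mul_left h3 hμ
  have hpos : 0 < 12 * R + C₁ + C₂ := by positivity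
  rw [lt_div_iff₀ hpos] at g3
  rw [div_le_iff₀ hα] at h4
  linarith

theorem regD_seq (h : BSeq α μ t v φ) : False := by
  -- signs
  set s : ℕ → ℝ := fun n => if 0 ≤ t n then 1 else -1 with hs
  have hs0 : ∀ n, s n ≠ 0 := by
    intro n
    show (if 0 ≤ t n then (1 : ℝ) else -1) ≠ 0
    split_ifs <;> norm_num
  have hsabs : ∀ n, |s n| = 1 := by
    intro n
    show |(if 0 ≤ t n then (1 : ℝ) else -1)| = 1
    split_ifs <;> simp
  have hst : ∀ n, 0 ≤ s n * t n := by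
    intro n
    show 0 ≤ (if 0 ≤ t n then (1 : ℝ) else -1) * t n
    split_ifs with hc
    · linarith
    · push Not at hc; linarith
  have hk : ∀ n q, |s n * φ n q - s n * t n| = |φ n q - t n| := by
    intro n q
    rw [← mul_sub, abs_mul, hsabs, one_mul]
  have h' : BSeq α μ (fun n => s n * t n) v (fun n q => s n * φ n q) := by
    refine ⟨h.al, h.al0, fun n => cd_smul (h.cd n) (hs0 n), h.big, h.inf, ?_, ?_⟩
    · intro n q
      rw [hk]; exact h.le1 n q
    · intro n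
      obtain ⟨q, hq⟩ := h.att n
      exact ⟨q, by rw [hk]; exact hq⟩
  exact BLWM_pos h' hst

theorem regD
    (hα : ∀ n, 0 < α n ∧ α n ≤ 1) (hα0 : Tendsto α atTop (𝓝 0))
    (h : ∀ n, CD (α n) (μ n) (t n) (v n) (φ n))
    (hp : Tendsto (fun n => v n (0, 0)) atTop atTop) : False := by
  -- the maximum of `|φ - t|`
  have hmax : ∀ n, ∃ M : ℝ, 0 < M ∧ (∀ q, |φ n q - t n| ≤ M) ∧ ∃ q, |φ n q - t n| = M := by
    intro n
    have hcomp := isCompact_cell (hα n).1
    have hc : Continuous fun q => |φ n q - t n| := ((h n).cont.sub continuous_const).abs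
    have h01 : ((0 : ℝ), (1 : ℝ)) ∈ CEll (α n) := by
      show (α n) ^ 2 * (0 : ℝ) ^ 2 + (1 : ℝ) ^ 2 ≤ 1
      norm_num
    have h01' : ((0 : ℝ), (1 : ℝ)) ∉ Ell (α n) := by
      intro hcon
      have : (α n) ^ 2 * (0 : ℝ) ^ 2 + (1 : ℝ) ^ 2 < 1 := hcon
      norm_num at this
    obtain ⟨q₁, hq₁, hmx⟩ := hcomp.exists_isMaxOn ⟨_, h01⟩ hc.continuousOn
    have hmx' : ∀ q ∈ CEll (α n), |φ n q - t n| ≤ |φ n q₁ - t n| := fun q hq => hmx hq
    have ht : |t n| ≤ |φ n q₁ - t n| := by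
      have := hmx' _ h01
      rw [(h n).zero _ h01', zero_sub, abs_neg] at this
      exact this
    have hall : ∀ q, |φ n q - t n| ≤ |φ n q₁ - t n| := by
      intro q
      by_cases hq : q ∈ CEll (α n)
      · exact hmx' q hq
      · have hq' : q ∉ Ell (α n) := fun hcon => hq (BLWM_sub _ hcon)
        rw [(h n).zero _ hq', zero_sub, abs_neg]
        exact ht
    refine ⟨|φ n q₁ - t n|, ?_, hall, q₁, rfl⟩
    by_contra hcon
    have h0 : |φ n q₁ - t n| = 0 := le_antisymm (not_lt.mp hcon) (abs_nonneg _)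
    rw [h0] at ht hall
    have ht0 : t n = 0 := abs_eq_zero.mp (le_antisymm ht (abs_nonneg _))
    obtain ⟨q, hq⟩ := (h n).ne
    have := hall q
    rw [ht0, sub_zero] at this
    exact hq (abs_eq_zero.mp (le_antisymm this (abs_nonneg _)))
  choose M hM0 hM1 hM2 using hmax
  obtain ⟨N, hN⟩ := (hp.eventually (eventually_gt_atTop pst)).exists_forall_of_atTop
  have hsh : Tendsto (fun n : ℕ => n + N) atTop atTop := tendsto_add_atTop_nat N
  have hk : ∀ n q, |(M n)⁻¹ * φ n q - (M n)⁻¹ * t n| = (M n)⁻¹ * |φ n q - t n| := by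
    intro n q
    rw [← mul_sub, abs_mul, abs_of_pos (inv_pos.mpr (hM0 n))]
  have hB : BSeq (fun n => α (n + N)) (fun n => μ (n + N)) (fun n => (M (n + N))⁻¹ * t (n + N))
      (fun n => v (n + N)) (fun n q => (M (n + N))⁻¹ * φ (n + N) q) := by
    refine ⟨fun n => hα (n + N), hα0.comp hsh,
      fun n => cd_smul (h (n + N)) (inv_ne_zero (hM0 (n + N)).ne'),
      fun n => hN (n + N) (Nat.le_add_left _ _), hp.comp hsh, ?_, ?_⟩
    · intro n q
      rw [hk, inv_mul_le_iff₀ (hM0 _), mul_one]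
      exact hM1 (n + N) q
    · intro n
      obtain ⟨q, hq⟩ := hM2 (n + N)
      exact ⟨q, by rw [hk, hq, inv_mul_cancel₀ (hM0 _).ne']⟩
  exact regD_seq hB

end Pool.Agent.MFE
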