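import Pool.Agent.MFE.CALA

/-!
# MFE.CALB: calculus toolbox for `lap`

All lemmas are routine consequences of the rules in `CALA`. `D` is always open and the functions
are `C^k` on `D`. Hint: `dx (dx f)` at `q ∈ D` only depends on the values of `dx f` near `q`
(`Filter.EventuallyEq.fderiv_eq`), so rewrite `dx (fun z => f z * g z)` on `D` first.
For `dx_dy_comm` use `second_derivative_symmetric` / `ContDiffAt.isSymmSndFDerivAt`.
-/

open scoped ContDiff

namespace Pool.Agent.MFE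

variable {D : Set (ℝ × ℝ)} {f g h : ℝ × ℝ → ℝ} {q : ℝ × ℝ}

private theorem CALB_dxm {m n : WithTop ℕ∞} (hD : IsOpen D) (hf : ContDiffOn ℝ n f D)
    (hmn : m + 1 ≤ n) : ContDiffOn ℝ m (dx f) D :=
  (hf.fderiv_of_isOpen hD hmn).clm_apply contDiffOn_const

private theorem CALB_dym {m n : WithTop ℕ∞} (hD : IsOpen D) (hf : ContDiffOn ℝ n f D)
    (hmn : m + 1 ≤ n) : ContDiffOn ℝ m (dy f) D :=
  (hf.fderiv_of_isOpen hD hmn).clm_apply contDiffOn_const

private theorem CALB_dx1 (hD : IsOpen D) (hf : ContDiffOn ℝ 2 f D) : ContDiffOn ℝ 1 (dx f) D :=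
  CALB_dxm hD hf (by norm_num)

private theorem CALB_dy1 (hD : IsOpen D) (hf : ContDiffOn ℝ 2 f D) : ContDiffOn ℝ 1 (dy f) D :=
  CALB_dym hD hf (by norm_num)

private theorem CALB_dx2 (hD : IsOpen D) (hf : ContDiffOn ℝ 3 f D) : ContDiffOn ℝ 2 (dx f) D :=
  CALB_dxm hD hf (by norm_num)

private theorem CALB_dy2 (hD : IsOpen D) (hf : ContDiffOn ℝ 3 f D) : ContDiffOn ℝ 2 (dy f) D :=
  CALB_dym hD hf (by norm_num)

private theorem CALB_da {n : WithTop ℕ∞} (hD : IsOpen D) (hf : ContDiffOn ℝ n f D) (hn : n ≠ 0)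
    (hq : q ∈ D) : DifferentiableAt ℝ f q :=
  (hf.contDiffAt (hD.mem_nhds hq)).differentiableAt hn

private theorem CALB_d2 (hD : IsOpen D) (hf : ContDiffOn ℝ 2 f D) (hq : q ∈ D) :
    DifferentiableAt ℝ f q := CALB_da hD hf (by norm_num) hq

private theorem CALB_ddx (hD : IsOpen D) (hf : ContDiffOn ℝ 2 f D) (hq : q ∈ D) :
    DifferentiableAt ℝ (dx f) q := CALB_da hD (CALB_dx1 hD hf) (by norm_num) hq

private theorem CALB_ddy (hD : IsOpen D) (hf : ContDiffOn ℝ 2 f D) (hq : q ∈ D) :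
    DifferentiableAt ℝ (dy f) q := CALB_da hD (CALB_dy1 hD hf) (by norm_num) hq

private theorem CALB_dx_of {F : ℝ × ℝ → ℝ} {c : ℝ} (hF : DifferentiableAt ℝ F q)
    (h : HasDerivAt (fun s => F (s, q.2)) c q.1) : dx F q = c := (hasDerivAt_dx hF).unique h

private theorem CALB_dy_of {F : ℝ × ℝ → ℝ} {c : ℝ} (hF : DifferentiableAt ℝ F q)
    (h : HasDerivAt (fun s => F (q.1, s)) c q.2) : dy F q = c := (hasDerivAt_dy hF).unique h

private theorem CALB_second (a b : ℝ × ℝ) (h : DifferentiableAt ℝ (fderiv ℝ f) q) :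
    fderiv ℝ (fun z => fderiv ℝ f z a) q b = fderiv ℝ (fderiv ℝ f) q b a := by
  have h1 := (h.hasFDerivAt.clm_apply (hasFDerivAt_const a q)).fderiv
  rw [h1]
  simp

theorem dx_dy_comm (hD : IsOpen D) (hf : ContDiffOn ℝ 2 f D) (hq : q ∈ D) :
    dx (dy f) q = dy (dx f) q := by
  have h2 : ContDiffAt ℝ 2 f q := hf.contDiffAt (hD.mem_nhds hq)
  have hsym : IsSymmSndFDerivAt ℝ f q := h2.isSymmSndFDerivAt (by simp)
  have h1 : ContDiffOn ℝ 1 (fderiv ℝ f) D := hf.fderiv_of_isOpen hD (by norm_num)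
  have hd : DifferentiableAt ℝ (fderiv ℝ f) q :=
    (h1.contDiffAt (hD.mem_nhds hq)).differentiableAt (by norm_num)
  show fderiv ℝ (fun z => fderiv ℝ f z (0, 1)) q (1, 0)
    = fderiv ℝ (fun z => fderiv ℝ f z (1, 0)) q (0, 1)
  rw [CALB_second _ _ hd, CALB_second _ _ hd]
  exact hsym _ _

theorem lap_add (hD : IsOpen D) (hf : ContDiffOn ℝ 2 f D) (hg : ContDiffOn ℝ 2 g D)
    (hq : q ∈ D) : lap (fun z => f z + g z) q = lap f q + lap g q := by
  rw [lap, lap, lap, dx_congr hD (fun z hz => dx_add (CALB_d2 hD hf hz) (CALB_d2 hD hg hz)) hq,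
    dy_congr hD (fun z hz => dy_add (CALB_d2 hD hf hz) (CALB_d2 hD hg hz)) hq,
    dx_add (CALB_ddx hD hf hq) (CALB_ddx hD hg hq), dy_add (CALB_ddy hD hf hq) (CALB_ddy hD hg hq)]
  ring

theorem lap_sub (hD : IsOpen D) (hf : ContDiffOn ℝ 2 f D) (hg : ContDiffOn ℝ 2 g D)
    (hq : q ∈ D) : lap (fun z => f z - g z) q = lap f q - lap g q := by
  rw [lap, lap, lap, dx_congr hD (fun z hz => dx_sub (CALB_d2 hD hf hz) (CALB_d2 hD hg hz)) hq,
    dy_congr hD (fun z hz => dy_sub (CALB_d2 hD hf hz) (CALB_d2 hD hg hz)) hq,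
    dx_sub (CALB_ddx hD hf hq) (CALB_ddx hD hg hq), dy_sub (CALB_ddy hD hf hq) (CALB_ddy hD hg hq)]
  ring

theorem lap_const_mul (hD : IsOpen D) (c : ℝ) (hf : ContDiffOn ℝ 2 f D) (hq : q ∈ D) :
    lap (fun z => c * f z) q = c * lap f q := by
  rw [lap, lap, dx_congr hD (fun z hz => dx_const_mul c (CALB_d2 hD hf hz)) hq,
    dy_congr hD (fun z hz => dy_const_mul c (CALB_d2 hD hf hz)) hq,
    dx_const_mul c (CALB_ddx hD hf hq), dy_const_mul c (CALB_ddy hD hf hq)]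
  ring

theorem lap_mul (hD : IsOpen D) (hf : ContDiffOn ℝ 2 f D) (hg : ContDiffOn ℝ 2 g D)
    (hq : q ∈ D) :
    lap (fun z => f z * g z) q = f q * lap g q + g q * lap f q + 2 * gdot f g q := by
  rw [lap, lap, lap, gdot,
    dx_congr hD (fun z hz => dx_mul (CALB_d2 hD hf hz) (CALB_d2 hD hg hz)) hq,
    dy_congr hD (fun z hz => dy_mul (CALB_d2 hD hf hz) (CALB_d2 hD hg hz)) hq,
    dx_add (f := fun z => dx f z * g z) (g := fun z => f z * dx g z)
      ((CALB_ddx hD hf hq).mul (CALB_d2 hD hg hq)) ((CALB_d2 hD hf hq).mul (CALB_ddx hD hg hq)),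
    dy_add (f := fun z => dy f z * g z) (g := fun z => f z * dy g z)
      ((CALB_ddy hD hf hq).mul (CALB_d2 hD hg hq)) ((CALB_d2 hD hf hq).mul (CALB_ddy hD hg hq)),
    dx_mul (CALB_ddx hD hf hq) (CALB_d2 hD hg hq), dx_mul (CALB_d2 hD hf hq) (CALB_ddx hD hg hq),
    dy_mul (CALB_ddy hD hf hq) (CALB_d2 hD hg hq), dy_mul (CALB_d2 hD hf hq) (CALB_ddy hD hg hq)]
  ring

theorem lap_comp (hD : IsOpen D) {F : ℝ → ℝ} (hF : ContDiff ℝ 2 F) (hf : ContDiffOn ℝ 2 f D)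
    (hq : q ∈ D) :
    lap (fun z => F (f z)) q = deriv F (f q) * lap f q + deriv (deriv F) (f q) * gdot f f q := by
  have hF1 : Differentiable ℝ F := hF.differentiable (by norm_num)
  have hF2 : Differentiable ℝ (deriv F) := hF.differentiable_deriv_two
  rw [lap, lap, gdot,
    dx_congr hD (fun z hz => dx_comp (CALB_d2 hD hf hz) (hF1 (f z))) hq,
    dy_congr hD (fun z hz => dy_comp (CALB_d2 hD hf hz) (hF1 (f z))) hq,
    dx_mul (f := fun z => deriv F (f z)) ((hF2 (f q)).comp q (CALB_d2 hD hf hq))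
      (CALB_ddx hD hf hq),
    dy_mul (f := fun z => deriv F (f z)) ((hF2 (f q)).comp q (CALB_d2 hD hf hq))
      (CALB_ddy hD hf hq),
    dx_comp (CALB_d2 hD hf hq) (hF2 (f q)), dy_comp (CALB_d2 hD hf hq) (hF2 (f q))]
  ring

/-- the logarithm (for positive functions) -/
theorem lap_log (hD : IsOpen D) (hf : ContDiffOn ℝ 2 f D) (hpos : ∀ z ∈ D, 0 < f z)
    (hq : q ∈ D) :
    lap (fun z => Real.log (f z)) q = (f q * lap f q - gdot f f q) / f q ^ 2 := by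
  have hx : ∀ z ∈ D, dx (fun z => Real.log (f z)) z = dx f z / f z := by
    intro z hz
    rw [dx_comp (CALB_d2 hD hf hz) (Real.differentiableAt_log (hpos z hz).ne'), Real.deriv_log]
    ring
  have hy : ∀ z ∈ D, dy (fun z => Real.log (f z)) z = dy f z / f z := by
    intro z hz
    rw [dy_comp (CALB_d2 hD hf hz) (Real.differentiableAt_log (hpos z hz).ne'), Real.deriv_log]
    ring
  rw [lap, lap, gdot, dx_congr hD hx hq, dy_congr hD hy hq,
    dx_div (CALB_ddx hD hf hq) (CALB_d2 hD hf hq) (hpos q hq).ne',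
    dy_div (CALB_ddy hD hf hq) (CALB_d2 hD hf hq) (hpos q hq).ne']
  ring

private theorem CALB_dx_const (c : ℝ) : dx (fun _ : ℝ × ℝ => c) q = 0 := by simp [dx]

private theorem CALB_dy_const (c : ℝ) : dy (fun _ : ℝ × ℝ => c) q = 0 := by simp [dy]

/-- functions of one coordinate -/
theorem lap_fst (F : ℝ → ℝ) (hF : ContDiff ℝ 2 F) :
    lap (fun z : ℝ × ℝ => F z.1) q = deriv (deriv F) q.1 := by
  have hF1 : Differentiable ℝ F := hF.differentiable (by norm_num)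
  have hF2 : Differentiable ℝ (deriv F) := hF.differentiable_deriv_two
  have hx : dx (fun z : ℝ × ℝ => F z.1) = fun z => deriv F z.1 := funext fun z =>
    dx_fst F (hF1 z.1)
  have hy : dy (fun z : ℝ × ℝ => F z.1) = fun _ => 0 := funext fun z => dy_fst F (hF1 z.1)
  rw [lap, hx, hy, dx_fst _ (hF2 q.1), CALB_dy_const, add_zero]

theorem lap_snd (F : ℝ → ℝ) (hF : ContDiff ℝ 2 F) :
    lap (fun z : ℝ × ℝ => F z.2) q = deriv (deriv F) q.2 := by
  have hF1 : Differentiable ℝ F := hF.differentiable (by norm_num)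
  have hF2 : Differentiable ℝ (deriv F) := hF.differentiable_deriv_two
  have hx : dy (fun z : ℝ × ℝ => F z.2) = fun z => deriv F z.2 := funext fun z =>
    dy_snd F (hF1 z.2)
  have hy : dx (fun z : ℝ × ℝ => F z.2) = fun _ => 0 := funext fun z => dx_snd F (hF1 z.2)
  rw [lap, hx, hy, dy_snd _ (hF2 q.2), CALB_dx_const, zero_add]

/-- products of functions of one coordinate -/
theorem lap_prod (F G : ℝ → ℝ) (hF : ContDiff ℝ 2 F) (hG : ContDiff ℝ 2 G) :
    lap (fun z : ℝ × ℝ => F z.1 * G z.2) q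
      = deriv (deriv F) q.1 * G q.2 + F q.1 * deriv (deriv G) q.2 := by
  have h1 : ContDiff ℝ 2 (fun z : ℝ × ℝ => F z.1) := hF.comp contDiff_fst
  have h2 : ContDiff ℝ 2 (fun z : ℝ × ℝ => G z.2) := hG.comp contDiff_snd
  have hF1 : Differentiable ℝ F := hF.differentiable (by norm_num)
  have hG1 : Differentiable ℝ G := hG.differentiable (by norm_num)
  rw [lap_mul isOpen_univ h1.contDiffOn h2.contDiffOn (Set.mem_univ q), lap_fst F hF,
    lap_snd G hG, gdot, dy_fst F (hF1 q.1), dx_snd G (hG1 q.2)]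
  ring

private theorem CALB_aff_diff (a b ε₁ ε₂ : ℝ)
    (hf : DifferentiableAt ℝ f (a + ε₁ * q.1, b + ε₂ * q.2)) :
    DifferentiableAt ℝ (fun z : ℝ × ℝ => f (a + ε₁ * z.1, b + ε₂ * z.2)) q := by
  have h : DifferentiableAt ℝ (fun z : ℝ × ℝ => (a + ε₁ * z.1, b + ε₂ * z.2)) q :=
    ((differentiableAt_fst.const_mul ε₁).const_add a).prodMk
      ((differentiableAt_snd.const_mul ε₂).const_add b)
  exact DifferentiableAt.comp (g := f) (f := fun z : ℝ × ℝ => (a + ε₁ * z.1, b + ε₂ * z.2)) q hf h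

private theorem CALB_dx_aff (a b : ℝ) (ε₁ ε₂ : ℝ)
    (hf : DifferentiableAt ℝ f (a + ε₁ * q.1, b + ε₂ * q.2)) :
    dx (fun z => f (a + ε₁ * z.1, b + ε₂ * z.2)) q
      = ε₁ * dx f (a + ε₁ * q.1, b + ε₂ * q.2) := by
  refine CALB_dx_of (CALB_aff_diff a b ε₁ ε₂ hf) ?_
  have h1 := hasDerivAt_dx hf
  have h2 : HasDerivAt (fun s : ℝ => a + ε₁ * s) ε₁ q.1 := by
    simpa using ((hasDerivAt_id q.1).const_mul ε₁).const_add a
  have h3 := HasDerivAt.comp (h₂ := fun s => f (s, b + ε₂ * q.2)) (h := fun s : ℝ => a + ε₁ * s)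
    q.1 h1 h2
  rw [mul_comm]
  exact h3

private theorem CALB_dy_aff (a b : ℝ) (ε₁ ε₂ : ℝ)
    (hf : DifferentiableAt ℝ f (a + ε₁ * q.1, b + ε₂ * q.2)) :
    dy (fun z => f (a + ε₁ * z.1, b + ε₂ * z.2)) q
      = ε₂ * dy f (a + ε₁ * q.1, b + ε₂ * q.2) := by
  refine CALB_dy_of (CALB_aff_diff a b ε₁ ε₂ hf) ?_
  have h1 := hasDerivAt_dy hf
  have h2 : HasDerivAt (fun s : ℝ => b + ε₂ * s) ε₂ q.2 := by
    simpa using ((hasDerivAt_id q.2).const_mul ε₂).const_add b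
  have h3 := HasDerivAt.comp (h₂ := fun s => f (a + ε₁ * q.1, s)) (h := fun s : ℝ => b + ε₂ * s)
    q.2 h1 h2
  rw [mul_comm]
  exact h3

private theorem CALB_lap_aff (a b ε₁ ε₂ : ℝ) (hD : IsOpen D)
    (hf : ContDiffOn ℝ 2 f D) (hq : (a + ε₁ * q.1, b + ε₂ * q.2) ∈ D) :
    lap (fun z => f (a + ε₁ * z.1, b + ε₂ * z.2)) q
      = ε₁ ^ 2 * dx (dx f) (a + ε₁ * q.1, b + ε₂ * q.2)
        + ε₂ ^ 2 * dy (dy f) (a + ε₁ * q.1, b + ε₂ * q.2) := by
  have hE : IsOpen {z : ℝ × ℝ | (a + ε₁ * z.1, b + ε₂ * z.2) ∈ D} :=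
    hD.preimage (by fun_prop)
  rw [lap, dx_congr hE (fun z hz => CALB_dx_aff a b ε₁ ε₂ (CALB_d2 hD hf hz)) hq,
    dy_congr hE (fun z hz => CALB_dy_aff a b ε₁ ε₂ (CALB_d2 hD hf hz)) hq,
    dx_const_mul _ (CALB_aff_diff a b ε₁ ε₂ (CALB_ddx hD hf hq)),
    dy_const_mul _ (CALB_aff_diff a b ε₁ ε₂ (CALB_ddy hD hf hq)),
    CALB_dx_aff a b ε₁ ε₂ (CALB_ddx hD hf hq), CALB_dy_aff a b ε₁ ε₂ (CALB_ddy hD hf hq)]
  ring

/-- dilations -/
theorem dx_scale (s : ℝ) (hf : DifferentiableAt ℝ f (s * q.1, s * q.2)) :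
    dx (fun z => f (s * z.1, s * z.2)) q = s * dx f (s * q.1, s * q.2) := by
  have := CALB_dx_aff (f := f) (q := q) 0 0 s s (by simpa using hf)
  simpa using this

theorem dy_scale (s : ℝ) (hf : DifferentiableAt ℝ f (s * q.1, s * q.2)) :
    dy (fun z => f (s * z.1, s * z.2)) q = s * dy f (s * q.1, s * q.2) := by
  have := CALB_dy_aff (f := f) (q := q) 0 0 s s (by simpa using hf)
  simpa using this

theorem lap_scale (s : ℝ) (hD : IsOpen D) (hf : ContDiffOn ℝ 2 f D)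
    (hq : (s * q.1, s * q.2) ∈ D) :
    lap (fun z => f (s * z.1, s * z.2)) q = s ^ 2 * lap f (s * q.1, s * q.2) := by
  have := CALB_lap_aff (f := f) (q := q) 0 0 s s hD hf (by simpa using hq)
  rw [← mul_add] at this
  simpa [lap] using this

/-- translations and reflections: `ε = ±1` -/
theorem dx_aff (a b : ℝ) (ε₁ ε₂ : ℝ)
    (hf : DifferentiableAt ℝ f (a + ε₁ * q.1, b + ε₂ * q.2)) :
    dx (fun z => f (a + ε₁ * z.1, b + ε₂ * z.2)) q = ε₁ * dx f (a + ε₁ * q.1, b + ε₂ * q.2) := by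
  exact CALB_dx_aff a b ε₁ ε₂ hf

theorem dy_aff (a b : ℝ) (ε₁ ε₂ : ℝ)
    (hf : DifferentiableAt ℝ f (a + ε₁ * q.1, b + ε₂ * q.2)) :
    dy (fun z => f (a + ε₁ * z.1, b + ε₂ * z.2)) q = ε₂ * dy f (a + ε₁ * q.1, b + ε₂ * q.2) := by
  exact CALB_dy_aff a b ε₁ ε₂ hf

theorem lap_aff (a b : ℝ) {ε₁ ε₂ : ℝ} (h1 : ε₁ ^ 2 = 1) (h2 : ε₂ ^ 2 = 1) (hD : IsOpen D)
    (hf : ContDiffOn ℝ 2 f D) (hq : (a + ε₁ * q.1, b + ε₂ * q.2) ∈ D) :
    lap (fun z => f (a + ε₁ * z.1, b + ε₂ * z.2)) q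
      = lap f (a + ε₁ * q.1, b + ε₂ * q.2) := by
  rw [CALB_lap_aff a b ε₁ ε₂ hD hf hq, h1, h2, one_mul, one_mul, lap]

/-- the Laplacian commutes with derivatives -/
theorem lap_dx (hD : IsOpen D) (hf : ContDiffOn ℝ 3 f D) (hq : q ∈ D) :
    lap (dx f) q = dx (lap f) q := by
  have hf2 : ContDiffOn ℝ 2 f D := hf.of_le (by norm_num)
  have e1 : dy (dy (dx f)) q = dx (dy (dy f)) q := by
    rw [← dy_congr hD (fun z hz => dx_dy_comm hD hf2 hz) hq]
    exact (dx_dy_comm hD (CALB_dy2 hD hf) hq).symm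
  have h1 : DifferentiableAt ℝ (dx (dx f)) q := CALB_ddx hD (CALB_dx2 hD hf) hq
  have h2 : DifferentiableAt ℝ (dy (dy f)) q := CALB_ddy hD (CALB_dy2 hD hf) hq
  rw [lap, e1]
  exact (dx_add h1 h2).symm

theorem lap_dy (hD : IsOpen D) (hf : ContDiffOn ℝ 3 f D) (hq : q ∈ D) :
    lap (dy f) q = dy (lap f) q := by
  have hf2 : ContDiffOn ℝ 2 f D := hf.of_le (by norm_num)
  have e1 : dx (dx (dy f)) q = dy (dx (dx f)) q := by
    rw [dx_congr hD (fun z hz => dx_dy_comm hD hf2 hz) hq]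
    exact dx_dy_comm hD (CALB_dx2 hD hf) hq
  have h1 : DifferentiableAt ℝ (dx (dx f)) q := CALB_ddx hD (CALB_dx2 hD hf) hq
  have h2 : DifferentiableAt ℝ (dy (dy f)) q := CALB_ddy hD (CALB_dy2 hD hf) hq
  rw [lap, e1]
  exact (dy_add h1 h2).symm

/-- the Euler field: `Δ(x·∇f) = 2 Δf + x·∇Δf` -/
theorem lap_euler (hD : IsOpen D) (hf : ContDiffOn ℝ 3 f D) (hq : q ∈ D) :
    lap (fun z => z.1 * dx f z + z.2 * dy f z) q
      = 2 * lap f q + (q.1 * dx (lap f) q + q.2 * dy (lap f) q) := by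
  have h1 : ContDiff ℝ 2 (fun z : ℝ × ℝ => z.1) := contDiff_fst
  have h2 : ContDiff ℝ 2 (fun z : ℝ × ℝ => z.2) := contDiff_snd
  have e1 : lap (fun z : ℝ × ℝ => z.1) q = 0 := by
    have := lap_fst (q := q) (fun x => x) contDiff_id
    rw [this]; simp
  have e2 : lap (fun z : ℝ × ℝ => z.2) q = 0 := by
    have := lap_snd (q := q) (fun x => x) contDiff_id
    rw [this]; simp
  have a1 : dx (fun z : ℝ × ℝ => z.1) q = 1 := by
    rw [dx_fst (fun x => x) differentiableAt_id]; simp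
  have a2 : dy (fun z : ℝ × ℝ => z.1) q = 0 := dy_fst (fun x => x) differentiableAt_id
  have a3 : dx (fun z : ℝ × ℝ => z.2) q = 0 := dx_snd (fun x => x) differentiableAt_id
  have a4 : dy (fun z : ℝ × ℝ => z.2) q = 1 := by
    rw [dy_snd (fun x => x) differentiableAt_id]; simp
  rw [lap_add hD (h1.contDiffOn.mul (CALB_dx2 hD hf)) (h2.contDiffOn.mul (CALB_dy2 hD hf)) hq,
    lap_mul hD h1.contDiffOn (CALB_dx2 hD hf) hq, lap_mul hD h2.contDiffOn (CALB_dy2 hD hf) hq,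
    e1, e2, gdot, gdot, a1, a2, a3, a4, lap_dx hD hf hq, lap_dy hD hf hq]
  show _ = 2 * (dx (dx f) q + dy (dy f) q) + _
  ring

private theorem CALB_wE_diff (α : ℝ) : Differentiable ℝ (wE α) := by
  unfold wE
  fun_prop

private theorem CALB_dx_wE (α : ℝ) : dx (wE α) q = -2 * α ^ 2 * q.1 := by
  refine CALB_dx_of (CALB_wE_diff α q) ?_
  have h := (((hasDerivAt_pow 2 q.1).const_mul (α ^ 2)).const_sub 1).sub_const (q.2 ^ 2)
  exact h.congr_deriv (by simp; ring)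

private theorem CALB_dy_wE (α : ℝ) : dy (wE α) q = -2 * q.2 := by
  refine CALB_dy_of (CALB_wE_diff α q) ?_
  have h := (hasDerivAt_pow 2 q.2).const_sub (1 - α ^ 2 * q.1 ^ 2)
  exact h.congr_deriv (by simp)

/-- the defining function of the ellipse -/
theorem lap_wE (α : ℝ) : lap (wE α) q = -2 * (1 + α ^ 2) := by
  have hx : dx (wE α) = fun z => -2 * α ^ 2 * z.1 := funext fun z => CALB_dx_wE α
  have hy : dy (wE α) = fun z => -2 * z.2 := funext fun z => CALB_dy_wE α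
  rw [lap, hx, hy, dx_const_mul _ differentiableAt_fst, dy_const_mul _ differentiableAt_snd,
    dx_fst (fun x => x) differentiableAt_id, dy_snd (fun x => x) differentiableAt_id]
  simp
  ring

theorem dx_wE (α : ℝ) : dx (wE α) q = -2 * α ^ 2 * q.1 := by
  exact CALB_dx_wE α

theorem dy_wE (α : ℝ) : dy (wE α) q = -2 * q.2 := by
  exact CALB_dy_wE α

private theorem CALB_ev (R : (ℝ × ℝ) ≃L[ℝ] (ℝ × ℝ)) (hR : ∀ z, f (R z) = f z) (z v : ℝ × ℝ) :
    fderiv ℝ f z v = fderiv ℝ f (R z) (R v) := by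
  have h : f ∘ R = f := funext hR
  have h1 := R.comp_right_fderiv (f := f) (x := z)
  rw [h] at h1
  rw [h1]
  rfl

/-- the reflection of the first coordinate -/
private noncomputable def CALB_R1 : (ℝ × ℝ) ≃L[ℝ] (ℝ × ℝ) :=
  (ContinuousLinearEquiv.neg ℝ).prodCongr (ContinuousLinearEquiv.refl ℝ ℝ)

/-- the reflection of the second coordinate -/
private noncomputable def CALB_R2 : (ℝ × ℝ) ≃L[ℝ] (ℝ × ℝ) :=
  (ContinuousLinearEquiv.refl ℝ ℝ).prodCongr (ContinuousLinearEquiv.neg ℝ)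

private theorem CALB_R1_apply (x y : ℝ) : CALB_R1 (x, y) = (-x, y) := rfl

private theorem CALB_R2_apply (x y : ℝ) : CALB_R2 (x, y) = (x, -y) := rfl

/-- symmetric functions -/
theorem dx_of_evx (hf : EvX f) (x y : ℝ) : dx f (-x, y) = -dx f (x, y) := by
  have h := CALB_ev (f := f) CALB_R1 (fun z => hf z.1 z.2) (x, y) (-1, 0)
  rw [CALB_R1_apply, CALB_R1_apply, neg_neg] at h
  have h2 : ((-1 : ℝ), (0 : ℝ)) = -((1 : ℝ), (0 : ℝ)) := by simp
  rw [dx, dx, ← h, h2, map_neg]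

theorem dy_of_evx (hf : EvX f) (x y : ℝ) : dy f (-x, y) = dy f (x, y) := by
  have h := CALB_ev (f := f) CALB_R1 (fun z => hf z.1 z.2) (x, y) (0, 1)
  rw [CALB_R1_apply, CALB_R1_apply, neg_zero] at h
  rw [dy, dy, ← h]

theorem dx_of_evy (hf : EvY f) (x y : ℝ) : dx f (x, -y) = dx f (x, y) := by
  have h := CALB_ev (f := f) CALB_R2 (fun z => hf z.1 z.2) (x, y) (1, 0)
  rw [CALB_R2_apply, CALB_R2_apply, neg_zero] at h
  rw [dx, dx, ← h]

theorem dy_of_evy (hf : EvY f) (x y : ℝ) : dy f (x, -y) = -dy f (x, y) := by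
  have h := CALB_ev (f := f) CALB_R2 (fun z => hf z.1 z.2) (x, y) (0, -1)
  rw [CALB_R2_apply, CALB_R2_apply, neg_neg] at h
  have h2 : ((0 : ℝ), (-1 : ℝ)) = -((0 : ℝ), (1 : ℝ)) := by simp
  rw [dy, dy, ← h, h2, map_neg]

private theorem CALB_snd {g g' : ℝ → ℝ} {x c : ℝ} (h1 : ∀ᶠ s in nhds x, HasDerivAt g (g' s) s)
    (h2 : HasDerivAt g' c x) (hm : IsLocalMax g x) : c ≤ 0 := by
  by_contra hc
  push Not at hc
  have e1 : deriv g =ᶠ[nhds x] g' := h1.mono fun s hs => hs.deriv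
  have e2 : deriv (deriv g) x = c := by rw [e1.deriv_eq, h2.deriv]
  have e3 : deriv g x = 0 := hm.deriv_eq_zero
  have e4 : IsLocalMin g x := isLocalMin_of_deriv_deriv_pos (by rw [e2]; exact hc) e3
    h1.self_of_nhds.continuousAt
  have e5 : g =ᶠ[nhds x] fun _ => g x := by
    filter_upwards [hm, e4] with s hs1 hs2
    exact le_antisymm hs1 hs2
  have e6 : deriv g =ᶠ[nhds x] deriv (fun _ => g x) := e5.deriv
  have e7 : deriv (deriv g) x = 0 := by
    rw [e6.deriv_eq]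
    simp
  linarith

/-- second derivative test -/
theorem lap_nonpos_of_localMax (hD : IsOpen D) (hf : ContDiffOn ℝ 2 f D) (hq : q ∈ D)
    (hm : IsLocalMax f q) : lap f q ≤ 0 := by
  have hx : dx (dx f) q ≤ 0 := by
    have c1 : Continuous fun s : ℝ => ((s, q.2) : ℝ × ℝ) := by fun_prop
    refine CALB_snd (g := fun s => f (s, q.2)) (g' := fun s => dx f (s, q.2)) (x := q.1) ?_
      (hasDerivAt_dx (CALB_ddx hD hf hq)) (hm.comp_continuous (g := fun s => (s, q.2)) c1.continuousAt)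
    filter_upwards [c1.continuousAt.preimage_mem_nhds (hD.mem_nhds hq)] with s hs
    exact hasDerivAt_dx (CALB_d2 hD hf hs)
  have hy : dy (dy f) q ≤ 0 := by
    have c1 : Continuous fun s : ℝ => ((q.1, s) : ℝ × ℝ) := by fun_prop
    refine CALB_snd (g := fun s => f (q.1, s)) (g' := fun s => dy f (q.1, s)) (x := q.2) ?_
      (hasDerivAt_dy (CALB_ddy hD hf hq)) (hm.comp_continuous (g := fun s => (q.1, s)) c1.continuousAt)
    filter_upwards [c1.continuousAt.preimage_mem_nhds (hD.mem_nhds hq)] with s hs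
    exact hasDerivAt_dy (CALB_d2 hD hf hs)
  exact add_nonpos hx hy

theorem grad_zero_of_localMax (hf : DifferentiableAt ℝ f q) (hm : IsLocalMax f q) :
    dx f q = 0 ∧ dy f q = 0 := by
  have _ := hf
  rw [dx, dy, hm.fderiv_eq_zero]
  exact ⟨rfl, rfl⟩

end Pool.Agent.MFE
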