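import Pool.Agent.MFE.CALA
import Pool.Agent.MFE.CALB

/-!
# MFE.CAL: calculus toolbox (collects `CALA` and `CALB`)
-/
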