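import Pool.Agent.MFE.Defs

/-!
# MFE.CALA: calculus toolbox for `dx`, `dy` on open sets

All lemmas are routine consequences of `fderiv` calculus. `D` is always open and the functions
are `C^k` on `D`. Hints: for `q ∈ D` a function which is `ContDiffOn ℝ k f D` is
`ContDiffAt ℝ k f q` (`ContDiffOn.contDiffAt`, `IsOpen.mem_nhds`); `dx f` agrees with
`fun q => fderivWithin ℝ f D q (1,0)` on `D`; for `dxdy` use
`second_derivative_symmetric` / `ContDiffAt.isSymmSndFDerivAt`.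
-/

open scoped ContDiff

namespace Pool.Agent.MFE

variable {D : Set (ℝ × ℝ)} {f g h : ℝ × ℝ → ℝ} {q : ℝ × ℝ}

private theorem CALA_dxm {m n : WithTop ℕ∞} (hD : IsOpen D) (hf : ContDiffOn ℝ n f D)
    (hmn : m + 1 ≤ n) : ContDiffOn ℝ m (dx f) D :=
  (hf.fderiv_of_isOpen hD hmn).clm_apply contDiffOn_const

private theorem CALA_dym {m n : WithTop ℕ∞} (hD : IsOpen D) (hf : ContDiffOn ℝ n f D)
    (hmn : m + 1 ≤ n) : ContDiffOn ℝ m (dy f) D :=
  (hf.fderiv_of_isOpen hD hmn).clm_apply contDiffOn_const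

theorem smooth_dx (hD : IsOpen D) (hf : ContDiffOn ℝ ∞ f D) : ContDiffOn ℝ ∞ (dx f) D := by
  exact CALA_dxm hD hf (by simp)

theorem smooth_dy (hD : IsOpen D) (hf : ContDiffOn ℝ ∞ f D) : ContDiffOn ℝ ∞ (dy f) D := by
  exact CALA_dym hD hf (by simp)

theorem smooth_lap (hD : IsOpen D) (hf : ContDiffOn ℝ ∞ f D) : ContDiffOn ℝ ∞ (lap f) D := by
  exact (smooth_dx hD (smooth_dx hD hf)).add (smooth_dy hD (smooth_dy hD hf))

theorem c_dx {n : ℕ} (hD : IsOpen D) (hf : ContDiffOn ℝ (n + 1 : ℕ) f D) :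
    ContDiffOn ℝ (n : ℕ) (dx f) D := by
  exact CALA_dxm hD hf (by norm_cast)

theorem c_dy {n : ℕ} (hD : IsOpen D) (hf : ContDiffOn ℝ (n + 1 : ℕ) f D) :
    ContDiffOn ℝ (n : ℕ) (dy f) D := by
  exact CALA_dym hD hf (by norm_cast)

theorem cont_dx (hD : IsOpen D) (hf : ContDiffOn ℝ 1 f D) : ContinuousOn (dx f) D := by
  exact (CALA_dxm (m := 0) hD hf (by simp)).continuousOn

theorem cont_dy (hD : IsOpen D) (hf : ContDiffOn ℝ 1 f D) : ContinuousOn (dy f) D := by
  exact (CALA_dym (m := 0) hD hf (by simp)).continuousOn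

theorem cont_lap (hD : IsOpen D) (hf : ContDiffOn ℝ 2 f D) : ContinuousOn (lap f) D := by
  exact (cont_dx hD (CALA_dxm hD hf (by norm_num))).add
    (cont_dy hD (CALA_dym hD hf (by norm_num)))

/-- `dx` and `dy` only depend on the germ -/
theorem dx_congr (hD : IsOpen D) (hfg : ∀ q ∈ D, f q = g q) (hq : q ∈ D) : dx f q = dx g q := by
  have h : f =ᶠ[nhds q] g := Filter.eventually_of_mem (hD.mem_nhds hq) hfg
  rw [dx, dx, h.fderiv_eq]

theorem dy_congr (hD : IsOpen D) (hfg : ∀ q ∈ D, f q = g q) (hq : q ∈ D) : dy f q = dy g q := by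
  have h : f =ᶠ[nhds q] g := Filter.eventually_of_mem (hD.mem_nhds hq) hfg
  rw [dy, dy, h.fderiv_eq]

theorem lap_congr (hD : IsOpen D) (hfg : ∀ q ∈ D, f q = g q) (hq : q ∈ D) :
    lap f q = lap g q := by
  rw [lap, lap, dx_congr hD (fun z hz => dx_congr hD hfg hz) hq,
    dy_congr hD (fun z hz => dy_congr hD hfg hz) hq]

/-- one variable derivatives -/
theorem hasDerivAt_dx (hf : DifferentiableAt ℝ f q) :
    HasDerivAt (fun s => f (s, q.2)) (dx f q) q.1 := by
  have h1 : HasFDerivAt f (fderiv ℝ f q) (q.1, q.2) := hf.hasFDerivAt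
  have h2 : HasDerivAt (fun t : ℝ => ((t, q.2) : ℝ × ℝ)) (1, 0) q.1 :=
    (hasDerivAt_id q.1).prodMk (hasDerivAt_const q.1 q.2)
  exact h1.comp_hasDerivAt q.1 h2

theorem hasDerivAt_dy (hf : DifferentiableAt ℝ f q) :
    HasDerivAt (fun s => f (q.1, s)) (dy f q) q.2 := by
  have h1 : HasFDerivAt f (fderiv ℝ f q) (q.1, q.2) := hf.hasFDerivAt
  have h2 : HasDerivAt (fun t : ℝ => ((q.1, t) : ℝ × ℝ)) (0, 1) q.2 :=
    (hasDerivAt_const q.2 q.1).prodMk (hasDerivAt_id q.2)
  exact h1.comp_hasDerivAt q.2 h2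

theorem dx_eq_deriv (hf : DifferentiableAt ℝ f q) : dx f q = deriv (fun s => f (s, q.2)) q.1 := by
  exact (hasDerivAt_dx hf).deriv.symm

theorem dy_eq_deriv (hf : DifferentiableAt ℝ f q) : dy f q = deriv (fun s => f (q.1, s)) q.2 := by
  exact (hasDerivAt_dy hf).deriv.symm

/-- the derivative is given by `dx` and `dy` -/
theorem fderiv_apply_eq (hf : DifferentiableAt ℝ f q) (a b : ℝ) :
    fderiv ℝ f q (a, b) = a * dx f q + b * dy f q := by
  have _ := hf
  have h : ((a, b) : ℝ × ℝ) = a • ((1 : ℝ), (0 : ℝ)) + b • ((0 : ℝ), (1 : ℝ)) := by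
    ext <;> simp
  rw [h, map_add, map_smul, map_smul, smul_eq_mul, smul_eq_mul, dx, dy]

private theorem CALA_dx_of {F : ℝ × ℝ → ℝ} {c : ℝ} (hF : DifferentiableAt ℝ F q)
    (h : HasDerivAt (fun s => F (s, q.2)) c q.1) : dx F q = c := (hasDerivAt_dx hF).unique h

private theorem CALA_dy_of {F : ℝ × ℝ → ℝ} {c : ℝ} (hF : DifferentiableAt ℝ F q)
    (h : HasDerivAt (fun s => F (q.1, s)) c q.2) : dy F q = c := (hasDerivAt_dy hF).unique h

theorem dx_add (hf : DifferentiableAt ℝ f q) (hg : DifferentiableAt ℝ g q) :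
    dx (fun z => f z + g z) q = dx f q + dx g q := by
  exact CALA_dx_of (hf.add hg) ((hasDerivAt_dx hf).add (hasDerivAt_dx hg))

theorem dy_add (hf : DifferentiableAt ℝ f q) (hg : DifferentiableAt ℝ g q) :
    dy (fun z => f z + g z) q = dy f q + dy g q := by
  exact CALA_dy_of (hf.add hg) ((hasDerivAt_dy hf).add (hasDerivAt_dy hg))

theorem dx_sub (hf : DifferentiableAt ℝ f q) (hg : DifferentiableAt ℝ g q) :
    dx (fun z => f z - g z) q = dx f q - dx g q := by
  exact CALA_dx_of (hf.sub hg) ((hasDerivAt_dx hf).sub (hasDerivAt_dx hg))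

theorem dy_sub (hf : DifferentiableAt ℝ f q) (hg : DifferentiableAt ℝ g q) :
    dy (fun z => f z - g z) q = dy f q - dy g q := by
  exact CALA_dy_of (hf.sub hg) ((hasDerivAt_dy hf).sub (hasDerivAt_dy hg))

theorem dx_mul (hf : DifferentiableAt ℝ f q) (hg : DifferentiableAt ℝ g q) :
    dx (fun z => f z * g z) q = dx f q * g q + f q * dx g q := by
  exact CALA_dx_of (hf.mul hg) ((hasDerivAt_dx hf).mul (hasDerivAt_dx hg))

theorem dy_mul (hf : DifferentiableAt ℝ f q) (hg : DifferentiableAt ℝ g q) :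
    dy (fun z => f z * g z) q = dy f q * g q + f q * dy g q := by
  exact CALA_dy_of (hf.mul hg) ((hasDerivAt_dy hf).mul (hasDerivAt_dy hg))

theorem dx_const_mul (c : ℝ) (hf : DifferentiableAt ℝ f q) :
    dx (fun z => c * f z) q = c * dx f q := by
  exact CALA_dx_of (hf.const_mul c) ((hasDerivAt_dx hf).const_mul c)

theorem dy_const_mul (c : ℝ) (hf : DifferentiableAt ℝ f q) :
    dy (fun z => c * f z) q = c * dy f q := by
  exact CALA_dy_of (hf.const_mul c) ((hasDerivAt_dy hf).const_mul c)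

theorem dx_div (hf : DifferentiableAt ℝ f q) (hg : DifferentiableAt ℝ g q) (h0 : g q ≠ 0) :
    dx (fun z => f z / g z) q = (dx f q * g q - f q * dx g q) / g q ^ 2 := by
  have hd : DifferentiableAt ℝ (fun z => f z / g z) q := by
    simp only [div_eq_mul_inv]
    exact hf.mul (hg.inv h0)
  exact CALA_dx_of hd ((hasDerivAt_dx hf).div (hasDerivAt_dx hg) h0)

theorem dy_div (hf : DifferentiableAt ℝ f q) (hg : DifferentiableAt ℝ g q) (h0 : g q ≠ 0) :
    dy (fun z => f z / g z) q = (dy f q * g q - f q * dy g q) / g q ^ 2 := by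
  have hd : DifferentiableAt ℝ (fun z => f z / g z) q := by
    simp only [div_eq_mul_inv]
    exact hf.mul (hg.inv h0)
  exact CALA_dy_of hd ((hasDerivAt_dy hf).div (hasDerivAt_dy hg) h0)

/-- chain rule with a function of one variable -/
theorem dx_comp {F : ℝ → ℝ} (hf : DifferentiableAt ℝ f q) (hF : DifferentiableAt ℝ F (f q)) :
    dx (fun z => F (f z)) q = deriv F (f q) * dx f q := by
  have h : HasDerivAt F (deriv F (f q)) (f q) := hF.hasDerivAt
  exact CALA_dx_of (hF.comp q hf)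
    (HasDerivAt.comp (h₂ := F) (h := fun s => f (s, q.2)) _ h (hasDerivAt_dx hf))

theorem dy_comp {F : ℝ → ℝ} (hf : DifferentiableAt ℝ f q) (hF : DifferentiableAt ℝ F (f q)) :
    dy (fun z => F (f z)) q = deriv F (f q) * dy f q := by
  have h : HasDerivAt F (deriv F (f q)) (f q) := hF.hasDerivAt
  exact CALA_dy_of (hF.comp q hf)
    (HasDerivAt.comp (h₂ := F) (h := fun s => f (q.1, s)) _ h (hasDerivAt_dy hf))

/-- functions of one coordinate -/
theorem dx_fst (F : ℝ → ℝ) (hF : DifferentiableAt ℝ F q.1) :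
    dx (fun z => F z.1) q = deriv F q.1 := by
  exact CALA_dx_of (hF.comp q differentiableAt_fst) hF.hasDerivAt

theorem dy_fst (F : ℝ → ℝ) (hF : DifferentiableAt ℝ F q.1) : dy (fun z => F z.1) q = 0 := by
  exact CALA_dy_of (hF.comp q differentiableAt_fst) (hasDerivAt_const q.2 (F q.1))

theorem dx_snd (F : ℝ → ℝ) (hF : DifferentiableAt ℝ F q.2) : dx (fun z => F z.2) q = 0 := by
  exact CALA_dx_of (hF.comp q differentiableAt_snd) (hasDerivAt_const q.1 (F q.2))

theorem dy_snd (F : ℝ → ℝ) (hF : DifferentiableAt ℝ F q.2) :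
    dy (fun z => F z.2) q = deriv F q.2 := by
  exact CALA_dy_of (hF.comp q differentiableAt_snd) hF.hasDerivAt

end Pool.Agent.MFE
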