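import Pool.Agent.MFE.DIRB

/-!
# MFE.CMP: compactness

`LocU f U`: locally uniform convergence on the plane.
`cmp_sub`: Arzela-Ascoli and a diagonal argument: restrict to the compact squares `Sq 0 m`
(`BoundedContinuousFunction.arzela_ascoli` or: pick a countable dense set `Q`, by
`isCompact` of the product / diagonal extraction a subsequence converges on `Q`
(`Metric.isCompact...`, e.g. compactness of `∏_{q ∈ Q} [-M, M]`, a metrizable compact space, gives a
subsequence at once: `IsCompact.tendsto_subseq` in `ℚ × ℚ → ℝ`); equi-Lipschitz functions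
converging on a dense set converge locally uniformly).
`cmp_dir`: `dir_lip`: the functions `f n (x n + q.1, q.2)` are `17 C`-Lipschitz; `cmp_sub`. A point
`q` with `|q.2| ≥ 1` has `(x n + q.1, q.2) ∉ Ell (α n)`, so `U q = 0`.
`cmp_eq`: let `η` be a test function with support in `Str 1`, hence in `{|y| ≤ r, |x| ≤ R}`, `r < 1`. For
large `n` the shifted support is in `Ell (α n)` (`α n (|x n| + R) → 0`). Substitute in
`Weak (f n) (g n) (Ell (α n))` the shifted test function and pass to the limit.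
-/

open scoped ContDiff
open Filter Topology

namespace Pool.Agent.MFE

/-- locally uniform convergence on the plane -/
def LocU (f : ℕ → ℝ × ℝ → ℝ) (U : ℝ × ℝ → ℝ) : Prop :=
  ∀ R : ℝ, TendstoUniformlyOn f U atTop (Sq (0, 0) R)

private theorem CMP_sq (R : ℝ) : Sq (0, 0) R = Metric.closedBall ((0 : ℝ), (0 : ℝ)) R := by
  ext t
  rw [Metric.mem_closedBall, Prod.dist_eq, max_le_iff, Real.dist_eq, Real.dist_eq]
  exact Iff.rfl

private theorem CMP_sq_compact (R : ℝ) : IsCompact (Sq (0, 0) R) := by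
  rw [CMP_sq]
  exact isCompact_closedBall _ _

private theorem CMP_l1 (q q' : ℝ × ℝ) : |q.1 - q'.1| + |q.2 - q'.2| ≤ 2 * dist q q' := by
  rw [Prod.dist_eq, Real.dist_eq, Real.dist_eq]
  have h1 := le_max_left |q.1 - q'.1| |q.2 - q'.2|
  have h2 := le_max_right |q.1 - q'.1| |q.2 - q'.2|
  linarith

private theorem CMP_lip {L : ℝ} {f : ℝ × ℝ → ℝ}
    (hL : ∀ q q' : ℝ × ℝ, |f q - f q'| ≤ L * (|q.1 - q'.1| + |q.2 - q'.2|)) :
    LipschitzWith (2 * |L|).toNNReal f := by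
  refine LipschitzWith.of_dist_le_mul fun q q' => ?_
  rw [Real.coe_toNNReal _ (by positivity), Real.dist_eq]
  refine (hL q q').trans ?_
  have h1 := CMP_l1 q q'
  have h2 : 0 ≤ |q.1 - q'.1| + |q.2 - q'.2| := by positivity
  calc L * (|q.1 - q'.1| + |q.2 - q'.2|) ≤ |L| * (|q.1 - q'.1| + |q.2 - q'.2|) :=
        mul_le_mul_of_nonneg_right (le_abs_self L) h2
    _ ≤ |L| * (2 * dist q q') := mul_le_mul_of_nonneg_left h1 (abs_nonneg L)
    _ = 2 * |L| * dist q q' := by ring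

/-- the set of functions of `cmp_sub` -/
private def CMP_P (M L : ℝ) : Set (ℝ × ℝ → ℝ) := {g | (∀ q, |g q| ≤ M) ∧
  ∀ q q' : ℝ × ℝ, |g q - g q'| ≤ L * (|q.1 - q'.1| + |q.2 - q'.2|)}

private theorem CMP_P_compact (M L : ℝ) : IsCompact (CMP_P M L) := by
  have h1 : IsCompact (Set.pi Set.univ fun _ : ℝ × ℝ => Set.Icc (-M) M) :=
    isCompact_univ_pi fun _ => isCompact_Icc
  refine h1.of_isClosed_subset ?_ fun g hg q _ => abs_le.1 (hg.1 q)
  have e : CMP_P M L = (⋂ q : ℝ × ℝ, {g | |g q| ≤ M}) ∩ ⋂ q : ℝ × ℝ, ⋂ q' : ℝ × ℝ,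
      {g | |g q - g q'| ≤ L * (|q.1 - q'.1| + |q.2 - q'.2|)} := by
    ext g
    simp [CMP_P]
  rw [e]
  refine (isClosed_iInter fun q => isClosed_le (continuous_apply q).abs continuous_const).inter
    (isClosed_iInter fun q => isClosed_iInter fun q' =>
      isClosed_le ((continuous_apply q).sub (continuous_apply q')).abs continuous_const)

theorem cmp_sub {f : ℕ → ℝ × ℝ → ℝ} {M L : ℝ} (hM : ∀ n q, |f n q| ≤ M)
    (hL : ∀ n (q q' : ℝ × ℝ), |f n q - f n q'| ≤ L * (|q.1 - q'.1| + |q.2 - q'.2|)) :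
    ∃ (ψ : ℕ → ℕ) (U : ℝ × ℝ → ℝ), StrictMono ψ ∧ Continuous U ∧ (∀ q, |U q| ≤ M) ∧
      LocU (fun n => f (ψ n)) U := by
  obtain ⟨F, hF⟩ : ∃ F : ℕ → C(ℝ × ℝ, ℝ), ∀ n, (F n : ℝ × ℝ → ℝ) = f n :=
    ⟨fun n => ⟨f n, (CMP_lip (hL n)).continuous⟩, fun n => rfl⟩
  obtain ⟨S, hSdef⟩ : ∃ S : Set C(ℝ × ℝ, ℝ),
      S = {g : C(ℝ × ℝ, ℝ) | (g : ℝ × ℝ → ℝ) ∈ CMP_P M L} := ⟨_, rfl⟩
  have hS : IsCompact S := by
    refine ArzelaAscoli.isCompact_of_equicontinuous S ?_ ?_
    · have e : ContinuousMap.toFun '' S = CMP_P M L := by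
        ext g
        constructor
        · rintro ⟨g', hg', rfl⟩
          rw [hSdef] at hg'
          exact hg'
        · intro hg
          refine ⟨⟨g, (CMP_lip hg.2).continuous⟩, ?_, rfl⟩
          rw [hSdef]
          exact hg
      rw [e]
      exact CMP_P_compact M L
    · refine (LipschitzWith.uniformEquicontinuous _ (2 * |L|).toNNReal fun g => ?_).equicontinuous
      have hg : ((g : C(ℝ × ℝ, ℝ)) : ℝ × ℝ → ℝ) ∈ CMP_P M L := hSdef.le g.2
      exact CMP_lip hg.2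
  have hFS : ∀ n, F n ∈ S := fun n => by
    rw [hSdef]
    show (F n : ℝ × ℝ → ℝ) ∈ CMP_P M L
    rw [hF]
    exact ⟨hM n, hL n⟩
  obtain ⟨U, hU, ψ, hψ, hlim⟩ := hS.tendsto_subseq hFS
  refine ⟨ψ, U, hψ, U.continuous, ?_, ?_⟩
  · rw [hSdef] at hU
    exact hU.1
  · intro R
    have := ContinuousMap.tendsto_iff_forall_isCompact_tendstoUniformlyOn.1 hlim _
      (CMP_sq_compact R)
    simpa [hF] using this

private theorem CMP_tendsto {f : ℕ → ℝ × ℝ → ℝ} {U : ℝ × ℝ → ℝ} (h : LocU f U) (q : ℝ × ℝ) :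
    Tendsto (fun n => f n q) atTop (𝓝 (U q)) := by
  refine (h (max |q.1| |q.2|)).tendsto_at ⟨?_, ?_⟩
  · simp
  · simp

theorem cmp_dir {α x : ℕ → ℝ} {f g : ℕ → ℝ × ℝ → ℝ} {M C : ℝ}
    (hα : ∀ n, 0 < α n ∧ α n ≤ 1) (hg : ∀ n, ContinuousOn (g n) (CEll (α n)))
    (hb : ∀ n, ∀ q ∈ Ell (α n), |g n q| ≤ C) (hd : ∀ n, Dir (α n) (g n) (f n))
    (hM : ∀ n q, |f n q| ≤ M) :
    ∃ (ψ : ℕ → ℕ) (U : ℝ × ℝ → ℝ), StrictMono ψ ∧ Continuous U ∧ (∀ q, |U q| ≤ M) ∧
      (∀ q, q ∉ Str 1 → U q = 0) ∧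
      (∀ q q' : ℝ × ℝ, |U q - U q'| ≤ 17 * C * (|q.1 - q'.1| + |q.2 - q'.2|)) ∧
      LocU (fun n q => f (ψ n) (x (ψ n) + q.1, q.2)) U := by
  have hlip : ∀ n (q q' : ℝ × ℝ), |f n (x n + q.1, q.2) - f n (x n + q'.1, q'.2)|
      ≤ 17 * C * (|q.1 - q'.1| + |q.2 - q'.2|) := by
    intro n q q'
    have h := dir_lip (hα n).1 (hα n).2 (hg n) (hd n) (hb n) (x n + q.1, q.2) (x n + q'.1, q'.2)
    simpa using h
  obtain ⟨ψ, U, hψ, hc, hUM, hU⟩ := cmp_sub (f := fun n q => f n (x n + q.1, q.2)) (M := M)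
    (fun n q => hM n _) hlip
  refine ⟨ψ, U, hψ, hc, hUM, fun q hq => ?_, fun q q' => ?_, hU⟩
  · have h1 := CMP_tendsto hU q
    have h2 : ∀ n, f (ψ n) (x (ψ n) + q.1, q.2) = 0 := by
      intro n
      refine (hd (ψ n)).zero _ fun hmem => hq ?_
      have h3 : α (ψ n) ^ 2 * (x (ψ n) + q.1) ^ 2 + q.2 ^ 2 < 1 := hmem
      have h4 : 0 ≤ α (ψ n) ^ 2 * (x (ψ n) + q.1) ^ 2 := by positivity
      show |q.2| < 1
      exact (sq_lt_one_iff_abs_lt_one q.2).1 (by linarith)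
    simp only [h2] at h1
    exact (tendsto_nhds_unique h1 tendsto_const_nhds)
  · exact le_of_tendsto (((CMP_tendsto hU q).sub (CMP_tendsto hU q')).abs)
      (Eventually.of_forall fun n => hlip (ψ n) q q')

private theorem CMP_cont {N : Set (ℝ × ℝ)} (hN : IsOpen N) {k h : ℝ × ℝ → ℝ}
    (hk : Continuous k) (hkN : tsupport k ⊆ N) (hh : ContinuousOn h N) :
    Continuous (fun q => h q * k q) := by
  rw [continuous_iff_continuousAt]
  intro q
  by_cases hq : q ∈ N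
  · exact (hh.continuousAt (hN.mem_nhds hq)).mul hk.continuousAt
  · have hq' : q ∉ tsupport k := fun h => hq (hkN h)
    have hev : (fun q => h q * k q) =ᶠ[nhds q] fun _ => 0 := by
      filter_upwards [(isClosed_tsupport k).isOpen_compl.mem_nhds hq'] with z hz
      rw [image_eq_zero_of_notMem_tsupport hz, mul_zero]
    exact continuousAt_const.congr hev.symm

private theorem CMP_int {h : ℕ → ℝ × ℝ → ℝ} {h₀ k : ℝ × ℝ → ℝ} (hk : Continuous k)
    (hkc : HasCompactSupport k) (hev : ∀ᶠ n in atTop, ∃ N : Set (ℝ × ℝ), IsOpen N ∧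
      tsupport k ⊆ N ∧ ContinuousOn (h n) N)
    (hunif : TendstoUniformlyOn h h₀ atTop (tsupport k)) :
    Tendsto (fun n => ∫ q, h n q * k q) atTop (𝓝 (∫ q, h₀ q * k q)) := by
  have hh₀ : ContinuousOn h₀ (tsupport k) :=
    hunif.continuousOn (hev.mono fun n ⟨N, _, hN, hc⟩ => hc.mono hN).frequently
  have hcomp : IsCompact (tsupport k) := hkc
  obtain ⟨B, hB⟩ := hcomp.exists_bound_of_continuousOn hh₀
  refine MeasureTheory.tendsto_integral_filter_of_dominated_convergence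
    (fun q => (B + 1) * ‖k q‖) ?_ ?_ ?_ ?_
  · filter_upwards [hev] with n ⟨N, hN, hkN, hc⟩
    exact (CMP_cont hN hk hkN hc).aestronglyMeasurable
  · filter_upwards [Metric.tendstoUniformlyOn_iff.1 hunif 1 one_pos] with n hn
    refine Eventually.of_forall fun q => ?_
    rw [norm_mul]
    by_cases hq : q ∈ tsupport k
    · refine mul_le_mul_of_nonneg_right ?_ (norm_nonneg _)
      have h1 := hn q hq
      rw [Real.dist_eq] at h1
      have h2 := hB q hq
      rw [Real.norm_eq_abs] at h2 ⊢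
      have h3 : |h n q| ≤ |h₀ q| + |h₀ q - h n q| := by
        have := abs_sub_abs_le_abs_sub (h n q) (h₀ q)
        rw [abs_sub_comm] at this
        linarith
      linarith
    · rw [image_eq_zero_of_notMem_tsupport hq, norm_zero, mul_zero, mul_zero]
  · exact (continuous_const.mul hk.norm).integrable_of_hasCompactSupport
      (hkc.norm.mul_left)
  · refine Eventually.of_forall fun q => ?_
    by_cases hq : q ∈ tsupport k
    · exact (hunif.tendsto_at hq).mul_const _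
    · rw [image_eq_zero_of_notMem_tsupport hq]
      simp

private theorem CMP_lap_zero {η : ℝ × ℝ → ℝ} {t : ℝ × ℝ} (ht' : t ∉ tsupport η) :
    lap η t = 0 := by
  have h1 : lap η t = lap (fun _ => (0 : ℝ)) t := by
    apply lap_congr (D := (tsupport η)ᶜ) (isClosed_tsupport η).isOpen_compl _ ht'
    intro z hz
    exact image_eq_zero_of_notMem_tsupport hz
  rw [h1]
  have h2 : dx (fun _ : ℝ × ℝ => (0 : ℝ)) = fun _ => 0 := by
    funext z; show fderiv ℝ (fun _ : ℝ × ℝ => (0 : ℝ)) z (1, 0) = 0; simp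
  have h3 : dy (fun _ : ℝ × ℝ => (0 : ℝ)) = fun _ => 0 := by
    funext z; show fderiv ℝ (fun _ : ℝ × ℝ => (0 : ℝ)) z (0, 1) = 0; simp
  unfold lap
  rw [h2, h3, h2, h3]
  simp

private theorem CMP_lap_supp (η : ℝ × ℝ → ℝ) : tsupport (lap η) ⊆ tsupport η := by
  apply closure_minimal _ (isClosed_tsupport η)
  intro t ht
  by_contra hcon
  exact ht (CMP_lap_zero hcon)

private theorem CMP_ell_open (α : ℝ) : IsOpen (Ell α) :=
  isOpen_lt (by fun_prop) continuous_const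

/-- the shifted weak equation -/
private theorem CMP_shift {α x : ℝ} {f g : ℝ × ℝ → ℝ} (hd : Dir α g f) {η : ℝ × ℝ → ℝ}
    (hη : ContDiff ℝ ∞ η) (hc : HasCompactSupport η)
    (hs : ∀ q ∈ tsupport η, (x + q.1, q.2) ∈ Ell α) :
    ∫ q, f (x + q.1, q.2) * lap η q = -∫ q, g (x + q.1, q.2) * η q := by
  obtain ⟨v, hv⟩ : ∃ v : ℝ × ℝ, v = (x, 0) := ⟨_, rfl⟩
  obtain ⟨η', hη'⟩ : ∃ η' : ℝ × ℝ → ℝ, η' = fun z => η (-v + z) := ⟨_, rfl⟩
  have e1 : ∀ z, η' (v + z) = η z := fun z => by rw [hη']; simp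
  have hη's : ContDiff ℝ ∞ η' := by
    rw [hη']
    exact hη.comp (contDiff_const.add contDiff_id)
  have hη'c : HasCompactSupport η' := by
    rw [hη']
    exact hc.comp_isClosedEmbedding (Homeomorph.addLeft (-v)).isClosedEmbedding
  have hη't : tsupport η' ⊆ Ell α := by
    intro z hz
    have h1 : -v + z ∈ tsupport η := by
      have h2 := tsupport_comp_subset_preimage η (f := fun z => -v + z) (by fun_prop)
      have h3 : z ∈ tsupport (η ∘ fun z => -v + z) := by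
        rw [hη'] at hz
        exact hz
      exact h2 h3
    have h4 := hs _ h1
    have h5 : (x + (-v + z).1, (-v + z).2) = z := by
      rw [hv]
      ext <;> simp
    rwa [h5] at h4
  have hl : ∀ z, lap η' (v + z) = lap η z := by
    intro z
    have h1 := lap_aff (f := η) (q := v + z) (D := Set.univ) (-x) 0 (ε₁ := 1) (ε₂ := 1)
      (by norm_num) (by norm_num) isOpen_univ
      ((contDiff_infty.1 hη 2).contDiffOn) (Set.mem_univ _)
    have h2 : (fun z : ℝ × ℝ => η (-x + 1 * z.1, 0 + 1 * z.2)) = η' := by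
      rw [hη', hv]
      funext z
      congr 1
      ext <;> simp
    have h3 : (((-x + 1 * (v + z).1, 0 + 1 * (v + z).2) : ℝ × ℝ)) = z := by
      rw [hv]
      ext <;> simp
    rw [h2, h3] at h1
    exact h1
  have hw := hd.weak η' hη's hη'c hη't
  have i1 := MeasureTheory.integral_add_left_eq_self (μ := MeasureTheory.volume)
    (fun q => f q * lap η' q) v
  have i2 := MeasureTheory.integral_add_left_eq_self (μ := MeasureTheory.volume)
    (fun q => g q * η' q) v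
  have hvz : ∀ z : ℝ × ℝ, v + z = (x + z.1, z.2) := fun z => by
    rw [hv]
    ext <;> simp
  rw [← i1, ← i2] at hw
  simp only [hl, e1] at hw
  simpa only [hvz] using hw

theorem cmp_eq {α x : ℕ → ℝ} {f g : ℕ → ℝ × ℝ → ℝ} {U g₀ : ℝ × ℝ → ℝ}
    (hα : ∀ n, 0 < α n ∧ α n ≤ 1) (hα0 : Tendsto α atTop (𝓝 0))
    (hx : Tendsto (fun n => α n * x n) atTop (𝓝 0))
    (hg : ∀ n, ContinuousOn (g n) (Ell (α n))) (hd : ∀ n, Dir (α n) (g n) (f n))
    (hU : LocU (fun n q => f n (x n + q.1, q.2)) U)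
    (hg₀ : ∀ K ⊆ Str 1, IsCompact K →
      TendstoUniformlyOn (fun n q => g n (x n + q.1, q.2)) g₀ atTop K) :
    Weak U g₀ (Str 1) := by
  intro η hη hηc hηs
  have hK : IsCompact (tsupport η) := hηc
  -- bounds of the support
  obtain ⟨r, R, hr0, hr1, hR0, hrR⟩ : ∃ r R : ℝ, 0 ≤ r ∧ r < 1 ∧ 0 ≤ R ∧
      ∀ q ∈ tsupport η, |q.1| ≤ R ∧ |q.2| ≤ r := by
    rcases (tsupport η).eq_empty_or_nonempty with h | h
    · refine ⟨0, 0, le_rfl, one_pos, le_rfl, fun q hq => ?_⟩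
      rw [h] at hq
      exact absurd hq (Set.notMem_empty q)
    · obtain ⟨q₁, hq₁, hm₁⟩ := hK.exists_isMaxOn h
        (f := fun q : ℝ × ℝ => |q.1|) continuous_fst.abs.continuousOn
      obtain ⟨q₂, hq₂, hm₂⟩ := hK.exists_isMaxOn h
        (f := fun q : ℝ × ℝ => |q.2|) continuous_snd.abs.continuousOn
      exact ⟨|q₂.2|, |q₁.1|, abs_nonneg _, hηs hq₂, abs_nonneg _,
        fun q hq => ⟨hm₁ hq, hm₂ hq⟩⟩
  have hsmall : ∀ᶠ n in atTop, (|α n * x n| + α n * R) ^ 2 < 1 - r ^ 2 := by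
    have h1 : Tendsto (fun n => (|α n * x n| + α n * R) ^ 2) atTop (𝓝 ((|0| + 0 * R) ^ 2)) :=
      ((hx.abs).add (hα0.mul_const R)).pow 2
    have h2 : (|(0 : ℝ)| + 0 * R) ^ 2 < 1 - r ^ 2 := by
      have h3 : r ^ 2 < 1 := by nlinarith
      have h4 : (|(0 : ℝ)| + 0 * R) ^ 2 = 0 := by simp
      rw [h4]
      linarith
    exact h1.eventually_lt_const h2
  have hsup : ∀ᶠ n in atTop, ∀ q ∈ tsupport η, (x n + q.1, q.2) ∈ Ell (α n) := by
    filter_upwards [hsmall] with n hn q hq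
    obtain ⟨h1, h2⟩ := hrR q hq
    show α n ^ 2 * (x n + q.1) ^ 2 + q.2 ^ 2 < 1
    have h3 : |α n * (x n + q.1)| ≤ |α n * x n| + α n * R := by
      rw [mul_add]
      refine (abs_add_le _ _).trans (add_le_add le_rfl ?_)
      rw [abs_mul, abs_of_pos (hα n).1]
      exact mul_le_mul_of_nonneg_left h1 (hα n).1.le
    have h4 : (α n * (x n + q.1)) ^ 2 ≤ (|α n * x n| + α n * R) ^ 2 := by
      rw [← sq_abs (α n * (x n + q.1))]
      exact pow_le_pow_left₀ (abs_nonneg _) h3 2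
    have h5 : q.2 ^ 2 ≤ r ^ 2 := by
      rw [← sq_abs q.2]
      exact pow_le_pow_left₀ (abs_nonneg _) h2 2
    have h6 : (α n * (x n + q.1)) ^ 2 = α n ^ 2 * (x n + q.1) ^ 2 := by ring
    linarith
  have hη2 : ContDiff ℝ ∞ (lap η) := by
    have := smooth_lap isOpen_univ hη.contDiffOn
    rwa [contDiffOn_univ] at this
  have hlc : HasCompactSupport (lap η) :=
    hηc.of_isClosed_subset (isClosed_tsupport _) (CMP_lap_supp η)
  -- left side
  have hsq : tsupport η ⊆ Sq (0, 0) (max R r) := by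
    intro q hq
    obtain ⟨h1, h2⟩ := hrR q hq
    refine ⟨?_, ?_⟩
    · simpa using h1.trans (le_max_left R r)
    · simpa using h2.trans (le_max_right R r)
  have l1 : Tendsto (fun n => ∫ q, f n (x n + q.1, q.2) * lap η q) atTop
      (𝓝 (∫ q, U q * lap η q)) := by
    refine CMP_int (h := fun n q => f n (x n + q.1, q.2)) hη2.continuous hlc
      (Eventually.of_forall fun n => ⟨Set.univ, isOpen_univ, Set.subset_univ _, ?_⟩)
      ((hU (max R r)).mono ((CMP_lap_supp η).trans hsq))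
    exact ((hd n).cont.comp (by fun_prop)).continuousOn
  have l2 : Tendsto (fun n => ∫ q, g n (x n + q.1, q.2) * η q) atTop
      (𝓝 (∫ q, g₀ q * η q)) := by
    refine CMP_int (h := fun n q => g n (x n + q.1, q.2)) hη.continuous hηc ?_
      (hg₀ _ hηs hK)
    filter_upwards [hsup] with n hn
    refine ⟨(fun q : ℝ × ℝ => (x n + q.1, q.2)) ⁻¹' Ell (α n),
      (CMP_ell_open (α n)).preimage (by fun_prop), fun q hq => hn q hq, ?_⟩
    exact (hg n).comp (t := Ell (α n)) (f := fun q : ℝ × ℝ => (x n + q.1, q.2))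
      (by fun_prop) fun q hq => hq
  have l3 : Tendsto (fun n => ∫ q, f n (x n + q.1, q.2) * lap η q) atTop
      (𝓝 (-∫ q, g₀ q * η q)) := by
    refine l2.neg.congr' ?_
    filter_upwards [hsup] with n hn
    exact (CMP_shift (hd n) hη hηc hn).symm
  exact tendsto_nhds_unique l1 l3

/-- pointwise consequences -/
theorem locU_tendsto {f : ℕ → ℝ × ℝ → ℝ} {U : ℝ × ℝ → ℝ} (h : LocU f U) (q : ℝ × ℝ) :
    Tendsto (fun n => f n q) atTop (𝓝 (U q)) := by
  exact CMP_tendsto h q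

private theorem CMP_exp_lip {a b M : ℝ} (ha : |a| ≤ M) (hb : |b| ≤ M) :
    |Real.exp a - Real.exp b| ≤ Real.exp M * |a - b| := by
  have h := (convex_Icc (-M) M).norm_image_sub_le_of_norm_hasDerivWithin_le (f := Real.exp)
    (f' := Real.exp) (C := Real.exp M) (fun t _ => (Real.hasDerivAt_exp t).hasDerivWithinAt)
    (fun t ht => by rw [Real.norm_eq_abs, Real.abs_exp]; exact Real.exp_le_exp.2 ht.2)
    (abs_le.1 hb) (abs_le.1 ha)
  simpa [Real.norm_eq_abs] using h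

theorem locU_exp {f : ℕ → ℝ × ℝ → ℝ} {U : ℝ × ℝ → ℝ} {M : ℝ} (h : LocU f U)
    (hM : ∀ n q, |f n q| ≤ M) (hU : ∀ q, |U q| ≤ M) :
    LocU (fun n q => Real.exp (f n q)) (fun q => Real.exp (U q)) := by
  intro R
  rw [Metric.tendstoUniformlyOn_iff]
  intro ε hε
  have he : 0 < Real.exp M := Real.exp_pos M
  filter_upwards [Metric.tendstoUniformlyOn_iff.1 (h R) (ε / Real.exp M) (by positivity)]
    with n hn q hq
  have h1 := hn q hq
  rw [Real.dist_eq, lt_div_iff₀ he] at h1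
  rw [Real.dist_eq]
  refine (CMP_exp_lip (hU q) (hM n q)).trans_lt ?_
  linarith

theorem locU_mul {f g : ℕ → ℝ × ℝ → ℝ} {U G : ℝ × ℝ → ℝ} {M : ℝ} (h : LocU f U)
    (h' : LocU g G) (hM : ∀ n q, |f n q| ≤ M) (hG : ∀ q, |G q| ≤ M) :
    LocU (fun n q => f n q * g n q) (fun q => U q * G q) := by
  intro R
  rw [Metric.tendstoUniformlyOn_iff]
  intro ε hε
  have hM0 : 0 ≤ M := (abs_nonneg _).trans (hG (0, 0))
  have hM1 : 0 < 2 * (M + 1) := by linarith
  filter_upwards [Metric.tendstoUniformlyOn_iff.1 (h R) (ε / (2 * (M + 1))) (by positivity),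
    Metric.tendstoUniformlyOn_iff.1 (h' R) (ε / (2 * (M + 1))) (by positivity)] with n hn hn' q hq
  have h1 := hn q hq
  have h2 := hn' q hq
  rw [Real.dist_eq] at h1 h2 ⊢
  have e : U q * G q - f n q * g n q = (U q - f n q) * G q + f n q * (G q - g n q) := by ring
  rw [e]
  refine (abs_add_le _ _).trans_lt ?_
  rw [abs_mul, abs_mul]
  have h3 : |U q - f n q| * |G q| ≤ ε / (2 * (M + 1)) * M :=
    mul_le_mul h1.le (hG q) (abs_nonneg _) (by positivity)
  have h4 : |f n q| * |G q - g n q| ≤ M * (ε / (2 * (M + 1))) :=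
    mul_le_mul (hM n q) h2.le (abs_nonneg _) hM0
  have h5 : ε / (2 * (M + 1)) * (2 * (M + 1)) = ε := div_mul_cancel₀ _ hM1.ne'
  have h6 : 0 < ε / (2 * (M + 1)) := by positivity
  nlinarith

/-- if every subsequence has a further subsequence converging to `U` then the sequence does -/
theorem locU_of_subseq {f : ℕ → ℝ × ℝ → ℝ} {U : ℝ × ℝ → ℝ}
    (h : ∀ ψ : ℕ → ℕ, StrictMono ψ → ∃ ψ' : ℕ → ℕ, StrictMono ψ' ∧
      LocU (fun n => f (ψ (ψ' n))) U) : LocU f U := by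
  intro R
  rw [Metric.tendstoUniformlyOn_iff]
  intro ε hε
  by_contra hcon
  obtain ⟨ψ, hψ, hψ'⟩ := extraction_of_frequently_atTop (not_eventually.1 hcon)
  obtain ⟨ψ', hψ'm, hlim⟩ := h ψ hψ
  obtain ⟨n, hn⟩ := (Metric.tendstoUniformlyOn_iff.1 (hlim R) ε hε).exists
  exact hψ' (ψ' n) hn

end Pool.Agent.MFE
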