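import Pool.Agent.MFE.HKG

/-!
# MFE.HKC: nonlinear and linear comparison at equal amplitude

`hk_compare`: `d = v₁ - v₂`, `c = μ ∫_0^1 exp(s v₁ + (1-s) v₂) ds` (continuous,
`0 < c ≤ μ e^M`, `c d = μ (e^{v₁} - e^{v₂})`, `c < μ e^{v₁}` where `v₁ > v₂`, `c < μ e^{v₂}`
where `v₂ > v₁`). Apply `hk_gen`. `hhalf` for `s = 1`, `N ⊆ {x > 0}`: `nodal_prop` with `ψ = d`,
`g` the function `gx` of `v₁` (`c g ≤ μ e^{v₁} g ≤ -lap g`) gives `d = κ g` on `N`, so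
`c d = -lap d = -κ lap g ≥ μ e^{v₁} κ g = μ e^{v₁} d > c d`: contradiction. For `s = -1` use
`v₂`. Same with `gy`.

`hk_linear`: `hk_gen` with `d = ζ`. `hhalf`, `N ⊆ {x > 0}`, `ψ = s ζ = κ gx` on `N` by
`nodal_prop`. `N` is closed in `D ∩ {x > 0}`: at a limit point `q` of `N` in that set
`s ζ q = κ gx q > 0`, so `q ∈ N` (maximality). `D ∩ {x > 0}` is connected (solidity), so
`N = D ∩ {x > 0}`, hence `s ζ ≥ 0` on `D` (evenness, continuity), superharmonic, zero at the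
origin: `smp` gives `ζ = 0`: contradiction.
-/

open scoped ContDiff

namespace Pool.Agent.MFE

/-- positive supersolutions of the linearised equation on the half domains -/
def Super (D : Set (ℝ × ℝ)) (c : ℝ × ℝ → ℝ) : Prop :=
  (∃ gx : ℝ × ℝ → ℝ, ContDiffOn ℝ 2 gx (D ∩ {q | 0 < q.1}) ∧
    (∀ q ∈ D, 0 < q.1 → 0 < gx q ∧ c q * gx q ≤ -lap gx q)) ∧
  (∃ gy : ℝ × ℝ → ℝ, ContDiffOn ℝ 2 gy (D ∩ {q | 0 < q.2}) ∧
    (∀ q ∈ D, 0 < q.2 → 0 < gy q ∧ c q * gy q ≤ -lap gy q))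

private theorem core1 {N : Set (ℝ × ℝ)} (hN : IsOpen N) (hc : IsConnected N) {L : ℝ}
    (hL : N ⊆ Str L) {ψ g c m : ℝ × ℝ → ℝ} {C M : ℝ} (hψ : ContDiffOn ℝ 2 ψ N)
    (ψpos : ∀ q ∈ N, 0 < ψ q) (hM : ∀ q ∈ N, ψ q ≤ M) (hg : ContDiffOn ℝ 2 g N)
    (gpos : ∀ q ∈ N, 0 < g q) (hcc : ContinuousOn c N) (hc0 : ∀ q ∈ N, 0 ≤ c q ∧ c q ≤ C)
    (h1 : ∀ q ∈ N, -lap ψ q = c q * ψ q) (hcm : ∀ q ∈ N, c q < m q)
    (h2 : ∀ q ∈ N, m q * g q ≤ -lap g q)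
    (hz : ∀ ε : ℝ, 0 < ε → IsClosed {q | q ∈ N ∧ ε ≤ ψ q}) : False := by
  obtain ⟨κ, hκ, hκ2⟩ := nodal_prop hN hc hL hψ ψpos hM hg gpos hcc hc0
    (fun q hq => (h1 q hq).le)
    (fun q hq => (mul_le_mul_of_nonneg_right (hcm q hq).le (gpos q hq).le).trans (h2 q hq)) hz
  obtain ⟨q, hq⟩ := hc.nonempty
  have e1 : lap ψ q = κ * lap g q := by
    rw [lap_congr hN hκ2 hq, lap_const_mul hN κ hg hq]
  have e2 := h1 q hq
  rw [e1, hκ2 q hq] at e2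
  have e3 := h2 q hq
  have e4 := mul_lt_mul_of_pos_right (hcm q hq) (gpos q hq)
  have e5 : c q * g q < -lap g q := lt_of_lt_of_le e4 e3
  have e6 := mul_lt_mul_of_pos_left e5 hκ
  linarith

private theorem mean_exp {a b : ℝ} (h : b < a) :
    0 < (Real.exp a - Real.exp b) / (a - b) ∧
      (Real.exp a - Real.exp b) / (a - b) < Real.exp a := by
  have hab : 0 < a - b := by linarith
  refine ⟨div_pos (by linarith [Real.exp_lt_exp.2 h]) hab, ?_⟩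
  rw [div_lt_iff₀ hab]
  have h1 : (b - a) + 1 < Real.exp (b - a) := Real.add_one_lt_exp (by linarith)
  have h2 : Real.exp b = Real.exp a * Real.exp (b - a) := by
    rw [← Real.exp_add]
    congr 1
    ring
  have h3 := mul_lt_mul_of_pos_left h1 (Real.exp_pos a)
  rw [h2]
  linarith

/-- the difference quotient of the nonlinearity -/
private noncomputable def cq (μ : ℝ) (v₁ v₂ : ℝ × ℝ → ℝ) (q : ℝ × ℝ) : ℝ :=
  if v₁ q = v₂ q then μ * Real.exp (v₁ q)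
  else μ * ((Real.exp (v₁ q) - Real.exp (v₂ q)) / (v₁ q - v₂ q))

private theorem cq_symm (μ : ℝ) (v₁ v₂ : ℝ × ℝ → ℝ) (q : ℝ × ℝ) :
    cq μ v₁ v₂ q = cq μ v₂ v₁ q := by
  unfold cq
  by_cases h : v₁ q = v₂ q
  · rw [if_pos h, if_pos h.symm, h]
  · rw [if_neg h, if_neg (fun h' => h h'.symm), ← neg_sub (Real.exp (v₂ q)),
      ← neg_sub (v₂ q), neg_div_neg_eq]

private theorem cq_gt {μ : ℝ} (hμ : 0 < μ) {v₁ v₂ : ℝ × ℝ → ℝ} {q : ℝ × ℝ} (h : v₂ q < v₁ q) :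
    0 < cq μ v₁ v₂ q ∧ cq μ v₁ v₂ q < μ * Real.exp (v₁ q) := by
  unfold cq
  rw [if_neg h.ne']
  obtain ⟨h1, h2⟩ := mean_exp h
  exact ⟨mul_pos hμ h1, mul_lt_mul_of_pos_left h2 hμ⟩

private theorem cq_bd {μ M : ℝ} (hμ : 0 < μ) {v₁ v₂ : ℝ × ℝ → ℝ} {q : ℝ × ℝ}
    (b1 : |v₁ q| ≤ M) (b2 : |v₂ q| ≤ M) :
    0 < cq μ v₁ v₂ q ∧ cq μ v₁ v₂ q ≤ μ * Real.exp M := by
  have e1 : μ * Real.exp (v₁ q) ≤ μ * Real.exp M :=
    mul_le_mul_of_nonneg_left (Real.exp_le_exp.2 (le_of_abs_le b1)) hμ.le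
  have e2 : μ * Real.exp (v₂ q) ≤ μ * Real.exp M :=
    mul_le_mul_of_nonneg_left (Real.exp_le_exp.2 (le_of_abs_le b2)) hμ.le
  rcases lt_trichotomy (v₁ q) (v₂ q) with h | h | h
  · rw [cq_symm]
    obtain ⟨h1, h2⟩ := cq_gt hμ h
    exact ⟨h1, h2.le.trans e2⟩
  · unfold cq
    rw [if_pos h]
    exact ⟨mul_pos hμ (Real.exp_pos _), e1⟩
  · obtain ⟨h1, h2⟩ := cq_gt hμ h
    exact ⟨h1, h2.le.trans e1⟩

private theorem cq_mul (μ : ℝ) (v₁ v₂ : ℝ × ℝ → ℝ) (q : ℝ × ℝ) :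
    cq μ v₁ v₂ q * (v₁ q - v₂ q) = μ * Real.exp (v₁ q) - μ * Real.exp (v₂ q) := by
  unfold cq
  by_cases h : v₁ q = v₂ q
  · rw [if_pos h, h]
    ring
  · rw [if_neg h]
    have : v₁ q - v₂ q ≠ 0 := sub_ne_zero.2 h
    field_simp

private theorem cq_cont {μ : ℝ} {v₁ v₂ : ℝ × ℝ → ℝ} {N : Set (ℝ × ℝ)} (h1 : ContinuousOn v₁ N)
    (h2 : ContinuousOn v₂ N) (hne : ∀ q ∈ N, v₁ q ≠ v₂ q) : ContinuousOn (cq μ v₁ v₂) N := by
  have h3 : ContinuousOn (fun q => μ * ((Real.exp (v₁ q) - Real.exp (v₂ q)) / (v₁ q - v₂ q))) N :=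
    continuousOn_const.mul ((h1.rexp.sub h2.rexp).div (h1.sub h2)
      fun q hq => sub_ne_zero.2 (hne q hq))
  refine h3.congr fun q hq => ?_
  unfold cq
  rw [if_neg (hne q hq)]

/-- a nodal domain of `v₁ - v₂` in a half domain with a supersolution of `v₁` -/
private theorem cmp_half {D : Set (ℝ × ℝ)} {L : ℝ} (hL : D ⊆ Str L)
    {μ M : ℝ} (hμ : 0 < μ) {v₁ v₂ : ℝ × ℝ → ℝ} (h1 : ContDiffOn ℝ 2 v₁ D)
    (h2 : ContDiffOn ℝ 2 v₂ D)
    (b1 : ∀ q ∈ D, |v₁ q| ≤ M) (b2 : ∀ q ∈ D, |v₂ q| ≤ M)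
    (eq1 : ∀ q ∈ D, -lap v₁ q = μ * Real.exp (v₁ q))
    (eq2 : ∀ q ∈ D, -lap v₂ q = μ * Real.exp (v₂ q)) {N : Set (ℝ × ℝ)} (hN : IsOpen N)
    (hc : IsConnected N) (hs : ∀ q ∈ N, q ∈ D ∧ v₂ q < v₁ q)
    (hz : ∀ ε : ℝ, 0 < ε → IsClosed {q | q ∈ N ∧ ε ≤ v₁ q - v₂ q})
    {g : ℝ × ℝ → ℝ} (hg : ContDiffOn ℝ 2 g N) (gpos : ∀ q ∈ N, 0 < g q)
    (hgs : ∀ q ∈ N, μ * Real.exp (v₁ q) * g q ≤ -lap g q) : False := by
  have hND : N ⊆ D := fun q hq => (hs q hq).1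
  have g1 := h1.mono hND
  have g2 := h2.mono hND
  refine core1 (C := μ * Real.exp M) (M := 2 * M) (ψ := fun q => v₁ q - v₂ q)
    (c := cq μ v₁ v₂) (m := fun q => μ * Real.exp (v₁ q)) hN hc (hND.trans hL) (g1.sub g2)
    (fun q hq => by linarith [(hs q hq).2]) ?_ hg gpos
    (cq_cont g1.continuousOn g2.continuousOn fun q hq => (hs q hq).2.ne') ?_ ?_ ?_ hgs hz
  · intro q hq
    have e1 := (abs_le.1 (b1 q (hND hq))).2
    have e2 := (abs_le.1 (b2 q (hND hq))).1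
    linarith
  · intro q hq
    obtain ⟨e1, e2⟩ := cq_bd hμ (b1 q (hND hq)) (b2 q (hND hq))
    exact ⟨e1.le, e2⟩
  · intro q hq
    rw [cq_mul, lap_sub hN g1 g2 hq]
    have e1 := eq1 q (hND hq)
    have e2 := eq2 q (hND hq)
    linarith
  · intro q hq
    exact (cq_gt hμ (hs q hq).2).2

theorem hk_compare {D : Set (ℝ × ℝ)} (hD : Solid D) {L : ℝ} (hL : D ⊆ Str L) {μ M : ℝ}
    (hμ : 0 < μ) {v₁ v₂ : ℝ × ℝ → ℝ} (h1 : ContDiffOn ℝ 2 v₁ D) (h2 : ContDiffOn ℝ 2 v₂ D)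
    (e1x : EvX v₁) (e1y : EvY v₁) (e2x : EvX v₂) (e2y : EvY v₂)
    (b1 : ∀ q ∈ D, |v₁ q| ≤ M) (b2 : ∀ q ∈ D, |v₂ q| ≤ M)
    (eq1 : ∀ q ∈ D, -lap v₁ q = μ * Real.exp (v₁ q))
    (eq2 : ∀ q ∈ D, -lap v₂ q = μ * Real.exp (v₂ q))
    (s1 : Super D (fun q => μ * Real.exp (v₁ q))) (s2 : Super D (fun q => μ * Real.exp (v₂ q)))
    (h0 : v₁ (0, 0) = v₂ (0, 0))
    (hbd : ∀ ε : ℝ, 0 < ε → IsClosed {q | q ∈ D ∧ v₁ q ≤ v₂ q - ε}) :
    ∀ q ∈ D, v₁ q = v₂ q := by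
  have main : ∀ q ∈ D, v₁ q - v₂ q = 0 := by
    refine hk_gen (d := fun q => v₁ q - v₂ q) (c := cq μ v₁ v₂) (C := μ * Real.exp M)
      (M := 2 * M) hD hL (h1.sub h2) ?_ ?_ ?_ ?_ ?_ ?_ ?_ ?_
    · intro x y
      show v₁ (-x, y) - v₂ (-x, y) = v₁ (x, y) - v₂ (x, y)
      rw [e1x, e2x]
    · intro x y
      show v₁ (x, -y) - v₂ (x, -y) = v₁ (x, y) - v₂ (x, y)
      rw [e1y, e2y]
    · show v₁ (0, 0) - v₂ (0, 0) = 0
      rw [h0, sub_self]
    · intro q hq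
      exact cq_bd hμ (b1 q hq) (b2 q hq)
    · intro q hq
      rw [cq_mul, lap_sub hD.isOpen h1 h2 hq]
      have e1 := eq1 q hq
      have e2 := eq2 q hq
      linarith
    · intro q hq
      have e1 := abs_le.1 (b1 q hq)
      have e2 := abs_le.1 (b2 q hq)
      exact abs_le.2 ⟨by linarith [e1.1, e2.2], by linarith [e1.2, e2.1]⟩
    · intro ε hε
      convert hbd ε hε using 3
      constructor
      · rintro ⟨ha, hb⟩
        exact ⟨ha, by linarith⟩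
      · rintro ⟨ha, hb⟩
        exact ⟨ha, by linarith⟩
    · intro s N hs hN hz
      rcases hs with rfl | rfl
      · have hs' : ∀ q ∈ N, q ∈ D ∧ v₂ q < v₁ q := by
          intro q hq
          obtain ⟨ha, hb⟩ := hN.sub q hq
          exact ⟨ha, by linarith⟩
        have hz' : ∀ ε : ℝ, 0 < ε → IsClosed {q | q ∈ N ∧ ε ≤ v₁ q - v₂ q} := by
          intro ε hε
          have := hz ε hε
          simpa only [one_mul] using this
        obtain ⟨⟨gx, hgx1, hgx2⟩, ⟨gy, hgy1, hgy2⟩⟩ := s1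
        constructor
        · intro hsub
          exact cmp_half hL hμ h1 h2 b1 b2 eq1 eq2 hN.isOpen hN.conn hs' hz'
            (hgx1.mono fun q hq => ⟨(hs' q hq).1, hsub hq⟩)
            (fun q hq => (hgx2 q (hs' q hq).1 (hsub hq)).1)
            (fun q hq => (hgx2 q (hs' q hq).1 (hsub hq)).2)
        · intro hsub
          exact cmp_half hL hμ h1 h2 b1 b2 eq1 eq2 hN.isOpen hN.conn hs' hz'
            (hgy1.mono fun q hq => ⟨(hs' q hq).1, hsub hq⟩)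
            (fun q hq => (hgy2 q (hs' q hq).1 (hsub hq)).1)
            (fun q hq => (hgy2 q (hs' q hq).1 (hsub hq)).2)
      · have hs' : ∀ q ∈ N, q ∈ D ∧ v₁ q < v₂ q := by
          intro q hq
          obtain ⟨ha, hb⟩ := hN.sub q hq
          exact ⟨ha, by linarith⟩
        have hz' : ∀ ε : ℝ, 0 < ε → IsClosed {q | q ∈ N ∧ ε ≤ v₂ q - v₁ q} := by
          intro ε hε
          have := hz ε hε
          simpa only [neg_mul, one_mul, neg_sub] using this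
        obtain ⟨⟨gx, hgx1, hgx2⟩, ⟨gy, hgy1, hgy2⟩⟩ := s2
        constructor
        · intro hsub
          exact cmp_half hL hμ h2 h1 b2 b1 eq2 eq1 hN.isOpen hN.conn hs' hz'
            (hgx1.mono fun q hq => ⟨(hs' q hq).1, hsub hq⟩)
            (fun q hq => (hgx2 q (hs' q hq).1 (hsub hq)).1)
            (fun q hq => (hgx2 q (hs' q hq).1 (hsub hq)).2)
        · intro hsub
          exact cmp_half hL hμ h2 h1 b2 b1 eq2 eq1 hN.isOpen hN.conn hs' hz'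
            (hgy1.mono fun q hq => ⟨(hs' q hq).1, hsub hq⟩)
            (fun q hq => (hgy2 q (hs' q hq).1 (hsub hq)).1)
            (fun q hq => (hgy2 q (hs' q hq).1 (hsub hq)).2)
  intro q hq
  linarith [main q hq]

private theorem seg_x {D : Set (ℝ × ℝ)} (hD : Solid D) {x x' : ℝ} (h : (x, (0 : ℝ)) ∈ D)
    (h' : (x', (0 : ℝ)) ∈ D) {z : ℝ × ℝ} (hz : z ∈ segment ℝ (x, (0 : ℝ)) (x', (0 : ℝ))) :
    z ∈ D ∧ min x x' ≤ z.1 := by
  obtain ⟨a, b, ha, hb, hab, rfl⟩ := hz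
  have e1 : (a • (x, (0 : ℝ)) + b • (x', (0 : ℝ)) : ℝ × ℝ) = (a * x + b * x', 0) := by
    ext <;> simp
  rw [e1]
  constructor
  · have h3 : |a * x + b * x'| ≤ max |x| |x'| := by
      refine (abs_add_le _ _).trans ?_
      rw [abs_mul, abs_mul, abs_of_nonneg ha, abs_of_nonneg hb]
      have := mul_le_mul_of_nonneg_left (le_max_left |x| |x'|) ha
      have := mul_le_mul_of_nonneg_left (le_max_right |x| |x'|) hb
      calc a * |x| + b * |x'| ≤ a * max |x| |x'| + b * max |x| |x'| := by linarith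
        _ = (a + b) * max |x| |x'| := by ring
        _ = max |x| |x'| := by rw [hab, one_mul]
    rcases max_choice |x| |x'| with hm | hm
    · rw [hm] at h3
      exact hD.solid _ _ _ _ h h3 le_rfl
    · rw [hm] at h3
      exact hD.solid _ _ _ _ h' h3 le_rfl
  · have := mul_le_mul_of_nonneg_left (min_le_left x x') ha
    have := mul_le_mul_of_nonneg_left (min_le_right x x') hb
    calc min x x' = (a + b) * min x x' := by rw [hab, one_mul]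
      _ = a * min x x' + b * min x x' := by ring
      _ ≤ a * x + b * x' := by linarith

private theorem seg_v {D : Set (ℝ × ℝ)} (hD : Solid D) {x y : ℝ} (h : (x, y) ∈ D)
    {z : ℝ × ℝ} (hz : z ∈ segment ℝ (x, y) (x, (0 : ℝ))) : z ∈ D ∧ z.1 = x := by
  obtain ⟨a, b, ha, hb, hab, rfl⟩ := hz
  have e1 : (a • (x, y) + b • (x, (0 : ℝ)) : ℝ × ℝ) = (x, a * y) := by
    ext
    · simp only [Prod.smul_mk, Prod.mk_add_mk, smul_eq_mul]
      rw [← add_mul, hab, one_mul]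
    · simp
  rw [e1]
  refine ⟨hD.solid _ _ _ _ h le_rfl ?_, rfl⟩
  rw [abs_mul, abs_of_nonneg ha]
  have := mul_le_mul_of_nonneg_right (show a ≤ 1 by linarith) (abs_nonneg y)
  linarith

private theorem conn_gen {D : Set (ℝ × ℝ)} (hD : Solid D) (P : ℝ → Prop)
    (hP : ∀ a b : ℝ, P a → min a b = a → P b) : IsPreconnected (D ∩ {q | P q.1}) := by
  refine isPreconnected_of_forall_pair fun p hp q hq => ?_
  obtain ⟨x, y⟩ := p
  obtain ⟨x', y'⟩ := q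
  obtain ⟨hp1, hp2⟩ := hp
  obtain ⟨hq1, hq2⟩ := hq
  have hx0 : (x, (0 : ℝ)) ∈ D := hD.solid _ _ _ _ hp1 le_rfl (by simp)
  have hx0' : (x', (0 : ℝ)) ∈ D := hD.solid _ _ _ _ hq1 le_rfl (by simp)
  have c1 : IsPreconnected (segment ℝ (x, y) (x, (0 : ℝ))) := (convex_segment _ _).isPreconnected
  have c2 : IsPreconnected (segment ℝ (x, (0 : ℝ)) (x', (0 : ℝ))) :=
    (convex_segment _ _).isPreconnected
  have c3 : IsPreconnected (segment ℝ (x', y') (x', (0 : ℝ))) :=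
    (convex_segment _ _).isPreconnected
  refine ⟨segment ℝ (x, y) (x, (0 : ℝ)) ∪ segment ℝ (x, (0 : ℝ)) (x', (0 : ℝ)) ∪
    segment ℝ (x', y') (x', (0 : ℝ)), ?_, Or.inl (Or.inl (left_mem_segment ℝ _ _)),
    Or.inr (left_mem_segment ℝ _ _), ?_⟩
  · rintro z ((hz | hz) | hz)
    · obtain ⟨h1, h2⟩ := seg_v hD hp1 hz
      refine ⟨h1, ?_⟩
      show P z.1
      rw [h2]
      exact hp2
    · obtain ⟨h1, h2⟩ := seg_x hD hx0 hx0' hz
      refine ⟨h1, ?_⟩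
      show P z.1
      rcases min_choice x x' with hm | hm
      · rw [hm] at h2
        exact hP x z.1 hp2 (min_eq_left h2)
      · rw [hm] at h2
        exact hP x' z.1 hq2 (min_eq_left h2)
    · obtain ⟨h1, h2⟩ := seg_v hD hq1 hz
      refine ⟨h1, ?_⟩
      show P z.1
      rw [h2]
      exact hq2
  · exact (c1.union _ (right_mem_segment ℝ _ _) (left_mem_segment ℝ _ _) c2).union _
      (Or.inr (right_mem_segment ℝ _ _)) (right_mem_segment ℝ _ _) c3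

/-- exchange of the coordinates -/
private theorem solid_swap {D : Set (ℝ × ℝ)} (hD : Solid D) : Solid (Prod.swap ⁻¹' D) :=
  ⟨hD.isOpen.preimage continuous_swap, hD.zero_mem,
    fun x y x' y' h h1 h2 => hD.solid y x y' x' h h2 h1⟩

private theorem conn_x {D : Set (ℝ × ℝ)} (hD : Solid D) : IsPreconnected (D ∩ {q | 0 < q.1}) :=
  conn_gen hD (fun a => 0 < a) (fun a b ha hab => lt_of_lt_of_le ha (min_eq_left_iff.1 hab))

private theorem conn_y {D : Set (ℝ × ℝ)} (hD : Solid D) : IsPreconnected (D ∩ {q | 0 < q.2}) := by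
  have h := (conn_x (solid_swap hD)).image Prod.swap continuous_swap.continuousOn
  convert h using 1
  ext q
  constructor
  · rintro ⟨h1, h2⟩
    exact ⟨q.swap, ⟨by simpa using h1, h2⟩, by simp⟩
  · rintro ⟨p, ⟨h1, h2⟩, rfl⟩
    exact ⟨h1, h2⟩

private theorem conn_all {D : Set (ℝ × ℝ)} (hD : Solid D) : IsPreconnected D := by
  have := conn_gen hD (fun _ => True) (fun _ _ _ _ => trivial)
  simpa using this

/-- a positive supersolution forces a nodal domain in a half domain to be the half domain, and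
this is impossible -/
private theorem lin_half {D H : Set (ℝ × ℝ)} (hD : Solid D) {L : ℝ} (hL : D ⊆ Str L)
    {c ζ : ℝ × ℝ → ℝ} {C M s : ℝ} (hs : s = 1 ∨ s = -1) (hcc : ContinuousOn c D)
    (hc0 : ∀ q ∈ D, 0 < c q ∧ c q ≤ C) (hζ : ContDiffOn ℝ 2 ζ D) (h0 : ζ (0, 0) = 0)
    (heq : ∀ q ∈ D, -lap ζ q = c q * ζ q) (hM : ∀ q ∈ D, |ζ q| ≤ M)
    (hH : IsPreconnected (D ∩ H)) (hfin : (∀ q ∈ D ∩ H, 0 ≤ s * ζ q) → ∀ q ∈ D, 0 ≤ s * ζ q)
    {g : ℝ × ℝ → ℝ} (hg : ContDiffOn ℝ 2 g (D ∩ H))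
    (hg2 : ∀ q ∈ D, q ∈ H → 0 < g q ∧ c q * g q ≤ -lap g q) {N : Set (ℝ × ℝ)}
    (hN : IsNodal D (fun q => s * ζ q) N)
    (hz : ∀ ε : ℝ, 0 < ε → IsClosed {q | q ∈ N ∧ ε ≤ s * ζ q}) (hsub : N ⊆ H) : False := by
  have hND : N ⊆ D := fun q hq => (hN.sub q hq).1
  have hsζ : ContDiffOn ℝ 2 (fun q => s * ζ q) D := contDiffOn_const.mul hζ
  have hlap : ∀ q ∈ D, -lap (fun q => s * ζ q) q = c q * (s * ζ q) := by
    intro q hq
    rw [lap_const_mul hD.isOpen s hζ hq]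
    have := heq q hq
    have h2 : -(s * lap ζ q) = s * (-lap ζ q) := by ring
    rw [h2, this]
    ring
  obtain ⟨κ, hκ, hκ2⟩ := nodal_prop (C := C) (M := M) hN.isOpen hN.conn (hND.trans hL)
    (hsζ.mono hND) (fun q hq => (hN.sub q hq).2) (fun q hq => by
      have h1 := abs_le.1 (hM q (hND hq))
      rcases hs with rfl | rfl
      · linarith [h1.2]
      · linarith [h1.1])
    (hg.mono fun q hq => ⟨hND hq, hsub hq⟩) (fun q hq => (hg2 q (hND hq) (hsub hq)).1)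
    (hcc.mono hND) (fun q hq => ⟨(hc0 q (hND hq)).1.le, (hc0 q (hND hq)).2⟩)
    (fun q hq => (hlap q (hND hq)).le) (fun q hq => (hg2 q (hND hq) (hsub hq)).2) hz
  have hcl : closure N ∩ (D ∩ H) ⊆ N := by
    rintro q ⟨hq, hqD, hqH⟩
    have hgq := (hg2 q hqD hqH).1
    have hpos : 0 < s * ζ q := by
      have h1 : ContinuousWithinAt (fun q => s * ζ q) N q :=
        (hsζ.continuousOn q hqD).mono hND
      have h2 : ContinuousWithinAt (fun q => κ * g q) N q :=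
        continuousWithinAt_const.mul ((hg.continuousOn q ⟨hqD, hqH⟩).mono
          fun p hp => ⟨hND hp, hsub hp⟩)
      have hne : (nhdsWithin q N).NeBot := mem_closure_iff_nhdsWithin_neBot.1 hq
      have h3 : Filter.Tendsto (fun q => s * ζ q) (nhdsWithin q N) (nhds (κ * g q)) := by
        refine h2.tendsto.congr' ?_
        filter_upwards [self_mem_nhdsWithin] with p hp
        exact (hκ2 p hp).symm
      have h4 := tendsto_nhds_unique h1.tendsto h3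
      have h5 : s * ζ q = κ * g q := h4
      rw [h5]
      exact mul_pos hκ hgq
    obtain ⟨N', hN', hqN'⟩ := nodal_exists hD.isOpen hsζ.continuousOn hqD hpos
    have hm : (N ∩ N').Nonempty := by
      obtain ⟨x, hx1, hx2⟩ := mem_closure_iff.1 hq N' hN'.isOpen hqN'
      exact ⟨x, hx2, hx1⟩
    rw [nodal_eq hN hN' hm]
    exact hqN'
  have hall : D ∩ H ⊆ N := by
    refine hH.subset_of_closure_inter_subset hN.isOpen ?_ hcl
    obtain ⟨q, hq⟩ := hN.conn.nonempty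
    exact ⟨q, ⟨hND hq, hsub hq⟩, hq⟩
  have hnn : ∀ q ∈ D, 0 ≤ s * ζ q := hfin fun q hq => (hN.sub q (hall hq)).2.le
  have hzero := smp hD.isOpen (conn_all hD) hsζ hnn (fun q hq => by
    have h1 := hlap q hq
    have h2 : 0 ≤ c q * (s * ζ q) := mul_nonneg (hc0 q hq).1.le (hnn q hq)
    linarith) hD.zero_mem (by rw [h0, mul_zero])
  obtain ⟨q, hq⟩ := hN.conn.nonempty
  exact absurd (hzero q (hND hq)) (hN.sub q hq).2.ne'

private theorem fin_x {D : Set (ℝ × ℝ)} (hD : Solid D) {f : ℝ × ℝ → ℝ} (hf : ContinuousOn f D)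
    (hev : EvX f) (h : ∀ q ∈ D ∩ {q | 0 < q.1}, 0 ≤ f q) : ∀ q ∈ D, 0 ≤ f q := by
  rintro ⟨x, y⟩ hq
  rcases lt_trichotomy x 0 with hx | rfl | hx
  · rw [← hev x y]
    exact h (-x, y) ⟨hD.solid _ _ _ _ hq (by simp) le_rfl, by
      show 0 < -x
      linarith⟩
  · have h1 : Filter.Tendsto (fun t : ℝ => ((t, y) : ℝ × ℝ)) (nhdsWithin 0 (Set.Ioi 0))
        (nhds (0, y)) := by
      have : Continuous (fun t : ℝ => ((t, y) : ℝ × ℝ)) := by fun_prop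
      exact (this.tendsto 0).mono_left nhdsWithin_le_nhds
    have h2 : Filter.Tendsto f (nhds ((0 : ℝ), y)) (nhds (f (0, y))) :=
      (hf.continuousAt (hD.isOpen.mem_nhds hq)).tendsto
    refine ge_of_tendsto (h2.comp h1) ?_
    filter_upwards [h1.eventually (hD.isOpen.mem_nhds hq), self_mem_nhdsWithin] with t ht1 ht2
    exact h (t, y) ⟨ht1, ht2⟩
  · exact h _ ⟨hq, hx⟩

private theorem fin_y {D : Set (ℝ × ℝ)} (hD : Solid D) {f : ℝ × ℝ → ℝ} (hf : ContinuousOn f D)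
    (hev : EvY f) (h : ∀ q ∈ D ∩ {q | 0 < q.2}, 0 ≤ f q) : ∀ q ∈ D, 0 ≤ f q := by
  rintro ⟨x, y⟩ hq
  rcases lt_trichotomy y 0 with hx | rfl | hx
  · rw [← hev x y]
    exact h (x, -y) ⟨hD.solid _ _ _ _ hq le_rfl (by simp), by
      show 0 < -y
      linarith⟩
  · have h1 : Filter.Tendsto (fun t : ℝ => ((x, t) : ℝ × ℝ)) (nhdsWithin 0 (Set.Ioi 0))
        (nhds (x, 0)) := by
      have : Continuous (fun t : ℝ => ((x, t) : ℝ × ℝ)) := by fun_prop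
      exact (this.tendsto 0).mono_left nhdsWithin_le_nhds
    have h2 : Filter.Tendsto f (nhds (x, (0 : ℝ))) (nhds (f (x, 0))) :=
      (hf.continuousAt (hD.isOpen.mem_nhds hq)).tendsto
    refine ge_of_tendsto (h2.comp h1) ?_
    filter_upwards [h1.eventually (hD.isOpen.mem_nhds hq), self_mem_nhdsWithin] with t ht1 ht2
    exact h (x, t) ⟨ht1, ht2⟩
  · exact h _ ⟨hq, hx⟩

theorem hk_linear {D : Set (ℝ × ℝ)} (hD : Solid D) {L : ℝ} (hL : D ⊆ Str L)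
    {c ζ : ℝ × ℝ → ℝ} {C M : ℝ} (hcc : ContinuousOn c D) (hc0 : ∀ q ∈ D, 0 < c q ∧ c q ≤ C)
    (hζ : ContDiffOn ℝ 2 ζ D) (evx : EvX ζ) (evy : EvY ζ) (h0 : ζ (0, 0) = 0)
    (heq : ∀ q ∈ D, -lap ζ q = c q * ζ q) (hM : ∀ q ∈ D, |ζ q| ≤ M)
    (hneg : ∀ ε : ℝ, 0 < ε → IsClosed {q | q ∈ D ∧ ζ q ≤ -ε}) (hs : Super D c) :
    ∀ q ∈ D, ζ q = 0 := by
  obtain ⟨⟨gx, hgx1, hgx2⟩, ⟨gy, hgy1, hgy2⟩⟩ := hs
  refine hk_gen hD hL hζ evx evy h0 hc0 heq hM hneg ?_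
  intro s N hs hN hz
  have hco : ContinuousOn (fun q => s * ζ q) D := continuousOn_const.mul hζ.continuousOn
  constructor
  · intro hsub
    refine lin_half hD hL hs hcc hc0 hζ h0 heq hM (conn_x hD) (fin_x hD hco ?_) hgx1 hgx2 hN hz
      hsub
    intro x y
    show s * ζ (-x, y) = s * ζ (x, y)
    rw [evx]
  · intro hsub
    refine lin_half hD hL hs hcc hc0 hζ h0 heq hM (conn_y hD) (fin_y hD hco ?_) hgy1 hgy2 hN hz
      hsub
    intro x y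
    show s * ζ (x, -y) = s * ζ (x, y)
    rw [evy]

/-- the standard solid sets -/
theorem solid_ell {α : ℝ} (hα : 0 < α) : Solid (Ell α) := by
  refine ⟨isOpen_lt (by fun_prop) continuous_const, ?_, ?_⟩
  · show α ^ 2 * (0 : ℝ) ^ 2 + (0 : ℝ) ^ 2 < 1
    norm_num
  · intro x y x' y' h h1 h2
    have h3 : α ^ 2 * x ^ 2 + y ^ 2 < 1 := h
    show α ^ 2 * x' ^ 2 + y' ^ 2 < 1
    have h4 : x' ^ 2 ≤ x ^ 2 := sq_le_sq.2 h1
    have h5 : y' ^ 2 ≤ y ^ 2 := sq_le_sq.2 h2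
    have h6 := mul_le_mul_of_nonneg_left h4 (sq_nonneg α)
    linarith

theorem solid_disc {r : ℝ} (hr : 0 < r) : Solid (Disc (0, 0) r) := by
  refine ⟨isOpen_lt (by fun_prop) continuous_const, ?_, ?_⟩
  · show ((0 : ℝ) - 0) ^ 2 + ((0 : ℝ) - 0) ^ 2 < r ^ 2
    have := pow_pos hr 2
    simpa using this
  · intro x y x' y' h h1 h2
    have h3 : (x - 0) ^ 2 + (y - 0) ^ 2 < r ^ 2 := h
    show (x' - 0) ^ 2 + (y' - 0) ^ 2 < r ^ 2
    have h4 : x' ^ 2 ≤ x ^ 2 := sq_le_sq.2 h1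
    have h5 : y' ^ 2 ≤ y ^ 2 := sq_le_sq.2 h2
    simp only [sub_zero] at h3 ⊢
    linarith

theorem solid_str {L : ℝ} (hL : 0 < L) : Solid (Str L) := by
  refine ⟨isOpen_lt (by fun_prop) continuous_const, ?_, ?_⟩
  · show |(0 : ℝ)| < L
    rwa [abs_zero]
  · intro x y x' y' h h1 h2
    have h3 : |y| < L := h
    show |y'| < L
    linarith

end Pool.Agent.MFE
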