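import Pool.Agent.MFE.CAL

/-!
# MFE.IBP: integration by parts with compactly supported functions

Everything from `integral_mul_fderiv_eq_neg_fderiv_mul_of_integrable` (Mathlib) applied to
`f * χ`-type functions: if `f` has compact support inside the open set `D` and `g` is only `C¹`
on `D`, multiply `g` with a smooth bump function which is `1` on a neighbourhood of `tsupport f`
and supported in `D` (`exists_contDiff_tsupport_subset` or
`exists_smooth_one_nhds_of_subset_interior`...), extended by zero; this does not change the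
integrals.
-/

open scoped ContDiff

namespace Pool.Agent.MFE

/-- a smooth function which is one on a neighbourhood of a compact set and supported in `D` -/
theorem exists_cut {D K : Set (ℝ × ℝ)} (hD : IsOpen D) (hK : IsCompact K) (hKD : K ⊆ D) :
    ∃ χ : ℝ × ℝ → ℝ, ContDiff ℝ ∞ χ ∧ HasCompactSupport χ ∧ tsupport χ ⊆ D ∧
      (∀ q, 0 ≤ χ q ∧ χ q ≤ 1) ∧ ∃ V, IsOpen V ∧ K ⊆ V ∧ ∀ q ∈ V, χ q = 1 := by
  obtain ⟨L, hL, hKL, hLD⟩ := exists_compact_between hK hD hKD
  obtain ⟨L', hL', hLL', hLD'⟩ := exists_compact_between hL hD hLD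
  obtain ⟨χ, h1, h2, h3, h4⟩ := exists_contMDiff_support_eq_eq_one_iff
    (modelWithCornersSelf ℝ (ℝ × ℝ)) (n := (⊤ : ℕ∞)) (isOpen_interior (s := L')) hL.isClosed hLL'
  have hts : tsupport χ ⊆ L' := by
    rw [tsupport, h3]
    exact closure_minimal interior_subset hL'.isClosed
  refine ⟨χ, contMDiff_iff_contDiff.mp h1, HasCompactSupport.of_support_subset_isCompact hL' ?_,
    hts.trans hLD', ?_, interior L, isOpen_interior, hKL, ?_⟩
  · exact (subset_tsupport χ).trans hts
  · intro q
    have := h2 (Set.mem_range_self q)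
    exact ⟨this.1, this.2⟩
  · intro q hq
    exact (h4 q).1 (interior_subset hq)

private theorem IBP_cont {D : Set (ℝ × ℝ)} (hD : IsOpen D) {f g : ℝ × ℝ → ℝ} (hf : Continuous f)
    (hfD : tsupport f ⊆ D) (hg : ContinuousOn g D) :
    Continuous (fun q => f q * g q) := by
  rw [continuous_iff_continuousAt]
  intro q
  by_cases hq : q ∈ D
  · exact hf.continuousAt.mul (hg.continuousAt (hD.mem_nhds hq))
  · have hq' : q ∉ tsupport f := fun h => hq (hfD h)
    have h0 : f =ᶠ[nhds q] 0 := notMem_tsupport_iff_eventuallyEq.mp hq'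
    have h1 : (fun q => f q * g q) =ᶠ[nhds q] fun _ => (0 : ℝ) := by
      filter_upwards [h0] with z hz
      rw [hz]; simp
    exact (continuousAt_const.congr h1.symm)

private theorem IBP_int {D : Set (ℝ × ℝ)} (hD : IsOpen D) {f g : ℝ × ℝ → ℝ} (hf : Continuous f)
    (hfc : HasCompactSupport f) (hfD : tsupport f ⊆ D) (hg : ContinuousOn g D) :
    MeasureTheory.Integrable (fun q => f q * g q) :=
  (IBP_cont hD hf hfD hg).integrable_of_hasCompactSupport (hfc.mul_right (f' := g))

private theorem IBP_dir {D : Set (ℝ × ℝ)} (hD : IsOpen D) {f g : ℝ × ℝ → ℝ} (v : ℝ × ℝ)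
    (hf : ContDiff ℝ 1 f) (hfc : HasCompactSupport f) (hfD : tsupport f ⊆ D)
    (hg : ContDiffOn ℝ 1 g D) :
    ∫ q, f q * fderiv ℝ g q v = -∫ q, fderiv ℝ f q v * g q := by
  have hg' : ContinuousOn (fun q => fderiv ℝ g q v) D := by
    have := (hg.continuousOn_fderiv_of_isOpen hD (by norm_num))
    exact this.clm_apply continuousOn_const
  have hf' : Continuous (fun q => fderiv ℝ f q v) :=
    (hf.continuous_fderiv (by norm_num)).clm_apply continuous_const
  have hts : tsupport (fun q => fderiv ℝ f q v) ⊆ tsupport f := by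
    refine (closure_mono ?_).trans (tsupport_fderiv_subset ℝ (f := f))
    intro q hq
    rw [Function.mem_support] at hq ⊢
    intro h0
    apply hq
    rw [h0]; rfl
  have hcs : HasCompactSupport (fun q => fderiv ℝ f q v) := by
    exact HasCompactSupport.of_support_subset_isCompact hfc ((subset_tsupport _).trans hts)
  apply integral_mul_fderiv_eq_neg_fderiv_mul_of_integrable
  · exact IBP_int hD hf' hcs (hts.trans hfD) hg.continuousOn
  · exact IBP_int hD hf.continuous hfc hfD hg'
  · exact IBP_int hD hf.continuous hfc hfD hg.continuousOn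
  · intro x _
    exact hf.differentiable (by norm_num) x
  · intro x hx
    exact (hg.contDiffAt (hD.mem_nhds (hfD hx))).differentiableAt (by norm_num)

theorem ibp_dx {D : Set (ℝ × ℝ)} (hD : IsOpen D) {f g : ℝ × ℝ → ℝ} (hf : ContDiff ℝ 1 f)
    (hfc : HasCompactSupport f) (hfD : tsupport f ⊆ D) (hg : ContDiffOn ℝ 1 g D) :
    ∫ q, f q * dx g q = -∫ q, dx f q * g q :=
  IBP_dir hD (1, 0) hf hfc hfD hg

theorem ibp_dy {D : Set (ℝ × ℝ)} (hD : IsOpen D) {f g : ℝ × ℝ → ℝ} (hf : ContDiff ℝ 1 f)
    (hfc : HasCompactSupport f) (hfD : tsupport f ⊆ D) (hg : ContDiffOn ℝ 1 g D) :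
    ∫ q, f q * dy g q = -∫ q, dy f q * g q :=
  IBP_dir hD (0, 1) hf hfc hfD hg

private theorem IBP_ts (f : ℝ × ℝ → ℝ) (v : ℝ × ℝ) :
    tsupport (fun q => fderiv ℝ f q v) ⊆ tsupport f := by
  refine (closure_mono ?_).trans (tsupport_fderiv_subset ℝ (f := f))
  intro q hq
  rw [Function.mem_support] at hq ⊢
  intro h0
  apply hq
  rw [h0]; rfl

private theorem IBP_cs {f : ℝ × ℝ → ℝ} (hfc : HasCompactSupport f) (v : ℝ × ℝ) :
    HasCompactSupport (fun q => fderiv ℝ f q v) :=
  HasCompactSupport.of_support_subset_isCompact hfc ((subset_tsupport _).trans (IBP_ts f v))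

private theorem IBP_c1 {f : ℝ × ℝ → ℝ} (hf : ContDiff ℝ 2 f) (v : ℝ × ℝ) :
    ContDiff ℝ 1 (fun q => fderiv ℝ f q v) :=
  (hf.fderiv_right (by norm_num)).clm_apply contDiff_const

private theorem IBP_dx1 {D : Set (ℝ × ℝ)} (hD : IsOpen D) {g : ℝ × ℝ → ℝ}
    (hg : ContDiffOn ℝ 2 g D) : ContDiffOn ℝ 1 (dx g) D := by
  have := c_dx (n := 1) hD (f := g) (by exact_mod_cast hg)
  exact_mod_cast this

private theorem IBP_dy1 {D : Set (ℝ × ℝ)} (hD : IsOpen D) {g : ℝ × ℝ → ℝ}
    (hg : ContDiffOn ℝ 2 g D) : ContDiffOn ℝ 1 (dy g) D := by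
  have := c_dy (n := 1) hD (f := g) (by exact_mod_cast hg)
  exact_mod_cast this

/-- Green's first formula -/
theorem green1 {D : Set (ℝ × ℝ)} (hD : IsOpen D) {f g : ℝ × ℝ → ℝ} (hf : ContDiff ℝ 1 f)
    (hfc : HasCompactSupport f) (hfD : tsupport f ⊆ D) (hg : ContDiffOn ℝ 2 g D) :
    ∫ q, f q * lap g q = -∫ q, gdot f g q := by
  have hgx := IBP_dx1 hD hg
  have hgy := IBP_dy1 hD hg
  have h1 : ∫ q, f q * lap g q = (∫ q, f q * dx (dx g) q) + ∫ q, f q * dy (dy g) q := by
    rw [← MeasureTheory.integral_add (IBP_int hD hf.continuous hfc hfD (cont_dx hD hgx))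
      (IBP_int hD hf.continuous hfc hfD (cont_dy hD hgy))]
    congr 1; ext q; rw [lap]; ring
  have hfx : Continuous (dx f) := (hf.continuous_fderiv (by norm_num)).clm_apply continuous_const
  have hfy : Continuous (dy f) := (hf.continuous_fderiv (by norm_num)).clm_apply continuous_const
  have h2 : ∫ q, gdot f g q = (∫ q, dx f q * dx g q) + ∫ q, dy f q * dy g q := by
    rw [← MeasureTheory.integral_add
      (IBP_int hD hfx (IBP_cs hfc _) ((IBP_ts f _).trans hfD) hgx.continuousOn)
      (IBP_int hD hfy (IBP_cs hfc _) ((IBP_ts f _).trans hfD) hgy.continuousOn)]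
    rfl
  rw [h1, h2, ibp_dx hD hf hfc hfD hgx, ibp_dy hD hf hfc hfD hgy]
  ring

/-- Green's second formula -/
theorem green2 {D : Set (ℝ × ℝ)} (hD : IsOpen D) {f g : ℝ × ℝ → ℝ} (hf : ContDiff ℝ 2 f)
    (hfc : HasCompactSupport f) (hfD : tsupport f ⊆ D) (hg : ContDiffOn ℝ 2 g D) :
    ∫ q, f q * lap g q = ∫ q, lap f q * g q := by
  have hf1 : ContDiff ℝ 1 f := hf.of_le (by norm_num)
  have hg1 : ContDiffOn ℝ 1 g D := hg.of_le (by norm_num)
  have hgx := IBP_dx1 hD hg
  have hgy := IBP_dy1 hD hg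
  have hfx : ContDiff ℝ 1 (dx f) := IBP_c1 hf _
  have hfy : ContDiff ℝ 1 (dy f) := IBP_c1 hf _
  have hxc : HasCompactSupport (dx f) := IBP_cs hfc _
  have hyc : HasCompactSupport (dy f) := IBP_cs hfc _
  have hxD : tsupport (dx f) ⊆ D := (IBP_ts f _).trans hfD
  have hyD : tsupport (dy f) ⊆ D := (IBP_ts f _).trans hfD
  have e1 := ibp_dx hD hfx hxc hxD hg1
  have e2 := ibp_dy hD hfy hyc hyD hg1
  have hfxx : Continuous (dx (dx f)) :=
    (hfx.continuous_fderiv (by norm_num)).clm_apply continuous_const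
  have hfyy : Continuous (dy (dy f)) :=
    (hfy.continuous_fderiv (by norm_num)).clm_apply continuous_const
  have h2 : ∫ q, gdot f g q = (∫ q, dx f q * dx g q) + ∫ q, dy f q * dy g q := by
    rw [← MeasureTheory.integral_add
      (IBP_int hD hfx.continuous hxc hxD hgx.continuousOn)
      (IBP_int hD hfy.continuous hyc hyD hgy.continuousOn)]
    rfl
  have h3 : ∫ q, lap f q * g q = (∫ q, dx (dx f) q * g q) + ∫ q, dy (dy f) q * g q := by
    rw [← MeasureTheory.integral_add
      (IBP_int hD hfxx (IBP_cs hxc _) ((IBP_ts (dx f) _).trans hxD) hg1.continuousOn)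
      (IBP_int hD hfyy (IBP_cs hyc _) ((IBP_ts (dy f) _).trans hyD) hg1.continuousOn)]
    congr 1; ext q; rw [lap]; ring
  rw [green1 hD hf1 hfc hfD hg, h2, h3, e1, e2]
  ring

/-- classical solutions are weak solutions -/
theorem weak_of_c2 {D : Set (ℝ × ℝ)} (hD : IsOpen D) {u f : ℝ × ℝ → ℝ}
    (hu : ContDiffOn ℝ 2 u D) (h : ∀ q ∈ D, -lap u q = f q) : Weak u f D := by
  intro η h1 h2 h3
  have e := green2 hD (h1.of_le ENat.LEInfty.out) h2 h3 hu
  have e1 : ∫ q, u q * lap η q = ∫ q, lap η q * u q := by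
    congr 1; ext q; ring
  rw [e1, ← e, ← MeasureTheory.integral_neg]
  congr 1
  ext q
  by_cases hq : q ∈ D
  · rw [← h q hq]; ring
  · have : η q = 0 := image_eq_zero_of_notMem_tsupport fun h => hq (h3 h)
    rw [this]; ring

/-- locally uniform limits of weak solutions -/
theorem weak_lim {D : Set (ℝ × ℝ)} (hD : IsOpen D) {u f : ℕ → ℝ × ℝ → ℝ} {u₀ f₀ : ℝ × ℝ → ℝ}
    (hc : ∀ n, ContinuousOn (u n) D) (hcf : ∀ n, ContinuousOn (f n) D)
    (hw : ∀ n, Weak (u n) (f n) D)
    (hu : ∀ K ⊆ D, IsCompact K → TendstoUniformlyOn u u₀ Filter.atTop K)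
    (hf : ∀ K ⊆ D, IsCompact K → TendstoUniformlyOn f f₀ Filter.atTop K) : Weak u₀ f₀ D := by
  intro η h1 h2 h3
  -- general convergence statement
  have key : ∀ (v : ℕ → ℝ × ℝ → ℝ) (v₀ ζ : ℝ × ℝ → ℝ), (∀ n, ContinuousOn (v n) D) →
      (∀ K ⊆ D, IsCompact K → TendstoUniformlyOn v v₀ Filter.atTop K) → Continuous ζ →
      tsupport ζ ⊆ tsupport η →
      Filter.Tendsto (fun n => ∫ q, v n q * ζ q) Filter.atTop (nhds (∫ q, v₀ q * ζ q)) := by
    intro v v₀ ζ hv hvt hζ hζη
    have hK : IsCompact (tsupport η) := h2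
    have hζD : tsupport ζ ⊆ D := hζη.trans h3
    have hζc : HasCompactSupport ζ :=
      HasCompactSupport.of_support_subset_isCompact hK ((subset_tsupport _).trans hζη)
    have hun := hvt _ h3 hK
    have hc0 : ContinuousOn v₀ (tsupport η) :=
      hun.continuousOn (Filter.Eventually.of_forall fun n => (hv n).mono h3).frequently
    obtain ⟨C, hC⟩ := hK.exists_bound_of_continuousOn hc0
    have hmeas : ∀ n, MeasureTheory.AEStronglyMeasurable (fun q => v n q * ζ q)
        MeasureTheory.volume := by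
      intro n
      have : Continuous (fun q => ζ q * v n q) := IBP_cont hD hζ hζD (hv n)
      have h' : (fun q => v n q * ζ q) = fun q => ζ q * v n q := by ext q; ring
      rw [h']
      exact this.aestronglyMeasurable
    refine MeasureTheory.tendsto_integral_filter_of_dominated_convergence
      (fun q => (C + 1) * |ζ q|) (Filter.Eventually.of_forall hmeas) ?_ ?_ ?_
    · have h4 := Metric.tendstoUniformlyOn_iff.mp hun 1 one_pos
      filter_upwards [h4] with n hn
      refine Filter.Eventually.of_forall fun q => ?_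
      by_cases hq : q ∈ tsupport η
      · have a1 := hn q hq
        have a2 := hC q hq
        rw [Real.norm_eq_abs] at a2
        rw [Real.dist_eq] at a1
        rw [Real.norm_eq_abs, abs_mul]
        apply mul_le_mul_of_nonneg_right _ (abs_nonneg _)
        have : |v n q| ≤ |v₀ q| + |v₀ q - v n q| := by
          have := abs_sub_abs_le_abs_sub (v n q) (v₀ q)
          rw [abs_sub_comm] at this
          linarith
        linarith
      · have h0 : ζ q = 0 := image_eq_zero_of_notMem_tsupport fun h => hq (hζη h)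
        rw [h0]; simp
    · exact ((hζ.integrable_of_hasCompactSupport hζc).abs).const_mul _
    · refine Filter.Eventually.of_forall fun q => ?_
      by_cases hq : q ∈ tsupport η
      · exact (hun.tendsto_at hq).mul_const _
      · have h0 : ζ q = 0 := image_eq_zero_of_notMem_tsupport fun h => hq (hζη h)
        simp only [h0, mul_zero]
        exact tendsto_const_nhds
  have hη2 : ContDiff ℝ 2 η := h1.of_le ENat.LEInfty.out
  have hx1 : ContDiff ℝ 1 (dx η) := IBP_c1 hη2 _
  have hy1 : ContDiff ℝ 1 (dy η) := IBP_c1 hη2 _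
  have hlapc : Continuous (lap η) :=
    ((hx1.continuous_fderiv (by norm_num)).clm_apply continuous_const).add
      ((hy1.continuous_fderiv (by norm_num)).clm_apply continuous_const)
  have hlaps : tsupport (lap η) ⊆ tsupport η := by
    apply closure_minimal _ (isClosed_tsupport η)
    intro q hq
    by_contra hq'
    apply hq
    have hx0 : dx (dx η) q = 0 := image_eq_zero_of_notMem_tsupport fun h =>
      hq' (IBP_ts η _ (IBP_ts (dx η) _ h))
    have hy0 : dy (dy η) q = 0 := image_eq_zero_of_notMem_tsupport fun h =>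
      hq' (IBP_ts η _ (IBP_ts (dy η) _ h))
    rw [lap, hx0, hy0, add_zero]
  have t1 := key u u₀ (lap η) hc hu hlapc hlaps
  have t2 := key f f₀ η hcf hf h1.continuous subset_rfl
  have t3 : (fun n => ∫ q, u n q * lap η q) = fun n => -∫ q, f n q * η q :=
    funext fun n => hw n η h1 h2 h3
  rw [t3] at t1
  exact tendsto_nhds_unique t1 t2.neg

end Pool.Agent.MFE
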