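import Pool.Agent.MFE.IGE
import Pool.Agent.MFE.IBP

/-!
# MFE.REG: interior regularity of weak solutions

Mollify: `ρ_ε` a smooth even bump supported in the sup-norm ball of radius `ε` with integral one
(`ContDiffBump.normed`), `u_ε(q) = ∫ u(q') ρ_ε(q - q') dq'` (for `q` at distance `> ε` from the
complement of `U`; multiply `u` by a cutoff if you want a global convolution). Since
`q' ↦ ρ_ε(q - q')` is a test function with support in `U`, the weak equation gives
`lap u_ε = -f_ε` pointwise there; `u_ε` is smooth; `u_ε → u`, `f_ε → f` locally uniformly.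
* `reg_c1`: on a compact square inside `U`, `ige` applied to `u_ε - u_δ` shows that the gradients
  are uniformly Cauchy; hence `u` is `C¹` (`hasFDerivAt_of_tendstoUniformlyOn` or
  `hasFDerivAt_of_tendstoLocallyUniformlyOn`).
* `reg_step`: if `f` is `C¹` then `dx u` (continuous by `reg_c1`) satisfies
  `Weak (dx u) (dx f) U` (test with `dx η`, `lap (dx η) = dx (lap η)`, `ibp_dx`), so `dx u`,
  `dy u` are `C¹` by `reg_c1`, `u` is `C²`, and then `-lap u = f` pointwise since
  `∫ (lap u + f) η = 0` for all test functions.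
* `reg_n`: induction: `f` is `C^n` (`n ≥ 1`) ⟹ `u` is `C^{n+1}`: apply the statement for `n-1`
  to `dx u`, `dy u`.
* bootstrapping: `u` continuous ⟹ `f = μ e^u` continuous ⟹ `u` `C¹` ⟹ `f` `C¹` ⟹ ...
-/

open scoped ContDiff

namespace Pool.Agent.MFE

open MeasureTheory in
/-- convolution -/
private noncomputable def REG_cv (g ρ : ℝ × ℝ → ℝ) : ℝ × ℝ → ℝ :=
  MeasureTheory.convolution g ρ (ContinuousLinearMap.mul ℝ ℝ) MeasureTheory.volume

private theorem REG_two {f : ℝ × ℝ → ℝ} (h : ContDiff ℝ ∞ f) : ContDiff ℝ 2 f := by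
  exact_mod_cast contDiff_infty.1 h 2

private theorem REG_three {f : ℝ × ℝ → ℝ} (h : ContDiff ℝ ∞ f) : ContDiff ℝ 3 f := by
  exact_mod_cast contDiff_infty.1 h 3

private theorem REG_zero {k : ℝ × ℝ → ℝ} {q : ℝ × ℝ} (hq : q ∉ tsupport k) : k q = 0 :=
  image_eq_zero_of_notMem_tsupport hq

private theorem REG_int {N : Set (ℝ × ℝ)} (hN : IsOpen N) {k h : ℝ × ℝ → ℝ} (hk : Continuous k)
    (hkc : HasCompactSupport k) (hkN : tsupport k ⊆ N) (hh : ContinuousOn h N) :
    Continuous (fun q => k q * h q) ∧ HasCompactSupport (fun q => k q * h q) := by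
  constructor
  · rw [continuous_iff_continuousAt]
    intro q
    by_cases hq : q ∈ N
    · exact hk.continuousAt.mul (hh.continuousAt (hN.mem_nhds hq))
    · have hq' : q ∉ tsupport k := fun h => hq (hkN h)
      have hev : (fun q => k q * h q) =ᶠ[nhds q] fun _ => 0 := by
        filter_upwards [(isClosed_tsupport k).isOpen_compl.mem_nhds hq'] with z hz
        rw [REG_zero hz, zero_mul]
      exact (continuousAt_const).congr hev.symm
  · exact hkc.mul_right

private theorem REG_cv_apply (g ρ : ℝ × ℝ → ℝ) (x : ℝ × ℝ) :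
    REG_cv g ρ x = ∫ t, g t * ρ (x - t) := rfl

private theorem REG_cv_smooth {g ρ : ℝ × ℝ → ℝ} (hg : Continuous g) (hρ : ContDiff ℝ ∞ ρ)
    (hρc : HasCompactSupport ρ) : ContDiff ℝ ∞ (REG_cv g ρ) :=
  hρc.contDiff_convolution_right _ hg.locallyIntegrable hρ

private theorem REG_cv_fderiv {g ρ : ℝ × ℝ → ℝ} (hg : Continuous g) (hρ : ContDiff ℝ ∞ ρ)
    (hρc : HasCompactSupport ρ) (v x : ℝ × ℝ) :
    fderiv ℝ (REG_cv g ρ) x v = REG_cv g (fun a => fderiv ℝ ρ a v) x := by
  have hρ1 : ContDiff ℝ 1 ρ := hρ.of_le (by simp)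
  have h1 := (hρc.hasFDerivAt_convolution_right (ContinuousLinearMap.mul ℝ ℝ)
    (μ := MeasureTheory.volume) hg.locallyIntegrable hρ1 x).fderiv
  show fderiv ℝ (MeasureTheory.convolution g ρ (ContinuousLinearMap.mul ℝ ℝ)
    MeasureTheory.volume) x v = _
  rw [h1]
  exact MeasureTheory.convolution_precompR_apply _ hg.locallyIntegrable (hρc.fderiv ℝ)
    (hρ1.continuous_fderiv one_ne_zero) x v

private theorem REG_smooth_fderiv {ρ : ℝ × ℝ → ℝ} (hρ : ContDiff ℝ ∞ ρ) (v : ℝ × ℝ) :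
    ContDiff ℝ ∞ (fun a => fderiv ℝ ρ a v) :=
  (hρ.fderiv_right (m := ∞) (by simp)).clm_apply contDiff_const

private theorem REG_cv_lap {g ρ : ℝ × ℝ → ℝ} (hg : Continuous g) (hgc : HasCompactSupport g)
    (hρ : ContDiff ℝ ∞ ρ) (hρc : HasCompactSupport ρ) (x : ℝ × ℝ) :
    lap (REG_cv g ρ) x = ∫ t, g t * lap ρ (x - t) := by
  have e1 : dx (REG_cv g ρ) = REG_cv g (dx ρ) := funext fun z => REG_cv_fderiv hg hρ hρc _ z
  have e2 : dy (REG_cv g ρ) = REG_cv g (dy ρ) := funext fun z => REG_cv_fderiv hg hρ hρc _ z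
  have s1 : ContDiff ℝ ∞ (dx ρ) := REG_smooth_fderiv hρ _
  have s2 : ContDiff ℝ ∞ (dy ρ) := REG_smooth_fderiv hρ _
  have c1 : HasCompactSupport (dx ρ) := hρc.fderiv_apply ℝ _
  have c2 : HasCompactSupport (dy ρ) := hρc.fderiv_apply ℝ _
  have e3 : dx (REG_cv g (dx ρ)) x = REG_cv g (dx (dx ρ)) x := REG_cv_fderiv hg s1 c1 _ x
  have e4 : dy (REG_cv g (dy ρ)) x = REG_cv g (dy (dy ρ)) x := REG_cv_fderiv hg s2 c2 _ x
  have s3 : ContDiff ℝ ∞ (dx (dx ρ)) := REG_smooth_fderiv s1 _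
  have s4 : ContDiff ℝ ∞ (dy (dy ρ)) := REG_smooth_fderiv s2 _
  unfold lap
  rw [e1, e2, e3, e4, REG_cv_apply, REG_cv_apply, ← MeasureTheory.integral_add]
  · apply MeasureTheory.integral_congr_ae
    apply Filter.Eventually.of_forall
    intro t
    show g t * dx (dx ρ) (x - t) + g t * dy (dy ρ) (x - t) = g t * (_ + _)
    ring
  · exact (hg.mul (s3.continuous.comp (continuous_const.sub continuous_id))
      ).integrable_of_hasCompactSupport hgc.mul_right
  · exact (hg.mul (s4.continuous.comp (continuous_const.sub continuous_id))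
      ).integrable_of_hasCompactSupport hgc.mul_right

/-- approximation -/
private theorem REG_cv_approx {g : ℝ × ℝ → ℝ} (hg : Continuous g) (φ : ContDiffBump (0 : ℝ × ℝ))
    {x : ℝ × ℝ} {ε : ℝ} (h : ∀ t ∈ Metric.ball x φ.rOut, dist (g t) (g x) ≤ ε) :
    dist (REG_cv g (φ.normed MeasureTheory.volume) x) (g x) ≤ ε := by
  have h1 := ContDiffBump.dist_normed_convolution_le (μ := MeasureTheory.volume) (φ := φ)
    (g := g) (x₀ := x) (ε := ε) hg.aestronglyMeasurable h
  have h2 : REG_cv g (φ.normed MeasureTheory.volume) x =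
      MeasureTheory.convolution (φ.normed MeasureTheory.volume) g
        (ContinuousLinearMap.lsmul ℝ ℝ) MeasureTheory.volume x := by
    rw [REG_cv, MeasureTheory.convolution_mul_swap, MeasureTheory.convolution_lsmul]
    apply MeasureTheory.integral_congr_ae
    apply Filter.Eventually.of_forall
    intro t
    show g (x - t) * _ = _ • g (x - t)
    rw [smul_eq_mul, mul_comm]
  rw [h2]
  exact h1

private theorem REG_dist {x t : ℝ × ℝ} {d : ℝ} : dist t x ≤ d ↔ t ∈ Sq x d := by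
  rw [Prod.dist_eq, max_le_iff, Real.dist_eq, Real.dist_eq]
  exact Iff.rfl

private theorem REG_Sq_closedBall (x : ℝ × ℝ) (d : ℝ) : Sq x d = Metric.closedBall x d := by
  ext t
  rw [Metric.mem_closedBall, REG_dist]

/-- the weak equation for mollified functions -/
private theorem REG_key {U : Set (ℝ × ℝ)} {u f u' f' : ℝ × ℝ → ℝ} (hw : Weak u f U)
    (hu' : Continuous u') (huc : HasCompactSupport u')
    {ρ : ℝ × ℝ → ℝ} (hρ : ContDiff ℝ ∞ ρ) (hρc : HasCompactSupport ρ) {x : ℝ × ℝ} {d : ℝ}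
    (hρd : tsupport ρ ⊆ Metric.closedBall 0 d) (hxU : Metric.closedBall x d ⊆ U)
    (e1 : ∀ t ∈ Metric.closedBall x d, u' t = u t)
    (e2 : ∀ t ∈ Metric.closedBall x d, f' t = f t) :
    lap (REG_cv u' ρ) x = -REG_cv f' ρ x := by
  set η : ℝ × ℝ → ℝ := fun t => ρ (x - t) with hη
  have hηs : ContDiff ℝ ∞ η := hρ.comp (contDiff_const.sub contDiff_id)
  have hηt : tsupport η ⊆ Metric.closedBall x d := by
    apply closure_minimal _ Metric.isClosed_closedBall
    intro t ht
    have h1 : x - t ∈ tsupport ρ := subset_tsupport ρ ht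
    have h2 := hρd h1
    rw [Metric.mem_closedBall, dist_zero_right] at h2
    rw [Metric.mem_closedBall, dist_comm, dist_eq_norm]
    exact h2
  have hηc : HasCompactSupport η :=
    (isCompact_closedBall x d).of_isClosed_subset (isClosed_tsupport η) hηt
  have hlap : ∀ t, lap η t = lap ρ (x - t) := by
    intro t
    have h1 := lap_aff (f := ρ) (q := t) (D := Set.univ) x.1 x.2 (ε₁ := -1) (ε₂ := -1)
      (by norm_num) (by norm_num) isOpen_univ
      ((REG_two hρ).contDiffOn) (Set.mem_univ _)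
    have h2 : (fun z : ℝ × ℝ => ρ (x.1 + -1 * z.1, x.2 + -1 * z.2)) = η := by
      funext z
      show ρ _ = ρ (x - z)
      congr 1
      ext
      · show x.1 + -1 * z.1 = x.1 - z.1
        ring
      · show x.2 + -1 * z.2 = x.2 - z.2
        ring
    have h3 : ((x.1 + -1 * t.1, x.2 + -1 * t.2) : ℝ × ℝ) = x - t := by
      ext
      · show x.1 + -1 * t.1 = x.1 - t.1
        ring
      · show x.2 + -1 * t.2 = x.2 - t.2
        ring
    rw [h2, h3] at h1
    exact h1
  have hlt : ∀ t, t ∉ Metric.closedBall x d → lap η t = 0 := by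
    intro t ht
    have ht' : t ∉ tsupport η := fun h => ht (hηt h)
    have h1 : lap η t = lap (fun _ => (0 : ℝ)) t := by
      apply lap_congr (D := (tsupport η)ᶜ) (isClosed_tsupport η).isOpen_compl _ ht'
      intro z hz
      exact REG_zero hz
    rw [h1]
    have h2 : dx (fun _ : ℝ × ℝ => (0 : ℝ)) = fun _ => 0 := by
      funext z; show fderiv ℝ (fun _ : ℝ × ℝ => (0 : ℝ)) z (1, 0) = 0; simp
    have h3 : dy (fun _ : ℝ × ℝ => (0 : ℝ)) = fun _ => 0 := by
      funext z; show fderiv ℝ (fun _ : ℝ × ℝ => (0 : ℝ)) z (0, 1) = 0; simp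
    unfold lap
    rw [h2, h3, h2, h3]
    simp
  have hweak := hw η hηs hηc (hηt.trans hxU)
  rw [REG_cv_lap hu' huc hρ hρc, REG_cv_apply]
  have a1 : ∫ t, u' t * lap ρ (x - t) = ∫ t, u t * lap η t := by
    apply MeasureTheory.integral_congr_ae
    apply Filter.Eventually.of_forall
    intro t
    show u' t * lap ρ (x - t) = u t * lap η t
    rw [← hlap]
    by_cases ht : t ∈ Metric.closedBall x d
    · rw [e1 t ht]
    · rw [hlt t ht, mul_zero, mul_zero]
  have a2 : ∫ t, f' t * ρ (x - t) = ∫ t, f t * η t := by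
    apply MeasureTheory.integral_congr_ae
    apply Filter.Eventually.of_forall
    intro t
    show f' t * η t = f t * η t
    by_cases ht : t ∈ Metric.closedBall x d
    · rw [e2 t ht]
    · rw [REG_zero (fun h => ht (hηt h)), mul_zero, mul_zero]
  rw [a1, a2]
  exact hweak

private theorem REG_norm_fderiv {f : ℝ × ℝ → ℝ} {q : ℝ × ℝ} (hd : DifferentiableAt ℝ f q) :
    ‖fderiv ℝ f q‖ ≤ |dx f q| + |dy f q| := by
  apply ContinuousLinearMap.opNorm_le_bound _ (by positivity)
  rintro ⟨a, b⟩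
  rw [fderiv_apply_eq hd a b, Real.norm_eq_abs]
  have ha : |a| ≤ ‖((a, b) : ℝ × ℝ)‖ := norm_fst_le ((a, b) : ℝ × ℝ)
  have hb : |b| ≤ ‖((a, b) : ℝ × ℝ)‖ := norm_snd_le ((a, b) : ℝ × ℝ)
  refine le_trans (abs_add_le _ _) ?_
  rw [abs_mul, abs_mul]
  have e1 := mul_le_mul_of_nonneg_right ha (abs_nonneg (dx f q))
  have e2 := mul_le_mul_of_nonneg_right hb (abs_nonneg (dy f q))
  linarith

private noncomputable def REG_phi {d : ℝ} (hd : 0 < d) (n : ℕ) : ContDiffBump (0 : ℝ × ℝ) where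
  rIn := d / (n + 1) / 2
  rOut := d / (n + 1)
  rIn_pos := by positivity
  rIn_lt_rOut := half_lt_self (by positivity)

/-- local form -/
private theorem REG_loc {U : Set (ℝ × ℝ)} (hU : IsOpen U) {u f : ℝ × ℝ → ℝ}
    (hu : ContinuousOn u U) (hf : ContinuousOn f U) (hw : Weak u f U) {q₀ : ℝ × ℝ} {d : ℝ}
    (hd : 0 < d) (hsub : Metric.closedBall q₀ (3 * d) ⊆ U) :
    ContDiffOn ℝ 1 u (Metric.ball q₀ d) := by
  obtain ⟨χ, hχ, hχc, hχU, -, V, hV, hKV, hχ1⟩ :=
    exists_cut hU (isCompact_closedBall q₀ (3 * d)) hsub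
  obtain ⟨cu, su⟩ := REG_int hU hχ.continuous hχc hχU hu
  obtain ⟨cf, sf⟩ := REG_int hU hχ.continuous hχc hχU hf
  set u' : ℝ × ℝ → ℝ := fun q => χ q * u q with hu'
  set f' : ℝ × ℝ → ℝ := fun q => χ q * f q with hf'
  have e1 : ∀ t ∈ Metric.closedBall q₀ (3 * d), u' t = u t := by
    intro t ht
    show χ t * u t = u t
    rw [hχ1 t (hKV ht), one_mul]
  have e2 : ∀ t ∈ Metric.closedBall q₀ (3 * d), f' t = f t := by
    intro t ht
    show χ t * f t = f t
    rw [hχ1 t (hKV ht), one_mul]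
  set ρ : ℕ → ℝ × ℝ → ℝ := fun n => (REG_phi hd n).normed MeasureTheory.volume with hρ
  have hρs : ∀ n, ContDiff ℝ ∞ (ρ n) := fun n => (REG_phi hd n).contDiff_normed
  have hρc : ∀ n, HasCompactSupport (ρ n) := fun n => (REG_phi hd n).hasCompactSupport_normed
  have hρd : ∀ n, tsupport (ρ n) ⊆ Metric.closedBall 0 d := by
    intro n
    have h1 : tsupport (ρ n) = Metric.closedBall 0 (REG_phi hd n).rOut :=
      (REG_phi hd n).tsupport_normed_eq
    rw [h1]
    apply Metric.closedBall_subset_closedBall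
    show d / (n + 1) ≤ d
    apply div_le_self hd.le
    have : (0 : ℝ) ≤ n := Nat.cast_nonneg n
    linarith
  have hlap : ∀ n, ∀ x ∈ Metric.closedBall q₀ (2 * d),
      lap (REG_cv u' (ρ n)) x = -REG_cv f' (ρ n) x := by
    intro n x hx
    have hss : Metric.closedBall x d ⊆ Metric.closedBall q₀ (3 * d) := by
      intro t ht
      rw [Metric.mem_closedBall] at ht hx ⊢
      linarith [dist_triangle t x q₀]
    exact REG_key hw cu su (hρs n) (hρc n) (hρd n) (hss.trans hsub)
      (fun t ht => e1 t (hss ht)) (fun t ht => e2 t (hss ht))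
  -- uniform convergence
  have happ : ∀ g : ℝ × ℝ → ℝ, Continuous g → HasCompactSupport g → ∀ ε : ℝ, 0 < ε →
      ∃ N : ℕ, ∀ n, N ≤ n → ∀ x, |REG_cv g (ρ n) x - g x| ≤ ε := by
    intro g hg hgc ε hε
    obtain ⟨δ, hδ, hδ'⟩ := Metric.uniformContinuous_iff.1
      (hgc.uniformContinuous_of_continuous hg) ε hε
    obtain ⟨N, hN⟩ := exists_nat_gt (d / δ)
    refine ⟨N, fun n hn x => ?_⟩
    have h1 : (REG_phi hd n).rOut ≤ δ := by
      show d / (n + 1) ≤ δ
      have hn' : (N : ℝ) ≤ n := by exact_mod_cast hn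
      rw [div_le_iff₀ (by positivity)]
      rw [div_lt_iff₀ hδ] at hN
      nlinarith
    have h2 := REG_cv_approx hg (REG_phi hd n) (x := x) (ε := ε) (by
      intro t ht
      exact (hδ' (lt_of_lt_of_le (Metric.mem_ball.1 ht) h1)).le)
    rwa [Real.dist_eq] at h2
  have hus : ∀ n, ContDiff ℝ ∞ (REG_cv u' (ρ n)) := fun n => REG_cv_smooth cu (hρs n) (hρc n)
  have hudiff : ∀ n q, DifferentiableAt ℝ (REG_cv u' (ρ n)) q := fun n q =>
    ((hus n).differentiable (by simp)) q
  have hcauchy : UniformCauchySeqOn (fun n x => fderiv ℝ (REG_cv u' (ρ n)) x) Filter.atTop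
      (Metric.ball q₀ d) := by
    rw [Metric.uniformCauchySeqOn_iff]
    intro ε hε
    set κ : ℝ := ε / (2 * (2 * (2 / d) + 2 * (d / 2)) + 1) with hκ
    have hC : 0 < 2 * (2 * (2 / d) + 2 * (d / 2)) + 1 := by positivity
    have hκp : 0 < κ := div_pos hε hC
    obtain ⟨N1, hN1⟩ := happ u' cu su κ hκp
    obtain ⟨N2, hN2⟩ := happ f' cf sf κ hκp
    refine ⟨max N1 N2, fun m hm n hn x hx => ?_⟩
    have hx2 : Sq x d ⊆ Metric.closedBall q₀ (2 * d) := by
      rw [REG_Sq_closedBall]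
      intro t ht
      rw [Metric.mem_closedBall] at ht ⊢
      rw [Metric.mem_ball] at hx
      linarith [dist_triangle t x q₀]
    have hw1 : ContDiff ℝ 2 (fun q => REG_cv u' (ρ m) q - REG_cv u' (ρ n) q) :=
      (REG_two (hus m)).sub (REG_two (hus n))
    have hM : ∀ q ∈ Sq x d, |(fun q => REG_cv u' (ρ m) q - REG_cv u' (ρ n) q) q| ≤ 2 * κ := by
      intro q _
      have b1 := hN1 m (le_trans (le_max_left _ _) hm) q
      have b2 := hN1 n (le_trans (le_max_left _ _) hn) q
      show |REG_cv u' (ρ m) q - REG_cv u' (ρ n) q| ≤ 2 * κ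
      rw [abs_le] at b1 b2 ⊢
      constructor <;> linarith [b1.1, b1.2, b2.1, b2.2]
    have hNN : ∀ q ∈ Sq x d,
        |lap (fun q => REG_cv u' (ρ m) q - REG_cv u' (ρ n) q) q| ≤ 2 * κ := by
      intro q hq
      have b1 := hN2 m (le_trans (le_max_right _ _) hm) q
      have b2 := hN2 n (le_trans (le_max_right _ _) hn) q
      rw [lap_sub isOpen_univ (REG_two (hus m)).contDiffOn (REG_two (hus n)).contDiffOn
        (Set.mem_univ q), hlap m q (hx2 hq), hlap n q (hx2 hq)]
      rw [abs_le] at b1 b2 ⊢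
      constructor <;> linarith [b1.1, b1.2, b2.1, b2.2]
    obtain ⟨g1, g2⟩ := ige isOpen_univ hw1.contDiffOn hd (Set.subset_univ _) hM hNN
    have hsub2 : fderiv ℝ (REG_cv u' (ρ m)) x - fderiv ℝ (REG_cv u' (ρ n)) x =
        fderiv ℝ (fun q => REG_cv u' (ρ m) q - REG_cv u' (ρ n) q) x := by
      rw [fderiv_fun_sub (hudiff m x) (hudiff n x)]
    rw [dist_eq_norm, hsub2]
    refine lt_of_le_of_lt (REG_norm_fderiv ((hw1.differentiable (by simp)) x)) ?_
    have h3 : κ * (2 * (2 * (2 / d) + 2 * (d / 2)) + 1) = ε := by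
      rw [hκ]; field_simp
    nlinarith
  have hlim : ∀ x ∈ Metric.ball q₀ d, ∃ L : ℝ × ℝ →L[ℝ] ℝ,
      Filter.Tendsto (fun n => fderiv ℝ (REG_cv u' (ρ n)) x) Filter.atTop (nhds L) :=
    fun x hx => cauchySeq_tendsto_of_complete (hcauchy.cauchySeq hx)
  choose! G hG using hlim
  have hunif : TendstoUniformlyOn (fun n x => fderiv ℝ (REG_cv u' (ρ n)) x) G Filter.atTop
      (Metric.ball q₀ d) := hcauchy.tendstoUniformlyOn_of_tendsto hG
  have hGc : ContinuousOn G (Metric.ball q₀ d) := by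
    apply hunif.continuousOn
    apply Filter.Eventually.frequently
    apply Filter.Eventually.of_forall
    intro n
    exact ((hus n).continuous_fderiv (by simp)).continuousOn
  have hptw : ∀ x, Filter.Tendsto (fun n => REG_cv u' (ρ n) x) Filter.atTop (nhds (u' x)) := by
    intro x
    rw [Metric.tendsto_atTop]
    intro ε hε
    obtain ⟨N, hN⟩ := happ u' cu su (ε / 2) (by positivity)
    refine ⟨N, fun n hn => ?_⟩
    rw [Real.dist_eq]
    exact lt_of_le_of_lt (hN n hn x) (by linarith)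
  have hder : ∀ x ∈ Metric.ball q₀ d, HasFDerivAt u (G x) x := by
    intro x hx
    have h1 : HasFDerivAt u' (G x) x :=
      hasFDerivAt_of_tendstoUniformlyOn Metric.isOpen_ball hunif
        (fun n y _ => (hudiff n y).hasFDerivAt) (fun y _ => hptw y) hx
    apply h1.congr_of_eventuallyEq
    filter_upwards [Metric.isOpen_ball.mem_nhds hx] with t ht
    exact (e1 t (Metric.closedBall_subset_closedBall (by linarith)
      (Metric.ball_subset_closedBall ht))).symm
  have h01 : (1 : WithTop ℕ∞) = 0 + 1 := by simp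
  rw [h01, contDiffOn_succ_iff_fderiv_of_isOpen Metric.isOpen_ball]
  refine ⟨fun x hx => (hder x hx).differentiableAt.differentiableWithinAt, by simp, ?_⟩
  rw [contDiffOn_zero]
  exact hGc.congr (fun x hx => (hder x hx).fderiv)

private theorem REG_lap_zero {η : ℝ × ℝ → ℝ} {t : ℝ × ℝ} (ht' : t ∉ tsupport η) :
    lap η t = 0 := by
  have h1 : lap η t = lap (fun _ => (0 : ℝ)) t := by
    apply lap_congr (D := (tsupport η)ᶜ) (isClosed_tsupport η).isOpen_compl _ ht'
    intro z hz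
    exact REG_zero hz
  rw [h1]
  have h2 : dx (fun _ : ℝ × ℝ => (0 : ℝ)) = fun _ => 0 := by
    funext z; show fderiv ℝ (fun _ : ℝ × ℝ => (0 : ℝ)) z (1, 0) = 0; simp
  have h3 : dy (fun _ : ℝ × ℝ => (0 : ℝ)) = fun _ => 0 := by
    funext z; show fderiv ℝ (fun _ : ℝ × ℝ => (0 : ℝ)) z (0, 1) = 0; simp
  unfold lap
  rw [h2, h3, h2, h3]
  simp

private theorem REG_lap_supp (η : ℝ × ℝ → ℝ) : tsupport (lap η) ⊆ tsupport η := by
  apply closure_minimal _ (isClosed_tsupport η)
  intro t ht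
  by_contra hcon
  exact ht (REG_lap_zero hcon)

private theorem REG_up {U : Set (ℝ × ℝ)} (hU : IsOpen U) {u : ℝ × ℝ → ℝ} {n : ℕ}
    (hd : DifferentiableOn ℝ u U) (hx : ContDiffOn ℝ (n : ℕ) (dx u) U)
    (hy : ContDiffOn ℝ (n : ℕ) (dy u) U) : ContDiffOn ℝ (n + 1 : ℕ) u U := by
  have h01 : ((n + 1 : ℕ) : WithTop ℕ∞) = (n : WithTop ℕ∞) + 1 := by push_cast; rfl
  rw [h01, contDiffOn_succ_iff_fderiv_of_isOpen hU]
  refine ⟨hd, fun h => ?_, ?_⟩
  · exact absurd h (by simp)
  · have h1 : ContDiffOn ℝ (n : ℕ) (fun q => dx u q • ContinuousLinearMap.fst ℝ ℝ ℝ +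
        dy u q • ContinuousLinearMap.snd ℝ ℝ ℝ) U :=
      (hx.smul contDiffOn_const).add (hy.smul contDiffOn_const)
    apply h1.congr
    intro q hq
    have hdq : DifferentiableAt ℝ u q := hd.differentiableAt (hU.mem_nhds hq)
    apply ContinuousLinearMap.ext
    rintro ⟨a, b⟩
    rw [fderiv_apply_eq hdq a b]
    show a * dx u q + b * dy u q = dx u q • a + dy u q • b
    rw [smul_eq_mul, smul_eq_mul]
    ring

private theorem REG_wdx {U : Set (ℝ × ℝ)} (hU : IsOpen U) {u f : ℝ × ℝ → ℝ}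
    (hu : ContDiffOn ℝ 1 u U) (hf : ContDiffOn ℝ 1 f U) (hw : Weak u f U) :
    Weak (dx u) (dx f) U := by
  intro η hη hηc hηU
  have s1 : ContDiff ℝ ∞ (dx η) := REG_smooth_fderiv hη _
  have c1 : HasCompactSupport (dx η) := hηc.fderiv_apply ℝ _
  have t1 : tsupport (dx η) ⊆ U := (tsupport_fderiv_apply_subset ℝ _).trans hηU
  have s2 : ContDiff ℝ ∞ (lap η) := by
    have := smooth_lap isOpen_univ hη.contDiffOn
    rwa [contDiffOn_univ] at this
  have t2 : tsupport (lap η) ⊆ tsupport η := REG_lap_supp η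
  have c2 : HasCompactSupport (lap η) := hηc.of_isClosed_subset (isClosed_tsupport _) t2
  have i1 := ibp_dx hU (s2.of_le (by simp)) c2 (t2.trans hηU) hu
  have i2 := hw (dx η) s1 c1 t1
  have i3 := ibp_dx hU (hη.of_le (by simp)) hηc hηU hf
  have i4 : ∀ q, lap (dx η) q = dx (lap η) q := fun q =>
    lap_dx isOpen_univ (REG_three hη).contDiffOn (Set.mem_univ q)
  have j1 : ∫ q, dx u q * lap η q = ∫ q, lap η q * dx u q := by
    congr 1; funext q; ring
  have j2 : ∫ q, dx (lap η) q * u q = ∫ q, u q * lap (dx η) q := by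
    congr 1; funext q; rw [i4]; ring
  have j3 : ∫ q, dx f q * η q = ∫ q, η q * dx f q := by
    congr 1; funext q; ring
  have j4 : ∫ q, dx η q * f q = ∫ q, f q * dx η q := by
    congr 1; funext q; ring
  rw [j1, i1, j2, i2, j3, i3, j4]

private theorem REG_wdy {U : Set (ℝ × ℝ)} (hU : IsOpen U) {u f : ℝ × ℝ → ℝ}
    (hu : ContDiffOn ℝ 1 u U) (hf : ContDiffOn ℝ 1 f U) (hw : Weak u f U) :
    Weak (dy u) (dy f) U := by
  intro η hη hηc hηU
  have s1 : ContDiff ℝ ∞ (dy η) := REG_smooth_fderiv hη _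
  have c1 : HasCompactSupport (dy η) := hηc.fderiv_apply ℝ _
  have t1 : tsupport (dy η) ⊆ U := (tsupport_fderiv_apply_subset ℝ _).trans hηU
  have s2 : ContDiff ℝ ∞ (lap η) := by
    have := smooth_lap isOpen_univ hη.contDiffOn
    rwa [contDiffOn_univ] at this
  have t2 : tsupport (lap η) ⊆ tsupport η := REG_lap_supp η
  have c2 : HasCompactSupport (lap η) := hηc.of_isClosed_subset (isClosed_tsupport _) t2
  have i1 := ibp_dy hU (s2.of_le (by simp)) c2 (t2.trans hηU) hu
  have i2 := hw (dy η) s1 c1 t1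
  have i3 := ibp_dy hU (hη.of_le (by simp)) hηc hηU hf
  have i4 : ∀ q, lap (dy η) q = dy (lap η) q := fun q =>
    lap_dy isOpen_univ (REG_three hη).contDiffOn (Set.mem_univ q)
  have j1 : ∫ q, dy u q * lap η q = ∫ q, lap η q * dy u q := by
    congr 1; funext q; ring
  have j2 : ∫ q, dy (lap η) q * u q = ∫ q, u q * lap (dy η) q := by
    congr 1; funext q; rw [i4]; ring
  have j3 : ∫ q, dy f q * η q = ∫ q, η q * dy f q := by
    congr 1; funext q; ring
  have j4 : ∫ q, dy η q * f q = ∫ q, f q * dy η q := by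
    congr 1; funext q; ring
  rw [j1, i1, j2, i2, j3, i3, j4]


theorem reg_c1 {U : Set (ℝ × ℝ)} (hU : IsOpen U) {u f : ℝ × ℝ → ℝ} (hu : ContinuousOn u U)
    (hf : ContinuousOn f U) (hw : Weak u f U) : ContDiffOn ℝ 1 u U := by
  intro q₀ hq₀
  obtain ⟨r, hr, hrU⟩ := Metric.isOpen_iff.1 hU q₀ hq₀
  have h1 := REG_loc hU hu hf hw (q₀ := q₀) (d := r / 4) (by positivity) (by
    intro t ht
    apply hrU
    rw [Metric.mem_closedBall] at ht
    rw [Metric.mem_ball]
    linarith)
  have h2 : ContDiffAt ℝ 1 u q₀ := h1.contDiffAt (Metric.ball_mem_nhds q₀ (by positivity))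
  exact h2.contDiffWithinAt

theorem reg_c2 {U : Set (ℝ × ℝ)} (hU : IsOpen U) {u f : ℝ × ℝ → ℝ} (hu : ContinuousOn u U)
    (hf : ContDiffOn ℝ 1 f U) (hw : Weak u f U) :
    ContDiffOn ℝ 2 u U ∧ ∀ q ∈ U, -lap u q = f q := by
  have hu1 : ContDiffOn ℝ 1 u U := reg_c1 hU hu hf.continuousOn hw
  have hx : ContDiffOn ℝ 1 (dx u) U :=
    reg_c1 hU (cont_dx hU hu1) (cont_dx hU hf) (REG_wdx hU hu1 hf hw)
  have hy : ContDiffOn ℝ 1 (dy u) U :=
    reg_c1 hU (cont_dy hU hu1) (cont_dy hU hf) (REG_wdy hU hu1 hf hw)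
  have hu2 : ContDiffOn ℝ 2 u U := by
    have h1 := REG_up (n := 1) hU (hu1.differentiableOn one_ne_zero)
      (by exact_mod_cast hx) (by exact_mod_cast hy)
    exact_mod_cast h1
  refine ⟨hu2, ?_⟩
  have hlu : ContinuousOn (lap u) U := cont_lap hU hu2
  have hcont : ContinuousOn (fun q => lap u q + f q) U := hlu.add hf.continuousOn
  have hae := hU.ae_eq_zero_of_integral_contDiff_smul_eq_zero (μ := MeasureTheory.volume)
    (f := fun q => lap u q + f q) (hcont.locallyIntegrableOn hU.measurableSet) (by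
      intro g hg hgc hgU
      have i1 := green2 hU (REG_two hg) hgc hgU hu2
      have i2 := hw g hg hgc hgU
      obtain ⟨a1, a2⟩ := REG_int hU hg.continuous hgc hgU hlu
      obtain ⟨b1, b2⟩ := REG_int hU hg.continuous hgc hgU hf.continuousOn
      have j1 : ∫ q, g q • (lap u q + f q) = (∫ q, g q * lap u q) + ∫ q, g q * f q := by
        rw [← MeasureTheory.integral_add (a1.integrable_of_hasCompactSupport a2)
          (b1.integrable_of_hasCompactSupport b2)]
        congr 1; funext q; rw [smul_eq_mul]; ring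
      have j2 : ∫ q, lap g q * u q = ∫ q, u q * lap g q := by
        congr 1; funext q; ring
      have j3 : ∫ q, g q * f q = ∫ q, f q * g q := by
        congr 1; funext q; ring
      rw [j1, i1, j2, i2, j3]
      ring)
  have hEq : Set.EqOn (fun q => lap u q + f q) (fun _ => 0) U := by
    apply MeasureTheory.Measure.eqOn_open_of_ae_eq (μ := MeasureTheory.volume) _ hU hcont
      continuousOn_const
    exact (MeasureTheory.ae_restrict_iff' hU.measurableSet).2 hae
  intro q hq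
  have := hEq hq
  have h2 : lap u q + f q = 0 := this
  linarith

theorem reg_n {U : Set (ℝ × ℝ)} (hU : IsOpen U) (n : ℕ) {u f : ℝ × ℝ → ℝ}
    (hu : ContinuousOn u U) (hf : ContDiffOn ℝ (n : ℕ) f U) (hw : Weak u f U) :
    ContDiffOn ℝ (n + 1 : ℕ) u U := by
  induction n generalizing u f with
  | zero =>
    have h1 := reg_c1 hU hu hf.continuousOn hw
    exact_mod_cast h1
  | succ n ih =>
    have hf1 : ContDiffOn ℝ 1 f U := hf.of_le (by exact_mod_cast (Nat.le_add_left 1 n))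
    have hu1 : ContDiffOn ℝ 1 u U := reg_c1 hU hu hf1.continuousOn hw
    have hx := ih (cont_dx hU hu1) (c_dx hU hf) (REG_wdx hU hu1 hf1 hw)
    have hy := ih (cont_dy hU hu1) (c_dy hU hf) (REG_wdy hU hu1 hf1 hw)
    exact REG_up hU (hu1.differentiableOn one_ne_zero) hx hy

/-- the nonlinear equation -/
theorem reg_exp {U : Set (ℝ × ℝ)} (hU : IsOpen U) {u : ℝ × ℝ → ℝ} {μ : ℝ}
    (hu : ContinuousOn u U) (hw : Weak u (fun q => μ * Real.exp (u q)) U) :
    ContDiffOn ℝ ∞ u U ∧ ∀ q ∈ U, -lap u q = μ * Real.exp (u q) := by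
  have hall : ∀ n : ℕ, ContDiffOn ℝ (n : ℕ) u U := by
    intro n
    induction n with
    | zero =>
      have : ContDiffOn ℝ 0 u U := contDiffOn_zero.2 hu
      exact_mod_cast this
    | succ n ih => exact reg_n hU n hu (contDiffOn_const.mul ih.exp) hw
  refine ⟨contDiffOn_infty.2 hall, ?_⟩
  have h1 : ContDiffOn ℝ 1 u U := by exact_mod_cast hall 1
  exact (reg_c2 hU hu (contDiffOn_const.mul h1.exp) hw).2

/-- linear equations -/
theorem reg_lin {U : Set (ℝ × ℝ)} (hU : IsOpen U) {u a b : ℝ × ℝ → ℝ}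
    (hu : ContinuousOn u U) (ha : ContDiffOn ℝ ∞ a U) (hb : ContDiffOn ℝ ∞ b U)
    (hw : Weak u (fun q => a q * u q + b q) U) :
    ContDiffOn ℝ ∞ u U ∧ ∀ q ∈ U, -lap u q = a q * u q + b q := by
  have hall : ∀ n : ℕ, ContDiffOn ℝ (n : ℕ) u U := by
    intro n
    induction n with
    | zero =>
      have : ContDiffOn ℝ 0 u U := contDiffOn_zero.2 hu
      exact_mod_cast this
    | succ n ih =>
      exact reg_n hU n hu (((contDiffOn_infty.1 ha n).mul ih).add (contDiffOn_infty.1 hb n)) hw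
  refine ⟨contDiffOn_infty.2 hall, ?_⟩
  have h1 : ContDiffOn ℝ 1 u U := by exact_mod_cast hall 1
  have ha1 : ContDiffOn ℝ 1 a U := by exact_mod_cast contDiffOn_infty.1 ha 1
  have hb1 : ContDiffOn ℝ 1 b U := by exact_mod_cast contDiffOn_infty.1 hb 1
  exact (reg_c2 hU hu ((ha1.mul h1).add hb1) hw).2

end Pool.Agent.MFE
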