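import Pool.Agent.MFE.STC
import Pool.Agent.MFE.HKC
import Pool.Agent.MFE.REG

/-!
# MFE.STK: classification of the monotone half stable solutions on the strip

`StripSol μ v`: continuous, bounded, zero outside `Str 1`, weak solution of `-lap v = μ e^v`, even,
non-increasing in `|x|` and in `|y|`, `v(0) > 0`, and half stable.

`v` is smooth (`reg_exp`). `w = -dx v ≥ 0` on `{x > 0}`, `-lap w = μ e^v w ≥ 0`: by `smp` on the
connected set `Str 1 ∩ {x > 0}` either `w = 0` or `w > 0`. Similarly `-dy v > 0` on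
`Str 1 ∩ {y > 0}` (not zero since `v(0) > 0` and `v = 0` on the boundary). `v > 0` in the strip.
(1) `w = 0`: `v` depends on `y` only (evenness): `ode1_bd`: `v = V1 b`, `μ = mu1 b`. `b ≤ ast`: otherwise
let `g(y) = b tanh b - b y tanh (b y) = e1 b y + c ≥ 0`, `c = b tanh b - 1 > 0`, `g(±1) = 0`:
`∫ g'^2 - pot1 g² = ∫ g(-g'' - pot1 g) = -c ∫ pot1 g < 0` (over `(-1,1)`, `g'' = e1'' = -pot1 (g-c)`).
Test the half stability with `f(x,y) = ε η(g(y)/ε) χ((x - 4R)/R)` (`trunc`, `cutx`; compact support in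
`{x > 0} ∩ Str 1`): for `ε` small and `R` large the form is negative: contradiction.
(2) `w > 0`: then `Super (Str 1) (μ e^v)` with `gx = -dx v`, `gy = -dy v`. Compare with the solution
`vr`, `μr` of the same amplitude `p`: for `p ≤ pst` the one dimensional one (`Super` with
`gx = gy = e1 a`), for `p > pst` the given bump (`Super` with `-dx`, `-dy`). If `μ ≤ μr`, let
`s = √(μr/μ) ≥ 1`, `vt q = v (s q.1, s q.2)`, a solution for `μr` on `Str (1/s)`, zero outside.
`hk_compare` on `Str (1/s)` for `v₁ = vr`, `v₂ = vt` (`{q ∈ Str (1/s) : vr ≤ vt - ε}` is closed: at a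
limit point on the boundary `vt = 0 ≤ vr`): `vr = vt` on `Str (1/s)`; if `s > 1` then at `(0, 1/s)`:
`vr > 0 = vt`, contradiction to continuity. So `μ = μr`, `v = vr`. If `μ > μr` exchange the roles.
In case (2) with `p ≤ pst` this gives `v = V1 a` as well.
So for `p ≤ pst`: `v = V1 a` (in case (1) `2 log cosh b = p` gives `b = a`), and for `p > pst` case (1)
is impossible (`b > ast`), so `v = VB a k` for EVERY bump `(a,k)` of amplitude `p`.
-/

open scoped ContDiff

namespace Pool.Agent.MFE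

/-- monotone, half stable solutions on the strip -/
structure StripSol (μ : ℝ) (v : ℝ × ℝ → ℝ) : Prop where
  mu_pos : 0 < μ
  cont : Continuous v
  bdd : ∃ M : ℝ, ∀ q, |v q| ≤ M
  zero : ∀ q, q ∉ Str 1 → v q = 0
  weak : Weak v (fun q => μ * Real.exp (v q)) (Str 1)
  evx : EvX v
  evy : EvY v
  anti_x : ∀ x x' y : ℝ, |x| ≤ |x'| → v (x', y) ≤ v (x, y)
  anti_y : ∀ x y y' : ℝ, |y| ≤ |y'| → v (x, y') ≤ v (x, y)
  pos : 0 < v (0, 0)
  stab : ∀ f : ℝ × ℝ → ℝ, ContDiff ℝ 1 f → HasCompactSupport f →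
    tsupport f ⊆ Str 1 ∩ {q | 0 < q.1} →
    ∫ q, μ * Real.exp (v q) * f q ^ 2 ≤ ∫ q, gdot f f q

private theorem STK_open (L : ℝ) : IsOpen (Str L) := by
  have h : Continuous fun q : ℝ × ℝ => |q.2| := continuous_snd.abs
  exact isOpen_lt h continuous_const

private theorem STK_tanh {s t : ℝ} (hs : 0 ≤ s) (hst : s < t) :
    s * Real.tanh s < t * Real.tanh t := by
  have ht : 0 < t := lt_of_le_of_lt hs hst
  have h1 : Real.sinh s * Real.cosh t < Real.sinh t * Real.cosh s := by
    have h2 : 0 < Real.sinh (t - s) := Real.sinh_pos_iff.2 (by linarith)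
    rw [Real.sinh_sub] at h2
    linarith
  have h3 : 0 ≤ Real.sinh s := Real.sinh_nonneg_iff.2 hs
  rw [Real.tanh_eq_sinh_div_cosh, Real.tanh_eq_sinh_div_cosh, ← mul_div_assoc, ← mul_div_assoc,
    div_lt_div_iff₀ (Real.cosh_pos s) (Real.cosh_pos t)]
  have h4 : s * Real.sinh s * Real.cosh t ≤ t * Real.sinh s * Real.cosh t := by
    refine mul_le_mul_of_nonneg_right ?_ (Real.cosh_pos t).le
    exact mul_le_mul_of_nonneg_right hst.le h3
  have h5 : t * (Real.sinh s * Real.cosh t) < t * (Real.sinh t * Real.cosh s) :=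
    mul_lt_mul_of_pos_left h1 ht
  nlinarith

/-- monotonicity of `e1`, strict -/
private theorem STK_e1_lt {b y : ℝ} (hb : 0 < b) (hy : |y| < 1) : e1 b 1 < e1 b y := by
  unfold e1
  rw [atanh_even (b * y), mul_one, abs_mul, abs_of_pos hb]
  have h1 : b * |y| < b := by nlinarith
  have h2 := STK_tanh (mul_nonneg hb.le (abs_nonneg y)) h1
  linarith

private theorem STK_e1_ge {b y : ℝ} (hy : 1 ≤ |y|) : e1 b y ≤ e1 b 1 :=
  e1_anti (by rw [abs_one]; exact hy)

/-- one dimensional integrals of functions vanishing outside the interval -/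
private theorem STK_line {F : ℝ → ℝ} (hF : ∀ y, 1 ≤ |y| → F y = 0) :
    ∫ y, F y = ∫ y in (-1 : ℝ)..1, F y := by
  rw [intervalIntegral.integral_of_le (by norm_num)]
  refine (MeasureTheory.setIntegral_eq_integral_of_forall_compl_eq_zero fun y hy => ?_).symm
  apply hF
  by_contra hcon
  have h1 := abs_lt.1 (not_le.1 hcon)
  exact hy ⟨h1.1, h1.2.le⟩

/-- instability of the one dimensional solutions beyond the critical one -/
private theorem STK_unst {b : ℝ} (hb : ast < b)
    (hst : ∀ f : ℝ × ℝ → ℝ, ContDiff ℝ 1 f → HasCompactSupport f →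
      tsupport f ⊆ Str 1 ∩ {q | 0 < q.1} →
      ∫ q, pot1 b q.2 * f q ^ 2 ≤ ∫ q, gdot f f q) : False := by
  have hb0 : 0 < b := ast_pos.trans hb
  obtain ⟨η, hη, η0, η1, -, η3, η4, η5, -⟩ := trunc
  obtain ⟨χ, hχ, -, χ1, χ2, χ3, -, -, -⟩ := cutx
  -- the profile
  set c : ℝ := -e1 b 1 with hc
  have hc0 : 0 < c := by
    have h1 := STK_tanh ast_pos.le hb
    rw [ast_eq] at h1
    rw [hc]
    unfold e1
    rw [mul_one]
    linarith
  set g : ℝ → ℝ := fun y => e1 b y + c with hg
  have hgs : ContDiff ℝ ∞ g := (e1_smooth b).add contDiff_const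
  have hg1 : ∀ y, 1 ≤ |y| → g y ≤ 0 := fun y hy => by
    have := STK_e1_ge (b := b) hy
    simp only [hg, hc]
    linarith
  have hg2 : ∀ y, |y| < 1 → 0 < g y := fun y hy => by
    have := STK_e1_lt hb0 hy
    simp only [hg, hc]
    linarith
  have hdg : deriv g = deriv (e1 b) := by
    funext y
    simp only [hg]
    rw [deriv_add_const]
  have hddg : ∀ y, deriv (deriv g) y = -(pot1 b y * (g y - c)) := by
    intro y
    rw [hdg, e1_deriv2]
    simp only [hg]
    ring
  have hgd : ∀ y, HasDerivAt g (deriv g y) y := fun y =>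
    ((hgs.differentiable (by simp)) y).hasDerivAt
  have hdgs : ContDiff ℝ ∞ (deriv g) := (contDiff_infty_iff_deriv.1 hgs).2
  have hgdd : ∀ y, HasDerivAt (deriv g) (-(pot1 b y * (g y - c))) y := fun y => by
    rw [← hddg]
    exact ((hdgs.differentiable (by simp)) y).hasDerivAt
  have hpc : Continuous (pot1 b) := by
    unfold pot1
    refine continuous_const.div ((Real.continuous_cosh.comp
      (continuous_const.mul continuous_id)).pow 2) fun y => ?_
    exact pow_ne_zero 2 (Real.cosh_pos _).ne'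
  have hpp : ∀ y, 0 < pot1 b y := fun y => by
    unfold pot1
    have := Real.cosh_pos (b * y)
    positivity
  have hgc := hgs.continuous
  have hdgc := hdgs.continuous
  set ε : ℝ := c / 8 with hε
  have hε0 : 0 < ε := by positivity
  set G : ℝ → ℝ := fun y => ε * η (g y / ε) with hG
  have hGs : ContDiff ℝ ∞ G := contDiff_const.mul (hη.comp (hgs.div_const ε))
  have hG0 : ∀ y, g y ≤ ε → G y = 0 := fun y hy => by
    simp only [hG]
    rw [η0 _ ((div_le_one hε0).2 hy), mul_zero]
  have hGd : ∀ y, deriv G y = deriv η (g y / ε) * deriv g y := by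
    intro y
    have h1 : HasDerivAt (fun y => g y / ε) (deriv g y / ε) y := (hgd y).div_const ε
    have h2 : HasDerivAt η (deriv η (g y / ε)) (g y / ε) :=
      ((hη.differentiable (by simp)) _).hasDerivAt
    have h3 := (h2.comp y h1).const_mul ε
    have h4 : HasDerivAt G (ε * (deriv η (g y / ε) * (deriv g y / ε))) y := h3
    rw [h4.deriv]
    field_simp
  have hG1 : ∀ y, 1 ≤ |y| → G y = 0 := fun y hy => hG0 y ((hg1 y hy).trans hε0.le)
  have hG1' : ∀ y, 1 ≤ |y| → deriv G y = 0 := fun y hy => by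
    have h1 : G =ᶠ[nhds y] fun _ => 0 := by
      filter_upwards [hgc.continuousAt.eventually_lt continuousAt_const
        (lt_of_le_of_lt (hg1 y hy) hε0)] with z hz
      exact hG0 z hz.le
    rw [h1.deriv_eq]
    simp
  have hGc := hGs.continuous
  have hGdc : Continuous (deriv G) := hGs.continuous_deriv (by simp)
  -- the integrals
  set P : ℝ := ∫ y in (-1 : ℝ)..1, pot1 b y * g y with hP
  have hP0 : 0 < P := intervalIntegral.intervalIntegral_pos_of_pos_on
    ((hpc.mul hgc).intervalIntegrable _ _)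
    (fun y hy => mul_pos (hpp y) (hg2 y (abs_lt.2 ⟨hy.1, hy.2⟩))) (by norm_num)
  have hparts : ∫ y in (-1 : ℝ)..1, (deriv g y ^ 2 - pot1 b y * (g y - c) * g y) = 0 := by
    have h1 : ∀ y ∈ Set.uIcc (-1 : ℝ) 1, HasDerivAt (fun y => g y * deriv g y)
        (deriv g y ^ 2 - pot1 b y * (g y - c) * g y) y := by
      intro y _
      have h2 := (hgd y).mul (hgdd y)
      have h3 : deriv g y * deriv g y + g y * -(pot1 b y * (g y - c)) =
          deriv g y ^ 2 - pot1 b y * (g y - c) * g y := by ring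
      rw [h3] at h2
      exact h2
    rw [intervalIntegral.integral_eq_sub_of_hasDerivAt h1 (Continuous.intervalIntegrable
      ((hdgc.pow 2).sub ((hpc.mul (hgc.sub continuous_const)).mul hgc)) _ _)]
    have h4 : g 1 = 0 := by simp only [hg, hc]; ring
    have h5 : g (-1) = 0 := by
      simp only [hg, hc]
      rw [e1_even]
      ring
    rw [h4, h5]
    ring
  have hQ : ∫ y in (-1 : ℝ)..1, (deriv G y ^ 2 - pot1 b y * G y ^ 2) ≤ -(c / 2) * P := by
    have h1 : ∫ y in (-1 : ℝ)..1, (deriv G y ^ 2 - pot1 b y * G y ^ 2) ≤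
        ∫ y in (-1 : ℝ)..1, ((deriv g y ^ 2 - pot1 b y * (g y - c) * g y) +
          -(c / 2) * (pot1 b y * g y)) := by
      refine intervalIntegral.integral_mono_on (by norm_num)
        (((hGdc.pow 2).sub (hpc.mul (hGc.pow 2))).intervalIntegrable _ _)
        ((((hdgc.pow 2).sub ((hpc.mul (hgc.sub continuous_const)).mul hgc)).add
          (continuous_const.mul (hpc.mul hgc))).intervalIntegrable _ _) fun y hy => ?_
      have hgy : 0 ≤ g y := by
        rcases lt_or_ge |y| 1 with h | h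
        · exact (hg2 y h).le
        · have h2 : |y| = 1 := le_antisymm (abs_le.2 hy) h
          have h3 : e1 b y = e1 b 1 := le_antisymm (e1_anti (by rw [abs_one, h2]))
            (e1_anti (by rw [abs_one, h2]))
          simp only [hg, hc]
          rw [h3]
          linarith
      have k1 : deriv G y ^ 2 ≤ deriv g y ^ 2 := by
        rw [hGd, mul_pow]
        obtain ⟨m1, m2⟩ := η1 (g y / ε)
        have m3 : deriv η (g y / ε) ^ 2 ≤ 1 := by nlinarith
        nlinarith [sq_nonneg (deriv g y)]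
      have k2 : g y ^ 2 - 4 * ε * g y ≤ G y ^ 2 := by
        have m1 : g y - 2 * ε ≤ G y := by
          simp only [hG]
          have m2 := mul_le_mul_of_nonneg_left (η3 (g y / ε)) hε0.le
          have m3 : ε * (g y / ε - 2) = g y - 2 * ε := by field_simp
          linarith
        rcases le_or_gt (g y) (2 * ε) with h | h
        · nlinarith [sq_nonneg (G y)]
        · nlinarith
      have k3 := mul_le_mul_of_nonneg_left k2 (hpp y).le
      have k4 : 4 * ε = c / 2 := by rw [hε]; ring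
      rw [k4] at k3
      nlinarith
    refine h1.trans (le_of_eq ?_)
    have i1 : IntervalIntegrable (fun y => deriv g y ^ 2 - pot1 b y * (g y - c) * g y)
        MeasureTheory.volume (-1) 1 :=
      ((hdgc.pow 2).sub ((hpc.mul (hgc.sub continuous_const)).mul hgc)).intervalIntegrable _ _
    have i2 : IntervalIntegrable (fun y => -(c / 2) * (pot1 b y * g y))
        MeasureTheory.volume (-1) 1 :=
      (continuous_const.mul (hpc.mul hgc)).intervalIntegrable _ _
    rw [intervalIntegral.integral_add i1 i2, hparts,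
      intervalIntegral.integral_const_mul, zero_add]
  -- compact supports
  have hK1 : IsCompact (Set.Icc (-1 : ℝ) 1) := isCompact_Icc
  have out1 : ∀ y : ℝ, y ∉ Set.Icc (-1 : ℝ) 1 → 1 ≤ |y| := fun y hy => by
    by_contra hcon
    have h1 := abs_lt.1 (not_le.1 hcon)
    exact hy ⟨h1.1.le, h1.2.le⟩
  have iG : MeasureTheory.Integrable (fun y => G y ^ 2) := by
    have hcc : Continuous fun y => G y ^ 2 := hGc.pow 2
    refine hcc.integrable_of_hasCompactSupport (HasCompactSupport.intro hK1 fun y hy => ?_)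
    show G y ^ 2 = 0
    rw [hG1 y (out1 y hy)]; norm_num
  have iG' : MeasureTheory.Integrable (fun y => deriv G y ^ 2) := by
    have hcc : Continuous fun y => deriv G y ^ 2 := hGdc.pow 2
    refine hcc.integrable_of_hasCompactSupport (HasCompactSupport.intro hK1 fun y hy => ?_)
    show deriv G y ^ 2 = 0
    rw [hG1' y (out1 y hy)]; norm_num
  have iGp : MeasureTheory.Integrable (fun y => pot1 b y * G y ^ 2) := by
    have hcc : Continuous fun y => pot1 b y * G y ^ 2 := hpc.mul (hGc.pow 2)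
    refine hcc.integrable_of_hasCompactSupport (HasCompactSupport.intro hK1 fun y hy => ?_)
    show pot1 b y * G y ^ 2 = 0
    rw [hG1 y (out1 y hy)]; norm_num
  set N : ℝ := ∫ y, G y ^ 2 with hN
  have hN0 : 0 ≤ N := MeasureTheory.integral_nonneg fun y => sq_nonneg _
  have hQ' : (∫ y, deriv G y ^ 2) - ∫ y, pot1 b y * G y ^ 2 ≤ -(c / 2) * P := by
    rw [← MeasureTheory.integral_sub iG' iGp, STK_line (fun y hy => by
      rw [hG1 y hy, hG1' y hy]; norm_num)]
    exact hQ
  -- the cut off functions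
  have hχc := hχ.continuous
  have hχdc : Continuous (deriv χ) := hχ.continuous_deriv (by simp)
  have hχ0 : ∀ s, s ∉ Set.Icc (-2 : ℝ) 2 → χ s = 0 := fun s hs => χ2 s (by
    by_contra hcon
    have h1 := abs_lt.1 (not_le.1 hcon)
    exact hs ⟨h1.1.le, h1.2.le⟩)
  have hχ0' : ∀ s, s ∉ Set.Icc (-2 : ℝ) 2 → deriv χ s = 0 := fun s hs => by
    have h1 : χ =ᶠ[nhds s] fun _ => 0 := by
      filter_upwards [isClosed_Icc.isOpen_compl.mem_nhds hs] with z hz
      exact hχ0 z hz
    rw [h1.deriv_eq]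
    simp
  have iχ : HasCompactSupport (fun s => χ s ^ 2) :=
    HasCompactSupport.intro (isCompact_Icc (a := (-2 : ℝ)) (b := 2)) fun s hs => by
      show χ s ^ 2 = 0
      rw [hχ0 s hs]; norm_num
  set a0 : ℝ := ∫ s, χ s ^ 2 with ha0
  set a1 : ℝ := ∫ s, deriv χ s ^ 2 with ha1
  have ha0p : 0 < a0 := by
    refine Continuous.integral_pos_of_hasCompactSupport_nonneg_nonzero (x := 0) (hχc.pow 2) iχ
      (fun s => sq_nonneg _) ?_
    rw [χ1 0 (by rw [abs_zero]; exact zero_le_one)]
    norm_num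
  have ha1p : 0 ≤ a1 := MeasureTheory.integral_nonneg fun y => sq_nonneg _
  -- the inequality for all R
  have key : ∀ R : ℝ, 0 < R → R * a0 * ((c / 2) * P) ≤ a1 / R * N := by
    intro R hR
    set X : ℝ → ℝ := fun x => χ ((x - 4 * R) / R) with hX
    have hXs : ContDiff ℝ ∞ X := hχ.comp ((contDiff_id.sub contDiff_const).div_const R)
    have hXd : ∀ x, deriv X x = deriv χ ((x - 4 * R) / R) / R := by
      intro x
      have h1 : HasDerivAt (fun x => (x - 4 * R) / R) (1 / R) x :=
        ((hasDerivAt_id x).sub_const (4 * R)).div_const R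
      have h2 : HasDerivAt χ (deriv χ ((x - 4 * R) / R)) ((x - 4 * R) / R) :=
        ((hχ.differentiable (by simp)) _).hasDerivAt
      have h3 : HasDerivAt X (deriv χ ((x - 4 * R) / R) * (1 / R)) x := h2.comp x h1
      rw [h3.deriv]
      ring
    have hXc := hXs.continuous
    have hXdc : Continuous (deriv X) := hXs.continuous_deriv (by simp)
    have hXout : ∀ x, x ∉ Set.Icc (2 * R) (6 * R) → (x - 4 * R) / R ∉ Set.Icc (-2 : ℝ) 2 := by
      intro x hx hcon
      apply hx
      have h1 := hcon.1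
      have h2 := hcon.2
      rw [le_div_iff₀ hR] at h1
      rw [div_le_iff₀ hR] at h2
      exact ⟨by linarith, by linarith⟩
    have hX0 : ∀ x, x ∉ Set.Icc (2 * R) (6 * R) → X x = 0 := fun x hx =>
      hχ0 _ (hXout x hx)
    have hX0' : ∀ x, x ∉ Set.Icc (2 * R) (6 * R) → deriv X x = 0 := fun x hx => by
      rw [hXd, hχ0' _ (hXout x hx), zero_div]
    have iX : MeasureTheory.Integrable (fun x => X x ^ 2) := by
      have hcc : Continuous fun x => X x ^ 2 := hXc.pow 2
      refine hcc.integrable_of_hasCompactSupport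
        (HasCompactSupport.intro (isCompact_Icc (a := 2 * R) (b := 6 * R)) fun x hx => ?_)
      show X x ^ 2 = 0
      rw [hX0 x hx]; norm_num
    have iX' : MeasureTheory.Integrable (fun x => deriv X x ^ 2) := by
      have hcc : Continuous fun x => deriv X x ^ 2 := hXdc.pow 2
      refine hcc.integrable_of_hasCompactSupport
        (HasCompactSupport.intro (isCompact_Icc (a := 2 * R) (b := 6 * R)) fun x hx => ?_)
      show deriv X x ^ 2 = 0
      rw [hX0' x hx]; norm_num
    have vX : ∫ x, X x ^ 2 = R * a0 := by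
      have h1 := MeasureTheory.integral_sub_right_eq_self (μ := MeasureTheory.volume)
        (fun x : ℝ => χ (x / R) ^ 2) (4 * R)
      have h2 := MeasureTheory.Measure.integral_comp_div (fun s : ℝ => χ s ^ 2) R
      rw [abs_of_pos hR, smul_eq_mul] at h2
      rw [← ha0] at h2
      rw [← h2, ← h1]
    have vX' : ∫ x, deriv X x ^ 2 = a1 / R := by
      have h1 := MeasureTheory.integral_sub_right_eq_self (μ := MeasureTheory.volume)
        (fun x : ℝ => deriv χ (x / R) ^ 2) (4 * R)
      have h2 := MeasureTheory.Measure.integral_comp_div (fun s : ℝ => deriv χ s ^ 2) R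
      rw [abs_of_pos hR, smul_eq_mul] at h2
      rw [← ha1] at h2
      have h3 : ∀ x, deriv X x ^ 2 = (1 / R ^ 2) * deriv χ ((x - 4 * R) / R) ^ 2 := by
        intro x
        rw [hXd, div_pow]
        ring
      simp only [h3]
      rw [MeasureTheory.integral_const_mul, h1, h2]
      field_simp
    set f : ℝ × ℝ → ℝ := fun q => X q.1 * G q.2 with hf
    have hfs : ContDiff ℝ 1 f :=
      ((hXs.comp contDiff_fst).mul (hGs.comp contDiff_snd)).of_le (by simp)
    have hfc : HasCompactSupport f :=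
      HasCompactSupport.intro (isCompact_Icc.prod hK1 :
        IsCompact (Set.Icc (2 * R) (6 * R) ×ˢ Set.Icc (-1 : ℝ) 1)) fun q hq => by
        simp only [hf]
        by_cases h1 : q.1 ∈ Set.Icc (2 * R) (6 * R)
        · have h2 : q.2 ∉ Set.Icc (-1 : ℝ) 1 := fun h2 => hq ⟨h1, h2⟩
          rw [hG1 _ (out1 _ h2), mul_zero]
        · rw [hX0 _ h1, zero_mul]
    have hft : tsupport f ⊆ Str 1 ∩ {q | 0 < q.1} := by
      have h1 : tsupport f ⊆ {q : ℝ × ℝ | 2 * R ≤ q.1} ∩ {q | ε ≤ g q.2} := by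
        refine closure_minimal ?_ ((isClosed_le continuous_const continuous_fst).inter
          (isClosed_le continuous_const (hgc.comp continuous_snd)))
        intro q hq
        constructor
        · by_contra hcon
          apply hq
          simp only [hf]
          rw [hX0 _ (fun h => hcon h.1), zero_mul]
        · by_contra hcon
          apply hq
          simp only [hf]
          rw [hG0 _ (not_le.1 hcon).le, mul_zero]
      intro q hq
      obtain ⟨h2, h3⟩ := h1 hq
      have h2' : 2 * R ≤ q.1 := h2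
      have h3' : ε ≤ g q.2 := h3
      refine ⟨?_, ?_⟩
      · show |q.2| < 1
        by_contra hcon
        have := hg1 _ (not_lt.1 hcon)
        linarith
      · show 0 < q.1
        linarith
    have hs := hst f hfs hfc hft
    have dfx : ∀ q, dx f q = deriv X q.1 * G q.2 := by
      intro q
      have h1 : DifferentiableAt ℝ f q := (hfs.differentiable (by simp)) q
      rw [dx_eq_deriv h1]
      simp only [hf]
      rw [deriv_mul_const ((hXs.differentiable (by simp)) _)]
    have dfy : ∀ q, dy f q = X q.1 * deriv G q.2 := by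
      intro q
      have h1 : DifferentiableAt ℝ f q := (hfs.differentiable (by simp)) q
      rw [dy_eq_deriv h1]
      simp only [hf]
      rw [deriv_const_mul _ ((hGs.differentiable (by simp)) _)]
    have e1' : (∫ q, pot1 b q.2 * f q ^ 2) = R * a0 * ∫ y, pot1 b y * G y ^ 2 := by
      have h1 := MeasureTheory.integral_prod_mul (μ := MeasureTheory.volume)
        (ν := MeasureTheory.volume) (fun x : ℝ => X x ^ 2) (fun y : ℝ => pot1 b y * G y ^ 2)
      rw [vX] at h1
      rw [← h1]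
      refine MeasureTheory.integral_congr_ae (Filter.Eventually.of_forall fun q => ?_)
      simp only [hf]
      ring
    have e2' : (∫ q, gdot f f q) = a1 / R * N + R * a0 * ∫ y, deriv G y ^ 2 := by
      have h1 := MeasureTheory.integral_prod_mul (μ := MeasureTheory.volume)
        (ν := MeasureTheory.volume) (fun x : ℝ => X x ^ 2) (fun y : ℝ => deriv G y ^ 2)
      have h2 := MeasureTheory.integral_prod_mul (μ := MeasureTheory.volume)
        (ν := MeasureTheory.volume) (fun x : ℝ => deriv X x ^ 2) (fun y : ℝ => G y ^ 2)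
      rw [vX] at h1
      rw [vX', ← hN] at h2
      rw [← h1, ← h2, ← MeasureTheory.integral_add (iX'.mul_prod iG) (iX.mul_prod iG')]
      refine MeasureTheory.integral_congr_ae (Filter.Eventually.of_forall fun q => ?_)
      simp only [gdot]
      rw [dfx, dfy]
      ring
    rw [e1', e2'] at hs
    have hRa : 0 < R * a0 := mul_pos hR ha0p
    have h5 := mul_le_mul_of_nonneg_left hQ' hRa.le
    nlinarith
  -- choose R
  set B : ℝ := a0 * ((c / 2) * P) with hB
  have hB0 : 0 < B := mul_pos ha0p (mul_pos (by positivity) hP0)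
  have hR0 : 0 < 1 + a1 * N / B := by positivity
  have h1 := key _ hR0
  have h2 : (1 + a1 * N / B) * B ≤ a1 / (1 + a1 * N / B) * N := by
    rw [hB]
    rw [hB] at h1
    linarith
  have h3 : a1 / (1 + a1 * N / B) * N ≤ a1 * N := by
    have h4 : a1 / (1 + a1 * N / B) ≤ a1 := by
      refine div_le_self ha1p ?_
      have : 0 ≤ a1 * N / B := by positivity
      linarith
    exact mul_le_mul_of_nonneg_right h4 hN0
  have h5 : (1 + a1 * N / B) * B = B + a1 * N := by
    field_simp
  linarith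

private theorem STK_lin {D : Set (ℝ × ℝ)} (hD : IsOpen D) {μ : ℝ} {v : ℝ × ℝ → ℝ}
    (hv : ContDiffOn ℝ ∞ v D) (heq : ∀ q ∈ D, -lap v q = μ * Real.exp (v q)) {q : ℝ × ℝ}
    (hq : q ∈ D) :
    lap (dx v) q = -(μ * Real.exp (v q) * dx v q) ∧
      lap (dy v) q = -(μ * Real.exp (v q) * dy v q) := by
  have h3 : ContDiffOn ℝ 3 v D := hv.of_le ENat.LEInfty.out
  have hd : DifferentiableAt ℝ v q :=
    (hv.contDiffAt (hD.mem_nhds hq)).differentiableAt (by simp)
  have hde : DifferentiableAt ℝ (fun z => Real.exp (v z)) q := hd.exp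
  have hl : ∀ z ∈ D, lap v z = (-μ) * Real.exp (v z) := fun z hz => by
    have := heq z hz
    linarith
  constructor
  · rw [lap_dx hD h3 hq, dx_congr hD hl hq, dx_const_mul _ hde,
      dx_comp hd Real.differentiableAt_exp, Real.deriv_exp]
    ring
  · rw [lap_dy hD h3 hq, dy_congr hD hl hq, dy_const_mul _ hde,
      dy_comp hd Real.differentiableAt_exp, Real.deriv_exp]
    ring

/-- comparison candidates -/
private structure STK_Cand (μ : ℝ) (v : ℝ × ℝ → ℝ) : Prop where
  mu_pos : 0 < μ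
  cont : Continuous v
  zero : ∀ q, q ∉ Str 1 → v q = 0
  smooth : ContDiffOn ℝ ∞ v (Str 1)
  eq : ∀ q ∈ Str 1, -lap v q = μ * Real.exp (v q)
  evx : EvX v
  evy : EvY v
  bdd : ∃ M : ℝ, ∀ q, |v q| ≤ M
  pos : ∀ q ∈ Str 1, 0 < v q
  sup : Super (Str 1) (fun q => μ * Real.exp (v q))

private theorem STK_super {μ : ℝ} {v : ℝ × ℝ → ℝ} (hv : ContDiffOn ℝ ∞ v (Str 1))
    (heq : ∀ q ∈ Str 1, -lap v q = μ * Real.exp (v q))
    (hx : ∀ q ∈ Str 1, 0 < q.1 → dx v q < 0) (hy : ∀ q ∈ Str 1, 0 < q.2 → dy v q < 0) :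
    Super (Str 1) (fun q => μ * Real.exp (v q)) := by
  have hdx : ContDiffOn ℝ 2 (dx v) (Str 1) :=
    (smooth_dx (STK_open 1) hv).of_le ENat.LEInfty.out
  have hdy : ContDiffOn ℝ 2 (dy v) (Str 1) :=
    (smooth_dy (STK_open 1) hv).of_le ENat.LEInfty.out
  refine ⟨⟨fun q => (-1) * dx v q, ?_, ?_⟩, ⟨fun q => (-1) * dy v q, ?_, ?_⟩⟩
  · exact contDiffOn_const.mul (hdx.mono Set.inter_subset_left)
  · intro q hq hq1
    refine ⟨by linarith [hx q hq hq1], ?_⟩
    rw [lap_const_mul (STK_open 1) (-1) hdx hq, (STK_lin (STK_open 1) hv heq hq).1]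
    linarith
  · exact contDiffOn_const.mul (hdy.mono Set.inter_subset_left)
  · intro q hq hq1
    refine ⟨by linarith [hy q hq hq1], ?_⟩
    rw [lap_const_mul (STK_open 1) (-1) hdy hq, (STK_lin (STK_open 1) hv heq hq).2]
    linarith

private theorem STK_nonneg {μ : ℝ} {v : ℝ × ℝ → ℝ} (h : STK_Cand μ v) (q : ℝ × ℝ) : 0 ≤ v q := by
  by_cases hq : q ∈ Str 1
  · exact (h.pos q hq).le
  · rw [h.zero q hq]

private theorem STK_cmp {μ₁ μ₂ : ℝ} {v₁ v₂ : ℝ × ℝ → ℝ} (h1 : STK_Cand μ₁ v₁)
    (h2 : STK_Cand μ₂ v₂) (hle : μ₁ ≤ μ₂) (h0 : v₁ (0, 0) = v₂ (0, 0)) :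
    μ₁ = μ₂ ∧ ∀ q, v₁ q = v₂ q := by
  set s : ℝ := √(μ₂ / μ₁) with hs
  have hm1 := h1.mu_pos
  have hm2 := h2.mu_pos
  have hs1 : 1 ≤ s := by
    rw [hs]
    exact Real.one_le_sqrt.2 ((one_le_div hm1).2 hle)
  have hs0 : 0 < s := by linarith
  have hs2 : s ^ 2 * μ₁ = μ₂ := by
    rw [hs, Real.sq_sqrt (by positivity)]
    field_simp
  have hL0 : 0 < 1 / s := by positivity
  have hL1 : 1 / s ≤ 1 := (div_le_one hs0).2 hs1
  have hsub : Str (1 / s) ⊆ Str 1 := fun q hq => by
    have h : |q.2| < 1 / s := hq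
    exact lt_of_lt_of_le h hL1
  have hmem : ∀ q : ℝ × ℝ, q ∈ Str (1 / s) ↔ (s * q.1, s * q.2) ∈ Str 1 := by
    intro q
    show |q.2| < 1 / s ↔ |s * q.2| < 1
    rw [abs_mul, abs_of_pos hs0, lt_div_iff₀ hs0, mul_comm]
  have hO := STK_open (1 / s)
  have hO1 := STK_open 1
  have hv1 : ContDiffOn ℝ 2 v₁ (Str 1) := h1.smooth.of_le ENat.LEInfty.out
  have hv2 : ContDiffOn ℝ 2 v₂ (Str 1) := h2.smooth.of_le ENat.LEInfty.out
  set vt : ℝ × ℝ → ℝ := fun q => v₁ (s * q.1, s * q.2) with hvt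
  have hsc : ContDiff ℝ 2 fun q : ℝ × ℝ => (s * q.1, s * q.2) := by fun_prop
  have hvtc : Continuous vt := h1.cont.comp hsc.continuous
  have hvts : ContDiffOn ℝ 2 vt (Str (1 / s)) :=
    hv1.comp hsc.contDiffOn fun q hq => (hmem q).1 hq
  have hvtz : ∀ q, q ∉ Str (1 / s) → vt q = 0 := fun q hq =>
    h1.zero _ fun h => hq ((hmem q).2 h)
  have hvte : ∀ q ∈ Str (1 / s), -lap vt q = μ₂ * Real.exp (vt q) := by
    intro q hq
    have h3 := h1.eq _ ((hmem q).1 hq)
    have h4 := lap_scale s hO1 hv1 ((hmem q).1 hq)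
    simp only [hvt]
    rw [h4, ← hs2]
    linear_combination s ^ 2 * h3
  have scale : ∀ (U : Set (ℝ × ℝ)) (_ : IsOpen U) (gx : ℝ × ℝ → ℝ) (_ : ContDiffOn ℝ 2 gx U)
      (q : ℝ × ℝ) (_ : q ∈ Str (1 / s)) (_ : (s * q.1, s * q.2) ∈ U)
      (_ : 0 < gx (s * q.1, s * q.2) ∧ μ₁ * Real.exp (v₁ (s * q.1, s * q.2)) *
        gx (s * q.1, s * q.2) ≤ -lap gx (s * q.1, s * q.2)),
      0 < gx (s * q.1, s * q.2) ∧ μ₂ * Real.exp (vt q) * gx (s * q.1, s * q.2) ≤
        -lap (fun z => gx (s * z.1, s * z.2)) q := by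
    intro U hU gx hgx q _ hqU hg
    refine ⟨hg.1, ?_⟩
    rw [lap_scale s hU hgx hqU, ← hs2]
    have h5 := mul_le_mul_of_nonneg_left hg.2 (sq_nonneg s)
    simp only [hvt]
    nlinarith
  have hst : Super (Str (1 / s)) (fun q => μ₂ * Real.exp (vt q)) := by
    obtain ⟨⟨gx, gx1, gx2⟩, ⟨gy, gy1, gy2⟩⟩ := h1.sup
    have hU1 : IsOpen (Str 1 ∩ {q : ℝ × ℝ | 0 < q.1}) :=
      hO1.inter (isOpen_lt continuous_const continuous_fst)
    have hU2 : IsOpen (Str 1 ∩ {q : ℝ × ℝ | 0 < q.2}) :=
      hO1.inter (isOpen_lt continuous_const continuous_snd)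
    refine ⟨⟨fun z => gx (s * z.1, s * z.2), ?_, ?_⟩, ⟨fun z => gy (s * z.1, s * z.2), ?_, ?_⟩⟩
    · refine gx1.comp hsc.contDiffOn fun q hq => ⟨(hmem q).1 hq.1, ?_⟩
      have h3 : 0 < q.1 := hq.2
      exact mul_pos hs0 h3
    · intro q hq hq1
      exact scale _ hU1 gx gx1 q hq ⟨(hmem q).1 hq, mul_pos hs0 hq1⟩
        (gx2 _ ((hmem q).1 hq) (mul_pos hs0 hq1))
    · refine gy1.comp hsc.contDiffOn fun q hq => ⟨(hmem q).1 hq.1, ?_⟩
      have h3 : 0 < q.2 := hq.2
      exact mul_pos hs0 h3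
    · intro q hq hq1
      exact scale _ hU2 gy gy1 q hq ⟨(hmem q).1 hq, mul_pos hs0 hq1⟩
        (gy2 _ ((hmem q).1 hq) (mul_pos hs0 hq1))
  have hs2' : Super (Str (1 / s)) (fun q => μ₂ * Real.exp (v₂ q)) := by
    obtain ⟨⟨gx, gx1, gx2⟩, ⟨gy, gy1, gy2⟩⟩ := h2.sup
    exact ⟨⟨gx, gx1.mono (Set.inter_subset_inter_left _ hsub), fun q hq => gx2 q (hsub hq)⟩,
      ⟨gy, gy1.mono (Set.inter_subset_inter_left _ hsub), fun q hq => gy2 q (hsub hq)⟩⟩
  obtain ⟨M1, hM1⟩ := h1.bdd
  obtain ⟨M2, hM2⟩ := h2.bdd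
  have main : ∀ q ∈ Str (1 / s), v₂ q = vt q := by
    refine hk_compare (solid_str hL0) (le_refl _ : Str (1 / s) ⊆ Str (1 / s)) (M := max M1 M2)
      hm2 (hv2.mono hsub) hvts h2.evx h2.evy ?_ ?_ (fun q _ => (hM2 q).trans (le_max_right _ _))
      (fun q _ => (hM1 _).trans (le_max_left _ _)) (fun q hq => h2.eq q (hsub hq)) hvte hs2' hst
      ?_ ?_
    · intro x y
      simp only [hvt, mul_neg]
      rw [h1.evx]
    · intro x y
      simp only [hvt, mul_neg]
      rw [h1.evy]
    · simp only [hvt, mul_zero]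
      exact h0.symm
    · intro ε hε
      have h3 : {q | q ∈ Str (1 / s) ∧ v₂ q ≤ vt q - ε} =
          {q : ℝ × ℝ | |q.2| ≤ 1 / s} ∩ {q | v₂ q ≤ vt q - ε} := by
        ext q
        constructor
        · rintro ⟨h4, h5⟩
          have h4' : |q.2| < 1 / s := h4
          exact ⟨h4'.le, h5⟩
        · rintro ⟨h4, h5⟩
          refine ⟨?_, h5⟩
          by_contra hcon
          have h5' : v₂ q ≤ vt q - ε := h5
          rw [hvtz q hcon] at h5'
          have := STK_nonneg h2 q
          linarith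
      rw [h3]
      exact (isClosed_le continuous_snd.abs continuous_const).inter
        (isClosed_le h2.cont (hvtc.sub continuous_const))
  have hseq : s = 1 := by
    by_contra hne
    have hs3 : 1 < s := lt_of_le_of_ne hs1 (Ne.symm hne)
    have hL2 : 1 / s < 1 := (div_lt_one hs0).2 hs3
    have h3 : vt (0, 1 / s) = 0 := hvtz _ fun h => by
      have h4 : |1 / s| < 1 / s := h
      rw [abs_of_pos hL0] at h4
      exact lt_irrefl _ h4
    have h4 : 0 < v₂ (0, 1 / s) := h2.pos _ (by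
      show |1 / s| < 1
      rw [abs_of_pos hL0]
      exact hL2)
    have h5 : v₂ (0, 1 / s) = vt (0, 1 / s) := by
      have hcl : IsClosed {r : ℝ | v₂ (0, r) = vt (0, r)} :=
        isClosed_eq (h2.cont.comp (by fun_prop)) (hvtc.comp (by fun_prop))
      have hIoo : Set.Ioo 0 (1 / s) ⊆ {r : ℝ | v₂ (0, r) = vt (0, r)} := fun r hr =>
        main (0, r) (by
          show |r| < 1 / s
          rw [abs_of_pos hr.1]
          exact hr.2)
      have h6 := closure_minimal hIoo hcl
      rw [closure_Ioo hL0.ne] at h6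
      exact h6 ⟨hL0.le, le_rfl⟩
    linarith
  have hμ : μ₁ = μ₂ := by
    rw [hseq] at hs2
    linarith
  refine ⟨hμ, fun q => ?_⟩
  by_cases hq : q ∈ Str 1
  · have h3 := main q (by
      have h4 : |q.2| < 1 := hq
      show |q.2| < 1 / s
      rw [hseq, div_one]
      exact h4)
    rw [h3]
    simp only [hvt]
    rw [hseq, one_mul, one_mul]
  · rw [h1.zero q hq, h2.zero q hq]

open Classical in
private theorem STK_one {a : ℝ} (ha : 0 < a) (ha' : a ≤ ast) :
    STK_Cand (mu1 a) (fun q => if |q.2| < 1 then V1 a q.2 else 0) := by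
  have hin : ∀ q ∈ Str 1, (fun q : ℝ × ℝ => if |q.2| < 1 then V1 a q.2 else 0) q =
      V1 a q.2 := fun q hq => if_pos hq
  have hsm : ContDiffOn ℝ ∞ (fun q : ℝ × ℝ => V1 a q.2) (Str 1) :=
    ((V1_smooth a).comp contDiff_snd).contDiffOn
  have hpos : ∀ q ∈ Str 1, 0 < V1 a q.2 := fun q hq => V1_pos ha hq
  have hle : ∀ y, |y| < 1 → V1 a y ≤ V1 a 0 := fun y _ =>
    V1_anti (by rw [abs_zero]; exact abs_nonneg _)
  have he : ∀ q ∈ Str 1, 0 < e1 a q.2 ∧
      mu1 a * Real.exp (if |q.2| < 1 then V1 a q.2 else 0) * e1 a q.2 ≤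
        -lap (fun z : ℝ × ℝ => e1 a z.2) q := by
    intro q hq
    have hq' : |q.2| < 1 := hq
    rw [if_pos hq', pot1_eq, lap_snd (e1 a) ((e1_smooth a).of_le ENat.LEInfty.out), e1_deriv2]
    refine ⟨?_, by linarith⟩
    rcases ha'.lt_or_eq with h | h
    · exact e1_pos ha h hq'.le
    · rw [h]; exact e1_ast_pos hq'
  have hes : ∀ U : Set (ℝ × ℝ), ContDiffOn ℝ 2 (fun q : ℝ × ℝ => e1 a q.2) U := fun U =>
    (((e1_smooth a).of_le ENat.LEInfty.out).comp contDiff_snd).contDiffOn
  refine ⟨mu1_pos ha, ?_, ?_, ?_, ?_, ?_, ?_, ?_, ?_, ?_⟩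
  · refine continuous_if ?_ ?_ continuousOn_const
    · intro q hq
      have h1 : |q.2| = 1 := by
        have h2 := frontier_lt_subset_eq (f := fun q : ℝ × ℝ => |q.2|) (g := fun _ => (1 : ℝ))
          continuous_snd.abs continuous_const hq
        exact h2
      rcases abs_eq (zero_le_one' ℝ) |>.1 h1 with h3 | h3
      · rw [h3, V1_one]
      · rw [h3, V1_even, V1_one]
    · exact ((V1_smooth a).continuous.comp continuous_snd).continuousOn
  · intro q hq
    exact if_neg hq
  · exact hsm.congr hin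
  · intro q hq
    rw [lap_congr (STK_open 1) hin hq, lap_snd (V1 a) ((V1_smooth a).of_le ENat.LEInfty.out),
      V1_deriv2, neg_neg]
    have hq' : |q.2| < 1 := hq
    rw [if_pos hq', pot1_eq]
  · intro x y
    rfl
  · intro x y
    simp only [abs_neg, V1_even]
  · refine ⟨V1 a 0, fun q => ?_⟩
    have h0 : 0 < V1 a 0 := V1_pos ha (by rw [abs_zero]; exact zero_lt_one)
    by_cases hq : |q.2| < 1
    · simp only [if_pos hq]
      rw [abs_of_pos (V1_pos ha hq)]
      exact hle _ hq
    · simp only [if_neg hq]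
      rw [abs_zero]
      exact h0.le
  · intro q hq
    have hq' : |q.2| < 1 := hq
    show 0 < (if |q.2| < 1 then V1 a q.2 else 0)
    rw [if_pos hq']
    exact V1_pos ha hq'
  · exact ⟨⟨fun q => e1 a q.2, hes _, fun q hq _ => he q hq⟩,
      ⟨fun q => e1 a q.2, hes _, fun q hq _ => he q hq⟩⟩

private theorem STK_bump {a k : ℝ} (h : Bump a k) : STK_Cand (mu1 a) (VB a k) := by
  refine ⟨mu1_pos h.a_pos, vb_cont h, fun q hq => if_neg hq, vb_smooth h, vb_eq h, vb_evx, vb_evy,
    ⟨pB a k, fun q => ?_⟩, vb_pos h, STK_super (vb_smooth h) (vb_eq h) (vb_dx_neg h)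
      (vb_dy_neg h)⟩
  have h1 := vb_le h q
  rw [abs_of_nonneg h1.1]
  exact h1.2

private theorem STK_both {μ₁ μ₂ : ℝ} {v₁ v₂ : ℝ × ℝ → ℝ} (h1 : STK_Cand μ₁ v₁)
    (h2 : STK_Cand μ₂ v₂) (h0 : v₁ (0, 0) = v₂ (0, 0)) :
    μ₁ = μ₂ ∧ ∀ q, v₁ q = v₂ q := by
  rcases le_total μ₁ μ₂ with h | h
  · exact STK_cmp h1 h2 h h0
  · obtain ⟨h3, h4⟩ := STK_cmp h2 h1 h h0.symm
    exact ⟨h3.symm, fun q => (h4 q).symm⟩

private theorem STK_convex_str : Convex ℝ (Str 1) := by
  intro p hp q hq a b ha hb hab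
  have hp' : |p.2| < 1 := hp
  have hq' : |q.2| < 1 := hq
  show |a * p.2 + b * q.2| < 1
  rw [abs_lt] at hp' hq' ⊢
  rcases ha.eq_or_lt with h | h
  · have hb1 : b = 1 := by linarith
    rw [← h, hb1]
    constructor <;> linarith [hq'.1, hq'.2]
  · constructor <;> nlinarith [hp'.1, hp'.2, hq'.1, hq'.2]

/-- the alternative for a strip solution -/
private theorem STK_alt {μ : ℝ} {v : ℝ × ℝ → ℝ} (h : StripSol μ v) :
    STK_Cand μ v ∨ ∃ b : ℝ, 0 < b ∧ μ = mu1 b ∧ v (0, 0) = 2 * Real.log (Real.cosh b) ∧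
      ∀ q ∈ Str 1, v q = V1 b q.2 := by
  have hO := STK_open 1
  obtain ⟨hsm, heq⟩ := reg_exp hO h.cont.continuousOn h.weak
  have hm := h.mu_pos
  have hd : ∀ q ∈ Str 1, DifferentiableAt ℝ v q := fun q hq =>
    (hsm.contDiffAt (hO.mem_nhds hq)).differentiableAt (by simp)
  have hnn : ∀ q, 0 ≤ v q := by
    intro q
    by_cases hq : q ∈ Str 1
    · have h1 : |q.2| < 1 := hq
      have h2 := h.anti_y q.1 q.2 1 (by rw [abs_one]; exact h1.le)
      rw [h.zero (q.1, 1) (fun h3 => by
        have h4 : |(1 : ℝ)| < 1 := h3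
        rw [abs_one] at h4
        exact lt_irrefl _ h4)] at h2
      exact h2
    · rw [h.zero q hq]
  have hdx0 : ∀ q ∈ Str 1, 0 < q.1 → dx v q ≤ 0 := by
    intro q hq hq1
    have h1 := hasDerivAt_dx (hd q hq)
    have h2 : AntitoneOn (fun s => v (s, q.2)) (Set.Ioi 0) := by
      intro s hs t ht hst
      have hs' : 0 < s := hs
      have ht' : 0 < t := ht
      exact h.anti_x s t q.2 (by rw [abs_of_pos hs', abs_of_pos ht']; exact hst)
    have h3 := h2.derivWithin_nonpos (x := q.1)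
    rw [derivWithin_of_isOpen isOpen_Ioi hq1, h1.deriv] at h3
    exact h3
  have hdy0 : ∀ q ∈ Str 1, 0 < q.2 → dy v q ≤ 0 := by
    intro q hq hq1
    have h1 := hasDerivAt_dy (hd q hq)
    have h2 : AntitoneOn (fun s => v (q.1, s)) (Set.Ioi 0) := by
      intro s hs t ht hst
      have hs' : 0 < s := hs
      have ht' : 0 < t := ht
      exact h.anti_y q.1 s t (by rw [abs_of_pos hs', abs_of_pos ht']; exact hst)
    have h3 := h2.derivWithin_nonpos (x := q.2)
    rw [derivWithin_of_isOpen isOpen_Ioi hq1, h1.deriv] at h3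
    exact h3
  have hsx : ContDiffOn ℝ ∞ (dx v) (Str 1) := smooth_dx hO hsm
  have hsy : ContDiffOn ℝ ∞ (dy v) (Str 1) := smooth_dy hO hsm
  have hx2 : ContDiffOn ℝ 2 (dx v) (Str 1) := hsx.of_le ENat.LEInfty.out
  have hy2 : ContDiffOn ℝ 2 (dy v) (Str 1) := hsy.of_le ENat.LEInfty.out
  -- strictness in `y`
  have hyneg : ∀ q ∈ Str 1, 0 < q.2 → dy v q < 0 := by
    intro q hq hq2
    refine lt_of_le_of_ne (hdy0 q hq hq2) fun hz => ?_
    have hU : IsOpen (Str 1 ∩ {q : ℝ × ℝ | 0 < q.2}) :=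
      hO.inter (isOpen_lt continuous_const continuous_snd)
    have hcv : Convex ℝ {q : ℝ × ℝ | 0 < q.2} := by
      intro p hp r hr a b ha hb hab
      have hp' : 0 < p.2 := hp
      have hr' : 0 < r.2 := hr
      show 0 < a * p.2 + b * r.2
      rcases ha.eq_or_lt with h | h
      · have hb1 : b = 1 := by linarith
        rw [← h, hb1]
        linarith
      · have := mul_pos h hp'
        have := mul_nonneg hb hr'.le
        linarith
    have hall := smp hU (STK_convex_str.inter hcv).isPreconnected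
      (f := fun z => (-1) * dy v z) (contDiffOn_const.mul (hy2.mono Set.inter_subset_left))
      (fun z hz => by
        have := hdy0 z hz.1 hz.2
        linarith)
      (fun z hz => by
        rw [lap_const_mul hO (-1) hy2 hz.1, (STK_lin hO hsm heq hz.1).2]
        have h1 := hdy0 z hz.1 hz.2
        have h2 : 0 < μ * Real.exp (v z) := mul_pos hm (Real.exp_pos _)
        nlinarith)
      (q₀ := q) ⟨hq, hq2⟩ (by rw [hz, mul_zero])
    -- `v (0, ·)` is constant on `(0, 1)`
    have hc0 : ContinuousOn (fun s => v (0, s)) (Set.Icc (0 : ℝ) 1) :=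
      (h.cont.comp (by fun_prop : Continuous fun s : ℝ => ((0 : ℝ), s))).continuousOn
    have hconst : ∀ s ∈ Set.Icc (0 : ℝ) 1, (fun s => v (0, s)) s = (fun s => v (0, s)) 0 := by
      refine constant_of_has_deriv_right_zero hc0 fun s hs => ?_
      rcases hs.1.eq_or_lt with h1 | h1
      · -- the derivative at zero vanishes by symmetry
        have hmem : ((0 : ℝ), (0 : ℝ)) ∈ Str 1 := by
          show |(0 : ℝ)| < 1
          rw [abs_zero]
          exact zero_lt_one
        have h2 := hasDerivAt_dy (hd _ hmem)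
        have h3 := dy_of_evy h.evy 0 0
        rw [neg_zero] at h3
        have h4 : dy v ((0 : ℝ), (0 : ℝ)) = 0 := by linarith
        rw [h4] at h2
        rw [← h1]
        exact h2.hasDerivWithinAt
      · have hmem : ((0 : ℝ), s) ∈ Str 1 := by
          show |s| < 1
          rw [abs_of_pos h1]
          exact hs.2
        have h2 := hasDerivAt_dy (hd _ hmem)
        have h3 := hall (0, s) ⟨hmem, h1⟩
        have h4 : dy v ((0 : ℝ), s) = 0 := by
          have h5 : (-1) * dy v ((0 : ℝ), s) = 0 := h3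
          linarith
        rw [h4] at h2
        exact h2.hasDerivWithinAt
    have h1 := hconst 1 ⟨zero_le_one, le_rfl⟩
    have h2 : v (0, 1) = 0 := h.zero _ fun h3 => by
      have h4 : |(1 : ℝ)| < 1 := h3
      rw [abs_one] at h4
      exact lt_irrefl _ h4
    have h3 : v (0, 1) = v (0, 0) := h1
    have h4 := h.pos
    linarith
  have hpos : ∀ q ∈ Str 1, 0 < v q := by
    intro q hq
    have hq' : |q.2| < 1 := hq
    have h1 : v q = v (q.1, |q.2|) := by
      rcases abs_choice q.2 with h2 | h2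
      · rw [h2]
      · rw [h2, h.evy]
    rw [h1]
    have h2 : StrictAntiOn (fun s => v (q.1, s)) (Set.Icc (0 : ℝ) 1) := by
      refine strictAntiOn_of_deriv_neg (convex_Icc _ _)
        (h.cont.comp (by fun_prop : Continuous fun s : ℝ => (q.1, s))).continuousOn fun s hs => ?_
      rw [interior_Icc] at hs
      have hmem : (q.1, s) ∈ Str 1 := by
        show |s| < 1
        rw [abs_of_pos hs.1]
        exact hs.2
      have h3 := dy_eq_deriv (hd _ hmem)
      have h4 := hyneg _ hmem hs.1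
      rw [h3] at h4
      exact h4
    have h3 := h2 ⟨abs_nonneg q.2, hq'.le⟩ ⟨zero_le_one, le_rfl⟩ hq'
    exact lt_of_le_of_lt (hnn (q.1, 1)) h3
  by_cases hcase : ∀ q ∈ Str 1, 0 < q.1 → dx v q < 0
  · left
    obtain ⟨M, hM⟩ := h.bdd
    exact ⟨hm, h.cont, h.zero, hsm, heq, h.evx, h.evy, ⟨M, hM⟩, hpos,
      STK_super hsm heq hcase hyneg⟩
  right
  have hex : ∃ q ∈ Str 1, 0 < q.1 ∧ dx v q = 0 := by
    by_contra hcon
    apply hcase
    intro q hq hq1
    refine lt_of_le_of_ne (hdx0 q hq hq1) fun h1 => hcon ⟨q, hq, hq1, h1⟩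
  obtain ⟨q₀, hq₀, hq₀1, hz⟩ := hex
  have hU : IsOpen (Str 1 ∩ {q : ℝ × ℝ | 0 < q.1}) :=
    hO.inter (isOpen_lt continuous_const continuous_fst)
  have hcv : Convex ℝ {q : ℝ × ℝ | 0 < q.1} := by
    intro p hp r hr a b ha hb hab
    have hp' : 0 < p.1 := hp
    have hr' : 0 < r.1 := hr
    show 0 < a * p.1 + b * r.1
    rcases ha.eq_or_lt with h | h
    · have hb1 : b = 1 := by linarith
      rw [← h, hb1]
      linarith
    · have := mul_pos h hp'
      have := mul_nonneg hb hr'.le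
      linarith
  have hall := smp hU (STK_convex_str.inter hcv).isPreconnected
    (f := fun z => (-1) * dx v z) (contDiffOn_const.mul (hx2.mono Set.inter_subset_left))
    (fun z hz => by
      have := hdx0 z hz.1 hz.2
      linarith)
    (fun z hz => by
      rw [lap_const_mul hO (-1) hx2 hz.1, (STK_lin hO hsm heq hz.1).1]
      have h1 := hdx0 z hz.1 hz.2
      have h2 : 0 < μ * Real.exp (v z) := mul_pos hm (Real.exp_pos _)
      nlinarith)
    (q₀ := q₀) ⟨hq₀, hq₀1⟩ (by rw [hz, mul_zero])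
  -- the `x` derivative vanishes everywhere
  have hdx : ∀ q ∈ Str 1, dx v q = 0 := by
    intro q hq
    have hq' : |q.2| < 1 := hq
    rcases lt_trichotomy q.1 0 with h1 | h1 | h1
    · have h2 : dx v (-q.1, q.2) = 0 := by
        have h3 := hall (-q.1, q.2) ⟨hq', by
          show 0 < -q.1
          linarith⟩
        have h5 : (-1) * dx v (-q.1, q.2) = 0 := h3
        linarith
      rw [dx_of_evx h.evx] at h2
      linarith
    · have h2 := dx_of_evx h.evx 0 q.2
      rw [neg_zero] at h2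
      have h3 : q = (0, q.2) := by rw [← h1]
      rw [h3]
      linarith
    · have h3 := hall q ⟨hq, h1⟩
      have h5 : (-1) * dx v q = 0 := h3
      linarith
  have hind : ∀ q ∈ Str 1, v q = v (0, q.2) := by
    intro q hq
    have hq' : |q.2| < 1 := hq
    have h1 : Differentiable ℝ fun s => v (s, q.2) := fun s =>
      (hasDerivAt_dx (f := v) (q := (s, q.2)) (hd (s, q.2) hq')).differentiableAt
    have h2 : ∀ s, deriv (fun s => v (s, q.2)) s = 0 := fun s => by
      rw [(hasDerivAt_dx (f := v) (q := (s, q.2)) (hd (s, q.2) hq')).deriv]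
      exact hdx (s, q.2) hq'
    exact is_const_of_deriv_eq_zero h1 h2 q.1 0
  set V : ℝ → ℝ := fun y => v (0, y) with hV
  have hmemI : ∀ y ∈ Set.Ioo (-1 : ℝ) 1, ((0 : ℝ), y) ∈ Str 1 := fun y hy =>
    abs_lt.2 ⟨hy.1, hy.2⟩
  have hVd : ∀ y ∈ Set.Ioo (-1 : ℝ) 1, deriv V y = dy v (0, y) := fun y hy =>
    (dy_eq_deriv (hd _ (hmemI y hy))).symm
  have hVdd : ∀ y ∈ Set.Ioo (-1 : ℝ) 1, deriv (deriv V) y = -(μ * Real.exp (V y)) := by
    intro y hy
    have h1 : deriv V =ᶠ[nhds y] fun s => dy v (0, s) := by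
      filter_upwards [isOpen_Ioo.mem_nhds hy] with s hs
      exact hVd s hs
    have h2 : DifferentiableAt ℝ (dy v) ((0 : ℝ), y) :=
      (hsy.contDiffAt (hO.mem_nhds (hmemI y hy))).differentiableAt (by simp)
    have h3 := dy_eq_deriv h2
    have h4 : dx (dx v) ((0 : ℝ), y) = 0 := by
      rw [dx_congr hO (g := fun _ => (0 : ℝ)) hdx (hmemI y hy)]
      simp [dx]
    have h5 := heq _ (hmemI y hy)
    unfold lap at h5
    rw [h4] at h5
    rw [h1.deriv_eq]
    have h6 : deriv (fun s => dy v (0, s)) y = dy (dy v) (0, y) := h3.symm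
    rw [h6]
    simp only [hV]
    linarith
  have hVs : ContDiffOn ℝ 2 V (Set.Ioo (-1) 1) := by
    have h1 : ContDiffOn ℝ 2 v (Str 1) := hsm.of_le ENat.LEInfty.out
    exact h1.comp (by fun_prop : ContDiff ℝ 2 fun s : ℝ => ((0 : ℝ), s)).contDiffOn hmemI
  have hV1 : V 1 = 0 := h.zero _ fun h3 => by
    have h4 : |(1 : ℝ)| < 1 := h3
    rw [abs_one] at h4
    exact lt_irrefl _ h4
  have hV0 : deriv V 0 = 0 := by
    rw [hVd 0 ⟨by norm_num, by norm_num⟩]
    have h3 := dy_of_evy h.evy 0 0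
    rw [neg_zero] at h3
    linarith
  have hVc : Continuous V := h.cont.comp (by fun_prop)
  obtain ⟨b, hb, hb1, hb2, hb3⟩ := ode1_bd hm hVc.continuousOn hVs hVdd hV0 hV1
  refine ⟨b, hb, hb1, hb2, fun q hq => ?_⟩
  have hq' : |q.2| < 1 := hq
  rw [hind q hq]
  exact hb3 _ ⟨(abs_lt.1 hq').1.le, (abs_lt.1 hq').2.le⟩

theorem strip_class_low {μ a : ℝ} {v : ℝ × ℝ → ℝ} (h : StripSol μ v) (ha : 0 < a)
    (ha' : a ≤ ast) (hp : v (0, 0) = 2 * Real.log (Real.cosh a)) :
    μ = mu1 a ∧ ∀ q ∈ Str 1, v q = V1 a q.2 := by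
  rcases STK_alt h with h1 | ⟨b, hb, hb1, hb2, hb3⟩
  · have h2 := STK_both h1 (STK_one ha ha') (by
      show v (0, 0) = if |(0 : ℝ)| < 1 then V1 a 0 else 0
      rw [if_pos (by rw [abs_zero]; exact zero_lt_one), V1_zero, hp])
    refine ⟨h2.1, fun q hq => ?_⟩
    rw [h2.2 q]
    exact if_pos hq
  · have hab : a = b := by
      rw [hp] at hb2
      rcases lt_trichotomy a b with h2 | h2 | h2
      · have := (amp1_lt ha hb).2 h2
        linarith
      · exact h2
      · have := (amp1_lt hb ha).2 h2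
        linarith
    rw [hab]
    exact ⟨hb1, hb3⟩

theorem strip_class_high {μ a k : ℝ} {v : ℝ × ℝ → ℝ} (h : StripSol μ v) (hb : Bump a k)
    (hp : v (0, 0) = pB a k) (hpst : pst < v (0, 0)) :
    μ = mu1 a ∧ ∀ q, v q = VB a k q := by
  rcases STK_alt h with h1 | ⟨b, hb, hb1, hb2, hb3⟩
  · exact STK_both h1 (STK_bump hb) (by rw [hp, vb_zero hb])
  · exfalso
    have hlt : ast < b := by
      rw [hb2] at hpst
      exact (amp1_lt ast_pos hb).1 hpst
    refine STK_unst hlt fun f hf hfc hft => ?_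
    refine le_trans (le_of_eq ?_) (h.stab f hf hfc hft)
    refine MeasureTheory.integral_congr_ae (Filter.Eventually.of_forall fun q => ?_)
    by_cases hq : q ∈ Str 1
    · simp only
      rw [hb3 q hq, hb1, pot1_eq]
    · have h2 : f q = 0 := image_eq_zero_of_notMem_tsupport fun h3 => hq (hft h3).1
      simp only
      rw [h2]
      ring

end Pool.Agent.MFE
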