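import Pool.Agent.MFE.BND
import Pool.Agent.MFE.CMP
import Pool.Agent.MFE.STK

/-!
# MFE.CONV: convergence to the strip solutions for bounded amplitude

`α n → 0`, `GSol (α n) (μ n) (v n)`, `v n (0,0) → p > 0`. The `μ n` stay in a compact subset of
`(0,∞)` (`gsol_mu_le`, `gsol_mu_ge`). Take any subsequence; along a further subsequence `μ n → μ₀ > 0`
and (`cmp_dir` with `x n = 0`) `v n → U` locally uniformly. `StripSol μ₀ U`: `weak` from `cmp_eq` with
`g n = μ n e^{v n}`; `evx`, `evy`, `anti_x`, `anti_y` are pointwise limits (`GSol.evx`, ...);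
`U(0) = p`; `stab`: a test function with support in `Str 1 ∩ {x > 0}` has its support in
`Ell (α n) ∩ {x > 0}` for large `n`; `gsol_stab` and uniform convergence on the support.
`strip_class_low`, `strip_class_high` identify `μ₀` and `U`, independently of the subsequence:
`locU_of_subseq`.
-/

open scoped ContDiff
open Filter Topology

namespace Pool.Agent.MFE

open Classical in
/-- the one dimensional profile, extended by zero -/
noncomputable def V1e (a : ℝ) (q : ℝ × ℝ) : ℝ := if |q.2| < 1 then V1 a q.2 else 0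

theorem v1e_cont (a : ℝ) : Continuous (V1e a) := by
  have h1 : V1e a = fun q => V1 a (max (-1) (min q.2 1)) := by
    funext q
    unfold V1e
    by_cases h : |q.2| < 1
    · rw [if_pos h]
      obtain ⟨h1, h2⟩ := abs_lt.1 h
      rw [min_eq_left h2.le, max_eq_right h1.le]
    · rw [if_neg h]
      rcases le_abs'.1 (not_lt.1 h) with h1 | h1
      · rw [min_eq_left (by linarith), max_eq_left h1, V1_even, V1_one]
      · rw [min_eq_right h1, max_eq_right (by norm_num), V1_one]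
  rw [h1]
  exact (V1_smooth a).continuous.comp
    (continuous_const.max (continuous_snd.min continuous_const))

private theorem ell_str {α : ℝ} {q : ℝ × ℝ} (hq : q ∈ Ell α) : q ∈ Str 1 := by
  have h1 : α ^ 2 * q.1 ^ 2 + q.2 ^ 2 < 1 := hq
  show |q.2| < 1
  rw [← sq_lt_one_iff_abs_lt_one]
  nlinarith [mul_nonneg (sq_nonneg α) (sq_nonneg q.1)]

private theorem locU_cont {f : ℕ → ℝ × ℝ → ℝ} {U : ℝ × ℝ → ℝ} (h : LocU f U)
    (hf : ∀ n, Continuous (f n)) : Continuous U := by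
  have h1 : TendstoLocallyUniformly f U atTop := by
    intro u hu x
    have h2 := h (max |x.1| |x.2| + 1) u hu
    refine ⟨Sq (0, 0) (max |x.1| |x.2| + 1), ?_, h2⟩
    have h3 : {q : ℝ × ℝ | |q.1| < max |x.1| |x.2| + 1 ∧ |q.2| < max |x.1| |x.2| + 1} ⊆
        Sq (0, 0) (max |x.1| |x.2| + 1) := by
      rintro q ⟨ha, hb⟩
      refine ⟨?_, ?_⟩
      · show |q.1 - 0| ≤ _
        rw [sub_zero]
        exact ha.le
      · show |q.2 - 0| ≤ _
        rw [sub_zero]
        exact hb.le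
    refine mem_of_superset (IsOpen.mem_nhds ?_ ?_) h3
    · exact (isOpen_lt continuous_fst.abs continuous_const).inter
        (isOpen_lt continuous_snd.abs continuous_const)
    · have h4 := le_max_left |x.1| |x.2|
      have h5 := le_max_right |x.1| |x.2|
      exact ⟨by linarith, by linarith⟩
  exact h1.continuous (Frequently.of_forall hf)

private theorem locU_const {m : ℕ → ℝ} {m₀ : ℝ} (h : Tendsto m atTop (𝓝 m₀)) :
    LocU (fun n _ => m n) (fun _ => m₀) := by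
  intro R
  rw [Metric.tendstoUniformlyOn_iff]
  intro ε hε
  filter_upwards [Metric.tendsto_nhds.1 h ε hε] with n hn q _
  rw [dist_comm]
  exact hn

private theorem sq_of_compact {K : Set (ℝ × ℝ)} (hK : IsCompact K) : ∃ R : ℝ, K ⊆ Sq (0, 0) R := by
  obtain ⟨R, hR⟩ := hK.isBounded.exists_norm_le
  refine ⟨R, fun q hq => ?_⟩
  have h1 := hR q hq
  rw [Prod.norm_def] at h1
  refine ⟨?_, ?_⟩
  · show |q.1 - 0| ≤ R
    rw [sub_zero]
    exact (le_max_left _ _).trans h1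
  · show |q.2 - 0| ≤ R
    rw [sub_zero]
    exact (le_max_right _ _).trans h1

/-- uniform bounds -/
private theorem unif_bd {α μ : ℕ → ℝ} {v : ℕ → ℝ × ℝ → ℝ} {p : ℝ}
    (hα : ∀ n, 0 < α n ∧ α n ≤ 1)
    (h : ∀ n, GSol (α n) (μ n) (v n)) (hp : Tendsto (fun n => v n (0, 0)) atTop (𝓝 p)) :
    ∃ M : ℝ, 0 < M ∧ (∀ n q, |v n q| ≤ M) ∧ ∀ n, μ n ≤ 4 * M := by
  obtain ⟨M, hM⟩ := hp.bddAbove_range
  have hM' : ∀ n, v n (0, 0) ≤ M := fun n => hM ⟨n, rfl⟩
  refine ⟨M, lt_of_lt_of_le (gsol_amp_pos (hα 0).1 (h 0)) (hM' 0), fun n q => ?_, fun n => ?_⟩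
  · exact (gsol_abs (hα n).1 (h n) q).trans (hM' n)
  · have := gsol_mu_le (hα n).1 (hα n).2 (h n)
    linarith [hM' n]

private theorem locU_rhs {α μ : ℕ → ℝ} {v : ℕ → ℝ × ℝ → ℝ} {μ₀ p : ℝ} {U : ℝ × ℝ → ℝ}
    (hα : ∀ n, 0 < α n ∧ α n ≤ 1)
    (h : ∀ n, GSol (α n) (μ n) (v n)) (hp : Tendsto (fun n => v n (0, 0)) atTop (𝓝 p))
    (hμ : Tendsto μ atTop (𝓝 μ₀)) (hU : LocU v U) :
    LocU (fun n q => μ n * Real.exp (v n q)) (fun q => μ₀ * Real.exp (U q)) := by
  obtain ⟨M, hM0, hM, hμM⟩ := unif_bd hα h hp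
  have hUM : ∀ q, |U q| ≤ M := fun q =>
    le_of_tendsto' (locU_tendsto hU q).abs fun n => hM n q
  have h1 := locU_exp hU hM hUM
  have hexp : ∀ q, |Real.exp (U q)| ≤ Real.exp M + 4 * M := by
    intro q
    rw [abs_of_pos (Real.exp_pos _)]
    have := Real.exp_le_exp.2 (le_of_abs_le (hUM q))
    linarith
  refine locU_mul (M := Real.exp M + 4 * M) (locU_const hμ) h1 (fun n q => ?_) hexp
  rw [abs_of_pos (h n).mu_pos]
  have := Real.exp_pos M
  linarith [hμM n]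

theorem strip_limit {α μ : ℕ → ℝ} {v : ℕ → ℝ × ℝ → ℝ} {μ₀ p : ℝ} {U : ℝ × ℝ → ℝ}
    (hα : ∀ n, 0 < α n ∧ α n ≤ 1) (hα0 : Tendsto α atTop (𝓝 0))
    (h : ∀ n, GSol (α n) (μ n) (v n)) (hp : Tendsto (fun n => v n (0, 0)) atTop (𝓝 p))
    (hp0 : 0 < p) (hμ : Tendsto μ atTop (𝓝 μ₀)) (hU : LocU v U) : StripSol μ₀ U := by
  obtain ⟨M, hM0, hM, hμM⟩ := unif_bd hα h hp
  have hpt := locU_tendsto hU
  have hUM : ∀ q, |U q| ≤ M := fun q => le_of_tendsto' (hpt q).abs fun n => hM n q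
  have hU0 : U (0, 0) = p := tendsto_nhds_unique (hpt (0, 0)) hp
  have hUc : Continuous U := locU_cont hU fun n => (h n).cont
  have hmu : 0 < μ₀ := by
    have h1 : Tendsto (fun n => 2 * v n (0, 0) * Real.exp (-v n (0, 0))) atTop
        (𝓝 (2 * p * Real.exp (-p))) :=
      (hp.const_mul 2).mul (Real.continuous_exp.continuousAt.tendsto.comp hp.neg)
    have h2 := le_of_tendsto_of_tendsto' h1 hμ fun n => gsol_mu_ge (hα n).1 (hα n).2 (h n)
    have h3 : 0 < 2 * p * Real.exp (-p) := by positivity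
    linarith
  refine ⟨hmu, hUc, ⟨M, hUM⟩, fun q hq => ?_, ?_, fun x y => ?_, fun x y => ?_,
    fun x x' y hx => ?_, fun x y y' hy => ?_, ?_, fun f hf hfc hfs => ?_⟩
  · refine tendsto_nhds_unique (hpt q) ?_
    have : (fun n => v n q) = fun _ => 0 := by
      funext n
      exact (h n).zero q fun hq' => hq (ell_str hq')
    rw [this]
    exact tendsto_const_nhds
  · have e0 : ∀ g : ℕ → ℝ × ℝ → ℝ, (fun n q => g n ((fun _ : ℕ => (0 : ℝ)) n + q.1, q.2)) = g := by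
      intro g
      funext n q
      rw [zero_add]
    refine cmp_eq (α := α) (x := fun _ => 0) (f := v) (g := fun n q => μ n * Real.exp (v n q))
      hα hα0 (by simp) (fun n => (continuous_const.mul (h n).cont.rexp).continuousOn)
      (fun n => gsol_dir (h n)) (by rw [e0]; exact hU) ?_
    intro K _ hK
    rw [e0 fun n q => μ n * Real.exp (v n q)]
    obtain ⟨R, hR⟩ := sq_of_compact hK
    exact (locU_rhs hα h hp hμ hU R).mono hR
  · refine tendsto_nhds_unique (hpt (-x, y)) ?_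
    have : (fun n => v n (-x, y)) = fun n => v n (x, y) := by
      funext n
      exact (h n).evx (hα n).1 x y
    rw [this]
    exact hpt (x, y)
  · refine tendsto_nhds_unique (hpt (x, -y)) ?_
    have : (fun n => v n (x, -y)) = fun n => v n (x, y) := by
      funext n
      exact (h n).evy (hα n).1 x y
    rw [this]
    exact hpt (x, y)
  · exact le_of_tendsto_of_tendsto' (hpt _) (hpt _) fun n => (h n).anti_x (hα n).1 hx
  · exact le_of_tendsto_of_tendsto' (hpt _) (hpt _) fun n => (h n).anti_y (hα n).1 hy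
  · rw [hU0]
    exact hp0
  · -- half stability
    have hsub : ∀ᶠ n in atTop, tsupport f ⊆ Ell (α n) ∩ {q | 0 < q.1} := by
      have hK : IsCompact (tsupport f) := hfc
      obtain ⟨R, hR⟩ := sq_of_compact hK
      obtain ⟨r, hr1, hr⟩ : ∃ r : ℝ, r < 1 ∧ ∀ q ∈ tsupport f, |q.2| ≤ r := by
        rcases (tsupport f).eq_empty_or_nonempty with he | hne
        · exact ⟨0, one_pos, fun q hq => by rw [he] at hq; exact absurd hq (by simp)⟩
        · obtain ⟨q₀, hq₀, hm⟩ := hK.exists_isMaxOn hne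
            (continuous_snd.abs : Continuous fun q : ℝ × ℝ => |q.2|).continuousOn
          exact ⟨|q₀.2|, (hfs hq₀).1, fun q hq => hm hq⟩
      have hlim : Tendsto (fun n => α n ^ 2 * R ^ 2 + r ^ 2) atTop (𝓝 (0 ^ 2 * R ^ 2 + r ^ 2)) :=
        ((hα0.pow 2).mul_const _).add_const _
      rcases (tsupport f).eq_empty_or_nonempty with he | ⟨q₁, hq₁⟩
      · rw [he]
        exact Eventually.of_forall fun n => Set.empty_subset _
      · have hr0 : 0 ≤ r := (abs_nonneg _).trans (hr q₁ hq₁)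
        have hlt : (0 : ℝ) ^ 2 * R ^ 2 + r ^ 2 < 1 := by
          have : r ^ 2 < 1 := by nlinarith
          simpa using this
        filter_upwards [hlim.eventually (gt_mem_nhds hlt)] with n hn q hq
        refine ⟨?_, (hfs hq).2⟩
        show α n ^ 2 * q.1 ^ 2 + q.2 ^ 2 < 1
        have h1 : |q.1 - 0| ≤ R := (hR hq).1
        rw [sub_zero] at h1
        have h2 : q.1 ^ 2 ≤ R ^ 2 := by
          rw [← sq_abs q.1]
          exact pow_le_pow_left₀ (abs_nonneg _) h1 2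
        have h3 : q.2 ^ 2 ≤ r ^ 2 := by
          rw [← sq_abs q.2]
          exact pow_le_pow_left₀ (abs_nonneg _) (hr q hq) 2
        have h4 := mul_le_mul_of_nonneg_left h2 (sq_nonneg (α n))
        linarith
    have hlim : Tendsto (fun n => ∫ q, μ n * Real.exp (v n q) * f q ^ 2) atTop
        (𝓝 (∫ q, μ₀ * Real.exp (U q) * f q ^ 2)) := by
      refine MeasureTheory.tendsto_integral_of_dominated_convergence
        (fun q => 4 * M * Real.exp M * f q ^ 2) (fun n => ?_) ?_ (fun n => ?_) ?_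
      · exact ((continuous_const.mul (h n).cont.rexp).mul
          (hf.continuous.pow 2)).aestronglyMeasurable
      · refine Continuous.integrable_of_hasCompactSupport
          (continuous_const.mul (hf.continuous.pow 2)) ?_
        refine hfc.mono' ?_
        intro q hq
        have : f q ≠ 0 := by
          intro h0
          apply hq
          show 4 * M * Real.exp M * f q ^ 2 = 0
          rw [h0]
          ring
        exact subset_tsupport f this
      · refine Eventually.of_forall fun q => ?_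
        rw [Real.norm_eq_abs, abs_of_nonneg (mul_nonneg (mul_nonneg (h n).mu_pos.le
          (Real.exp_pos _).le) (sq_nonneg _))]
        refine mul_le_mul_of_nonneg_right ?_ (sq_nonneg _)
        exact mul_le_mul (hμM n) (Real.exp_le_exp.2 (le_of_abs_le (hM n q)))
          (Real.exp_pos _).le (by linarith)
      · refine Eventually.of_forall fun q => ?_
        exact (locU_tendsto (locU_rhs hα h hp hμ hU) q).mul_const _
    refine le_of_tendsto hlim ?_
    filter_upwards [hsub] with n hn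
    exact gsol_stab (hα n).1 (h n) hf hfc hn

private theorem sub_lim {α μ : ℕ → ℝ} {v : ℕ → ℝ × ℝ → ℝ} {p : ℝ}
    (hα : ∀ n, 0 < α n ∧ α n ≤ 1) (hα0 : Tendsto α atTop (𝓝 0))
    (h : ∀ n, GSol (α n) (μ n) (v n)) (hp : Tendsto (fun n => v n (0, 0)) atTop (𝓝 p))
    (hp0 : 0 < p) : ∃ (ψ : ℕ → ℕ) (μ₀ : ℝ) (U : ℝ × ℝ → ℝ), StrictMono ψ ∧ StripSol μ₀ U ∧
      U (0, 0) = p ∧ Tendsto (fun n => μ (ψ n)) atTop (𝓝 μ₀) ∧ LocU (fun n => v (ψ n)) U := by
  obtain ⟨M, hM0, hM, hμM⟩ := unif_bd hα h hp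
  obtain ⟨μ₀, -, ψ₁, hψ₁, hμ₁⟩ := (isCompact_Icc (a := (0 : ℝ)) (b := 4 * M)).tendsto_subseq
    (x := μ) (fun n => ⟨(h n).mu_pos.le, hμM n⟩)
  have e0 : ∀ g : ℕ → ℝ × ℝ → ℝ, (fun n q => g n ((fun _ : ℕ => (0 : ℝ)) n + q.1, q.2)) = g := by
    intro g
    funext n q
    rw [zero_add]
  obtain ⟨ψ₂, U, hψ₂, -, -, -, -, hU⟩ := cmp_dir (α := fun n => α (ψ₁ n)) (x := fun _ => 0)
    (f := fun n => v (ψ₁ n)) (g := fun n q => μ (ψ₁ n) * Real.exp (v (ψ₁ n) q)) (M := M)
    (C := 4 * M * Real.exp M) (fun n => hα _)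
    (fun n => (continuous_const.mul (h _).cont.rexp).continuousOn)
    (fun n q _ => by
      rw [abs_of_pos (mul_pos (h _).mu_pos (Real.exp_pos _))]
      exact mul_le_mul (hμM _) (Real.exp_le_exp.2 (le_of_abs_le (hM _ q)))
          (Real.exp_pos _).le (by linarith))
    (fun n => gsol_dir (h _)) (fun n q => hM _ q)
  have hU' : LocU (fun n => v (ψ₁ (ψ₂ n))) U := by
    have := e0 fun n => v (ψ₁ (ψ₂ n))
    rw [← this]
    exact hU
  have ht : Tendsto (fun n => ψ₁ (ψ₂ n)) atTop atTop :=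
    hψ₁.tendsto_atTop.comp hψ₂.tendsto_atTop
  have hμ' : Tendsto (fun n => μ (ψ₁ (ψ₂ n))) atTop (𝓝 μ₀) := hμ₁.comp hψ₂.tendsto_atTop
  have hp' : Tendsto (fun n => v (ψ₁ (ψ₂ n)) (0, 0)) atTop (𝓝 p) := hp.comp ht
  refine ⟨fun n => ψ₁ (ψ₂ n), μ₀, U, hψ₁.comp hψ₂, ?_, tendsto_nhds_unique
    (locU_tendsto hU' (0, 0)) hp', hμ', hU'⟩
  exact strip_limit (α := fun n => α (ψ₁ (ψ₂ n))) (μ := fun n => μ (ψ₁ (ψ₂ n)))
    (fun n => hα _) (hα0.comp ht) (fun n => h _) hp' hp0 hμ' hU'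

private theorem conv_gen {α μ : ℕ → ℝ} {v : ℕ → ℝ × ℝ → ℝ} {p m : ℝ} {W : ℝ × ℝ → ℝ}
    (hα : ∀ n, 0 < α n ∧ α n ≤ 1) (hα0 : Tendsto α atTop (𝓝 0))
    (h : ∀ n, GSol (α n) (μ n) (v n)) (hp : Tendsto (fun n => v n (0, 0)) atTop (𝓝 p))
    (hp0 : 0 < p) (hcl : ∀ (μ₀ : ℝ) (U : ℝ × ℝ → ℝ), StripSol μ₀ U → U (0, 0) = p →
      μ₀ = m ∧ U = W) : Tendsto μ atTop (𝓝 m) ∧ LocU v W := by
  constructor
  · refine tendsto_of_subseq_tendsto fun ns hns => ?_
    obtain ⟨ψ, μ₀, U, hψ, hS, hU0, hμ, -⟩ := sub_lim (α := fun n => α (ns n))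
      (μ := fun n => μ (ns n)) (v := fun n => v (ns n)) (fun n => hα _) (hα0.comp hns)
      (fun n => h _) (hp.comp hns) hp0
    obtain ⟨rfl, -⟩ := hcl _ _ hS hU0
    exact ⟨ψ, hμ⟩
  · refine locU_of_subseq fun ns hns => ?_
    obtain ⟨ψ, μ₀, U, hψ, hS, hU0, hμ, hU⟩ := sub_lim (α := fun n => α (ns n))
      (μ := fun n => μ (ns n)) (v := fun n => v (ns n)) (fun n => hα _)
      (hα0.comp hns.tendsto_atTop) (fun n => h _) (hp.comp hns.tendsto_atTop) hp0
    obtain ⟨-, rfl⟩ := hcl _ _ hS hU0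
    exact ⟨ψ, hψ, hU⟩

theorem conv_low {α μ : ℕ → ℝ} {v : ℕ → ℝ × ℝ → ℝ} {a : ℝ}
    (hα : ∀ n, 0 < α n ∧ α n ≤ 1) (hα0 : Tendsto α atTop (𝓝 0))
    (h : ∀ n, GSol (α n) (μ n) (v n)) (ha : 0 < a) (ha' : a ≤ ast)
    (hp : Tendsto (fun n => v n (0, 0)) atTop (𝓝 (2 * Real.log (Real.cosh a)))) :
    Tendsto μ atTop (𝓝 (mu1 a)) ∧ LocU v (V1e a) := by
  have hp0 : 0 < 2 * Real.log (Real.cosh a) := by
    have := Real.log_pos (Real.one_lt_cosh.2 ha.ne')
    linarith
  refine conv_gen hα hα0 h hp hp0 fun μ₀ U hS hU0 => ?_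
  obtain ⟨h1, h2⟩ := strip_class_low hS ha ha' hU0
  refine ⟨h1, ?_⟩
  funext q
  unfold V1e
  by_cases hq : |q.2| < 1
  · rw [if_pos hq]
    exact h2 q hq
  · rw [if_neg hq]
    exact hS.zero q hq

theorem conv_high {α μ : ℕ → ℝ} {v : ℕ → ℝ × ℝ → ℝ} {a k : ℝ}
    (hα : ∀ n, 0 < α n ∧ α n ≤ 1) (hα0 : Tendsto α atTop (𝓝 0))
    (h : ∀ n, GSol (α n) (μ n) (v n)) (hb : Bump a k) (hpst : pst < pB a k)
    (hp : Tendsto (fun n => v n (0, 0)) atTop (𝓝 (pB a k))) :
    Tendsto μ atTop (𝓝 (mu1 a)) ∧ LocU v (VB a k) := by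
  refine conv_gen hα hα0 h hp (pst_pos.trans hpst) fun μ₀ U hS hU0 => ?_
  obtain ⟨h1, h2⟩ := strip_class_high hS hb hU0 (by rw [hU0]; exact hpst)
  exact ⟨h1, funext h2⟩

end Pool.Agent.MFE
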