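import Pool.Agent.MFE.IFT

/-!
# MFE.CRV: the global solution curve

`amp_bounds`: `v = μ K e^v` and `1 ≤ e^v ≤ e^p`: by `dir_le` with the explicit solution
`wE/(2(1+α²))` of the problem with right side `1` (`dir_of_c2`):
`μ/(2(1+α²)) ≤ p ≤ μ e^p/(2(1+α²))`.
`gsol_ex`: the set `S` of `p > 0` for which a solution with `v(0) = p` exists is non-empty and open
(`local_curve`; at `(0,0)`: for `p > 0` small, `V p = M p K (E (V p))`, `K (E ·) > 0` at the origin, so
`M p > 0`; `fix_gsol`), and closed in `(0,∞)`: `p_n → p > 0`, `μ_n` bounded and bounded below by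
`amp_bounds`, `μ_n → μ > 0` along a subsequence; `E (v_n)` is bounded, so `K (E v_n)` converges
along a further subsequence (compactness), `v_n → v`, `v = μ K (E v)`, `v(0) = p`.
Connectedness of `(0,∞)`.
`curve`: for `p > 0` let `(M p, V p)` be the unique solution (`amp_unique`), for `p ≤ 0` the local
curve through `(0,0)`. Smooth, since it agrees with local curves by uniqueness.
-/

open scoped ContDiff BoundedContinuousFunction

namespace Pool.Agent.MFE

open Filter Topology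

private theorem CRV_K_nonneg {α : ℝ} (hα : 0 < α) {K : BF →L[ℝ] BF} (hK : IsKop α K)
    {f : BF} (hf : ∀ q, 0 ≤ f q) (q : ℝ × ℝ) : 0 ≤ K f q := by
  have h0 : Dir α (fun _ => (0 : ℝ)) (fun _ => (0 : ℝ)) := by
    have := dir_smul 0 (IFT_one α)
    have e1 : (fun _ : ℝ × ℝ => (0 : ℝ) * 1) = fun _ => (0 : ℝ) := by
      funext q; ring
    have e2 : (fun q : ℝ × ℝ => (0 : ℝ) * (1 / (2 * (1 + α ^ 2)) * max (wE α q) 0)) =
        fun _ => (0 : ℝ) := by
      funext q; ring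
    rwa [e1, e2] at this
  have hcs : Continuous (sym4 f) := by
    unfold sym4
    have := f.continuous
    fun_prop
  refine dir_le hα continuousOn_const hcs.continuousOn h0 (hK.dir f) (fun z _ => ?_) q
  unfold sym4
  have a1 := hf (z.1, z.2)
  have a2 := hf (-z.1, z.2)
  have a3 := hf (z.1, -z.2)
  have a4 := hf (-z.1, -z.2)
  positivity

private theorem CRV_E_pos {E : BF → BF} (hE : IsExp E) (f : BF) (q : ℝ × ℝ) : 0 ≤ E f q := by
  rw [hE]
  exact (Real.exp_pos _).le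

private theorem CRV_small {α : ℝ} (hα : 0 < α) (hα1 : α ≤ 1) {K : BF →L[ℝ] BF}
    (hK : IsKop α K) {E : BF → BF} (hE : IsExp E) {p m : ℝ} (hp : 0 < p) {V : BF}
    (h1 : V = m • K (E V)) (h2 : V (0, 0) = p) : GSol α m V := by
  have h3 : p = m * K (E V) (0, 0) := by
    rw [← h2]
    conv_lhs => rw [h1]
    rfl
  have h4 := CRV_K_nonneg hα hK (CRV_E_pos hE V) (0, 0)
  have hm : 0 < m := by
    by_contra hcon
    push Not at hcon
    have : m * K (E V) (0, 0) ≤ 0 := mul_nonpos_of_nonpos_of_nonneg hcon h4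
    linarith
  exact (fix_gsol hα hα1 hm hK hE V).1 h1

theorem amp_bounds {α μ : ℝ} (hα : 0 < α) (hα1 : α ≤ 1) {v : ℝ × ℝ → ℝ} (h : GSol α μ v) :
    μ / (2 * (1 + α ^ 2)) ≤ v (0, 0) ∧ v (0, 0) ≤ μ * Real.exp (v (0, 0)) / (2 * (1 + α ^ 2)) := by
  have hpos : (0 : ℝ) < 2 * (1 + α ^ 2) := by positivity
  have hmu := h.mu_pos
  have hd := gsol_dir h
  have hcv : ContinuousOn (fun q => μ * Real.exp (v q)) (CEll α) :=
    (continuous_const.mul (Real.continuous_exp.comp h.cont)).continuousOn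
  have hnn := GSol.nonneg hα h
  have hmax := GSol.le_max hα h
  have hw : max (wE α (0, 0)) 0 = 1 := by simp [wE]
  constructor
  · have h1 := dir_le hα (f₁ := fun _ => μ * 1) continuousOn_const hcv
      (dir_smul μ (IFT_one α)) hd (fun q _ => by
        have : 1 ≤ Real.exp (v q) := Real.one_le_exp (hnn q)
        gcongr) (0, 0)
    rw [hw] at h1
    calc μ / (2 * (1 + α ^ 2)) = μ * (1 / (2 * (1 + α ^ 2)) * 1) := by ring
      _ ≤ v (0, 0) := h1
  · have h1 := dir_le hα (f₂ := fun _ => (μ * Real.exp (v (0, 0))) * 1) hcv continuousOn_const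
      hd (dir_smul (μ * Real.exp (v (0, 0))) (IFT_one α)) (fun q _ => by
        rw [mul_one]
        have := Real.exp_le_exp.2 (hmax q)
        gcongr) (0, 0)
    rw [hw] at h1
    calc v (0, 0) ≤ μ * Real.exp (v (0, 0)) * (1 / (2 * (1 + α ^ 2)) * 1) := h1
      _ = μ * Real.exp (v (0, 0)) / (2 * (1 + α ^ 2)) := by ring

theorem gsol_ex {α : ℝ} (hα : 0 < α) (hα1 : α ≤ 1) (p : ℝ) (hp : 0 < p) :
    ∃ (μ : ℝ) (v : ℝ × ℝ → ℝ), GSol α μ v ∧ v (0, 0) = p := by
  obtain ⟨K, hK⟩ := kop_exists hα hα1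
  obtain ⟨E, hE, hEs, -⟩ := exp_exists
  set S : Set ℝ := {p | 0 < p ∧ ∃ (μ : ℝ) (v : ℝ × ℝ → ℝ), GSol α μ v ∧ v (0, 0) = p} with hS
  have hopen : IsOpen S := by
    rw [isOpen_iff_mem_nhds]
    rintro p₀ ⟨hp₀, μ, v, hv, hv0⟩
    obtain ⟨V₀, hV₀⟩ := gsol_bf hα hα1 hv
    have hVv : (V₀ : ℝ × ℝ → ℝ) = v := funext hV₀
    have hg : GSol α μ V₀ := by rw [hVv]; exact hv
    have h00 : V₀ (0, 0) = p₀ := by rw [hV₀, hv0]
    obtain ⟨ε, M, V, hε, _, _, _, _, hc⟩ := local_curve hα hα1 hK hE (Or.inl hg)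
    rw [h00] at hc
    filter_upwards [Ioo_mem_nhds (show p₀ - ε < p₀ by linarith) (show p₀ < p₀ + ε by linarith),
      Ioi_mem_nhds hp₀] with p hp hp'
    obtain ⟨c1, c2⟩ := hc p hp
    exact ⟨hp', M p, V p, CRV_small hα hα1 hK hE hp' c1 c2, c2⟩
  have hcl : ∀ p, 0 < p → (∀ U ∈ 𝓝 p, (U ∩ S).Nonempty) → p ∈ S := by
    intro p hp hU
    have hseq : ∀ n : ℕ, ∃ pn : ℝ, pn ∈ S ∧ |pn - p| < 1 / ((n : ℝ) + 1) ∧ p / 2 < pn ∧
        pn < 2 * p := by
      intro n
      have hb : Metric.ball p (1 / ((n : ℝ) + 1)) ∩ Set.Ioo (p / 2) (2 * p) ∈ 𝓝 p :=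
        inter_mem (Metric.ball_mem_nhds p (by positivity))
          (Ioo_mem_nhds (by linarith) (by linarith))
      obtain ⟨pn, ⟨h1, h2⟩, h3⟩ := hU _ hb
      exact ⟨pn, h3, by rwa [Metric.mem_ball, Real.dist_eq] at h1, h2.1, h2.2⟩
    choose pn hpS hpd hplo hphi using hseq
    choose _ μn vn hvn hvn0 using hpS
    have hbf : ∀ n, ∃ V : BF, ∀ q, V q = vn n q := fun n => gsol_bf hα hα1 (hvn n)
    choose Vn hVn using hbf
    have hVg : ∀ n, GSol α (μn n) (Vn n) := fun n => by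
      have : (Vn n : ℝ × ℝ → ℝ) = vn n := funext (hVn n)
      rw [this]; exact hvn n
    have hV0 : ∀ n, Vn n (0, 0) = pn n := fun n => by rw [hVn, hvn0]
    have hfix : ∀ n, Vn n = μn n • K (E (Vn n)) := fun n =>
      (fix_gsol hα hα1 (hVg n).mu_pos hK hE (Vn n)).2 (hVg n)
    have hbound : ∀ n, ‖E (Vn n)‖ ≤ Real.exp (2 * p) := by
      intro n
      rw [BoundedContinuousFunction.norm_le (Real.exp_pos _).le]
      intro q
      rw [hE, Real.norm_eq_abs, abs_of_pos (Real.exp_pos _)]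
      refine Real.exp_le_exp.2 (((hVg n).le_max hα q).trans ?_)
      rw [hV0 n]
      exact (hphi n).le
    have hcomp := hK.comp.isCompact_closure_image_closedBall (f := (K : BF →ₗ[ℝ] BF))
      (Real.exp (2 * p))
    have hab := fun n => amp_bounds hα hα1 (hVg n)
    have hden : (0 : ℝ) < 2 * (1 + α ^ 2) := by positivity
    have hmu1 : ∀ n, μn n ≤ 2 * (1 + α ^ 2) * (2 * p) := by
      intro n
      have h1 := (hab n).1
      rw [hV0 n, div_le_iff₀ hden] at h1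
      have h2 := (hphi n).le
      nlinarith
    have hmu2 : ∀ n, 2 * (1 + α ^ 2) * (p / 2) * Real.exp (-(2 * p)) ≤ μn n := by
      intro n
      have h1 := (hab n).2
      rw [hV0 n, le_div_iff₀ hden] at h1
      have h2 := (hplo n).le
      have h3 : Real.exp (pn n) ≤ Real.exp (2 * p) := Real.exp_le_exp.2 (hphi n).le
      have h4 : μn n * Real.exp (pn n) ≤ μn n * Real.exp (2 * p) :=
        mul_le_mul_of_nonneg_left h3 (hVg n).mu_pos.le
      have h5 : Real.exp (2 * p) * Real.exp (-(2 * p)) = 1 := by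
        rw [← Real.exp_add]; simp
      have h6 : 0 < Real.exp (-(2 * p)) := Real.exp_pos _
      have h7 : p / 2 * (2 * (1 + α ^ 2)) ≤ μn n * Real.exp (2 * p) := by nlinarith
      calc 2 * (1 + α ^ 2) * (p / 2) * Real.exp (-(2 * p))
          = p / 2 * (2 * (1 + α ^ 2)) * Real.exp (-(2 * p)) := by ring
        _ ≤ μn n * Real.exp (2 * p) * Real.exp (-(2 * p)) := by gcongr
        _ = μn n := by rw [mul_assoc, h5, mul_one]
    have hmem : ∀ n, (K (E (Vn n)), μn n) ∈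
        (closure (K '' Metric.closedBall 0 (Real.exp (2 * p)))) ×ˢ
        (Set.Icc (2 * (1 + α ^ 2) * (p / 2) * Real.exp (-(2 * p)))
          (2 * (1 + α ^ 2) * (2 * p))) := by
      intro n
      refine ⟨subset_closure ⟨E (Vn n), ?_, rfl⟩, hmu2 n, hmu1 n⟩
      rw [mem_closedBall_zero_iff]
      exact hbound n
    obtain ⟨⟨w, μ⟩, hwμ, φ, hφ, hlim⟩ := (hcomp.prod isCompact_Icc).tendsto_subseq hmem
    have hlw : Tendsto (fun n => K (E (Vn (φ n)))) atTop (𝓝 w) :=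
      (continuous_fst.tendsto _).comp hlim
    have hlm : Tendsto (fun n => μn (φ n)) atTop (𝓝 μ) :=
      (continuous_snd.tendsto _).comp hlim
    have hlV : Tendsto (fun n => Vn (φ n)) atTop (𝓝 (μ • w)) := by
      have := hlm.smul hlw
      refine this.congr fun n => ?_
      exact (hfix (φ n)).symm
    have hEc : Continuous E := hEs.continuous
    have hlK : Tendsto (fun n => K (E (Vn (φ n)))) atTop (𝓝 (K (E (μ • w)))) :=
      ((K.continuous.comp hEc).tendsto _).comp hlV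
    have hw : w = K (E (μ • w)) := tendsto_nhds_unique hlw hlK
    have hμ : 0 < μ := lt_of_lt_of_le (by positivity) hwμ.2.1
    have hg : GSol α μ (μ • w : BF) := (fix_gsol hα hα1 hμ hK hE (μ • w)).1 (by
      conv_lhs => rw [hw])
    have hev : Tendsto (fun n => Vn (φ n) (0, 0)) atTop (𝓝 ((μ • w : BF) (0, 0))) :=
      ((BoundedContinuousFunction.evalCLM ℝ ((0 : ℝ), (0 : ℝ))).continuous.tendsto _).comp hlV
    have hpn : Tendsto pn atTop (𝓝 p) := by
      rw [tendsto_iff_dist_tendsto_zero]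
      refine squeeze_zero (fun _ => dist_nonneg) (fun n => ?_)
        tendsto_one_div_add_atTop_nhds_zero_nat
      rw [Real.dist_eq]
      exact (hpd n).le
    have hpn' : Tendsto (fun n => Vn (φ n) (0, 0)) atTop (𝓝 p) := by
      simp only [hV0]
      exact hpn.comp hφ.tendsto_atTop
    exact ⟨hp, μ, _, hg, tendsto_nhds_unique hev hpn'⟩
  have hne : (Set.Ioi (0 : ℝ) ∩ S).Nonempty := by
    obtain ⟨ε, M, V, hε, _, _, _, _, hc⟩ := local_curve hα hα1 hK hE (μ := 0) (v := 0)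
      (Or.inr ⟨rfl, rfl⟩)
    have h00 : (0 : BF) (0, 0) = 0 := rfl
    rw [h00] at hc
    obtain ⟨c1, c2⟩ := hc (ε / 2) ⟨by linarith, by linarith⟩
    exact ⟨ε / 2, half_pos hε, half_pos hε, M (ε / 2), V (ε / 2),
      CRV_small hα hα1 hK hE (half_pos hε) c1 c2, c2⟩
  by_contra hcon
  have hpS : p ∉ S := fun h => hcon h.2
  -- the complement is open in the half line
  have hopen2 : IsOpen {r : ℝ | 0 < r ∧ r ∉ S} := by
    rw [isOpen_iff_mem_nhds]
    rintro r ⟨hr, hrS⟩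
    by_contra hcon2
    refine hrS (hcl r hr fun U hU => ?_)
    by_contra hemp
    rw [Set.not_nonempty_iff_eq_empty] at hemp
    refine hcon2 ?_
    filter_upwards [hU, Ioi_mem_nhds hr] with z hz hz0
    refine ⟨hz0, fun hzS => ?_⟩
    have : z ∈ U ∩ S := ⟨hz, hzS⟩
    rw [hemp] at this
    exact this
  obtain ⟨z, _, hz1, hz2⟩ := (isPreconnected_Ioi (a := (0 : ℝ))) S {r : ℝ | 0 < r ∧ r ∉ S} hopen
    hopen2 (fun r hr => by
      by_cases h : r ∈ S
      · exact Or.inl h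
      · exact Or.inr ⟨hr, h⟩) hne ⟨p, hp, hp, hpS⟩
  exact hz2.2 hz1

theorem curve {α : ℝ} (hα : 0 < α) (hα1 : α ≤ 1) {K : BF →L[ℝ] BF} (hK : IsKop α K)
    {E : BF → BF} (hE : IsExp E) :
    ∃ (δ : ℝ) (M : ℝ → ℝ) (V : ℝ → BF), 0 < δ ∧ ContDiffOn ℝ ∞ M (Set.Ioi (-δ)) ∧
      ContDiffOn ℝ ∞ V (Set.Ioi (-δ)) ∧ M 0 = 0 ∧ V 0 = 0 ∧
      (∀ p, -δ < p → V p = M p • K (E (V p)) ∧ V p (0, 0) = p) ∧
      ∀ p, 0 < p → GSol α (M p) (V p) := by
  obtain ⟨ε, M0, V0, hε, hM0s, hV0s, hM00, hV00, hc0⟩ := local_curve hα hα1 hK hE (μ := 0)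
    (v := 0) (Or.inr ⟨rfl, rfl⟩)
  have h00 : (0 : BF) (0, 0) = 0 := rfl
  rw [h00, zero_sub, zero_add] at hM0s hV0s hc0
  rw [h00] at hM00 hV00
  have hex : ∀ p : ℝ, 0 < p → ∃ (m : ℝ) (V : BF), GSol α m V ∧ V (0, 0) = p := by
    intro p hp
    obtain ⟨m, v, hv, hv0⟩ := gsol_ex hα hα1 p hp
    obtain ⟨V, hV⟩ := gsol_bf hα hα1 hv
    have hVv : (V : ℝ × ℝ → ℝ) = v := funext hV
    exact ⟨m, V, by rw [hVv]; exact hv, by rw [hV, hv0]⟩
  choose! M1 V1 hG1 hV1 using hex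
  have huniq : ∀ {p m : ℝ} {V : BF}, 0 < p → GSol α m V → V (0, 0) = p → m = M1 p ∧ V = V1 p := by
    intro p m V hp hg hV
    obtain ⟨e1, e2⟩ := amp_unique hα hα1 hg (hG1 p hp) (by rw [hV, hV1 p hp])
    exact ⟨e1, DFunLike.coe_injective e2⟩
  set M : ℝ → ℝ := fun p => if p ≤ 0 then M0 p else M1 p with hM
  set V : ℝ → BF := fun p => if p ≤ 0 then V0 p else V1 p with hV
  have hMpos : ∀ p, 0 < p → M p = M1 p := fun p hp => by
    rw [hM]; exact if_neg (not_le.2 hp)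
  have hVpos : ∀ p, 0 < p → V p = V1 p := fun p hp => by
    rw [hV]; exact if_neg (not_le.2 hp)
  have hM0eq : ∀ p ∈ Set.Ioo (-ε) ε, M p = M0 p ∧ V p = V0 p := by
    intro p hp
    rcases le_or_gt p 0 with h | h
    · exact ⟨by rw [hM]; exact if_pos h, by rw [hV]; exact if_pos h⟩
    · obtain ⟨c1, c2⟩ := hc0 p hp
      obtain ⟨e1, e2⟩ := huniq h (CRV_small hα hα1 hK hE h c1 c2) c2
      exact ⟨by rw [hMpos p h, e1], by rw [hVpos p h, e2]⟩
  have hat : ∀ p, -ε < p → ContDiffAt ℝ ∞ M p ∧ ContDiffAt ℝ ∞ V p := by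
    intro p hp
    rcases le_or_gt p 0 with h | h
    · have hI : Set.Ioo (-ε) ε ∈ 𝓝 p := Ioo_mem_nhds hp (lt_of_le_of_lt h hε)
      exact ⟨(hM0s.contDiffAt hI).congr_of_eventuallyEq (by
          filter_upwards [hI] with z hz
          exact (hM0eq z hz).1),
        (hV0s.contDiffAt hI).congr_of_eventuallyEq (by
          filter_upwards [hI] with z hz
          exact (hM0eq z hz).2)⟩
    · obtain ⟨ε', M', V', hε', hM's, hV's, hM'0, hV'0, hc'⟩ :=
        local_curve hα hα1 hK hE (Or.inl (hG1 p h))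
      rw [hV1 p h] at hM's hV's hc'
      have hI : Set.Ioo (p - ε') (p + ε') ∈ 𝓝 p := Ioo_mem_nhds (by linarith) (by linarith)
      have hloc : ∀ z ∈ Set.Ioo (p - ε') (p + ε'), 0 < z → M z = M' z ∧ V z = V' z := by
        intro z hz hz0
        obtain ⟨c1, c2⟩ := hc' z hz
        obtain ⟨e1, e2⟩ := huniq hz0 (CRV_small hα hα1 hK hE hz0 c1 c2) c2
        exact ⟨by rw [hMpos z hz0, e1], by rw [hVpos z hz0, e2]⟩
      exact ⟨(hM's.contDiffAt hI).congr_of_eventuallyEq (by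
          filter_upwards [hI, Ioi_mem_nhds h] with z hz hz0
          exact (hloc z hz hz0).1),
        (hV's.contDiffAt hI).congr_of_eventuallyEq (by
          filter_upwards [hI, Ioi_mem_nhds h] with z hz hz0
          exact (hloc z hz hz0).2)⟩
  refine ⟨ε, M, V, hε, fun p hp => (hat p hp).1.contDiffWithinAt,
    fun p hp => (hat p hp).2.contDiffWithinAt, ?_, ?_, fun p hp => ?_, fun p hp => ?_⟩
  · rw [(hM0eq 0 ⟨by linarith, hε⟩).1, hM00]
  · rw [(hM0eq 0 ⟨by linarith, hε⟩).2, hV00]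
  · rcases le_or_gt p 0 with h | h
    · obtain ⟨e1, e2⟩ := hM0eq p ⟨hp, lt_of_le_of_lt h hε⟩
      rw [e1, e2]
      exact hc0 p ⟨hp, lt_of_le_of_lt h hε⟩
    · rw [hMpos p h, hVpos p h]
      exact ⟨(fix_gsol hα hα1 (hG1 p h).mu_pos hK hE (V1 p)).2 (hG1 p h), hV1 p h⟩
  · rw [hMpos p hp, hVpos p hp]
    exact hG1 p hp

end Pool.Agent.MFE
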