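import Pool.Agent.MFE.Defs

/-!
# MFE.DIR: definition of the solution of the Dirichlet problem (no proofs)
-/

namespace Pool.Agent.MFE

/-- `u` is the solution of `-Δu = f` in the ellipse with zero boundary values (weak form) -/
structure Dir (α : ℝ) (f u : ℝ × ℝ → ℝ) : Prop where
  cont : Continuous u
  zero : ∀ q, q ∉ Ell α → u q = 0
  weak : Weak u f (Ell α)

end Pool.Agent.MFE
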