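import Pool.Agent.MFE.DIR
import Pool.Agent.MFE.KPOL
import Pool.Agent.MFE.REG

/-!
# MFE.DIRA: existence, uniqueness and approximation for the Dirichlet problem

Polynomial data: for `p` take `r` with `-lap (wE · ev r) = ev p` (`pol_solve`), and let `polSol`
be `wE · ev r` in the ellipse, `0` outside (continuous since `wE = 0` on the boundary).
`dir_pol_bound`: if `|ev p| ≤ M` on `CEll α`: comparison of `± wE · ev r` with `M wE / 2`
(`-lap (wE M/2) = M (1 + α²) ≥ M`) by `wmp_bdd`: `|wE · ev r| ≤ (M/2) wE`.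
`dir_pol_grad`: for `q ∈ Ell α` let `d = wE q / 8`; on `Sq q d` one has
`wE ≤ (1 + 1/2 + 1/32) wE q` and `wE > 0` (since `|∂wE| ≤ 2` in each variable at `q`, `wE ≤ 1`,
second derivatives `≤ 2`), so `|u| ≤ M wE q` there and `ige` gives
`|dx u q| ≤ (2/d) M wE q + (d/2) M ≤ 17 M`.
`dir_exists`: `p_k → f` uniformly on `CEll α` (`pol_dense`), `u_k` is uniformly Cauchy by
`dir_pol_bound` applied to differences; the limit is continuous, zero outside; `weak_of_c2`
(for `u_k`) and `weak_lim`.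
`dir_unique`: the difference `w` satisfies `Weak w 0 (Ell α)`; `reg_lin` with `a = b = 0`: `w` is
harmonic in `Ell α`, continuous, `0` on the boundary; `wmp_bdd` for `w` and `-w`.
`dir_approx` is the combined statement used to transfer estimates: by uniqueness every solution
is the uniform limit of `u_k`.
-/

open scoped ContDiff

namespace Pool.Agent.MFE

open MeasureTheory Filter Topology

private theorem DIRA_two : (2 : WithTop ℕ∞) ≤ ∞ := WithTop.coe_le_coe.2 le_top

private theorem DIRA_mem {α : ℝ} {q : ℝ × ℝ} : q ∈ Ell α ↔ 0 < wE α q := by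
  unfold wE
  constructor
  · intro h
    have h' : α ^ 2 * q.1 ^ 2 + q.2 ^ 2 < 1 := h
    linarith
  · intro h
    show α ^ 2 * q.1 ^ 2 + q.2 ^ 2 < 1
    linarith

private theorem DIRA_cmem {α : ℝ} {q : ℝ × ℝ} : q ∈ CEll α ↔ 0 ≤ wE α q := by
  unfold wE
  constructor
  · intro h
    have h' : α ^ 2 * q.1 ^ 2 + q.2 ^ 2 ≤ 1 := h
    linarith
  · intro h
    show α ^ 2 * q.1 ^ 2 + q.2 ^ 2 ≤ 1
    linarith

private theorem DIRA_sub (α : ℝ) : Ell α ⊆ CEll α := fun q hq =>
  DIRA_cmem.2 (DIRA_mem.1 hq).le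

private theorem DIRA_wE_le (α : ℝ) (q : ℝ × ℝ) : wE α q ≤ 1 := by
  unfold wE
  have h1 : 0 ≤ α ^ 2 * q.1 ^ 2 := by positivity
  have h2 := sq_nonneg q.2
  linarith

private theorem DIRA_wE_smooth (α : ℝ) : ContDiff ℝ ∞ (wE α) := by
  unfold wE
  fun_prop

private theorem DIRA_U_smooth (α : ℝ) (r : MvPolynomial (Fin 2) ℝ) :
    ContDiff ℝ ∞ (fun z => wE α z * ev r z) := (DIRA_wE_smooth α).mul (ev_smooth r)

private theorem DIRA_bdd {α : ℝ} (hα : 0 < α) : Bornology.IsBounded (Ell α) :=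
  (isCompact_cell hα).isBounded.subset (DIRA_sub α)

private theorem DIRA_zero_mem (α : ℝ) : ((0 : ℝ), (0 : ℝ)) ∈ Ell α := by
  show α ^ 2 * (0 : ℝ) ^ 2 + (0 : ℝ) ^ 2 < 1
  norm_num

private theorem DIRA_front {α : ℝ} (hα : 0 < α) {q : ℝ × ℝ} (hq : q ∈ frontier (Ell α)) :
    wE α q = 0 := by
  rw [frontier, closure_ell hα, (isOpen_ell α).interior_eq] at hq
  have h1 := DIRA_cmem.1 hq.1
  have h2 : ¬ 0 < wE α q := fun h => hq.2 (DIRA_mem.2 h)
  linarith

private theorem DIRA_lap_cont {η : ℝ × ℝ → ℝ} (hη : ContDiff ℝ ∞ η) : Continuous (lap η) := by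
  have h := cont_lap isOpen_univ ((hη.of_le DIRA_two).contDiffOn (s := Set.univ))
  exact continuousOn_univ.1 h

private theorem DIRA_lap_supp {η : ℝ × ℝ → ℝ} (hc : HasCompactSupport η) :
    HasCompactSupport (lap η) := by
  have h1 : HasCompactSupport (dx (dx η)) :=
    (hc.fderiv_apply ℝ ((1 : ℝ), (0 : ℝ))).fderiv_apply ℝ ((1 : ℝ), (0 : ℝ))
  have h2 : HasCompactSupport (dy (dy η)) :=
    (hc.fderiv_apply ℝ ((0 : ℝ), (1 : ℝ))).fderiv_apply ℝ ((0 : ℝ), (1 : ℝ))
  exact h1.add h2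

private theorem DIRA_int1 {u η : ℝ × ℝ → ℝ} (hu : Continuous u) (hη : ContDiff ℝ ∞ η)
    (hc : HasCompactSupport η) : Integrable (fun q => u q * lap η q) :=
  (hu.mul (DIRA_lap_cont hη)).integrable_of_hasCompactSupport (DIRA_lap_supp hc).mul_left

/-- polynomial solution, extended by zero -/
noncomputable def polSol (α : ℝ) (r : MvPolynomial (Fin 2) ℝ) (q : ℝ × ℝ) : ℝ :=
  if wE α q ≤ 0 then 0 else wE α q * ev r q

private theorem DIRA_pol_in {α : ℝ} (r : MvPolynomial (Fin 2) ℝ) {q : ℝ × ℝ}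
    (hq : q ∈ Ell α) : polSol α r q = wE α q * ev r q := by
  unfold polSol
  rw [if_neg (not_le.2 (DIRA_mem.1 hq))]

private theorem DIRA_pol_out {α : ℝ} (r : MvPolynomial (Fin 2) ℝ) {q : ℝ × ℝ}
    (hq : q ∉ Ell α) : polSol α r q = 0 := by
  unfold polSol
  rw [if_pos (not_lt.1 (fun h => hq (DIRA_mem.2 h)))]

theorem polSol_cont (α : ℝ) (r : MvPolynomial (Fin 2) ℝ) : Continuous (polSol α r) := by
  have h : polSol α r = fun q => max (wE α q) 0 * ev r q := by
    funext q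
    unfold polSol
    split_ifs with h
    · rw [max_eq_right h, zero_mul]
    · rw [max_eq_left (not_le.1 h).le]
  rw [h]
  exact ((DIRA_wE_smooth α).continuous.max continuous_const).mul (ev_smooth r).continuous

theorem polSol_dir {α : ℝ} (hα : 0 < α) {p r : MvPolynomial (Fin 2) ℝ}
    (h : ∀ q, -lap (fun z => wE α z * ev r z) q = ev p q) : Dir α (ev p) (polSol α r) := by
  refine ⟨polSol_cont α r, fun q hq => DIRA_pol_out r hq, ?_⟩
  refine weak_of_c2 (isOpen_ell α) ?_ ?_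
  · exact (((DIRA_U_smooth α r).of_le DIRA_two).contDiffOn).congr fun q hq => DIRA_pol_in r hq
  · intro q hq
    rw [lap_congr (isOpen_ell α) (fun z hz => DIRA_pol_in r hz) hq]
    exact h q

private theorem DIRA_one {α : ℝ} (hα : 0 < α) {u : ℝ × ℝ → ℝ} (hu : ContDiff ℝ 2 u) {M : ℝ}
    (hM : 0 ≤ M) (hl : ∀ q ∈ Ell α, -lap u q ≤ M) (h0 : ∀ q, wE α q = 0 → u q = 0) :
    ∀ q ∈ CEll α, u q ≤ M / 2 * wE α q := by
  have h1 := wmp_bdd (isOpen_ell α) (DIRA_bdd hα) (u := u) (b := fun z => M / 2 * wE α z)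
    hu.contDiffOn ((contDiff_const.mul ((DIRA_wE_smooth α).of_le DIRA_two)).contDiffOn)
    hu.continuous.continuousOn
    ((contDiff_const.mul (DIRA_wE_smooth α)).continuous.continuousOn) (by
      intro q hq
      rw [lap_const_mul (isOpen_ell α) (M / 2)
        (((DIRA_wE_smooth α).of_le DIRA_two).contDiffOn) hq, lap_wE]
      have h2 := hl q hq
      nlinarith [sq_nonneg α, mul_nonneg hM (sq_nonneg α)]) (by
      intro q hq
      have h3 := DIRA_front hα hq
      rw [h0 q h3, h3, mul_zero])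
  rw [closure_ell hα] at h1
  exact h1

theorem dir_pol_bound {α : ℝ} (hα : 0 < α) {p r : MvPolynomial (Fin 2) ℝ} {M : ℝ}
    (h : ∀ q, -lap (fun z => wE α z * ev r z) q = ev p q) (hM : ∀ q ∈ CEll α, |ev p q| ≤ M) :
    ∀ q ∈ CEll α, |wE α q * ev r q| ≤ M / 2 * wE α q := by
  have hM0 : 0 ≤ M := le_trans (abs_nonneg _) (hM _ (DIRA_sub α (DIRA_zero_mem α)))
  have hs := (DIRA_U_smooth α r).of_le DIRA_two
  have h1 := DIRA_one hα hs hM0 (fun q hq => by
    rw [h q]; exact le_trans (le_abs_self _) (hM q (DIRA_sub α hq))) (fun q hq => by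
    simp only [hq, zero_mul])
  have h2 := DIRA_one hα (u := fun z => (-1) * (wE α z * ev r z)) (contDiff_const.mul hs) hM0
    (fun q hq => by
      rw [lap_const_mul (isOpen_ell α) (-1) hs.contDiffOn hq]
      have h3 := h q
      have h4 := neg_le_abs (ev p q)
      have h5 := hM q (DIRA_sub α hq)
      linarith) (fun q hq => by
    simp only [hq, zero_mul, mul_zero])
  intro q hq
  have h3 := h1 q hq
  have h4 := h2 q hq
  rw [abs_le]
  constructor <;> linarith

theorem dir_pol_grad {α : ℝ} (hα : 0 < α) (hα1 : α ≤ 1) {p r : MvPolynomial (Fin 2) ℝ} {M : ℝ}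
    (h : ∀ q, -lap (fun z => wE α z * ev r z) q = ev p q) (hM : ∀ q ∈ CEll α, |ev p q| ≤ M) :
    ∀ q ∈ CEll α, |dx (fun z => wE α z * ev r z) q| ≤ 17 * M ∧
      |dy (fun z => wE α z * ev r z) q| ≤ 17 * M := by
  have hM0 : 0 ≤ M := le_trans (abs_nonneg _) (hM _ (DIRA_sub α (DIRA_zero_mem α)))
  have hs := (DIRA_U_smooth α r).of_le DIRA_two
  have hb := dir_pol_bound hα h hM
  have hin : ∀ q ∈ Ell α, |dx (fun z => wE α z * ev r z) q| ≤ 17 * M ∧
      |dy (fun z => wE α z * ev r z) q| ≤ 17 * M := by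
    intro q hq
    have hw0 := DIRA_mem.1 hq
    have hw1 := DIRA_wE_le α q
    set w := wE α q with hw
    have hwe : w = 1 - α ^ 2 * q.1 ^ 2 - q.2 ^ 2 := rfl
    have hq1 : (α * q.1) ^ 2 ≤ 1 := by nlinarith [sq_nonneg q.2]
    have hq2 : q.2 ^ 2 ≤ 1 := by nlinarith [sq_nonneg (α * q.1)]
    have hq1' : |α * q.1| ≤ 1 := by
      rw [← sq_abs] at hq1
      nlinarith [abs_nonneg (α * q.1)]
    have hq2' : |q.2| ≤ 1 := by
      rw [← sq_abs] at hq2
      nlinarith [abs_nonneg q.2]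
    have key : ∀ z ∈ Sq q (w / 8), |wE α z - w| ≤ w / 2 + w / 32 := by
      rintro z ⟨hz1, hz2⟩
      have e1 : wE α z - w = -(α ^ 2 * ((z.1 - q.1) * (2 * q.1 + (z.1 - q.1)))) -
          (z.2 - q.2) * (2 * q.2 + (z.2 - q.2)) := by
        rw [hwe]; unfold wE; ring
      rw [e1]
      have b1 : |α ^ 2 * ((z.1 - q.1) * (2 * q.1 + (z.1 - q.1)))| ≤
          w / 8 * (2 + w / 8) := by
        have c1 : α ^ 2 * ((z.1 - q.1) * (2 * q.1 + (z.1 - q.1))) =
            (z.1 - q.1) * (α * (2 * (α * q.1) + α * (z.1 - q.1))) := by ring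
        rw [c1, abs_mul]
        have c2 : |α * (2 * (α * q.1) + α * (z.1 - q.1))| ≤ 1 * (2 + w / 8) := by
          rw [abs_mul, abs_of_pos hα]
          apply mul_le_mul hα1 _ (abs_nonneg _) zero_le_one
          refine le_trans (abs_add_le _ _) ?_
          have c3 : |2 * (α * q.1)| ≤ 2 := by
            rw [abs_mul, abs_of_pos (by norm_num : (0 : ℝ) < 2)]; linarith
          have c4 : |α * (z.1 - q.1)| ≤ w / 8 := by
            rw [abs_mul, abs_of_pos hα]
            nlinarith [abs_nonneg (z.1 - q.1)]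
          linarith
        rw [one_mul] at c2
        exact mul_le_mul hz1 c2 (abs_nonneg _) (by linarith)
      have b2 : |(z.2 - q.2) * (2 * q.2 + (z.2 - q.2))| ≤ w / 8 * (2 + w / 8) := by
        rw [abs_mul]
        have c2 : |2 * q.2 + (z.2 - q.2)| ≤ 2 + w / 8 := by
          refine le_trans (abs_add_le _ _) ?_
          have c3 : |2 * q.2| ≤ 2 := by
            rw [abs_mul, abs_of_pos (by norm_num : (0 : ℝ) < 2)]; linarith
          linarith
        exact mul_le_mul hz2 c2 (abs_nonneg _) (by linarith)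
      refine le_trans (abs_sub _ _) ?_
      rw [abs_neg]
      nlinarith
    have hsub : ∀ z ∈ Sq q (w / 8), z ∈ CEll α ∧ wE α z ≤ 2 * w := by
      intro z hz
      have h1 := abs_le.1 (key z hz)
      exact ⟨DIRA_cmem.2 (by linarith [h1.1]), by linarith [h1.2]⟩
    have h3 := ige isOpen_univ (hs.contDiffOn (s := Set.univ)) (q₀ := q) (d := w / 8)
      (M := M * w) (N := M) (by linarith) (Set.subset_univ _) (by
        intro z hz
        obtain ⟨h4, h5⟩ := hsub z hz
        have h6 := hb z h4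
        nlinarith) (by
        intro z hz
        obtain ⟨h4, h5⟩ := hsub z hz
        have h6 := h z
        have h7 := hM z h4
        rw [← h6, abs_neg] at h7
        exact h7)
    have h8 : 2 / (w / 8) * (M * w) + w / 8 / 2 * M ≤ 17 * M := by
      have h9 : 2 / (w / 8) * (M * w) = 16 * M := by
        field_simp
        ring
      rw [h9]
      nlinarith
    exact ⟨le_trans h3.1 h8, le_trans h3.2 h8⟩
  have hcx : Continuous (dx (fun z => wE α z * ev r z)) :=
    continuousOn_univ.1 (cont_dx isOpen_univ ((hs.of_le (by norm_num)).contDiffOn))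
  have hcy : Continuous (dy (fun z => wE α z * ev r z)) :=
    continuousOn_univ.1 (cont_dy isOpen_univ ((hs.of_le (by norm_num)).contDiffOn))
  intro q hq
  rw [← closure_ell hα] at hq
  have hcl : IsClosed {z : ℝ × ℝ | |dx (fun z => wE α z * ev r z) z| ≤ 17 * M ∧
      |dy (fun z => wE α z * ev r z) z| ≤ 17 * M} :=
    (isClosed_le hcx.abs continuous_const).inter (isClosed_le hcy.abs continuous_const)
  exact closure_minimal hin hcl hq

theorem dir_unique {α : ℝ} (hα : 0 < α) {f u₁ u₂ : ℝ × ℝ → ℝ}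
    (hf : ContinuousOn f (Ell α)) (h1 : Dir α f u₁) (h2 : Dir α f u₂) : u₁ = u₂ := by
  have hc : Continuous (fun q => u₁ q - u₂ q) := h1.cont.sub h2.cont
  have hw : Weak (fun q => u₁ q - u₂ q) (fun q => (fun _ => (0 : ℝ)) q * (u₁ q - u₂ q) +
      (fun _ => (0 : ℝ)) q) (Ell α) := by
    intro η hη hcη hs
    have e1 := h1.weak η hη hcη hs
    have e2 := h2.weak η hη hcη hs
    have e3 : ∫ q, (u₁ q - u₂ q) * lap η q = (∫ q, u₁ q * lap η q) - ∫ q, u₂ q * lap η q := by
      rw [← integral_sub (DIRA_int1 h1.cont hη hcη) (DIRA_int1 h2.cont hη hcη)]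
      congr 1
      funext q
      ring
    rw [e3, e1, e2]
    simp
  obtain ⟨hsm, heq⟩ := reg_lin (isOpen_ell α) hc.continuousOn contDiffOn_const contDiffOn_const hw
  have hz : ∀ q, q ∉ Ell α → u₁ q - u₂ q = 0 := fun q hq => by
    rw [h1.zero q hq, h2.zero q hq, sub_zero]
  have hlap : ∀ q ∈ Ell α, lap (fun q => u₁ q - u₂ q) q = 0 := by
    intro q hq
    have := heq q hq
    simp only [zero_mul, zero_add] at this
    linarith
  have hsm2 := hsm.of_le DIRA_two
  have hfr : ∀ q ∈ frontier (Ell α), q ∉ Ell α := by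
    intro q hq
    rw [frontier, (isOpen_ell α).interior_eq] at hq
    exact hq.2
  have hlc : ∀ (c : ℝ) (q : ℝ × ℝ), lap (fun _ : ℝ × ℝ => c) q = 0 := by
    intro c q
    have := lap_fst (q := q) (fun _ : ℝ => c) contDiff_const
    simpa using this
  have k1 := wmp_bdd (isOpen_ell α) (DIRA_bdd hα) (u := fun q => u₁ q - u₂ q)
    (b := fun _ => (0 : ℝ)) hsm2 contDiffOn_const hc.continuousOn continuousOn_const
    (fun q hq => by rw [hlap q hq, hlc]) (fun q hq => (hz q (hfr q hq)).le)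
  have k2 := wmp_bdd (isOpen_ell α) (DIRA_bdd hα) (u := fun _ => (0 : ℝ))
    (b := fun q => u₁ q - u₂ q) contDiffOn_const hsm2 continuousOn_const hc.continuousOn
    (fun q hq => by rw [hlap q hq, hlc]) (fun q hq => (hz q (hfr q hq)).ge)
  funext q
  by_cases hq : q ∈ Ell α
  · have a1 := k1 q (subset_closure hq)
    have a2 := k2 q (subset_closure hq)
    linarith
  · linarith [hz q hq]

private theorem DIRA_ev_sub (p r : MvPolynomial (Fin 2) ℝ) (q : ℝ × ℝ) :
    ev (p - r) q = ev p q - ev r q := by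
  simp [ev]

private theorem DIRA_diff {α : ℝ} {p₁ r₁ p₂ r₂ : MvPolynomial (Fin 2) ℝ}
    (h1 : ∀ q, -lap (fun z => wE α z * ev r₁ z) q = ev p₁ q)
    (h2 : ∀ q, -lap (fun z => wE α z * ev r₂ z) q = ev p₂ q) :
    ∀ q, -lap (fun z => wE α z * ev (r₁ - r₂) z) q = ev (p₁ - p₂) q := by
  intro q
  have e : (fun z => wE α z * ev (r₁ - r₂) z) =
      fun z => wE α z * ev r₁ z - wE α z * ev r₂ z := by
    funext z
    rw [DIRA_ev_sub]
    ring
  rw [e, lap_sub isOpen_univ (((DIRA_U_smooth α r₁).of_le DIRA_two).contDiffOn)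
    (((DIRA_U_smooth α r₂).of_le DIRA_two).contDiffOn) (Set.mem_univ q), DIRA_ev_sub, ← h1, ← h2]
  ring

private theorem DIRA_near {α : ℝ} (hα : 0 < α) {p₁ r₁ p₂ r₂ : MvPolynomial (Fin 2) ℝ}
    (h1 : ∀ q, -lap (fun z => wE α z * ev r₁ z) q = ev p₁ q)
    (h2 : ∀ q, -lap (fun z => wE α z * ev r₂ z) q = ev p₂ q) {M : ℝ}
    (hM : ∀ q ∈ CEll α, |ev p₁ q - ev p₂ q| ≤ M) (q : ℝ × ℝ) :
    |polSol α r₁ q - polSol α r₂ q| ≤ M := by
  have hM0 : 0 ≤ M := le_trans (abs_nonneg _) (hM _ (DIRA_sub α (DIRA_zero_mem α)))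
  by_cases hq : q ∈ Ell α
  · rw [DIRA_pol_in r₁ hq, DIRA_pol_in r₂ hq]
    have h3 := dir_pol_bound hα (DIRA_diff h1 h2) (M := M) (fun z hz => by
      rw [DIRA_ev_sub]; exact hM z hz) q (DIRA_sub α hq)
    rw [DIRA_ev_sub] at h3
    have h4 : wE α q * ev r₁ q - wE α q * ev r₂ q = wE α q * (ev r₁ q - ev r₂ q) := by ring
    rw [h4]
    have h5 := DIRA_wE_le α q
    have h6 := (DIRA_mem.1 hq).le
    nlinarith
  · rw [DIRA_pol_out r₁ hq, DIRA_pol_out r₂ hq, sub_zero, abs_zero]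
    exact hM0

private theorem DIRA_seq {α : ℝ} (hα : 0 < α) {f : ℝ × ℝ → ℝ} (hf : ContinuousOn f (CEll α)) :
    ∃ (u : ℝ × ℝ → ℝ) (p r : ℕ → MvPolynomial (Fin 2) ℝ), Dir α f u ∧
      (∀ k q, -lap (fun z => wE α z * ev (r k) z) q = ev (p k) q) ∧
      (∀ k, ∀ q ∈ CEll α, |f q - ev (p k) q| ≤ 1 / ((k : ℝ) + 1)) ∧
      (∀ k q, |u q - polSol α (r k) q| ≤ 2 * (1 / ((k : ℝ) + 1))) := by
  have hex : ∀ k : ℕ, ∃ p : MvPolynomial (Fin 2) ℝ, ∀ q ∈ CEll α,
      |f q - ev p q| < 1 / ((k : ℝ) + 1) := fun k => pol_dense hα hf (by positivity)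
  choose p hp using hex
  have hex2 : ∀ k : ℕ, ∃ r : MvPolynomial (Fin 2) ℝ, ∀ q,
      -lap (fun z => wE α z * ev r z) q = ev (p k) q := fun k => pol_solve hα (p k)
  choose r hr using hex2
  have hkl : ∀ k l q, |polSol α (r k) q - polSol α (r l) q| ≤
      1 / ((k : ℝ) + 1) + 1 / ((l : ℝ) + 1) := by
    intro k l q
    refine DIRA_near hα (hr k) (hr l) (fun z hz => ?_) q
    have h1 := (hp k z hz).le
    have h2 := (hp l z hz).le
    have h3 : ev (p k) z - ev (p l) z = -(f z - ev (p k) z) + (f z - ev (p l) z) := by ring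
    rw [h3]
    refine le_trans (abs_add_le _ _) ?_
    rw [abs_neg]
    exact add_le_add h1 h2
  have hone : Tendsto (fun k : ℕ => 1 / ((k : ℝ) + 1)) atTop (𝓝 0) :=
    tendsto_one_div_add_atTop_nhds_zero_nat
  have hcau : ∀ q, CauchySeq (fun k => polSol α (r k) q) := by
    intro q
    rw [Metric.cauchySeq_iff']
    intro ε hε
    have h1 := (hone.eventually (gt_mem_nhds (show (0 : ℝ) < ε / 2 by linarith)))
    obtain ⟨N, hN⟩ := eventually_atTop.1 h1
    refine ⟨N, fun k hk => ?_⟩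
    rw [Real.dist_eq]
    have h2 := hkl k N q
    have h3 := hN k hk
    have h4 := hN N le_rfl
    linarith
  have hlim : ∀ q, ∃ y, Tendsto (fun k => polSol α (r k) q) atTop (𝓝 y) := fun q =>
    cauchySeq_tendsto_of_complete (hcau q)
  choose u hu using hlim
  have hunif : ∀ k q, |u q - polSol α (r k) q| ≤ 1 / ((k : ℝ) + 1) := by
    intro k q
    have h1 : Tendsto (fun l => |polSol α (r l) q - polSol α (r k) q|) atTop
        (𝓝 |u q - polSol α (r k) q|) := ((hu q).sub_const _).abs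
    have h2 : Tendsto (fun l : ℕ => 1 / ((l : ℝ) + 1) + 1 / ((k : ℝ) + 1)) atTop
        (𝓝 (0 + 1 / ((k : ℝ) + 1))) := hone.add_const _
    have h3 := le_of_tendsto_of_tendsto' h1 h2 (fun l => hkl l k q)
    linarith
  have htu : TendstoUniformly (fun k => polSol α (r k)) u atTop := by
    rw [Metric.tendstoUniformly_iff]
    intro ε hε
    filter_upwards [hone.eventually (gt_mem_nhds hε)] with k hk q
    rw [Real.dist_eq]
    exact lt_of_le_of_lt (hunif k q) hk
  have huc : Continuous u := htu.continuous (Frequently.of_forall fun k => polSol_cont α (r k))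
  refine ⟨u, p, r, ⟨huc, ?_, ?_⟩, hr, fun k q hq => (hp k q hq).le, ?_⟩
  · intro q hq
    have h1 : Tendsto (fun k => polSol α (r k) q) atTop (𝓝 0) := by
      have : (fun k => polSol α (r k) q) = fun _ => (0 : ℝ) := by
        funext k
        exact DIRA_pol_out (r k) hq
      rw [this]
      exact tendsto_const_nhds
    exact tendsto_nhds_unique (hu q) h1
  · refine weak_lim (isOpen_ell α) (u := fun k => polSol α (r k)) (f := fun k => ev (p k))
      (fun k => (polSol_cont α (r k)).continuousOn)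
      (fun k => (ev_smooth (p k)).continuous.continuousOn)
      (fun k => (polSol_dir hα (hr k)).weak) (fun K _ _ => htu.tendstoUniformlyOn) ?_
    intro K hK _
    rw [Metric.tendstoUniformlyOn_iff]
    intro ε hε
    filter_upwards [hone.eventually (gt_mem_nhds hε)] with k hk q hq
    rw [Real.dist_eq]
    exact lt_trans (hp k q (DIRA_sub α (hK hq))) hk
  · intro k q
    have h1 := hunif k q
    have h2 : (0 : ℝ) ≤ 1 / ((k : ℝ) + 1) := by positivity
    linarith

theorem dir_exists {α : ℝ} (hα : 0 < α) {f : ℝ × ℝ → ℝ} (hf : ContinuousOn f (CEll α)) :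
    ∃ u, Dir α f u := by
  obtain ⟨u, _, _, hu, _⟩ := DIRA_seq hα hf
  exact ⟨u, hu⟩

/-- approximation by polynomials -/
theorem dir_approx {α : ℝ} (hα : 0 < α) {f u : ℝ × ℝ → ℝ} (hf : ContinuousOn f (CEll α))
    (h : Dir α f u) {ε : ℝ} (hε : 0 < ε) : ∃ p r : MvPolynomial (Fin 2) ℝ,
      (∀ q, -lap (fun z => wE α z * ev r z) q = ev p q) ∧
      (∀ q ∈ CEll α, |f q - ev p q| ≤ ε) ∧ (∀ q, |u q - polSol α r q| ≤ ε) := by
  obtain ⟨u', p, r, hu', h1, h2, h3⟩ := DIRA_seq hα hf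
  have he : u = u' := dir_unique hα (hf.mono (DIRA_sub α)) h hu'
  subst he
  have hone : Tendsto (fun k : ℕ => 1 / ((k : ℝ) + 1)) atTop (𝓝 0) :=
    tendsto_one_div_add_atTop_nhds_zero_nat
  obtain ⟨k, hk⟩ := (hone.eventually (gt_mem_nhds (show (0 : ℝ) < ε / 2 by linarith))).exists
  have h0 : (0 : ℝ) ≤ 1 / ((k : ℝ) + 1) := by positivity
  exact ⟨p k, r k, h1 k, fun q hq => le_trans (h2 k q hq) (by linarith),
    fun q => le_trans (h3 k q) (by linarith)⟩

end Pool.Agent.MFE
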