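import Pool.Agent.MFE.DIRA

/-!
# MFE.DIRB: estimates for the Dirichlet problem

All statements follow from the polynomial case (`dir_pol_bound`, `dir_pol_grad`) by `dir_approx`.
`dir_le`: `u = u₂ - u₁` solves the problem with `f = f₂ - f₁ ≥ 0` (linearity of `Dir`); with
polynomial data `p ≥ -ε` on `CEll α`: `wE r + ε wE / 2 ≥ 0` by `wmp_bdd`; let `ε → 0`.
`dir_lip`: for polynomial data the function `wE · ev r` has gradient bounded by `17 M'` on the
convex set `CEll α` (`M' = M + 2ε`), so it is Lipschitz there; for a point outside use the point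
of the segment on the boundary of the ellipse, where it vanishes.
`dir_c1`: gradients of `u_k` are uniformly Cauchy on `CEll α` by `dir_pol_grad` applied to the
differences; limit `gx`, `gy`; `u` is differentiable in `Ell α` with these derivatives
(`hasFDerivAt_of_tendstoUniformlyOn`).
`dir_smooth`: `reg_n` for all `n` and `reg_c2`.
`dir_evx`: the reflected function solves the reflected problem (substitution in `Weak`);
`dir_unique`.
-/

open scoped ContDiff

namespace Pool.Agent.MFE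

open MeasureTheory Filter Topology

private theorem DIRB_two : (2 : WithTop ℕ∞) ≤ ∞ := WithTop.coe_le_coe.2 le_top

private theorem DIRB_sub (α : ℝ) : Ell α ⊆ CEll α := fun q hq => by
  have h : α ^ 2 * q.1 ^ 2 + q.2 ^ 2 < 1 := hq
  exact h.le

private theorem DIRB_mem {α : ℝ} {q : ℝ × ℝ} : q ∈ Ell α ↔ 0 < wE α q := by
  unfold wE
  constructor
  · intro h
    have h' : α ^ 2 * q.1 ^ 2 + q.2 ^ 2 < 1 := h
    linarith
  · intro h
    show α ^ 2 * q.1 ^ 2 + q.2 ^ 2 < 1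
    linarith

private theorem DIRB_cmem {α : ℝ} {q : ℝ × ℝ} : q ∈ CEll α ↔ 0 ≤ wE α q := by
  unfold wE
  constructor
  · intro h
    have h' : α ^ 2 * q.1 ^ 2 + q.2 ^ 2 ≤ 1 := h
    linarith
  · intro h
    show α ^ 2 * q.1 ^ 2 + q.2 ^ 2 ≤ 1
    linarith

private theorem DIRB_wE_le (α : ℝ) (q : ℝ × ℝ) : wE α q ≤ 1 := by
  unfold wE
  have h1 : 0 ≤ α ^ 2 * q.1 ^ 2 := by positivity
  have h2 := sq_nonneg q.2
  linarith

private theorem DIRB_wE_smooth (α : ℝ) : ContDiff ℝ ∞ (wE α) := by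
  unfold wE
  fun_prop

private theorem DIRB_lap_cont {η : ℝ × ℝ → ℝ} (hη : ContDiff ℝ ∞ η) : Continuous (lap η) := by
  have h := cont_lap isOpen_univ ((hη.of_le DIRB_two).contDiffOn (s := Set.univ))
  exact continuousOn_univ.1 h

private theorem DIRB_lap_supp {η : ℝ × ℝ → ℝ} (hc : HasCompactSupport η) :
    HasCompactSupport (lap η) := by
  have h1 : HasCompactSupport (dx (dx η)) :=
    (hc.fderiv_apply ℝ ((1 : ℝ), (0 : ℝ))).fderiv_apply ℝ ((1 : ℝ), (0 : ℝ))
  have h2 : HasCompactSupport (dy (dy η)) :=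
    (hc.fderiv_apply ℝ ((0 : ℝ), (1 : ℝ))).fderiv_apply ℝ ((0 : ℝ), (1 : ℝ))
  exact h1.add h2

private theorem DIRB_int1 {u η : ℝ × ℝ → ℝ} (hu : Continuous u) (hη : ContDiff ℝ ∞ η)
    (hc : HasCompactSupport η) : Integrable (fun q => u q * lap η q) :=
  (hu.mul (DIRB_lap_cont hη)).integrable_of_hasCompactSupport (DIRB_lap_supp hc).mul_left

private theorem DIRB_cont {α : ℝ} {f η : ℝ × ℝ → ℝ} (hf : ContinuousOn f (Ell α))
    (hη : Continuous η) (hs : tsupport η ⊆ Ell α) : Continuous (fun q => f q * η q) := by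
  rw [continuous_iff_continuousAt]
  intro q
  by_cases hq : q ∈ Ell α
  · exact (hf.continuousAt ((isOpen_ell α).mem_nhds hq)).mul hη.continuousAt
  · have hq' : q ∉ tsupport η := fun h => hq (hs h)
    have h0 : (fun q => f q * η q) =ᶠ[𝓝 q] fun _ => 0 := by
      filter_upwards [(isClosed_tsupport η).isOpen_compl.mem_nhds hq'] with z hz
      rw [image_eq_zero_of_notMem_tsupport hz, mul_zero]
    exact continuousAt_const.congr h0.symm

private theorem DIRB_int2 {α : ℝ} {f η : ℝ × ℝ → ℝ} (hf : ContinuousOn f (Ell α))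
    (hη : Continuous η) (hc : HasCompactSupport η) (hs : tsupport η ⊆ Ell α) :
    Integrable (fun q => f q * η q) :=
  (DIRB_cont hf hη hs).integrable_of_hasCompactSupport hc.mul_left

private theorem DIRB_ext {α : ℝ} (hα : 0 < α) {f : ℝ × ℝ → ℝ} {M : ℝ}
    (hf : ContinuousOn f (CEll α)) (hM : ∀ q ∈ Ell α, |f q| ≤ M) : ∀ q ∈ CEll α, |f q| ≤ M := by
  intro q hq
  have hq' : q ∈ closure (Ell α) := by rw [closure_ell hα]; exact hq
  exact ContinuousWithinAt.closure_le hq' ((hf.abs.continuousWithinAt hq).mono (DIRB_sub α))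
    continuousWithinAt_const hM

private theorem DIRB_zero_mem (α : ℝ) : ((0 : ℝ), (0 : ℝ)) ∈ Ell α := by
  show α ^ 2 * (0 : ℝ) ^ 2 + (0 : ℝ) ^ 2 < 1
  norm_num

private theorem DIRB_polSol_mem {α : ℝ} (r : MvPolynomial (Fin 2) ℝ) {q : ℝ × ℝ}
    (hq : q ∈ CEll α) : polSol α r q = wE α q * ev r q := by
  unfold polSol
  split_ifs with h
  · have h1 : wE α q = 0 := le_antisymm h (DIRB_cmem.1 hq)
    rw [h1, zero_mul]
  · rfl

private theorem DIRB_polSol_not {α : ℝ} (r : MvPolynomial (Fin 2) ℝ) {q : ℝ × ℝ}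
    (hq : q ∉ CEll α) : polSol α r q = 0 := by
  unfold polSol
  rw [if_pos]
  rw [DIRB_cmem, not_le] at hq
  exact hq.le

private theorem DIRB_U_smooth (α : ℝ) (r : MvPolynomial (Fin 2) ℝ) :
    ContDiff ℝ ∞ (fun z => wE α z * ev r z) := (DIRB_wE_smooth α).mul (ev_smooth r)

private theorem DIRB_bdd {α : ℝ} (hα : 0 < α) : Bornology.IsBounded (Ell α) :=
  (isCompact_cell hα).isBounded.subset (DIRB_sub α)

private theorem DIRB_pol_nonneg {α : ℝ} (hα : 0 < α) {p r : MvPolynomial (Fin 2) ℝ} {ε : ℝ}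
    (hε : 0 < ε) (h : ∀ q, -lap (fun z => wE α z * ev r z) q = ev p q)
    (hp : ∀ q ∈ Ell α, -ε ≤ ev p q) : ∀ q, -(ε / 2) ≤ polSol α r q := by
  have hU : ContDiffOn ℝ 2 (fun z => wE α z * ev r z) (Ell α) :=
    ((DIRB_U_smooth α r).of_le DIRB_two).contDiffOn
  have hw : ContDiffOn ℝ 2 (wE α) (Ell α) := ((DIRB_wE_smooth α).of_le DIRB_two).contDiffOn
  have key := wmp_bdd (isOpen_ell α) (DIRB_bdd hα)
    (u := fun z => (-1) * (wE α z * ev r z)) (b := fun z => (ε / 2) * wE α z)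
    (contDiffOn_const.mul hU) (contDiffOn_const.mul hw)
    ((continuous_const.mul (DIRB_U_smooth α r).continuous).continuousOn)
    ((continuous_const.mul (DIRB_wE_smooth α).continuous).continuousOn)
    (fun q hq => by
      rw [lap_const_mul (isOpen_ell α) (-1) hU hq, lap_const_mul (isOpen_ell α) (ε / 2) hw hq,
        lap_wE]
      have h1 := h q
      have h2 := hp q hq
      have h3 : 0 ≤ ε * α ^ 2 := by positivity
      linarith)
    (fun q hq => by
      have h1 : q ∉ Ell α := fun h2 => by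
        have h3 := hq.2
        rw [(isOpen_ell α).interior_eq] at h3
        exact h3 h2
      have h2 : q ∈ CEll α := by
        have h3 := hq.1
        rwa [closure_ell hα] at h3
      have h3 : wE α q = 0 := by
        rw [DIRB_mem, not_lt] at h1
        exact le_antisymm h1 (DIRB_cmem.1 h2)
      simp [h3])
  intro q
  by_cases hq : q ∈ CEll α
  · rw [DIRB_polSol_mem r hq]
    have h1 := key q (by rw [closure_ell hα]; exact hq)
    have h2 := DIRB_wE_le α q
    nlinarith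
  · rw [DIRB_polSol_not r hq]
    linarith

private theorem DIRB_nonneg {α : ℝ} (hα : 0 < α) {f u : ℝ × ℝ → ℝ}
    (hf : ContinuousOn f (CEll α)) (h : Dir α f u) (h0 : ∀ q ∈ Ell α, 0 ≤ f q) :
    ∀ q, 0 ≤ u q := by
  intro q
  refine le_of_forall_pos_le_add fun ε hε => ?_
  obtain ⟨p, r, h1, h2, h3⟩ := dir_approx hα hf h (ε := ε / 2) (by positivity)
  have h4 := DIRB_pol_nonneg hα (ε := ε / 2) (by positivity) h1 (fun z hz => by
    have h5 := abs_le.1 (h2 z (DIRB_sub α hz))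
    have h6 := h0 z hz
    linarith [h5.2]) q
  have h5 := abs_le.1 (h3 q)
  linarith [h5.1]

private theorem DIRB_pol_lip {α : ℝ} (hα : 0 < α) (hα1 : α ≤ 1) {p r : MvPolynomial (Fin 2) ℝ}
    {M : ℝ} (h : ∀ q, -lap (fun z => wE α z * ev r z) q = ev p q)
    (hM : ∀ q ∈ CEll α, |ev p q| ≤ M) {q q' : ℝ × ℝ} (hq : q ∈ CEll α) (hq' : q' ∈ CEll α) :
    |wE α q * ev r q - wE α q' * ev r q'| ≤ 17 * M * (|q.1 - q'.1| + |q.2 - q'.2|) := by
  set U : ℝ × ℝ → ℝ := fun z => wE α z * ev r z with hU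
  have hd : Differentiable ℝ U := (DIRB_U_smooth α r).differentiable (by simp)
  have hg := dir_pol_grad hα hα1 h hM
  set c : ℝ → ℝ × ℝ := fun t => (q'.1 + t * (q.1 - q'.1), q'.2 + t * (q.2 - q'.2)) with hc
  have hcd : ∀ t, HasDerivAt c (q.1 - q'.1, q.2 - q'.2) t := by
    intro t
    have e1 : HasDerivAt (fun t : ℝ => q'.1 + t * (q.1 - q'.1)) (q.1 - q'.1) t := by
      simpa using ((hasDerivAt_id t).mul_const (q.1 - q'.1)).const_add q'.1
    have e2 : HasDerivAt (fun t : ℝ => q'.2 + t * (q.2 - q'.2)) (q.2 - q'.2) t := by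
      simpa using ((hasDerivAt_id t).mul_const (q.2 - q'.2)).const_add q'.2
    exact e1.prodMk e2
  have hcm : ∀ t ∈ Set.Icc (0 : ℝ) 1, c t ∈ CEll α := by
    intro t ht
    have a1 : α ^ 2 * q.1 ^ 2 + q.2 ^ 2 ≤ 1 := hq
    have a2 : α ^ 2 * q'.1 ^ 2 + q'.2 ^ 2 ≤ 1 := hq'
    show α ^ 2 * (q'.1 + t * (q.1 - q'.1)) ^ 2 + (q'.2 + t * (q.2 - q'.2)) ^ 2 ≤ 1
    have b1 : 0 ≤ t * (1 - t) := mul_nonneg ht.1 (by linarith [ht.2])
    have b2 : 0 ≤ t * (1 - t) * (α ^ 2 * (q.1 - q'.1) ^ 2 + (q.2 - q'.2) ^ 2) :=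
      mul_nonneg b1 (by positivity)
    have b3 : α ^ 2 * (q'.1 + t * (q.1 - q'.1)) ^ 2 + (q'.2 + t * (q.2 - q'.2)) ^ 2 =
        t * (α ^ 2 * q.1 ^ 2 + q.2 ^ 2) + (1 - t) * (α ^ 2 * q'.1 ^ 2 + q'.2 ^ 2)
          - t * (1 - t) * (α ^ 2 * (q.1 - q'.1) ^ 2 + (q.2 - q'.2) ^ 2) := by ring
    rw [b3]
    have b4 : t * (α ^ 2 * q.1 ^ 2 + q.2 ^ 2) ≤ t * 1 := mul_le_mul_of_nonneg_left a1 ht.1
    have b5 : (1 - t) * (α ^ 2 * q'.1 ^ 2 + q'.2 ^ 2) ≤ (1 - t) * 1 :=
      mul_le_mul_of_nonneg_left a2 (by linarith [ht.2])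
    linarith
  have key := norm_image_sub_le_of_norm_deriv_le_segment_01' (f := fun t => U (c t))
    (f' := fun t => fderiv ℝ U (c t) (q.1 - q'.1, q.2 - q'.2))
    (C := 17 * M * (|q.1 - q'.1| + |q.2 - q'.2|))
    (fun t _ => ((hd (c t)).hasFDerivAt.comp_hasDerivAt t (hcd t)).hasDerivWithinAt)
    (fun t ht => by
      have hct := hcm t ⟨ht.1, ht.2.le⟩
      rw [fderiv_apply_eq (hd (c t)), Real.norm_eq_abs]
      obtain ⟨g1, g2⟩ := hg (c t) hct
      calc |(q.1 - q'.1) * dx U (c t) + (q.2 - q'.2) * dy U (c t)|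
          ≤ |(q.1 - q'.1) * dx U (c t)| + |(q.2 - q'.2) * dy U (c t)| := abs_add_le _ _
        _ = |q.1 - q'.1| * |dx U (c t)| + |q.2 - q'.2| * |dy U (c t)| := by
            rw [abs_mul, abs_mul]
        _ ≤ |q.1 - q'.1| * (17 * M) + |q.2 - q'.2| * (17 * M) := by gcongr
        _ = 17 * M * (|q.1 - q'.1| + |q.2 - q'.2|) := by ring)
  have c1 : c 1 = q := by
    rw [hc]; simp
  have c0 : c 0 = q' := by
    rw [hc]; simp
  simp only [c1, c0, Real.norm_eq_abs] at key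
  exact key

private theorem DIRB_polSol_lip {α : ℝ} (hα : 0 < α) (hα1 : α ≤ 1)
    {p r : MvPolynomial (Fin 2) ℝ} {M : ℝ}
    (h : ∀ q, -lap (fun z => wE α z * ev r z) q = ev p q)
    (hM : ∀ q ∈ CEll α, |ev p q| ≤ M) (q q' : ℝ × ℝ) :
    |polSol α r q - polSol α r q'| ≤ 17 * M * (|q.1 - q'.1| + |q.2 - q'.2|) := by
  have hM0 : 0 ≤ M := (abs_nonneg _).trans (hM _ (DIRB_sub α (DIRB_zero_mem α)))
  have aux : ∀ q q' : ℝ × ℝ, q ∈ CEll α → q' ∉ CEll α →
      |polSol α r q - polSol α r q'| ≤ 17 * M * (|q.1 - q'.1| + |q.2 - q'.2|) := by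
    intro q q' hq hq'
    have hcw : Continuous fun t : ℝ => wE α (q.1 + t * (q'.1 - q.1), q.2 + t * (q'.2 - q.2)) := by
      have := (DIRB_wE_smooth α).continuous
      fun_prop
    have h0 : wE α (q.1 + 0 * (q'.1 - q.1), q.2 + 0 * (q'.2 - q.2)) = wE α q := by simp
    have h1 : wE α (q.1 + 1 * (q'.1 - q.1), q.2 + 1 * (q'.2 - q.2)) = wE α q' := by simp
    obtain ⟨t, ht, hz⟩ : ∃ t ∈ Set.Icc (0 : ℝ) 1,
        wE α (q.1 + t * (q'.1 - q.1), q.2 + t * (q'.2 - q.2)) = 0 := by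
      have := intermediate_value_Icc' (zero_le_one' ℝ) hcw.continuousOn
      refine this ⟨?_, ?_⟩
      · rw [h1]
        rw [DIRB_cmem, not_le] at hq'
        exact hq'.le
      · rw [h0]
        exact DIRB_cmem.1 hq
    have hzm : (q.1 + t * (q'.1 - q.1), q.2 + t * (q'.2 - q.2)) ∈ CEll α :=
      DIRB_cmem.2 hz.ge
    have key := DIRB_pol_lip hα hα1 h hM hq hzm
    rw [hz, zero_mul, sub_zero] at key
    rw [DIRB_polSol_not r hq', sub_zero, DIRB_polSol_mem r hq]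
    refine key.trans ?_
    have e1 : q.1 - (q.1 + t * (q'.1 - q.1)) = t * (q.1 - q'.1) := by ring
    have e2 : q.2 - (q.2 + t * (q'.2 - q.2)) = t * (q.2 - q'.2) := by ring
    simp only [e1, e2, abs_mul, abs_of_nonneg ht.1]
    have e3 : t * |q.1 - q'.1| ≤ 1 * |q.1 - q'.1| := by
      gcongr
      exact ht.2
    have e4 : t * |q.2 - q'.2| ≤ 1 * |q.2 - q'.2| := by
      gcongr
      exact ht.2
    have e5 : 0 ≤ 17 * M := by positivity
    refine mul_le_mul_of_nonneg_left ?_ e5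
    linarith
  by_cases hq : q ∈ CEll α
  · by_cases hq' : q' ∈ CEll α
    · rw [DIRB_polSol_mem r hq, DIRB_polSol_mem r hq']
      exact DIRB_pol_lip hα hα1 h hM hq hq'
    · exact aux q q' hq hq'
  · by_cases hq' : q' ∈ CEll α
    · have := aux q' q hq' hq
      rw [abs_sub_comm, abs_sub_comm q.1, abs_sub_comm q.2]
      exact this
    · rw [DIRB_polSol_not r hq, DIRB_polSol_not r hq', sub_zero, abs_zero]
      positivity

private theorem DIRB_mp (e : ℝ) (he : e ^ 2 = 1) :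
    MeasurePreserving (fun x : ℝ => e * x) volume volume := by
  have he' : e = 1 ∨ e = -1 := by
    have h0 : (e - 1) * (e + 1) = 0 := by linear_combination he
    rcases mul_eq_zero.1 h0 with h | h
    · left; linarith
    · right; linarith
  rcases he' with rfl | rfl
  · simp only [one_mul]
    exact MeasurePreserving.id (volume : Measure ℝ)
  · have := Measure.measurePreserving_neg (volume : Measure ℝ)
    have e1 : (fun x : ℝ => (-1 : ℝ) * x) = Neg.neg := by
      funext x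
      rw [neg_one_mul]
    rwa [e1]

private theorem DIRB_refl {α : ℝ} {f u : ℝ × ℝ → ℝ} (h : Weak u f (Ell α)) (e₁ e₂ : ℝ)
    (h1 : e₁ ^ 2 = 1) (h2 : e₂ ^ 2 = 1)
    (hf : ∀ q : ℝ × ℝ, f (e₁ * q.1, e₂ * q.2) = f q) :
    Weak (fun q => u (e₁ * q.1, e₂ * q.2)) f (Ell α) := by
  intro η hη hc hs
  have inv : ∀ q : ℝ × ℝ, (e₁ * (e₁ * q.1), e₂ * (e₂ * q.2)) = q := by
    intro q
    have a1 : e₁ * (e₁ * q.1) = q.1 := by rw [← mul_assoc, ← sq, h1, one_mul]
    have a2 : e₂ * (e₂ * q.2) = q.2 := by rw [← mul_assoc, ← sq, h2, one_mul]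
    rw [a1, a2]
  let ρ : (ℝ × ℝ) ≃ₜ (ℝ × ℝ) :=
    { toFun := fun q => (e₁ * q.1, e₂ * q.2)
      invFun := fun q => (e₁ * q.1, e₂ * q.2)
      left_inv := inv
      right_inv := inv
      continuous_toFun := by fun_prop
      continuous_invFun := by fun_prop }
  have hmp : MeasurePreserving ρ volume volume := (DIRB_mp e₁ h1).prod (DIRB_mp e₂ h2)
  have key : ∀ g : ℝ × ℝ → ℝ, ∫ q : ℝ × ℝ, g (e₁ * q.1, e₂ * q.2) = ∫ q, g q := fun g =>
    hmp.integral_comp ρ.measurableEmbedding g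
  set η' : ℝ × ℝ → ℝ := fun z => η (0 + e₁ * z.1, 0 + e₂ * z.2) with hη'
  have hηρ : ∀ z, η' z = η (e₁ * z.1, e₂ * z.2) := fun z => by rw [hη']; simp
  have hηρ' : η' = η ∘ ρ := funext hηρ
  have hsm : ContDiff ℝ ∞ η' := hη.comp (by fun_prop)
  have hcs : HasCompactSupport η' := by
    rw [hηρ']
    exact hc.comp_homeomorph ρ
  have hts : tsupport η' ⊆ Ell α := by
    have a1 : tsupport η' ⊆ ρ ⁻¹' (tsupport η) := by
      rw [hηρ']
      refine closure_minimal (fun z hz => subset_tsupport η hz)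
        ((isClosed_tsupport η).preimage ρ.continuous)
    intro z hz
    have a2 : ρ z ∈ Ell α := hs (a1 hz)
    have a3 : α ^ 2 * (e₁ * z.1) ^ 2 + (e₂ * z.2) ^ 2 < 1 := a2
    show α ^ 2 * z.1 ^ 2 + z.2 ^ 2 < 1
    rw [mul_pow, mul_pow, h1, h2, one_mul, one_mul] at a3
    exact a3
  have hlap : ∀ z, lap η' z = lap η (e₁ * z.1, e₂ * z.2) := by
    intro z
    have := lap_aff 0 0 h1 h2 isOpen_univ (f := η) (q := z)
      ((hη.of_le DIRB_two).contDiffOn) (Set.mem_univ _)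
    calc lap η' z = lap η (0 + e₁ * z.1, 0 + e₂ * z.2) := this
      _ = lap η (e₁ * z.1, e₂ * z.2) := by rw [zero_add, zero_add]
  have e1 := h η' hsm hcs hts
  have e2 : ∫ q, u (e₁ * q.1, e₂ * q.2) * lap η q = ∫ q, u q * lap η' q := by
    rw [← key (fun z => u z * lap η' z)]
    refine integral_congr_ae (Eventually.of_forall fun q => ?_)
    simp only [hlap, inv]
  have e3 : ∫ q, f q * η q = ∫ q, f q * η' q := by
    rw [← key (fun z => f z * η' z)]
    refine integral_congr_ae (Eventually.of_forall fun q => ?_)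
    simp only [hηρ, inv, hf]
  rw [e2, e1, e3]

theorem dir_add {α : ℝ} {f₁ f₂ u₁ u₂ : ℝ × ℝ → ℝ} (hf1 : ContinuousOn f₁ (Ell α))
    (hf2 : ContinuousOn f₂ (Ell α)) (h1 : Dir α f₁ u₁) (h2 : Dir α f₂ u₂) :
    Dir α (fun q => f₁ q + f₂ q) (fun q => u₁ q + u₂ q) := by
  refine ⟨h1.cont.add h2.cont, fun q hq => ?_, fun η hη hc hs => ?_⟩
  · rw [h1.zero q hq, h2.zero q hq, add_zero]
  · have e1 := h1.weak η hη hc hs
    have e2 := h2.weak η hη hc hs
    have i1 := DIRB_int1 h1.cont hη hc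
    have i2 := DIRB_int1 h2.cont hη hc
    have j1 := DIRB_int2 hf1 hη.continuous hc hs
    have j2 := DIRB_int2 hf2 hη.continuous hc hs
    simp only [add_mul]
    rw [integral_add i1 i2, integral_add j1 j2, e1, e2]
    ring

theorem dir_smul {α : ℝ} (c : ℝ) {f u : ℝ × ℝ → ℝ} (h : Dir α f u) :
    Dir α (fun q => c * f q) (fun q => c * u q) := by
  refine ⟨continuous_const.mul h.cont, fun q hq => ?_, fun η hη hc hs => ?_⟩
  · rw [h.zero q hq, mul_zero]
  · have e1 := h.weak η hη hc hs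
    simp only [mul_assoc]
    rw [integral_const_mul, integral_const_mul, e1]
    ring

theorem dir_congr {α : ℝ} {f g u : ℝ × ℝ → ℝ} (hfg : ∀ q ∈ Ell α, f q = g q)
    (h : Dir α f u) : Dir α g u := by
  refine ⟨h.cont, h.zero, fun η hη hc hs => ?_⟩
  rw [h.weak η hη hc hs]
  congr 1
  refine integral_congr_ae (Eventually.of_forall fun q => ?_)
  by_cases hq : q ∈ Ell α
  · simp only [hfg q hq]
  · have : η q = 0 := image_eq_zero_of_notMem_tsupport fun h => hq (hs h)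
    simp only [this, mul_zero]

theorem dir_le {α : ℝ} (hα : 0 < α) {f₁ f₂ u₁ u₂ : ℝ × ℝ → ℝ}
    (hf1 : ContinuousOn f₁ (CEll α)) (hf2 : ContinuousOn f₂ (CEll α)) (h1 : Dir α f₁ u₁)
    (h2 : Dir α f₂ u₂) (hle : ∀ q ∈ Ell α, f₁ q ≤ f₂ q) : ∀ q, u₁ q ≤ u₂ q := by
  intro q
  have hs := dir_smul (-1) h1
  have hc1 : ContinuousOn (fun q => -1 * f₁ q) (CEll α) := continuousOn_const.mul hf1
  have hc2 : ContinuousOn (fun q => f₂ q + -1 * f₁ q) (CEll α) := hf2.add hc1
  have hadd := dir_add (hf2.mono (DIRB_sub α)) (hc1.mono (DIRB_sub α)) h2 hs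
  have := DIRB_nonneg hα hc2 hadd (fun z hz => by
    have := hle z hz
    linarith) q
  linarith

theorem dir_bound {α : ℝ} (hα : 0 < α) {f u : ℝ × ℝ → ℝ} {M : ℝ}
    (hf : ContinuousOn f (CEll α)) (h : Dir α f u) (hM : ∀ q ∈ Ell α, |f q| ≤ M) :
    ∀ q ∈ Ell α, |u q| ≤ M / 2 * wE α q := by
  intro q hq
  have hM' := DIRB_ext hα hf hM
  refine le_of_forall_pos_le_add fun ε hε => ?_
  obtain ⟨p, r, h1, h2, h3⟩ := dir_approx hα hf h (ε := ε / 2) (by positivity)
  have h4 := dir_pol_bound hα h1 (M := M + ε / 2) (fun z hz => by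
    have a1 := abs_le.1 (h2 z hz)
    have a2 := abs_le.1 (hM' z hz)
    rw [abs_le]
    constructor <;> linarith [a1.1, a1.2, a2.1, a2.2]) q (DIRB_sub α hq)
  have h5 := h3 q
  rw [DIRB_polSol_mem r (DIRB_sub α hq)] at h5
  have h6 := DIRB_wE_le α q
  have h7 : |u q| ≤ |u q - wE α q * ev r q| + |wE α q * ev r q| := by
    have := abs_add_le (u q - wE α q * ev r q) (wE α q * ev r q)
    rwa [sub_add_cancel] at this
  have h8 : ε / 2 / 2 * wE α q ≤ ε / 2 / 2 * 1 := by gcongr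
  have h9 : (M + ε / 2) / 2 * wE α q = M / 2 * wE α q + ε / 2 / 2 * wE α q := by ring
  linarith

theorem dir_lip {α : ℝ} (hα : 0 < α) (hα1 : α ≤ 1) {f u : ℝ × ℝ → ℝ} {M : ℝ}
    (hf : ContinuousOn f (CEll α)) (h : Dir α f u) (hM : ∀ q ∈ Ell α, |f q| ≤ M) :
    ∀ q q' : ℝ × ℝ, |u q - u q'| ≤ 17 * M * (|q.1 - q'.1| + |q.2 - q'.2|) := by
  intro q q'
  have hM' := DIRB_ext hα hf hM
  refine le_of_forall_pos_le_add fun ε hε => ?_
  set S : ℝ := |q.1 - q'.1| + |q.2 - q'.2| with hS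
  have hS0 : 0 ≤ S := by positivity
  have hden : 0 < 17 * S + 2 := by positivity
  obtain ⟨p, r, h1, h2, h3⟩ := dir_approx hα hf h (ε := ε / (17 * S + 2)) (by positivity)
  set δ : ℝ := ε / (17 * S + 2) with hδ
  have h4 := DIRB_polSol_lip hα hα1 h1 (M := M + δ) (fun z hz => by
    have a1 := abs_le.1 (h2 z hz)
    have a2 := abs_le.1 (hM' z hz)
    rw [abs_le]
    constructor <;> linarith [a1.1, a1.2, a2.1, a2.2]) q q'
  have h5 := abs_le.1 (h3 q)
  have h6 := abs_le.1 (h3 q')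
  have h7 := abs_le.1 h4
  have h8 : (17 * S + 2) * δ = ε := by rw [hδ]; field_simp
  have h9 : 17 * (M + δ) * S = 17 * M * S + 17 * S * δ := by ring
  rw [← hS] at h7
  rw [abs_le]
  constructor <;> linarith [h5.1, h5.2, h6.1, h6.2, h7.1, h7.2]

theorem dir_c1 {α : ℝ} (hα : 0 < α) (hα1 : α ≤ 1) {f u : ℝ × ℝ → ℝ} {M : ℝ}
    (hf : ContinuousOn f (CEll α)) (h : Dir α f u) (hM : ∀ q ∈ Ell α, |f q| ≤ M) :
    ContDiffOn ℝ 1 u (Ell α) ∧ ∃ gx gy : ℝ × ℝ → ℝ, ContinuousOn gx (CEll α) ∧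
      ContinuousOn gy (CEll α) ∧ (∀ q ∈ Ell α, dx u q = gx q ∧ dy u q = gy q) ∧
      (∀ q ∈ CEll α, |gx q| ≤ 17 * M ∧ |gy q| ≤ 17 * M) := by
  have hM' := DIRB_ext hα hf hM
  refine ⟨reg_c1 (isOpen_ell α) h.cont.continuousOn (hf.mono (DIRB_sub α)) h.weak, ?_⟩
  have hex : ∀ n : ℕ, ∃ p r : MvPolynomial (Fin 2) ℝ,
      (∀ q, -lap (fun z => wE α z * ev r z) q = ev p q) ∧
      (∀ q ∈ CEll α, |f q - ev p q| ≤ 1 / ((n : ℝ) + 1)) ∧
      (∀ q, |u q - polSol α r q| ≤ 1 / ((n : ℝ) + 1)) := fun n =>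
    dir_approx hα hf h (ε := 1 / ((n : ℝ) + 1)) (by positivity)
  choose p r h1 h2 h3 using hex
  set U : ℕ → ℝ × ℝ → ℝ := fun n z => wE α z * ev (r n) z with hU
  have hUd : ∀ n, Differentiable ℝ (U n) := fun n =>
    (DIRB_U_smooth α (r n)).differentiable (by simp)
  have hU2 : ∀ n, ContDiffOn ℝ 2 (U n) Set.univ := fun n =>
    ((DIRB_U_smooth α (r n)).of_le DIRB_two).contDiffOn
  have hdiff : ∀ m n : ℕ, ∀ q ∈ CEll α,
      |dx (U m) q - dx (U n) q| ≤ 17 * (1 / ((m : ℝ) + 1) + 1 / ((n : ℝ) + 1)) ∧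
      |dy (U m) q - dy (U n) q| ≤ 17 * (1 / ((m : ℝ) + 1) + 1 / ((n : ℝ) + 1)) := by
    intro m n q hq
    have e0 : (fun z => wE α z * ev (r m - r n) z) = fun z => U m z - U n z := by
      funext z
      simp only [hU, ev, map_sub]
      ring
    have e1 : ∀ q, -lap (fun z => wE α z * ev (r m - r n) z) q = ev (p m - p n) q := by
      intro z
      rw [e0, lap_sub isOpen_univ (hU2 m) (hU2 n) (Set.mem_univ z)]
      have a1 := h1 m z
      have a2 := h1 n z
      have a3 : ev (p m - p n) z = ev (p m) z - ev (p n) z := by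
        simp only [ev, map_sub]
      rw [a3, ← a1, ← a2]
      ring
    have e2 := dir_pol_grad hα hα1 e1 (M := 1 / ((m : ℝ) + 1) + 1 / ((n : ℝ) + 1))
      (fun z hz => by
        have a3 : ev (p m - p n) z = ev (p m) z - ev (p n) z := by
          simp only [ev, map_sub]
        have b1 := abs_le.1 (h2 m z hz)
        have b2 := abs_le.1 (h2 n z hz)
        rw [a3, abs_le]
        constructor <;> linarith [b1.1, b1.2, b2.1, b2.2]) q hq
    rw [e0, dx_sub (hUd m q) (hUd n q), dy_sub (hUd m q) (hUd n q)] at e2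
    exact e2
  have hbd : ∀ n : ℕ, ∀ q ∈ CEll α, |dx (U n) q| ≤ 17 * (M + 1 / ((n : ℝ) + 1)) ∧
      |dy (U n) q| ≤ 17 * (M + 1 / ((n : ℝ) + 1)) := fun n q hq =>
    dir_pol_grad hα hα1 (h1 n) (M := M + 1 / ((n : ℝ) + 1)) (fun z hz => by
      have a1 := abs_le.1 (h2 n z hz)
      have a2 := abs_le.1 (hM' z hz)
      rw [abs_le]
      constructor <;> linarith [a1.1, a1.2, a2.1, a2.2]) q hq
  have hlim0 : Tendsto (fun n : ℕ => 1 / ((n : ℝ) + 1)) atTop (𝓝 0) :=
    tendsto_one_div_add_atTop_nhds_zero_nat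
  have hcau : ∀ G : ℕ → ℝ × ℝ → ℝ, (∀ m n : ℕ, ∀ q ∈ CEll α,
      |G m q - G n q| ≤ 17 * (1 / ((m : ℝ) + 1) + 1 / ((n : ℝ) + 1))) →
      UniformCauchySeqOn G atTop (CEll α) := by
    intro G hG
    rw [Metric.uniformCauchySeqOn_iff]
    intro ε hε
    obtain ⟨N, hN⟩ := (Metric.tendsto_atTop.1 hlim0) (ε / 35) (by positivity)
    refine ⟨N, fun m hm n hn q hq => ?_⟩
    have a1 := hN m hm
    have a2 := hN n hn
    rw [Real.dist_eq, sub_zero, abs_of_nonneg (by positivity)] at a1 a2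
    rw [Real.dist_eq]
    have := hG m n q hq
    linarith
  have hcx := hcau (fun n => dx (U n)) fun m n q hq => (hdiff m n q hq).1
  have hcy := hcau (fun n => dy (U n)) fun m n q hq => (hdiff m n q hq).2
  have hlx : ∀ q ∈ CEll α, ∃ L, Tendsto (fun n => dx (U n) q) atTop (𝓝 L) := fun q hq =>
    cauchySeq_tendsto_of_complete (hcx.cauchySeq hq)
  have hly : ∀ q ∈ CEll α, ∃ L, Tendsto (fun n => dy (U n) q) atTop (𝓝 L) := fun q hq =>
    cauchySeq_tendsto_of_complete (hcy.cauchySeq hq)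
  choose! gx hgx using hlx
  choose! gy hgy using hly
  have hux := hcx.tendstoUniformlyOn_of_tendsto hgx
  have huy := hcy.tendstoUniformlyOn_of_tendsto hgy
  have hcdx : ∀ n, ContinuousOn (dx (U n)) (CEll α) := fun n =>
    (cont_dx isOpen_univ ((hU2 n).of_le (by norm_num))).mono (Set.subset_univ _)
  have hcdy : ∀ n, ContinuousOn (dy (U n)) (CEll α) := fun n =>
    (cont_dy isOpen_univ ((hU2 n).of_le (by norm_num))).mono (Set.subset_univ _)
  have hMlim : Tendsto (fun n : ℕ => 17 * (M + 1 / ((n : ℝ) + 1))) atTop (𝓝 (17 * M)) := by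
    have := (hlim0.const_add M).const_mul 17
    simpa using this
  refine ⟨gx, gy, hux.continuousOn (Frequently.of_forall hcdx),
    huy.continuousOn (Frequently.of_forall hcdy), ?_, fun q hq =>
      ⟨le_of_tendsto_of_tendsto' (hgx q hq).abs hMlim fun n => (hbd n q hq).1,
        le_of_tendsto_of_tendsto' (hgy q hq).abs hMlim fun n => (hbd n q hq).2⟩⟩
  set g' : ℝ × ℝ → (ℝ × ℝ →L[ℝ] ℝ) := fun q =>
    gx q • ContinuousLinearMap.fst ℝ ℝ ℝ + gy q • ContinuousLinearMap.snd ℝ ℝ ℝ with hg'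
  have hHas : ∀ q ∈ Ell α, HasFDerivAt u (g' q) q := by
    intro q hq
    refine hasFDerivAt_of_tendstoUniformlyOn (l := atTop) (f := U) (f' := fun n z =>
      dx (U n) z • ContinuousLinearMap.fst ℝ ℝ ℝ + dy (U n) z • ContinuousLinearMap.snd ℝ ℝ ℝ)
      (isOpen_ell α) ?_ (fun n z _ => ?_) (fun z hz => ?_) hq
    · rw [Metric.tendstoUniformlyOn_iff]
      intro ε hε
      have a1 := (Metric.tendstoUniformlyOn_iff.1 hux) (ε / 2) (by positivity)
      have a2 := (Metric.tendstoUniformlyOn_iff.1 huy) (ε / 2) (by positivity)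
      filter_upwards [a1, a2] with n b1 b2 z hz
      have c1 := b1 z (DIRB_sub α hz)
      have c2 := b2 z (DIRB_sub α hz)
      rw [dist_eq_norm] at c1 c2 ⊢
      have e : g' z - (dx (U n) z • ContinuousLinearMap.fst ℝ ℝ ℝ
          + dy (U n) z • ContinuousLinearMap.snd ℝ ℝ ℝ) =
          (gx z - dx (U n) z) • ContinuousLinearMap.fst ℝ ℝ ℝ
          + (gy z - dy (U n) z) • ContinuousLinearMap.snd ℝ ℝ ℝ := by
        rw [hg']
        module
      rw [e]
      have n1 : ‖(gx z - dx (U n) z) • ContinuousLinearMap.fst ℝ ℝ ℝ‖ ≤ ‖gx z - dx (U n) z‖ := by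
        rw [norm_smul]
        have := ContinuousLinearMap.norm_fst_le ℝ ℝ ℝ
        have h0 := norm_nonneg (gx z - dx (U n) z)
        nlinarith
      have n2 : ‖(gy z - dy (U n) z) • ContinuousLinearMap.snd ℝ ℝ ℝ‖ ≤ ‖gy z - dy (U n) z‖ := by
        rw [norm_smul]
        have := ContinuousLinearMap.norm_snd_le ℝ ℝ ℝ
        have h0 := norm_nonneg (gy z - dy (U n) z)
        nlinarith
      have := norm_add_le ((gx z - dx (U n) z) • ContinuousLinearMap.fst ℝ ℝ ℝ)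
        ((gy z - dy (U n) z) • ContinuousLinearMap.snd ℝ ℝ ℝ)
      linarith
    · have e : fderiv ℝ (U n) z = dx (U n) z • ContinuousLinearMap.fst ℝ ℝ ℝ
          + dy (U n) z • ContinuousLinearMap.snd ℝ ℝ ℝ := by
        refine ContinuousLinearMap.ext fun w => ?_
        have := fderiv_apply_eq (hUd n z) w.1 w.2
        rw [show ((w.1, w.2) : ℝ × ℝ) = w from rfl] at this
        rw [this]
        simp [mul_comm]
      have := (hUd n z).hasFDerivAt
      rwa [e] at this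
    · rw [tendsto_iff_dist_tendsto_zero]
      refine squeeze_zero (fun _ => dist_nonneg) (fun n => ?_) hlim0
      have a1 := h3 n z
      rw [DIRB_polSol_mem (r n) (DIRB_sub α hz)] at a1
      rw [Real.dist_eq, abs_sub_comm]
      exact a1
  intro q hq
  have := (hHas q hq).fderiv
  unfold dx dy
  rw [this, hg']
  simp

theorem dir_smooth {α : ℝ} {f u : ℝ × ℝ → ℝ} (hf : ContDiffOn ℝ ∞ f (Ell α))
    (h : Dir α f u) : ContDiffOn ℝ ∞ u (Ell α) ∧ ∀ q ∈ Ell α, -lap u q = f q := by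
  constructor
  · rw [contDiffOn_infty]
    intro n
    have h1 := reg_n (isOpen_ell α) n h.cont.continuousOn (hf.of_le (by
      exact_mod_cast le_top)) h.weak
    exact h1.of_le (by exact_mod_cast Nat.le_succ n)
  · exact (reg_c2 (isOpen_ell α) h.cont.continuousOn (hf.of_le (by simp)) h.weak).2

theorem dir_of_c2 {α : ℝ} {f u : ℝ × ℝ → ℝ} (hc : Continuous u)
    (h0 : ∀ q, q ∉ Ell α → u q = 0) (h2 : ContDiffOn ℝ 2 u (Ell α))
    (h : ∀ q ∈ Ell α, -lap u q = f q) : Dir α f u := by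
  exact ⟨hc, h0, weak_of_c2 (isOpen_ell α) h2 h⟩

theorem dir_evx {α : ℝ} (hα : 0 < α) {f u : ℝ × ℝ → ℝ} (hf : ContinuousOn f (Ell α))
    (h : Dir α f u) (he : EvX f) : EvX u := by
  have hrefl : Dir α f (fun q => u (-q.1, q.2)) := by
    refine ⟨h.cont.comp (by fun_prop), fun q hq => h.zero _ fun hq' => hq ?_,
      fun η hη hc hs => ?_⟩
    · have h1 : α ^ 2 * (-q.1) ^ 2 + q.2 ^ 2 < 1 := hq'
      show α ^ 2 * q.1 ^ 2 + q.2 ^ 2 < 1
      rwa [neg_sq] at h1
    · have key := DIRB_refl h.weak (-1) 1 (by norm_num) (by norm_num) (fun q => by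
          have := he q.1 q.2
          simpa using this) η hη hc hs
      simpa using key
  have h2 := dir_unique hα hf hrefl h
  intro x y
  exact congrFun h2 (x, y)

theorem dir_evy {α : ℝ} (hα : 0 < α) {f u : ℝ × ℝ → ℝ} (hf : ContinuousOn f (Ell α))
    (h : Dir α f u) (he : EvY f) : EvY u := by
  have hrefl : Dir α f (fun q => u (q.1, -q.2)) := by
    refine ⟨h.cont.comp (by fun_prop), fun q hq => h.zero _ fun hq' => hq ?_,
      fun η hη hc hs => ?_⟩
    · have h1 : α ^ 2 * q.1 ^ 2 + (-q.2) ^ 2 < 1 := hq'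
      show α ^ 2 * q.1 ^ 2 + q.2 ^ 2 < 1
      rwa [neg_sq] at h1
    · have key := DIRB_refl h.weak 1 (-1) (by norm_num) (by norm_num) (fun q => by
          have := he q.1 q.2
          simpa using this) η hη hc hs
      simpa using key
  have h2 := dir_unique hα hf hrefl h
  intro x y
  exact congrFun h2 (x, y)

/-- uniform limits -/
theorem dir_lim {α : ℝ} (hα : 0 < α) {f u : ℕ → ℝ × ℝ → ℝ} {f₀ u₀ : ℝ × ℝ → ℝ}
    (hf : ∀ n, ContinuousOn (f n) (CEll α)) (h : ∀ n, Dir α (f n) (u n))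
    (hf₀ : TendstoUniformlyOn f f₀ Filter.atTop (CEll α)) (h₀ : Dir α f₀ u₀) :
    TendstoUniformly u u₀ Filter.atTop := by
  have hcf₀ : ContinuousOn f₀ (CEll α) := hf₀.continuousOn (Frequently.of_forall hf)
  rw [Metric.tendstoUniformly_iff]
  intro ε hε
  filter_upwards [(Metric.tendstoUniformlyOn_iff.1 hf₀) ε hε] with n hn q
  by_cases hq : q ∈ Ell α
  · have hc1 : ContinuousOn (fun q => -1 * f n q) (CEll α) := continuousOn_const.mul (hf n)
    have hc2 : ContinuousOn (fun q => f₀ q + -1 * f n q) (CEll α) := hcf₀.add hc1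
    have hadd := dir_add (hcf₀.mono (DIRB_sub α)) (hc1.mono (DIRB_sub α)) h₀
      (dir_smul (-1) (h n))
    have hb := dir_bound hα hc2 hadd (M := ε)
      (fun z hz => by
        have := (hn z (DIRB_sub α hz)).le
        rw [Real.dist_eq] at this
        have e : f₀ z + -1 * f n z = f₀ z - f n z := by ring
        rw [e]
        exact this) q hq
    have h1 := DIRB_wE_le α q
    rw [Real.dist_eq]
    have e : u₀ q + -1 * u n q = u₀ q - u n q := by ring
    rw [e] at hb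
    have h2 : ε / 2 * wE α q ≤ ε / 2 * 1 := by gcongr
    linarith
  · rw [h₀.zero q hq, (h n).zero q hq, dist_self]
    exact hε

end Pool.Agent.MFE
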