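import Mathlib

/-!
# MFE: definitions

Project MFE: the complete bifurcation diagram of the mean field equation
`-Δu = λ e^u / ∫ e^u` with zero boundary values on thin ellipses
`Ell α = {α² x² + y² < 1}` (problem MP_a23ab4_an).
-/

open scoped ContDiff

namespace Pool.Agent.MFE

/-- partial derivative in the first variable -/
noncomputable def dx (f : ℝ × ℝ → ℝ) (q : ℝ × ℝ) : ℝ := fderiv ℝ f q (1, 0)

/-- partial derivative in the second variable -/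
noncomputable def dy (f : ℝ × ℝ → ℝ) (q : ℝ × ℝ) : ℝ := fderiv ℝ f q (0, 1)

/-- the Laplace operator of the plane -/
noncomputable def lap (f : ℝ × ℝ → ℝ) (q : ℝ × ℝ) : ℝ := dx (dx f) q + dy (dy f) q

/-- the scalar product of the gradients -/
noncomputable def gdot (f g : ℝ × ℝ → ℝ) (q : ℝ × ℝ) : ℝ := dx f q * dx g q + dy f q * dy g q

/-- the open ellipse with half axes `1/α` and `1` -/
def Ell (α : ℝ) : Set (ℝ × ℝ) := {q | α ^ 2 * q.1 ^ 2 + q.2 ^ 2 < 1}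

/-- the closed ellipse -/
def CEll (α : ℝ) : Set (ℝ × ℝ) := {q | α ^ 2 * q.1 ^ 2 + q.2 ^ 2 ≤ 1}

/-- the defining function of the ellipse -/
def wE (α : ℝ) (q : ℝ × ℝ) : ℝ := 1 - α ^ 2 * q.1 ^ 2 - q.2 ^ 2

/-- Euclidean disc -/
def Disc (q₀ : ℝ × ℝ) (r : ℝ) : Set (ℝ × ℝ) :=
  {q | (q.1 - q₀.1) ^ 2 + (q.2 - q₀.2) ^ 2 < r ^ 2}

/-- closed Euclidean disc -/
def CDisc (q₀ : ℝ × ℝ) (r : ℝ) : Set (ℝ × ℝ) :=
  {q | (q.1 - q₀.1) ^ 2 + (q.2 - q₀.2) ^ 2 ≤ r ^ 2}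

/-- closed square of half side `d` -/
def Sq (q₀ : ℝ × ℝ) (d : ℝ) : Set (ℝ × ℝ) := {q | |q.1 - q₀.1| ≤ d ∧ |q.2 - q₀.2| ≤ d}

/-- horizontal strip -/
def Str (L : ℝ) : Set (ℝ × ℝ) := {q | |q.2| < L}

/-- even in the first variable -/
def EvX (f : ℝ × ℝ → ℝ) : Prop := ∀ x y, f (-x, y) = f (x, y)

/-- even in the second variable -/
def EvY (f : ℝ × ℝ → ℝ) : Prop := ∀ x y, f (x, -y) = f (x, y)

/-- open sets which contain with a point the whole closed rectangle spanned by its four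
reflections; the ellipses, the discs around the origin and the strips are of this kind -/
structure Solid (D : Set (ℝ × ℝ)) : Prop where
  isOpen : IsOpen D
  zero_mem : ((0 : ℝ), (0 : ℝ)) ∈ D
  solid : ∀ x y x' y' : ℝ, (x, y) ∈ D → |x'| ≤ |x| → |y'| ≤ |y| → (x', y') ∈ D

/-- `N` is a connected component of the set of points of `D` where `f` is positive -/
structure IsNodal (D : Set (ℝ × ℝ)) (f : ℝ × ℝ → ℝ) (N : Set (ℝ × ℝ)) : Prop where
  isOpen : IsOpen N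
  conn : IsConnected N
  sub : ∀ q ∈ N, q ∈ D ∧ 0 < f q
  maxi : ∀ N' : Set (ℝ × ℝ), IsPreconnected N' → N ⊆ N' → (∀ q ∈ N', q ∈ D ∧ 0 < f q) → N' ⊆ N

/-- weak form of `-Δu = f` in `U` -/
def Weak (u f : ℝ × ℝ → ℝ) (U : Set (ℝ × ℝ)) : Prop :=
  ∀ η : ℝ × ℝ → ℝ, ContDiff ℝ ∞ η → HasCompactSupport η → tsupport η ⊆ U →
    ∫ q, u q * lap η q = -∫ q, f q * η q

/-- `v` solves `-Δv = μ e^v` in the ellipse, `v = 0` outside -/
structure GSol (α μ : ℝ) (v : ℝ × ℝ → ℝ) : Prop where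
  mu_pos : 0 < μ
  cont : Continuous v
  zero : ∀ q, q ∉ Ell α → v q = 0
  smooth : ContDiffOn ℝ ∞ v (Ell α)
  eq : ∀ q ∈ Ell α, -lap v q = μ * Real.exp (v q)

/-- critical data: `v` is a solution and `φ ≠ 0` is an even solution of the linearised mean
field equation `-Δφ = μ e^v (φ - t)`, `t` the mean value of `φ` with respect to `e^v` -/
structure CD (α μ t : ℝ) (v φ : ℝ × ℝ → ℝ) : Prop where
  sol : GSol α μ v
  cont : Continuous φ
  zero : ∀ q, q ∉ Ell α → φ q = 0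
  smooth : ContDiffOn ℝ ∞ φ (Ell α)
  eq : ∀ q ∈ Ell α, -lap φ q = μ * Real.exp (v q) * (φ q - t)
  mean : ∫ q in Ell α, Real.exp (v q) * (φ q - t) = 0
  evx : EvX φ
  evy : EvY φ
  ne : ∃ q, φ q ≠ 0

end Pool.Agent.MFE
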