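import Pool.Agent.MFE.Defs

/-!
# MFE.FDef: the mean field problem (definition for the final statement)
-/

open scoped ContDiff

namespace Pool.Agent.MFE

/-- `u` is a (classical) solution of the Dirichlet mean field problem
`-Δu = lam e^u / ∫_Ω e^u` in `Ω = Ell α`, `u = 0` on the boundary -/
structure MFSol (α lam : ℝ) (u : ℝ × ℝ → ℝ) : Prop where
  cont : ContinuousOn u (closure (Ell α))
  c2 : ContDiffOn ℝ 2 u (Ell α)
  bd : ∀ q ∈ frontier (Ell α), u q = 0
  eq : ∀ q ∈ Ell α, -lap u q = lam * (Real.exp (u q) / ∫ z in Ell α, Real.exp (u z))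

end Pool.Agent.MFE
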