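import Pool.Agent.MFE.CRV

/-!
# MFE.LAM: critical points of `λ` along the curve

`lam p = M p ∫_Ell e^{V p}`. Write `v = V p`, `μ = M p`, `'` for the derivative in `p`,
`φ = v'` (a bounded continuous function with `φ(0) = 1`, even, zero outside the ellipse),
`I f = ∫_Ell f` (a continuous linear functional on `BF`; `Ell α` has finite area).
`v = μ K (E v)` gives `φ = μ' K (E v) + μ K (E v φ)`; `lam' = μ' I (E v) + μ I (E v φ)`.
If `lam' = 0` then `μ' = -μ t` with `t = I (E v φ)/I (E v)`, and `φ = μ K (E v (φ - t))`, `φ` is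
smooth in the ellipse (`dir_smooth` after `reg_n`; `φ` solves `Dir α (μ e^v (φ - t)) φ`:
`reg_lin`): this is `CD α μ t v φ`.
Second derivative: put `ρ = E v / I (E v)`, `<f> = I (ρ f)`, `λ = lam p`; `v = λ K ρ` on the whole
interval, so at a critical point `φ' = λ'' K ρ + λ K ρ''`, `ρ' = ρ (φ - t)`, `t = <φ>`,
`ρ'' = ρ ((φ-t)² - <(φ-t)²> + φ' - <φ'>)`. Pair with `ψ = ρ (φ - t)`: `φ = λ K ψ`, and `K` is
symmetric on even functions (`dir_sym`): `I (ψ φ') = λ'' I (φ ρ)/λ + I (φ ρ'')`, i.e.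
`<φ φ'> - t <φ'> = λ'' t/λ + <φ (φ-t)²> - t <(φ-t)²> + <φ φ'> - t <φ'>`, so
`λ'' t = -λ <(φ-t)³>`.
-/

open scoped ContDiff BoundedContinuousFunction

namespace Pool.Agent.MFE

/-- integration over the ellipse as a functional -/
private noncomputable def LAM_I {α : ℝ} (hα : 0 < α) : BF →L[ℝ] ℝ :=
  LinearMap.mkContinuous
    { toFun := fun f => ∫ q in Ell α, f q
      map_add' := fun f g => by
        have hfin : MeasureTheory.IsFiniteMeasure (MeasureTheory.volume.restrict (Ell α)) :=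
          ⟨by
            rw [MeasureTheory.Measure.restrict_apply_univ, area_ell hα]
            exact ENNReal.ofReal_lt_top⟩
        exact MeasureTheory.integral_add (f.integrable _) (g.integrable _)
      map_smul' := fun c f => MeasureTheory.integral_const_mul c _ }
    (MeasureTheory.volume.real (Ell α)) (fun f => by
      have h := MeasureTheory.norm_setIntegral_le_of_norm_le_const (μ := MeasureTheory.volume)
        (s := Ell α) (f := f) (C := ‖f‖) (by rw [area_ell hα]; exact ENNReal.ofReal_lt_top)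
        (fun q _ => f.norm_coe_le_norm q)
      rw [mul_comm] at h
      exact h)

private theorem LAM_I_apply {α : ℝ} (hα : 0 < α) (f : BF) :
    LAM_I hα f = ∫ q in Ell α, f q := rfl

private theorem LAM_sym {α : ℝ} (hα : 0 < α) (hα1 : α ≤ 1) {K : BF →L[ℝ] BF} (hK : IsKop α K)
    {f g : BF} (fx : EvX f) (fy : EvY f) (gx : EvX g) (gy : EvY g) :
    LAM_I hα (f * K g) = LAM_I hα (g * K f) := by
  have h1 := hK.dir f
  have h2 := hK.dir g
  rw [sym4_even fx fy] at h1
  rw [sym4_even gx gy] at h2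
  exact dir_sym hα hα1 f.continuous.continuousOn g.continuous.continuousOn h1 h2

private theorem LAM_pos {α : ℝ} (hα : 0 < α) {f : BF} (hf : ∀ q, 0 < f q) :
    0 < LAM_I hα f := by
  have hfin : MeasureTheory.IsFiniteMeasure (MeasureTheory.volume.restrict (Ell α)) :=
    ⟨by
      rw [MeasureTheory.Measure.restrict_apply_univ, area_ell hα]
      exact ENNReal.ofReal_lt_top⟩
  rw [LAM_I_apply, MeasureTheory.integral_pos_iff_support_of_nonneg (fun q => (hf q).le)
    (f.integrable _)]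
  have h : Function.support (f : ℝ × ℝ → ℝ) = Set.univ := by
    ext q
    simp [(hf q).ne']
  rw [h, MeasureTheory.Measure.restrict_apply_univ, area_ell hα, ENNReal.ofReal_pos]
  positivity

private theorem LAM_exp {E : BF → BF} (hE : IsExp E) : ContDiff ℝ ∞ E ∧
    ∀ f : BF, ∃ L : BF →L[ℝ] BF, HasStrictFDerivAt E L f ∧ ∀ h : BF, L h = E f * h := by
  obtain ⟨E0, h0, h1, h2⟩ := exp_exists
  have h3 : E0 = E := by
    funext f
    ext q
    rw [h0, hE]
  rw [h3] at h1 h2
  exact ⟨h1, h2⟩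

theorem lam_facts {α : ℝ} (hα : 0 < α) (hα1 : α ≤ 1) {K : BF →L[ℝ] BF} (hK : IsKop α K)
    {E : BF → BF} (hE : IsExp E) {δ : ℝ} {M : ℝ → ℝ} {V : ℝ → BF} (hδ : 0 < δ)
    (hM : ContDiffOn ℝ ∞ M (Set.Ioi (-δ))) (hV : ContDiffOn ℝ ∞ V (Set.Ioi (-δ)))
    (hfix : ∀ p, -δ < p → V p = M p • K (E (V p)) ∧ V p (0, 0) = p)
    (hsol : ∀ p, 0 < p → GSol α (M p) (V p)) :
    ContDiffOn ℝ ∞ (fun p => M p * ∫ q in Ell α, Real.exp (V p q)) (Set.Ioi (-δ)) ∧
    ∀ p, 0 < p → deriv (fun p => M p * ∫ q in Ell α, Real.exp (V p q)) p = 0 →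
      ∃ (t : ℝ) (φ : ℝ × ℝ → ℝ), CD α (M p) t (V p) φ ∧ φ (0, 0) = 1 ∧
        deriv (deriv (fun p => M p * ∫ q in Ell α, Real.exp (V p q))) p * t
          = -(M p * ∫ q in Ell α, Real.exp (V p q) * (φ q - t) ^ 3) := by
  obtain ⟨hEs, hEd⟩ := LAM_exp hE
  have hop : IsOpen (Set.Ioi (-δ)) := isOpen_Ioi
  set I : BF →L[ℝ] ℝ := LAM_I hα with hI
  have hlam : (fun p => M p * ∫ q in Ell α, Real.exp (V p q)) = fun p => M p * I (E (V p)) := by
    funext p
    rw [hI, LAM_I_apply]
    congr 2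
    funext q
    rw [hE]
  have hEV : ContDiffOn ℝ ∞ (fun p => E (V p)) (Set.Ioi (-δ)) := hEs.comp_contDiffOn hV
  rw [hlam]
  refine ⟨hM.mul (I.contDiff.comp_contDiffOn hEV), ?_⟩
  -- derivatives
  have dM1 : ContDiffOn ℝ ∞ (deriv M) (Set.Ioi (-δ)) :=
    ((contDiffOn_infty_iff_deriv_of_isOpen hop).1 hM).2
  have dV1 : ContDiffOn ℝ ∞ (deriv V) (Set.Ioi (-δ)) :=
    ((contDiffOn_infty_iff_deriv_of_isOpen hop).1 hV).2
  have hM1 : ∀ p, -δ < p → HasDerivAt M (deriv M p) p := fun p hp =>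
    ((hM.contDiffAt (Ioi_mem_nhds hp)).differentiableAt (by simp)).hasDerivAt
  have hM2 : ∀ p, -δ < p → HasDerivAt (deriv M) (deriv (deriv M) p) p := fun p hp =>
    ((dM1.contDiffAt (Ioi_mem_nhds hp)).differentiableAt (by simp)).hasDerivAt
  have hV1 : ∀ p, -δ < p → HasDerivAt V (deriv V p) p := fun p hp =>
    ((hV.contDiffAt (Ioi_mem_nhds hp)).differentiableAt (by simp)).hasDerivAt
  have hV2 : ∀ p, -δ < p → HasDerivAt (deriv V) (deriv (deriv V) p) p := fun p hp =>
    ((dV1.contDiffAt (Ioi_mem_nhds hp)).differentiableAt (by simp)).hasDerivAt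
  have he1 : ∀ p, -δ < p → HasDerivAt (fun p => E (V p)) (E (V p) * deriv V p) p := by
    intro p hp
    obtain ⟨L, hL1, hL2⟩ := hEd (V p)
    have h := hL1.hasFDerivAt.comp_hasDerivAt p (hV1 p hp)
    rw [hL2] at h
    exact h
  have he2 : ∀ p, -δ < p → HasDerivAt (fun p => E (V p) * deriv V p)
      (E (V p) * deriv V p * deriv V p + E (V p) * deriv (deriv V) p) p := fun p hp =>
    (he1 p hp).mul (hV2 p hp)
  have hK1 : ∀ p, -δ < p → HasDerivAt (fun p => K (E (V p))) (K (E (V p) * deriv V p)) p :=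
    fun p hp => K.hasFDerivAt.comp_hasDerivAt p (he1 p hp)
  have hK2 : ∀ p, -δ < p → HasDerivAt (fun p => K (E (V p) * deriv V p))
      (K (E (V p) * deriv V p * deriv V p + E (V p) * deriv (deriv V) p)) p :=
    fun p hp => K.hasFDerivAt.comp_hasDerivAt p (he2 p hp)
  have hI1 : ∀ p, -δ < p → HasDerivAt (fun p => I (E (V p))) (I (E (V p) * deriv V p)) p :=
    fun p hp => I.hasFDerivAt.comp_hasDerivAt p (he1 p hp)
  have hI2 : ∀ p, -δ < p → HasDerivAt (fun p => I (E (V p) * deriv V p))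
      (I (E (V p) * deriv V p * deriv V p + E (V p) * deriv (deriv V) p)) p :=
    fun p hp => I.hasFDerivAt.comp_hasDerivAt p (he2 p hp)
  -- the equation for the first derivative
  have eqA : ∀ p, -δ < p → deriv V p = M p • K (E (V p) * deriv V p) +
      deriv M p • K (E (V p)) := by
    intro p hp
    have h1 : HasDerivAt (fun p => M p • K (E (V p)))
        (M p • K (E (V p) * deriv V p) + deriv M p • K (E (V p))) p := (hM1 p hp).smul (hK1 p hp)
    have h2 : V =ᶠ[nhds p] fun p => M p • K (E (V p)) := by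
      filter_upwards [Ioi_mem_nhds hp] with s hs
      exact (hfix s hs).1
    exact (hV1 p hp).unique (h1.congr_of_eventuallyEq h2)
  have eqB : ∀ p, -δ < p → deriv (deriv V) p =
      (M p • K (E (V p) * deriv V p * deriv V p + E (V p) * deriv (deriv V) p) +
        deriv M p • K (E (V p) * deriv V p)) +
      (deriv M p • K (E (V p) * deriv V p) + deriv (deriv M) p • K (E (V p))) := by
    intro p hp
    have h1 : HasDerivAt (fun p => M p • K (E (V p) * deriv V p) + deriv M p • K (E (V p))) _ p :=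
      ((hM1 p hp).smul (hK2 p hp)).add ((hM2 p hp).smul (hK1 p hp))
    have h2 : deriv V =ᶠ[nhds p] fun p => M p • K (E (V p) * deriv V p) +
        deriv M p • K (E (V p)) := by
      filter_upwards [Ioi_mem_nhds hp] with s hs
      exact eqA s hs
    exact (hV2 p hp).unique (h1.congr_of_eventuallyEq h2)
  have hl1 : ∀ p, -δ < p → HasDerivAt (fun p => M p * I (E (V p)))
      (deriv M p * I (E (V p)) + M p * I (E (V p) * deriv V p)) p := fun p hp =>
    (hM1 p hp).mul (hI1 p hp)
  have hl2 : ∀ p, -δ < p → HasDerivAt (deriv (fun p => M p * I (E (V p))))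
      ((deriv (deriv M) p * I (E (V p)) + deriv M p * I (E (V p) * deriv V p)) +
        (deriv M p * I (E (V p) * deriv V p) +
          M p * I (E (V p) * deriv V p * deriv V p + E (V p) * deriv (deriv V) p))) p := by
    intro p hp
    have h1 : HasDerivAt (fun p => deriv M p * I (E (V p)) + M p * I (E (V p) * deriv V p)) _ p :=
      ((hM2 p hp).mul (hI1 p hp)).add ((hM1 p hp).mul (hI2 p hp))
    have h2 : deriv (fun p => M p * I (E (V p))) =ᶠ[nhds p]
        fun p => deriv M p * I (E (V p)) + M p * I (E (V p) * deriv V p) := by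
      filter_upwards [Ioi_mem_nhds hp] with s hs
      exact (hl1 s hs).deriv
    exact h1.congr_of_eventuallyEq h2
  intro p hp0 hcrit
  have hp : -δ < p := by linarith
  have hG := hsol p hp0
  set v : BF := V p with hv
  set e : BF := E v with he
  set φ : BF := deriv V p with hφ
  set χ : BF := deriv (deriv V) p with hχ
  rw [(hl1 p hp).deriv] at hcrit
  rw [(hl2 p hp).deriv]
  have hA := eqA p hp
  have hB := eqB p hp
  rw [← hv, ← he, ← hφ] at hA hB hcrit
  rw [← hχ] at hB
  rw [← hv, ← he, ← hφ, ← hχ]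
  set m : ℝ := M p with hm
  set m1 : ℝ := deriv M p with hm1
  set m2 : ℝ := deriv (deriv M) p with hm2
  have hm0 : 0 < m := hG.mu_pos
  have hepos : ∀ q, 0 < e q := fun q => by rw [he, hE]; exact Real.exp_pos _
  have hIe : 0 < I e := LAM_pos hα hepos
  set t : ℝ := I (e * φ) / I e with ht
  have hte : I (e * φ) = t * I e := by rw [ht]; field_simp
  have hm1t : m1 = -(m * t) := by
    have h1 : (m1 + m * t) * I e = 0 := by rw [hte] at hcrit; linarith
    have h2 := (mul_eq_zero.1 h1).resolve_right hIe.ne'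
    linarith
  set ψ : BF := e * φ - t • e with hψ
  have hφψ : φ = m • K ψ := by
    rw [hψ, map_sub, map_smul]
    conv_lhs => rw [hA, hm1t]
    module
  -- evenness
  have evc : ∀ f : BF, EvX (K f) ∧ EvY (K f) := fun f => ⟨hK.evx f, hK.evy f⟩
  have vx : EvX v := fun x y => by
    have h := (hfix p hp).1
    rw [← hv] at h
    have h1 : ∀ q, v q = M p * K (E v) q := fun q => by
      conv_lhs => rw [h]
      rfl
    rw [h1, h1 (x, y), hK.evx]
  have vy : EvY v := fun x y => by
    have h := (hfix p hp).1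
    rw [← hv] at h
    have h1 : ∀ q, v q = M p * K (E v) q := fun q => by
      conv_lhs => rw [h]
      rfl
    rw [h1, h1 (x, y), hK.evy]
  have ex : EvX e := fun x y => by rw [he, hE, hE, vx]
  have ey : EvY e := fun x y => by rw [he, hE, hE, vy]
  have hφq : ∀ q, φ q = m * K ψ q := fun q => by
    conv_lhs => rw [hφψ]
    rfl
  have φx : EvX φ := fun x y => by rw [hφq, hφq (x, y), hK.evx]
  have φy : EvY φ := fun x y => by rw [hφq, hφq (x, y), hK.evy]
  have hχq : ∀ q, χ q = (m * K (e * φ * φ + e * χ) q + m1 * K (e * φ) q) +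
      (m1 * K (e * φ) q + m2 * K e q) := fun q => by
    conv_lhs => rw [hB]
    rfl
  have χx : EvX χ := fun x y => by
    rw [hχq, hχq (x, y)]
    simp only [hK.evx _ x y]
  have χy : EvY χ := fun x y => by
    rw [hχq, hχq (x, y)]
    simp only [hK.evy _ x y]
  have hψq : ∀ q, ψ q = e q * φ q - t * e q := fun q => rfl
  have ψx : EvX ψ := fun x y => by rw [hψq, hψq (x, y), ex, φx]
  have ψy : EvY ψ := fun x y => by rw [hψq, hψq (x, y), ey, φy]
  -- the boundary value problem
  have hdir : Dir α (fun q => m * Real.exp (v q) * φ q + -(m * t * Real.exp (v q))) φ := by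
    have h1 := hK.dir ψ
    rw [sym4_even ψx ψy] at h1
    have h2 := dir_smul m h1
    have h3 : (fun q => m * K ψ q) = (φ : ℝ × ℝ → ℝ) := by
      funext q; rw [hφq]
    have h4 : (fun q => m * ψ q) =
        fun q => m * Real.exp (v q) * φ q + -(m * t * Real.exp (v q)) := by
      funext q
      rw [hψq, he, hE]
      ring
    rw [h3, h4] at h2
    exact h2
  have hexs : ContDiffOn ℝ ∞ (fun q => m * Real.exp (v q)) (Ell α) :=
    contDiffOn_const.mul hG.smooth.exp
  have hexs2 : ContDiffOn ℝ ∞ (fun q => -(m * t * Real.exp (v q))) (Ell α) :=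
    (contDiffOn_const.mul hG.smooth.exp).neg
  have hreg := reg_lin (isOpen_ell α) hdir.cont.continuousOn hexs hexs2 hdir.weak
  have hφ0 : φ (0, 0) = 1 := by
    let ev : BF →L[ℝ] ℝ := BoundedContinuousFunction.evalCLM ℝ (0, 0)
    have h1 : HasDerivAt (fun p => V p (0, 0)) (φ (0, 0)) p :=
      ev.hasFDerivAt.comp_hasDerivAt p (hV1 p hp)
    have h2 : (fun p => V p (0, 0)) =ᶠ[nhds p] fun p => p := by
      filter_upwards [Ioi_mem_nhds hp] with s hs
      exact (hfix s hs).2
    exact (h1.congr_of_eventuallyEq h2.symm).unique (hasDerivAt_id p)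
  have hmean : ∫ q in Ell α, Real.exp (v q) * (φ q - t) = 0 := by
    have h1 : (∫ q in Ell α, Real.exp (v q) * (φ q - t)) = I ψ := by
      rw [hI, LAM_I_apply]
      congr 1
      funext q
      rw [hψq, he, hE]
      ring
    rw [h1, hψ, map_sub, map_smul, hte, smul_eq_mul]
    ring
  refine ⟨t, φ, ⟨hG, φ.continuous, hdir.zero, hreg.1, ?_, hmean, φx, φy, ⟨(0, 0), ?_⟩⟩, hφ0, ?_⟩
  · intro q hq
    rw [hreg.2 q hq]
    ring
  · rw [hφ0]; exact one_ne_zero
  -- the second derivative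
  have hpair : ∀ f : BF, EvX f → EvY f → m * I (ψ * K f) = I (f * φ) := by
    intro f fx fy
    have h1 := LAM_sym hα hα1 hK ψx ψy fx fy
    rw [← hI] at h1
    rw [h1, ← smul_eq_mul, ← map_smul]
    congr 1
    rw [hφψ, ← mul_smul_comm]
  have p1 := hpair e ex ey
  have p2 := hpair (e * φ) (fun x y => by
    show e (-x, y) * φ (-x, y) = e (x, y) * φ (x, y)
    rw [ex, φx]) (fun x y => by
    show e (x, -y) * φ (x, -y) = e (x, y) * φ (x, y)
    rw [ey, φy])
  have p3 := hpair (e * φ * φ + e * χ) (fun x y => by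
    show e (-x, y) * φ (-x, y) * φ (-x, y) + e (-x, y) * χ (-x, y) =
      e (x, y) * φ (x, y) * φ (x, y) + e (x, y) * χ (x, y)
    rw [ex, φx, χx]) (fun x y => by
    show e (x, -y) * φ (x, -y) * φ (x, -y) + e (x, -y) * χ (x, -y) =
      e (x, y) * φ (x, y) * φ (x, y) + e (x, y) * χ (x, y)
    rw [ey, φy, χy])
  have p4 : I (ψ * χ) = (m * I (ψ * K (e * φ * φ + e * χ)) + m1 * I (ψ * K (e * φ))) +
      (m1 * I (ψ * K (e * φ)) + m2 * I (ψ * K e)) := by
    conv_lhs => rw [hB]
    simp only [mul_add, mul_smul_comm, map_add, map_smul, smul_eq_mul]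
  have p5 : ψ * χ = e * φ * χ - t • (e * χ) := by
    rw [hψ, sub_mul, smul_mul_assoc]
  have p6 : (e * φ * φ + e * χ) * φ = e * φ * φ * φ + e * φ * χ := by
    ring
  have p7 : (∫ q in Ell α, Real.exp (v q) * (φ q - t) ^ 3) =
      I (e * φ * φ * φ) - 3 * t * I (e * φ * φ) + 3 * t ^ 2 * I (e * φ) - t ^ 3 * I e := by
    have h1 : (∫ q in Ell α, Real.exp (v q) * (φ q - t) ^ 3) =
        I (e * φ * φ * φ - (3 * t) • (e * φ * φ) + (3 * t ^ 2) • (e * φ) - t ^ 3 • e) := by
      rw [hI, LAM_I_apply]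
      congr 1
      funext q
      show _ = e q * φ q * φ q * φ q - (3 * t) * (e q * φ q * φ q) + (3 * t ^ 2) * (e q * φ q)
        - t ^ 3 * e q
      rw [he, hE]
      ring
    rw [h1]
    simp only [map_add, map_sub, map_smul, smul_eq_mul]
  rw [p7]
  rw [p5, map_sub, map_smul, smul_eq_mul] at p4
  rw [p6, I.map_add] at p3
  rw [map_add, hte]
  rw [hte] at p1
  have q1 : m * (I (e * φ * χ) - t * I (e * χ)) =
      m * (I (e * φ * φ * φ) + I (e * φ * χ)) + 2 * m1 * I (e * φ * φ) + m2 * (t * I e) := by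
    rw [p4]
    have r1 : m * (m * I (ψ * K (e * φ * φ + e * χ)) + m1 * I (ψ * K (e * φ)) +
      (m1 * I (ψ * K (e * φ)) + m2 * I (ψ * K e))) =
      m * (m * I (ψ * K (e * φ * φ + e * χ))) + 2 * m1 * (m * I (ψ * K (e * φ))) +
        m2 * (m * I (ψ * K e)) := by ring
    rw [r1, p1, p2, p3]
  rw [hm1t] at q1 ⊢
  linear_combination (-1 : ℝ) * q1

end Pool.Agent.MFE
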