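import Pool.Agent.MFE.FDef
import Pool.Agent.MFE.BND

/-!
# MFE.MFG: mean field solutions and `GSol`

`mf_gsol`: `v` := `u` on `Ell α`, zero outside: continuous on the plane (`closure_ell`: the
frontier is `{wE = 0}`), `μ = lam/∫ e^u > 0`; smooth in the ellipse by `weak_of_c2`, `reg_exp`.
`gsol_mf`: `lam = μ ∫ e^v`.
`mass_lower`: `e^v ≥ 1`, `area_ell`.
-/

open scoped ContDiff

namespace Pool.Agent.MFE

private theorem MFG_cell {α : ℝ} (hα : 0 < α) : IsCompact (closure (Ell α)) := by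
  rw [closure_ell hα]
  exact isCompact_cell hα

private theorem MFG_int {α : ℝ} (hα : 0 < α) {u : ℝ × ℝ → ℝ}
    (hu : ContinuousOn u (closure (Ell α))) :
    MeasureTheory.IntegrableOn (fun z => Real.exp (u z)) (Ell α) := by
  have h1 : ContinuousOn (fun z => Real.exp (u z)) (closure (Ell α)) :=
    Real.continuous_exp.comp_continuousOn hu
  exact (h1.integrableOn_compact (MFG_cell hα)).mono_set subset_closure

private theorem MFG_fin {α : ℝ} (hα : 0 < α) : MeasureTheory.volume (Ell α) ≠ ⊤ := by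
  rw [area_ell hα]; exact ENNReal.ofReal_ne_top

private theorem MFG_vol {α : ℝ} (hα : 0 < α) :
    (MeasureTheory.volume (Ell α)).toReal = Real.pi / α := by
  rw [area_ell hα, ENNReal.toReal_ofReal (by positivity)]

private theorem MFG_int_ge {α c : ℝ} (hα : 0 < α) {u : ℝ × ℝ → ℝ}
    (hu : ContinuousOn u (closure (Ell α))) (hc : ∀ z ∈ Ell α, c ≤ Real.exp (u z)) :
    c * (Real.pi / α) ≤ ∫ z in Ell α, Real.exp (u z) := by
  have hm : MeasurableSet (Ell α) := (isOpen_ell α).measurableSet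
  have h1 : ∫ z in Ell α, c ≤ ∫ z in Ell α, Real.exp (u z) := by
    refine MeasureTheory.setIntegral_mono_on ?_ (MFG_int hα hu) hm hc
    exact MeasureTheory.integrableOn_const (MFG_fin hα)
  rw [MeasureTheory.setIntegral_const, smul_eq_mul, MeasureTheory.measureReal_def, MFG_vol hα,
    mul_comm] at h1
  exact h1

private theorem MFG_int_pos {α : ℝ} (hα : 0 < α) {u : ℝ × ℝ → ℝ}
    (hu : ContinuousOn u (closure (Ell α))) : 0 < ∫ z in Ell α, Real.exp (u z) := by
  obtain ⟨C, hC⟩ := ((MFG_cell hα).image_of_continuousOn hu).isBounded.exists_norm_le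
  have h1 : ∀ z ∈ Ell α, Real.exp (-C) ≤ Real.exp (u z) := by
    intro z hz
    have h2 := hC (u z) (Set.mem_image_of_mem u (subset_closure hz))
    rw [Real.norm_eq_abs] at h2
    exact Real.exp_le_exp.2 (by linarith [neg_le_of_abs_le h2])
  have h3 := MFG_int_ge hα hu h1
  have h4 : 0 < Real.exp (-C) * (Real.pi / α) := by positivity
  linarith

theorem mf_gsol {α lam : ℝ} (hα : 0 < α) (hl : 0 < lam) {u : ℝ × ℝ → ℝ} (h : MFSol α lam u) :
    ∃ v : ℝ × ℝ → ℝ, GSol α (lam / ∫ z in Ell α, Real.exp (u z)) v ∧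
      (∀ q ∈ closure (Ell α), v q = u q) ∧
      ∫ z in Ell α, Real.exp (u z) = ∫ z in Ell α, Real.exp (v z) := by
  classical
  have hI := MFG_int_pos hα h.cont
  have hm : MeasurableSet (Ell α) := (isOpen_ell α).measurableSet
  set I := ∫ z in Ell α, Real.exp (u z) with hIdef
  set v : ℝ × ℝ → ℝ := Set.indicator (Ell α) u with hv
  have hin : ∀ q ∈ Ell α, v q = u q := fun q hq => Set.indicator_of_mem hq u
  have hout : ∀ q, q ∉ Ell α → v q = 0 := fun q hq => Set.indicator_of_notMem hq u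
  have hcl : ∀ q ∈ closure (Ell α), v q = u q := by
    intro q hq
    by_cases hq' : q ∈ Ell α
    · exact hin q hq'
    · rw [hout q hq', h.bd q]
      rw [(isOpen_ell α).frontier_eq]
      exact ⟨hq, hq'⟩
  have hcont : Continuous v := continuous_indicator h.bd h.cont
  have hvc : ContinuousOn v (Ell α) := hcont.continuousOn
  have hv2 : ContDiffOn ℝ 2 v (Ell α) := h.c2.congr hin
  have hveq : ∀ q ∈ Ell α, -lap v q = lam / I * Real.exp (v q) := by
    intro q hq
    rw [lap_congr (isOpen_ell α) hin hq, h.eq q hq, hin q hq]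
    ring
  have hreg := reg_exp (isOpen_ell α) hvc (weak_of_c2 (isOpen_ell α) hv2 hveq)
  refine ⟨v, ⟨div_pos hl hI, hcont, hout, hreg.1, hveq⟩, hcl, ?_⟩
  exact MeasureTheory.setIntegral_congr_fun hm fun z hz => by
    show Real.exp (u z) = Real.exp (v z)
    rw [hin z hz]

theorem gsol_mf {α μ : ℝ} (hα : 0 < α) {v u : ℝ × ℝ → ℝ} (h : GSol α μ v)
    (hu : ∀ q ∈ closure (Ell α), u q = v q) :
    MFSol α (μ * ∫ z in Ell α, Real.exp (v z)) u := by
  have hm : MeasurableSet (Ell α) := (isOpen_ell α).measurableSet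
  have hin : ∀ q ∈ Ell α, u q = v q := fun q hq => hu q (subset_closure hq)
  have hI := MFG_int_pos hα (h.cont.continuousOn (s := closure (Ell α)))
  have hI2 : ∫ z in Ell α, Real.exp (u z) = ∫ z in Ell α, Real.exp (v z) :=
    MeasureTheory.setIntegral_congr_fun hm fun z hz => by
      show Real.exp (u z) = Real.exp (v z)
      rw [hin z hz]
  have h2 : (2 : WithTop ℕ∞) ≤ ∞ :=
    show ((2 : ℕ∞) : WithTop ℕ∞) ≤ ((⊤ : ℕ∞) : WithTop ℕ∞) from WithTop.coe_le_coe.2 le_top
  refine ⟨h.cont.continuousOn.congr hu, (h.smooth.of_le h2).congr hin, ?_, ?_⟩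
  · intro q hq
    rw [(isOpen_ell α).frontier_eq] at hq
    rw [hu q hq.1, h.zero q hq.2]
  · intro q hq
    rw [lap_congr (isOpen_ell α) hin hq, h.eq q hq, hI2, hin q hq]
    field_simp

theorem gsol_int_pos {α μ : ℝ} (hα : 0 < α) {v : ℝ × ℝ → ℝ} (h : GSol α μ v) :
    Real.pi / α ≤ ∫ z in Ell α, Real.exp (v z) := by
  have h1 := MFG_int_ge (c := 1) hα (h.cont.continuousOn (s := closure (Ell α))) (by
    intro z hz
    exact Real.one_le_exp (h.nonneg hα z))
  linarith

end Pool.Agent.MFE
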