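import Mathlib

/-!
# MFE.SHP: the shape of `λ`

`f` smooth on `(-δ, ∞)`, `f 0 = 0`, `f'' < 0` at every critical point in `(0,∞)`, `f → L` at `∞`,
`f p₁ > L` for some `p₁ > 0` where `L > 0`. Then there is exactly one critical point `pc` in `(0,∞)`,
`f' > 0` on `(0,pc)`, `f' < 0` on `(pc,∞)`, and `f > L` on `[pc,∞)`.
Proof. `f` attains its maximum over `(0,∞)` at some `pc` (near `0` it is `< f p₁`, near `∞` too): a
critical point. Suppose `q ≠ pc`, `q > 0`, is another critical point; both are strict local maxima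
(second derivative test), so the minimum of `f` on the interval between them is attained in the
interior, a critical point which is a local minimum, contradicting `f'' < 0` there. So `f'` has no
zero in `(0,pc)` and in `(pc,∞)`: constant sign on each (connectedness): positive on `(0,pc)` since
`f 0 = 0 < f pc`, negative on `(pc,∞)` since the limit `L` is `< f pc`. Strictly decreasing with
limit `L`: `f > L` on `[pc,∞)`.
-/

open scoped ContDiff
open Filter Topology

namespace Pool.Agent.MFE

private theorem SHP_right {f : ℝ → ℝ} {δ c : ℝ} (hc : -δ < c)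
    (hd : ∀ p, -δ < p → HasDerivAt f (deriv f p) p)
    (hd2 : ∀ p, -δ < p → HasDerivAt (deriv f) (deriv (deriv f) p) p)
    (h1 : deriv f c = 0) (h2 : deriv (deriv f) c < 0) :
    ∀ᶠ x in 𝓝[>] c, f x < f c := by
  have hs := (hasDerivWithinAt_iff_tendsto_slope' (by simp)).1
    ((hd2 c hc).hasDerivWithinAt (s := Set.Ioi c))
  have hev := hs.eventually (gt_mem_nhds h2)
  rw [eventually_nhdsWithin_iff, Metric.eventually_nhds_iff] at hev
  obtain ⟨ε, hε, hball⟩ := hev
  have hneg : ∀ x, c < x → x < c + ε → deriv f x < 0 := by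
    intro x hx hx2
    have := hball (y := x) (by rw [Real.dist_eq, abs_lt]; constructor <;> linarith) hx
    rw [slope_def_field, h1, sub_zero] at this
    have hp : 0 < x - c := by linarith
    by_contra hcon
    push Not at hcon
    have := div_nonneg hcon hp.le
    linarith
  have : Set.Ioo c (c + ε) ∈ 𝓝[>] c := Ioo_mem_nhdsGT (by linarith)
  filter_upwards [this] with x hx
  have hanti : StrictAntiOn f (Set.Icc c x) := by
    refine strictAntiOn_of_deriv_neg (convex_Icc c x) ?_ ?_
    · intro y hy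
      exact (hd y (by linarith [hy.1])).continuousAt.continuousWithinAt
    · intro y hy
      rw [interior_Icc] at hy
      exact hneg y hy.1 (by linarith [hy.2, hx.2])
  exact hanti ⟨le_rfl, hx.1.le⟩ ⟨hx.1.le, le_rfl⟩ hx.1

private theorem SHP_left {f : ℝ → ℝ} {δ c : ℝ} (hc : -δ < c)
    (hd : ∀ p, -δ < p → HasDerivAt f (deriv f p) p)
    (hd2 : ∀ p, -δ < p → HasDerivAt (deriv f) (deriv (deriv f) p) p)
    (h1 : deriv f c = 0) (h2 : deriv (deriv f) c < 0) :
    ∀ᶠ x in 𝓝[<] c, f x < f c := by
  have hs := (hasDerivWithinAt_iff_tendsto_slope' (by simp)).1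
    ((hd2 c hc).hasDerivWithinAt (s := Set.Iio c))
  have hev := hs.eventually (gt_mem_nhds h2)
  rw [eventually_nhdsWithin_iff, Metric.eventually_nhds_iff] at hev
  obtain ⟨ε, hε, hball⟩ := hev
  set ε' := min ε ((c + δ) / 2) with hε'
  have hε'p : 0 < ε' := lt_min hε (by linarith)
  have he1 : ε' ≤ ε := min_le_left _ _
  have he2 : ε' ≤ (c + δ) / 2 := min_le_right _ _
  have hpos : ∀ x, c - ε' < x → x < c → 0 < deriv f x := by
    intro x hx hx2
    have := hball (y := x) (by rw [Real.dist_eq, abs_lt]; constructor <;> linarith) hx2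
    rw [slope_def_field, h1, sub_zero] at this
    have hp : x - c < 0 := by linarith
    by_contra hcon
    push Not at hcon
    have := div_nonneg_of_nonpos hcon hp.le
    linarith
  have : Set.Ioo (c - ε') c ∈ 𝓝[<] c := Ioo_mem_nhdsLT (by linarith)
  filter_upwards [this] with x hx
  have hmono : StrictMonoOn f (Set.Icc x c) := by
    refine strictMonoOn_of_deriv_pos (convex_Icc x c) ?_ ?_
    · intro y hy
      exact (hd y (by linarith [hy.1, hx.1])).continuousAt.continuousWithinAt
    · intro y hy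
      rw [interior_Icc] at hy
      exact hpos y (by linarith [hy.1, hx.1]) hy.2
  exact hmono ⟨le_rfl, hx.2.le⟩ ⟨hx.2.le, le_rfl⟩ hx.2

/-- two different critical points are impossible -/
private theorem SHP_two {f : ℝ → ℝ} {δ : ℝ} (hδ : 0 < δ)
    (hd : ∀ p, -δ < p → HasDerivAt f (deriv f p) p)
    (hd2 : ∀ p, -δ < p → HasDerivAt (deriv f) (deriv (deriv f) p) p)
    (hcr : ∀ p, 0 < p → deriv f p = 0 → deriv (deriv f) p < 0) {a b : ℝ} (ha : 0 < a)
    (hab : a < b) (h1 : deriv f a = 0) (h2 : deriv f b = 0) : False := by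
  have hcont : ContinuousOn f (Set.Icc a b) := fun y hy =>
    (hd y (by linarith [hy.1])).continuousAt.continuousWithinAt
  obtain ⟨m, hm, hmin⟩ := isCompact_Icc.exists_isMinOn ⟨a, le_rfl, hab.le⟩ hcont
  have hma : m ≠ a := by
    rintro rfl
    have h3 := SHP_right (by linarith) hd hd2 h1 (hcr m ha h1)
    have h4 : Set.Ioo m b ∈ 𝓝[>] m := Ioo_mem_nhdsGT hab
    obtain ⟨x, hx1, hx2⟩ := (h3.and h4).exists
    have := hmin (show x ∈ Set.Icc m b from ⟨hx2.1.le, hx2.2.le⟩)
    simp only [Set.mem_ofPred_eq] at this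
    linarith
  have hmb : m ≠ b := by
    rintro rfl
    have h3 := SHP_left (by linarith) hd hd2 h2 (hcr m (by linarith) h2)
    have h4 : Set.Ioo a m ∈ 𝓝[<] m := Ioo_mem_nhdsLT hab
    obtain ⟨x, hx1, hx2⟩ := (h3.and h4).exists
    have := hmin (show x ∈ Set.Icc a m from ⟨hx2.1.le, hx2.2.le⟩)
    simp only [Set.mem_ofPred_eq] at this
    linarith
  have hma' : a < m := lt_of_le_of_ne hm.1 (Ne.symm hma)
  have hmb' : m < b := lt_of_le_of_ne hm.2 hmb
  have hloc : IsLocalMin f m := hmin.isLocalMin (Icc_mem_nhds hma' hmb')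
  have hz : deriv f m = 0 := hloc.deriv_eq_zero
  have h3 := SHP_right (by linarith) hd hd2 hz (hcr m (by linarith) hz)
  have h4 : Set.Ioo m b ∈ 𝓝[>] m := Ioo_mem_nhdsGT hmb'
  obtain ⟨x, hx1, hx2⟩ := (h3.and h4).exists
  have := hmin (show x ∈ Set.Icc a b from ⟨by linarith [hx2.1], hx2.2.le⟩)
  simp only [Set.mem_ofPred_eq] at this
  linarith

theorem shape {f : ℝ → ℝ} {δ L p₁ : ℝ} (hδ : 0 < δ) (hf : ContDiffOn ℝ ∞ f (Set.Ioi (-δ)))
    (h0 : f 0 = 0) (hL : 0 < L)
    (hcr : ∀ p, 0 < p → deriv f p = 0 → deriv (deriv f) p < 0)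
    (hlim : Tendsto f atTop (𝓝 L)) (hp₁ : 0 < p₁) (hfp : L < f p₁) :
    ∃ pc : ℝ, 0 < pc ∧ (∀ p, 0 < p → p < pc → 0 < deriv f p) ∧ deriv f pc = 0 ∧
      deriv (deriv f) pc < 0 ∧ (∀ p, pc < p → deriv f p < 0) ∧ ∀ p, pc ≤ p → L < f p := by
  have hat : ∀ p, -δ < p → ContDiffAt ℝ ∞ f p := fun p hp =>
    hf.contDiffAt (Ioi_mem_nhds hp)
  have hd : ∀ p, -δ < p → HasDerivAt f (deriv f p) p := fun p hp =>
    ((hat p hp).differentiableAt (by simp)).hasDerivAt
  have hdc : ContDiffOn ℝ ∞ (deriv f) (Set.Ioi (-δ)) :=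
    hf.deriv_of_isOpen isOpen_Ioi (by simp)
  have hd2 : ∀ p, -δ < p → HasDerivAt (deriv f) (deriv (deriv f) p) p := fun p hp =>
    (((hdc.contDiffAt (Ioi_mem_nhds hp))).differentiableAt (by simp)).hasDerivAt
  have hcontd : ∀ a b : ℝ, 0 ≤ a → ContinuousOn (deriv f) (Set.Icc a b) := fun a b ha y hy =>
    (hd2 y (by linarith [hy.1])).continuousAt.continuousWithinAt
  -- maximum
  have hev := hlim.eventually (gt_mem_nhds hfp)
  obtain ⟨b₀, hb₀⟩ := eventually_atTop.1 hev
  set b := max b₀ (p₁ + 1) with hb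
  have hb1 : f b < f p₁ := hb₀ b (le_max_left _ _)
  have hb2 : p₁ + 1 ≤ b := le_max_right _ _
  have hcont : ContinuousOn f (Set.Icc 0 b) := fun y hy =>
    (hd y (by linarith [hy.1])).continuousAt.continuousWithinAt
  obtain ⟨pc, hpc, hmax⟩ := isCompact_Icc.exists_isMaxOn ⟨p₁, hp₁.le, by linarith⟩ hcont
  have hpcf : f p₁ ≤ f pc := hmax (show p₁ ∈ Set.Icc 0 b from ⟨hp₁.le, by linarith⟩)
  have hpc0 : 0 < pc := by
    rcases hpc.1.lt_or_eq with h | h
    · exact h
    · exfalso
      rw [← h, h0] at hpcf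
      linarith
  have hpcb : pc < b := by
    rcases hpc.2.lt_or_eq with h | h
    · exact h
    · exfalso
      rw [h] at hpcf
      linarith
  have hloc : IsLocalMax f pc := hmax.isLocalMax (Icc_mem_nhds hpc0 hpcb)
  have hz : deriv f pc = 0 := hloc.deriv_eq_zero
  have hne : ∀ q, 0 < q → q ≠ pc → deriv f q ≠ 0 := by
    intro q hq hqne hq0
    rcases lt_or_gt_of_ne hqne with h | h
    · exact SHP_two hδ hd hd2 hcr hq h hq0 hz
    · exact SHP_two hδ hd hd2 hcr hpc0 h hz hq0
  have hleft : ∀ p, 0 < p → p < pc → 0 < deriv f p := by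
    intro p hp hppc
    rcases lt_trichotomy (deriv f p) 0 with h | h | h
    · exfalso
      have hall : ∀ x, 0 < x → x < pc → deriv f x < 0 := by
        intro x hx hxpc
        by_contra hcon
        push Not at hcon
        rcases lt_trichotomy x p with hxp | hxp | hxp
        · obtain ⟨z, hz1, hz2⟩ := intermediate_value_Icc' hxp.le (hcontd x p hx.le)
            (show (0 : ℝ) ∈ Set.Icc (deriv f p) (deriv f x) from ⟨h.le, hcon⟩)
          exact hne z (by linarith [hz1.1]) (by linarith [hz1.2] : z < pc).ne hz2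
        · rw [hxp] at hcon
          linarith
        · obtain ⟨z, hz1, hz2⟩ := intermediate_value_Icc hxp.le (hcontd p x hp.le)
            (show (0 : ℝ) ∈ Set.Icc (deriv f p) (deriv f x) from ⟨h.le, hcon⟩)
          exact hne z (by linarith [hz1.1]) (by linarith [hz1.2] : z < pc).ne hz2
      have hanti : StrictAntiOn f (Set.Icc 0 pc) := by
        refine strictAntiOn_of_deriv_neg (convex_Icc 0 pc) ?_ ?_
        · intro y hy
          exact (hd y (by linarith [hy.1])).continuousAt.continuousWithinAt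
        · intro y hy
          rw [interior_Icc] at hy
          exact hall y hy.1 hy.2
      have := hanti ⟨le_rfl, hpc0.le⟩ ⟨hpc0.le, le_rfl⟩ hpc0
      rw [h0] at this
      linarith
    · exact absurd h (hne p hp hppc.ne)
    · exact h
  have hright : ∀ p, pc < p → deriv f p < 0 := by
    intro p hp
    rcases lt_trichotomy (deriv f p) 0 with h | h | h
    · exact h
    · exact absurd h (hne p (by linarith) hp.ne')
    · exfalso
      have hall : ∀ x, pc < x → 0 < deriv f x := by
        intro x hx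
        by_contra hcon
        push Not at hcon
        rcases lt_trichotomy x p with hxp | hxp | hxp
        · obtain ⟨z, hz1, hz2⟩ := intermediate_value_Icc hxp.le (hcontd x p (by linarith))
            (show (0 : ℝ) ∈ Set.Icc (deriv f x) (deriv f p) from ⟨hcon, h.le⟩)
          exact hne z (by linarith [hz1.1]) (by linarith [hz1.1] : pc < z).ne' hz2
        · rw [hxp] at hcon
          linarith
        · obtain ⟨z, hz1, hz2⟩ := intermediate_value_Icc' hxp.le (hcontd p x (by linarith))
            (show (0 : ℝ) ∈ Set.Icc (deriv f x) (deriv f p) from ⟨hcon, h.le⟩)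
          exact hne z (by linarith [hz1.1]) (by linarith [hz1.1] : pc < z).ne' hz2
      have hge : ∀ x, pc < x → f pc ≤ f x := by
        intro x hx
        have hmono : StrictMonoOn f (Set.Icc pc x) := by
          refine strictMonoOn_of_deriv_pos (convex_Icc pc x) ?_ ?_
          · intro y hy
            exact (hd y (by linarith [hy.1])).continuousAt.continuousWithinAt
          · intro y hy
            rw [interior_Icc] at hy
            exact hall y hy.1
        exact (hmono ⟨le_rfl, hx.le⟩ ⟨hx.le, le_rfl⟩ hx).le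
      have : f pc ≤ L := ge_of_tendsto hlim
        ((eventually_gt_atTop pc).mono (fun x hx => hge x hx))
      linarith
  refine ⟨pc, hpc0, hleft, hz, hcr pc hpc0 hz, hright, ?_⟩
  intro p hp
  have hlt : ∀ x y, pc ≤ x → x < y → f y < f x := by
    intro x y hx hxy
    have hanti : StrictAntiOn f (Set.Icc x y) := by
      refine strictAntiOn_of_deriv_neg (convex_Icc x y) ?_ ?_
      · intro z hz'
        exact (hd z (by linarith [hz'.1])).continuousAt.continuousWithinAt
      · intro z hz'
        rw [interior_Icc] at hz'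
        exact hright z (by linarith [hz'.1])
    exact hanti ⟨le_rfl, hxy.le⟩ ⟨hxy.le, le_rfl⟩ hxy
  have h1 := hlt p (p + 1) hp (by linarith)
  have h2 : L ≤ f (p + 1) := le_of_tendsto hlim
    ((eventually_gt_atTop (p + 1)).mono (fun x hx => (hlt (p + 1) x (by linarith) hx).le))
  linarith

end Pool.Agent.MFE
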