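import Pool.Agent.MFE.THX
import Pool.Agent.MFE.SHP
import Pool.Agent.MFE.MFG
import Pool.Agent.MFE.LAM

/-!
# MFE.FIN: the exact bifurcation diagram on thin ellipses

Take `α₀` from `thmX`, at most `1/12` (so that at amplitude `p = 1`:
`λ(1) = μ ∫ e^v ≥ (2/e) π/α > 8π`, `gsol_mu_ge`, `gsol_int_pos`). `K` (`kop_exists`), `E`
(`exp_exists`), `curve`, `lam p := M p ∫_Ell e^{V p}`, `U := V`, `lam_facts`. At a critical point
`lam'' t = -(M ∫ e^v (φ-t)³)` and `t ∫ e^v (φ-t)³ > 0` (`thmX`) give `lam'' < 0`. `lam → 8π` at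
infinity by `blow_mass` (through sequences: `Filter.tendsto_of_seq_tendsto`), `shape` with
`L = 8π`, `p₁ = 1`. Concentration: for bounded continuous `f`,
`|∫ e^v f/∫ e^v - f(0)| ≤ sup_{Sq 0 r} |f - f(0)| + 2‖f‖ (μ ∫_{Ell \\ Sq 0 r} e^v)/λ`, `λ → 8π`.
All solutions: `mf_gsol`, `gsol_bf`, `amp_unique`, `gsol_amp_pos`; conversely `gsol_mf`.
`0 ≤ U p ≤ p`: `GSol.nonneg`, `GSol.le_max`.
-/

open scoped ContDiff BoundedContinuousFunction
open Filter Topology

namespace Pool.Agent.MFE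

private theorem fin_seq {F : ℝ → ℝ} {L : ℝ}
    (h : ∀ y : ℕ → ℝ, (∀ n, 1 ≤ y n) → Tendsto y atTop atTop →
      Tendsto (fun n => F (y n)) atTop (𝓝 L)) : Tendsto F atTop (𝓝 L) := by
  refine tendsto_of_seq_tendsto fun x hx => ?_
  have hy : Tendsto (fun n => max (x n) 1) atTop atTop :=
    tendsto_atTop_mono (fun n => le_max_left _ _) hx
  have h1 := h (fun n => max (x n) 1) (fun n => le_max_right _ _) hy
  refine h1.congr' ?_
  filter_upwards [hx.eventually_ge_atTop 1] with n hn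
  change F (max (x n) 1) = F (x n)
  rw [max_eq_left hn]

private theorem fin_finite {α : ℝ} (hα : 0 < α) :
    MeasureTheory.IsFiniteMeasure (MeasureTheory.volume.restrict (Ell α)) := by
  refine ⟨?_⟩
  rw [MeasureTheory.Measure.restrict_apply_univ, area_ell hα]
  exact ENNReal.ofReal_lt_top

private theorem fin_sq_meas (r : ℝ) : MeasurableSet (Sq (0, 0) r)ᶜ := by
  apply MeasurableSet.compl
  have hc1 : Continuous fun q : ℝ × ℝ => |q.1 - (0 : ℝ)| := by fun_prop
  have hc2 : Continuous fun q : ℝ × ℝ => |q.2 - (0 : ℝ)| := by fun_prop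
  exact ((isClosed_le hc1 continuous_const).inter
    (isClosed_le hc2 continuous_const)).measurableSet

private theorem fin_conc {α : ℝ} (hα : 0 < α) {E : BF → BF} (hE : IsExp E) (v f : BF) {r ε : ℝ}
    (hε0 : 0 ≤ ε) (hε : ∀ q ∈ Sq (0, 0) r, |f q - f (0, 0)| ≤ ε) :
    |(∫ z in Ell α, Real.exp (v z) * f z) - f (0, 0) * ∫ z in Ell α, Real.exp (v z)| ≤
      ε * (∫ z in Ell α, Real.exp (v z)) +
        2 * ‖f‖ * ∫ z in Ell α \ Sq (0, 0) r, Real.exp (v z) := by
  have := fin_finite hα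
  have hi1 : MeasureTheory.IntegrableOn (fun z => Real.exp (v z)) (Ell α) := by
    have h := (E v).integrable (MeasureTheory.volume.restrict (Ell α))
    refine h.congr (Filter.Eventually.of_forall fun z => ?_)
    exact hE v z
  have hi2 : MeasureTheory.IntegrableOn (fun z => Real.exp (v z) * f z) (Ell α) := by
    have h := (E v * f).integrable (MeasureTheory.volume.restrict (Ell α))
    refine h.congr (Filter.Eventually.of_forall fun z => ?_)
    change E v z * f z = _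
    rw [hE v z]
  rw [← MeasureTheory.integral_const_mul, ← MeasureTheory.integral_sub hi2 (hi1.const_mul _)]
  have hset : ∫ z in Ell α \ Sq (0, 0) r, Real.exp (v z) =
      ∫ z in Ell α, (Sq (0, 0) r)ᶜ.indicator (fun z => Real.exp (v z)) z := by
    rw [MeasureTheory.setIntegral_indicator (fin_sq_meas r)]
    rfl
  have hi3 : MeasureTheory.IntegrableOn
      (fun z => (Sq (0, 0) r)ᶜ.indicator (fun z => Real.exp (v z)) z) (Ell α) :=
    hi1.indicator (fin_sq_meas r)
  rw [hset, ← MeasureTheory.integral_const_mul, ← MeasureTheory.integral_const_mul,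
    ← MeasureTheory.integral_add (hi1.const_mul _) (hi3.const_mul _)]
  rw [← Real.norm_eq_abs]
  refine (MeasureTheory.norm_integral_le_integral_norm _).trans ?_
  refine MeasureTheory.integral_mono ?_ ((hi1.const_mul _).add (hi3.const_mul _)) ?_
  · exact (hi2.sub (hi1.const_mul _)).norm
  · intro z
    have he := Real.exp_pos (v z)
    have h1 : ‖Real.exp (v z) * f z - f (0, 0) * Real.exp (v z)‖ =
        Real.exp (v z) * |f z - f (0, 0)| := by
      rw [Real.norm_eq_abs]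
      have : Real.exp (v z) * f z - f (0, 0) * Real.exp (v z) =
        Real.exp (v z) * (f z - f (0, 0)) := by ring
      rw [this, abs_mul, abs_of_pos he]
    change ‖Real.exp (v z) * f z - f (0, 0) * Real.exp (v z)‖ ≤
      ε * Real.exp (v z) + 2 * ‖f‖ * (Sq (0, 0) r)ᶜ.indicator (fun z => Real.exp (v z)) z
    rw [h1]
    by_cases hz : z ∈ Sq (0, 0) r
    · rw [Set.indicator_of_notMem (by simpa using hz), mul_zero, add_zero, mul_comm ε]
      exact mul_le_mul_of_nonneg_left (hε z hz) he.le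
    · rw [Set.indicator_of_mem (by simpa using hz)]
      have hb : |f z - f (0, 0)| ≤ 2 * ‖f‖ := by
        have h2 : |f z| ≤ ‖f‖ := f.norm_coe_le_norm z
        have h3 : |f (0, 0)| ≤ ‖f‖ := f.norm_coe_le_norm (0, 0)
        have h4 := abs_le.1 h2
        have h5 := abs_le.1 h3
        rw [abs_le]
        constructor <;> linarith [h4.1, h4.2, h5.1, h5.2]
      have h6 : 0 ≤ ε * Real.exp (v z) := mul_nonneg hε0 he.le
      have h7 : Real.exp (v z) * |f z - f (0, 0)| ≤ Real.exp (v z) * (2 * ‖f‖) :=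
        mul_le_mul_of_nonneg_left hb he.le
      calc Real.exp (v z) * |f z - f (0, 0)| ≤ Real.exp (v z) * (2 * ‖f‖) := h7
        _ = 2 * ‖f‖ * Real.exp (v z) := by ring
        _ ≤ _ := by linarith

private theorem fin_sq_small (f : BF) {ε : ℝ} (hε : 0 < ε) :
    ∃ r : ℝ, 0 < r ∧ ∀ q ∈ Sq (0, 0) r, |f q - f (0, 0)| ≤ ε := by
  have hc := f.continuous.continuousAt (x := ((0 : ℝ), (0 : ℝ)))
  rw [Metric.continuousAt_iff] at hc
  obtain ⟨d, hd, h⟩ := hc ε hε
  refine ⟨d / 2, by linarith, fun q hq => ?_⟩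
  have h1 : dist q ((0 : ℝ), (0 : ℝ)) < d := by
    rw [Prod.dist_eq, Real.dist_eq, Real.dist_eq]
    have h2 := hq.1
    have h3 := hq.2
    exact max_lt (lt_of_le_of_lt h2 (by linarith)) (lt_of_le_of_lt h3 (by linarith))
  have h4 := h h1
  rw [Real.dist_eq] at h4
  exact h4.le

theorem final : ∃ α₀ : ℝ, 0 < α₀ ∧ ∀ α : ℝ, 0 < α → α < α₀ →
    ∃ (lam : ℝ → ℝ) (U : ℝ → ((ℝ × ℝ) →ᵇ ℝ)) (pc : ℝ), 0 < pc ∧
      -- a smooth curve starting at `(0, 0)`, parametrised by the amplitude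
      ContDiffOn ℝ ∞ lam (Set.Ici 0) ∧ ContDiffOn ℝ ∞ U (Set.Ici 0) ∧ lam 0 = 0 ∧ U 0 = 0 ∧
      (∀ p, 0 < p → U p (0, 0) = p ∧ ∀ q, 0 ≤ U p q ∧ U p q ≤ p ∧ (q ∉ Ell α → U p q = 0)) ∧
      -- its points with `p > 0` are exactly all solutions with `λ > 0`
      (∀ (l : ℝ) (u : ℝ × ℝ → ℝ), 0 < l → (MFSol α l u ↔
        ∃ p, 0 < p ∧ l = lam p ∧ ∀ q ∈ closure (Ell α), u q = U p q)) ∧
      (∀ p, 0 < p → 0 < lam p) ∧
      -- exactly one bending point
      (∀ p, 0 < p → p < pc → 0 < deriv lam p) ∧ deriv lam pc = 0 ∧ deriv (deriv lam) pc < 0 ∧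
      (∀ p, pc < p → deriv lam p < 0) ∧
      -- the end of the branch is the blow-up branch
      (∀ p, pc ≤ p → 8 * Real.pi < lam p) ∧ Tendsto lam atTop (𝓝 (8 * Real.pi)) ∧
      ∀ f : (ℝ × ℝ) →ᵇ ℝ, Tendsto (fun p => (∫ z in Ell α, Real.exp (U p z) * f z) /
        ∫ z in Ell α, Real.exp (U p z)) atTop (𝓝 (f (0, 0))) := by
  obtain ⟨α₁, hα₁, hα₁1, hX⟩ := thmX
  refine ⟨min α₁ (1 / 12), lt_min hα₁ (by norm_num), fun α hα hαlt => ?_⟩
  have hαX : α < α₁ := hαlt.trans_le (min_le_left _ _)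
  have hα12 : α < 1 / 12 := hαlt.trans_le (min_le_right _ _)
  have hα1 : α ≤ 1 := by linarith
  obtain ⟨K, hK⟩ := kop_exists hα hα1
  obtain ⟨E, hE, -, -⟩ := exp_exists
  obtain ⟨δ, M, V, hδ, hM, hV, hM0, hV0, hfix, hsol⟩ := curve hα hα1 hK hE
  obtain ⟨hlam, hcrit⟩ := lam_facts hα hα1 hK hE hδ hM hV hfix hsol
  set lam : ℝ → ℝ := fun p => M p * ∫ q in Ell α, Real.exp (V p q) with hlamdef
  have hamp : ∀ p, 0 < p → V p (0, 0) = p := fun p hp => (hfix p (by linarith)).2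
  have hIpos : ∀ p, 0 < p → 0 < ∫ q in Ell α, Real.exp (V p q) := fun p hp =>
    lt_of_lt_of_le (by positivity) (gsol_int_pos hα (hsol p hp))
  have hlampos : ∀ p, 0 < p → 0 < lam p := fun p hp => mul_pos (hsol p hp).mu_pos (hIpos p hp)
  have hcr : ∀ p, 0 < p → deriv lam p = 0 → deriv (deriv lam) p < 0 := by
    intro p hp hd
    obtain ⟨t, φ, hcd, -, heq⟩ := hcrit p hp hd
    obtain ⟨ht, hpos⟩ := hX α (M p) t (V p) φ hα hαX hcd
    have hMp := (hsol p hp).mu_pos
    by_contra hge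
    rw [not_lt] at hge
    have h1 : 0 ≤ deriv (deriv lam) p * t * t := by
      have : deriv (deriv lam) p * t * t = deriv (deriv lam) p * (t * t) := by ring
      rw [this]
      exact mul_nonneg hge (mul_self_nonneg t)
    rw [heq] at h1
    have h2 := mul_pos hMp hpos
    nlinarith
  have hmass := fun (y : ℕ → ℝ) (hy1 : ∀ n, 1 ≤ y n) (hy : Tendsto y atTop atTop) =>
    blow_mass hα hα1 (μ := fun n => M (y n)) (v := fun n => V (y n))
      (fun n => hsol (y n) (by linarith [hy1 n]))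
      (hy.congr fun n => (hamp (y n) (by linarith [hy1 n])).symm)
  have hlim : Tendsto lam atTop (𝓝 (8 * Real.pi)) := fin_seq fun y hy1 hy => (hmass y hy1 hy).1
  have hlam0 : lam 0 = 0 := by
    rw [hlamdef]; simp only [hM0, zero_mul]
  have hfp : 8 * Real.pi < lam 1 := by
    have h1 := gsol_mu_ge hα hα1 (hsol 1 one_pos)
    have h2 := gsol_int_pos hα (hsol 1 one_pos)
    rw [hamp 1 one_pos] at h1
    have hpi := Real.pi_pos
    have he : (1 / 3 : ℝ) < Real.exp (-1) := by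
      rw [Real.exp_neg, ← one_div]
      refine one_div_lt_one_div_of_lt (Real.exp_pos 1) ?_
      exact Real.exp_one_lt_d9.trans (by norm_num)
    have h3 : 2 / 3 < M 1 := by linarith
    have h4 : 12 * Real.pi < Real.pi / α := by
      rw [lt_div_iff₀ hα]
      nlinarith
    have h5 : 12 * Real.pi < ∫ q in Ell α, Real.exp (V 1 q) := h4.trans_le h2
    change 8 * Real.pi < M 1 * ∫ q in Ell α, Real.exp (V 1 q)
    nlinarith
  obtain ⟨pc, hpc, hs1, hs2, hs3, hs4, hs5⟩ := shape hδ hlam hlam0 (by positivity) hcr hlim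
    one_pos hfp
  have hIci : Set.Ici (0 : ℝ) ⊆ Set.Ioi (-δ) := fun p hp => by
    have : (0 : ℝ) ≤ p := hp
    exact lt_of_lt_of_le (by linarith) this
  refine ⟨lam, V, pc, hpc, hlam.mono hIci, hV.mono hIci, hlam0, hV0, ?_, ?_, hlampos, hs1, hs2, hs3,
    hs4, hs5, hlim, ?_⟩
  · intro p hp
    refine ⟨hamp p hp, fun q => ⟨(hsol p hp).nonneg hα q, ?_, fun hq => (hsol p hp).zero q hq⟩⟩
    have h1 := (hsol p hp).le_max hα q
    rwa [hamp p hp] at h1
  · intro l u hl
    constructor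
    · intro h
      obtain ⟨v, hv, hvu, hint⟩ := mf_gsol hα hl h
      have hp := gsol_amp_pos hα hv
      obtain ⟨h1, h2⟩ := amp_unique hα hα1 (hsol _ hp) hv (hamp _ hp)
      have hJ : 0 < ∫ z in Ell α, Real.exp (u z) := by
        rw [hint]
        exact lt_of_lt_of_le (by positivity) (gsol_int_pos hα hv)
      refine ⟨v (0, 0), hp, ?_, fun q hq => ?_⟩
      · change l = M (v (0, 0)) * ∫ q in Ell α, Real.exp (V (v (0, 0)) q)
        rw [h1, h2, ← hint, div_mul_cancel₀ _ hJ.ne']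
      · rw [← hvu q hq]
        exact (congrFun h2 q).symm
    · rintro ⟨p, hp, rfl, hu⟩
      exact gsol_mf hα (hsol p hp) hu
  · intro f
    refine fin_seq fun y hy1 hy => ?_
    obtain ⟨hm1, hm2⟩ := hmass y hy1 hy
    rw [Metric.tendsto_atTop]
    intro ε hε
    obtain ⟨r, hr, hfr⟩ := fin_sq_small f (half_pos hε)
    have hT : Tendsto (fun n => 2 * ‖f‖ * ((M (y n) * ∫ q in Ell α \ Sq (0, 0) r,
        Real.exp (V (y n) q)) / (M (y n) * ∫ q in Ell α, Real.exp (V (y n) q)))) atTop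
        (𝓝 0) := by
      have h8 : (8 * Real.pi) ≠ 0 := by positivity
      have := ((hm2 r hr).div hm1 h8).const_mul (2 * ‖f‖)
      rwa [zero_div, mul_zero] at this
    obtain ⟨N, hN⟩ := (Metric.tendsto_atTop.1 hT) (ε / 2) (half_pos hε)
    refine ⟨N, fun n hn => ?_⟩
    have h1 := hN n hn
    rw [Real.dist_eq, sub_zero] at h1
    have hyp : 0 < y n := by linarith [hy1 n]
    have hJ := hIpos (y n) hyp
    have hMn := (hsol (y n) hyp).mu_pos
    have h2 := fin_conc hα hE (V (y n)) f (half_pos hε).le hfr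
    rw [Real.dist_eq]
    set J := ∫ q in Ell α, Real.exp (V (y n) q) with hJdef
    set T := ∫ q in Ell α \ Sq (0, 0) r, Real.exp (V (y n) q) with hTdef
    have h3 : (∫ z in Ell α, Real.exp (V (y n) z) * f z) / J - f (0, 0) =
        ((∫ z in Ell α, Real.exp (V (y n) z) * f z) - f (0, 0) * J) / J := by
      field_simp
    rw [h3, abs_div, abs_of_pos hJ, div_lt_iff₀ hJ]
    have h4 : 2 * ‖f‖ * ((M (y n) * T) / (M (y n) * J)) = 2 * ‖f‖ * T / J := by
      rw [mul_div_mul_left _ _ hMn.ne', mul_div_assoc]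
    rw [h4] at h1
    have h5 : 2 * ‖f‖ * T / J < ε / 2 := (le_abs_self _).trans_lt h1
    rw [div_lt_iff₀ hJ] at h5
    linarith

end Pool.Agent.MFE
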