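import Pool.Agent.MFE.KOP
import Pool.Agent.MFE.AMP

/-!
# MFE.FIX: solutions are the fixed points of `v ↦ μ K (e^v)`

`v = μ K (E v)`: `v` is even, `sym4 (E v) = E v` (`sym4_even`), so `Dir α (μ e^v) v` (`dir_smul`)
and `gsol_of_dir`. Conversely a solution is even (`GSol.evx`, `GSol.evy`), `gsol_dir`, and
`dir_unique` identifies `v` with `μ K (E v)`.
`gsol_bf`: a solution is bounded (`0 ≤ v ≤ v(0)`) and continuous.
-/

open scoped ContDiff BoundedContinuousFunction

namespace Pool.Agent.MFE

private theorem fix_dir {α μ : ℝ} {K : BF →L[ℝ] BF} (hK : IsKop α K) {E : BF → BF}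
    (hE : IsExp E) {v : BF} (hx : EvX v) (hy : EvY v) :
    Dir α (fun q => μ * Real.exp (v q)) (fun q => μ * K (E v) q) := by
  have hx' : EvX (E v) := fun x y => by rw [hE, hE, hx]
  have hy' : EvY (E v) := fun x y => by rw [hE, hE, hy]
  have h := hK.dir (E v)
  rw [sym4_even hx' hy'] at h
  have h2 := dir_smul μ h
  have h3 : (fun q => μ * (E v) q) = fun q => μ * Real.exp (v q) := by
    funext q
    rw [hE]
  rw [h3] at h2
  exact h2

theorem fix_gsol {α μ : ℝ} (hα : 0 < α) (hα1 : α ≤ 1) (hμ : 0 < μ) {K : BF →L[ℝ] BF}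
    (hK : IsKop α K) {E : BF → BF} (hE : IsExp E) (v : BF) :
    v = μ • K (E v) ↔ GSol α μ v := by
  have _ := hα1
  constructor
  · intro h
    have hv : ∀ q, v q = μ * K (E v) q := by
      intro q
      have h1 : (v : ℝ × ℝ → ℝ) q = (μ • K (E v) : BF) q := congrArg (fun f : BF => f q) h
      rw [h1]
      rfl
    have hx : EvX v := fun x y => by rw [hv, hv (x, y), hK.evx]
    have hy : EvY v := fun x y => by rw [hv, hv (x, y), hK.evy]
    have hd := fix_dir (μ := μ) hK hE hx hy
    have h4 : (fun q => μ * K (E v) q) = (v : ℝ × ℝ → ℝ) := by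
      funext q
      rw [← hv]
    rw [h4] at hd
    exact gsol_of_dir hμ hd
  · intro h
    have hx : EvX v := h.evx hα
    have hy : EvY v := h.evy hα
    have hd := fix_dir (μ := μ) hK hE hx hy
    have hd2 := gsol_dir h
    have hc : ContinuousOn (fun q => μ * Real.exp (v q)) (Ell α) :=
      (continuous_const.mul (Real.continuous_exp.comp v.continuous)).continuousOn
    have he := dir_unique hα hc hd2 hd
    apply BoundedContinuousFunction.ext
    intro q
    have hq := congrFun he q
    rw [hq]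
    rfl

theorem gsol_bf {α μ : ℝ} (hα : 0 < α) (hα1 : α ≤ 1) {v : ℝ × ℝ → ℝ} (h : GSol α μ v) :
    ∃ V : BF, ∀ q, V q = v q := by
  have _ := hα1
  refine ⟨BoundedContinuousFunction.ofNormedAddCommGroup v h.cont (v (0, 0)) ?_, fun q => rfl⟩
  intro q
  rw [Real.norm_eq_abs, abs_of_nonneg (h.nonneg hα q)]
  exact h.le_max hα q

end Pool.Agent.MFE
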