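import Mathlib

/-!
# MFE.FLDAA: local Arzela-Ascoli for asymptotically equicontinuous sequences (Mathlib only)

`X` proper metric space. `a n` is eventually bounded on every ball and
`|a n x - a n x'| ≤ L_R dist x x' + o(1)` on the ball of radius `R`. Then a subsequence converges
locally uniformly to a continuous function.
Proof. Let `Q` be a countable dense set (`TopologicalSpace.exists_countable_dense`; proper spaces
are separable). For `x ∈ Q` the sequence `a n x` is bounded (eventually bounded): it stays in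
`[-M_x, M_x]`. The product `∏_{x ∈ Q} [-M_x, M_x]` is compact (`isCompact_univ_pi`) and, `Q` being
countable, first countable: `IsCompact.tendsto_subseq` gives `ψ` such that `a (ψ n) x` converges for
every `x ∈ Q`. For `x` in the ball `R` and `δ > 0` take `x' ∈ Q` in the ball `R+1` with `L dist x x' < δ`:
`|a_n x - a_m x| ≤ 4δ + |a_n x' - a_m x'|` for large `n, m` (in the subsequence): Cauchy. Let `W x` be the
limit; `|W x - W x'| ≤ L_R dist x x'` on balls, so `W` is continuous. Uniform convergence on the closed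
ball (compact): finite `δ`-net.
-/

open Filter Topology

namespace Pool.Agent.MFE

private theorem FLDAA_subseq {X : Type*} {Q : Set X} (hQ : Q.Countable) {a : ℕ → X → ℝ}
    (hb : ∀ x ∈ Q, ∃ M : ℝ, ∀ᶠ n in atTop, |a n x| ≤ M) :
    ∃ φ : ℕ → ℕ, StrictMono φ ∧ ∀ x ∈ Q, ∃ w : ℝ, Tendsto (fun n => a (φ n) x) atTop (𝓝 w) := by
  have hQc : Countable Q := hQ.to_subtype
  have hb' : ∀ x : Q, ∃ M : ℝ, ∀ n, |a n x| ≤ M := by
    intro x
    obtain ⟨M, hM⟩ := hb x x.2
    have h1 : IsBoundedUnder (· ≤ ·) atTop (fun n => |a n x|) := ⟨M, by simpa using hM⟩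
    obtain ⟨M', hM'⟩ := h1.bddAbove_range
    exact ⟨M', fun n => hM' ⟨n, rfl⟩⟩
  choose M hM using hb'
  have hK : IsCompact (Set.pi Set.univ (fun x : Q => Set.Icc (-M x) (M x))) :=
    isCompact_univ_pi fun x => isCompact_Icc
  obtain ⟨w, -, φ, hφ, hlim⟩ := hK.tendsto_subseq (x := fun n (x : Q) => a n x) (fun n x _ =>
    abs_le.1 (hM x n))
  refine ⟨φ, hφ, fun x hx => ⟨w ⟨x, hx⟩, ?_⟩⟩
  exact (tendsto_pi_nhds.1 hlim) ⟨x, hx⟩

theorem aa_loc {X : Type*} [MetricSpace X] [ProperSpace X] (x₀ : X) {a : ℕ → X → ℝ}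
    (hb : ∀ R : ℝ, ∃ M : ℝ, ∀ᶠ n in atTop, ∀ x ∈ Metric.closedBall x₀ R, |a n x| ≤ M)
    (hl : ∀ R : ℝ, ∃ L : ℝ, ∀ δ : ℝ, 0 < δ → ∀ᶠ n in atTop,
      ∀ x ∈ Metric.closedBall x₀ R, ∀ x' ∈ Metric.closedBall x₀ R,
        |a n x - a n x'| ≤ L * dist x x' + δ) :
    ∃ (ψ : ℕ → ℕ) (W : X → ℝ), StrictMono ψ ∧ Continuous W ∧
      ∀ R ε : ℝ, 0 < ε → ∀ᶠ n in atTop, ∀ x ∈ Metric.closedBall x₀ R, |a (ψ n) x - W x| ≤ ε := by
  obtain ⟨Q, hQc, hQd⟩ := TopologicalSpace.exists_countable_dense X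
  obtain ⟨φ, hφ, hconv⟩ := FLDAA_subseq (a := a) hQc (fun x _ => by
    obtain ⟨M, hM⟩ := hb (dist x x₀)
    exact ⟨M, hM.mono fun n hn => hn x (Metric.mem_closedBall.2 le_rfl)⟩)
  have hφt : Tendsto φ atTop atTop := hφ.tendsto_atTop
  have hl' : ∀ R : ℝ, ∃ L : ℝ, 0 ≤ L ∧ ∀ δ : ℝ, 0 < δ → ∀ᶠ n in atTop,
      ∀ x ∈ Metric.closedBall x₀ R, ∀ x' ∈ Metric.closedBall x₀ R,
        |a (φ n) x - a (φ n) x'| ≤ L * dist x x' + δ := by
    intro R
    obtain ⟨L, hL⟩ := hl R
    refine ⟨|L|, abs_nonneg L, fun δ hδ => ?_⟩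
    filter_upwards [hφt.eventually (hL δ hδ)] with n hn x hx x' hx'
    refine (hn x hx x' hx').trans ?_
    have := mul_le_mul_of_nonneg_right (le_abs_self L) (dist_nonneg (x := x) (y := x'))
    linarith
  -- uniformly Cauchy on balls
  have hcau : ∀ R ε : ℝ, 0 < ε → ∃ N : ℕ, ∀ m ≥ N, ∀ n ≥ N, ∀ x ∈ Metric.closedBall x₀ R,
      |a (φ n) x - a (φ m) x| ≤ ε := by
    intro R ε hε
    obtain ⟨L, hL0, hL⟩ := hl' (R + 1)
    set r := min 1 (ε / (5 * (L + 1))) with hr
    have hr0 : 0 < r := lt_min one_pos (by positivity)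
    have hLr : L * r ≤ ε / 5 := by
      calc L * r ≤ (L + 1) * (ε / (5 * (L + 1))) :=
            mul_le_mul (by linarith) (min_le_right _ _) hr0.le (by linarith)
        _ = ε / 5 := by field_simp
    obtain ⟨N1, hN1⟩ := eventually_atTop.1 (hL (ε / 5) (by linarith))
    have hcov : Metric.closedBall x₀ R ⊆ ⋃ q ∈ Q, Metric.ball q r := by
      intro x _
      obtain ⟨q, hq, hxq⟩ := hQd.exists_dist_lt x hr0
      exact Set.mem_biUnion hq hxq
    obtain ⟨T, hTQ, hTf, hT⟩ := (isCompact_closedBall x₀ R).elim_finite_subcover_image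
      (fun q _ => Metric.isOpen_ball) hcov
    have hTc : ∀ q ∈ T, ∀ᶠ N in atTop, ∀ m ≥ N, ∀ n ≥ N, |a (φ n) q - a (φ m) q| ≤ ε / 5 := by
      intro q hq
      obtain ⟨w, hw⟩ := hconv q (hTQ hq)
      have h1 := Metric.cauchySeq_iff.1 hw.cauchySeq (ε / 5) (by linarith)
      obtain ⟨N, hN⟩ := h1
      filter_upwards [eventually_ge_atTop N] with N' hN' m hm n hn
      have := hN n (hN'.trans hn) m (hN'.trans hm)
      rw [Real.dist_eq] at this
      exact this.le
    obtain ⟨N2, hN2⟩ := ((hTf.eventually_all).2 hTc).exists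
    refine ⟨max N1 N2, fun m hm n hn x hx => ?_⟩
    obtain ⟨q, hq, hxq⟩ := Set.mem_iUnion₂.1 (hT hx)
    have hxq' : dist x q < r := hxq
    have hx1 : x ∈ Metric.closedBall x₀ (R + 1) :=
      Metric.closedBall_subset_closedBall (by linarith) hx
    have hq1 : q ∈ Metric.closedBall x₀ (R + 1) := by
      rw [Metric.mem_closedBall] at hx ⊢
      have h1 := dist_triangle q x x₀
      have h2 : dist q x < 1 := by
        rw [dist_comm]
        exact lt_of_lt_of_le hxq' (min_le_left _ _)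
      linarith
    have e1 := hN1 n (le_trans (le_max_left _ _) hn) x hx1 q hq1
    have e2 := hN1 m (le_trans (le_max_left _ _) hm) x hx1 q hq1
    have e3 := hN2 q hq m (le_trans (le_max_right _ _) hm) n (le_trans (le_max_right _ _) hn)
    have e4 : L * dist x q ≤ ε / 5 := (mul_le_mul_of_nonneg_left hxq'.le hL0).trans hLr
    have f1 := abs_le.1 e1
    have f2 := abs_le.1 e2
    have f3 := abs_le.1 e3
    rw [abs_le]
    constructor <;> linarith [f1.1, f1.2, f2.1, f2.2, f3.1, f3.2]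
  have hlim : ∀ x, ∃ w : ℝ, Tendsto (fun n => a (φ n) x) atTop (𝓝 w) := by
    intro x
    refine cauchySeq_tendsto_of_complete ?_
    rw [Metric.cauchySeq_iff]
    intro ε hε
    obtain ⟨N, hN⟩ := hcau (dist x x₀) (ε / 2) (by linarith)
    refine ⟨N, fun n hn m hm => ?_⟩
    rw [Real.dist_eq]
    have := hN m hm n hn x (Metric.mem_closedBall.2 le_rfl)
    linarith
  choose W hW using hlim
  refine ⟨φ, W, hφ, ?_, ?_⟩
  · rw [Metric.continuous_iff]
    intro x ε hε
    obtain ⟨L, hL0, hL⟩ := hl' (dist x x₀ + 1)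
    refine ⟨min 1 (ε / (L + 1)), lt_min one_pos (by positivity), fun y hy => ?_⟩
    have hx1 : x ∈ Metric.closedBall x₀ (dist x x₀ + 1) := Metric.mem_closedBall.2 (by linarith)
    have hy1 : y ∈ Metric.closedBall x₀ (dist x x₀ + 1) := by
      rw [Metric.mem_closedBall]
      have h1 := dist_triangle y x x₀
      have h2 : dist y x < 1 := lt_of_lt_of_le hy (min_le_left _ _)
      linarith
    have h3 : |W y - W x| ≤ L * dist y x := by
      refine le_of_forall_pos_le_add fun δ hδ => ?_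
      have ht : Tendsto (fun n => |a (φ n) y - a (φ n) x|) atTop (𝓝 |W y - W x|) :=
        ((hW y).sub (hW x)).abs
      exact le_of_tendsto ht ((hL δ hδ).mono fun n hn => hn y hy1 x hx1)
    rw [Real.dist_eq]
    refine lt_of_le_of_lt h3 ?_
    have h4 : dist y x < ε / (L + 1) := lt_of_lt_of_le hy (min_le_right _ _)
    rw [lt_div_iff₀ (by linarith)] at h4
    have h5 : 0 ≤ dist y x := dist_nonneg
    nlinarith
  · intro R ε hε
    obtain ⟨N, hN⟩ := hcau R ε hε
    filter_upwards [eventually_ge_atTop N] with n hn x hx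
    have ht : Tendsto (fun m => |a (φ n) x - a (φ m) x|) atTop (𝓝 |a (φ n) x - W x|) :=
      (tendsto_const_nhds.sub (hW x)).abs
    refine le_of_tendsto ht ?_
    filter_upwards [eventually_ge_atTop N] with m hm
    exact hN m hm n hn x hx

end Pool.Agent.MFE
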