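import Pool.Agent.MFE.FLDDef

/-!
# MFE.FLDAlg: two elementary inequalities (regime C)

Put `s = ast · y`, `T = tanh s`, `a = ast`; `pot1 ast y = 2a²(1-T²)` (`1/cosh² = 1 - tanh²`),
`e1 ast y = 1 - sT`, `a² < 25/16 < 2`.
`alg1`: `1 - q(1-y²)/2 + q e²/4 = 1 - a²(1-T²)(1-y²) + a²(1-T²)(1-sT)²/2`, and `a²y² = s²`, so
this is `1 - a²(1-T²) + s²(1-T²) + (a²/2)(1-T²)(1 - 2sT + s²T²)`
`= (1 - a²/2) + [ (a²/2) T² - a² sT(1-T²) + s²(1-T²) ] + (a²/2)(1-T²)s²T²`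
(check: `-a²(1-T²) + (a²/2)(1-T²) = -(a²/2) + (a²/2)T²`). The bracket is `≥ 0`: as a quadratic form
in `(T, s)`: `(a²/2)T² - a²(1-T²) sT + (1-T²)s²`, discriminant
`a⁴(1-T²)² - 2a²(1-T²) = a²(1-T²)(a²(1-T²) - 2) ≤ 0` since `a² < 2`. So the value is
`≥ 1 - a²/2 ≥ 7/32 > 1/5`.
`alg2`: for `|y| ≤ 1`. `F(y) = q e²` is continuous, `≥ 0`, and vanishes only for `|y| = 1`
(`e1_ast_pos`, `e1_ast_one`); `H(y) = 2 - q (2 - y²)` is continuous and `H(±1) = 2 - q(1)`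
`= 2 - 2a²(1 - T²)` with `T = tanh a = 1/a` (`ast_eq`): `H(±1) = 2 - 2(a²-1) = 4 - 2a² > 0`.
So there is `r < 1` with `H ≥ h₀ > 0` for `r ≤ |y| ≤ 1`; on `|y| ≤ r`: `δ F ≥ f₀ > 0`, `H ≥ -K`. Take
`ε = min(1, f₀/(2K+1))`: the sum is `≥ min(ε h₀, f₀/2)`.
-/

open scoped ContDiff

namespace Pool.Agent.MFE

private lemma alg_cosh (s : ℝ) : 1 / Real.cosh s ^ 2 = 1 - Real.tanh s ^ 2 := by
  rw [Real.tanh_eq_sinh_div_cosh]
  have h := Real.cosh_sq s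
  have hc : Real.cosh s ≠ 0 := (Real.cosh_pos s).ne'
  field_simp
  rw [h]; ring

private lemma alg_pot (y : ℝ) :
    pot1 ast y = 2 * ast ^ 2 * (1 - Real.tanh (ast * y) ^ 2) := by
  rw [← alg_cosh]
  unfold pot1
  ring

private lemma alg_D (s : ℝ) : 0 < 1 - Real.tanh s ^ 2 ∧ 1 - Real.tanh s ^ 2 ≤ 1 := by
  refine ⟨?_, by nlinarith [sq_nonneg (Real.tanh s)]⟩
  rw [← alg_cosh]
  have := Real.cosh_pos s
  positivity

private lemma alg_ast : 0 < ast ^ 2 ∧ ast ^ 2 < 25 / 16 := by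
  have h := ast_bounds
  constructor <;> nlinarith [h.1, h.2]

theorem alg1 (y : ℝ) :
    1 / 5 ≤ 1 - pot1 ast y * (1 - y ^ 2) / 2 + pot1 ast y * e1 ast y ^ 2 / 4 := by
  rw [alg_pot]
  unfold e1
  obtain ⟨hD, hD1⟩ := alg_D (ast * y)
  obtain ⟨hA0, hA⟩ := alg_ast
  set T := Real.tanh (ast * y) with hT
  have key : 1 - 2 * ast ^ 2 * (1 - T ^ 2) * (1 - y ^ 2) / 2 +
      2 * ast ^ 2 * (1 - T ^ 2) * (1 - ast * y * T) ^ 2 / 4 =
      (1 - ast ^ 2 / 2) + ((1 - T ^ 2) * (ast * y - ast ^ 2 / 2 * T) ^ 2 +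
        ast ^ 2 / 2 * T ^ 2 * (1 - (1 - T ^ 2) * (ast ^ 2 / 2))) +
        ast ^ 2 / 2 * (1 - T ^ 2) * (ast * y) ^ 2 * T ^ 2 := by ring
  rw [key]
  have h1 : 0 ≤ (1 - T ^ 2) * (ast * y - ast ^ 2 / 2 * T) ^ 2 :=
    mul_nonneg hD.le (sq_nonneg _)
  have h2 : 0 ≤ 1 - (1 - T ^ 2) * (ast ^ 2 / 2) := by
    have : (1 - T ^ 2) * (ast ^ 2 / 2) ≤ 1 * (ast ^ 2 / 2) :=
      mul_le_mul_of_nonneg_right hD1 (by positivity)
    linarith
  have h3 : 0 ≤ ast ^ 2 / 2 * T ^ 2 * (1 - (1 - T ^ 2) * (ast ^ 2 / 2)) :=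
    mul_nonneg (by positivity) h2
  have h4 : 0 ≤ ast ^ 2 / 2 * (1 - T ^ 2) * (ast * y) ^ 2 * T ^ 2 :=
    mul_nonneg (mul_nonneg (mul_nonneg (by positivity) hD.le) (sq_nonneg _)) (sq_nonneg _)
  linarith

private lemma alg_pot_bd (y : ℝ) : 0 < pot1 ast y ∧ pot1 ast y ≤ 25 / 8 := by
  rw [alg_pot]
  obtain ⟨hD, hD1⟩ := alg_D (ast * y)
  obtain ⟨hA0, hA⟩ := alg_ast
  constructor
  · positivity
  · nlinarith

private lemma alg_pot_cont : Continuous (pot1 ast) := by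
  unfold pot1
  have h : ∀ y : ℝ, Real.cosh (ast * y) ^ 2 ≠ 0 := fun y =>
    pow_ne_zero _ (Real.cosh_pos _).ne'
  exact continuous_const.div ((Real.continuous_cosh.comp (continuous_const.mul continuous_id)).pow 2) h

private lemma alg_pot_one {y : ℝ} (hy : |y| = 1) : pot1 ast y = 2 * ast ^ 2 - 2 := by
  have h1 : pot1 ast y = pot1 ast 1 := by
    unfold pot1
    rcases (abs_eq (by norm_num : (0 : ℝ) ≤ 1)).1 hy with h | h
    · rw [h]
    · rw [h, mul_neg, Real.cosh_neg]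
  rw [h1, alg_pot, mul_one]
  have h2 := ast_eq
  have h3 : ast ^ 2 * Real.tanh ast ^ 2 = 1 := by
    rw [← mul_pow, h2, one_pow]
  linarith

theorem alg2 {δ : ℝ} (hδ : 0 < δ) : ∃ ε c : ℝ, 0 < ε ∧ ε ≤ 1 ∧ 0 < c ∧ ∀ y : ℝ, |y| ≤ 1 →
    c ≤ δ * (pot1 ast y * e1 ast y ^ 2) + ε * (2 - pot1 ast y * (2 - y ^ 2)) := by
  obtain ⟨hA0, hA⟩ := alg_ast
  have hpc := alg_pot_cont
  have hec : Continuous (e1 ast) := (e1_smooth ast).continuous
  have hFc : Continuous fun y : ℝ => pot1 ast y * e1 ast y ^ 2 := hpc.mul (hec.pow 2)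
  have hHc : Continuous fun y : ℝ => 2 - pot1 ast y * (2 - y ^ 2) := by
    exact continuous_const.sub (hpc.mul (continuous_const.sub (continuous_pow 2)))
  set S : Set ℝ := {y | |y| ≤ 1 ∧ 2 - pot1 ast y * (2 - y ^ 2) ≤ 2 - ast ^ 2} with hS
  have hSc : IsCompact S := by
    have h1 : S = Set.Icc (-1) 1 ∩ {y | 2 - pot1 ast y * (2 - y ^ 2) ≤ 2 - ast ^ 2} := by
      ext y
      simp only [hS, Set.mem_ofPred_eq, Set.mem_inter_iff, Set.mem_Icc, abs_le]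
    rw [h1]
    exact isCompact_Icc.inter_right (isClosed_le hHc continuous_const)
  have hpos : ∀ y ∈ S, 0 < pot1 ast y * e1 ast y ^ 2 := by
    rintro y ⟨hy1, hy2⟩
    have hlt : |y| < 1 := by
      rcases lt_or_eq_of_le hy1 with h | h
      · exact h
      · exfalso
        have h3 := alg_pot_one h
        have h4 : y ^ 2 = 1 := by rw [← sq_abs, h, one_pow]
        rw [h3, h4] at hy2
        linarith
    exact mul_pos (alg_pot_bd y).1 (pow_pos (e1_ast_pos hlt) 2)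
  obtain ⟨f0, hf0, hf⟩ : ∃ f0 : ℝ, 0 < f0 ∧ ∀ y ∈ S, f0 ≤ pot1 ast y * e1 ast y ^ 2 := by
    rcases S.eq_empty_or_nonempty with he | hne
    · exact ⟨1, one_pos, fun y hy => by rw [he] at hy; exact absurd hy (Set.notMem_empty y)⟩
    · obtain ⟨y0, hy0, hmin⟩ := hSc.exists_isMinOn hne hFc.continuousOn
      exact ⟨_, hpos y0 hy0, fun y hy => hmin hy⟩
  refine ⟨min 1 (δ * f0 / 10), min (min 1 (δ * f0 / 10) * (2 - ast ^ 2)) (δ * f0 / 2), ?_,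
    min_le_left _ _, ?_, ?_⟩
  · exact lt_min one_pos (by positivity)
  · refine lt_min (mul_pos (lt_min one_pos (by positivity)) (by linarith)) (by positivity)
  · intro y hy
    have hε : 0 < min 1 (δ * f0 / 10) := lt_min one_pos (by positivity)
    have hεle := min_le_right 1 (δ * f0 / 10)
    set ε := min 1 (δ * f0 / 10) with hεdef
    have hq := alg_pot_bd y
    have hy2 : y ^ 2 ≤ 1 := by rw [← sq_abs]; nlinarith [abs_nonneg y]
    by_cases hyS : y ∈ S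
    · have h1 := hf y hyS
      have h2 : -5 ≤ 2 - pot1 ast y * (2 - y ^ 2) := by
        have : pot1 ast y * (2 - y ^ 2) ≤ 25 / 8 * 2 :=
          mul_le_mul hq.2 (by nlinarith [sq_nonneg y]) (by linarith) (by norm_num)
        linarith
      have h3 : ε * (-5) ≤ ε * (2 - pot1 ast y * (2 - y ^ 2)) := mul_le_mul_of_nonneg_left h2 hε.le
      have h4 : δ * f0 ≤ δ * (pot1 ast y * e1 ast y ^ 2) := mul_le_mul_of_nonneg_left h1 hδ.le
      have h5 := min_le_right (ε * (2 - ast ^ 2)) (δ * f0 / 2)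
      linarith
    · have h1 : 2 - ast ^ 2 ≤ 2 - pot1 ast y * (2 - y ^ 2) := by
        by_contra hcon
        exact hyS ⟨hy, (not_le.1 hcon).le⟩
      have h3 : ε * (2 - ast ^ 2) ≤ ε * (2 - pot1 ast y * (2 - y ^ 2)) :=
        mul_le_mul_of_nonneg_left h1 hε.le
      have h4 : 0 ≤ δ * (pot1 ast y * e1 ast y ^ 2) :=
        mul_nonneg hδ.le (mul_nonneg hq.1.le (sq_nonneg _))
      have h5 := min_le_left (ε * (2 - ast ^ 2)) (δ * f0 / 2)
      linarith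

/-- `e^{-s/2} ≥ 1 - s/2 ≥ 0`, square -/
theorem alg_exp_lower {s : ℝ} (h : s ≤ 2) :
    1 - s + s ^ 2 / 4 ≤ Real.exp (-s) := by
  have h1 : 1 - s / 2 ≤ Real.exp (-(s / 2)) := by
    have := Real.add_one_le_exp (-(s / 2))
    linarith
  have h2 : Real.exp (-s) = Real.exp (-(s / 2)) ^ 2 := by
    rw [← Real.exp_nat_mul]
    congr 1
    push_cast
    ring
  rw [h2]
  have h3 : (1 - s / 2) ^ 2 ≤ Real.exp (-(s / 2)) ^ 2 :=
    pow_le_pow_left₀ (by linarith) h1 2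
  nlinarith

/-- `e^{-s} ≤ 1/(1+s)` and `(1+s)(1-s/4) = 1 + (3s - s²)/4 ≥ 1` -/
theorem alg_exp_upper {s : ℝ} (h0 : 0 ≤ s) (h : s ≤ 3) : Real.exp (-s) ≤ 1 - s / 4 := by
  have h1 : 1 + s ≤ Real.exp s := by
    have := Real.add_one_le_exp s
    linarith
  have h2 : Real.exp (-s) * Real.exp s = 1 := by rw [← Real.exp_add]; simp
  have h3 : Real.exp (-s) * (1 + s) ≤ 1 :=
    (mul_le_mul_of_nonneg_left h1 (Real.exp_pos _).le).trans h2.le
  have h4 : 1 ≤ (1 + s) * (1 - s / 4) := by nlinarith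
  have h5 : Real.exp (-s) ≤ 1 / (1 + s) := by
    rw [le_div_iff₀ (by linarith)]
    exact h3
  have h6 : 1 / (1 + s) ≤ 1 - s / 4 := by
    rw [div_le_iff₀ (by linarith)]
    linarith
  exact h5.trans h6

end Pool.Agent.MFE
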