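import Pool.Agent.MFE.FLDLow

/-!
# MFE.FLDBnd: two sided bounds on the windows (regime C); subsequences

`ρ n = α n²/κ n³ ∈ (0,1]`.
`fold_bd`: `Ξ ≥ 1`, `X = 2Ξ/√κ`: `αX = 2Ξ κ √ρ → 0`, `1/X² ≤ κ`, `X ≥ 1` eventually. `fold_low` gives for
`√κ|x| ≤ Ξ`, `q ∈ Ell α`: `v - V(Y) ≥ -A (κ + 2Ξκ√ρ + κ)`. Upper bound: `v(x,y) ≤ v(0,y) ≤ V(y) + κ`
(`GSol.anti_x`, `h0`), and `0 ≤ V(y) - V(Y) ≤ K |Y - y| ≤ 2K α²x² = 2K ξ² κ² ρ ≤ 2KΞ²κ²` (`V1_anti`,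
`YE_near`, `cst_bd`), which is `≤ κ` eventually. So on `Ell α ∩ {√κ|x| ≤ Ξ}`:
`-A'(1 + Ξ√ρ) ≤ uY ≤ 2`; outside the ellipse `uY = 0`.
`fold_uy`: in `Ell α` the difference is `(V(y) - V(Y))/κ ≤ 2KΞ²κ`. For `q ∉ Ell α`, `|y| ≤ 1`:
`uY = 0`, `v = 0`, `uy = -V(y)/κ`, `0 ≤ V(y) ≤ C (1-y²) ≤ C α²x² ≤ CΞ²κ²` (`cst_V`).
The `sub` lemmas: composition with a strictly monotone `ψ` (`StrictMono.tendsto_atTop`).
-/

open Filter Topology
open scoped ContDiff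

namespace Pool.Agent.MFE

variable {α μ κ : ℕ → ℝ} {v f : ℕ → ℝ × ℝ → ℝ} {W : ℝ → ℝ} {ψ : ℕ → ℕ}

theorem Par.sub (h : Par α κ) (hψ : StrictMono ψ) :
    Par (fun n => α (ψ n)) (fun n => κ (ψ n)) :=
  ⟨fun n => h.α_pos _, fun n => h.α_le _, fun n => h.κ_pos _, h.κ_lim.comp hψ.tendsto_atTop,
    fun n => h.hα _⟩

theorem Fold.sub (h : Fold α μ κ v) (hψ : StrictMono ψ) :
    Fold (fun n => α (ψ n)) (fun n => μ (ψ n)) (fun n => κ (ψ n)) (fun n => v (ψ n)) :=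
  ⟨h.par.sub hψ, fun n => h.sol _, fun n => h.hμ _, fun n => h.h0 _⟩

theorem Slow.sub (h : Slow α κ f) (hψ : StrictMono ψ) :
    Slow (fun n => α (ψ n)) (fun n => κ (ψ n)) (fun n => f (ψ n)) := by
  refine ⟨fun n => h.zero _, fun Ξ => hψ.tendsto_atTop.eventually (h.cont Ξ),
    fun Ξ => hψ.tendsto_atTop.eventually (h.smooth Ξ), fun Ξ => ?_⟩
  obtain ⟨M, hM⟩ := h.bound Ξ
  exact ⟨M, hψ.tendsto_atTop.eventually hM⟩

theorem ScalLim.sub (h : ScalLim κ f W) (hψ : StrictMono ψ) :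
    ScalLim (fun n => κ (ψ n)) (fun n => f (ψ n)) W :=
  fun Ξ ε h1 h2 => hψ.tendsto_atTop.eventually (h Ξ ε h1 h2)

/-- `α n → 0`; on windows `α²x² ≤ Ξ² κ²` -/
theorem Par.win (h : Par α κ) (Ξ : ℝ) : Tendsto α atTop (𝓝 0) ∧
    (∀ n (x : ℝ), √(κ n) * |x| ≤ Ξ → α n ^ 2 * x ^ 2 ≤ Ξ ^ 2 * κ n ^ 2) ∧
    ∀ᶠ n in atTop, κ n ≤ 1 ∧ ∀ x : ℝ, √(κ n) * |x| ≤ Ξ → α n ^ 2 * x ^ 2 ≤ 1 / 16 := by
  have h2 : ∀ n (x : ℝ), √(κ n) * |x| ≤ Ξ → α n ^ 2 * x ^ 2 ≤ Ξ ^ 2 * κ n ^ 2 := by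
    intro n x hx
    have hk := h.κ_pos n
    have h1 : κ n * x ^ 2 ≤ Ξ ^ 2 := by
      have h3 : (√(κ n) * |x|) ^ 2 ≤ Ξ ^ 2 := pow_le_pow_left₀ (by positivity) hx 2
      rwa [mul_pow, Real.sq_sqrt hk.le, sq_abs] at h3
    have h4 : α n ^ 2 * x ^ 2 ≤ κ n ^ 3 * x ^ 2 := mul_le_mul_of_nonneg_right (h.hα n) (sq_nonneg x)
    have h5 : κ n ^ 2 * (κ n * x ^ 2) ≤ κ n ^ 2 * Ξ ^ 2 := mul_le_mul_of_nonneg_left h1 (by positivity)
    nlinarith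
  refine ⟨?_, h2, ?_⟩
  · have h1 : Tendsto (fun n => √(κ n ^ 3)) atTop (𝓝 0) := by
      have h3 : Tendsto (fun n => κ n ^ 3) atTop (𝓝 0) := by
        simpa using h.κ_lim.pow 3
      have h4 : Tendsto (fun n => √(κ n ^ 3)) atTop (𝓝 √0) :=
        (Real.continuous_sqrt.tendsto 0).comp h3
      rwa [Real.sqrt_zero] at h4
    refine squeeze_zero (fun n => (h.α_pos n).le) (fun n => ?_) h1
    exact Real.le_sqrt_of_sq_le (h.hα n)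
  · have h3 : Tendsto (fun n => Ξ ^ 2 * κ n ^ 2) atTop (𝓝 0) := by
      simpa using (h.κ_lim.pow 2).const_mul (Ξ ^ 2)
    filter_upwards [h.κ_lim.eventually (gt_mem_nhds one_pos),
      h3.eventually (gt_mem_nhds (show (0 : ℝ) < 1 / 16 by norm_num))] with n h4 h5
    exact ⟨h4.le, fun x hx => (h2 n x hx).trans h5.le⟩

private theorem fldbnd_lip {K : ℝ} (hK : ∀ y : ℝ, |y| ≤ 2 → |deriv (V1 ast) y| ≤ K)
    {y Y : ℝ} (hy : |y| ≤ 1) (hY : |Y| ≤ 1) : |V1 ast y - V1 ast Y| ≤ K * |y - Y| := by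
  have h1 := Convex.norm_image_sub_le_of_norm_deriv_le (f := V1 ast) (s := Set.Icc (-1) 1) (C := K)
    (x := Y) (y := y)
    (fun z _ => ((V1_smooth ast).differentiable (by simp)) z)
    (fun z hz => by
      rw [Real.norm_eq_abs]
      exact hK z (abs_le.2 ⟨by linarith [hz.1], by linarith [hz.2]⟩))
    (convex_Icc _ _) (abs_le.1 hY) (abs_le.1 hy)
  simpa only [Real.norm_eq_abs] using h1

/-- `V(y)` and `V(Y)` on windows -/
private theorem fldbnd_V : ∃ K : ℝ, 0 < K ∧ ∀ (α : ℝ) (q : ℝ × ℝ), q ∈ Ell α →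
    α ^ 2 * q.1 ^ 2 ≤ 1 / 16 →
      0 ≤ V1 ast q.2 - V1 ast (YE α q) ∧ V1 ast q.2 - V1 ast (YE α q) ≤ K * (α ^ 2 * q.1 ^ 2) := by
  obtain ⟨K, hK, hb⟩ := cst_bd
  refine ⟨2 * K, by positivity, fun α q hq hx => ?_⟩
  obtain ⟨h1, h2⟩ := ell_sq_lt hq
  have h3 : |YE α q| < 1 := (ell_iff_Y h1).1 hq
  obtain ⟨h4, h5⟩ := YE_near h1
  have h6 := h5 hx
  refine ⟨sub_nonneg.2 (V1_anti h4), ?_⟩
  have h7 := fldbnd_lip (fun y hy => (hb y hy).2.2.2.2.1) h2.le h3.le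
  have h8 : |q.2 - YE α q| ≤ 2 * α ^ 2 * q.1 ^ 2 := by
    rw [abs_sub_comm]
    refine h6.trans ?_
    have : 0 ≤ 2 * α ^ 2 * q.1 ^ 2 := by positivity
    nlinarith [abs_nonneg q.2]
  have h9 := le_abs_self (V1 ast q.2 - V1 ast (YE α q))
  have h10 := mul_le_mul_of_nonneg_left h8 hK.le
  nlinarith

theorem uY_zero (α κ : ℝ) (v : ℝ × ℝ → ℝ) : ∀ q, q ∉ Ell α → uY α κ v q = 0 := by
  intro q hq
  rw [uY, if_neg hq]

theorem fold_bd (h : Fold α μ κ v) : ∃ A : ℝ, 0 < A ∧ ∀ Ξ : ℝ, 1 ≤ Ξ → ∀ᶠ n in atTop,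
    ∀ q : ℝ × ℝ, √(κ n) * |q.1| ≤ Ξ →
      -A * (1 + Ξ * √(α n ^ 2 / κ n ^ 3)) ≤ uY (α n) (κ n) (v n) q ∧
      uY (α n) (κ n) (v n) q ≤ 2 := by
  obtain ⟨A, hA, hlow⟩ := fold_low
  obtain ⟨K, hK, hV⟩ := fldbnd_V
  refine ⟨2 * A, by positivity, fun Ξ hΞ => ?_⟩
  obtain ⟨hα0, hwin, hev⟩ := h.par.win Ξ
  have hk1 : Tendsto (fun n => 2 * Ξ * κ n) atTop (𝓝 0) := by
    simpa using h.par.κ_lim.const_mul (2 * Ξ)
  have hk2 : Tendsto (fun n => K * Ξ ^ 2 * κ n) atTop (𝓝 0) := by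
    simpa using h.par.κ_lim.const_mul (K * Ξ ^ 2)
  filter_upwards [hev, hk1.eventually (gt_mem_nhds (show (0 : ℝ) < 1 / 4 by norm_num)),
    hk2.eventually (gt_mem_nhds one_pos)] with n hn h1 h2 q hq
  obtain ⟨hκ1, hwx⟩ := hn
  have hκ := h.par.κ_pos n
  have hα := h.par.α_pos n
  have hs : 0 < √(κ n) := Real.sqrt_pos.2 hκ
  have hss : √(κ n) ^ 2 = κ n := Real.sq_sqrt hκ.le
  have hs1 : √(κ n) ≤ 1 := Real.sqrt_le_one.2 hκ1
  have hρ : 0 ≤ √(α n ^ 2 / κ n ^ 3) := Real.sqrt_nonneg _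
  have hR : 0 ≤ 2 * A * (1 + Ξ * √(α n ^ 2 / κ n ^ 3)) := by positivity
  by_cases hE : q ∈ Ell (α n)
  · have hrho : κ n * √(α n ^ 2 / κ n ^ 3) = α n / √(κ n) := by
      have e1 : √(α n ^ 2 / κ n ^ 3) = α n / √(κ n) ^ 3 := by
        rw [Real.sqrt_eq_iff_eq_sq (by positivity) (by positivity), div_pow]
        congr 1
        rw [← pow_mul, show 3 * 2 = 2 * 3 by norm_num, pow_mul, hss]
      rw [e1]
      nth_rewrite 1 [← hss]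
      field_simp
    have hX1 : 1 ≤ 2 * Ξ / √(κ n) := by
      rw [le_div_iff₀ hs]
      linarith
    have hαX : α n * (2 * Ξ / √(κ n)) = 2 * Ξ * (κ n * √(α n ^ 2 / κ n ^ 3)) := by
      rw [hrho]
      ring
    have hρ1 : √(α n ^ 2 / κ n ^ 3) ≤ 1 := by
      rw [Real.sqrt_le_one, div_le_one (by positivity)]
      exact h.par.hα n
    have hαX1 : α n * (2 * Ξ / √(κ n)) ≤ 1 / 4 := by
      rw [hαX]
      have : κ n * √(α n ^ 2 / κ n ^ 3) ≤ κ n := mul_le_of_le_one_right hκ.le hρ1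
      nlinarith
    have hqx : |q.1| ≤ 2 * Ξ / √(κ n) / 2 := by
      rw [div_div, le_div_iff₀ (by positivity)]
      nlinarith
    have h3 := hlow (α n) (μ n) (κ n) (2 * Ξ / √(κ n)) (v n) hα hκ hκ1 (h.par.hα n) (h.hμ n)
      (h.sol n) hX1 hαX1 q hE hqx
    have hinv : 1 / (2 * Ξ / √(κ n)) ^ 2 ≤ κ n := by
      have h1 : 1 ≤ Ξ ^ 2 := one_le_pow₀ hΞ
      rw [div_pow, one_div_div, hss, mul_pow, div_le_iff₀ (by positivity)]
      have h2 : κ n * 1 ≤ κ n * (2 ^ 2 * Ξ ^ 2) := mul_le_mul_of_nonneg_left (by nlinarith) hκ.le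
      linarith
    obtain ⟨hx1, hy1⟩ := ell_sq_lt hE
    have hY1 : |YE (α n) q| < 1 := (ell_iff_Y hx1).1 hE
    have hY2 : YE (α n) q ^ 2 ≤ 1 := by
      rw [← sq_abs]
      nlinarith [abs_nonneg (YE (α n) q)]
    have hY0 := sq_nonneg (YE (α n) q)
    rw [uY, if_pos hE]
    constructor
    · rw [le_div_iff₀ hκ]
      have h4 : κ n + α n * (2 * Ξ / √(κ n)) + 1 / (2 * Ξ / √(κ n)) ^ 2 ≤
          2 * κ n * (1 + Ξ * √(α n ^ 2 / κ n ^ 3)) := by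
        rw [hαX]
        nlinarith
      have h5 : 0 ≤ κ n + α n * (2 * Ξ / √(κ n)) + 1 / (2 * Ξ / √(κ n)) ^ 2 := by positivity
      have h6 : A * (κ n + α n * (2 * Ξ / √(κ n)) + 1 / (2 * Ξ / √(κ n)) ^ 2) *
          (1 - YE (α n) q ^ 2) ≤ A * (κ n + α n * (2 * Ξ / √(κ n)) + 1 / (2 * Ξ / √(κ n)) ^ 2) :=
        mul_le_of_le_one_right (by positivity) (by linarith)
      have h7 := mul_le_mul_of_nonneg_left h4 hA.le
      nlinarith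
    · rw [div_le_iff₀ hκ]
      have h4 : v n q ≤ v n (0, q.2) := by
        have h5 := (h.sol n).anti_x hα (x := 0) (x' := q.1) (y := q.2) (by simp)
        exact h5
      have h5 := (abs_le.1 (h.h0 n q.2 hy1.le)).2
      have h6 := (hV (α n) q hE (hwx q.1 hq)).2
      have h7 := hwin n q.1 hq
      have h8 : K * (α n ^ 2 * q.1 ^ 2) ≤ κ n := by
        calc K * (α n ^ 2 * q.1 ^ 2) ≤ K * (Ξ ^ 2 * κ n ^ 2) := mul_le_mul_of_nonneg_left h7 hK.le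
          _ = (K * Ξ ^ 2 * κ n) * κ n := by ring
          _ ≤ 1 * κ n := mul_le_mul_of_nonneg_right h2.le hκ.le
          _ = κ n := one_mul _
      linarith
  · rw [uY_zero _ _ _ q hE]
    constructor
    · linarith
    · norm_num

theorem fold_uy (h : Fold α μ κ v) : ∃ A : ℝ, 0 < A ∧ ∀ Ξ : ℝ, 1 ≤ Ξ → ∀ᶠ n in atTop,
    ∀ q : ℝ × ℝ, √(κ n) * |q.1| ≤ Ξ → |q.2| ≤ 1 →
      |uY (α n) (κ n) (v n) q - uy (κ n) (v n) q| ≤ A * Ξ ^ 2 * κ n := by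
  obtain ⟨K, hK, hV⟩ := fldbnd_V
  obtain ⟨c, C, hc, hC, hcV⟩ := cst_V
  refine ⟨K + C, by positivity, fun Ξ hΞ => ?_⟩
  obtain ⟨hα0, hwin, hev⟩ := h.par.win Ξ
  filter_upwards [hev] with n hn q hq hy
  obtain ⟨hκ1, hwx⟩ := hn
  have hκ := h.par.κ_pos n
  have h7 := hwin n q.1 hq
  by_cases hE : q ∈ Ell (α n)
  · have e1 : uY (α n) (κ n) (v n) q - uy (κ n) (v n) q =
        (V1 ast q.2 - V1 ast (YE (α n) q)) / κ n := by
      rw [uY, if_pos hE, uy]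
      ring
    obtain ⟨h1, h2⟩ := hV (α n) q hE (hwx q.1 hq)
    rw [e1, abs_of_nonneg (div_nonneg h1 hκ.le), div_le_iff₀ hκ]
    have h3 := mul_le_mul_of_nonneg_left h7 hK.le
    have h4 : 0 ≤ C * Ξ ^ 2 * κ n * κ n := by positivity
    nlinarith
  · have e1 : uY (α n) (κ n) (v n) q - uy (κ n) (v n) q = V1 ast q.2 / κ n := by
      rw [uY_zero _ _ _ q hE, uy, (h.sol n).zero q hE]
      ring
    obtain ⟨h1, h2⟩ := hcV q.2 hy
    have hy2 : q.2 ^ 2 ≤ 1 := by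
      rw [← sq_abs]
      nlinarith [abs_nonneg q.2]
    have h0 : 0 ≤ V1 ast q.2 := le_trans (by nlinarith) h1
    have h3 : 1 - q.2 ^ 2 ≤ α n ^ 2 * q.1 ^ 2 := by
      have : ¬ (α n ^ 2 * q.1 ^ 2 + q.2 ^ 2 < 1) := hE
      linarith [not_lt.1 this]
    rw [e1, abs_of_nonneg (div_nonneg h0 hκ.le), div_le_iff₀ hκ]
    have h4 := mul_le_mul_of_nonneg_left (h3.trans h7) hC.le
    have h5 : 0 ≤ K * Ξ ^ 2 * κ n * κ n := by positivity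
    nlinarith

/-- continuity on windows: on the boundary of the ellipse `v = 0` and `V1 ast 1 = 0` -/
theorem uY_cont (h : Fold α μ κ v) (Ξ : ℝ) : ∀ᶠ n in atTop,
    ContinuousOn (uY (α n) (κ n) (v n)) {q | √(κ n) * |q.1| ≤ Ξ} := by
  obtain ⟨hα0, hwin, hev⟩ := h.par.win Ξ
  filter_upwards [hev] with n hn
  obtain ⟨hκ1, hwx⟩ := hn
  have hw : ∀ q ∈ {q : ℝ × ℝ | √(κ n) * |q.1| ≤ Ξ}, α n ^ 2 * q.1 ^ 2 < 1 := fun q hq =>
    lt_of_le_of_lt (hwx q.1 hq) (by norm_num)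
  have h1 : ContinuousOn (YE (α n)) {q : ℝ × ℝ | √(κ n) * |q.1| ≤ Ξ} :=
    (YE_smooth (α n)).continuousOn.mono hw
  have h2 : ContinuousOn (fun q => (v n q - V1 ast (max (-1) (min 1 (YE (α n) q)))) / κ n)
      {q : ℝ × ℝ | √(κ n) * |q.1| ≤ Ξ} := by
    have h3 : ContinuousOn (fun q => max (-1) (min 1 (YE (α n) q)))
        {q : ℝ × ℝ | √(κ n) * |q.1| ≤ Ξ} :=
      ContinuousOn.sup continuousOn_const (ContinuousOn.inf continuousOn_const h1)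
    exact ((h.sol n).cont.continuousOn.sub
      ((V1_smooth ast).continuous.comp_continuousOn h3)).div_const _
  refine h2.congr fun q hq => ?_
  by_cases hE : q ∈ Ell (α n)
  · have hY := abs_lt.1 ((ell_iff_Y (hw q hq)).1 hE)
    rw [uY, if_pos hE]
    show _ = (v n q - V1 ast (max (-1) (min 1 (YE (α n) q)))) / κ n
    rw [min_eq_right hY.2.le, max_eq_right hY.1.le]
  · rw [uY_zero _ _ _ q hE]
    show _ = (v n q - V1 ast (max (-1) (min 1 (YE (α n) q)))) / κ n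
    have hY : 1 ≤ |YE (α n) q| := not_lt.1 fun hlt => hE ((ell_iff_Y (hw q hq)).2 hlt)
    have h4 : V1 ast (max (-1) (min 1 (YE (α n) q))) = 0 := by
      rcases le_abs.1 hY with h5 | h5
      · rw [min_eq_left h5, max_eq_right (by norm_num), V1_one]
      · rw [min_eq_right (by linarith), max_eq_left (by linarith), V1_even, V1_one]
    rw [h4, (h.sol n).zero q hE, sub_zero, zero_div]

theorem uY_smooth (h : Fold α μ κ v) (Ξ : ℝ) : ∀ᶠ n in atTop,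
    ContDiffOn ℝ 2 (uY (α n) (κ n) (v n)) (Ell (α n) ∩ {q | √(κ n) * |q.1| < Ξ}) := by
  refine Eventually.of_forall fun n => ?_
  have h1 : ContDiffOn ℝ ∞ (fun q => V1 ast (YE (α n) q)) (Ell (α n)) :=
    (comp_YE_smooth (α n) (V1_smooth ast)).mono fun q hq => (ell_sq_lt hq).1
  have h2 : ContDiffOn ℝ ∞ (fun q => (v n q - V1 ast (YE (α n) q)) / κ n) (Ell (α n)) :=
    ((h.sol n).smooth.sub h1).div_const _
  have h3 : ContDiffOn ℝ ∞ (uY (α n) (κ n) (v n)) (Ell (α n)) :=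
    h2.congr fun q hq => by rw [uY, if_pos hq]
  have h4 : ContDiffOn ℝ 2 (uY (α n) (κ n) (v n)) (Ell (α n)) := by
    exact_mod_cast contDiffOn_infty.1 h3 2
  exact h4.mono Set.inter_subset_left

end Pool.Agent.MFE
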