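import Pool.Agent.MFE.WMP

/-!
# MFE.IGE: interior gradient estimate (Gilbarg-Trudinger, Theorem 3.9) and consequences

Proof of `ige` for `dy` (the one for `dx` by exchanging coordinates), `q₀ = 0`, `n = 2`: on the
half square `R = {|x| < d, 0 < y < d}` put `ψ(x,y) = (u(x,y) - u(x,-y))/2`; `ψ = 0` on `y = 0`,
`|ψ| ≤ M`, `|lap ψ| ≤ N`. Barrier `b(x,y) = (M/d²)(x² + y(2d - y)) + (N/2) y (d - y)`:
`lap b = -N`, `b ≥ 0` on `y = 0`, `b ≥ M` on the other three sides. Maximum principle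
(`wmp_bdd`) for `±ψ`: `|ψ| ≤ b` on `R`; divide by `y` at `x = 0`, `y → 0`:
`|dy u (0)| = lim |ψ(0,y)/y| ≤ 2M/d + dN/2`.

`ige2`: apply `ige` to `dx f`, `dy f` on the squares of half side `d/2` around `q₀`, where
`|dx f| ≤ (4/d) M + (d/4) N` by `ige` with half side `d/2`.
-/

open scoped ContDiff

namespace Pool.Agent.MFE

private theorem IGE_swap (f : ℝ × ℝ → ℝ) (z v : ℝ × ℝ) :
    fderiv ℝ (fun w : ℝ × ℝ => f (w.2, w.1)) z v = fderiv ℝ f (z.2, z.1) (v.2, v.1) := by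
  have h1 := (ContinuousLinearEquiv.prodComm ℝ ℝ ℝ).comp_right_fderiv (f := f) (x := z)
  have h2 : f ∘ (ContinuousLinearEquiv.prodComm ℝ ℝ ℝ) = fun w : ℝ × ℝ => f (w.2, w.1) := by
    ext w; rfl
  rw [h2] at h1
  rw [h1]
  rfl

private theorem IGE_swap_dx (f : ℝ × ℝ → ℝ) :
    dx (fun w : ℝ × ℝ => f (w.2, w.1)) = fun z => dy f (z.2, z.1) := by
  ext z; rw [dx, IGE_swap]; rfl

private theorem IGE_swap_dy (f : ℝ × ℝ → ℝ) :
    dy (fun w : ℝ × ℝ => f (w.2, w.1)) = fun z => dx f (z.2, z.1) := by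
  ext z; rw [dy, IGE_swap]; rfl

private theorem IGE_swap_lap (f : ℝ × ℝ → ℝ) (z : ℝ × ℝ) :
    lap (fun w : ℝ × ℝ => f (w.2, w.1)) z = lap f (z.2, z.1) := by
  rw [lap, lap, IGE_swap_dx, IGE_swap_dy, IGE_swap_dx, IGE_swap_dy]
  ring

private theorem IGE_sep {F G : ℝ → ℝ} (hF : ContDiff ℝ 2 F) (hG : ContDiff ℝ 2 G) (z : ℝ × ℝ) :
    lap (fun z : ℝ × ℝ => F z.1 + G z.2) z = deriv (deriv F) z.1 + deriv (deriv G) z.2 := by
  have h1 : ContDiff ℝ 2 (fun z : ℝ × ℝ => F z.1) := hF.comp contDiff_fst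
  have h2 : ContDiff ℝ 2 (fun z : ℝ × ℝ => G z.2) := hG.comp contDiff_snd
  rw [lap_add isOpen_univ h1.contDiffOn h2.contDiffOn (Set.mem_univ z), lap_fst F hF,
    lap_snd G hG]

private theorem IGE_half {U : Set (ℝ × ℝ)} (hU : IsOpen U) {f : ℝ × ℝ → ℝ}
    (hf : ContDiffOn ℝ 2 f U) {a b d M N : ℝ} (hd : 0 < d) (hsub : Sq (a, b) d ⊆ U)
    (hM : ∀ q ∈ Sq (a, b) d, |f q| ≤ M) (hN : ∀ q ∈ Sq (a, b) d, |lap f q| ≤ N) {y : ℝ}
    (hy : 0 < y) (hyd : y < d) :
    (f (a, b + y) - f (a, b - y)) / 2 ≤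
      M / d ^ 2 * (y * (2 * d - y)) + N / 2 * (y * (d - y)) := by
  set D : Set (ℝ × ℝ) := {q | (a - d < q.1 ∧ q.1 < a + d) ∧ (b < q.2 ∧ q.2 < b + d)} with hDdef
  have hDo : IsOpen D := by
    have h1 : IsOpen {q : ℝ × ℝ | a - d < q.1} := isOpen_lt continuous_const continuous_fst
    have h2 : IsOpen {q : ℝ × ℝ | q.1 < a + d} := isOpen_lt continuous_fst continuous_const
    have h3 : IsOpen {q : ℝ × ℝ | b < q.2} := isOpen_lt continuous_const continuous_snd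
    have h4 : IsOpen {q : ℝ × ℝ | q.2 < b + d} := isOpen_lt continuous_snd continuous_const
    exact (h1.inter h2).inter (h3.inter h4)
  set E : Set (ℝ × ℝ) := {q | (a - d ≤ q.1 ∧ q.1 ≤ a + d) ∧ (b ≤ q.2 ∧ q.2 ≤ b + d)} with hEdef
  have hEc : IsClosed E := by
    have h1 : IsClosed {q : ℝ × ℝ | a - d ≤ q.1} := isClosed_le continuous_const continuous_fst
    have h2 : IsClosed {q : ℝ × ℝ | q.1 ≤ a + d} := isClosed_le continuous_fst continuous_const
    have h3 : IsClosed {q : ℝ × ℝ | b ≤ q.2} := isClosed_le continuous_const continuous_snd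
    have h4 : IsClosed {q : ℝ × ℝ | q.2 ≤ b + d} := isClosed_le continuous_snd continuous_const
    exact (h1.inter h2).inter (h3.inter h4)
  have hDE : D ⊆ E := fun q hq => ⟨⟨hq.1.1.le, hq.1.2.le⟩, ⟨hq.2.1.le, hq.2.2.le⟩⟩
  have hclE : closure D ⊆ E := closure_minimal hDE hEc
  have hES : E ⊆ Sq (a, b) d := by
    intro q hq
    refine ⟨abs_le.mpr ⟨by linarith [hq.1.1], by linarith [hq.1.2]⟩,
      abs_le.mpr ⟨by linarith [hq.2.1], by linarith [hq.2.2]⟩⟩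
  have hES' : ∀ q ∈ E, (a * 0 + 1 * q.1, 2 * b + (-1) * q.2) ∈ Sq (a, b) d := by
    intro q hq
    refine ⟨abs_le.mpr ⟨?_, ?_⟩, abs_le.mpr ⟨?_, ?_⟩⟩
    · show -d ≤ (a * 0 + 1 * q.1) - a
      linarith [hq.1.1]
    · show (a * 0 + 1 * q.1) - a ≤ d
      linarith [hq.1.2]
    · show -d ≤ (2 * b + (-1) * q.2) - b
      linarith [hq.2.2]
    · show (2 * b + (-1) * q.2) - b ≤ d
      linarith [hq.2.1]
  have hb : Bornology.IsBounded D := by
    have h1 : D ⊆ Set.Icc (a - d) (a + d) ×ˢ Set.Icc b (b + d) := fun q hq =>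
      ⟨⟨hq.1.1.le, hq.1.2.le⟩, ⟨hq.2.1.le, hq.2.2.le⟩⟩
    exact (isCompact_Icc.prod isCompact_Icc).isBounded.subset h1
  -- the reflected function
  set g : ℝ × ℝ → ℝ := fun z => f (a * 0 + 1 * z.1, 2 * b + (-1) * z.2) with hg
  set U' : Set (ℝ × ℝ) := {z | (a * 0 + 1 * z.1, 2 * b + (-1) * z.2) ∈ U} with hU'
  have hmap : ContDiff ℝ 2 (fun z : ℝ × ℝ => (a * 0 + 1 * z.1, 2 * b + (-1) * z.2)) := by
    fun_prop
  have hU'o : IsOpen U' := hU.preimage hmap.continuous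
  have hgU : ContDiffOn ℝ 2 g U' := hf.comp hmap.contDiffOn fun z hz => hz
  have hgl : ∀ z ∈ U', lap g z = lap f (a * 0 + 1 * z.1, 2 * b + (-1) * z.2) := fun z hz =>
    lap_aff (a * 0) (2 * b) (by norm_num) (by norm_num) hU hf hz
  have hEU' : E ⊆ U' := fun q hq => hsub (hES' q hq)
  have hEU : E ⊆ U := fun q hq => hsub (hES hq)
  have hM0 : 0 ≤ M := (abs_nonneg _).trans (hM (a, b) ⟨by simp [hd.le], by simp [hd.le]⟩)
  have hN0 : 0 ≤ N := (abs_nonneg _).trans (hN (a, b) ⟨by simp [hd.le], by simp [hd.le]⟩)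
  set ψ : ℝ × ℝ → ℝ := fun z => 1 / 2 * (f z - g z) with hψ
  have hψ2 : ContDiffOn ℝ 2 ψ (U ∩ U') :=
    contDiffOn_const.mul ((hf.mono Set.inter_subset_left).sub (hgU.mono Set.inter_subset_right))
  have hψl : ∀ z ∈ U ∩ U', lap ψ z = 1 / 2 * (lap f z - lap g z) := by
    intro z hz
    have ho := hU.inter hU'o
    rw [hψ, lap_const_mul ho (1 / 2)
      ((hf.mono Set.inter_subset_left).sub (hgU.mono Set.inter_subset_right)) hz,
      lap_sub ho (hf.mono Set.inter_subset_left) (hgU.mono Set.inter_subset_right) hz]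
  -- the barrier
  set B : ℝ × ℝ → ℝ := fun z => (fun x : ℝ => M / d ^ 2 * (x - a) ^ 2) z.1 +
    (fun y : ℝ => M / d ^ 2 * ((y - b) * (2 * d - (y - b))) +
      N / 2 * ((y - b) * (d - (y - b)))) z.2 with hB
  have hc1 : ContDiff ℝ 2 (fun x : ℝ => M / d ^ 2 * (x - a) ^ 2) := by fun_prop
  have hc2 : ContDiff ℝ 2 (fun y : ℝ => M / d ^ 2 * ((y - b) * (2 * d - (y - b))) +
      N / 2 * ((y - b) * (d - (y - b)))) := by fun_prop
  have hB2 : ContDiff ℝ 2 B := (hc1.comp contDiff_fst).add (hc2.comp contDiff_snd)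
  have hd1 : deriv (deriv (fun x : ℝ => M / d ^ 2 * (x - a) ^ 2)) = fun _ => 2 * (M / d ^ 2) := by
    have e1 : deriv (fun x : ℝ => M / d ^ 2 * (x - a) ^ 2)
        = fun x => 2 * (M / d ^ 2) * (x - a) := by
      ext x
      have : HasDerivAt (fun x : ℝ => M / d ^ 2 * (x - a) ^ 2)
          (M / d ^ 2 * (2 * (x - a) ^ 1 * 1)) x :=
        (((hasDerivAt_id x).sub_const a).pow 2).const_mul _
      rw [this.deriv]; ring
    rw [e1]
    ext x
    have : HasDerivAt (fun x : ℝ => 2 * (M / d ^ 2) * (x - a)) (2 * (M / d ^ 2) * 1) x :=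
      ((hasDerivAt_id x).sub_const a).const_mul _
    rw [this.deriv]; ring
  have hd2 : deriv (deriv (fun y : ℝ => M / d ^ 2 * ((y - b) * (2 * d - (y - b))) +
      N / 2 * ((y - b) * (d - (y - b))))) = fun _ => -2 * (M / d ^ 2) - N := by
    have e1 : deriv (fun y : ℝ => M / d ^ 2 * ((y - b) * (2 * d - (y - b))) +
        N / 2 * ((y - b) * (d - (y - b))))
        = fun y => M / d ^ 2 * (2 * d - 2 * (y - b)) + N / 2 * (d - 2 * (y - b)) := by
      ext x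
      have h0 : HasDerivAt (fun y : ℝ => y - b) 1 x := (hasDerivAt_id x).sub_const b
      have : HasDerivAt (fun y : ℝ => M / d ^ 2 * ((y - b) * (2 * d - (y - b))) +
        N / 2 * ((y - b) * (d - (y - b))))
          (M / d ^ 2 * (1 * (2 * d - (x - b)) + (x - b) * (-1)) +
            N / 2 * (1 * (d - (x - b)) + (x - b) * (-1))) x :=
        ((h0.mul (h0.const_sub (2 * d))).const_mul _).add ((h0.mul (h0.const_sub d)).const_mul _)
      rw [this.deriv]; ring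
    rw [e1]
    ext x
    have h0 : HasDerivAt (fun y : ℝ => y - b) 1 x := (hasDerivAt_id x).sub_const b
    have : HasDerivAt (fun y : ℝ => M / d ^ 2 * (2 * d - 2 * (y - b)) + N / 2 * (d - 2 * (y - b)))
        (M / d ^ 2 * (-(2 * 1)) + N / 2 * (-(2 * 1))) x :=
      (((h0.const_mul 2).const_sub (2 * d)).const_mul _).add
        (((h0.const_mul 2).const_sub d).const_mul _)
    rw [this.deriv]; ring
  have hBl : ∀ z, lap B z = -N := by
    intro z
    have h := IGE_sep hc1 hc2 z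
    rw [hd1, hd2] at h
    rw [hB]
    refine h.trans ?_
    ring
  have hBval : ∀ z, B z = M / d ^ 2 * (z.1 - a) ^ 2 +
      (M / d ^ 2 * ((z.2 - b) * (2 * d - (z.2 - b))) + N / 2 * ((z.2 - b) * (d - (z.2 - b)))) :=
    fun z => rfl
  have hMd : 0 ≤ M / d ^ 2 := by positivity
  have hMd2 : M / d ^ 2 * d ^ 2 = M := by field_simp
  have hψE : ∀ q ∈ E, ψ q ≤ M := by
    intro q hq
    have h1 := abs_le.mp (hM q (hES hq))
    have h2 := abs_le.mp (hM _ (hES' q hq))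
    show 1 / 2 * (f q - f _) ≤ M
    linarith [h1.2, h2.1]
  have main := wmp_bdd hDo hb (u := ψ) (b := B)
    (hψ2.mono fun q hq => ⟨hEU (hDE hq), hEU' (hDE hq)⟩) hB2.contDiffOn
    (hψ2.continuousOn.mono fun q hq => ⟨hEU (hclE hq), hEU' (hclE hq)⟩)
    hB2.continuous.continuousOn ?_ ?_ (a, b + y)
    (subset_closure ⟨⟨by show a - d < a; linarith, by show a < a + d; linarith⟩,
      ⟨by show b < b + y; linarith, by show b + y < b + d; linarith⟩⟩)
  · rw [hBval] at main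
    have e1 : ψ (a, b + y) = (f (a, b + y) - f (a, b - y)) / 2 := by
      show 1 / 2 * (f (a, b + y) - f (a * 0 + 1 * a, 2 * b + (-1) * (b + y))) = _
      have : (a * 0 + 1 * a, 2 * b + (-1) * (b + y)) = (a, b - y) := by
        ext <;> simp <;> ring
      rw [this]; ring
    rw [e1] at main
    have e2 : (a, b + y).1 - a = 0 := by simp
    have e3 : (a, b + y).2 - b = y := by simp
    rw [e2, e3] at main
    linarith
  · intro q hq
    have hqE := hDE hq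
    rw [hBl, hψl q ⟨hEU hqE, hEU' hqE⟩, hgl q (hEU' hqE)]
    have h1 := abs_le.mp (hN q (hES hqE))
    have h2 := abs_le.mp (hN _ (hES' q hqE))
    linarith [h1.1, h2.2]
  · intro q hq
    have hqE : q ∈ E := hclE (frontier_subset_closure hq)
    have hqD : q ∉ D := by
      have : q ∈ closure D \ interior D := hq
      rw [hDo.interior_eq] at this
      exact this.2
    have hx1 := hqE.1.1
    have hx2 := hqE.1.2
    have hy1 := hqE.2.1
    have hy2 := hqE.2.2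
    have p1 : 0 ≤ M / d ^ 2 * (q.1 - a) ^ 2 := by positivity
    have p2 : 0 ≤ M / d ^ 2 * ((q.2 - b) * (2 * d - (q.2 - b))) :=
      mul_nonneg hMd (mul_nonneg (by linarith) (by linarith))
    have p3 : 0 ≤ N / 2 * ((q.2 - b) * (d - (q.2 - b))) :=
      mul_nonneg (by linarith) (mul_nonneg (by linarith) (by linarith))
    rw [hBval]
    rcases eq_or_lt_of_le hy1 with h | h
    · -- bottom side
      have : ψ q = 0 := by
        show 1 / 2 * (f q - f (a * 0 + 1 * q.1, 2 * b + (-1) * q.2)) = 0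
        have : (a * 0 + 1 * q.1, 2 * b + (-1) * q.2) = q := by
          ext <;> simp <;> linarith
        rw [this]; ring
      rw [this]; linarith
    rcases eq_or_lt_of_le hy2 with h' | h'
    · have : M / d ^ 2 * ((q.2 - b) * (2 * d - (q.2 - b))) = M := by
        rw [h']
        have : (b + d - b) * (2 * d - (b + d - b)) = d ^ 2 := by ring
        rw [this, hMd2]
      have := hψE q hqE
      linarith
    have hside : (q.1 - a) ^ 2 = d ^ 2 := by
      rcases eq_or_lt_of_le hx1 with h1 | h1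
      · rw [← h1]; ring
      rcases eq_or_lt_of_le hx2 with h2 | h2
      · rw [h2]; ring
      exact absurd ⟨⟨h1, h2⟩, ⟨h, h'⟩⟩ hqD
    have := hψE q hqE
    rw [hside, hMd2]
    linarith

private theorem IGE_dy {U : Set (ℝ × ℝ)} (hU : IsOpen U) {f : ℝ × ℝ → ℝ}
    (hf : ContDiffOn ℝ 2 f U) {q₀ : ℝ × ℝ} {d M N : ℝ} (hd : 0 < d) (hsub : Sq q₀ d ⊆ U)
    (hM : ∀ q ∈ Sq q₀ d, |f q| ≤ M) (hN : ∀ q ∈ Sq q₀ d, |lap f q| ≤ N) :
    dy f q₀ ≤ 2 / d * M + d / 2 * N := by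
  obtain ⟨a, b⟩ := q₀
  have hq0 : (a, b) ∈ U := hsub ⟨by simp [hd.le], by simp [hd.le]⟩
  have hdiff : DifferentiableAt ℝ f (a, b) :=
    (hf.contDiffAt (hU.mem_nhds hq0)).differentiableAt (by norm_num)
  have hd1 := hasDerivAt_dy hdiff
  -- derivative of the odd part
  have hd2 : HasDerivAt (fun s => (f (a, b + s) - f (a, b - s)) / 2) (dy f (a, b)) 0 := by
    have e1 : HasDerivAt (fun s : ℝ => b + s) 1 0 := (hasDerivAt_id (0 : ℝ)).const_add b
    have e2 : HasDerivAt (fun s : ℝ => b - s) (-1) 0 := (hasDerivAt_id (0 : ℝ)).const_sub b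
    have f1 : HasDerivAt (fun s => f (a, b + s)) (dy f (a, b) * 1) 0 := by
      have h : HasDerivAt (fun s => f (a, s)) (dy f (a, b)) (b + 0) := by simpa using hd1
      exact h.comp (0 : ℝ) e1
    have f2 : HasDerivAt (fun s => f (a, b - s)) (dy f (a, b) * (-1)) 0 := by
      have h : HasDerivAt (fun s => f (a, s)) (dy f (a, b)) (b - 0) := by simpa using hd1
      exact h.comp (0 : ℝ) e2
    have := (f1.sub f2).div_const 2
    have e3 : (dy f (a, b) * 1 - dy f (a, b) * (-1)) / 2 = dy f (a, b) := by ring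
    rw [e3] at this
    exact this
  have hlim := hd2.tendsto_slope_zero_right
  have hlim2 : Filter.Tendsto (fun t : ℝ => M / d ^ 2 * (2 * d - t) + N / 2 * (d - t))
      (nhdsWithin 0 (Set.Ioi 0)) (nhds (M / d ^ 2 * (2 * d - 0) + N / 2 * (d - 0))) := by
    have hc : Continuous fun t : ℝ => M / d ^ 2 * (2 * d - t) + N / 2 * (d - t) := by fun_prop
    exact (hc.tendsto 0).mono_left nhdsWithin_le_nhds
  have hle := le_of_tendsto_of_tendsto hlim hlim2 ?_
  · have : M / d ^ 2 * (2 * d - 0) + N / 2 * (d - 0) = 2 / d * M + d / 2 * N := by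
      field_simp
      ring
    rw [this] at hle
    exact hle
  · have hev : ∀ᶠ t : ℝ in nhdsWithin 0 (Set.Ioi 0), t < d :=
      (gt_mem_nhds hd).filter_mono nhdsWithin_le_nhds |>.mono fun t ht => ht
    filter_upwards [hev, self_mem_nhdsWithin] with t ht ht0
    have ht0' : (0 : ℝ) < t := ht0
    have h := IGE_half hU hf hd hsub hM hN ht0' ht
    simp only [zero_add, add_zero, sub_zero, sub_self, zero_div, smul_eq_mul]
    rw [inv_mul_le_iff₀ ht0']
    calc _ ≤ _ := h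
      _ = _ := by ring

theorem ige {U : Set (ℝ × ℝ)} (hU : IsOpen U) {f : ℝ × ℝ → ℝ} (hf : ContDiffOn ℝ 2 f U)
    {q₀ : ℝ × ℝ} {d M N : ℝ} (hd : 0 < d) (hsub : Sq q₀ d ⊆ U)
    (hM : ∀ q ∈ Sq q₀ d, |f q| ≤ M) (hN : ∀ q ∈ Sq q₀ d, |lap f q| ≤ N) :
    |dx f q₀| ≤ 2 / d * M + d / 2 * N ∧ |dy f q₀| ≤ 2 / d * M + d / 2 * N := by
  have key : ∀ {V : Set (ℝ × ℝ)} (_ : IsOpen V) {g : ℝ × ℝ → ℝ} (_ : ContDiffOn ℝ 2 g V)
      {p : ℝ × ℝ} (_ : Sq p d ⊆ V) (_ : ∀ q ∈ Sq p d, |g q| ≤ M)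
      (_ : ∀ q ∈ Sq p d, |lap g q| ≤ N), |dy g p| ≤ 2 / d * M + d / 2 * N := by
    intro V hV g hg p hs hM' hN'
    have hp : p ∈ V := hs ⟨by simp [hd.le], by simp [hd.le]⟩
    have h1 := IGE_dy hV hg hd hs hM' hN'
    have h2 := IGE_dy hV (f := fun z => -1 * g z) (contDiffOn_const.mul hg) hd hs
      (fun q hq => by rw [abs_mul]; simpa using hM' q hq)
      (fun q hq => by
        rw [lap_const_mul hV (-1) hg (hs hq), abs_mul]; simpa using hN' q hq)
    rw [dy_const_mul (-1) ((hg.contDiffAt (hV.mem_nhds hp)).differentiableAt (by norm_num))] at h2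
    rw [abs_le]
    constructor <;> linarith
  refine ⟨?_, key hU hf hsub hM hN⟩
  have hswap : ContDiff ℝ 2 (fun w : ℝ × ℝ => (w.2, w.1)) := by fun_prop
  have h := key (V := (fun w : ℝ × ℝ => (w.2, w.1)) ⁻¹' U) (hU.preimage hswap.continuous)
    (g := fun w => f (w.2, w.1)) (hf.comp hswap.contDiffOn fun z hz => hz) (p := (q₀.2, q₀.1))
    (fun q hq => hsub ⟨hq.2, hq.1⟩) (fun q hq => hM (q.2, q.1) ⟨hq.2, hq.1⟩)
    (fun q hq => by rw [IGE_swap_lap]; exact hN (q.2, q.1) ⟨hq.2, hq.1⟩)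
  rw [IGE_swap_dy] at h
  exact h

/-- second derivatives: `N'` bounds the gradient of the Laplacian -/
theorem ige2 {U : Set (ℝ × ℝ)} (hU : IsOpen U) {f : ℝ × ℝ → ℝ} (hf : ContDiffOn ℝ 3 f U)
    {q₀ : ℝ × ℝ} {d M N N' : ℝ} (hd : 0 < d) (hsub : Sq q₀ d ⊆ U)
    (hM : ∀ q ∈ Sq q₀ d, |f q| ≤ M) (hN : ∀ q ∈ Sq q₀ d, |lap f q| ≤ N)
    (hN' : ∀ q ∈ Sq q₀ d, |dx (lap f) q| ≤ N' ∧ |dy (lap f) q| ≤ N') :
    |dx (dx f) q₀| ≤ 16 / d ^ 2 * M + N + d * N' ∧
    |dy (dx f) q₀| ≤ 16 / d ^ 2 * M + N + d * N' ∧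
    |dy (dy f) q₀| ≤ 16 / d ^ 2 * M + N + d * N' := by
  have hf2 : ContDiffOn ℝ 2 f U := hf.of_le (by norm_num)
  have hfx : ContDiffOn ℝ 2 (dx f) U := by
    have := c_dx (n := 2) hU (f := f) (by exact_mod_cast hf)
    exact_mod_cast this
  have hfy : ContDiffOn ℝ 2 (dy f) U := by
    have := c_dy (n := 2) hU (f := f) (by exact_mod_cast hf)
    exact_mod_cast this
  have hsq : Sq q₀ (d / 2) ⊆ Sq q₀ d := fun q hq =>
    ⟨hq.1.trans (by linarith), hq.2.trans (by linarith)⟩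
  have hsq2 : ∀ p ∈ Sq q₀ (d / 2), Sq p (d / 2) ⊆ Sq q₀ d := by
    intro p hp q hq
    constructor
    · have : |q.1 - q₀.1| ≤ |q.1 - p.1| + |p.1 - q₀.1| := abs_sub_le _ _ _
      linarith [hq.1, hp.1]
    · have : |q.2 - q₀.2| ≤ |q.2 - p.2| + |p.2 - q₀.2| := abs_sub_le _ _ _
      linarith [hq.2, hp.2]
  have hg1 : ∀ p ∈ Sq q₀ (d / 2), |dx f p| ≤ 2 / (d / 2) * M + d / 2 / 2 * N ∧
      |dy f p| ≤ 2 / (d / 2) * M + d / 2 / 2 * N := fun p hp =>
    ige hU hf2 (by positivity) ((hsq2 p hp).trans hsub) (fun q hq => hM q (hsq2 p hp hq))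
      (fun q hq => hN q (hsq2 p hp hq))
  have hx := ige hU hfx (q₀ := q₀) (d := d / 2) (by positivity) (hsq.trans hsub)
    (fun q hq => (hg1 q hq).1)
    (fun q hq => by rw [lap_dx hU hf (hsub (hsq hq))]; exact (hN' q (hsq hq)).1)
  have hy := ige hU hfy (q₀ := q₀) (d := d / 2) (by positivity) (hsq.trans hsub)
    (fun q hq => (hg1 q hq).2)
    (fun q hq => by rw [lap_dy hU hf (hsub (hsq hq))]; exact (hN' q (hsq hq)).2)
  have hN'0 : 0 ≤ N' := (abs_nonneg _).trans (hN' q₀ ⟨by simp [hd.le], by simp [hd.le]⟩).1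
  have hb : 2 / (d / 2) * (2 / (d / 2) * M + d / 2 / 2 * N) + d / 2 / 2 * N'
      ≤ 16 / d ^ 2 * M + N + d * N' := by
    have e : 2 / (d / 2) * (2 / (d / 2) * M + d / 2 / 2 * N) = 16 / d ^ 2 * M + N := by
      field_simp
      ring
    rw [e]
    have : d / 2 / 2 * N' ≤ d * N' := mul_le_mul_of_nonneg_right (by linarith) hN'0
    linarith
  exact ⟨hx.1.trans hb, hx.2.trans hb, hy.2.trans hb⟩

end Pool.Agent.MFE
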