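import Pool.Agent.MFE.CAL

/-!
# MFE.WMP: weak maximum principle with a positive supersolution

`wmp`: let `u(q₁) > 0`, `ε = u(q₁)/g(q₁)`, `S = {q ∈ D : ε g ≤ u}` compact and non-empty. The
continuous function `u/g` attains on `S` its maximum `m ≥ ε` at `q₀`. Outside `S` (in `D`)
`u < ε g ≤ m g`, so `u - m g ≤ 0` on `D` with equality at `q₀`: a local maximum of `u - m g`
(`D` open). Hence `lap (u - m g) q₀ ≤ 0` (`lap_nonpos_of_localMax`), i.e.
`-lap u q₀ ≥ -m lap g q₀ > m c g = c u(q₀) ≥ -lap u q₀` (note `u q₀ = m g q₀ > 0`): contradiction.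

`wmp_sub`: `c = 0`, `g = 1 + (something)`: for a domain inside the strip `|y| < L` use
`g q = 2 L^2 + 1 - q.2^2` (`-lap g = 2 > 0`).
-/

open scoped ContDiff

namespace Pool.Agent.MFE

theorem wmp {D : Set (ℝ × ℝ)} (hD : IsOpen D) {u g c : ℝ × ℝ → ℝ}
    (hu : ContDiffOn ℝ 2 u D) (hg : ContDiffOn ℝ 2 g D) (gpos : ∀ q ∈ D, 0 < g q)
    (hg2 : ∀ q ∈ D, c q * g q < -lap g q)
    (hu2 : ∀ q ∈ D, 0 < u q → -lap u q ≤ c q * u q)
    (hcomp : ∀ ε : ℝ, 0 < ε → IsCompact {q | q ∈ D ∧ ε * g q ≤ u q}) :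
    ∀ q ∈ D, u q ≤ 0 := by
  intro q₁ hq₁
  by_contra hneg
  push Not at hneg
  have hε : 0 < u q₁ / g q₁ := div_pos hneg (gpos q₁ hq₁)
  obtain ⟨ε, hεdef⟩ : ∃ ε, ε = u q₁ / g q₁ := ⟨_, rfl⟩
  rw [← hεdef] at hε
  have hS := hcomp ε hε
  have hq₁S : q₁ ∈ {q | q ∈ D ∧ ε * g q ≤ u q} := by
    refine ⟨hq₁, ?_⟩
    rw [hεdef, div_mul_cancel₀ _ (gpos q₁ hq₁).ne']
  have hcont : ContinuousOn (fun q => u q / g q) {q | q ∈ D ∧ ε * g q ≤ u q} :=
    (hu.continuousOn.div hg.continuousOn fun q hq => (gpos q hq).ne').mono fun q hq => hq.1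
  obtain ⟨q₀, hq₀, hmax⟩ := hS.exists_isMaxOn ⟨q₁, hq₁S⟩ hcont
  obtain ⟨m, hm⟩ : ∃ m, m = u q₀ / g q₀ := ⟨_, rfl⟩
  have hgq₀ : 0 < g q₀ := gpos q₀ hq₀.1
  have hmε : ε ≤ m := by
    rw [hm, hεdef]
    exact hmax hq₁S
  have hm0 : 0 < m := hε.trans_le hmε
  have hum : u q₀ = m * g q₀ := by rw [hm, div_mul_cancel₀ _ hgq₀.ne']
  have hle : ∀ q ∈ D, u q - m * g q ≤ 0 := by
    intro q hq
    by_cases hqS : ε * g q ≤ u q
    · have h1 : u q / g q ≤ m := by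
        rw [hm]
        exact hmax (show q ∈ {q | q ∈ D ∧ ε * g q ≤ u q} from ⟨hq, hqS⟩)
      rw [div_le_iff₀ (gpos q hq)] at h1
      linarith
    · push Not at hqS
      have := mul_le_mul_of_nonneg_right hmε (gpos q hq).le
      linarith
  have hloc : IsLocalMax (fun z => u z - m * g z) q₀ := by
    filter_upwards [hD.mem_nhds hq₀.1] with q hq
    rw [hum, sub_self]
    exact hle q hq
  have hmg : ContDiffOn ℝ 2 (fun z => m * g z) D := contDiffOn_const.mul hg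
  have h1 := lap_nonpos_of_localMax hD (hu.sub hmg) hq₀.1 hloc
  have h1' : lap (fun z => u z - m * g z) q₀ ≤ 0 := h1
  rw [lap_sub hD hu hmg hq₀.1, lap_const_mul hD m hg hq₀.1] at h1'
  have h2 := hu2 q₀ hq₀.1 (by rw [hum]; positivity)
  have h3 := mul_lt_mul_of_pos_left (hg2 q₀ hq₀.1) hm0
  rw [hum] at h2
  nlinarith

private theorem WMP_lap (L : ℝ) (q : ℝ × ℝ) :
    lap (fun z : ℝ × ℝ => 2 * L ^ 2 + 1 - z.2 ^ 2) q = -2 := by
  have hd : deriv (fun y : ℝ => 2 * L ^ 2 + 1 - y ^ 2) = fun y => -(2 * y) := by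
    funext y
    have h := (hasDerivAt_pow 2 y).const_sub (2 * L ^ 2 + 1)
    rw [h.deriv]
    simp
  have h1 : ContDiff ℝ 2 (fun y : ℝ => 2 * L ^ 2 + 1 - y ^ 2) := by fun_prop
  rw [lap_snd (fun y : ℝ => 2 * L ^ 2 + 1 - y ^ 2) h1, hd]
  have h2 := ((hasDerivAt_id q.2).const_mul (2 : ℝ)).neg
  have h3 : HasDerivAt (fun y : ℝ => -(2 * y)) (-(2 * 1)) q.2 := h2
  rw [h3.deriv]
  norm_num

private theorem WMP_closed {T : Set (ℝ × ℝ)} (hT : IsCompact T) {f g : ℝ × ℝ → ℝ}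
    (hf : ContinuousOn f T) (hg : ContinuousOn g T) : IsCompact {q | q ∈ T ∧ f q ≤ g q} := by
  refine hT.of_isClosed_subset ?_ fun q hq => hq.1
  have h := (hg.sub hf).preimage_isClosed_of_isClosed hT.isClosed (isClosed_Ici (a := (0 : ℝ)))
  have e : {q | q ∈ T ∧ f q ≤ g q} = T ∩ (fun q => g q - f q) ⁻¹' Set.Ici 0 := by
    ext q
    simp
  rw [e]
  exact h

private theorem WMP_bd {D : Set (ℝ × ℝ)} (hb : Bornology.IsBounded D) {f g : ℝ × ℝ → ℝ}
    (hf : ContinuousOn f (closure D)) (hg : ContinuousOn g (closure D))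
    (hbd : ∀ q ∈ frontier D, g q < f q) : IsCompact {q | q ∈ D ∧ f q ≤ g q} := by
  have h := WMP_closed hb.isCompact_closure hf hg
  have e : {q | q ∈ D ∧ f q ≤ g q} = {q | q ∈ closure D ∧ f q ≤ g q} := by
    ext q
    refine ⟨fun hq => ⟨subset_closure hq.1, hq.2⟩, fun hq => ⟨?_, hq.2⟩⟩
    by_contra hqD
    have h1 : q ∈ frontier D := ⟨hq.1, fun hi => hqD (interior_subset hi)⟩
    exact absurd hq.2 (not_le.2 (hbd q h1))
  rw [e]
  exact h

private theorem WMP_cl {D : Set (ℝ × ℝ)} {f : ℝ × ℝ → ℝ} (h1 : ∀ q ∈ D, f q ≤ 0)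
    (h2 : ∀ q ∈ frontier D, f q ≤ 0) : ∀ q ∈ closure D, f q ≤ 0 := by
  intro q hq
  by_cases h : q ∈ D
  · exact h1 q h
  · exact h2 q ⟨hq, fun hi => h (interior_subset hi)⟩

/-- maximum principle for the Laplace operator in a strip like domain -/
theorem wmp_sub {D : Set (ℝ × ℝ)} (hD : IsOpen D) {L : ℝ} (hL : D ⊆ Str L)
    {u : ℝ × ℝ → ℝ} (hu : ContDiffOn ℝ 2 u D)
    (hu2 : ∀ q ∈ D, 0 < u q → 0 ≤ lap u q)
    (hcomp : ∀ ε : ℝ, 0 < ε → IsCompact {q | q ∈ D ∧ ε ≤ u q}) :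
    ∀ q ∈ D, u q ≤ 0 := by
  have hg0 : ∀ q ∈ D, 1 ≤ 2 * L ^ 2 + 1 - q.2 ^ 2 := by
    intro q hq
    have h1 : |q.2| < L := hL hq
    have h2 : q.2 ^ 2 ≤ L ^ 2 := by
      rw [← sq_abs q.2]
      exact pow_le_pow_left₀ (abs_nonneg _) h1.le 2
    nlinarith [sq_nonneg L]
  have hgc : ContDiff ℝ 2 (fun z : ℝ × ℝ => 2 * L ^ 2 + 1 - z.2 ^ 2) := by fun_prop
  refine wmp hD (g := fun z => 2 * L ^ 2 + 1 - z.2 ^ 2) (c := fun _ => 0) hu hgc.contDiffOn
    (fun q hq => one_pos.trans_le (hg0 q hq)) (fun q _ => by rw [WMP_lap]; norm_num)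
    (fun q hq h => by have := hu2 q hq h; linarith) fun ε hε => ?_
  have h := WMP_closed (hcomp ε hε) (f := fun q => ε * (2 * L ^ 2 + 1 - q.2 ^ 2)) (g := u)
    (by fun_prop) (hu.continuousOn.mono fun q hq => hq.1)
  have e : {q | q ∈ D ∧ ε * (2 * L ^ 2 + 1 - q.2 ^ 2) ≤ u q}
      = {q | q ∈ {q | q ∈ D ∧ ε ≤ u q} ∧ ε * (2 * L ^ 2 + 1 - q.2 ^ 2) ≤ u q} := by
    ext q
    refine ⟨fun hq => ⟨⟨hq.1, ?_⟩, hq.2⟩, fun hq => ⟨hq.1.1, hq.2⟩⟩
    have h1 := mul_le_mul_of_nonneg_left (hg0 q hq.1) hε.le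
    have h2 := hq.2
    linarith
  rw [e]
  exact h

/-- comparison principle for the Laplace operator on a bounded domain, continuous functions:
`-Δu ≤ -Δb` in `D`, `u ≤ b` on the boundary -/
theorem wmp_bdd {D : Set (ℝ × ℝ)} (hD : IsOpen D) (hb : Bornology.IsBounded D)
    {u b : ℝ × ℝ → ℝ} (hu : ContDiffOn ℝ 2 u D) (hbb : ContDiffOn ℝ 2 b D)
    (hcu : ContinuousOn u (closure D)) (hcb : ContinuousOn b (closure D))
    (hle : ∀ q ∈ D, -lap u q ≤ -lap b q)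
    (hbd : ∀ q ∈ frontier D, u q ≤ b q) :
    ∀ q ∈ closure D, u q ≤ b q := by
  obtain ⟨R, hR⟩ := hb.exists_norm_le
  have hstr : D ⊆ Str (R + 1) := by
    intro q hq
    have h1 := (norm_snd_le q).trans (hR q hq)
    rw [Real.norm_eq_abs] at h1
    show |q.2| < R + 1
    linarith
  have h : ∀ q ∈ D, (fun z => u z - b z) q ≤ 0 := by
    refine wmp_sub hD hstr (hu.sub hbb) (fun q hq _ => ?_) fun ε hε => ?_
    · rw [lap_sub hD hu hbb hq]
      have := hle q hq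
      linarith
    · exact WMP_bd hb continuousOn_const (hcu.sub hcb) fun q hq => by
        have := hbd q hq
        linarith
  intro q hq
  have := WMP_cl h (fun q hq => by have := hbd q hq; linarith) q hq
  linarith

/-- the same with a potential `c ≥ 0` and a strict supersolution `g > 0` on the closure -/
theorem wmp_bdd_pot {D : Set (ℝ × ℝ)} (hD : IsOpen D) (hb : Bornology.IsBounded D)
    {u b g c : ℝ × ℝ → ℝ} (hu : ContDiffOn ℝ 2 u D) (hbb : ContDiffOn ℝ 2 b D)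
    (hg : ContDiffOn ℝ 2 g D)
    (hcu : ContinuousOn u (closure D)) (hcb : ContinuousOn b (closure D))
    (hcg : ContinuousOn g (closure D)) (gpos : ∀ q ∈ closure D, 0 < g q)
    (hg2 : ∀ q ∈ D, c q * g q < -lap g q)
    (hle : ∀ q ∈ D, b q < u q → -lap u q - c q * u q ≤ -lap b q - c q * b q)
    (hbd : ∀ q ∈ frontier D, u q ≤ b q) :
    ∀ q ∈ closure D, u q ≤ b q := by
  have h : ∀ q ∈ D, (fun z => u z - b z) q ≤ 0 := by
    refine wmp hD (g := g) (c := c) (hu.sub hbb) hg (fun q hq => gpos q (subset_closure hq)) hg2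
      (fun q hq hpos => ?_) fun ε hε => ?_
    · have h1 : b q < u q := by
        linarith
      have h2 := hle q hq h1
      rw [lap_sub hD hu hbb hq]
      nlinarith
    · refine WMP_bd hb (continuousOn_const.mul hcg) (hcu.sub hcb) fun q hq => ?_
      have h1 := hbd q hq
      have h2 := mul_pos hε (gpos q (frontier_subset_closure hq))
      linarith
  intro q hq
  have := WMP_cl h (fun q hq => by have := hbd q hq; linarith) q hq
  linarith

end Pool.Agent.MFE
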