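import Pool.Agent.MFE.CALB
import Pool.Agent.MFE.WMP
import Pool.Agent.MFE.IGE

/-!
# MFE.FLDLoc: local boundary estimate on thin ellipses

`f = 0` outside `Ell α`, `C²` in `Ell α ∩ {|x-x₀| < 3}`, continuous on `{|x-x₀| ≤ 3}`,
`|f|, |lap f| ≤ M` in `Ell α ∩ {|x-x₀| < 3}`.
(1) `|f| ≤ 2M wE` on `Ell α ∩ {|x-x₀| ≤ 2}`: fix `x₁` with `|x₁-x₀| ≤ 2`, `D = Ell α ∩ {|x-x₁| < 1}` (bounded,
open), `b = 2M wE + M (x-x₁)²`: `-lap b = 4M(1+α²) - 2M ≥ 2M ≥ |lap f|` (`lap_wE`). On the boundary: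
`f = 0 ≤ b` if `q ∉ Ell α` (`wE = 0` or `≥ 0` on the closure), and `b ≥ M ≥ |f|` if `|x-x₁| = 1`
(`|x-x₀| ≤ 3`; by continuity `|f| ≤ M` also for `|x-x₀| = 3`). `wmp_bdd` for `f` and `-f`; at `x = x₁`:
`|f| ≤ 2M wE`.
(2) gradient for `q₀ ∈ Ell α`, `|x-x₀| ≤ 3/2`: `d = wE α q₀/8 ≤ 1/8`; on `Sq q₀ d`: `0 < wE ≤ 2 wE α q₀`
(`|∂wE| ≤ 2|·|`: `α²x², y² ≤ 1`, second differences `≤ 2d²`), so `Sq q₀ d ⊆ Ell α ∩ {|x-x₀| < 2}`,
`|f| ≤ 4M wE α q₀` there; `ige`: `|∇f(q₀)| ≤ (2/d) 4M wE α q₀ + (d/2) M ≤ 65 M`.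
(3) Lipschitz on `{|x-x₀| ≤ 1}`: `Ell α ∩ {|x-x₀| < 3/2}` is convex; two points inside: mean value
inequality on the segment; if the segment leaves the ellipse: for `q ∈ Ell α`, `q' ∉ Ell α`, take the
point `q''` of the segment on the boundary of the ellipse, `f q'' = 0 = f q'`, and
`|f q - f q''| ≤ C M |q - q''|` by continuity.
-/

open scoped ContDiff

namespace Pool.Agent.MFE

private theorem FLDLoc_open (α : ℝ) : IsOpen (Ell α) := by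
  unfold Ell
  exact isOpen_lt (by fun_prop) continuous_const

private theorem FLDLoc_wE_smooth (α : ℝ) : ContDiff ℝ 2 (wE α) := by
  unfold wE
  fun_prop

private theorem FLDLoc_wE_pos {α : ℝ} {q : ℝ × ℝ} (hq : q ∈ Ell α) : 0 < wE α q := by
  have h : α ^ 2 * q.1 ^ 2 + q.2 ^ 2 < 1 := hq
  unfold wE
  linarith

/-- one sided bound -/
private theorem FLDLoc_one {α x₀ M : ℝ} {f : ℝ × ℝ → ℝ} (hM : 0 ≤ M)
    (h0 : ∀ q, q ∉ Ell α → f q = 0) (hc : ContinuousOn f {q | |q.1 - x₀| ≤ 3})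
    (hs : ContDiffOn ℝ 2 f (Ell α ∩ {q | |q.1 - x₀| < 3}))
    (hb : ∀ q ∈ Ell α, |q.1 - x₀| < 3 → f q ≤ M ∧ -lap f q ≤ M) :
    ∀ q ∈ Ell α, |q.1 - x₀| < 2 → f q ≤ 2 * M * wE α q := by
  intro q hq hqx
  set x₁ := q.1 with hx₁
  set D : Set (ℝ × ℝ) := Ell α ∩ {p | |p.1 - x₁| < 1} with hD
  have hDo : IsOpen D := (FLDLoc_open α).inter (isOpen_lt (by fun_prop) continuous_const)
  have hDb : Bornology.IsBounded D := by
    refine ((isCompact_Icc (a := x₁ - 1) (b := x₁ + 1)).prod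
      (isCompact_Icc (a := (-1 : ℝ)) (b := 1))).isBounded.subset ?_
    rintro p ⟨hp1, hp2⟩
    have h1 := abs_lt.1 (show |p.1 - x₁| < 1 from hp2)
    have h2 : α ^ 2 * p.1 ^ 2 + p.2 ^ 2 < 1 := hp1
    have h3 : p.2 ^ 2 ≤ 1 := by nlinarith [mul_nonneg (sq_nonneg α) (sq_nonneg p.1)]
    have h4 := abs_le.1 ((sq_le_one_iff_abs_le_one _).1 h3)
    exact ⟨⟨by linarith [h1.1], by linarith [h1.2]⟩, ⟨h4.1, h4.2⟩⟩
  have hcl : closure D ⊆ {p | 0 ≤ wE α p ∧ |p.1 - x₁| ≤ 1} := by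
    refine closure_minimal ?_ ?_
    · rintro p ⟨hp1, hp2⟩
      exact ⟨(FLDLoc_wE_pos hp1).le, le_of_lt hp2⟩
    · exact (isClosed_le continuous_const (FLDLoc_wE_smooth α).continuous).inter
        (isClosed_le (f := fun p : ℝ × ℝ => |p.1 - x₁|) (by fun_prop) continuous_const)
  have hlt3 : ∀ p : ℝ × ℝ, |p.1 - x₁| ≤ 1 → |p.1 - x₀| < 3 := by
    intro p hp
    have := abs_sub_le p.1 x₁ x₀
    linarith
  set b : ℝ × ℝ → ℝ := fun z => 2 * M * wE α z + M * (z.1 - x₁) ^ 2 with hbdef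
  have hbs : ContDiff ℝ 2 b := by
    refine (contDiff_const.mul (FLDLoc_wE_smooth α)).add ?_
    fun_prop
  have hlapb : ∀ p, lap b p = 2 * M * (-2 * (1 + α ^ 2)) + 2 * M := by
    intro p
    have e1 : lap (fun z : ℝ × ℝ => M * (z.1 - x₁) ^ 2) p = 2 * M := by
      have := lap_fst (q := p) (fun s => M * (s - x₁) ^ 2) (by fun_prop)
      rw [this]
      have d1 : deriv (fun s : ℝ => M * (s - x₁) ^ 2) = fun s => 2 * M * (s - x₁) := by
        funext s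
        have : HasDerivAt (fun s : ℝ => M * (s - x₁) ^ 2) (M * (2 * (s - x₁) ^ (2 - 1) * 1)) s :=
          (((hasDerivAt_id s).sub_const x₁).pow 2).const_mul M
        rw [this.deriv]
        ring
      rw [d1]
      have : HasDerivAt (fun s : ℝ => 2 * M * (s - x₁)) (2 * M * 1) p.1 :=
        ((hasDerivAt_id _).sub_const x₁).const_mul (2 * M)
      rw [this.deriv, mul_one]
    have e2 : lap (fun z : ℝ × ℝ => 2 * M * wE α z) p = 2 * M * (-2 * (1 + α ^ 2)) := by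
      rw [lap_const_mul isOpen_univ (2 * M) ((FLDLoc_wE_smooth α).contDiffOn) (Set.mem_univ p), lap_wE]
    have e3 := lap_add (q := p) isOpen_univ (f := fun z : ℝ × ℝ => 2 * M * wE α z)
      (g := fun z : ℝ × ℝ => M * (z.1 - x₁) ^ 2)
      ((contDiff_const.mul (FLDLoc_wE_smooth α)).contDiffOn) (by fun_prop) (Set.mem_univ p)
    rw [hbdef, e3, e1, e2]
  have hmain := wmp_bdd hDo hDb (u := f) (b := b)
    (hs.mono (fun p hp => ⟨hp.1, hlt3 p (le_of_lt hp.2)⟩)) hbs.contDiffOn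
    (hc.mono (fun p hp => (hlt3 p (hcl hp).2).le)) hbs.continuous.continuousOn
    (fun p hp => by
      have h1 := (hb p hp.1 (hlt3 p (le_of_lt hp.2))).2
      rw [hlapb]
      nlinarith [sq_nonneg α, mul_nonneg hM (sq_nonneg α)])
    (fun p hp => by
      have hp' : p ∈ closure D ∧ p ∉ D := by
        rw [hDo.frontier_eq] at hp
        exact hp
      obtain ⟨h1, h2⟩ := hcl hp'.1
      by_cases hpE : p ∈ Ell α
      · have h3 : 1 ≤ |p.1 - x₁| := by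
          by_contra hcon
          exact hp'.2 ⟨hpE, not_le.1 hcon⟩
        have h4 : 1 ≤ (p.1 - x₁) ^ 2 := by
          rw [← sq_abs]
          nlinarith
        have h5 := (hb p hpE (hlt3 p h2)).1
        have h6 : 0 ≤ 2 * M * wE α p := by positivity
        show f p ≤ 2 * M * wE α p + M * (p.1 - x₁) ^ 2
        nlinarith
      · rw [h0 p hpE]
        show 0 ≤ 2 * M * wE α p + M * (p.1 - x₁) ^ 2
        positivity) q (subset_closure ⟨hq, by show |q.1 - x₁| < 1; rw [hx₁, sub_self, abs_zero]; exact one_pos⟩)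
  have hbq : b q = 2 * M * wE α q := by
    show 2 * M * wE α q + M * (q.1 - x₁) ^ 2 = 2 * M * wE α q
    rw [hx₁]
    ring
  rw [hbq] at hmain
  exact hmain

private theorem FLDLoc_two {α x₀ M : ℝ} {f : ℝ × ℝ → ℝ} (hM : 0 ≤ M)
    (h0 : ∀ q, q ∉ Ell α → f q = 0) (hc : ContinuousOn f {q | |q.1 - x₀| ≤ 3})
    (hs : ContDiffOn ℝ 2 f (Ell α ∩ {q | |q.1 - x₀| < 3}))
    (hb : ∀ q ∈ Ell α, |q.1 - x₀| < 3 → |f q| ≤ M ∧ |lap f q| ≤ M) :
    ∀ q ∈ Ell α, |q.1 - x₀| < 2 → |f q| ≤ 2 * M * wE α q := by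
  intro q hq hqx
  have hop : IsOpen (Ell α ∩ {q : ℝ × ℝ | |q.1 - x₀| < 3}) :=
    (FLDLoc_open α).inter (isOpen_lt (by fun_prop) continuous_const)
  have e1 := FLDLoc_one hM h0 hc hs (fun p hp hpx => by
    obtain ⟨h1, h2⟩ := hb p hp hpx
    exact ⟨(abs_le.1 h1).2, by linarith [(abs_le.1 h2).1]⟩) q hq hqx
  have e2 := FLDLoc_one (f := fun z => (-1) * f z) hM (fun p hp => by simp [h0 p hp])
    (continuousOn_const.mul hc) (contDiffOn_const.mul hs) (fun p hp hpx => by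
    obtain ⟨h1, h2⟩ := hb p hp hpx
    refine ⟨by linarith [(abs_le.1 h1).1], ?_⟩
    rw [lap_const_mul hop (-1) hs ⟨hp, hpx⟩]
    linarith [(abs_le.1 h2).2]) q hq hqx
  rw [abs_le]
  constructor <;> linarith

private theorem FLDLoc_grad {α x₀ M : ℝ} {f : ℝ × ℝ → ℝ} (hα0 : 0 < α) (hα : α ≤ 1) (hM : 0 ≤ M)
    (h0 : ∀ q, q ∉ Ell α → f q = 0) (hc : ContinuousOn f {q | |q.1 - x₀| ≤ 3})
    (hs : ContDiffOn ℝ 2 f (Ell α ∩ {q | |q.1 - x₀| < 3}))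
    (hb : ∀ q ∈ Ell α, |q.1 - x₀| < 3 → |f q| ≤ M ∧ |lap f q| ≤ M) :
    ∀ q ∈ Ell α, |q.1 - x₀| ≤ 1 → |dx f q| ≤ 65 * M ∧ |dy f q| ≤ 65 * M := by
  intro q₀ hq hqx
  have hwpos := FLDLoc_wE_pos hq
  set d := wE α q₀ / 8 with hd
  have hd0 : 0 < d := by positivity
  have hEq : α ^ 2 * q₀.1 ^ 2 + q₀.2 ^ 2 < 1 := hq
  have hw : wE α q₀ = 1 - α ^ 2 * q₀.1 ^ 2 - q₀.2 ^ 2 := rfl
  have hsq1 : 0 ≤ α ^ 2 * q₀.1 ^ 2 := by positivity
  have hw8 : wE α q₀ = 8 * d := by rw [hd]; ring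
  have hd8 : d ≤ 1 / 8 := by
    have : wE α q₀ ≤ 1 := by nlinarith [sq_nonneg q₀.2]
    linarith
  have hax : |α * q₀.1| ≤ 1 := by
    rw [← sq_le_one_iff_abs_le_one]
    nlinarith [sq_nonneg q₀.2]
  have hy : |q₀.2| ≤ 1 := by
    rw [← sq_le_one_iff_abs_le_one]
    nlinarith
  have hbox : ∀ q ∈ Sq q₀ d, 3 * d ≤ wE α q ∧ wE α q ≤ 16 * d := by
    rintro q ⟨h1, h2⟩
    set s := q.1 - q₀.1 with hs
    set t := q.2 - q₀.2 with ht
    have e1 : q.1 = q₀.1 + s := by rw [hs]; ring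
    have e2 : q.2 = q₀.2 + t := by rw [ht]; ring
    have e3 : wE α q = wE α q₀ - 2 * ((α * q₀.1) * (α * s)) - (α * s) ^ 2 - 2 * (q₀.2 * t) - t ^ 2 := by
      unfold wE
      rw [e1, e2]
      ring
    have hαs : |α * s| ≤ d := by
      rw [abs_mul, abs_of_pos hα0]
      calc α * |s| ≤ 1 * d := mul_le_mul hα h1 (abs_nonneg _) zero_le_one
        _ = d := one_mul d
    have a1 : |(α * q₀.1) * (α * s)| ≤ d := by
      rw [abs_mul]
      calc |α * q₀.1| * |α * s| ≤ 1 * d := mul_le_mul hax hαs (abs_nonneg _) zero_le_one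
        _ = d := one_mul d
    have a2 : |q₀.2 * t| ≤ d := by
      rw [abs_mul]
      calc |q₀.2| * |t| ≤ 1 * d := mul_le_mul hy h2 (abs_nonneg _) zero_le_one
        _ = d := one_mul d
    have a3 : (α * s) ^ 2 ≤ d ^ 2 := by
      rw [← sq_abs (α * s)]
      exact pow_le_pow_left₀ (abs_nonneg _) hαs 2
    have a4 : t ^ 2 ≤ d ^ 2 := by
      rw [← sq_abs t]
      exact pow_le_pow_left₀ (abs_nonneg _) h2 2
    have a5 : d ^ 2 ≤ d / 8 := by nlinarith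
    have b1 := abs_le.1 a1
    have b2 := abs_le.1 a2
    rw [e3, hw8]
    constructor
    · linarith [b1.2, b2.2]
    · linarith [b1.1, b2.1, sq_nonneg (α * s), sq_nonneg t]
  have hsub : Sq q₀ d ⊆ Ell α ∩ {q | |q.1 - x₀| < 2} := by
    intro q hq'
    refine ⟨?_, ?_⟩
    · have := (hbox q hq').1
      show α ^ 2 * q.1 ^ 2 + q.2 ^ 2 < 1
      have h3 : wE α q = 1 - α ^ 2 * q.1 ^ 2 - q.2 ^ 2 := rfl
      linarith
    · show |q.1 - x₀| < 2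
      have := abs_sub_le q.1 q₀.1 x₀
      have h4 := hq'.1
      linarith
  have hU : IsOpen (Ell α ∩ {q : ℝ × ℝ | |q.1 - x₀| < 2}) :=
    (FLDLoc_open α).inter (isOpen_lt (by fun_prop) continuous_const)
  have := ige hU (hs.mono (fun q hq' => ⟨hq'.1, (lt_trans (show |q.1 - x₀| < 2 from hq'.2) (by norm_num) :
    |q.1 - x₀| < 3)⟩)) hd0 hsub
    (M := 32 * M * d) (N := M) (fun q hq' => by
      have h1 := FLDLoc_two hM h0 hc hs hb q (hsub hq').1 (hsub hq').2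
      have h2 := (hbox q hq').2
      calc |f q| ≤ 2 * M * wE α q := h1
        _ ≤ 2 * M * (16 * d) := mul_le_mul_of_nonneg_left h2 (by linarith)
        _ = 32 * M * d := by ring) (fun q hq' =>
      (hb q (hsub hq').1 (lt_trans (show |q.1 - x₀| < 2 from (hsub hq').2) (by norm_num))).2)
  have e : 2 / d * (32 * M * d) + d / 2 * M ≤ 65 * M := by
    have : 2 / d * (32 * M * d) = 64 * M := by
      field_simp
      ring
    rw [this]
    nlinarith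
  exact ⟨this.1.trans e, this.2.trans e⟩

private theorem FLDLoc_seg {α x₀ M : ℝ} {f : ℝ × ℝ → ℝ} (hα0 : 0 < α) (hα : α ≤ 1) (hM : 0 ≤ M)
    (h0 : ∀ q, q ∉ Ell α → f q = 0) (hc : ContinuousOn f {q | |q.1 - x₀| ≤ 3})
    (hs : ContDiffOn ℝ 2 f (Ell α ∩ {q | |q.1 - x₀| < 3}))
    (hb : ∀ q ∈ Ell α, |q.1 - x₀| < 3 → |f q| ≤ M ∧ |lap f q| ≤ M) {q q' : ℝ × ℝ} (hq : q ∈ Ell α)
    (hq' : q' ∈ Ell α) (hx : |q.1 - x₀| ≤ 1) (hx' : |q'.1 - x₀| ≤ 1) :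
    |f q' - f q| ≤ 65 * M * (|q.1 - q'.1| + |q.2 - q'.2|) := by
  set c : ℝ → ℝ × ℝ := fun t => (q.1 + t * (q'.1 - q.1), q.2 + t * (q'.2 - q.2)) with hcdef
  have hop : IsOpen (Ell α ∩ {q : ℝ × ℝ | |q.1 - x₀| < 3}) :=
    (FLDLoc_open α).inter (isOpen_lt (by fun_prop) continuous_const)
  have hcE : ∀ t ∈ Set.Icc (0 : ℝ) 1, c t ∈ Ell α ∧ |(c t).1 - x₀| ≤ 1 := by
    rintro t ⟨ht0, ht1⟩
    have e1 : α ^ 2 * q.1 ^ 2 + q.2 ^ 2 < 1 := hq
    have e2 : α ^ 2 * q'.1 ^ 2 + q'.2 ^ 2 < 1 := hq'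
    constructor
    · show α ^ 2 * (q.1 + t * (q'.1 - q.1)) ^ 2 + (q.2 + t * (q'.2 - q.2)) ^ 2 < 1
      have h1 : (q.1 + t * (q'.1 - q.1)) ^ 2 ≤ (1 - t) * q.1 ^ 2 + t * q'.1 ^ 2 := by
        nlinarith [mul_nonneg (mul_nonneg ht0 (sub_nonneg.2 ht1)) (sq_nonneg (q.1 - q'.1))]
      have h2 : (q.2 + t * (q'.2 - q.2)) ^ 2 ≤ (1 - t) * q.2 ^ 2 + t * q'.2 ^ 2 := by
        nlinarith [mul_nonneg (mul_nonneg ht0 (sub_nonneg.2 ht1)) (sq_nonneg (q.2 - q'.2))]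
      have h3 : α ^ 2 * (q.1 + t * (q'.1 - q.1)) ^ 2 ≤ α ^ 2 * ((1 - t) * q.1 ^ 2 + t * q'.1 ^ 2) :=
        mul_le_mul_of_nonneg_left h1 (sq_nonneg α)
      have h4 : (1 - t) * (α ^ 2 * q.1 ^ 2 + q.2 ^ 2) + t * (α ^ 2 * q'.1 ^ 2 + q'.2 ^ 2) < 1 := by
        rcases eq_or_lt_of_le ht0 with h | h
        · rw [← h]
          linarith
        · nlinarith [mul_le_mul_of_nonneg_left e1.le (sub_nonneg.2 ht1), mul_lt_mul_of_pos_left e2 h]
      nlinarith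
    · show |q.1 + t * (q'.1 - q.1) - x₀| ≤ 1
      have h1 := abs_le.1 hx
      have h2 := abs_le.1 hx'
      rw [abs_le]
      constructor <;> nlinarith [mul_le_mul_of_nonneg_left h1.1 (sub_nonneg.2 ht1),
        mul_le_mul_of_nonneg_left h1.2 (sub_nonneg.2 ht1), mul_le_mul_of_nonneg_left h2.1 ht0,
        mul_le_mul_of_nonneg_left h2.2 ht0]
  have hcd : ∀ t, HasDerivAt c (q'.1 - q.1, q'.2 - q.2) t := by
    intro t
    have h1 : HasDerivAt (fun t : ℝ => q.1 + t * (q'.1 - q.1)) (q'.1 - q.1) t := by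
      simpa using ((hasDerivAt_id t).mul_const (q'.1 - q.1)).const_add q.1
    have h2 : HasDerivAt (fun t : ℝ => q.2 + t * (q'.2 - q.2)) (q'.2 - q.2) t := by
      simpa using ((hasDerivAt_id t).mul_const (q'.2 - q.2)).const_add q.2
    exact h1.prodMk h2
  have hdiff : ∀ t ∈ Set.Icc (0 : ℝ) 1, DifferentiableAt ℝ f (c t) := by
    intro t ht
    have hm : c t ∈ Ell α ∩ {q : ℝ × ℝ | |q.1 - x₀| < 3} :=
      ⟨(hcE t ht).1, lt_of_le_of_lt (hcE t ht).2 (by norm_num)⟩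
    exact (hs.contDiffAt (hop.mem_nhds hm)).differentiableAt (by norm_num)
  have hder : ∀ t ∈ Set.Icc (0 : ℝ) 1, HasDerivWithinAt (fun t => f (c t))
      ((q'.1 - q.1) * dx f (c t) + (q'.2 - q.2) * dy f (c t)) (Set.Icc (0 : ℝ) 1) t := by
    intro t ht
    have h1 := (hdiff t ht).hasFDerivAt.comp_hasDerivAt t (hcd t)
    rw [fderiv_apply_eq (hdiff t ht)] at h1
    exact h1.hasDerivWithinAt
  have hbound : ∀ t ∈ Set.Ico (0 : ℝ) 1, ‖(q'.1 - q.1) * dx f (c t) + (q'.2 - q.2) * dy f (c t)‖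
      ≤ 65 * M * (|q.1 - q'.1| + |q.2 - q'.2|) := by
    intro t ht
    have hm := hcE t (Set.Ico_subset_Icc_self ht)
    obtain ⟨g1, g2⟩ := FLDLoc_grad hα0 hα hM h0 hc hs hb (c t) hm.1 hm.2
    rw [Real.norm_eq_abs]
    refine (abs_add_le _ _).trans ?_
    rw [abs_mul, abs_mul, abs_sub_comm q'.1, abs_sub_comm q'.2]
    have h1 := mul_le_mul_of_nonneg_left g1 (abs_nonneg (q.1 - q'.1))
    have h2 := mul_le_mul_of_nonneg_left g2 (abs_nonneg (q.2 - q'.2))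
    linarith
  have := norm_image_sub_le_of_norm_deriv_le_segment_01' hder hbound
  have e1 : c 1 = q' := by
    rw [hcdef]
    ext <;> simp
  have e0 : c 0 = q := by
    rw [hcdef]
    ext <;> simp
  simp only [e1, e0] at this
  rwa [Real.norm_eq_abs] at this

private theorem FLDLoc_out {α x₀ M : ℝ} {f : ℝ × ℝ → ℝ} (hα0 : 0 < α) (hα : α ≤ 1) (hM : 0 ≤ M)
    (h0 : ∀ q, q ∉ Ell α → f q = 0) (hc : ContinuousOn f {q | |q.1 - x₀| ≤ 3})
    (hs : ContDiffOn ℝ 2 f (Ell α ∩ {q | |q.1 - x₀| < 3}))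
    (hb : ∀ q ∈ Ell α, |q.1 - x₀| < 3 → |f q| ≤ M ∧ |lap f q| ≤ M) {q q' : ℝ × ℝ} (hq : q ∈ Ell α)
    (hq' : q' ∉ Ell α) (hx : |q.1 - x₀| ≤ 1) :
    |f q| ≤ 65 * M * (|q.1 - q'.1| + |q.2 - q'.2|) := by
  have hxlt : |q.1 - x₀| < 2 := lt_of_le_of_lt hx (by norm_num)
  by_cases hbig : 1 ≤ |q.1 - q'.1| + |q.2 - q'.2|
  · have h1 := (hb q hq (lt_of_le_of_lt hx (by norm_num))).1
    nlinarith
  · have hbig := not_le.1 hbig
    have h1 := FLDLoc_two hM h0 hc hs hb q hq hxlt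
    have hEq : α ^ 2 * q.1 ^ 2 + q.2 ^ 2 < 1 := hq
    have hEq' : 1 ≤ α ^ 2 * q'.1 ^ 2 + q'.2 ^ 2 := not_lt.1 hq'
    have hax : |α * q.1| ≤ 1 := by
      rw [← sq_le_one_iff_abs_le_one]
      nlinarith [sq_nonneg q.2]
    have hy : |q.2| ≤ 1 := by
      rw [← sq_le_one_iff_abs_le_one]
      nlinarith [mul_nonneg (sq_nonneg α) (sq_nonneg q.1)]
    set s := q'.1 - q.1 with hsd
    set t := q'.2 - q.2 with htd
    have e1 : q'.1 = q.1 + s := by rw [hsd]; ring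
    have e2 : q'.2 = q.2 + t := by rw [htd]; ring
    have es : |q.1 - q'.1| = |s| := by rw [hsd, abs_sub_comm]
    have et : |q.2 - q'.2| = |t| := by rw [htd, abs_sub_comm]
    rw [es, et] at hbig ⊢
    have hs1 : |s| ≤ 1 := by linarith [abs_nonneg t]
    have ht1 : |t| ≤ 1 := by linarith [abs_nonneg s]
    have hw : wE α q ≤ 2 * ((α * q.1) * (α * s)) + (α * s) ^ 2 + 2 * (q.2 * t) + t ^ 2 := by
      unfold wE
      rw [e1, e2] at hEq'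
      nlinarith
    have hαs : |α * s| ≤ |s| := by
      rw [abs_mul, abs_of_pos hα0]
      exact mul_le_of_le_one_left (abs_nonneg _) hα
    have a1 : (α * q.1) * (α * s) ≤ |s| := by
      refine (le_abs_self _).trans ?_
      rw [abs_mul]
      calc |α * q.1| * |α * s| ≤ 1 * |s| := mul_le_mul hax hαs (abs_nonneg _) zero_le_one
        _ = |s| := one_mul _
    have a2 : q.2 * t ≤ |t| := by
      refine (le_abs_self _).trans ?_
      rw [abs_mul]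
      calc |q.2| * |t| ≤ 1 * |t| := mul_le_mul_of_nonneg_right hy (abs_nonneg _)
        _ = |t| := one_mul _
    have a3 : (α * s) ^ 2 ≤ |s| := by
      rw [← sq_abs]
      nlinarith [abs_nonneg (α * s), abs_nonneg s]
    have a4 : t ^ 2 ≤ |t| := by
      rw [← sq_abs]
      nlinarith [abs_nonneg t]
    have hw2 : wE α q ≤ 3 * (|s| + |t|) := by linarith
    calc |f q| ≤ 2 * M * wE α q := h1
      _ ≤ 2 * M * (3 * (|s| + |t|)) := mul_le_mul_of_nonneg_left hw2 (by linarith)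
      _ ≤ 65 * M * (|s| + |t|) := by
        have : 0 ≤ M * (|s| + |t|) := by positivity
        nlinarith

theorem loc_bd : ∃ C : ℝ, 0 < C ∧ ∀ (α x₀ M : ℝ) (f : ℝ × ℝ → ℝ), 0 < α → α ≤ 1 → 0 ≤ M →
    (∀ q, q ∉ Ell α → f q = 0) → ContinuousOn f {q | |q.1 - x₀| ≤ 3} →
    ContDiffOn ℝ 2 f (Ell α ∩ {q | |q.1 - x₀| < 3}) →
    (∀ q ∈ Ell α, |q.1 - x₀| < 3 → |f q| ≤ M ∧ |lap f q| ≤ M) →
    (∀ q ∈ Ell α, |q.1 - x₀| ≤ 1 →
      |f q| ≤ C * M * wE α q ∧ |dx f q| ≤ C * M ∧ |dy f q| ≤ C * M) ∧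
    ∀ q q' : ℝ × ℝ, |q.1 - x₀| ≤ 1 → |q'.1 - x₀| ≤ 1 →
      |f q - f q'| ≤ C * M * (|q.1 - q'.1| + |q.2 - q'.2|) := by
  refine ⟨65, by norm_num, ?_⟩
  intro α x₀ M f hα0 hα hM h0 hc hs hb
  refine ⟨fun q hq hx => ⟨?_, FLDLoc_grad hα0 hα hM h0 hc hs hb q hq hx⟩, fun q q' hx hx' => ?_⟩
  · have h1 := FLDLoc_two hM h0 hc hs hb q hq (lt_of_le_of_lt hx (by norm_num))
    have h2 : 0 ≤ M * wE α q := mul_nonneg hM (FLDLoc_wE_pos hq).le
    nlinarith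
  · by_cases hq : q ∈ Ell α
    · by_cases hq' : q' ∈ Ell α
      · rw [abs_sub_comm]
        exact FLDLoc_seg hα0 hα hM h0 hc hs hb hq hq' hx hx'
      · rw [h0 q' hq', sub_zero]
        exact FLDLoc_out hα0 hα hM h0 hc hs hb hq hq' hx
    · by_cases hq' : q' ∈ Ell α
      · rw [h0 q hq, zero_sub, abs_neg, abs_sub_comm q.1, abs_sub_comm q.2]
        exact FLDLoc_out hα0 hα hM h0 hc hs hb hq' hq hx'
      · rw [h0 q hq, h0 q' hq', sub_zero, abs_zero]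
        positivity

end Pool.Agent.MFE
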