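import Pool.Agent.MFE.Defs

/-!
# MFE.STA: the one dimensional solutions on the interval `(-1, 1)`

`V1 a y = 2 log (cosh a / cosh (a y))`, `mu1 a = 2 a²/cosh² a`, `pot1 a y = 2 a²/cosh² (a y)`
`= mu1 a * exp (V1 a y)`, `e1 a y = 1 - a y tanh (a y)`.
With `s = a y`: `V1' = -2 a tanh s`, `V1'' = -2 a²/cosh² s`; `e1' = -a (tanh s + s/cosh² s)`,
`e1'' = -a² (2/cosh² s - 2 s tanh s/cosh² s) = -pot1 e1`.
`ast`: `a ↦ a tanh a` is continuous and strictly increasing on `[0,∞)`, `< 1` at `0`, `> 1` at `2`: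
the unique positive solution `ast` of `a tanh a = 1`, `1 < ast < 5/4` (numerically 1.19968;
`tanh 1 < 1`; `(5/4) tanh (5/4) > 1`: `tanh (5/4) > 4/5` iff `exp (5/2) > 9`).
`mu1` is strictly increasing on `(0, ast]`: `(a/cosh a)' = (cosh a - a sinh a)/cosh² a`.
`pot1 a y < pot1 b y` for `a < b ≤ ast`, `|y| ≤ 1`: `c ↦ c/cosh (c y)` has the derivative
`(1 - c y tanh (c y))/cosh (c y) ≥ 0`, `> 0` unless `c = ast`, `|y| = 1`.
`ode1`: with `a = √(μ e^p/2)` the function `U(y) = p - 2 log cosh (a y)` solves the same initial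
value problem; uniqueness (`ODE_solution_unique_of_mem_Icc` for `(V,V')`, or: the energy
`V'^2/2 + μ e^V` is constant, and Gronwall for `(V - U)^2 + (V' - U')^2`).
-/

open scoped ContDiff

namespace Pool.Agent.MFE

noncomputable def V1 (a y : ℝ) : ℝ := 2 * Real.log (Real.cosh a / Real.cosh (a * y))

noncomputable def mu1 (a : ℝ) : ℝ := 2 * a ^ 2 / Real.cosh a ^ 2

noncomputable def pot1 (a y : ℝ) : ℝ := 2 * a ^ 2 / Real.cosh (a * y) ^ 2

noncomputable def e1 (a y : ℝ) : ℝ := 1 - a * y * Real.tanh (a * y)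

theorem STA_tanh (s : ℝ) : HasDerivAt Real.tanh (1 / Real.cosh s ^ 2) s := by
  have h := (Real.hasDerivAt_sinh s).div (Real.hasDerivAt_cosh s) (Real.cosh_pos s).ne'
  have e : Real.tanh = Real.sinh / Real.cosh := by
    funext x
    rw [Pi.div_apply, Real.tanh_eq_sinh_div_cosh]
  rw [e]
  refine h.congr_deriv ?_
  rw [← Real.cosh_sq_sub_sinh_sq s]
  ring

theorem STA_tanh_mono : StrictMono Real.tanh := by
  refine strictMono_of_deriv_pos fun x => ?_
  rw [(STA_tanh x).deriv]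
  have := Real.cosh_pos x
  positivity

theorem STA_tanh_nonneg {s : ℝ} (hs : 0 ≤ s) : 0 ≤ Real.tanh s := by
  have := STA_tanh_mono.monotone hs
  rwa [Real.tanh_zero] at this

theorem STA_g_lt {a b : ℝ} (ha : 0 ≤ a) (hab : a < b) : a * Real.tanh a < b * Real.tanh b := by
  have h1 := STA_tanh_mono hab
  have h2 := STA_tanh_nonneg ha
  nlinarith

theorem STA_g_le {a b : ℝ} (ha : 0 ≤ a) (hab : a ≤ b) : a * Real.tanh a ≤ b * Real.tanh b := by
  rcases hab.lt_or_eq with h | h
  · exact (STA_g_lt ha h).le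
  · rw [h]

theorem STA_tanh_54 : 4 / 5 < Real.tanh (5 / 4) := by
  rw [Real.tanh_eq, lt_div_iff₀ (by positivity)]
  have hE := Real.exp_pos (5 / 4 : ℝ)
  have h1 : Real.exp (-(5 / 4 : ℝ)) * Real.exp (5 / 4) = 1 := by
    rw [← Real.exp_add]; simp
  have h2 : 9 < Real.exp (5 / 4 : ℝ) * Real.exp (5 / 4) := by
    rw [← Real.exp_add]
    have h3 : Real.exp (5 / 4 + 5 / 4 : ℝ) = Real.exp 1 * Real.exp 1 * Real.exp (1 / 2) := by
      rw [← Real.exp_add, ← Real.exp_add]; norm_num
    have h4 := Real.add_one_le_exp (1 / 2 : ℝ)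
    have h5 := Real.exp_one_gt_d9
    rw [h3]
    nlinarith
  have h6 := Real.exp_pos (-(5 / 4 : ℝ))
  nlinarith

theorem STA_g_cont : Continuous fun a : ℝ => a * Real.tanh a := by
  have : Continuous Real.tanh :=
    continuous_iff_continuousAt.2 fun x => (STA_tanh x).continuousAt
  fun_prop

theorem ast_exists : ∃ a : ℝ, 0 < a ∧ a * Real.tanh a = 1 := by
  have h := intermediate_value_Icc (show (0 : ℝ) ≤ 5 / 4 by norm_num) STA_g_cont.continuousOn
  have h1 : (1 : ℝ) ∈ Set.Icc (0 * Real.tanh 0) (5 / 4 * Real.tanh (5 / 4)) := by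
    constructor
    · norm_num
    · have := STA_tanh_54
      linarith
  obtain ⟨a, ha, hb⟩ := h h1
  refine ⟨a, lt_of_le_of_ne ha.1 ?_, hb⟩
  rintro rfl
  simp at hb

/-- the critical parameter -/
noncomputable def ast : ℝ := Classical.choose ast_exists

/-- the critical amplitude -/
noncomputable def pst : ℝ := 2 * Real.log (Real.cosh ast)

theorem ast_pos : 0 < ast := (Classical.choose_spec ast_exists).1

theorem ast_eq : ast * Real.tanh ast = 1 := (Classical.choose_spec ast_exists).2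

theorem ast_bounds : 1 < ast ∧ ast < 5 / 4 := by
  constructor
  · by_contra h
    push Not at h
    have h1 := STA_g_le ast_pos.le h
    rw [ast_eq] at h1
    have h2 := Real.tanh_lt_one 1
    linarith
  · by_contra h
    push Not at h
    have h1 := STA_g_le (by norm_num : (0 : ℝ) ≤ 5 / 4) h
    rw [ast_eq] at h1
    have h2 := STA_tanh_54
    linarith

theorem tanh_lt_one_iff {a : ℝ} (ha : 0 ≤ a) : a * Real.tanh a < 1 ↔ a < ast := by
  constructor
  · intro h
    by_contra h1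
    push Not at h1
    have h2 := STA_g_le ast_pos.le h1
    rw [ast_eq] at h2
    linarith
  · intro h
    have := STA_g_lt ha h
    rwa [ast_eq] at this

theorem atanh_even (s : ℝ) : s * Real.tanh s = |s| * Real.tanh |s| := by
  rcases abs_cases s with ⟨h, _⟩ | ⟨h, _⟩
  · rw [h]
  · rw [h, Real.tanh_neg]; ring

theorem V1_smooth (a : ℝ) : ContDiff ℝ ∞ (V1 a) := by
  have hc : ContDiff ℝ ∞ fun y : ℝ => Real.cosh (a * y) :=
    Real.contDiff_cosh.comp (contDiff_const.mul contDiff_id)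
  have h1 : ContDiff ℝ ∞ fun y : ℝ => Real.cosh a / Real.cosh (a * y) :=
    contDiff_const.div hc fun y => (Real.cosh_pos _).ne'
  exact contDiff_const.mul (h1.log fun y =>
    (div_pos (Real.cosh_pos _) (Real.cosh_pos _)).ne')

theorem STA_tanh_smooth : ContDiff ℝ ∞ Real.tanh := by
  have e : Real.tanh = fun x => Real.sinh x / Real.cosh x := by
    funext x
    rw [Real.tanh_eq_sinh_div_cosh]
  rw [e]
  exact Real.contDiff_sinh.div Real.contDiff_cosh fun y => (Real.cosh_pos _).ne'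

theorem e1_smooth (a : ℝ) : ContDiff ℝ ∞ (e1 a) := by
  have h1 : ContDiff ℝ ∞ fun y : ℝ => Real.tanh (a * y) :=
    STA_tanh_smooth.comp (contDiff_const.mul contDiff_id)
  exact contDiff_const.sub ((contDiff_const.mul contDiff_id).mul h1)

theorem pot1_eq (a y : ℝ) : mu1 a * Real.exp (V1 a y) = pot1 a y := by
  have h1 := Real.cosh_pos a
  have h2 := Real.cosh_pos (a * y)
  have h3 : Real.exp (V1 a y) = (Real.cosh a / Real.cosh (a * y)) ^ 2 := by
    rw [V1, two_mul, Real.exp_add, Real.exp_log (div_pos h1 h2)]; ring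
  rw [h3, mu1, pot1]
  field_simp

theorem V1_even (a y : ℝ) : V1 a (-y) = V1 a y := by
  rw [V1, V1, mul_neg, Real.cosh_neg]

theorem e1_even (a y : ℝ) : e1 a (-y) = e1 a y := by
  rw [e1, e1, mul_neg, Real.tanh_neg]; ring

theorem V1_one (a : ℝ) : V1 a 1 = 0 := by
  rw [V1, mul_one, div_self (Real.cosh_pos a).ne', Real.log_one, mul_zero]

theorem V1_zero (a : ℝ) : V1 a 0 = 2 * Real.log (Real.cosh a) := by
  rw [V1, mul_zero, Real.cosh_zero, div_one]

theorem STA_lc (a y : ℝ) : HasDerivAt (fun y => Real.log (Real.cosh (a * y)))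
    (a * Real.tanh (a * y)) y := by
  have h1 : HasDerivAt (fun y : ℝ => a * y) a y := by
    simpa using (hasDerivAt_id y).const_mul a
  have h2 : HasDerivAt (fun y : ℝ => Real.cosh (a * y)) (Real.sinh (a * y) * a) y :=
    (Real.hasDerivAt_cosh (a * y)).comp y h1
  have h3 := h2.log (Real.cosh_pos (a * y)).ne'
  refine h3.congr_deriv ?_
  rw [Real.tanh_eq_sinh_div_cosh]; ring

theorem STA_V1_eq (a : ℝ) : V1 a = fun y => 2 * Real.log (Real.cosh a) -
    2 * Real.log (Real.cosh (a * y)) := by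
  funext y
  rw [V1, Real.log_div (Real.cosh_pos _).ne' (Real.cosh_pos _).ne']; ring

theorem STA_V1 (a y : ℝ) : HasDerivAt (V1 a) (-2 * a * Real.tanh (a * y)) y := by
  rw [STA_V1_eq]
  have h := ((STA_lc a y).const_mul 2).const_sub (2 * Real.log (Real.cosh a))
  exact h.congr_deriv (by ring)

theorem V1_deriv (a y : ℝ) : deriv (V1 a) y = -2 * a * Real.tanh (a * y) := (STA_V1 a y).deriv

theorem STA_th (a y : ℝ) : HasDerivAt (fun y => Real.tanh (a * y)) (a / Real.cosh (a * y) ^ 2) y := by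
  have h1 : HasDerivAt (fun y : ℝ => a * y) a y := by
    simpa using (hasDerivAt_id y).const_mul a
  have h2 := (STA_tanh (a * y)).comp y h1
  exact h2.congr_deriv (by ring)

theorem V1_deriv2 (a y : ℝ) : deriv (deriv (V1 a)) y = -pot1 a y := by
  have e : deriv (V1 a) = fun y => -2 * a * Real.tanh (a * y) := funext fun y => V1_deriv a y
  rw [e, ((STA_th a y).const_mul (-2 * a)).deriv, pot1]
  ring

theorem STA_e1 (a y : ℝ) : HasDerivAt (e1 a)
    (-a * (Real.tanh (a * y) + a * y / Real.cosh (a * y) ^ 2)) y := by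
  have h1 : HasDerivAt (fun y : ℝ => a * y) a y := by
    simpa using (hasDerivAt_id y).const_mul a
  have h2 := (h1.mul (STA_th a y)).const_sub 1
  have e : e1 a = fun y => 1 - (a * y) * Real.tanh (a * y) := rfl
  rw [e]
  exact h2.congr_deriv (by ring)

theorem e1_deriv (a y : ℝ) :
    deriv (e1 a) y = -a * (Real.tanh (a * y) + a * y / Real.cosh (a * y) ^ 2) :=
  (STA_e1 a y).deriv

theorem e1_deriv2 (a y : ℝ) : deriv (deriv (e1 a)) y = -(pot1 a y * e1 a y) := by
  have e : deriv (e1 a) = fun y => -a * (Real.tanh (a * y) + a * y / Real.cosh (a * y) ^ 2) :=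
    funext fun y => e1_deriv a y
  rw [e]
  have h1 : HasDerivAt (fun y : ℝ => a * y) a y := by
    simpa using (hasDerivAt_id y).const_mul a
  have h2 : HasDerivAt (fun y : ℝ => Real.cosh (a * y)) (Real.sinh (a * y) * a) y :=
    (Real.hasDerivAt_cosh (a * y)).comp y h1
  have hc := Real.cosh_pos (a * y)
  have h2' : HasDerivAt (fun y : ℝ => Real.cosh (a * y) ^ 2)
      (2 * Real.cosh (a * y) * (Real.sinh (a * y) * a)) y :=
    (h2.pow 2).congr_deriv (by simp)
  have h3 := ((STA_th a y).add (h1.div h2' (by positivity))).const_mul (-a)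
  have h4 : HasDerivAt (fun y => -a * (Real.tanh (a * y) + a * y / Real.cosh (a * y) ^ 2))
      (-(pot1 a y * e1 a y)) y := by
    refine h3.congr_deriv ?_
    rw [pot1, e1, Real.tanh_eq_sinh_div_cosh]
    field_simp
    ring
  exact h4.deriv

theorem STA_abs {a y : ℝ} (ha : 0 < a) (hy : |y| ≤ 1) : |a * y| ≤ a := by
  rw [abs_mul, abs_of_pos ha]
  nlinarith

theorem STA_e1_abs (a y : ℝ) : e1 a y = 1 - |a * y| * Real.tanh |a * y| := by
  rw [e1, ← atanh_even]

theorem e1_pos {a y : ℝ} (ha : 0 < a) (h : a < ast) (hy : |y| ≤ 1) : 0 < e1 a y := by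
  rw [STA_e1_abs, sub_pos, tanh_lt_one_iff (abs_nonneg _)]
  exact (STA_abs ha hy).trans_lt h

theorem e1_ast_pos {y : ℝ} (hy : |y| < 1) : 0 < e1 ast y := by
  rw [STA_e1_abs, sub_pos, tanh_lt_one_iff (abs_nonneg _), abs_mul, abs_of_pos ast_pos]
  have := ast_pos
  nlinarith

theorem e1_ast_one : e1 ast 1 = 0 := by
  rw [e1, mul_one, ast_eq, sub_self]

theorem e1_le_one {a y : ℝ} : e1 a y ≤ 1 := by
  rw [STA_e1_abs]
  have := mul_nonneg (abs_nonneg (a * y)) (STA_tanh_nonneg (abs_nonneg (a * y)))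
  linarith

/-- monotonicity in `|y|` -/
theorem e1_anti {a y y' : ℝ} (h : |y| ≤ |y'|) : e1 a y' ≤ e1 a y := by
  rw [STA_e1_abs, STA_e1_abs]
  have h1 : |a * y| ≤ |a * y'| := by
    rw [abs_mul, abs_mul]
    exact mul_le_mul_of_nonneg_left h (abs_nonneg _)
  have := STA_g_le (abs_nonneg _) h1
  linarith

theorem V1_anti {a y y' : ℝ} (h : |y| ≤ |y'|) : V1 a y' ≤ V1 a y := by
  have h1 : |a * y| ≤ |a * y'| := by
    rw [abs_mul, abs_mul]
    exact mul_le_mul_of_nonneg_left h (abs_nonneg _)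
  have h2 := Real.log_le_log (Real.cosh_pos _) (Real.cosh_le_cosh.2 h1)
  rw [STA_V1_eq]
  simp only
  linarith

theorem V1_pos {a y : ℝ} (ha : 0 < a) (hy : |y| < 1) : 0 < V1 a y := by
  have h1 : |a * y| < |a| := by
    rw [abs_mul]
    have : 0 < |a| := abs_pos.2 ha.ne'
    nlinarith
  have h2 := Real.log_lt_log (Real.cosh_pos _) (Real.cosh_lt_cosh.2 h1)
  rw [STA_V1_eq]
  simp only
  linarith

theorem mu1_pos {a : ℝ} (ha : 0 < a) : 0 < mu1 a := by
  have := Real.cosh_pos a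
  rw [mu1]; positivity

theorem STA_q (y c : ℝ) : HasDerivAt (fun c => c / Real.cosh (c * y))
    ((1 - c * y * Real.tanh (c * y)) / Real.cosh (c * y)) c := by
  have h1 : HasDerivAt (fun c : ℝ => c * y) y c := by
    simpa using (hasDerivAt_id c).mul_const y
  have h2 : HasDerivAt (fun c : ℝ => Real.cosh (c * y)) (Real.sinh (c * y) * y) c :=
    HasDerivAt.comp (h₂ := Real.cosh) c (Real.hasDerivAt_cosh (c * y)) h1
  have hc := Real.cosh_pos (c * y)
  have h3 := (hasDerivAt_id' c).div h2 hc.ne'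
  refine h3.congr_deriv ?_
  rw [Real.tanh_eq_sinh_div_cosh]
  field_simp

theorem STA_q_pos {y c : ℝ} (hc : 0 < c) (hc2 : c < ast) (hy : |y| ≤ 1) :
    0 < (1 - c * y * Real.tanh (c * y)) / Real.cosh (c * y) :=
  div_pos (e1_pos hc hc2 hy) (Real.cosh_pos _)

theorem STA_q_mono {y : ℝ} (hy : |y| ≤ 1) :
    StrictMonoOn (fun c => c / Real.cosh (c * y)) (Set.Icc 0 ast) := by
  refine strictMonoOn_of_deriv_pos (convex_Icc _ _) ?_ ?_
  · exact (continuous_iff_continuousAt.2 fun c => (STA_q y c).continuousAt).continuousOn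
  · intro c hc
    rw [interior_Icc] at hc
    rw [(STA_q y c).deriv]
    exact STA_q_pos hc.1 hc.2 hy

theorem pot1_mono {a b y : ℝ} (ha : 0 < a) (hab : a < b) (hb : b ≤ ast) (hy : |y| ≤ 1) :
    pot1 a y < pot1 b y := by
  have h := STA_q_mono hy ⟨ha.le, hab.le.trans hb⟩ ⟨(ha.trans hab).le, hb⟩ hab
  simp only at h
  have e : ∀ c, pot1 c y = 2 * (c / Real.cosh (c * y)) ^ 2 := fun c => by
    rw [pot1, div_pow, mul_div_assoc]
  rw [e, e]
  have h1 : 0 < a / Real.cosh (a * y) := div_pos ha (Real.cosh_pos _)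
  nlinarith

theorem mu1_mono {a b : ℝ} (ha : 0 < a) (hab : a < b) (hb : b ≤ ast) : mu1 a < mu1 b := by
  have := pot1_mono ha hab hb (show |(1 : ℝ)| ≤ 1 by simp)
  simpa [pot1, mu1] using this

theorem mu1_deriv_pos {a : ℝ} (ha : 0 < a) (hb : a < ast) : 0 < deriv mu1 a := by
  have h1 := STA_q 1 a
  have h2 := (h1.pow 2).const_mul 2
  have e : mu1 = fun y => 2 * ((fun c => c / Real.cosh (c * 1)) ^ 2) y := by
    funext c
    simp only [mu1, Pi.pow_apply, mul_one]
    rw [div_pow, mul_div_assoc]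
  rw [e, h2.deriv]
  have h3 := STA_q_pos (y := 1) ha hb (by simp)
  have h4 : 0 < a / Real.cosh (a * 1) := div_pos ha (Real.cosh_pos _)
  have h5 : 0 < (a / Real.cosh (a * 1)) * ((1 - a * 1 * Real.tanh (a * 1)) / Real.cosh (a * 1)) :=
    mul_pos h4 h3
  simp only [Nat.cast_ofNat, Nat.add_one_sub_one, pow_one]
  linarith

theorem V1_mono {a b y : ℝ} (ha : 0 < a) (hab : a ≤ b) (hy : |y| ≤ 1) :
    V1 a y ≤ V1 b y := by
  have key : ∀ z : ℝ, 0 ≤ z → z ≤ 1 → Real.cosh a * Real.cosh (b * z) ≤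
      Real.cosh b * Real.cosh (a * z) := by
    intro z hz hz1
    have h1 : Real.cosh (a + b * z) ≤ Real.cosh (b + a * z) := by
      rw [Real.cosh_le_cosh, abs_of_nonneg (by nlinarith [mul_nonneg (ha.le.trans hab) hz]),
        abs_of_nonneg (by nlinarith [mul_nonneg ha.le hz])]
      nlinarith
    have h2 : Real.cosh (a - b * z) ≤ Real.cosh (b - a * z) := by
      rw [Real.cosh_le_cosh, abs_of_nonneg (a := b - a * z) (by nlinarith), abs_le]
      constructor <;> nlinarith
    rw [Real.cosh_add, Real.cosh_add] at h1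
    rw [Real.cosh_sub, Real.cosh_sub] at h2
    linarith
  have e : ∀ c : ℝ, V1 c y = V1 c |y| := by
    intro c
    rcases abs_cases y with ⟨h, _⟩ | ⟨h, _⟩
    · rw [h]
    · rw [h, V1_even]
  rw [e, e, V1, V1]
  have h1 := key |y| (abs_nonneg _) hy
  have p1 := Real.cosh_pos a
  have p2 := Real.cosh_pos b
  have p3 := Real.cosh_pos (a * |y|)
  have p4 := Real.cosh_pos (b * |y|)
  have h2 : Real.cosh a / Real.cosh (a * |y|) ≤ Real.cosh b / Real.cosh (b * |y|) := by
    rw [div_le_div_iff₀ p3 p4]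
    exact h1
  have h3 := Real.log_le_log (div_pos p1 p3) h2
  linarith

/-- the amplitude determines the parameter -/
theorem amp1_exists {p : ℝ} (hp : 0 < p) : ∃ a : ℝ, 0 < a ∧ 2 * Real.log (Real.cosh a) = p := by
  have h1 : 1 < Real.exp (p / 2) := Real.one_lt_exp_iff.2 (by linarith)
  refine ⟨Real.arcosh (Real.exp (p / 2)), Real.arcosh_pos h1, ?_⟩
  rw [Real.cosh_arcosh h1.le, Real.log_exp]
  ring

theorem amp1_lt {a b : ℝ} (ha : 0 < a) (hb : 0 < b) :
    2 * Real.log (Real.cosh a) < 2 * Real.log (Real.cosh b) ↔ a < b := by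
  rw [mul_lt_mul_iff_right₀ (by norm_num : (0 : ℝ) < 2), Real.log_lt_log_iff (Real.cosh_pos a) (Real.cosh_pos b),
    Real.cosh_lt_cosh, abs_of_pos ha, abs_of_pos hb]

theorem pst_pos : 0 < pst := by
  have := Real.log_pos (Real.one_lt_cosh.2 ast_pos.ne')
  rw [pst]; linarith

theorem STA_exp_lip {R x x' : ℝ} (hx : x ≤ R) (hx' : x' ≤ R) :
    |Real.exp x - Real.exp x'| ≤ Real.exp R * |x - x'| := by
  have key : ∀ u v : ℝ, u ≤ R → v ≤ u → |Real.exp u - Real.exp v| ≤ Real.exp R * |u - v| := by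
    intro u v hu hv
    have h1 : Real.exp v ≤ Real.exp u := Real.exp_le_exp.2 hv
    rw [abs_of_nonneg (by linarith), abs_of_nonneg (by linarith)]
    have h2 : Real.exp v = Real.exp u * Real.exp (v - u) := by
      rw [← Real.exp_add]; congr 1; ring
    have h3 := Real.add_one_le_exp (v - u)
    have h4 := Real.exp_pos u
    have h5 : Real.exp u ≤ Real.exp R := Real.exp_le_exp.2 hu
    have h6 : Real.exp u - Real.exp v ≤ Real.exp u * (u - v) := by
      rw [h2]
      nlinarith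
    refine h6.trans (mul_le_mul_of_nonneg_right h5 (by linarith))
  rcases le_total x' x with h | h
  · exact key x x' hx h
  · rw [abs_sub_comm, abs_sub_comm x x']
    exact key x' x hx' h

theorem ode1 {μ p : ℝ} (hμ : 0 < μ) {V : ℝ → ℝ} (hV : ContDiffOn ℝ 2 V (Set.Ioo (-1) 1))
    (heq : ∀ y ∈ Set.Ioo (-1 : ℝ) 1, deriv (deriv V) y = -(μ * Real.exp (V y)))
    (h0 : V 0 = p) (h1 : deriv V 0 = 0) :
    ∀ y ∈ Set.Ioo (-1 : ℝ) 1, V y = p - 2 * Real.log (Real.cosh (√(μ * Real.exp p / 2) * y)) := by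
  intro y hy
  set a := √(μ * Real.exp p / 2) with ha
  have ha2 : a ^ 2 = μ * Real.exp p / 2 := Real.sq_sqrt (by positivity)
  set U : ℝ → ℝ := fun y => p - 2 * Real.log (Real.cosh (a * y)) with hU
  have hU1 : ∀ y, HasDerivAt U (-2 * a * Real.tanh (a * y)) y := by
    intro y
    have h := ((STA_lc a y).const_mul 2).const_sub p
    exact h.congr_deriv (by ring)
  have hUexp : ∀ y, μ * Real.exp (U y) = 2 * a ^ 2 / Real.cosh (a * y) ^ 2 := by
    intro y
    have hc := Real.cosh_pos (a * y)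
    have : Real.exp (U y) = Real.exp p / Real.cosh (a * y) ^ 2 := by
      rw [hU]
      simp only
      rw [Real.exp_sub, two_mul, Real.exp_add, Real.exp_log hc]; ring
    rw [this, ha2]; ring
  have hU2 : ∀ y, HasDerivAt (fun y => -2 * a * Real.tanh (a * y)) (-(μ * Real.exp (U y))) y := by
    intro y
    have h := (STA_th a y).const_mul (-2 * a)
    refine h.congr_deriv ?_
    rw [hUexp]; ring
  -- an interval
  obtain ⟨r, hr1, hr2⟩ := exists_between (abs_lt.2 hy)
  have hr0 : 0 < r := lt_of_le_of_lt (abs_nonneg _) hr1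
  have hsub : Set.Icc (-r) r ⊆ Set.Ioo (-1 : ℝ) 1 := fun z hz => ⟨by linarith [hz.1], by
    linarith [hz.2]⟩
  obtain ⟨B, hB⟩ := (isCompact_Icc.bddAbove_image (hV.continuousOn.mono hsub))
  set R := max B p with hR
  have hopen : IsOpen (Set.Ioo (-1 : ℝ) 1) := isOpen_Ioo
  have hV1 : ∀ z ∈ Set.Ioo (-1 : ℝ) 1, HasDerivAt V (deriv V z) z := fun z hz =>
    ((hV.differentiableOn (by norm_num)).differentiableAt (hopen.mem_nhds hz)).hasDerivAt
  have hV2 : ∀ z ∈ Set.Ioo (-1 : ℝ) 1, HasDerivAt (deriv V) (-(μ * Real.exp (V z))) z := by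
    intro z hz
    have h2 : ContDiffOn ℝ 1 (deriv V) (Set.Ioo (-1) 1) := by
      have h3 := (contDiffOn_succ_iff_deriv_of_isOpen (n := 1) hopen).1 (by
        have : (1 + 1 : WithTop ℕ∞) = 2 := by norm_num
        rw [this]; exact hV)
      exact h3.2.2
    rw [← heq z hz]
    exact ((h2.differentiableOn (by norm_num)).differentiableAt (hopen.mem_nhds hz)).hasDerivAt
  have hlip : ∀ t ∈ Set.Ioo (-r) r, LipschitzOnWith (Real.toNNReal (max 1 (μ * Real.exp R)))
      (fun z : ℝ × ℝ => (z.2, -(μ * Real.exp z.1))) {z : ℝ × ℝ | z.1 ≤ R} := by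
    intro t _
    refine LipschitzOnWith.of_dist_le_mul fun z hz w hw => ?_
    rw [Real.coe_toNNReal _ (le_trans zero_le_one (le_max_left _ _)), Prod.dist_eq, Prod.dist_eq]
    simp only [Real.dist_eq]
    have hm : 0 ≤ max |z.1 - w.1| |z.2 - w.2| := le_max_of_le_left (abs_nonneg _)
    refine max_le ?_ ?_
    · calc |z.2 - w.2| ≤ 1 * max |z.1 - w.1| |z.2 - w.2| := by
            rw [one_mul]; exact le_max_right _ _
        _ ≤ _ := mul_le_mul_of_nonneg_right (le_max_left _ _) hm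
    · have h3 : -(μ * Real.exp z.1) - -(μ * Real.exp w.1) = -(μ * (Real.exp z.1 - Real.exp w.1)) := by
        ring
      rw [h3, abs_neg, abs_mul, abs_of_pos hμ]
      calc μ * |Real.exp z.1 - Real.exp w.1| ≤ μ * (Real.exp R * |z.1 - w.1|) :=
            mul_le_mul_of_nonneg_left (STA_exp_lip hz hw) hμ.le
        _ = (μ * Real.exp R) * |z.1 - w.1| := by ring
        _ ≤ (max 1 (μ * Real.exp R)) * max |z.1 - w.1| |z.2 - w.2| :=
            mul_le_mul (le_max_right _ _) (le_max_left _ _) (abs_nonneg _)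
              (le_trans zero_le_one (le_max_left _ _))
  have key := ODE_solution_unique_of_mem_Ioo (E := ℝ × ℝ) (a := -r) (b := r) (t₀ := 0)
    (v := fun _ z => (z.2, -(μ * Real.exp z.1))) (s := fun _ => {z : ℝ × ℝ | z.1 ≤ R})
    (f := fun y => (V y, deriv V y)) (g := fun y => (U y, -2 * a * Real.tanh (a * y)))
    hlip ⟨by linarith, hr0⟩
    (fun t ht => ⟨(hV1 t (hsub (Set.Ioo_subset_Icc_self ht))).prodMk
      (hV2 t (hsub (Set.Ioo_subset_Icc_self ht))), by
        have : V t ≤ B := hB (Set.mem_image_of_mem V (Set.Ioo_subset_Icc_self ht))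
        exact this.trans (le_max_left _ _)⟩)
    (fun t _ => ⟨(hU1 t).prodMk (hU2 t), by
        have h4 : 0 ≤ Real.log (Real.cosh (a * t)) := Real.log_nonneg (Real.one_le_cosh _)
        have h5 : U t ≤ p := by
          rw [hU]; simp only; linarith
        exact h5.trans (le_max_right _ _)⟩)
    (by
      have h6 : U 0 = p := by rw [hU]; simp
      simp [h0, h1, h6])
  have h7 := key (abs_lt.1 hr1)
  exact congrArg Prod.fst h7

/-- with zero boundary values -/
theorem ode1_bd {μ : ℝ} (hμ : 0 < μ) {V : ℝ → ℝ} (hc : ContinuousOn V (Set.Icc (-1) 1))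
    (hV : ContDiffOn ℝ 2 V (Set.Ioo (-1) 1))
    (heq : ∀ y ∈ Set.Ioo (-1 : ℝ) 1, deriv (deriv V) y = -(μ * Real.exp (V y)))
    (h1 : deriv V 0 = 0) (hb : V 1 = 0) :
    ∃ a : ℝ, 0 < a ∧ μ = mu1 a ∧ V 0 = 2 * Real.log (Real.cosh a) ∧
      ∀ y ∈ Set.Icc (-1 : ℝ) 1, V y = V1 a y := by
  have h2 := ode1 hμ hV heq rfl h1
  set a := √(μ * Real.exp (V 0) / 2) with ha
  have ha0 : 0 < a := Real.sqrt_pos.2 (by positivity)
  have ha2 : a ^ 2 = μ * Real.exp (V 0) / 2 := Real.sq_sqrt (by positivity)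
  have hcont : Continuous fun y : ℝ => V 0 - 2 * Real.log (Real.cosh (a * y)) :=
    continuous_iff_continuousAt.2 fun y =>
      (((STA_lc a y).const_mul 2).const_sub (V 0)).continuousAt
  have h3 : Set.EqOn V (fun y : ℝ => V 0 - 2 * Real.log (Real.cosh (a * y))) (Set.Icc (-1) 1) := by
    refine Set.EqOn.of_subset_closure (s := Set.Ioo (-1) 1) h2 hc hcont.continuousOn
      Set.Ioo_subset_Icc_self ?_
    rw [closure_Ioo (by norm_num)]
  have h4 : V 0 = 2 * Real.log (Real.cosh a) := by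
    have := h3 (show (1 : ℝ) ∈ Set.Icc (-1) 1 by simp)
    simp only [hb, mul_one] at this
    linarith
  have hcp := Real.cosh_pos a
  refine ⟨a, ha0, ?_, h4, fun y hy => ?_⟩
  · rw [mu1, ha2, h4, two_mul (Real.log _), Real.exp_add, Real.exp_log hcp]
    field_simp
  · rw [h3 hy, STA_V1_eq]
    simp only
    rw [h4]

end Pool.Agent.MFE
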