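import Pool.Agent.MFE.NOD
import Pool.Agent.MFE.REG
import Pool.Agent.MFE.STA

/-!
# MFE.LIO: Liouville lemma on the strip

`U` continuous, bounded, zero outside `Str 1`, `-lap U = pot1 a y · U` (weakly) with
`0 < a ≤ ast`. Then `U = c e1 a` on the strip, and `c = 0` if `a < ast`.
Proof. `reg_lin`: `U` is smooth. `g q = e1 a q.2 > 0` on `Str 1`, `-lap g = pot1 g` (`lap_snd`). If
`U q₀ > 0` for some `q₀` let `N` be the component of `{q ∈ Str 1 : U q > 0}` containing `q₀`
(`connectedComponentIn`); open; `{q ∈ N : ε ≤ U q}` is closed (`U` continuous on the plane, zero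
outside `Str 1`, maximality of `N`); `nodal_prop`: `U = κ g` on `N`, `κ > 0`. `N` is closed in `Str 1`:
at a limit point `U = κ g > 0`. `Str 1` is connected: `N = Str 1`. Same for `-U`. If `a < ast` then
`e1 a 1 > 0` but `U` is continuous and vanishes on `|y| = 1`: `c = 0`.
-/

open scoped ContDiff

namespace Pool.Agent.MFE

private theorem LIO_str_open (L : ℝ) : IsOpen (Str L) :=
  isOpen_lt (continuous_snd.abs) continuous_const

private theorem LIO_str_pre (L : ℝ) : IsPreconnected (Str L) := by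
  have h : Convex ℝ (Str L) := by
    intro p hp q hq a b ha hb hab
    have h1 : |p.2| < L := hp
    have h2 : |q.2| < L := hq
    show |a * p.2 + b * q.2| < L
    calc |a * p.2 + b * q.2| ≤ |a * p.2| + |b * q.2| := abs_add_le _ _
      _ = a * |p.2| + b * |q.2| := by rw [abs_mul, abs_mul, abs_of_nonneg ha, abs_of_nonneg hb]
      _ < L := by
        rcases eq_or_lt_of_le ha with h0 | h0
        · have hb1 : b = 1 := by linarith
          rw [← h0, hb1]
          linarith
        · have e1 := mul_lt_mul_of_pos_left h1 h0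
          have e2 := mul_le_mul_of_nonneg_left h2.le hb
          have e3 : a * L + b * L = L := by rw [← add_mul, hab, one_mul]
          linarith
  exact h.isPreconnected

private theorem LIO_pot_smooth (a : ℝ) : ContDiff ℝ ∞ (fun q : ℝ × ℝ => pot1 a q.2) := by
  unfold pot1
  have h : ContDiff ℝ ∞ (fun q : ℝ × ℝ => Real.cosh (a * q.2)) :=
    Real.contDiff_cosh.comp (contDiff_const.mul contDiff_snd)
  exact contDiff_const.div (h.pow 2) fun q => (pow_pos (Real.cosh_pos _) 2).ne'

private theorem LIO_pot_bd (a y : ℝ) : 0 ≤ pot1 a y ∧ pot1 a y ≤ 2 * a ^ 2 := by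
  unfold pot1
  have h : 1 ≤ Real.cosh (a * y) ^ 2 := one_le_pow₀ (Real.one_le_cosh _)
  exact ⟨by positivity, div_le_self (by positivity) h⟩

private theorem LIO_pos {a M : ℝ} {W : ℝ × ℝ → ℝ} (hg0 : ∀ q ∈ Str 1, 0 < e1 a q.2)
    (hc : Continuous W) (hM : ∀ q, W q ≤ M) (h0 : ∀ q, q ∉ Str 1 → W q = 0)
    (hW : ContDiffOn ℝ 2 W (Str 1)) (heq : ∀ q ∈ Str 1, -lap W q = pot1 a q.2 * W q)
    {q₀ : ℝ × ℝ} (hq₀ : 0 < W q₀) : ∃ κ : ℝ, ∀ q ∈ Str 1, W q = κ * e1 a q.2 := by
  have hq₀S : q₀ ∈ Str 1 := by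
    by_contra h
    rw [h0 q₀ h] at hq₀
    exact lt_irrefl _ hq₀
  obtain ⟨A, hA⟩ : ∃ A : Set (ℝ × ℝ), A = {q | q ∈ Str 1 ∧ 0 < W q} := ⟨_, rfl⟩
  have hAo : IsOpen A := by
    rw [hA]
    exact (LIO_str_open 1).inter (isOpen_lt continuous_const hc)
  have hq₀A : q₀ ∈ A := by rw [hA]; exact ⟨hq₀S, hq₀⟩
  have hNA : connectedComponentIn A q₀ ⊆ A := connectedComponentIn_subset A q₀
  have hNo : IsOpen (connectedComponentIn A q₀) := hAo.connectedComponentIn
  have hNc : IsConnected (connectedComponentIn A q₀) := isConnected_connectedComponentIn_iff.2 hq₀A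
  have hcl : ∀ q ∈ closure (connectedComponentIn A q₀), q ∈ A → q ∈ connectedComponentIn A q₀ := by
    intro q hq hqA
    have h1 : IsPreconnected (insert q (connectedComponentIn A q₀)) :=
      hNc.isPreconnected.subset_closure (Set.subset_insert _ _)
        (Set.insert_subset hq subset_closure)
    have h2 : insert q (connectedComponentIn A q₀) ⊆ connectedComponentIn A q₀ :=
      h1.subset_connectedComponentIn
        (Set.mem_insert_of_mem _ (mem_connectedComponentIn hq₀A))
        (Set.insert_subset hqA hNA)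
    exact h2 (Set.mem_insert _ _)
  have hNS : connectedComponentIn A q₀ ⊆ Str 1 := fun q hq => by
    have := hNA hq
    rw [hA] at this
    exact this.1
  have hNpos : ∀ q ∈ connectedComponentIn A q₀, 0 < W q := fun q hq => by
    have := hNA hq
    rw [hA] at this
    exact this.2
  have hgs : ContDiff ℝ ∞ (fun q : ℝ × ℝ => e1 a q.2) := (e1_smooth a).comp contDiff_snd
  have hgs2 : ContDiff ℝ 2 (fun q : ℝ × ℝ => e1 a q.2) := by exact_mod_cast contDiff_infty.1 hgs 2
  have he2 : ContDiff ℝ 2 (e1 a) := by exact_mod_cast contDiff_infty.1 (e1_smooth a) 2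
  obtain ⟨κ, hκ, hκ'⟩ := nodal_prop hNo hNc hNS (c := fun q => pot1 a q.2)
    (C := 2 * a ^ 2) (M := M) (hW.mono hNS) hNpos (fun q _ => hM q)
    (hgs2.contDiffOn (s := connectedComponentIn A q₀)) (fun q hq => hg0 q (hNS hq))
    (LIO_pot_smooth a).continuous.continuousOn (fun q _ => LIO_pot_bd a q.2)
    (fun q hq => (heq q (hNS hq)).le)
    (fun q hq => by rw [lap_snd (e1 a) he2, e1_deriv2, neg_neg])
    (fun ε hε => by
      refine isClosed_of_closure_subset fun q hq => ?_
      have h1 : q ∈ closure (connectedComponentIn A q₀) := closure_mono (fun z hz => hz.1) hq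
      have h2 : ε ≤ W q := by
        have h3 : q ∈ closure {z | ε ≤ W z} := closure_mono (fun z hz => hz.2) hq
        rwa [(isClosed_le continuous_const hc).closure_eq] at h3
      have h3 : q ∈ Str 1 := by
        by_contra h
        rw [h0 q h] at h2
        linarith
      refine ⟨hcl q h1 ?_, h2⟩
      rw [hA]
      exact ⟨h3, by linarith⟩)
  refine ⟨κ, fun q hq => hκ' q ?_⟩
  have h4 : Str 1 ⊆ connectedComponentIn A q₀ := by
    refine (LIO_str_pre 1).subset_of_closure_inter_subset hNo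
      ⟨q₀, hq₀S, mem_connectedComponentIn hq₀A⟩ fun z hz => hcl z hz.1 ?_
    have h5 : W z = κ * e1 a z.2 := by
      have h6 : z ∈ closure {z : ℝ × ℝ | W z = κ * e1 a z.2} := closure_mono hκ' hz.1
      have h7 : Continuous (fun q : ℝ × ℝ => κ * e1 a q.2) :=
        continuous_const.mul hgs.continuous
      rwa [(isClosed_eq hc h7).closure_eq] at h6
    rw [hA]
    exact ⟨hz.2, by rw [h5]; exact mul_pos hκ (hg0 z hz.2)⟩
  exact h4 hq

theorem liou {a M : ℝ} (ha : 0 < a) (ha' : a ≤ ast) {U : ℝ × ℝ → ℝ} (hc : Continuous U)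
    (hM : ∀ q, |U q| ≤ M) (h0 : ∀ q, q ∉ Str 1 → U q = 0)
    (hw : Weak U (fun q => pot1 a q.2 * U q) (Str 1)) :
    ∃ c : ℝ, (∀ q ∈ Str 1, U q = c * e1 a q.2) ∧ (a < ast → c = 0) := by
  have hS := LIO_str_open 1
  have hw' : Weak U (fun q => pot1 a q.2 * U q + 0) (Str 1) := by simpa using hw
  obtain ⟨hsm, heq'⟩ := reg_lin hS hc.continuousOn (LIO_pot_smooth a).contDiffOn
    contDiffOn_const hw'
  have heq : ∀ q ∈ Str 1, -lap U q = pot1 a q.2 * U q := fun q hq => by
    rw [heq' q hq, add_zero]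
  have hU2 : ContDiffOn ℝ 2 U (Str 1) := by exact_mod_cast contDiffOn_infty.1 hsm 2
  have hg0 : ∀ q ∈ Str 1, 0 < e1 a q.2 := by
    intro q hq
    have hq' : |q.2| < 1 := hq
    rcases eq_or_lt_of_le ha' with h | h
    · rw [h]; exact e1_ast_pos hq'
    · exact e1_pos ha h hq'.le
  have hmain : ∃ c : ℝ, ∀ q ∈ Str 1, U q = c * e1 a q.2 := by
    by_cases h1 : ∃ q₀, 0 < U q₀
    · obtain ⟨q₀, hq₀⟩ := h1
      exact LIO_pos hg0 hc (fun q => (le_abs_self _).trans (hM q)) h0 hU2 heq hq₀
    · by_cases h2 : ∃ q₀, U q₀ < 0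
      · obtain ⟨q₀, hq₀⟩ := h2
        obtain ⟨κ, hκ⟩ := LIO_pos (W := fun q => (-1) * U q) (M := M) hg0
          (continuous_const.mul hc) (fun q => by linarith [neg_abs_le (U q), hM q])
          (fun q hq => by simp only [h0 q hq, mul_zero]) (contDiffOn_const.mul hU2)
          (fun q hq => by
            rw [lap_const_mul hS (-1) hU2 hq]
            linear_combination -(heq q hq)) (q₀ := q₀) (by linarith)
        exact ⟨-κ, fun q hq => by linear_combination -(hκ q hq)⟩
      · refine ⟨0, fun q _ => ?_⟩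
        push Not at h1 h2
        rw [zero_mul]
        exact le_antisymm (h1 q) (h2 q)
  obtain ⟨c, hcc⟩ := hmain
  refine ⟨c, hcc, fun hlt => ?_⟩
  have hcl : ((0 : ℝ), (1 : ℝ)) ∈ closure (Str 1) := by
    rw [Metric.mem_closure_iff]
    intro ε hε
    have hm : 0 < min (ε / 2) 1 := lt_min (by positivity) one_pos
    have hm1 : min (ε / 2) 1 ≤ 1 := min_le_right _ _
    have hm2 : min (ε / 2) 1 ≤ ε / 2 := min_le_left _ _
    refine ⟨(0, 1 - min (ε / 2) 1), ?_, ?_⟩
    · show |1 - min (ε / 2) 1| < 1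
      rw [abs_of_nonneg (by linarith)]
      linarith
    · rw [Prod.dist_eq, dist_self, Real.dist_eq, sub_sub_cancel, abs_of_pos hm]
      exact max_lt hε (by linarith)
  have hec : Continuous (fun q : ℝ × ℝ => c * e1 a q.2) :=
    continuous_const.mul ((e1_smooth a).continuous.comp continuous_snd)
  have h6 : ((0 : ℝ), (1 : ℝ)) ∈ closure {z : ℝ × ℝ | U z = c * e1 a z.2} :=
    closure_mono hcc hcl
  rw [(isClosed_eq hc hec).closure_eq] at h6
  have h7 : U (0, 1) = c * e1 a 1 := h6
  have h8 : ((0 : ℝ), (1 : ℝ)) ∉ Str 1 := by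
    intro h
    have : |(1 : ℝ)| < 1 := h
    simp at this
  rw [h0 _ h8] at h7
  have h9 : 0 < e1 a 1 := e1_pos ha hlt (by simp)
  rcases mul_eq_zero.1 h7.symm with h | h
  · exact h
  · exact absurd h h9.ne'

end Pool.Agent.MFE
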