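import Pool.Agent.MFE.FLDBnd
import Pool.Agent.MFE.FLDAA
import Pool.Agent.MFE.FLDLoc
import Pool.Agent.MFE.IBP
import Pool.Agent.MFE.LIO

/-!
# MFE.FLDCls: slowly varying functions are close to `f(x,0) e(y)` (regime C)

By contradiction: `Ξ, ε`, a subsequence (not relabelled) and `q n = (x n, y n) ∈ Win (κ n) Ξ` with
`|f n (x n, y n) - f n (x n, 0) e(y n)| > ε`; a further subsequence: `y n → y₀ ∈ [-1,1]`. Let `M` be the
bound of `Slow.bound` for `Ξ + 1` and `U n (q) = f n (x n + q.1, q.2)`. For every `R` and large `n` the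
set `{|x - x n| ≤ R + 3}` is in the window `Ξ + 1` (`√κ (R+3) ≤ 1/2`). `loc_bd` (with
`|lap f| ≤ Mκ + (25/8) M`, `cst_q`) applied at all points `x₀` with `|x₀ - x n| ≤ R`: `U n` is bounded by
`M` (and `0` outside the ellipse) and Lipschitz on `{|q.1| ≤ R}` with a constant `C M` independent
of `n, R` (chain of points at distance `≤ 1`, or: locally Lipschitz with the same constant).
`aa_loc` (`X = ℝ × ℝ`): a subsequence converges locally uniformly to `U`, continuous, `|U| ≤ M`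
(points outside the ellipse: `f = 0`), `U = 0` outside `Str 1` (if `|y| ≥ 1` then `q ∉ Ell`).
`Weak U (pot1 ast q.2 * U q) (Str 1)`: a test function `η` with support in `Str 1` has its support in
`D = {|x| < R, |y| < r}`, `r < 1`; for large `n` the shifted set is in `Ell (α n)`
(`α n² (|x n| + R)² → 0`: `Par.win`) and in the window, there
`-lap (U n) = q(y) U n - r n`, `|r n| ≤ M κ n → 0` (`lap_aff` for the translation); `weak_of_c2`, `weak_lim`.
`liou` with `a = ast`: `U = c e(y)` on `Str 1`; `c = U(0,0)` (`e1 ast 0 = 1`). By uniform convergence on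
compact sets and continuity `|U(0,y₀) - U(0,0) e(y₀)| ≥ ε` (for `|y₀| = 1` both sides are `0`:
`U(0,±1) = 0 = e(±1)`). Contradiction.
-/

open Filter Topology
open scoped ContDiff

namespace Pool.Agent.MFE

private theorem FLDCls_bound {α κ : ℕ → ℝ} {f : ℕ → ℝ × ℝ → ℝ} (hp : Par α κ) (hs : Slow α κ f) (Ξ : ℝ) :
    ∃ M : ℝ, 0 ≤ M ∧ ∀ᶠ n in atTop, ∀ q ∈ Ell (α n), √(κ n) * |q.1| < Ξ →
      |f n q| ≤ M ∧ |lap (f n) q| ≤ M ∧ |lap (f n) q + pot1 ast q.2 * f n q| ≤ M * κ n := by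
  obtain ⟨M, hM⟩ := hs.bound Ξ
  refine ⟨5 * |M|, by positivity, ?_⟩
  have hκ1 : ∀ᶠ n in atTop, κ n < 1 := hp.κ_lim.eventually (gt_mem_nhds one_pos)
  filter_upwards [hM, hκ1] with n hn hκ q hq hqx
  obtain ⟨h1, h2⟩ := hn q hq hqx
  have hκ0 := hp.κ_pos n
  have hMM := le_abs_self M
  have hM0 := abs_nonneg M
  obtain ⟨c1, -, c3⟩ := cst_q q.2
  have h3 : |pot1 ast q.2 * f n q| ≤ 25 / 8 * |M| := by
    rw [abs_mul, abs_of_pos c1]
    exact mul_le_mul c3 (h1.trans hMM) (abs_nonneg _) (by norm_num)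
  have h4 : M * κ n ≤ |M| * κ n := mul_le_mul_of_nonneg_right hMM hκ0.le
  have h5 : |M| * κ n ≤ |M| := mul_le_of_le_one_right hM0 hκ.le
  refine ⟨by linarith, ?_, ?_⟩
  · have h6 := abs_le.1 h2
    have h7 := abs_le.1 h3
    rw [abs_le]
    constructor <;> linarith [h6.1, h6.2, h7.1, h7.2]
  · nlinarith [mul_nonneg hM0 hκ0.le]

private theorem FLDCls_ball {R : ℝ} {z : ℝ × ℝ} (hz : z ∈ Metric.closedBall (0 : ℝ × ℝ) R) :
    |z.1| ≤ R ∧ |z.2| ≤ R := by
  rw [Metric.mem_closedBall, dist_zero_right] at hz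
  exact ⟨(norm_fst_le z).trans hz, (norm_snd_le z).trans hz⟩

private theorem FLDCls_dist (z z' : ℝ × ℝ) : |z.1 - z'.1| ≤ dist z z' ∧ |z.2 - z'.2| ≤ dist z z' := by
  rw [Prod.dist_eq, Real.dist_eq, Real.dist_eq]
  exact ⟨le_max_left _ _, le_max_right _ _⟩

private theorem FLDCls_core {α κ : ℕ → ℝ} {f : ℕ → ℝ × ℝ → ℝ} (hp : Par α κ) (hs : Slow α κ f)
    {Ξ ε y₀ : ℝ} (hε : 0 < ε) {q : ℕ → ℝ × ℝ} (hq : ∀ n, q n ∈ Win (κ n) Ξ)
    (hy : Tendsto (fun n => (q n).2) atTop (𝓝 y₀))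
    (hbad : ∀ n, ε < |f n (q n) - f n ((q n).1, 0) * e1 ast (q n).2|) : False := by
  obtain ⟨M, hM0, hM⟩ := FLDCls_bound hp hs (Ξ + 1)
  obtain ⟨C, hC0, hC⟩ := loc_bd
  set x : ℕ → ℝ := fun n => (q n).1 with hx
  set U : ℕ → ℝ × ℝ → ℝ := fun n z => f n (x n + 1 * z.1, 0 + 1 * z.2) with hU
  have hκ : Tendsto (fun n => √(κ n)) atTop (𝓝 0) := by
    have := (Real.continuous_sqrt.tendsto 0).comp hp.κ_lim
    rw [Real.sqrt_zero] at this
    exact this
  have hwin : ∀ R : ℝ, ∀ᶠ n in atTop, ∀ t : ℝ, |t| ≤ R → √(κ n) * |x n + t| < Ξ + 1 := by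
    intro R
    have h1 : Tendsto (fun n => √(κ n) * |R|) atTop (𝓝 0) := by
      simpa using hκ.mul_const |R|
    filter_upwards [h1.eventually (gt_mem_nhds one_pos)] with n hn t ht
    have h2 : √(κ n) * |x n| ≤ Ξ := (hq n).1
    have h3 : √(κ n) * |x n + t| ≤ √(κ n) * (|x n| + |R|) :=
      mul_le_mul_of_nonneg_left ((abs_add_le _ _).trans (by linarith [le_abs_self R])) (Real.sqrt_nonneg _)
    rw [mul_add] at h3
    linarith
  have hUb : ∀ R : ℝ, ∀ᶠ n in atTop, ∀ z ∈ Metric.closedBall (0 : ℝ × ℝ) R, |U n z| ≤ M := by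
    intro R
    filter_upwards [hwin R, hM] with n h1 h2 z hz
    by_cases hE : (x n + 1 * z.1, 0 + 1 * z.2) ∈ Ell (α n)
    · exact (h2 _ hE (by simpa using h1 z.1 (FLDCls_ball hz).1)).1
    · show |f n (x n + 1 * z.1, 0 + 1 * z.2)| ≤ M
      rw [hs.zero n _ hE, abs_zero]
      exact hM0
  have hUl : ∀ R : ℝ, ∃ L : ℝ, ∀ δ : ℝ, 0 < δ → ∀ᶠ n in atTop,
      ∀ z ∈ Metric.closedBall (0 : ℝ × ℝ) R, ∀ z' ∈ Metric.closedBall (0 : ℝ × ℝ) R,
        |U n z - U n z'| ≤ L * dist z z' + δ := by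
    intro R
    refine ⟨2 * C * M + 2 * M, fun δ hδ => ?_⟩
    filter_upwards [hwin (R + 3), hM, hs.cont (Ξ + 1), hs.smooth (Ξ + 1), hUb R] with n h1 h2 h3 h4 h5 z hz z' hz'
    obtain ⟨d1, d2⟩ := FLDCls_dist z z'
    have hdn : 0 ≤ dist z z' := dist_nonneg
    by_cases hzz : |z.1 - z'.1| ≤ 1
    · have hw : ∀ p : ℝ × ℝ, |p.1 - (x n + 1 * z.1)| ≤ 3 → √(κ n) * |p.1| < Ξ + 1 := by
        intro p hp'
        have h6 := h1 (p.1 - x n) (by
          have e1 : p.1 - x n = (p.1 - (x n + 1 * z.1)) + z.1 := by ring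
          rw [e1]
          refine (abs_add_le _ _).trans ?_
          linarith [(FLDCls_ball hz).1])
        rwa [add_sub_cancel] at h6
      have := (hC (α n) (x n + 1 * z.1) M (f n) (hp.α_pos n) (hp.α_le n) hM0 (hs.zero n)
        (h3.mono fun p hp' => (hw p hp').le) (h4.mono fun p hp' => ⟨hp'.1, hw p (le_of_lt hp'.2)⟩)
        (fun p hp' hpx => ⟨(h2 p hp' (hw p hpx.le)).1, (h2 p hp' (hw p hpx.le)).2.1⟩)).2
        (x n + 1 * z.1, 0 + 1 * z.2) (x n + 1 * z'.1, 0 + 1 * z'.2) (by simp) (by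
          have : x n + 1 * z'.1 - (x n + 1 * z.1) = z'.1 - z.1 := by ring
          show |x n + 1 * z'.1 - (x n + 1 * z.1)| ≤ 1
          rw [this, abs_sub_comm]
          exact hzz)
      have e1 : x n + 1 * z.1 - (x n + 1 * z'.1) = z.1 - z'.1 := by ring
      have e2 : 0 + 1 * z.2 - (0 + 1 * z'.2) = z.2 - z'.2 := by ring
      simp only [e1, e2] at this
      have h7 : C * M * (|z.1 - z'.1| + |z.2 - z'.2|) ≤ C * M * (dist z z' + dist z z') :=
        mul_le_mul_of_nonneg_left (add_le_add d1 d2) (by positivity)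
      have h8 : 0 ≤ M * dist z z' := mul_nonneg hM0 hdn
      show |f n (x n + 1 * z.1, 0 + 1 * z.2) - f n (x n + 1 * z'.1, 0 + 1 * z'.2)| ≤ _
      linarith
    · have hzz := not_le.1 hzz
      have a1 := h5 z hz
      have a2 := h5 z' hz'
      have a3 : |U n z - U n z'| ≤ |U n z| + |U n z'| := abs_sub _ _
      have a4 : M * 1 ≤ M * dist z z' := mul_le_mul_of_nonneg_left (by linarith) hM0
      have a5 : 0 ≤ C * M * dist z z' := by positivity
      linarith
  obtain ⟨ψ, W, hψ, hWc, hW⟩ := aa_loc (0 : ℝ × ℝ) (fun R => ⟨M, hUb R⟩) hUl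
  have hψt : Tendsto ψ atTop atTop := hψ.tendsto_atTop
  have hmem : ∀ z : ℝ × ℝ, z ∈ Metric.closedBall (0 : ℝ × ℝ) ‖z‖ := fun z => by
    rw [Metric.mem_closedBall, dist_zero_right]
  have hWM : ∀ z, |W z| ≤ M := by
    intro z
    refine le_of_forall_pos_le_add fun δ hδ => ?_
    obtain ⟨n, h1, h2⟩ := ((hψt.eventually (hUb ‖z‖)).and (hW ‖z‖ δ hδ)).exists
    have h3 := h1 z (hmem z)
    have h4 := abs_le.1 (h2 z (hmem z))
    have h5 := abs_le.1 h3
    rw [abs_le]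
    constructor <;> linarith [h4.1, h4.2, h5.1, h5.2]
  have hW0 : ∀ z, z ∉ Str 1 → W z = 0 := by
    intro z hz
    have hz1 : 1 ≤ |z.2| := not_lt.1 hz
    have h0 : |W z| ≤ 0 := by
      refine le_of_forall_pos_le_add fun δ hδ => ?_
      obtain ⟨n, h2⟩ := (hW ‖z‖ δ hδ).exists
      have h3 := h2 z (hmem z)
      have h4 : U (ψ n) z = 0 := by
        apply hs.zero
        intro hE
        have hE' : α (ψ n) ^ 2 * (x (ψ n) + 1 * z.1) ^ 2 + (0 + 1 * z.2) ^ 2 < 1 := hE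
        have h5 : 1 ≤ z.2 ^ 2 := by
          rw [← sq_abs]
          nlinarith
        nlinarith [mul_nonneg (sq_nonneg (α (ψ n))) (sq_nonneg (x (ψ n) + 1 * z.1))]
      rw [h4, zero_sub, abs_neg] at h3
      linarith
    exact abs_eq_zero.1 (le_antisymm h0 (abs_nonneg _))
  have hWeak : Weak W (fun z => pot1 ast z.2 * W z) (Str 1) := by
    intro η hη hηc hηs
    obtain ⟨R, hR⟩ : ∃ R : ℝ, tsupport η ⊆ Metric.closedBall (0 : ℝ × ℝ) R :=
      (Metric.isBounded_iff_subset_closedBall 0).1 hηc.isCompact.isBounded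
    obtain ⟨r, hr1, hr⟩ : ∃ r : ℝ, r < 1 ∧ ∀ z ∈ tsupport η, |z.2| < r := by
      rcases (tsupport η).eq_empty_or_nonempty with he | hne
      · exact ⟨0, one_pos, by rw [he]; simp⟩
      · obtain ⟨z0, hz0, hmax⟩ := hηc.isCompact.exists_isMaxOn hne
          (f := fun z : ℝ × ℝ => |z.2|) (by fun_prop)
        have h1 : |z0.2| < 1 := hηs hz0
        refine ⟨(1 + |z0.2|) / 2, by linarith, fun z hz => ?_⟩
        have h2 : |z.2| ≤ |z0.2| := hmax hz
        linarith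
    set D : Set (ℝ × ℝ) := {z | |z.1| < R + 1 ∧ |z.2| < r} with hD
    have hDo : IsOpen D := (isOpen_lt (f := fun z : ℝ × ℝ => |z.1|) (by fun_prop) continuous_const).inter
      (isOpen_lt (f := fun z : ℝ × ℝ => |z.2|) (by fun_prop) continuous_const)
    have hηD : tsupport η ⊆ D := fun z hz => ⟨lt_of_le_of_lt (FLDCls_ball (hR hz)).1 (by linarith), hr z hz⟩
    have hDb : ∀ z ∈ D, z ∈ Metric.closedBall (0 : ℝ × ℝ) (max (R + 1) 1) := by
      rintro z ⟨h1, h2⟩
      rw [Metric.mem_closedBall, dist_zero_right, Prod.norm_def, Real.norm_eq_abs, Real.norm_eq_abs]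
      exact max_le (h1.le.trans (le_max_left _ _)) ((h2.le.trans hr1.le).trans (le_max_right _ _))
    rcases D.eq_empty_or_nonempty with hDe | ⟨zD, hzD⟩
    · have hη0 : ∀ z, η z = 0 := by
        intro z
        by_contra hne
        have := hηD (subset_tsupport η hne)
        rw [hDe] at this
        exact this
      have hη0' : η = fun _ => 0 := funext hη0
      have hl0 : ∀ z, lap η z = 0 := by
        intro z
        rw [hη0']
        have h1 : dx (fun _ : ℝ × ℝ => (0 : ℝ)) = fun _ => 0 := by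
          funext w
          simp [dx]
        have h2 : dy (fun _ : ℝ × ℝ => (0 : ℝ)) = fun _ => 0 := by
          funext w
          simp [dy]
        unfold lap
        rw [h1, h2, h1, h2, add_zero]
      simp [hη0, hl0]
    have hr0 : 0 < r := lt_of_le_of_lt (abs_nonneg _) hzD.2
    have hev : ∀ᶠ n in atTop, ∀ z ∈ D, (x n + 1 * z.1, 0 + 1 * z.2) ∈
        Ell (α n) ∩ {p : ℝ × ℝ | √(κ n) * |p.1| < Ξ + 1} := by
      have hlim : Tendsto (fun n => (Ξ + 1) ^ 2 * κ n ^ 2) atTop (𝓝 0) := by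
        have := (hp.κ_lim.pow 2).const_mul ((Ξ + 1) ^ 2)
        simpa using this
      have hr2 : 0 < 1 - r ^ 2 := by nlinarith
      filter_upwards [hwin (R + 1), hlim.eventually (gt_mem_nhds hr2)] with n h1 h2 z hz
      have h3 : √(κ n) * |x n + 1 * z.1| < Ξ + 1 := by simpa using h1 z.1 hz.1.le
      refine ⟨?_, h3⟩
      have h4 := (hp.win (Ξ + 1)).2.1 n (x n + 1 * z.1) h3.le
      show α n ^ 2 * (x n + 1 * z.1) ^ 2 + (0 + 1 * z.2) ^ 2 < 1
      have h5 : z.2 ^ 2 ≤ r ^ 2 := by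
        rw [← sq_abs]
        exact pow_le_pow_left₀ (abs_nonneg _) hz.2.le 2
      have h6 : (0 + 1 * z.2) ^ 2 = z.2 ^ 2 := by ring
      rw [h6]
      linarith
    have hop : ∀ n, IsOpen (Ell (α n) ∩ {p : ℝ × ℝ | √(κ n) * |p.1| < Ξ + 1}) := by
      intro n
      refine IsOpen.inter ?_ (isOpen_lt (f := fun p : ℝ × ℝ => √(κ n) * |p.1|) (by fun_prop) continuous_const)
      unfold Ell
      exact isOpen_lt (by fun_prop) continuous_const
    have hall : ∀ᶠ n in atTop, (∀ z ∈ D, (x n + 1 * z.1, 0 + 1 * z.2) ∈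
        Ell (α n) ∩ {p : ℝ × ℝ | √(κ n) * |p.1| < Ξ + 1}) ∧
        ContDiffOn ℝ 2 (f n) (Ell (α n) ∩ {p : ℝ × ℝ | √(κ n) * |p.1| < Ξ + 1}) ∧
        (∀ q ∈ Ell (α n), √(κ n) * |q.1| < Ξ + 1 →
      |f n q| ≤ M ∧ |lap (f n) q| ≤ M ∧ |lap (f n) q + pot1 ast q.2 * f n q| ≤ M * κ n) :=
      hev.and ((hs.smooth (Ξ + 1)).and hM)
    obtain ⟨N, hN⟩ := eventually_atTop.1 (hψt.eventually hall)
    set u : ℕ → ℝ × ℝ → ℝ := fun k => U (ψ (k + N)) with hu
    have hN' : ∀ k, k + N ≥ N := fun k => Nat.le_add_left N k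
    have hus : ∀ k, ContDiffOn ℝ 2 (u k) D := by
      intro k
      obtain ⟨h1, h2, -⟩ := hN (k + N) (hN' k)
      refine h2.comp (f := fun z : ℝ × ℝ => (x (ψ (k + N)) + 1 * z.1, 0 + 1 * z.2)) ?_ h1
      exact (by fun_prop : ContDiff ℝ 2 (fun z : ℝ × ℝ => (x (ψ (k + N)) + 1 * z.1, 0 + 1 * z.2))).contDiffOn
    have hul : ∀ k, ∀ z ∈ D, |lap (u k) z + pot1 ast z.2 * u k z| ≤ M * κ (ψ (k + N)) := by
      intro k z hz
      obtain ⟨h1, h2, h3⟩ := hN (k + N) (hN' k)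
      have h4 := h1 z hz
      have h5 := lap_aff (f := f (ψ (k + N))) (q := z) (x (ψ (k + N))) 0 (ε₁ := 1) (ε₂ := 1) (by norm_num)
        (by norm_num) (hop (ψ (k + N))) h2 h4
      have h6 := (h3 _ h4.1 h4.2).2.2
      have h7 : lap (u k) z = lap (f (ψ (k + N))) (x (ψ (k + N)) + 1 * z.1, 0 + 1 * z.2) := h5
      rw [h7]
      have h8 : (0 : ℝ) + 1 * z.2 = z.2 := by ring
      have h9 : pot1 ast z.2 * u k z = pot1 ast (0 + 1 * z.2) *
        f (ψ (k + N)) (x (ψ (k + N)) + 1 * z.1, 0 + 1 * z.2) := by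
        rw [h8]
        show pot1 ast z.2 * f (ψ (k + N)) (x (ψ (k + N)) + 1 * z.1, 0 + 1 * z.2) = _
        rw [h8]
      rw [h9]
      exact h6
    have hkt : Tendsto (fun k => k + N) atTop atTop := tendsto_add_atTop_nat N
    have huW : ∀ δ : ℝ, 0 < δ → ∀ᶠ k in atTop, ∀ z ∈ D, |u k z - W z| ≤ δ := by
      intro δ hδ
      filter_upwards [hkt.eventually (hW (max (R + 1) 1) δ hδ)] with k hk z hz
      exact hk z (hDb z hz)
    have hκk : Tendsto (fun k => M * κ (ψ (k + N))) atTop (𝓝 0) := by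
      have := ((hp.κ_lim.comp hψt).comp hkt).const_mul M
      simpa using this
    refine weak_lim hDo (u := u) (f := fun k z => -lap (u k) z) (fun k => (hus k).continuousOn)
      (fun k => (cont_lap hDo (hus k)).neg) (fun k => weak_of_c2 hDo (hus k) fun z _ => rfl) ?_ ?_ η hη hηc hηD
    · intro K hK _
      rw [Metric.tendstoUniformlyOn_iff]
      intro δ hδ
      filter_upwards [huW (δ / 2) (by linarith)] with k hk z hz
      rw [dist_comm, Real.dist_eq]
      have := hk z (hK hz)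
      linarith
    · intro K hK _
      rw [Metric.tendstoUniformlyOn_iff]
      intro δ hδ
      filter_upwards [huW (δ / 8) (by linarith), hκk.eventually (gt_mem_nhds (show (0 : ℝ) < δ / 2 by linarith))]
        with k hk hk2 z hz
      rw [Real.dist_eq]
      have h1 := abs_le.1 (hk z (hK hz))
      have h2 := abs_le.1 (hul k z (hK hz))
      obtain ⟨c1, -, c3⟩ := cst_q z.2
      have h3 : |pot1 ast z.2 * (u k z - W z)| ≤ 25 / 8 * (δ / 8) := by
        rw [abs_mul, abs_of_pos c1]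
        exact mul_le_mul c3 (hk z (hK hz)) (abs_nonneg _) (by norm_num)
      have h4 := abs_le.1 h3
      have h5 : pot1 ast z.2 * (u k z - W z) = pot1 ast z.2 * u k z - pot1 ast z.2 * W z := by ring
      rw [h5] at h4
      rw [abs_lt]
      constructor <;> linarith [h2.1, h2.2, h4.1, h4.2]
  obtain ⟨c, hc, -⟩ := liou ast_pos le_rfl hWc hWM hW0 hWeak
  have he0 : e1 ast 0 = 1 := by simp [e1]
  have hc0 : W (0, 0) = c := by
    have := hc (0, 0) (by show |(0 : ℝ)| < 1; simp)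
    rw [this]
    show c * e1 ast 0 = c
    rw [he0, mul_one]
  have hy1 : |y₀| ≤ 1 := le_of_tendsto hy.abs (Filter.Eventually.of_forall fun n => (hq n).2)
  have hfin : W (0, y₀) - W (0, 0) * e1 ast y₀ = 0 := by
    rcases lt_or_eq_of_le hy1 with h | h
    · rw [hc (0, y₀) h, hc0, sub_self]
    · have h1 : W (0, y₀) = 0 := hW0 _ (by show ¬ |y₀| < 1; rw [h]; exact lt_irrefl _)
      have h2 : e1 ast y₀ = 0 := by
        rcases eq_or_eq_neg_of_abs_eq h with h3 | h3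
        · rw [h3]
          exact e1_ast_one
        · rw [h3, e1_even]
          exact e1_ast_one
      rw [h1, h2, mul_zero, sub_zero]
  have hyψ : Tendsto (fun n => (q (ψ n)).2) atTop (𝓝 y₀) := hy.comp hψt
  have hT1 : Tendsto (fun n => U (ψ n) (0, (q (ψ n)).2)) atTop (𝓝 (W (0, y₀))) := by
    have h1 : Tendsto (fun n => W (0, (q (ψ n)).2)) atTop (𝓝 (W (0, y₀))) :=
      (hWc.tendsto _).comp (tendsto_const_nhds.prodMk_nhds hyψ)
    have h2 : Tendsto (fun n => U (ψ n) (0, (q (ψ n)).2) - W (0, (q (ψ n)).2)) atTop (𝓝 0) := by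
      rw [Metric.tendsto_atTop']
      intro δ hδ
      obtain ⟨N, hN⟩ := eventually_atTop.1 (hW 1 (δ / 2) (by linarith))
      refine ⟨N, fun n hn => ?_⟩
      rw [Real.dist_eq, sub_zero]
      have h3 := hN n hn.le (0, (q (ψ n)).2) (by
        rw [Metric.mem_closedBall, dist_zero_right, Prod.norm_def, Real.norm_eq_abs, Real.norm_eq_abs]
        exact max_le (by simp) (hq (ψ n)).2)
      linarith
    have := h2.add h1
    simpa using this
  have hT2 : Tendsto (fun n => U (ψ n) (0, 0)) atTop (𝓝 (W (0, 0))) := by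
    rw [Metric.tendsto_atTop']
    intro δ hδ
    obtain ⟨N, hN⟩ := eventually_atTop.1 (hW 1 (δ / 2) (by linarith))
    refine ⟨N, fun n hn => ?_⟩
    rw [Real.dist_eq]
    have h3 := hN n hn.le (0, 0) (by
      rw [Metric.mem_closedBall, dist_zero_right]
      simp)
    linarith
  have hT3 : Tendsto (fun n => e1 ast (q (ψ n)).2) atTop (𝓝 (e1 ast y₀)) :=
    ((e1_smooth ast).continuous.tendsto _).comp hyψ
  have hT := (hT1.sub (hT2.mul hT3)).abs
  rw [hfin, abs_zero] at hT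
  obtain ⟨n, hn⟩ := (hT.eventually (gt_mem_nhds hε)).exists
  have h1 := hbad (ψ n)
  have h2 : U (ψ n) (0, (q (ψ n)).2) = f (ψ n) (q (ψ n)) := by
    show f (ψ n) ((q (ψ n)).1 + 1 * 0, 0 + 1 * (q (ψ n)).2) = f (ψ n) (q (ψ n))
    congr 1
    ext <;> simp
  have h3 : U (ψ n) (0, 0) = f (ψ n) ((q (ψ n)).1, 0) := by
    show f (ψ n) ((q (ψ n)).1 + 1 * 0, 0 + 1 * 0) = f (ψ n) ((q (ψ n)).1, 0)
    congr 1
    ext <;> simp
  rw [h2, h3] at hn
  linarith

theorem slow_close {α κ : ℕ → ℝ} {f : ℕ → ℝ × ℝ → ℝ} (hp : Par α κ) (hs : Slow α κ f) :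
    ∀ Ξ ε : ℝ, 0 < Ξ → 0 < ε → ∀ᶠ n in atTop, ∀ q ∈ Win (κ n) Ξ,
      |f n q - f n (q.1, 0) * e1 ast q.2| ≤ ε := by
  intro Ξ ε _ hε
  by_contra hcon
  rw [Filter.not_eventually] at hcon
  obtain ⟨φ, hφ, hφ2⟩ := Filter.extraction_of_frequently_atTop hcon
  push Not at hφ2
  choose q hq hbad using hφ2
  obtain ⟨y₀, -, φ', hφ', hlim⟩ := (isCompact_Icc (a := (-1 : ℝ)) (b := 1)).tendsto_subseq
    (x := fun n => (q n).2) (fun n => abs_le.1 (hq n).2)
  exact FLDCls_core (hp.sub (hφ.comp hφ')) (hs.sub (hφ.comp hφ')) hε (q := fun n => q (φ' n))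
    (fun n => hq (φ' n)) hlim (fun n => hbad (φ' n))

end Pool.Agent.MFE
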