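import Pool.Agent.MFE.FLDDef

/-!
# MFE.FLDCst: the critical one dimensional objects (regime C)

Notation: `e = e1 ast`, `V = V1 ast`, `q = pot1 ast`. Facts from `STA`: `e'' = -q e`, `V'' = -q`,
`e(0) = 1`, `e(±1) = 0`, `e > 0` on `(-1,1)`, even, `ast² < 25/16`.
`cst_e`: `e'' ≤ 0` on `[-1,1]`, so `e` is concave on `[0,1]`: `e ≥ 1 - |y| ≥ (1-y²)/2`; upper bound:
`e(y) = e(y) - e(1) ≤ K (1-|y|) ≤ K (1-y²)`, `K = sup_{[-1,1]} |e'|`.
`cst_V`: same (`V(0) = pst > 0`, `V(±1) = 0`).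
`cst_pst`: `log cosh a ≤ a²/2` (`Real.cosh_le_exp_half_sq`), so `pst ≤ ast² < 25/16`.
`cst_energy`: integration by parts (`e(±1) = 0`).
`cst_bd`: continuous functions on the compact interval `[-2,2]`.
`cst_exp`: `exp V = q/mu1 ast`.
-/

open scoped ContDiff

namespace Pool.Agent.MFE

private lemma cst_ast : 0 < ast ∧ 1 < ast ^ 2 ∧ ast ^ 2 < 25 / 16 := by
  have h := ast_bounds
  refine ⟨ast_pos, ?_, ?_⟩ <;> nlinarith [h.1, h.2]

private lemma cst_cont_bd {f : ℝ → ℝ} (hf : Continuous f) :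
    ∃ K : ℝ, 0 < K ∧ ∀ y : ℝ, |y| ≤ 2 → |f y| ≤ K := by
  obtain ⟨K, hK⟩ := (isCompact_Icc (a := (-2 : ℝ)) (b := 2)).exists_bound_of_continuousOn
    hf.continuousOn
  refine ⟨|K| + 1, by positivity, fun y hy => ?_⟩
  have h := hK y (abs_le.1 hy)
  rw [Real.norm_eq_abs] at h
  have := le_abs_self K
  linarith

private lemma cst_smooth' : ContDiff ℝ ∞ (pot1 ast) := by
  unfold pot1
  have h : ∀ y : ℝ, Real.cosh (ast * y) ^ 2 ≠ 0 := fun y =>
    pow_ne_zero _ (Real.cosh_pos _).ne'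
  exact contDiff_const.div ((Real.contDiff_cosh.comp (contDiff_const.mul contDiff_id)).pow 2) h

private lemma cst_d1 {f : ℝ → ℝ} (hf : ContDiff ℝ ∞ f) :
    Continuous f ∧ Continuous (deriv f) ∧ Continuous (deriv (deriv f)) ∧
    Differentiable ℝ f ∧ Differentiable ℝ (deriv f) := by
  have h1 : ContDiff ℝ ∞ (deriv f) := (contDiff_infty_iff_deriv.1 hf).2
  have h2 : ContDiff ℝ ∞ (deriv (deriv f)) := (contDiff_infty_iff_deriv.1 h1).2
  exact ⟨hf.continuous, h1.continuous, h2.continuous, hf.differentiable (by simp),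
    h1.differentiable (by simp)⟩

private lemma cst_bd' : ∃ K : ℝ, 0 < K ∧ ∀ y : ℝ, |y| ≤ 2 →
    |e1 ast y| ≤ K ∧ |deriv (e1 ast) y| ≤ K ∧ |deriv (deriv (e1 ast)) y| ≤ K ∧
    |V1 ast y| ≤ K ∧ |deriv (V1 ast) y| ≤ K ∧ |deriv (deriv (V1 ast)) y| ≤ K ∧
    |pot1 ast y| ≤ K ∧ |deriv (pot1 ast) y| ≤ K := by
  obtain ⟨he0, he1, he2, -, -⟩ := cst_d1 (e1_smooth ast)
  obtain ⟨hv0, hv1, hv2, -, -⟩ := cst_d1 (V1_smooth ast)
  obtain ⟨hp0, hp1, -, -, -⟩ := cst_d1 cst_smooth'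
  obtain ⟨K1, k1, h1⟩ := cst_cont_bd he0
  obtain ⟨K2, k2, h2⟩ := cst_cont_bd he1
  obtain ⟨K3, k3, h3⟩ := cst_cont_bd he2
  obtain ⟨K4, k4, h4⟩ := cst_cont_bd hv0
  obtain ⟨K5, k5, h5⟩ := cst_cont_bd hv1
  obtain ⟨K6, k6, h6⟩ := cst_cont_bd hv2
  obtain ⟨K7, k7, h7⟩ := cst_cont_bd hp0
  obtain ⟨K8, k8, h8⟩ := cst_cont_bd hp1
  refine ⟨K1 + K2 + K3 + K4 + K5 + K6 + K7 + K8, by positivity, fun y hy => ?_⟩
  have g1 := h1 y hy
  have g2 := h2 y hy
  have g3 := h3 y hy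
  have g4 := h4 y hy
  have g5 := h5 y hy
  have g6 := h6 y hy
  have g7 := h7 y hy
  have g8 := h8 y hy
  refine ⟨?_, ?_, ?_, ?_, ?_, ?_, ?_, ?_⟩ <;> linarith

/-- upper bound for even functions vanishing at 1 -/
private lemma cst_upper {f : ℝ → ℝ} (hf : Differentiable ℝ f) {K : ℝ} (hK : 0 < K)
    (hd : ∀ y : ℝ, |y| ≤ 2 → |deriv f y| ≤ K) (h1 : f 1 = 0) (hev : ∀ y, f (-y) = f y) :
    ∀ y : ℝ, |y| ≤ 1 → f y ≤ K * (1 - y ^ 2) := by
  intro y hy
  have h2 : f y = f |y| := by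
    rcases abs_cases y with ⟨h, -⟩ | ⟨h, -⟩
    · rw [h]
    · rw [h, hev]
  have h3 : ‖f 1 - f |y|‖ ≤ K * ‖(1 : ℝ) - |y|‖ := by
    refine Convex.norm_image_sub_le_of_norm_deriv_le (s := Set.Icc (-1 : ℝ) 1)
      (fun x _ => hf x) (fun x hx => ?_) (convex_Icc _ _) ?_ ?_
    · rw [Real.norm_eq_abs]
      exact hd x ((abs_le.2 hx).trans (by norm_num))
    · exact ⟨by linarith [abs_nonneg y], hy⟩
    · exact ⟨by norm_num, le_refl _⟩
  rw [h1, Real.norm_eq_abs, Real.norm_eq_abs, abs_of_nonneg (by linarith : 0 ≤ 1 - |y|)] at h3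
  have h4 : f |y| ≤ K * (1 - |y|) := by
    have := neg_abs_le (0 - f |y|)
    linarith
  have h5 : 1 - |y| ≤ 1 - y ^ 2 := by
    have : y ^ 2 ≤ |y| := by rw [← sq_abs]; nlinarith [abs_nonneg y]
    linarith
  rw [h2]
  exact h4.trans (mul_le_mul_of_nonneg_left h5 hK.le)

private lemma cst_half {y : ℝ} (hy : |y| ≤ 1) : (1 - y ^ 2) / 2 ≤ 1 - |y| := by
  rw [← sq_abs]
  nlinarith [abs_nonneg y]

private lemma cst_tanh {x y : ℝ} (h : x ≤ y) : Real.tanh x ≤ Real.tanh y := by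
  rw [Real.tanh_eq_sinh_div_cosh, Real.tanh_eq_sinh_div_cosh,
    div_le_div_iff₀ (Real.cosh_pos x) (Real.cosh_pos y)]
  have h1 : 0 ≤ Real.sinh (y - x) := Real.sinh_nonneg_iff.2 (by linarith)
  rw [Real.sinh_sub] at h1
  linarith

theorem cst_e : ∃ C : ℝ, 0 < C ∧ ∀ y : ℝ, |y| ≤ 1 →
    (1 - y ^ 2) / 2 ≤ e1 ast y ∧ e1 ast y ≤ C * (1 - y ^ 2) := by
  obtain ⟨K, hK, h⟩ := cst_bd'
  refine ⟨K, hK, fun y hy => ⟨?_, ?_⟩⟩
  · refine (cst_half hy).trans ?_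
    have ha := ast_pos
    have h1 : ast * y * Real.tanh (ast * y) = ast * |y| * Real.tanh (ast * |y|) := by
      rcases abs_cases y with ⟨h, -⟩ | ⟨h, -⟩
      · rw [h]
      · rw [h, mul_neg, Real.tanh_neg]; ring
    unfold e1
    rw [h1]
    have h2 : Real.tanh (ast * |y|) ≤ Real.tanh ast := cst_tanh (by nlinarith)
    have h3 : ast * |y| * Real.tanh (ast * |y|) ≤ ast * |y| * Real.tanh ast :=
      mul_le_mul_of_nonneg_left h2 (by positivity)
    have h4 : ast * |y| * Real.tanh ast = |y| := by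
      have := ast_eq
      calc ast * |y| * Real.tanh ast = |y| * (ast * Real.tanh ast) := by ring
        _ = |y| := by rw [this, mul_one]
    linarith
  · exact cst_upper ((e1_smooth ast).differentiable (by simp)) hK (fun z hz => (h z hz).2.1)
      e1_ast_one (e1_even ast) y hy

theorem cst_V : ∃ c C : ℝ, 0 < c ∧ 0 < C ∧ ∀ y : ℝ, |y| ≤ 1 →
    c * (1 - y ^ 2) ≤ V1 ast y ∧ V1 ast y ≤ C * (1 - y ^ 2) := by
  obtain ⟨K, hK, h⟩ := cst_bd'
  have hp := pst_pos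
  refine ⟨pst / 2, K, by positivity, hK, fun y hy => ⟨?_, ?_⟩⟩
  · obtain ⟨-, -, -, hd0, hd1⟩ := cst_d1 (V1_smooth ast)
    have hconc : ConcaveOn ℝ Set.univ (V1 ast) := by
      refine concaveOn_univ_of_deriv2_nonpos hd0 hd1 fun x => ?_
      show deriv (deriv (V1 ast)) x ≤ 0
      rw [V1_deriv2]
      have : 0 ≤ pot1 ast x := by unfold pot1; positivity
      linarith
    have h1 := hconc.2 (Set.mem_univ (1 : ℝ)) (Set.mem_univ (0 : ℝ)) (abs_nonneg y)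
      (by linarith : 0 ≤ 1 - |y|) (by ring)
    simp only [smul_eq_mul, mul_one, mul_zero, add_zero, V1_one, zero_add, V1_zero] at h1
    have h2 : V1 ast y = V1 ast |y| := by
      rcases abs_cases y with ⟨h, -⟩ | ⟨h, -⟩
      · rw [h]
      · rw [h, V1_even]
    have h3 := mul_le_mul_of_nonneg_right (cst_half hy) hp.le
    have h4 : (1 - |y|) * pst ≤ V1 ast y := by
      rw [h2]
      exact h1
    calc pst / 2 * (1 - y ^ 2) = (1 - y ^ 2) / 2 * pst := by ring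
      _ ≤ (1 - |y|) * pst := h3
      _ ≤ V1 ast y := h4
  · exact cst_upper ((V1_smooth ast).differentiable (by simp)) hK (fun z hz => (h z hz).2.2.2.2.1)
      (V1_one ast) (V1_even ast) y hy

theorem cst_q (y : ℝ) : 0 < pot1 ast y ∧ pot1 ast y ≤ 2 * ast ^ 2 ∧ pot1 ast y ≤ 25 / 8 := by
  obtain ⟨ha, ha1, ha2⟩ := cst_ast
  have hc : 1 ≤ Real.cosh (ast * y) ^ 2 := by
    have := Real.one_le_cosh (ast * y)
    nlinarith
  have h1 : pot1 ast y ≤ 2 * ast ^ 2 := by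
    unfold pot1
    rw [div_le_iff₀ (by linarith)]
    nlinarith
  refine ⟨?_, h1, by linarith⟩
  unfold pot1
  have := Real.cosh_pos (ast * y)
  positivity

theorem cst_pst : pst ≤ ast ^ 2 ∧ pst < 25 / 16 := by
  obtain ⟨ha, ha1, ha2⟩ := cst_ast
  have h1 : pst ≤ ast ^ 2 := by
    unfold pst
    have h2 : Real.log (Real.cosh ast) ≤ ast ^ 2 / 2 := by
      rw [Real.log_le_iff_le_exp (Real.cosh_pos _)]
      exact Real.cosh_le_exp_half_sq ast
    linarith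
  exact ⟨h1, by linarith⟩

/-- bounds for the functions and their derivatives on `[-2,2]` -/
theorem cst_bd : ∃ K : ℝ, 0 < K ∧ ∀ y : ℝ, |y| ≤ 2 →
    |e1 ast y| ≤ K ∧ |deriv (e1 ast) y| ≤ K ∧ |deriv (deriv (e1 ast)) y| ≤ K ∧
    |V1 ast y| ≤ K ∧ |deriv (V1 ast) y| ≤ K ∧ |deriv (deriv (V1 ast)) y| ≤ K ∧
    |pot1 ast y| ≤ K ∧ |deriv (pot1 ast) y| ≤ K := cst_bd'

theorem cst_smooth : ContDiff ℝ ∞ (pot1 ast) := cst_smooth'

theorem cst_energy : ∫ y in (-1 : ℝ)..1, deriv (e1 ast) y ^ 2 =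
    ∫ y in (-1 : ℝ)..1, pot1 ast y * e1 ast y ^ 2 := by
  obtain ⟨he0, he1, he2, hd0, hd1⟩ := cst_d1 (e1_smooth ast)
  have h := intervalIntegral.integral_mul_deriv_eq_deriv_mul (a := (-1 : ℝ)) (b := 1)
    (u := deriv (e1 ast)) (v := e1 ast) (u' := deriv (deriv (e1 ast))) (v' := deriv (e1 ast))
    (fun x _ => (hd1 x).hasDerivAt) (fun x _ => (hd0 x).hasDerivAt)
    (he2.intervalIntegrable _ _) (he1.intervalIntegrable _ _)
  have h1 : e1 ast (-1) = 0 := by rw [e1_even]; exact e1_ast_one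
  rw [e1_ast_one, h1, mul_zero, mul_zero, sub_zero, zero_sub, ← intervalIntegral.integral_neg] at h
  have h2 : (fun y => deriv (e1 ast) y ^ 2) = fun y => deriv (e1 ast) y * deriv (e1 ast) y := by
    funext y; ring
  have h3 : (fun y => pot1 ast y * e1 ast y ^ 2)
      = fun y => -(deriv (deriv (e1 ast)) y * e1 ast y) := by
    funext y; rw [e1_deriv2]; ring
  rw [h2, h3]
  exact h

theorem cst_exp (y : ℝ) : Real.exp (V1 ast y) = pot1 ast y / mu1 ast := by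
  rw [← pot1_eq, mul_div_cancel_left₀ _ (mu1_pos ast_pos).ne']

private lemma cst_e_pos {y : ℝ} (hy : y ∈ Set.Ioo (-1 : ℝ) 1) : 0 < e1 ast y :=
  e1_ast_pos (abs_lt.2 hy)

private lemma cst_int_pos {f : ℝ → ℝ} (hf : Continuous f)
    (h : ∀ y ∈ Set.Ioo (-1 : ℝ) 1, 0 < f y) : 0 < ∫ y in (-1 : ℝ)..1, f y :=
  intervalIntegral.intervalIntegral_pos_of_pos_on (hf.intervalIntegrable _ _) h (by norm_num)

theorem cE_pos : 0 < cE := by
  unfold cE
  exact cst_int_pos ((e1_smooth ast).continuous.pow 2) fun y hy => pow_pos (cst_e_pos hy) 2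

theorem cQ1_pos : 0 < cQ1 := by
  unfold cQ1
  exact cst_int_pos (cst_smooth.continuous.mul (e1_smooth ast).continuous) fun y hy =>
    mul_pos (cst_q y).1 (cst_e_pos hy)

theorem cQ3_pos : 0 < cQ3 := by
  unfold cQ3
  exact cst_int_pos (cst_smooth.continuous.mul ((e1_smooth ast).continuous.pow 3)) fun y hy =>
    mul_pos (cst_q y).1 (pow_pos (cst_e_pos hy) 3)

theorem cV_pos : 0 < cV := by
  unfold cV
  exact cst_int_pos ((Real.continuous_exp.comp (V1_smooth ast).continuous).mul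
    (e1_smooth ast).continuous) fun y hy => mul_pos (Real.exp_pos _) (cst_e_pos hy)

end Pool.Agent.MFE
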