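import Mathlib

/-!
# MFE.FLDDbr: the du Bois-Reymond lemma of second order (Mathlib only)

`W`, `G` continuous, `∫ W χ'' = ∫ G χ` for all `χ ∈ C_c^∞(ℝ)` implies `W ∈ C²`, `W'' = G`.
Proof. Let `P(x) = ∫_0^x ∫_0^s G` (`C²`, `P'' = G`); integration by parts: `∫ P χ'' = ∫ G χ`. So
`D = W - P` is continuous and `∫ D χ'' = 0` for all `χ ∈ C_c^∞`. The mollifications `D_ε` of `D` satisfy
`D_ε'' = 0`, so `D_ε(x) = D_ε(0) + x (D_ε(1) - D_ε(0))`, and the same for the limit `D`.
-/

open scoped ContDiff

namespace Pool.Agent.MFE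

open MeasureTheory Filter Topology in
private theorem FLDDbr_affine {D : ℝ → ℝ} (hD : Continuous D)
    (h : ∀ χ : ℝ → ℝ, ContDiff ℝ ∞ χ → HasCompactSupport χ → ∫ x, D x * deriv (deriv χ) x = 0)
    (x : ℝ) : D x = D 0 + x * (D 1 - D 0) := by
  let φ : ℕ → ContDiffBump (0 : ℝ) := fun n => ⟨((n : ℝ) + 1)⁻¹ / 2, ((n : ℝ) + 1)⁻¹, by positivity, by
    have : (0 : ℝ) < ((n : ℝ) + 1)⁻¹ := by positivity
    linarith⟩
  have hφ : Tendsto (fun n => (φ n).rOut) atTop (𝓝 0) := by
    show Tendsto (fun n : ℕ => ((n : ℝ) + 1)⁻¹) atTop (𝓝 0)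
    simpa using tendsto_one_div_add_atTop_nhds_zero_nat (𝕜 := ℝ)
  have hlim : ∀ y, Tendsto (fun n => (convolution ((φ n).normed volume) D
      (ContinuousLinearMap.lsmul ℝ ℝ) volume) y) atTop (𝓝 (D y)) := fun y =>
    ContDiffBump.convolution_tendsto_right_of_continuous hφ hD y
  have key : ∀ n, (convolution ((φ n).normed volume) D (ContinuousLinearMap.lsmul ℝ ℝ) volume) x =
      (convolution ((φ n).normed volume) D (ContinuousLinearMap.lsmul ℝ ℝ) volume) 0 +
      x * ((convolution ((φ n).normed volume) D (ContinuousLinearMap.lsmul ℝ ℝ) volume) 1 -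
      (convolution ((φ n).normed volume) D (ContinuousLinearMap.lsmul ℝ ℝ) volume) 0) := by
    intro n
    set g : ℝ → ℝ := (φ n).normed volume with hg
    have hgs : ContDiff ℝ ∞ g := (φ n).contDiff_normed
    have hgc : HasCompactSupport g := (φ n).hasCompactSupport_normed
    have hg1s : ContDiff ℝ ∞ (deriv g) := (contDiff_infty_iff_deriv.1 hgs).2
    have hg1c : HasCompactSupport (deriv g) := hgc.deriv
    have hDl : LocallyIntegrable D volume := hD.locallyIntegrable
    have d1 : ∀ y, HasDerivAt (convolution g D (ContinuousLinearMap.lsmul ℝ ℝ) volume)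
        ((convolution (deriv g) D (ContinuousLinearMap.lsmul ℝ ℝ) volume) y) y := fun y =>
      HasCompactSupport.hasDerivAt_convolution_left _ hgc (hgs.of_le (by exact_mod_cast le_top)) hDl y
    have d2 : ∀ y, HasDerivAt (convolution (deriv g) D (ContinuousLinearMap.lsmul ℝ ℝ) volume)
        ((convolution (deriv (deriv g)) D (ContinuousLinearMap.lsmul ℝ ℝ) volume) y) y := fun y =>
      HasCompactSupport.hasDerivAt_convolution_left _ hg1c (hg1s.of_le (by exact_mod_cast le_top)) hDl y
    have d3 : ∀ y, (convolution (deriv (deriv g)) D (ContinuousLinearMap.lsmul ℝ ℝ) volume) y = 0 := by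
      intro y
      rw [convolution_eq_swap]
      have hχ : ContDiff ℝ ∞ (fun s => g (y - s)) := hgs.comp (contDiff_const.sub contDiff_id)
      have hχc : HasCompactSupport (fun s => g (y - s)) :=
        hgc.comp_homeomorph (Homeomorph.subLeft y)
      have := h _ hχ hχc
      rw [← this]
      refine integral_congr_ae (Filter.Eventually.of_forall fun s => ?_)
      have e1 : deriv (fun s => g (y - s)) = fun s => -deriv g (y - s) := by
        funext s
        exact deriv_comp_const_sub _ _ _
      have e2 : deriv (deriv (fun s => g (y - s))) s = deriv (deriv g) (y - s) := by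
        rw [e1, deriv.fun_neg, deriv_comp_const_sub, neg_neg]
      show deriv (deriv g) (y - s) • D s = D s * deriv (deriv (fun s => g (y - s))) s
      rw [e2, smul_eq_mul, mul_comm]
    have c1 : ∀ y, (convolution (deriv g) D (ContinuousLinearMap.lsmul ℝ ℝ) volume) y =
        (convolution (deriv g) D (ContinuousLinearMap.lsmul ℝ ℝ) volume) 0 := by
      intro y
      refine is_const_of_deriv_eq_zero (fun z => (d2 z).differentiableAt) (fun z => ?_) y 0
      rw [(d2 z).deriv, d3]
    set c := (convolution (deriv g) D (ContinuousLinearMap.lsmul ℝ ℝ) volume) 0 with hc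
    set F := convolution g D (ContinuousLinearMap.lsmul ℝ ℝ) volume with hF
    have hF' : ∀ y, F y - c * y = F 0 := by
      intro y
      have : F y - c * y = F 0 - c * 0 := by
        refine is_const_of_deriv_eq_zero (f := fun y => F y - c * y)
          (fun z => ((d1 z).sub ((hasDerivAt_id z).const_mul c)).differentiableAt) (fun z => ?_) y 0
        have := ((d1 z).sub ((hasDerivAt_id z).const_mul c)).deriv
        rw [c1 z, mul_one, sub_self] at this
        exact this
      rw [this, mul_zero, sub_zero]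
    have h1 := hF' x
    have h2 := hF' 1
    linear_combination h1 - x * h2
  have l1 := hlim x
  have l2 := (hlim 0).add (((hlim 1).sub (hlim 0)).const_mul x)
  exact tendsto_nhds_unique l1 (l2.congr fun n => (key n).symm)

open MeasureTheory in
theorem dubois {W G : ℝ → ℝ} (hW : Continuous W) (hG : Continuous G)
    (h : ∀ χ : ℝ → ℝ, ContDiff ℝ ∞ χ → HasCompactSupport χ →
      ∫ x, W x * deriv (deriv χ) x = ∫ x, G x * χ x) :
    ContDiff ℝ 2 W ∧ ∀ x, deriv (deriv W) x = G x := by
  set g1 : ℝ → ℝ := fun x => ∫ t in (0 : ℝ)..x, G t with hg1def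
  have hg1 : ∀ x, HasDerivAt g1 (G x) x := fun x => (hG.integral_hasStrictDerivAt 0 x).hasDerivAt
  have hg1c : Continuous g1 := continuous_iff_continuousAt.2 fun x => (hg1 x).continuousAt
  set P : ℝ → ℝ := fun x => ∫ t in (0 : ℝ)..x, g1 t with hPdef
  have hP : ∀ x, HasDerivAt P (g1 x) x := fun x => (hg1c.integral_hasStrictDerivAt 0 x).hasDerivAt
  have hPc : Continuous P := continuous_iff_continuousAt.2 fun x => (hP x).continuousAt
  have hD : ∀ χ : ℝ → ℝ, ContDiff ℝ ∞ χ → HasCompactSupport χ →
      ∫ x, (W x - P x) * deriv (deriv χ) x = 0 := by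
    intro χ hχ hχc
    have s1 : ContDiff ℝ ∞ (deriv χ) := (contDiff_infty_iff_deriv.1 hχ).2
    have s2 : ContDiff ℝ ∞ (deriv (deriv χ)) := (contDiff_infty_iff_deriv.1 s1).2
    have v1 : ∀ x, HasDerivAt χ (deriv χ x) x := fun x =>
      ((contDiff_infty_iff_deriv.1 hχ).1 x).hasDerivAt
    have v2 : ∀ x, HasDerivAt (deriv χ) (deriv (deriv χ) x) x := fun x =>
      ((contDiff_infty_iff_deriv.1 s1).1 x).hasDerivAt
    have i1 : ∀ {f : ℝ → ℝ}, Continuous f → Integrable (fun x => f x * deriv (deriv χ) x) := fun hf =>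
      (hf.mul s2.continuous).integrable_of_hasCompactSupport hχc.deriv.deriv.mul_left
    have i2 : ∀ {f : ℝ → ℝ}, Continuous f → Integrable (fun x => f x * deriv χ x) := fun hf =>
      (hf.mul s1.continuous).integrable_of_hasCompactSupport hχc.deriv.mul_left
    have i3 : ∀ {f : ℝ → ℝ}, Continuous f → Integrable (fun x => f x * χ x) := fun hf =>
      (hf.mul hχ.continuous).integrable_of_hasCompactSupport hχc.mul_left
    have p1 : ∫ x, P x * deriv (deriv χ) x = -∫ x, g1 x * deriv χ x :=
      integral_mul_deriv_eq_deriv_mul_of_integrable (fun x _ => hP x) (fun x _ => v2 x) (i1 hPc) (i2 hg1c) (i2 hPc)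
    have p2 : ∫ x, g1 x * deriv χ x = -∫ x, G x * χ x :=
      integral_mul_deriv_eq_deriv_mul_of_integrable (fun x _ => hg1 x) (fun x _ => v1 x) (i2 hg1c) (i3 hG) (i3 hg1c)
    have : (fun x => (W x - P x) * deriv (deriv χ) x) =
        fun x => W x * deriv (deriv χ) x - P x * deriv (deriv χ) x := by
      funext x
      ring
    rw [this, integral_sub (i1 hW) (i1 hPc), h χ hχ hχc, p1, p2, neg_neg, sub_self]
  have haff := FLDDbr_affine (hW.sub hPc) hD
  set c0 := W 0 - P 0 with hc0
  set c1 := (W 1 - P 1) - (W 0 - P 0) with hc1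
  have hWe : ∀ x, W x = P x + (c0 + x * c1) := by
    intro x
    have := haff x
    simp only [Pi.sub_apply] at this
    linarith
  have dW : ∀ x, HasDerivAt W (g1 x + c1) x := by
    intro x
    have h1 : HasDerivAt (fun x => P x + (c0 + x * c1)) (g1 x + c1) x := by
      have h2 : HasDerivAt (fun x => c0 + x * c1) c1 x := by
        simpa using ((hasDerivAt_id x).mul_const c1).const_add c0
      exact (hP x).add h2
    exact h1.congr_of_eventuallyEq (Filter.Eventually.of_forall hWe)
  have hdW : deriv W = fun x => g1 x + c1 := funext fun x => (dW x).deriv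
  have d2W : ∀ x, HasDerivAt (fun x => g1 x + c1) (G x) x := fun x => (hg1 x).add_const c1
  refine ⟨?_, fun x => by rw [hdW, (d2W x).deriv]⟩
  rw [show (2 : WithTop ℕ∞) = 1 + 1 by norm_num, contDiff_succ_iff_deriv]
  refine ⟨fun x => (dW x).differentiableAt, by simp, ?_⟩
  rw [hdW, contDiff_one_iff_deriv]
  refine ⟨fun x => (d2W x).differentiableAt, ?_⟩
  have : deriv (fun x => g1 x + c1) = G := funext fun x => (d2W x).deriv
  rw [this]
  exact hG

end Pool.Agent.MFE
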