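import Pool.Agent.MFE.STA

/-!
# MFE.FLDDef: regime C (amplitudes near the critical amplitude `pst`): definitions, no proofs

Throughout `V1 ast`, `pot1 ast`, `e1 ast`, `mu1 ast` are the critical one dimensional objects
(`-e1'' = pot1 e1`, `e1 ast 1 = 0`), `κ > 0` is the small parameter, `x` is of size `1/√κ`,
`ξ = √κ x` is the slow variable.
-/

open Filter Topology
open scoped ContDiff

namespace Pool.Agent.MFE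

/-- local half height of the ellipse -/
noncomputable def hE (α x : ℝ) : ℝ := √(1 - α ^ 2 * x ^ 2)

/-- normalised height -/
noncomputable def YE (α : ℝ) (q : ℝ × ℝ) : ℝ := q.2 / hE α q.1

/-- the constants of the reduced equation -/
noncomputable def cE : ℝ := ∫ y in (-1 : ℝ)..1, e1 ast y ^ 2

noncomputable def cQ1 : ℝ := ∫ y in (-1 : ℝ)..1, pot1 ast y * e1 ast y

noncomputable def cQ3 : ℝ := ∫ y in (-1 : ℝ)..1, pot1 ast y * e1 ast y ^ 3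

noncomputable def cV : ℝ := ∫ y in (-1 : ℝ)..1, Real.exp (V1 ast y) * e1 ast y

/-- the window `|ξ| ≤ Ξ` -/
def Win (κ Ξ : ℝ) : Set (ℝ × ℝ) := {q | √κ * |q.1| ≤ Ξ ∧ |q.2| ≤ 1}

/-- the parameters -/
structure Par (α κ : ℕ → ℝ) : Prop where
  α_pos : ∀ n, 0 < α n
  α_le : ∀ n, α n ≤ 1
  κ_pos : ∀ n, 0 < κ n
  κ_lim : Tendsto κ atTop (𝓝 0)
  hα : ∀ n, α n ^ 2 ≤ κ n ^ 3

/-- solutions near the fold -/
structure Fold (α μ κ : ℕ → ℝ) (v : ℕ → ℝ × ℝ → ℝ) : Prop where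
  par : Par α κ
  sol : ∀ n, GSol (α n) (μ n) (v n)
  hμ : ∀ n, |μ n - mu1 ast| ≤ κ n ^ 2
  h0 : ∀ n y, |y| ≤ 1 → |v n (0, y) - V1 ast y| ≤ κ n

/-- uniform convergence `f n → W(ξ) e1(y)` on every window -/
def ScalLim (κ : ℕ → ℝ) (f : ℕ → ℝ × ℝ → ℝ) (W : ℝ → ℝ) : Prop :=
  ∀ Ξ ε : ℝ, 0 < Ξ → 0 < ε → ∀ᶠ n in atTop, ∀ q ∈ Win (κ n) Ξ,
    |f n q - W (√(κ n) * q.1) * e1 ast q.2| ≤ ε

/-- slowly varying approximate solutions of `-Δf = pot1 f` on the windows -/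
structure Slow (α κ : ℕ → ℝ) (f : ℕ → ℝ × ℝ → ℝ) : Prop where
  zero : ∀ n q, q ∉ Ell (α n) → f n q = 0
  cont : ∀ Ξ : ℝ, ∀ᶠ n in atTop, ContinuousOn (f n) {q | √(κ n) * |q.1| ≤ Ξ}
  smooth : ∀ Ξ : ℝ, ∀ᶠ n in atTop,
    ContDiffOn ℝ 2 (f n) (Ell (α n) ∩ {q | √(κ n) * |q.1| < Ξ})
  bound : ∀ Ξ : ℝ, ∃ M : ℝ, ∀ᶠ n in atTop, ∀ q ∈ Ell (α n), √(κ n) * |q.1| < Ξ →
    |f n q| ≤ M ∧ |lap (f n) q + pot1 ast q.2 * f n q| ≤ M * κ n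

open Classical in
/-- `(v - V1 ast Y)/κ` in the ellipse -/
noncomputable def uY (α κ : ℝ) (v : ℝ × ℝ → ℝ) (q : ℝ × ℝ) : ℝ :=
  if q ∈ Ell α then (v q - V1 ast (YE α q)) / κ else 0

/-- `(v - V1 ast y)/κ` -/
noncomputable def uy (κ : ℝ) (v : ℝ × ℝ → ℝ) (q : ℝ × ℝ) : ℝ := (v q - V1 ast q.2) / κ

/-- the limit equation -/
structure WLim (c s ρ : ℝ) (W : ℝ → ℝ) : Prop where
  c_pos : 0 < c
  ρ_nonneg : 0 ≤ ρ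
  smooth : ContDiff ℝ 2 W
  even : ∀ ξ, W (-ξ) = W ξ
  anti : AntitoneOn W (Set.Ici 0)
  ode : ∀ ξ, deriv (deriv W) ξ = s + ρ * ξ ^ 2 - c * W ξ ^ 2
  growth : ∃ C : ℝ, ∀ ξ, |W ξ| ≤ C * (1 + |ξ|)
  stable : ∀ f : ℝ → ℝ, ContDiff ℝ ∞ f → HasCompactSupport f → tsupport f ⊆ Set.Ioi 0 →
    2 * c * ∫ ξ, W ξ * f ξ ^ 2 ≤ ∫ ξ, deriv f ξ ^ 2
  ne : W 0 ≠ 0 ∨ ρ ≠ 0 ∨ s ≠ 0

end Pool.Agent.MFE
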