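import Pool.Agent.MFE.FLDDef

/-!
# MFE.FLDDef2: the limit of the normalised critical directions (regime C), definition
-/

open Filter Topology
open scoped ContDiff

namespace Pool.Agent.MFE

/-- the one dimensional limit of the normalised critical directions -/
structure ALim (c τ : ℝ) (W A : ℝ → ℝ) : Prop where
  smooth : ContDiff ℝ 2 A
  even : ∀ ξ, A (-ξ) = A ξ
  ode : ∀ ξ, deriv (deriv A) ξ = -(2 * c) * W ξ * A ξ + τ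
  τ_nonneg : 0 ≤ τ
  bdd : ∃ C γ : ℝ, 0 < C ∧ 0 < γ ∧
    (∀ ξ, A ξ ≤ C * Real.exp (-(γ * |ξ|)) ∧ -A ξ ≤ C * Real.exp (-(γ * |ξ|)) + C * τ) ∧
    ∀ Ξ : ℝ, 0 ≤ Ξ → -(C * Real.exp (-(γ * Ξ))) ≤ ∫ ξ in (-Ξ)..Ξ, A ξ
  ne : τ = 0 → ∃ ξ, A ξ ≠ 0

end Pool.Agent.MFE
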