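import Mathlib

/-!
# MFE.FLDEq: a function whose weak second derivative is small is Lipschitz (Mathlib only)

`b` continuous on `[z-2ℓ, z+2ℓ]`, `|b| ≤ M` there, `I = (z-2ℓ, z+2ℓ)`, and for every
smooth `χ` with compact support in `I`: `|∫ b χ''| ≤ N ∫|χ| + N' ∫|χ'|`. Then
`|b(x') - b(x)| ≤ (4ℓN + 2N' + C M/ℓ) |x' - x|` for `x, x' ∈ [z-ℓ, z+ℓ]`.
Proof. `ρ_r(y) = θ(y/r)/r` for a bump `θ` with integral `1` and support in `[-1,1]`, `H_r` its primitive
(`0` for `y ≤ -r`, `1` for `y ≥ r`), `K_r` the primitive of `H_r` (`0` for `y ≤ -r`). Test function: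
`χ(y) = K_δ(y-x') - K_δ(y-x) + (x'-x) H_ℓ(y-z)`, with support in `[z-ℓ-δ, z+ℓ+δ]`, `|χ| ≤ x'-x`,
`∫|χ'| ≤ 2(x'-x)`, `χ'' = ρ_δ(·-x') - ρ_δ(·-x) + (x'-x)ρ_ℓ'(·-z)`; let `δ → 0`.
-/

open Filter Topology
open scoped ContDiff

namespace Pool.Agent.MFE

private noncomputable def FLDEq_th : ContDiffBump (0 : ℝ) := ⟨1 / 2, 1, by norm_num, by norm_num⟩

private noncomputable def FLDEq_t (y : ℝ) : ℝ := FLDEq_th.normed MeasureTheory.volume y

private noncomputable def FLDEq_rho (r y : ℝ) : ℝ := r⁻¹ * FLDEq_t (r⁻¹ * y)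

private theorem FLDEq_t_smooth : ContDiff ℝ ∞ FLDEq_t := FLDEq_th.contDiff_normed

private theorem FLDEq_t_nonneg (y : ℝ) : 0 ≤ FLDEq_t y := FLDEq_th.nonneg_normed y

private theorem FLDEq_t_zero {y : ℝ} (hy : 1 ≤ |y|) : FLDEq_t y = 0 := by
  have h := FLDEq_th.support_normed_eq (μ := MeasureTheory.volume)
  by_contra hne
  have : y ∈ Function.support (FLDEq_th.normed MeasureTheory.volume) := hne
  rw [h, Metric.mem_ball, Real.dist_eq, sub_zero] at this
  exact absurd this (not_lt.2 hy)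

private theorem FLDEq_t_int : ∫ y, FLDEq_t y = 1 := FLDEq_th.integral_normed

private theorem FLDEq_rho_smooth (r : ℝ) : ContDiff ℝ ∞ (FLDEq_rho r) :=
  contDiff_const.mul (FLDEq_t_smooth.comp (contDiff_const.mul contDiff_id))

private theorem FLDEq_rho_nonneg {r : ℝ} (hr : 0 < r) (y : ℝ) : 0 ≤ FLDEq_rho r y :=
  mul_nonneg (inv_nonneg.2 hr.le) (FLDEq_t_nonneg _)

private theorem FLDEq_rho_zero {r : ℝ} (hr : 0 < r) {y : ℝ} (hy : r ≤ |y|) : FLDEq_rho r y = 0 := by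
  unfold FLDEq_rho
  rw [FLDEq_t_zero, mul_zero]
  rw [abs_mul, abs_of_pos (inv_pos.2 hr), ← div_eq_inv_mul]
  exact (one_le_div hr).2 hy

private theorem FLDEq_rho_int {r : ℝ} (hr : 0 < r) : ∫ y, FLDEq_rho r y = 1 := by
  unfold FLDEq_rho
  rw [MeasureTheory.integral_const_mul, MeasureTheory.Measure.integral_comp_mul_left, FLDEq_t_int, inv_inv,
    abs_of_pos hr, smul_eq_mul, mul_one, inv_mul_cancel₀ hr.ne']

private theorem FLDEq_rho_hcs {r : ℝ} (hr : 0 < r) : HasCompactSupport (FLDEq_rho r) := by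
  refine HasCompactSupport.intro (K := Set.Icc (-r) r) isCompact_Icc fun y hy => ?_
  apply FLDEq_rho_zero hr
  by_contra hc
  exact hy (abs_le.1 (not_le.1 hc).le)

private theorem FLDEq_rho_deriv (r y : ℝ) :
    deriv (FLDEq_rho r) y = r⁻¹ * (r⁻¹ * deriv FLDEq_t (r⁻¹ * y)) := by
  have h1 : HasDerivAt FLDEq_t (deriv FLDEq_t (r⁻¹ * y)) (r⁻¹ * y) :=
    ((contDiff_infty_iff_deriv.1 FLDEq_t_smooth).1 _).hasDerivAt
  have h2 : HasDerivAt (fun y : ℝ => r⁻¹ * y) r⁻¹ y := by simpa using (hasDerivAt_id y).const_mul r⁻¹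
  have h3 := (h1.comp y h2).const_mul r⁻¹
  rw [show FLDEq_rho r = fun y => r⁻¹ * (FLDEq_t ∘ fun y => r⁻¹ * y) y from rfl, h3.deriv]
  ring

private theorem FLDEq_rho_deriv_int {r : ℝ} (hr : 0 < r) :
    ∫ y, |deriv (FLDEq_rho r) y| = (∫ y, |deriv FLDEq_t y|) / r := by
  have h1 : (fun y => |deriv (FLDEq_rho r) y|) = fun y => r⁻¹ * (r⁻¹ * |deriv FLDEq_t (r⁻¹ * y)|) := by
    funext y
    rw [FLDEq_rho_deriv, abs_mul, abs_mul, abs_of_pos (inv_pos.2 hr)]
  rw [h1, MeasureTheory.integral_const_mul, MeasureTheory.integral_const_mul,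
    MeasureTheory.Measure.integral_comp_mul_left (fun y => |deriv FLDEq_t y|) r⁻¹, inv_inv,
    abs_of_pos hr, smul_eq_mul]
  field_simp

/-- the primitive -/
private noncomputable def FLDEq_H (r y : ℝ) : ℝ := ∫ s in (-r)..y, FLDEq_rho r s

private noncomputable def FLDEq_K (r y : ℝ) : ℝ := ∫ s in (-r)..y, FLDEq_H r s

private theorem FLDEq_H_deriv (r y : ℝ) : HasDerivAt (FLDEq_H r) (FLDEq_rho r y) y :=
  ((FLDEq_rho_smooth r).continuous.integral_hasStrictDerivAt (-r) y).hasDerivAt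

private theorem FLDEq_H_cont (r : ℝ) : Continuous (FLDEq_H r) :=
  continuous_iff_continuousAt.2 fun y => (FLDEq_H_deriv r y).continuousAt

private theorem FLDEq_K_deriv (r y : ℝ) : HasDerivAt (FLDEq_K r) (FLDEq_H r y) y :=
  ((FLDEq_H_cont r).integral_hasStrictDerivAt (-r) y).hasDerivAt

private theorem FLDEq_H_smooth (r : ℝ) : ContDiff ℝ ∞ (FLDEq_H r) := by
  rw [contDiff_infty_iff_deriv]
  refine ⟨fun y => (FLDEq_H_deriv r y).differentiableAt, ?_⟩
  rw [show deriv (FLDEq_H r) = FLDEq_rho r from funext fun y => (FLDEq_H_deriv r y).deriv]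
  exact FLDEq_rho_smooth r

private theorem FLDEq_K_smooth (r : ℝ) : ContDiff ℝ ∞ (FLDEq_K r) := by
  rw [contDiff_infty_iff_deriv]
  refine ⟨fun y => (FLDEq_K_deriv r y).differentiableAt, ?_⟩
  rw [show deriv (FLDEq_K r) = FLDEq_H r from funext fun y => (FLDEq_K_deriv r y).deriv]
  exact FLDEq_H_smooth r

private theorem FLDEq_H_zero {r : ℝ} (hr : 0 < r) {y : ℝ} (hy : y ≤ -r) : FLDEq_H r y = 0 := by
  unfold FLDEq_H
  rw [intervalIntegral.integral_congr (g := fun _ => (0 : ℝ)), intervalIntegral.integral_zero]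
  intro s hs
  rw [Set.uIcc_of_ge hy] at hs
  exact FLDEq_rho_zero hr (le_abs.2 (Or.inr (by linarith [hs.2])))

private theorem FLDEq_H_one {r : ℝ} (hr : 0 < r) {y : ℝ} (hy : r ≤ y) : FLDEq_H r y = 1 := by
  unfold FLDEq_H
  rw [intervalIntegral.integral_eq_integral_of_support_subset, FLDEq_rho_int hr]
  intro s hs
  have : |s| < r := by
    by_contra hc
    exact hs (FLDEq_rho_zero hr (not_lt.1 hc))
  have := abs_lt.1 this
  exact ⟨this.1, by linarith⟩

private theorem FLDEq_H_mono {r : ℝ} (hr : 0 < r) : Monotone (FLDEq_H r) :=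
  monotone_of_deriv_nonneg (fun y => (FLDEq_H_deriv r y).differentiableAt) fun y => by
    rw [(FLDEq_H_deriv r y).deriv]
    exact FLDEq_rho_nonneg hr y

private theorem FLDEq_H_nonneg {r : ℝ} (hr : 0 < r) (y : ℝ) : 0 ≤ FLDEq_H r y := by
  rw [← FLDEq_H_zero hr (min_le_right y (-r))]
  exact FLDEq_H_mono hr (min_le_left _ _)

private theorem FLDEq_H_le_one {r : ℝ} (hr : 0 < r) (y : ℝ) : FLDEq_H r y ≤ 1 := by
  rw [← FLDEq_H_one hr (le_max_right y r)]
  exact FLDEq_H_mono hr (le_max_left _ _)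

private theorem FLDEq_K_zero {r : ℝ} (hr : 0 < r) {y : ℝ} (hy : y ≤ -r) : FLDEq_K r y = 0 := by
  unfold FLDEq_K
  rw [intervalIntegral.integral_congr (g := fun _ => (0 : ℝ)), intervalIntegral.integral_zero]
  intro s hs
  rw [Set.uIcc_of_ge hy] at hs
  exact FLDEq_H_zero hr hs.2

private theorem FLDEq_K_mono {r : ℝ} (hr : 0 < r) : Monotone (FLDEq_K r) :=
  monotone_of_deriv_nonneg (fun y => (FLDEq_K_deriv r y).differentiableAt) fun y => by
    rw [(FLDEq_K_deriv r y).deriv]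
    exact FLDEq_H_nonneg hr y

private theorem FLDEq_K_sub_le {r : ℝ} (hr : 0 < r) {y y' : ℝ} (h : y ≤ y') :
    FLDEq_K r y' - FLDEq_K r y ≤ y' - y := by
  have hm : Monotone (fun y => y - FLDEq_K r y) :=
    monotone_of_deriv_nonneg (fun y => ((hasDerivAt_id y).sub (FLDEq_K_deriv r y)).differentiableAt)
      fun y => by
        have : deriv (fun y => y - FLDEq_K r y) y = 1 - FLDEq_H r y :=
          ((hasDerivAt_id y).sub (FLDEq_K_deriv r y)).deriv
        rw [this]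
        linarith [FLDEq_H_le_one hr y]
  have := hm h
  simp only at this
  linarith

private theorem FLDEq_K_sub {r : ℝ} (hr : 0 < r) {y y' : ℝ} (h : r ≤ y) (h' : r ≤ y') :
    FLDEq_K r y' - FLDEq_K r y = y' - y := by
  unfold FLDEq_K
  rw [intervalIntegral.integral_interval_sub_left ((FLDEq_H_cont r).intervalIntegrable _ _)
    ((FLDEq_H_cont r).intervalIntegrable _ _)]
  rw [intervalIntegral.integral_congr (g := fun _ => (1 : ℝ))]
  · simp
  · intro s hs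
    refine FLDEq_H_one hr (le_trans (le_min h h') hs.1)

open MeasureTheory in
private theorem FLDEq_moll {b : ℝ → ℝ} (hb : Continuous b) (x ε : ℝ) (hε : 0 < ε) :
    ∃ δ₀ : ℝ, 0 < δ₀ ∧ ∀ δ : ℝ, 0 < δ → δ ≤ δ₀ → |(∫ y, b y * FLDEq_rho δ (y - x)) - b x| ≤ ε := by
  obtain ⟨δ₀, hδ₀, h0⟩ := Metric.continuousAt_iff.1 (hb.continuousAt (x := x)) ε hε
  refine ⟨δ₀, hδ₀, fun δ hδ hδδ => ?_⟩
  have hc : Continuous (fun y => FLDEq_rho δ (y - x)) :=
    (FLDEq_rho_smooth δ).continuous.comp (continuous_id.sub continuous_const)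
  have hcs : HasCompactSupport (fun y => FLDEq_rho δ (y - x)) :=
    (FLDEq_rho_hcs hδ).comp_homeomorph (Homeomorph.subRight x)
  have hint : ∀ {f : ℝ → ℝ}, Continuous f → Integrable (fun y => f y * FLDEq_rho δ (y - x)) := fun hf =>
    (hf.mul hc).integrable_of_hasCompactSupport hcs.mul_left
  have h1 : ∫ y, FLDEq_rho δ (y - x) = 1 := by
    rw [integral_sub_right_eq_self (fun y => FLDEq_rho δ y) x]
    exact FLDEq_rho_int hδ
  have h2 : (∫ y, b y * FLDEq_rho δ (y - x)) - b x = ∫ y, (b y - b x) * FLDEq_rho δ (y - x) := by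
    have : (fun y => (b y - b x) * FLDEq_rho δ (y - x)) =
        fun y => b y * FLDEq_rho δ (y - x) - b x * FLDEq_rho δ (y - x) := by
      funext y
      ring
    rw [this, integral_sub (hint hb) (hint continuous_const), integral_const_mul, h1, mul_one]
  rw [h2, ← Real.norm_eq_abs]
  refine (norm_integral_le_integral_norm _).trans ?_
  have h3 : ∫ y, ‖(b y - b x) * FLDEq_rho δ (y - x)‖ ≤ ∫ y, ε * FLDEq_rho δ (y - x) := by
    refine integral_mono (hint (hb.sub continuous_const)).norm (hint continuous_const) fun y => ?_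
    show ‖(b y - b x) * FLDEq_rho δ (y - x)‖ ≤ ε * FLDEq_rho δ (y - x)
    rw [norm_mul, Real.norm_eq_abs, Real.norm_eq_abs, abs_of_nonneg (FLDEq_rho_nonneg hδ _)]
    by_cases hy : δ ≤ |y - x|
    · rw [FLDEq_rho_zero hδ hy, mul_zero, mul_zero]
    · refine mul_le_mul_of_nonneg_right ?_ (FLDEq_rho_nonneg hδ _)
      have := h0 (show dist y x < δ₀ by rw [Real.dist_eq]; exact lt_of_lt_of_le (not_le.1 hy) hδδ)
      rw [Real.dist_eq] at this
      exact this.le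
  refine h3.trans ?_
  rw [integral_const_mul, h1, mul_one]

/-- the test function -/
private noncomputable def FLDEq_X (δ ℓ z x x' y : ℝ) : ℝ :=
  FLDEq_K δ (y - x') - FLDEq_K δ (y - x) + (x' - x) * FLDEq_H ℓ (y - z)

private noncomputable def FLDEq_X1 (δ ℓ z x x' y : ℝ) : ℝ :=
  FLDEq_H δ (y - x') - FLDEq_H δ (y - x) + (x' - x) * FLDEq_rho ℓ (y - z)

private theorem FLDEq_X_deriv (δ ℓ z x x' y : ℝ) :
    HasDerivAt (FLDEq_X δ ℓ z x x') (FLDEq_X1 δ ℓ z x x' y) y := by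
  have h1 := (FLDEq_K_deriv δ (y - x')).comp_sub_const y x'
  have h2 := (FLDEq_K_deriv δ (y - x)).comp_sub_const y x
  have h3 := ((FLDEq_H_deriv ℓ (y - z)).comp_sub_const y z).const_mul (x' - x)
  exact (h1.sub h2).add h3

private theorem FLDEq_X1_deriv (δ ℓ z x x' y : ℝ) :
    HasDerivAt (FLDEq_X1 δ ℓ z x x')
      (FLDEq_rho δ (y - x') - FLDEq_rho δ (y - x) + (x' - x) * deriv (FLDEq_rho ℓ) (y - z)) y := by
  have h1 := (FLDEq_H_deriv δ (y - x')).comp_sub_const y x'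
  have h2 := (FLDEq_H_deriv δ (y - x)).comp_sub_const y x
  have h0 : HasDerivAt (FLDEq_rho ℓ) (deriv (FLDEq_rho ℓ) (y - z)) (y - z) :=
    ((contDiff_infty_iff_deriv.1 (FLDEq_rho_smooth ℓ)).1 _).hasDerivAt
  have h3 := (h0.comp_sub_const y z).const_mul (x' - x)
  exact (h1.sub h2).add h3

private theorem FLDEq_X_smooth (δ ℓ z x x' : ℝ) : ContDiff ℝ ∞ (FLDEq_X δ ℓ z x x') := by
  refine ContDiff.add (ContDiff.sub ?_ ?_) ?_
  · exact (FLDEq_K_smooth δ).comp (contDiff_id.sub contDiff_const)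
  · exact (FLDEq_K_smooth δ).comp (contDiff_id.sub contDiff_const)
  · exact contDiff_const.mul ((FLDEq_H_smooth ℓ).comp (contDiff_id.sub contDiff_const))

private theorem FLDEq_X_zero {δ ℓ z x x' y : ℝ} (hδ : 0 < δ) (hℓ : 0 < ℓ) (hx : |x - z| ≤ ℓ)
    (hx' : |x' - z| ≤ ℓ) (hy : y ∉ Set.Icc (z - ℓ - δ) (z + ℓ + δ)) :
    FLDEq_X δ ℓ z x x' y = 0 := by
  have h1 := abs_le.1 hx
  have h2 := abs_le.1 hx'
  unfold FLDEq_X
  by_cases hc : y < z - ℓ - δ
  · rw [FLDEq_K_zero hδ (by linarith), FLDEq_K_zero hδ (by linarith), FLDEq_H_zero hℓ (by linarith)]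
    ring
  · have hy2 : z + ℓ + δ < y := by
      by_contra hc2
      exact hy ⟨not_lt.1 hc, not_lt.1 hc2⟩
    rw [FLDEq_K_sub hδ (by linarith) (by linarith), FLDEq_H_one hℓ (by linarith)]
    ring

private theorem FLDEq_X_bd {δ ℓ z x x' : ℝ} (hδ : 0 < δ) (hℓ : 0 < ℓ) (hxx : x ≤ x') (y : ℝ) :
    |FLDEq_X δ ℓ z x x' y| ≤ x' - x := by
  have h1 := FLDEq_K_mono hδ (show y - x' ≤ y - x by linarith)
  have h2 := FLDEq_K_sub_le hδ (show y - x' ≤ y - x by linarith)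
  have h3 := FLDEq_H_nonneg hℓ (y - z)
  have h4 := FLDEq_H_le_one hℓ (y - z)
  have h5 : 0 ≤ (x' - x) * FLDEq_H ℓ (y - z) := mul_nonneg (by linarith) h3
  have h6 : (x' - x) * FLDEq_H ℓ (y - z) ≤ (x' - x) * 1 := mul_le_mul_of_nonneg_left h4 (by linarith)
  unfold FLDEq_X
  rw [abs_le]
  constructor <;> linarith

open MeasureTheory in
private theorem FLDEq_X_int {δ ℓ z x x' : ℝ} (hδ : 0 < δ) (hδℓ : δ ≤ ℓ) (hxx : x ≤ x')
    (hx : |x - z| ≤ ℓ) (hx' : |x' - z| ≤ ℓ) :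
    ∫ y, |FLDEq_X δ ℓ z x x' y| ≤ 4 * ℓ * (x' - x) := by
  have hℓ : 0 < ℓ := lt_of_lt_of_le hδ hδℓ
  have hcs : HasCompactSupport (FLDEq_X δ ℓ z x x') :=
    HasCompactSupport.intro (K := Set.Icc (z - ℓ - δ) (z + ℓ + δ)) isCompact_Icc fun y hy =>
      FLDEq_X_zero hδ hℓ hx hx' hy
  have h1 : ∫ y, |FLDEq_X δ ℓ z x x' y| ≤
      ∫ y, (Set.Icc (z - ℓ - δ) (z + ℓ + δ)).indicator (fun _ => x' - x) y := by
    refine integral_mono ?_ ?_ fun y => ?_
    · exact ((FLDEq_X_smooth δ ℓ z x x').continuous.integrable_of_hasCompactSupport hcs).abs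
    · rw [integrable_indicator_iff measurableSet_Icc]
      exact integrableOn_const (by rw [Real.volume_Icc]; exact ENNReal.ofReal_ne_top)
    · show |FLDEq_X δ ℓ z x x' y| ≤ _
      by_cases hy : y ∈ Set.Icc (z - ℓ - δ) (z + ℓ + δ)
      · rw [Set.indicator_of_mem hy]
        exact FLDEq_X_bd hδ hℓ hxx y
      · rw [Set.indicator_of_notMem hy, FLDEq_X_zero hδ hℓ hx hx' hy, abs_zero]
  refine h1.trans ?_
  rw [integral_indicator measurableSet_Icc, setIntegral_const, smul_eq_mul, measureReal_def,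
    Real.volume_Icc, ENNReal.toReal_ofReal (by linarith)]
  refine mul_le_mul_of_nonneg_right ?_ (by linarith)
  linarith

open MeasureTheory in
private theorem FLDEq_X1_int {δ ℓ z x x' : ℝ} (hδ : 0 < δ) (hℓ : 0 < ℓ) (hxx : x ≤ x') :
    ∫ y, |FLDEq_X1 δ ℓ z x x' y| ≤ 2 * (x' - x) := by
  set h : ℝ → ℝ := fun y => FLDEq_H δ (y - x) - FLDEq_H δ (y - x') with hh
  have hhc : Continuous h := ((FLDEq_H_cont δ).comp (continuous_id.sub continuous_const)).sub
    ((FLDEq_H_cont δ).comp (continuous_id.sub continuous_const))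
  have hh0 : ∀ y, 0 ≤ h y := fun y => sub_nonneg.2 (FLDEq_H_mono hδ (by linarith))
  have hsupp : Function.support h ⊆ Set.Ioc (x - δ) (x' + δ) := by
    intro y hy
    constructor
    · by_contra hc
      apply hy
      have hc := not_lt.1 hc
      show FLDEq_H δ (y - x) - FLDEq_H δ (y - x') = 0
      rw [FLDEq_H_zero hδ (by linarith), FLDEq_H_zero hδ (by linarith), sub_zero]
    · by_contra hc
      apply hy
      have hc := not_le.1 hc
      show FLDEq_H δ (y - x) - FLDEq_H δ (y - x') = 0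
      rw [FLDEq_H_one hδ (by linarith), FLDEq_H_one hδ (by linarith), sub_self]
  have hhcs : HasCompactSupport h := HasCompactSupport.intro (K := Set.Icc (x - δ) (x' + δ)) isCompact_Icc
    fun y hy => by
      by_contra hc
      exact hy (Set.Ioc_subset_Icc_self (hsupp hc))
  have hhi : ∫ y, h y = x' - x := by
    rw [← intervalIntegral.integral_eq_integral_of_support_subset hsupp]
    have hd : ∀ y, HasDerivAt (fun y => FLDEq_K δ (y - x) - FLDEq_K δ (y - x')) (h y) y := fun y =>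
      ((FLDEq_K_deriv δ (y - x)).comp_sub_const y x).sub ((FLDEq_K_deriv δ (y - x')).comp_sub_const y x')
    rw [intervalIntegral.integral_eq_sub_of_hasDerivAt (fun y _ => hd y) (hhc.intervalIntegrable _ _)]
    have e1 : FLDEq_K δ (x' + δ - x) - FLDEq_K δ (x' + δ - x') = (x' + δ - x) - (x' + δ - x') :=
      FLDEq_K_sub hδ (by linarith) (by linarith)
    have e2 : FLDEq_K δ (x - δ - x) = 0 := FLDEq_K_zero hδ (by linarith)
    have e3 : FLDEq_K δ (x - δ - x') = 0 := FLDEq_K_zero hδ (by linarith)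
    rw [e1, e2, e3]
    ring
  have hrc : Continuous (fun y => FLDEq_rho ℓ (y - z)) :=
    (FLDEq_rho_smooth ℓ).continuous.comp (continuous_id.sub continuous_const)
  have hrcs : HasCompactSupport (fun y => FLDEq_rho ℓ (y - z)) :=
    (FLDEq_rho_hcs hℓ).comp_homeomorph (Homeomorph.subRight z)
  have hri : Integrable (fun y => FLDEq_rho ℓ (y - z)) := hrc.integrable_of_hasCompactSupport hrcs
  have hr1 : ∫ y, FLDEq_rho ℓ (y - z) = 1 := by
    rw [integral_sub_right_eq_self (fun y => FLDEq_rho ℓ y) z]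
    exact FLDEq_rho_int hℓ
  have hhint : Integrable h := hhc.integrable_of_hasCompactSupport hhcs
  have hX1c : Continuous (FLDEq_X1 δ ℓ z x x') :=
    continuous_iff_continuousAt.2 fun y => (FLDEq_X1_deriv δ ℓ z x x' y).continuousAt
  have hX1e : ∀ y, FLDEq_X1 δ ℓ z x x' y = -h y + (x' - x) * FLDEq_rho ℓ (y - z) := by
    intro y
    unfold FLDEq_X1
    rw [hh]
    ring
  have hX1i : Integrable (FLDEq_X1 δ ℓ z x x') := by
    rw [show FLDEq_X1 δ ℓ z x x' = fun y => -h y + (x' - x) * FLDEq_rho ℓ (y - z) from funext hX1e]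
    exact hhint.neg.add (hri.const_mul _)
  have h1 : ∫ y, |FLDEq_X1 δ ℓ z x x' y| ≤ ∫ y, (h y + (x' - x) * FLDEq_rho ℓ (y - z)) := by
    refine integral_mono hX1i.abs (hhint.add (hri.const_mul _)) fun y => ?_
    show |FLDEq_X1 δ ℓ z x x' y| ≤ h y + (x' - x) * FLDEq_rho ℓ (y - z)
    have e1 := hh0 y
    have e2 : 0 ≤ (x' - x) * FLDEq_rho ℓ (y - z) :=
      mul_nonneg (by linarith) (FLDEq_rho_nonneg hℓ _)
    rw [hX1e, abs_le]
    constructor <;> linarith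
  refine h1.trans (le_of_eq ?_)
  rw [integral_add hhint (hri.const_mul _), hhi, integral_const_mul, hr1]
  ring

open MeasureTheory in
private theorem FLDEq_core {b : ℝ → ℝ} (hb : Continuous b) {z ℓ M N N' : ℝ} (hℓ : 0 < ℓ) (hN : 0 ≤ N)
    (hN' : 0 ≤ N') (hM : ∀ x, |b x| ≤ M)
    (h : ∀ χ : ℝ → ℝ, ContDiff ℝ ∞ χ → HasCompactSupport χ →
      tsupport χ ⊆ Set.Ioo (z - 2 * ℓ) (z + 2 * ℓ) →
      |∫ x, b x * deriv (deriv χ) x| ≤ N * (∫ x, |χ x|) + N' * ∫ x, |deriv χ x|)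
    {x x' : ℝ} (hxx : x ≤ x') (hx : |x - z| ≤ ℓ) (hx' : |x' - z| ≤ ℓ) :
    |b x' - b x| ≤ (4 * ℓ * N + 2 * N' + (∫ y, |deriv FLDEq_t y|) * M / ℓ) * (x' - x) := by
  refine le_of_forall_pos_le_add fun ε hε => ?_
  obtain ⟨δ1, hδ1, h1⟩ := FLDEq_moll hb x (ε / 2) (by linarith)
  obtain ⟨δ2, hδ2, h2⟩ := FLDEq_moll hb x' (ε / 2) (by linarith)
  set δ := min (min δ1 δ2) (ℓ / 2) with hδdef
  have hδ : 0 < δ := lt_min (lt_min hδ1 hδ2) (by linarith)
  have hδℓ : δ ≤ ℓ / 2 := min_le_right _ _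
  have h1 := h1 δ hδ ((min_le_left _ _).trans (min_le_left _ _))
  have h2 := h2 δ hδ ((min_le_left _ _).trans (min_le_right _ _))
  have hcs : HasCompactSupport (FLDEq_X δ ℓ z x x') :=
    HasCompactSupport.intro (K := Set.Icc (z - ℓ - δ) (z + ℓ + δ)) isCompact_Icc fun y hy =>
      FLDEq_X_zero hδ hℓ hx hx' hy
  have hts : tsupport (FLDEq_X δ ℓ z x x') ⊆ Set.Ioo (z - 2 * ℓ) (z + 2 * ℓ) := by
    refine (closure_minimal (t := Set.Icc (z - ℓ - δ) (z + ℓ + δ)) (fun y hy => ?_) isClosed_Icc).trans ?_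
    · by_contra hc
      exact hy (FLDEq_X_zero hδ hℓ hx hx' hc)
    · intro y hy
      exact ⟨by linarith [hy.1], by linarith [hy.2]⟩
  have hmain := h _ (FLDEq_X_smooth δ ℓ z x x') hcs hts
  have hd1 : deriv (FLDEq_X δ ℓ z x x') = FLDEq_X1 δ ℓ z x x' :=
    funext fun y => (FLDEq_X_deriv δ ℓ z x x' y).deriv
  rw [hd1] at hmain
  have hd2 : ∀ y, deriv (FLDEq_X1 δ ℓ z x x') y =
      FLDEq_rho δ (y - x') - FLDEq_rho δ (y - x) + (x' - x) * deriv (FLDEq_rho ℓ) (y - z) :=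
    fun y => (FLDEq_X1_deriv δ ℓ z x x' y).deriv
  have i1 := FLDEq_X_int hδ (by linarith) hxx hx hx'
  have i2 : ∫ y, |FLDEq_X1 δ ℓ z x x' y| ≤ 2 * (x' - x) := FLDEq_X1_int hδ hℓ hxx
  have hmain2 : |∫ y, b y * deriv (FLDEq_X1 δ ℓ z x x') y| ≤ N * (4 * ℓ * (x' - x)) + N' * (2 * (x' - x)) :=
    hmain.trans (add_le_add (mul_le_mul_of_nonneg_left i1 hN) (mul_le_mul_of_nonneg_left i2 hN'))
  -- splitting of the integral
  have ci : ∀ {g : ℝ → ℝ} (c : ℝ), Continuous g → HasCompactSupport g →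
      Integrable (fun y => b y * g (y - c)) := fun c hg hgc =>
    (hb.mul (hg.comp (continuous_id.sub continuous_const))).integrable_of_hasCompactSupport
      (hgc.comp_homeomorph (Homeomorph.subRight c)).mul_left
  have hρc : ∀ r, Continuous (FLDEq_rho r) := fun r => (FLDEq_rho_smooth r).continuous
  have hρ'c : Continuous (deriv (FLDEq_rho ℓ)) := (contDiff_infty_iff_deriv.1 (FLDEq_rho_smooth ℓ)).2.continuous
  have j1 := ci x' (hρc δ) (FLDEq_rho_hcs hδ)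
  have j2 := ci x (hρc δ) (FLDEq_rho_hcs hδ)
  have j3 := ci z hρ'c (FLDEq_rho_hcs hℓ).deriv
  have hsplit : ∫ y, b y * deriv (FLDEq_X1 δ ℓ z x x') y = (∫ y, b y * FLDEq_rho δ (y - x')) -
      (∫ y, b y * FLDEq_rho δ (y - x)) + (x' - x) * ∫ y, b y * deriv (FLDEq_rho ℓ) (y - z) := by
    have : (fun y => b y * deriv (FLDEq_X1 δ ℓ z x x') y) = fun y => (b y * FLDEq_rho δ (y - x') -
        b y * FLDEq_rho δ (y - x)) + (x' - x) * (b y * deriv (FLDEq_rho ℓ) (y - z)) := by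
      funext y
      rw [hd2]
      ring
    have j12 : Integrable (fun y => b y * FLDEq_rho δ (y - x') - b y * FLDEq_rho δ (y - x)) := j1.sub j2
    rw [this, integral_add j12 (j3.const_mul _), integral_sub j1 j2, integral_const_mul]
  have hk : |∫ y, b y * deriv (FLDEq_rho ℓ) (y - z)| ≤ (∫ y, |deriv FLDEq_t y|) * M / ℓ := by
    rw [← Real.norm_eq_abs]
    refine (norm_integral_le_integral_norm _).trans ?_
    have hρ'cs : HasCompactSupport (fun y => deriv (FLDEq_rho ℓ) (y - z)) :=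
      (FLDEq_rho_hcs hℓ).deriv.comp_homeomorph (Homeomorph.subRight z)
    have hρ'i : Integrable (fun y => deriv (FLDEq_rho ℓ) (y - z)) :=
      (hρ'c.comp (continuous_id.sub continuous_const)).integrable_of_hasCompactSupport hρ'cs
    have h3 : ∫ y, ‖b y * deriv (FLDEq_rho ℓ) (y - z)‖ ≤ ∫ y, M * |deriv (FLDEq_rho ℓ) (y - z)| := by
      refine integral_mono j3.norm (hρ'i.abs.const_mul M) fun y => ?_
      show ‖b y * deriv (FLDEq_rho ℓ) (y - z)‖ ≤ M * |deriv (FLDEq_rho ℓ) (y - z)|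
      rw [norm_mul, Real.norm_eq_abs, Real.norm_eq_abs]
      exact mul_le_mul_of_nonneg_right (hM y) (abs_nonneg _)
    refine h3.trans (le_of_eq ?_)
    rw [integral_const_mul, integral_sub_right_eq_self (fun y => |deriv (FLDEq_rho ℓ) y|) z,
      FLDEq_rho_deriv_int hℓ]
    ring
  rw [hsplit] at hmain2
  set A := ∫ y, b y * FLDEq_rho δ (y - x')
  set B := ∫ y, b y * FLDEq_rho δ (y - x)
  set C := ∫ y, b y * deriv (FLDEq_rho ℓ) (y - z)
  set K := (∫ y, |deriv FLDEq_t y|) * M / ℓ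
  have hC : |(x' - x) * C| ≤ (x' - x) * K := by
    rw [abs_mul, abs_of_nonneg (by linarith : (0 : ℝ) ≤ x' - x)]
    exact mul_le_mul_of_nonneg_left hk (by linarith)
  have a1 := abs_le.1 h1
  have a2 := abs_le.1 h2
  have a3 := abs_le.1 hC
  have a4 := abs_le.1 hmain2
  rw [abs_le]
  constructor <;> nlinarith [a1.1, a1.2, a2.1, a2.2, a3.1, a3.2, a4.1, a4.2]

theorem weak_lip : ∃ C : ℝ, 0 < C ∧ ∀ (b : ℝ → ℝ) (z ℓ M N N' : ℝ), 0 < ℓ → 0 ≤ M → 0 ≤ N →
    0 ≤ N' → ContinuousOn b (Set.Icc (z - 2 * ℓ) (z + 2 * ℓ)) →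
    (∀ x, |x - z| ≤ 2 * ℓ → |b x| ≤ M) →
    (∀ χ : ℝ → ℝ, ContDiff ℝ ∞ χ → HasCompactSupport χ →
      tsupport χ ⊆ Set.Ioo (z - 2 * ℓ) (z + 2 * ℓ) →
      |∫ x, b x * deriv (deriv χ) x| ≤ N * (∫ x, |χ x|) + N' * ∫ x, |deriv χ x|) →
    ∀ x x' : ℝ, |x - z| ≤ ℓ → |x' - z| ≤ ℓ →
      |b x' - b x| ≤ (4 * ℓ * N + 2 * N' + C * M / ℓ) * |x' - x| := by
  refine ⟨(∫ y, |deriv FLDEq_t y|) + 1, ?_, ?_⟩
  · have : 0 ≤ ∫ y, |deriv FLDEq_t y| := MeasureTheory.integral_nonneg fun y => abs_nonneg _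
    linarith
  intro b z ℓ M N N' hℓ hM hN hN' hbc hbM h x x' hx hx'
  have hle : z - 2 * ℓ ≤ z + 2 * ℓ := by linarith
  set c : ℝ → ℝ := Set.IccExtend hle (fun y : Set.Icc (z - 2 * ℓ) (z + 2 * ℓ) => b y) with hc
  have hcc : Continuous c := Continuous.Icc_extend' (continuousOn_iff_continuous_domRestrict.1 hbc)
  have hcb : ∀ y ∈ Set.Icc (z - 2 * ℓ) (z + 2 * ℓ), c y = b y := fun y hy =>
    Set.IccExtend_of_mem hle _ hy
  have hcM : ∀ y, |c y| ≤ M := by
    intro y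
    have h1 := (Set.projIcc (z - 2 * ℓ) (z + 2 * ℓ) hle y).2
    show |b _| ≤ M
    apply hbM
    rw [abs_le]
    constructor <;> linarith [h1.1, h1.2]
  have hch : ∀ χ : ℝ → ℝ, ContDiff ℝ ∞ χ → HasCompactSupport χ →
      tsupport χ ⊆ Set.Ioo (z - 2 * ℓ) (z + 2 * ℓ) →
      |∫ x, c x * deriv (deriv χ) x| ≤ N * (∫ x, |χ x|) + N' * ∫ x, |deriv χ x| := by
    intro χ h1 h2 h3
    rw [show (fun x => c x * deriv (deriv χ) x) = fun x => b x * deriv (deriv χ) x from ?_]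
    · exact h χ h1 h2 h3
    · funext y
      by_cases hy : y ∈ Set.Icc (z - 2 * ℓ) (z + 2 * ℓ)
      · rw [hcb y hy]
      · have : deriv (deriv χ) y = 0 := by
          by_contra hne
          have h4 : y ∈ tsupport (deriv (deriv χ)) := subset_tsupport _ hne
          have h5 : y ∈ tsupport χ := (tsupport_deriv_subset.trans tsupport_deriv_subset) h4
          exact hy (Set.Ioo_subset_Icc_self (h3 h5))
        rw [this, mul_zero, mul_zero]
  have main : ∀ {x x' : ℝ}, x ≤ x' → |x - z| ≤ ℓ → |x' - z| ≤ ℓ →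
      |b x' - b x| ≤ (4 * ℓ * N + 2 * N' + ((∫ y, |deriv FLDEq_t y|) + 1) * M / ℓ) * (x' - x) := by
    intro x x' hxx hx hx'
    have e1 : c x = b x := hcb x ⟨by linarith [(abs_le.1 hx).1], by linarith [(abs_le.1 hx).2]⟩
    have e2 : c x' = b x' := hcb x' ⟨by linarith [(abs_le.1 hx').1], by linarith [(abs_le.1 hx').2]⟩
    have := FLDEq_core hcc hℓ hN hN' hcM hch hxx hx hx'
    rw [e1, e2] at this
    refine this.trans (mul_le_mul_of_nonneg_right ?_ (by linarith))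
    have h6 : 0 ≤ M / ℓ := div_nonneg hM hℓ.le
    have h7 : ((∫ y, |deriv FLDEq_t y|) + 1) * M / ℓ = (∫ y, |deriv FLDEq_t y|) * M / ℓ + M / ℓ := by ring
    rw [h7]
    linarith
  rcases le_total x x' with hxx | hxx
  · rw [abs_of_nonneg (by linarith : (0 : ℝ) ≤ x' - x)]
    exact main hxx hx hx'
  · rw [abs_sub_comm, abs_sub_comm x' x, abs_of_nonneg (by linarith : (0 : ℝ) ≤ x - x')]
    exact main hxx hx' hx

end Pool.Agent.MFE
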