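import Mathlib

/-!
# MFE.FLO: the limit problem of the fold regime (ordinary differential equations)

`FoldW c s ρ W`: `W` is `C²`, even, `W'' = s + ρ ξ² - c W²`, non-increasing on `[0,∞)`, of linear
growth, half stable: `∫ f'² ≥ 2c ∫ W f²` for `f ∈ C_c^∞(0,∞)`, and not trivial.

`fold_neg`: otherwise `W ≥ 0` on `[0,∞)` (monotonicity), so `0 ≤ W ≤ W(0)`. If `ρ > 0` then
`W'' → ∞`, so `W → ∞`: contradiction. So `ρ = 0`, `W → W∞ ≥ 0`, and `W'' → s - c W∞²` must be `0`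
(otherwise `W' → ±∞` and `W` is unbounded). If `W∞ > 0`: `W ≥ W∞` on `[0,∞)` and half stability with a
bump on `[L, 2L]` (`∫ f'² ~ 1/L`, `∫ f² ~ L`) fails for large `L`. So `W∞ = 0`, `s = 0`, `W'' = -c W² ≤ 0`:
`W` is concave on `[0,∞)`, non-increasing and bounded below, hence constant, `W = W∞ = 0`:
trivial, contradiction. So `W(ξ₀) < 0` for some `ξ₀`; monotonicity.

`fold_t`: `A'' + 2 c W A = τ`, `A` bounded, `τ > 0` is impossible. Let `W ≤ -c₀` and `|W| ≤ C ξ` for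
`ξ ≥ ξ₀ ≥ 1`, `B = -δ/ξ` with `2 c C δ ≤ τ/2`, `D = A - B`: for `ξ ≥ ξ₀`
`D'' = τ - 2cWA + 2δ/ξ³ = τ + 2c|W| D + 2c|W| B + 2δ/ξ³ ≥ τ/2 + 2c|W| D`. If `D(ξ₁) > 0` and
`D'(ξ₁) ≥ 0` then `D'' ≥ τ/2` as long as `D > 0`, so `D → ∞`: contradiction (`D` is bounded). If `D > 0` on
`[ξ₁, ∞)` with `D' < 0` throughout, then `D'' ≥ τ/2` forces `D' → ∞`, contradiction. So `D ≤ 0` from
some point on, i.e. `A ≤ -δ/ξ` for `ξ ≥ ξ₂` and `∫_{-X}^X A → -∞` (evenness): contradiction to the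
lower bound `hB`.

`fold_pos`: `A'' + 2cWA = 0`, bounded, even, not zero. `A(0) ≠ 0` (otherwise `A = 0` by uniqueness).
Decay: for `ξ ≥ ξ₀`, `A'' = 2c|W|A` with `2c|W| ≥ k² > 0`: `|A| ≤ M e^{-k(ξ-ξ₀)}` (maximum principle:
compare with `M e^{-k(ξ-ξ₀)} + ε e^{k ξ}`) and `A' → 0` at an exponential rate as well (`A''` is
bounded by `C ξ e^{-kξ}`, `A'(ξ) = -∫_ξ^∞ A''`). `ψ = -W' ≥ 0` on `[0,∞)`, `ψ'' = -2cWψ - 2ρξ`;
`W, W', W''` grow at most polynomially.
Suppose `A(ξ₁) = 0`, `ξ₁ > 0`. Let `(ξ₁, ξ₂)`, `ξ₂ ≤ ∞`, be the next nodal interval, `σ A > 0` on it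
(`A'(ξ₁) ≠ 0` by uniqueness). `∫_{ξ₁}^{ξ₂} 2ρξ σA = [ψ σA' - ψ' σA] = ψ(ξ₂) σA'(ξ₂) - ψ(ξ₁) σA'(ξ₁) ≤
-ψ(ξ₁) σA'(ξ₁) ≤ 0`, so `ρ = 0` and `ψ(ξ₁) = 0`, and then `ψ'(ξ₁) = 0` (`ψ ≥ 0`), so `ψ = 0` (linear
equation): `W` is constant, negative, and `A'' = k² A`, `A` bounded and even: `A = 0`. Contradiction.
So `A` has a constant sign, which is positive by `hA`.
`ρ > 0`: let `Z = ξ W' + 2 W`: `Z'' + 2cWZ = 4s + 6ρξ²` (`W''' = 2ρξ - 2cWW'`), so
`∫_{-∞}^{∞} A (4s + 6ρξ²) = 0` (two integrations by parts; the boundary terms tend to `0`). If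
`ρ = 0` then `s = 0`, and `W'' = -cW² ≤ -c c₀²` for `ξ ≥ ξ₀`: `W ≤ -c' ξ²` for large `ξ`, against linear
growth.
-/

open scoped ContDiff
open Filter Topology

namespace Pool.Agent.MFE

/-- the limit profile of the fold regime -/
structure FoldW (c s ρ : ℝ) (W : ℝ → ℝ) : Prop where
  c_pos : 0 < c
  rho_nonneg : 0 ≤ ρ
  smooth : ContDiff ℝ 2 W
  even : ∀ ξ, W (-ξ) = W ξ
  eq : ∀ ξ, deriv (deriv W) ξ = s + ρ * ξ ^ 2 - c * W ξ ^ 2
  anti : ∀ ξ ξ' : ℝ, 0 ≤ ξ → ξ ≤ ξ' → W ξ' ≤ W ξ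
  growth : ∃ C : ℝ, ∀ ξ, |W ξ| ≤ C * (1 + |ξ|)
  stab : ∀ f : ℝ → ℝ, ContDiff ℝ ∞ f → HasCompactSupport f → tsupport f ⊆ Set.Ioi 0 →
    2 * c * ∫ ξ, W ξ * f ξ ^ 2 ≤ ∫ ξ, deriv f ξ ^ 2
  nontriv : W 0 ≠ 0 ∨ s ≠ 0 ∨ ρ ≠ 0

/-! ### elementary tools -/

private theorem FLO_mono {f f' : ℝ → ℝ} {a b : ℝ} (hab : a ≤ b)
    (hd : ∀ x, a ≤ x → x ≤ b → HasDerivAt f (f' x) x) (h0 : ∀ x, a < x → x < b → 0 ≤ f' x) :
    f a ≤ f b := by
  rcases eq_or_lt_of_le hab with h | h
  · rw [h]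
  · obtain ⟨c, hc, he⟩ := exists_hasDerivAt_eq_slope f f' h
      (fun x hx => (hd x hx.1 hx.2).continuousAt.continuousWithinAt)
      (fun x hx => hd x hx.1.le hx.2.le)
    have h1 := h0 c hc.1 hc.2
    have h2 : 0 < b - a := sub_pos.2 h
    rw [he] at h1
    by_contra h3
    rw [not_le] at h3
    have h4 : (f b - f a) / (b - a) < 0 := div_neg_of_neg_of_pos (by linarith) h2
    linarith

private theorem FLO_grow {f f' : ℝ → ℝ} {a b ε : ℝ} (hab : a ≤ b)
    (hd : ∀ x, a ≤ x → x ≤ b → HasDerivAt f (f' x) x) (h0 : ∀ x, a < x → x < b → ε ≤ f' x) :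
    f a + ε * (b - a) ≤ f b := by
  have h1 := FLO_mono (f := fun x => f x - ε * x) (f' := fun x => f' x - ε) hab
    (fun x h1 h2 => by
      have h3 : HasDerivAt (fun x => f x - ε * x) (f' x - ε * 1) x :=
        (hd x h1 h2).sub ((hasDerivAt_id x).const_mul ε)
      rwa [mul_one] at h3) (fun x h1 h2 => by linarith [h0 x h1 h2])
  linarith

private theorem FLO_unb {f f' : ℝ → ℝ} {a ε M : ℝ} (hε : 0 < ε)
    (hd : ∀ x, a ≤ x → HasDerivAt f (f' x) x) (h0 : ∀ x, a ≤ x → ε ≤ f' x)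
    (hM : ∀ x, a ≤ x → f x ≤ M) : False := by
  have h1 := hM a le_rfl
  set b := a + ((M - f a) / ε + 1) with hb
  have h2 : 0 ≤ (M - f a) / ε := div_nonneg (by linarith) hε.le
  have h3 := FLO_grow (a := a) (b := b) (ε := ε) (by linarith) (fun x h _ => hd x h)
    (fun x h _ => h0 x h.le)
  have h4 := hM b (by linarith)
  have h5 : ε * (b - a) = M - f a + ε := by
    rw [hb]
    field_simp
    ring
  linarith

/-- the first zero -/
private theorem FLO_first {D : ℝ → ℝ} {x₁ x₂ : ℝ}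
    (hc : ContinuousOn D (Set.Icc x₁ x₂)) (h12 : x₁ ≤ x₂) (h1 : 0 < D x₁) (h2 : D x₂ ≤ 0) :
    ∃ z, x₁ < z ∧ z ≤ x₂ ∧ D z = 0 ∧ ∀ x, x₁ ≤ x → x < z → 0 < D x := by
  have hcl : IsCompact (Set.Icc x₁ x₂ ∩ D ⁻¹' Set.Iic 0) :=
    isCompact_Icc.of_isClosed_subset (hc.preimage_isClosed_of_isClosed isClosed_Icc isClosed_Iic)
      Set.inter_subset_left
  obtain ⟨z, ⟨⟨hz1, hz2⟩, hz3⟩, hz4⟩ := hcl.exists_isLeast ⟨x₂, ⟨h12, le_rfl⟩, h2⟩
  have hz3' : D z ≤ 0 := hz3
  have hlt : ∀ x, x₁ ≤ x → x < z → 0 < D x := by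
    intro x hx1 hx2
    by_contra hx3
    have := hz4 ⟨⟨hx1, by linarith⟩, not_lt.1 hx3⟩
    linarith
  have hz0 : x₁ < z := by
    rcases eq_or_lt_of_le hz1 with h | h
    · rw [← h] at hz3'
      linarith
    · exact h
  refine ⟨z, hz0, hz2, ?_, hlt⟩
  have hsub : Set.Icc x₁ z ⊆ Set.Icc x₁ x₂ := Set.Icc_subset_Icc le_rfl hz2
  obtain ⟨c, hc1, hc2⟩ := intermediate_value_Icc' hz0.le (hc.mono hsub)
    (⟨hz3', h1.le⟩ : (0 : ℝ) ∈ Set.Icc (D z) (D x₁))
  rcases eq_or_lt_of_le hc1.2 with h | h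
  · rw [← h]
    exact hc2
  · have := hlt c hc1.1 h
    linarith

/-- the last zero -/
private theorem FLO_last {D : ℝ → ℝ} {x₁ x₂ : ℝ}
    (hc : ContinuousOn D (Set.Icc x₁ x₂)) (h12 : x₁ ≤ x₂) (h1 : D x₁ ≤ 0) (h2 : 0 < D x₂) :
    ∃ z, x₁ ≤ z ∧ z < x₂ ∧ D z ≤ 0 ∧ ∀ x, z < x → x ≤ x₂ → 0 < D x := by
  have hcl : IsCompact (Set.Icc x₁ x₂ ∩ D ⁻¹' Set.Iic 0) :=
    isCompact_Icc.of_isClosed_subset (hc.preimage_isClosed_of_isClosed isClosed_Icc isClosed_Iic)
      Set.inter_subset_left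
  obtain ⟨z, ⟨⟨hz1, hz2⟩, hz3⟩, hz4⟩ := hcl.exists_isGreatest ⟨x₁, ⟨le_rfl, h12⟩, h1⟩
  have hz3' : D z ≤ 0 := hz3
  refine ⟨z, hz1, ?_, hz3', ?_⟩
  · rcases eq_or_lt_of_le hz2 with h | h
    · rw [h] at hz3'
      linarith
    · exact h
  · intro x hx1 hx2
    by_contra hx3
    have := hz4 ⟨⟨by linarith, hx2⟩, not_lt.1 hx3⟩
    linarith

/-- a bounded function which is uniformly convex where it is positive is eventually nonpositive -/
private theorem FLO_ev {D D1 D2 : ℝ → ℝ} {a ε M : ℝ} (hε : 0 < ε)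
    (h1 : ∀ x, a ≤ x → HasDerivAt D (D1 x) x) (h2 : ∀ x, a ≤ x → HasDerivAt D1 (D2 x) x)
    (h3 : ∀ x, a ≤ x → 0 < D x → ε ≤ D2 x) (hM : ∀ x, a ≤ x → D x ≤ M) :
    ∃ b, a ≤ b ∧ ∀ x, b ≤ x → D x ≤ 0 := by
  have hcont : ∀ x₁ x₂, a ≤ x₁ → ContinuousOn D (Set.Icc x₁ x₂) := fun x₁ x₂ h x hx =>
    (h1 x (h.trans hx.1)).continuousAt.continuousWithinAt
  have clA : ∀ x₁, a ≤ x₁ → 0 < D x₁ → D1 x₁ < 0 := by
    intro x₁ ha hp
    by_contra hn
    rw [not_lt] at hn
    have hpos : ∀ x, x₁ ≤ x → 0 < D x := by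
      intro x₂ h12
      by_contra hneg
      obtain ⟨z, hz1, hz2, hz3, hz4⟩ := FLO_first (hcont x₁ x₂ ha) h12 hp
        (not_lt.1 hneg)
      have hD1 : ∀ x, x₁ ≤ x → x ≤ z → 0 ≤ D1 x := by
        intro x hx1 hx2
        have := FLO_mono (f := D1) (f' := D2) hx1 (fun y hy1 hy2 => h2 y (ha.trans hy1))
          (fun y hy1 hy2 => hε.le.trans (h3 y (ha.trans hy1.le) (hz4 y hy1.le (by linarith))))
        linarith
      have := FLO_mono (f := D) (f' := D1) hz1.le (fun y hy1 hy2 => h1 y (ha.trans hy1))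
        (fun y hy1 hy2 => hD1 y hy1.le hy2.le)
      linarith
    have hD1 : ∀ x, x₁ ≤ x → D1 x₁ + ε * (x - x₁) ≤ D1 x := fun x hx =>
      FLO_grow hx (fun y hy1 hy2 => h2 y (ha.trans hy1))
        (fun y hy1 hy2 => h3 y (ha.trans hy1.le) (hpos y hy1.le))
    refine FLO_unb (f := D) (f' := D1) (a := x₁ + 1) (ε := ε) (M := M) hε
      (fun x hx => h1 x (by linarith)) (fun x hx => ?_) (fun x hx => hM x (by linarith))
    have h4 := hD1 x (by linarith)
    nlinarith
  have clB : ∀ x₁, a ≤ x₁ → D x₁ ≤ 0 → ∀ x, x₁ ≤ x → D x ≤ 0 := by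
    intro x₁ ha hn x₂ h12
    by_contra hp
    rw [not_le] at hp
    obtain ⟨z, hz1, hz2, hz3, hz4⟩ := FLO_last (hcont x₁ x₂ ha) h12 hn hp
    obtain ⟨η, hη, he⟩ := exists_hasDerivAt_eq_slope D D1 hz2
      (hcont z x₂ (ha.trans hz1)) (fun x hx => h1 x (by linarith [hx.1]))
    have h5 := clA η (by linarith [hη.1]) (hz4 η hη.1 hη.2.le)
    rw [he] at h5
    have h6 : 0 < (D x₂ - D z) / (x₂ - z) := div_pos (by linarith) (by linarith)
    linarith
  by_cases hex : ∃ b, a ≤ b ∧ D b ≤ 0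
  · obtain ⟨b, hb1, hb2⟩ := hex
    exact ⟨b, hb1, clB b hb1 hb2⟩
  · exfalso
    push Not at hex
    exact FLO_unb (f := D1) (f' := D2) (a := a) (ε := ε) (M := 0) hε h2
      (fun x hx => h3 x hx (hex x hx)) (fun x hx => (clA x hx (hex x hx)).le)

private theorem FLO_c2 {A : ℝ → ℝ} (hA : ContDiff ℝ 2 A) :
    (∀ x, HasDerivAt A (deriv A x) x) ∧ ∀ x, HasDerivAt (deriv A) (deriv (deriv A) x) x := by
  have h1 : ContDiff ℝ 1 (deriv A) := by
    have h2 : ContDiff ℝ (1 + 1) A := by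
      have : ((1 : WithTop ℕ∞) + 1) = 2 := one_add_one_eq_two
      rw [this]
      exact hA
    exact (contDiff_succ_iff_deriv.1 h2).2.2
  exact ⟨fun x => (hA.differentiable (by simp) x).hasDerivAt,
    fun x => (h1.differentiable (by simp) x).hasDerivAt⟩

private theorem FLO_even {A A1 : ℝ → ℝ} (h1 : ∀ x, HasDerivAt A (A1 x) x)
    (hev : ∀ x, A (-x) = A x) (x : ℝ) : A1 (-x) = -A1 x := by
  have h2 : HasDerivAt (fun y => A (-y)) (A1 (-x) * (-1)) x :=
    (h1 (-x)).comp x (hasDerivAt_neg x)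
  have h3 : (fun y => A (-y)) = A := funext hev
  rw [h3] at h2
  have := h2.unique (h1 x)
  linarith

section fold

variable {c s ρ : ℝ} {W : ℝ → ℝ}

private theorem FLO_W (h : FoldW c s ρ W) :
    (∀ x, HasDerivAt W (deriv W x) x) ∧
      (∀ x, HasDerivAt (deriv W) (s + ρ * x ^ 2 - c * W x ^ 2) x) ∧
      (∀ x, HasDerivAt (fun x => s + ρ * x ^ 2 - c * W x ^ 2)
        (2 * ρ * x - 2 * c * W x * deriv W x) x) := by
  obtain ⟨h3, h4⟩ := FLO_c2 h.smooth
  refine ⟨h3, fun x => ?_, fun x => ?_⟩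
  · rw [← h.eq x]
    exact h4 x
  · have h5 := ((hasDerivAt_const x s).add ((hasDerivAt_pow 2 x).const_mul ρ)).sub
      (((h3 x).pow 2).const_mul c)
    refine HasDerivAt.congr_deriv h5 ?_
    simp
    ring

private theorem FLO_W1 (h : FoldW c s ρ W) {x : ℝ} (hx : 0 ≤ x) : deriv W x ≤ 0 := by
  obtain ⟨h1, h2, h3⟩ := FLO_W h
  have h4 : Tendsto (slope W x) (𝓝[>] x) (𝓝 (deriv W x)) := by
    have := hasDerivAt_iff_tendsto_slope.1 (h1 x)
    exact this.mono_left (nhdsWithin_mono x (fun y hy => ne_of_gt hy))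
  refine le_of_tendsto h4 ?_
  filter_upwards [self_mem_nhdsWithin] with y hy
  rw [slope_def_field]
  have hy' : x < y := hy
  exact div_nonpos_of_nonpos_of_nonneg (by linarith [h.anti x y hx hy'.le]) (by linarith)

end fold

private theorem FLO_bump : ∃ φ : ℝ → ℝ, ContDiff ℝ ∞ φ ∧ HasCompactSupport φ ∧
    tsupport φ ⊆ Set.Ioi 1 ∧ 0 < ∫ x, φ x ^ 2 := by
  let φ : ContDiffBump (3 : ℝ) := ⟨1 / 2, 1, by norm_num, by norm_num⟩
  refine ⟨φ, φ.contDiff, φ.hasCompactSupport, ?_, ?_⟩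
  · rw [φ.tsupport_eq, Real.closedBall_eq_Icc]
    intro x hx
    have h1 : (3 : ℝ) - 1 ≤ x := hx.1
    show 1 < x
    linarith
  · have hcs : HasCompactSupport (fun x => φ x ^ 2) := by
      have := φ.hasCompactSupport.comp_left (g := fun y : ℝ => y ^ 2) (by simp)
      exact this
    have hint : MeasureTheory.Integrable (fun x => φ x ^ 2) := by
      refine Continuous.integrable_of_hasCompactSupport ?_ hcs
      exact (φ.continuous).pow 2
    rw [MeasureTheory.integral_pos_iff_support_of_nonneg (fun x => sq_nonneg _) hint]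
    refine lt_of_lt_of_le ?_ (MeasureTheory.measure_mono
      (show Metric.ball (3 : ℝ) (1 / 2) ⊆ Function.support (fun x => φ x ^ 2) from ?_))
    · rw [Real.volume_ball]
      norm_num
    · intro x hx
      have : φ x = 1 := φ.one_of_mem_closedBall (Metric.ball_subset_closedBall hx)
      simp [this]

theorem fold_neg {c s ρ : ℝ} {W : ℝ → ℝ} (h : FoldW c s ρ W) :
    ∃ ξ₀ c₀ : ℝ, 0 < ξ₀ ∧ 0 < c₀ ∧ ∀ ξ, ξ₀ ≤ |ξ| → W ξ ≤ -c₀ := by
  by_cases hex : ∃ ξ₁, 0 ≤ ξ₁ ∧ W ξ₁ < 0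
  · obtain ⟨ξ₁, h1, h2⟩ := hex
    refine ⟨ξ₁ + 1, -W ξ₁, by linarith, by linarith, fun ξ hξ => ?_⟩
    have h3 : W ξ = W |ξ| := by
      rcases abs_choice ξ with h4 | h4
      · rw [h4]
      · rw [h4, h.even]
    rw [h3, neg_neg]
    exact h.anti ξ₁ |ξ| h1 (by linarith)
  · exfalso
    push Not at hex
    obtain ⟨hW1, hW2, hW3⟩ := FLO_W h
    have hc := h.c_pos
    have hle : ∀ x, 0 ≤ x → W x ≤ W 0 := fun x hx => h.anti 0 x le_rfl hx
    have hsq : ∀ x y, 0 ≤ x → x ≤ y → W y ^ 2 ≤ W x ^ 2 := fun x y hx hxy =>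
      pow_le_pow_left₀ (hex y (hx.trans hxy)) (h.anti x y hx hxy) 2
    -- the value of `ρ`
    have hρ : ρ = 0 := by
      by_contra hne
      have hρ : 0 < ρ := lt_of_le_of_ne h.rho_nonneg (Ne.symm hne)
      obtain ⟨L, hL⟩ : ∃ L : ℝ, 1 ≤ L ∧ 1 - s + c * W 0 ^ 2 ≤ ρ * L := by
        refine ⟨max 1 ((1 - s + c * W 0 ^ 2) / ρ), le_max_left _ _, ?_⟩
        have := le_max_right 1 ((1 - s + c * W 0 ^ 2) / ρ)
        rw [div_le_iff₀ hρ] at this
        linarith
      refine FLO_unb (f := deriv W) (a := L) (ε := 1) (M := 0) one_pos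
        (fun x _ => hW2 x) (fun x hx => ?_) (fun x hx => FLO_W1 h (by linarith [hL.1]))
      have h1 := hsq 0 x le_rfl (by linarith [hL.1])
      have h2 : ρ * L ≤ ρ * x ^ 2 := by
        apply mul_le_mul_of_nonneg_left _ hρ.le
        nlinarith [hL.1]
      have h3 : c * W x ^ 2 ≤ c * W 0 ^ 2 := mul_le_mul_of_nonneg_left h1 hc.le
      linarith [hL.2]
    subst hρ
    have hW2' : ∀ x, HasDerivAt (deriv W) (s - c * W x ^ 2) x := fun x => by
      have := hW2 x
      simpa using this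
    have hW10 : deriv W 0 = 0 := by
      have := FLO_even hW1 h.even 0
      rw [neg_zero] at this
      linarith
    rcases le_or_gt s 0 with hs | hs
    · -- concave
      have hW10' : ∀ x, 0 ≤ x → deriv W x = 0 := by
        intro x₁ hx₁
        by_contra hne
        have hlt : deriv W x₁ < 0 := lt_of_le_of_ne (FLO_W1 h hx₁) hne
        refine FLO_unb (f := fun x => -W x) (f' := fun x => -deriv W x) (a := x₁)
          (ε := -deriv W x₁) (M := 0) (by linarith) (fun x _ => (hW1 x).neg) (fun x hx => ?_)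
          (fun x hx => by linarith [hex x (hx₁.trans hx)])
        have h5 := FLO_mono (f := fun x => -deriv W x) (f' := fun x => -(s - c * W x ^ 2)) hx
          (fun y _ _ => (hW2' y).neg) (fun y _ _ => by
            have := mul_nonneg hc.le (sq_nonneg (W y))
            linarith)
        simpa using h5
      have h6 : ∀ x, 0 < x → s - c * W x ^ 2 = 0 := by
        intro x hx
        have h7 : deriv W =ᶠ[𝓝 x] fun _ => (0 : ℝ) := by
          filter_upwards [Ioi_mem_nhds hx] with y hy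
          exact hW10' y (le_of_lt hy)
        have h8 : HasDerivAt (deriv W) 0 x := (hasDerivAt_const x (0 : ℝ)).congr_of_eventuallyEq h7
        exact (hW2' x).unique h8
      have h9 : s = 0 := by
        have := h6 1 one_pos
        have := mul_nonneg hc.le (sq_nonneg (W 1))
        linarith
      have h10 : W 1 = 0 := by
        have h11 := h6 1 one_pos
        rw [h9] at h11
        have h12 : W 1 ^ 2 = 0 := by
          have : c * W 1 ^ 2 = 0 := by linarith
          exact (mul_eq_zero.1 this).resolve_left hc.ne'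
        exact pow_eq_zero_iff (two_ne_zero) |>.1 h12
      have h13 : W 0 = W 1 := by
        have h14 := FLO_mono (f := W) (f' := deriv W) (zero_le_one) (fun y _ _ => hW1 y)
          (fun y hy _ => (hW10' y hy.le).ge)
        exact le_antisymm h14 (hle 1 zero_le_one)
      rcases h.nontriv with h15 | h15 | h15
      · exact h15 (h13.trans h10)
      · exact h15 h9
      · exact h15 rfl
    · -- positive limit
      set m := Real.sqrt (s / c) with hm
      have hm0 : 0 < m := Real.sqrt_pos.2 (div_pos hs hc)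
      have hm2 : c * m ^ 2 = s := by
        rw [hm, Real.sq_sqrt (div_nonneg hs.le hc.le)]
        field_simp
      have hWm : ∀ x, 0 ≤ x → m ≤ W x := by
        intro x₁ hx₁
        by_contra hlt
        rw [not_le] at hlt
        have h1 : c * W x₁ ^ 2 < s := by
          rw [← hm2]
          apply mul_lt_mul_of_pos_left _ hc
          have := hex x₁ hx₁
          nlinarith
        refine FLO_unb (f := deriv W) (a := x₁) (ε := s - c * W x₁ ^ 2) (M := 0) (by linarith)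
          (fun x _ => hW2' x) (fun x hx => ?_) (fun x hx => FLO_W1 h (hx₁.trans hx))
        have h3 : c * W x ^ 2 ≤ c * W x₁ ^ 2 := mul_le_mul_of_nonneg_left (hsq x₁ x hx₁ hx) hc.le
        linarith
      obtain ⟨φ, hφ1, hφ2, hφ3, hφ4⟩ := FLO_bump
      set I := ∫ x, φ x ^ 2 with hI
      set J := ∫ x, deriv φ x ^ 2 with hJ
      have key : ∀ L : ℝ, 0 < L → 2 * c * m * (L * I) ≤ L⁻¹ * J := by
        intro L hL
        have hf1 : ContDiff ℝ ∞ (fun x => φ (L⁻¹ * x)) := hφ1.comp (contDiff_const.mul contDiff_id)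
        have hts : ∀ x, x ∈ tsupport (fun x => φ (L⁻¹ * x)) → L⁻¹ * x ∈ tsupport φ := by
          intro x hx
          have hcl : IsClosed ((fun x : ℝ => L⁻¹ * x) ⁻¹' tsupport φ) :=
            (isClosed_tsupport φ).preimage (continuous_const.mul continuous_id)
          have hsub : Function.support (fun x => φ (L⁻¹ * x)) ⊆
              (fun x : ℝ => L⁻¹ * x) ⁻¹' tsupport φ := fun y hy => subset_tsupport φ hy
          exact closure_minimal hsub hcl hx
        have hf2 : HasCompactSupport (fun x => φ (L⁻¹ * x)) := by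
          have := hφ2.comp_homeomorph (Homeomorph.mulLeft₀ L⁻¹ (inv_ne_zero hL.ne'))
          exact this
        have hf3 : tsupport (fun x => φ (L⁻¹ * x)) ⊆ Set.Ioi 0 := by
          intro x hx
          have h1 : 1 < L⁻¹ * x := hφ3 (hts x hx)
          show 0 < x
          by_contra hneg
          rw [not_lt] at hneg
          have : L⁻¹ * x ≤ 0 := mul_nonpos_of_nonneg_of_nonpos (inv_pos.2 hL).le hneg
          linarith
        have hst := h.stab _ hf1 hf2 hf3
        have hder : ∀ x, deriv (fun x => φ (L⁻¹ * x)) x = L⁻¹ * deriv φ (L⁻¹ * x) := by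
          intro x
          have h1 : HasDerivAt φ (deriv φ (L⁻¹ * x)) (L⁻¹ * x) :=
            (hφ1.differentiable (by simp) _).hasDerivAt
          have h2 : HasDerivAt (fun x : ℝ => L⁻¹ * x) (L⁻¹ * 1) x := (hasDerivAt_id x).const_mul L⁻¹
          have h3 := h1.comp x h2
          have h4 : HasDerivAt (fun x => φ (L⁻¹ * x)) (deriv φ (L⁻¹ * x) * (L⁻¹ * 1)) x := h3
          rw [h4.deriv]
          ring
        have hR : ∫ x, deriv (fun x => φ (L⁻¹ * x)) x ^ 2 = L⁻¹ * J := by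
          have h1 : (fun x => deriv (fun x => φ (L⁻¹ * x)) x ^ 2) =
              fun x => (fun y => L⁻¹ ^ 2 * deriv φ y ^ 2) (L⁻¹ * x) := by
            funext x
            rw [hder]
            ring
          rw [h1, MeasureTheory.Measure.integral_comp_mul_left (fun y => L⁻¹ ^ 2 * deriv φ y ^ 2) L⁻¹,
            MeasureTheory.integral_const_mul, ← hJ, inv_inv, abs_of_pos hL, smul_eq_mul]
          field_simp
        have hLI : ∫ x, φ (L⁻¹ * x) ^ 2 = L * I := by
          have := MeasureTheory.Measure.integral_comp_mul_left (fun y => φ y ^ 2) L⁻¹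
          rw [this, ← hI, inv_inv, abs_of_pos hL, smul_eq_mul]
        have hcs : HasCompactSupport (fun x => φ (L⁻¹ * x) ^ 2) := by
          have := hf2.comp_left (g := fun y : ℝ => y ^ 2) (by simp)
          exact this
        have hcs2 : HasCompactSupport (fun x => W x * φ (L⁻¹ * x) ^ 2) := hcs.mul_left
        have hi1 : MeasureTheory.Integrable (fun x => φ (L⁻¹ * x) ^ 2) :=
          Continuous.integrable_of_hasCompactSupport (hf1.continuous.pow 2) hcs
        have hi2 : MeasureTheory.Integrable (fun x => W x * φ (L⁻¹ * x) ^ 2) :=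
          Continuous.integrable_of_hasCompactSupport (h.smooth.continuous.mul
            (hf1.continuous.pow 2)) hcs2
        have hlow : m * (L * I) ≤ ∫ x, W x * φ (L⁻¹ * x) ^ 2 := by
          rw [← hLI, ← MeasureTheory.integral_const_mul]
          refine MeasureTheory.integral_mono (hi1.const_mul m) hi2 (fun x => ?_)
          show m * φ (L⁻¹ * x) ^ 2 ≤ W x * φ (L⁻¹ * x) ^ 2
          by_cases hx : 0 ≤ x
          · exact mul_le_mul_of_nonneg_right (hWm x hx) (sq_nonneg _)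
          · have h1 : φ (L⁻¹ * x) = 0 := by
              by_contra hne
              have h2 : x ∈ tsupport (fun x => φ (L⁻¹ * x)) := subset_tsupport _ hne
              exact hx (le_of_lt (hf3 h2))
            rw [h1]
            simp
        rw [hR] at hst
        have h2c : 0 ≤ 2 * c := by linarith
        calc 2 * c * m * (L * I) = 2 * c * (m * (L * I)) := by ring
          _ ≤ 2 * c * ∫ x, W x * φ (L⁻¹ * x) ^ 2 := mul_le_mul_of_nonneg_left hlow h2c
          _ ≤ L⁻¹ * J := hst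
      -- choose `L`
      set K := 2 * c * m * I with hK
      have hK0 : 0 < K := by positivity
      have hL0 : 0 < |J| / K + 1 := by positivity
      have h1 := key (|J| / K + 1) hL0
      have h2 : (|J| / K + 1)⁻¹ * J ≤ (|J| / K + 1)⁻¹ * |J| :=
        mul_le_mul_of_nonneg_left (le_abs_self J) (inv_pos.2 hL0).le
      have h3 : (|J| / K + 1)⁻¹ ≤ 1 := inv_le_one_of_one_le₀ (by
        have : 0 ≤ |J| / K := by positivity
        linarith)
      have h4 : (|J| / K + 1)⁻¹ * |J| ≤ 1 * |J| := mul_le_mul_of_nonneg_right h3 (abs_nonneg J)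
      have h5 : 2 * c * m * ((|J| / K + 1) * I) = |J| + K := by
        rw [hK]
        field_simp
        try ring
      linarith

theorem fold_t {c s ρ τ : ℝ} {W A : ℝ → ℝ} (h : FoldW c s ρ W) (hA : ContDiff ℝ 2 A)
    (heq : ∀ ξ, deriv (deriv A) ξ + 2 * c * W ξ * A ξ = τ) (hev : ∀ ξ, A (-ξ) = A ξ)
    (hbd : ∃ M : ℝ, ∀ ξ, |A ξ| ≤ M) (hτ : 0 ≤ τ)
    (hB : ∃ B : ℝ, ∀ X : ℝ, 1 ≤ X → -B ≤ ∫ ξ in (-X)..X, A ξ) : τ = 0 := by
  by_contra hne
  have hτ0 : 0 < τ := lt_of_le_of_ne hτ (Ne.symm hne)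
  obtain ⟨ξ₀, c₀, hξ₀, hc₀, hWneg⟩ := fold_neg h
  obtain ⟨C, hC⟩ := h.growth
  obtain ⟨M, hM⟩ := hbd
  obtain ⟨B, hB⟩ := hB
  have hc := h.c_pos
  have hC1 : 0 < |C| + 1 := by positivity
  set C' := |C| + 1 with hC'
  set a := max ξ₀ 1 with ha
  have ha1 : 1 ≤ a := le_max_right _ _
  have ha0 : ξ₀ ≤ a := le_max_left _ _
  set δ := τ / (8 * c * C') with hδ
  have hδ0 : 0 < δ := by positivity
  obtain ⟨hA1, hA2⟩ := FLO_c2 hA
  have hd1 : ∀ x, a ≤ x → HasDerivAt (fun x => A x + δ * x⁻¹) (deriv A x + δ * -(x ^ 2)⁻¹) x := by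
    intro x hx
    have hx0 : x ≠ 0 := by linarith
    exact (hA1 x).add ((hasDerivAt_inv hx0).const_mul δ)
  have hd2 : ∀ x, a ≤ x → HasDerivAt (fun x => deriv A x + δ * -(x ^ 2)⁻¹)
      (deriv (deriv A) x + δ * (2 * (x ^ 3)⁻¹)) x := by
    intro x hx
    have hx0 : x ≠ 0 := by linarith
    have h1 : HasDerivAt (fun x : ℝ => -(x ^ 2)⁻¹) (2 * (x ^ 3)⁻¹) x := by
      have h2 := ((hasDerivAt_pow 2 x).inv (pow_ne_zero 2 hx0)).neg
      refine HasDerivAt.congr_deriv h2 ?_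
      field_simp
      norm_num
      ring
    exact (hA2 x).add (h1.const_mul δ)
  obtain ⟨b, hab, hb⟩ := FLO_ev (D := fun x => A x + δ * x⁻¹) (ε := τ / 2) (M := M + δ)
    (by linarith) hd1 hd2 (fun x hx hpos => by
      have hx0 : 0 < x := by linarith
      have h1 : W x ≤ -c₀ := hWneg x (by rw [abs_of_pos hx0]; linarith)
      have h2 : -W x ≤ 2 * C' * x := by
        have h3 := hC x
        rw [abs_of_pos hx0] at h3
        have h4 : C * (1 + x) ≤ C' * (1 + x) :=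
          mul_le_mul_of_nonneg_right (by linarith [le_abs_self C]) (by linarith)
        have h5 := neg_abs_le (W x)
        have h6 : C' * (1 + x) ≤ 2 * C' * x := by nlinarith
        linarith
      have h3 : deriv (deriv A) x = τ - 2 * c * W x * A x := by linarith [heq x]
      rw [h3]
      have h4 : 2 * c * (-W x) * (δ * x⁻¹) ≤ τ / 2 := by
        have h5 : 2 * c * (-W x) * (δ * x⁻¹) ≤ 2 * c * (2 * C' * x) * (δ * x⁻¹) := by
          apply mul_le_mul_of_nonneg_right _ (by positivity)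
          exact mul_le_mul_of_nonneg_left h2 (by linarith)
        have h6 : 2 * c * (2 * C' * x) * (δ * x⁻¹) = τ / 2 := by
          rw [hδ]
          field_simp
          try norm_num
        linarith
      have h5 : 0 ≤ 2 * c * (-W x) * (A x + δ * x⁻¹) := by
        apply mul_nonneg _ hpos.le
        exact mul_nonneg (by linarith) (by linarith)
      have h6 : 0 ≤ δ * (2 * (x ^ 3)⁻¹) := by positivity
      nlinarith) (fun x hx => by
      have h1 : x⁻¹ ≤ 1 := inv_le_one_of_one_le₀ (by linarith)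
      have h2 : δ * x⁻¹ ≤ δ * 1 := mul_le_mul_of_nonneg_left h1 hδ0.le
      have h3 := (abs_le.1 (hM x)).2
      linarith)
  have hb0 : 0 < b := by linarith
  -- the integral
  set P : ℝ → ℝ := fun x => ∫ y in (0 : ℝ)..x, A y with hP
  have hAc : Continuous A := hA.continuous
  have hPd : ∀ x, HasDerivAt P (A x) x := fun x =>
    intervalIntegral.integral_hasDerivAt_right (hAc.intervalIntegrable _ _)
      (hAc.stronglyMeasurableAtFilter _ _) hAc.continuousAt
  have hF : ∀ x, ∫ y in (-x)..x, A y = P x - P (-x) := by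
    intro x
    rw [hP]
    simp only
    rw [intervalIntegral.integral_interval_sub_left (hAc.intervalIntegrable _ _)
      (hAc.intervalIntegrable _ _)]
  have hPn : ∀ x, HasDerivAt (fun x => P (-x)) (-A x) x := by
    intro x
    have h1 : HasDerivAt (fun x => P (-x)) (A (-x) * (-1)) x := (hPd (-x)).comp x (hasDerivAt_neg x)
    rw [hev x] at h1
    refine HasDerivAt.congr_deriv h1 ?_
    ring
  have hlog : ∀ x, b ≤ x → P x - P (-x) + 2 * δ * Real.log x ≤
      P b - P (-b) + 2 * δ * Real.log b := by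
    intro x hx
    have h1 := FLO_mono (f := fun x => -(P x - P (-x) + 2 * δ * Real.log x))
      (f' := fun x => -(A x - -A x + 2 * δ * x⁻¹)) hx
      (fun y hy1 hy2 => by
        have hy0 : y ≠ 0 := by linarith
        exact (((hPd y).sub (hPn y)).add ((Real.hasDerivAt_log hy0).const_mul (2 * δ))).neg)
      (fun y hy1 hy2 => by
        have h2 : A y + δ * y⁻¹ ≤ 0 := hb y hy1.le
        show 0 ≤ -(A y - -A y + 2 * δ * y⁻¹)
        linarith)
    linarith
  set K := (P b - P (-b) + B) / (2 * δ) + 1 with hK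
  have hBb : 0 ≤ P b - P (-b) + B := by
    have := hB b (by linarith)
    rw [hF b] at this
    linarith
  have hK1 : 1 ≤ K := by
    have : 0 ≤ (P b - P (-b) + B) / (2 * δ) := by positivity
    linarith
  have hX : b ≤ b * Real.exp K := by
    have : 1 ≤ Real.exp K := Real.one_le_exp (by linarith)
    nlinarith
  have h1 := hlog _ hX
  have h2 := hB (b * Real.exp K) (by linarith)
  rw [hF] at h2
  rw [Real.log_mul hb0.ne' (Real.exp_pos K).ne', Real.log_exp] at h1
  have h3 : 2 * δ * K = P b - P (-b) + B + 2 * δ := by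
    rw [hK]
    field_simp
    try ring
  nlinarith

/-- exponential decay on a half line -/
private theorem FLO_decay {V A A1 : ℝ → ℝ} {x₀ κ₀ C M : ℝ} (hx₀ : 0 < x₀) (hκ : 0 < κ₀)
    (hC : 0 ≤ C) (hM0 : 0 ≤ M)
    (hV : ∀ x, x₀ ≤ x → κ₀ ≤ V x) (hV2 : ∀ x, x₀ ≤ x → V x ≤ C * (1 + x))
    (h1 : ∀ x, HasDerivAt A (A1 x) x) (h2 : ∀ x, HasDerivAt A1 (V x * A x) x)
    (hM : ∀ x, |A x| ≤ M) :
    ∃ C' k : ℝ, 0 < C' ∧ 0 < k ∧ ∀ x, x₀ ≤ x → |A x| ≤ C' * Real.exp (-k * x) ∧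
      |A1 x| ≤ C' * Real.exp (-k * x) := by
  set κ := Real.sqrt (2 * κ₀) with hκdef
  have hκ0 : 0 < κ := Real.sqrt_pos.2 (by linarith)
  have hκ2 : κ ^ 2 = 2 * κ₀ := Real.sq_sqrt (by linarith)
  have hEd : ∀ x, HasDerivAt (fun x => A x ^ 2) (2 * A x * A1 x) x := by
    intro x
    refine HasDerivAt.congr_deriv ((h1 x).pow 2) ?_
    simp
  have hE1d : ∀ x, HasDerivAt (fun x => 2 * A x * A1 x) (2 * A1 x ^ 2 + 2 * V x * A x ^ 2) x := by
    intro x
    refine HasDerivAt.congr_deriv (((h1 x).const_mul 2).mul (h2 x)) ?_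
    ring
  have hG : ∀ x, HasDerivAt (fun x => 2 * A x * A1 x + κ * A x ^ 2)
      (2 * A1 x ^ 2 + 2 * V x * A x ^ 2 + κ * (2 * A x * A1 x)) x := fun x =>
    (hE1d x).add ((hEd x).const_mul κ)
  have hexp : ∀ (κ' x₁ x : ℝ), HasDerivAt (fun x => Real.exp (κ' * (x - x₁)))
      (Real.exp (κ' * (x - x₁)) * κ') x := by
    intro κ' x₁ x
    have h3 : HasDerivAt (fun x => κ' * (x - x₁)) (κ' * 1) x :=
      ((hasDerivAt_id x).sub_const x₁).const_mul κ'
    have h4 := h3.exp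
    rwa [mul_one] at h4
  have hEM : ∀ x, A x ^ 2 ≤ M ^ 2 := fun x => by
    rw [← sq_abs]
    exact pow_le_pow_left₀ (abs_nonneg _) (hM x) 2
  have hGn : ∀ x, x₀ ≤ x → 2 * A x * A1 x + κ * A x ^ 2 ≤ 0 := by
    intro x₁ hx₁
    by_contra hp
    rw [not_le] at hp
    set g := 2 * A x₁ * A1 x₁ + κ * A x₁ ^ 2 with hg
    have hmon : ∀ x, x₁ ≤ x → g ≤ Real.exp (-κ * (x - x₁)) * (2 * A x * A1 x + κ * A x ^ 2) := by
      intro x hx
      have h4 := FLO_mono
        (f := fun x => Real.exp (-κ * (x - x₁)) * (2 * A x * A1 x + κ * A x ^ 2))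
        (f' := fun x => Real.exp (-κ * (x - x₁)) * (-κ) * (2 * A x * A1 x + κ * A x ^ 2) +
          Real.exp (-κ * (x - x₁)) * (2 * A1 x ^ 2 + 2 * V x * A x ^ 2 + κ * (2 * A x * A1 x)))
        hx (fun y _ _ => (hexp (-κ) x₁ y).mul (hG y)) (fun y hy _ => by
          have h5 : 0 ≤ 2 * A1 y ^ 2 + 2 * (V y - κ₀) * A y ^ 2 := by
            have h6 : 0 ≤ V y - κ₀ := by linarith [hV y (by linarith)]
            positivity
          have h7 : Real.exp (-κ * (y - x₁)) * (-κ) * (2 * A y * A1 y + κ * A y ^ 2) +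
              Real.exp (-κ * (y - x₁)) * (2 * A1 y ^ 2 + 2 * V y * A y ^ 2 +
                κ * (2 * A y * A1 y)) =
              Real.exp (-κ * (y - x₁)) * (2 * A1 y ^ 2 + 2 * (V y - κ₀) * A y ^ 2) := by
            linear_combination (-(Real.exp (-κ * (y - x₁))) * A y ^ 2) * hκ2
          rw [h7]
          positivity)
      simpa using h4
    have hlow : ∀ x, x₁ ≤ x → g * (1 + κ * (x - x₁)) ≤ 2 * A x * A1 x + κ * A x ^ 2 := by
      intro x hx
      have h4 := hmon x hx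
      set e := Real.exp (-κ * (x - x₁)) with he
      have he0 : 0 < e := Real.exp_pos _
      have ht : 0 ≤ κ * (x - x₁) := mul_nonneg hκ0.le (by linarith)
      have h5 : e * (1 + κ * (x - x₁)) ≤ 1 := by
        have h6 : 1 + κ * (x - x₁) ≤ Real.exp (κ * (x - x₁)) := by
          linarith [Real.add_one_le_exp (κ * (x - x₁))]
        calc e * (1 + κ * (x - x₁)) ≤ e * Real.exp (κ * (x - x₁)) :=
              mul_le_mul_of_nonneg_left h6 he0.le
          _ = 1 := by
              rw [he, ← Real.exp_add]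
              have : -κ * (x - x₁) + κ * (x - x₁) = 0 := by ring
              rw [this, Real.exp_zero]
      set Q := 2 * A x * A1 x + κ * A x ^ 2 with hQ
      have hQ0 : 0 < Q := by
        by_contra hneg
        rw [not_lt] at hneg
        have : e * Q ≤ 0 := mul_nonpos_of_nonneg_of_nonpos he0.le hneg
        linarith
      calc g * (1 + κ * (x - x₁)) ≤ (e * Q) * (1 + κ * (x - x₁)) :=
            mul_le_mul_of_nonneg_right h4 (by linarith)
        _ = Q * (e * (1 + κ * (x - x₁))) := by ring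
        _ ≤ Q * 1 := mul_le_mul_of_nonneg_left h5 hQ0.le
        _ = Q := mul_one Q
    have hMg : 0 ≤ M ^ 2 / g := by positivity
    refine FLO_unb (f := fun x => A x ^ 2) (f' := fun x => 2 * A x * A1 x) (a := x₁ + M ^ 2 / g)
      (ε := g) (M := M ^ 2) hp (fun x _ => hEd x) (fun x hx => ?_) (fun x _ => hEM x)
    have h4 := hlow x (by linarith)
    have h5 : κ * A x ^ 2 ≤ κ * M ^ 2 := mul_le_mul_of_nonneg_left (hEM x) hκ0.le
    have h6 : M ^ 2 ≤ g * (x - x₁) := by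
      have h7 : M ^ 2 / g ≤ x - x₁ := by linarith
      rw [div_le_iff₀ hp] at h7
      linarith
    have h8 : κ * M ^ 2 ≤ κ * (g * (x - x₁)) := mul_le_mul_of_nonneg_left h6 hκ0.le
    have h9 : g * (1 + κ * (x - x₁)) = g + κ * (g * (x - x₁)) := by ring
    linarith
  -- decay of `A`
  set k₁ := κ / 2 with hk₁
  have hk₁0 : 0 < k₁ := by positivity
  set C₁ := M * Real.exp (k₁ * x₀) with hC₁
  have hC₁0 : 0 ≤ C₁ := by positivity
  have hdec : ∀ x, x₀ ≤ x → |A x| ≤ C₁ * Real.exp (-k₁ * x) := by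
    intro x hx
    have h4 := FLO_mono (f := fun x => -(Real.exp (κ * (x - x₀)) * A x ^ 2))
      (f' := fun x => -(Real.exp (κ * (x - x₀)) * κ * A x ^ 2 +
        Real.exp (κ * (x - x₀)) * (2 * A x * A1 x))) hx
      (fun y _ _ => ((hexp κ x₀ y).mul (hEd y)).neg) (fun y hy _ => by
        have h5 := hGn y hy.le
        have h6 : Real.exp (κ * (y - x₀)) * κ * A y ^ 2 + Real.exp (κ * (y - x₀)) *
            (2 * A y * A1 y) = Real.exp (κ * (y - x₀)) * (2 * A y * A1 y + κ * A y ^ 2) := by ring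
        rw [h6]
        have := mul_nonpos_of_nonneg_of_nonpos (Real.exp_pos (κ * (y - x₀))).le h5
        linarith)
    have h5 : Real.exp (κ * (x - x₀)) * A x ^ 2 ≤ M ^ 2 := by
      have h6 : -(Real.exp (κ * (x₀ - x₀)) * A x₀ ^ 2) ≤ -(Real.exp (κ * (x - x₀)) * A x ^ 2) := h4
      rw [sub_self, mul_zero, Real.exp_zero, one_mul] at h6
      linarith [hEM x₀]
    have h6 : C₁ * Real.exp (-k₁ * x) = M * Real.exp (-k₁ * (x - x₀)) := by
      rw [hC₁, mul_assoc, ← Real.exp_add]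
      congr 2
      ring
    rw [h6]
    refine abs_le_of_sq_le_sq ?_ (by positivity)
    have h7 : (M * Real.exp (-k₁ * (x - x₀))) ^ 2 = M ^ 2 * Real.exp (-(κ * (x - x₀))) := by
      rw [mul_pow, ← Real.exp_nat_mul]
      congr 2
      rw [hk₁]
      push_cast
      ring
    rw [h7]
    calc A x ^ 2 = (Real.exp (κ * (x - x₀)) * A x ^ 2) * Real.exp (-(κ * (x - x₀))) := by
          rw [Real.exp_neg]
          field_simp
      _ ≤ M ^ 2 * Real.exp (-(κ * (x - x₀))) :=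
          mul_le_mul_of_nonneg_right h5 (Real.exp_pos _).le
  set k := k₁ / 2 with hk
  have hk0 : 0 < k := by positivity
  set K := 2 + 1 / k with hK
  have hK0 : 0 < K := by positivity
  have hKx : ∀ x, 0 ≤ x → 2 + x ≤ K * Real.exp (k * x) := by
    intro x hx
    have h4 := Real.add_one_le_exp (k * x)
    have h5 : 1 ≤ Real.exp (k * x) := Real.one_le_exp (by positivity)
    have h6 : x = 1 / k * (k * x) := by field_simp
    have h7 : 1 / k * (k * x) ≤ 1 / k * Real.exp (k * x) :=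
      mul_le_mul_of_nonneg_left (by linarith) (by positivity)
    rw [hK, add_mul]
    linarith
  have hkk : ∀ x, 0 ≤ x → Real.exp (-k₁ * x) ≤ Real.exp (-k * x) := by
    intro x hx
    apply Real.exp_le_exp.2
    have : 0 ≤ k * x := by positivity
    have h4 : k₁ = 2 * k := by rw [hk]; ring
    rw [h4]
    linarith
  refine ⟨C₁ * (3 + C * K) + 1, k, by positivity, hk0, fun x hx => ?_⟩
  have hx0 : 0 ≤ x := by linarith
  have he0 : 0 < Real.exp (-k * x) := Real.exp_pos _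
  have hCC : 0 ≤ C₁ * (C * K) := by positivity
  constructor
  · calc |A x| ≤ C₁ * Real.exp (-k₁ * x) := hdec x hx
      _ ≤ C₁ * Real.exp (-k * x) := mul_le_mul_of_nonneg_left (hkk x hx0) hC₁0
      _ ≤ (C₁ * (3 + C * K) + 1) * Real.exp (-k * x) := by
          apply mul_le_mul_of_nonneg_right _ he0.le
          linarith
  · obtain ⟨η, hη, he⟩ := exists_hasDerivAt_eq_slope A A1 (by linarith : x < x + 1)
      (fun y _ => (h1 y).continuousAt.continuousWithinAt) (fun y _ => h1 y)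
    obtain ⟨ζ, hζ, he2⟩ := exists_hasDerivAt_eq_slope A1 (fun x => V x * A x) hη.1
      (fun y _ => (h2 y).continuousAt.continuousWithinAt) (fun y _ => h2 y)
    have h4 : A1 η = A (x + 1) - A x := by
      rw [he]
      have : x + 1 - x = 1 := by ring
      rw [this, div_one]
    have h5 : A1 η - A1 x = V ζ * A ζ * (η - x) := by
      have h6 : η - x ≠ 0 := by linarith [hη.1]
      have he3 : V ζ * A ζ = (A1 η - A1 x) / (η - x) := he2
      rw [he3]
      field_simp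
    have hA1 : |A (x + 1)| ≤ C₁ * Real.exp (-k₁ * x) := by
      refine (hdec (x + 1) (by linarith)).trans (mul_le_mul_of_nonneg_left ?_ hC₁0)
      apply Real.exp_le_exp.2
      linarith
    have hA2 : |A ζ| ≤ C₁ * Real.exp (-k₁ * x) := by
      refine (hdec ζ (by linarith [hζ.1])).trans (mul_le_mul_of_nonneg_left ?_ hC₁0)
      apply Real.exp_le_exp.2
      have : k₁ * x ≤ k₁ * ζ := mul_le_mul_of_nonneg_left hζ.1.le hk₁0.le
      linarith
    have hVz : |V ζ| ≤ C * (2 + x) := by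
      have h6 := hV ζ (by linarith [hζ.1])
      have h7 := hV2 ζ (by linarith [hζ.1])
      rw [abs_of_nonneg (by linarith)]
      refine h7.trans (mul_le_mul_of_nonneg_left ?_ hC)
      linarith [hζ.2, hη.2]
    have h6 : |A1 η| ≤ 2 * (C₁ * Real.exp (-k₁ * x)) := by
      rw [h4]
      calc |A (x + 1) - A x| ≤ |A (x + 1)| + |A x| := abs_sub _ _
        _ ≤ _ := by linarith [hdec x hx]
    have h7 : |A1 η - A1 x| ≤ C * (2 + x) * (C₁ * Real.exp (-k₁ * x)) := by
      rw [h5, abs_mul, abs_mul]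
      have h8 : |η - x| ≤ 1 := by
        rw [abs_of_pos (by linarith [hη.1])]
        linarith [hη.2]
      calc |V ζ| * |A ζ| * |η - x| ≤ |V ζ| * |A ζ| * 1 :=
            mul_le_mul_of_nonneg_left h8 (by positivity)
        _ = |V ζ| * |A ζ| := mul_one _
        _ ≤ C * (2 + x) * (C₁ * Real.exp (-k₁ * x)) :=
            mul_le_mul hVz hA2 (abs_nonneg _) (by positivity)
    have h8 : |A1 x| ≤ |A1 η| + |A1 η - A1 x| := by
      have : A1 x = A1 η - (A1 η - A1 x) := by ring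
      calc |A1 x| = |A1 η - (A1 η - A1 x)| := by rw [← this]
        _ ≤ _ := abs_sub _ _
    have h9 : (2 + x) * Real.exp (-k₁ * x) ≤ K * Real.exp (-k * x) := by
      calc (2 + x) * Real.exp (-k₁ * x) ≤ (K * Real.exp (k * x)) * Real.exp (-k₁ * x) :=
            mul_le_mul_of_nonneg_right (hKx x hx0) (Real.exp_pos _).le
        _ = K * Real.exp (-k * x) := by
            rw [mul_assoc, ← Real.exp_add]
            congr 2
            rw [hk]
            ring
    calc |A1 x| ≤ 2 * (C₁ * Real.exp (-k₁ * x)) + C * (2 + x) * (C₁ * Real.exp (-k₁ * x)) := by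
          linarith
      _ = 2 * (C₁ * Real.exp (-k₁ * x)) + C * C₁ * ((2 + x) * Real.exp (-k₁ * x)) := by ring
      _ ≤ 2 * (C₁ * Real.exp (-k * x)) + C * C₁ * (K * Real.exp (-k * x)) := by
          apply add_le_add
          · apply mul_le_mul_of_nonneg_left _ (by norm_num)
            exact mul_le_mul_of_nonneg_left (hkk x hx0) hC₁0
          · exact mul_le_mul_of_nonneg_left h9 (by positivity)
      _ ≤ (C₁ * (3 + C * K) + 1) * Real.exp (-k * x) := by
          nlinarith [mul_nonneg hC₁0 he0.le]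

/-- exponential decay -/
theorem fold_decay {c s ρ : ℝ} {W A : ℝ → ℝ} (h : FoldW c s ρ W) (hA : ContDiff ℝ 2 A)
    (heq : ∀ ξ, deriv (deriv A) ξ + 2 * c * W ξ * A ξ = 0)
    (hbd : ∃ M : ℝ, ∀ ξ, |A ξ| ≤ M) :
    ∃ C k : ℝ, 0 < C ∧ 0 < k ∧ ∀ ξ, |A ξ| ≤ C * Real.exp (-k * |ξ|) ∧
      |deriv A ξ| ≤ C * Real.exp (-k * |ξ|) := by
  obtain ⟨ξ₀, c₀, hξ₀, hc₀, hWneg⟩ := fold_neg h
  obtain ⟨C, hC⟩ := h.growth
  obtain ⟨M, hM⟩ := hbd
  have hc := h.c_pos
  have hM0 : 0 ≤ M := (abs_nonneg _).trans (hM 0)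
  have hC1 : 0 < |C| + 1 := by positivity
  obtain ⟨hA1, hA2⟩ := FLO_c2 hA
  have hV : ∀ x, ξ₀ ≤ x → 2 * c * c₀ ≤ -(2 * c * W x) := by
    intro x hx
    have h1 := hWneg x (by rw [abs_of_pos (by linarith)]; exact hx)
    have h2 : 2 * c * c₀ ≤ 2 * c * (-W x) := mul_le_mul_of_nonneg_left (by linarith) (by linarith)
    linarith
  have hV2 : ∀ x, ξ₀ ≤ x → -(2 * c * W x) ≤ (2 * c * (|C| + 1)) * (1 + x) := by
    intro x hx
    have h1 := hC x
    rw [abs_of_pos (by linarith : 0 < x)] at h1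
    have h2 : C * (1 + x) ≤ (|C| + 1) * (1 + x) :=
      mul_le_mul_of_nonneg_right (by linarith [le_abs_self C]) (by linarith)
    have h3 := neg_abs_le (W x)
    have h4 : 2 * c * (-W x) ≤ 2 * c * ((|C| + 1) * (1 + x)) :=
      mul_le_mul_of_nonneg_left (by linarith) (by linarith)
    linarith
  have hA2' : ∀ x, HasDerivAt (deriv A) (-(2 * c * W x) * A x) x := fun x =>
    (hA2 x).congr_deriv (by linarith [heq x])
  obtain ⟨C₁, k₁, hC₁, hk₁, hr⟩ := FLO_decay (V := fun x => -(2 * c * W x)) (x₀ := ξ₀)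
    (κ₀ := 2 * c * c₀) (C := 2 * c * (|C| + 1)) (M := M) hξ₀ (by positivity) (by positivity) hM0
    hV hV2 hA1 hA2' hM
  have hB1 : ∀ x, HasDerivAt (fun x => A (-x)) (-deriv A (-x)) x := by
    intro x
    have h1 : HasDerivAt (fun x => A (-x)) (deriv A (-x) * (-1)) x :=
      (hA1 (-x)).comp x (hasDerivAt_neg x)
    exact h1.congr_deriv (by ring)
  have hB2 : ∀ x, HasDerivAt (fun x => -deriv A (-x)) (-(2 * c * W x) * A (-x)) x := by
    intro x
    have h1 : HasDerivAt (fun x => deriv A (-x)) (-(2 * c * W (-x)) * A (-x) * (-1)) x :=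
      (hA2' (-x)).comp x (hasDerivAt_neg x)
    refine h1.neg.congr_deriv ?_
    rw [h.even]
    ring
  obtain ⟨C₂, k₂, hC₂, hk₂, hl⟩ := FLO_decay (V := fun x => -(2 * c * W x)) (x₀ := ξ₀)
    (κ₀ := 2 * c * c₀) (C := 2 * c * (|C| + 1)) (M := M) hξ₀ (by positivity) (by positivity) hM0
    hV hV2 hB1 hB2 (fun x => hM (-x))
  have hAc : Continuous A := hA.continuous
  have hA1c : Continuous (deriv A) :=
    continuous_iff_continuousAt.2 fun x => (hA2 x).continuousAt
  obtain ⟨K₁, hK₁⟩ := (isCompact_Icc (a := -ξ₀) (b := ξ₀)).exists_bound_of_continuousOn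
    hAc.continuousOn
  obtain ⟨K₂, hK₂⟩ := (isCompact_Icc (a := -ξ₀) (b := ξ₀)).exists_bound_of_continuousOn
    hA1c.continuousOn
  have hmem : (0 : ℝ) ∈ Set.Icc (-ξ₀) ξ₀ := ⟨by linarith, by linarith⟩
  have hK₁0 : 0 ≤ K₁ := (norm_nonneg _).trans (hK₁ 0 hmem)
  have hK₂0 : 0 ≤ K₂ := (norm_nonneg _).trans (hK₂ 0 hmem)
  set k := min k₁ k₂ with hk
  have hk0 : 0 < k := lt_min hk₁ hk₂
  have he : 0 < Real.exp (k * ξ₀) := Real.exp_pos _
  refine ⟨C₁ + C₂ + (K₁ + K₂) * Real.exp (k * ξ₀), k, by positivity, hk0, fun x => ?_⟩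
  have hex : 0 < Real.exp (-k * |x|) := Real.exp_pos _
  have hcmp : ∀ D k', 0 ≤ D → k ≤ k' → D ≤ C₁ + C₂ + (K₁ + K₂) * Real.exp (k * ξ₀) →
      D * Real.exp (-k' * |x|) ≤
        (C₁ + C₂ + (K₁ + K₂) * Real.exp (k * ξ₀)) * Real.exp (-k * |x|) := by
    intro D k' hD hk' hDD
    have h1 : Real.exp (-k' * |x|) ≤ Real.exp (-k * |x|) := by
      apply Real.exp_le_exp.2
      have : k * |x| ≤ k' * |x| := mul_le_mul_of_nonneg_right hk' (abs_nonneg x)
      linarith
    exact mul_le_mul hDD h1 (Real.exp_pos _).le (hD.trans hDD)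
  have hK0 : 0 ≤ (K₁ + K₂) * Real.exp (k * ξ₀) := by positivity
  rcases le_or_gt ξ₀ |x| with hx | hx
  · rcases abs_choice x with hx2 | hx2
    · have hx3 : ξ₀ ≤ x := by rw [← hx2]; exact hx
      obtain ⟨h1, h2⟩ := hr x hx3
      have h3 := hcmp C₁ k₁ hC₁.le (min_le_left _ _) (by linarith)
      rw [hx2] at h3 ⊢
      exact ⟨h1.trans h3, h2.trans h3⟩
    · have hx3 : ξ₀ ≤ -x := by rw [← hx2]; exact hx
      obtain ⟨h1, h2⟩ := hl (-x) hx3
      have h3 := hcmp C₂ k₂ hC₂.le (min_le_right _ _) (by linarith)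
      rw [hx2] at h3 ⊢
      simp only [neg_neg, abs_neg] at h1 h2
      exact ⟨h1.trans h3, h2.trans h3⟩
  · have hx3 : x ∈ Set.Icc (-ξ₀) ξ₀ := ⟨(abs_lt.1 hx).1.le, (abs_lt.1 hx).2.le⟩
    have h1 := hK₁ x hx3
    have h2 := hK₂ x hx3
    rw [Real.norm_eq_abs] at h1 h2
    have h3 : K₁ + K₂ ≤ (K₁ + K₂) * Real.exp (k * ξ₀) * Real.exp (-k * |x|) := by
      rw [mul_assoc, ← Real.exp_add]
      have h4 : 1 ≤ Real.exp (k * ξ₀ + -k * |x|) := by
        apply Real.one_le_exp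
        have : k * |x| ≤ k * ξ₀ := mul_le_mul_of_nonneg_left hx.le hk0.le
        linarith
      have h5 : 0 ≤ K₁ + K₂ := by linarith
      nlinarith
    have h4 : (K₁ + K₂) * Real.exp (k * ξ₀) * Real.exp (-k * |x|) ≤
        (C₁ + C₂ + (K₁ + K₂) * Real.exp (k * ξ₀)) * Real.exp (-k * |x|) :=
      mul_le_mul_of_nonneg_right (by linarith) hex.le
    exact ⟨by linarith, by linarith⟩

/-- uniqueness for linear equations -/
private theorem FLO_uniq_aux {V A A1 : ℝ → ℝ} (hV : Continuous V)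
    (h1 : ∀ x, HasDerivAt A (A1 x) x) (h2 : ∀ x, HasDerivAt A1 (V x * A x) x) {x₀ : ℝ}
    (hz : A x₀ = 0) (hz1 : A1 x₀ = 0) {x : ℝ} (hx : x₀ ≤ x) : A x = 0 := by
  obtain ⟨K, hK⟩ := (isCompact_Icc (a := x₀) (b := x)).exists_bound_of_continuousOn
    hV.continuousOn
  have hd : ∀ y, HasDerivAt (fun y => A y ^ 2 + A1 y ^ 2)
      (2 * A y * A1 y + 2 * A1 y * (V y * A y)) y := by
    intro y
    refine HasDerivAt.congr_deriv (((h1 y).pow 2).add ((h2 y).pow 2)) ?_
    simp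
  have hexp : ∀ y, HasDerivAt (fun y => Real.exp (-(1 + K) * y))
      (Real.exp (-(1 + K) * y) * (-(1 + K))) y := by
    intro y
    have h3 : HasDerivAt (fun y => -(1 + K) * y) (-(1 + K) * 1) y :=
      (hasDerivAt_id y).const_mul (-(1 + K))
    have h4 := h3.exp
    rwa [mul_one] at h4
  have h4 := FLO_mono
    (f := fun y => -(Real.exp (-(1 + K) * y) * (A y ^ 2 + A1 y ^ 2)))
    (f' := fun y => -(Real.exp (-(1 + K) * y) * (-(1 + K)) * (A y ^ 2 + A1 y ^ 2) +
      Real.exp (-(1 + K) * y) * (2 * A y * A1 y + 2 * A1 y * (V y * A y)))) hx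
    (fun y _ _ => ((hexp y).mul (hd y)).neg) (fun y hy1 hy2 => by
      have h5 : |V y| ≤ K := by
        have := hK y ⟨hy1.le, hy2.le⟩
        rwa [Real.norm_eq_abs] at this
      have h6 : 2 * A y * A1 y + 2 * A1 y * (V y * A y) ≤ (1 + K) * (A y ^ 2 + A1 y ^ 2) := by
        have h7 : 2 * A y * A1 y * (1 + V y) ≤ |2 * A y * A1 y| * |1 + V y| := by
          rw [← abs_mul]
          exact le_abs_self _
        have h8 : |2 * A y * A1 y| ≤ A y ^ 2 + A1 y ^ 2 :=
          abs_le.2 ⟨by nlinarith [sq_nonneg (A y + A1 y)], by nlinarith [sq_nonneg (A y - A1 y)]⟩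
        have h9 : |1 + V y| ≤ 1 + K := by
          refine (abs_add_le _ _).trans ?_
          rw [abs_one]
          linarith
        have h10 := mul_le_mul h8 h9 (abs_nonneg _) (by positivity)
        linarith
      have h7 : Real.exp (-(1 + K) * y) * (-(1 + K)) * (A y ^ 2 + A1 y ^ 2) +
          Real.exp (-(1 + K) * y) * (2 * A y * A1 y + 2 * A1 y * (V y * A y)) =
          -(Real.exp (-(1 + K) * y) * ((1 + K) * (A y ^ 2 + A1 y ^ 2) -
            (2 * A y * A1 y + 2 * A1 y * (V y * A y)))) := by ring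
      rw [h7, neg_neg]
      exact mul_nonneg (Real.exp_pos _).le (by linarith))
  have h5 : -(Real.exp (-(1 + K) * x₀) * (A x₀ ^ 2 + A1 x₀ ^ 2)) ≤
      -(Real.exp (-(1 + K) * x) * (A x ^ 2 + A1 x ^ 2)) := h4
  rw [hz, hz1] at h5
  have h6 : Real.exp (-(1 + K) * x) * (A x ^ 2 + A1 x ^ 2) ≤ 0 := by
    have : Real.exp (-(1 + K) * x₀) * ((0 : ℝ) ^ 2 + 0 ^ 2) = 0 := by ring
    linarith
  have h7 : A x ^ 2 + A1 x ^ 2 ≤ 0 := by
    by_contra hneg
    rw [not_le] at hneg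
    have := mul_pos (Real.exp_pos (-(1 + K) * x)) hneg
    linarith
  have h8 : A x ^ 2 = 0 := le_antisymm (by linarith [sq_nonneg (A1 x)]) (sq_nonneg _)
  exact pow_eq_zero_iff (two_ne_zero) |>.1 h8

theorem FLO_uniq {V A A1 : ℝ → ℝ} (hV : Continuous V)
    (h1 : ∀ x, HasDerivAt A (A1 x) x) (h2 : ∀ x, HasDerivAt A1 (V x * A x) x) {x₀ : ℝ}
    (hz : A x₀ = 0) (hz1 : A1 x₀ = 0) (x : ℝ) : A x = 0 := by
  rcases le_total x₀ x with hx | hx
  · exact FLO_uniq_aux hV h1 h2 hz hz1 hx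
  · have hB1 : ∀ x, HasDerivAt (fun x => A (-x)) (-A1 (-x)) x := by
      intro x
      have h3 : HasDerivAt (fun x => A (-x)) (A1 (-x) * (-1)) x :=
        (h1 (-x)).comp x (hasDerivAt_neg x)
      exact h3.congr_deriv (by ring)
    have hB2 : ∀ x, HasDerivAt (fun x => -A1 (-x)) (V (-x) * A (-x)) x := by
      intro x
      have h3 : HasDerivAt (fun x => A1 (-x)) (V (-x) * A (-x) * (-1)) x :=
        (h2 (-x)).comp x (hasDerivAt_neg x)
      refine h3.neg.congr_deriv ?_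
      ring
    have h4 := FLO_uniq_aux (V := fun x => V (-x)) (A := fun x => A (-x))
      (A1 := fun x => -A1 (-x)) (hV.comp continuous_neg) hB1 hB2 (x₀ := -x₀)
      (by simp only [neg_neg]; exact hz) (by simp only [neg_neg]; rw [hz1, neg_zero])
      (x := -x) (by linarith)
    simpa using h4

private theorem FLO_lim {K k : ℝ} (hk : 0 < k) :
    Tendsto (fun x : ℝ => K * (1 + x) ^ 4 * Real.exp (-k * x)) atTop (𝓝 0) := by
  have h1 : Tendsto (fun x : ℝ => k * (1 + x)) atTop atTop :=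
    (tendsto_atTop_add_const_left atTop 1 tendsto_id).const_mul_atTop hk
  have h2 := (Real.tendsto_pow_mul_exp_neg_atTop_nhds_zero 4).comp h1
  have h3 := h2.const_mul (K * Real.exp k / k ^ 4)
  rw [mul_zero] at h3
  refine h3.congr (fun x => ?_)
  simp only [Function.comp_apply]
  have h4 : Real.exp (-(k * (1 + x))) = Real.exp (-k) * Real.exp (-k * x) := by
    rw [← Real.exp_add]
    congr 1
    ring
  rw [h4, mul_pow]
  have h5 : Real.exp k * Real.exp (-k) = 1 := by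
    rw [← Real.exp_add, add_neg_cancel, Real.exp_zero]
  have h6 : k ^ 4 ≠ 0 := pow_ne_zero 4 hk.ne'
  calc K * Real.exp k / k ^ 4 * (k ^ 4 * (1 + x) ^ 4 * (Real.exp (-k) * Real.exp (-k * x)))
      = K * (1 + x) ^ 4 * Real.exp (-k * x) * (Real.exp k * Real.exp (-k)) *
        (k ^ 4 / k ^ 4) := by ring
    _ = K * (1 + x) ^ 4 * Real.exp (-k * x) := by rw [h5, div_self h6]; ring

private theorem FLO_le0 {w : ℝ → ℝ} {a K k : ℝ} (hk : 0 < k)
    (hw : ∀ x, a ≤ x → w x ≤ K * (1 + x) ^ 4 * Real.exp (-k * x))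
    (hm : ∀ x y, a ≤ x → x ≤ y → w x ≤ w y) {x : ℝ} (hx : a ≤ x) : w x ≤ 0 :=
  ge_of_tendsto (FLO_lim (K := K) hk)
    (eventually_atTop.2 ⟨x, fun y hy => (hm x y hx hy).trans (hw y (hx.trans hy))⟩)

section fold2

variable {c s ρ : ℝ} {W : ℝ → ℝ}

private theorem FLO_gr (h : FoldW c s ρ W) : ∃ K : ℝ, 0 ≤ K ∧ ∀ x, 0 ≤ x →
    |W x| ≤ K * (1 + x) ∧ |s + ρ * x ^ 2 - c * W x ^ 2| ≤ K * (1 + x) ^ 2 ∧
      |deriv W x| ≤ K * (1 + x) ^ 3 := by
  obtain ⟨C, hC⟩ := h.growth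
  obtain ⟨hW1, hW2, hW3⟩ := FLO_W h
  have hc := h.c_pos
  have hρ := h.rho_nonneg
  set C' := |C| + 1 with hC'
  have hC'0 : 0 < C' := by positivity
  have hW : ∀ x, 0 ≤ x → |W x| ≤ C' * (1 + x) := by
    intro x hx
    have h1 := hC x
    rw [abs_of_nonneg hx] at h1
    exact h1.trans (mul_le_mul_of_nonneg_right (by linarith [le_abs_self C]) (by linarith))
  set K := C' + |s| + ρ + c * C' ^ 2 with hK
  have hK0 : 0 ≤ K := by positivity
  have hb2 : ∀ x, 0 ≤ x → |s + ρ * x ^ 2 - c * W x ^ 2| ≤ K * (1 + x) ^ 2 := by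
    intro x hx
    have h1 : W x ^ 2 ≤ C' ^ 2 * (1 + x) ^ 2 := by
      rw [← sq_abs, ← mul_pow]
      exact pow_le_pow_left₀ (abs_nonneg _) (hW x hx) 2
    have h2 : c * W x ^ 2 ≤ c * (C' ^ 2 * (1 + x) ^ 2) := mul_le_mul_of_nonneg_left h1 hc.le
    have h3 : 1 ≤ (1 + x) ^ 2 := by nlinarith
    have h4 : |s| ≤ |s| * (1 + x) ^ 2 := by nlinarith [abs_nonneg s]
    have h5 : ρ * x ^ 2 ≤ ρ * (1 + x) ^ 2 := mul_le_mul_of_nonneg_left (by nlinarith) hρ
    have h6 : 0 ≤ ρ * x ^ 2 := by positivity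
    have h7 : 0 ≤ c * W x ^ 2 := by positivity
    have h8 : 0 ≤ C' * (1 + x) ^ 2 := by positivity
    have h9 : K * (1 + x) ^ 2 = C' * (1 + x) ^ 2 + |s| * (1 + x) ^ 2 + ρ * (1 + x) ^ 2 +
        c * (C' ^ 2 * (1 + x) ^ 2) := by rw [hK]; ring
    rw [h9]
    have h10 := neg_abs_le s
    have h11 := le_abs_self s
    exact abs_le.2 ⟨by linarith, by linarith⟩
  refine ⟨K, hK0, fun x hx => ⟨?_, hb2 x hx, ?_⟩⟩
  · refine (hW x hx).trans (mul_le_mul_of_nonneg_right ?_ (by linarith))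
    have : 0 ≤ |s| + ρ + c * C' ^ 2 := by positivity
    linarith
  · have hW10 : deriv W 0 = 0 := by
      have := FLO_even hW1 h.even 0
      rw [neg_zero] at this
      linarith
    rcases eq_or_lt_of_le hx with h0 | h0
    · rw [← h0, hW10, abs_zero]
      positivity
    · obtain ⟨η, hη, he⟩ := exists_hasDerivAt_eq_slope (deriv W)
        (fun x => s + ρ * x ^ 2 - c * W x ^ 2) h0
        (fun y _ => (hW2 y).continuousAt.continuousWithinAt) (fun y _ => hW2 y)
      have h1 : deriv W x = (s + ρ * η ^ 2 - c * W η ^ 2) * x := by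
        have he2 : s + ρ * η ^ 2 - c * W η ^ 2 = (deriv W x - deriv W 0) / (x - 0) := he
        rw [he2, hW10, sub_zero, sub_zero]
        field_simp
      rw [h1, abs_mul, abs_of_pos h0]
      have h2 := hb2 η hη.1.le
      have h3 : K * (1 + η) ^ 2 ≤ K * (1 + x) ^ 2 := by
        apply mul_le_mul_of_nonneg_left _ hK0
        exact pow_le_pow_left₀ (by linarith [hη.1]) (by linarith [hη.2]) 2
      calc |s + ρ * η ^ 2 - c * W η ^ 2| * x ≤ K * (1 + x) ^ 2 * (1 + x) :=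
            mul_le_mul (h2.trans h3) (by linarith) h0.le (by positivity)
        _ = K * (1 + x) ^ 3 := by ring

private theorem FLO_nodal (h : FoldW c s ρ W) {A A1 : ℝ → ℝ}
    (hA1 : ∀ x, HasDerivAt A (A1 x) x) (hA2 : ∀ x, HasDerivAt A1 (-(2 * c * W x) * A x) x)
    {C k : ℝ} (hC : 0 < C) (hk : 0 < k)
    (hd : ∀ x, 0 ≤ x → |A x| ≤ C * Real.exp (-k * x) ∧ |A1 x| ≤ C * Real.exp (-k * x))
    {ξ₁ : ℝ} (hξ : 0 < ξ₁) (hz : A ξ₁ = 0) (hp : 0 < A1 ξ₁) : ρ = 0 ∧ deriv W ξ₁ = 0 := by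
  obtain ⟨hW1, hW2, hW3⟩ := FLO_W h
  obtain ⟨K, hK0, hK⟩ := FLO_gr h
  have hρ := h.rho_nonneg
  set w : ℝ → ℝ := fun x => -deriv W x * A1 x + (s + ρ * x ^ 2 - c * W x ^ 2) * A x with hw
  have hwd : ∀ x, HasDerivAt w (2 * ρ * x * A x) x := by
    intro x
    refine HasDerivAt.congr_deriv (((hW2 x).neg.mul (hA2 x)).add ((hW3 x).mul (hA1 x))) ?_
    simp only [Pi.neg_apply]
    ring
  have hwb : ∀ x, 0 ≤ x → w x ≤ (2 * K * C) * (1 + x) ^ 4 * Real.exp (-k * x) := by
    intro x hx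
    obtain ⟨h1, h2, h3⟩ := hK x hx
    obtain ⟨h4, h5⟩ := hd x hx
    have he := Real.exp_pos (-k * x)
    have h6 : |deriv W x * A1 x| ≤ K * (1 + x) ^ 3 * (C * Real.exp (-k * x)) := by
      rw [abs_mul]
      exact mul_le_mul h3 h5 (abs_nonneg _) (by positivity)
    have h7 : |(s + ρ * x ^ 2 - c * W x ^ 2) * A x| ≤
        K * (1 + x) ^ 2 * (C * Real.exp (-k * x)) := by
      rw [abs_mul]
      exact mul_le_mul h2 h4 (abs_nonneg _) (by positivity)
    have h8 : K * (1 + x) ^ 3 * (C * Real.exp (-k * x)) ≤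
        K * (1 + x) ^ 4 * (C * Real.exp (-k * x)) := by
      apply mul_le_mul_of_nonneg_right _ (by positivity)
      apply mul_le_mul_of_nonneg_left _ hK0
      exact pow_le_pow_right₀ (by linarith) (by norm_num)
    have h9 : K * (1 + x) ^ 2 * (C * Real.exp (-k * x)) ≤
        K * (1 + x) ^ 4 * (C * Real.exp (-k * x)) := by
      apply mul_le_mul_of_nonneg_right _ (by positivity)
      apply mul_le_mul_of_nonneg_left _ hK0
      exact pow_le_pow_right₀ (by linarith) (by norm_num)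
    have h10 := neg_abs_le (deriv W x * A1 x)
    have h11 := le_abs_self ((s + ρ * x ^ 2 - c * W x ^ 2) * A x)
    have h12 : w x = -(deriv W x * A1 x) + (s + ρ * x ^ 2 - c * W x ^ 2) * A x := by
      rw [hw]
      ring
    rw [h12]
    have h13 : (2 * K * C) * (1 + x) ^ 4 * Real.exp (-k * x) =
        K * (1 + x) ^ 4 * (C * Real.exp (-k * x)) + K * (1 + x) ^ 4 * (C * Real.exp (-k * x)) := by
      ring
    rw [h13]
    linarith
  -- `A` is positive to the right of `ξ₁`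
  have hsl : ∀ᶠ x in 𝓝[>] ξ₁, 0 < A x := by
    have h1 : Tendsto (slope A ξ₁) (𝓝[>] ξ₁) (𝓝 (A1 ξ₁)) :=
      (hasDerivAt_iff_tendsto_slope.1 (hA1 ξ₁)).mono_left
        (nhdsWithin_mono ξ₁ (fun y hy => ne_of_gt hy))
    filter_upwards [h1.eventually (lt_mem_nhds hp), self_mem_nhdsWithin] with x hx1 hx2
    have hx2' : ξ₁ < x := hx2
    rw [slope_def_field, hz, sub_zero] at hx1
    by_contra hneg
    rw [not_lt] at hneg
    have : A x / (x - ξ₁) ≤ 0 := div_nonpos_of_nonpos_of_nonneg hneg (by linarith)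
    linarith
  obtain ⟨p, hp1, hp2⟩ := mem_nhdsGT_iff_exists_Ioc_subset.1 hsl
  have hp1' : ξ₁ < p := hp1
  have hAp : ∀ x, ξ₁ < x → x ≤ p → 0 < A x := fun x h1 h2 => hp2 ⟨h1, h2⟩
  -- monotonicity of `w`
  have hmono : ∀ z, (∀ x, ξ₁ < x → x < z → 0 < A x) → ∀ x y, ξ₁ ≤ x → x ≤ y → y ≤ z →
      w x ≤ w y := by
    intro z hzp x y hx hxy hyz
    refine FLO_mono hxy (fun t _ _ => hwd t) (fun t ht1 ht2 => ?_)
    have h1 := hzp t (by linarith) (by linarith)
    have h2 : 0 < t := by linarith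
    positivity
  have hup : ∀ x, ξ₁ ≤ x → x ≤ p → w x ≤ 0 := by
    by_cases hall : ∀ x, p ≤ x → 0 < A x
    · have hpos : ∀ x, ξ₁ < x → 0 < A x := by
        intro x hx
        rcases le_total x p with h1 | h1
        · exact hAp x hx h1
        · exact hall x h1
      intro x hx _
      exact FLO_le0 (a := ξ₁) (K := 2 * K * C) hk (fun y hy => hwb y (by linarith))
        (fun y z hy hyz => hmono z (fun t ht _ => hpos t ht) y z hy hyz le_rfl) hx
    · push Not at hall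
      obtain ⟨x₂, hx₂, hx₂'⟩ := hall
      obtain ⟨z, hz1, hz2, hz3, hz4⟩ := FLO_first (D := A)
        (fun y _ => (hA1 y).continuousAt.continuousWithinAt) hx₂ (hAp p hp1' le_rfl) hx₂'
      have hposz : ∀ x, ξ₁ < x → x < z → 0 < A x := by
        intro x hx hxz
        rcases le_total x p with h1 | h1
        · exact hAp x hx h1
        · exact hz4 x h1 hxz
      have hA1z : A1 z ≤ 0 := by
        have h1 : Tendsto (slope A z) (𝓝[<] z) (𝓝 (A1 z)) :=
          (hasDerivAt_iff_tendsto_slope.1 (hA1 z)).mono_left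
            (nhdsWithin_mono z (fun y hy => ne_of_lt hy))
        refine le_of_tendsto h1 ?_
        filter_upwards [Ioo_mem_nhdsLT hz1] with y hy
        rw [slope_def_field, hz3, sub_zero]
        exact div_nonpos_of_nonneg_of_nonpos (hz4 y hy.1.le hy.2).le (by linarith [hy.2])
      have hwz : w z ≤ 0 := by
        have h1 : w z = -deriv W z * A1 z := by
          rw [hw]
          simp only [hz3, mul_zero, add_zero]
        rw [h1]
        exact mul_nonpos_of_nonneg_of_nonpos (by linarith [FLO_W1 h (by linarith : 0 ≤ z)]) hA1z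
      intro x hx hxp
      exact (hmono z hposz x z hx (by linarith) le_rfl).trans hwz
  have hwξ : w ξ₁ = -deriv W ξ₁ * A1 ξ₁ := by
    rw [hw]
    simp only [hz, mul_zero, add_zero]
  have hwξ0 : 0 ≤ w ξ₁ := by
    rw [hwξ]
    exact mul_nonneg (by linarith [FLO_W1 h hξ.le]) hp.le
  have hw0 : ∀ x, ξ₁ ≤ x → x ≤ p → w x = 0 := by
    intro x hx hxp
    have h1 := hmono p (fun t ht1 ht2 => hAp t ht1 ht2.le) ξ₁ x le_rfl hx hxp
    exact le_antisymm (hup x hx hxp) (hwξ0.trans h1)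
  constructor
  · obtain ⟨η, hη, he⟩ := exists_hasDerivAt_eq_slope w (fun x => 2 * ρ * x * A x) hp1'
      (fun y _ => (hwd y).continuousAt.continuousWithinAt) (fun y _ => hwd y)
    rw [hw0 p hp1'.le le_rfl, hw0 ξ₁ le_rfl hp1'.le, sub_zero, zero_div] at he
    have h1 : 0 < A η := hAp η hη.1 hη.2.le
    have h2 : 0 < η := by linarith [hη.1]
    have he' : 2 * ρ * η * A η = 0 := he
    have h3 : ρ * (2 * η * A η) = 0 := by linarith
    exact (mul_eq_zero.1 h3).resolve_right (by positivity)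
  · have h1 := hw0 ξ₁ le_rfl hp1'.le
    rw [hwξ] at h1
    have h2 := (mul_eq_zero.1 h1).resolve_right hp.ne'
    linarith

/-- no zeros -/
private theorem FLO_nozero (h : FoldW c s ρ W) {A A1 : ℝ → ℝ}
    (hA1 : ∀ x, HasDerivAt A (A1 x) x) (hA2 : ∀ x, HasDerivAt A1 (-(2 * c * W x) * A x) x)
    {C k : ℝ} (hC : 0 < C) (hk : 0 < k)
    (hd : ∀ x, 0 ≤ x → |A x| ≤ C * Real.exp (-k * x) ∧ |A1 x| ≤ C * Real.exp (-k * x))
    (hev : ∀ x, A (-x) = A x) (hne : ∃ ξ, A ξ ≠ 0) {ξ₁ : ℝ} (hξ : 0 ≤ ξ₁) : A ξ₁ ≠ 0 := by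
  intro hz
  obtain ⟨hW1, hW2, hW3⟩ := FLO_W h
  have hc := h.c_pos
  have hVc : Continuous (fun x => -(2 * c * W x)) := (h.smooth.continuous.const_mul (2 * c)).neg
  obtain ⟨ξ', hξ'⟩ := hne
  have hA10 : A1 0 = 0 := by
    have := FLO_even hA1 hev 0
    rw [neg_zero] at this
    linarith
  have hne1 : A1 ξ₁ ≠ 0 := fun h1 => hξ' (FLO_uniq hVc hA1 hA2 hz h1 ξ')
  have hξ0 : 0 < ξ₁ := by
    rcases eq_or_lt_of_le hξ with h1 | h1
    · rw [← h1] at hne1
      exact absurd hA10 hne1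
    · exact h1
  have key : ρ = 0 ∧ deriv W ξ₁ = 0 := by
    rcases lt_or_gt_of_ne hne1 with h1 | h1
    · refine FLO_nodal h (A := fun x => -A x) (A1 := fun x => -A1 x) (fun x => (hA1 x).neg)
        (fun x => ((hA2 x).neg).congr_deriv (by ring)) hC hk (fun x hx => ?_) hξ0
        (by simp only [hz, neg_zero]) (by linarith)
      rw [abs_neg, abs_neg]
      exact hd x hx
    · exact FLO_nodal h hA1 hA2 hC hk hd hξ0 hz h1
  obtain ⟨hρ, hW1z⟩ := key
  subst hρ
  have hmax : IsLocalMax (deriv W) ξ₁ := by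
    filter_upwards [Ioi_mem_nhds hξ0] with y hy
    rw [hW1z]
    exact FLO_W1 h (le_of_lt hy)
  have hW2z : s + 0 * ξ₁ ^ 2 - c * W ξ₁ ^ 2 = 0 := hmax.hasDerivAt_eq_zero (hW2 ξ₁)
  have hW10 : ∀ x, deriv W x = 0 := by
    refine FLO_uniq (V := fun x => -(2 * c * W x)) (A := deriv W)
      (A1 := fun x => s + 0 * x ^ 2 - c * W x ^ 2) hVc hW2 (fun x => ?_) hW1z hW2z
    exact (hW3 x).congr_deriv (by ring)
  have hWc : ∀ x, 0 ≤ x → W x = W 0 := by
    intro x hx
    have h1 := FLO_mono (f := W) (f' := deriv W) hx (fun y _ _ => hW1 y)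
      (fun y _ _ => (hW10 y).ge)
    exact le_antisymm (h.anti 0 x le_rfl hx) h1
  obtain ⟨ξ₀, c₀, hξ₀, hc₀, hWneg⟩ := fold_neg h
  have hW0 : W 0 ≤ -c₀ := by
    rw [← hWc ξ₀ hξ₀.le]
    exact hWneg ξ₀ (le_abs_self _)
  have hE1 : ∀ x, 0 ≤ x → 0 ≤ 2 * A x * A1 x := by
    intro x hx
    have hEd : ∀ y, HasDerivAt (fun y => 2 * A y * A1 y)
        (2 * A1 y ^ 2 + 2 * (-(2 * c * W y)) * A y ^ 2) y := by
      intro y
      refine HasDerivAt.congr_deriv (((hA1 y).const_mul 2).mul (hA2 y)) ?_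
      ring
    have h1 := FLO_mono (f := fun y => 2 * A y * A1 y)
      (f' := fun y => 2 * A1 y ^ 2 + 2 * (-(2 * c * W y)) * A y ^ 2) hx (fun y _ _ => hEd y)
      (fun y hy _ => by
        rw [hWc y hy.le]
        have h2 : 0 ≤ -(2 * c * W 0) := by
          have : 2 * c * W 0 ≤ 0 :=
            mul_nonpos_of_nonneg_of_nonpos (by linarith) (by linarith)
          linarith
        positivity)
    have h2 : 2 * A 0 * A1 0 ≤ 2 * A x * A1 x := h1
    rw [hA10, mul_zero] at h2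
    exact h2
  have hE : ∀ x, 0 ≤ x → A 0 ^ 2 ≤ A x ^ 2 := by
    intro x hx
    have hEd : ∀ y, HasDerivAt (fun y => A y ^ 2) (2 * A y * A1 y) y := by
      intro y
      refine HasDerivAt.congr_deriv ((hA1 y).pow 2) ?_
      simp
    exact FLO_mono (f := fun y => A y ^ 2) hx (fun y _ _ => hEd y) (fun y hy _ => hE1 y hy.le)
  have hlim : A 0 ^ 2 ≤ 0 := by
    have h2k : 0 < 2 * k := by linarith
    refine ge_of_tendsto (FLO_lim (K := C ^ 2) h2k) (eventually_atTop.2 ⟨0, fun x hx => ?_⟩)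
    refine (hE x hx).trans ?_
    have h1 := (hd x hx).1
    have h2 : A x ^ 2 ≤ (C * Real.exp (-k * x)) ^ 2 := by
      rw [← sq_abs]
      exact pow_le_pow_left₀ (abs_nonneg _) h1 2
    have h3 : (C * Real.exp (-k * x)) ^ 2 = C ^ 2 * Real.exp (-(2 * k) * x) := by
      rw [mul_pow, ← Real.exp_nat_mul]
      congr 2
      push_cast
      ring
    rw [h3] at h2
    refine h2.trans ?_
    have h4 : 1 ≤ (1 + x) ^ 4 := one_le_pow₀ (by linarith)
    have h5 : 0 ≤ C ^ 2 * Real.exp (-(2 * k) * x) := by positivity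
    calc C ^ 2 * Real.exp (-(2 * k) * x) = C ^ 2 * Real.exp (-(2 * k) * x) * 1 := by ring
      _ ≤ C ^ 2 * Real.exp (-(2 * k) * x) * (1 + x) ^ 4 := mul_le_mul_of_nonneg_left h4 h5
      _ = C ^ 2 * (1 + x) ^ 4 * Real.exp (-(2 * k) * x) := by ring
  have hA0 : A 0 = 0 := by
    have : A 0 ^ 2 = 0 := le_antisymm hlim (sq_nonneg _)
    exact pow_eq_zero_iff (two_ne_zero) |>.1 this
  exact hξ' (FLO_uniq hVc hA1 hA2 hA0 hA10 ξ')

end fold2

theorem fold_pos {c s ρ : ℝ} {W A : ℝ → ℝ} (h : FoldW c s ρ W) (hA : ContDiff ℝ 2 A)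
    (heq : ∀ ξ, deriv (deriv A) ξ + 2 * c * W ξ * A ξ = 0) (hev : ∀ ξ, A (-ξ) = A ξ)
    (hbd : ∃ M : ℝ, ∀ ξ, |A ξ| ≤ M) (hne : ∃ ξ, A ξ ≠ 0)
    (hA0 : 0 ≤ ∫ ξ, A ξ) : (∀ ξ, 0 < A ξ) ∧ 0 < ρ := by
  obtain ⟨C, k, hC, hk, hdec⟩ := fold_decay h hA heq hbd
  obtain ⟨hA1, hA2⟩ := FLO_c2 hA
  obtain ⟨hW1, hW2, hW3⟩ := FLO_W h
  have hc := h.c_pos
  have hA2' : ∀ x, HasDerivAt (deriv A) (-(2 * c * W x) * A x) x := fun x =>
    (hA2 x).congr_deriv (by linarith [heq x])
  have hd : ∀ x, 0 ≤ x → |A x| ≤ C * Real.exp (-k * x) ∧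
      |deriv A x| ≤ C * Real.exp (-k * x) := by
    intro x hx
    have := hdec x
    rwa [abs_of_nonneg hx] at this
  have hnz : ∀ x, A x ≠ 0 := by
    intro x
    rcases le_total 0 x with hx | hx
    · exact FLO_nozero h hA1 hA2' hC hk hd hev hne hx
    · have h1 := FLO_nozero h hA1 hA2' hC hk hd hev hne (by linarith : 0 ≤ -x)
      rwa [hev] at h1
  have hAc : Continuous A := hA.continuous
  have hsign : ∀ x y, 0 < A x → ¬ A y < 0 := by
    intro x y hx hy
    obtain ⟨z, hz⟩ := mem_range_of_exists_le_of_exists_ge hAc ⟨y, hy.le⟩ ⟨x, hx.le⟩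
    exact hnz z hz
  have hAint : MeasureTheory.Integrable A := by
    have hg : MeasureTheory.Integrable (fun x : ℝ => C * Real.exp (-k * |x|)) := by
      have h1 : MeasureTheory.IntegrableOn (fun x : ℝ => Real.exp (-k * |x|)) (Set.Ioi 0) := by
        refine (exp_neg_integrableOn_Ioi 0 hk).congr_fun ?_ measurableSet_Ioi
        intro x hx
        have hx' : (0 : ℝ) < x := hx
        simp only
        rw [abs_of_pos hx']
      have h2 : MeasureTheory.IntegrableOn (fun x : ℝ => Real.exp (-k * |x|)) (Set.Iic 0) := by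
        have h1' : MeasureTheory.IntegrableOn (fun x : ℝ => Real.exp (-k * |x|))
            (Set.Ioi (-(0 : ℝ))) := by
          rw [neg_zero]
          exact h1
        have h3 := h1'.comp_neg_Iio
        rw [integrableOn_Iic_iff_integrableOn_Iio]
        simpa using h3
      have h4 := h2.union h1
      rw [Set.Iic_union_Ioi, MeasureTheory.integrableOn_univ] at h4
      exact h4.const_mul C
    refine hg.mono' hAc.aestronglyMeasurable ?_
    exact Filter.Eventually.of_forall fun x => (hdec x).1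
  have hA0pos : 0 < A 0 := by
    by_contra hneg
    have hA0neg : A 0 < 0 := lt_of_le_of_ne (not_lt.1 hneg) (hnz 0)
    have hall : ∀ x, A x < 0 := by
      intro x
      rcases lt_or_gt_of_ne (hnz x) with h1 | h1
      · exact h1
      · exact absurd hA0neg (hsign x 0 h1)
    have hlt : 0 < ∫ x, -A x := by
      rw [MeasureTheory.integral_pos_iff_support_of_nonneg (f := fun x => -A x)
        (fun x => by show 0 ≤ -A x; linarith [hall x]) hAint.neg]
      have : Function.support (fun x => -A x) = Set.univ := by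
        ext x
        simp [hnz x]
      rw [this]
      simp
    rw [MeasureTheory.integral_neg] at hlt
    linarith
  have hApos : ∀ x, 0 < A x := by
    intro x
    rcases lt_or_gt_of_ne (hnz x) with h1 | h1
    · exact absurd h1 (hsign 0 x hA0pos)
    · exact h1
  refine ⟨hApos, ?_⟩
  rcases eq_or_lt_of_le h.rho_nonneg with hρ | hρ
  swap
  · exact hρ
  exfalso
  subst hρ
  obtain ⟨K, hK0, hK⟩ := FLO_gr h
  have hA10 : deriv A 0 = 0 := by
    have := FLO_even hA1 hev 0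
    rw [neg_zero] at this
    linarith
  have hW10 : deriv W 0 = 0 := by
    have := FLO_even hW1 h.even 0
    rw [neg_zero] at this
    linarith
  -- the Wronskian with the dilation
  set w : ℝ → ℝ := fun x => (3 * deriv W x + x * (s + 0 * x ^ 2 - c * W x ^ 2)) * A x -
    (x * deriv W x + 2 * W x) * deriv A x with hw
  have hwd : ∀ x, HasDerivAt w (4 * s * A x) x := by
    intro x
    have h1 : HasDerivAt (fun x => 3 * deriv W x + x * (s + 0 * x ^ 2 - c * W x ^ 2))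
        (3 * (s + 0 * x ^ 2 - c * W x ^ 2) + (1 * (s + 0 * x ^ 2 - c * W x ^ 2) +
          x * (2 * 0 * x - 2 * c * W x * deriv W x))) x :=
      ((hW2 x).const_mul 3).add ((hasDerivAt_id x).mul (hW3 x))
    have h2 : HasDerivAt (fun x => x * deriv W x + 2 * W x)
        (1 * deriv W x + x * (s + 0 * x ^ 2 - c * W x ^ 2) + 2 * deriv W x) x :=
      ((hasDerivAt_id x).mul (hW2 x)).add ((hW1 x).const_mul 2)
    refine HasDerivAt.congr_deriv ((h1.mul (hA1 x)).sub (h2.mul (hA2' x))) ?_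
    ring
  have hw0 : w 0 = 0 := by
    rw [hw]
    simp only [hW10, hA10]
    ring
  have hwb : ∀ x, 0 ≤ x → |w x| ≤ (8 * K * C) * (1 + x) ^ 4 * Real.exp (-k * x) := by
    intro x hx
    obtain ⟨h1, h2, h3⟩ := hK x hx
    obtain ⟨h4, h5⟩ := hd x hx
    have he := Real.exp_pos (-k * x)
    have hp3 : (1 + x) ^ 3 ≤ (1 + x) ^ 4 := pow_le_pow_right₀ (by linarith) (by norm_num)
    have hp1 : (1 + x) ≤ (1 + x) ^ 4 := by
      calc (1 + x) = (1 + x) ^ 1 := (pow_one _).symm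
        _ ≤ (1 + x) ^ 4 := pow_le_pow_right₀ (by linarith) (by norm_num)
    have h6 : |3 * deriv W x + x * (s + 0 * x ^ 2 - c * W x ^ 2)| ≤ 4 * (K * (1 + x) ^ 4) := by
      have h7 : |3 * deriv W x| ≤ 3 * (K * (1 + x) ^ 3) := by
        rw [abs_mul, abs_of_pos (by norm_num : (0 : ℝ) < 3)]
        exact mul_le_mul_of_nonneg_left h3 (by norm_num)
      have h8 : |x * (s + 0 * x ^ 2 - c * W x ^ 2)| ≤ (1 + x) * (K * (1 + x) ^ 2) := by
        rw [abs_mul, abs_of_nonneg hx]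
        exact mul_le_mul (by linarith) h2 (abs_nonneg _) (by linarith)
      have h9 : (1 + x) * (K * (1 + x) ^ 2) = K * (1 + x) ^ 3 := by ring
      have h10 : K * (1 + x) ^ 3 ≤ K * (1 + x) ^ 4 := mul_le_mul_of_nonneg_left hp3 hK0
      refine (abs_add_le _ _).trans ?_
      linarith
    have h7 : |x * deriv W x + 2 * W x| ≤ 4 * (K * (1 + x) ^ 4) := by
      have h8 : |x * deriv W x| ≤ (1 + x) * (K * (1 + x) ^ 3) := by
        rw [abs_mul, abs_of_nonneg hx]
        exact mul_le_mul (by linarith) h3 (abs_nonneg _) (by linarith)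
      have h9 : |2 * W x| ≤ 2 * (K * (1 + x)) := by
        rw [abs_mul, abs_of_pos (by norm_num : (0 : ℝ) < 2)]
        exact mul_le_mul_of_nonneg_left h1 (by norm_num)
      have h10 : K * (1 + x) ≤ K * (1 + x) ^ 4 := mul_le_mul_of_nonneg_left hp1 hK0
      have h11 : 0 ≤ K * (1 + x) ^ 4 := by positivity
      have h12 : (1 + x) * (K * (1 + x) ^ 3) = K * (1 + x) ^ 4 := by ring
      refine (abs_add_le _ _).trans ?_
      linarith
    have h8 : |(3 * deriv W x + x * (s + 0 * x ^ 2 - c * W x ^ 2)) * A x| ≤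
        4 * (K * (1 + x) ^ 4) * (C * Real.exp (-k * x)) := by
      rw [abs_mul]
      exact mul_le_mul h6 h4 (abs_nonneg _) (by positivity)
    have h9 : |(x * deriv W x + 2 * W x) * deriv A x| ≤
        4 * (K * (1 + x) ^ 4) * (C * Real.exp (-k * x)) := by
      rw [abs_mul]
      exact mul_le_mul h7 h5 (abs_nonneg _) (by positivity)
    calc |w x| ≤ |(3 * deriv W x + x * (s + 0 * x ^ 2 - c * W x ^ 2)) * A x| +
          |(x * deriv W x + 2 * W x) * deriv A x| := abs_sub _ _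
      _ ≤ 4 * (K * (1 + x) ^ 4) * (C * Real.exp (-k * x)) +
          4 * (K * (1 + x) ^ 4) * (C * Real.exp (-k * x)) := add_le_add h8 h9
      _ = (8 * K * C) * (1 + x) ^ 4 * Real.exp (-k * x) := by ring
  have hs : s = 0 := by
    by_contra hne'
    rcases lt_or_gt_of_ne hne' with hs | hs
    · have h1 := FLO_le0 (w := fun x => -w x) (a := 0) (K := 8 * K * C) hk
        (fun x hx => (neg_le_abs (w x)).trans (hwb x hx))
        (fun x y hx hxy => FLO_mono (f := fun x => -w x) hxy (fun t _ _ => (hwd t).neg)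
          (fun t _ _ => by
            have := mul_neg_of_neg_of_pos (by linarith : 4 * s < 0) (hApos t)
            linarith)) (x := 1) zero_le_one
      obtain ⟨η, hη, he⟩ := exists_hasDerivAt_eq_slope w (fun x => 4 * s * A x)
        (zero_lt_one' ℝ) (fun y _ => (hwd y).continuousAt.continuousWithinAt) (fun y _ => hwd y)
      rw [hw0, sub_zero, sub_zero, div_one] at he
      have h2 : 4 * s * A η < 0 := mul_neg_of_neg_of_pos (by linarith) (hApos η)
      have h3 : 4 * s * A η = w 1 := he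
      have h4 : -w 1 ≤ 0 := h1
      linarith
    · have h1 := FLO_le0 (w := w) (a := 0) (K := 8 * K * C) hk
        (fun x hx => (le_abs_self (w x)).trans (hwb x hx))
        (fun x y hx hxy => FLO_mono (f := w) hxy (fun t _ _ => hwd t)
          (fun t _ _ => (mul_pos (by linarith : 0 < 4 * s) (hApos t)).le)) (x := 1) zero_le_one
      obtain ⟨η, hη, he⟩ := exists_hasDerivAt_eq_slope w (fun x => 4 * s * A x)
        (zero_lt_one' ℝ) (fun y _ => (hwd y).continuousAt.continuousWithinAt) (fun y _ => hwd y)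
      rw [hw0, sub_zero, sub_zero, div_one] at he
      have h2 : 0 < 4 * s * A η := mul_pos (by linarith) (hApos η)
      have h3 : 4 * s * A η = w 1 := he
      linarith
  subst hs
  -- quadratic growth
  obtain ⟨ξ₀, c₀, hξ₀, hc₀, hWneg⟩ := fold_neg h
  set e := c * c₀ ^ 2 with he
  have he0 : 0 < e := by positivity
  have hlow : ∀ x, ξ₀ ≤ x → e ≤ c * W x ^ 2 := by
    intro x hx
    have h1 := hWneg x (hx.trans (le_abs_self x))
    have h2 : c₀ ^ 2 ≤ W x ^ 2 := by nlinarith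
    exact mul_le_mul_of_nonneg_left h2 hc.le
  have hD1 : ∀ x, ξ₀ ≤ x → e * (x - ξ₀) ≤ -deriv W x := by
    intro x hx
    have h1 := FLO_grow (f := fun x => -deriv W x) (f' := fun x => -(0 + 0 * x ^ 2 - c * W x ^ 2))
      (ε := e) hx (fun y _ _ => (hW2 y).neg) (fun y hy _ => by
        have := hlow y hy.le
        linarith)
    have h2 : -deriv W ξ₀ + e * (x - ξ₀) ≤ -deriv W x := h1
    have h3 := FLO_W1 h hξ₀.le
    linarith
  have hD0 : ∀ x, ξ₀ ≤ x → e / 2 * (x - ξ₀) ^ 2 ≤ -W x := by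
    intro x hx
    have hq : ∀ y, HasDerivAt (fun y => -W y - e / 2 * (y - ξ₀) ^ 2)
        (-deriv W y - e * (y - ξ₀)) y := by
      intro y
      have h1 : HasDerivAt (fun y => (y - ξ₀) ^ 2) (2 * (y - ξ₀)) y := by
        refine HasDerivAt.congr_deriv (((hasDerivAt_id y).sub_const ξ₀).pow 2) ?_
        simp
      refine HasDerivAt.congr_deriv ((hW1 y).neg.sub (h1.const_mul (e / 2))) ?_
      ring
    have h1 := FLO_mono (f := fun y => -W y - e / 2 * (y - ξ₀) ^ 2) hx (fun y _ _ => hq y)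
      (fun y hy _ => by linarith [hD1 y hy.le])
    have h2 : -W ξ₀ - e / 2 * (ξ₀ - ξ₀) ^ 2 ≤ -W x - e / 2 * (x - ξ₀) ^ 2 := h1
    have h3 := hWneg ξ₀ (le_abs_self _)
    have h4 : e / 2 * (ξ₀ - ξ₀) ^ 2 = 0 := by ring
    linarith
  have hfin : ∀ t : ℝ, 0 ≤ t → e / 2 * t ^ 2 ≤ K * (1 + ξ₀ + t) := by
    intro t ht
    have h1 := hD0 (ξ₀ + t) (by linarith)
    have h2 := (hK (ξ₀ + t) (by linarith)).1
    have h3 := neg_abs_le (W (ξ₀ + t))
    have h4 : ξ₀ + t - ξ₀ = t := by ring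
    rw [h4] at h1
    have h5 : 1 + (ξ₀ + t) = 1 + ξ₀ + t := by ring
    rw [h5] at h2
    linarith
  -- choose `t` large
  have ht := hfin (4 * K / e + 1 + ξ₀ + 1) (by positivity)
  set T := 4 * K / e + 1 + ξ₀ + 1 with hT
  have hT1 : 1 + ξ₀ ≤ T := by
    have : 0 ≤ 4 * K / e := by positivity
    linarith
  have h1 : K * (1 + ξ₀ + T) ≤ K * (2 * T) := mul_le_mul_of_nonneg_left (by linarith) hK0
  have hT0 : 0 < T := by linarith
  have h2 : e * T = 4 * K + e * (1 + ξ₀ + 1) := by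
    rw [hT]
    field_simp
    ring
  have h3 : e / 2 * T ^ 2 = (e * T) * T / 2 := by ring
  rw [h3, h2] at ht
  have h4 : 0 < e * (1 + ξ₀ + 1) * T := by positivity
  nlinarith

end Pool.Agent.MFE
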