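import Pool.Agent.MFE.FLDDef
import Pool.Agent.MFE.FLO

/-!
# MFE.FLDW1: the limit becomes negative (regime C, one dimensional)

`W'' = s + ρξ² - cW²`, `W` even, antitone on `[0,∞)`, stable, `W(0), ρ, s` not all zero. Claim:
`W(Ξ₀) < 0` for some `Ξ₀ > 0`. Otherwise `W ≥ 0` on `(0,∞)`, so `0 ≤ W ≤ W(0)` on `[0,∞)` and `W(ξ) → L ≥ 0`.
(1) `ρ > 0`: `W'' ≥ s + ρξ² - cW(0)² → ∞`, so `W' → ∞` and `W → ∞`, contradiction.
(2) `ρ = 0`: `W'' → s - cL²`; if this is not `0` then `W' → ±∞`, `W` is unbounded: contradiction. So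
`s = cL²`. (2a) `L > 0`: `W ≥ L` on `(0,∞)`; stability with `f_R(ξ) = f(ξ/R)`, `f ∈ C_c^∞(0,∞)`, `f ≠ 0`:
`2cL R ∫f² ≤ 2c∫W f_R² ≤ ∫f_R'² = R⁻¹ ∫f'²`; `R → ∞`: contradiction. (2b) `L = 0`: `s = 0`,
`W'' = -cW² ≤ 0`: `W'` is antitone; `W' ≤ 0` on `(0,∞)`; if `W'(ξ₁) < 0` then `W' ≤ W'(ξ₁)` on
`[ξ₁,∞)` and `W → -∞`; so `W' = 0` on `(0,∞)`, `W = L = 0` on `[0,∞)`, `W(0) = 0`, `ρ = 0`, `s = 0`:
contradiction to `ne`.
-/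

open Filter Topology
open scoped ContDiff

namespace Pool.Agent.MFE

/-- the structure of module FLO -/
theorem WLim.fold {c s ρ : ℝ} {W : ℝ → ℝ} (h : WLim c s ρ W) : FoldW c s ρ W where
  c_pos := h.c_pos
  rho_nonneg := h.ρ_nonneg
  smooth := h.smooth
  even := h.even
  eq := h.ode
  anti := fun _ _ h0 h1 => h.anti h0 (h0.trans h1) h1
  growth := h.growth
  stab := h.stable
  nontriv := by
    rcases h.ne with h1 | h1 | h1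
    · exact Or.inl h1
    · exact Or.inr (Or.inr h1)
    · exact Or.inr (Or.inl h1)

theorem WLim.neg {c s ρ : ℝ} {W : ℝ → ℝ} (h : WLim c s ρ W) : ∃ Ξ₀ : ℝ, 0 < Ξ₀ ∧ W Ξ₀ < 0 := by
  obtain ⟨ξ₀, c₀, h1, h2, h3⟩ := fold_neg h.fold
  exact ⟨ξ₀, h1, by linarith [h3 ξ₀ (le_abs_self _)]⟩

end Pool.Agent.MFE
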