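import Pool.Agent.MFE.FLDDef2
import Pool.Agent.MFE.FLDW1

/-!
# MFE.FLDKer: the limit direction has a sign (regime C, one dimensional)

`τ = 0`: `A'' = P A`, `P = -2cW`, `|A| ≤ C e^{-γ|ξ|}`, `A` even, `A ≢ 0`.
Uniqueness (`ode_zero`): if `A(ξ₁) = A'(ξ₁) = 0` then `A ≡ 0` (Gronwall for `A² + A'²`, `P` is locally
bounded). On `[Ξ₀,∞)`: `P ≥ p₀ > 0`.
(1) No zero in `[Ξ₀,∞)`: `(A²)'' = 2A'² + 2PA² ≥ 0`, so `A²` is convex on `[Ξ₀,∞)` and tends to `0`; if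
`A(ξ₁) = 0` then `A² = 0` on `[ξ₁,∞)`, so `A ≡ 0`.
(2) Suppose `A` has a zero in `[0,Ξ₀]`; let `ξ₁` be the largest. `A'(ξ₁) ≠ 0`; replacing `A` by `-A` (only
here) let `A > 0` on `(ξ₁,∞)`, so `A'(ξ₁) > 0`. `ξ₁ > 0`, since `A'(0) = 0` (`A` even).
Let `ψ = -W' ≥ 0` on `[0,∞)` (`W` antitone); `W''= s + ρξ² - cW²` is `C¹`, so `W` is `C³` and
`ψ'' = -2ρξ + 2cWW' = -2ρξ + Pψ`. `w = ψA' - ψ'A`: `w' = ψA'' - ψ''A = 2ρξA`. `w(ξ) → 0` as `ξ → ∞`:
`|W| ≤ C(1+ξ)` gives `|W''| ≤ C(1+ξ²)`, `|W'| ≤ C(1+ξ³)`; `A'' = PA` is `O((1+ξ)e^{-γξ})`, integrable, so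
`A'` has a limit, which is `0` since `A` is bounded, and `|A'| ≤ ∫_ξ^∞ |A''| = O((1+ξ)e^{-γξ})`.
So `-w(ξ₁) = ∫_{ξ₁}^∞ 2ρξA ≥ 0`, while `w(ξ₁) = ψ(ξ₁)A'(ξ₁) ≥ 0`: hence `w(ξ₁) = 0`, `ψ(ξ₁) = 0` and
`ρ = 0` (`A > 0` on `(ξ₁,∞)`; `w` is monotone). `ψ ≥ 0` has an interior minimum at `ξ₁ > 0`:
`ψ'(ξ₁) = 0`, i.e. `W'(ξ₁) = W''(ξ₁) = 0`, so `s = cW(ξ₁)²` and `W` is constant (uniqueness for
`W'' = s - cW²`: Gronwall for `(W-W(ξ₁))² + W'²`), `W ≡ W(Ξ₀) < 0`. Then `P ≡ p₀ > 0` and `A²` is convex on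
`ℝ` and tends to `0` at `±∞`: `A ≡ 0`. Contradiction.
(3) So `A` has no zero in `[0,∞)`, nor in `ℝ` (even): constant sign. If `A < 0` everywhere then
`∫_{-Ξ}^{Ξ} A ≤ ∫_{-1}^{1} A < 0` for `Ξ ≥ 1`, contradicting `-C e^{-γΞ} ≤ ∫_{-Ξ}^{Ξ} A` for large `Ξ`.
-/

open Filter Topology
open scoped ContDiff

namespace Pool.Agent.MFE

/-- uniqueness for linear equations with a continuous potential -/
theorem ode_zero {A P : ℝ → ℝ} (hA : ContDiff ℝ 2 A) (hP : Continuous P)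
    (h : ∀ ξ, deriv (deriv A) ξ = P ξ * A ξ) {ξ₁ : ℝ} (h0 : A ξ₁ = 0) (h1 : deriv A ξ₁ = 0) :
    ∀ ξ, A ξ = 0 := by
  have hd : ContDiff ℝ 1 (deriv A) := by
    have h2 : ContDiff ℝ (1 + 1) A := by
      have : ((1 : WithTop ℕ∞) + 1) = 2 := one_add_one_eq_two
      rw [this]
      exact hA
    exact (contDiff_succ_iff_deriv.1 h2).2.2
  have hA1 : ∀ x, HasDerivAt A (deriv A x) x := fun x =>
    (hA.differentiable (by simp) x).hasDerivAt
  have hA2 : ∀ x, HasDerivAt (deriv A) (P x * A x) x := fun x => by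
    rw [← h x]
    exact (hd.differentiable (by simp) x).hasDerivAt
  exact FLO_uniq hP hA1 hA2 h0 h1

theorem ker_pos {c s ρ Ξ₀ : ℝ} {W A : ℝ → ℝ} (hW : WLim c s ρ W) (hΞ : 0 < Ξ₀)
    (hneg : W Ξ₀ < 0) (hA : ALim c 0 W A) : ∀ ξ, 0 < A ξ := by
  have _ := hΞ
  have _ := hneg
  obtain ⟨C, γ, hC, hγ, h1, h2⟩ := hA.bdd
  have hb : ∀ ξ, |A ξ| ≤ C * Real.exp (-γ * |ξ|) := by
    intro ξ
    have h3 : -(γ * |ξ|) = -γ * |ξ| := by ring
    have h4 := h1 ξ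
    rw [h3, mul_zero, add_zero] at h4
    exact abs_le.2 ⟨by linarith [h4.2], h4.1⟩
  have hAc : Continuous A := hA.smooth.continuous
  have hAint : MeasureTheory.Integrable A := by
    have hg : MeasureTheory.Integrable (fun x : ℝ => C * Real.exp (-γ * |x|)) := by
      have h1 : MeasureTheory.IntegrableOn (fun x : ℝ => Real.exp (-γ * |x|)) (Set.Ioi 0) := by
        refine (exp_neg_integrableOn_Ioi 0 hγ).congr_fun ?_ measurableSet_Ioi
        intro x hx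
        have hx' : (0 : ℝ) < x := hx
        simp only
        rw [abs_of_pos hx']
      have h2 : MeasureTheory.IntegrableOn (fun x : ℝ => Real.exp (-γ * |x|)) (Set.Iic 0) := by
        have h1' : MeasureTheory.IntegrableOn (fun x : ℝ => Real.exp (-γ * |x|))
            (Set.Ioi (-(0 : ℝ))) := by
          rw [neg_zero]
          exact h1
        have h3 := h1'.comp_neg_Iio
        rw [integrableOn_Iic_iff_integrableOn_Iio]
        simpa using h3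
      have h4 := h2.union h1
      rw [Set.Iic_union_Ioi, MeasureTheory.integrableOn_univ] at h4
      exact h4.const_mul C
    refine hg.mono' hAc.aestronglyMeasurable ?_
    exact Filter.Eventually.of_forall fun x => hb x
  have hA0 : 0 ≤ ∫ ξ, A ξ := by
    have hlim : Tendsto (fun X : ℝ => ∫ ξ in (-X)..X, A ξ) atTop (𝓝 (∫ ξ, A ξ)) :=
      MeasureTheory.intervalIntegral_tendsto_integral hAint tendsto_neg_atTop_atBot tendsto_id
    have hlim2 : Tendsto (fun X : ℝ => -(C * Real.exp (-(γ * X)))) atTop (𝓝 0) := by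
      have h3 : Tendsto (fun X : ℝ => γ * X) atTop atTop := tendsto_id.const_mul_atTop hγ
      have h4 : Tendsto (fun X : ℝ => Real.exp (-(γ * X))) atTop (𝓝 0) :=
        Real.tendsto_exp_neg_atTop_nhds_zero.comp h3
      have h5 := (h4.const_mul C).neg
      rwa [mul_zero, neg_zero] at h5
    exact le_of_tendsto_of_tendsto hlim2 hlim
      (eventually_atTop.2 ⟨0, fun X hX => h2 X hX⟩)
  exact (fold_pos hW.fold hA.smooth (fun ξ => by rw [hA.ode ξ]; ring) hA.even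
    ⟨C, fun ξ => (hb ξ).trans (by
      have h3 : Real.exp (-γ * |ξ|) ≤ 1 := by
        rw [Real.exp_le_one_iff]
        have : 0 ≤ γ * |ξ| := by positivity
        linarith
      nlinarith)⟩ (hA.ne rfl) hA0).1

end Pool.Agent.MFE
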