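import Pool.Agent.MFE.FLDPlm

/-!
# MFE.FLDPos: positive limit directions imply the sign condition (regime C)

Hypotheses: `φ → A(ξ) e(y)` on windows with `A > 0` continuous, `t/κ → 0`, `hb` = `outer_bd`.
`E = μe^v`, `1/C₁ ≤ E ≤ C₁` (`Fold.amp`).
(1) `0 < t` eventually: otherwise `t n = 0` for infinitely many `n` (`t ≥ 0`); for those `∫_E Eφ = 0`
(`NCD.mean`) and `-φ ≤ C e^{-γ√κ|x|}`. `√κ ∫_{Ell ∩ window Ξ} Eφ → cQ1 ∫_{-Ξ}^{Ξ} A ≥ cQ1 ∫_{-1}^{1} A =: a₁ > 0`
(`scal_int`, `E → q` on windows: `pot_exp`) for fixed `Ξ ≥ 1`, and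
`√κ ∫_{Ell, √κ|x| > Ξ} Eφ ≥ -C₁C (4/γ) e^{-γΞ}` (`exp_tail`): for `Ξ` large the sum is positive for large
`n`. Contradiction.
(2) `m n := sup (t - φ)⁺ → 0`: given `ε`, choose `Ξ` with `C e^{-γΞ} ≤ ε`; outside the window
`-φ ≤ ε + C t/κ`; in the window `-φ ≤ ε` (`ScalLim`, `A e ≥ 0`; outside the ellipse `φ = 0`); and
`t = κ·(t/κ) → 0`.
(3) `p = φ - t`, `∫_E E p = 0`: `∫ E p⁺ = ∫ E p⁻`; `∫ E p⁺ ≤ ∫ E φ⁺ ≤ C₂/√κ` (`t ≥ 0`, `tail_int` with `Ξ = 0`). So
`∫ E (p⁻)³ ≤ m n² ∫ E p⁻ = m n² ∫ E p⁺ ≤ m n² C₂/√κ`.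
(4) `∫ E (p⁺)³ ≥ ∫_{|ξ| ≤ 1, |y| ≤ 1/2} E ((A(ξ)e(y) - ε - t)⁺)³ ≥ c/√κ` with `c > 0` for large `n`
(`A e ≥ a₀ > 0` on that box, which is in `Ell` for large `n`; its area is `2/√κ`).
(5) `∫_E E p³ = ∫ E (p⁺)³ - ∫ E (p⁻)³ ≥ (c - C₂ m n²)/√κ > 0`; divide by `μ n > 0`.
-/

open Filter Topology
open scoped ContDiff

namespace Pool.Agent.MFE

variable {α μ κ t : ℕ → ℝ} {v φ : ℕ → ℝ × ℝ → ℝ} {A : ℝ → ℝ} {C γ : ℝ}

private lemma pos_cont (h : NCD α μ κ t v φ) (n : ℕ) :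
    Continuous (fun q => μ n * Real.exp (v n q) * φ n q) :=
  (continuous_const.mul (h.cd n).sol.cont.rexp).mul (h.cd n).cont

private lemma pos_contE (h : NCD α μ κ t v φ) (n : ℕ) :
    Continuous (fun q => μ n * Real.exp (v n q)) :=
  continuous_const.mul (h.cd n).sol.cont.rexp

private lemma ell_sub_cell (a : ℝ) : Ell a ⊆ CEll a := by
  intro q hq
  have : a ^ 2 * q.1 ^ 2 + q.2 ^ 2 < 1 := hq
  exact this.le

private lemma pos_int {a : ℝ} (ha : 0 < a) {f : ℝ × ℝ → ℝ} (hf : Continuous f) :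
    MeasureTheory.IntegrableOn f (Ell a) :=
  (hf.continuousOn.integrableOn_compact (isCompact_cell ha)).mono_set (ell_sub_cell a)

private lemma ell_y {a : ℝ} {q : ℝ × ℝ} (hq : q ∈ Ell a) : |q.2| ≤ 1 := by
  have h1 : a ^ 2 * q.1 ^ 2 + q.2 ^ 2 < 1 := hq
  have h2 : q.2 ^ 2 ≤ 1 := by
    have : 0 ≤ a ^ 2 * q.1 ^ 2 := by positivity
    linarith
  exact abs_le_one_iff_mul_self_le_one.2 (by nlinarith)

private lemma pot_cont : Continuous (pot1 ast) := by
  unfold pot1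
  have h : ∀ y : ℝ, Real.cosh (ast * y) ^ 2 ≠ 0 := fun y =>
    pow_ne_zero _ (Real.cosh_pos _).ne'
  exact continuous_const.div (by fun_prop) h

private lemma e1_cont : Continuous (e1 ast) := (e1_smooth ast).continuous

/-- `μ e^v φ → q A e` on windows -/
private lemma pos_lim (h : NCD α μ κ t v φ) (hl : ScalLim κ φ A) {Ξ : ℝ} (hΞ : 1 ≤ Ξ) {ε : ℝ}
    (hε : 0 < ε) : ∀ᶠ n in atTop, ∀ q ∈ Ell (α n), √(κ n) * |q.1| ≤ Ξ →
      |μ n * Real.exp (v n q) * φ n q - pot1 ast q.2 * (A (√(κ n) * q.1) * e1 ast q.2)| ≤ ε := by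
  obtain ⟨K, hK0, hK⟩ : ∃ K : ℝ, 0 < K ∧ ∀ y : ℝ, |y| ≤ 1 → |pot1 ast y| ≤ K := by
    obtain ⟨K, hK⟩ := (isCompact_Icc (a := (-1 : ℝ)) (b := 1)).exists_bound_of_continuousOn
      pot_cont.continuousOn
    refine ⟨|K| + 1, by positivity, fun y hy => ?_⟩
    have h1 := hK y (abs_le.1 hy)
    rw [Real.norm_eq_abs] at h1
    have := le_abs_self K
    linarith
  obtain ⟨B, hB0, hB⟩ := pot_exp h.fold Ξ
  obtain ⟨M, hM0, hM⟩ := fold_bd h.fold
  have hM' := hM Ξ hΞ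
  -- the bound of `uY`
  set U : ℝ := M * (1 + Ξ) + 2 with hU
  have hUpos : 0 < U := by positivity
  have hκ := h.fold.par.κ_lim
  have hκ1 : ∀ᶠ n in atTop, κ n < min 1 (ε / (2 * (K * U + B))) := by
    refine (tendsto_order.1 hκ).2 _ ?_
    exact lt_min one_pos (by positivity)
  have hs := hl Ξ (ε / (2 * K)) (by linarith) (by positivity)
  filter_upwards [hB, hM', hκ1, hs] with n h1 h2 h3 h4
  intro q hq hx
  have hκp := h.fold.par.κ_pos n
  have hκle : κ n ≤ 1 := (h3.trans_le (min_le_left _ _)).le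
  have hy := ell_y hq
  have g1 := h1 q hq hx
  have g2 := h2 q hx
  have hr : √(α n ^ 2 / κ n ^ 3) ≤ 1 := by
    refine Real.sqrt_le_one.2 ?_
    rw [div_le_one (by positivity)]
    exact h.fold.par.hα n
  have hu : |uY (α n) (κ n) (v n) q| ≤ U := by
    rw [abs_le]
    constructor
    · have : M * (1 + Ξ * √(α n ^ 2 / κ n ^ 3)) ≤ M * (1 + Ξ) := by
        refine mul_le_mul_of_nonneg_left ?_ hM0.le
        have : Ξ * √(α n ^ 2 / κ n ^ 3) ≤ Ξ * 1 :=
          mul_le_mul_of_nonneg_left hr (by linarith)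
        linarith
      have g3 := g2.1
      rw [hU]
      linarith
    · have g3 := g2.2
      have : 0 ≤ M * (1 + Ξ) := by positivity
      rw [hU]
      linarith
  have hp := hK _ hy
  have g4 : |μ n * Real.exp (v n q) - pot1 ast q.2| ≤ κ n * (K * U + B) := by
    have e : μ n * Real.exp (v n q) - pot1 ast q.2 =
        (μ n * Real.exp (v n q) - pot1 ast q.2
          - κ n * pot1 ast q.2 * uY (α n) (κ n) (v n) q) +
        κ n * (pot1 ast q.2 * uY (α n) (κ n) (v n) q) := by ring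
    rw [e]
    refine (abs_add_le _ _).trans ?_
    rw [abs_mul, abs_mul, abs_of_pos hκp]
    have g5 : |pot1 ast q.2| * |uY (α n) (κ n) (v n) q| ≤ K * U :=
      mul_le_mul hp hu (abs_nonneg _) hK0.le
    have g6 : B * κ n ^ 2 ≤ B * κ n := by
      refine mul_le_mul_of_nonneg_left ?_ hB0.le
      nlinarith
    have g7 := mul_le_mul_of_nonneg_left g5 hκp.le
    calc _ ≤ B * κ n + κ n * (K * U) := add_le_add (g1.trans g6) g7
      _ = κ n * (K * U + B) := by ring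
  have g5 : κ n * (K * U + B) ≤ ε / 2 := by
    have hpos : 0 < K * U + B := by positivity
    have := (h3.trans_le (min_le_right _ _)).le
    calc κ n * (K * U + B) ≤ ε / (2 * (K * U + B)) * (K * U + B) :=
          mul_le_mul_of_nonneg_right this hpos.le
      _ = ε / 2 := by field_simp
  have g6 := h4 q ⟨hx, hy⟩
  have hφ := h.le_one n q
  have e : μ n * Real.exp (v n q) * φ n q - pot1 ast q.2 * (A (√(κ n) * q.1) * e1 ast q.2) =
      (μ n * Real.exp (v n q) - pot1 ast q.2) * φ n q +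
      pot1 ast q.2 * (φ n q - A (√(κ n) * q.1) * e1 ast q.2) := by ring
  rw [e]
  refine (abs_add_le _ _).trans ?_
  rw [abs_mul, abs_mul]
  have g7 : |μ n * Real.exp (v n q) - pot1 ast q.2| * |φ n q| ≤ ε / 2 * 1 :=
    mul_le_mul (g4.trans g5) hφ (abs_nonneg _) (by positivity)
  have g8 : |pot1 ast q.2| * |φ n q - A (√(κ n) * q.1) * e1 ast q.2| ≤ K * (ε / (2 * K)) :=
    mul_le_mul hp g6 (abs_nonneg _) hK0.le
  have g9 : K * (ε / (2 * K)) = ε / 2 := by field_simp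
  linarith

private lemma pos_inner (h : NCD α μ κ t v φ) (hAc : Continuous A) (hl : ScalLim κ φ A) {Ξ : ℝ}
    (hΞ : 1 ≤ Ξ) : Tendsto (fun n => √(κ n) *
      ∫ q in Ell (α n) ∩ {q | √(κ n) * |q.1| ≤ Ξ}, μ n * Real.exp (v n q) * φ n q) atTop
      (𝓝 (cQ1 * ∫ ξ in (-Ξ)..Ξ, A ξ)) := by
  have hs := scal_int (α := α) (κ := κ) h.fold.par
    (F := fun n q => μ n * Real.exp (v n q) * φ n q)
    (H := fun ξ y => pot1 ast y * (A ξ * e1 ast y)) (Ξ := Ξ) (by linarith)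
    (by
      have h1 := pot_cont
      have h2 := e1_cont
      show Continuous fun p : ℝ × ℝ => pot1 ast p.2 * (A p.1 * e1 ast p.2)
      fun_prop)
    (Filter.Eventually.of_forall fun n => (pos_cont h n).continuousOn)
    (fun ε hε => pos_lim h hl hΞ hε)
  have e : (∫ ξ in (-Ξ)..Ξ, ∫ y in (-1 : ℝ)..1, pot1 ast y * (A ξ * e1 ast y)) =
      cQ1 * ∫ ξ in (-Ξ)..Ξ, A ξ := by
    have h1 : ∀ ξ : ℝ, (∫ y in (-1 : ℝ)..1, pot1 ast y * (A ξ * e1 ast y)) = cQ1 * A ξ := by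
      intro ξ
      unfold cQ1
      rw [← intervalIntegral.integral_mul_const]
      refine intervalIntegral.integral_congr fun y _ => ?_
      ring
    simp_rw [h1]
    rw [intervalIntegral.integral_const_mul]
  rw [e] at hs
  exact hs

private lemma win_meas (k Ξ : ℝ) : MeasurableSet {q : ℝ × ℝ | √k * |q.1| ≤ Ξ} := by
  have : IsClosed {q : ℝ × ℝ | √k * |q.1| ≤ Ξ} := isClosed_le (by fun_prop) continuous_const
  exact this.measurableSet

private lemma win_meas' (k Ξ : ℝ) : MeasurableSet {q : ℝ × ℝ | Ξ ≤ √k * |q.1|} := by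
  have : IsClosed {q : ℝ × ℝ | Ξ ≤ √k * |q.1|} := isClosed_le continuous_const (by fun_prop)
  exact this.measurableSet

theorem pos_t (h : NCD α μ κ t v φ) (hAc : Continuous A) (hA : ∀ ξ, 0 < A ξ)
    (hl : ScalLim κ φ A) (hγ : 0 < γ)
    (hb : ∀ᶠ n in atTop, ∀ q : ℝ × ℝ, φ n q ≤ C * Real.exp (-(γ * (√(κ n) * |q.1|))) ∧
      -φ n q ≤ C * Real.exp (-(γ * (√(κ n) * |q.1|))) + C * (t n / κ n)) :
    ∀ᶠ n in atTop, 0 < t n := by
  obtain ⟨C₁, hC₁, hE⟩ := h.fold.amp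
  have ha1 : 0 < ∫ ξ in (-1 : ℝ)..1, A ξ :=
    intervalIntegral.intervalIntegral_pos_of_pos (hAc.intervalIntegrable _ _) hA (by norm_num)
  have hcQ := cQ1_pos
  set a₁ : ℝ := cQ1 * ∫ ξ in (-1 : ℝ)..1, A ξ with ha₁
  have ha₁p : 0 < a₁ := mul_pos hcQ ha1
  -- choose `Ξ`
  obtain ⟨Ξ, hΞ1, hΞ⟩ : ∃ Ξ : ℝ, 1 ≤ Ξ ∧
      C₁ * |C| * (4 / γ * Real.exp (-(γ * Ξ))) ≤ a₁ / 4 := by
    have ht : Tendsto (fun x : ℝ => C₁ * |C| * (4 / γ * Real.exp (-(γ * x)))) atTop
        (𝓝 (C₁ * |C| * (4 / γ * 0))) := by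
      refine (Tendsto.const_mul _ ?_).const_mul _
      refine Real.tendsto_exp_neg_atTop_nhds_zero.comp ?_
      exact tendsto_id.const_mul_atTop hγ
    rw [mul_zero, mul_zero] at ht
    have h1 := (tendsto_order.1 ht).2 (a₁ / 4) (by positivity)
    obtain ⟨Ξ, h2, h3⟩ := (h1.and (eventually_ge_atTop (1 : ℝ))).exists
    exact ⟨Ξ, h3, h2.le⟩
  have hin := pos_inner h hAc hl hΞ1
  have hlim : a₁ ≤ cQ1 * ∫ ξ in (-Ξ)..Ξ, A ξ := by
    rw [ha₁]
    refine mul_le_mul_of_nonneg_left ?_ hcQ.le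
    refine intervalIntegral.integral_mono_interval (by linarith) (by norm_num) hΞ1 ?_
      (hAc.intervalIntegrable _ _)
    exact Filter.Eventually.of_forall fun ξ => (hA ξ).le
  have hin' := (tendsto_order.1 hin).1 (a₁ / 2) (by linarith)
  filter_upwards [hb, hin'] with n h1 h2
  by_contra hcon
  have ht0 : t n = 0 := le_antisymm (not_lt.1 hcon) (h.t_nonneg n)
  have hα := h.fold.par.α_pos n
  have hκp := h.fold.par.κ_pos n
  have hsq : 0 < √(κ n) := Real.sqrt_pos.2 hκp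
  have hmean := h.mean n
  rw [ht0, zero_mul] at hmean
  have hsplit := MeasureTheory.integral_inter_add_sdiff (μ := MeasureTheory.volume)
    (win_meas (κ n) Ξ) (pos_int hα (pos_cont h n))
  rw [hmean] at hsplit
  -- the outer part
  have hexpc : Continuous fun q : ℝ × ℝ => C₁ * |C| * Real.exp (-(γ * (√(κ n) * |q.1|))) := by
    fun_prop
  have hsubset : Ell (α n) \ {q | √(κ n) * |q.1| ≤ Ξ} ⊆
      Ell (α n) ∩ {q | Ξ ≤ √(κ n) * |q.1|} := by
    intro q hq
    have hq2 : ¬ (√(κ n) * |q.1| ≤ Ξ) := hq.2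
    exact ⟨hq.1, (not_le.1 hq2).le⟩
  have hout : -(∫ q in Ell (α n) \ {q | √(κ n) * |q.1| ≤ Ξ}, μ n * Real.exp (v n q) * φ n q) ≤
      C₁ * |C| * (4 / (γ * √(κ n)) * Real.exp (-(γ * Ξ))) := by
    rw [← MeasureTheory.integral_neg]
    have hmeas : MeasurableSet (Ell (α n) \ {q | √(κ n) * |q.1| ≤ Ξ}) :=
      (isOpen_ell (α n)).measurableSet.diff (win_meas (κ n) Ξ)
    calc ∫ q in Ell (α n) \ {q | √(κ n) * |q.1| ≤ Ξ}, -(μ n * Real.exp (v n q) * φ n q)
        ≤ ∫ q in Ell (α n) \ {q | √(κ n) * |q.1| ≤ Ξ},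
            C₁ * |C| * Real.exp (-(γ * (√(κ n) * |q.1|))) := by
          refine MeasureTheory.setIntegral_mono_on
            ((pos_int hα (pos_cont h n).neg).mono_set Set.sdiff_subset)
            ((pos_int hα hexpc).mono_set Set.sdiff_subset) hmeas fun q _ => ?_
          have g1 := (h1 q).2
          rw [ht0, zero_div, mul_zero, add_zero] at g1
          have g2 := hE n q
          have g3 : 0 < μ n * Real.exp (v n q) := lt_of_lt_of_le (by positivity) g2.1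
          have g4 : -φ n q ≤ |C| * Real.exp (-(γ * (√(κ n) * |q.1|))) :=
            g1.trans (mul_le_mul_of_nonneg_right (le_abs_self C) (Real.exp_pos _).le)
          calc -(μ n * Real.exp (v n q) * φ n q) = μ n * Real.exp (v n q) * (-φ n q) := by ring
            _ ≤ μ n * Real.exp (v n q) * (|C| * Real.exp (-(γ * (√(κ n) * |q.1|)))) :=
                mul_le_mul_of_nonneg_left g4 g3.le
            _ ≤ C₁ * (|C| * Real.exp (-(γ * (√(κ n) * |q.1|)))) :=
                mul_le_mul_of_nonneg_right g2.2 (by positivity)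
            _ = _ := by ring
      _ ≤ ∫ q in Ell (α n) ∩ {q | Ξ ≤ √(κ n) * |q.1|},
            C₁ * |C| * Real.exp (-(γ * (√(κ n) * |q.1|))) := by
          refine MeasureTheory.setIntegral_mono_set
            ((pos_int hα hexpc).mono_set Set.inter_subset_left) ?_
            (Filter.Eventually.of_forall hsubset)
          exact Filter.Eventually.of_forall fun q => by positivity
      _ = C₁ * |C| * ∫ q in Ell (α n) ∩ {q | Ξ ≤ √(κ n) * |q.1|},
            Real.exp (-(γ * (√(κ n) * |q.1|))) := by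
          rw [MeasureTheory.integral_const_mul]
      _ ≤ _ := mul_le_mul_of_nonneg_left (exp_tail hγ hα hκp (by linarith)) (by positivity)
  have hfin : √(κ n) * (∫ q in Ell (α n) ∩ {q | √(κ n) * |q.1| ≤ Ξ},
      μ n * Real.exp (v n q) * φ n q) ≤ a₁ / 4 := by
    have e1 : (∫ q in Ell (α n) ∩ {q | √(κ n) * |q.1| ≤ Ξ}, μ n * Real.exp (v n q) * φ n q) =
        -(∫ q in Ell (α n) \ {q | √(κ n) * |q.1| ≤ Ξ}, μ n * Real.exp (v n q) * φ n q) := by
      linarith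
    rw [e1]
    calc √(κ n) * -(∫ q in Ell (α n) \ {q | √(κ n) * |q.1| ≤ Ξ},
          μ n * Real.exp (v n q) * φ n q)
        ≤ √(κ n) * (C₁ * |C| * (4 / (γ * √(κ n)) * Real.exp (-(γ * Ξ)))) :=
          mul_le_mul_of_nonneg_left hout hsq.le
      _ = C₁ * |C| * (4 / γ * Real.exp (-(γ * Ξ))) := by field_simp
      _ ≤ a₁ / 4 := hΞ
  linarith

/-- the negative part tends to zero uniformly -/
private lemma pos_neg (h : NCD α μ κ t v φ) (hA : ∀ ξ, 0 < A ξ)
    (hl : ScalLim κ φ A) (ht : Tendsto (fun n => t n / κ n) atTop (𝓝 0)) (hγ : 0 < γ)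
    (hb : ∀ᶠ n in atTop, ∀ q : ℝ × ℝ, φ n q ≤ C * Real.exp (-(γ * (√(κ n) * |q.1|))) ∧
      -φ n q ≤ C * Real.exp (-(γ * (√(κ n) * |q.1|))) + C * (t n / κ n)) {ε : ℝ} (hε : 0 < ε) :
    ∀ᶠ n in atTop, t n ≤ ε ∧ ∀ q : ℝ × ℝ, t n - φ n q ≤ ε := by
  have hκ := h.fold.par.κ_lim
  have ht0 : Tendsto t atTop (𝓝 0) := by
    have h1 := ht.mul hκ
    rw [mul_zero] at h1
    refine h1.congr fun n => ?_
    have := (h.fold.par.κ_pos n).ne'
    field_simp
  obtain ⟨Ξ, hΞ1, hΞ⟩ : ∃ Ξ : ℝ, 1 ≤ Ξ ∧ |C| * Real.exp (-(γ * Ξ)) ≤ ε / 4 := by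
    have ht : Tendsto (fun x : ℝ => |C| * Real.exp (-(γ * x))) atTop (𝓝 (|C| * 0)) := by
      refine Tendsto.const_mul _ ?_
      refine Real.tendsto_exp_neg_atTop_nhds_zero.comp ?_
      exact tendsto_id.const_mul_atTop hγ
    rw [mul_zero] at ht
    have h1 := (tendsto_order.1 ht).2 (ε / 4) (by positivity)
    obtain ⟨Ξ, h2, h3⟩ := (h1.and (eventually_ge_atTop (1 : ℝ))).exists
    exact ⟨Ξ, h3, h2.le⟩
  have ee1 := (tendsto_order.1 ht0).2 (ε / 2) (by positivity)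
  have ee2 : ∀ᶠ n in atTop, |C| * (t n / κ n) < ε / 4 := by
    have h1 := ht.const_mul |C|
    rw [mul_zero] at h1
    exact (tendsto_order.1 h1).2 _ (by positivity)
  have ee3 := hl Ξ (ε / 4) (by linarith) (by positivity)
  filter_upwards [ee1, ee2, ee3, hb] with n h1 h2 h3 h4
  refine ⟨by linarith, fun q => ?_⟩
  have hκp := h.fold.par.κ_pos n
  by_cases hw : √(κ n) * |q.1| ≤ Ξ
  · by_cases hy : |q.2| ≤ 1
    · have g1 := h3 q ⟨hw, hy⟩
      have g2 : 0 ≤ A (√(κ n) * q.1) * e1 ast q.2 := by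
        refine mul_nonneg (hA _).le ?_
        have g3 := e1_anti (a := ast) (y := q.2) (y' := 1) (by rw [abs_one]; exact hy)
        rw [e1_ast_one] at g3
        exact g3
      have g4 := neg_abs_le (φ n q - A (√(κ n) * q.1) * e1 ast q.2)
      linarith
    · have g1 : q ∉ Ell (α n) := fun hq => hy (ell_y hq)
      rw [(h.cd n).zero q g1]
      linarith
  · have g1 := (h4 q).2
    have g2 : C * Real.exp (-(γ * (√(κ n) * |q.1|))) ≤ |C| * Real.exp (-(γ * Ξ)) := by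
      refine mul_le_mul (le_abs_self C) ?_ (Real.exp_pos _).le (abs_nonneg _)
      refine Real.exp_le_exp.2 (neg_le_neg ?_)
      exact mul_le_mul_of_nonneg_left (not_le.1 hw).le hγ.le
    have g3 : C * (t n / κ n) ≤ |C| * (t n / κ n) :=
      mul_le_mul_of_nonneg_right (le_abs_self C) (div_nonneg (h.t_nonneg n) hκp.le)
    linarith

private lemma cube_split (x : ℝ) : x ^ 3 = max x 0 ^ 3 - max (-x) 0 ^ 3 := by
  rcases le_total 0 x with hx | hx
  · rw [max_eq_left hx, max_eq_right (by linarith : -x ≤ 0)]; ring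
  · rw [max_eq_right hx, max_eq_left (by linarith : 0 ≤ -x)]; ring

private lemma pos_box {k : ℝ} (hk : 0 < k) :
    (MeasureTheory.volume {q : ℝ × ℝ | √k * |q.1| ≤ 1 ∧ |q.2| ≤ 1 / 2}).toReal = 2 / √k := by
  have hsq : 0 < √k := Real.sqrt_pos.2 hk
  have e : {q : ℝ × ℝ | √k * |q.1| ≤ 1 ∧ |q.2| ≤ 1 / 2} =
      Set.Icc (-(1 / √k)) (1 / √k) ×ˢ Set.Icc (-(1 / 2 : ℝ)) (1 / 2) := by
    ext q
    constructor
    · rintro ⟨h1, h2⟩
      refine ⟨abs_le.1 ?_, abs_le.1 h2⟩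
      rw [le_div_iff₀ hsq, mul_comm]
      exact h1
    · rintro ⟨h1, h2⟩
      refine ⟨?_, abs_le.2 h2⟩
      have := abs_le.2 h1
      rw [le_div_iff₀ hsq, mul_comm] at this
      exact this
  rw [e, MeasureTheory.Measure.volume_eq_prod, MeasureTheory.Measure.prod_prod, Real.volume_Icc,
    Real.volume_Icc, ENNReal.toReal_mul, ENNReal.toReal_ofReal (by
      have : 0 < 1 / √k := by positivity
      linarith), ENNReal.toReal_ofReal (by norm_num)]
  ring

theorem pos_cube (h : NCD α μ κ t v φ) (hAc : Continuous A) (hA : ∀ ξ, 0 < A ξ)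
    (hl : ScalLim κ φ A) (ht : Tendsto (fun n => t n / κ n) atTop (𝓝 0)) (hγ : 0 < γ)
    (hb : ∀ᶠ n in atTop, ∀ q : ℝ × ℝ, φ n q ≤ C * Real.exp (-(γ * (√(κ n) * |q.1|))) ∧
      -φ n q ≤ C * Real.exp (-(γ * (√(κ n) * |q.1|))) + C * (t n / κ n)) :
    ∀ᶠ n in atTop, 0 < ∫ q in Ell (α n), Real.exp (v n q) * (φ n q - t n) ^ 3 := by
  obtain ⟨C₁, hC₁, hE⟩ := h.fold.amp
  -- lower bound of `A e` on the box
  obtain ⟨a₀, ha₀, hA0⟩ : ∃ a₀ : ℝ, 0 < a₀ ∧ ∀ ξ y : ℝ, |ξ| ≤ 1 → |y| ≤ 1 / 2 →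
      a₀ ≤ A ξ * e1 ast y := by
    obtain ⟨z, hz, hmin⟩ := (isCompact_Icc (a := (-1 : ℝ)) (b := 1)).exists_isMinOn
      ⟨0, by norm_num, by norm_num⟩ hAc.continuousOn
    have he : 0 < e1 ast (1 / 2) := e1_ast_pos (by rw [abs_of_pos] <;> norm_num)
    refine ⟨A z * e1 ast (1 / 2), mul_pos (hA z) he, fun ξ y h1 h2 => ?_⟩
    refine mul_le_mul (hmin (abs_le.1 h1)) ?_ he.le (hA ξ).le
    exact e1_anti (by rw [abs_of_pos (by norm_num : (0 : ℝ) < 1 / 2)]; exact h2)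
  obtain ⟨C₂, hC₂, htail⟩ := tail_int h hγ (hb.mono fun n hn q => (hn q).1)
  obtain ⟨ε, hε, hε1, hε2⟩ : ∃ ε : ℝ, 0 < ε ∧ ε ≤ a₀ / 4 ∧
      ε ^ 2 * C₂ < 1 / C₁ * (a₀ / 2) ^ 3 * 2 := by
    have h1 : Tendsto (fun x : ℝ => x ^ 2 * C₂) (𝓝[>] 0) (𝓝 (0 ^ 2 * C₂)) := by
      refine Tendsto.mono_left ?_ nhdsWithin_le_nhds
      have : Continuous fun x : ℝ => x ^ 2 * C₂ := by fun_prop
      exact this.tendsto 0
    rw [zero_pow two_ne_zero, zero_mul] at h1
    have h2 := (tendsto_order.1 h1).2 (1 / C₁ * (a₀ / 2) ^ 3 * 2) (by positivity)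
    have h3 : ∀ᶠ x : ℝ in 𝓝[>] 0, x ≤ a₀ / 4 :=
      nhdsWithin_le_nhds (eventually_le_nhds (by positivity))
    obtain ⟨x, h4, h5, h6⟩ := (h2.and (h3.and self_mem_nhdsWithin)).exists
    exact ⟨x, h6, h5, h4⟩
  have ee1 := pos_neg h hA hl ht hγ hb hε
  have ee2 := hl 1 (a₀ / 4) one_pos (by positivity)
  have ee3 : ∀ᶠ n in atTop, κ n < 1 / 2 := (tendsto_order.1 h.fold.par.κ_lim).2 _ (by norm_num)
  filter_upwards [ee1, ee2, ee3, htail] with n h1 h2 h3 h4
  have hα := h.fold.par.α_pos n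
  have hκp := h.fold.par.κ_pos n
  have hsq : 0 < √(κ n) := Real.sqrt_pos.2 hκp
  have hμ := (h.cd n).sol.mu_pos
  have hEc := pos_contE h n
  have hφc := (h.cd n).cont
  have hpc : Continuous fun q => φ n q - t n := hφc.sub continuous_const
  have hEpos : ∀ q, 0 < μ n * Real.exp (v n q) := fun q =>
    lt_of_lt_of_le (by positivity) (hE n q).1
  -- continuity of the pieces
  have c1 : Continuous fun q => μ n * Real.exp (v n q) * max (φ n q - t n) 0 :=
    hEc.mul (hpc.max continuous_const)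
  have c2 : Continuous fun q => μ n * Real.exp (v n q) * max (-(φ n q - t n)) 0 :=
    hEc.mul (hpc.neg.max continuous_const)
  have c3 : Continuous fun q => μ n * Real.exp (v n q) * max (φ n q - t n) 0 ^ 3 :=
    hEc.mul ((hpc.max continuous_const).pow 3)
  have c4 : Continuous fun q => μ n * Real.exp (v n q) * max (-(φ n q - t n)) 0 ^ 3 :=
    hEc.mul ((hpc.neg.max continuous_const).pow 3)
  have c5 : Continuous fun q => μ n * Real.exp (v n q) * max (φ n q) 0 :=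
    hEc.mul (hφc.max continuous_const)
  -- the negative part
  have hzero : ∫ q in Ell (α n), μ n * Real.exp (v n q) * (φ n q - t n) = 0 := by
    have g1 : ∀ q, μ n * Real.exp (v n q) * (φ n q - t n) =
        μ n * Real.exp (v n q) * φ n q - t n * (μ n * Real.exp (v n q)) := fun q => by ring
    simp_rw [g1]
    rw [MeasureTheory.integral_sub (pos_int hα (pos_cont h n))
      ((pos_int hα hEc).const_mul _), MeasureTheory.integral_const_mul, h.mean n, sub_self]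
  have hpm : ∫ q in Ell (α n), μ n * Real.exp (v n q) * max (-(φ n q - t n)) 0 =
      ∫ q in Ell (α n), μ n * Real.exp (v n q) * max (φ n q - t n) 0 := by
    have g1 : ∀ q, μ n * Real.exp (v n q) * (φ n q - t n) =
        μ n * Real.exp (v n q) * max (φ n q - t n) 0 -
        μ n * Real.exp (v n q) * max (-(φ n q - t n)) 0 := fun q => by
      have : φ n q - t n = max (φ n q - t n) 0 - max (-(φ n q - t n)) 0 := by
        rcases le_total 0 (φ n q - t n) with hx | hx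
        · rw [max_eq_left hx, max_eq_right (by linarith)]; ring
        · rw [max_eq_right hx, max_eq_left (by linarith)]; ring
      rw [← mul_sub, ← this]
    simp_rw [g1] at hzero
    rw [MeasureTheory.integral_sub (pos_int hα c1) (pos_int hα c2)] at hzero
    linarith
  have hplus : ∫ q in Ell (α n), μ n * Real.exp (v n q) * max (φ n q - t n) 0 ≤ C₂ / √(κ n) := by
    have g1 := h4 0 le_rfl
    have g2 : Ell (α n) ∩ {q : ℝ × ℝ | (0 : ℝ) ≤ √(κ n) * |q.1|} = Ell (α n) := by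
      refine Set.inter_eq_left.2 fun q _ => ?_
      show (0 : ℝ) ≤ √(κ n) * |q.1|
      positivity
    rw [g2, mul_zero, neg_zero, Real.exp_zero, mul_one] at g1
    refine le_trans ?_ g1
    refine MeasureTheory.integral_mono (pos_int hα c1) (pos_int hα c5) fun q => ?_
    refine mul_le_mul_of_nonneg_left ?_ (hEpos q).le
    exact max_le_max (by linarith [h.t_nonneg n]) le_rfl
  have hneg : ∫ q in Ell (α n), μ n * Real.exp (v n q) * max (-(φ n q - t n)) 0 ^ 3 ≤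
      ε ^ 2 * (C₂ / √(κ n)) := by
    calc ∫ q in Ell (α n), μ n * Real.exp (v n q) * max (-(φ n q - t n)) 0 ^ 3
        ≤ ∫ q in Ell (α n), ε ^ 2 * (μ n * Real.exp (v n q) * max (-(φ n q - t n)) 0) := by
          refine MeasureTheory.integral_mono (pos_int hα c4)
            ((pos_int hα c2).const_mul _) fun q => ?_
          have g1 : max (-(φ n q - t n)) 0 ≤ ε := max_le (by linarith [h1.2 q]) hε.le
          have g2 : 0 ≤ max (-(φ n q - t n)) 0 := le_max_right _ _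
          have g3 : max (-(φ n q - t n)) 0 ^ 2 ≤ ε ^ 2 := pow_le_pow_left₀ g2 g1 2
          calc μ n * Real.exp (v n q) * max (-(φ n q - t n)) 0 ^ 3
              = max (-(φ n q - t n)) 0 ^ 2 *
                (μ n * Real.exp (v n q) * max (-(φ n q - t n)) 0) := by ring
            _ ≤ ε ^ 2 * (μ n * Real.exp (v n q) * max (-(φ n q - t n)) 0) :=
                mul_le_mul_of_nonneg_right g3 (mul_nonneg (hEpos q).le g2)
      _ = ε ^ 2 * ∫ q in Ell (α n), μ n * Real.exp (v n q) * max (-(φ n q - t n)) 0 := by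
          rw [MeasureTheory.integral_const_mul]
      _ ≤ ε ^ 2 * (C₂ / √(κ n)) := by
          rw [hpm]
          exact mul_le_mul_of_nonneg_left hplus (by positivity)
  -- the positive part on the box
  have hbox : {q : ℝ × ℝ | √(κ n) * |q.1| ≤ 1 ∧ |q.2| ≤ 1 / 2} ⊆ Ell (α n) := by
    rintro q ⟨g1, g2⟩
    show α n ^ 2 * q.1 ^ 2 + q.2 ^ 2 < 1
    have g3 : κ n * q.1 ^ 2 ≤ 1 := by
      have : (√(κ n) * |q.1|) ^ 2 ≤ 1 := by
        have := pow_le_pow_left₀ (by positivity) g1 2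
        simpa using this
      rwa [mul_pow, Real.sq_sqrt hκp.le, sq_abs] at this
    have g4 : α n ^ 2 * q.1 ^ 2 ≤ κ n ^ 2 := by
      calc α n ^ 2 * q.1 ^ 2 ≤ κ n ^ 3 * q.1 ^ 2 :=
            mul_le_mul_of_nonneg_right (h.fold.par.hα n) (sq_nonneg _)
        _ = κ n ^ 2 * (κ n * q.1 ^ 2) := by ring
        _ ≤ κ n ^ 2 * 1 := mul_le_mul_of_nonneg_left g3 (by positivity)
        _ = κ n ^ 2 := mul_one _
    have g5 : q.2 ^ 2 ≤ 1 / 4 := by
      have := pow_le_pow_left₀ (abs_nonneg _) g2 2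
      rw [sq_abs] at this
      linarith
    nlinarith
  have hboxm : MeasurableSet {q : ℝ × ℝ | √(κ n) * |q.1| ≤ 1 ∧ |q.2| ≤ 1 / 2} := by
    have k1 : IsClosed {q : ℝ × ℝ | √(κ n) * |q.1| ≤ 1} :=
      isClosed_le (by fun_prop) continuous_const
    have k2 : IsClosed {q : ℝ × ℝ | |q.2| ≤ 1 / 2} := isClosed_le (by fun_prop) continuous_const
    exact (k1.inter k2).measurableSet
  have hboxf : MeasureTheory.volume {q : ℝ × ℝ | √(κ n) * |q.1| ≤ 1 ∧ |q.2| ≤ 1 / 2} ≠ ⊤ := by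
    refine ne_top_of_le_ne_top ?_ (MeasureTheory.measure_mono hbox)
    rw [area_ell hα]
    exact ENNReal.ofReal_ne_top
  have hposi : 1 / C₁ * (a₀ / 2) ^ 3 * (2 / √(κ n)) ≤
      ∫ q in Ell (α n), μ n * Real.exp (v n q) * max (φ n q - t n) 0 ^ 3 := by
    have g0 : ∫ q in {q : ℝ × ℝ | √(κ n) * |q.1| ≤ 1 ∧ |q.2| ≤ 1 / 2},
        (1 / C₁ * (a₀ / 2) ^ 3 : ℝ) = 1 / C₁ * (a₀ / 2) ^ 3 * (2 / √(κ n)) := by
      rw [MeasureTheory.setIntegral_const, smul_eq_mul, MeasureTheory.measureReal_def,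
        pos_box hκp]
      ring
    rw [← g0]
    calc ∫ q in {q : ℝ × ℝ | √(κ n) * |q.1| ≤ 1 ∧ |q.2| ≤ 1 / 2}, (1 / C₁ * (a₀ / 2) ^ 3 : ℝ)
        ≤ ∫ q in {q : ℝ × ℝ | √(κ n) * |q.1| ≤ 1 ∧ |q.2| ≤ 1 / 2},
            μ n * Real.exp (v n q) * max (φ n q - t n) 0 ^ 3 := by
          refine MeasureTheory.setIntegral_mono_on
            (MeasureTheory.integrableOn_const hboxf) ((pos_int hα c3).mono_set hbox)
            hboxm fun q hq => ?_
          have k1 : |√(κ n) * q.1| ≤ 1 := by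
            rw [abs_mul, abs_of_pos hsq]; exact hq.1
          have k2 := hA0 _ _ k1 hq.2
          have k3 := h2 q ⟨hq.1, hq.2.trans (by norm_num)⟩
          have k4 := neg_abs_le (φ n q - A (√(κ n) * q.1) * e1 ast q.2)
          have k5 : a₀ / 2 ≤ max (φ n q - t n) 0 :=
            le_trans (by linarith [h1.1]) (le_max_left _ _)
          exact mul_le_mul (hE n q).1 (pow_le_pow_left₀ (by positivity) k5 3) (by positivity)
            (hEpos q).le
      _ ≤ _ := by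
          refine MeasureTheory.setIntegral_mono_set (pos_int hα c3) ?_
            (Filter.Eventually.of_forall hbox)
          exact Filter.Eventually.of_forall fun q =>
            mul_nonneg (hEpos q).le (pow_nonneg (le_max_right _ _) 3)
  have hfin : 0 < ∫ q in Ell (α n), μ n * Real.exp (v n q) * (φ n q - t n) ^ 3 := by
    have g1 : ∀ q, μ n * Real.exp (v n q) * (φ n q - t n) ^ 3 =
        μ n * Real.exp (v n q) * max (φ n q - t n) 0 ^ 3 -
        μ n * Real.exp (v n q) * max (-(φ n q - t n)) 0 ^ 3 := fun q => by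
      rw [← mul_sub, ← cube_split]
    simp_rw [g1]
    rw [MeasureTheory.integral_sub (pos_int hα c3) (pos_int hα c4)]
    have g2 : ε ^ 2 * (C₂ / √(κ n)) < 1 / C₁ * (a₀ / 2) ^ 3 * (2 / √(κ n)) := by
      have := div_lt_div_of_pos_right hε2 hsq
      calc ε ^ 2 * (C₂ / √(κ n)) = ε ^ 2 * C₂ / √(κ n) := by ring
        _ < 1 / C₁ * (a₀ / 2) ^ 3 * 2 / √(κ n) := this
        _ = _ := by ring
    linarith
  have g1 : ∫ q in Ell (α n), μ n * Real.exp (v n q) * (φ n q - t n) ^ 3 =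
      μ n * ∫ q in Ell (α n), Real.exp (v n q) * (φ n q - t n) ^ 3 := by
    rw [← MeasureTheory.integral_const_mul]
    congr 1
    funext q
    ring
  rw [g1] at hfin
  exact (mul_pos_iff_of_pos_left hμ).1 hfin

end Pool.Agent.MFE
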