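import Pool.Agent.MFE.FLDDef2
import Pool.Agent.MFE.FLDW1

/-!
# MFE.FLDTau: the mean value vanishes in the limit (regime C, one dimensional)

`A'' = P A + τ`, `P = -2cW`. `W` is antitone on `[0,∞)` and `W(Ξ₀) < 0`: for `ξ ≥ Ξ₀`,
`p₀ := -2cW(Ξ₀) ≤ P(ξ) ≤ C₁(1+ξ)`, `p₀ > 0`. Suppose `τ > 0`. Choose `Ξ₁ ≥ max(1, Ξ₀)`, `δ > 0` with
`2C₁δ ≤ τ/2`. `D = A + δ/ξ` on `[Ξ₁, ∞)`: `D'' = P A + τ + 2δ/ξ³ ≥ P D - C₁(1+ξ)δ/ξ + τ ≥ P D + τ/2`.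
`D` is bounded (`A` is bounded by `bdd`).
(a) If `D(ξ₂) ≥ 0` and `D'(ξ₂) ≥ 0` for some `ξ₂ ≥ Ξ₁` then `D, D'` stay `≥ 0` and `D'' ≥ τ/2` on
`[ξ₂,∞)` (continuity argument: on the maximal interval where `D ≥ 0`, `D'` is increasing), so
`D → ∞`: contradiction. (b) So `D' < 0` wherever `D ≥ 0`. If `D ≥ 0` on all of `[Ξ₁,∞)` then `D'' ≥ τ/2`
there, `D' → ∞`: contradiction. So `D(ξ₃) < 0` for some `ξ₃`, and `D ≤ 0` on `[ξ₃,∞)`: otherwise at the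
last zero `ξ₄` before a point where `D > 0` one has `D(ξ₄) = 0`, `D'(ξ₄) ≥ 0`, contradicting (a).
Hence `A ≤ -δ/ξ` on `[ξ₃,∞)` and, `A` being even, `∫_{-Ξ}^{Ξ} A ≤ C₂ - 2δ log(Ξ/ξ₃) → -∞`; but it is
`≥ -C` by `bdd`. Contradiction, so `τ = 0` (`τ ≥ 0` by `τ_nonneg`).
-/

open Filter Topology
open scoped ContDiff

namespace Pool.Agent.MFE

theorem tau_zero {c s ρ τ Ξ₀ : ℝ} {W A : ℝ → ℝ} (hW : WLim c s ρ W) (hΞ : 0 < Ξ₀)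
    (hneg : W Ξ₀ < 0) (hA : ALim c τ W A) : τ = 0 := by
  have _ := hΞ
  have _ := hneg
  obtain ⟨C, γ, hC, hγ, h1, h2⟩ := hA.bdd
  have hexp : ∀ t : ℝ, 0 ≤ t → C * Real.exp (-(γ * t)) ≤ C := by
    intro t ht
    have h3 : Real.exp (-(γ * t)) ≤ 1 := by
      rw [Real.exp_le_one_iff]
      have : 0 ≤ γ * t := by positivity
      linarith
    nlinarith
  refine fold_t hW.fold hA.smooth (fun ξ => ?_) hA.even ⟨C + C * τ, fun ξ => ?_⟩ hA.τ_nonneg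
    ⟨C, fun X hX => ?_⟩
  · rw [hA.ode ξ]
    ring
  · have h3 := hexp |ξ| (abs_nonneg _)
    have h4 : 0 ≤ C * τ := mul_nonneg hC.le hA.τ_nonneg
    rw [abs_le]
    constructor
    · linarith [(h1 ξ).2]
    · linarith [(h1 ξ).1]
  · have h3 := hexp X (by linarith)
    linarith [h2 X (by linarith)]

end Pool.Agent.MFE
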