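import Pool.Agent.MFE.FLDBnd

/-!
# MFE.FLDVsl: `u = (v - V(Y))/κ` is slowly varying (regime C)

`q = pot1 ast`, `V = V1 ast`, `ρ n = α²/κ³`, `u = uY`. In `Ell α` (window `√κ|x| < Ξ`, large `n`, `|u| ≤ B` by
`fold_bd`): `v = V(Y) + κu`, `μ e^v = (μ/mu1 ast) q(Y) e^{κu}` (`cst_exp`), `lap V(Y) = -q(Y)/h² + O(α²)`
(`comp_YE_bd`, `V1_deriv2`). So
`κ (lap u + q(y) u) = -μ e^v - lap (V(Y)) + q(y) κ u`
`= -(μ/mu1 ast)(q(Y)(e^{κu} - 1 - κu)) - ((μ - mu1 ast)/mu1 ast) q(Y)(1 + κu) + q(Y)(1/h² - 1)`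
`  + (q(y) - q(Y)) κu + O(α²)`,
where `|e^{κu} - 1 - κu - κ²u²/2| ≤ (κB)³`, `|μ - mu1 ast| ≤ κ²`, `1/h² - 1 = α²x² + O(α⁴x⁴)` (`hE_inv`),
`α²x² = κ² ρ ξ²` with `ξ = √κ x` (so `≤ Ξ²κ²`), `|q(y) - q(Y)| ≤ K|y - Y| ≤ 2Kα²x²` (`YE_near`, `cst_bd`),
`α² ≤ κ³`. Dividing by `κ²`:
`(lap u + q(y)u)/κ = -(μ - mu1 ast)/κ² e^{V(y)} - q(y) u²/2 + ρ ξ² q(y) + O(κ)` (uniformly on the window;
`q/mu1 ast = e^V`). `fold_slow`: the right side is bounded. `fold_G`: `u → W(ξ) e(y)` on the window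
(bounded, so `u² → W² e²`), `ρ → ρ₀`, `(mu1 ast - μ)/κ² → s₀`. `lap u` is computed from
`u = (v - V(Y))/κ` on the open set `Ell α` (`lap_congr`, `lap_sub`, `lap_const_mul`).
-/

open Filter Topology
open scoped ContDiff

namespace Pool.Agent.MFE

variable {α μ κ : ℕ → ℝ} {v : ℕ → ℝ × ℝ → ℝ} {W : ℝ → ℝ}

private theorem vsl_exp {s : ℝ} (h : |s| ≤ 1) : |Real.exp s - 1 - s - s ^ 2 / 2| ≤ |s| ^ 3 := by
  have h1 := Real.exp_bound h (n := 3) (by norm_num)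
  have h2 : ∑ m ∈ Finset.range 3, s ^ m / (m.factorial : ℝ) = 1 + s + s ^ 2 / 2 := by
    simp [Finset.sum_range_succ, Nat.factorial]
  rw [h2] at h1
  have h3 : Real.exp s - 1 - s - s ^ 2 / 2 = Real.exp s - (1 + s + s ^ 2 / 2) := by ring
  rw [h3]
  refine h1.trans ?_
  have h4 : 0 ≤ |s| ^ 3 := by positivity
  have h5 : ((Nat.succ 3 : ℕ) : ℝ) / ((Nat.factorial 3 : ℕ) * (3 : ℕ)) ≤ 1 := by
    norm_num [Nat.factorial]
  exact mul_le_of_le_one_right h4 h5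

/-- the pointwise algebra -/
private theorem vsl_alg {m μ κ u q qY X E1 E3 P B K L R : ℝ} (hm : 0 < m) (hκ : 0 < κ)
    (hκ1 : κ ≤ 1) (hB : 0 ≤ B) (hu : |u| ≤ B) (hκB : κ * B ≤ 1) (hd : |μ - m| ≤ κ ^ 2)
    (hL : 0 ≤ L) (hq : |q - qY| ≤ L * κ ^ 2) (hK : 0 ≤ K) (hqY : |qY| ≤ K) (hR : 0 ≤ R)
    (hX : |X| ≤ R * κ ^ 2) (h3 : |E3| ≤ 2 * X ^ 2) (h1 : |E1| ≤ 2 * K * κ ^ 3)
    (hP : P = -(μ / m) * (qY * Real.exp (κ * u)) + qY * (1 + X + E3) - E1) :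
    |(P + κ * (q * u)) - (-((μ - m) / m) * q + X * q - κ ^ 2 * (q * u ^ 2) / 2)| ≤
      (L * (1 / m + R + B ^ 2 + B) + K * B ^ 3 + K / m * (B + B ^ 2 + B ^ 3) + 2 * K * R ^ 2
        + 2 * K) * κ ^ 3 := by
  set d := μ - m with hdd
  have hμ : μ / m = 1 + d / m := by rw [hdd]; field_simp; ring
  obtain ⟨E2, hE2⟩ : ∃ E2, E2 = Real.exp (κ * u) - 1 - κ * u - (κ * u) ^ 2 / 2 := ⟨_, rfl⟩
  have hκu : |κ * u| ≤ κ * B := by
    rw [abs_mul, abs_of_pos hκ]; exact mul_le_mul_of_nonneg_left hu hκ.le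
  have hE2b : |E2| ≤ κ ^ 3 * B ^ 3 := by
    rw [hE2]
    refine (vsl_exp (hκu.trans hκB)).trans ?_
    rw [← mul_pow]
    exact pow_le_pow_left₀ (abs_nonneg _) hκu 3
  have hexp : Real.exp (κ * u) = 1 + κ * u + κ ^ 2 * u ^ 2 / 2 + E2 := by rw [hE2]; ring
  have hk2 : κ ^ 2 ≤ κ := by
    simpa using pow_le_pow_of_le_one hκ.le hκ1 (show 1 ≤ 2 by norm_num)
  have hk3 : κ ^ 3 ≤ κ := by
    simpa using pow_le_pow_of_le_one hκ.le hκ1 (show 1 ≤ 3 by norm_num)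
  have hdm : |d / m| ≤ κ ^ 2 / m := by
    rw [abs_div, abs_of_pos hm]; exact div_le_div_of_nonneg_right hd hm.le
  have hu2 : |κ ^ 2 * u ^ 2 / 2| ≤ κ ^ 2 * B ^ 2 := by
    rw [abs_of_nonneg (by positivity)]
    have h1 : u ^ 2 ≤ B ^ 2 := by rw [← sq_abs]; exact pow_le_pow_left₀ (abs_nonneg _) hu 2
    have h2 := mul_le_mul_of_nonneg_left h1 (sq_nonneg κ)
    have h3 : 0 ≤ κ ^ 2 * u ^ 2 := by positivity
    linarith
  have key : (P + κ * (q * u)) - (-(d / m) * q + X * q - κ ^ 2 * (q * u ^ 2) / 2) =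
      (q - qY) * (d / m - X + κ ^ 2 * u ^ 2 / 2 + κ * u) + (-(qY * E2))
      + (-(d / m * (qY * (κ * u + κ ^ 2 * u ^ 2 / 2 + E2)))) + qY * E3 + (-E1) := by
    rw [hP, hμ, hexp]; ring
  have t1 : |(q - qY) * (d / m - X + κ ^ 2 * u ^ 2 / 2 + κ * u)| ≤
      L * (1 / m + R + B ^ 2 + B) * κ ^ 3 := by
    have a1 : |d / m - X + κ ^ 2 * u ^ 2 / 2 + κ * u| ≤ κ * (1 / m + R + B ^ 2 + B) := by
      have b1 : |d / m - X + κ ^ 2 * u ^ 2 / 2 + κ * u| ≤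
          |d / m| + |X| + |κ ^ 2 * u ^ 2 / 2| + |κ * u| := by
        refine (abs_add_le _ _).trans (add_le_add ((abs_add_le _ _).trans
          (add_le_add (abs_sub _ _) le_rfl)) le_rfl)
      have b2 : κ ^ 2 / m ≤ κ * (1 / m) := by
        rw [mul_one_div]; exact div_le_div_of_nonneg_right hk2 hm.le
      have b3 : R * κ ^ 2 ≤ R * κ := mul_le_mul_of_nonneg_left hk2 hR
      have b4 : κ ^ 2 * B ^ 2 ≤ κ * B ^ 2 := mul_le_mul_of_nonneg_right hk2 (sq_nonneg B)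
      have b6 : κ * (1 / m + R + B ^ 2 + B) = κ * (1 / m) + R * κ + κ * B ^ 2 + κ * B := by ring
      rw [b6]
      linarith
    rw [abs_mul]
    calc |q - qY| * |d / m - X + κ ^ 2 * u ^ 2 / 2 + κ * u|
        ≤ (L * κ ^ 2) * (κ * (1 / m + R + B ^ 2 + B)) :=
          mul_le_mul hq a1 (abs_nonneg _) (by positivity)
      _ = _ := by ring
  have t2 : |-(qY * E2)| ≤ K * B ^ 3 * κ ^ 3 := by
    rw [abs_neg, abs_mul]
    calc |qY| * |E2| ≤ K * (κ ^ 3 * B ^ 3) := mul_le_mul hqY hE2b (abs_nonneg _) hK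
      _ = _ := by ring
  have t3 : |-(d / m * (qY * (κ * u + κ ^ 2 * u ^ 2 / 2 + E2)))| ≤
      K / m * (B + B ^ 2 + B ^ 3) * κ ^ 3 := by
    have a1 : |κ * u + κ ^ 2 * u ^ 2 / 2 + E2| ≤ κ * (B + B ^ 2 + B ^ 3) := by
      have b1 : |κ * u + κ ^ 2 * u ^ 2 / 2 + E2| ≤ |κ * u| + |κ ^ 2 * u ^ 2 / 2| + |E2| :=
        (abs_add_le _ _).trans (add_le_add (abs_add_le _ _) le_rfl)
      have b4 : κ ^ 2 * B ^ 2 ≤ κ * B ^ 2 := mul_le_mul_of_nonneg_right hk2 (sq_nonneg B)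
      have b5 : κ ^ 3 * B ^ 3 ≤ κ * B ^ 3 := mul_le_mul_of_nonneg_right hk3 (by positivity)
      have b6 : κ * (B + B ^ 2 + B ^ 3) = κ * B + κ * B ^ 2 + κ * B ^ 3 := by ring
      rw [b6]
      linarith
    rw [abs_neg, abs_mul, abs_mul]
    calc |d / m| * (|qY| * |κ * u + κ ^ 2 * u ^ 2 / 2 + E2|)
        ≤ κ ^ 2 / m * (K * (κ * (B + B ^ 2 + B ^ 3))) :=
          mul_le_mul hdm (mul_le_mul hqY a1 (abs_nonneg _) hK) (by positivity) (by positivity)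
      _ = _ := by ring
  have t4 : |qY * E3| ≤ 2 * K * R ^ 2 * κ ^ 3 := by
    have a1 : X ^ 2 ≤ R ^ 2 * κ ^ 3 := by
      have : X ^ 2 ≤ (R * κ ^ 2) ^ 2 := by
        rw [← sq_abs]; exact pow_le_pow_left₀ (abs_nonneg _) hX 2
      have b : κ ^ 4 ≤ κ ^ 3 := pow_le_pow_of_le_one hκ.le hκ1 (by norm_num)
      have c := mul_le_mul_of_nonneg_left b (sq_nonneg R)
      have e : (R * κ ^ 2) ^ 2 = R ^ 2 * κ ^ 4 := by ring
      rw [e] at this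
      linarith
    rw [abs_mul]
    calc |qY| * |E3| ≤ K * (2 * (R ^ 2 * κ ^ 3)) :=
          mul_le_mul hqY (h3.trans (by linarith)) (abs_nonneg _) hK
      _ = _ := by ring
  have t5 : |-E1| ≤ 2 * K * κ ^ 3 := by rw [abs_neg]; exact h1
  rw [key]
  refine (abs_add_le _ _).trans ?_
  refine (add_le_add ((abs_add_le _ _).trans (add_le_add ((abs_add_le _ _).trans
    (add_le_add (abs_add_le _ _) le_rfl)) le_rfl)) le_rfl).trans ?_
  linarith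

private theorem vsl_two : (2 : ℕ∞ω) ≤ ∞ := WithTop.coe_le_coe.2 le_top

private theorem vsl_open (α : ℝ) : IsOpen (Ell α) := by
  unfold Ell
  exact isOpen_lt (by fun_prop) continuous_const

private theorem vsl_Ycs (α : ℝ) : ContDiffOn ℝ 2 (fun z => V1 ast (YE α z)) (Ell α) :=
  ((comp_YE_smooth α (V1_smooth ast)).mono fun _ hz => (ell_sq_lt hz).1).of_le vsl_two

/-- the Laplacian of `uY` in the ellipse -/
private theorem vsl_lap {α μ κ : ℝ} {v : ℝ × ℝ → ℝ} (hκ : 0 < κ) (hv : GSol α μ v)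
    {q : ℝ × ℝ} (hq : q ∈ Ell α) :
    κ * lap (uY α κ v) q = lap v q - lap (fun z => V1 ast (YE α z)) q := by
  have hD : IsOpen (Ell α) := vsl_open α
  have h1 : ∀ z ∈ Ell α, uY α κ v z = (1 / κ) * (v z - V1 ast (YE α z)) := fun z hz => by
    rw [uY, if_pos hz]; ring
  have hv2 : ContDiffOn ℝ 2 v (Ell α) := hv.smooth.of_le vsl_two
  have hsub : ContDiffOn ℝ 2 (fun z => v z - V1 ast (YE α z)) (Ell α) := hv2.sub (vsl_Ycs α)
  rw [lap_congr hD h1 hq, lap_const_mul hD _ hsub hq, lap_sub hD hv2 (vsl_Ycs α) hq]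
  field_simp

private theorem vsl_sm {α μ κ : ℝ} {v : ℝ × ℝ → ℝ} (hv : GSol α μ v) :
    ContDiffOn ℝ 2 (uY α κ v) (Ell α) := by
  have hv2 : ContDiffOn ℝ 2 v (Ell α) := hv.smooth.of_le vsl_two
  have h : ContDiffOn ℝ 2 (fun z => (v z - V1 ast (YE α z)) / κ) (Ell α) :=
    (hv2.sub (vsl_Ycs α)).div_const κ
  exact h.congr fun z hz => by rw [uY, if_pos hz]

private theorem vsl_lip {K : ℝ} (hK : ∀ y : ℝ, |y| ≤ 2 → |deriv (pot1 ast) y| ≤ K)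
    {y Y : ℝ} (hy : |y| ≤ 1) (hY : |Y| ≤ 1) : |pot1 ast y - pot1 ast Y| ≤ K * |y - Y| := by
  have h1 := Convex.norm_image_sub_le_of_norm_deriv_le (f := pot1 ast) (s := Set.Icc (-1) 1)
    (C := K) (x := Y) (y := y)
    (fun z _ => (cst_smooth.differentiable (by simp)) z)
    (fun z hz => by
      rw [Real.norm_eq_abs]
      exact hK z (abs_le.2 ⟨by linarith [hz.1], by linarith [hz.2]⟩))
    (convex_Icc _ _) (abs_le.1 hY) (abs_le.1 hy)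
  simpa only [Real.norm_eq_abs] using h1

/-- uniform bound of `uY` on the windows -/
private theorem vsl_bd (h : Fold α μ κ v) (Ξ : ℝ) : ∃ B : ℝ, 0 < B ∧ ∀ᶠ n in atTop,
    ∀ q : ℝ × ℝ, √(κ n) * |q.1| ≤ Ξ → |uY (α n) (κ n) (v n) q| ≤ B := by
  obtain ⟨A, hA, hbd⟩ := fold_bd h
  have hΞ : (1 : ℝ) ≤ max Ξ 1 := le_max_right _ _
  refine ⟨A * (1 + max Ξ 1) + 2, by positivity, ?_⟩
  filter_upwards [hbd (max Ξ 1) hΞ] with n hn q hq
  obtain ⟨h1, h2⟩ := hn q (hq.trans (le_max_left _ _))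
  have hκ := h.par.κ_pos n
  have h3 : α n ^ 2 / κ n ^ 3 ≤ 1 := (div_le_one (by positivity)).2 (h.par.hα n)
  have h4 : √(α n ^ 2 / κ n ^ 3) ≤ 1 := Real.sqrt_le_one.2 h3
  have h5 : max Ξ 1 * √(α n ^ 2 / κ n ^ 3) ≤ max Ξ 1 * 1 :=
    mul_le_mul_of_nonneg_left h4 (by linarith)
  have h6 : A * (1 + max Ξ 1 * √(α n ^ 2 / κ n ^ 3)) ≤ A * (1 + max Ξ 1) :=
    mul_le_mul_of_nonneg_left (by linarith) hA.le
  have h7 : 0 ≤ A * (1 + max Ξ 1) := by positivity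
  rw [abs_le]
  constructor <;> nlinarith

/-- the expansion -/
theorem fold_exp (h : Fold α μ κ v) (Ξ : ℝ) : ∃ A : ℝ, 0 < A ∧ ∀ᶠ n in atTop,
    ∀ q ∈ Ell (α n), √(κ n) * |q.1| ≤ Ξ →
    |(lap (uY (α n) (κ n) (v n)) q + pot1 ast q.2 * uY (α n) (κ n) (v n) q) / κ n
      - ((mu1 ast - μ n) / κ n ^ 2 * Real.exp (V1 ast q.2)
        + α n ^ 2 / κ n ^ 3 * (√(κ n) * q.1) ^ 2 * pot1 ast q.2
        - pot1 ast q.2 * uY (α n) (κ n) (v n) q ^ 2 / 2)| ≤ A * κ n := by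
  obtain ⟨B, hB, hBd⟩ := vsl_bd h Ξ
  obtain ⟨K, hK, hb⟩ := cst_bd
  obtain ⟨hα0, hwin, hev⟩ := h.par.win Ξ
  have hm : 0 < mu1 ast := mu1_pos ast_pos
  set m := mu1 ast with hmdef
  have hκB : ∀ᶠ n in atTop, κ n * B ≤ 1 := by
    have h1 : Tendsto (fun n => κ n * B) atTop (𝓝 0) := by simpa using h.par.κ_lim.mul_const B
    exact (h1.eventually (gt_mem_nhds one_pos)).mono fun n hn => hn.le
  refine ⟨2 * K * Ξ ^ 2 * (1 / m + Ξ ^ 2 + B ^ 2 + B) + K * B ^ 3 + K / m * (B + B ^ 2 + B ^ 3)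
    + 2 * K * (Ξ ^ 2) ^ 2 + 2 * K, by positivity, ?_⟩
  filter_upwards [hBd, hev, hκB] with n hn1 hn2 hn3 q hq hx
  obtain ⟨hκ1, hwx⟩ := hn2
  have hκ := h.par.κ_pos n
  have hX := hwx q.1 hx
  have hX2 := hwin n q.1 hx
  have hα2 := h.par.hα n
  have hu := hn1 q hx
  obtain ⟨e1', e2'⟩ := ell_sq_lt hq
  have hY : |YE (α n) q| < 1 := (ell_iff_Y e1').1 hq
  have hY2 : |YE (α n) q| ≤ 2 := hY.le.trans (by norm_num)
  have hlap := vsl_lap hκ (h.sol n) hq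
  have hbE := (comp_YE_bd (V1_smooth ast) (fun y hy =>
    ⟨(hb y (hy.trans (by norm_num))).2.2.2.2.1, (hb y (hy.trans (by norm_num))).2.2.2.2.2.1⟩)
    hX hY.le).1
  rw [V1_deriv2] at hbE
  obtain ⟨i1, i2, i3⟩ := hE_inv hX
  have hvq : v n q = V1 ast (YE (α n) q) + κ n * uY (α n) (κ n) (v n) q := by
    rw [uY, if_pos hq]; field_simp; ring
  have heq := (h.sol n).eq q hq
  set u := uY (α n) (κ n) (v n) q with hudef
  set Y := YE (α n) q with hYdef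
  set LV := lap (fun z => V1 ast (YE (α n) z)) q with hLV
  set H := hE (α n) q.1 ^ 2 with hH
  have hX0 : 0 ≤ α n ^ 2 * q.1 ^ 2 := by positivity
  have hqL : |pot1 ast q.2 - pot1 ast Y| ≤ 2 * K * Ξ ^ 2 * κ n ^ 2 := by
    refine (vsl_lip (fun y hy => (hb y hy).2.2.2.2.2.2.2) e2'.le hY.le).trans ?_
    have h8 : |q.2 - Y| ≤ 2 * (α n ^ 2 * q.1 ^ 2) := by
      rw [abs_sub_comm]
      refine ((YE_near e1').2 hX).trans ?_
      have h9 : 2 * α n ^ 2 * q.1 ^ 2 * |q.2| ≤ 2 * α n ^ 2 * q.1 ^ 2 * 1 :=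
        mul_le_mul_of_nonneg_left e2'.le (by positivity)
      linarith
    calc K * |q.2 - Y| ≤ K * (2 * (Ξ ^ 2 * κ n ^ 2)) :=
          mul_le_mul_of_nonneg_left (h8.trans (by linarith)) hK.le
      _ = _ := by ring
  have hPdef : κ n * lap (uY (α n) (κ n) (v n)) q =
      -(μ n / m) * (pot1 ast Y * Real.exp (κ n * u)) +
        pot1 ast Y * (1 + α n ^ 2 * q.1 ^ 2 + (1 / H - 1 - α n ^ 2 * q.1 ^ 2))
        - (LV - (-pot1 ast Y / H)) := by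
    rw [hlap]
    have h10 : lap (v n) q = -(μ n / m) * (pot1 ast Y * Real.exp (κ n * u)) := by
      have h11 : lap (v n) q = -(μ n * Real.exp (v n q)) := by linarith
      rw [h11, hvq, Real.exp_add, cst_exp]
      ring
    rw [h10]
    ring
  have hres := vsl_alg (m := m) (μ := μ n) (κ := κ n) (u := u) (q := pot1 ast q.2)
    (qY := pot1 ast Y) (X := α n ^ 2 * q.1 ^ 2) (E1 := LV - (-pot1 ast Y / H))
    (E3 := 1 / H - 1 - α n ^ 2 * q.1 ^ 2) (B := B) (K := K) (L := 2 * K * Ξ ^ 2) (R := Ξ ^ 2)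
    hm hκ hκ1 hB.le hu hn3 (h.hμ n) (by positivity) hqL hK.le (hb Y hY2).2.2.2.2.2.2.1
    (by positivity) (by rw [abs_of_nonneg hX0]; exact hX2)
    (by rw [abs_of_nonneg i1]; exact i2)
    (hbE.trans (mul_le_mul_of_nonneg_left hα2 (by positivity))) hPdef
  have hξ : (√(κ n) * q.1) ^ 2 = κ n * q.1 ^ 2 := by rw [mul_pow, Real.sq_sqrt hκ.le]
  have hE : Real.exp (V1 ast q.2) = pot1 ast q.2 / m := cst_exp _
  have key : (lap (uY (α n) (κ n) (v n)) q + pot1 ast q.2 * u) / κ n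
      - ((m - μ n) / κ n ^ 2 * Real.exp (V1 ast q.2)
        + α n ^ 2 / κ n ^ 3 * (√(κ n) * q.1) ^ 2 * pot1 ast q.2
        - pot1 ast q.2 * u ^ 2 / 2) =
      ((κ n * lap (uY (α n) (κ n) (v n)) q + κ n * (pot1 ast q.2 * u)) -
        (-((μ n - m) / m) * pot1 ast q.2 + α n ^ 2 * q.1 ^ 2 * pot1 ast q.2
          - κ n ^ 2 * (pot1 ast q.2 * u ^ 2) / 2)) / κ n ^ 2 := by
    rw [hξ, hE]
    field_simp
    ring
  rw [key, abs_div, abs_of_pos (by positivity : 0 < κ n ^ 2), div_le_iff₀ (by positivity)]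
  refine hres.trans (le_of_eq ?_)
  ring

theorem fold_slow (h : Fold α μ κ v) : Slow α κ (fun n => uY (α n) (κ n) (v n)) := by
  refine ⟨fun n => uY_zero _ _ _, uY_cont h, fun Ξ => Eventually.of_forall fun n =>
    (vsl_sm (h.sol n)).mono Set.inter_subset_left, fun Ξ => ?_⟩
  obtain ⟨B, hB, hBd⟩ := vsl_bd h Ξ
  obtain ⟨A, hA, hexp⟩ := fold_exp h Ξ
  obtain ⟨K, hK, hb⟩ := cst_bd
  have hm : 0 < mu1 ast := mu1_pos ast_pos
  have hκ1 : ∀ᶠ n in atTop, κ n ≤ 1 :=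
    (h.par.κ_lim.eventually (gt_mem_nhds one_pos)).mono fun n hn => hn.le
  set M := K / mu1 ast + Ξ ^ 2 * K + K * B ^ 2 + A with hM
  have hM0 : 0 ≤ M := by positivity
  refine ⟨max B M, ?_⟩
  filter_upwards [hBd, hexp, hκ1] with n h1 h2 h3 q hq hx
  refine ⟨(h1 q hx.le).trans (le_max_left _ _), ?_⟩
  have hκ := h.par.κ_pos n
  obtain ⟨e1', e2'⟩ := ell_sq_lt hq
  have hqb : |pot1 ast q.2| ≤ K := (hb q.2 (e2'.le.trans (by norm_num))).2.2.2.2.2.2.1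
  have hu := h1 q hx.le
  have h4 := h2 q hq hx.le
  set u := uY (α n) (κ n) (v n) q with hudef
  set Z := lap (uY (α n) (κ n) (v n)) q + pot1 ast q.2 * u with hZ
  have a1 : |(mu1 ast - μ n) / κ n ^ 2 * Real.exp (V1 ast q.2)| ≤ K / mu1 ast := by
    rw [cst_exp, abs_mul, abs_div, abs_div, abs_of_pos hm, abs_of_pos (pow_pos hκ 2)]
    have b1 : |mu1 ast - μ n| / κ n ^ 2 ≤ 1 := by
      rw [div_le_one (pow_pos hκ 2), abs_sub_comm]; exact h.hμ n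
    calc |mu1 ast - μ n| / κ n ^ 2 * (|pot1 ast q.2| / mu1 ast) ≤ 1 * (K / mu1 ast) :=
          mul_le_mul b1 (div_le_div_of_nonneg_right hqb hm.le) (by positivity) zero_le_one
      _ = _ := one_mul _
  have a2 : |α n ^ 2 / κ n ^ 3 * (√(κ n) * q.1) ^ 2 * pot1 ast q.2| ≤ Ξ ^ 2 * K := by
    have b1 : α n ^ 2 / κ n ^ 3 ≤ 1 := (div_le_one (by positivity)).2 (h.par.hα n)
    have b2 : (√(κ n) * q.1) ^ 2 ≤ Ξ ^ 2 := by
      have : |√(κ n) * q.1| ≤ Ξ := by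
        rw [abs_mul, abs_of_nonneg (Real.sqrt_nonneg _)]; exact hx.le
      rw [← sq_abs]
      exact pow_le_pow_left₀ (abs_nonneg _) this 2
    rw [abs_mul, abs_of_nonneg (by positivity)]
    refine mul_le_mul ?_ hqb (abs_nonneg _) (by positivity)
    calc α n ^ 2 / κ n ^ 3 * (√(κ n) * q.1) ^ 2 ≤ 1 * Ξ ^ 2 :=
          mul_le_mul b1 b2 (by positivity) zero_le_one
      _ = _ := one_mul _
  have a3 : |pot1 ast q.2 * u ^ 2 / 2| ≤ K * B ^ 2 := by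
    rw [abs_div, abs_mul, abs_two]
    have b2 : |u ^ 2| ≤ B ^ 2 := by
      rw [abs_pow]; exact pow_le_pow_left₀ (abs_nonneg _) hu 2
    have b3 := mul_le_mul hqb b2 (abs_nonneg _) hK.le
    have b4 : 0 ≤ K * B ^ 2 := by positivity
    linarith
  have a4 : |Z / κ n| ≤ M := by
    have b1 := abs_sub_abs_le_abs_sub (Z / κ n) ((mu1 ast - μ n) / κ n ^ 2 * Real.exp (V1 ast q.2)
        + α n ^ 2 / κ n ^ 3 * (√(κ n) * q.1) ^ 2 * pot1 ast q.2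
        - pot1 ast q.2 * u ^ 2 / 2)
    have b2 : |(mu1 ast - μ n) / κ n ^ 2 * Real.exp (V1 ast q.2)
        + α n ^ 2 / κ n ^ 3 * (√(κ n) * q.1) ^ 2 * pot1 ast q.2
        - pot1 ast q.2 * u ^ 2 / 2| ≤ K / mu1 ast + Ξ ^ 2 * K + K * B ^ 2 :=
      (abs_sub _ _).trans (add_le_add ((abs_add_le _ _).trans (add_le_add a1 a2)) a3)
    have b3 : A * κ n ≤ A := mul_le_of_le_one_right hA.le h3
    linarith
  rw [abs_div, abs_of_pos hκ, div_le_iff₀ hκ] at a4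
  exact a4.trans (mul_le_mul_of_nonneg_right (le_max_right _ _) hκ.le)

theorem fold_G (h : Fold α μ κ v) (hWc : Continuous W)
    (hW : ScalLim κ (fun n => uY (α n) (κ n) (v n)) W) {s₀ ρ₀ : ℝ}
    (hs : Tendsto (fun n => (mu1 ast - μ n) / κ n ^ 2) atTop (𝓝 s₀))
    (hρ : Tendsto (fun n => α n ^ 2 / κ n ^ 3) atTop (𝓝 ρ₀)) :
    ∀ Ξ ε : ℝ, 0 < Ξ → 0 < ε → ∀ᶠ n in atTop, ∀ q ∈ Ell (α n), √(κ n) * |q.1| ≤ Ξ →
      |(lap (uY (α n) (κ n) (v n)) q + pot1 ast q.2 * uY (α n) (κ n) (v n) q) / κ n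
        - (s₀ * Real.exp (V1 ast q.2) + ρ₀ * (√(κ n) * q.1) ^ 2 * pot1 ast q.2
          - pot1 ast q.2 * (W (√(κ n) * q.1) * e1 ast q.2) ^ 2 / 2)| ≤ ε := by
  intro Ξ ε hΞ hε
  obtain ⟨B, hB, hBd⟩ := vsl_bd h Ξ
  obtain ⟨A, hA, hexp⟩ := fold_exp h Ξ
  obtain ⟨K, hK, hb⟩ := cst_bd
  have hm : 0 < mu1 ast := mu1_pos ast_pos
  obtain ⟨C, hC⟩ : ∃ C : ℝ, ∀ ξ ∈ Set.Icc (-Ξ) Ξ, |W ξ| ≤ C := by
    obtain ⟨C, hC⟩ := isCompact_Icc.exists_bound_of_continuousOn (f := W) (s := Set.Icc (-Ξ) Ξ)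
      hWc.continuousOn
    exact ⟨C, fun ξ hξ => by simpa [Real.norm_eq_abs] using hC ξ hξ⟩
  have hC0 : 0 ≤ C := (abs_nonneg _).trans (hC 0 ⟨by linarith, hΞ.le⟩)
  have ev1 : ∀ᶠ n in atTop, |(mu1 ast - μ n) / κ n ^ 2 - s₀| < ε * mu1 ast / (4 * K) := by
    have := Metric.tendsto_atTop'.1 hs (ε * mu1 ast / (4 * K)) (by positivity)
    obtain ⟨N, hN⟩ := this
    filter_upwards [eventually_gt_atTop N] with n hn
    exact hN n hn
  have ev2 : ∀ᶠ n in atTop, |α n ^ 2 / κ n ^ 3 - ρ₀| < ε / (4 * (Ξ ^ 2 * K)) := by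
    have := Metric.tendsto_atTop'.1 hρ (ε / (4 * (Ξ ^ 2 * K))) (by positivity)
    obtain ⟨N, hN⟩ := this
    filter_upwards [eventually_gt_atTop N] with n hn
    exact hN n hn
  have ev3 : ∀ᶠ n in atTop, A * κ n ≤ ε / 4 := by
    have h1 : Tendsto (fun n => A * κ n) atTop (𝓝 0) := by simpa using h.par.κ_lim.const_mul A
    exact (h1.eventually (gt_mem_nhds (show (0 : ℝ) < ε / 4 by positivity))).mono
      fun n hn => hn.le
  have ev4 := hW Ξ (ε / (4 * (K * (B + C * K)))) hΞ (by positivity)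
  filter_upwards [hBd, hexp, ev1, ev2, ev3, ev4] with n h1 h2 h3 h4 h5 h6 q hq hx
  have hκ := h.par.κ_pos n
  obtain ⟨e1', e2'⟩ := ell_sq_lt hq
  have hqb : |pot1 ast q.2| ≤ K := (hb q.2 (e2'.le.trans (by norm_num))).2.2.2.2.2.2.1
  have heb : |e1 ast q.2| ≤ K := (hb q.2 (e2'.le.trans (by norm_num))).1
  have hu := h1 q hx
  have h7 := h2 q hq hx
  have h8 := h6 q ⟨hx, e2'.le⟩
  have hξ : |√(κ n) * q.1| ≤ Ξ := by
    rw [abs_mul, abs_of_nonneg (Real.sqrt_nonneg _)]; exact hx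
  have hWb := hC (√(κ n) * q.1) (abs_le.1 hξ)
  set u := uY (α n) (κ n) (v n) q with hudef
  set w := W (√(κ n) * q.1) * e1 ast q.2 with hw
  set Z := lap (uY (α n) (κ n) (v n)) q + pot1 ast q.2 * u with hZ
  have hwb : |w| ≤ C * K := by
    rw [hw, abs_mul]; exact mul_le_mul hWb heb (abs_nonneg _) hC0
  have b2 : (√(κ n) * q.1) ^ 2 ≤ Ξ ^ 2 := by
    rw [← sq_abs]; exact pow_le_pow_left₀ (abs_nonneg _) hξ 2
  have a1 : |((mu1 ast - μ n) / κ n ^ 2 - s₀) * Real.exp (V1 ast q.2)| ≤ ε / 4 := by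
    rw [cst_exp, abs_mul, abs_div, abs_of_pos hm]
    calc |(mu1 ast - μ n) / κ n ^ 2 - s₀| * (|pot1 ast q.2| / mu1 ast)
        ≤ ε * mu1 ast / (4 * K) * (K / mu1 ast) :=
          mul_le_mul h3.le (div_le_div_of_nonneg_right hqb hm.le) (by positivity) (by positivity)
      _ = _ := by field_simp
  have a2 : |(α n ^ 2 / κ n ^ 3 - ρ₀) * (√(κ n) * q.1) ^ 2 * pot1 ast q.2| ≤ ε / 4 := by
    rw [abs_mul, abs_mul, abs_of_nonneg (sq_nonneg (√(κ n) * q.1))]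
    calc |α n ^ 2 / κ n ^ 3 - ρ₀| * (√(κ n) * q.1) ^ 2 * |pot1 ast q.2|
        ≤ ε / (4 * (Ξ ^ 2 * K)) * Ξ ^ 2 * K :=
          mul_le_mul (mul_le_mul h4.le b2 (by positivity) (by positivity)) hqb (abs_nonneg _)
            (by positivity)
      _ = _ := by field_simp
  have a3 : |pot1 ast q.2 * u ^ 2 / 2 - pot1 ast q.2 * w ^ 2 / 2| ≤ ε / 4 := by
    have c1 : pot1 ast q.2 * u ^ 2 / 2 - pot1 ast q.2 * w ^ 2 / 2 =
        pot1 ast q.2 * ((u - w) * (u + w)) / 2 := by ring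
    have c2 : |u + w| ≤ B + C * K := (abs_add_le _ _).trans (add_le_add hu hwb)
    have c4 : 0 < B + C * K := by positivity
    have c3 : |pot1 ast q.2 * ((u - w) * (u + w))| ≤ ε / 4 := by
      rw [abs_mul, abs_mul]
      calc |pot1 ast q.2| * (|u - w| * |u + w|)
          ≤ K * (ε / (4 * (K * (B + C * K))) * (B + C * K)) :=
            mul_le_mul hqb (mul_le_mul h8 c2 (abs_nonneg _) (by positivity)) (by positivity) hK.le
        _ = _ := by field_simp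
    rw [c1, abs_div, abs_two]
    have := abs_nonneg (pot1 ast q.2 * ((u - w) * (u + w)))
    linarith
  have key : Z / κ n - (s₀ * Real.exp (V1 ast q.2) + ρ₀ * (√(κ n) * q.1) ^ 2 * pot1 ast q.2
          - pot1 ast q.2 * w ^ 2 / 2) =
      (Z / κ n - ((mu1 ast - μ n) / κ n ^ 2 * Real.exp (V1 ast q.2)
        + α n ^ 2 / κ n ^ 3 * (√(κ n) * q.1) ^ 2 * pot1 ast q.2
        - pot1 ast q.2 * u ^ 2 / 2)) +
      (((mu1 ast - μ n) / κ n ^ 2 - s₀) * Real.exp (V1 ast q.2)) +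
      ((α n ^ 2 / κ n ^ 3 - ρ₀) * (√(κ n) * q.1) ^ 2 * pot1 ast q.2) -
      (pot1 ast q.2 * u ^ 2 / 2 - pot1 ast q.2 * w ^ 2 / 2) := by ring
  rw [key]
  refine (abs_sub _ _).trans ((add_le_add ((abs_add_le _ _).trans
    (add_le_add ((abs_add_le _ _).trans (add_le_add (h7.trans h5) a1)) a2)) a3).trans ?_)
  linarith

end Pool.Agent.MFE
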