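import Pool.Agent.MFE.FLDDef
import Pool.Agent.MFE.CALB

/-!
# MFE.FLDYlp: functions of `Y = y/h`, `h = √(1 - α²x²)` (regime C)

`h' = -α²x/h`, so `Y_x = Y α² x/h²`, `Y_xx = Y (α²/h² + 3α⁴x²/h⁴)`, `Y_y = 1/h`, `Y_yy = 0`;
on `Ell α`: `|Y| < 1` and `wE α q = h² (1 - Y²)`.
For `α|x| ≤ 1/4` (where `h² ≥ 15/16`) and `|f'|, |f''| ≤ M` on `[-1,1]`:
`lap (f(Y)) - f''(Y)/h² = f''(Y) Y² α⁴x²/h⁴ + f'(Y) Y (α²/h² + 3α⁴x²/h⁴)`, absolute value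
`≤ M α² (0.08 + 1.07 + 0.22) ≤ 2 M α²`; `|∂_x f(Y)| = |f'(Y) Y| α²|x|/h² ≤ 2 M α²|x|`;
`0 ≤ 1/h² - 1 - α²x² = α⁴x⁴/h² ≤ 2α⁴x⁴`.
The smoothness domain is `{q | α|x| < 1}` (there `1 - α²x² > 0`).
-/

open scoped ContDiff

namespace Pool.Agent.MFE

theorem hE_sq {α x : ℝ} (h : α ^ 2 * x ^ 2 ≤ 1) : hE α x ^ 2 = 1 - α ^ 2 * x ^ 2 := by
  unfold hE
  exact Real.sq_sqrt (by linarith)

theorem hE_pos {α x : ℝ} (h : α ^ 2 * x ^ 2 < 1) : 0 < hE α x ∧ hE α x ≤ 1 := by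
  unfold hE
  exact ⟨Real.sqrt_pos.2 (by linarith), Real.sqrt_le_one.2 (by nlinarith [sq_nonneg (α * x)])⟩

theorem ell_iff_Y {α : ℝ} {q : ℝ × ℝ} (h : α ^ 2 * q.1 ^ 2 < 1) :
    q ∈ Ell α ↔ |YE α q| < 1 := by
  obtain ⟨hp, hp1⟩ := hE_pos h
  have h2 := hE_sq h.le
  unfold YE
  rw [abs_div, abs_of_pos hp, div_lt_one hp]
  constructor
  · intro hq
    have hq' : α ^ 2 * q.1 ^ 2 + q.2 ^ 2 < 1 := hq
    have h3 : q.2 ^ 2 < hE α q.1 ^ 2 := by linarith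
    have h4 := sq_lt_sq.1 h3
    rwa [abs_of_pos hp] at h4
  · intro hq
    have h3 : q.2 ^ 2 < hE α q.1 ^ 2 := by
      apply sq_lt_sq.2
      rwa [abs_of_pos hp]
    show α ^ 2 * q.1 ^ 2 + q.2 ^ 2 < 1
    linarith

theorem ell_sq_lt {α : ℝ} {q : ℝ × ℝ} (h : q ∈ Ell α) : α ^ 2 * q.1 ^ 2 < 1 ∧ |q.2| < 1 := by
  have h' : α ^ 2 * q.1 ^ 2 + q.2 ^ 2 < 1 := h
  have h1 : 0 ≤ α ^ 2 * q.1 ^ 2 := by positivity
  refine ⟨by nlinarith [sq_nonneg q.2], ?_⟩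
  have h3 : q.2 ^ 2 < 1 ^ 2 := by linarith
  have h4 := sq_lt_sq.1 h3
  rwa [abs_one] at h4

theorem wE_eq_Y {α : ℝ} {q : ℝ × ℝ} (h : α ^ 2 * q.1 ^ 2 < 1) :
    wE α q = hE α q.1 ^ 2 * (1 - YE α q ^ 2) := by
  obtain ⟨hp, hp1⟩ := hE_pos h
  have h2 := hE_sq h.le
  have h3 : hE α q.1 ^ 2 * (1 - YE α q ^ 2) = hE α q.1 ^ 2 - q.2 ^ 2 := by
    unfold YE
    field_simp
  rw [h3, h2]
  rfl

private lemma ylp_low {α x : ℝ} (h : α ^ 2 * x ^ 2 ≤ 1 / 16) :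
    0 < hE α x ∧ hE α x ≤ 1 ∧ 15 / 16 ≤ hE α x ∧ 15 / 16 ≤ hE α x ^ 2 := by
  obtain ⟨hp, hp1⟩ := hE_pos (α := α) (x := x) (by linarith)
  have h2 := hE_sq (α := α) (x := x) (by linarith)
  refine ⟨hp, hp1, by nlinarith, by linarith⟩

/-- `|y| ≤ |Y|`, and for `α|x| ≤ 1/4` they differ by at most `2α²x²|y|` -/
theorem YE_near {α : ℝ} {q : ℝ × ℝ} (h : α ^ 2 * q.1 ^ 2 < 1) :
    |q.2| ≤ |YE α q| ∧ (α ^ 2 * q.1 ^ 2 ≤ 1 / 16 → |YE α q - q.2| ≤ 2 * α ^ 2 * q.1 ^ 2 * |q.2|) := by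
  obtain ⟨hp, hp1⟩ := hE_pos h
  refine ⟨?_, fun h16 => ?_⟩
  · unfold YE
    rw [abs_div, abs_of_pos hp, le_div_iff₀ hp]
    exact mul_le_of_le_one_right (abs_nonneg _) hp1
  · obtain ⟨-, -, hl, hl2⟩ := ylp_low h16
    have h2 := hE_sq h.le
    have h3 : YE α q - q.2 = q.2 * ((1 - hE α q.1) / hE α q.1) := by
      unfold YE
      field_simp
    have h4 : 0 ≤ (1 - hE α q.1) / hE α q.1 := div_nonneg (by linarith) hp.le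
    have h5 : (1 - hE α q.1) / hE α q.1 ≤ 2 * (α ^ 2 * q.1 ^ 2) := by
      rw [div_le_iff₀ hp]
      nlinarith
    rw [h3, abs_mul, abs_of_nonneg h4]
    calc |q.2| * ((1 - hE α q.1) / hE α q.1) ≤ |q.2| * (2 * (α ^ 2 * q.1 ^ 2)) :=
          mul_le_mul_of_nonneg_left h5 (abs_nonneg _)
      _ = 2 * α ^ 2 * q.1 ^ 2 * |q.2| := by ring

private lemma ylp_open (α : ℝ) : IsOpen {q : ℝ × ℝ | α ^ 2 * q.1 ^ 2 < 1} :=
  isOpen_lt (by fun_prop) continuous_const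

theorem YE_smooth (α : ℝ) :
    ContDiffOn ℝ ∞ (YE α) {q | α ^ 2 * q.1 ^ 2 < 1} := by
  have h1 : ContDiffOn ℝ ∞ (fun q : ℝ × ℝ => hE α q.1) {q | α ^ 2 * q.1 ^ 2 < 1} := by
    unfold hE
    refine ContDiffOn.sqrt (by fun_prop) fun q hq => ?_
    have hq' : α ^ 2 * q.1 ^ 2 < 1 := hq
    linarith
  exact contDiffOn_snd.div h1 fun q hq => (hE_pos hq).1.ne'

theorem comp_YE_smooth (α : ℝ) {f : ℝ → ℝ} (hf : ContDiff ℝ ∞ f) :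
    ContDiffOn ℝ ∞ (fun q => f (YE α q)) {q | α ^ 2 * q.1 ^ 2 < 1} :=
  hf.comp_contDiffOn (YE_smooth α)

private lemma ylp_hE {α x : ℝ} (h : α ^ 2 * x ^ 2 < 1) :
    HasDerivAt (hE α) (-(α ^ 2 * x / hE α x)) x := by
  have h1 : HasDerivAt (fun t : ℝ => 1 - α ^ 2 * t ^ 2) (-(α ^ 2 * (2 * x))) x := by
    have := ((hasDerivAt_pow 2 x).const_mul (α ^ 2)).const_sub 1
    simpa using this
  have h2 := h1.sqrt (by linarith : (1 - α ^ 2 * x ^ 2) ≠ 0)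
  have hp := (hE_pos h).1
  have h3 : HasDerivAt (hE α) (-(α ^ 2 * (2 * x)) / (2 * hE α x)) x := h2
  refine h3.congr_deriv ?_
  field_simp

private lemma ylp_da {α : ℝ} {q : ℝ × ℝ} (h : α ^ 2 * q.1 ^ 2 < 1) :
    DifferentiableAt ℝ (YE α) q :=
  ((YE_smooth α).contDiffAt ((ylp_open α).mem_nhds h)).differentiableAt (by simp)

theorem YE_dx {α : ℝ} {q : ℝ × ℝ} (h : α ^ 2 * q.1 ^ 2 < 1) :
    dx (YE α) q = YE α q * (α ^ 2 * q.1 / hE α q.1 ^ 2) ∧ dy (YE α) q = 1 / hE α q.1 := by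
  have hp := (hE_pos h).1
  have hd := ylp_hE h
  have h1 : DifferentiableAt ℝ (fun z : ℝ × ℝ => z.2) q := differentiableAt_snd
  have h2 : DifferentiableAt ℝ (fun z : ℝ × ℝ => hE α z.1) q :=
    DifferentiableAt.comp (g := hE α) q hd.differentiableAt differentiableAt_fst
  have e1 : dx (fun z : ℝ × ℝ => z.2) q = 0 := dx_snd (fun x => x) differentiableAt_id
  have e2 : dy (fun z : ℝ × ℝ => z.2) q = 1 := by
    rw [dy_snd (fun x => x) differentiableAt_id]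
    simp
  have e3 : dx (fun z : ℝ × ℝ => hE α z.1) q = -(α ^ 2 * q.1 / hE α q.1) := by
    rw [dx_fst (hE α) hd.differentiableAt, hd.deriv]
  have e4 : dy (fun z : ℝ × ℝ => hE α z.1) q = 0 := dy_fst (hE α) hd.differentiableAt
  have hx := dx_div h1 h2 hp.ne'
  have hy := dy_div h1 h2 hp.ne'
  rw [e1, e3] at hx
  rw [e2, e4] at hy
  constructor
  · show dx (fun z : ℝ × ℝ => z.2 / hE α z.1) q = _
    rw [hx]
    unfold YE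
    field_simp
    ring
  · show dy (fun z : ℝ × ℝ => z.2 / hE α z.1) q = _
    rw [hy]
    field_simp
    ring

theorem comp_YE_dx {α : ℝ} {f : ℝ → ℝ} (hf : ContDiff ℝ ∞ f) {q : ℝ × ℝ}
    (h : α ^ 2 * q.1 ^ 2 < 1) :
    dx (fun z => f (YE α z)) q = deriv f (YE α q) * (YE α q * (α ^ 2 * q.1 / hE α q.1 ^ 2)) ∧
    dy (fun z => f (YE α z)) q = deriv f (YE α q) / hE α q.1 := by
  have hfd : DifferentiableAt ℝ f (YE α q) := (hf.differentiable (by simp)) _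
  rw [dx_comp (ylp_da h) hfd, dy_comp (ylp_da h) hfd, (YE_dx h).1, (YE_dx h).2]
  exact ⟨rfl, by ring⟩

private lemma ylp_F {α x : ℝ} (h : α ^ 2 * x ^ 2 < 1) :
    HasDerivAt (fun t => α ^ 2 * t / hE α t ^ 2)
      (α ^ 2 / hE α x ^ 2 + 2 * α ^ 4 * x ^ 2 / hE α x ^ 4) x := by
  have hp := (hE_pos h).1
  have h1 : HasDerivAt (fun t : ℝ => α ^ 2 * t) (α ^ 2 * 1) x := (hasDerivAt_id x).const_mul _
  have h2 := h1.div ((ylp_hE h).pow 2) (pow_ne_zero 2 hp.ne')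
  refine h2.congr_deriv ?_
  simp only [Pi.pow_apply]
  field_simp
  ring

theorem comp_YE_lap {α : ℝ} {f : ℝ → ℝ} (hf : ContDiff ℝ ∞ f) {q : ℝ × ℝ}
    (h : α ^ 2 * q.1 ^ 2 < 1) :
    lap (fun z => f (YE α z)) q = deriv (deriv f) (YE α q) *
        (1 / hE α q.1 ^ 2 + YE α q ^ 2 * α ^ 4 * q.1 ^ 2 / hE α q.1 ^ 4) +
      deriv f (YE α q) * (YE α q * (α ^ 2 / hE α q.1 ^ 2 + 3 * α ^ 4 * q.1 ^ 2 / hE α q.1 ^ 4)) := by
  have hp := (hE_pos h).1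
  have hD := ylp_open α
  have hY : ContDiffOn ℝ 2 (YE α) {q | α ^ 2 * q.1 ^ 2 < 1} := (YE_smooth α).of_le (WithTop.coe_le_coe.2 le_top)
  have hF := ylp_F h
  rw [lap_comp hD (hf.of_le (WithTop.coe_le_coe.2 le_top)) hY h]
  have e1 : dx (dx (YE α)) q = YE α q * (α ^ 2 * q.1 / hE α q.1 ^ 2) *
      (α ^ 2 * q.1 / hE α q.1 ^ 2) + YE α q *
      (α ^ 2 / hE α q.1 ^ 2 + 2 * α ^ 4 * q.1 ^ 2 / hE α q.1 ^ 4) := by
    rw [dx_congr hD (g := fun z => YE α z * (α ^ 2 * z.1 / hE α z.1 ^ 2))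
      (fun z hz => (YE_dx hz).1) h]
    have h3 : DifferentiableAt ℝ (fun z : ℝ × ℝ => α ^ 2 * z.1 / hE α z.1 ^ 2) q :=
      DifferentiableAt.comp (g := fun t => α ^ 2 * t / hE α t ^ 2) q hF.differentiableAt
        differentiableAt_fst
    rw [dx_mul (ylp_da h) h3, (YE_dx h).1,
      dx_fst (fun t => α ^ 2 * t / hE α t ^ 2) hF.differentiableAt, hF.deriv]
  have e2 : dy (dy (YE α)) q = 0 := by
    rw [dy_congr hD (g := fun z => 1 / hE α z.1) (fun z hz => (YE_dx hz).2) h]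
    exact dy_fst (fun t => 1 / hE α t)
      ((differentiableAt_const _).div (ylp_hE h).differentiableAt hp.ne')
  have e3 : lap (YE α) q = YE α q * (α ^ 2 / hE α q.1 ^ 2 + 3 * α ^ 4 * q.1 ^ 2 / hE α q.1 ^ 4) := by
    unfold lap
    rw [e1, e2]
    field_simp
    ring
  have e4 : gdot (YE α) (YE α) q
      = 1 / hE α q.1 ^ 2 + YE α q ^ 2 * α ^ 4 * q.1 ^ 2 / hE α q.1 ^ 4 := by
    unfold gdot
    rw [(YE_dx h).1, (YE_dx h).2]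
    field_simp
    ring
  rw [e3, e4]
  ring

theorem comp_YE_bd {α M : ℝ} {f : ℝ → ℝ} (hf : ContDiff ℝ ∞ f)
    (hM : ∀ y : ℝ, |y| ≤ 1 → |deriv f y| ≤ M ∧ |deriv (deriv f) y| ≤ M) {q : ℝ × ℝ}
    (h : α ^ 2 * q.1 ^ 2 ≤ 1 / 16) (hY : |YE α q| ≤ 1) :
    |lap (fun z => f (YE α z)) q - deriv (deriv f) (YE α q) / hE α q.1 ^ 2| ≤ 2 * M * α ^ 2 ∧
    |dx (fun z => f (YE α z)) q| ≤ 2 * M * α ^ 2 * |q.1| ∧
    |dy (fun z => f (YE α z)) q| ≤ 2 * M := by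
  obtain ⟨hp, hp1, hl, hl2⟩ := ylp_low h
  have h1 : α ^ 2 * q.1 ^ 2 < 1 := by linarith
  obtain ⟨m1, m2⟩ := hM _ hY
  have hM0 : 0 ≤ M := (abs_nonneg _).trans m1
  have hi : 1 / hE α q.1 ≤ 16 / 15 := by
    rw [div_le_iff₀ hp]
    linarith
  have hi2 : 1 / hE α q.1 ^ 2 ≤ 16 / 15 := by
    rw [div_le_iff₀ (by positivity)]
    linarith
  have hi0 : 0 < 1 / hE α q.1 ^ 2 := by positivity
  rw [comp_YE_lap hf h1, (comp_YE_dx hf h1).1, (comp_YE_dx hf h1).2]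
  set Y := YE α q with hYd
  set d1 := deriv f Y with hd1
  set d2 := deriv (deriv f) Y with hd2
  set k := 1 / hE α q.1 ^ 2 with hk
  have hk4 : ∀ c : ℝ, c / hE α q.1 ^ 4 = c * k ^ 2 := by
    intro c
    rw [hk]
    field_simp
  have hk2 : ∀ c : ℝ, c / hE α q.1 ^ 2 = c * k := by
    intro c
    rw [hk]
    field_simp
  have hY2 : Y ^ 2 ≤ 1 := by
    rw [← sq_abs]
    nlinarith [abs_nonneg Y]
  have ha : 0 ≤ α ^ 2 := sq_nonneg α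
  have hx : 0 ≤ α ^ 2 * q.1 ^ 2 := by positivity
  refine ⟨?_, ?_, ?_⟩
  · have e : d2 * (k + Y ^ 2 * α ^ 4 * q.1 ^ 2 / hE α q.1 ^ 4) +
        d1 * (Y * (α ^ 2 / hE α q.1 ^ 2 + 3 * α ^ 4 * q.1 ^ 2 / hE α q.1 ^ 4)) -
        d2 / hE α q.1 ^ 2
        = α ^ 2 * (d2 * (Y ^ 2 * ((α ^ 2 * q.1 ^ 2) * k ^ 2)) +
          d1 * (Y * (k + 3 * ((α ^ 2 * q.1 ^ 2) * k ^ 2)))) := by
      rw [hk4, hk4, hk2, hk2]
      ring
    rw [e, abs_mul, abs_of_nonneg ha]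
    have hk3 : (α ^ 2 * q.1 ^ 2) * k ^ 2 ≤ 1 / 16 * (16 / 15) ^ 2 :=
      mul_le_mul h (pow_le_pow_left₀ hi0.le hi2 2) (by positivity) (by norm_num)
    have hk30 : 0 ≤ (α ^ 2 * q.1 ^ 2) * k ^ 2 := by positivity
    have b1 : |d2 * (Y ^ 2 * ((α ^ 2 * q.1 ^ 2) * k ^ 2))| ≤ M * (1 / 16 * (16 / 15) ^ 2) := by
      rw [abs_mul, abs_of_nonneg (by positivity : 0 ≤ Y ^ 2 * ((α ^ 2 * q.1 ^ 2) * k ^ 2))]
      refine mul_le_mul m2 ?_ (by positivity) hM0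
      calc Y ^ 2 * ((α ^ 2 * q.1 ^ 2) * k ^ 2) ≤ 1 * (1 / 16 * (16 / 15) ^ 2) :=
            mul_le_mul hY2 hk3 hk30 (by norm_num)
        _ = _ := one_mul _
    have b2 : |d1 * (Y * (k + 3 * ((α ^ 2 * q.1 ^ 2) * k ^ 2)))|
        ≤ M * (16 / 15 + 3 * (1 / 16 * (16 / 15) ^ 2)) := by
      rw [abs_mul, abs_mul]
      have h0 : 0 ≤ k + 3 * ((α ^ 2 * q.1 ^ 2) * k ^ 2) := by positivity
      rw [abs_of_nonneg h0]
      refine mul_le_mul m1 ?_ (mul_nonneg (abs_nonneg _) h0) hM0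
      calc |Y| * (k + 3 * ((α ^ 2 * q.1 ^ 2) * k ^ 2)) ≤ 1 * (k + 3 * ((α ^ 2 * q.1 ^ 2) * k ^ 2)) :=
            mul_le_mul_of_nonneg_right hY h0
        _ ≤ _ := by linarith
    have b3 := abs_add_le (d2 * (Y ^ 2 * ((α ^ 2 * q.1 ^ 2) * k ^ 2)))
      (d1 * (Y * (k + 3 * ((α ^ 2 * q.1 ^ 2) * k ^ 2))))
    have b4 : |d2 * (Y ^ 2 * ((α ^ 2 * q.1 ^ 2) * k ^ 2)) +
        d1 * (Y * (k + 3 * ((α ^ 2 * q.1 ^ 2) * k ^ 2)))| ≤ 2 * M := by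
      nlinarith
    calc α ^ 2 * _ ≤ α ^ 2 * (2 * M) := mul_le_mul_of_nonneg_left b4 ha
      _ = 2 * M * α ^ 2 := by ring
  · rw [hk2]
    have e : d1 * (Y * (α ^ 2 * q.1 * k)) = (d1 * Y * k) * (α ^ 2 * q.1) := by ring
    rw [e, abs_mul, abs_mul (α ^ 2), abs_of_nonneg ha]
    have b : |d1 * Y * k| ≤ 2 * M := by
      rw [abs_mul, abs_mul, abs_of_pos hi0]
      calc |d1| * |Y| * k ≤ M * 1 * (16 / 15) :=
            mul_le_mul (mul_le_mul m1 hY (abs_nonneg _) hM0) hi2 hi0.le (by positivity)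
        _ ≤ 2 * M := by linarith
    calc |d1 * Y * k| * (α ^ 2 * |q.1|) ≤ 2 * M * (α ^ 2 * |q.1|) :=
          mul_le_mul_of_nonneg_right b (by positivity)
      _ = 2 * M * α ^ 2 * |q.1| := by ring
  · rw [abs_div, abs_of_pos hp, div_eq_mul_one_div]
    calc |d1| * (1 / hE α q.1) ≤ M * (16 / 15) := mul_le_mul m1 hi (by positivity) hM0
      _ ≤ 2 * M := by linarith

theorem hE_inv {α x : ℝ} (h : α ^ 2 * x ^ 2 ≤ 1 / 16) :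
    0 ≤ 1 / hE α x ^ 2 - 1 - α ^ 2 * x ^ 2 ∧
    1 / hE α x ^ 2 - 1 - α ^ 2 * x ^ 2 ≤ 2 * (α ^ 2 * x ^ 2) ^ 2 ∧ 15 / 16 ≤ hE α x ^ 2 := by
  obtain ⟨hp, hp1, hl, hl2⟩ := ylp_low h
  have h2 := hE_sq (α := α) (x := x) (by linarith)
  have hx : 0 ≤ α ^ 2 * x ^ 2 := by positivity
  refine ⟨?_, ?_, hl2⟩
  · have : 1 + α ^ 2 * x ^ 2 ≤ 1 / hE α x ^ 2 := by
      rw [le_div_iff₀ (by positivity), h2]
      nlinarith
    linarith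
  · have : 1 / hE α x ^ 2 ≤ 1 + α ^ 2 * x ^ 2 + 2 * (α ^ 2 * x ^ 2) ^ 2 := by
      rw [div_le_iff₀ (by positivity), h2]
      nlinarith [pow_nonneg hx 2, pow_nonneg hx 3]
    linarith

end Pool.Agent.MFE
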