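import Pool.Agent.MFE.FLDCst
import Pool.Agent.MFE.FLDYlp
import Pool.Agent.MFE.FLDLoc
import Pool.Agent.MFE.GRN

/-!
# MFE.FLDWk: the weak form of the reduced equation (regime C)

`f = 0` outside `Ell α`, continuous on `{|x| ≤ R}`, `C²` in `Ell α ∩ {|x| < R}`, `α R ≤ 1/4`,
`|f| ≤ M`, `|lap f + q(y) f| ≤ N` there; `χ ∈ C_c^∞(-R, R)`. `bF α f x = ∫_{-1}^1 f(x,y) e(Y) dy`. Then
`|∫ bF χ'' - ∫_E χ e(Y) (lap f + q(y) f)| ≤ K M ∫ (α²|x||χ'| + (α² + α²x²)|χ|)`.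
Proof. `ρ ∈ C_c^∞(-R', R')`, `R' < R`, `ρ = 1` near the support of `χ`; `u = ρ(x) f`, `F = χ(x) e(Y)` (in
`Ell α`; both extended by zero). `green0_symm`: `∫_E u lap F = ∫_E F lap u`, where `u = f`,
`lap u = lap f` on the support of `χ`. The bounds needed: `F`: smooth up to the boundary on
`|x| ≤ R` (`|e(Y)| ≤ C (1-Y²) ≤ C' wE`, `cst_e`, `wE_eq_Y`, `comp_YE_bd`); `u`: cover the compact
interval `[-R', R']`: with a scaled version or directly `loc_bd` — scale: `loc_bd` needs a margin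
`3` in `x`; for a smaller margin `r = (R-R')`, argue in the same way with `D = Ell α ∩ {|x-x₁| < r}` and
the barrier `2M' wE + M (x-x₁)²/r²`, `M' = M(1 + 1/r²)`. (To avoid this, the hypotheses below ask
for the equation on `{|x| < R + 4}`, so `loc_bd` applies at every `x₀ ∈ [-R, R]`.)
`lap F = χ'' e(Y) + 2χ' ∂ₓ(e(Y)) + χ lap(e(Y))`,
`lap (e(Y)) = -q(Y) e(Y)/h² + O(α²)` (`comp_YE_bd`, `e1_deriv2`), `|∂ₓ(e(Y))| ≤ Cα²|x|`,
`|1/h² - 1| ≤ 2α²x²` (`hE_inv`), `|q(Y) - q(y)| ≤ C α²x²` (`YE_near`, `cst_bd`). So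
`∫_E f χ'' e(Y) = ∫_E χ e(Y) (lap f + q(y) f) + O(M ∫ (α²|x||χ'| + (α² + α²x²)|χ|))`; the left side is
`∫ bF χ''` by Fubini (`f = 0` outside the ellipse).
-/

open scoped ContDiff

namespace Pool.Agent.MFE

noncomputable def bF (α : ℝ) (f : ℝ × ℝ → ℝ) (x : ℝ) : ℝ :=
  ∫ y in (-1 : ℝ)..1, f (x, y) * e1 ast (YE α (x, y))

/-! ### the cut off function -/

private noncomputable def wkr (R x : ℝ) : ℝ :=
  Real.smoothTransition (R + 1 - x) * Real.smoothTransition (R + 1 + x)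

private theorem wkr_smooth (R : ℝ) : ContDiff ℝ ∞ (wkr R) := by
  unfold wkr
  exact (Real.smoothTransition.contDiff.comp (contDiff_const.sub contDiff_id)).mul
    (Real.smoothTransition.contDiff.comp (contDiff_const.add contDiff_id))

private theorem wkr_one {R x : ℝ} (h : |x| ≤ R) : wkr R x = 1 := by
  have := abs_le.1 h
  rw [wkr, Real.smoothTransition.one_of_one_le (by linarith),
    Real.smoothTransition.one_of_one_le (by linarith), one_mul]

private theorem wkr_zero {R x : ℝ} (h : R + 1 ≤ |x|) : wkr R x = 0 := by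
  rw [wkr]
  rcases le_abs.1 h with h1 | h1
  · rw [Real.smoothTransition.zero_of_nonpos (by linarith), zero_mul]
  · rw [Real.smoothTransition.zero_of_nonpos (x := R + 1 + x) (by linarith), mul_zero]

private theorem wkr_bd (R : ℝ) : ∃ C : ℝ, 0 ≤ C ∧ ∀ x : ℝ, |x| ≤ R + 1 →
    |wkr R x| ≤ C ∧ |deriv (wkr R) x| ≤ C ∧ |deriv (deriv (wkr R)) x| ≤ C := by
  have h1 : ContDiff ℝ ∞ (deriv (wkr R)) := (contDiff_infty_iff_deriv.1 (wkr_smooth R)).2
  have h2 : ContDiff ℝ ∞ (deriv (deriv (wkr R))) := (contDiff_infty_iff_deriv.1 h1).2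
  obtain ⟨a, ha⟩ := (isCompact_Icc (a := -(R + 1)) (b := R + 1)).exists_bound_of_continuousOn
    (wkr_smooth R).continuous.continuousOn
  obtain ⟨b, hb⟩ := (isCompact_Icc (a := -(R + 1)) (b := R + 1)).exists_bound_of_continuousOn
    h1.continuous.continuousOn
  obtain ⟨c, hc⟩ := (isCompact_Icc (a := -(R + 1)) (b := R + 1)).exists_bound_of_continuousOn
    h2.continuous.continuousOn
  refine ⟨max 0 (max a (max b c)), le_max_left _ _, fun x hx => ?_⟩
  have hx' := abs_le.1 hx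
  refine ⟨(ha x hx').trans ?_, (hb x hx').trans ?_, (hc x hx').trans ?_⟩
  · exact (le_max_left _ _).trans (le_max_right _ _)
  · exact (le_max_left _ _).trans ((le_max_right _ _).trans (le_max_right _ _))
  · exact (le_max_right _ _).trans ((le_max_right _ _).trans (le_max_right _ _))

private theorem wk_loc0 {u : ℝ × ℝ → ℝ} {O : Set (ℝ × ℝ)} (hO : IsOpen O)
    (h : ∀ q ∈ O, u q = 0) {q : ℝ × ℝ} (hq : q ∈ O) :
    dx u q = 0 ∧ dy u q = 0 ∧ lap u q = 0 := by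
  have d0 : ∀ q, dx (fun _ : ℝ × ℝ => (0 : ℝ)) q = 0 := fun q => by simp [dx]
  have d1 : ∀ q, dy (fun _ : ℝ × ℝ => (0 : ℝ)) q = 0 := fun q => by simp [dy]
  have e0 : dx (fun _ : ℝ × ℝ => (0 : ℝ)) = fun _ => 0 := funext d0
  have e1 : dy (fun _ : ℝ × ℝ => (0 : ℝ)) = fun _ => 0 := funext d1
  refine ⟨by rw [dx_congr hO h hq, d0], by rw [dy_congr hO h hq, d1], ?_⟩
  rw [lap_congr hO h hq, lap, e0, e1, d0, d1, add_zero]

/-- product of a function of `x` and `g` -/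
private theorem wk_prod {D : Set (ℝ × ℝ)} (hD : IsOpen D) {φ : ℝ → ℝ} (hφ : ContDiff ℝ ∞ φ)
    {g : ℝ × ℝ → ℝ} (hg : ContDiffOn ℝ 2 g D) {q : ℝ × ℝ} (hq : q ∈ D) :
    dx (fun z => φ z.1 * g z) q = deriv φ q.1 * g q + φ q.1 * dx g q ∧
    dy (fun z => φ z.1 * g z) q = φ q.1 * dy g q ∧
    lap (fun z => φ z.1 * g z) q =
      φ q.1 * lap g q + g q * deriv (deriv φ) q.1 + 2 * (deriv φ q.1 * dx g q) := by
  have hφ1 : Differentiable ℝ φ := hφ.differentiable (by simp)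
  have hφ2 : ContDiff ℝ 2 φ := by exact_mod_cast contDiff_infty.1 hφ 2
  have dg : DifferentiableAt ℝ g q :=
    ((hg.contDiffAt (hD.mem_nhds hq)).differentiableAt (by norm_num))
  have dφ : DifferentiableAt ℝ (fun z : ℝ × ℝ => φ z.1) q :=
    (hφ1 q.1).comp q differentiableAt_fst
  have cφ : ContDiffOn ℝ 2 (fun z : ℝ × ℝ => φ z.1) D := (hφ2.comp contDiff_fst).contDiffOn
  refine ⟨?_, ?_, ?_⟩
  · rw [dx_mul dφ dg, dx_fst φ (hφ1 q.1)]
  · rw [dy_mul dφ dg, dy_fst φ (hφ1 q.1)]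
    ring
  · rw [lap_mul hD cφ hg hq, lap_fst φ hφ2, gdot, dx_fst φ (hφ1 q.1), dy_fst φ (hφ1 q.1)]
    ring

private theorem wk_e1smooth (α : ℝ) : ContDiffOn ℝ ∞ (fun q => e1 ast (YE α q)) (Ell α) :=
  (comp_YE_smooth α (e1_smooth ast)).mono fun q hq => (ell_sq_lt hq).1

private theorem wk_e1smooth2 (α : ℝ) : ContDiffOn ℝ 2 (fun q => e1 ast (YE α q)) (Ell α) := by
  exact_mod_cast contDiffOn_infty.1 (wk_e1smooth α) 2

private theorem wk_sq {α R x : ℝ} (hα : 0 < α) (hR : 0 < R) (h : α * (R + 4) ≤ 1 / 4)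
    (hx : |x| ≤ R) : α ^ 2 * x ^ 2 ≤ 1 / 16 := by
  have h1 : α * |x| ≤ 1 / 4 := (mul_le_mul_of_nonneg_left (by linarith) hα.le).trans h
  have h2 : (α * |x|) ^ 2 ≤ (1 / 4) ^ 2 := pow_le_pow_left₀ (by positivity) h1 2
  rw [mul_pow, sq_abs] at h2
  linarith

/-- bounds for `e1 (Y)` -/
private theorem wk_e1 : ∃ K : ℝ, 1 ≤ K ∧ (∀ y : ℝ, |y| ≤ 2 → |pot1 ast y| ≤ K) ∧
    ∀ (α : ℝ) (q : ℝ × ℝ), 0 < α → α ≤ 1 → q ∈ Ell α →
    α ^ 2 * q.1 ^ 2 ≤ 1 / 16 →
    |e1 ast (YE α q)| ≤ K ∧ |e1 ast (YE α q)| ≤ K * wE α q ∧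
    |dx (fun z => e1 ast (YE α z)) q| ≤ K * (α ^ 2 * |q.1|) ∧
    |dx (fun z => e1 ast (YE α z)) q| ≤ K ∧
    |dy (fun z => e1 ast (YE α z)) q| ≤ K ∧
    |lap (fun z => e1 ast (YE α z)) q| ≤ K ∧
    |lap (fun z => e1 ast (YE α z)) q + pot1 ast q.2 * e1 ast (YE α q)| ≤
      K * (α ^ 2 + α ^ 2 * q.1 ^ 2) := by
  obtain ⟨K, hK, hb⟩ := cst_bd
  obtain ⟨C, hC, he⟩ := cst_e
  obtain ⟨K', hK'⟩ : ∃ K' : ℝ, K' = 1 + 2 * C + 4 * K + 4 * K ^ 2 := ⟨_, rfl⟩
  have hKsq : 0 ≤ K ^ 2 := sq_nonneg K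
  have k0 : 1 ≤ K' := by rw [hK']; linarith
  have k1 : K ≤ K' := by rw [hK']; linarith
  have k2 : 2 * C ≤ K' := by rw [hK']; linarith
  have k3 : 4 * K ≤ K' := by rw [hK']; linarith
  have k4 : 4 * K + 4 * K ^ 2 ≤ K' := by rw [hK']; linarith
  refine ⟨K', k0, fun y hy => ?_, ?_⟩
  · exact (hb y hy).2.2.2.2.2.2.1.trans k1
  intro α q hα hα1 hq hx
  obtain ⟨hx1, hy1⟩ := ell_sq_lt hq
  have hY1 : |YE α q| < 1 := (ell_iff_Y hx1).1 hq
  have hYsq : YE α q ^ 2 < 1 := (sq_lt_one_iff_abs_lt_one _).2 hY1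
  have hY2 : |YE α q| ≤ 2 := by linarith
  obtain ⟨b1, b2, b3, b4, b5, b6, b7, b8⟩ := hb _ hY2
  obtain ⟨i1, i2, i3⟩ := hE_inv hx
  have hh : 0 < hE α q.1 ^ 2 := by linarith
  have hh1 : hE α q.1 ^ 2 ≤ 1 := by
    rw [hE_sq hx1.le]
    have := mul_nonneg (sq_nonneg α) (sq_nonneg q.1)
    linarith
  obtain ⟨g1, g2, g3⟩ := comp_YE_bd (α := α) (M := K) (f := e1 ast) (e1_smooth ast)
    (fun y hy => ⟨(hb y (by linarith)).2.1, (hb y (by linarith)).2.2.1⟩) hx hY1.le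
  obtain ⟨y1, y2⟩ := YE_near hx1
  have y3 := y2 hx
  have hα2 : α ^ 2 ≤ 1 := pow_le_one₀ hα.le hα1
  have hα0 : 0 ≤ α ^ 2 := sq_nonneg α
  have hax : 0 ≤ α ^ 2 * q.1 ^ 2 := by positivity
  have habs : α ^ 2 * |q.1| ≤ 1 := by
    have h1 : (α * |q.1|) ^ 2 ≤ 1 ^ 2 := by
      rw [mul_pow, sq_abs]
      linarith
    have h2 : α * |q.1| ≤ 1 := le_of_sq_le_sq h1 zero_le_one
    have h3 : α * (α * |q.1|) ≤ 1 * 1 := mul_le_mul hα1 h2 (by positivity) zero_le_one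
    have h4 : α ^ 2 * |q.1| = α * (α * |q.1|) := by ring
    rw [h4]
    linarith
  have hinv : 1 / hE α q.1 ^ 2 ≤ 2 := by
    rw [div_le_iff₀ hh]
    linarith
  refine ⟨b1.trans k1, ?_, ?_, ?_, g3.trans (by linarith), ?_, ?_⟩
  · have h1 := he _ hY1.le
    have h2 : wE α q = hE α q.1 ^ 2 * (1 - YE α q ^ 2) := wE_eq_Y hx1
    have h3 : 0 ≤ e1 ast (YE α q) := le_trans (by linarith) h1.1
    rw [abs_of_nonneg h3, h2]
    have h4 : 0 ≤ 1 - YE α q ^ 2 := by linarith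
    have h5 : C * (1 - YE α q ^ 2) ≤ (2 * C) * (hE α q.1 ^ 2 * (1 - YE α q ^ 2)) := by
      have h7 : 0 ≤ C * (1 - YE α q ^ 2) := mul_nonneg hC.le h4
      have h8 : 1 * (C * (1 - YE α q ^ 2)) ≤ (2 * hE α q.1 ^ 2) * (C * (1 - YE α q ^ 2)) :=
        mul_le_mul_of_nonneg_right (by linarith) h7
      linarith
    have h6 : 0 ≤ hE α q.1 ^ 2 * (1 - YE α q ^ 2) := mul_nonneg hh.le h4
    exact (h1.2.trans h5).trans (mul_le_mul_of_nonneg_right k2 h6)
  · refine g2.trans ?_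
    have h7 : 0 ≤ α ^ 2 * |q.1| := by positivity
    have h8 := mul_le_mul_of_nonneg_right (show 2 * K ≤ K' by linarith) h7
    linarith
  · refine g2.trans ?_
    have h8 := mul_le_mul_of_nonneg_left habs (show 0 ≤ 2 * K by linarith)
    linarith
  · have h1 : |deriv (deriv (e1 ast)) (YE α q) / hE α q.1 ^ 2| ≤ 2 * K := by
      rw [abs_div, abs_of_pos hh, div_eq_mul_one_div]
      have := mul_le_mul b3 hinv (by positivity) hK.le
      linarith
    have h2 := abs_add_le (lap (fun z => e1 ast (YE α z)) q -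
      deriv (deriv (e1 ast)) (YE α q) / hE α q.1 ^ 2)
      (deriv (deriv (e1 ast)) (YE α q) / hE α q.1 ^ 2)
    rw [sub_add_cancel] at h2
    have h3 : 2 * K * α ^ 2 ≤ 2 * K := mul_le_of_le_one_right (by linarith) hα2
    linarith
  · have hpot : |pot1 ast q.2 - pot1 ast (YE α q)| ≤ K * (2 * (α ^ 2 * q.1 ^ 2)) := by
      have h5 := Convex.norm_image_sub_le_of_norm_deriv_le (f := pot1 ast) (s := Set.Icc (-1) 1)
        (C := K) (x := YE α q) (y := q.2)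
        (fun z _ => (cst_smooth.differentiable (by simp)) z)
        (fun z hz => by
          rw [Real.norm_eq_abs]
          exact (hb z (abs_le.2 ⟨by linarith [hz.1], by linarith [hz.2]⟩)).2.2.2.2.2.2.2)
        (convex_Icc _ _) (abs_le.1 hY1.le) (abs_le.1 hy1.le)
      simp only [Real.norm_eq_abs] at h5
      refine h5.trans (mul_le_mul_of_nonneg_left ?_ hK.le)
      rw [abs_sub_comm]
      refine y3.trans ?_
      have : 2 * α ^ 2 * q.1 ^ 2 * |q.2| ≤ 2 * α ^ 2 * q.1 ^ 2 * 1 :=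
        mul_le_mul_of_nonneg_left hy1.le (by positivity)
      linarith
    have hid : lap (fun z => e1 ast (YE α z)) q + pot1 ast q.2 * e1 ast (YE α q) =
        (lap (fun z => e1 ast (YE α z)) q - deriv (deriv (e1 ast)) (YE α q) / hE α q.1 ^ 2) +
        ((pot1 ast q.2 - pot1 ast (YE α q)) * e1 ast (YE α q)) +
        (-(pot1 ast (YE α q) * e1 ast (YE α q)) * (1 / hE α q.1 ^ 2 - 1)) := by
      rw [e1_deriv2]
      ring
    rw [hid]
    refine (abs_add_le _ _).trans ((add_le_add (abs_add_le _ _) le_rfl).trans ?_)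
    rw [abs_mul, abs_mul (-(pot1 ast (YE α q) * e1 ast (YE α q))), abs_neg,
      abs_mul (pot1 ast (YE α q))]
    have t1 : |pot1 ast q.2 - pot1 ast (YE α q)| * |e1 ast (YE α q)| ≤
        K * (2 * (α ^ 2 * q.1 ^ 2)) * K := mul_le_mul hpot b1 (abs_nonneg _) (by positivity)
    have t2 : |1 / hE α q.1 ^ 2 - 1| ≤ 2 * (α ^ 2 * q.1 ^ 2) := by
      rw [abs_of_nonneg (by linarith)]
      have : (α ^ 2 * q.1 ^ 2) * (α ^ 2 * q.1 ^ 2) ≤ 1 / 16 * (α ^ 2 * q.1 ^ 2) :=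
        mul_le_mul_of_nonneg_right hx hax
      have h9 : 2 * (α ^ 2 * q.1 ^ 2) ^ 2 = 2 * ((α ^ 2 * q.1 ^ 2) * (α ^ 2 * q.1 ^ 2)) := by ring
      linarith
    have t3 : |pot1 ast (YE α q)| * |e1 ast (YE α q)| * |1 / hE α q.1 ^ 2 - 1| ≤
        K * K * (2 * (α ^ 2 * q.1 ^ 2)) :=
      mul_le_mul (mul_le_mul b7 b1 (abs_nonneg _) hK.le) t2 (abs_nonneg _) (by positivity)
    have t4 : 2 * K * α ^ 2 ≤ K' * α ^ 2 := mul_le_mul_of_nonneg_right (by linarith) hα0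
    have t5 : 4 * K ^ 2 * (α ^ 2 * q.1 ^ 2) ≤ K' * (α ^ 2 * q.1 ^ 2) :=
      mul_le_mul_of_nonneg_right (by linarith) hax
    have t6 : K * (2 * (α ^ 2 * q.1 ^ 2)) * K + K * K * (2 * (α ^ 2 * q.1 ^ 2)) =
      4 * K ^ 2 * (α ^ 2 * q.1 ^ 2) := by ring
    linarith

/-- data of the weak equation -/
private structure WkD (α R M N : ℝ) (f : ℝ × ℝ → ℝ) (χ : ℝ → ℝ) : Prop where
  hα : 0 < α
  hα1 : α ≤ 1
  hR : 0 < R
  hαR : α * (R + 4) ≤ 1 / 4
  hM : 0 ≤ M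
  h0 : ∀ q, q ∉ Ell α → f q = 0
  hc : ContinuousOn f {q | |q.1| ≤ R + 4}
  hs : ContDiffOn ℝ 2 f (Ell α ∩ {q | |q.1| < R + 4})
  hb : ∀ q ∈ Ell α, |q.1| < R + 4 → |f q| ≤ M ∧ |lap f q + pot1 ast q.2 * f q| ≤ N
  hχ : ContDiff ℝ ∞ χ
  hχc : HasCompactSupport χ
  hsu : tsupport χ ⊆ Set.Ioo (-R) R

private theorem wk_openD (α R : ℝ) : IsOpen (Ell α ∩ {q : ℝ × ℝ | |q.1| < R + 4}) :=
  (isOpen_ell α).inter (isOpen_lt (by fun_prop) continuous_const)

/-- bound of the laplacian -/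
private theorem WkD.lapf {α R M N : ℝ} {f : ℝ × ℝ → ℝ} {χ : ℝ → ℝ} (h : WkD α R M N f χ)
    {K : ℝ} (hK : ∀ y : ℝ, |y| ≤ 2 → |pot1 ast y| ≤ K) :
    ∀ q ∈ Ell α, |q.1| < R + 4 → |lap f q| ≤ N + K * M := by
  intro q hq hx
  obtain ⟨h1, h2⟩ := h.hb q hq hx
  have h3 : lap f q = (lap f q + pot1 ast q.2 * f q) + -(pot1 ast q.2 * f q) := by ring
  rw [h3]
  refine (abs_add_le _ _).trans (add_le_add h2 ?_)
  rw [abs_neg, abs_mul]
  have h4 : |pot1 ast q.2| ≤ K := hK _ (by linarith [(ell_sq_lt hq).2])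
  exact mul_le_mul h4 h1 (abs_nonneg _) ((abs_nonneg _).trans h4)

private theorem WkD.out {α R M N : ℝ} {f : ℝ × ℝ → ℝ} {χ : ℝ → ℝ} (h : WkD α R M N f χ)
    {x : ℝ} (hx : x ∉ tsupport χ) : χ x = 0 ∧ deriv χ x = 0 ∧ deriv (deriv χ) x = 0 := by
  have _ := h
  refine ⟨image_eq_zero_of_notMem_tsupport hx, ?_, ?_⟩
  · exact image_eq_zero_of_notMem_tsupport fun h1 => hx (tsupport_deriv_subset h1)
  · exact image_eq_zero_of_notMem_tsupport fun h1 =>
      hx (tsupport_deriv_subset (tsupport_deriv_subset h1))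

private theorem WkD.abs_lt {α R M N : ℝ} {f : ℝ × ℝ → ℝ} {χ : ℝ → ℝ} (h : WkD α R M N f χ)
    {x : ℝ} (hx : x ∈ tsupport χ) : |x| < R := _root_.abs_lt.2 (h.hsu hx)

/-- bounds of `χ` -/
private theorem WkD.chi {α R M N : ℝ} {f : ℝ × ℝ → ℝ} {χ : ℝ → ℝ} (h : WkD α R M N f χ) :
    ∃ C : ℝ, 0 ≤ C ∧ ∀ x, |χ x| ≤ C ∧ |deriv χ x| ≤ C ∧ |deriv (deriv χ) x| ≤ C := by
  have h1 : ContDiff ℝ ∞ (deriv χ) := (contDiff_infty_iff_deriv.1 h.hχ).2
  have h2 : ContDiff ℝ ∞ (deriv (deriv χ)) := (contDiff_infty_iff_deriv.1 h1).2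
  obtain ⟨a, ha⟩ := h.hχ.continuous.bounded_above_of_compact_support h.hχc
  obtain ⟨b, hb⟩ := h1.continuous.bounded_above_of_compact_support h.hχc.deriv
  obtain ⟨c, hc⟩ := h2.continuous.bounded_above_of_compact_support h.hχc.deriv.deriv
  refine ⟨max 0 (max a (max b c)), le_max_left _ _, fun x => ?_⟩
  refine ⟨(ha x).trans ?_, (hb x).trans ?_, (hc x).trans ?_⟩
  · exact (le_max_left _ _).trans (le_max_right _ _)
  · exact (le_max_left _ _).trans ((le_max_right _ _).trans (le_max_right _ _))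
  · exact (le_max_right _ _).trans ((le_max_right _ _).trans (le_max_right _ _))

/-- the test function -/
private noncomputable def wkF (α : ℝ) (χ : ℝ → ℝ) (q : ℝ × ℝ) : ℝ := χ q.1 * e1 ast (YE α q)

private theorem wkF_smooth (α : ℝ) {χ : ℝ → ℝ} (hχ : ContDiff ℝ ∞ χ) :
    ContDiffOn ℝ 2 (wkF α χ) (Ell α) := by
  have hφ2 : ContDiff ℝ 2 χ := by exact_mod_cast contDiff_infty.1 hχ 2
  exact ((hφ2.comp contDiff_fst).contDiffOn).mul (wk_e1smooth2 α)

private theorem wkF_der (α : ℝ) {χ : ℝ → ℝ} (hχ : ContDiff ℝ ∞ χ) {q : ℝ × ℝ} (hq : q ∈ Ell α) :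
    dx (wkF α χ) q = deriv χ q.1 * e1 ast (YE α q) + χ q.1 * dx (fun z => e1 ast (YE α z)) q ∧
    dy (wkF α χ) q = χ q.1 * dy (fun z => e1 ast (YE α z)) q ∧
    lap (wkF α χ) q = χ q.1 * lap (fun z => e1 ast (YE α z)) q +
      e1 ast (YE α q) * deriv (deriv χ) q.1 +
      2 * (deriv χ q.1 * dx (fun z => e1 ast (YE α z)) q) :=
  wk_prod (isOpen_ell α) hχ (wk_e1smooth2 α) hq

/-- bounds for the test function -/
private theorem WkD.F {α R M N : ℝ} {f : ℝ × ℝ → ℝ} {χ : ℝ → ℝ} (h : WkD α R M N f χ) :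
    ∃ C : ℝ, 0 ≤ C ∧ ∀ q ∈ Ell α, |wkF α χ q| ≤ C * wE α q ∧ |dx (wkF α χ) q| ≤ C ∧
      |dy (wkF α χ) q| ≤ C ∧ |lap (wkF α χ) q| ≤ C := by
  obtain ⟨K, hK1, hKp, hK⟩ := wk_e1
  obtain ⟨C, hC, hb⟩ := h.chi
  have hK0 : 0 ≤ K := by linarith
  refine ⟨4 * (C * K), by positivity, fun q hq => ?_⟩
  obtain ⟨d1, d2, d3⟩ := wkF_der α h.hχ hq
  have hw : 0 < wE α q := by
    have h1 : α ^ 2 * q.1 ^ 2 + q.2 ^ 2 < 1 := hq
    unfold wE
    linarith
  have hCK : 0 ≤ C * K := by positivity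
  by_cases hx : q.1 ∈ tsupport χ
  · obtain ⟨k1, k2, k3, k4, k5, k6, k7⟩ := hK α q h.hα h.hα1 hq
      (wk_sq h.hα h.hR h.hαR (h.abs_lt hx).le)
    obtain ⟨c1, c2, c3⟩ := hb q.1
    have m1 : |χ q.1 * e1 ast (YE α q)| ≤ C * (K * wE α q) := by
      rw [abs_mul]; exact mul_le_mul c1 k2 (abs_nonneg _) hC
    have m2 : |deriv χ q.1 * e1 ast (YE α q)| ≤ C * K := by
      rw [abs_mul]; exact mul_le_mul c2 k1 (abs_nonneg _) hC
    have m3 : |χ q.1 * dx (fun z => e1 ast (YE α z)) q| ≤ C * K := by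
      rw [abs_mul]; exact mul_le_mul c1 k4 (abs_nonneg _) hC
    have m4 : |χ q.1 * dy (fun z => e1 ast (YE α z)) q| ≤ C * K := by
      rw [abs_mul]; exact mul_le_mul c1 k5 (abs_nonneg _) hC
    have m5 : |χ q.1 * lap (fun z => e1 ast (YE α z)) q| ≤ C * K := by
      rw [abs_mul]; exact mul_le_mul c1 k6 (abs_nonneg _) hC
    have m6 : |e1 ast (YE α q) * deriv (deriv χ) q.1| ≤ C * K := by
      rw [abs_mul, mul_comm]; exact mul_le_mul c3 k1 (abs_nonneg _) hC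
    have m7 : |deriv χ q.1 * dx (fun z => e1 ast (YE α z)) q| ≤ C * K := by
      rw [abs_mul]; exact mul_le_mul c2 k4 (abs_nonneg _) hC
    refine ⟨?_, ?_, ?_, ?_⟩
    · have : 0 ≤ C * K * wE α q := by positivity
      show |χ q.1 * e1 ast (YE α q)| ≤ 4 * (C * K) * wE α q
      nlinarith
    · rw [d1]
      refine (abs_add_le _ _).trans ?_
      linarith
    · rw [d2]
      linarith
    · rw [d3]
      refine (abs_add_le _ _).trans ((add_le_add (abs_add_le _ _) le_rfl).trans ?_)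
      rw [abs_mul 2, abs_two]
      linarith
  · obtain ⟨z1, z2, z3⟩ := h.out hx
    rw [d1, d2, d3, wkF, z1, z2, z3]
    simp only [zero_mul, mul_zero, add_zero, abs_zero]
    have : 0 ≤ 4 * (C * K) * wE α q := by positivity
    refine ⟨this, by positivity, by positivity, by positivity⟩

/-- the cut off solution -/
private noncomputable def wkU (R : ℝ) (f : ℝ × ℝ → ℝ) (q : ℝ × ℝ) : ℝ := wkr R q.1 * f q

private theorem WkD.U {α R M N : ℝ} {f : ℝ × ℝ → ℝ} {χ : ℝ → ℝ} (h : WkD α R M N f χ) :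
    ContDiffOn ℝ 2 (wkU R f) (Ell α) ∧
    ∃ C : ℝ, 0 ≤ C ∧ ∀ q ∈ Ell α, |wkU R f q| ≤ C * wE α q ∧ |dx (wkU R f) q| ≤ C ∧
      |dy (wkU R f) q| ≤ C ∧ |lap (wkU R f) q| ≤ C := by
  obtain ⟨K, hK1, hKp, hK⟩ := wk_e1
  obtain ⟨Cl, hCl, hl⟩ := loc_bd
  obtain ⟨Cr, hCr, hr⟩ := wkr_bd R
  have hN : 0 ≤ N := by
    have h1 : ((0 : ℝ), (0 : ℝ)) ∈ Ell α := by
      show α ^ 2 * (0 : ℝ) ^ 2 + (0 : ℝ) ^ 2 < 1
      norm_num
    exact (abs_nonneg _).trans (h.hb (0, 0) h1 (by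
      show |(0 : ℝ)| < R + 4
      rw [abs_zero]
      linarith [h.hR])).2
  have hK0 : 0 ≤ K := by linarith
  have hM := h.hM
  set M₁ : ℝ := M + N + K * M with hM₁
  have hKM : 0 ≤ K * M := mul_nonneg hK0 hM
  have hM₁0 : 0 ≤ M₁ := by positivity
  have hlf := h.lapf hKp
  have hfar : ∀ q : ℝ × ℝ, R + 1 < |q.1| → dx (wkU R f) q = 0 ∧ dy (wkU R f) q = 0 ∧
      lap (wkU R f) q = 0 := by
    intro q hq
    have hO : IsOpen {q : ℝ × ℝ | R + 1 < |q.1|} := isOpen_lt continuous_const (by fun_prop)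
    refine wk_loc0 hO (fun z hz => ?_) hq
    have hz' : R + 1 < |z.1| := hz
    rw [wkU, wkr_zero hz'.le, zero_mul]
  have hDo := wk_openD α R
  refine ⟨?_, 4 * (Cr * (Cl * M₁)) + 4 * (Cr * M₁), by positivity, fun q hq => ?_⟩
  · intro q hq
    by_cases hx : |q.1| < R + 4
    · have hφ2 : ContDiff ℝ 2 (wkr R) := by exact_mod_cast contDiff_infty.1 (wkr_smooth R) 2
      have h1 : ContDiffOn ℝ 2 (wkU R f) (Ell α ∩ {q | |q.1| < R + 4}) :=
        ((hφ2.comp contDiff_fst).contDiffOn).mul h.hs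
      exact (h1.contDiffAt (hDo.mem_nhds ⟨hq, hx⟩)).contDiffWithinAt
    · have hO : IsOpen {q : ℝ × ℝ | R + 1 < |q.1|} := isOpen_lt continuous_const (by fun_prop)
      have hq' : q ∈ {q : ℝ × ℝ | R + 1 < |q.1|} := by
        show R + 1 < |q.1|
        linarith [not_lt.1 hx]
      have h1 : wkU R f =ᶠ[nhds q] fun _ => 0 := by
        filter_upwards [hO.mem_nhds hq'] with z hz
        have hz' : R + 1 < |z.1| := hz
        rw [wkU, wkr_zero hz'.le, zero_mul]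
      exact (contDiffAt_const.congr_of_eventuallyEq h1).contDiffWithinAt
  · have hw : 0 < wE α q := by
      have h1 : α ^ 2 * q.1 ^ 2 + q.2 ^ 2 < 1 := hq
      unfold wE
      linarith
    have hCC : 0 ≤ Cr * (Cl * M₁) := by positivity
    have hCC2 : 0 ≤ Cr * M₁ := by positivity
    by_cases hx : |q.1| ≤ R + 1
    · have hx4 : |q.1| < R + 4 := by linarith
      have hnear : ∀ z : ℝ × ℝ, |z.1 - q.1| ≤ 3 → |z.1| ≤ R + 4 := by
        intro z hz
        have := abs_sub_abs_le_abs_sub z.1 q.1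
        linarith
      have hnear' : ∀ z : ℝ × ℝ, |z.1 - q.1| < 3 → |z.1| < R + 4 := by
        intro z hz
        have := abs_sub_abs_le_abs_sub z.1 q.1
        linarith
      obtain ⟨l1, l2, l3⟩ := (hl α q.1 M₁ f h.hα h.hα1 hM₁0 h.h0
        (h.hc.mono fun z hz => hnear z hz)
        (h.hs.mono (Set.inter_subset_inter_right _ fun z hz => hnear' z hz))
        (fun z hz hzx => ⟨(h.hb z hz (hnear' z hzx)).1.trans (by linarith),
          (hlf z hz (hnear' z hzx)).trans (by linarith)⟩)).1 q hq (by simp)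
      obtain ⟨d1, d2, d3⟩ := wk_prod hDo (wkr_smooth R) h.hs (q := q) ⟨hq, hx4⟩
      obtain ⟨r1, r2, r3⟩ := hr q.1 hx
      have f1 : |f q| ≤ M₁ := (h.hb q hq hx4).1.trans (by linarith)
      have f2 : |lap f q| ≤ M₁ := (hlf q hq hx4).trans (by linarith)
      have m1 : |wkr R q.1 * f q| ≤ Cr * (Cl * M₁ * wE α q) := by
        rw [abs_mul]; exact mul_le_mul r1 l1 (abs_nonneg _) hCr
      have m2 : |deriv (wkr R) q.1 * f q| ≤ Cr * M₁ := by
        rw [abs_mul]; exact mul_le_mul r2 f1 (abs_nonneg _) hCr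
      have m3 : |wkr R q.1 * dx f q| ≤ Cr * (Cl * M₁) := by
        rw [abs_mul]; exact mul_le_mul r1 l2 (abs_nonneg _) hCr
      have m4 : |wkr R q.1 * dy f q| ≤ Cr * (Cl * M₁) := by
        rw [abs_mul]; exact mul_le_mul r1 l3 (abs_nonneg _) hCr
      have m5 : |wkr R q.1 * lap f q| ≤ Cr * M₁ := by
        rw [abs_mul]; exact mul_le_mul r1 f2 (abs_nonneg _) hCr
      have m6 : |f q * deriv (deriv (wkr R)) q.1| ≤ Cr * M₁ := by
        rw [abs_mul, mul_comm]; exact mul_le_mul r3 f1 (abs_nonneg _) hCr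
      have m7 : |deriv (wkr R) q.1 * dx f q| ≤ Cr * (Cl * M₁) := by
        rw [abs_mul]; exact mul_le_mul r2 l2 (abs_nonneg _) hCr
      refine ⟨?_, ?_, ?_, ?_⟩
      · show |wkr R q.1 * f q| ≤ _
        refine m1.trans ?_
        have e1 : Cr * (Cl * M₁ * wE α q) = Cr * (Cl * M₁) * wE α q := by ring
        rw [e1]
        exact mul_le_mul_of_nonneg_right (by linarith) hw.le
      · show |dx (fun z => wkr R z.1 * f z) q| ≤ _
        rw [d1]
        refine (abs_add_le _ _).trans ?_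
        linarith
      · show |dy (fun z => wkr R z.1 * f z) q| ≤ _
        rw [d2]
        linarith
      · show |lap (fun z => wkr R z.1 * f z) q| ≤ _
        rw [d3]
        refine (abs_add_le _ _).trans ((add_le_add (abs_add_le _ _) le_rfl).trans ?_)
        rw [abs_mul 2, abs_two]
        linarith
    · obtain ⟨z1, z2, z3⟩ := hfar q (not_le.1 hx)
      rw [z1, z2, z3, wkU, wkr_zero (not_le.1 hx).le, zero_mul, abs_zero]
      refine ⟨by positivity, by positivity, by positivity, by positivity⟩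

/-- Green's formula -/
private theorem WkD.green {α R M N : ℝ} {f : ℝ × ℝ → ℝ} {χ : ℝ → ℝ} (h : WkD α R M N f χ) :
    ∫ q in Ell α, f q * lap (wkF α χ) q = ∫ q in Ell α, wkF α χ q * lap f q := by
  obtain ⟨C, hC, hF⟩ := h.F
  obtain ⟨hUs, C', hC', hU⟩ := h.U
  have hwE : ∀ q ∈ Ell α, 0 ≤ wE α q := by
    intro q hq
    have h1 : α ^ 2 * q.1 ^ 2 + q.2 ^ 2 < 1 := hq
    unfold wE
    linarith
  have key := green0_symm (C := C + C') h.hα hUs (wkF_smooth α h.hχ)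
    (fun q hq => ((hU q hq).1).trans (mul_le_mul_of_nonneg_right (by linarith) (hwE q hq)))
    (fun q hq => ((hF q hq).1).trans (mul_le_mul_of_nonneg_right (by linarith) (hwE q hq)))
    (fun q hq => ⟨(hU q hq).2.1.trans (by linarith), (hU q hq).2.2.1.trans (by linarith)⟩)
    (fun q hq => ⟨(hF q hq).2.1.trans (by linarith), (hF q hq).2.2.1.trans (by linarith)⟩)
    (fun q hq => (hU q hq).2.2.2.trans (by linarith))
    (fun q hq => (hF q hq).2.2.2.trans (by linarith))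
  have hm : MeasurableSet (Ell α) := (isOpen_ell α).measurableSet
  have e1 : ∫ q in Ell α, f q * lap (wkF α χ) q = ∫ q in Ell α, wkU R f q * lap (wkF α χ) q := by
    refine MeasureTheory.setIntegral_congr_fun hm fun q hq => ?_
    show f q * lap (wkF α χ) q = wkr R q.1 * f q * lap (wkF α χ) q
    by_cases hx : q.1 ∈ tsupport χ
    · rw [wkr_one (h.abs_lt hx).le, one_mul]
    · obtain ⟨z1, z2, z3⟩ := h.out hx
      rw [(wkF_der α h.hχ hq).2.2, z1, z2, z3]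
      ring
  have e2 : ∫ q in Ell α, wkF α χ q * lap (wkU R f) q = ∫ q in Ell α, wkF α χ q * lap f q := by
    refine MeasureTheory.setIntegral_congr_fun hm fun q hq => ?_
    show wkF α χ q * lap (wkU R f) q = wkF α χ q * lap f q
    by_cases hx : q.1 ∈ tsupport χ
    · have hO : IsOpen {q : ℝ × ℝ | |q.1| < R} := isOpen_lt (by fun_prop) continuous_const
      have h1 : lap (wkU R f) q = lap f q := by
        refine lap_congr hO (fun z hz => ?_) (h.abs_lt hx)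
        have hz' : |z.1| < R := hz
        rw [wkU, wkr_one hz'.le, one_mul]
      rw [h1]
    · rw [wkF, (h.out hx).1]
      ring
  rw [e1, key, e2]

/-! ### integrability -/

private theorem wk_measS (α R : ℝ) : MeasurableSet (Ell α ∩ {q : ℝ × ℝ | |q.1| ≤ R}) :=
  (isOpen_ell α).measurableSet.inter (isClosed_le (by fun_prop) continuous_const).measurableSet

open MeasureTheory in
private theorem wk_int {α R C : ℝ} (hα : 0 < α) {G : ℝ × ℝ → ℝ}
    (hc : ContinuousOn G (Ell α ∩ {q | |q.1| ≤ R}))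
    (hC : ∀ q ∈ Ell α, |q.1| ≤ R → |G q| ≤ C) :
    IntegrableOn G (Ell α ∩ {q | |q.1| ≤ R}) := by
  have hfin : volume (Ell α ∩ {q : ℝ × ℝ | |q.1| ≤ R}) ≠ ⊤ := by
    refine ne_top_of_le_ne_top ?_ (measure_mono Set.inter_subset_left)
    rw [area_ell hα]
    exact ENNReal.ofReal_ne_top
  have : IsFiniteMeasure (volume.restrict (Ell α ∩ {q : ℝ × ℝ | |q.1| ≤ R})) :=
    ⟨by rw [Measure.restrict_apply_univ]; exact hfin.lt_top⟩
  refine Integrable.of_bound (hc.aestronglyMeasurable (wk_measS α R)) C ?_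
  refine (ae_restrict_iff' (wk_measS α R)).2 (ae_of_all _ fun q hq => ?_)
  rw [Real.norm_eq_abs]
  exact hC q hq.1 hq.2

open MeasureTheory in
private theorem wk_bd {S : Set (ℝ × ℝ)} (hS : ∀ q ∈ S, |q.2| ≤ 1) {G : ℝ × ℝ → ℝ}
    (hSm : MeasurableSet S) {g : ℝ → ℝ} (hg : Integrable g) (hg0 : ∀ x, 0 ≤ g x)
    (h : ∀ q ∈ S, |G q| ≤ g q.1) : |∫ q in S, G q| ≤ 2 * ∫ x, g x := by
  set I : ℝ → ℝ := (Set.Icc (-1 : ℝ) 1).indicator (fun _ => 1) with hI
  have hIi : Integrable I := by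
    rw [hI, integrable_indicator_iff measurableSet_Icc]
    exact continuousOn_const.integrableOn_compact isCompact_Icc
  have hI0 : ∀ y, 0 ≤ I y := fun y => Set.indicator_nonneg (fun _ _ => zero_le_one) y
  have hI1 : ∫ y, I y = 2 := by
    rw [hI, integral_indicator measurableSet_Icc, integral_Icc_eq_integral_Ioc,
      ← intervalIntegral.integral_of_le (by norm_num)]
    rw [intervalIntegral.integral_const]
    norm_num
  have hH : Integrable (fun q : ℝ × ℝ => g q.1 * I q.2) := by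
    rw [Measure.volume_eq_prod]
    exact hg.mul_prod hIi
  have h1 : ∫ q : ℝ × ℝ, g q.1 * I q.2 = 2 * ∫ x, g x := by
    rw [Measure.volume_eq_prod, integral_prod_mul, hI1, mul_comm]
  rw [← h1]
  refine le_trans ?_ (setIntegral_le_integral (s := S) hH
    (ae_of_all _ fun q => mul_nonneg (hg0 _) (hI0 _)))
  rw [← Real.norm_eq_abs]
  refine norm_integral_le_of_norm_le hH.integrableOn ?_
  refine (ae_restrict_iff' hSm).2 (ae_of_all _ fun q hq => ?_)
  have h2 : I q.2 = 1 :=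
    Set.indicator_of_mem (s := Set.Icc (-1 : ℝ) 1) (abs_le.1 (hS q hq)) (fun _ => (1 : ℝ))
  rw [h2, mul_one, Real.norm_eq_abs]
  exact h q hq

open MeasureTheory in
private theorem WkD.fub {α R M N : ℝ} {f : ℝ × ℝ → ℝ} {χ : ℝ → ℝ} (h : WkD α R M N f χ) :
    IntegrableOn (fun q => f q * deriv (deriv χ) q.1 * e1 ast (YE α q))
      (Ell α ∩ {q | |q.1| ≤ R}) ∧
    ∫ x, bF α f x * deriv (deriv χ) x = ∫ q in Ell α ∩ {q | |q.1| ≤ R},
      f q * deriv (deriv χ) q.1 * e1 ast (YE α q) := by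
  obtain ⟨K, hK1, hKp, hK⟩ := wk_e1
  obtain ⟨C, hC, hb⟩ := h.chi
  have hχ1 : ContDiff ℝ ∞ (deriv χ) := (contDiff_infty_iff_deriv.1 h.hχ).2
  have hχ2 : ContDiff ℝ ∞ (deriv (deriv χ)) := (contDiff_infty_iff_deriv.1 hχ1).2
  have hM := h.hM
  have hK0 : 0 ≤ K := by linarith
  have hi : IntegrableOn (fun q => f q * deriv (deriv χ) q.1 * e1 ast (YE α q))
      (Ell α ∩ {q | |q.1| ≤ R}) := by
    refine wk_int (C := M * C * K) h.hα ?_ fun q hq hx => ?_
    · refine ContinuousOn.mul (ContinuousOn.mul (h.hc.mono ?_) ?_)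
        ((wk_e1smooth α).continuousOn.mono Set.inter_subset_left)
      · intro q hq
        have h1 : |q.1| ≤ R := hq.2
        show |q.1| ≤ R + 4
        linarith
      · exact (hχ2.continuous.comp continuous_fst).continuousOn
    · rw [abs_mul, abs_mul]
      have h1 := (h.hb q hq (by linarith)).1
      have h2 := (hb q.1).2.2
      have h3 := (hK α q h.hα h.hα1 hq (wk_sq h.hα h.hR h.hαR hx)).1
      exact mul_le_mul (mul_le_mul h1 h2 (abs_nonneg _) hM) h3 (abs_nonneg _) (by positivity)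
  refine ⟨hi, ?_⟩
  have h0 : ∀ q, q ∉ Ell α ∩ {q : ℝ × ℝ | |q.1| ≤ R} →
      f q * deriv (deriv χ) q.1 * e1 ast (YE α q) = 0 := by
    intro q hq
    by_cases hE : q ∈ Ell α
    · have h1 : q.1 ∉ tsupport χ := fun h2 => hq ⟨hE, (h.abs_lt h2).le⟩
      rw [(h.out h1).2.2]
      ring
    · rw [h.h0 q hE]
      ring
  have hi2 : Integrable (fun q => f q * deriv (deriv χ) q.1 * e1 ast (YE α q)) := by
    rw [← integrableOn_iff_integrable_of_support_subset (s := Ell α ∩ {q : ℝ × ℝ | |q.1| ≤ R})]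
    · exact hi
    · intro q hq
      by_contra hcon
      exact hq (h0 q hcon)
  rw [setIntegral_eq_integral_of_forall_compl_eq_zero h0, Measure.volume_eq_prod,
      integral_prod _ (by rwa [Measure.volume_eq_prod] at hi2)]
  refine integral_congr_ae (ae_of_all _ fun x => ?_)
  show bF α f x * deriv (deriv χ) x =
    ∫ y, f (x, y) * deriv (deriv χ) x * e1 ast (YE α (x, y))
  have h1 : ∫ y, f (x, y) * deriv (deriv χ) x * e1 ast (YE α (x, y)) =
      ∫ y in (-1 : ℝ)..1, f (x, y) * deriv (deriv χ) x * e1 ast (YE α (x, y)) := by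
    rw [intervalIntegral.integral_of_le (by norm_num)]
    symm
    refine setIntegral_eq_integral_of_forall_compl_eq_zero fun y hy =>
      h0 (x, y) fun hm => hy ?_
    have := _root_.abs_lt.1 (ell_sq_lt hm.1).2
    exact ⟨this.1, this.2.le⟩
  rw [h1, bF, ← intervalIntegral.integral_mul_const]
  congr 1
  funext y
  ring

open MeasureTheory in
/-- restriction to the window -/
private theorem WkD.restr {α R M N : ℝ} {f : ℝ × ℝ → ℝ} {χ : ℝ → ℝ} (h : WkD α R M N f χ)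
    {G : ℝ × ℝ → ℝ} (hG : ∀ q ∈ Ell α, q.1 ∉ tsupport χ → G q = 0) :
    ∫ q in Ell α, G q = ∫ q in Ell α ∩ {q | |q.1| ≤ R}, G q :=
  setIntegral_eq_of_subset_of_forall_diff_eq_zero (isOpen_ell α).measurableSet
    Set.inter_subset_left fun q hq => hG q hq.1 fun h2 => hq.2 ⟨hq.1, (h.abs_lt h2).le⟩

open MeasureTheory in
private theorem wk_gint {χ : ℝ → ℝ} (hχ : ContDiff ℝ ∞ χ) (hχc : HasCompactSupport χ)
    (a b : ℝ → ℝ) (ha : Continuous a) (hb : Continuous b) :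
    Integrable (fun x => a x * |deriv χ x| + b x * |χ x|) := by
  have hχ1 : ContDiff ℝ ∞ (deriv χ) := (contDiff_infty_iff_deriv.1 hχ).2
  have k2 : HasCompactSupport fun ξ : ℝ => |χ ξ| := hχc.comp_left (g := fun y : ℝ => |y|) abs_zero
  have k1 : HasCompactSupport fun ξ : ℝ => |deriv χ ξ| :=
    hχc.deriv.comp_left (g := fun y : ℝ => |y|) abs_zero
  exact ((ha.mul hχ1.continuous.abs).integrable_of_hasCompactSupport k1.mul_left).add
    ((hb.mul hχ.continuous.abs).integrable_of_hasCompactSupport k2.mul_left)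

open MeasureTheory in
private theorem wk_main {K : ℝ} (hK1 : 1 ≤ K) (hKp : ∀ y : ℝ, |y| ≤ 2 → |pot1 ast y| ≤ K)
    (hK : ∀ (α : ℝ) (q : ℝ × ℝ), 0 < α → α ≤ 1 → q ∈ Ell α → α ^ 2 * q.1 ^ 2 ≤ 1 / 16 →
    |e1 ast (YE α q)| ≤ K ∧ |e1 ast (YE α q)| ≤ K * wE α q ∧
    |dx (fun z => e1 ast (YE α z)) q| ≤ K * (α ^ 2 * |q.1|) ∧
    |dx (fun z => e1 ast (YE α z)) q| ≤ K ∧
    |dy (fun z => e1 ast (YE α z)) q| ≤ K ∧
    |lap (fun z => e1 ast (YE α z)) q| ≤ K ∧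
    |lap (fun z => e1 ast (YE α z)) q + pot1 ast q.2 * e1 ast (YE α q)| ≤
      K * (α ^ 2 + α ^ 2 * q.1 ^ 2))
    {α R M N : ℝ} {f : ℝ × ℝ → ℝ} {χ : ℝ → ℝ} (h : WkD α R M N f χ) :
    |(∫ x, bF α f x * deriv (deriv χ) x)
        - ∫ q in Ell α, χ q.1 * e1 ast (YE α q) * (lap f q + pot1 ast q.2 * f q)|
      ≤ 4 * K * M * ∫ x, (α ^ 2 * |x| * |deriv χ x| + (α ^ 2 + α ^ 2 * x ^ 2) * |χ x|) := by
  have hK0 : 0 ≤ K := by linarith
  have hM := h.hM
  obtain ⟨C, hC, hb⟩ := h.chi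
  obtain ⟨CF, hCF, hF⟩ := h.F
  obtain ⟨iA, eA⟩ := h.fub
  set S : Set (ℝ × ℝ) := Ell α ∩ {q | |q.1| ≤ R} with hS
  have hSm : MeasurableSet S := wk_measS α R
  have hlf := h.lapf hKp
  have hsub : S ⊆ Ell α ∩ {q : ℝ × ℝ | |q.1| < R + 4} := by
    intro q hq
    refine ⟨hq.1, ?_⟩
    have h1 : |q.1| ≤ R := hq.2
    show |q.1| < R + 4
    linarith
  have cf : ContinuousOn f S := h.hs.continuousOn.mono hsub
  have clf : ContinuousOn (lap f) S := (cont_lap (wk_openD α R) h.hs).mono hsub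
  have clF : ContinuousOn (lap (wkF α χ)) S :=
    (cont_lap (isOpen_ell α) (wkF_smooth α h.hχ)).mono Set.inter_subset_left
  have ce : ContinuousOn (fun q => e1 ast (YE α q)) S :=
    (wk_e1smooth α).continuousOn.mono Set.inter_subset_left
  have cχ : ContinuousOn (fun q : ℝ × ℝ => χ q.1) S :=
    (h.hχ.continuous.comp continuous_fst).continuousOn
  have cp : ContinuousOn (fun q : ℝ × ℝ => pot1 ast q.2) S :=
    (cst_smooth.continuous.comp continuous_snd).continuousOn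
  have iB : IntegrableOn (fun q => f q * lap (wkF α χ) q) S := by
    refine wk_int (C := M * CF) h.hα (cf.mul clF) fun q hq hx => ?_
    rw [abs_mul]
    exact mul_le_mul (h.hb q hq (by linarith)).1 (hF q hq).2.2.2 (abs_nonneg _) hM
  have iD : IntegrableOn (fun q => χ q.1 * e1 ast (YE α q) * (pot1 ast q.2 * f q)) S := by
    refine wk_int (C := C * K * (K * M)) h.hα ((cχ.mul ce).mul (cp.mul cf)) fun q hq hx => ?_
    rw [abs_mul, abs_mul, abs_mul]
    have h1 := (h.hb q hq (by linarith)).1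
    have h3 := (hK α q h.hα h.hα1 hq (wk_sq h.hα h.hR h.hαR hx)).1
    have h4 : |pot1 ast q.2| ≤ K := hKp _ (by linarith [(ell_sq_lt hq).2])
    exact mul_le_mul (mul_le_mul (hb q.1).1 h3 (abs_nonneg _) hC)
      (mul_le_mul h4 h1 (abs_nonneg _) hK0) (by positivity) (by positivity)
  have iE : IntegrableOn (fun q => wkF α χ q * lap f q) S := by
    refine wk_int (C := C * K * (N + K * M)) h.hα ((cχ.mul ce).mul clf) fun q hq hx => ?_
    rw [wkF, abs_mul, abs_mul]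
    have h3 := (hK α q h.hα h.hα1 hq (wk_sq h.hα h.hR h.hαR hx)).1
    exact mul_le_mul (mul_le_mul (hb q.1).1 h3 (abs_nonneg _) hC)
      (hlf q hq (by linarith)) (abs_nonneg _) (by positivity)
  have gr := h.green
  rw [h.restr (G := fun q => f q * lap (wkF α χ) q) (fun q hq hx => by
      obtain ⟨z1, z2, z3⟩ := h.out hx
      show f q * lap (wkF α χ) q = 0
      rw [(wkF_der α h.hχ hq).2.2, z1, z2, z3]
      ring),
    h.restr (G := fun q => wkF α χ q * lap f q) (fun q hq hx => by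
      show wkF α χ q * lap f q = 0
      rw [wkF, (h.out hx).1]
      ring)] at gr
  rw [eA, h.restr (G := fun q => χ q.1 * e1 ast (YE α q) * (lap f q + pot1 ast q.2 * f q))
    (fun q hq hx => by
      show χ q.1 * e1 ast (YE α q) * (lap f q + pot1 ast q.2 * f q) = 0
      rw [(h.out hx).1]
      ring)]
  have e1' : ∫ q in S, χ q.1 * e1 ast (YE α q) * (lap f q + pot1 ast q.2 * f q) =
      (∫ q in S, wkF α χ q * lap f q) +
        ∫ q in S, χ q.1 * e1 ast (YE α q) * (pot1 ast q.2 * f q) := by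
    rw [← integral_add iE iD]
    refine integral_congr_ae (ae_of_all _ fun q => ?_)
    show _ = wkF α χ q * lap f q + χ q.1 * e1 ast (YE α q) * (pot1 ast q.2 * f q)
    rw [wkF]
    ring
  rw [e1', ← gr]
  have e2' : (∫ q in S, f q * deriv (deriv χ) q.1 * e1 ast (YE α q)) -
      ((∫ q in S, f q * lap (wkF α χ) q) +
        ∫ q in S, χ q.1 * e1 ast (YE α q) * (pot1 ast q.2 * f q)) =
      ∫ q in S, (f q * deriv (deriv χ) q.1 * e1 ast (YE α q) - (f q * lap (wkF α χ) q +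
        χ q.1 * e1 ast (YE α q) * (pot1 ast q.2 * f q))) := by
    have iBD : IntegrableOn (fun q => f q * lap (wkF α χ) q +
        χ q.1 * e1 ast (YE α q) * (pot1 ast q.2 * f q)) S := iB.add iD
    rw [integral_sub iA iBD, integral_add iB iD]
  rw [e2']
  set g : ℝ → ℝ := fun x => α ^ 2 * |x| * |deriv χ x| + (α ^ 2 + α ^ 2 * x ^ 2) * |χ x| with hg
  have hgi : Integrable g := wk_gint h.hχ h.hχc (fun x => α ^ 2 * |x|)
    (fun x => α ^ 2 + α ^ 2 * x ^ 2) (by fun_prop) (by fun_prop)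
  have hg0 : ∀ x, 0 ≤ g x := fun x => by
    show 0 ≤ α ^ 2 * |x| * |deriv χ x| + (α ^ 2 + α ^ 2 * x ^ 2) * |χ x|
    positivity
  have hbd := wk_bd (S := S) (fun q hq => (ell_sq_lt hq.1).2.le) (G := fun q =>
    (f q * deriv (deriv χ) q.1 * e1 ast (YE α q) - (f q * lap (wkF α χ) q +
        χ q.1 * e1 ast (YE α q) * (pot1 ast q.2 * f q)))) hSm (g := fun x => 2 * K * M * g x)
    (hgi.const_mul _) (fun x => mul_nonneg (by positivity) (hg0 x)) (fun q hq => by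
      obtain ⟨k1, k2, k3, k4, k5, k6, k7⟩ := hK α q h.hα h.hα1 hq.1
        (wk_sq h.hα h.hR h.hαR hq.2)
      have hid : f q * deriv (deriv χ) q.1 * e1 ast (YE α q) - (f q * lap (wkF α χ) q +
          χ q.1 * e1 ast (YE α q) * (pot1 ast q.2 * f q)) =
          f q * (-(2 * (deriv χ q.1 * dx (fun z => e1 ast (YE α z)) q)) +
          -(χ q.1 * (lap (fun z => e1 ast (YE α z)) q + pot1 ast q.2 * e1 ast (YE α q)))) := by
        rw [(wkF_der α h.hχ hq.1).2.2]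
        ring
      have hfM := (h.hb q hq.1 (hsub hq).2).1
      show |f q * deriv (deriv χ) q.1 * e1 ast (YE α q) - (f q * lap (wkF α χ) q +
          χ q.1 * e1 ast (YE α q) * (pot1 ast q.2 * f q))| ≤ 2 * K * M *
          (α ^ 2 * |q.1| * |deriv χ q.1| + (α ^ 2 + α ^ 2 * q.1 ^ 2) * |χ q.1|)
      rw [hid, abs_mul]
      have m1 : |deriv χ q.1 * dx (fun z => e1 ast (YE α z)) q| ≤
          |deriv χ q.1| * (K * (α ^ 2 * |q.1|)) := by
        rw [abs_mul]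
        exact mul_le_mul_of_nonneg_left k3 (abs_nonneg _)
      have m2 : |χ q.1 * (lap (fun z => e1 ast (YE α z)) q +
          pot1 ast q.2 * e1 ast (YE α q))| ≤ |χ q.1| * (K * (α ^ 2 + α ^ 2 * q.1 ^ 2)) := by
        rw [abs_mul]
        exact mul_le_mul_of_nonneg_left k7 (abs_nonneg _)
      have m3 : |(-(2 * (deriv χ q.1 * dx (fun z => e1 ast (YE α z)) q)) +
          -(χ q.1 * (lap (fun z => e1 ast (YE α z)) q + pot1 ast q.2 * e1 ast (YE α q))))| ≤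
          2 * K * (α ^ 2 * |q.1| * |deriv χ q.1| + (α ^ 2 + α ^ 2 * q.1 ^ 2) * |χ q.1|) := by
        refine (abs_add_le _ _).trans ?_
        rw [abs_neg, abs_neg, abs_mul 2, abs_two]
        have : 0 ≤ |χ q.1| * (K * (α ^ 2 + α ^ 2 * q.1 ^ 2)) := by positivity
        linarith
      have m4 := mul_le_mul hfM m3 (abs_nonneg _) hM
      linarith)
  refine hbd.trans (le_of_eq ?_)
  rw [integral_const_mul]
  ring

theorem weak_red : ∃ K : ℝ, 0 < K ∧ ∀ (α R M N : ℝ) (f : ℝ × ℝ → ℝ) (χ : ℝ → ℝ),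
    0 < α → α ≤ 1 → 0 < R → α * (R + 4) ≤ 1 / 4 → 0 ≤ M → (∀ q, q ∉ Ell α → f q = 0) →
    ContinuousOn f {q | |q.1| ≤ R + 4} → ContDiffOn ℝ 2 f (Ell α ∩ {q | |q.1| < R + 4}) →
    (∀ q ∈ Ell α, |q.1| < R + 4 → |f q| ≤ M ∧ |lap f q + pot1 ast q.2 * f q| ≤ N) →
    ContDiff ℝ ∞ χ → HasCompactSupport χ → tsupport χ ⊆ Set.Ioo (-R) R →
    |(∫ x, bF α f x * deriv (deriv χ) x)
        - ∫ q in Ell α, χ q.1 * e1 ast (YE α q) * (lap f q + pot1 ast q.2 * f q)|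
      ≤ K * M * ∫ x, (α ^ 2 * |x| * |deriv χ x| + (α ^ 2 + α ^ 2 * x ^ 2) * |χ x|) := by
  obtain ⟨K, hK1, hKp, hK⟩ := wk_e1
  refine ⟨4 * K, by linarith, fun α R M N f χ a1 a2 a3 a4 a5 a6 a7 a8 a9 a10 a11 a12 => ?_⟩
  exact wk_main hK1 hKp hK ⟨a1, a2, a3, a4, a5, a6, a7, a8, a9, a10, a11, a12⟩

open MeasureTheory in
/-- the right side of the reduced equation is small -/
theorem weak_red_bd : ∃ K : ℝ, 0 < K ∧ ∀ (α R M N : ℝ) (f : ℝ × ℝ → ℝ) (χ : ℝ → ℝ),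
    0 < α → α ≤ 1 → 0 < R → α * (R + 4) ≤ 1 / 4 → 0 ≤ M → (∀ q, q ∉ Ell α → f q = 0) →
    ContinuousOn f {q | |q.1| ≤ R + 4} → ContDiffOn ℝ 2 f (Ell α ∩ {q | |q.1| < R + 4}) →
    (∀ q ∈ Ell α, |q.1| < R + 4 → |f q| ≤ M ∧ |lap f q + pot1 ast q.2 * f q| ≤ N) →
    ContDiff ℝ ∞ χ → HasCompactSupport χ → tsupport χ ⊆ Set.Ioo (-R) R →
    |∫ x, bF α f x * deriv (deriv χ) x|
      ≤ K * (N + M * (α ^ 2 + α ^ 2 * R ^ 2)) * (∫ x, |χ x|)
        + K * M * (α ^ 2 * R) * ∫ x, |deriv χ x| := by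
  obtain ⟨K, hK1, hKp, hK⟩ := wk_e1
  refine ⟨4 * K, by linarith, fun α R M N f χ a1 a2 a3 a4 a5 a6 a7 a8 a9 a10 a11 a12 => ?_⟩
  have h : WkD α R M N f χ := ⟨a1, a2, a3, a4, a5, a6, a7, a8, a9, a10, a11, a12⟩
  have hm := wk_main hK1 hKp hK h
  have hK0 : 0 ≤ K := by linarith
  have hN : 0 ≤ N := by
    have h1 : ((0 : ℝ), (0 : ℝ)) ∈ Ell α := by
      show α ^ 2 * (0 : ℝ) ^ 2 + (0 : ℝ) ^ 2 < 1
      norm_num
    exact (abs_nonneg _).trans (h.hb (0, 0) h1 (by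
      show |(0 : ℝ)| < R + 4
      rw [abs_zero]
      linarith [h.hR])).2
  have hχ1 : ContDiff ℝ ∞ (deriv χ) := (contDiff_infty_iff_deriv.1 a10).2
  have i1 : Integrable fun x => |χ x| :=
    a10.continuous.abs.integrable_of_hasCompactSupport
      (a11.comp_left (g := fun y : ℝ => |y|) abs_zero)
  have i2 : Integrable fun x => |deriv χ x| :=
    hχ1.continuous.abs.integrable_of_hasCompactSupport
      (a11.deriv.comp_left (g := fun y : ℝ => |y|) abs_zero)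
  have n1 : 0 ≤ ∫ x, |χ x| := integral_nonneg fun _ => abs_nonneg _
  have n2 : 0 ≤ ∫ x, |deriv χ x| := integral_nonneg fun _ => abs_nonneg _
  have h2 : |∫ q in Ell α, χ q.1 * e1 ast (YE α q) * (lap f q + pot1 ast q.2 * f q)| ≤
      2 * (K * N * ∫ x, |χ x|) := by
    rw [h.restr (G := fun q => χ q.1 * e1 ast (YE α q) * (lap f q + pot1 ast q.2 * f q))
      (fun q hq hx => by
        show χ q.1 * e1 ast (YE α q) * (lap f q + pot1 ast q.2 * f q) = 0
        rw [(h.out hx).1]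
        ring), ← integral_const_mul]
    refine wk_bd (fun q hq => (ell_sq_lt hq.1).2.le) (wk_measS α R) (i1.const_mul _)
      (fun x => by positivity) (fun q hq => ?_)
    rw [abs_mul, abs_mul]
    have h3 := (hK α q h.hα h.hα1 hq.1 (wk_sq h.hα h.hR h.hαR hq.2)).1
    have hx : |q.1| ≤ R := hq.2
    have h4 := (h.hb q hq.1 (by linarith)).2
    calc |χ q.1| * |e1 ast (YE α q)| * |lap f q + pot1 ast q.2 * f q|
        ≤ |χ q.1| * K * N := mul_le_mul (mul_le_mul_of_nonneg_left h3 (abs_nonneg _)) h4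
          (abs_nonneg _) (by positivity)
      _ = K * N * |χ q.1| := by ring
  have h3 : ∫ x, (α ^ 2 * |x| * |deriv χ x| + (α ^ 2 + α ^ 2 * x ^ 2) * |χ x|) ≤
      α ^ 2 * R * (∫ x, |deriv χ x|) + (α ^ 2 + α ^ 2 * R ^ 2) * ∫ x, |χ x| := by
    rw [← integral_const_mul, ← integral_const_mul,
      ← integral_add (i2.const_mul _) (i1.const_mul _)]
    refine integral_mono (wk_gint a10 a11 (fun x => α ^ 2 * |x|)
      (fun x => α ^ 2 + α ^ 2 * x ^ 2) (by fun_prop) (by fun_prop))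
      ((i2.const_mul _).add (i1.const_mul _)) fun x => ?_
    show α ^ 2 * |x| * |deriv χ x| + (α ^ 2 + α ^ 2 * x ^ 2) * |χ x| ≤
      α ^ 2 * R * |deriv χ x| + (α ^ 2 + α ^ 2 * R ^ 2) * |χ x|
    by_cases hx : x ∈ tsupport χ
    · have hxR := (h.abs_lt hx).le
      have hx2 : x ^ 2 ≤ R ^ 2 := by
        rw [← sq_abs]
        exact pow_le_pow_left₀ (abs_nonneg _) hxR 2
      refine add_le_add ?_ ?_
      · exact mul_le_mul_of_nonneg_right (mul_le_mul_of_nonneg_left hxR (sq_nonneg _))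
          (abs_nonneg _)
      · refine mul_le_mul_of_nonneg_right ?_ (abs_nonneg _)
        have := mul_le_mul_of_nonneg_left hx2 (sq_nonneg α)
        linarith
    · obtain ⟨z1, z2, z3⟩ := h.out hx
      rw [z1, z2]
      simp
  have h4 := abs_add_le ((∫ x, bF α f x * deriv (deriv χ) x) -
    ∫ q in Ell α, χ q.1 * e1 ast (YE α q) * (lap f q + pot1 ast q.2 * f q))
    (∫ q in Ell α, χ q.1 * e1 ast (YE α q) * (lap f q + pot1 ast q.2 * f q))
  rw [sub_add_cancel] at h4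
  have h5 := mul_le_mul_of_nonneg_left h3 (show 0 ≤ 4 * K * M by positivity)
  have h6 : 0 ≤ K * N * ∫ x, |χ x| := by positivity
  nlinarith

end Pool.Agent.MFE
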