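import Pool.Agent.MFE.FLDBnd
import Pool.Agent.MFE.FLDDbr
import Pool.Agent.MFE.FLDWk

/-!
# MFE.FLDOde: the reduced equation (regime C)

`f n → W(ξ) e(y)` on windows and `(lap f + q(y) f)/κ → G(ξ, y)` uniformly on `Ell ∩ windows`, `G`
continuous. Then `cE W''(ξ) = ∫_{-1}^1 e(y) G(ξ,y) dy`.
`scal_int`: if `F n q → H(√κ x, y)` uniformly on `Ell ∩ window` (`√κ|x| ≤ Ξ`), `H` continuous, then
`√κ ∫_{Ell ∩ window} F n → ∫_{-Ξ}^{Ξ} ∫_{-1}^1 H(ξ,y) dy dξ`. Proof: the area of `Ell ∩ window` is `≤ 4Ξ/√κ`,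
the integrand differs there from `H(√κx, y)` by `≤ ε`; the part of the box `{√κ|x| ≤ Ξ, |y| < 1}` outside
`Ell` has area `≤ (2Ξ/√κ)·2·sup(1-h) ≤ C κ² /√κ` (`Par.win`) and `H` is bounded on the compact box
`[-Ξ,Ξ]×[-1,1]`; finally `∫∫_{box} H(√κx,y) dx dy = (1/√κ)∫∫ H` (Fubini,
`intervalIntegral.integral_comp_mul_left`).
Weak equation: fix `χ ∈ C_c^∞(ℝ)`, support in `(-Ξ, Ξ)`; apply `weak_red` with `χ n (x) = χ(√κ x)`,
`R = Ξ/√κ` (`√κ (R+4) ≤ Ξ + 1` eventually, `Slow` for the window `Ξ + 1`), `deriv² χ n = κ χ''(√κ x)`,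
`∫|χ n| = (1/√κ)∫|χ|`, `∫|x||χ n'| = (1/√κ) ∫|ξ||χ'|`: multiply by `√κ/κ`:
`√κ ∫_{Ell} f χ''(√κx) e(Y) = √κ ∫_{Ell} χ(√κx) e(Y) (lap f + q f)/κ + O(κ)`; in the limit (`scal_int`,
`e(Y) → e(y)` uniformly on windows: `YE_near`, `cst_bd`)
`cE ∫ W χ'' = ∫ χ(ξ) (∫_{-1}^1 e(y) G(ξ,y) dy) dξ`. `dubois` with `W` and `ξ ↦ (1/cE) ∫ e G(ξ,·)`
(continuous).
-/

open Filter Topology
open scoped ContDiff

namespace Pool.Agent.MFE

open MeasureTheory in
private theorem ode_int {g : ℝ × ℝ → ℝ} (hg : Measurable g) {C a : ℝ} (hC : ∀ q, |g q| ≤ C)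
    (h0 : ∀ q : ℝ × ℝ, g q ≠ 0 → |q.1| ≤ a ∧ |q.2| ≤ 1) : Integrable g := by
  have hsub : Function.support g ⊆ Set.Icc (-a) a ×ˢ Set.Icc (-1 : ℝ) 1 := by
    intro q hq
    obtain ⟨h1, h2⟩ := h0 q hq
    exact ⟨abs_le.1 h1, abs_le.1 h2⟩
  rw [← integrableOn_iff_integrable_of_support_subset hsub]
  refine Measure.integrableOn_of_bounded (M := C) ?_ hg.aestronglyMeasurable ?_
  · exact ((isCompact_Icc.prod isCompact_Icc).measure_lt_top).ne
  · exact ae_of_all _ fun q => by rw [Real.norm_eq_abs]; exact hC q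

open MeasureTheory in
private theorem ode_scale {g : ℝ × ℝ → ℝ} (hg : Measurable g) {C a s : ℝ} (hs : 0 < s)
    (hC : ∀ q, |g q| ≤ C) (h0 : ∀ q : ℝ × ℝ, g q ≠ 0 → |q.1| ≤ a ∧ |q.2| ≤ 1) :
    ∫ q : ℝ × ℝ, g (q.1 / s, q.2) = s * ∫ q, g q := by
  have i1 : Integrable g := ode_int hg hC h0
  have i2 : Integrable (fun q : ℝ × ℝ => g (q.1 / s, q.2)) := by
    refine ode_int (a := s * a) (C := C) (hg.comp (by fun_prop)) (fun q => hC _) (fun q hq => ?_)
    obtain ⟨h1, h2⟩ := h0 _ hq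
    refine ⟨?_, h2⟩
    have h3 : |q.1 / s| ≤ a := h1
    rw [abs_div, abs_of_pos hs, div_le_iff₀ hs] at h3
    linarith
  rw [Measure.volume_eq_prod] at i1 i2 ⊢
  rw [integral_prod_symm _ i1, integral_prod_symm _ i2, ← integral_const_mul]
  refine integral_congr_ae (ae_of_all _ fun y => ?_)
  have h3 := Measure.integral_comp_div (fun x => g (x, y)) s
  rw [abs_of_pos hs, smul_eq_mul] at h3
  exact h3

private theorem ode_meas (α κ Ξ : ℝ) :
    MeasurableSet (Ell α ∩ {q : ℝ × ℝ | √κ * |q.1| ≤ Ξ}) := by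
  refine MeasurableSet.inter ?_ ?_
  · exact (isOpen_lt (by fun_prop) continuous_const).measurableSet
  · exact (isClosed_le (by fun_prop) continuous_const).measurableSet

private theorem ode_memE {α : ℝ} {q : ℝ × ℝ} :
    q ∈ Ell α ↔ α ^ 2 * q.1 ^ 2 + q.2 ^ 2 < 1 := Iff.rfl

open MeasureTheory in
theorem scal_int {α κ : ℕ → ℝ} (hp : Par α κ) {F : ℕ → ℝ × ℝ → ℝ} {H : ℝ → ℝ → ℝ} {Ξ : ℝ}
    (hΞ : 0 < Ξ) (hH : Continuous (Function.uncurry H))
    (hc : ∀ᶠ n in atTop, ContinuousOn (F n) (Ell (α n) ∩ {q | √(κ n) * |q.1| ≤ Ξ}))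
    (hF : ∀ ε : ℝ, 0 < ε → ∀ᶠ n in atTop, ∀ q ∈ Ell (α n), √(κ n) * |q.1| ≤ Ξ →
      |F n q - H (√(κ n) * q.1) q.2| ≤ ε) :
    Tendsto (fun n => √(κ n) * ∫ q in Ell (α n) ∩ {q | √(κ n) * |q.1| ≤ Ξ}, F n q) atTop
      (𝓝 (∫ ξ in (-Ξ)..Ξ, ∫ y in (-1 : ℝ)..1, H ξ y)) := by
  obtain ⟨M, hM⟩ : ∃ M, ∀ ξ y : ℝ, |ξ| ≤ Ξ → |y| ≤ 1 → |H ξ y| ≤ M := by
    obtain ⟨M, hM⟩ := (isCompact_Icc.prod isCompact_Icc).exists_bound_of_continuousOn
      (s := Set.Icc (-Ξ) Ξ ×ˢ Set.Icc (-1 : ℝ) 1) (f := Function.uncurry H) hH.continuousOn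
    exact ⟨M, fun ξ y h1 h2 => hM (ξ, y) ⟨abs_le.1 h1, abs_le.1 h2⟩⟩
  have hM0 : 0 ≤ M := le_trans (abs_nonneg _) (hM 0 0 (by simpa using hΞ.le) (by simp))
  set S : ℕ → Set (ℝ × ℝ) := fun n => Ell (α n) ∩ {q | √(κ n) * |q.1| ≤ Ξ} with hS
  have hSm : ∀ n, MeasurableSet (S n) := fun n => ode_meas _ _ _
  set g : ℕ → ℝ × ℝ → ℝ := fun n => (S n).indicator (F n) with hg
  have hκs : ∀ n, 0 < √(κ n) := fun n => Real.sqrt_pos.2 (hp.κ_pos n)
  have hgm : ∀ᶠ n in atTop, Measurable (g n) := by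
    filter_upwards [hc] with n hn
    classical
    have h1 := hn.measurable_piecewise (g := fun _ => (0 : ℝ)) continuousOn_const (hSm n)
    have h2 : g n = (S n).piecewise (F n) (fun _ => (0 : ℝ)) :=
      (Set.piecewise_eq_indicator (s := S n) (f := F n)).symm
    rw [h2]
    exact h1
  have hgb : ∀ᶠ n in atTop, ∀ q, |g n q| ≤ M + 1 := by
    filter_upwards [hF 1 one_pos] with n hn q
    by_cases hq : q ∈ S n
    · have h1 := hn q hq.1 hq.2
      have h2 : |H (√(κ n) * q.1) q.2| ≤ M :=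
        hM _ _ (by rw [abs_mul, abs_of_nonneg (Real.sqrt_nonneg _)]; exact hq.2)
          (ell_sq_lt hq.1).2.le
      have h3 : g n q = F n q := Set.indicator_of_mem hq _
      rw [h3]
      have := abs_sub_abs_le_abs_sub (F n q) (H (√(κ n) * q.1) q.2)
      linarith
    · have h3 : g n q = 0 := Set.indicator_of_notMem hq _
      rw [h3, abs_zero]
      linarith
  have hg0 : ∀ n q, g n q ≠ 0 → |q.1| ≤ Ξ / √(κ n) ∧ |q.2| ≤ 1 := by
    intro n q hq
    have h1 : q ∈ S n := by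
      by_contra h
      exact hq (Set.indicator_of_notMem h _)
    refine ⟨?_, (ell_sq_lt h1.1).2.le⟩
    rw [le_div_iff₀ (hκs n), mul_comm]
    exact h1.2
  have e1 : ∀ᶠ n in atTop, ∫ p : ℝ × ℝ, g n (p.1 / √(κ n), p.2) =
      √(κ n) * ∫ q in S n, F n q := by
    filter_upwards [hgm, hgb] with n h1 h2
    rw [ode_scale h1 (hκs n) h2 (hg0 n), integral_indicator (hSm n)]
  set Bx : Set (ℝ × ℝ) := Set.Icc (-Ξ) Ξ ×ˢ Set.Ioo (-1 : ℝ) 1 with hBx
  set L : ℝ × ℝ → ℝ := Bx.indicator (fun p => H p.1 p.2) with hL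
  have hBm : MeasurableSet Bx := measurableSet_Icc.prod measurableSet_Ioo
  have hBsub : Bx ⊆ Set.Icc (-Ξ) Ξ ×ˢ Set.Icc (-1 : ℝ) 1 :=
    Set.prod_mono subset_rfl Set.Ioo_subset_Icc_self
  have e2 : ∫ p, L p = ∫ ξ in (-Ξ)..Ξ, ∫ y in (-1 : ℝ)..1, H ξ y := by
    have i1 : IntegrableOn (fun p : ℝ × ℝ => H p.1 p.2) Bx :=
      (hH.continuousOn.integrableOn_compact (isCompact_Icc.prod isCompact_Icc)).mono_set hBsub
    rw [hL, integral_indicator hBm]
    rw [Measure.volume_eq_prod] at i1 ⊢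
    rw [setIntegral_prod _ i1, intervalIntegral.integral_of_le (by linarith),
      integral_Icc_eq_integral_Ioc]
    refine integral_congr_ae (ae_of_all _ fun ξ => ?_)
    show ∫ y in Set.Ioo (-1 : ℝ) 1, H ξ y = ∫ y in (-1 : ℝ)..1, H ξ y
    rw [intervalIntegral.integral_of_le (by norm_num), integral_Ioc_eq_integral_Ioo]
  rw [← e2]
  refine Tendsto.congr' e1 ?_
  refine tendsto_integral_filter_of_dominated_convergence
    (bound := (Set.Icc (-Ξ) Ξ ×ˢ Set.Icc (-1 : ℝ) 1).indicator (fun _ => M + 1)) ?_ ?_ ?_ ?_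
  · filter_upwards [hgm] with n h
    exact (h.comp (by fun_prop)).aestronglyMeasurable
  · filter_upwards [hgb] with n h
    refine ae_of_all _ fun p => ?_
    by_cases h0 : g n (p.1 / √(κ n), p.2) = 0
    · rw [h0, norm_zero]
      exact Set.indicator_nonneg (fun _ _ => by linarith) p
    · obtain ⟨h1, h2⟩ := hg0 n _ h0
      have h3 : |p.1 / √(κ n)| ≤ Ξ / √(κ n) := h1
      have h4 : |p.1| ≤ Ξ := by
        rwa [abs_div, abs_of_pos (hκs n), div_le_div_iff_of_pos_right (hκs n)] at h3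
      have h5 : p ∈ Set.Icc (-Ξ) Ξ ×ˢ Set.Icc (-1 : ℝ) 1 := ⟨abs_le.1 h4, abs_le.1 h2⟩
      rw [Set.indicator_of_mem h5, Real.norm_eq_abs]
      exact h _
  · rw [integrable_indicator_iff (measurableSet_Icc.prod measurableSet_Icc)]
    exact continuousOn_const.integrableOn_compact (isCompact_Icc.prod isCompact_Icc)
  · refine ae_of_all _ fun p => ?_
    by_cases hp1 : p ∈ Bx
    · have hLp : L p = H p.1 p.2 := Set.indicator_of_mem hp1 _
      rw [hLp, Metric.tendsto_nhds]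
      intro ε hε
      obtain ⟨hα0, hwin, hev⟩ := hp.win Ξ
      have hp2 : |p.1| ≤ Ξ := abs_le.2 hp1.1
      have hp3 : |p.2| < 1 := abs_lt.2 hp1.2
      have hp4 : 0 < 1 - p.2 ^ 2 := by
        have := (sq_lt_one_iff_abs_lt_one p.2).2 hp3
        linarith
      have hk2 : Tendsto (fun n => Ξ ^ 2 * κ n ^ 2) atTop (𝓝 0) := by
        simpa using (hp.κ_lim.pow 2).const_mul (Ξ ^ 2)
      filter_upwards [hF (ε / 2) (by positivity), hk2.eventually (gt_mem_nhds hp4)] with n h1 h2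
      have h3 : √(κ n) * |p.1 / √(κ n)| ≤ Ξ := by
        rw [abs_div, abs_of_pos (hκs n), mul_div_cancel₀ _ (hκs n).ne']
        exact hp2
      have h4 := hwin n _ h3
      have h5 : (p.1 / √(κ n), p.2) ∈ Ell (α n) := by
        rw [ode_memE]
        show α n ^ 2 * (p.1 / √(κ n)) ^ 2 + p.2 ^ 2 < 1
        linarith
      have h6 : (p.1 / √(κ n), p.2) ∈ S n := ⟨h5, h3⟩
      have h7 := h1 _ h5 h3
      have h8 : √(κ n) * (p.1 / √(κ n)) = p.1 := mul_div_cancel₀ _ (hκs n).ne'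
      have h9 : g n (p.1 / √(κ n), p.2) = F n (p.1 / √(κ n), p.2) := Set.indicator_of_mem h6 _
      rw [h9, Real.dist_eq]
      have h10 : |F n (p.1 / √(κ n), p.2) - H (√(κ n) * (p.1 / √(κ n))) p.2| ≤ ε / 2 := h7
      rw [h8] at h10
      linarith
    · have hLp : L p = 0 := Set.indicator_of_notMem hp1 _
      rw [hLp]
      refine tendsto_const_nhds.congr fun n => ?_
      symm
      by_contra h0
      have hmem : (p.1 / √(κ n), p.2) ∈ S n := by
        by_contra h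
        exact h0 (Set.indicator_of_notMem h _)
      refine hp1 ⟨?_, ?_⟩
      · have h3 : √(κ n) * |p.1 / √(κ n)| ≤ Ξ := hmem.2
        rw [abs_div, abs_of_pos (hκs n), mul_div_cancel₀ _ (hκs n).ne'] at h3
        exact abs_le.1 h3
      · have h3 : |p.2| < 1 := (ell_sq_lt hmem.1).2
        exact abs_lt.1 h3

open MeasureTheory in
private theorem ode_int2 {α κ Ξ C : ℝ} (hκ : 0 < κ) {F : ℝ × ℝ → ℝ}
    (hc : ContinuousOn F (Ell α ∩ {q | √κ * |q.1| ≤ Ξ}))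
    (h0 : ∀ q, q ∉ Ell α ∩ {q : ℝ × ℝ | √κ * |q.1| ≤ Ξ} → F q = 0)
    (hC : ∀ q ∈ Ell α ∩ {q : ℝ × ℝ | √κ * |q.1| ≤ Ξ}, |F q| ≤ C) : Integrable F := by
  set S := Ell α ∩ {q : ℝ × ℝ | √κ * |q.1| ≤ Ξ} with hS
  have hSm : MeasurableSet S := ode_meas _ _ _
  classical
  have h1 := hc.measurable_piecewise (g := fun _ => (0 : ℝ)) continuousOn_const hSm
  have h2 : F = S.piecewise F (fun _ => (0 : ℝ)) := by
    funext q
    by_cases hq : q ∈ S
    · rw [Set.piecewise_eq_of_mem _ _ _ hq]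
    · rw [Set.piecewise_eq_of_notMem _ _ _ hq]
      exact h0 q hq
  have hm : Measurable F := by
    rw [h2]
    exact h1
  refine ode_int hm (C := max C 0) (a := Ξ / √κ) (fun q => ?_) (fun q hq => ?_)
  · by_cases hq : q ∈ S
    · exact (hC q hq).trans (le_max_left _ _)
    · rw [h0 q hq, abs_zero]
      exact le_max_right _ _
  · have hq' : q ∈ S := by
      by_contra h
      exact hq (h0 q h)
    refine ⟨?_, (ell_sq_lt hq'.1).2.le⟩
    rw [le_div_iff₀ (Real.sqrt_pos.2 hκ), mul_comm]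
    exact hq'.2

private theorem ode_chi {χ : ℝ → ℝ} (hχ : ContDiff ℝ ∞ χ) (s x : ℝ) :
    deriv (fun x => χ (s * x)) x = s * deriv χ (s * x) := by
  have h1 : HasDerivAt χ (deriv χ (s * x)) (s * x) := ((hχ.differentiable (by simp)) _).hasDerivAt
  have h2 := h1.comp x ((hasDerivAt_id x).const_mul s)
  have h3 : HasDerivAt (fun x => χ (s * x)) _ x := h2
  rw [h3.deriv]
  ring

private theorem ode_chi2 {χ : ℝ → ℝ} (hχ : ContDiff ℝ ∞ χ) (s x : ℝ) :
    deriv (deriv (fun x => χ (s * x))) x = s ^ 2 * deriv (deriv χ) (s * x) := by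
  have h1 : deriv (fun x => χ (s * x)) = fun x => s * deriv χ (s * x) :=
    funext fun x => ode_chi hχ s x
  have hχ1 : ContDiff ℝ ∞ (deriv χ) := (contDiff_infty_iff_deriv.1 hχ).2
  have h2 : HasDerivAt (deriv χ) (deriv (deriv χ) (s * x)) (s * x) :=
    ((hχ1.differentiable (by simp)) _).hasDerivAt
  have h3 := (h2.comp x ((hasDerivAt_id x).const_mul s)).const_mul s
  have h4 : HasDerivAt (fun x => s * deriv χ (s * x)) _ x := h3
  rw [h1, h4.deriv]
  ring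

open MeasureTheory in
private theorem ode_rhs {χ : ℝ → ℝ} (hχ : ContDiff ℝ ∞ χ) (hχc : HasCompactSupport χ)
    {s α : ℝ} (hs : 0 < s) :
    ∫ x, (α ^ 2 * |x| * |deriv (fun x => χ (s * x)) x| +
      (α ^ 2 + α ^ 2 * x ^ 2) * |χ (s * x)|) =
    s⁻¹ * (α ^ 2 * (∫ ξ, |ξ| * |deriv χ ξ|) + (α ^ 2 * (∫ ξ, |χ ξ|) +
      α ^ 2 / s ^ 2 * ∫ ξ, ξ ^ 2 * |χ ξ|)) := by
  have hχ1 : ContDiff ℝ ∞ (deriv χ) := (contDiff_infty_iff_deriv.1 hχ).2
  have c1 : Continuous fun ξ : ℝ => |ξ| * |deriv χ ξ| := continuous_abs.mul hχ1.continuous.abs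
  have c2 : Continuous fun ξ : ℝ => |χ ξ| := hχ.continuous.abs
  have c3 : Continuous fun ξ : ℝ => ξ ^ 2 * |χ ξ| := (continuous_pow 2).mul c2
  have k2 : HasCompactSupport fun ξ : ℝ => |χ ξ| := hχc.comp_left (g := fun y : ℝ => |y|) abs_zero
  have k1 : HasCompactSupport fun ξ : ℝ => |ξ| * |deriv χ ξ| :=
    (hχc.deriv.comp_left (g := fun y : ℝ => |y|) abs_zero).mul_left
  have k3 : HasCompactSupport fun ξ : ℝ => ξ ^ 2 * |χ ξ| := k2.mul_left
  have i1 := c1.integrable_of_hasCompactSupport k1 (μ := volume)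
  have i2 := c2.integrable_of_hasCompactSupport k2 (μ := volume)
  have i3 := c3.integrable_of_hasCompactSupport k3 (μ := volume)
  have e1 : ∀ x : ℝ, (α ^ 2 * |x| * |deriv (fun x => χ (s * x)) x| +
      (α ^ 2 + α ^ 2 * x ^ 2) * |χ (s * x)|) =
      (fun ξ : ℝ => α ^ 2 * (|ξ| * |deriv χ ξ|) + (α ^ 2 * |χ ξ| +
        α ^ 2 / s ^ 2 * (ξ ^ 2 * |χ ξ|))) (s * x) := by
    intro x
    rw [ode_chi hχ]
    simp only [abs_mul, abs_of_pos hs]
    field_simp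
  rw [integral_congr_ae (ae_of_all _ e1), Measure.integral_comp_mul_left
    (fun ξ : ℝ => α ^ 2 * (|ξ| * |deriv χ ξ|) + (α ^ 2 * |χ ξ| +
        α ^ 2 / s ^ 2 * (ξ ^ 2 * |χ ξ|))) s, abs_of_pos (inv_pos.2 hs), smul_eq_mul]
  congr 1
  have j : Integrable (fun ξ : ℝ => α ^ 2 * |χ ξ| + α ^ 2 / s ^ 2 * (ξ ^ 2 * |χ ξ|)) :=
    (i2.const_mul _).add (i3.const_mul _)
  rw [integral_add (i1.const_mul _) j, integral_add (i2.const_mul _) (i3.const_mul _), integral_const_mul, integral_const_mul,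
    integral_const_mul]

private theorem ode_e1K : ∃ K : ℝ, 0 < K ∧ ∀ (α : ℝ) (q : ℝ × ℝ), q ∈ Ell α →
    |e1 ast (YE α q)| ≤ K := by
  obtain ⟨K, hK, hb⟩ := cst_bd
  refine ⟨K, hK, fun α q hq => (hb _ ?_).1⟩
  have := (ell_iff_Y (ell_sq_lt hq).1).1 hq
  linarith

private theorem ode_e1c (α : ℝ) : ContinuousOn (fun q => e1 ast (YE α q)) (Ell α) :=
  (comp_YE_smooth α (e1_smooth ast)).continuousOn.mono fun q hq => (ell_sq_lt hq).1

private theorem ode_params {α κ : ℕ → ℝ} (hp : Par α κ) {Ξ : ℝ} (hΞ : 0 < Ξ) :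
    ∀ᶠ n in atTop, √(κ n) * 4 ≤ 1 ∧ α n * (Ξ / √(κ n) + 4) ≤ 1 / 4 := by
  have h1 : Tendsto (fun n => √(κ n)) atTop (𝓝 0) := by
    have := (Real.continuous_sqrt.tendsto 0).comp hp.κ_lim
    rw [Real.sqrt_zero] at this
    exact this
  have h2 : Tendsto (fun n => κ n * Ξ + 4 * α n) atTop (𝓝 0) := by
    have := (hp.κ_lim.mul_const Ξ).add ((hp.win 0).1.const_mul 4)
    simpa using this
  filter_upwards [h1.eventually (gt_mem_nhds (show (0 : ℝ) < 1 / 4 by norm_num)),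
    h2.eventually (gt_mem_nhds (show (0 : ℝ) < 1 / 4 by norm_num))] with n h3 h4
  refine ⟨by linarith, ?_⟩
  have hκ := hp.κ_pos n
  have hs : 0 < √(κ n) := Real.sqrt_pos.2 hκ
  have hss : √(κ n) ^ 2 = κ n := Real.sq_sqrt hκ.le
  have h5 : α n ≤ κ n * √(κ n) := by
    refine abs_le_of_sq_le_sq' ?_ (by positivity) |>.2
    rw [mul_pow, hss]
    have := hp.hα n
    nlinarith
  have h6 : α n / √(κ n) ≤ κ n := by
    rw [div_le_iff₀ hs]
    exact h5
  have h7 : α n * (Ξ / √(κ n) + 4) = α n / √(κ n) * Ξ + 4 * α n := by ring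
  rw [h7]
  have := mul_le_mul_of_nonneg_right h6 hΞ.le
  linarith

open MeasureTheory in
private theorem ode_weak {α κ : ℕ → ℝ} {f : ℕ → ℝ × ℝ → ℝ} (hp : Par α κ) (hs : Slow α κ f)
    {χ : ℝ → ℝ} (hχ : ContDiff ℝ ∞ χ) (hχc : HasCompactSupport χ) {Ξ : ℝ} (hΞ : 0 < Ξ)
    (hsupp : tsupport χ ⊆ Set.Ioo (-Ξ) Ξ) :
    Tendsto (fun n => √(κ n) * (∫ q in Ell (α n) ∩ {q | √(κ n) * |q.1| ≤ Ξ},
        f n q * deriv (deriv χ) (√(κ n) * q.1) * e1 ast (YE (α n) q)) -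
      √(κ n) * ∫ q in Ell (α n) ∩ {q | √(κ n) * |q.1| ≤ Ξ},
        χ (√(κ n) * q.1) * e1 ast (YE (α n) q) *
          ((lap (f n) q + pot1 ast q.2 * f n q) / κ n)) atTop (𝓝 0) := by
  obtain ⟨K, hK, hwk⟩ := weak_red
  obtain ⟨M, hM⟩ := hs.bound (Ξ + 1)
  obtain ⟨Ke, hKe, he1⟩ := ode_e1K
  set C₁ : ℝ := ∫ ξ, |ξ| * |deriv χ ξ| with hC₁
  set C₂ : ℝ := ∫ ξ, |χ ξ| with hC₂
  set C₃ : ℝ := ∫ ξ, ξ ^ 2 * |χ ξ| with hC₃
  have n1 : 0 ≤ C₁ := integral_nonneg fun ξ => by positivity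
  have n2 : 0 ≤ C₂ := integral_nonneg fun ξ => by positivity
  have n3 : 0 ≤ C₃ := integral_nonneg fun ξ => by positivity
  have hlim : Tendsto (fun n => K * max M 0 * (κ n ^ 2 * (C₁ + C₂) + κ n * C₃)) atTop (𝓝 0) := by
    have h1 := ((hp.κ_lim.pow 2).mul_const (C₁ + C₂)).add (hp.κ_lim.mul_const C₃)
    have h2 := h1.const_mul (K * max M 0)
    simpa using h2
  have hχ1 : ContDiff ℝ ∞ (deriv χ) := (contDiff_infty_iff_deriv.1 hχ).2
  have hχ2 : ContDiff ℝ ∞ (deriv (deriv χ)) := (contDiff_infty_iff_deriv.1 hχ1).2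
  obtain ⟨C2, hC2⟩ : ∃ C2, ∀ x, |deriv (deriv χ) x| ≤ C2 := by
    obtain ⟨C, hC⟩ := hχ2.continuous.bounded_above_of_compact_support hχc.deriv.deriv
    exact ⟨C, fun x => hC x⟩
  refine squeeze_zero_norm' ?_ hlim
  filter_upwards [ode_params hp hΞ, hs.cont (Ξ + 1), hs.smooth (Ξ + 1), hM] with n hn hcn hsn hMn
  obtain ⟨hn1, hn2⟩ := hn
  have hκ := hp.κ_pos n
  have hα := hp.α_pos n
  have hsq : 0 < √(κ n) := Real.sqrt_pos.2 hκ
  have hss : √(κ n) ^ 2 = κ n := Real.sq_sqrt hκ.le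
  have hR : ∀ x : ℝ, |x| < Ξ / √(κ n) + 4 → √(κ n) * |x| < Ξ + 1 := by
    intro x hx
    have h1 := mul_lt_mul_of_pos_left hx hsq
    rw [mul_add, mul_div_cancel₀ _ hsq.ne'] at h1
    linarith
  have hR' : ∀ x : ℝ, |x| ≤ Ξ / √(κ n) + 4 → √(κ n) * |x| ≤ Ξ + 1 := by
    intro x hx
    have h1 := mul_le_mul_of_nonneg_left hx hsq.le
    rw [mul_add, mul_div_cancel₀ _ hsq.ne'] at h1
    linarith
  have hts : tsupport (fun x => χ (√(κ n) * x)) ⊆ Set.Ioo (-(Ξ / √(κ n))) (Ξ / √(κ n)) := by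
    have h1 : tsupport (χ ∘ fun x => √(κ n) * x) ⊆ (fun x => √(κ n) * x) ⁻¹' tsupport χ :=
      tsupport_comp_subset_preimage χ (by fun_prop)
    intro x hx
    have h2 := hsupp (h1 hx)
    constructor
    · rw [← neg_div, div_lt_iff₀ hsq]
      have := h2.1
      linarith
    · rw [lt_div_iff₀ hsq]
      have := h2.2
      linarith
  have hw := hwk (α n) (Ξ / √(κ n)) (max M 0) (max M 0 * κ n) (f n) (fun x => χ (√(κ n) * x)) hα
    (hp.α_le n) (by positivity) hn2 (le_max_right _ _) (hs.zero n)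
    (hcn.mono fun q hq => hR' _ hq)
    (hsn.mono (Set.inter_subset_inter_right _ fun q hq => hR _ hq))
    (fun q hq hx => by
      obtain ⟨h1, h2⟩ := hMn q hq (hR _ hx)
      refine ⟨h1.trans (le_max_left _ _), h2.trans ?_⟩
      exact mul_le_mul_of_nonneg_right (le_max_left _ _) hκ.le)
    (hχ.comp (contDiff_const.mul contDiff_id))
    (hχc.comp_homeomorph (Homeomorph.mulLeft₀ (√(κ n)) hsq.ne')) hts
  rw [ode_rhs hχ hχc hsq] at hw
  set S := Ell (α n) ∩ {q : ℝ × ℝ | √(κ n) * |q.1| ≤ Ξ} with hS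
  set F : ℝ × ℝ → ℝ := fun q => f n q * deriv (deriv χ) (√(κ n) * q.1) * e1 ast (YE (α n) q)
    with hF
  have hout : ∀ x : ℝ, Ξ < √(κ n) * |x| → χ (√(κ n) * x) = 0 ∧
      deriv (deriv χ) (√(κ n) * x) = 0 := by
    intro x hx
    have h1 : √(κ n) * x ∉ tsupport χ := by
      intro h2
      have h3 := abs_lt.2 (hsupp h2)
      rw [abs_mul, abs_of_pos hsq] at h3
      linarith
    refine ⟨image_eq_zero_of_notMem_tsupport h1, ?_⟩
    have h4 : tsupport (deriv (deriv χ)) ⊆ tsupport χ :=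
      tsupport_deriv_subset.trans tsupport_deriv_subset
    exact image_eq_zero_of_notMem_tsupport fun h5 => h1 (h4 h5)
  have hF0 : ∀ q, q ∉ S → F q = 0 := by
    intro q hq
    by_cases hE : q ∈ Ell (α n)
    · have h1 : Ξ < √(κ n) * |q.1| := by
        by_contra h
        exact hq ⟨hE, not_lt.1 h⟩
      show f n q * deriv (deriv χ) (√(κ n) * q.1) * e1 ast (YE (α n) q) = 0
      rw [(hout _ h1).2]
      ring
    · show f n q * deriv (deriv χ) (√(κ n) * q.1) * e1 ast (YE (α n) q) = 0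
      rw [hs.zero n q hE]
      ring
  have hSlt : ∀ q ∈ S, √(κ n) * |q.1| < Ξ + 1 := fun q hq => lt_of_le_of_lt hq.2 (by linarith)
  have hFc : ContinuousOn F S := by
    refine ContinuousOn.mul (ContinuousOn.mul ?_ ?_) ((ode_e1c _).mono Set.inter_subset_left)
    · exact hcn.mono fun q hq => (hSlt q hq).le
    · exact (hχ2.continuous.comp (by fun_prop)).continuousOn
  have hFi : Integrable F := by
    refine ode_int2 hκ hFc hF0 (C := max M 0 * C2 * Ke) fun q hq => ?_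
    show |f n q * deriv (deriv χ) (√(κ n) * q.1) * e1 ast (YE (α n) q)| ≤ _
    rw [abs_mul, abs_mul]
    have h1 := (hMn q hq.1 (hSlt q hq)).1
    have h2 := hC2 (√(κ n) * q.1)
    have h3 := he1 (α n) q hq.1
    have h4 : 0 ≤ C2 := (abs_nonneg _).trans h2
    refine mul_le_mul (mul_le_mul (h1.trans (le_max_left _ _)) h2 (abs_nonneg _)
      (le_max_right _ _)) h3 (abs_nonneg _) ?_
    exact mul_nonneg (le_max_right _ _) h4
  have I1 : ∫ x, bF (α n) (f n) x * deriv (deriv (fun x => χ (√(κ n) * x))) x =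
      κ n * ∫ q in S, F q := by
    rw [setIntegral_eq_integral_of_forall_compl_eq_zero hF0, Measure.volume_eq_prod,
      integral_prod _ (by rwa [Measure.volume_eq_prod] at hFi), ← integral_const_mul]
    refine integral_congr_ae (ae_of_all _ fun x => ?_)
    show bF (α n) (f n) x * deriv (deriv (fun x => χ (√(κ n) * x))) x =
      κ n * ∫ y, F (x, y)
    rw [ode_chi2 hχ, hss]
    have h1 : ∫ y, F (x, y) = ∫ y in (-1 : ℝ)..1, F (x, y) := by
      rw [intervalIntegral.integral_of_le (by norm_num)]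
      symm
      refine setIntegral_eq_integral_of_forall_compl_eq_zero fun y hy => hF0 _ fun hm => hy ?_
      have := abs_lt.1 (ell_sq_lt hm.1).2
      exact ⟨this.1, this.2.le⟩
    have h2 : ∫ y in (-1 : ℝ)..1, F (x, y) =
        deriv (deriv χ) (√(κ n) * x) * bF (α n) (f n) x := by
      rw [bF, ← intervalIntegral.integral_const_mul]
      congr 1
      funext y
      show f n (x, y) * deriv (deriv χ) (√(κ n) * x) * e1 ast (YE (α n) (x, y)) = _
      ring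
    rw [h1, h2]
    ring
  have I2 : ∫ q in Ell (α n), χ (√(κ n) * q.1) * e1 ast (YE (α n) q) *
      (lap (f n) q + pot1 ast q.2 * f n q) = κ n * ∫ q in S, χ (√(κ n) * q.1) *
        e1 ast (YE (α n) q) * ((lap (f n) q + pot1 ast q.2 * f n q) / κ n) := by
    rw [← integral_const_mul]
    have hEm : MeasurableSet (Ell (α n)) :=
      (isOpen_lt (by fun_prop) continuous_const).measurableSet
    rw [setIntegral_eq_of_subset_of_forall_diff_eq_zero hEm (Set.inter_subset_left : S ⊆ _)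
      (fun q hq => ?_)]
    · refine setIntegral_congr_fun (ode_meas _ _ _) fun q _ => ?_
      show _ = κ n * (χ (√(κ n) * q.1) *
        e1 ast (YE (α n) q) * ((lap (f n) q + pot1 ast q.2 * f n q) / κ n))
      field_simp
    · have h1 : Ξ < √(κ n) * |q.1| := by
        by_contra h
        exact hq.2 ⟨hq.1, not_lt.1 h⟩
      rw [(hout _ h1).1]
      ring
  rw [I1, I2, ← mul_sub, abs_mul, abs_of_pos hκ, hss] at hw
  rw [← mul_sub, Real.norm_eq_abs, abs_mul, abs_of_pos hsq]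
  set D := |(∫ q in S, F q) - ∫ q in S, χ (√(κ n) * q.1) *
        e1 ast (YE (α n) q) * ((lap (f n) q + pot1 ast q.2 * f n q) / κ n)| with hD
  have hfin : √(κ n) * D ≤ K * max M 0 * ((α n ^ 2 * (C₁ + C₂) + α n ^ 2 / κ n * C₃) / κ n) := by
    have h1 : κ n * (√(κ n) * D) ≤ K * max M 0 * (α n ^ 2 * (C₁ + C₂) + α n ^ 2 / κ n * C₃) := by
      have h2 := mul_le_mul_of_nonneg_left hw hsq.le
      have h3 : √(κ n) * (K * max M 0 * ((√(κ n))⁻¹ * (α n ^ 2 * C₁ + (α n ^ 2 * C₂ +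
          α n ^ 2 / κ n * C₃)))) = K * max M 0 * (α n ^ 2 * (C₁ + C₂) + α n ^ 2 / κ n * C₃) := by
        field_simp
        ring
      rw [h3] at h2
      linarith
    rw [mul_div_assoc', le_div_iff₀ hκ]
    linarith
  refine hfin.trans (mul_le_mul_of_nonneg_left ?_ (mul_nonneg hK.le (le_max_right _ _)))
  rw [add_div]
  have h4 := hp.hα n
  refine add_le_add ?_ ?_
  · rw [div_le_iff₀ hκ]
    have := mul_le_mul_of_nonneg_right h4 (add_nonneg n1 n2)
    nlinarith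
  · rw [div_mul_eq_mul_div, div_div, div_le_iff₀ (by positivity)]
    have := mul_le_mul_of_nonneg_right h4 n3
    nlinarith

/-- uniform convergence on a window -/
private def UC (α κ : ℕ → ℝ) (Ξ : ℝ) (F : ℕ → ℝ × ℝ → ℝ) (H : ℝ → ℝ → ℝ) : Prop :=
  ∀ ε : ℝ, 0 < ε → ∀ᶠ n in atTop, ∀ q ∈ Ell (α n), √(κ n) * |q.1| ≤ Ξ →
      |F n q - H (√(κ n) * q.1) q.2| ≤ ε

private theorem ode_bdH (Ξ : ℝ) {H : ℝ → ℝ → ℝ} (hH : Continuous (Function.uncurry H)) :
    ∃ M : ℝ, 0 ≤ M ∧ ∀ ξ y : ℝ, |ξ| ≤ Ξ → |y| ≤ 1 → |H ξ y| ≤ M := by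
  obtain ⟨M, hM⟩ := (isCompact_Icc.prod isCompact_Icc).exists_bound_of_continuousOn
    (s := Set.Icc (-Ξ) Ξ ×ˢ Set.Icc (-1 : ℝ) 1) (f := Function.uncurry H) hH.continuousOn
  exact ⟨max M 0, le_max_right _ _, fun ξ y h1 h2 =>
    (hM (ξ, y) ⟨abs_le.1 h1, abs_le.1 h2⟩).trans (le_max_left _ _)⟩

private theorem UC.mul {α κ : ℕ → ℝ} {Ξ : ℝ} {F₁ F₂ : ℕ → ℝ × ℝ → ℝ} {H₁ H₂ : ℝ → ℝ → ℝ}
    (h1 : UC α κ Ξ F₁ H₁) (h2 : UC α κ Ξ F₂ H₂) (c1 : Continuous (Function.uncurry H₁))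
    (c2 : Continuous (Function.uncurry H₂)) :
    UC α κ Ξ (fun n q => F₁ n q * F₂ n q) (fun ξ y => H₁ ξ y * H₂ ξ y) := by
  obtain ⟨M₁, p1, b1⟩ := ode_bdH Ξ c1
  obtain ⟨M₂, p2, b2⟩ := ode_bdH Ξ c2
  intro ε hε
  set δ : ℝ := min 1 (ε / (1 + M₁ + M₂)) with hδ
  have hδ0 : 0 < δ := lt_min one_pos (by positivity)
  filter_upwards [h1 δ hδ0, h2 δ hδ0] with n g1 g2 q hq hx
  have a1 := g1 q hq hx
  have a2 := g2 q hq hx
  have hξ : |√(κ n) * q.1| ≤ Ξ := by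
    rw [abs_mul, abs_of_nonneg (Real.sqrt_nonneg _)]
    exact hx
  have e1 := b1 _ _ hξ (ell_sq_lt hq).2.le
  have e2 := b2 _ _ hξ (ell_sq_lt hq).2.le
  have hid : F₁ n q * F₂ n q - H₁ (√(κ n) * q.1) q.2 * H₂ (√(κ n) * q.1) q.2 =
      (F₁ n q - H₁ (√(κ n) * q.1) q.2) * (F₂ n q - H₂ (√(κ n) * q.1) q.2) +
      (F₁ n q - H₁ (√(κ n) * q.1) q.2) * H₂ (√(κ n) * q.1) q.2 +
      H₁ (√(κ n) * q.1) q.2 * (F₂ n q - H₂ (√(κ n) * q.1) q.2) := by ring
  show |F₁ n q * F₂ n q - H₁ (√(κ n) * q.1) q.2 * H₂ (√(κ n) * q.1) q.2| ≤ ε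
  rw [hid]
  refine (abs_add_le _ _).trans ?_
  refine (add_le_add_left (abs_add_le _ _) _).trans ?_
  rw [abs_mul, abs_mul, abs_mul]
  have t1 : |F₁ n q - H₁ (√(κ n) * q.1) q.2| * |F₂ n q - H₂ (√(κ n) * q.1) q.2| ≤ δ * 1 :=
    mul_le_mul a1 (a2.trans (min_le_left _ _)) (abs_nonneg _) hδ0.le
  have t2 : |F₁ n q - H₁ (√(κ n) * q.1) q.2| * |H₂ (√(κ n) * q.1) q.2| ≤ δ * M₂ :=
    mul_le_mul a1 e2 (abs_nonneg _) hδ0.le
  have t3 : |H₁ (√(κ n) * q.1) q.2| * |F₂ n q - H₂ (√(κ n) * q.1) q.2| ≤ M₁ * δ :=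
    mul_le_mul e1 a2 (abs_nonneg _) p1
  have t4 : δ * (1 + M₁ + M₂) ≤ ε := by
    have := min_le_right 1 (ε / (1 + M₁ + M₂))
    rwa [← hδ, le_div_iff₀ (by positivity)] at this
  linarith

private theorem UC_fst (α κ : ℕ → ℝ) (Ξ : ℝ) (φ : ℝ → ℝ) :
    UC α κ Ξ (fun n q => φ (√(κ n) * q.1)) (fun ξ _ => φ ξ) := by
  intro ε hε
  refine Eventually.of_forall fun n q _ _ => ?_
  show |φ (√(κ n) * q.1) - φ (√(κ n) * q.1)| ≤ ε
  rw [sub_self, abs_zero]
  exact hε.le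

private theorem UC_e1 {α κ : ℕ → ℝ} (hp : Par α κ) (Ξ : ℝ) :
    UC α κ Ξ (fun n q => e1 ast (YE (α n) q)) (fun _ y => e1 ast y) := by
  obtain ⟨K, hK, hb⟩ := cst_bd
  obtain ⟨hα0, hwin, hev⟩ := hp.win Ξ
  intro ε hε
  have hk2 : Tendsto (fun n => 2 * K * (Ξ ^ 2 * κ n ^ 2)) atTop (𝓝 0) := by
    simpa using ((hp.κ_lim.pow 2).const_mul (Ξ ^ 2)).const_mul (2 * K)
  filter_upwards [hev, hk2.eventually (gt_mem_nhds hε)] with n hn h2 q hq hx
  obtain ⟨hx1, hy1⟩ := ell_sq_lt hq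
  have hY1 : |YE (α n) q| < 1 := (ell_iff_Y hx1).1 hq
  have h3 := (YE_near hx1).2 (hn.2 q.1 hx)
  have h4 := hwin n q.1 hx
  have h5 := Convex.norm_image_sub_le_of_norm_deriv_le (f := e1 ast) (s := Set.Icc (-1) 1) (C := K)
    (x := q.2) (y := YE (α n) q)
    (fun z _ => ((e1_smooth ast).differentiable (by simp)) z)
    (fun z hz => by
      rw [Real.norm_eq_abs]
      exact (hb z (abs_le.2 ⟨by linarith [hz.1], by linarith [hz.2]⟩)).2.1)
    (convex_Icc _ _) (abs_le.1 hy1.le) (abs_le.1 hY1.le)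
  simp only [Real.norm_eq_abs] at h5
  have h6 : |YE (α n) q - q.2| ≤ 2 * (Ξ ^ 2 * κ n ^ 2) := by
    refine h3.trans ?_
    have h7 : 2 * α n ^ 2 * q.1 ^ 2 * |q.2| ≤ 2 * α n ^ 2 * q.1 ^ 2 * 1 :=
      mul_le_mul_of_nonneg_left hy1.le (by positivity)
    linarith
  have h8 := mul_le_mul_of_nonneg_left h6 hK.le
  show |e1 ast (YE (α n) q) - e1 ast q.2| ≤ ε
  linarith

open MeasureTheory in
theorem slow_ode {α κ : ℕ → ℝ} {f : ℕ → ℝ × ℝ → ℝ} (hp : Par α κ) (hs : Slow α κ f)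
    {W : ℝ → ℝ} (hWc : Continuous W) (hW : ScalLim κ f W) {G : ℝ → ℝ → ℝ}
    (hG : Continuous (Function.uncurry G))
    (hlim : ∀ Ξ ε : ℝ, 0 < Ξ → 0 < ε → ∀ᶠ n in atTop, ∀ q ∈ Ell (α n), √(κ n) * |q.1| ≤ Ξ →
      |(lap (f n) q + pot1 ast q.2 * f n q) / κ n - G (√(κ n) * q.1) q.2| ≤ ε) :
    ContDiff ℝ 2 W ∧
      ∀ ξ, cE * deriv (deriv W) ξ = ∫ y in (-1 : ℝ)..1, e1 ast y * G ξ y := by
  have hcE := cE_pos
  have hec : Continuous (e1 ast) := (e1_smooth ast).continuous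
  have hc0 : Continuous (Function.uncurry fun ξ y => e1 ast y * G ξ y) :=
    (hec.comp continuous_snd).mul hG
  have hGG : Continuous fun ξ => (∫ y in (-1 : ℝ)..1, e1 ast y * G ξ y) / cE :=
    (intervalIntegral.continuous_parametric_intervalIntegral_of_continuous' hc0 (-1) 1).div_const _
  have key := dubois hWc hGG ?_
  · refine ⟨key.1, fun ξ => ?_⟩
    rw [key.2 ξ]
    field_simp
  · intro χ hχ hχc
    have hχ1 : ContDiff ℝ ∞ (deriv χ) := (contDiff_infty_iff_deriv.1 hχ).2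
    have hχ2 : ContDiff ℝ ∞ (deriv (deriv χ)) := (contDiff_infty_iff_deriv.1 hχ1).2
    obtain ⟨Ξ, hΞ, hsupp⟩ : ∃ Ξ : ℝ, 0 < Ξ ∧ tsupport χ ⊆ Set.Ioo (-Ξ) Ξ := by
      obtain ⟨r, hr, h⟩ := hχc.isCompact.isBounded.subset_ball_lt 0 0
      refine ⟨r, hr, fun x hx => ?_⟩
      have := h hx
      rw [Real.ball_eq_Ioo] at this
      simpa using this
    have ucf : UC α κ Ξ f (fun ξ y => W ξ * e1 ast y) := by
      intro ε hε
      filter_upwards [hW Ξ ε hΞ hε] with n hn q hq hx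
      exact hn q ⟨hx, (ell_sq_lt hq).2.le⟩
    have ucG : UC α κ Ξ (fun n q => (lap (f n) q + pot1 ast q.2 * f n q) / κ n) G :=
      fun ε hε => hlim Ξ ε hΞ hε
    have cW : Continuous (Function.uncurry fun ξ y => W ξ * e1 ast y) :=
      (hWc.comp continuous_fst).mul (hec.comp continuous_snd)
    have c1 : Continuous (Function.uncurry fun (ξ : ℝ) (_ : ℝ) => deriv (deriv χ) ξ) :=
      hχ2.continuous.comp continuous_fst
    have c2 : Continuous (Function.uncurry fun (ξ : ℝ) (_ : ℝ) => χ ξ) :=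
      hχ.continuous.comp continuous_fst
    have c3 : Continuous (Function.uncurry fun (_ : ℝ) (y : ℝ) => e1 ast y) :=
      hec.comp continuous_snd
    have u1 := (ucf.mul (UC_fst α κ Ξ (deriv (deriv χ))) cW c1).mul (UC_e1 hp Ξ) (cW.mul c1) c3
    have u2 := ((UC_fst α κ Ξ χ).mul (UC_e1 hp Ξ) c2 c3).mul ucG (c2.mul c3) hG
    have hcf : ∀ᶠ n in atTop, ContinuousOn (f n) (Ell (α n) ∩ {q | √(κ n) * |q.1| ≤ Ξ}) := by
      filter_upwards [hs.cont Ξ] with n hn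
      exact hn.mono Set.inter_subset_right
    have cH1 : Continuous (Function.uncurry fun ξ y =>
        W ξ * e1 ast y * deriv (deriv χ) ξ * e1 ast y) := (cW.mul c1).mul c3
    have cH2 : Continuous (Function.uncurry fun ξ y => χ ξ * e1 ast y * G ξ y) :=
      (c2.mul c3).mul hG
    have t1 := scal_int hp (F := fun n q => f n q * deriv (deriv χ) (√(κ n) * q.1) *
        e1 ast (YE (α n) q)) hΞ cH1 (by
      filter_upwards [hcf] with n hn
      refine ContinuousOn.mul (ContinuousOn.mul hn ?_) ((ode_e1c _).mono Set.inter_subset_left)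
      exact (hχ2.continuous.comp (by fun_prop)).continuousOn) u1
    have t2 := scal_int hp (F := fun n q => χ (√(κ n) * q.1) * e1 ast (YE (α n) q) *
        ((lap (f n) q + pot1 ast q.2 * f n q) / κ n)) hΞ cH2 (by
      filter_upwards [hcf, hs.smooth (Ξ + 1)] with n hn hsn
      refine ContinuousOn.mul (ContinuousOn.mul ?_ ((ode_e1c _).mono Set.inter_subset_left)) ?_
      · exact (hχ.continuous.comp (by fun_prop)).continuousOn
      · refine ContinuousOn.div_const (ContinuousOn.add ?_ (ContinuousOn.mul ?_ hn)) _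
        · have hU : IsOpen (Ell (α n) ∩ {q : ℝ × ℝ | √(κ n) * |q.1| < Ξ + 1}) :=
            (isOpen_lt (by fun_prop) continuous_const).inter
              (isOpen_lt (by fun_prop) continuous_const)
          refine (cont_lap hU hsn).mono fun q hq => ⟨hq.1, ?_⟩
          have h5 : √(κ n) * |q.1| ≤ Ξ := hq.2
          show √(κ n) * |q.1| < Ξ + 1
          linarith
        · exact (cst_smooth.continuous.comp continuous_snd).continuousOn) u2
    have t3 := ode_weak hp hs hχ hχc hΞ hsupp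
    have t4 := tendsto_nhds_unique (t1.sub t2) t3
    have hout : ∀ x : ℝ, x ∉ Set.Ioc (-Ξ) Ξ → χ x = 0 ∧ deriv (deriv χ) x = 0 := by
      intro x hx
      have h1 : x ∉ tsupport χ := fun h2 => hx ⟨(hsupp h2).1, (hsupp h2).2.le⟩
      refine ⟨image_eq_zero_of_notMem_tsupport h1, ?_⟩
      have h4 : tsupport (deriv (deriv χ)) ⊆ tsupport χ :=
        tsupport_deriv_subset.trans tsupport_deriv_subset
      exact image_eq_zero_of_notMem_tsupport fun h5 => h1 (h4 h5)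
    have r1 : ∫ ξ in (-Ξ)..Ξ, ∫ y in (-1 : ℝ)..1, W ξ * e1 ast y * deriv (deriv χ) ξ * e1 ast y =
        (∫ x, W x * deriv (deriv χ) x) * cE := by
      rw [← integral_mul_const]
      rw [← intervalIntegral.integral_eq_integral_of_support_subset (a := -Ξ) (b := Ξ)]
      · congr 1
        funext ξ
        rw [cE, ← intervalIntegral.integral_const_mul]
        congr 1
        funext y
        ring
      · intro x hx
        by_contra h
        exact hx (by simp [(hout x h).2])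
    have r2 : ∫ ξ in (-Ξ)..Ξ, ∫ y in (-1 : ℝ)..1, χ ξ * e1 ast y * G ξ y =
        ∫ x, χ x * ∫ y in (-1 : ℝ)..1, e1 ast y * G x y := by
      rw [← intervalIntegral.integral_eq_integral_of_support_subset (a := -Ξ) (b := Ξ)]
      · congr 1
        funext ξ
        rw [← intervalIntegral.integral_const_mul]
        congr 1
        funext y
        ring
      · intro x hx
        by_contra h
        exact hx (by simp [(hout x h).1])
    rw [r1, r2] at t4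
    have t5 : (∫ x, W x * deriv (deriv χ) x) * cE =
        ∫ x, χ x * ∫ y in (-1 : ℝ)..1, e1 ast y * G x y := sub_eq_zero.1 t4
    have t6 : ∫ x, (∫ y in (-1 : ℝ)..1, e1 ast y * G x y) / cE * χ x =
        (∫ x, χ x * ∫ y in (-1 : ℝ)..1, e1 ast y * G x y) / cE := by
      rw [← integral_div]
      congr 1
      funext x
      ring
    rw [t6, ← t5]
    field_simp

end Pool.Agent.MFE
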