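import Pool.Agent.MFE.FLDStb
import Pool.Agent.MFE.FLDOde

/-!
# MFE.FLDWst: the limit is stable (regime C)

`ell_Y_int`: Fubini and the substitution `y = h Y` in the sections `{|y| < h(x)}` of the ellipse.
`fold_stable`: `f ∈ C_c^∞(0,∞)`, support in `[a, Ξ]`, `F(q) = f(√κ x) e(Y)`: `stab_ell` (`F = 0` for
`x ≤ a/√κ`; `e(Y) ≤ C(1-Y²) ≤ C' wE` on the window, `comp_YE_bd`). With `∂ₓF = √κ f' e(Y) + f ∂ₓe(Y)`,
`|∂ₓ e(Y)| ≤ Cα²|x|`, `∂_yF = f e'(Y)/h`:
`|∇F|² = κ f'² e(Y)² + f² e'(Y)²/h² + R`, `|R| ≤ C (√κ α²|x| + α⁴x²) ≤ C κ³`; and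
`μ e^v F² = (μ/mu1 ast) q(Y) e^{κu} f² e(Y)² = q(Y) f² e(Y)² (1 + κu) + O(κ²)` (`u = uY` bounded on the
window, `cst_exp`, `|μ - mu1 ast| ≤ κ²`). By `ell_Y_int` and `cst_energy`
`∫_E f² (e'(Y)²/h² - q(Y)e(Y)²) = ∫ f(√κx)² (1/h - h) dx · ∫_{-1}^1 q e²`, `0 ≤ 1/h - h ≤ 2α²x² ≤ 2Ξ²κ²`.
So `0 ≤ κ ∫_E f'(√κx)² e(Y)² - κ ∫_E q(Y) f(√κx)² e(Y)² u + O(κ²) κ^{-1/2}`; multiply by `κ^{-1/2}` and pass to
the limit with `scal_int` (`H(ξ,y) = f'(ξ)² e(y)²` and `q(y) f(ξ)² W(ξ) e(y)³`; `e(Y) → e(y)`,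
`q(Y) → q(y)` uniformly on windows).
-/

open Filter Topology
open scoped ContDiff

namespace Pool.Agent.MFE

private theorem wst_hE_cont (α : ℝ) : Continuous (hE α) := by
  unfold hE
  fun_prop

private theorem wst_sec {α x y : ℝ} (hx : α ^ 2 * x ^ 2 < 1) :
    (x, y) ∈ Ell α ↔ y ∈ Set.Ioo (-(hE α x)) (hE α x) := by
  have h1 := hE_sq hx.le
  have h2 := (hE_pos hx).1
  rw [Set.mem_Ioo, ← abs_lt]
  constructor
  · intro h
    have h3 : α ^ 2 * x ^ 2 + y ^ 2 < 1 := h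
    exact abs_lt_of_sq_lt_sq (by rw [h1]; linarith) h2.le
  · intro h
    show α ^ 2 * x ^ 2 + y ^ 2 < 1
    have h3 : y ^ 2 < hE α x ^ 2 := by
      rw [← sq_abs y]
      exact pow_lt_pow_left₀ h (abs_nonneg _) two_ne_zero
    rw [h1] at h3
    linarith

private theorem wst_YE_cont (α : ℝ) : ContinuousOn (YE α) {q | α ^ 2 * q.1 ^ 2 < 1} :=
  (YE_smooth α).continuousOn

private theorem wst_ell_fin {α : ℝ} (hα : 0 < α) : MeasureTheory.volume (Ell α) ≠ ⊤ := by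
  rw [area_ell hα]
  exact ENNReal.ofReal_ne_top

theorem ell_Y_int {α : ℝ} (hα : 0 < α) {f G : ℝ → ℝ} (hf : Continuous f) (hG : Continuous G)
    (hs : ∀ x, 1 ≤ α ^ 2 * x ^ 2 → f x = 0) :
    ∫ q in Ell α, f q.1 * G (YE α q) = (∫ x, f x * hE α x) * ∫ y in (-1 : ℝ)..1, G y := by
  have hm : MeasurableSet (Ell α) := (isOpen_ell α).measurableSet
  set φ : ℝ × ℝ → ℝ := fun q => f q.1 * G (YE α q) with hφ
  have hYc : ContinuousOn φ (Ell α) := by
    have h1 : ContinuousOn (YE α) (Ell α) :=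
      (wst_YE_cont α).mono fun q hq => (ell_sq_lt hq).1
    exact (hf.comp continuous_fst).continuousOn.mul (hG.comp_continuousOn h1)
  have hint : MeasureTheory.IntegrableOn φ (Ell α) := by
    obtain ⟨B1, hB1⟩ := (isCompact_Icc (a := -(1 / α)) (b := 1 / α)).exists_bound_of_continuousOn
      hf.continuousOn
    obtain ⟨B2, hB2⟩ := (isCompact_Icc (a := (-1 : ℝ)) (b := 1)).exists_bound_of_continuousOn
      hG.continuousOn
    refine MeasureTheory.IntegrableOn.of_bound (C := B1 * B2) (wst_ell_fin hα).lt_top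
      (hYc.aestronglyMeasurable hm) ?_
    refine (MeasureTheory.ae_restrict_iff' hm).2 (Eventually.of_forall fun q hq => ?_)
    have h1 := (ell_sq_lt hq).1
    have h2 := (ell_iff_Y h1).1 hq
    have h3 : |q.1| ≤ 1 / α := by
      rw [le_div_iff₀ hα]
      have h4 : (|q.1| * α) ^ 2 ≤ 1 ^ 2 := by
        rw [mul_pow, sq_abs]; nlinarith
      exact (pow_le_pow_iff_left₀ (by positivity) (by norm_num) two_ne_zero).1 h4
    rw [norm_mul]
    have h5 := hB1 q.1 (abs_le.1 h3)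
    have h6 := hB2 (YE α q) (abs_le.1 h2.le)
    exact mul_le_mul h5 h6 (norm_nonneg _) ((norm_nonneg _).trans h5)
  rw [← MeasureTheory.integral_indicator hm]
  have hint2 : MeasureTheory.Integrable ((Ell α).indicator φ)
      (MeasureTheory.volume.prod MeasureTheory.volume) := by
    rw [← MeasureTheory.Measure.volume_eq_prod]
    exact (MeasureTheory.integrable_indicator_iff hm).2 hint
  rw [MeasureTheory.Measure.volume_eq_prod, MeasureTheory.integral_prod _ hint2]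
  have key : ∀ x : ℝ, ∫ y, (Ell α).indicator φ (x, y) =
      f x * hE α x * ∫ y in (-1 : ℝ)..1, G y := by
    intro x
    by_cases hx : α ^ 2 * x ^ 2 < 1
    · have hh := (hE_pos hx).1
      have e : (fun y => (Ell α).indicator φ (x, y)) =
          (Set.Ioo (-(hE α x)) (hE α x)).indicator (fun y => f x * G (y / hE α x)) := by
        funext y
        by_cases hy : (x, y) ∈ Ell α
        · rw [Set.indicator_of_mem hy, Set.indicator_of_mem ((wst_sec hx).1 hy)]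
          rfl
        · rw [Set.indicator_of_notMem hy, Set.indicator_of_notMem
            (fun h => hy ((wst_sec hx).2 h))]
      rw [e, MeasureTheory.integral_indicator measurableSet_Ioo,
        MeasureTheory.integral_const_mul, ← MeasureTheory.integral_Ioc_eq_integral_Ioo,
        ← intervalIntegral.integral_of_le (by linarith),
        intervalIntegral.integral_comp_div (fun y => G y) hh.ne', neg_div, div_self hh.ne',
        smul_eq_mul, mul_assoc]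
    · have e : (fun y => (Ell α).indicator φ (x, y)) = fun _ => 0 := by
        funext y
        refine Set.indicator_of_notMem (fun h => hx ?_) _
        exact (ell_sq_lt h).1
      rw [e, hs x (not_lt.1 hx)]
      simp
  simp_rw [key]
  rw [MeasureTheory.integral_mul_const]

private theorem wst_dc {f : ℝ → ℝ} (hf : ContDiff ℝ ∞ f) : Continuous (deriv f) :=
  hf.continuous_deriv (by simp)

/-- the part of the derivative in the direction of `x` coming from `Y` -/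
private noncomputable def WstD (α : ℝ) (q : ℝ × ℝ) : ℝ :=
  deriv (e1 ast) (YE α q) * (YE α q * (α ^ 2 * q.1 / hE α q.1 ^ 2))

private noncomputable def WstF (α μ κ : ℝ) (v : ℝ × ℝ → ℝ) (f : ℝ → ℝ) (q : ℝ × ℝ) : ℝ :=
  f (√κ * q.1) ^ 2 *
    (e1 ast (YE α q) ^ 2 * ((μ * Real.exp (v q) - pot1 ast (YE α q)) / κ))

private noncomputable def WstG (α κ : ℝ) (f : ℝ → ℝ) (q : ℝ × ℝ) : ℝ :=
  deriv f (√κ * q.1) ^ 2 * e1 ast (YE α q) ^ 2 +
    (2 * √κ * f (√κ * q.1) * deriv f (√κ * q.1) * e1 ast (YE α q) * WstD α q +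
      f (√κ * q.1) ^ 2 * WstD α q ^ 2 +
      f (√κ * q.1) ^ 2 * deriv (e1 ast) (YE α q) ^ 2 * (1 / hE α q.1 ^ 2 - 1)) / κ

private def WstK (κ Ξ : ℝ) : Set (ℝ × ℝ) := {q | √κ * |q.1| ≤ Ξ ∧ |q.2| ≤ 1}

private theorem wstK_compact {κ Ξ : ℝ} (hκ : 0 < κ) : IsCompact (WstK κ Ξ) := by
  have h1 : WstK κ Ξ = Set.Icc (-(Ξ / √κ)) (Ξ / √κ) ×ˢ Set.Icc (-1 : ℝ) 1 := by
    ext q
    have hs := Real.sqrt_pos.2 hκ
    rw [Set.mem_prod, Set.mem_Icc, Set.mem_Icc, ← abs_le, ← abs_le, le_div_iff₀ hs]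
    constructor
    · intro h
      exact ⟨by rw [mul_comm]; exact h.1, h.2⟩
    · intro h
      exact ⟨by rw [mul_comm]; exact h.1, h.2⟩
  rw [h1]
  exact isCompact_Icc.prod isCompact_Icc

private theorem wst_win_lt {α κ Ξ : ℝ} (hw : ∀ x : ℝ, √κ * |x| ≤ Ξ → α ^ 2 * x ^ 2 ≤ 1 / 16)
    {q : ℝ × ℝ} (hq : √κ * |q.1| ≤ Ξ) : α ^ 2 * q.1 ^ 2 < 1 := by
  have := hw _ hq
  linarith

section conts

variable {α κ Ξ : ℝ} (hw : ∀ x : ℝ, √κ * |x| ≤ Ξ → α ^ 2 * x ^ 2 ≤ 1 / 16)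

include hw

private theorem wst_c_Y {g : ℝ → ℝ} (hg : Continuous g) :
    ContinuousOn (fun q => g (YE α q)) (WstK κ Ξ) :=
  hg.comp_continuousOn ((wst_YE_cont α).mono fun _ hq => wst_win_lt hw hq.1)

private theorem wst_c_h : ContinuousOn (fun q : ℝ × ℝ => 1 / hE α q.1 ^ 2) (WstK κ Ξ) := by
  refine continuousOn_const.div (((wst_hE_cont α).comp continuous_fst).pow 2).continuousOn ?_
  intro q hq
  exact pow_ne_zero 2 (hE_pos (wst_win_lt hw hq.1)).1.ne'

private theorem wst_c_D : ContinuousOn (WstD α) (WstK κ Ξ) := by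
  have h1 := wst_c_Y hw (wst_dc (e1_smooth ast))
  have h2 : ContinuousOn (YE α) (WstK κ Ξ) :=
    (wst_YE_cont α).mono fun _ hq => wst_win_lt hw hq.1
  have h3 := wst_c_h hw
  have h4 : WstD α = fun q => deriv (e1 ast) (YE α q) *
      (YE α q * (α ^ 2 * q.1 * (1 / hE α q.1 ^ 2))) := by
    funext q
    unfold WstD
    ring
  rw [h4]
  exact h1.mul (h2.mul ((continuousOn_const.mul continuous_fst.continuousOn).mul h3))

private theorem wst_c_F (μ : ℝ) {v : ℝ × ℝ → ℝ} (hv : Continuous v) {f : ℝ → ℝ}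
    (hf : ContDiff ℝ ∞ f) : ContinuousOn (WstF α μ κ v f) (WstK κ Ξ) := by
  have h1 := wst_c_Y hw (e1_smooth ast).continuous
  have h2 := wst_c_Y hw cst_smooth.continuous
  have h3 : Continuous fun q : ℝ × ℝ => f (√κ * q.1) :=
    hf.continuous.comp (continuous_const.mul continuous_fst)
  unfold WstF
  exact (h3.pow 2).continuousOn.mul ((h1.pow 2).mul
    (((continuous_const.mul hv.rexp).continuousOn.sub h2).div_const _))

private theorem wst_c_G {f : ℝ → ℝ}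
    (hf : ContDiff ℝ ∞ f) : ContinuousOn (WstG α κ f) (WstK κ Ξ) := by
  have h1 := wst_c_Y hw (e1_smooth ast).continuous
  have h2 := wst_c_Y hw (wst_dc (e1_smooth ast))
  have h3 : Continuous fun q : ℝ × ℝ => f (√κ * q.1) :=
    hf.continuous.comp (continuous_const.mul continuous_fst)
  have h4 : Continuous fun q : ℝ × ℝ => deriv f (√κ * q.1) :=
    (wst_dc hf).comp (continuous_const.mul continuous_fst)
  have h5 := wst_c_D hw
  have h6 := wst_c_h hw
  unfold WstG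
  have h3' := h3.continuousOn (s := WstK κ Ξ)
  have h4' := h4.continuousOn (s := WstK κ Ξ)
  exact ((h4'.pow 2).mul (h1.pow 2)).add
    (((((((continuousOn_const.mul h3').mul h4').mul h1).mul h5).add
      ((h3'.pow 2).mul (h5.pow 2))).add
      (((h3'.pow 2).mul (h2.pow 2)).mul (h6.sub continuousOn_const))).div_const _)

end conts

private theorem wst_int {α κ Ξ : ℝ} (hκ : 0 < κ) {φ : ℝ × ℝ → ℝ}
    (hφ : ContinuousOn φ (WstK κ Ξ)) :
    MeasureTheory.IntegrableOn φ (Ell α ∩ {q | √κ * |q.1| ≤ Ξ}) :=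
  (hφ.integrableOn_compact (wstK_compact hκ)).mono_set fun _ hq =>
    ⟨hq.2, (ell_sq_lt hq.1).2.le⟩

private theorem wst_level {α μ κ : ℝ} (hα : 0 < α) (hκ : 0 < κ) (hκ1 : κ ≤ 1)
    {v : ℝ × ℝ → ℝ} (h : GSol α μ v) {f : ℝ → ℝ} (hf : ContDiff ℝ ∞ f) {a Ξ M : ℝ} (ha : 0 < a)
    (hM : ∀ ξ, |f ξ| ≤ M ∧ |deriv f ξ| ≤ M)
    (h0 : ∀ ξ, ξ ≤ a → f ξ = 0 ∧ deriv f ξ = 0) (h1 : ∀ ξ, Ξ < ξ → f ξ = 0 ∧ deriv f ξ = 0)
    (hw : ∀ x : ℝ, √κ * |x| ≤ Ξ → α ^ 2 * x ^ 2 ≤ 1 / 16) :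
    ∫ q in Ell α ∩ {q | √κ * |q.1| ≤ Ξ}, WstF α μ κ v f q ≤
      ∫ q in Ell α ∩ {q | √κ * |q.1| ≤ Ξ}, WstG α κ f q := by
  obtain ⟨K, hK, hKb⟩ := cst_bd
  obtain ⟨Ce, hCe, hce⟩ := cst_e
  have hs := Real.sqrt_pos.2 hκ
  have hs1 : √κ ≤ 1 := Real.sqrt_le_one.2 hκ1
  have hM0 : 0 ≤ M := (abs_nonneg _).trans (hM 0).1
  -- outside the window everything vanishes
  have hout : ∀ q : ℝ × ℝ, ¬ (√κ * |q.1| ≤ Ξ) → f (√κ * q.1) = 0 ∧ deriv f (√κ * q.1) = 0 := by
    intro q hq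
    rcases le_or_gt 0 q.1 with hx | hx
    · rw [abs_of_nonneg hx, not_le] at hq
      exact h1 _ hq
    · refine h0 _ ?_
      have : √κ * q.1 ≤ 0 := mul_nonpos_of_nonneg_of_nonpos hs.le hx.le
      linarith
  have hdf : ∀ x : ℝ, DifferentiableAt ℝ (fun x : ℝ => f (√κ * x)) x := fun x =>
    ((hf.differentiable (by simp)).comp
      ((differentiable_const _).mul differentiable_id)).differentiableAt
  have hdd : ∀ x : ℝ, deriv (fun x : ℝ => f (√κ * x)) x = √κ * deriv f (√κ * x) := by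
    intro x
    have h2 : HasDerivAt (fun x : ℝ => √κ * x) √κ x := by
      simpa using (hasDerivAt_id x).const_mul √κ
    have h3 := ((hf.differentiable (by simp)) (√κ * x)).hasDerivAt.comp x h2
    rw [mul_comm]
    exact h3.deriv
  have hdE : ∀ q : ℝ × ℝ, q ∈ Ell α → DifferentiableAt ℝ (fun z => e1 ast (YE α z)) q := by
    intro q hq
    have h2 := ((comp_YE_smooth α (e1_smooth ast)).mono fun z hz => (ell_sq_lt hz).1).contDiffAt
      ((isOpen_ell α).mem_nhds hq)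
    exact h2.differentiableAt (by simp)
  set F : ℝ × ℝ → ℝ := fun q => f (√κ * q.1) * e1 ast (YE α q) with hFd
  have hFx : ∀ q ∈ Ell α, dx F q =
      √κ * deriv f (√κ * q.1) * e1 ast (YE α q) + f (√κ * q.1) * WstD α q := by
    intro q hq
    rw [hFd, dx_mul (f := fun z => f (√κ * z.1)) ((hdf q.1).comp q differentiableAt_fst) (hdE q hq),
      dx_fst (fun x => f (√κ * x)) (hdf q.1), hdd, (comp_YE_dx (e1_smooth ast) (ell_sq_lt hq).1).1]
    rfl
  have hFy : ∀ q ∈ Ell α, dy F q =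
      f (√κ * q.1) * (deriv (e1 ast) (YE α q) / hE α q.1) := by
    intro q hq
    rw [hFd, dy_mul (f := fun z => f (√κ * z.1)) ((hdf q.1).comp q differentiableAt_fst) (hdE q hq),
      dy_fst (fun x => f (√κ * x)) (hdf q.1), zero_mul, zero_add,
      (comp_YE_dx (e1_smooth ast) (ell_sq_lt hq).1).2]
  have hstab := stab_ell hα h (F := F) (C := 10 * M * (K + Ce) * (1 + α)) (a := a / √κ)
    (div_pos ha hs) ?_ ?_ ?_ ?_
  rotate_left
  · have h2 : ContDiff ℝ ∞ fun q : ℝ × ℝ => f (√κ * q.1) :=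
      hf.comp (contDiff_const.mul contDiff_fst)
    exact (h2.contDiffOn.mul ((comp_YE_smooth α (e1_smooth ast)).mono
      fun z hz => (ell_sq_lt hz).1)).of_le (by simp)
  · intro q hq
    have hw0 : 0 ≤ wE α q := by
      have : α ^ 2 * q.1 ^ 2 + q.2 ^ 2 < 1 := hq
      unfold wE; linarith
    by_cases hx : √κ * |q.1| ≤ Ξ
    · have h2 := hw _ hx
      have h3 := wE_eq_Y (α := α) (q := q) (by linarith)
      have h4 := (hE_inv h2).2.2
      have h5 := (ell_iff_Y (by linarith : α ^ 2 * q.1 ^ 2 < 1)).1 hq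
      obtain ⟨h6, h7⟩ := hce _ h5.le
      have h8 : 0 ≤ 1 - YE α q ^ 2 := by
        have := (sq_abs (YE α q))
        nlinarith [abs_nonneg (YE α q)]
      have h9 : 1 - YE α q ^ 2 ≤ 2 * wE α q := by
        rw [h3]; nlinarith
      rw [hFd]
      simp only
      rw [abs_mul, abs_of_nonneg (by linarith : 0 ≤ e1 ast (YE α q))]
      calc |f (√κ * q.1)| * e1 ast (YE α q) ≤ M * (Ce * (2 * wE α q)) := by
            refine mul_le_mul (hM _).1 (h7.trans ?_) (by linarith) hM0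
            exact mul_le_mul_of_nonneg_left h9 hCe.le
        _ = 2 * M * Ce * wE α q := by ring
        _ ≤ 10 * M * (K + Ce) * (1 + α) * wE α q := by
            apply mul_le_mul_of_nonneg_right _ hw0
            have h10 : 0 ≤ M * K := by positivity
            have h11 : 0 ≤ M * Ce := by positivity
            have h12 : 0 ≤ M * K * α := by positivity
            have h13 : 0 ≤ M * Ce * α := by positivity
            nlinarith
    · rw [hFd]
      simp only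
      rw [(hout q hx).1, zero_mul, abs_zero]
      positivity
  · intro q hq
    by_cases hx : √κ * |q.1| ≤ Ξ
    · have h2 := hw _ hx
      have h5 := (ell_iff_Y (by linarith : α ^ 2 * q.1 ^ 2 < 1)).1 hq
      obtain ⟨b1, b2, -⟩ := hKb (YE α q) (by linarith)
      obtain ⟨-, c1, c2⟩ := comp_YE_bd (M := K) (e1_smooth ast)
        (fun y hy => ⟨(hKb y (by linarith)).2.1, (hKb y (by linarith)).2.2.1⟩) h2 h5.le
      rw [(comp_YE_dx (e1_smooth ast) (ell_sq_lt hq).1).1] at c1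
      rw [(comp_YE_dx (e1_smooth ast) (ell_sq_lt hq).1).2] at c2
      have h6 : α ^ 2 * |q.1| ≤ α := by
        have h7 : (α * |q.1|) ^ 2 ≤ 1 ^ 2 := by
          rw [mul_pow, sq_abs]; linarith
        have h8 := (pow_le_pow_iff_left₀ (by positivity) (by norm_num) two_ne_zero).1 h7
        nlinarith
      have c1' : |WstD α q| ≤ 2 * K * α := by
        refine c1.trans ?_
        nlinarith
      have h10 : 0 ≤ M * K := by positivity
      have h11 : 0 ≤ M * Ce := by positivity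
      have h12 : 0 ≤ M * K * α := by positivity
      have h13 : 0 ≤ M * Ce * α := by positivity
      constructor
      · rw [hFx q hq]
        calc |√κ * deriv f (√κ * q.1) * e1 ast (YE α q) + f (√κ * q.1) * WstD α q|
            ≤ √κ * |deriv f (√κ * q.1)| * |e1 ast (YE α q)| + |f (√κ * q.1)| * |WstD α q| := by
              refine (abs_add_le _ _).trans ?_
              rw [abs_mul, abs_mul, abs_mul, abs_of_pos hs]
          _ ≤ 1 * M * K + M * (2 * K * α) := by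
              gcongr
              · exact (hM _).2
              · exact (hM _).1
          _ ≤ _ := by nlinarith
      · rw [hFy q hq, abs_mul]
        calc |f (√κ * q.1)| * |deriv (e1 ast) (YE α q) / hE α q.1| ≤ M * (2 * K) := by
              gcongr
              exact (hM _).1
          _ ≤ _ := by nlinarith
    · obtain ⟨e1', e2'⟩ := hout q hx
      have h14 : 0 ≤ 10 * M * (K + Ce) * (1 + α) := by positivity
      rw [hFx q hq, hFy q hq, e1', e2']
      simpa using h14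
  · intro q hq hqa
    rw [hFd]
    simp only
    rw [(h0 _ _).1, zero_mul]
    rw [le_div_iff₀ hs] at hqa
    linarith
  -- the identity for the leading part
  have hm : MeasurableSet (Ell α) := (isOpen_ell α).measurableSet
  have hsub : Ell α ∩ {q | √κ * |q.1| ≤ Ξ} ⊆ Ell α := Set.inter_subset_left
  have hmS : MeasurableSet (Ell α ∩ {q : ℝ × ℝ | √κ * |q.1| ≤ Ξ}) := by
    refine hm.inter (measurableSet_le ?_ measurable_const)
    fun_prop
  have hred : ∀ φ : ℝ × ℝ → ℝ, (∀ q ∈ Ell α, ¬ (√κ * |q.1| ≤ Ξ) → φ q = 0) →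
      ∫ q in Ell α, φ q = ∫ q in Ell α ∩ {q | √κ * |q.1| ≤ Ξ}, φ q := by
    intro φ hφ
    refine MeasureTheory.setIntegral_eq_of_subset_of_forall_sdiff_eq_zero hm hsub ?_
    intro q hq
    exact hφ q hq.1 fun h2 => hq.2 ⟨hq.1, h2⟩
  have hfc : Continuous fun x : ℝ => f (√κ * x) ^ 2 :=
    (hf.continuous.comp (continuous_const.mul continuous_id)).pow 2
  have hfz : ∀ x : ℝ, 1 ≤ α ^ 2 * x ^ 2 → f (√κ * x) ^ 2 = 0 := by
    intro x hx
    by_cases hx' : √κ * |x| ≤ Ξ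
    · have := hw _ hx'; linarith
    · rw [(hout (x, 0) hx').1]; norm_num
  have hY1 := ell_Y_int hα hfc (G := fun y => pot1 ast y * e1 ast y ^ 2)
    (cst_smooth.continuous.mul ((e1_smooth ast).continuous.pow 2)) hfz
  have hY2 := ell_Y_int hα hfc (G := fun y => deriv (e1 ast) y ^ 2)
    ((wst_dc (e1_smooth ast)).pow 2) hfz
  rw [cst_energy, ← hY1] at hY2
  rw [hred _ (fun q _ hx => by rw [(hout q hx).1]; ring),
    hred _ (fun q _ hx => by rw [(hout q hx).1]; ring)] at hY2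
  rw [hred _ (fun q _ hx => by rw [hFd]; simp only; rw [(hout q hx).1]; ring),
    hred _ (fun q hq hx => by
      unfold gdot
      rw [hFx q hq, hFy q hq, (hout q hx).1, (hout q hx).2]; ring)] at hstab
  -- continuity
  have c1 := wst_c_Y hw (e1_smooth ast).continuous
  have c2 := wst_c_Y hw (wst_dc (e1_smooth ast))
  have c3 := wst_c_Y hw cst_smooth.continuous
  have c4 : ContinuousOn (fun q : ℝ × ℝ => f (√κ * q.1)) (WstK κ Ξ) :=
    (hf.continuous.comp (continuous_const.mul continuous_fst)).continuousOn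
  have i1 := wst_int (α := α) hκ (wst_c_F hw μ h.cont hf)
  have i2 := wst_int (α := α) hκ (wst_c_G hw hf)
  have i3 := wst_int (α := α) hκ
    (φ := fun q => f (√κ * q.1) ^ 2 * (pot1 ast (YE α q) * e1 ast (YE α q) ^ 2))
    ((c4.pow 2).mul (c3.mul (c1.pow 2)))
  have i4 := wst_int (α := α) hκ
    (φ := fun q => f (√κ * q.1) ^ 2 * deriv (e1 ast) (YE α q) ^ 2) ((c4.pow 2).mul (c2.pow 2))
  have e1' : ∫ q in Ell α ∩ {q | √κ * |q.1| ≤ Ξ}, μ * Real.exp (v q) * F q ^ 2 =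
      κ * (∫ q in Ell α ∩ {q | √κ * |q.1| ≤ Ξ}, WstF α μ κ v f q) +
        ∫ q in Ell α ∩ {q | √κ * |q.1| ≤ Ξ},
          f (√κ * q.1) ^ 2 * (pot1 ast (YE α q) * e1 ast (YE α q) ^ 2) := by
    rw [← MeasureTheory.integral_const_mul, ← MeasureTheory.integral_add (i1.const_mul κ) i3]
    refine MeasureTheory.setIntegral_congr_fun hmS fun q hq => ?_
    simp only [hFd, WstF]
    field_simp
    ring
  have e2' : ∫ q in Ell α ∩ {q | √κ * |q.1| ≤ Ξ}, gdot F F q =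
      κ * (∫ q in Ell α ∩ {q | √κ * |q.1| ≤ Ξ}, WstG α κ f q) +
        ∫ q in Ell α ∩ {q | √κ * |q.1| ≤ Ξ},
          f (√κ * q.1) ^ 2 * deriv (e1 ast) (YE α q) ^ 2 := by
    rw [← MeasureTheory.integral_const_mul, ← MeasureTheory.integral_add (i2.const_mul κ) i4]
    refine MeasureTheory.setIntegral_congr_fun hmS fun q hq => ?_
    simp only [gdot]
    rw [hFx q hq.1, hFy q hq.1]
    simp only [WstG]
    have h2 : √κ ^ 2 = κ := Real.sq_sqrt hκ.le
    have h3 := (hE_pos (ell_sq_lt hq.1).1).1.ne'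
    generalize √κ = s at h2 ⊢
    rw [← h2]
    have h4 : s ≠ 0 := by
      rintro rfl
      rw [← h2] at hκ
      norm_num at hκ
    field_simp
    ring
  rw [e1', e2', hY2] at hstab
  have h5 : κ * (∫ q in Ell α ∩ {q | √κ * |q.1| ≤ Ξ}, WstF α μ κ v f q) ≤
      κ * (∫ q in Ell α ∩ {q | √κ * |q.1| ≤ Ξ}, WstG α κ f q) := by
    linarith
  exact le_of_mul_le_mul_left h5 hκ

/-- uniform closeness on the part of the ellipse in the window -/
private def WstU (α κ : ℕ → ℝ) (Ξ : ℝ) (F H : ℕ → ℝ × ℝ → ℝ) : Prop :=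
  ∀ ε : ℝ, 0 < ε → ∀ᶠ n in atTop, ∀ q ∈ Ell (α n), √(κ n) * |q.1| ≤ Ξ → |F n q - H n q| ≤ ε

section U

variable {α κ : ℕ → ℝ} {Ξ : ℝ} {F F' H H' : ℕ → ℝ × ℝ → ℝ}

private theorem wstU_refl : WstU α κ Ξ F F := fun ε hε =>
  Eventually.of_forall fun n q _ _ => by simpa using hε.le

private theorem wstU_trans {J : ℕ → ℝ × ℝ → ℝ} (h : WstU α κ Ξ F H) (h' : WstU α κ Ξ H J) :
    WstU α κ Ξ F J := by
  intro ε hε
  filter_upwards [h _ (half_pos hε), h' _ (half_pos hε)] with n h1 h2 q hq hx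
  calc |F n q - J n q| ≤ |F n q - H n q| + |H n q - J n q| := abs_sub_le _ _ _
    _ ≤ ε / 2 + ε / 2 := add_le_add (h1 q hq hx) (h2 q hq hx)
    _ = ε := by ring

private theorem wstU_mul {B : ℝ} (hB : 0 ≤ B) (h : WstU α κ Ξ F H) (h' : WstU α κ Ξ F' H')
    (b : ∀ n, ∀ q ∈ Ell (α n), √(κ n) * |q.1| ≤ Ξ → |H n q| ≤ B ∧ |H' n q| ≤ B) :
    WstU α κ Ξ (fun n q => F n q * F' n q) (fun n q => H n q * H' n q) := by
  intro ε hε
  have hd : 0 < min 1 (ε / (2 * B + 1)) := by positivity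
  filter_upwards [h _ hd, h' _ hd] with n h1 h2 q hq hx
  have a1 := h1 q hq hx
  have a2 := h2 q hq hx
  obtain ⟨b1, b2⟩ := b n q hq hx
  set δ := min 1 (ε / (2 * B + 1)) with hδ
  have hδ1 : δ ≤ 1 := min_le_left _ _
  have hδ2 : δ * (2 * B + 1) ≤ ε := by
    have h3 : δ ≤ ε / (2 * B + 1) := min_le_right _ _
    rwa [le_div_iff₀ (by positivity)] at h3
  have e : F n q * F' n q - H n q * H' n q = (F n q - H n q) * (F' n q - H' n q) +
      (F n q - H n q) * H' n q + H n q * (F' n q - H' n q) := by ring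
  rw [e]
  calc |(F n q - H n q) * (F' n q - H' n q) + (F n q - H n q) * H' n q +
        H n q * (F' n q - H' n q)|
      ≤ |F n q - H n q| * |F' n q - H' n q| + |F n q - H n q| * |H' n q| +
        |H n q| * |F' n q - H' n q| := by
        refine (abs_add_three _ _ _).trans ?_
        rw [abs_mul, abs_mul, abs_mul]
    _ ≤ δ * δ + δ * B + B * δ := by gcongr
    _ ≤ ε := by nlinarith

private theorem wstU_comp (hp : Par α κ) {K : ℝ} (hK : 0 ≤ K) {g : ℝ → ℝ}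
    (hg : Differentiable ℝ g) (hd : ∀ y : ℝ, |y| ≤ 2 → |deriv g y| ≤ K) :
    WstU α κ Ξ (fun n q => g (YE (α n) q)) (fun _ q => g q.2) := by
  obtain ⟨-, w1, w2⟩ := hp.win Ξ
  intro ε hε
  have h1 : Tendsto (fun n => K * (2 * (Ξ ^ 2 * κ n ^ 2))) atTop (𝓝 0) := by
    have := (((hp.κ_lim.pow 2).const_mul (Ξ ^ 2)).const_mul 2).const_mul K
    simpa using this
  filter_upwards [w2, h1.eventually_le_const hε] with n h2 h3 q hq hx
  have h4 := h2.2 q.1 hx
  have h5 := w1 n q.1 hx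
  have hlt : α n ^ 2 * q.1 ^ 2 < 1 := by linarith
  have h6 := (ell_iff_Y hlt).1 hq
  have h7 := (ell_sq_lt hq).2
  have h8 := (YE_near hlt).2 h4
  have h9 : |g (YE (α n) q) - g q.2| ≤ K * |YE (α n) q - q.2| := by
    have := Convex.norm_image_sub_le_of_norm_deriv_le (f := g) (C := K) (s := Set.Icc (-2 : ℝ) 2)
      (x := q.2) (y := YE (α n) q) (fun x _ => hg x) (fun x hx => hd x (abs_le.2 hx))
      (convex_Icc _ _) (abs_le.1 (by linarith)) (abs_le.1 (by linarith))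
    exact this
  refine h9.trans (le_trans ?_ h3)
  refine mul_le_mul_of_nonneg_left (h8.trans ?_) hK
  have h10 : 0 ≤ α n ^ 2 * q.1 ^ 2 := by positivity
  calc 2 * α n ^ 2 * q.1 ^ 2 * |q.2| ≤ 2 * α n ^ 2 * q.1 ^ 2 * 1 := by
        apply mul_le_mul_of_nonneg_left h7.le
        nlinarith
    _ ≤ 2 * (Ξ ^ 2 * κ n ^ 2) := by linarith

end U

private theorem wst_P {α μ κ B K : ℝ} {v : ℝ × ℝ → ℝ} {q : ℝ × ℝ} (hκ : 0 < κ)
    (hq : q ∈ Ell α) (hu : |uY α κ v q| ≤ B) (hB : κ * B ≤ 1) (hμ : |μ - mu1 ast| ≤ κ ^ 2)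
    (hQ : |pot1 ast (YE α q)| ≤ K) :
    |(μ * Real.exp (v q) - pot1 ast (YE α q)) / κ - pot1 ast (YE α q) * uY α κ v q| ≤
      K * (3 / mu1 ast + B ^ 2) * κ := by
  have hm := mu1_pos ast_pos
  have hB0 : 0 ≤ B := (abs_nonneg _).trans hu
  have hK0 : 0 ≤ K := (abs_nonneg _).trans hQ
  have hv : v q = V1 ast (YE α q) + κ * uY α κ v q := by
    unfold uY
    rw [if_pos hq]
    field_simp
    ring
  have he : Real.exp (v q) = pot1 ast (YE α q) / mu1 ast * Real.exp (κ * uY α κ v q) := by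
    rw [hv, Real.exp_add, cst_exp]
  rw [he]
  set u := uY α κ v q with hu_def
  set Q := pot1 ast (YE α q) with hQ_def
  have hx : |κ * u| ≤ 1 := by
    rw [abs_mul, abs_of_pos hκ]
    exact (mul_le_mul_of_nonneg_left hu hκ.le).trans hB
  have h1 := Real.abs_exp_sub_one_sub_id_le hx
  have h2 : Real.exp (κ * u) ≤ 3 := by
    have h3 : Real.exp (κ * u) ≤ Real.exp 1 := Real.exp_le_exp.2 ((le_abs_self _).trans hx)
    have := Real.exp_one_lt_d9
    linarith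
  have e : (μ * (Q / mu1 ast * Real.exp (κ * u)) - Q) / κ - Q * u =
      Q * ((μ - mu1 ast) / (mu1 ast * κ) * Real.exp (κ * u) +
        (Real.exp (κ * u) - 1 - κ * u) / κ) := by
    field_simp
    ring
  rw [e, abs_mul]
  have h4 : |(μ - mu1 ast) / (mu1 ast * κ) * Real.exp (κ * u) +
        (Real.exp (κ * u) - 1 - κ * u) / κ| ≤ κ ^ 2 / (mu1 ast * κ) * 3 + (κ * B) ^ 2 / κ := by
    refine (abs_add_le _ _).trans ?_
    rw [abs_mul, abs_div, abs_div, abs_of_pos (mul_pos hm hκ), abs_of_pos (Real.exp_pos _),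
      abs_of_pos hκ]
    have h5 : |Real.exp (κ * u) - 1 - κ * u| ≤ (κ * B) ^ 2 := by
      refine h1.trans ?_
      rw [mul_pow, mul_pow]
      have : u ^ 2 ≤ B ^ 2 := by
        rw [← sq_abs u]
        exact pow_le_pow_left₀ (abs_nonneg _) hu 2
      exact mul_le_mul_of_nonneg_left this (sq_nonneg _)
    gcongr
  calc |Q| * |(μ - mu1 ast) / (mu1 ast * κ) * Real.exp (κ * u) +
        (Real.exp (κ * u) - 1 - κ * u) / κ|
      ≤ K * (κ ^ 2 / (mu1 ast * κ) * 3 + (κ * B) ^ 2 / κ) :=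
        mul_le_mul hQ h4 (abs_nonneg _) hK0
    _ = K * (3 / mu1 ast + B ^ 2) * κ := by
        field_simp

private theorem wst_R {α κ M K Ξ f f' : ℝ} {q : ℝ × ℝ} (hκ : 0 < κ) (hκ1 : κ ≤ 1)
    (hΞ : 1 ≤ Ξ) (hα : α ^ 2 ≤ κ ^ 3) (hK : 0 ≤ K) (hM : 0 ≤ M) (hf : |f| ≤ M) (hf' : |f'| ≤ M)
    (hx : √κ * |q.1| ≤ Ξ) (h16 : α ^ 2 * q.1 ^ 2 ≤ 1 / 16)
    (hb : |e1 ast (YE α q)| ≤ K) (hb' : |deriv (e1 ast) (YE α q)| ≤ K)
    (hD : |WstD α q| ≤ 2 * K * α ^ 2 * |q.1|) :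
    |(2 * √κ * f * f' * e1 ast (YE α q) * WstD α q + f ^ 2 * WstD α q ^ 2 +
      f ^ 2 * deriv (e1 ast) (YE α q) ^ 2 * (1 / hE α q.1 ^ 2 - 1)) / κ| ≤
      10 * (M ^ 2 * K ^ 2 * Ξ ^ 2) * κ := by
  have hs := Real.sqrt_pos.2 hκ
  have hs2 : √κ ^ 2 = κ := Real.sq_sqrt hκ.le
  obtain ⟨g1, g2, g3⟩ := hE_inv h16
  set s := √κ
  set D := WstD α q
  set E := e1 ast (YE α q)
  set E' := deriv (e1 ast) (YE α q)
  set t := α ^ 2 * q.1 ^ 2 with ht
  have ht0 : 0 ≤ t := by positivity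
  have hα0 : 0 ≤ α ^ 2 := sq_nonneg α
  -- s |D| ≤ 2 K Ξ κ^3
  have b1 : s * |D| ≤ 2 * K * Ξ * κ ^ 3 := by
    calc s * |D| ≤ s * (2 * K * α ^ 2 * |q.1|) := mul_le_mul_of_nonneg_left hD hs.le
      _ = 2 * K * α ^ 2 * (s * |q.1|) := by ring
      _ ≤ 2 * K * κ ^ 3 * Ξ := by
          apply mul_le_mul _ hx (by positivity) (by positivity)
          exact mul_le_mul_of_nonneg_left hα (by positivity)
      _ = 2 * K * Ξ * κ ^ 3 := by ring
  have b2 : D ^ 2 * κ ≤ 4 * K ^ 2 * Ξ ^ 2 * κ ^ 6 := by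
    have h1 : (s * |D|) ^ 2 ≤ (2 * K * Ξ * κ ^ 3) ^ 2 :=
      pow_le_pow_left₀ (by positivity) b1 2
    rw [mul_pow, sq_abs, hs2] at h1
    linarith
  have b2' : D ^ 2 ≤ 4 * K ^ 2 * Ξ ^ 2 * κ ^ 5 := by
    have h1 : D ^ 2 * κ ≤ 4 * K ^ 2 * Ξ ^ 2 * κ ^ 5 * κ := by
      calc _ ≤ _ := b2
        _ = _ := by ring
    exact le_of_mul_le_mul_right h1 hκ
  have b3 : t ≤ Ξ ^ 2 * κ ^ 2 := by
    have h1 : κ * t ≤ κ * (Ξ ^ 2 * κ ^ 2) := by
      calc κ * t = α ^ 2 * (s * |q.1|) ^ 2 := by rw [mul_pow, sq_abs, hs2, ht]; ring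
        _ ≤ κ ^ 3 * Ξ ^ 2 := by
            apply mul_le_mul hα (pow_le_pow_left₀ (by positivity) hx 2) (by positivity)
              (by positivity)
        _ = κ * (Ξ ^ 2 * κ ^ 2) := by ring
    exact le_of_mul_le_mul_left h1 hκ
  have b4 : |1 / hE α q.1 ^ 2 - 1| ≤ 2 * (Ξ ^ 2 * κ ^ 2) := by
    rw [abs_le]
    constructor
    · nlinarith [mul_nonneg (sq_nonneg Ξ) (sq_nonneg κ)]
    · nlinarith
  have hf2 : f ^ 2 ≤ M ^ 2 := by
    rw [← sq_abs f]; exact pow_le_pow_left₀ (abs_nonneg _) hf 2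
  have hE2 : E' ^ 2 ≤ K ^ 2 := by
    rw [← sq_abs E']; exact pow_le_pow_left₀ (abs_nonneg _) hb' 2
  rw [abs_div, abs_of_pos hκ, div_le_iff₀ hκ]
  have k5 : κ ^ 5 ≤ κ ^ 2 := pow_le_pow_of_le_one hκ.le hκ1 (by norm_num)
  have k3 : κ ^ 3 ≤ κ ^ 2 := pow_le_pow_of_le_one hκ.le hκ1 (by norm_num)
  have kΞ : Ξ ≤ Ξ ^ 2 := by nlinarith
  have c1 : |2 * s * f * f' * E * D| ≤ 4 * (M ^ 2 * K ^ 2 * Ξ ^ 2) * κ ^ 2 := by
    calc |2 * s * f * f' * E * D| = 2 * (|f| * |f'| * |E|) * (s * |D|) := by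
          rw [abs_mul, abs_mul, abs_mul, abs_mul, abs_mul, abs_of_pos hs,
            abs_of_pos (by norm_num : (0 : ℝ) < 2)]
          ring
      _ ≤ 2 * (M * M * K) * (2 * K * Ξ * κ ^ 3) := by gcongr
      _ = 4 * (M ^ 2 * K ^ 2) * (Ξ * κ ^ 3) := by ring
      _ ≤ 4 * (M ^ 2 * K ^ 2) * (Ξ ^ 2 * κ ^ 2) := by gcongr
      _ = _ := by ring
  have c2 : |f ^ 2 * D ^ 2| ≤ 4 * (M ^ 2 * K ^ 2 * Ξ ^ 2) * κ ^ 2 := by
    rw [abs_of_nonneg (by positivity)]
    calc f ^ 2 * D ^ 2 ≤ M ^ 2 * (4 * K ^ 2 * Ξ ^ 2 * κ ^ 5) := by gcongr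
      _ ≤ M ^ 2 * (4 * K ^ 2 * Ξ ^ 2 * κ ^ 2) := by gcongr
      _ = _ := by ring
  have c3 : |f ^ 2 * E' ^ 2 * (1 / hE α q.1 ^ 2 - 1)| ≤ 2 * (M ^ 2 * K ^ 2 * Ξ ^ 2) * κ ^ 2 := by
    rw [abs_mul, abs_of_nonneg (by positivity : 0 ≤ f ^ 2 * E' ^ 2)]
    calc f ^ 2 * E' ^ 2 * |1 / hE α q.1 ^ 2 - 1| ≤ M ^ 2 * K ^ 2 * (2 * (Ξ ^ 2 * κ ^ 2)) := by
          gcongr
      _ = _ := by ring
  refine (abs_add_three _ _ _).trans ?_
  calc _ ≤ 4 * (M ^ 2 * K ^ 2 * Ξ ^ 2) * κ ^ 2 + 4 * (M ^ 2 * K ^ 2 * Ξ ^ 2) * κ ^ 2 +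
        2 * (M ^ 2 * K ^ 2 * Ξ ^ 2) * κ ^ 2 := add_le_add (add_le_add c1 c2) c3
    _ = 10 * (M ^ 2 * K ^ 2 * Ξ ^ 2) * κ * κ := by ring

private theorem wst_supp {f : ℝ → ℝ} (hf : ContDiff ℝ ∞ f) (hc : HasCompactSupport f)
    (h0 : tsupport f ⊆ Set.Ioi 0) :
    ∃ a Ξ M : ℝ, 0 < a ∧ 1 ≤ Ξ ∧ (∀ ξ, |f ξ| ≤ M ∧ |deriv f ξ| ≤ M) ∧
      (∀ ξ, ξ ≤ a → f ξ = 0 ∧ deriv f ξ = 0) ∧ (∀ ξ, Ξ < ξ → f ξ = 0 ∧ deriv f ξ = 0) := by
  have hK : IsCompact (tsupport f) := hc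
  have hz : ∀ ξ, ξ ∉ tsupport f → f ξ = 0 ∧ deriv f ξ = 0 := by
    intro ξ hξ
    refine ⟨image_eq_zero_of_notMem_tsupport hξ, ?_⟩
    by_contra h
    exact hξ (support_deriv_subset h)
  obtain ⟨a, ha, ha'⟩ : ∃ a, 0 < a ∧ ∀ ξ ∈ tsupport f, a < ξ := by
    rcases (tsupport f).eq_empty_or_nonempty with h | h
    · exact ⟨1, one_pos, by simp [h]⟩
    · obtain ⟨m, hm, hmin⟩ := hK.exists_isMinOn h continuousOn_id
      have h2 : 0 < m := h0 hm
      refine ⟨m / 2, half_pos h2, fun ξ hξ => ?_⟩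
      have h1 : m ≤ ξ := hmin hξ
      linarith
  obtain ⟨R, hR⟩ := hK.isBounded.subset_closedBall 0
  obtain ⟨M1, hM1⟩ := hc.exists_bound_of_continuous hf.continuous
  have hc' : HasCompactSupport (deriv f) := hc.deriv
  obtain ⟨M2, hM2⟩ := hc'.exists_bound_of_continuous (wst_dc hf)
  refine ⟨a, max 1 R, max M1 M2, ha, le_max_left _ _, fun ξ => ⟨?_, ?_⟩, fun ξ hξ => ?_,
    fun ξ hξ => ?_⟩
  · exact (hM1 ξ).trans (le_max_left _ _)
  · exact (hM2 ξ).trans (le_max_right _ _)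
  · exact hz ξ fun h => absurd (ha' ξ h) (not_lt.2 hξ)
  · refine hz ξ fun h => ?_
    have h1 := hR h
    rw [Metric.mem_closedBall, Real.dist_eq, sub_zero] at h1
    have h2 := (le_abs_self ξ).trans h1
    have h3 := le_max_right 1 R
    linarith

theorem fold_stable {α μ κ : ℕ → ℝ} {v : ℕ → ℝ × ℝ → ℝ} {W : ℝ → ℝ} (h : Fold α μ κ v)
    (hWc : Continuous W) (hW : ScalLim κ (fun n => uY (α n) (κ n) (v n)) W) :
    ∀ f : ℝ → ℝ, ContDiff ℝ ∞ f → HasCompactSupport f → tsupport f ⊆ Set.Ioi 0 →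
      cQ3 * ∫ ξ, W ξ * f ξ ^ 2 ≤ cE * ∫ ξ, deriv f ξ ^ 2 := by
  intro f hf hc hpos
  obtain ⟨a, Ξ, M, ha, hΞ, hM, h0, h1⟩ := wst_supp hf hc hpos
  obtain ⟨K, hK, hKb⟩ := cst_bd
  have hΞ0 : 0 < Ξ := by linarith
  have hM0 : 0 ≤ M := (abs_nonneg _).trans (hM 0).1
  have hp := h.par
  obtain ⟨-, w1, w2⟩ := hp.win Ξ
  have he : Continuous (e1 ast) := (e1_smooth ast).continuous
  have hq : Continuous (pot1 ast) := cst_smooth.continuous
  have hfc : Continuous f := hf.continuous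
  have hdc : Continuous (deriv f) := wst_dc hf
  obtain ⟨BW, hBW⟩ := (isCompact_Icc (a := -Ξ) (b := Ξ)).exists_bound_of_continuousOn
    hWc.continuousOn
  have hBW0 : 0 ≤ BW := (norm_nonneg _).trans (hBW 0 ⟨by linarith, by linarith⟩)
  have hwin : ∀ n (q : ℝ × ℝ), √(κ n) * |q.1| ≤ Ξ → |W (√(κ n) * q.1)| ≤ BW := by
    intro n q hx
    refine hBW _ (abs_le.1 ?_)
    rw [abs_mul, abs_of_nonneg (Real.sqrt_nonneg _)]
    exact hx
  set B := BW * K + 1 with hB_def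
  have hB1 : 1 ≤ B := by
    rw [hB_def]; nlinarith [mul_nonneg hBW0 hK.le]
  have hU : WstU α κ Ξ (fun n => uY (α n) (κ n) (v n))
      (fun n q => W (√(κ n) * q.1) * e1 ast q.2) := by
    intro ε hε
    filter_upwards [hW Ξ ε hΞ0 hε] with n h2 q hq hx
    exact h2 q ⟨hx, (ell_sq_lt hq).2.le⟩
  have hWe : ∀ n, ∀ q ∈ Ell (α n), √(κ n) * |q.1| ≤ Ξ →
      |W (√(κ n) * q.1) * e1 ast q.2| ≤ BW * K := by
    intro n q hq hx
    rw [abs_mul]
    have h2 := (hKb q.2 (by linarith [(ell_sq_lt hq).2])).1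
    exact mul_le_mul (hwin n q hx) h2 (abs_nonneg _) hBW0
  have hUb : ∀ᶠ n in atTop, ∀ q ∈ Ell (α n), √(κ n) * |q.1| ≤ Ξ →
      |uY (α n) (κ n) (v n) q| ≤ B := by
    filter_upwards [hU 1 one_pos] with n h2 q hq hx
    have h3 := h2 q hq hx
    have h4 := hWe n q hq hx
    calc |uY (α n) (κ n) (v n) q| ≤ |uY (α n) (κ n) (v n) q - W (√(κ n) * q.1) * e1 ast q.2| +
          |W (√(κ n) * q.1) * e1 ast q.2| := by
          have := abs_add_le (uY (α n) (κ n) (v n) q - W (√(κ n) * q.1) * e1 ast q.2)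
            (W (√(κ n) * q.1) * e1 ast q.2)
          rwa [sub_add_cancel] at this
      _ ≤ B := by rw [hB_def]; linarith
  have hbK : ∀ n, ∀ q ∈ Ell (α n), √(κ n) * |q.1| ≤ Ξ →
      |e1 ast q.2| ≤ K ∧ |pot1 ast q.2| ≤ K := by
    intro n q hq _
    have h2 := hKb q.2 (by linarith [(ell_sq_lt hq).2])
    exact ⟨h2.1, h2.2.2.2.2.2.2.1⟩
  have hUe := wstU_comp (Ξ := Ξ) hp hK.le ((e1_smooth ast).differentiable (by simp))
    (fun y hy => (hKb y hy).2.1)
  have hUq := wstU_comp (Ξ := Ξ) hp hK.le (cst_smooth.differentiable (by simp))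
    (fun y hy => (hKb y hy).2.2.2.2.2.2.2)
  have hUP : WstU α κ Ξ
      (fun n q => (μ n * Real.exp (v n q) - pot1 ast (YE (α n) q)) / κ n)
      (fun n q => pot1 ast (YE (α n) q) * uY (α n) (κ n) (v n) q) := by
    intro ε hε
    have t1 : Tendsto (fun n => K * (3 / mu1 ast + B ^ 2) * κ n) atTop (𝓝 0) := by
      simpa using hp.κ_lim.const_mul (K * (3 / mu1 ast + B ^ 2))
    have t2 : Tendsto (fun n => κ n * B) atTop (𝓝 0) := by
      simpa using hp.κ_lim.mul_const B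
    filter_upwards [hUb, t1.eventually_le_const hε, t2.eventually_le_const one_pos, w2] with
      n h2 h3 h4 h5 q hq hx
    have h6 := h5.2 q.1 hx
    have h7 := (ell_iff_Y (by linarith : α n ^ 2 * q.1 ^ 2 < 1)).1 hq
    exact (wst_P (hp.κ_pos n) hq (h2 q hq hx) h4 (h.hμ n)
      ((hKb _ (by linarith)).2.2.2.2.2.2.1)).trans h3
  have hUF : WstU α κ Ξ (fun n => WstF (α n) (μ n) (κ n) (v n) f)
      (fun n q => f (√(κ n) * q.1) ^ 2 *
        (e1 ast q.2 ^ 2 * (pot1 ast q.2 * (W (√(κ n) * q.1) * e1 ast q.2)))) := by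
    have u1 := wstU_mul (B := K + BW * K) (by positivity) hUq hU fun n q hq hx =>
      ⟨by have := (hbK n q hq hx).2; nlinarith [mul_nonneg hBW0 hK.le],
        by have := hWe n q hq hx; linarith⟩
    have u2 := wstU_trans hUP u1
    have u3 := wstU_mul hK.le hUe hUe fun n q hq hx => ⟨(hbK n q hq hx).1, (hbK n q hq hx).1⟩
    have u4 := wstU_mul (B := K * K + K * (BW * K)) (by positivity) u3 u2 fun n q hq hx => by
      have a1 := (hbK n q hq hx).1
      have a2 := (hbK n q hq hx).2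
      have a3 := hWe n q hq hx
      have a4 : 0 ≤ K * (BW * K) := by positivity
      have a5 : 0 ≤ K * K := by positivity
      constructor
      · rw [abs_mul]
        have := mul_le_mul a1 a1 (abs_nonneg _) hK.le
        linarith
      · rw [abs_mul]
        have := mul_le_mul a2 a3 (abs_nonneg _) hK.le
        linarith
    have u5 := wstU_mul (F := fun n q => f (√(κ n) * q.1) ^ 2)
      (H := fun n q => f (√(κ n) * q.1) ^ 2) (B := M ^ 2 + K * K * (K * (BW * K)))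
      (by positivity) wstU_refl u4 fun n q hq hx => by
      have a1 := (hbK n q hq hx).1
      have a2 := (hbK n q hq hx).2
      have a3 := hWe n q hq hx
      have a4 : 0 ≤ K * K * (K * (BW * K)) := by positivity
      have a5 := (hM (√(κ n) * q.1)).1
      constructor
      · rw [abs_pow]
        have := pow_le_pow_left₀ (abs_nonneg _) a5 2
        linarith
      · rw [abs_mul, abs_mul, abs_mul (pot1 ast q.2)]
        have b1 := mul_le_mul a1 a1 (abs_nonneg _) hK.le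
        have b2 := mul_le_mul a2 a3 (abs_nonneg _) hK.le
        have b3 := mul_le_mul b1 b2 (by positivity) (by positivity)
        nlinarith [sq_nonneg M]
    intro ε hε
    filter_upwards [u5 ε hε] with n h2 q hq hx
    have h3 := h2 q hq hx
    simp only [WstF]
    convert h3 using 3 <;> ring
  have hUG : WstU α κ Ξ (fun n => WstG (α n) (κ n) f)
      (fun n q => deriv f (√(κ n) * q.1) ^ 2 * e1 ast q.2 ^ 2) := by
    have u3 := wstU_mul hK.le hUe hUe fun n q hq hx => ⟨(hbK n q hq hx).1, (hbK n q hq hx).1⟩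
    have u4 := wstU_mul (F := fun n q => deriv f (√(κ n) * q.1) ^ 2)
      (H := fun n q => deriv f (√(κ n) * q.1) ^ 2) (B := M ^ 2 + K * K)
      (by positivity) wstU_refl u3 fun n q hq hx => by
      have a1 := (hbK n q hq hx).1
      have a5 := (hM (√(κ n) * q.1)).2
      constructor
      · rw [abs_pow]
        have := pow_le_pow_left₀ (abs_nonneg _) a5 2
        have a6 : 0 ≤ K * K := by positivity
        linarith
      · rw [abs_mul]
        have b1 := mul_le_mul a1 a1 (abs_nonneg _) hK.le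
        nlinarith [sq_nonneg M]
    intro ε hε
    have t1 : Tendsto (fun n => 10 * (M ^ 2 * K ^ 2 * Ξ ^ 2) * κ n) atTop (𝓝 0) := by
      simpa using hp.κ_lim.const_mul (10 * (M ^ 2 * K ^ 2 * Ξ ^ 2))
    filter_upwards [u4 _ (half_pos hε), t1.eventually_le_const (half_pos hε), w2] with
      n h2 h3 h5 q hq hx
    have h6 := h5.2 q.1 hx
    have h7 := (ell_iff_Y (by linarith : α n ^ 2 * q.1 ^ 2 < 1)).1 hq
    have h8 := hKb (YE (α n) q) (by linarith)
    have h9 := (comp_YE_bd (M := K) (e1_smooth ast)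
      (fun y hy => ⟨(hKb y (by linarith)).2.1, (hKb y (by linarith)).2.2.1⟩) h6 h7.le).2.1
    rw [(comp_YE_dx (e1_smooth ast) (ell_sq_lt hq).1).1] at h9
    have h10 := wst_R (hp.κ_pos n) h5.1 hΞ (hp.hα n) hK.le hM0 (hM (√(κ n) * q.1)).1
      (hM (√(κ n) * q.1)).2 hx h6 h8.1 h8.2.1 h9
    have h11 := h2 q hq hx
    have e : WstG (α n) (κ n) f q - deriv f (√(κ n) * q.1) ^ 2 * e1 ast q.2 ^ 2 =
        (deriv f (√(κ n) * q.1) ^ 2 * (e1 ast (YE (α n) q) * e1 ast (YE (α n) q)) -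
          deriv f (√(κ n) * q.1) ^ 2 * (e1 ast q.2 * e1 ast q.2)) +
        (2 * √(κ n) * f (√(κ n) * q.1) * deriv f (√(κ n) * q.1) * e1 ast (YE (α n) q) *
            WstD (α n) q + f (√(κ n) * q.1) ^ 2 * WstD (α n) q ^ 2 +
          f (√(κ n) * q.1) ^ 2 * deriv (e1 ast) (YE (α n) q) ^ 2 *
            (1 / hE (α n) q.1 ^ 2 - 1)) / κ n := by
      unfold WstG
      ring
    rw [e]
    refine (abs_add_le _ _).trans ?_
    linarith
  have c1 : ∀ᶠ n in atTop, ContinuousOn (WstF (α n) (μ n) (κ n) (v n) f)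
      (Ell (α n) ∩ {q | √(κ n) * |q.1| ≤ Ξ}) := by
    filter_upwards [w2] with n h2
    exact (wst_c_F h2.2 (μ n) (h.sol n).cont hf).mono fun q hq => ⟨hq.2, (ell_sq_lt hq.1).2.le⟩
  have c2 : ∀ᶠ n in atTop, ContinuousOn (WstG (α n) (κ n) f)
      (Ell (α n) ∩ {q | √(κ n) * |q.1| ≤ Ξ}) := by
    filter_upwards [w2] with n h2
    exact (wst_c_G h2.2 hf).mono fun q hq => ⟨hq.2, (ell_sq_lt hq.1).2.le⟩
  have T1 := scal_int hp hΞ0 (F := fun n => WstF (α n) (μ n) (κ n) (v n) f)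
    (H := fun ξ y => f ξ ^ 2 * (e1 ast y ^ 2 * (pot1 ast y * (W ξ * e1 ast y))))
    (by
      show Continuous fun p : ℝ × ℝ => f p.1 ^ 2 *
        (e1 ast p.2 ^ 2 * (pot1 ast p.2 * (W p.1 * e1 ast p.2)))
      fun_prop) c1 hUF
  have T2 := scal_int hp hΞ0 (F := fun n => WstG (α n) (κ n) f)
    (H := fun ξ y => deriv f ξ ^ 2 * e1 ast y ^ 2)
    (by
      show Continuous fun p : ℝ × ℝ => deriv f p.1 ^ 2 * e1 ast p.2 ^ 2
      fun_prop) c2 hUG
  have hle := le_of_tendsto_of_tendsto T1 T2 (by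
    filter_upwards [w2] with n h2
    exact mul_le_mul_of_nonneg_left
      (wst_level (hp.α_pos n) (hp.κ_pos n) h2.1 (h.sol n) hf ha hM h0 h1 h2.2)
      (Real.sqrt_nonneg _))
  have i1 : ∀ ξ, ∫ y in (-1 : ℝ)..1, f ξ ^ 2 * (e1 ast y ^ 2 * (pot1 ast y * (W ξ * e1 ast y))) =
      cQ3 * (W ξ * f ξ ^ 2) := by
    intro ξ
    unfold cQ3
    rw [mul_comm (∫ y in (-1 : ℝ)..1, _), ← intervalIntegral.integral_const_mul]
    refine intervalIntegral.integral_congr fun y _ => ?_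
    ring
  have i2 : ∀ ξ, ∫ y in (-1 : ℝ)..1, deriv f ξ ^ 2 * e1 ast y ^ 2 = cE * deriv f ξ ^ 2 := by
    intro ξ
    unfold cE
    rw [mul_comm (∫ y in (-1 : ℝ)..1, _), ← intervalIntegral.integral_const_mul]
  simp only [i1, i2] at hle
  rw [intervalIntegral.integral_const_mul, intervalIntegral.integral_const_mul,
    intervalIntegral.integral_eq_integral_of_support_subset,
    intervalIntegral.integral_eq_integral_of_support_subset] at hle
  · exact hle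
  · intro ξ hξ
    rw [Function.mem_support] at hξ
    constructor
    · by_contra h2
      exact hξ (by rw [(h0 ξ (by linarith)).2]; norm_num)
    · by_contra h2
      exact hξ (by rw [(h1 ξ (not_le.1 h2)).2]; norm_num)
  · intro ξ hξ
    rw [Function.mem_support] at hξ
    constructor
    · by_contra h2
      exact hξ (by rw [(h0 ξ (by linarith)).1]; norm_num)
    · by_contra h2
      exact hξ (by rw [(h1 ξ (not_le.1 h2)).1]; norm_num)

end Pool.Agent.MFE
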