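import Pool.Agent.MFE.FLDScc
import Pool.Agent.MFE.FLDVsl
import Pool.Agent.MFE.FLDWst

/-!
# MFE.FLDVlm: the limit of `(v - V(Y))/κ` (regime C)

`(mu1 ast - μ)/κ² ∈ [-1,1]`, `α²/κ³ ∈ (0,1]`: take a subsequence along which both converge, to
`s₀`, `ρ₀ ≥ 0`; `fold_slow`, `slow_subseq`: a further subsequence with `uY → W e` on windows, `W`
continuous. `fold_G`, `slow_ode` with
`G(ξ,y) = s₀ e^{V(y)} + ρ₀ ξ² q(y) - q(y) W(ξ)² e(y)²/2`: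
`cE W'' = s₀ cV + ρ₀ cQ1 ξ² - cQ3 W²/2`. Even: `v (-x,y) = v (x,y)` (`GSol.evx`), so
`uY(-x, 0) = uY(x, 0)` and `W(-ξ) = W(ξ)` (`e1 ast 0 = 1`, limits at the points `(±ξ/√κ, 0)`).
Antitone: `uY(x,0) = (v(x,0) - V(0))/κ` (`Y = 0`; for large `n` the points are in the ellipse) and
`GSol.anti_x`. Growth: `fold_bd` at `|ξ| ≤ Ξ`, `ρ ≤ 1`: `-A(1+Ξ) ≤ W(ξ) ≤ 2` for `|ξ| ≤ Ξ`, `Ξ ≥ 1`; take
`Ξ = max(1,|ξ|)`. Stable: `fold_stable` divided by `cE`. `ne`: if `W 0 = 0`, `ρ₀ = 0`, `s₀ = 0`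
(`cV, cQ1, cE > 0`): then for large `n` (in the subsequence) `|uY(0,y)| < 1/4` for `|y| ≤ 1`
(`ScalLim`, `|e| ≤ 1`), so `|v(0,y) - V(y)| < κ/2` (`fold_uy`), `α² < κ³`, `|μ - mu1 ast| < κ²`:
contradiction to the normalisation `hn`.
-/

open Filter Topology
open scoped ContDiff

namespace Pool.Agent.MFE

private theorem FLDVlm_e0 : e1 ast 0 = 1 := by
  simp [e1]

private theorem FLDVlm_pt {κ : ℕ → ℝ} {f : ℕ → ℝ × ℝ → ℝ} {W : ℝ → ℝ} (hκ : ∀ n, 0 < κ n)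
    (hW : ScalLim κ f W) (ξ : ℝ) :
    Tendsto (fun n => f n (ξ / √(κ n), 0)) atTop (𝓝 (W ξ)) := by
  rw [Metric.tendsto_atTop]
  intro ε hε
  have h1 := hW (|ξ| + 1) (ε / 2) (by positivity) (by positivity)
  obtain ⟨N, hN⟩ := Filter.eventually_atTop.1 h1
  refine ⟨N, fun n hn => ?_⟩
  have hs : 0 < √(κ n) := Real.sqrt_pos.2 (hκ n)
  have h2 : √(κ n) * (ξ / √(κ n)) = ξ := by field_simp
  have h3 := hN n hn (ξ / √(κ n), 0) ⟨by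
    show √(κ n) * |ξ / √(κ n)| ≤ |ξ| + 1
    rw [← abs_of_pos hs, ← abs_mul, abs_of_pos hs, h2]
    linarith, by simp⟩
  simp only [h2, FLDVlm_e0, mul_one] at h3
  rw [Real.dist_eq]
  linarith

private theorem FLDVlm_in {α κ : ℕ → ℝ} (hp : Par α κ) (ξ : ℝ) :
    ∀ᶠ n in atTop, (ξ / √(κ n), (0 : ℝ)) ∈ Ell (α n) := by
  obtain ⟨-, -, h3⟩ := hp.win |ξ|
  filter_upwards [h3] with n hn
  have hs : 0 < √(κ n) := Real.sqrt_pos.2 (hp.κ_pos n)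
  have h2 : √(κ n) * |ξ / √(κ n)| = |ξ| := by
    rw [← abs_of_pos hs, ← abs_mul, abs_of_pos hs]
    congr 1
    field_simp
  have h4 := hn.2 (ξ / √(κ n)) h2.le
  show α n ^ 2 * (ξ / √(κ n)) ^ 2 + (0 : ℝ) ^ 2 < 1
  linarith

private theorem FLDVlm_val {α κ : ℝ} {v : ℝ × ℝ → ℝ} {x : ℝ} (h : (x, (0 : ℝ)) ∈ Ell α) :
    uY α κ v (x, 0) = (v (x, 0) - V1 ast 0) / κ := by
  unfold uY
  rw [if_pos h]
  simp [YE]

theorem fold_lim {α μ κ : ℕ → ℝ} {v : ℕ → ℝ × ℝ → ℝ} (h : Fold α μ κ v)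
    (hn : ∀ n, (∃ y : ℝ, |y| ≤ 1 ∧ |v n (0, y) - V1 ast y| = κ n) ∨ α n ^ 2 = κ n ^ 3 ∨
      |μ n - mu1 ast| = κ n ^ 2) :
    ∃ (ψ : ℕ → ℕ) (W : ℝ → ℝ) (s₀ ρ₀ : ℝ), StrictMono ψ ∧
      ScalLim (fun n => κ (ψ n)) (fun n => uY (α (ψ n)) (κ (ψ n)) (v (ψ n))) W ∧
      Tendsto (fun n => (mu1 ast - μ (ψ n)) / κ (ψ n) ^ 2) atTop (𝓝 s₀) ∧
      Tendsto (fun n => α (ψ n) ^ 2 / κ (ψ n) ^ 3) atTop (𝓝 ρ₀) ∧
      WLim (cQ3 / (2 * cE)) (s₀ * cV / cE) (ρ₀ * cQ1 / cE) W := by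
  have hκ := h.par.κ_pos
  -- the parameters
  obtain ⟨s₀, -, ψ₁, hψ₁, hs₁⟩ := isCompact_Icc.tendsto_subseq
    (x := fun n => (mu1 ast - μ n) / κ n ^ 2) (s := Set.Icc (-1 : ℝ) 1) (fun n => by
      have h1 := h.hμ n
      have h2 : 0 < κ n ^ 2 := pow_pos (hκ n) 2
      rw [abs_sub_comm, abs_le] at h1
      constructor
      · rw [le_div_iff₀ h2]
        linarith
      · rw [div_le_iff₀ h2]
        linarith)
  obtain ⟨ρ₀, hρ₀, ψ₂, hψ₂, hρ₁⟩ := isCompact_Icc.tendsto_subseq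
    (x := fun n => α (ψ₁ n) ^ 2 / κ (ψ₁ n) ^ 3) (s := Set.Icc (0 : ℝ) 1) (fun n => by
      have h1 := h.par.hα (ψ₁ n)
      have h2 : 0 < κ (ψ₁ n) ^ 3 := pow_pos (hκ _) 3
      constructor
      · positivity
      · rw [div_le_iff₀ h2]
        linarith)
  have h12 := (h.sub hψ₁).sub hψ₂
  obtain ⟨ψ₃, W, hψ₃, hWc, hW⟩ := slow_subseq h12.par (fold_slow h12)
  have h3 := h12.sub hψ₃
  have hs₃ : Tendsto (fun n => (mu1 ast - μ (ψ₁ (ψ₂ (ψ₃ n)))) / κ (ψ₁ (ψ₂ (ψ₃ n))) ^ 2) atTop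
      (𝓝 s₀) := hs₁.comp ((hψ₂.tendsto_atTop).comp hψ₃.tendsto_atTop)
  have hρ₃ : Tendsto (fun n => α (ψ₁ (ψ₂ (ψ₃ n))) ^ 2 / κ (ψ₁ (ψ₂ (ψ₃ n))) ^ 3) atTop
      (𝓝 ρ₀) := hρ₁.comp hψ₃.tendsto_atTop
  refine ⟨fun n => ψ₁ (ψ₂ (ψ₃ n)), W, s₀, ρ₀, hψ₁.comp (hψ₂.comp hψ₃), hW, hs₃, hρ₃, ?_⟩
  have hκ3 := h3.par.κ_pos
  have hslow := fold_slow h3
  have hqc : Continuous (pot1 ast) := cst_smooth.continuous
  have hec : Continuous (e1 ast) := (e1_smooth ast).continuous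
  have hVc : Continuous (V1 ast) := (V1_smooth ast).continuous
  -- the equation
  obtain ⟨hsm, hode⟩ := slow_ode h3.par hslow hWc hW
    (G := fun ξ y => s₀ * Real.exp (V1 ast y) + ρ₀ * ξ ^ 2 * pot1 ast y
      - pot1 ast y * (W ξ * e1 ast y) ^ 2 / 2)
    (by
      show Continuous (fun p : ℝ × ℝ => s₀ * Real.exp (V1 ast p.2) + ρ₀ * p.1 ^ 2 * pot1 ast p.2
        - pot1 ast p.2 * (W p.1 * e1 ast p.2) ^ 2 / 2)
      have e1' := hVc.comp (continuous_snd (X := ℝ) (Y := ℝ))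
      have e2' := hqc.comp (continuous_snd (X := ℝ) (Y := ℝ))
      have e3' := hec.comp (continuous_snd (X := ℝ) (Y := ℝ))
      have e4' := hWc.comp (continuous_fst (X := ℝ) (Y := ℝ))
      have e5' : Continuous (fun p : ℝ × ℝ => p.1) := continuous_fst
      exact ((continuous_const.mul (Real.continuous_exp.comp e1')).add
        ((continuous_const.mul (e5'.pow 2)).mul e2')).sub
        ((e2'.mul ((e4'.mul e3').pow 2)).div_const 2))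
    (fold_G h3 hWc hW hs₃ hρ₃)
  have hode' : ∀ ξ, cE * deriv (deriv W) ξ = s₀ * cV + ρ₀ * ξ ^ 2 * cQ1 - W ξ ^ 2 / 2 * cQ3 := by
    intro ξ
    rw [hode ξ]
    have i1 : IntervalIntegrable (fun y => s₀ * (Real.exp (V1 ast y) * e1 ast y))
        MeasureTheory.volume (-1) 1 := by
      refine Continuous.intervalIntegrable ?_ _ _
      exact continuous_const.mul ((Real.continuous_exp.comp hVc).mul hec)
    have i2 : IntervalIntegrable (fun y => ρ₀ * ξ ^ 2 * (pot1 ast y * e1 ast y))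
        MeasureTheory.volume (-1) 1 := by
      refine Continuous.intervalIntegrable ?_ _ _
      exact continuous_const.mul (hqc.mul hec)
    have i3 : IntervalIntegrable (fun y => W ξ ^ 2 / 2 * (pot1 ast y * e1 ast y ^ 3))
        MeasureTheory.volume (-1) 1 := by
      refine Continuous.intervalIntegrable ?_ _ _
      exact continuous_const.mul (hqc.mul (hec.pow 3))
    have e : (fun y => e1 ast y * (s₀ * Real.exp (V1 ast y) + ρ₀ * ξ ^ 2 * pot1 ast y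
        - pot1 ast y * (W ξ * e1 ast y) ^ 2 / 2)) =
        fun y => (s₀ * (Real.exp (V1 ast y) * e1 ast y) +
          ρ₀ * ξ ^ 2 * (pot1 ast y * e1 ast y)) - W ξ ^ 2 / 2 * (pot1 ast y * e1 ast y ^ 3) := by
      funext y
      ring
    rw [e, intervalIntegral.integral_sub (i1.add i2) i3, intervalIntegral.integral_add i1 i2,
      intervalIntegral.integral_const_mul, intervalIntegral.integral_const_mul,
      intervalIntegral.integral_const_mul]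
    rfl
  have hcE := cE_pos
  have hpt := fun ξ => FLDVlm_pt hκ3 hW ξ
  have hin := fun ξ => FLDVlm_in h3.par ξ
  have hα3 : ∀ n, 0 < α (ψ₁ (ψ₂ (ψ₃ n))) := h3.par.α_pos
  have hev : ∀ ξ, W (-ξ) = W ξ := by
    intro ξ
    refine tendsto_nhds_unique_of_eventuallyEq (hpt (-ξ)) (hpt ξ) ?_
    filter_upwards [hin ξ, hin (-ξ)] with n h1 h2
    rw [FLDVlm_val h1, FLDVlm_val h2]
    have h4 := (h3.sol n).evx (hα3 n) (ξ / √(κ (ψ₁ (ψ₂ (ψ₃ n))))) 0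
    rw [neg_div, h4]
  obtain ⟨B, hB, hbd⟩ := fold_bd h3
  refine ⟨by have := cQ3_pos; positivity, ?_, hsm, hev, ?_, ?_, ?_, ?_, ?_⟩
  · have := cQ1_pos
    exact div_nonneg (mul_nonneg hρ₀.1 this.le) hcE.le
  · intro ξ hξ ξ' hξ' hle
    refine le_of_tendsto_of_tendsto (hpt ξ') (hpt ξ) ?_
    filter_upwards [hin ξ, hin ξ'] with n h1 h2
    rw [FLDVlm_val h1, FLDVlm_val h2]
    have hs : 0 < √(κ (ψ₁ (ψ₂ (ψ₃ n)))) := Real.sqrt_pos.2 (hκ3 n)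
    have hξ0 : (0 : ℝ) ≤ ξ := hξ
    have h5 : |ξ / √(κ (ψ₁ (ψ₂ (ψ₃ n))))| ≤ |ξ' / √(κ (ψ₁ (ψ₂ (ψ₃ n))))| := by
      rw [abs_div, abs_div, abs_of_nonneg hξ0, abs_of_nonneg (le_trans hξ0 hle)]
      exact div_le_div_of_nonneg_right hle (abs_nonneg _)
    have h4 := (h3.sol n).anti_x (hα3 n) (y := 0) h5
    exact div_le_div_of_nonneg_right (by linarith) (hκ3 n).le
  · intro ξ
    have h1 := hode' ξ
    have hc3 : cQ3 / (2 * cE) = cQ3 / 2 / cE := by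
      rw [div_div]
    rw [← mul_right_inj' hcE.ne', h1]
    field_simp
  · refine ⟨2 * (B + 2), fun ξ => ?_⟩
    have hΞ : (1 : ℝ) ≤ max 1 |ξ| := le_max_left _ _
    have h4 := hbd (max 1 |ξ|) hΞ
    have hup : W ξ ≤ 2 := by
      refine le_of_tendsto (hpt ξ) ?_
      filter_upwards [h4] with n hn4
      have hs : 0 < √(κ (ψ₁ (ψ₂ (ψ₃ n)))) := Real.sqrt_pos.2 (hκ3 n)
      refine (hn4 (ξ / √(κ (ψ₁ (ψ₂ (ψ₃ n)))), 0) ?_).2
      show √(κ (ψ₁ (ψ₂ (ψ₃ n)))) * |ξ / √(κ (ψ₁ (ψ₂ (ψ₃ n))))| ≤ _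
      rw [← abs_of_pos hs, ← abs_mul, abs_of_pos hs]
      have h2 : √(κ (ψ₁ (ψ₂ (ψ₃ n)))) * (ξ / √(κ (ψ₁ (ψ₂ (ψ₃ n))))) = ξ := by field_simp
      rw [h2]
      exact le_max_right _ _
    have hlo : -B * (1 + max 1 |ξ|) ≤ W ξ := by
      refine ge_of_tendsto (hpt ξ) ?_
      filter_upwards [h4] with n hn4
      have hs : 0 < √(κ (ψ₁ (ψ₂ (ψ₃ n)))) := Real.sqrt_pos.2 (hκ3 n)
      refine le_trans ?_ (hn4 (ξ / √(κ (ψ₁ (ψ₂ (ψ₃ n)))), 0) ?_).1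
      · have h5 : √(α (ψ₁ (ψ₂ (ψ₃ n))) ^ 2 / κ (ψ₁ (ψ₂ (ψ₃ n))) ^ 3) ≤ 1 := by
          rw [Real.sqrt_le_one]
          rw [div_le_one (pow_pos (hκ3 n) 3)]
          exact h3.par.hα n
        have h6 : max 1 |ξ| * √(α (ψ₁ (ψ₂ (ψ₃ n))) ^ 2 / κ (ψ₁ (ψ₂ (ψ₃ n))) ^ 3) ≤
            max 1 |ξ| := mul_le_of_le_one_right (by positivity) h5
        nlinarith
      · show √(κ (ψ₁ (ψ₂ (ψ₃ n)))) * |ξ / √(κ (ψ₁ (ψ₂ (ψ₃ n))))| ≤ _
        rw [← abs_of_pos hs, ← abs_mul, abs_of_pos hs]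
        have h2 : √(κ (ψ₁ (ψ₂ (ψ₃ n)))) * (ξ / √(κ (ψ₁ (ψ₂ (ψ₃ n))))) = ξ := by field_simp
        rw [h2]
        exact le_max_right _ _
    have hmx : max 1 |ξ| ≤ 1 + |ξ| := by
      refine max_le ?_ ?_
      · have := abs_nonneg ξ
        linarith
      · linarith
    have hξ0 := abs_nonneg ξ
    rw [abs_le]
    constructor
    · nlinarith
    · nlinarith
  · intro f hf hfc hfs
    have h1 := fold_stable h3 hWc hW f hf hfc hfs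
    have h2 : 2 * (cQ3 / (2 * cE)) * ∫ ξ, W ξ * f ξ ^ 2 = (cQ3 * ∫ ξ, W ξ * f ξ ^ 2) / cE := by
      field_simp
    rw [h2, div_le_iff₀ hcE]
    linarith
  · by_contra hcon
    push Not at hcon
    obtain ⟨hW0, hρ0, hs0⟩ := hcon
    have hρz : ρ₀ = 0 := by
      rcases div_eq_zero_iff.1 hρ0 with h1 | h1
      · rcases mul_eq_zero.1 h1 with h2 | h2
        · exact h2
        · exact absurd h2 cQ1_pos.ne'
      · exact absurd h1 hcE.ne'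
    have hsz : s₀ = 0 := by
      rcases div_eq_zero_iff.1 hs0 with h1 | h1
      · rcases mul_eq_zero.1 h1 with h2 | h2
        · exact h2
        · exact absurd h2 cV_pos.ne'
      · exact absurd h1 hcE.ne'
    rw [hρz] at hρ₃
    rw [hsz] at hs₃
    obtain ⟨D, hD, huy⟩ := fold_uy h3
    have a1 := hW 1 (1 / 4) one_pos (by norm_num)
    have a2 := huy 1 le_rfl
    have a3 : ∀ᶠ n in atTop, D * 1 ^ 2 * κ (ψ₁ (ψ₂ (ψ₃ n))) < 1 / 4 := by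
      have h1 : Tendsto (fun n => D * 1 ^ 2 * κ (ψ₁ (ψ₂ (ψ₃ n)))) atTop (𝓝 (D * 1 ^ 2 * 0)) :=
        tendsto_const_nhds.mul h3.par.κ_lim
      exact h1.eventually (gt_mem_nhds (by norm_num))
    have a4 := hρ₃.eventually (gt_mem_nhds (show (0 : ℝ) < 1 by norm_num))
    have a5 := hs₃.eventually (Metric.ball_mem_nhds (0 : ℝ) (show (0 : ℝ) < 1 by norm_num))
    obtain ⟨n, b1, b2, b3, b4, b5⟩ := (a1.and (a2.and (a3.and (a4.and a5)))).exists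
    have hk := hκ3 n
    rcases hn (ψ₁ (ψ₂ (ψ₃ n))) with ⟨y, hy, hy2⟩ | hc | hc
    · have c1 := b1 (0, y) ⟨by simp, hy⟩
      have c2 := b2 (0, y) (by simp) hy
      simp only [mul_zero, hW0, zero_mul, sub_zero] at c1
      have c3 : |uy (κ (ψ₁ (ψ₂ (ψ₃ n)))) (v (ψ₁ (ψ₂ (ψ₃ n)))) (0, y)| = 1 := by
        unfold uy
        rw [abs_div, hy2, abs_of_pos hk, div_self hk.ne']
      have c4 := abs_sub_abs_le_abs_sub
        (uy (κ (ψ₁ (ψ₂ (ψ₃ n)))) (v (ψ₁ (ψ₂ (ψ₃ n)))) (0, y))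
        (uY (α (ψ₁ (ψ₂ (ψ₃ n)))) (κ (ψ₁ (ψ₂ (ψ₃ n)))) (v (ψ₁ (ψ₂ (ψ₃ n)))) (0, y))
      rw [abs_sub_comm] at c4
      linarith
    · rw [hc, div_self (pow_pos hk 3).ne'] at b4
      exact lt_irrefl _ b4
    · have c1 : |(mu1 ast - μ (ψ₁ (ψ₂ (ψ₃ n)))) / κ (ψ₁ (ψ₂ (ψ₃ n))) ^ 2| < 1 := by
        have h9 : dist ((mu1 ast - μ (ψ₁ (ψ₂ (ψ₃ n)))) / κ (ψ₁ (ψ₂ (ψ₃ n))) ^ 2) 0 < 1 := b5
        rwa [Real.dist_eq, sub_zero] at h9
      rw [abs_div, abs_sub_comm, hc, abs_of_pos (pow_pos hk 2), div_self (pow_pos hk 2).ne'] at c1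
      exact lt_irrefl _ c1

end Pool.Agent.MFE
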