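import Pool.Agent.MFE.FLDKap
import Pool.Agent.MFE.FLDVlm
import Pool.Agent.MFE.FLDW1
import Pool.Agent.MFE.FLDTau
import Pool.Agent.MFE.FLDKer
import Pool.Agent.MFE.FLDPos

/-!
# MFE.FLDFin: assembly of regime C

`ncd_good`: normalised data have infinitely many good members. `fold_lim` gives a subsequence with
limit `W`; `WLim.neg`: `W(Ξ₀) < 0`; `phi_lim`: a further subsequence with `φ → A e`, `t/κ → T`;
`tau_zero`: `T cQ1/cE = 0`, so `T = 0`; `ker_pos`: `A > 0`; `outer_bd`; `pos_t`, `pos_cube`: the members of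
the subsequence are eventually good, so some `n` is good.
`regC_core`: by contradiction: infinitely many bad `n`; pass to the subsequence of bad ones
(`Filter.extraction_of_frequently_atTop`). `kap_exists`. Normalise with `cd_norm`: `t' = c t`, `φ' = c φ`,
`|c| > 0`, `t' ≥ 0`, `|φ'| ≤ 1`, attained. `NCD`. `ncd_good` gives an `n` with `t' > 0` and
`∫ e^v (φ' - t')³ > 0`, i.e. `c t > 0`, `c³ ∫ e^v(φ-t)³ > 0`, so `c⁴ t ∫e^v(φ-t)³ > 0`: `n` is not bad.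
-/

open Filter Topology
open scoped ContDiff

namespace Pool.Agent.MFE

theorem ncd_good {α μ κ t : ℕ → ℝ} {v φ : ℕ → ℝ × ℝ → ℝ} (h : NCD α μ κ t v φ)
    (hn : ∀ n, (∃ y : ℝ, |y| ≤ 1 ∧ |v n (0, y) - V1 ast y| = κ n) ∨ α n ^ 2 = κ n ^ 3 ∨
      |μ n - mu1 ast| = κ n ^ 2) :
    ∃ n, 0 < t n ∧ 0 < ∫ q in Ell (α n), Real.exp (v n q) * (φ n q - t n) ^ 3 := by
  obtain ⟨ψ, W, s₀, ρ₀, hψ, hW, -, -, hWL⟩ := fold_lim h.fold hn
  obtain ⟨Ξ₀, hΞ, hneg⟩ := hWL.neg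
  have h1 := h.sub hψ
  have hWc : Continuous W := hWL.smooth.continuous
  obtain ⟨ψ', A, T, hψ', hA, hT, hAL⟩ := phi_lim h1 hWc hW hΞ hneg
  have hT0 : T * cQ1 / cE = 0 := tau_zero hWL hΞ hneg hAL
  have hTz : T = 0 := by
    rcases div_eq_zero_iff.1 hT0 with h2 | h2
    · rcases mul_eq_zero.1 h2 with h3 | h3
      · exact h3
      · exact absurd h3 cQ1_pos.ne'
    · exact absurd h2 cE_pos.ne'
  rw [hT0] at hAL
  rw [hTz] at hT
  have hpos := ker_pos hWL hΞ hneg hAL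
  have h2 := h1.sub hψ'
  have hW2 := hW.sub hψ'
  obtain ⟨C, γ, -, hγ, hb⟩ := outer_bd h2 hW2 hΞ hneg
  have e1 := pos_t h2 hAL.smooth.continuous hpos hA hγ hb
  have e2 := pos_cube h2 hAL.smooth.continuous hpos hA hT hγ hb
  obtain ⟨n, hn1, hn2⟩ := (e1.and e2).exists
  exact ⟨ψ (ψ' n), hn1, hn2⟩

theorem regC_core {α μ t : ℕ → ℝ} {v φ : ℕ → ℝ × ℝ → ℝ}
    (hα : ∀ n, 0 < α n ∧ α n ≤ 1) (hα0 : Tendsto α atTop (𝓝 0))
    (h : ∀ n, CD (α n) (μ n) (t n) (v n) (φ n))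
    (hp : Tendsto (fun n => v n (0, 0)) atTop (𝓝 pst)) :
    ∀ᶠ n in atTop, t n ≠ 0 ∧
      0 < t n * ∫ q in Ell (α n), Real.exp (v n q) * (φ n q - t n) ^ 3 := by
  by_contra hcon
  obtain ⟨ψ, hψ, hbad⟩ := Filter.extraction_of_frequently_atTop (Filter.not_eventually.1 hcon)
  have hnorm := fun n => cd_norm (hα (ψ n)).1 (h (ψ n))
  choose t' φ' c hc hCD ht' htc hφc hle hatt using hnorm
  obtain ⟨κ, hF, hk⟩ := kap_exists (α := fun n => α (ψ n)) (μ := fun n => μ (ψ n))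
    (v := fun n => v (ψ n)) (fun n => hα (ψ n)) (hα0.comp hψ.tendsto_atTop)
    (fun n => (h (ψ n)).sol) (hp.comp hψ.tendsto_atTop)
  have hN : NCD (fun n => α (ψ n)) (fun n => μ (ψ n)) κ t' (fun n => v (ψ n)) φ' :=
    ⟨hF, hCD, ht', hle, hatt⟩
  obtain ⟨n, hn1, hn2⟩ := ncd_good hN hk
  apply hbad n
  have hc0 : c n ≠ 0 := abs_pos.1 (hc n)
  rw [htc n] at hn1
  have ht0 : t (ψ n) ≠ 0 := by
    intro h0
    rw [h0, mul_zero] at hn1
    exact lt_irrefl _ hn1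
  refine ⟨ht0, ?_⟩
  have e3 : (∫ q in Ell (α (ψ n)), Real.exp (v (ψ n) q) * (φ' n q - t' n) ^ 3) =
      c n ^ 3 * ∫ q in Ell (α (ψ n)), Real.exp (v (ψ n) q) * (φ (ψ n) q - t (ψ n)) ^ 3 := by
    rw [← MeasureTheory.integral_const_mul]
    congr 1
    funext q
    rw [hφc n q, htc n]
    ring
  rw [e3] at hn2
  have h4 := mul_pos hn1 hn2
  have h5 : c n * t (ψ n) * (c n ^ 3 *
      ∫ q in Ell (α (ψ n)), Real.exp (v (ψ n) q) * (φ (ψ n) q - t (ψ n)) ^ 3) =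
      c n ^ 4 * (t (ψ n) *
      ∫ q in Ell (α (ψ n)), Real.exp (v (ψ n) q) * (φ (ψ n) q - t (ψ n)) ^ 3) := by
    ring
  rw [h5] at h4
  have h6 : 0 < c n ^ 4 := by positivity
  exact (mul_pos_iff_of_pos_left h6).1 h4

end Pool.Agent.MFE
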