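import Pool.Agent.MFE.FLDDef
import Pool.Agent.MFE.CONV

/-!
# MFE.FLDKap: the small parameter (regime C)

`conv_low` with `a = ast` (`pst = 2 log cosh ast`): `μ n → mu1 ast` and `v n → V1e ast` locally uniformly,
in particular uniformly on `{0} × [-1,1]` (`LocU` with `R = 1`; on `|y| < 1` `V1e = V1 ast y`; for `|y| = 1`
`v = 0 = V1 ast 1`). Let `a n = sup_{|y| ≤ 1} |v n (0,y) - V1 ast y|` (attained: compactness),
`a n → 0`, and `κ n = max (a n) (max ((α n ^ 2) ^ (1/3)) (√|μ n - mu1 ast|)) > 0`. Then `κ n → 0`,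
`α² ≤ κ³`, `|μ - mu1 ast| ≤ κ²`, and one of the three is attained.
-/

open Filter Topology
open scoped ContDiff

namespace Pool.Agent.MFE

private theorem kap_V1_cont : Continuous (V1 ast) := by
  unfold V1
  have h : ∀ y : ℝ, Real.cosh ast / Real.cosh (ast * y) ≠ 0 := fun y =>
    (div_pos (Real.cosh_pos _) (Real.cosh_pos _)).ne'
  have h2 : Continuous fun y : ℝ => Real.cosh ast / Real.cosh (ast * y) :=
    continuous_const.div (Real.continuous_cosh.comp (continuous_const.mul continuous_id))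
      (fun y => (Real.cosh_pos _).ne')
  exact continuous_const.mul (h2.log h)

private theorem kap_V1e {y : ℝ} (hy : |y| ≤ 1) : V1e ast (0, y) = V1 ast y := by
  unfold V1e
  by_cases h : |y| < 1
  · simp [h]
  · have h1 : |y| = 1 := le_antisymm hy (not_lt.1 h)
    simp only [h, if_false]
    unfold V1
    have h2 : Real.cosh (ast * y) = Real.cosh ast := by
      rcases (abs_eq (by norm_num : (0 : ℝ) ≤ 1)).1 h1 with h3 | h3
      · rw [h3, mul_one]
      · rw [h3, mul_neg_one, Real.cosh_neg]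
    rw [h2, div_self (Real.cosh_pos _).ne', Real.log_one, mul_zero]

theorem kap_exists {α μ : ℕ → ℝ} {v : ℕ → ℝ × ℝ → ℝ}
    (hα : ∀ n, 0 < α n ∧ α n ≤ 1) (hα0 : Tendsto α atTop (𝓝 0))
    (h : ∀ n, GSol (α n) (μ n) (v n)) (hp : Tendsto (fun n => v n (0, 0)) atTop (𝓝 pst)) :
    ∃ κ : ℕ → ℝ, Fold α μ κ v ∧ ∀ n, (∃ y : ℝ, |y| ≤ 1 ∧ |v n (0, y) - V1 ast y| = κ n) ∨
      α n ^ 2 = κ n ^ 3 ∨ |μ n - mu1 ast| = κ n ^ 2 := by
  obtain ⟨hμ, hU⟩ := conv_low hα hα0 h ast_pos le_rfl hp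
  have hmax : ∀ n, ∃ y ∈ Set.Icc (-1 : ℝ) 1, IsMaxOn (fun y => |v n (0, y) - V1 ast y|)
      (Set.Icc (-1 : ℝ) 1) y := by
    intro n
    have hc : Continuous fun y : ℝ => |v n (0, y) - V1 ast y| :=
      (((h n).cont.comp (continuous_const.prodMk continuous_id)).sub kap_V1_cont).abs
    exact isCompact_Icc.exists_isMaxOn ⟨0, by norm_num⟩ hc.continuousOn
  choose y hy1 hy2 using hmax
  set a : ℕ → ℝ := fun n => |v n (0, y n) - V1 ast (y n)| with ha
  have ha0 : Tendsto a atTop (𝓝 0) := by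
    have h1 := Metric.tendstoUniformlyOn_iff.1 (hU 1)
    rw [Metric.tendsto_atTop]
    intro ε hε
    obtain ⟨N, hN⟩ := eventually_atTop.1 (h1 ε hε)
    refine ⟨N, fun n hn => ?_⟩
    have hyn : |y n| ≤ 1 := abs_le.2 (hy1 n)
    have h2 := hN n hn (0, y n) (by
      refine ⟨?_, ?_⟩
      · simp
      · simpa using hyn)
    rw [kap_V1e hyn, Real.dist_eq, abs_sub_comm] at h2
    rw [Real.dist_eq, sub_zero, ha]
    simpa using h2
  set b : ℕ → ℝ := fun n => (α n ^ 2) ^ (1 / 3 : ℝ) with hb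
  have hb0 : Tendsto b atTop (𝓝 0) := by
    have h1 : Tendsto (fun n => α n ^ 2) atTop (𝓝 0) := by
      simpa using hα0.pow 2
    have h2 := h1.rpow_const (p := (1 / 3 : ℝ)) (Or.inr (by norm_num))
    rwa [Real.zero_rpow (by norm_num)] at h2
  have hb3 : ∀ n, b n ^ 3 = α n ^ 2 := by
    intro n
    rw [hb]
    simp only
    rw [← Real.rpow_natCast, ← Real.rpow_mul (sq_nonneg _)]
    norm_num
  have hbpos : ∀ n, 0 < b n := fun n => Real.rpow_pos_of_pos (pow_pos (hα n).1 2) _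
  set c : ℕ → ℝ := fun n => √|μ n - mu1 ast| with hc
  have hc0 : Tendsto c atTop (𝓝 0) := by
    have h1 : Tendsto (fun n => |μ n - mu1 ast|) atTop (𝓝 0) := by
      have := (hμ.sub_const (mu1 ast)).abs
      simpa using this
    have h2 := h1.sqrt
    simpa using h2
  have hc2 : ∀ n, c n ^ 2 = |μ n - mu1 ast| := fun n => Real.sq_sqrt (abs_nonneg _)
  have hcn : ∀ n, 0 ≤ c n := fun n => Real.sqrt_nonneg _
  refine ⟨fun n => max (a n) (max (b n) (c n)), ?_, ?_⟩
  · refine ⟨⟨fun n => (hα n).1, fun n => (hα n).2, fun n => ?_, ?_, fun n => ?_⟩, h, fun n => ?_,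
      fun n z hz => ?_⟩
    · exact lt_of_lt_of_le (hbpos n) ((le_max_left _ _).trans (le_max_right _ _))
    · have := ha0.max (hb0.max hc0)
      simpa using this
    · rw [← hb3 n]
      exact pow_le_pow_left₀ (hbpos n).le ((le_max_left _ _).trans (le_max_right _ _)) 3
    · rw [← hc2 n]
      exact pow_le_pow_left₀ (hcn n) ((le_max_right _ _).trans (le_max_right _ _)) 2
    · have h1 : |v n (0, z) - V1 ast z| ≤ a n := hy2 n (abs_le.1 hz)
      exact h1.trans (le_max_left _ _)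
  · intro n
    rcases max_choice (a n) (max (b n) (c n)) with h1 | h1
    · left
      exact ⟨y n, abs_le.2 (hy1 n), h1.symm⟩
    · rcases max_choice (b n) (c n) with h2 | h2
      · right; left
        simp only
        rw [h1, h2, hb3 n]
      · right; right
        simp only
        rw [h1, h2, hc2 n]

end Pool.Agent.MFE
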