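import Pool.Agent.MFE.GNNA
import Pool.Agent.MFE.HKC

/-!
# MFE.GNNB: symmetry and monotonicity of the solutions on the ellipse

`mp_x` for `D = Ell α` gives the statements in `x`. For `y` apply `mp_x` to
`D' = {q | (q.2, q.1) ∈ Ell α}` and `v' q = v (q.2, q.1)`
(`dx v' q = dy v (q.2, q.1)`, `lap v' q = lap v (q.2, q.1)`).
`GSol.anti_x`: `|x| ≤ |x'|` ⟹ `v (x',y) ≤ v (x,y)` from the sign of `dx v` on the (convex) section
and `v = 0` outside, `v ≥ 0`.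
`GSol.super`: `gx = -dx v`, `gy = -dy v` (`lap_dx`, `lap_dy`).
-/

open scoped ContDiff

namespace Pool.Agent.MFE

variable {α μ : ℝ} {v : ℝ × ℝ → ℝ}

private theorem GNNB_open (α : ℝ) : IsOpen (Ell α) := by
  unfold Ell
  exact isOpen_lt (by fun_prop) continuous_const

private theorem GNNB_bdd (hα : 0 < α) : Bornology.IsBounded (Ell α) := by
  refine (Metric.isBounded_closedBall (x := (0 : ℝ × ℝ)) (r := max (1 / α) 1)).subset ?_
  intro q hq
  have hq' : α ^ 2 * q.1 ^ 2 + q.2 ^ 2 < 1 := hq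
  rw [Metric.mem_closedBall, dist_zero_right, Prod.norm_def, Real.norm_eq_abs, Real.norm_eq_abs]
  refine max_le (le_trans ?_ (le_max_left _ _)) (le_trans ?_ (le_max_right _ _))
  · rw [le_div_iff₀ hα]
    have h1 : (|q.1| * α) ^ 2 ≤ 1 ^ 2 := by
      rw [mul_pow, sq_abs]
      nlinarith [sq_nonneg q.2]
    exact le_of_sq_le_sq h1 (by norm_num)
  · have h1 : |q.2| ^ 2 ≤ 1 ^ 2 := by
      rw [sq_abs]
      nlinarith [sq_nonneg (α * q.1)]
    exact le_of_sq_le_sq h1 (by norm_num)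

private theorem GNNB_convex (α : ℝ) : Convex ℝ (Ell α) := by
  intro p hp q hq a b ha hb hab
  have hp' : α ^ 2 * p.1 ^ 2 + p.2 ^ 2 < 1 := hp
  have hq' : α ^ 2 * q.1 ^ 2 + q.2 ^ 2 < 1 := hq
  show α ^ 2 * (a * p.1 + b * q.1) ^ 2 + (a * p.2 + b * q.2) ^ 2 < 1
  have hb' : b = 1 - a := by linarith
  subst hb'
  have h1 : (a * p.1 + (1 - a) * q.1) ^ 2 ≤ a * p.1 ^ 2 + (1 - a) * q.1 ^ 2 := by
    nlinarith [mul_nonneg (mul_nonneg ha hb) (sq_nonneg (p.1 - q.1))]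
  have h2 : (a * p.2 + (1 - a) * q.2) ^ 2 ≤ a * p.2 ^ 2 + (1 - a) * q.2 ^ 2 := by
    nlinarith [mul_nonneg (mul_nonneg ha hb) (sq_nonneg (p.2 - q.2))]
  have h3 := mul_le_mul_of_nonneg_left h1 (sq_nonneg α)
  have h4 : a * (α ^ 2 * p.1 ^ 2 + p.2 ^ 2) + (1 - a) * (α ^ 2 * q.1 ^ 2 + q.2 ^ 2) < 1 := by
    rcases ha.eq_or_lt with h | h
    · rw [← h]; linarith
    · nlinarith [mul_nonneg hb (sub_nonneg.2 hq'.le), mul_pos h (sub_pos.2 hp')]
  nlinarith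

private theorem GNNB_symm (α : ℝ) : ∀ x y : ℝ, (x, y) ∈ Ell α → (-x, y) ∈ Ell α := by
  intro x y h
  have h' : α ^ 2 * x ^ 2 + y ^ 2 < 1 := h
  show α ^ 2 * (-x) ^ 2 + y ^ 2 < 1
  rw [neg_sq]
  exact h'

private theorem GNNB_symm' (α : ℝ) : ∀ x y : ℝ, (x, y) ∈ Ell α → (x, -y) ∈ Ell α := by
  intro x y h
  have h' : α ^ 2 * x ^ 2 + y ^ 2 < 1 := h
  show α ^ 2 * x ^ 2 + (-y) ^ 2 < 1
  rw [neg_sq]
  exact h'

/-- the swapped ellipse -/
private def GNNB_D (α : ℝ) : Set (ℝ × ℝ) := {q | (q.2, q.1) ∈ Ell α}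

private theorem GNNB_D_open (α : ℝ) : IsOpen (GNNB_D α) :=
  (GNNB_open α).preimage (by fun_prop : Continuous (fun q : ℝ × ℝ => ((q.2, q.1) : ℝ × ℝ)))

private theorem GNNB_D_bdd (hα : 0 < α) : Bornology.IsBounded (GNNB_D α) := by
  obtain ⟨R, hR⟩ := (GNNB_bdd hα).subset_closedBall (0 : ℝ × ℝ)
  refine (Metric.isBounded_closedBall (x := (0 : ℝ × ℝ)) (r := R)).subset ?_
  intro q hq
  have h1 := hR (show (q.2, q.1) ∈ Ell α from hq)
  rw [Metric.mem_closedBall, dist_zero_right, Prod.norm_def] at h1 ⊢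
  rw [max_comm]
  exact h1

private theorem GNNB_D_convex (α : ℝ) : Convex ℝ (GNNB_D α) := by
  intro p hp q hq a b ha hb hab
  exact GNNB_convex α (show (p.2, p.1) ∈ Ell α from hp) (show (q.2, q.1) ∈ Ell α from hq) ha hb hab

private theorem GNNB_D_symm (α : ℝ) : ∀ x y : ℝ, (x, y) ∈ GNNB_D α → (-x, y) ∈ GNNB_D α := by
  intro x y h
  exact GNNB_symm' α y x h

private theorem GNNB_dx_swap (f : ℝ × ℝ → ℝ) :
    dx (fun z => f (z.2, z.1)) = fun q => dy f (q.2, q.1) := by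
  funext q
  have h := (ContinuousLinearEquiv.prodComm ℝ ℝ ℝ).comp_right_fderiv (f := f) (x := q)
  have e : (f ∘ (ContinuousLinearEquiv.prodComm ℝ ℝ ℝ)) = fun z : ℝ × ℝ => f (z.2, z.1) := rfl
  unfold dx dy
  rw [← e, h]
  rfl

private theorem GNNB_dy_swap (f : ℝ × ℝ → ℝ) :
    dy (fun z => f (z.2, z.1)) = fun q => dx f (q.2, q.1) := by
  funext q
  have h := (ContinuousLinearEquiv.prodComm ℝ ℝ ℝ).comp_right_fderiv (f := f) (x := q)
  have e : (f ∘ (ContinuousLinearEquiv.prodComm ℝ ℝ ℝ)) = fun z : ℝ × ℝ => f (z.2, z.1) := rfl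
  unfold dx dy
  rw [← e, h]
  rfl

private theorem GNNB_lap_swap (f : ℝ × ℝ → ℝ) (q : ℝ × ℝ) :
    lap (fun z => f (z.2, z.1)) q = lap f (q.2, q.1) := by
  unfold lap
  rw [GNNB_dx_swap, GNNB_dy_swap, GNNB_dx_swap (dy f), GNNB_dy_swap (dx f)]
  ring

private theorem GNNB_swap_cont (h : GSol α μ v) : Continuous (fun z : ℝ × ℝ => v (z.2, z.1)) :=
  h.cont.comp (by fun_prop : Continuous (fun z : ℝ × ℝ => ((z.2, z.1) : ℝ × ℝ)))

private theorem GNNB_swap_smooth (h : GSol α μ v) :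
    ContDiffOn ℝ ∞ (fun z : ℝ × ℝ => v (z.2, z.1)) (GNNB_D α) := by
  have h1 : ContDiff ℝ ∞ (fun z : ℝ × ℝ => ((z.2, z.1) : ℝ × ℝ)) := by fun_prop
  exact h.smooth.comp h1.contDiffOn (fun q hq => hq)

private theorem GNNB_le2 : (2 : WithTop ℕ∞) ≤ ∞ :=
  show ((2 : ℕ∞) : WithTop ℕ∞) ≤ ((⊤ : ℕ∞) : WithTop ℕ∞) from WithTop.coe_le_coe.2 le_top

private theorem GNNB_le3 : (3 : WithTop ℕ∞) ≤ ∞ :=
  show ((3 : ℕ∞) : WithTop ℕ∞) ≤ ((⊤ : ℕ∞) : WithTop ℕ∞) from WithTop.coe_le_coe.2 le_top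

private theorem GNNB_swap_eq (h : GSol α μ v) : ∀ q ∈ GNNB_D α,
    -lap (fun z : ℝ × ℝ => v (z.2, z.1)) q = μ * Real.exp (v (q.2, q.1)) := by
  intro q hq
  rw [GNNB_lap_swap]
  exact h.eq _ hq

theorem GSol.pos (hα : 0 < α) (h : GSol α μ v) : ∀ q ∈ Ell α, 0 < v q :=
  mp_pos (GNNB_open α) (GNNB_bdd hα) (GNNB_convex α) h.mu_pos h.cont h.zero
    (h.smooth.of_le GNNB_le2) h.eq

theorem GSol.nonneg (hα : 0 < α) (h : GSol α μ v) : ∀ q, 0 ≤ v q := by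
  intro q
  by_cases hq : q ∈ Ell α
  · exact (h.pos hα q hq).le
  · rw [h.zero q hq]

private theorem GNNB_x (hα : 0 < α) (h : GSol α μ v) :
    EvX v ∧ ∀ q ∈ Ell α, 0 < q.1 → dx v q < 0 :=
  mp_x (GNNB_open α) (GNNB_bdd hα) (GNNB_convex α) (GNNB_symm α) h.mu_pos h.cont h.zero
    h.smooth h.eq

private theorem GNNB_y (hα : 0 < α) (h : GSol α μ v) :
    EvX (fun z : ℝ × ℝ => v (z.2, z.1)) ∧
      ∀ q ∈ GNNB_D α, 0 < q.1 → dx (fun z : ℝ × ℝ => v (z.2, z.1)) q < 0 :=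
  mp_x (GNNB_D_open α) (GNNB_D_bdd hα) (GNNB_D_convex α) (GNNB_D_symm α) h.mu_pos
    (GNNB_swap_cont h) (fun q hq => h.zero _ hq) (GNNB_swap_smooth h) (GNNB_swap_eq h)

theorem GSol.evx (hα : 0 < α) (h : GSol α μ v) : EvX v := (GNNB_x hα h).1

theorem GSol.evy (hα : 0 < α) (h : GSol α μ v) : EvY v := by
  intro x y
  exact (GNNB_y hα h).1 y x

theorem GSol.dx_neg (hα : 0 < α) (h : GSol α μ v) : ∀ q ∈ Ell α, 0 < q.1 → dx v q < 0 :=
  (GNNB_x hα h).2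

theorem GSol.dy_neg (hα : 0 < α) (h : GSol α μ v) : ∀ q ∈ Ell α, 0 < q.2 → dy v q < 0 := by
  intro q hq hy
  have := (GNNB_y hα h).2 (q.2, q.1) (show ((q.1, q.2) : ℝ × ℝ) ∈ Ell α from hq) hy
  rw [GNNB_dx_swap] at this
  exact this

private theorem GNNB_abs_x (hα : 0 < α) (h : GSol α μ v) (x y : ℝ) : v (x, y) = v (|x|, y) := by
  rcases abs_choice x with hx | hx
  · rw [hx]
  · rw [hx, h.evx hα]

private theorem GNNB_abs_y (hα : 0 < α) (h : GSol α μ v) (x y : ℝ) : v (x, y) = v (x, |y|) := by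
  rcases abs_choice y with hy | hy
  · rw [hy]
  · rw [hy, h.evy hα]

theorem GSol.anti_x (hα : 0 < α) (h : GSol α μ v) {x x' y : ℝ} (hx : |x| ≤ |x'|) :
    v (x', y) ≤ v (x, y) := by
  rw [GNNB_abs_x hα h x, GNNB_abs_x hα h x']
  rcases hx.eq_or_lt with he | hlt
  · rw [he]
  by_cases hm : ((|x'|, y) : ℝ × ℝ) ∈ Ell α
  · have h0 := abs_nonneg x
    have := mp_half (GNNB_open α) (GNNB_bdd hα) (GNNB_convex α) (GNNB_symm α) h.mu_pos h.cont
      h.zero (h.smooth.of_le GNNB_le2) h.eq ((|x| + |x'|) / 2) (by linarith) |x'| y hm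
      (by linarith)
    rw [show 2 * ((|x| + |x'|) / 2) - |x'| = |x| by ring] at this
    exact this
  · rw [h.zero _ hm]
    exact h.nonneg hα _

theorem GSol.anti_y (hα : 0 < α) (h : GSol α μ v) {x y y' : ℝ} (hy : |y| ≤ |y'|) :
    v (x, y') ≤ v (x, y) := by
  rw [GNNB_abs_y hα h x y, GNNB_abs_y hα h x y']
  rcases hy.eq_or_lt with he | hlt
  · rw [he]
  by_cases hm : ((x, |y'|) : ℝ × ℝ) ∈ Ell α
  · have h0 := abs_nonneg y
    have := mp_half (GNNB_D_open α) (GNNB_D_bdd hα) (GNNB_D_convex α) (GNNB_D_symm α) h.mu_pos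
      (GNNB_swap_cont h) (fun q hq => h.zero _ hq) ((GNNB_swap_smooth h).of_le GNNB_le2)
      (GNNB_swap_eq h) ((|y| + |y'|) / 2) (by linarith) |y'| x hm (by linarith)
    rw [show 2 * ((|y| + |y'|) / 2) - |y'| = |y| by ring] at this
    exact this
  · rw [h.zero _ hm]
    exact h.nonneg hα _

theorem GSol.le_max (hα : 0 < α) (h : GSol α μ v) (q : ℝ × ℝ) : v q ≤ v (0, 0) := by
  have h1 : v (q.1, q.2) ≤ v (0, q.2) := h.anti_x hα (by rw [abs_zero]; exact abs_nonneg _)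
  have h2 : v (0, q.2) ≤ v (0, 0) := h.anti_y hα (by rw [abs_zero]; exact abs_nonneg _)
  exact le_trans h1 h2

private theorem GNNB_diff (h : GSol α μ v) {q : ℝ × ℝ} (hq : q ∈ Ell α) :
    DifferentiableAt ℝ v q :=
  ((h.smooth.of_le GNNB_le2).contDiffAt ((GNNB_open α).mem_nhds hq)).differentiableAt
    (by norm_num)

private theorem GNNB_lap_dx (h : GSol α μ v) {z : ℝ × ℝ} (hz : z ∈ Ell α) :
    lap (dx v) z = -(μ * Real.exp (v z) * dx v z) := by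
  rw [lap_dx (GNNB_open α) (h.smooth.of_le GNNB_le3) hz]
  have h1 : dx (lap v) z = dx (fun p => (-μ) * Real.exp (v p)) z :=
    dx_congr (GNNB_open α) (fun p hp => by have := h.eq p hp; linarith) hz
  have h2 : DifferentiableAt ℝ (fun p => Real.exp (v p)) z := (GNNB_diff h hz).exp
  rw [h1, dx_const_mul _ h2, dx_comp (F := Real.exp) (GNNB_diff h hz) Real.differentiableAt_exp,
    Real.deriv_exp]
  ring

private theorem GNNB_lap_dy (h : GSol α μ v) {z : ℝ × ℝ} (hz : z ∈ Ell α) :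
    lap (dy v) z = -(μ * Real.exp (v z) * dy v z) := by
  rw [lap_dy (GNNB_open α) (h.smooth.of_le GNNB_le3) hz]
  have h1 : dy (lap v) z = dy (fun p => (-μ) * Real.exp (v p)) z :=
    dy_congr (GNNB_open α) (fun p hp => by have := h.eq p hp; linarith) hz
  have h2 : DifferentiableAt ℝ (fun p => Real.exp (v p)) z := (GNNB_diff h hz).exp
  rw [h1, dy_const_mul _ h2, dy_comp (F := Real.exp) (GNNB_diff h hz) Real.differentiableAt_exp,
    Real.deriv_exp]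
  ring

theorem GSol.super (hα : 0 < α) (h : GSol α μ v) :
    Super (Ell α) (fun q => μ * Real.exp (v q)) := by
  have hdx : ContDiffOn ℝ 2 (dx v) (Ell α) := (smooth_dx (GNNB_open α) h.smooth).of_le GNNB_le2
  have hdy : ContDiffOn ℝ 2 (dy v) (Ell α) := (smooth_dy (GNNB_open α) h.smooth).of_le GNNB_le2
  refine ⟨⟨fun z => -1 * dx v z, contDiffOn_const.mul (hdx.mono Set.inter_subset_left), ?_⟩,
    ⟨fun z => -1 * dy v z, contDiffOn_const.mul (hdy.mono Set.inter_subset_left), ?_⟩⟩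
  · intro q hq hx
    refine ⟨by have := h.dx_neg hα q hq hx; show 0 < -1 * dx v q; linarith, ?_⟩
    rw [lap_const_mul (GNNB_open α) (-1) hdx hq, GNNB_lap_dx h hq]
    apply le_of_eq
    ring
  · intro q hq hy
    refine ⟨by have := h.dy_neg hα q hq hy; show 0 < -1 * dy v q; linarith, ?_⟩
    rw [lap_const_mul (GNNB_open α) (-1) hdy hq, GNNB_lap_dy h hq]
    apply le_of_eq
    ring

/-- `x·∇v ≤ 0` -/
theorem GSol.euler_nonpos (hα : 0 < α) (h : GSol α μ v) :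
    ∀ q ∈ Ell α, q.1 * dx v q + q.2 * dy v q ≤ 0 := by
  intro q hq
  have h1 : q.1 * dx v q ≤ 0 := by
    rcases lt_trichotomy q.1 0 with hx | hx | hx
    · have hm : ((-q.1, q.2) : ℝ × ℝ) ∈ Ell α := GNNB_symm α q.1 q.2 hq
      have e1 := h.dx_neg hα (-q.1, q.2) hm (by show 0 < -q.1; linarith)
      have e2 := dx_of_evx (h.evx hα) q.1 q.2
      have e3 : dx v q = dx v (q.1, q.2) := rfl
      rw [e2] at e1
      rw [e3]
      nlinarith
    · rw [hx]; linarith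
    · have e1 := h.dx_neg hα q hq hx
      nlinarith
  have h2 : q.2 * dy v q ≤ 0 := by
    rcases lt_trichotomy q.2 0 with hy | hy | hy
    · have hm : ((q.1, -q.2) : ℝ × ℝ) ∈ Ell α := GNNB_symm' α q.1 q.2 hq
      have e1 := h.dy_neg hα (q.1, -q.2) hm (by show 0 < -q.2; linarith)
      have e2 := dy_of_evy (h.evy hα) q.1 q.2
      have e3 : dy v q = dy v (q.1, q.2) := rfl
      rw [e2] at e1
      rw [e3]
      nlinarith
    · rw [hy]; linarith
    · have e1 := h.dy_neg hα q hq hy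
      nlinarith
  linarith

end Pool.Agent.MFE
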