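import Pool.Agent.MFE.FLDSub
import Pool.Agent.MFE.WMP
import Pool.Agent.MFE.GNNB

/-!
# MFE.FLDLow: lower bound for solutions near the fold (regime C)

`fsub_main`; let `D = {q ∈ Ell α : |x| < X, 0 < sub q}` (open), `u = sub - v`, `c = μ e^{sub}`, `g = fgg`.
`wmp`: `g > 0` on `D` (`e ≥ 0`, `σ > 0`, `Y² < 1`), `c g < -lap g`. Where `u > 0`:
`-lap u = -lap sub - μ e^v ≤ μ(e^{sub} - e^v) ≤ μ e^{sub} (sub - v)` (`e^a - e^b ≤ e^a (a-b)`).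
Compactness of `{q ∈ D : η g ≤ u}`: near `|x| = X` one has `σ² /2 > C₁` so
`sub ≤ (C₁ - σ²/2)(1-Y²) ≤ 0` (`cst_V`, `e ≥ 0`), hence `u ≤ 0 < η g`: there is `X' < X` such that the set
equals `{q ∈ CEll α : |x| ≤ X', η g ≤ u}` (on the boundary of the ellipse `|Y| = 1`, `sub = 0 = v`
and `g > 0`; `u ≥ η g > 0` implies `sub > v ≥ 0`), closed and bounded, all functions continuous on
`{q ∈ CEll α, |x| ≤ X'}` (`α X ≤ 1/4`, so `h > 0`).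
So `sub ≤ v` on `D`, hence on `{q ∈ Ell α, |x| < X}` (`v > 0`, `GSol.pos`). For `|x| ≤ X/2`:
`σ ≤ A₁ (κ + αX) + 8A₂/X² ≤ A₁ 5/4 + 8A₂` (`X ≥ 1`), `e ≤ C (1-Y²)` (`cst_e`):
`sub ≥ V(Y) - (C σ + σ²/2)(1-Y²) ≥ V(Y) - A (κ + αX + 1/X²)(1-Y²)`.
-/

open scoped ContDiff

namespace Pool.Agent.MFE

open MeasureTheory Filter Topology

private theorem FLDLow_two : (2 : WithTop ℕ∞) ≤ ∞ := WithTop.coe_le_coe.2 le_top

private theorem FLDLow_open (α : ℝ) : IsOpen (Ell α) :=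
  isOpen_lt (by fun_prop) continuous_const

private theorem FLDLow_closed (α : ℝ) : IsClosed (CEll α) :=
  isClosed_le (by fun_prop) continuous_const

private theorem FLDLow_exp (a b : ℝ) : Real.exp a - Real.exp b ≤ Real.exp a * (a - b) := by
  have h1 := Real.add_one_le_exp (b - a)
  have h2 : Real.exp b = Real.exp a * Real.exp (b - a) := by
    rw [← Real.exp_add]
    congr 1
    ring
  have h3 := mul_le_mul_of_nonneg_left h1 (Real.exp_pos a).le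
  rw [h2]
  linarith

private theorem FLDLow_sm {A₁ A₂ ε α κ X : ℝ} (h1 : 1 ≤ A₁) (h2 : 1 ≤ A₂) (hα : 0 < α)
    (hκ : 0 < κ) (hX : 0 < X) :
    ContDiffOn ℝ 2 (fsub A₁ A₂ α κ X)
      ({q : ℝ × ℝ | α ^ 2 * q.1 ^ 2 < 1} ∩ {q : ℝ × ℝ | |q.1| < X}) ∧
    ContDiffOn ℝ 2 (fgg A₁ A₂ ε α κ X)
      ({q : ℝ × ℝ | α ^ 2 * q.1 ^ 2 < 1} ∩ {q : ℝ × ℝ | |q.1| < X}) := by
  have hs : ContDiffOn ℝ ∞ (fsg A₁ A₂ α κ X) (Set.Ioo (-X) X) :=
    (fsg_facts (x := 0) h1 h2 hα hκ (by rw [abs_zero]; exact hX)).2.2.2.1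
  set D : Set (ℝ × ℝ) := {q : ℝ × ℝ | α ^ 2 * q.1 ^ 2 < 1} ∩ {q : ℝ × ℝ | |q.1| < X} with hD
  have cs : ContDiffOn ℝ 2 (fun z : ℝ × ℝ => fsg A₁ A₂ α κ X z.1) D :=
    (hs.comp contDiff_fst.contDiffOn fun z hz => abs_lt.1 hz.2).of_le FLDLow_two
  have cY : ∀ {f : ℝ → ℝ}, ContDiff ℝ ∞ f → ContDiffOn ℝ 2 (fun z => f (YE α z)) D := fun hf =>
    ((comp_YE_smooth α hf).mono fun z hz => hz.1).of_le FLDLow_two
  have cE := cY (e1_smooth ast)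
  have cV := cY (V1_smooth ast)
  have cB : ContDiffOn ℝ 2 (fun z => 1 - YE α z ^ 2) D :=
    cY (f := fun y => 1 - y ^ 2) (by fun_prop)
  have cG : ContDiffOn ℝ 2 (fun z => 2 - YE α z ^ 2) D :=
    cY (f := fun y => 2 - y ^ 2) (by fun_prop)
  constructor
  · unfold fsub
    exact (cV.sub (cs.mul cE)).sub (((cs.pow 2).div_const 2).mul cB)
  · unfold fgg
    exact cE.add ((contDiffOn_const.mul cs).mul cG)

private theorem FLDLow_far {A₁ A₂ α κ X CV : ℝ} (h1 : 1 ≤ A₁) (h2 : 1 ≤ A₂) (hα : 0 < α)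
    (hκ : 0 < κ) (hCV : 0 < CV)
    (hV : ∀ y : ℝ, |y| ≤ 1 → V1 ast y ≤ CV * (1 - y ^ 2))
    (he : ∀ y : ℝ, |y| ≤ 1 → (1 - y ^ 2) / 2 ≤ e1 ast y) {q : ℝ × ℝ} (hq : q ∈ Ell α)
    (hX : |q.1| < X) (hsub : 0 < fsub A₁ A₂ α κ X q) : |q.1| ≤ X - 1 / (1 + 2 * CV) := by
  have hlt := (ell_sq_lt hq).1
  obtain ⟨f1, f2, f3, _⟩ := fsg_facts (x := q.1) h1 h2 hα hκ hX
  have hY1 : |YE α q| < 1 := (ell_iff_Y hlt).1 hq
  have hYsq : YE α q ^ 2 < 1 := by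
    rw [← sq_abs]
    nlinarith [abs_nonneg (YE α q)]
  have hb0 : 0 < 1 - YE α q ^ 2 := by linarith
  have hVY := hV (YE α q) hY1.le
  have heY := he (YE α q) hY1.le
  have hsub' : 0 < V1 ast (YE α q) - fsg A₁ A₂ α κ X q.1 * e1 ast (YE α q) -
    fsg A₁ A₂ α κ X q.1 ^ 2 / 2 * (1 - YE α q ^ 2) := hsub
  have hσK : fsg A₁ A₂ α κ X q.1 < 2 * CV := by
    by_contra hcon
    push Not at hcon
    have e1 : fsg A₁ A₂ α κ X q.1 * ((1 - YE α q ^ 2) / 2) ≤ fsg A₁ A₂ α κ X q.1 * e1 ast (YE α q) :=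
      mul_le_mul_of_nonneg_left heY f1.le
    have e2 : 0 ≤ fsg A₁ A₂ α κ X q.1 ^ 2 / 2 * (1 - YE α q ^ 2) := by positivity
    have e3 : 2 * CV * (1 - YE α q ^ 2) ≤ fsg A₁ A₂ α κ X q.1 * (1 - YE α q ^ 2) :=
      mul_le_mul_of_nonneg_right hcon hb0.le
    linarith
  by_contra hcon
  push Not at hcon
  have hXp : 0 < X := (abs_nonneg _).trans_lt hX
  have hd0 : 0 < X - |q.1| := by linarith
  have hr : X - |q.1| < 1 / (1 + 2 * CV) := by linarith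
  have hr1 : (X - |q.1|) * (1 + 2 * CV) < 1 := by
    rwa [lt_div_iff₀ (by positivity)] at hr
  have hinv : (1 + 2 * CV) ^ 2 ≤ ((X - |q.1|) ^ 2)⁻¹ := by
    rw [le_inv_comm₀ (by positivity) (by positivity), ← one_div,
      le_div_iff₀ (by positivity), ← mul_pow]
    have h3 : 0 ≤ (X - |q.1|) * (1 + 2 * CV) := by positivity
    nlinarith
  have hge : ((X - |q.1|) ^ 2)⁻¹ ≤ fsg A₁ A₂ α κ X q.1 := by
    have p1 : 0 < X - q.1 := by linarith [le_abs_self q.1]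
    have p2 : 0 < X + q.1 := by linarith [neg_le_abs q.1]
    have h3 : ((X - |q.1|) ^ 2)⁻¹ ≤ ((X - q.1) ^ 2)⁻¹ + ((X + q.1) ^ 2)⁻¹ := by
      rcases abs_cases q.1 with ⟨h, _⟩ | ⟨h, _⟩
      · rw [h]
        have : 0 ≤ ((X + q.1) ^ 2)⁻¹ := by positivity
        linarith
      · rw [h, sub_neg_eq_add]
        have : 0 ≤ ((X - q.1) ^ 2)⁻¹ := by positivity
        linarith
    have h4 : 0 ≤ ((X - q.1) ^ 2)⁻¹ + ((X + q.1) ^ 2)⁻¹ := by positivity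
    have h5 : 1 * (((X - q.1) ^ 2)⁻¹ + ((X + q.1) ^ 2)⁻¹) ≤
      A₂ * (((X - q.1) ^ 2)⁻¹ + ((X + q.1) ^ 2)⁻¹) := mul_le_mul_of_nonneg_right h2 h4
    have h6 : 0 ≤ A₁ * (κ + α * X) := by positivity
    unfold fsg
    linarith
  nlinarith

private theorem FLDLow_bdry {α : ℝ} {q : ℝ × ℝ} (h : α ^ 2 * q.1 ^ 2 < 1) (hC : q ∈ CEll α)
    (hE : q ∉ Ell α) : |YE α q| = 1 := by
  have h1 : α ^ 2 * q.1 ^ 2 + q.2 ^ 2 ≤ 1 := hC
  have h2 : ¬ α ^ 2 * q.1 ^ 2 + q.2 ^ 2 < 1 := hE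
  have h3 : wE α q = 0 := by
    rw [wE]
    linarith [not_lt.1 h2]
  rw [wE_eq_Y h] at h3
  have h4 := (hE_pos h).1
  rcases mul_eq_zero.1 h3 with h5 | h5
  · exact absurd h5 (pow_ne_zero 2 h4.ne')
  · have h6 : YE α q ^ 2 = 1 := by linarith
    have h7 : |YE α q| ^ 2 = 1 := by rw [sq_abs, h6]
    have h8 := abs_nonneg (YE α q)
    nlinarith

private theorem FLDLow_one {y : ℝ} (hy : |y| = 1) : V1 ast y = 0 ∧ e1 ast y = 0 ∧ y ^ 2 = 1 := by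
  have h1 : e1 ast 1 = 0 := by
    unfold e1
    rw [mul_one, ast_eq, sub_self]
  rcases (abs_eq (by norm_num : (0 : ℝ) ≤ 1)).1 hy with h | h
  · rw [h]
    exact ⟨V1_one ast, h1, by norm_num⟩
  · rw [h]
    exact ⟨by rw [V1_even]; exact V1_one ast, by rw [e1_even]; exact h1, by norm_num⟩

private theorem FLDLow_main {A₁ A₂ ε : ℝ} (hA1 : 1 ≤ A₁) (hA2 : 1 ≤ A₂) (hε0 : 0 < ε)
    {α μ κ X : ℝ} {v : ℝ × ℝ → ℝ} (hα : 0 < α) (hκ : 0 < κ) (h : GSol α μ v) (hX : 0 < X)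
    (hαX : α * X ≤ 1 / 4) {CV : ℝ} (hCV : 0 < CV)
    (hV : ∀ y : ℝ, |y| ≤ 1 → V1 ast y ≤ CV * (1 - y ^ 2))
    (he : ∀ y : ℝ, |y| ≤ 1 → (1 - y ^ 2) / 2 ≤ e1 ast y)
    (hmain : ∀ q ∈ Ell α, |q.1| < X → 0 < fsub A₁ A₂ α κ X q →
      -lap (fsub A₁ A₂ α κ X) q ≤ μ * Real.exp (fsub A₁ A₂ α κ X q) ∧
      μ * Real.exp (fsub A₁ A₂ α κ X q) * fgg A₁ A₂ ε α κ X q < -lap (fgg A₁ A₂ ε α κ X) q) :
    ∀ q ∈ Ell α, |q.1| < X → fsub A₁ A₂ α κ X q ≤ v q := by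
  obtain ⟨cS, cG⟩ := FLDLow_sm (ε := ε) (A₁ := A₁) (A₂ := A₂) hA1 hA2 hα hκ hX
  set B : Set (ℝ × ℝ) := {q : ℝ × ℝ | α ^ 2 * q.1 ^ 2 < 1} ∩ {q : ℝ × ℝ | |q.1| < X} with hB
  have hBo : IsOpen B :=
    (isOpen_lt (by fun_prop) continuous_const).inter (isOpen_lt (by fun_prop) continuous_const)
  set D : Set (ℝ × ℝ) := {q | q ∈ Ell α ∧ |q.1| < X ∧ 0 < fsub A₁ A₂ α κ X q} with hD
  have hDB : D ⊆ B := fun q hq => ⟨(ell_sq_lt hq.1).1, hq.2.1⟩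
  have hDE : D ⊆ Ell α := fun q hq => hq.1
  have hDo : IsOpen D := by
    have h1 : D = Ell α ∩ (B ∩ fsub A₁ A₂ α κ X ⁻¹' Set.Ioi 0) := by
      ext q
      constructor
      · rintro ⟨h1, h2, h3⟩
        exact ⟨h1, ⟨(ell_sq_lt h1).1, h2⟩, h3⟩
      · rintro ⟨h1, ⟨_, h2⟩, h3⟩
        exact ⟨h1, h2, h3⟩
    rw [h1]
    exact (FLDLow_open α).inter (cS.continuousOn.isOpen_inter_preimage hBo isOpen_Ioi)
  have hσ : ∀ q : ℝ × ℝ, |q.1| < X → 0 < fsg A₁ A₂ α κ X q.1 := fun q hq =>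
    (fsg_facts (x := q.1) hA1 hA2 hα hκ hq).1
  have gp : ∀ q ∈ CEll α, α ^ 2 * q.1 ^ 2 < 1 → |q.1| < X → 0 < fgg A₁ A₂ ε α κ X q := by
    intro q hq hlt hqX
    have hY : |YE α q| ≤ 1 := by
      by_cases hE : q ∈ Ell α
      · exact ((ell_iff_Y hlt).1 hE).le
      · exact (FLDLow_bdry hlt hq hE).le
    have h2 : YE α q ^ 2 ≤ 1 := by
      rw [← sq_abs]
      nlinarith [abs_nonneg (YE α q)]
    have h3 := he (YE α q) hY
    have h4 : 0 ≤ e1 ast (YE α q) := by linarith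
    have h5 := hσ q hqX
    unfold fgg
    have h6 : 0 < ε * fsg A₁ A₂ α κ X q.1 * (2 - YE α q ^ 2) :=
      mul_pos (mul_pos hε0 h5) (by linarith)
    linarith
  have hvs : ContDiffOn ℝ 2 v (Ell α) := h.smooth.of_le FLDLow_two
  have key := wmp hDo (u := fun q => fsub A₁ A₂ α κ X q - v q) (g := fgg A₁ A₂ ε α κ X)
    (c := fun q => μ * Real.exp (fsub A₁ A₂ α κ X q)) ((cS.mono hDB).sub (hvs.mono hDE))
    (cG.mono hDB) ?_ ?_ ?_ ?_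
  · intro q hq hqX
    by_cases hs : 0 < fsub A₁ A₂ α κ X q
    · have := key q ⟨hq, hqX, hs⟩
      linarith
    · have := h.pos hα q hq
      linarith
  · intro q hq
    have h1 : α ^ 2 * q.1 ^ 2 + q.2 ^ 2 < 1 := hq.1
    exact gp q h1.le (ell_sq_lt hq.1).1 hq.2.1
  · intro q hq
    exact (hmain q hq.1 hq.2.1 hq.2.2).2
  · intro q hq _
    have h1 := (hmain q hq.1 hq.2.1 hq.2.2).1
    have h2 := h.eq q hq.1
    have h3 := FLDLow_exp (fsub A₁ A₂ α κ X q) (v q)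
    have h4 := mul_le_mul_of_nonneg_left h3 h.mu_pos.le
    rw [lap_sub hDo (cS.mono hDB) (hvs.mono hDE) hq]
    show -(lap (fsub A₁ A₂ α κ X) q - lap v q) ≤
      μ * Real.exp (fsub A₁ A₂ α κ X q) * (fsub A₁ A₂ α κ X q - v q)
    linarith
  · intro δ hδ
    have hr0 : 0 < 1 / (1 + 2 * CV) := by positivity
    have hαx : ∀ q : ℝ × ℝ, |q.1| < X → α ^ 2 * q.1 ^ 2 < 1 := by
      intro q hq
      have h1 : α * |q.1| ≤ α * X := mul_le_mul_of_nonneg_left hq.le hα.le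
      have h2 : 0 ≤ α * |q.1| := by positivity
      have h3 : α ^ 2 * q.1 ^ 2 = (α * |q.1|) ^ 2 := by rw [mul_pow, sq_abs]
      rw [h3]
      nlinarith
    set T : Set (ℝ × ℝ) := CEll α ∩ {q : ℝ × ℝ | |q.1| ≤ X - 1 / (1 + 2 * CV)} with hT
    have hTX : ∀ q ∈ T, |q.1| < X := fun q hq => by
      have h1 : |q.1| ≤ X - 1 / (1 + 2 * CV) := hq.2
      linarith
    have hTB : T ⊆ B := fun q hq => ⟨hαx q (hTX q hq), hTX q hq⟩
    have hTc : IsClosed T := (FLDLow_closed α).inter (isClosed_le (by fun_prop) continuous_const)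
    have hTb : Bornology.IsBounded T := by
      refine (Metric.isBounded_closedBall (x := ((0 : ℝ), (0 : ℝ))) (r := X + 1)).subset ?_
      intro q hq
      rw [Metric.mem_closedBall, Prod.dist_eq, max_le_iff, Real.dist_eq, Real.dist_eq]
      have h1 : α ^ 2 * q.1 ^ 2 + q.2 ^ 2 ≤ 1 := hq.1
      have h2 : q.2 ^ 2 ≤ 1 := by
        have : 0 ≤ α ^ 2 * q.1 ^ 2 := by positivity
        linarith
      have h3 : |q.2| ≤ 1 := by
        rw [← sq_abs] at h2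
        nlinarith [abs_nonneg q.2]
      have h4 := hTX q hq
      constructor
      · show |q.1 - 0| ≤ X + 1
        rw [sub_zero]
        linarith
      · show |q.2 - 0| ≤ X + 1
        rw [sub_zero]
        linarith
    have hset : {q | q ∈ D ∧ δ * fgg A₁ A₂ ε α κ X q ≤ fsub A₁ A₂ α κ X q - v q} =
        {q ∈ T | δ * fgg A₁ A₂ ε α κ X q ≤ fsub A₁ A₂ α κ X q - v q} := by
      ext q
      constructor
      · rintro ⟨⟨h1, h2, h3⟩, h4⟩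
        have h5 : α ^ 2 * q.1 ^ 2 + q.2 ^ 2 < 1 := h1
        exact ⟨⟨h5.le, FLDLow_far hA1 hA2 hα hκ hCV hV he h1 h2 h3⟩, h4⟩
      · rintro ⟨h1, h4⟩
        have h2 := hTX q h1
        have h3 := gp q h1.1 (hαx q h2) h2
        have hu : 0 < fsub A₁ A₂ α κ X q - v q := (mul_pos hδ h3).trans_le h4
        have hE : q ∈ Ell α := by
          by_contra hE
          obtain ⟨a1, a2, a3⟩ := FLDLow_one (FLDLow_bdry (hαx q h2) h1.1 hE)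
          have a4 : fsub A₁ A₂ α κ X q = 0 := by
            unfold fsub
            rw [a1, a2, a3]
            ring
          rw [a4, h.zero q hE] at hu
          linarith
        have hv := h.pos hα q hE
        exact ⟨⟨hE, h2, by linarith⟩, h4⟩
    show IsCompact {q | q ∈ D ∧ δ * fgg A₁ A₂ ε α κ X q ≤ fsub A₁ A₂ α κ X q - v q}
    rw [hset]
    refine Metric.isCompact_of_isClosed_isBounded ?_ (hTb.subset fun q hq => hq.1)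
    refine hTc.isClosed_le ?_ ?_
    · exact continuousOn_const.mul (cG.continuousOn.mono hTB)
    · exact (cS.continuousOn.mono hTB).sub h.cont.continuousOn

theorem fold_low : ∃ A : ℝ, 0 < A ∧ ∀ (α μ κ X : ℝ) (v : ℝ × ℝ → ℝ),
    0 < α → 0 < κ → κ ≤ 1 → α ^ 2 ≤ κ ^ 3 → |μ - mu1 ast| ≤ κ ^ 2 → GSol α μ v → 1 ≤ X →
    α * X ≤ 1 / 4 → ∀ q ∈ Ell α, |q.1| ≤ X / 2 →
      V1 ast (YE α q) - A * (κ + α * X + 1 / X ^ 2) * (1 - YE α q ^ 2) ≤ v q := by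
  obtain ⟨A₁, A₂, ε, hA1, hA2, hε0, _, hmain⟩ := fsub_main
  obtain ⟨_, CV, _, hCV, hV⟩ := cst_V
  obtain ⟨Ce, hCe, he⟩ := cst_e
  have hA1p : 0 < A₁ := by linarith
  have hA2p : 0 < A₂ := by linarith
  refine ⟨(A₁ + 8 * A₂) * (Ce + (A₁ * (5 / 4) + 8 * A₂) / 2), by positivity, ?_⟩
  intro α μ κ X v hα hκ hκ1 hακ hμ h hX1 hαX q hq hqX
  have hX : 0 < X := by linarith
  have hqX' : |q.1| < X := by linarith
  have h1 := FLDLow_main hA1 hA2 hε0 hα hκ h hX hαX hCV (fun y hy => (hV y hy).2)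
    (fun y hy => (he y hy).1)
    (fun q hq hqX hs => hmain α μ κ X hα hκ hκ1 hακ hμ h.mu_pos hαX q hq hqX hs) q hq hqX'
  have hlt := (ell_sq_lt hq).1
  obtain ⟨f1, _⟩ := fsg_facts (x := q.1) hA1 hA2 hα hκ hqX'
  have hY1 : |YE α q| < 1 := (ell_iff_Y hlt).1 hq
  have hYsq : YE α q ^ 2 < 1 := by
    rw [← sq_abs]
    nlinarith [abs_nonneg (YE α q)]
  have hb0 : 0 < 1 - YE α q ^ 2 := by linarith
  have heY := (he (YE α q) hY1.le).2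
  have hinv : ∀ z : ℝ, X / 2 ≤ z → (z ^ 2)⁻¹ ≤ 4 / X ^ 2 := by
    intro z hz
    have h2 : (X / 2) ^ 2 ≤ z ^ 2 := pow_le_pow_left₀ (by positivity) hz 2
    have h3 : (z ^ 2)⁻¹ ≤ ((X / 2) ^ 2)⁻¹ := inv_anti₀ (by positivity) h2
    calc (z ^ 2)⁻¹ ≤ ((X / 2) ^ 2)⁻¹ := h3
      _ = 4 / X ^ 2 := by
        field_simp
        norm_num
  have hx1 : X / 2 ≤ X - q.1 := by linarith [le_abs_self q.1]
  have hx2 : X / 2 ≤ X + q.1 := by linarith [neg_le_abs q.1]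
  have hi := add_le_add (hinv _ hx1) (hinv _ hx2)
  have hXi : 1 / X ^ 2 ≤ 1 := by
    rw [div_le_one (by positivity)]
    nlinarith
  have hXi0 : 0 < 1 / X ^ 2 := by positivity
  have hαX0 : 0 < α * X := by positivity
  have hσ1 : fsg A₁ A₂ α κ X q.1 ≤ A₁ * (κ + α * X) + 8 * A₂ * (1 / X ^ 2) := by
    unfold fsg
    have h2 := mul_le_mul_of_nonneg_left hi hA2p.le
    have h3 : A₂ * (4 / X ^ 2 + 4 / X ^ 2) = 8 * A₂ * (1 / X ^ 2) := by ring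
    linarith
  have hσ2 : fsg A₁ A₂ α κ X q.1 ≤ (A₁ + 8 * A₂) * (κ + α * X + 1 / X ^ 2) := by
    have h2 : 0 ≤ A₁ * (1 / X ^ 2) + 8 * A₂ * (κ + α * X) := by positivity
    linarith
  have hσ3 : fsg A₁ A₂ α κ X q.1 ≤ A₁ * (5 / 4) + 8 * A₂ := by
    have h2 : A₁ * (κ + α * X) ≤ A₁ * (5 / 4) := mul_le_mul_of_nonneg_left (by linarith) hA1p.le
    have h3 : 8 * A₂ * (1 / X ^ 2) ≤ 8 * A₂ * 1 := mul_le_mul_of_nonneg_left hXi (by positivity)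
    linarith
  have hs : fsub A₁ A₂ α κ X q = V1 ast (YE α q) - fsg A₁ A₂ α κ X q.1 * e1 ast (YE α q) -
    fsg A₁ A₂ α κ X q.1 ^ 2 / 2 * (1 - YE α q ^ 2) := rfl
  rw [hs] at h1
  generalize fsg A₁ A₂ α κ X q.1 = σ at *
  have k1 : σ * e1 ast (YE α q) ≤ σ * (Ce * (1 - YE α q ^ 2)) :=
    mul_le_mul_of_nonneg_left heY f1.le
  have k2 : σ * σ ≤ σ * (A₁ * (5 / 4) + 8 * A₂) := mul_le_mul_of_nonneg_left hσ3 f1.le
  have k3 : σ ^ 2 / 2 * (1 - YE α q ^ 2) ≤ σ * ((A₁ * (5 / 4) + 8 * A₂) / 2) * (1 - YE α q ^ 2) := by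
    refine mul_le_mul_of_nonneg_right ?_ hb0.le
    nlinarith
  have k4 : σ * (Ce * (1 - YE α q ^ 2)) +
      σ * ((A₁ * (5 / 4) + 8 * A₂) / 2) * (1 - YE α q ^ 2) =
      σ * ((Ce + (A₁ * (5 / 4) + 8 * A₂) / 2) * (1 - YE α q ^ 2)) := by ring
  have k5 : σ * ((Ce + (A₁ * (5 / 4) + 8 * A₂) / 2) * (1 - YE α q ^ 2)) ≤
      (A₁ + 8 * A₂) * (κ + α * X + 1 / X ^ 2) *
        ((Ce + (A₁ * (5 / 4) + 8 * A₂) / 2) * (1 - YE α q ^ 2)) :=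
    mul_le_mul_of_nonneg_right hσ2 (by positivity)
  have k6 : (A₁ + 8 * A₂) * (κ + α * X + 1 / X ^ 2) *
        ((Ce + (A₁ * (5 / 4) + 8 * A₂) / 2) * (1 - YE α q ^ 2)) =
      (A₁ + 8 * A₂) * (Ce + (A₁ * (5 / 4) + 8 * A₂) / 2) * (κ + α * X + 1 / X ^ 2) *
        (1 - YE α q ^ 2) := by ring
  linarith

end Pool.Agent.MFE
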