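import Pool.Agent.MFE.FLDBnd
import Pool.Agent.MFE.BND

/-!
# MFE.FLDNcd: normalised critical data near the fold (regime C)

`NCD.sub`: subsequences. `Fold.amp`: `v n (0,0) ≤ V1 ast 0 + κ n = pst + κ n` (`h0`, `V1_zero`), `κ n` bounded
(convergent), `μ n ≤ 4 v n (0,0)` (`gsol_mu_le`), `v n ≤ v n (0,0)` (`GSol.le_max`): `0 < μ n e^{v n} ≤ C`;
`1/μ n → 1/mu1 ast` is bounded and `v n ≥ 0`, so `μ n e^{v n} ≥ μ n ≥ 1/C`.
`NCD.mean`: the mean condition times `μ`. `NCD.t_le`: `t ∫e^v = ∫e^v φ ≤ ∫e^v`.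
`NCD.wE_bd`: `cd_dir`, `dir_bound` with `|μ e^v (φ - t)| ≤ 2C`. `φ ≤ C(1-y²) ≤ 2C e(y)` (`wE ≤ 1-y²`, `cst_e`).
-/

open Filter Topology
open scoped ContDiff

namespace Pool.Agent.MFE

/-- normalised critical data along a sequence near the fold -/
structure NCD (α μ κ t : ℕ → ℝ) (v φ : ℕ → ℝ × ℝ → ℝ) : Prop where
  fold : Fold α μ κ v
  cd : ∀ n, CD (α n) (μ n) (t n) (v n) (φ n)
  t_nonneg : ∀ n, 0 ≤ t n
  le_one : ∀ n q, |φ n q| ≤ 1
  att : ∀ n, ∃ q, |φ n q| = 1

variable {α μ κ t : ℕ → ℝ} {v φ : ℕ → ℝ × ℝ → ℝ} {ψ : ℕ → ℕ}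

theorem NCD.sub (h : NCD α μ κ t v φ) (hψ : StrictMono ψ) :
    NCD (fun n => α (ψ n)) (fun n => μ (ψ n)) (fun n => κ (ψ n)) (fun n => t (ψ n))
      (fun n => v (ψ n)) (fun n => φ (ψ n)) :=
  ⟨h.fold.sub hψ, fun n => h.cd (ψ n), fun n => h.t_nonneg (ψ n), fun n => h.le_one (ψ n),
    fun n => h.att (ψ n)⟩

private theorem FLDNcd_mu (h : Fold α μ κ v) : Tendsto μ atTop (𝓝 (mu1 ast)) := by
  rw [tendsto_iff_dist_tendsto_zero]
  refine squeeze_zero (fun n => dist_nonneg) (g := fun n => κ n ^ 2) (fun n => ?_) ?_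
  · rw [Real.dist_eq]
    exact h.hμ n
  · simpa using h.par.κ_lim.pow 2

theorem Fold.amp (h : Fold α μ κ v) : ∃ C : ℝ, 0 < C ∧ ∀ n q,
    1 / C ≤ μ n * Real.exp (v n q) ∧ μ n * Real.exp (v n q) ≤ C := by
  obtain ⟨K, hK⟩ := h.par.κ_lim.bddAbove_range
  have hmu := FLDNcd_mu h
  have hmp : 0 < mu1 ast := mu1_pos ast_pos
  obtain ⟨K', hK'⟩ := (hmu.inv₀ hmp.ne').bddAbove_range
  have hKn : ∀ n, κ n ≤ K := fun n => hK ⟨n, rfl⟩
  have hKn' : ∀ n, (μ n)⁻¹ ≤ K' := fun n => hK' ⟨n, rfl⟩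
  have hK'0 : 0 < K' := lt_of_lt_of_le (inv_pos.2 (h.sol 0).mu_pos) (hKn' 0)
  have hK0 : 0 < K := lt_of_lt_of_le (h.par.κ_pos 0) (hKn 0)
  have hV0 : V1 ast 0 = pst := by rw [V1_zero]; rfl
  have hp := pst_pos
  have hamp : ∀ n, v n (0, 0) ≤ pst + K := by
    intro n
    have h1 := h.h0 n 0 (by simp)
    rw [hV0, abs_le] at h1
    linarith [hKn n, h1.2]
  refine ⟨max (4 * (pst + K) * Real.exp (pst + K)) K', lt_max_of_lt_right hK'0,
    fun n q => ⟨?_, ?_⟩⟩
  · have hm := (h.sol n).mu_pos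
    have h1 : 1 / max (4 * (pst + K) * Real.exp (pst + K)) K' ≤ 1 / K' :=
      one_div_le_one_div_of_le hK'0 (le_max_right _ _)
    have h2 : 1 / K' ≤ μ n := by
      rw [div_le_iff₀ hK'0]
      have h3 := mul_le_mul_of_nonneg_left (hKn' n) hm.le
      rw [mul_inv_cancel₀ hm.ne'] at h3
      exact h3
    have h3 : 1 ≤ Real.exp (v n q) :=
      Real.one_le_exp ((h.sol n).nonneg (h.par.α_pos n) q)
    nlinarith
  · refine le_trans ?_ (le_max_left _ _)
    have h1 := gsol_mu_le (h.par.α_pos n) (h.par.α_le n) (h.sol n)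
    have h2 : Real.exp (v n q) ≤ Real.exp (pst + K) := by
      refine Real.exp_le_exp.2 (le_trans ?_ (hamp n))
      exact (h.sol n).le_max (h.par.α_pos n) q
    have h3 := hamp n
    have h4 : μ n ≤ 4 * (pst + K) := by linarith
    exact mul_le_mul h4 h2 (Real.exp_pos _).le (by positivity)

private theorem FLDNcd_sub (a : ℝ) : Ell a ⊆ CEll a := by
  intro q hq
  have h : a ^ 2 * q.1 ^ 2 + q.2 ^ 2 < 1 := hq
  exact (show a ^ 2 * q.1 ^ 2 + q.2 ^ 2 ≤ 1 from h.le)

private theorem FLDNcd_int {a : ℝ} (ha : 0 < a) {f : ℝ × ℝ → ℝ} (hf : Continuous f) :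
    MeasureTheory.IntegrableOn f (Ell a) :=
  (hf.continuousOn.integrableOn_compact (isCompact_cell ha)).mono_set (FLDNcd_sub a)

theorem NCD.mean (h : NCD α μ κ t v φ) (n : ℕ) :
    ∫ q in Ell (α n), μ n * Real.exp (v n q) * φ n q =
      t n * ∫ q in Ell (α n), μ n * Real.exp (v n q) := by
  have hα := h.fold.par.α_pos n
  have hv := (h.cd n).sol.cont
  have hφ := (h.cd n).cont
  have i1 : MeasureTheory.IntegrableOn (fun q => μ n * Real.exp (v n q) * φ n q) (Ell (α n)) :=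
    FLDNcd_int hα ((continuous_const.mul hv.rexp).mul hφ)
  have i2 : MeasureTheory.IntegrableOn (fun q => t n * (μ n * Real.exp (v n q))) (Ell (α n)) :=
    FLDNcd_int hα (continuous_const.mul (continuous_const.mul hv.rexp))
  have h1 : ∫ q in Ell (α n), (μ n * Real.exp (v n q) * φ n q -
      t n * (μ n * Real.exp (v n q))) = 0 := by
    have e : (fun q => μ n * Real.exp (v n q) * φ n q - t n * (μ n * Real.exp (v n q))) =
        fun q => μ n * (Real.exp (v n q) * (φ n q - t n)) := by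
      funext q
      ring
    rw [e, MeasureTheory.integral_const_mul, (h.cd n).mean, mul_zero]
  rw [MeasureTheory.integral_sub i1 i2, sub_eq_zero] at h1
  rw [h1, MeasureTheory.integral_const_mul]

theorem NCD.t_le (h : NCD α μ κ t v φ) (n : ℕ) : t n ≤ 1 := by
  obtain ⟨C, hC, hamp⟩ := h.fold.amp
  have hα := h.fold.par.α_pos n
  have hv := (h.cd n).sol.cont
  have hφ := (h.cd n).cont
  have i1 : MeasureTheory.IntegrableOn (fun q => μ n * Real.exp (v n q) * φ n q) (Ell (α n)) :=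
    FLDNcd_int hα ((continuous_const.mul hv.rexp).mul hφ)
  have i2 : MeasureTheory.IntegrableOn (fun q => μ n * Real.exp (v n q)) (Ell (α n)) :=
    FLDNcd_int hα (continuous_const.mul hv.rexp)
  have i3 : MeasureTheory.IntegrableOn (fun _ : ℝ × ℝ => 1 / C) (Ell (α n)) :=
    FLDNcd_int hα continuous_const
  have hle : ∫ q in Ell (α n), μ n * Real.exp (v n q) * φ n q ≤
      ∫ q in Ell (α n), μ n * Real.exp (v n q) := by
    refine MeasureTheory.integral_mono i1 i2 fun q => ?_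
    have h1 : 0 < μ n * Real.exp (v n q) := mul_pos (h.cd n).sol.mu_pos (Real.exp_pos _)
    exact mul_le_of_le_one_right h1.le ((le_abs_self _).trans (h.le_one n q))
  have hpos : 0 < ∫ q in Ell (α n), μ n * Real.exp (v n q) := by
    have h1 : ∫ q in Ell (α n), (1 / C : ℝ) ≤ ∫ q in Ell (α n), μ n * Real.exp (v n q) :=
      MeasureTheory.integral_mono i3 i2 fun q => (hamp n q).1
    have h2 : ∫ q in Ell (α n), (1 / C : ℝ) = Real.pi / α n * (1 / C) := by
      rw [MeasureTheory.setIntegral_const, MeasureTheory.measureReal_def, area_ell hα,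
        ENNReal.toReal_ofReal (by positivity), smul_eq_mul]
    rw [h2] at h1
    have h3 : 0 < Real.pi / α n * (1 / C) := by positivity
    linarith
  rw [h.mean n] at hle
  by_contra hcon
  push Not at hcon
  nlinarith

theorem NCD.wE_bd (h : NCD α μ κ t v φ) : ∃ C : ℝ, 0 < C ∧ ∀ n,
    (∀ q ∈ Ell (α n), |φ n q| ≤ C * wE (α n) q) ∧
    (∀ q : ℝ × ℝ, |q.2| ≤ 1 → |φ n q| ≤ C * e1 ast q.2) := by
  obtain ⟨C, hC, hamp⟩ := h.fold.amp
  obtain ⟨D, hD, he⟩ := cst_e
  have key : ∀ n, ∀ q ∈ Ell (α n), |φ n q| ≤ C * wE (α n) q := by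
    intro n q hq
    have hα := h.fold.par.α_pos n
    have hv := (h.cd n).sol.cont
    have hφ := (h.cd n).cont
    have hg : Continuous (fun q => μ n * Real.exp (v n q) * (φ n q - t n)) :=
      (continuous_const.mul hv.rexp).mul (hφ.sub continuous_const)
    have hb : ∀ q ∈ Ell (α n), |μ n * Real.exp (v n q) * (φ n q - t n)| ≤ 2 * C := by
      intro q _
      have h1 : 0 < μ n * Real.exp (v n q) := mul_pos (h.cd n).sol.mu_pos (Real.exp_pos _)
      rw [abs_mul, abs_of_pos h1]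
      have h2 : |φ n q - t n| ≤ 2 := by
        have h3 := abs_le.1 (h.le_one n q)
        have h4 := h.t_nonneg n
        have h5 := h.t_le n
        rw [abs_le]
        constructor <;> linarith
      have h3 := (hamp n q).2
      have h4 := abs_nonneg (φ n q - t n)
      nlinarith
    have h1 := dir_bound hα hg.continuousOn (cd_dir (h.cd n)) hb q hq
    linarith
  have hwE : ∀ n (q : ℝ × ℝ), wE (α n) q ≤ 1 - q.2 ^ 2 := by
    intro n q
    unfold wE
    have : 0 ≤ α n ^ 2 * q.1 ^ 2 := by positivity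
    linarith
  refine ⟨2 * C, by positivity, fun n => ⟨fun q hq => ?_, fun q hq => ?_⟩⟩
  · have h1 := key n q hq
    have h2 : 0 < wE (α n) q := by
      unfold wE
      have h3 : α n ^ 2 * q.1 ^ 2 + q.2 ^ 2 < 1 := hq
      linarith
    nlinarith
  · by_cases hqE : q ∈ Ell (α n)
    · have h1 := key n q hqE
      have h2 := hwE n q
      have h3 := (he q.2 hq).1
      nlinarith
    · rw [(h.cd n).zero q hqE, abs_zero]
      have h3 := (he q.2 hq).1
      have h4 : q.2 ^ 2 ≤ 1 := by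
        rw [← sq_abs]
        have := abs_nonneg q.2
        nlinarith
      have h5 : 0 ≤ e1 ast q.2 := by linarith
      positivity

end Pool.Agent.MFE
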