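import Pool.Agent.MFE.FLDNcd
import Pool.Agent.MFE.WMP

/-!
# MFE.FLDOut: exponential decay outside the windows (regime C)

`W(Ξ₀) < 0`, `w₀ = -W(Ξ₀)`, `q = pot1 ast`, `e = e1 ast`, `g(y) = e(y) + κβ(2 - y²)`.
`outer_super`: for `√κ|x| ≥ Ξ₀`: `v(x,y) ≤ v(Ξ₀/√κ, y) ≤ V(y) + κ(-w₀ e(y) + ε)` (`GSol.anti_x`, `ScalLim` at
`ξ = Ξ₀`, `fold_uy`), so with `|μ - mu1 ast| ≤ κ²` and `cst_exp`
`E := μ e^v ≤ (μ/mu1 ast) q exp(κ(-w₀e + ε)) ≤ q (1 - κw₀e + 2κε)` for large `n`, and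
`E g ≤ qe + κ(-w₀ q e² + βq(2-y²) + 2εqe + Cκ)`. `-lap g = q e + 2βκ` (`lap_snd`, `e1_deriv2`). Hence
`-lap g - E g ≥ κ (w₀ q e² + β(2 - q(2-y²)) - 2εqe - Cκ) ≥ κ c/2`, with `β, c` from `alg2 (δ = w₀)` and
`ε` small (`qe ≤ 25/8`), `n` large. Note `0 < βκ ≤ g ≤ 3` on `|y| ≤ 1`.
`outer_bd`: `x₀ = Ξ₀/√κ`, `γ² ≤ c/8` (`γ ≤ 1`), `bar = C₀ e^{-γ(√κ x - Ξ₀)} g(y)` on `D = Ell α ∩ {x > x₀}`:
`-lap bar - E bar = C₀ e^{..}(-lap g - Eg - γ²κ g) ≥ C₀ e^{..}(c/2 - 3γ²)κ > 0` (`lap_prod`).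
`-lap φ - Eφ = -Et ≤ 0`. On the boundary: `x = x₀`: `φ ≤ C₀ e(y) ≤ bar` (`NCD.wE_bd`); on the ellipse
`φ = 0`. `wmp_bdd_pot` (strict supersolution `g`, positive on the closure): `φ ≤ bar ≤ 3C₀ e^{γΞ₀}e^{-γ√κ|x|}`.
For `-φ`: `-lap(-φ) - E(-φ) = Et ≤ C₁ t`: compare with `bar + (2C₁/(c κ)) t g`. For `x < -x₀`: evenness
(`CD.evx`); for `|x| ≤ x₀`: `|φ| ≤ 1 ≤ e^{γΞ₀} e^{-γ√κ|x|}`. Outside the ellipse `φ = 0`.
-/

open Filter Topology
open scoped ContDiff

namespace Pool.Agent.MFE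

variable {α μ κ t : ℕ → ℝ} {v φ : ℕ → ℝ × ℝ → ℝ} {W : ℝ → ℝ} {Ξ₀ : ℝ}

private theorem FLDOut_lim {κ : ℕ → ℝ} (h : Tendsto κ atTop (𝓝 0)) {δ : ℝ} (hδ : 0 < δ) :
    ∀ᶠ n in atTop, κ n < δ := h.eventually (gt_mem_nhds hδ)

/-- the profile `e + κ β (2 - y²)` -/
private noncomputable def FLDOut_G (b y : ℝ) : ℝ := e1 ast y + b * (2 - y ^ 2)

private theorem FLDOut_Gs (b : ℝ) : ContDiff ℝ 2 (FLDOut_G b) := by
  unfold FLDOut_G
  have h1 : ContDiff ℝ 2 (e1 ast) := (e1_smooth ast).of_le (by exact WithTop.coe_le_coe.2 le_top)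
  have h2 : ContDiff ℝ 2 (fun y : ℝ => b * (2 - y ^ 2)) := by fun_prop
  exact h1.add h2

private theorem FLDOut_G2 (b y : ℝ) :
    deriv (deriv (FLDOut_G b)) y = -(pot1 ast y * e1 ast y) - 2 * b := by
  have hs : ContDiff ℝ 2 (e1 ast) := (e1_smooth ast).of_le (by exact WithTop.coe_le_coe.2 le_top)
  have h0 : ∀ y, HasDerivAt (e1 ast) (deriv (e1 ast) y) y := fun y =>
    (hs.differentiable (by simp) y).hasDerivAt
  have h1 : ∀ y, HasDerivAt (deriv (e1 ast)) (deriv (deriv (e1 ast)) y) y := fun y =>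
    (hs.differentiable_deriv_two y).hasDerivAt
  have e1' : deriv (FLDOut_G b) = fun y => deriv (e1 ast) y + b * (-(2 * y)) := by
    funext y
    have h2 : HasDerivAt (fun y : ℝ => b * (2 - y ^ 2)) (b * (-(2 * y))) y := by
      have h3 : HasDerivAt (fun y : ℝ => 2 - y ^ 2) (-(2 * y)) y := by
        refine HasDerivAt.congr_deriv ((hasDerivAt_pow 2 y).const_sub 2) ?_
        simp
      exact h3.const_mul b
    exact ((h0 y).add h2).deriv
  rw [e1']
  have h2 : HasDerivAt (fun y : ℝ => b * (-(2 * y))) (b * (-(2 * 1))) y :=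
    (((hasDerivAt_id y).const_mul 2).neg).const_mul b
  have h3 : HasDerivAt (fun y => deriv (e1 ast) y + b * (-(2 * y)))
      (deriv (deriv (e1 ast)) y + b * (-(2 * 1))) y := (h1 y).add h2
  rw [h3.deriv, e1_deriv2]
  ring

private theorem FLDOut_lapG (b : ℝ) (q : ℝ × ℝ) :
    lap (fun z : ℝ × ℝ => FLDOut_G b z.2) q = -(pot1 ast q.2 * e1 ast q.2) - 2 * b := by
  rw [lap_snd (FLDOut_G b) (FLDOut_Gs b), FLDOut_G2]

theorem outer_super (h : Fold α μ κ v) (hW : ScalLim κ (fun n => uY (α n) (κ n) (v n)) W)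
    (hΞ : 0 < Ξ₀) (hneg : W Ξ₀ < 0) :
    ∃ β c : ℝ, 0 < β ∧ β ≤ 1 ∧ 0 < c ∧ ∀ᶠ n in atTop, ∀ q ∈ Ell (α n), Ξ₀ ≤ √(κ n) * |q.1| →
      μ n * Real.exp (v n q) * (e1 ast q.2 + κ n * β * (2 - q.2 ^ 2)) + c * κ n
        ≤ -lap (fun z => e1 ast z.2 + κ n * β * (2 - z.2 ^ 2)) q := by
  obtain ⟨β, c₀, hβ, hβ1, hc₀, halg⟩ := alg2 (δ := -W Ξ₀) (by linarith)
  refine ⟨β, c₀ / 2, hβ, hβ1, by positivity, ?_⟩
  set w₀ := -W Ξ₀ with hw₀
  have hw₀0 : 0 < w₀ := by linarith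
  set ε := c₀ / 40 with hε
  have hε0 : 0 < ε := by positivity
  obtain ⟨A, hA, huy⟩ := fold_uy h
  set Ξ := max 1 Ξ₀ with hΞd
  have hΞ1 : 1 ≤ Ξ := le_max_left _ _
  have hΞ0 : Ξ₀ ≤ Ξ := le_max_right _ _
  set m₁ := mu1 ast with hm₁
  have hm₁0 : 0 < m₁ := mu1_pos ast_pos
  set K₁ := (w₀ + ε) ^ 2 + 3 / m₁ with hK₁
  have hK₁0 : 0 < K₁ := by positivity
  have hlim := h.par.κ_lim
  filter_upwards [hW Ξ₀ (ε / 2) hΞ (by positivity), huy Ξ hΞ1,
    FLDOut_lim hlim one_pos, FLDOut_lim hlim (δ := 1 / (w₀ + ε)) (by positivity),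
    FLDOut_lim hlim (δ := ε / 2 / (A * Ξ ^ 2)) (by positivity),
    FLDOut_lim hlim (δ := ε / K₁) (by positivity)] with n h1 h2 h3 h4 h5 h6 q hq hqx
  have hα := h.par.α_pos n
  have hκ := h.par.κ_pos n
  have hs : 0 < √(κ n) := Real.sqrt_pos.2 hκ
  have hsol := h.sol n
  have hmu : 0 < μ n := hsol.mu_pos
  have hy : |q.2| ≤ 1 := by
    have h7 : α n ^ 2 * q.1 ^ 2 + q.2 ^ 2 < 1 := hq
    have h8 : q.2 ^ 2 ≤ 1 := by
      have := mul_nonneg (sq_nonneg (α n)) (sq_nonneg q.1)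
      linarith
    exact (sq_le_one_iff_abs_le_one _).1 h8
  set κ' := κ n with hκ'
  set y := q.2 with hyd
  set x₀ := Ξ₀ / √κ' with hx₀
  have hx₀0 : 0 < x₀ := by positivity
  have hsx : √κ' * |x₀| = Ξ₀ := by
    rw [abs_of_pos hx₀0, hx₀]
    field_simp
  have hsx' : √κ' * x₀ = Ξ₀ := by rw [hx₀]; field_simp
  -- the bound for `v`
  have hxq : |x₀| ≤ |q.1| := by
    by_contra hlt
    rw [not_le] at hlt
    have := mul_lt_mul_of_pos_left hlt hs
    rw [hsx] at this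
    linarith
  have hv1 : v n q ≤ v n (x₀, y) := by
    have := hsol.anti_x hα (x := x₀) (x' := q.1) (y := y) hxq
    exact this
  have hv2 := (abs_le.1 (h1 (x₀, y) ⟨by rw [hsx], hy⟩)).2
  have hv3 := (abs_le.1 (h2 (x₀, y) (by rw [hsx]; exact hΞ0) hy)).1
  simp only at hv2 hv3
  rw [hsx'] at hv2
  have hκA : A * Ξ ^ 2 * κ' ≤ ε / 2 := by
    rw [lt_div_iff₀ (by positivity)] at h5
    linarith
  set e := e1 ast y with he
  have he0 : 0 ≤ e := by
    rcases eq_or_lt_of_le hy with h7 | h7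
    · have h8 : e = e1 ast 1 := by
        rw [he]
        exact le_antisymm (e1_anti (by rw [abs_one, h7])) (e1_anti (by rw [abs_one, h7]))
      rw [h8, e1_ast_one]
    · exact (e1_ast_pos h7).le
  have he1 : e ≤ 1 := e1_le_one
  have hv4 : v n (x₀, y) ≤ V1 ast y + κ' * (-w₀ * e + ε) := by
    have h7 : uy κ' (v n) (x₀, y) ≤ -w₀ * e + ε := by
      have : W Ξ₀ = -w₀ := by rw [hw₀]; ring
      rw [this] at hv2
      linarith
    unfold uy at h7
    rw [div_le_iff₀ hκ] at h7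
    simp only at h7
    linarith
  set s := κ' * (-w₀ * e + ε) with hs'
  have hwe : κ' * (w₀ + ε) ≤ 1 := by
    rw [lt_div_iff₀ (by positivity)] at h4
    linarith
  have hsabs : |s| ≤ κ' * (w₀ + ε) := by
    rw [hs', abs_mul, abs_of_pos hκ]
    apply mul_le_mul_of_nonneg_left _ hκ.le
    rw [abs_le]
    have h9 : w₀ * e ≤ w₀ := mul_le_of_le_one_right hw₀0.le he1
    have h10 : 0 ≤ w₀ * e := mul_nonneg hw₀0.le he0
    constructor <;> linarith
  have hs1 : |s| ≤ 1 := hsabs.trans hwe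
  have hexp : Real.exp s ≤ 1 + s + s ^ 2 := by
    have := (abs_le.1 (Real.abs_exp_sub_one_sub_id_le hs1)).2
    linarith
  set qq := pot1 ast y with hqq
  obtain ⟨hq0, _, hq25⟩ := cst_q y
  have hE : μ n * Real.exp (v n q) ≤ μ n / m₁ * (qq * Real.exp s) := by
    have h7 : Real.exp (v n q) ≤ Real.exp (V1 ast y) * Real.exp s := by
      rw [← Real.exp_add]
      exact Real.exp_le_exp.2 (hv1.trans hv4)
    rw [cst_exp] at h7
    calc μ n * Real.exp (v n q) ≤ μ n * (pot1 ast y / mu1 ast * Real.exp s) :=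
          mul_le_mul_of_nonneg_left h7 hmu.le
      _ = μ n / m₁ * (qq * Real.exp s) := by
          rw [hm₁, hqq]
          ring
  have hmu2 : μ n / m₁ ≤ 1 + κ' ^ 2 / m₁ := by
    have h7 := (abs_le.1 (h.hμ n)).2
    rw [div_le_iff₀ hm₁0, add_mul, div_mul_cancel₀ _ hm₁0.ne']
    linarith
  have hs2 : s ^ 2 ≤ κ' ^ 2 * (w₀ + ε) ^ 2 := by
    rw [← mul_pow, ← sq_abs s]
    exact pow_le_pow_left₀ (abs_nonneg _) hsabs 2
  have hs2' : s ^ 2 ≤ 1 := by
    rw [← sq_abs]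
    exact pow_le_one₀ (abs_nonneg _) hs1
  have hK : κ' ^ 2 * K₁ ≤ κ' * ε := by
    rw [lt_div_iff₀ hK₁0] at h6
    have h7 : κ' * (κ' * K₁) ≤ κ' * ε := mul_le_mul_of_nonneg_left h6.le hκ.le
    linarith
  have hbd : (1 + κ' ^ 2 / m₁) * (1 + s + s ^ 2) ≤ 1 - κ' * w₀ * e + 2 * κ' * ε := by
    have h7 : s ≤ 1 := (abs_le.1 hs1).2
    have h8 : κ' ^ 2 / m₁ * (1 + s + s ^ 2) ≤ κ' ^ 2 / m₁ * 3 := by
      apply mul_le_mul_of_nonneg_left _ (by positivity)
      linarith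
    have h9 : κ' ^ 2 * K₁ = κ' ^ 2 * (w₀ + ε) ^ 2 + κ' ^ 2 / m₁ * 3 := by
      rw [hK₁]
      ring
    have h10 : s = -(κ' * w₀ * e) + κ' * ε := by
      rw [hs']
      ring
    have h11 : (1 + κ' ^ 2 / m₁) * (1 + s + s ^ 2) =
        (1 + s + s ^ 2) + κ' ^ 2 / m₁ * (1 + s + s ^ 2) := by ring
    rw [h11]
    linarith
  have hE2 : μ n * Real.exp (v n q) ≤ qq * (1 - κ' * w₀ * e + 2 * κ' * ε) := by
    have h7 : μ n / m₁ * Real.exp s ≤ 1 - κ' * w₀ * e + 2 * κ' * ε := by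
      refine le_trans ?_ hbd
      exact mul_le_mul hmu2 hexp (Real.exp_pos _).le (by positivity)
    calc μ n * Real.exp (v n q) ≤ μ n / m₁ * (qq * Real.exp s) := hE
      _ = qq * (μ n / m₁ * Real.exp s) := by ring
      _ ≤ qq * (1 - κ' * w₀ * e + 2 * κ' * ε) := mul_le_mul_of_nonneg_left h7 hq0.le
  have hy2 : y ^ 2 ≤ 1 := by
    rw [← sq_abs]
    exact pow_le_one₀ (abs_nonneg _) hy
  have hy0 : 0 ≤ y ^ 2 := sq_nonneg y
  have hlap : lap (fun z : ℝ × ℝ => e1 ast z.2 + κ' * β * (2 - z.2 ^ 2)) q =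
      -(qq * e) - 2 * (κ' * β) := FLDOut_lapG (κ' * β) q
  rw [hlap]
  have hg0 : 0 ≤ e + κ' * β * (2 - y ^ 2) := by
    have : 0 ≤ κ' * β * (2 - y ^ 2) := mul_nonneg (by positivity) (by linarith)
    linarith
  have hEg : μ n * Real.exp (v n q) * (e + κ' * β * (2 - y ^ 2)) ≤
      qq * (1 - κ' * w₀ * e + 2 * κ' * ε) * (e + κ' * β * (2 - y ^ 2)) :=
    mul_le_mul_of_nonneg_right hE2 hg0
  have hexpand : qq * (1 - κ' * w₀ * e + 2 * κ' * ε) * (e + κ' * β * (2 - y ^ 2)) ≤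
      qq * e + κ' * (β * (qq * (2 - y ^ 2)) - w₀ * (qq * e ^ 2) + 2 * ε * (qq * e) +
        4 * ε * qq * κ') := by
    have h7 : qq * (1 - κ' * w₀ * e + 2 * κ' * ε) * (e + κ' * β * (2 - y ^ 2)) =
        qq * e + κ' * (β * (qq * (2 - y ^ 2)) - w₀ * (qq * e ^ 2) + 2 * ε * (qq * e)) -
          κ' ^ 2 * (qq * w₀ * e * β * (2 - y ^ 2)) +
          κ' ^ 2 * (2 * ε * qq * (β * (2 - y ^ 2))) := by ring
    rw [h7]
    have h8 : 0 ≤ κ' ^ 2 * (qq * w₀ * e * β * (2 - y ^ 2)) := by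
      apply mul_nonneg (sq_nonneg _)
      apply mul_nonneg _ (by linarith)
      positivity
    have h9 : β * (2 - y ^ 2) ≤ 2 :=
      (mul_le_mul hβ1 (by linarith : 2 - y ^ 2 ≤ 2) (by linarith) zero_le_one).trans (by norm_num)
    have h10 : κ' ^ 2 * (2 * ε * qq * (β * (2 - y ^ 2))) ≤ κ' ^ 2 * (2 * ε * qq * 2) := by
      apply mul_le_mul_of_nonneg_left _ (sq_nonneg _)
      exact mul_le_mul_of_nonneg_left h9 (by positivity)
    have h11 : κ' ^ 2 * (2 * ε * qq * 2) = κ' * (4 * ε * qq * κ') := by ring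
    rw [h11] at h10
    have h12 : κ' * (β * (qq * (2 - y ^ 2)) - w₀ * (qq * e ^ 2) + 2 * ε * (qq * e) +
        4 * ε * qq * κ') = κ' * (β * (qq * (2 - y ^ 2)) - w₀ * (qq * e ^ 2) +
        2 * ε * (qq * e)) + κ' * (4 * ε * qq * κ') := by ring
    rw [h12]
    linarith
  have halgy := halg y hy
  have hfin : 2 * ε * (qq * e) + 4 * ε * qq * κ' ≤ c₀ / 2 := by
    have h7 : qq * e ≤ 25 / 8 :=
      (mul_le_mul hq25 he1 he0 (by norm_num)).trans (by norm_num)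
    have h8 : qq * κ' ≤ 25 / 8 :=
      (mul_le_mul hq25 h3.le hκ.le (by norm_num)).trans (by norm_num)
    have h9 : 2 * ε * (qq * e) + 4 * ε * (qq * κ') ≤ 2 * ε * (25 / 8) + 4 * ε * (25 / 8) := by
      apply add_le_add
      · exact mul_le_mul_of_nonneg_left h7 (by positivity)
      · exact mul_le_mul_of_nonneg_left h8 (by positivity)
    have h10 : 2 * ε * (25 / 8) + 4 * ε * (25 / 8) ≤ c₀ / 2 := by
      rw [hε]
      linarith
    linarith
  have hmain : κ' * (β * (qq * (2 - y ^ 2)) - w₀ * (qq * e ^ 2) + 2 * ε * (qq * e) +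
        4 * ε * qq * κ') + c₀ / 2 * κ' ≤ 2 * (κ' * β) := by
    have h7 : β * (qq * (2 - y ^ 2)) - w₀ * (qq * e ^ 2) + 2 * ε * (qq * e) +
        4 * ε * qq * κ' + c₀ / 2 ≤ 2 * β := by linarith
    have h8 := mul_le_mul_of_nonneg_left h7 hκ.le
    linarith
  linarith

theorem outer_bd (h : NCD α μ κ t v φ) (hW : ScalLim κ (fun n => uY (α n) (κ n) (v n)) W)
    (hΞ : 0 < Ξ₀) (hneg : W Ξ₀ < 0) :
    ∃ C γ : ℝ, 0 < C ∧ 0 < γ ∧ ∀ᶠ n in atTop, ∀ q : ℝ × ℝ,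
      φ n q ≤ C * Real.exp (-(γ * (√(κ n) * |q.1|))) ∧
      -φ n q ≤ C * Real.exp (-(γ * (√(κ n) * |q.1|))) + C * (t n / κ n) := by
  obtain ⟨β, c, hβ, hβ1, hc, hsup⟩ := outer_super h.fold hW hΞ hneg
  obtain ⟨C₀, hC₀, hwE⟩ := h.wE_bd
  obtain ⟨C₁, hC₁, hamp⟩ := h.fold.amp
  set γ := min 1 (c / 6) with hγ
  have hγ0 : 0 < γ := lt_min one_pos (by positivity)
  have hγ1 : γ ≤ 1 := min_le_left _ _
  have hγc : γ ≤ c / 6 := min_le_right _ _
  have hγ2 : 3 * γ ^ 2 ≤ c / 2 := by nlinarith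
  have hEγ : 0 < Real.exp (γ * Ξ₀) := Real.exp_pos _
  refine ⟨3 * C₀ * Real.exp (γ * Ξ₀) + Real.exp (γ * Ξ₀) + 3 * C₁ / c, γ, by positivity, hγ0, ?_⟩
  have hlim := h.fold.par.κ_lim
  filter_upwards [hsup, FLDOut_lim hlim one_pos] with n hn hκ1 q₀
  have hα := h.fold.par.α_pos n
  have hκ := h.fold.par.κ_pos n
  have hcd := h.cd n
  have hsol := hcd.sol
  have hmu : 0 < μ n := hsol.mu_pos
  have ht := h.t_nonneg n
  have hs : 0 < √(κ n) := Real.sqrt_pos.2 hκ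
  have htk : 0 ≤ t n / κ n := div_nonneg ht hκ.le
  set C := 3 * C₀ * Real.exp (γ * Ξ₀) + Real.exp (γ * Ξ₀) + 3 * C₁ / c with hC
  have hC0 : 0 < C := by positivity
  -- reduction to `q.1 ≥ 0`
  suffices hpos : ∀ q : ℝ × ℝ, 0 ≤ q.1 → φ n q ≤ C * Real.exp (-(γ * (√(κ n) * |q.1|))) ∧
      -φ n q ≤ C * Real.exp (-(γ * (√(κ n) * |q.1|))) + C * (t n / κ n) by
    rcases le_total 0 q₀.1 with hx | hx
    · exact hpos q₀ hx
    · have h1 := hpos (-q₀.1, q₀.2) (by simpa using hx)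
      have h2 : φ n (-q₀.1, q₀.2) = φ n q₀ := hcd.evx q₀.1 q₀.2
      rw [h2] at h1
      simpa using h1
  intro q hqx
  have hexp0 : 0 < Real.exp (-(γ * (√(κ n) * |q.1|))) := Real.exp_pos _
  have hCt : 0 ≤ C * (t n / κ n) := by positivity
  set x₀ := Ξ₀ / √(κ n) with hx₀
  have hx₀0 : 0 < x₀ := by positivity
  have hsx' : √(κ n) * x₀ = Ξ₀ := by rw [hx₀]; field_simp
  rcases le_or_gt q.1 x₀ with hle | hgt
  · -- inside the window
    have h1 : √(κ n) * |q.1| ≤ Ξ₀ := by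
      rw [abs_of_nonneg hqx, ← hsx']
      exact mul_le_mul_of_nonneg_left hle hs.le
    have h2 : 1 ≤ C * Real.exp (-(γ * (√(κ n) * |q.1|))) := by
      have h3 : Real.exp (γ * Ξ₀) ≤ C := by
        rw [hC]
        have h4 : 0 ≤ 3 * C₀ * Real.exp (γ * Ξ₀) := by positivity
        have h5 : 0 ≤ 3 * C₁ / c := by positivity
        linarith
      have h4 : 1 ≤ Real.exp (γ * Ξ₀) * Real.exp (-(γ * (√(κ n) * |q.1|))) := by
        rw [← Real.exp_add]
        apply Real.one_le_exp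
        have := mul_le_mul_of_nonneg_left h1 hγ0.le
        linarith
      exact h4.trans (mul_le_mul_of_nonneg_right h3 hexp0.le)
    have h3 := abs_le.1 (h.le_one n q)
    exact ⟨by linarith, by linarith⟩
  by_cases hqE : q ∈ Ell (α n)
  swap
  · rw [hcd.zero q hqE]
    have : 0 < C * Real.exp (-(γ * (√(κ n) * |q.1|))) := by positivity
    exact ⟨by linarith, by linarith⟩
  -- outside the window
  set D : Set (ℝ × ℝ) := Ell (α n) ∩ {z | x₀ < z.1} with hD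
  have hDo : IsOpen D := (isOpen_ell (α n)).inter (isOpen_lt continuous_const continuous_fst)
  have hDb : Bornology.IsBounded D := by
    refine (isCompact_cell hα).isBounded.subset ?_
    refine Set.Subset.trans Set.inter_subset_left ?_
    rw [← closure_ell hα]
    exact subset_closure
  have hcl : ∀ z ∈ closure D, z ∈ CEll (α n) ∧ x₀ ≤ z.1 := by
    intro z hz
    constructor
    · rw [← closure_ell hα]
      exact closure_mono Set.inter_subset_left hz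
    · have h1 : closure D ⊆ {z : ℝ × ℝ | x₀ ≤ z.1} := by
        apply closure_minimal
        · intro z hz
          have h2 : x₀ < z.1 := hz.2
          exact h2.le
        · exact isClosed_le continuous_const continuous_fst
      exact h1 hz
  have hy1 : ∀ z ∈ CEll (α n), z.2 ^ 2 ≤ 1 ∧ |z.2| ≤ 1 := by
    intro z hz
    have h7 : α n ^ 2 * z.1 ^ 2 + z.2 ^ 2 ≤ 1 := hz
    have h8 : z.2 ^ 2 ≤ 1 := by
      have := mul_nonneg (sq_nonneg (α n)) (sq_nonneg z.1)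
      linarith
    exact ⟨h8, (sq_le_one_iff_abs_le_one _).1 h8⟩
  have hee : ∀ z ∈ CEll (α n), 0 ≤ e1 ast z.2 := by
    intro z hz
    rcases eq_or_lt_of_le (hy1 z hz).2 with h7 | h7
    · have h8 : e1 ast z.2 = e1 ast 1 :=
        le_antisymm (e1_anti (by rw [abs_one, h7])) (e1_anti (by rw [abs_one, h7]))
      rw [h8, e1_ast_one]
    · exact (e1_ast_pos h7).le
  set b := κ n * β with hb
  have hb0 : 0 < b := by positivity
  have hb1 : b ≤ 1 :=
    (mul_le_mul hκ1.le hβ1 hβ.le zero_le_one).trans (by norm_num)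
  set G := FLDOut_G b with hG
  have hGv : ∀ y, G y = e1 ast y + b * (2 - y ^ 2) := fun y => rfl
  have hG3 : ∀ z ∈ CEll (α n), 0 < G z.2 ∧ G z.2 ≤ 3 ∧ e1 ast z.2 ≤ G z.2 := by
    intro z hz
    have h1 := hee z hz
    have h2 := (hy1 z hz).1
    have h3 : e1 ast z.2 ≤ 1 := e1_le_one
    have h4 : 0 < b * (2 - z.2 ^ 2) := mul_pos hb0 (by linarith)
    have h5 : b * (2 - z.2 ^ 2) ≤ 2 :=
      (mul_le_mul hb1 (by linarith [sq_nonneg z.2] : 2 - z.2 ^ 2 ≤ 2) (by linarith)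
        zero_le_one).trans (by norm_num)
    rw [hGv]
    exact ⟨by linarith, by linarith, by linarith⟩
  set F : ℝ → ℝ := fun x => C₀ * Real.exp (-(γ * (√(κ n) * x - Ξ₀))) with hF
  have hFpos : ∀ x, 0 < F x := fun x => by positivity
  have hFs : ContDiff ℝ 2 F := by fun_prop
  have hF1 : ∀ x, HasDerivAt F (-(γ * √(κ n)) * F x) x := by
    intro x
    have h1 : HasDerivAt (fun x : ℝ => -(γ * (√(κ n) * x - Ξ₀))) (-(γ * (√(κ n) * 1))) x :=
      ((((hasDerivAt_id x).const_mul √(κ n)).sub_const Ξ₀).const_mul γ).neg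
    refine HasDerivAt.congr_deriv (h1.exp.const_mul C₀) ?_
    simp only [hF]
    ring
  have hF2 : ∀ x, deriv (deriv F) x = γ ^ 2 * κ n * F x := by
    intro x
    have h1 : deriv F = fun x => -(γ * √(κ n)) * F x := funext fun x => (hF1 x).deriv
    rw [h1, ((hF1 x).const_mul (-(γ * √(κ n)))).deriv]
    have h2 : √(κ n) * √(κ n) = κ n := Real.mul_self_sqrt hκ.le
    linear_combination (γ ^ 2 * F x) * h2
  have hGs : ContDiff ℝ 2 G := FLDOut_Gs b
  have hgs : ContDiff ℝ 2 (fun z : ℝ × ℝ => G z.2) := hGs.comp contDiff_snd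
  have hbs : ContDiff ℝ 2 (fun z : ℝ × ℝ => F z.1 * G z.2) :=
    (hFs.comp contDiff_fst).mul hgs
  have hsupD : ∀ z ∈ D, μ n * Real.exp (v n z) * G z.2 + c * κ n ≤
      -lap (fun z : ℝ × ℝ => G z.2) z := by
    intro z hz
    refine hn z hz.1 ?_
    have h1 : x₀ < z.1 := hz.2
    rw [abs_of_pos (by linarith), ← hsx']
    exact mul_le_mul_of_nonneg_left h1.le hs.le
  have hlapb : ∀ z ∈ D, μ n * Real.exp (v n z) * (F z.1 * G z.2) ≤
      -lap (fun z : ℝ × ℝ => F z.1 * G z.2) z := by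
    intro z hz
    have h1 := hsupD z hz
    rw [lap_prod F G hFs hGs, hF2]
    rw [lap_snd G hGs] at h1
    have hzc : z ∈ CEll (α n) := (hcl z (subset_closure hz)).1
    obtain ⟨g1, g2, _⟩ := hG3 z hzc
    have h2 : γ ^ 2 * κ n * G z.2 ≤ c * κ n := by
      have h3 : γ ^ 2 * κ n * G z.2 ≤ γ ^ 2 * κ n * 3 :=
        mul_le_mul_of_nonneg_left g2 (by positivity)
      have h4 : γ ^ 2 * 3 ≤ c := by linarith
      have h5 := mul_le_mul_of_nonneg_right h4 hκ.le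
      linarith
    have h6 : 0 ≤ F z.1 * (-deriv (deriv G) z.2 - μ n * Real.exp (v n z) * G z.2 -
        γ ^ 2 * κ n * G z.2) := mul_nonneg (hFpos _).le (by linarith)
    linarith
  -- boundary values
  have hbdry : ∀ z ∈ frontier D, φ n z ≤ F z.1 * G z.2 ∧ -φ n z ≤ F z.1 * G z.2 := by
    intro z hz
    rw [hDo.frontier_eq] at hz
    obtain ⟨hz1, hz2⟩ := hz
    obtain ⟨hzc, hzx⟩ := hcl z hz1
    obtain ⟨g1, g2, g3⟩ := hG3 z hzc
    have hFG : 0 < F z.1 * G z.2 := mul_pos (hFpos _) g1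
    by_cases hzE : z ∈ Ell (α n)
    · have hzx2 : z.1 = x₀ := by
        by_contra hne
        exact hz2 ⟨hzE, lt_of_le_of_ne hzx (Ne.symm hne)⟩
      have h1 := abs_le.1 ((hwE n).2 z (hy1 z hzc).2)
      have h2 : F z.1 = C₀ := by
        simp only [hF]
        rw [hzx2, hsx']
        simp
      have h3 : C₀ * e1 ast z.2 ≤ C₀ * G z.2 := mul_le_mul_of_nonneg_left g3 hC₀.le
      rw [h2]
      exact ⟨by linarith, by linarith⟩
    · rw [hcd.zero z hzE]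
      exact ⟨by linarith, by linarith⟩
  have hle2 : ((2 : ℕ∞) : WithTop ℕ∞) ≤ ∞ := WithTop.coe_le_coe.2 le_top
  have hφs : ContDiffOn ℝ 2 (φ n) D := (hcd.smooth.of_le hle2).mono Set.inter_subset_left
  have hgD : ∀ z ∈ D, μ n * Real.exp (v n z) * G z.2 < -lap (fun z : ℝ × ℝ => G z.2) z := by
    intro z hz
    have := hsupD z hz
    have h1 : 0 < c * κ n := by positivity
    linarith
  have hqD : q ∈ closure D := subset_closure ⟨hqE, hgt⟩
  have hqc := (hcl q hqD).1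
  obtain ⟨g1, g2, g3⟩ := hG3 q hqc
  -- the bound from above
  have hup := wmp_bdd_pot hDo hDb (u := φ n) (b := fun z => F z.1 * G z.2)
    (g := fun z => G z.2) (c := fun z => μ n * Real.exp (v n z)) hφs hbs.contDiffOn
    hgs.contDiffOn hcd.cont.continuousOn hbs.continuous.continuousOn hgs.continuous.continuousOn
    (fun z hz => (hG3 z (hcl z hz).1).1) hgD
    (fun z hz _ => by
      have h1 := hcd.eq z hz.1
      have h2 := hlapb z hz
      have h3 : 0 ≤ μ n * Real.exp (v n z) * t n := by positivity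
      linarith) (fun z hz => (hbdry z hz).1) q hqD
  -- the bound from below
  set K := C₁ * t n / (c * κ n) with hK
  have hK0 : 0 ≤ K := by positivity
  have hKs : ContDiff ℝ 2 (fun z : ℝ × ℝ => K * G z.2) := contDiff_const.mul hgs
  have hbs2 : ContDiff ℝ 2 (fun z : ℝ × ℝ => F z.1 * G z.2 + K * G z.2) := hbs.add hKs
  have hlap2 : ∀ z, lap (fun z : ℝ × ℝ => F z.1 * G z.2 + K * G z.2) z =
      lap (fun z : ℝ × ℝ => F z.1 * G z.2) z + K * lap (fun z : ℝ × ℝ => G z.2) z := by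
    intro z
    rw [lap_add isOpen_univ hbs.contDiffOn hKs.contDiffOn (Set.mem_univ z),
      lap_const_mul isOpen_univ K hgs.contDiffOn (Set.mem_univ z)]
  have hlapn : ∀ z ∈ D, lap (fun z => -φ n z) z = -lap (φ n) z := by
    intro z hz
    have h1 := lap_const_mul hDo (-1) hφs hz
    have h2 : (fun z => -1 * φ n z) = fun z => -φ n z := by
      funext z
      ring
    rw [h2] at h1
    rw [h1]
    ring
  have hdown := wmp_bdd_pot hDo hDb (u := fun z => -φ n z)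
    (b := fun z => F z.1 * G z.2 + K * G z.2)
    (g := fun z => G z.2) (c := fun z => μ n * Real.exp (v n z)) hφs.neg hbs2.contDiffOn
    hgs.contDiffOn hcd.cont.neg.continuousOn hbs2.continuous.continuousOn
    hgs.continuous.continuousOn
    (fun z hz => (hG3 z (hcl z hz).1).1) hgD
    (fun z hz _ => by
      have h1 := hcd.eq z hz.1
      have h2 := hlapb z hz
      have h3 := hsupD z hz
      have h4 : μ n * Real.exp (v n z) * t n ≤ C₁ * t n :=
        mul_le_mul_of_nonneg_right (hamp n z).2 ht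
      have h5 : K * (c * κ n) = C₁ * t n := by
        rw [hK]
        field_simp
      have h6 := mul_le_mul_of_nonneg_left h3 hK0
      rw [hlap2, hlapn z hz]
      linarith) (fun z hz => by
      have h1 := (hbdry z hz).2
      rw [hDo.frontier_eq] at hz
      have h2 := (hG3 z (hcl z hz.1).1).1
      have h3 : 0 ≤ K * G z.2 := by positivity
      show -φ n z ≤ F z.1 * G z.2 + K * G z.2
      linarith) q hqD
  have hup' : φ n q ≤ F q.1 * G q.2 := hup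
  have hdown' : -φ n q ≤ F q.1 * G q.2 + K * G q.2 := hdown
  have hFG : F q.1 * G q.2 ≤ C * Real.exp (-(γ * (√(κ n) * |q.1|))) := by
    have h1 : F q.1 = C₀ * Real.exp (γ * Ξ₀) * Real.exp (-(γ * (√(κ n) * |q.1|))) := by
      simp only [hF]
      rw [mul_assoc, ← Real.exp_add, abs_of_nonneg hqx]
      congr 2
      ring
    have h2 : F q.1 * G q.2 ≤ F q.1 * 3 := mul_le_mul_of_nonneg_left g2 (hFpos _).le
    have h3 : F q.1 * 3 = 3 * C₀ * Real.exp (γ * Ξ₀) * Real.exp (-(γ * (√(κ n) * |q.1|))) := by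
      rw [h1]
      ring
    have h4 : 3 * C₀ * Real.exp (γ * Ξ₀) ≤ C := by
      rw [hC]
      have h5 : 0 ≤ 3 * C₁ / c := by positivity
      linarith
    rw [h3] at h2
    exact h2.trans (mul_le_mul_of_nonneg_right h4 hexp0.le)
  have hKG : K * G q.2 ≤ C * (t n / κ n) := by
    have h1 : K * G q.2 ≤ K * 3 := mul_le_mul_of_nonneg_left g2 hK0
    have h2 : K * 3 = 3 * C₁ / c * (t n / κ n) := by
      rw [hK]
      field_simp
    have h3 : 3 * C₁ / c ≤ C := by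
      rw [hC]
      have h5 : 0 ≤ 3 * C₀ * Real.exp (γ * Ξ₀) := by positivity
      linarith
    rw [h2] at h1
    exact h1.trans (mul_le_mul_of_nonneg_right h3 htk)
  exact ⟨by linarith, by linarith⟩

end Pool.Agent.MFE
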