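import Pool.Agent.MFE.FLDCls
import Pool.Agent.MFE.FLDEq
import Pool.Agent.MFE.FLDWk

/-!
# MFE.FLDScc: compactness in the slow variable (regime C)

`b n = bF (α n) (f n)`. `slow_close` and `e(Y) → e(y)` uniformly on windows (`YE_near`, `Par.win`,
`cst_bd`): `|b n x - cE f n (x,0)| → 0` uniformly on windows (`|∫_{-1}^1 (f - f(x,0)e) e(Y)| ≤ 2Kε`, and
`∫ f(x,0) e (e(Y) - e(y))`; recall `f = 0` outside the ellipse, where `slow_close` also holds).
`weak_red_bd` with `R = (Ξ+1)/√κ n`, `N = Mκ n` and the bounds `α² ≤ κ³`, `α²R² ≤ (Ξ+1)²κ²`,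
`α²R ≤ (Ξ+1) κ^{5/2}`: `|∫ b χ''| ≤ C κ ∫|χ| + C κ² ∫|χ'|` for `χ ∈ C_c^∞(-R, R)`; `weak_lip` with
`ℓ = 1/(4√κ)`: `|b x' - b x| ≤ C √κ |x' - x|` for `|x - z|, |x' - z| ≤ ℓ`, and so (chain of such steps) for
all `x, x'` in the window `Ξ`. Hence `a n (ξ) = f n (ξ/√κ n, 0)` is bounded on `[-Ξ, Ξ]` and
`|a n ξ' - a n ξ| ≤ (C/cE) |ξ' - ξ| + o(1)`. `aa_loc` (`X = ℝ`): a subsequence converges locally
uniformly to a continuous `W`; with `slow_close` (`|e| ≤ 1` on `[-1,1]`) this is `ScalLim`.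
-/

open Filter Topology
open scoped ContDiff

namespace Pool.Agent.MFE

private theorem FLDScc_sqrt {α κ : ℕ → ℝ} (hp : Par α κ) : Tendsto (fun n => √(κ n)) atTop (𝓝 0) := by
  have := (Real.continuous_sqrt.tendsto 0).comp hp.κ_lim
  rw [Real.sqrt_zero] at this
  exact this

/-- `Y` is close to `y` on windows -/
private theorem FLDScc_YE {α κ : ℕ → ℝ} (hp : Par α κ) (Ξ δ : ℝ) (hδ : 0 < δ) :
    ∀ᶠ n in atTop, ∀ q : ℝ × ℝ, √(κ n) * |q.1| ≤ Ξ → |q.2| ≤ 1 →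
      α n ^ 2 * q.1 ^ 2 ≤ 1 / 16 ∧ |YE (α n) q - q.2| ≤ δ ∧ |YE (α n) q| ≤ 2 := by
  have hlim : Tendsto (fun n => 2 * (Ξ ^ 2 * κ n ^ 2)) atTop (𝓝 0) := by
    have := ((hp.κ_lim.pow 2).const_mul (Ξ ^ 2)).const_mul 2
    simpa using this
  have hm : 0 < min δ 1 := lt_min hδ one_pos
  filter_upwards [(hp.win Ξ).2.2, hlim.eventually (gt_mem_nhds hm)] with n h1 h2 q hq hq2
  have h3 := h1.2 q.1 hq
  have h4 := (hp.win Ξ).2.1 n q.1 hq
  have h5 := (YE_near (α := α n) (q := q) (by linarith)).2 h3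
  have h6 : |YE (α n) q - q.2| ≤ min δ 1 := by
    refine h5.trans ?_
    have : 2 * α n ^ 2 * q.1 ^ 2 * |q.2| ≤ 2 * α n ^ 2 * q.1 ^ 2 * 1 :=
      mul_le_mul_of_nonneg_left hq2 (by positivity)
    nlinarith
  refine ⟨h3, h6.trans (min_le_left _ _), ?_⟩
  have h7 := h6.trans (min_le_right _ _)
  have h8 : |YE (α n) q| ≤ |YE (α n) q - q.2| + |q.2| := by
    have := abs_add_le (YE (α n) q - q.2) q.2
    rwa [sub_add_cancel] at this
  linarith

private theorem FLDScc_cE : (∫ y in (-1 : ℝ)..1, e1 ast y * e1 ast y) = cE := by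
  unfold cE
  simp only [pow_two]

/-- the averages are close to `cE f(x,0)` on windows -/
theorem slow_avg {α κ : ℕ → ℝ} {f : ℕ → ℝ × ℝ → ℝ} (hp : Par α κ) (hs : Slow α κ f) :
    ∀ Ξ ε : ℝ, 0 < Ξ → 0 < ε → ∀ᶠ n in atTop, ∀ x : ℝ, √(κ n) * |x| ≤ Ξ →
      |bF (α n) (f n) x - cE * f n (x, 0)| ≤ ε := by
  intro Ξ ε hΞ hε
  obtain ⟨K, hK0, hK⟩ := cst_bd
  obtain ⟨M0, hM0⟩ := hs.bound (Ξ + 1)
  set M := |M0| with hM
  have hMn : 0 ≤ M := abs_nonneg _
  -- Lipschitz bound for `e1 ast`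
  have hlip : ∀ a b : ℝ, |a| ≤ 2 → |b| ≤ 2 → |e1 ast a - e1 ast b| ≤ K * |a - b| := by
    intro a b ha hb
    have := Convex.norm_image_sub_le_of_norm_deriv_le (f := e1 ast) (C := K) (s := Set.Icc (-2) 2)
      (x := b) (y := a) (fun z _ => ((e1_smooth ast).differentiable (by norm_num)).differentiableAt)
      (fun z hz => (hK z (abs_le.2 hz)).2.1) (convex_Icc _ _) (abs_le.1 hb) (abs_le.1 ha)
    simpa only [Real.norm_eq_abs] using this
  set δ := ε / (4 * (K + 1)) with hδdef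
  have hδ : 0 < δ := by positivity
  set δ' := ε / (4 * ((M + 1) * (K + 1))) with hδ'def
  have hδ' : 0 < δ' := by positivity
  filter_upwards [slow_close hp hs Ξ δ hΞ hδ, FLDScc_YE hp Ξ δ' hδ', hs.cont Ξ, hM0,
    (FLDScc_sqrt hp).eventually (gt_mem_nhds one_pos)] with n h1 h2 h3 h4 h5 x hx
  have hf0 : ∀ y : ℝ, |f n (x, y)| ≤ M := by
    intro y
    by_cases hE : (x, y) ∈ Ell (α n)
    · exact ((h4 _ hE (by show √(κ n) * |x| < Ξ + 1; linarith)).1).trans (le_abs_self _)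
    · rw [hs.zero n _ hE, abs_zero]
      exact hMn
  have hfc : Continuous (fun y : ℝ => f n (x, y)) := by
    rw [← continuousOn_univ]
    exact h3.comp (f := fun y : ℝ => (x, y)) (by fun_prop) (fun y _ => hx)
  have hYc : Continuous (fun y : ℝ => e1 ast (YE (α n) (x, y))) := by
    refine (e1_smooth ast).continuous.comp ?_
    show Continuous (fun y : ℝ => y / hE (α n) x)
    exact continuous_id.div_const _
  have hec : Continuous (e1 ast) := (e1_smooth ast).continuous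
  have hi1 : IntervalIntegrable (fun y => f n (x, y) * e1 ast (YE (α n) (x, y))) MeasureTheory.volume (-1) 1 :=
    (hfc.mul hYc).intervalIntegrable _ _
  have hi2 : IntervalIntegrable (fun y => f n (x, 0) * (e1 ast y * e1 ast y)) MeasureTheory.volume (-1) 1 :=
    (continuous_const.mul (hec.mul hec)).intervalIntegrable _ _
  have hE : bF (α n) (f n) x - cE * f n (x, 0) =
      ∫ y in (-1 : ℝ)..1, (f n (x, y) * e1 ast (YE (α n) (x, y)) - f n (x, 0) * (e1 ast y * e1 ast y)) := by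
    rw [intervalIntegral.integral_sub hi1 hi2, intervalIntegral.integral_const_mul, FLDScc_cE]
    unfold bF
    ring
  have hpt : ∀ y ∈ Set.uIoc (-1 : ℝ) 1,
      ‖f n (x, y) * e1 ast (YE (α n) (x, y)) - f n (x, 0) * (e1 ast y * e1 ast y)‖ ≤ ε / 2 := by
    intro y hy
    rw [Set.uIoc_of_le (by norm_num)] at hy
    have hy1 : |y| ≤ 1 := abs_le.2 ⟨hy.1.le, hy.2⟩
    have g1 : |f n (x, y) - f n (x, 0) * e1 ast y| ≤ δ := h1 (x, y) ⟨hx, hy1⟩
    obtain ⟨-, g2, g3⟩ := h2 (x, y) hx hy1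
    have g4 := hlip (YE (α n) (x, y)) y g3 (hy1.trans (by norm_num))
    have g5 : |e1 ast (YE (α n) (x, y)) - e1 ast y| ≤ K * δ' :=
      g4.trans (mul_le_mul_of_nonneg_left g2 hK0.le)
    have g6 : |e1 ast y| ≤ K := (hK y (hy1.trans (by norm_num))).1
    have e : f n (x, y) * e1 ast (YE (α n) (x, y)) - f n (x, 0) * (e1 ast y * e1 ast y) =
        f n (x, y) * (e1 ast (YE (α n) (x, y)) - e1 ast y) +
          (f n (x, y) - f n (x, 0) * e1 ast y) * e1 ast y := by ring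
    rw [Real.norm_eq_abs, e]
    refine (abs_add_le _ _).trans ?_
    rw [abs_mul, abs_mul]
    have k1 : |f n (x, y)| * |e1 ast (YE (α n) (x, y)) - e1 ast y| ≤ M * (K * δ') :=
      mul_le_mul (hf0 y) g5 (abs_nonneg _) hMn
    have k2 : |f n (x, y) - f n (x, 0) * e1 ast y| * |e1 ast y| ≤ δ * K :=
      mul_le_mul g1 g6 (abs_nonneg _) hδ.le
    have k3 : M * (K * δ') ≤ ε / 4 := by
      have : M * (K * δ') ≤ (M + 1) * ((K + 1) * δ') :=
        mul_le_mul (by linarith) (mul_le_mul_of_nonneg_right (by linarith) hδ'.le) (by positivity)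
          (by linarith)
      refine this.trans (le_of_eq ?_)
      rw [hδ'def]
      field_simp
    have k4 : δ * K ≤ ε / 4 := by
      have : δ * K ≤ δ * (K + 1) := mul_le_mul_of_nonneg_left (by linarith) hδ.le
      refine this.trans (le_of_eq ?_)
      rw [hδdef]
      field_simp
    linarith
  have := intervalIntegral.norm_integral_le_of_norm_le_const hpt
  rw [hE, ← Real.norm_eq_abs]
  refine this.trans (le_of_eq ?_)
  norm_num

private theorem FLDScc_cont {α R : ℝ} {f : ℝ × ℝ → ℝ} (hR : 0 ≤ R) (hα : ∀ x : ℝ, |x| ≤ R → α ^ 2 * x ^ 2 < 1)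
    (hf : ContinuousOn f {q | |q.1| ≤ R}) : ContinuousOn (bF α f) {x | |x| ≤ R} := by
  have hR' : -R ≤ R := by linarith
  set c : ℝ → ℝ := fun x => (Set.projIcc (-R) R hR' x : ℝ) with hc
  have hcc : Continuous c := continuous_subtype_val.comp continuous_projIcc
  have hcR : ∀ x, |c x| ≤ R := fun x => abs_le.2 (Set.projIcc (-R) R hR' x).2
  have hcx : ∀ x, |x| ≤ R → c x = x := fun x hx => by
    show ((Set.projIcc (-R) R hR' x : Set.Icc (-R) R) : ℝ) = x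
    rw [Set.projIcc_of_mem hR' (abs_le.1 hx)]
  have hhE : Continuous (fun x => hE α (c x)) := by
    unfold hE
    fun_prop
  have hh0 : ∀ x, hE α (c x) ≠ 0 := fun x => (hE_pos (hα _ (hcR x))).1.ne'
  have hg : Continuous (Function.uncurry fun x y : ℝ => f (c x, y) * e1 ast (YE α (c x, y))) := by
    refine Continuous.mul ?_ ?_
    · rw [← continuousOn_univ]
      exact hf.comp (f := fun p : ℝ × ℝ => (c p.1, p.2)) (by fun_prop) (fun p _ => hcR p.1)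
    · refine (e1_smooth ast).continuous.comp ?_
      show Continuous (fun p : ℝ × ℝ => p.2 / hE α (c p.1))
      exact continuous_snd.div (hhE.comp continuous_fst) (fun p => hh0 p.1)
  have hF := intervalIntegral.continuous_parametric_intervalIntegral_of_continuous' (μ := MeasureTheory.volume)
    hg (-1) 1
  refine hF.continuousOn.congr fun x hx => ?_
  show (∫ y in (-1 : ℝ)..1, f (x, y) * e1 ast (YE α (x, y))) =
    ∫ y in (-1 : ℝ)..1, f (c x, y) * e1 ast (YE α (c x, y))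
  rw [hcx x hx]

/-- the averages are Lipschitz in the slow variable -/
theorem slow_lip {α κ : ℕ → ℝ} {f : ℕ → ℝ × ℝ → ℝ} (hp : Par α κ) (hs : Slow α κ f) :
    ∀ Ξ : ℝ, 0 < Ξ → ∃ L : ℝ, ∀ᶠ n in atTop, ∀ x x' : ℝ, √(κ n) * |x| ≤ Ξ →
      √(κ n) * |x'| ≤ Ξ → |bF (α n) (f n) x' - bF (α n) (f n) x| ≤ L * (√(κ n) * |x' - x|) := by
  intro Ξ hΞ
  obtain ⟨K2, hK20, hK2⟩ := cst_bd
  obtain ⟨K, hK0, hK⟩ := weak_red_bd
  obtain ⟨C1, hC10, hC1⟩ := weak_lip
  obtain ⟨M0, hM0⟩ := hs.bound (Ξ + 3)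
  set M := |M0| with hM
  have hMn : 0 ≤ M := abs_nonneg _
  set M' := 2 * (M * K2) with hM'
  have hM'n : 0 ≤ M' := by positivity
  refine ⟨K * M * (2 + (Ξ + 1) ^ 2) + 2 * (K * M * (Ξ + 1)) + 4 * (C1 * M') + 8 * M', ?_⟩
  have hlim : Tendsto (fun n => κ n * (Ξ + 1) + 4 * (κ n * √(κ n))) atTop (𝓝 0) := by
    have := (hp.κ_lim.mul_const (Ξ + 1)).add ((hp.κ_lim.mul (FLDScc_sqrt hp)).const_mul 4)
    simpa using this
  filter_upwards [hM0, hs.cont (Ξ + 3), hs.smooth (Ξ + 3), FLDScc_YE hp (Ξ + 3) 1 one_pos,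
    (FLDScc_sqrt hp).eventually (gt_mem_nhds (show (0 : ℝ) < 1 / 4 by norm_num)),
    hlim.eventually (gt_mem_nhds (show (0 : ℝ) < 1 / 4 by norm_num)),
    hp.κ_lim.eventually (gt_mem_nhds one_pos)] with n h1 h2 h3 h4 h5 h6 h7
  have hκ0 := hp.κ_pos n
  have hα0 := hp.α_pos n
  set s := √(κ n) with hsdef
  have hs0 : 0 < s := Real.sqrt_pos.2 hκ0
  have hss : s * s = κ n := Real.mul_self_sqrt hκ0.le
  set R := (Ξ + 1) / s with hRdef
  have hR0 : 0 < R := by positivity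
  have hsR : s * R = Ξ + 1 := by rw [hRdef]; field_simp
  -- windows
  have hw4 : ∀ t : ℝ, |t| ≤ R + 4 → s * |t| < Ξ + 3 := by
    intro t ht
    have : s * |t| ≤ s * (R + 4) := mul_le_mul_of_nonneg_left ht hs0.le
    nlinarith
  have hα3 : α n ≤ κ n * s := by
    have h8 : α n ^ 2 ≤ (κ n * s) ^ 2 := by
      have := hp.hα n
      calc α n ^ 2 ≤ κ n ^ 3 := this
        _ = (κ n * s) ^ 2 := by rw [mul_pow, pow_two s, hss]; ring
    exact le_of_sq_le_sq h8 (by positivity)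
  have hαR : α n * (R + 4) ≤ 1 / 4 := by
    have h8 : α n * (R + 4) ≤ κ n * s * (R + 4) := mul_le_mul_of_nonneg_right hα3 (by positivity)
    have h9 : κ n * s * (R + 4) = κ n * (Ξ + 1) + 4 * (κ n * s) := by rw [← hsR]; ring
    linarith
  have hbd : ∀ q ∈ Ell (α n), |q.1| < R + 4 → |f n q| ≤ M ∧ |lap (f n) q + pot1 ast q.2 * f n q| ≤ M * κ n := by
    intro q hq hqx
    obtain ⟨g1, g2⟩ := h1 q hq (hw4 q.1 hqx.le)
    exact ⟨g1.trans (le_abs_self _), g2.trans (mul_le_mul_of_nonneg_right (le_abs_self _) hκ0.le)⟩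
  have hf0 : ∀ x y : ℝ, |x| < R + 4 → |f n (x, y)| ≤ M := by
    intro x y hx
    by_cases hE : (x, y) ∈ Ell (α n)
    · exact (hbd _ hE hx).1
    · rw [hs.zero n _ hE, abs_zero]
      exact hMn
  have hbM : ∀ x : ℝ, |x| < R + 4 → |bF (α n) (f n) x| ≤ M' := by
    intro x hx
    have hpt : ∀ y ∈ Set.uIoc (-1 : ℝ) 1, ‖f n (x, y) * e1 ast (YE (α n) (x, y))‖ ≤ M * K2 := by
      intro y hy
      rw [Set.uIoc_of_le (by norm_num)] at hy
      have hy1 : |y| ≤ 1 := abs_le.2 ⟨hy.1.le, hy.2⟩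
      rw [norm_mul, Real.norm_eq_abs, Real.norm_eq_abs]
      exact mul_le_mul (hf0 x y hx) (hK2 _ (h4 (x, y) (hw4 x hx.le).le hy1).2.2).1 (abs_nonneg _) hMn
    have := intervalIntegral.norm_integral_le_of_norm_le_const hpt
    rw [Real.norm_eq_abs] at this
    refine this.trans (le_of_eq ?_)
    rw [hM']
    norm_num
    ring
  have hbc : ContinuousOn (bF (α n) (f n)) {x | |x| ≤ R + 4} := by
    refine FLDScc_cont (by positivity) (fun x hx => ?_) (h2.mono fun q hq => (hw4 q.1 hq).le)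
    have := (h4 (x, 0) (hw4 x hx).le (by simp)).1
    have h8 : α n ^ 2 * x ^ 2 ≤ 1 / 16 := this
    linarith
  -- the weak inequality
  have hweak : ∀ χ : ℝ → ℝ, ContDiff ℝ ∞ χ → HasCompactSupport χ → tsupport χ ⊆ Set.Ioo (-R) R →
      |∫ x, bF (α n) (f n) x * deriv (deriv χ) x| ≤ (K * M * (κ n * (2 + (Ξ + 1) ^ 2))) * (∫ x, |χ x|) +
        (K * M * (s * (Ξ + 1))) * ∫ x, |deriv χ x| := by
    intro χ hχ hχc hχs
    have h8 := hK (α n) R M (M * κ n) (f n) χ hα0 (hp.α_le n) hR0 hαR hMn (hs.zero n)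
      (h2.mono fun q hq => (hw4 q.1 hq).le) (h3.mono fun q hq => ⟨hq.1, hw4 q.1 (le_of_lt hq.2)⟩) hbd hχ hχc hχs
    have i1 : 0 ≤ ∫ x, |χ x| := MeasureTheory.integral_nonneg fun _ => abs_nonneg _
    have i2 : 0 ≤ ∫ x, |deriv χ x| := MeasureTheory.integral_nonneg fun _ => abs_nonneg _
    have a1 : α n ^ 2 ≤ κ n := by
      have := hp.hα n
      nlinarith [pow_le_one₀ hκ0.le h7.le (n := 2)]
    have a2 : α n ^ 2 * R ^ 2 ≤ κ n * (Ξ + 1) ^ 2 := by
      have e1 : α n ^ 2 * R ^ 2 ≤ κ n ^ 3 * R ^ 2 := mul_le_mul_of_nonneg_right (hp.hα n) (sq_nonneg R)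
      have e2 : κ n ^ 3 * R ^ 2 = κ n ^ 2 * (Ξ + 1) ^ 2 := by
        rw [← hsR, mul_pow, pow_two s, hss]
        ring
      have e3 : κ n ^ 2 ≤ κ n := by nlinarith
      have e4 : κ n ^ 2 * (Ξ + 1) ^ 2 ≤ κ n * (Ξ + 1) ^ 2 := mul_le_mul_of_nonneg_right e3 (sq_nonneg _)
      linarith
    have a3 : α n ^ 2 * R ≤ s * (Ξ + 1) := by
      have e1 : α n ^ 2 * R ≤ κ n ^ 3 * R := mul_le_mul_of_nonneg_right (hp.hα n) hR0.le
      have e2 : κ n ^ 3 * R = κ n ^ 2 * (s * (Ξ + 1)) := by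
        rw [← hsR, show κ n ^ 3 = κ n ^ 2 * (s * s) by rw [hss]; ring]
        ring
      have e3 : κ n ^ 2 ≤ 1 := pow_le_one₀ hκ0.le h7.le
      have e4 : κ n ^ 2 * (s * (Ξ + 1)) ≤ 1 * (s * (Ξ + 1)) :=
        mul_le_mul_of_nonneg_right e3 (by positivity)
      linarith
    have b1 : M * κ n + M * (α n ^ 2 + α n ^ 2 * R ^ 2) ≤ M * (κ n * (2 + (Ξ + 1) ^ 2)) := by
      have := mul_le_mul_of_nonneg_left (add_le_add a1 a2) hMn
      nlinarith
    refine h8.trans (add_le_add (mul_le_mul_of_nonneg_right ?_ i1) (mul_le_mul_of_nonneg_right ?_ i2))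
    · calc K * (M * κ n + M * (α n ^ 2 + α n ^ 2 * R ^ 2)) ≤ K * (M * (κ n * (2 + (Ξ + 1) ^ 2))) :=
            mul_le_mul_of_nonneg_left b1 hK0.le
        _ = K * M * (κ n * (2 + (Ξ + 1) ^ 2)) := by ring
    · exact mul_le_mul_of_nonneg_left a3 (by positivity)
  intro x x' hx hx'
  have hxR : ∀ t : ℝ, s * |t| ≤ Ξ + 1 → |t| ≤ R := by
    intro t ht
    rw [hRdef, le_div_iff₀ hs0]
    linarith
  by_cases hxx : s * |x' - x| ≤ 1 / 4
  · set ℓ := 1 / (4 * s) with hℓdef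
    have hℓ0 : 0 < ℓ := by positivity
    have hsℓ : s * ℓ = 1 / 4 := by rw [hℓdef]; field_simp
    have hsub : ∀ t : ℝ, |t - x| ≤ 2 * ℓ → s * |t| < Ξ + 1 := by
      intro t ht
      have e1 : |t| ≤ |t - x| + |x| := by
        have := abs_add_le (t - x) x
        rwa [sub_add_cancel] at this
      have e2 : s * |t| ≤ s * (2 * ℓ + |x|) := mul_le_mul_of_nonneg_left (by linarith) hs0.le
      nlinarith
    have hsub' : ∀ t : ℝ, |t - x| ≤ 2 * ℓ → |t| < R := by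
      intro t ht
      rw [hRdef, lt_div_iff₀ hs0]
      linarith [hsub t ht]
    have hIcc : ∀ t : ℝ, t ∈ Set.Icc (x - 2 * ℓ) (x + 2 * ℓ) → |t - x| ≤ 2 * ℓ := by
      rintro t ⟨g1, g2⟩
      rw [abs_le]
      constructor <;> linarith
    have := hC1 (bF (α n) (f n)) x ℓ M' (K * M * (κ n * (2 + (Ξ + 1) ^ 2))) (K * M * (s * (Ξ + 1))) hℓ0 hM'n
      (by positivity) (by positivity)
      (hbc.mono fun t ht => (by have := hsub' t (hIcc t ht); show |t| ≤ R + 4; linarith))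
      (fun t ht => hbM t (by have := hsub' t ht; linarith))
      (fun χ c1 c2 c3 => hweak χ c1 c2 (c3.trans fun t ht => by
        have := abs_lt.1 (hsub' t (hIcc t (Set.Ioo_subset_Icc_self ht)))
        exact ⟨this.1, this.2⟩))
      x x' (by rw [sub_self, abs_zero]; exact hℓ0.le) (by
        rw [hℓdef, le_div_iff₀ (by positivity)]
        linarith)
    refine this.trans ?_
    have e1 : 4 * ℓ * (K * M * (κ n * (2 + (Ξ + 1) ^ 2))) = s * (K * M * (2 + (Ξ + 1) ^ 2)) := by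
      rw [← hss]
      calc 4 * ℓ * (K * M * (s * s * (2 + (Ξ + 1) ^ 2))) = 4 * (s * ℓ) * (s * (K * M * (2 + (Ξ + 1) ^ 2))) := by ring
        _ = s * (K * M * (2 + (Ξ + 1) ^ 2)) := by rw [hsℓ]; ring
    have e2 : C1 * M' / ℓ = s * (4 * (C1 * M')) := by
      rw [hℓdef]
      field_simp
    rw [e1, e2]
    have e3 : (s * (K * M * (2 + (Ξ + 1) ^ 2)) + 2 * (K * M * (s * (Ξ + 1))) + s * (4 * (C1 * M'))) * |x' - x|
        = (K * M * (2 + (Ξ + 1) ^ 2) + 2 * (K * M * (Ξ + 1)) + 4 * (C1 * M')) * (s * |x' - x|) := by ring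
    rw [e3]
    refine mul_le_mul_of_nonneg_right ?_ (by positivity)
    linarith
  · have hxx := not_le.1 hxx
    have b1 := hbM x (by linarith [hxR x (by linarith)])
    have b2 := hbM x' (by linarith [hxR x' (by linarith)])
    have b3 : |bF (α n) (f n) x' - bF (α n) (f n) x| ≤ |bF (α n) (f n) x'| + |bF (α n) (f n) x| := abs_sub _ _
    have b4 : 8 * M' * (1 / 4) ≤ 8 * M' * (s * |x' - x|) := mul_le_mul_of_nonneg_left hxx.le (by positivity)
    have b5 : 0 ≤ (K * M * (2 + (Ξ + 1) ^ 2) + 2 * (K * M * (Ξ + 1)) + 4 * (C1 * M')) * (s * |x' - x|) := by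
      positivity
    nlinarith

theorem slow_subseq {α κ : ℕ → ℝ} {f : ℕ → ℝ × ℝ → ℝ} (hp : Par α κ) (hs : Slow α κ f) :
    ∃ (ψ : ℕ → ℕ) (W : ℝ → ℝ), StrictMono ψ ∧ Continuous W ∧
      ScalLim (fun n => κ (ψ n)) (fun n => f (ψ n)) W := by
  have hsq : ∀ n, 0 < √(κ n) := fun n => Real.sqrt_pos.2 (hp.κ_pos n)
  have hval : ∀ n (ξ : ℝ), √(κ n) * |ξ / √(κ n)| = |ξ| := by
    intro n ξ
    rw [abs_div, abs_of_pos (hsq n), mul_div_assoc', mul_div_cancel_left₀ _ (hsq n).ne']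
  have hc := cE_pos
  have hb : ∀ R : ℝ, ∃ M : ℝ, ∀ᶠ n in atTop, ∀ ξ ∈ Metric.closedBall (0 : ℝ) R,
      |f n (ξ / √(κ n), 0)| ≤ M := by
    intro R
    obtain ⟨M, hM⟩ := hs.bound (R + 1)
    refine ⟨|M|, ?_⟩
    filter_upwards [hM] with n hn ξ hξ
    rw [Metric.mem_closedBall, dist_zero_right, Real.norm_eq_abs] at hξ
    by_cases hE : (ξ / √(κ n), 0) ∈ Ell (α n)
    · refine (hn _ hE ?_).1.trans (le_abs_self _)
      show √(κ n) * |ξ / √(κ n)| < R + 1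
      rw [hval]
      linarith
    · rw [hs.zero n _ hE, abs_zero]
      exact abs_nonneg _
  have hl : ∀ R : ℝ, ∃ L : ℝ, ∀ δ : ℝ, 0 < δ → ∀ᶠ n in atTop,
      ∀ ξ ∈ Metric.closedBall (0 : ℝ) R, ∀ ξ' ∈ Metric.closedBall (0 : ℝ) R,
        |f n (ξ / √(κ n), 0) - f n (ξ' / √(κ n), 0)| ≤ L * dist ξ ξ' + δ := by
    intro R
    have hR1 : 0 < |R| + 1 := by positivity
    obtain ⟨L, hL⟩ := slow_lip hp hs (|R| + 1) hR1
    refine ⟨L / cE, fun δ hδ => ?_⟩
    filter_upwards [hL, slow_avg hp hs (|R| + 1) (δ * cE / 2) hR1 (by positivity)] with n h1 h2 ξ hξ ξ' hξ'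
    rw [Metric.mem_closedBall, dist_zero_right, Real.norm_eq_abs] at hξ hξ'
    have w1 : √(κ n) * |ξ / √(κ n)| ≤ |R| + 1 := by rw [hval]; linarith [le_abs_self R]
    have w2 : √(κ n) * |ξ' / √(κ n)| ≤ |R| + 1 := by rw [hval]; linarith [le_abs_self R]
    have g1 := h1 _ _ w2 w1
    have g2 := h2 _ w1
    have g3 := h2 _ w2
    have g4 : √(κ n) * |ξ / √(κ n) - ξ' / √(κ n)| = dist ξ ξ' := by
      rw [← sub_div, hval, Real.dist_eq]
    rw [g4] at g1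
    have g5 : cE * |f n (ξ / √(κ n), 0) - f n (ξ' / √(κ n), 0)| ≤ L * dist ξ ξ' + δ * cE := by
      rw [← abs_of_pos hc, ← abs_mul, abs_of_pos hc]
      have k1 := abs_le.1 g1
      have k2 := abs_le.1 g2
      have k3 := abs_le.1 g3
      rw [abs_le]
      constructor <;> nlinarith [k1.1, k1.2, k2.1, k2.2, k3.1, k3.2]
    have g6 : L / cE * dist ξ ξ' + δ = (L * dist ξ ξ' + δ * cE) / cE := by field_simp
    rw [g6, le_div_iff₀ hc]
    linarith
  obtain ⟨ψ, W, hψ, hWc, hW⟩ := aa_loc (X := ℝ) 0 hb hl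
  refine ⟨ψ, W, hψ, hWc, ?_⟩
  intro Ξ ε hΞ hε
  obtain ⟨K, hK0, hK⟩ := cst_bd
  filter_upwards [hψ.tendsto_atTop.eventually (slow_close hp hs Ξ (ε / 2) hΞ (by linarith)),
    hW Ξ (ε / (2 * (K + 1))) (by positivity)] with n h1 h2 q hq
  have g1 := h1 q hq
  have hq1 : √(κ (ψ n)) * |q.1| ≤ Ξ := hq.1
  have g2 := h2 (√(κ (ψ n)) * q.1) (by
    rw [Metric.mem_closedBall, dist_zero_right, Real.norm_eq_abs, abs_mul, abs_of_pos (hsq _)]
    exact hq1)
  have hx1 : √(κ (ψ n)) * q.1 / √(κ (ψ n)) = q.1 := by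
    rw [mul_div_cancel_left₀ _ (hsq (ψ n)).ne']
  rw [hx1] at g2
  have g3 : |e1 ast q.2| ≤ K := (hK q.2 (hq.2.trans (by norm_num))).1
  have g4 : |(f (ψ n) (q.1, 0) - W (√(κ (ψ n)) * q.1)) * e1 ast q.2| ≤ ε / 2 := by
    rw [abs_mul]
    have : |f (ψ n) (q.1, 0) - W (√(κ (ψ n)) * q.1)| * |e1 ast q.2| ≤ ε / (2 * (K + 1)) * (K + 1) :=
      mul_le_mul g2 (by linarith) (abs_nonneg _) (by positivity)
    refine this.trans (le_of_eq ?_)
    field_simp
  have e2 : f (ψ n) q - W (√(κ (ψ n)) * q.1) * e1 ast q.2 = (f (ψ n) q - f (ψ n) (q.1, 0) * e1 ast q.2) +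
      (f (ψ n) (q.1, 0) - W (√(κ (ψ n)) * q.1)) * e1 ast q.2 := by ring
  rw [e2]
  refine (abs_add_le _ _).trans ?_
  linarith

end Pool.Agent.MFE
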