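import Pool.Agent.MFE.FLDNcd

/-!
# MFE.FLDTbd: bound for `t` and tail integrals (regime C)

Hypothesis `hu`: the bound of `outer_bd` from above. `φ⁺ = max (φ n q) 0 ≤ C e^{-γ√κ|x|}`, zero outside
`|y| < 1`. `tail_int`: `∫_{Ell ∩ {√κ|x| ≥ Ξ}} μe^v φ⁺ ≤ C' ∫_{|y|<1} ∫_{√κ|x| ≥ Ξ} e^{-γ√κ|x|} dx dy = (4C'/(γ√κ)) e^{-γΞ}`
(`Fold.amp`, Fubini, `integral_exp_mul_Ioi`-type formulas; alternatively bound by a sum).
`t_bd`: `t ∫_E μe^v = ∫_E μe^v φ ≤ ∫_E μe^v φ⁺ ≤ C/√κ` (`NCD.mean`, `tail_int` with `Ξ = 0`), and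
`∫_E μe^v ≥ (1/C) π/α` (`Fold.amp`, `area_ell`): `t ≤ C α/√κ = C κ √(α²/κ³)`.
-/

open Filter Topology
open scoped ContDiff

namespace Pool.Agent.MFE

variable {α μ κ t : ℕ → ℝ} {v φ : ℕ → ℝ × ℝ → ℝ} {C γ : ℝ}

/-- the tails of the exponential -/
theorem exp_tail {γ : ℝ} (hγ : 0 < γ) {α κ Ξ : ℝ} (hα : 0 < α) (hκ : 0 < κ) (hΞ : 0 ≤ Ξ) :
    ∫ q in Ell α ∩ {q | Ξ ≤ √κ * |q.1|}, Real.exp (-(γ * (√κ * |q.1|)))
      ≤ 4 / (γ * √κ) * Real.exp (-(γ * Ξ)) := by
  have _ := hα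
  have hs : 0 < √κ := Real.sqrt_pos.2 hκ
  set a := Ξ / √κ with ha
  have ha0 : 0 ≤ a := by positivity
  set b := γ * √κ with hb
  have hb0 : 0 < b := by positivity
  have hab : b * a = γ * Ξ := by
    rw [hb, ha]
    field_simp
  set S : Set ℝ := Set.Iic (-a) ∪ Set.Ioi a with hS
  set F : ℝ → ℝ := fun x => Real.exp (-(γ * (√κ * |x|))) with hF
  have hF0 : ∀ x, 0 ≤ F x := fun x => (Real.exp_pos _).le
  have hi1 : MeasureTheory.IntegrableOn F (Set.Iic (-a)) := by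
    refine (integrableOn_exp_mul_Iic hb0 (-a)).congr_fun ?_ measurableSet_Iic
    intro x hx
    have hx' : x ≤ 0 := by
      have : x ≤ -a := hx
      linarith
    simp only [hF]
    rw [abs_of_nonpos hx', hb]
    congr 1
    ring
  have hi2 : MeasureTheory.IntegrableOn F (Set.Ioi a) := by
    refine (integrableOn_exp_mul_Ioi (neg_lt_zero.2 hb0) a).congr_fun ?_ measurableSet_Ioi
    intro x hx
    have hx' : 0 ≤ x := by
      have : a < x := hx
      linarith
    simp only [hF]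
    rw [abs_of_nonneg hx', hb]
    congr 1
    ring
  have hv1 : ∫ x in Set.Iic (-a), F x = Real.exp (-(γ * Ξ)) / b := by
    have h1 := integral_exp_mul_Iic hb0 (-a)
    rw [mul_neg, hab] at h1
    rw [← h1]
    refine MeasureTheory.setIntegral_congr_fun measurableSet_Iic ?_
    intro x hx
    have hx' : x ≤ 0 := by
      have : x ≤ -a := hx
      linarith
    simp only [hF]
    rw [abs_of_nonpos hx', hb]
    congr 1
    ring
  have hv2 : ∫ x in Set.Ioi a, F x = Real.exp (-(γ * Ξ)) / b := by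
    have h1 := integral_exp_mul_Ioi (neg_lt_zero.2 hb0) a
    have h2 : -b * a = -(γ * Ξ) := by rw [neg_mul, hab]
    rw [h2, neg_div_neg_eq] at h1
    rw [← h1]
    refine MeasureTheory.setIntegral_congr_fun measurableSet_Ioi ?_
    intro x hx
    have hx' : 0 ≤ x := by
      have : a < x := hx
      linarith
    simp only [hF]
    rw [abs_of_nonneg hx', hb]
    congr 1
    ring
  have hdis : Disjoint (Set.Iic (-a)) (Set.Ioi a) := by
    rw [Set.disjoint_left]
    intro x h1 h2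
    have h1' : x ≤ -a := h1
    have h2' : a < x := h2
    linarith
  have hiS : MeasureTheory.IntegrableOn F S := hi1.union hi2
  have hvS : ∫ x in S, F x = 2 * Real.exp (-(γ * Ξ)) / b := by
    rw [hS, MeasureTheory.setIntegral_union hdis measurableSet_Ioi hi1 hi2, hv1, hv2]
    ring
  set S' : Set ℝ := Set.Iic (-a) ∪ Set.Ici a with hS'
  have hae : S' =ᵐ[MeasureTheory.volume] S :=
    Filter.EventuallyEq.rfl.union MeasureTheory.Ioi_ae_eq_Ici.symm
  have hiS' : MeasureTheory.IntegrableOn F S' := hiS.congr_set_ae hae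
  have hvS' : ∫ x in S', F x = 2 * Real.exp (-(γ * Ξ)) / b := by
    rw [MeasureTheory.setIntegral_congr_set hae, hvS]
  -- the product
  have hsub : Ell α ∩ {q : ℝ × ℝ | Ξ ≤ √κ * |q.1|} ⊆ S' ×ˢ Set.Ioo (-1 : ℝ) 1 := by
    rintro ⟨x, y⟩ ⟨h1, h2⟩
    have h1' : α ^ 2 * x ^ 2 + y ^ 2 < 1 := h1
    have h2' : Ξ ≤ √κ * |x| := h2
    constructor
    · have h3 : a ≤ |x| := by
        rw [ha, div_le_iff₀ hs]
        linarith
      rcases abs_choice x with h4 | h4
      · right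
        rw [h4] at h3
        exact h3
      · left
        rw [h4] at h3
        show x ≤ -a
        linarith
    · have h3 : y ^ 2 < 1 := by nlinarith [mul_nonneg (sq_nonneg α) (sq_nonneg x)]
      have h4 : |y| < 1 := by
        rw [← sq_abs] at h3
        nlinarith [abs_nonneg y]
      exact ⟨(abs_lt.1 h4).1, (abs_lt.1 h4).2⟩
  have hint : MeasureTheory.IntegrableOn (fun q : ℝ × ℝ => F q.1 * 1) (S' ×ˢ Set.Ioo (-1 : ℝ) 1) := by
    have h1 : MeasureTheory.Integrable F (MeasureTheory.volume.restrict S') := hiS'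
    have h2 : MeasureTheory.Integrable (fun _ : ℝ => (1 : ℝ))
        (MeasureTheory.volume.restrict (Set.Ioo (-1 : ℝ) 1)) :=
      MeasureTheory.integrableOn_const (by simp) (by simp)
    have h3 := h1.mul_prod h2
    rw [MeasureTheory.Measure.prod_restrict] at h3
    exact h3
  have hval : ∫ q in S' ×ˢ Set.Ioo (-1 : ℝ) 1, F q.1 * 1 = 4 / (γ * √κ) * Real.exp (-(γ * Ξ)) := by
    have h1 := MeasureTheory.setIntegral_prod_mul (μ := MeasureTheory.volume)
      (ν := MeasureTheory.volume) F (fun _ : ℝ => (1 : ℝ)) S' (Set.Ioo (-1 : ℝ) 1)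
    rw [MeasureTheory.Measure.volume_eq_prod, h1, hvS', MeasureTheory.setIntegral_const]
    simp only [Real.volume_real_Ioo, smul_eq_mul]
    rw [← hb]
    norm_num
    ring
  rw [← hval]
  have h5 : ∫ q in Ell α ∩ {q : ℝ × ℝ | Ξ ≤ √κ * |q.1|}, Real.exp (-(γ * (√κ * |q.1|))) =
      ∫ q in Ell α ∩ {q : ℝ × ℝ | Ξ ≤ √κ * |q.1|}, F q.1 * 1 := by
    simp only [hF, mul_one]
  rw [h5]
  refine MeasureTheory.setIntegral_mono_set hint ?_ (HasSubset.Subset.eventuallyLE hsub)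
  exact Filter.Eventually.of_forall fun q => by
    show 0 ≤ F q.1 * 1
    rw [mul_one]
    exact hF0 _

private theorem FLDTbd_meas (α κ Ξ : ℝ) :
    MeasurableSet (Ell α ∩ {q : ℝ × ℝ | Ξ ≤ √κ * |q.1|}) := by
  refine (isOpen_ell α).measurableSet.inter ?_
  exact (isClosed_le continuous_const (by fun_prop)).measurableSet

private theorem FLDTbd_int {α : ℝ} (hα : 0 < α) {f : ℝ × ℝ → ℝ} (hf : Continuous f) :
    MeasureTheory.IntegrableOn f (Ell α) := by
  refine (hf.continuousOn.integrableOn_compact (isCompact_cell hα)).mono_set ?_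
  rw [← closure_ell hα]
  exact subset_closure

theorem tail_int (h : NCD α μ κ t v φ) (hγ : 0 < γ)
    (hu : ∀ᶠ n in atTop, ∀ q : ℝ × ℝ, φ n q ≤ C * Real.exp (-(γ * (√(κ n) * |q.1|)))) :
    ∃ C' : ℝ, 0 < C' ∧ ∀ᶠ n in atTop, ∀ Ξ : ℝ, 0 ≤ Ξ →
      ∫ q in Ell (α n) ∩ {q | Ξ ≤ √(κ n) * |q.1|}, μ n * Real.exp (v n q) * max (φ n q) 0
        ≤ C' / √(κ n) * Real.exp (-(γ * Ξ)) := by
  obtain ⟨C₁, hC₁, hamp⟩ := h.fold.amp
  refine ⟨C₁ * (|C| + 1) * (4 / γ), by positivity, ?_⟩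
  filter_upwards [hu] with n hn Ξ hΞ
  have hα := h.fold.par.α_pos n
  have hκ := h.fold.par.κ_pos n
  have hs : 0 < √(κ n) := Real.sqrt_pos.2 hκ
  set T := Ell (α n) ∩ {q : ℝ × ℝ | Ξ ≤ √(κ n) * |q.1|} with hT
  have hvc : Continuous (v n) := (h.cd n).sol.cont
  have hφc : Continuous (φ n) := (h.cd n).cont
  have hmu : 0 < μ n := (h.cd n).sol.mu_pos
  have hf1 : MeasureTheory.IntegrableOn (fun q => μ n * Real.exp (v n q) * max (φ n q) 0) T := by
    refine (FLDTbd_int hα ?_).mono_set Set.inter_subset_left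
    fun_prop
  have hf2 : MeasureTheory.IntegrableOn
      (fun q : ℝ × ℝ => C₁ * (|C| + 1) * Real.exp (-(γ * (√(κ n) * |q.1|)))) T := by
    refine (FLDTbd_int hα ?_).mono_set Set.inter_subset_left
    fun_prop
  have h1 : ∫ q in T, μ n * Real.exp (v n q) * max (φ n q) 0 ≤
      ∫ q in T, C₁ * (|C| + 1) * Real.exp (-(γ * (√(κ n) * |q.1|))) := by
    refine MeasureTheory.setIntegral_mono_on hf1 hf2 (FLDTbd_meas _ _ _) (fun q _ => ?_)
    have h2 := (hamp n q).2
    have he := Real.exp_pos (-(γ * (√(κ n) * |q.1|)))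
    have h3 : max (φ n q) 0 ≤ (|C| + 1) * Real.exp (-(γ * (√(κ n) * |q.1|))) := by
      refine max_le ?_ (by positivity)
      refine (hn q).trans (mul_le_mul_of_nonneg_right ?_ he.le)
      linarith [le_abs_self C]
    calc μ n * Real.exp (v n q) * max (φ n q) 0 ≤
        C₁ * ((|C| + 1) * Real.exp (-(γ * (√(κ n) * |q.1|)))) :=
          mul_le_mul h2 h3 (le_max_right _ _) hC₁.le
      _ = _ := by ring
  rw [MeasureTheory.integral_const_mul] at h1
  have h2 := exp_tail hγ hα hκ hΞ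
  have h3 : C₁ * (|C| + 1) * ∫ q in T, Real.exp (-(γ * (√(κ n) * |q.1|))) ≤
      C₁ * (|C| + 1) * (4 / (γ * √(κ n)) * Real.exp (-(γ * Ξ))) :=
    mul_le_mul_of_nonneg_left h2 (by positivity)
  refine h1.trans (h3.trans (le_of_eq ?_))
  field_simp

theorem t_bd (h : NCD α μ κ t v φ) (hγ : 0 < γ)
    (hu : ∀ᶠ n in atTop, ∀ q : ℝ × ℝ, φ n q ≤ C * Real.exp (-(γ * (√(κ n) * |q.1|)))) :
    ∃ C' : ℝ, 0 < C' ∧ ∀ᶠ n in atTop, t n / κ n ≤ C' * √(α n ^ 2 / κ n ^ 3) ∧ t n / κ n ≤ C' := by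
  obtain ⟨C₁, hC₁, hamp⟩ := h.fold.amp
  obtain ⟨C₂, hC₂, htail⟩ := tail_int h hγ hu
  have hpi := Real.pi_pos
  refine ⟨C₁ * C₂ / Real.pi, by positivity, ?_⟩
  filter_upwards [htail] with n hn
  have hα := h.fold.par.α_pos n
  have hκ := h.fold.par.κ_pos n
  have hs : 0 < √(κ n) := Real.sqrt_pos.2 hκ
  have hvc : Continuous (v n) := (h.cd n).sol.cont
  have hφc : Continuous (φ n) := (h.cd n).cont
  have hmu : 0 < μ n := (h.cd n).sol.mu_pos
  have h0 := hn 0 le_rfl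
  have hT : Ell (α n) ∩ {q : ℝ × ℝ | 0 ≤ √(κ n) * |q.1|} = Ell (α n) := by
    apply Set.inter_eq_left.2
    intro q _
    show 0 ≤ √(κ n) * |q.1|
    positivity
  rw [hT, mul_zero, neg_zero, Real.exp_zero, mul_one] at h0
  have hm := h.mean n
  have hf1 : MeasureTheory.IntegrableOn (fun q => μ n * Real.exp (v n q) * max (φ n q) 0)
      (Ell (α n)) := FLDTbd_int hα (by fun_prop)
  have hf2 : MeasureTheory.IntegrableOn (fun q => μ n * Real.exp (v n q) * φ n q)
      (Ell (α n)) := FLDTbd_int hα (by fun_prop)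
  have hf3 : MeasureTheory.IntegrableOn (fun q => μ n * Real.exp (v n q))
      (Ell (α n)) := FLDTbd_int hα (by fun_prop)
  have h1 : ∫ q in Ell (α n), μ n * Real.exp (v n q) * φ n q ≤ C₂ / √(κ n) := by
    refine le_trans (MeasureTheory.setIntegral_mono_on hf2 hf1 (isOpen_ell _).measurableSet
      (fun q _ => ?_)) h0
    exact mul_le_mul_of_nonneg_left (le_max_left _ _) (by positivity)
  have h2 : 1 / C₁ * (Real.pi / α n) ≤ ∫ q in Ell (α n), μ n * Real.exp (v n q) := by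
    have h3 : ∫ _ in Ell (α n), 1 / C₁ = 1 / C₁ * (Real.pi / α n) := by
      rw [MeasureTheory.setIntegral_const, smul_eq_mul, MeasureTheory.measureReal_def,
        area_ell hα, ENNReal.toReal_ofReal (by positivity)]
      ring
    rw [← h3]
    refine MeasureTheory.setIntegral_mono_on ?_ hf3 (isOpen_ell _).measurableSet
      (fun q _ => (hamp n q).1)
    exact FLDTbd_int hα continuous_const
  have ht := h.t_nonneg n
  have h3 : t n * (1 / C₁ * (Real.pi / α n)) ≤ C₂ / √(κ n) := by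
    calc t n * (1 / C₁ * (Real.pi / α n)) ≤ t n * ∫ q in Ell (α n), μ n * Real.exp (v n q) :=
          mul_le_mul_of_nonneg_left h2 ht
      _ = ∫ q in Ell (α n), μ n * Real.exp (v n q) * φ n q := hm.symm
      _ ≤ _ := h1
  have hsq : √(α n ^ 2 / κ n ^ 3) = α n / (κ n * √(κ n)) := by
    have h4 : α n ^ 2 / κ n ^ 3 = (α n / (κ n * √(κ n))) ^ 2 := by
      rw [div_pow, mul_pow, Real.sq_sqrt hκ.le]
      ring
    rw [h4, Real.sqrt_sq (by positivity)]
  have h4 : t n / κ n ≤ C₁ * C₂ / Real.pi * √(α n ^ 2 / κ n ^ 3) := by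
    rw [hsq]
    have h5 : t n = t n * (1 / C₁ * (Real.pi / α n)) * (C₁ * α n / Real.pi) := by
      field_simp
    have h6 : t n ≤ C₂ / √(κ n) * (C₁ * α n / Real.pi) := by
      rw [h5]
      exact mul_le_mul_of_nonneg_right h3 (by positivity)
    rw [div_le_iff₀ hκ]
    refine h6.trans (le_of_eq ?_)
    field_simp
  refine ⟨h4, h4.trans ?_⟩
  have h5 : √(α n ^ 2 / κ n ^ 3) ≤ 1 := by
    refine Real.sqrt_le_one.2 ?_
    rw [div_le_one (by positivity)]
    exact h.fold.par.hα n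
  have h6 : 0 ≤ C₁ * C₂ / Real.pi := by positivity
  nlinarith

end Pool.Agent.MFE
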