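import Pool.Agent.MFE.FLDDef2
import Pool.Agent.MFE.FLDScc
import Pool.Agent.MFE.FLDVsl
import Pool.Agent.MFE.FLDOde
import Pool.Agent.MFE.FLDOut
import Pool.Agent.MFE.FLDTbd

/-!
# MFE.FLDPlm: the limit of the normalised critical directions (regime C)

`E = μe^v`, `q = pot1 ast`, `u = uY`, `-lap φ = E(φ - t)`, so `lap φ + qφ = (q - E)φ + E t`.
`pot_exp`: on `Ell ∩ window`: `E = (μ/mu1 ast) q(Y) e^{κu}` (`cst_exp`), `|μ - mu1 ast| ≤ κ²`, `u` bounded
(`fold_bd`), `|q(Y) - q(y)| ≤ Cκ²` (`YE_near`, `Par.win`): `|E - q(y) - κ q(y) u| ≤ Cκ²`.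
`ncd_slow`: `φ` is continuous, smooth in the ellipse, `|φ| ≤ 1`, `|lap φ + qφ| ≤ Cκ + Ct ≤ C'κ` (`t_bd`,
`outer_bd`). `t/κ ∈ [0, C]`. `slow_subseq`: a subsequence with `t/κ → T ≥ 0`, `φ → A(ξ) e(y)`, `A` continuous.
`slow_ode` with `G(ξ,y) = -q(y) W(ξ) A(ξ) e(y)² + T q(y)`: `cE A'' = -cQ3 W A + T cQ1`; divide by `cE`:
`τ = T cQ1/cE`. Even: `CD.evx`. Bounds: `outer_bd` at `(ξ/√κ, 0)`, `T = τ cE/cQ1`.
Integral: `∫_{Ell ∩ window Ξ} Eφ = t∫E - ∫_{Ell, √κ|x| > Ξ} Eφ ≥ -∫_{√κ|x| ≥ Ξ} Eφ⁺ ≥ -(C'/√κ) e^{-γΞ}` (`NCD.mean`,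
`tail_int`) and `√κ ∫_{Ell ∩ window Ξ} Eφ → ∫_{-Ξ}^{Ξ}∫ q e A = cQ1 ∫_{-Ξ}^{Ξ} A` (`scal_int`); `Ξ = 0` trivial.
`ne` (`τ = 0`, so `T = 0`): `|φ n (q n)| = 1`, `q n ∈ Ell`. If `√κ|x n| ≥ Ξ₁` then by `outer_bd`
`1 ≤ C e^{-γΞ₁} + C t/κ`, false for large fixed `Ξ₁` and large `n`. So `√κ x n` stays in `[-Ξ₁, Ξ₁]`; a
further subsequence `√κ x n → ξ₁`, `y n → y₁`: `|A(ξ₁) e(y₁)| = 1` (`ScalLim`, continuity): `A(ξ₁) ≠ 0`.
-/

open Filter Topology
open scoped ContDiff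

namespace Pool.Agent.MFE

variable {α μ κ t : ℕ → ℝ} {v φ : ℕ → ℝ × ℝ → ℝ} {W : ℝ → ℝ} {Ξ₀ : ℝ}

private theorem plm_lip : ∃ K : ℝ, 0 < K ∧ ∀ y y' : ℝ, |y| ≤ 1 → |y'| ≤ 1 →
    |pot1 ast y - pot1 ast y'| ≤ K * |y - y'| := by
  obtain ⟨K, hK, hb⟩ := cst_bd
  refine ⟨K, hK, fun y y' hy hy' => ?_⟩
  have hd : ∀ z : ℝ, DifferentiableAt ℝ (pot1 ast) z := fun z =>
    (cst_smooth.differentiable (by simp)) z
  have h1 := Convex.norm_image_sub_le_of_norm_deriv_le (𝕜 := ℝ) (f := pot1 ast) (C := K)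
    (s := Set.Icc (-1) 1) (fun z _ => hd z) (fun z hz => by
      rw [Real.norm_eq_abs]
      exact (hb z (by rw [abs_le]; constructor <;> linarith [hz.1, hz.2])).2.2.2.2.2.2.2)
    (convex_Icc _ _) (abs_le.1 hy') (abs_le.1 hy)
  simpa [Real.norm_eq_abs] using h1

private theorem plm_rho (h : Par α κ) (n : ℕ) : √(α n ^ 2 / κ n ^ 3) ≤ 1 := by
  refine Real.sqrt_le_one.2 ?_
  have hκ := h.κ_pos n
  rw [div_le_one (by positivity)]
  exact h.hα n

private theorem plm_u (h : Fold α μ κ v) (Ξ : ℝ) : ∃ B : ℝ, 0 < B ∧ ∀ᶠ n in atTop,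
    ∀ q : ℝ × ℝ, √(κ n) * |q.1| ≤ Ξ → |uY (α n) (κ n) (v n) q| ≤ B := by
  obtain ⟨A, hA, hb⟩ := fold_bd h
  have hX : 1 ≤ max Ξ 1 := le_max_right _ _
  have hX0 : 0 < max Ξ 1 := by linarith
  refine ⟨A * (1 + max Ξ 1) + 2, by positivity, ?_⟩
  filter_upwards [hb (max Ξ 1) hX] with n hn q hq
  obtain ⟨h1, h2⟩ := hn q (hq.trans (le_max_left _ _))
  have h3 : √(α n ^ 2 / κ n ^ 3) ≤ 1 := plm_rho h.par n
  have h4 : A * (1 + max Ξ 1 * √(α n ^ 2 / κ n ^ 3)) ≤ A * (1 + max Ξ 1) := by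
    refine mul_le_mul_of_nonneg_left ?_ hA.le
    nlinarith
  have h5 : 0 ≤ A * (1 + max Ξ 1) := by positivity
  rw [abs_le]
  constructor
  · linarith
  · linarith

theorem pot_exp (h : Fold α μ κ v) (Ξ : ℝ) : ∃ C : ℝ, 0 < C ∧ ∀ᶠ n in atTop,
    ∀ q ∈ Ell (α n), √(κ n) * |q.1| ≤ Ξ →
      |μ n * Real.exp (v n q) - pot1 ast q.2
        - κ n * pot1 ast q.2 * uY (α n) (κ n) (v n) q| ≤ C * κ n ^ 2 := by
  obtain ⟨K, hK, hlip⟩ := plm_lip
  obtain ⟨B, hB, hu⟩ := plm_u h Ξ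
  obtain ⟨-, hw1, hw2⟩ := h.par.win Ξ
  have hm : 0 < mu1 ast := mu1_pos ast_pos
  refine ⟨3 * (25 / 8) / mu1 ast + 25 / 8 * B ^ 2 + 4 * K * Ξ ^ 2, by positivity, ?_⟩
  have hκB : ∀ᶠ n in atTop, κ n * B ≤ 1 := by
    have h1 : Tendsto (fun n => κ n * B) atTop (𝓝 0) := by
      simpa using h.par.κ_lim.mul_const B
    exact h1.eventually_le_const (by norm_num)
  filter_upwards [hu, hw2, hκB] with n hun hw hkB q hq hqΞ
  have hκ := h.par.κ_pos n
  have h16 := hw.2 q.1 hqΞ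
  have hax := hw1 n q.1 hqΞ
  have hlt : α n ^ 2 * q.1 ^ 2 < 1 := by linarith
  have hY : |YE (α n) q| < 1 := (ell_iff_Y hlt).1 hq
  have hy : |q.2| ≤ 1 := (ell_sq_lt hq).2.le
  have hYn := (YE_near hlt).2 h16
  have hv : v n q = V1 ast (YE (α n) q) + κ n * uY (α n) (κ n) (v n) q := by
    rw [uY, if_pos hq]
    field_simp
    ring
  have hu1 : |uY (α n) (κ n) (v n) q| ≤ B := hun q hqΞ
  set u := uY (α n) (κ n) (v n) q with hud
  have hE : μ n * Real.exp (v n q) =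
      μ n / mu1 ast * pot1 ast (YE (α n) q) * Real.exp (κ n * u) := by
    rw [hv, Real.exp_add, cst_exp]
    ring
  set x := κ n * u with hx
  set Q := pot1 ast (YE (α n) q) with hQ
  have hxB : |x| ≤ κ n * B := by
    rw [hx, abs_mul, abs_of_pos hκ]
    exact mul_le_mul_of_nonneg_left hu1 hκ.le
  have hx1 : |x| ≤ 1 := hxB.trans hkB
  have hx2 : x ^ 2 ≤ κ n ^ 2 * B ^ 2 := by
    rw [← sq_abs, ← mul_pow]
    exact pow_le_pow_left₀ (abs_nonneg _) hxB 2
  have hx3 : x ^ 2 ≤ 1 := by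
    rw [← sq_abs]
    exact pow_le_one₀ (abs_nonneg _) hx1
  have he1 : |Real.exp x - 1 - x| ≤ x ^ 2 := Real.abs_exp_sub_one_sub_id_le hx1
  have he3 : Real.exp x ≤ 3 := by
    have h1 := (abs_le.1 he1).2
    have h2 := (abs_le.1 hx1).2
    linarith
  have hQ1 := cst_q (YE (α n) q)
  have hQd : |Q - pot1 ast q.2| ≤ K * (2 * (Ξ ^ 2 * κ n ^ 2)) := by
    refine (hlip _ _ hY.le hy).trans (mul_le_mul_of_nonneg_left (hYn.trans ?_) hK.le)
    have h1 : 0 ≤ α n ^ 2 * q.1 ^ 2 := by positivity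
    nlinarith [abs_nonneg q.2]
  have hμ1 : |μ n / mu1 ast - 1| ≤ κ n ^ 2 / mu1 ast := by
    have h1 : μ n / mu1 ast - 1 = (μ n - mu1 ast) / mu1 ast := by
      field_simp
    rw [h1, abs_div, abs_of_pos hm]
    exact div_le_div_of_nonneg_right (h.hμ n) hm.le
  have hdec : μ n * Real.exp (v n q) - pot1 ast q.2 - κ n * pot1 ast q.2 * u =
      (μ n / mu1 ast - 1) * Q * Real.exp x + Q * (Real.exp x - 1 - x) +
        (Q - pot1 ast q.2) * (1 + x) := by
    rw [hE, hx]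
    ring
  rw [hdec]
  have t1 : |(μ n / mu1 ast - 1) * Q * Real.exp x| ≤ κ n ^ 2 / mu1 ast * (25 / 8) * 3 := by
    rw [abs_mul, abs_mul, abs_of_pos hQ1.1, abs_of_pos (Real.exp_pos x)]
    have h1 : 0 ≤ κ n ^ 2 / mu1 ast := by positivity
    exact mul_le_mul (mul_le_mul hμ1 hQ1.2.2 hQ1.1.le h1) he3 (Real.exp_pos x).le
      (by positivity)
  have t2 : |Q * (Real.exp x - 1 - x)| ≤ 25 / 8 * (κ n ^ 2 * B ^ 2) := by
    rw [abs_mul, abs_of_pos hQ1.1]
    exact mul_le_mul hQ1.2.2 (he1.trans hx2) (abs_nonneg _) (by norm_num)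
  have t3 : |(Q - pot1 ast q.2) * (1 + x)| ≤ K * (2 * (Ξ ^ 2 * κ n ^ 2)) * 2 := by
    rw [abs_mul]
    refine mul_le_mul hQd ?_ (abs_nonneg _) (by positivity)
    have h1 := abs_add_le 1 x
    rw [abs_one] at h1
    linarith
  refine (abs_add_le _ _).trans ?_
  refine (add_le_add ((abs_add_le _ _).trans (add_le_add t1 t2)) t3).trans (le_of_eq ?_)
  field_simp
  ring

/-- The potential differs from `pot1 ast` by `O(κ)`. -/
private theorem plm_E (h : Fold α μ κ v) (Ξ : ℝ) : ∃ C : ℝ, 0 < C ∧ ∀ᶠ n in atTop,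
    ∀ q ∈ Ell (α n), √(κ n) * |q.1| ≤ Ξ →
      |μ n * Real.exp (v n q) - pot1 ast q.2| ≤ C * κ n := by
  obtain ⟨B, hB, hu⟩ := plm_u h Ξ
  obtain ⟨C, hC, hp⟩ := pot_exp h Ξ
  obtain ⟨-, -, hw2⟩ := h.par.win Ξ
  refine ⟨C + 25 / 8 * B, by positivity, ?_⟩
  filter_upwards [hu, hp, hw2] with n hun hpn hw q hq hqΞ
  have hκ := h.par.κ_pos n
  have h1 := hpn q hq hqΞ
  have h2 := hun q hqΞ
  have hQ1 := cst_q q.2
  have h3 : |κ n * pot1 ast q.2 * uY (α n) (κ n) (v n) q| ≤ κ n * (25 / 8) * B := by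
    rw [abs_mul, abs_mul, abs_of_pos hκ, abs_of_pos hQ1.1]
    exact mul_le_mul (mul_le_mul_of_nonneg_left hQ1.2.2 hκ.le) h2 (abs_nonneg _) (by positivity)
  have h4 : μ n * Real.exp (v n q) - pot1 ast q.2 =
      (μ n * Real.exp (v n q) - pot1 ast q.2
        - κ n * pot1 ast q.2 * uY (α n) (κ n) (v n) q) +
      κ n * pot1 ast q.2 * uY (α n) (κ n) (v n) q := by ring
  rw [h4]
  refine (abs_add_le _ _).trans ((add_le_add h1 h3).trans ?_)
  have h5 : C * κ n ^ 2 ≤ C * κ n := by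
    refine mul_le_mul_of_nonneg_left ?_ hC.le
    nlinarith [hw.1]
  nlinarith

private theorem plm_t (h : NCD α μ κ t v φ)
    (hW : ScalLim κ (fun n => uY (α n) (κ n) (v n)) W) (hΞ : 0 < Ξ₀) (hneg : W Ξ₀ < 0) :
    ∃ C γ : ℝ, 0 < C ∧ 0 < γ ∧ (∀ᶠ n in atTop, ∀ q : ℝ × ℝ,
      φ n q ≤ C * Real.exp (-(γ * (√(κ n) * |q.1|))) ∧
      -φ n q ≤ C * Real.exp (-(γ * (√(κ n) * |q.1|))) + C * (t n / κ n)) ∧
      (∀ᶠ n in atTop, t n / κ n ≤ C) ∧
      ∀ᶠ n in atTop, ∀ Ξ : ℝ, 0 ≤ Ξ →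
      ∫ q in Ell (α n) ∩ {q | Ξ ≤ √(κ n) * |q.1|}, μ n * Real.exp (v n q) * max (φ n q) 0
        ≤ C / √(κ n) * Real.exp (-(γ * Ξ)) := by
  obtain ⟨C, γ, hC, hγ, ho⟩ := outer_bd h hW hΞ hneg
  have hu : ∀ᶠ n in atTop, ∀ q : ℝ × ℝ, φ n q ≤ C * Real.exp (-(γ * (√(κ n) * |q.1|))) :=
    ho.mono fun n hn q => (hn q).1
  obtain ⟨C₁, hC₁, ht⟩ := t_bd h hγ hu
  obtain ⟨C₂, hC₂, hi⟩ := tail_int h hγ hu
  have m1 : C ≤ max C (max C₁ C₂) := le_max_left _ _
  have m2 : C₁ ≤ max C (max C₁ C₂) := (le_max_left _ _).trans (le_max_right _ _)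
  have m3 : C₂ ≤ max C (max C₁ C₂) := (le_max_right _ _).trans (le_max_right _ _)
  refine ⟨max C (max C₁ C₂), γ, by positivity, hγ, ?_, ?_, ?_⟩
  · filter_upwards [ho] with n hn q
    have hκ := h.fold.par.κ_pos n
    have ht0 := h.t_nonneg n
    have he := Real.exp_pos (-(γ * (√(κ n) * |q.1|)))
    have h1 := mul_le_mul_of_nonneg_right m1 he.le
    have h2 := mul_le_mul_of_nonneg_right m1 (show 0 ≤ t n / κ n by positivity)
    exact ⟨(hn q).1.trans h1, (hn q).2.trans (add_le_add h1 h2)⟩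
  · filter_upwards [ht] with n hn
    exact hn.2.trans m2
  · filter_upwards [hi] with n hn Ξ hX
    refine (hn Ξ hX).trans ?_
    refine mul_le_mul_of_nonneg_right ?_ (Real.exp_pos _).le
    exact div_le_div_of_nonneg_right m3 (Real.sqrt_nonneg _)

theorem ncd_slow (h : NCD α μ κ t v φ)
    (hW : ScalLim κ (fun n => uY (α n) (κ n) (v n)) W) (hΞ : 0 < Ξ₀) (hneg : W Ξ₀ < 0) :
    Slow α κ φ := by
  obtain ⟨C, γ, hC, hγ, ho, ht, hi⟩ := plm_t h hW hΞ hneg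
  obtain ⟨C₁, hC₁, hamp⟩ := h.fold.amp
  refine { zero := fun n => (h.cd n).zero
           cont := fun Ξ => Eventually.of_forall fun n => (h.cd n).cont.continuousOn
           smooth := fun Ξ => Eventually.of_forall fun n =>
             ((h.cd n).smooth.mono Set.inter_subset_left).of_le ENat.LEInfty.out
           bound := fun Ξ => ?_ }
  obtain ⟨C₂, hC₂, hE⟩ := plm_E h.fold Ξ
  refine ⟨1 + C₂ + C₁ * C, ?_⟩
  filter_upwards [ht, hE] with n htn hEn q hq hqΞ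
  have hκ := h.fold.par.κ_pos n
  have h1 := h.le_one n q
  refine ⟨?_, ?_⟩
  · have : 0 ≤ C₂ + C₁ * C := by positivity
    linarith
  · have heq : lap (φ n) q = -(μ n * Real.exp (v n q) * (φ n q - t n)) := by
      linarith [(h.cd n).eq q hq]
    have h2 : lap (φ n) q + pot1 ast q.2 * φ n q =
        -(μ n * Real.exp (v n q) - pot1 ast q.2) * φ n q + μ n * Real.exp (v n q) * t n := by
      rw [heq]
      ring
    have h3 : |(-(μ n * Real.exp (v n q) - pot1 ast q.2)) * φ n q| ≤ C₂ * κ n * 1 := by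
      rw [abs_mul, abs_neg]
      exact mul_le_mul (hEn q hq hqΞ.le) h1 (abs_nonneg _) (by positivity)
    have ht0 := h.t_nonneg n
    have ht1 : t n ≤ C * κ n := by
      rwa [div_le_iff₀ hκ] at htn
    have hE0 : 0 < μ n * Real.exp (v n q) :=
      mul_pos (h.cd n).sol.mu_pos (Real.exp_pos _)
    have h4 : |μ n * Real.exp (v n q) * t n| ≤ C₁ * (C * κ n) := by
      rw [abs_mul, abs_of_pos hE0, abs_of_nonneg ht0]
      exact mul_le_mul (hamp n q).2 ht1 ht0 hC₁.le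
    rw [h2]
    refine (abs_add_le _ _).trans ((add_le_add h3 h4).trans ?_)
    nlinarith

private theorem plm_pt (hp : Par α κ) {f : ℕ → ℝ × ℝ → ℝ} {A : ℝ → ℝ} (hs : ScalLim κ f A)
    (ξ : ℝ) : Tendsto (fun n => f n (ξ / √(κ n), 0)) atTop (𝓝 (A ξ)) := by
  rw [Metric.tendsto_atTop']
  intro ε hε
  have h1 := hs (|ξ| + 1) (ε / 2) (by positivity) (by positivity)
  obtain ⟨N, hN⟩ := eventually_atTop.1 h1
  refine ⟨N, fun n hn => ?_⟩
  have hκ : 0 < √(κ n) := Real.sqrt_pos.2 (hp.κ_pos n)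
  have h2 := hN n hn.le (ξ / √(κ n), 0) (by
    constructor
    · change √(κ n) * |ξ / √(κ n)| ≤ |ξ| + 1
      rw [abs_div, abs_of_pos hκ, mul_div_cancel₀ _ hκ.ne']
      linarith
    · simp)
  have h3 : √(κ n) * (ξ / √(κ n)) = ξ := mul_div_cancel₀ _ hκ.ne'
  have h4 : e1 ast 0 = 1 := by simp [e1]
  simp only [h3, h4, mul_one] at h2
  rw [Real.dist_eq]
  linarith

private theorem plm_int {α : ℝ} (hα : 0 < α) {f : ℝ × ℝ → ℝ} (hf : Continuous f) :
    MeasureTheory.IntegrableOn f (Ell α) := by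
  refine (hf.continuousOn.integrableOn_compact (isCompact_cell hα)).mono_set ?_
  rw [← closure_ell hα]
  exact subset_closure

/-- The limit `G` of `(lap φ + q φ)/κ`. -/
private theorem plm_G (h : NCD α μ κ t v φ) (hWc : Continuous W)
    (hW : ScalLim κ (fun n => uY (α n) (κ n) (v n)) W) (hΞ : 0 < Ξ₀) (hneg : W Ξ₀ < 0)
    {A : ℝ → ℝ} {T : ℝ} (hs : ScalLim κ φ A)
    (hT : Tendsto (fun n => t n / κ n) atTop (𝓝 T)) :
    ∀ Ξ ε : ℝ, 0 < Ξ → 0 < ε → ∀ᶠ n in atTop, ∀ q ∈ Ell (α n), √(κ n) * |q.1| ≤ Ξ →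
      |(lap (φ n) q + pot1 ast q.2 * φ n q) / κ n -
        (-(pot1 ast q.2 * (W (√(κ n) * q.1) * e1 ast q.2) * (A (√(κ n) * q.1) * e1 ast q.2)) +
          T * pot1 ast q.2)| ≤ ε := by
  intro Ξ ε hX hε
  obtain ⟨C, γ, hC, hγ, ho, ht, hi⟩ := plm_t h hW hΞ hneg
  obtain ⟨C₁, hC₁, hp⟩ := pot_exp h.fold Ξ
  obtain ⟨C₂, hC₂, hE⟩ := plm_E h.fold Ξ
  obtain ⟨M, hM⟩ : ∃ M : ℝ, ∀ ξ ∈ Set.Icc (-Ξ) Ξ, |W ξ| ≤ M :=
    isCompact_Icc.exists_bound_of_continuousOn hWc.continuousOn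
  have hM0 : 0 ≤ M := (abs_nonneg _).trans (hM 0 ⟨by linarith, hX.le⟩)
  -- the small number
  set δ := ε / (4 * (25 / 8 * (2 + M) + 1)) with hδd
  have hδ : 0 < δ := by positivity
  have hsmall : ∀ᶠ n in atTop, (C₁ + C₂ * C) * κ n ≤ ε / 2 := by
    have h1 : Tendsto (fun n => (C₁ + C₂ * C) * κ n) atTop (𝓝 0) := by
      simpa using h.fold.par.κ_lim.const_mul (C₁ + C₂ * C)
    exact h1.eventually_le_const (by positivity)
  have hT' : ∀ᶠ n in atTop, |t n / κ n - T| ≤ δ := by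
    have h1 := (tendsto_sub_nhds_zero_iff.2 hT).abs
    rw [abs_zero] at h1
    exact h1.eventually_le_const hδ
  filter_upwards [hp, hE, hW Ξ δ hX hδ, hs Ξ δ hX hδ, hsmall, hT', ht] with
    n hpn hEn hWn hsn hsm hTn htn q hq hqΞ
  have hκ := h.fold.par.κ_pos n
  have ht0 := h.t_nonneg n
  have hy : |q.2| ≤ 1 := (ell_sq_lt hq).2.le
  have hφ1 := h.le_one n q
  have hQ1 := cst_q q.2
  have hWq := hWn q ⟨hqΞ, hy⟩
  have hsq := hsn q ⟨hqΞ, hy⟩
  set u := uY (α n) (κ n) (v n) q with hud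
  set w := W (√(κ n) * q.1) * e1 ast q.2 with hwd
  set a := A (√(κ n) * q.1) * e1 ast q.2 with had
  set Q := pot1 ast q.2 with hQd
  set E := μ n * Real.exp (v n q) with hEd
  have he1 : |e1 ast q.2| ≤ 1 := by
    rw [abs_le]
    obtain ⟨c, hc, hce⟩ := cst_e
    have h1 := (hce q.2 hy).1
    have h2 : q.2 ^ 2 ≤ 1 := by
      rw [← sq_abs]
      exact pow_le_one₀ (abs_nonneg _) hy
    exact ⟨by linarith, e1_le_one⟩
  have hxi : |W (√(κ n) * q.1)| ≤ M := by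
    apply hM
    have h1 : |√(κ n) * q.1| ≤ Ξ := by
      rw [abs_mul, abs_of_nonneg (Real.sqrt_nonneg _)]
      exact hqΞ
    exact abs_le.1 h1
  have hw : |w| ≤ M := by
    rw [hwd, abs_mul]
    exact (mul_le_mul hxi he1 (abs_nonneg _) hM0).trans (le_of_eq (mul_one M))
  have heq : lap (φ n) q = -(E * (φ n q - t n)) := by
    linarith [(h.cd n).eq q hq]
  have hdec : (lap (φ n) q + Q * φ n q) / κ n - (-(Q * w * a) + T * Q) =
      -((E - Q - κ n * Q * u) / κ n * φ n q) + (E - Q) * (t n / κ n) +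
      Q * ((t n / κ n - T) - (u - w) * φ n q - w * (φ n q - a)) := by
    rw [heq]
    field_simp
    ring
  rw [hdec]
  have s1 : |(E - Q - κ n * Q * u) / κ n * φ n q| ≤ C₁ * κ n := by
    rw [abs_mul, abs_div, abs_of_pos hκ]
    have h1 : |E - Q - κ n * Q * u| / κ n ≤ C₁ * κ n := by
      rw [div_le_iff₀ hκ]
      refine (hpn q hq hqΞ).trans (le_of_eq ?_)
      ring
    exact (mul_le_mul h1 hφ1 (abs_nonneg _) (by positivity)).trans (le_of_eq (mul_one _))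
  have s2 : |(E - Q) * (t n / κ n)| ≤ C₂ * κ n * C := by
    rw [abs_mul, abs_of_nonneg (show 0 ≤ t n / κ n by positivity)]
    exact mul_le_mul (hEn q hq hqΞ) htn (by positivity) (by positivity)
  have s3 : |(t n / κ n - T) - (u - w) * φ n q - w * (φ n q - a)| ≤ δ + δ + M * δ := by
    have h1 : |(u - w) * φ n q| ≤ δ := by
      rw [abs_mul]
      exact (mul_le_mul hWq hφ1 (abs_nonneg _) hδ.le).trans (le_of_eq (mul_one _))
    have h2 : |w * (φ n q - a)| ≤ M * δ := by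
      rw [abs_mul]
      exact mul_le_mul hw hsq (abs_nonneg _) hM0
    have h3 := abs_sub (t n / κ n - T) ((u - w) * φ n q)
    have h4 := abs_sub ((t n / κ n - T) - (u - w) * φ n q) (w * (φ n q - a))
    linarith
  have s4 : |Q * ((t n / κ n - T) - (u - w) * φ n q - w * (φ n q - a))| ≤
      25 / 8 * (δ + δ + M * δ) := by
    rw [abs_mul, abs_of_pos hQ1.1]
    exact mul_le_mul hQ1.2.2 s3 (abs_nonneg _) (by norm_num)
  have s5 : 25 / 8 * (δ + δ + M * δ) ≤ ε / 2 := by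
    have h1 : δ * (4 * (25 / 8 * (2 + M) + 1)) = ε := by
      rw [hδd]
      field_simp
    nlinarith
  have s6 := abs_add_le (-((E - Q - κ n * Q * u) / κ n * φ n q) + (E - Q) * (t n / κ n))
    (Q * ((t n / κ n - T) - (u - w) * φ n q - w * (φ n q - a)))
  have s7 := abs_add_le (-((E - Q - κ n * Q * u) / κ n * φ n q)) ((E - Q) * (t n / κ n))
  rw [abs_neg] at s7
  nlinarith

/-- The integral of the limit over a window. -/
private theorem plm_win (h : NCD α μ κ t v φ) {A : ℝ → ℝ} (hA : Continuous A)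
    (hs : ScalLim κ φ A) {Ξ : ℝ} (hX : 0 < Ξ) :
    Tendsto (fun n => √(κ n) * ∫ q in Ell (α n) ∩ {q | √(κ n) * |q.1| ≤ Ξ},
      μ n * Real.exp (v n q) * φ n q) atTop (𝓝 (cQ1 * ∫ ξ in (-Ξ)..Ξ, A ξ)) := by
  have hHc : Continuous (Function.uncurry fun ξ y => pot1 ast y * (A ξ * e1 ast y)) := by
    have h1 : Continuous (pot1 ast) := cst_smooth.continuous
    have h2 : Continuous (e1 ast) := (e1_smooth ast).continuous
    exact (h1.comp continuous_snd).mul ((hA.comp continuous_fst).mul (h2.comp continuous_snd))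
  have h1 := scal_int h.fold.par (F := fun n q => μ n * Real.exp (v n q) * φ n q) hX hHc ?_ ?_
  · have h2 : (∫ ξ in (-Ξ)..Ξ, ∫ y in (-1 : ℝ)..1, pot1 ast y * (A ξ * e1 ast y)) =
        cQ1 * ∫ ξ in (-Ξ)..Ξ, A ξ := by
      rw [← intervalIntegral.integral_const_mul]
      congr 1
      funext ξ
      unfold cQ1
      rw [← intervalIntegral.integral_mul_const]
      congr 1
      funext y
      ring
    rw [h2] at h1
    exact h1
  · refine Eventually.of_forall fun n => Continuous.continuousOn ?_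
    have := (h.cd n).sol.cont
    have := (h.cd n).cont
    fun_prop
  · intro ε hε
    obtain ⟨C₂, hC₂, hE⟩ := plm_E h.fold Ξ
    have hsmall : ∀ᶠ n in atTop, C₂ * κ n ≤ ε / 2 := by
      have h1 : Tendsto (fun n => C₂ * κ n) atTop (𝓝 0) := by
        simpa using h.fold.par.κ_lim.const_mul C₂
      exact h1.eventually_le_const (by positivity)
    filter_upwards [hE, hs Ξ (ε / 8) hX (by positivity), hsmall] with n hEn hsn hsm q hq hqΞ
    have hκ := h.fold.par.κ_pos n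
    have hy : |q.2| ≤ 1 := (ell_sq_lt hq).2.le
    have hQ1 := cst_q q.2
    have hφ1 := h.le_one n q
    have hsq := hsn q ⟨hqΞ, hy⟩
    have hdec : μ n * Real.exp (v n q) * φ n q -
        pot1 ast q.2 * (A (√(κ n) * q.1) * e1 ast q.2) =
        (μ n * Real.exp (v n q) - pot1 ast q.2) * φ n q +
          pot1 ast q.2 * (φ n q - A (√(κ n) * q.1) * e1 ast q.2) := by ring
    rw [hdec]
    have s1 : |(μ n * Real.exp (v n q) - pot1 ast q.2) * φ n q| ≤ C₂ * κ n := by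
      rw [abs_mul]
      exact (mul_le_mul (hEn q hq hqΞ) hφ1 (abs_nonneg _) (by positivity)).trans
        (le_of_eq (mul_one _))
    have s2 : |pot1 ast q.2 * (φ n q - A (√(κ n) * q.1) * e1 ast q.2)| ≤
        25 / 8 * (ε / 8) := by
      rw [abs_mul, abs_of_pos hQ1.1]
      exact mul_le_mul hQ1.2.2 hsq (abs_nonneg _) (by norm_num)
    have s3 := abs_add_le ((μ n * Real.exp (v n q) - pot1 ast q.2) * φ n q)
      (pot1 ast q.2 * (φ n q - A (√(κ n) * q.1) * e1 ast q.2))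
    linarith

private theorem plm_low (h : NCD α μ κ t v φ) {C γ : ℝ}
    (hi : ∀ᶠ n in atTop, ∀ Ξ : ℝ, 0 ≤ Ξ →
      ∫ q in Ell (α n) ∩ {q | Ξ ≤ √(κ n) * |q.1|}, μ n * Real.exp (v n q) * max (φ n q) 0
        ≤ C / √(κ n) * Real.exp (-(γ * Ξ))) {Ξ : ℝ} (hX : 0 < Ξ) :
    ∀ᶠ n in atTop, -(C * Real.exp (-(γ * Ξ))) ≤
      √(κ n) * ∫ q in Ell (α n) ∩ {q | √(κ n) * |q.1| ≤ Ξ},
        μ n * Real.exp (v n q) * φ n q := by
  filter_upwards [hi] with n hn
  have hα := h.fold.par.α_pos n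
  have hκ := h.fold.par.κ_pos n
  have hs : 0 < √(κ n) := Real.sqrt_pos.2 hκ
  have hvc : Continuous (v n) := (h.cd n).sol.cont
  have hφc : Continuous (φ n) := (h.cd n).cont
  have hmu : 0 < μ n := (h.cd n).sol.mu_pos
  have hf2 : MeasureTheory.IntegrableOn (fun q => μ n * Real.exp (v n q) * φ n q)
      (Ell (α n)) := plm_int hα (by fun_prop)
  have hf1 : MeasureTheory.IntegrableOn (fun q => μ n * Real.exp (v n q) * max (φ n q) 0)
      (Ell (α n)) := plm_int hα (by fun_prop)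
  have hf3 : MeasureTheory.IntegrableOn (fun q => μ n * Real.exp (v n q))
      (Ell (α n)) := plm_int hα (by fun_prop)
  have hm := h.mean n
  have hpos : 0 ≤ ∫ q in Ell (α n), μ n * Real.exp (v n q) * φ n q := by
    rw [hm]
    refine mul_nonneg (h.t_nonneg n) (MeasureTheory.integral_nonneg fun q => ?_)
    positivity
  have hWm : MeasurableSet {q : ℝ × ℝ | √(κ n) * |q.1| ≤ Ξ} :=
    (isClosed_le (by fun_prop) continuous_const).measurableSet
  have hsplit := MeasureTheory.integral_inter_add_sdiff hWm hf2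
  have hsub : Ell (α n) \ {q : ℝ × ℝ | √(κ n) * |q.1| ≤ Ξ} ⊆
      Ell (α n) ∩ {q : ℝ × ℝ | Ξ ≤ √(κ n) * |q.1|} := by
    rintro q ⟨h1, h2⟩
    have h3 : ¬ √(κ n) * |q.1| ≤ Ξ := h2
    exact ⟨h1, (not_le.1 h3).le⟩
  have hTm : MeasurableSet (Ell (α n) ∩ {q : ℝ × ℝ | Ξ ≤ √(κ n) * |q.1|}) :=
    (isOpen_ell _).measurableSet.inter
      (isClosed_le continuous_const (by fun_prop)).measurableSet
  have h1 : ∫ q in Ell (α n) \ {q : ℝ × ℝ | √(κ n) * |q.1| ≤ Ξ},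
      μ n * Real.exp (v n q) * φ n q ≤
      ∫ q in Ell (α n) \ {q : ℝ × ℝ | √(κ n) * |q.1| ≤ Ξ},
        μ n * Real.exp (v n q) * max (φ n q) 0 := by
    refine MeasureTheory.setIntegral_mono_on (hf2.mono_set Set.sdiff_subset)
      (hf1.mono_set Set.sdiff_subset) ((isOpen_ell _).measurableSet.diff hWm) (fun q _ => ?_)
    exact mul_le_mul_of_nonneg_left (le_max_left _ _) (by positivity)
  have h2 : ∫ q in Ell (α n) \ {q : ℝ × ℝ | √(κ n) * |q.1| ≤ Ξ},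
        μ n * Real.exp (v n q) * max (φ n q) 0 ≤
      ∫ q in Ell (α n) ∩ {q : ℝ × ℝ | Ξ ≤ √(κ n) * |q.1|},
        μ n * Real.exp (v n q) * max (φ n q) 0 := by
    refine MeasureTheory.setIntegral_mono_set (hf1.mono_set Set.inter_subset_left) ?_
      (Eventually.of_forall hsub)
    refine Eventually.of_forall fun q => ?_
    exact mul_nonneg (by positivity) (le_max_right _ _)
  have h3 := hn Ξ hX.le
  have h4 : -(C / √(κ n) * Real.exp (-(γ * Ξ))) ≤
      ∫ q in Ell (α n) ∩ {q | √(κ n) * |q.1| ≤ Ξ}, μ n * Real.exp (v n q) * φ n q := by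
    linarith
  have h5 := mul_le_mul_of_nonneg_left h4 hs.le
  have h6 : √(κ n) * -(C / √(κ n) * Real.exp (-(γ * Ξ))) = -(C * Real.exp (-(γ * Ξ))) := by
    field_simp
  rw [h6] at h5
  exact h5

private theorem plm_main (h : NCD α μ κ t v φ) (hWc : Continuous W)
    (hW : ScalLim κ (fun n => uY (α n) (κ n) (v n)) W) (hΞ : 0 < Ξ₀) (hneg : W Ξ₀ < 0)
    {A : ℝ → ℝ} {T : ℝ} (hA : Continuous A) (hs : ScalLim κ φ A)
    (hT : Tendsto (fun n => t n / κ n) atTop (𝓝 T)) :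
    ALim (cQ3 / (2 * cE)) (T * cQ1 / cE) W A := by
  have hcE := cE_pos
  have hcQ1 := cQ1_pos
  have hcQ3 := cQ3_pos
  have hp := h.fold.par
  have hqc : Continuous (pot1 ast) := cst_smooth.continuous
  have hec : Continuous (e1 ast) := (e1_smooth ast).continuous
  have hT0 : 0 ≤ T := ge_of_tendsto' hT fun n =>
    div_nonneg (h.t_nonneg n) (hp.κ_pos n).le
  obtain ⟨C, γ, hC, hγ, ho, ht, hi⟩ := plm_t h hW hΞ hneg
  have hGc : Continuous (Function.uncurry fun ξ y =>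
      -(pot1 ast y * (W ξ * e1 ast y) * (A ξ * e1 ast y)) + T * pot1 ast y) := by
    have h1 : Continuous fun p : ℝ × ℝ => pot1 ast p.2 := hqc.comp continuous_snd
    have h2 : Continuous fun p : ℝ × ℝ => e1 ast p.2 := hec.comp continuous_snd
    have h3 : Continuous fun p : ℝ × ℝ => W p.1 := hWc.comp continuous_fst
    have h4 : Continuous fun p : ℝ × ℝ => A p.1 := hA.comp continuous_fst
    exact (((h1.mul (h3.mul h2)).mul (h4.mul h2)).neg).add (continuous_const.mul h1)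
  obtain ⟨hsm, hode⟩ := slow_ode hp (ncd_slow h hW hΞ hneg) hA hs hGc
    (plm_G h hWc hW hΞ hneg hs hT)
  have hpt := plm_pt hp hs
  refine { smooth := hsm, even := ?_, ode := ?_, τ_nonneg := by positivity, bdd := ?_, ne := ?_ }
  · intro ξ
    have h1 := hpt ξ
    have h2 := hpt (-ξ)
    have h3 : (fun n => φ n (-ξ / √(κ n), 0)) = fun n => φ n (ξ / √(κ n), 0) := by
      funext n
      rw [neg_div]
      exact (h.cd n).evx _ _
    rw [h3] at h2
    exact tendsto_nhds_unique h2 h1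
  · intro ξ
    have h1 := hode ξ
    have h2 : (∫ y in (-1 : ℝ)..1, e1 ast y *
        (-(pot1 ast y * (W ξ * e1 ast y) * (A ξ * e1 ast y)) + T * pot1 ast y)) =
        -(W ξ * A ξ) * cQ3 + T * cQ1 := by
      unfold cQ3 cQ1
      rw [← intervalIntegral.integral_const_mul, ← intervalIntegral.integral_const_mul,
        ← intervalIntegral.integral_add]
      · congr 1
        funext y
        ring
      · exact ((continuous_const.mul (hqc.mul (hec.pow 3))).intervalIntegrable _ _)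
      · exact ((continuous_const.mul (hqc.mul hec)).intervalIntegrable _ _)
    rw [h2] at h1
    have h3 : deriv (deriv A) ξ = (-(W ξ * A ξ) * cQ3 + T * cQ1) / cE := by
      rw [← h1]
      field_simp
    rw [h3]
    field_simp
  · refine ⟨max C (max (C * cE / cQ1) (C / cQ1)), γ, by positivity, hγ, ?_, ?_⟩
    · intro ξ
      have hx : ∀ n, √(κ n) * |ξ / √(κ n)| = |ξ| := by
        intro n
        have hκ : 0 < √(κ n) := Real.sqrt_pos.2 (hp.κ_pos n)
        rw [abs_div, abs_of_pos hκ, mul_div_cancel₀ _ hκ.ne']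
      have h1 : A ξ ≤ C * Real.exp (-(γ * |ξ|)) := by
        refine le_of_tendsto (hpt ξ) ?_
        filter_upwards [ho] with n hn
        have h2 := (hn (ξ / √(κ n), 0)).1
        simp only [hx n] at h2
        exact h2
      have h2 : -A ξ ≤ C * Real.exp (-(γ * |ξ|)) + C * T := by
        refine le_of_tendsto_of_tendsto (hpt ξ).neg
          (tendsto_const_nhds.add (hT.const_mul C)) ?_
        filter_upwards [ho] with n hn
        have h2 := (hn (ξ / √(κ n), 0)).2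
        simp only [hx n] at h2
        exact h2
      have he := Real.exp_pos (-(γ * |ξ|))
      have m1 : C ≤ max C (max (C * cE / cQ1) (C / cQ1)) := le_max_left _ _
      have m2 : C * cE / cQ1 ≤ max C (max (C * cE / cQ1) (C / cQ1)) :=
        (le_max_left _ _).trans (le_max_right _ _)
      have h3 := mul_le_mul_of_nonneg_right m1 he.le
      refine ⟨h1.trans h3, h2.trans (add_le_add h3 ?_)⟩
      have h4 : C * T = C * cE / cQ1 * (T * cQ1 / cE) := by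
        field_simp
      rw [h4]
      exact mul_le_mul_of_nonneg_right m2 (by positivity)
    · intro Ξ hX
      have m3 : C / cQ1 ≤ max C (max (C * cE / cQ1) (C / cQ1)) :=
        (le_max_right _ _).trans (le_max_right _ _)
      have he := Real.exp_pos (-(γ * Ξ))
      have h3 := mul_le_mul_of_nonneg_right m3 he.le
      rcases hX.eq_or_lt with hX0 | hX0
      · rw [← hX0]
        rw [← hX0] at h3
        have h4 : 0 ≤ C / cQ1 * Real.exp (-(γ * 0)) := by positivity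
        simp only [neg_zero, intervalIntegral.integral_same]
        linarith
      · have h1 := ge_of_tendsto (plm_win h hA hs hX0) (plm_low h hi hX0)
        have h4 : -(C / cQ1 * Real.exp (-(γ * Ξ))) ≤ ∫ ξ in (-Ξ)..Ξ, A ξ := by
          have h5 : C / cQ1 * Real.exp (-(γ * Ξ)) = C * Real.exp (-(γ * Ξ)) / cQ1 := by ring
          rw [h5, ← neg_div, div_le_iff₀ hcQ1]
          linarith
        linarith
  · intro hτ
    have hT1 : T = 0 := by
      rcases div_eq_zero_iff.1 hτ with h1 | h1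
      · rcases mul_eq_zero.1 h1 with h2 | h2
        · exact h2
        · exact absurd h2 hcQ1.ne'
      · exact absurd h1 hcE.ne'
    by_contra hcon
    push Not at hcon
    -- far away `φ` is small
    obtain ⟨Ξ₁, hΞ₁, hfar⟩ : ∃ Ξ₁ : ℝ, 0 < Ξ₁ ∧ C * Real.exp (-(γ * Ξ₁)) ≤ 1 / 4 := by
      have h1 : Tendsto (fun x : ℝ => C * Real.exp (-(γ * x))) atTop (𝓝 (C * 0)) := by
        refine Tendsto.const_mul C ?_
        refine Real.tendsto_exp_neg_atTop_nhds_zero.comp ?_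
        exact tendsto_id.const_mul_atTop hγ
      rw [mul_zero] at h1
      obtain ⟨x, hx1, hx2⟩ := ((h1.eventually_le_const (by norm_num : (0 : ℝ) < 1 / 4)).and
        (eventually_gt_atTop 0)).exists
      exact ⟨x, hx2, hx1⟩
    have hTs : ∀ᶠ n in atTop, C * (t n / κ n) ≤ 1 / 4 := by
      have h1 := hT.const_mul C
      rw [hT1, mul_zero] at h1
      exact h1.eventually_le_const (by norm_num)
    obtain ⟨n, hn1, hn2, hn3⟩ := (ho.and (hTs.and
      (hs Ξ₁ (1 / 2) hΞ₁ (by norm_num)))).exists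
    obtain ⟨q, hq⟩ := h.att n
    have hκ := hp.κ_pos n
    have hqE : q ∈ Ell (α n) := by
      by_contra hc
      rw [(h.cd n).zero q hc, abs_zero] at hq
      norm_num at hq
    have ht0 : 0 ≤ C * (t n / κ n) := by
      have := h.t_nonneg n
      positivity
    rcases le_or_gt (√(κ n) * |q.1|) Ξ₁ with hc | hc
    · have h1 := hn3 q ⟨hc, (ell_sq_lt hqE).2.le⟩
      rw [hcon, zero_mul, sub_zero, hq] at h1
      norm_num at h1
    · have h1 := hn1 q
      have h2 : C * Real.exp (-(γ * (√(κ n) * |q.1|))) ≤ 1 / 4 := by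
        refine le_trans (mul_le_mul_of_nonneg_left (Real.exp_le_exp.2 ?_) hC.le) hfar
        nlinarith
      have h3 : |φ n q| ≤ 1 / 2 := by
        rw [abs_le]
        constructor <;> linarith [h1.1, h1.2]
      rw [hq] at h3
      norm_num at h3

theorem phi_lim (h : NCD α μ κ t v φ) (hWc : Continuous W)
    (hW : ScalLim κ (fun n => uY (α n) (κ n) (v n)) W) (hΞ : 0 < Ξ₀) (hneg : W Ξ₀ < 0) :
    ∃ (ψ : ℕ → ℕ) (A : ℝ → ℝ) (T : ℝ), StrictMono ψ ∧
      ScalLim (fun n => κ (ψ n)) (fun n => φ (ψ n)) A ∧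
      Tendsto (fun n => t (ψ n) / κ (ψ n)) atTop (𝓝 T) ∧
      ALim (cQ3 / (2 * cE)) (T * cQ1 / cE) W A := by
  obtain ⟨C, γ, hC, hγ, ho, ht, hi⟩ := plm_t h hW hΞ hneg
  obtain ⟨ψ₁, A, hψ₁, hA, hs₁⟩ := slow_subseq h.fold.par (ncd_slow h hW hΞ hneg)
  have hb : ∀ᶠ n in atTop, t (ψ₁ n) / κ (ψ₁ n) ∈ Set.Icc (0 : ℝ) C := by
    filter_upwards [hψ₁.tendsto_atTop.eventually ht] with n hn
    exact ⟨div_nonneg (h.t_nonneg _) (h.fold.par.κ_pos _).le, hn⟩
  obtain ⟨T, -, ψ₂, hψ₂, hT⟩ :=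
    (isCompact_Icc (a := (0 : ℝ)) (b := C)).tendsto_subseq' hb.frequently
  have hψ : StrictMono (ψ₁ ∘ ψ₂) := hψ₁.comp hψ₂
  have hs : ScalLim (fun n => κ (ψ₁ (ψ₂ n))) (fun n => φ (ψ₁ (ψ₂ n))) A := hs₁.sub hψ₂
  refine ⟨ψ₁ ∘ ψ₂, A, T, hψ, hs, hT, ?_⟩
  exact plm_main (h.sub hψ) hWc (hW.sub hψ) hΞ hneg hA hs hT

end Pool.Agent.MFE
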