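import Pool.Agent.MFE.CAL

/-!
# MFE.GNS: Sobolev inequality on sets of finite area, truncations, cutoffs

`gns`: Mathlib's Gagliardo-Nirenberg-Sobolev inequality for `p = 1`, `n = 2`
(`MeasureTheory.lintegral_pow_le_pow_lintegral_fderiv` or
`MeasureTheory.eLpNorm_le_eLpNorm_fderiv_one`): `‖f‖_2 ≤ C ‖fderiv f‖_1`, then Cauchy-Schwarz
`‖fderiv f‖_1 ≤ |N|^{1/2} ‖fderiv f‖_2` (`fderiv f = 0` off `closure`... : the derivative vanishes
almost everywhere on `{f = 0}`; since `f` is `C¹`: at a density point; simpler: use the hypothesis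
that `dx f`, `dy f` vanish off `N` too).
`trunc`: a smooth `η : ℝ → ℝ` with `η = 0` on `(-∞, 1]`, `0 ≤ η' ≤ 1`, `η'' ≥ 0`,
`s - 2 ≤ η s ≤ max s 0`: integrate `Real.smoothTransition (s - 1)`.
`cutx`: `χ(s) = Real.smoothTransition (2 - |s|)` (smooth since it is one near `0`).
-/

open scoped ContDiff

namespace Pool.Agent.MFE

open MeasureTheory in
private theorem GNS_fin : NNReal.HolderConjugate (Module.finrank ℝ (ℝ × ℝ) : NNReal) 2 := by
  have h : (Module.finrank ℝ (ℝ × ℝ) : NNReal) = 2 := by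
    rw [Module.finrank_prod, Module.finrank_self]
    norm_num
  rw [h]
  exact NNReal.HolderConjugate.two_two

private theorem GNS_norm {f : ℝ × ℝ → ℝ} (hf : ContDiff ℝ 1 f) (q : ℝ × ℝ) :
    ‖fderiv ℝ f q‖ ^ 2 ≤ 2 * gdot f f q := by
  have hd : DifferentiableAt ℝ f q := (hf.differentiable one_ne_zero) q
  have h1 : ‖fderiv ℝ f q‖ ≤ |dx f q| + |dy f q| := by
    apply ContinuousLinearMap.opNorm_le_bound _ (by positivity)
    rintro ⟨a, b⟩
    rw [fderiv_apply_eq hd a b, Real.norm_eq_abs]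
    have ha : |a| ≤ ‖((a, b) : ℝ × ℝ)‖ := norm_fst_le ((a, b) : ℝ × ℝ)
    have hb : |b| ≤ ‖((a, b) : ℝ × ℝ)‖ := norm_snd_le ((a, b) : ℝ × ℝ)
    refine le_trans (abs_add_le _ _) ?_
    rw [abs_mul, abs_mul]
    have e1 := mul_le_mul_of_nonneg_right ha (abs_nonneg (dx f q))
    have e2 := mul_le_mul_of_nonneg_right hb (abs_nonneg (dy f q))
    linarith
  have h2 : ‖fderiv ℝ f q‖ ^ 2 ≤ (|dx f q| + |dy f q|) ^ 2 :=
    pow_le_pow_left₀ (norm_nonneg _) h1 2
  have h3 : gdot f f q = |dx f q| ^ 2 + |dy f q| ^ 2 := by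
    unfold gdot
    rw [sq_abs, sq_abs]
    ring
  rw [h3]
  nlinarith [sq_nonneg (|dx f q| - |dy f q|)]


theorem gns : ∃ C : ℝ, 0 < C ∧ ∀ (f : ℝ × ℝ → ℝ) (N : Set (ℝ × ℝ)), ContDiff ℝ 1 f →
    HasCompactSupport f → MeasurableSet N → MeasureTheory.volume N ≠ ⊤ →
    (∀ q, q ∉ N → f q = 0 ∧ dx f q = 0 ∧ dy f q = 0) →
    ∫ q, f q ^ 2 ≤ C * (MeasureTheory.volume N).toReal * ∫ q, gdot f f q := by
  set C0 : NNReal := MeasureTheory.eLpNormLESNormFDerivOneConst
    (MeasureTheory.volume : MeasureTheory.Measure (ℝ × ℝ)) (2 : NNReal) with hC0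
  refine ⟨2 * (C0 : ℝ) ^ 2 + 1, by positivity, ?_⟩
  intro f N hf hfc hN hNt hz
  have h1 : MeasureTheory.eLpNorm f (2 : NNReal) MeasureTheory.volume ≤
      C0 * MeasureTheory.eLpNorm (fderiv ℝ f) 1 MeasureTheory.volume :=
    MeasureTheory.eLpNorm_le_eLpNorm_fderiv_one _ hf hfc GNS_fin
  have hfd : Continuous (fderiv ℝ f) := hf.continuous_fderiv one_ne_zero
  have hsupp : (fderiv ℝ f).support ⊆ N := by
    intro q hq
    by_contra hcon
    apply hq
    obtain ⟨-, z1, z2⟩ := hz q hcon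
    have hd : DifferentiableAt ℝ f q := (hf.differentiable one_ne_zero) q
    ext v
    · show fderiv ℝ f q (1, 0) = 0
      exact z1
    · show fderiv ℝ f q (0, 1) = 0
      exact z2
  have h2 : MeasureTheory.eLpNorm (fderiv ℝ f) 1 MeasureTheory.volume ≤
      MeasureTheory.eLpNorm (fderiv ℝ f) (2 : NNReal) MeasureTheory.volume *
        (MeasureTheory.volume N) ^ (1 / 2 : ℝ) := by
    have r1 : MeasureTheory.eLpNorm (fderiv ℝ f) 1 (MeasureTheory.volume.restrict N) =
        MeasureTheory.eLpNorm (fderiv ℝ f) 1 MeasureTheory.volume :=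
      MeasureTheory.eLpNorm_restrict_eq_of_support_subset (f := fderiv ℝ f) hsupp
    have r2 : MeasureTheory.eLpNorm (fderiv ℝ f) (2 : NNReal) (MeasureTheory.volume.restrict N) =
        MeasureTheory.eLpNorm (fderiv ℝ f) (2 : NNReal) MeasureTheory.volume :=
      MeasureTheory.eLpNorm_restrict_eq_of_support_subset (f := fderiv ℝ f) hsupp
    rw [← r1]
    have h3 := MeasureTheory.eLpNorm_le_eLpNorm_mul_rpow_measure_univ (p := 1)
      (q := ((2 : NNReal) : ENNReal)) (f := fderiv ℝ f)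
      (μ := MeasureTheory.volume.restrict N) (by norm_num) hfd.aestronglyMeasurable
    rw [r2] at h3
    have h4 : (1 / (1 : ENNReal).toReal - 1 / ((2 : NNReal) : ENNReal).toReal : ℝ) = 1 / 2 := by
      norm_num
    rw [h4, MeasureTheory.Measure.restrict_apply MeasurableSet.univ, Set.univ_inter] at h3
    exact h3
  have h5 : (MeasureTheory.eLpNorm f (2 : NNReal) MeasureTheory.volume) ^ ((2 : NNReal) : ℝ) ≤
      (C0 : ENNReal) ^ (2 : ℝ) *
      ((MeasureTheory.eLpNorm (fderiv ℝ f) (2 : NNReal) MeasureTheory.volume) ^ ((2 : NNReal) : ℝ)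
        * MeasureTheory.volume N) := by
    have h6 : MeasureTheory.eLpNorm f (2 : NNReal) MeasureTheory.volume ≤
        C0 * (MeasureTheory.eLpNorm (fderiv ℝ f) (2 : NNReal) MeasureTheory.volume *
        (MeasureTheory.volume N) ^ (1 / 2 : ℝ)) := le_trans h1 (by gcongr)
    have h7 := ENNReal.rpow_le_rpow h6 (show (0 : ℝ) ≤ ((2 : NNReal) : ℝ) by norm_num)
    refine le_trans h7 (le_of_eq ?_)
    rw [ENNReal.mul_rpow_of_nonneg _ _ (by norm_num), ENNReal.mul_rpow_of_nonneg _ _ (by norm_num),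
      ← ENNReal.rpow_mul]
    have h8 : (1 / 2 * ((2 : NNReal) : ℝ) : ℝ) = 1 := by norm_num
    rw [h8, ENNReal.rpow_one]
    norm_num
  rw [MeasureTheory.eLpNorm_nnreal_pow_eq_lintegral (by norm_num),
    MeasureTheory.eLpNorm_nnreal_pow_eq_lintegral (by norm_num)] at h5
  -- the integrals
  have hfi : MeasureTheory.Integrable (fun q => f q ^ 2) := by
    apply (hf.continuous.pow 2).integrable_of_hasCompactSupport
    have : (fun q => f q ^ 2) = fun q => f q * f q := by funext q; ring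
    rw [show ((fun q => f q) ^ 2 : ℝ × ℝ → ℝ) = fun q => f q * f q by funext q; simp [sq]]
    exact hfc.mul_right
  have hgi : MeasureTheory.Integrable (fun q => 2 * gdot f f q) := by
    apply MeasureTheory.Integrable.const_mul
    have c1 : Continuous (fun q => fderiv ℝ f q (1, 0)) := hfd.clm_apply continuous_const
    have c2 : Continuous (fun q => fderiv ℝ f q (0, 1)) := hfd.clm_apply continuous_const
    exact ((c1.mul c1).integrable_of_hasCompactSupport (hfc.fderiv_apply ℝ (1, 0)).mul_right).add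
      ((c2.mul c2).integrable_of_hasCompactSupport (hfc.fderiv_apply ℝ (0, 1)).mul_right)
  have e1 : (∫⁻ q, ‖f q‖ₑ ^ ((2 : NNReal) : ℝ)) = ENNReal.ofReal (∫ q, f q ^ 2) := by
    rw [MeasureTheory.ofReal_integral_eq_lintegral_ofReal hfi
      (Filter.Eventually.of_forall fun q => sq_nonneg _)]
    apply MeasureTheory.lintegral_congr
    intro q
    have h9 : ((2 : NNReal) : ℝ) = ((2 : ℕ) : ℝ) := by norm_num
    rw [h9, ENNReal.rpow_natCast, ← ofReal_norm_eq_enorm, ← ENNReal.ofReal_pow (norm_nonneg _),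
      Real.norm_eq_abs, sq_abs]
  have e2 : (∫⁻ q, ‖fderiv ℝ f q‖ₑ ^ ((2 : NNReal) : ℝ)) ≤
      ENNReal.ofReal (∫ q, 2 * gdot f f q) := by
    rw [MeasureTheory.ofReal_integral_eq_lintegral_ofReal hgi
      (Filter.Eventually.of_forall fun q => by
        show 0 ≤ 2 * gdot f f q
        exact le_trans (sq_nonneg _) (GNS_norm hf q))]
    apply MeasureTheory.lintegral_mono
    intro q
    have h9 : ((2 : NNReal) : ℝ) = ((2 : ℕ) : ℝ) := by norm_num
    show ‖fderiv ℝ f q‖ₑ ^ ((2 : NNReal) : ℝ) ≤ ENNReal.ofReal (2 * gdot f f q)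
    rw [h9, ENNReal.rpow_natCast, ← ofReal_norm_eq_enorm, ← ENNReal.ofReal_pow (norm_nonneg _)]
    exact ENNReal.ofReal_le_ofReal (GNS_norm hf q)
  rw [e1] at h5
  have hG : 0 ≤ ∫ q, gdot f f q := by
    apply MeasureTheory.integral_nonneg
    intro q
    show 0 ≤ gdot f f q
    unfold gdot
    exact add_nonneg (mul_self_nonneg _) (mul_self_nonneg _)
  have hNn : 0 ≤ (MeasureTheory.volume N).toReal := ENNReal.toReal_nonneg
  have h10 : ENNReal.ofReal (∫ q, f q ^ 2) ≤
      ENNReal.ofReal ((C0 : ℝ) ^ 2 * ((∫ q, 2 * gdot f f q) * (MeasureTheory.volume N).toReal)) := by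
    refine le_trans h5 ?_
    rw [ENNReal.ofReal_mul (by positivity), ENNReal.ofReal_mul
      (by rw [MeasureTheory.integral_const_mul]; positivity), ENNReal.ofReal_toReal hNt]
    have h11 : (C0 : ENNReal) ^ (2 : ℝ) = ENNReal.ofReal ((C0 : ℝ) ^ 2) := by
      have h9 : (2 : ℝ) = ((2 : ℕ) : ℝ) := by norm_num
      rw [h9, ENNReal.rpow_natCast, ENNReal.ofReal_pow (by positivity), ENNReal.ofReal_coe_nnreal]
    rw [h11]
    gcongr
  have h12 := (ENNReal.ofReal_le_ofReal_iff (by
    rw [MeasureTheory.integral_const_mul]; positivity)).1 h10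
  rw [MeasureTheory.integral_const_mul] at h12
  have h13 : 0 ≤ (MeasureTheory.volume N).toReal * ∫ q, gdot f f q := mul_nonneg hNn hG
  nlinarith

/-- smooth convex truncation -/
theorem trunc : ∃ η : ℝ → ℝ, ContDiff ℝ ∞ η ∧ (∀ s, s ≤ 1 → η s = 0) ∧
    (∀ s, 0 ≤ deriv η s ∧ deriv η s ≤ 1) ∧ (∀ s, 0 ≤ deriv (deriv η) s) ∧
    (∀ s, s - 2 ≤ η s) ∧ (∀ s, 0 ≤ η s) ∧ (∀ s, 0 ≤ s → η s ≤ s) ∧
    (∀ s, 2 ≤ s → deriv η s = 1) := by
  set ψ : ℝ → ℝ := fun t => Real.smoothTransition (t - 1) with hψ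
  have hψs : ContDiff ℝ ∞ ψ := Real.smoothTransition.contDiff.comp (contDiff_id.sub contDiff_const)
  have hψc : Continuous ψ := hψs.continuous
  have hψ0 : ∀ s, s ≤ 1 → ψ s = 0 := fun s hs =>
    Real.smoothTransition.zero_of_nonpos (by linarith)
  have hψ1 : ∀ s, 2 ≤ s → ψ s = 1 := fun s hs => Real.smoothTransition.one_of_one_le (by linarith)
  have hψn : ∀ s, 0 ≤ ψ s := fun s => Real.smoothTransition.nonneg _
  have hψl : ∀ s, ψ s ≤ 1 := fun s => Real.smoothTransition.le_one _
  have hψm : Monotone ψ := fun s t hst => Real.smoothTransition.monotone (by linarith)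
  set η : ℝ → ℝ := fun s => ∫ t in (0 : ℝ)..s, ψ t with hη
  have hd : ∀ s, HasDerivAt η (ψ s) s := fun s =>
    intervalIntegral.integral_hasDerivAt_right (hψc.intervalIntegrable _ _)
      (hψc.stronglyMeasurableAtFilter _ _) hψc.continuousAt
  have hdη : deriv η = ψ := funext fun s => (hd s).deriv
  have hη0 : ∀ s, s ≤ 1 → η s = 0 := by
    intro s hs
    show ∫ t in (0 : ℝ)..s, ψ t = 0
    apply intervalIntegral.integral_zero_ae
    apply Filter.Eventually.of_forall
    intro t ht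
    apply hψ0
    rw [Set.uIoc, Set.mem_Ioc] at ht
    exact le_trans ht.2 (max_le zero_le_one hs)
  have hmono : Monotone η := monotone_of_deriv_nonneg
    (fun s => (hd s).differentiableAt) (fun s => by rw [hdη]; exact hψn s)
  have hηn : ∀ s, 0 ≤ η s := by
    intro s
    rcases le_total s 1 with h | h
    · rw [hη0 s h]
    · rw [← hη0 1 le_rfl]
      exact hmono h
  refine ⟨η, ?_, hη0, ?_, ?_, ?_, hηn, ?_, ?_⟩
  · rw [contDiff_infty_iff_deriv, hdη]
    exact ⟨fun s => (hd s).differentiableAt, hψs⟩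
  · intro s
    rw [hdη]
    exact ⟨hψn s, hψl s⟩
  · intro s
    rw [hdη]
    exact hψm.deriv_nonneg
  · intro s
    rcases le_total s 2 with h | h
    · linarith [hηn s]
    · have h1 : η s - η 2 = ∫ t in (2 : ℝ)..s, ψ t := by
        show (∫ t in (0 : ℝ)..s, ψ t) - (∫ t in (0 : ℝ)..2, ψ t) = _
        rw [intervalIntegral.integral_interval_sub_left (hψc.intervalIntegrable _ _)
          (hψc.intervalIntegrable _ _)]
      have h2 : (∫ t in (2 : ℝ)..s, ψ t) = ∫ t in (2 : ℝ)..s, (1 : ℝ) := by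
        apply intervalIntegral.integral_congr
        intro t ht
        rw [Set.uIcc_of_le h] at ht
        exact hψ1 t ht.1
      rw [h2, intervalIntegral.integral_const] at h1
      simp only [smul_eq_mul, mul_one] at h1
      linarith [hηn 2]
  · intro s hs
    have h1 : η s ≤ ∫ t in (0 : ℝ)..s, (1 : ℝ) := by
      apply intervalIntegral.integral_mono_on hs (hψc.intervalIntegrable _ _)
        (continuous_const.intervalIntegrable _ _)
      intro t _
      exact hψl t
    rw [intervalIntegral.integral_const] at h1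
    simp only [smul_eq_mul, mul_one, sub_zero] at h1
    exact h1
  · intro s hs
    rw [hdη]
    exact hψ1 s hs

/-- cutoff function of one variable -/
theorem cutx : ∃ χ : ℝ → ℝ, ContDiff ℝ ∞ χ ∧ (∀ s, χ (-s) = χ s) ∧ (∀ s, |s| ≤ 1 → χ s = 1) ∧
    (∀ s, 2 ≤ |s| → χ s = 0) ∧ (∀ s, 0 ≤ χ s ∧ χ s ≤ 1) ∧
    ∃ C : ℝ, 0 < C ∧ ∀ s, |deriv χ s| ≤ C ∧ |deriv (deriv χ) s| ≤ C := by
  set χ : ℝ → ℝ := fun s => Real.smoothTransition (2 - s) * Real.smoothTransition (2 + s) with hχ
  have hχs : ContDiff ℝ ∞ χ :=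
    (Real.smoothTransition.contDiff.comp (contDiff_const.sub contDiff_id)).mul
      (Real.smoothTransition.contDiff.comp (contDiff_const.add contDiff_id))
  have hz : ∀ s, 2 ≤ |s| → χ s = 0 := by
    intro s hs
    show Real.smoothTransition (2 - s) * Real.smoothTransition (2 + s) = 0
    rcases le_abs.1 hs with h | h
    · rw [Real.smoothTransition.zero_of_nonpos (show 2 - s ≤ 0 by linarith), zero_mul]
    · rw [Real.smoothTransition.zero_of_nonpos (show 2 + s ≤ 0 by linarith), mul_zero]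
  have hcs : HasCompactSupport χ := by
    apply HasCompactSupport.intro (isCompact_Icc (a := (-2 : ℝ)) (b := 2))
    intro s hs
    apply hz
    by_contra hcon
    rw [not_le, abs_lt] at hcon
    exact hs ⟨hcon.1.le, hcon.2.le⟩
  have hd1 := contDiff_infty_iff_deriv.1 hχs
  have hd2 := contDiff_infty_iff_deriv.1 hd1.2
  obtain ⟨C1, hC1⟩ := hcs.deriv.exists_bound_of_continuous hd1.2.continuous
  obtain ⟨C2, hC2⟩ := hcs.deriv.deriv.exists_bound_of_continuous hd2.2.continuous
  refine ⟨χ, hχs, ?_, ?_, hz, ?_, |C1| + |C2| + 1, by positivity, ?_⟩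
  · intro s
    show Real.smoothTransition (2 - -s) * Real.smoothTransition (2 + -s) =
      Real.smoothTransition (2 - s) * Real.smoothTransition (2 + s)
    rw [sub_neg_eq_add, ← sub_eq_add_neg, mul_comm]
  · intro s hs
    rw [abs_le] at hs
    show Real.smoothTransition (2 - s) * Real.smoothTransition (2 + s) = 1
    rw [Real.smoothTransition.one_of_one_le (by linarith [hs.2]),
      Real.smoothTransition.one_of_one_le (by linarith [hs.1]), mul_one]
  · intro s
    refine ⟨mul_nonneg (Real.smoothTransition.nonneg _) (Real.smoothTransition.nonneg _), ?_⟩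
    exact mul_le_one₀ (Real.smoothTransition.le_one _) (Real.smoothTransition.nonneg _)
      (Real.smoothTransition.le_one _)
  · intro s
    have b1 := hC1 s
    have b2 := hC2 s
    rw [Real.norm_eq_abs] at b1 b2
    have := le_abs_self C1
    have := le_abs_self C2
    have := abs_nonneg C1
    have := abs_nonneg C2
    constructor <;> linarith

end Pool.Agent.MFE
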