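import Pool.Agent.MFE.BND
import Pool.Agent.MFE.GNS

/-!
# MFE.FLDStb: stability inequality up to the boundary of the ellipse (regime C)

`F` of class `C¹` in `Ell α`, `|F| ≤ C wE`, bounded gradient, `F = 0` for `x ≤ a`, `a > 0`. Let `η` be smooth,
`η(s) = 0` for `s ≤ 1`, `= 1` for `s ≥ 2`, `0 ≤ η ≤ 1` (e.g. `1 - χ` with `cutx`, for `s ≥ 0`), and
`F_s = η(wE/s) F` (zero outside `Ell α`): `C¹` on the plane, `tsupport F_s ⊆ {wE ≥ s, x ≥ a}`, a compact
subset of `Ell α ∩ {x > 0}`. `gsol_stab` for `F_s`. Let `s → 0`: pointwise in `Ell α`, `F_s → F`,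
`∇F_s → ∇F` (eventually constant); dominated: `|F_s| ≤ |F|`,
`|∇F_s| ≤ |∇F| + sup|η'| |∇wE| |F|/s ≤ C'` since `η'(wE/s) ≠ 0` only for `wE ≤ 2s`, where
`|F|/s ≤ 2C`. The ellipse has finite measure (`area_ell`); `v` is bounded.
-/

open scoped ContDiff

namespace Pool.Agent.MFE

open MeasureTheory Filter Topology

private theorem FLDStb_mem {α : ℝ} {q : ℝ × ℝ} : q ∈ Ell α ↔ 0 < wE α q := by
  unfold wE
  constructor
  · intro h
    have h' : α ^ 2 * q.1 ^ 2 + q.2 ^ 2 < 1 := h
    linarith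
  · intro h
    show α ^ 2 * q.1 ^ 2 + q.2 ^ 2 < 1
    linarith

private theorem FLDStb_wsm (α : ℝ) : ContDiff ℝ ∞ (wE α) := by
  unfold wE
  fun_prop

open Classical in
private noncomputable def FLDStb_F (α : ℝ) (χ : ℝ → ℝ) (F : ℝ × ℝ → ℝ) (s : ℝ) (q : ℝ × ℝ) : ℝ :=
  if q ∈ Ell α then (1 - χ (wE α q / s)) * F q else 0

private theorem FLDStb_in {α : ℝ} {χ : ℝ → ℝ} {F : ℝ × ℝ → ℝ} {s : ℝ} {q : ℝ × ℝ}
    (hq : q ∈ Ell α) : FLDStb_F α χ F s q = (1 - χ (wE α q / s)) * F q := by
  unfold FLDStb_F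
  rw [if_pos hq]

private theorem FLDStb_out {α : ℝ} {χ : ℝ → ℝ} {F : ℝ × ℝ → ℝ} {s : ℝ} {q : ℝ × ℝ}
    (hq : q ∉ Ell α) : FLDStb_F α χ F s q = 0 := by
  unfold FLDStb_F
  rw [if_neg hq]

private theorem FLDStb_small {α : ℝ} {χ : ℝ → ℝ} (h1 : ∀ s, |s| ≤ 1 → χ s = 1)
    {F : ℝ × ℝ → ℝ} {s : ℝ} (hs : 0 < s) {q : ℝ × ℝ} (hq : wE α q ≤ s) :
    FLDStb_F α χ F s q = 0 := by
  by_cases hE : q ∈ Ell α
  · have h0 := FLDStb_mem.1 hE
    rw [FLDStb_in hE, h1 _ (by
      rw [abs_of_nonneg (by positivity), div_le_one hs]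
      exact hq)]
    ring
  · exact FLDStb_out hE

private theorem FLDStb_c1 {α : ℝ} {χ : ℝ → ℝ} (hχ : ContDiff ℝ ∞ χ)
    (h1 : ∀ s, |s| ≤ 1 → χ s = 1) {F : ℝ × ℝ → ℝ} (hF : ContDiffOn ℝ 1 F (Ell α)) {s : ℝ}
    (hs : 0 < s) : ContDiff ℝ 1 (FLDStb_F α χ F s) := by
  rw [contDiff_iff_contDiffAt]
  intro q
  by_cases hE : q ∈ Ell α
  · have hG : ContDiffOn ℝ 1 (fun z => (1 - χ (wE α z / s)) * F z) (Ell α) := by
      refine ContDiffOn.mul (ContDiff.contDiffOn ?_) hF
      have h2 : ContDiff ℝ ∞ (fun z => 1 - χ (wE α z / s)) :=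
        contDiff_const.sub (hχ.comp ((FLDStb_wsm α).div_const s))
      exact h2.of_le (by exact_mod_cast le_top)
    refine (hG.contDiffAt ((isOpen_ell α).mem_nhds hE)).congr_of_eventuallyEq ?_
    filter_upwards [(isOpen_ell α).mem_nhds hE] with z hz
    exact FLDStb_in hz
  · have h2 : wE α q < s := by
      have h3 : ¬ 0 < wE α q := fun h => hE (FLDStb_mem.2 h)
      linarith [not_lt.1 h3]
    have h3 : {z | wE α z < s} ∈ 𝓝 q :=
      (isOpen_lt (FLDStb_wsm α).continuous continuous_const).mem_nhds h2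
    refine (contDiffAt_const (c := (0 : ℝ))).congr_of_eventuallyEq ?_
    filter_upwards [h3] with z hz
    exact FLDStb_small h1 hs (le_of_lt hz)

private theorem FLDStb_supp {α : ℝ} {χ : ℝ → ℝ} (h1 : ∀ s, |s| ≤ 1 → χ s = 1)
    {F : ℝ × ℝ → ℝ} {s a : ℝ} (hs : 0 < s) (hz : ∀ q ∈ Ell α, q.1 ≤ a → F q = 0) :
    tsupport (FLDStb_F α χ F s) ⊆ {q | s ≤ wE α q ∧ a ≤ q.1} := by
  refine closure_minimal ?_ ((isClosed_le continuous_const (FLDStb_wsm α).continuous).inter
    (isClosed_le continuous_const continuous_fst))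
  intro q hq
  have hne : FLDStb_F α χ F s q ≠ 0 := hq
  have hE : q ∈ Ell α := by
    by_contra h
    exact hne (FLDStb_out h)
  constructor
  · by_contra h
    exact hne (FLDStb_small h1 hs (le_of_lt (not_le.1 h)))
  · by_contra h
    apply hne
    rw [FLDStb_in hE, hz q hE (le_of_lt (not_le.1 h)), mul_zero]

theorem stab_ell {α μ : ℝ} (hα : 0 < α) {v : ℝ × ℝ → ℝ} (h : GSol α μ v) {F : ℝ × ℝ → ℝ}
    {C a : ℝ} (ha : 0 < a) (hF : ContDiffOn ℝ 1 F (Ell α))
    (bF : ∀ q ∈ Ell α, |F q| ≤ C * wE α q) (gF : ∀ q ∈ Ell α, |dx F q| ≤ C ∧ |dy F q| ≤ C)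
    (hz : ∀ q ∈ Ell α, q.1 ≤ a → F q = 0) :
    ∫ q in Ell α, μ * Real.exp (v q) * F q ^ 2 ≤ ∫ q in Ell α, gdot F F q := by
  obtain ⟨χ, hχ, -, hχ1, hχ2, hχ01, D, hD, hχD⟩ := cutx
  have hEo := isOpen_ell α
  have hEm : MeasurableSet (Ell α) := hEo.measurableSet
  have hfin : IsFiniteMeasure (volume.restrict (Ell α)) := by
    refine ⟨?_⟩
    rw [Measure.restrict_apply MeasurableSet.univ, Set.univ_inter, area_ell hα]
    exact ENNReal.ofReal_lt_top
  have h0E : ((0 : ℝ), (0 : ℝ)) ∈ Ell α := by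
    show α ^ 2 * (0 : ℝ) ^ 2 + (0 : ℝ) ^ 2 < 1
    norm_num
  have hC : 0 ≤ C := (abs_nonneg _).trans (gF _ h0E).1
  have hw1 : ∀ q, wE α q ≤ 1 := by
    intro q
    unfold wE
    have : 0 ≤ α ^ 2 * q.1 ^ 2 := by positivity
    nlinarith [sq_nonneg q.2]
  have hFd : ∀ q ∈ Ell α, DifferentiableAt ℝ F q := fun q hq =>
    (hF.differentiableOn one_ne_zero).differentiableAt (hEo.mem_nhds hq)
  -- gradients of the truncated functions
  have hgr : ∀ s : ℝ, 0 < s → ∀ q ∈ Ell α,
      |dx (FLDStb_F α χ F s) q| ≤ C + 2 * C * D * (2 * α + 2) ∧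
      |dy (FLDStb_F α χ F s) q| ≤ C + 2 * C * D * (2 * α + 2) := by
    intro s hs q hq
    have hq0 := FLDStb_mem.1 hq
    have hq' : α ^ 2 * q.1 ^ 2 + q.2 ^ 2 < 1 := hq
    have ewd : DifferentiableAt ℝ (fun z => wE α z / s) q :=
      ((FLDStb_wsm α).div_const s).differentiable (by simp) q
    have hχd : DifferentiableAt ℝ χ (wE α q / s) := hχ.differentiable (by simp) _
    have hcd : DifferentiableAt ℝ (fun z => χ (wE α z / s)) q :=
      DifferentiableAt.comp q hχd ewd
    have hηd : DifferentiableAt ℝ (fun z => 1 - χ (wE α z / s)) q :=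
      (differentiableAt_const 1).sub hcd
    have hFq := hFd q hq
    have ewx : dx (fun z => wE α z / s) q = -2 * α ^ 2 * q.1 / s := by
      have e : (fun z => wE α z / s) = fun z => s⁻¹ * wE α z := by
        funext z; rw [div_eq_inv_mul]
      rw [e, dx_const_mul _ ((FLDStb_wsm α).differentiable (by simp) q), dx_wE]
      ring
    have ewy : dy (fun z => wE α z / s) q = -2 * q.2 / s := by
      have e : (fun z => wE α z / s) = fun z => s⁻¹ * wE α z := by
        funext z; rw [div_eq_inv_mul]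
      rw [e, dy_const_mul _ ((FLDStb_wsm α).differentiable (by simp) q), dy_wE]
      ring
    have eηx : dx (fun z => 1 - χ (wE α z / s)) q =
        -(deriv χ (wE α q / s) * (-2 * α ^ 2 * q.1 / s)) := by
      rw [dx_sub (differentiableAt_const 1) hcd, dx_comp ewd hχd, ewx]
      have : dx (fun _ : ℝ × ℝ => (1 : ℝ)) q = 0 := by simp [dx]
      rw [this]
      ring
    have eηy : dy (fun z => 1 - χ (wE α z / s)) q =
        -(deriv χ (wE α q / s) * (-2 * q.2 / s)) := by
      rw [dy_sub (differentiableAt_const 1) hcd, dy_comp ewd hχd, ewy]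
      have : dy (fun _ : ℝ × ℝ => (1 : ℝ)) q = 0 := by simp [dy]
      rw [this]
      ring
    have hη01 : |1 - χ (wE α q / s)| ≤ 1 := by
      have := hχ01 (wE α q / s)
      rw [abs_le]
      constructor <;> linarith
    have hkey : |deriv χ (wE α q / s)| * |F q| / s ≤ 2 * C * D := by
      by_cases hd : wE α q ≤ 2 * s
      · rw [div_le_iff₀ hs]
        have h1 := (hχD (wE α q / s)).1
        have h2 := bF q hq
        have h3 : C * wE α q ≤ C * (2 * s) := mul_le_mul_of_nonneg_left hd hC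
        calc |deriv χ (wE α q / s)| * |F q| ≤ D * (C * (2 * s)) :=
              mul_le_mul h1 (h2.trans h3) (abs_nonneg _) hD.le
          _ = 2 * C * D * s := by ring
      · have h1 : 2 < wE α q / s := by
          rw [lt_div_iff₀ hs]
          exact not_le.1 hd
        have h2 : deriv χ (wE α q / s) = 0 := by
          have h3 : χ =ᶠ[𝓝 (wE α q / s)] fun _ => 0 := by
            filter_upwards [Ioi_mem_nhds h1] with z hz
            have hz' : 2 < z := hz
            exact hχ2 z (by rw [abs_of_pos (by linarith)]; exact hz'.le)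
          rw [h3.deriv_eq]
          simp
        rw [h2, abs_zero, zero_mul, zero_div]
        positivity
    have hx : |α ^ 2 * q.1| ≤ α := by
      have h1 : (α * |q.1|) ^ 2 ≤ 1 := by
        rw [mul_pow, sq_abs]
        nlinarith [sq_nonneg q.2]
      have h2 : α * |q.1| ≤ 1 := by
        by_contra hcon
        push Not at hcon
        nlinarith
      rw [abs_mul, abs_of_pos (by positivity : 0 < α ^ 2)]
      nlinarith [abs_nonneg q.1]
    have hy : |q.2| ≤ 1 := by
      have h1 : |q.2| ^ 2 ≤ 1 := by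
        rw [sq_abs]
        have : 0 ≤ α ^ 2 * q.1 ^ 2 := by positivity
        linarith
      nlinarith [abs_nonneg q.2]
    have hcx : ∀ z ∈ Ell α, FLDStb_F α χ F s z = (fun z => (1 - χ (wE α z / s)) * F z) z :=
      fun z hz => FLDStb_in hz
    have hb : ∀ g : ℝ, |g| ≤ 2 * α + 2 →
        |deriv χ (wE α q / s) * (g / s) * F q| ≤ 2 * C * D * (2 * α + 2) := by
      intro g hg
      have e : |deriv χ (wE α q / s) * (g / s) * F q| =
          |deriv χ (wE α q / s)| * |F q| / s * |g| := by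
        rw [abs_mul, abs_mul, abs_div, abs_of_pos hs]
        ring
      rw [e]
      exact mul_le_mul hkey hg (abs_nonneg _) (by positivity)
    constructor
    · rw [dx_congr hEo hcx hq, dx_mul hηd hFq, eηx]
      have h3 : |(1 - χ (wE α q / s)) * dx F q| ≤ C := by
        rw [abs_mul]
        calc |1 - χ (wE α q / s)| * |dx F q| ≤ 1 * C :=
              mul_le_mul hη01 (gF q hq).1 (abs_nonneg _) zero_le_one
          _ = C := one_mul C
      have h4 := hb (-2 * α ^ 2 * q.1) (by
        have : |-2 * α ^ 2 * q.1| = 2 * |α ^ 2 * q.1| := by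
          rw [mul_assoc, abs_mul, abs_neg, abs_two]
        rw [this]
        linarith)
      have e : -(deriv χ (wE α q / s) * (-2 * α ^ 2 * q.1 / s)) * F q =
          -(deriv χ (wE α q / s) * (-2 * α ^ 2 * q.1 / s) * F q) := by ring
      rw [e]
      calc |-(deriv χ (wE α q / s) * (-2 * α ^ 2 * q.1 / s) * F q) +
            (1 - χ (wE α q / s)) * dx F q|
          ≤ |-(deriv χ (wE α q / s) * (-2 * α ^ 2 * q.1 / s) * F q)| +
            |(1 - χ (wE α q / s)) * dx F q| := abs_add_le _ _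
        _ ≤ _ := by rw [abs_neg]; linarith
    · rw [dy_congr hEo hcx hq, dy_mul hηd hFq, eηy]
      have h3 : |(1 - χ (wE α q / s)) * dy F q| ≤ C := by
        rw [abs_mul]
        calc |1 - χ (wE α q / s)| * |dy F q| ≤ 1 * C :=
              mul_le_mul hη01 (gF q hq).2 (abs_nonneg _) zero_le_one
          _ = C := one_mul C
      have h4 := hb (-2 * q.2) (by
        rw [abs_mul, abs_neg, abs_two]
        linarith)
      have e : -(deriv χ (wE α q / s) * (-2 * q.2 / s)) * F q =
          -(deriv χ (wE α q / s) * (-2 * q.2 / s) * F q) := by ring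
      rw [e]
      calc |-(deriv χ (wE α q / s) * (-2 * q.2 / s) * F q) +
            (1 - χ (wE α q / s)) * dy F q|
          ≤ |-(deriv χ (wE α q / s) * (-2 * q.2 / s) * F q)| +
            |(1 - χ (wE α q / s)) * dy F q| := abs_add_le _ _
        _ ≤ _ := by rw [abs_neg]; linarith
  -- the inequality for the truncated functions
  set S : ℕ → ℝ := fun n => 1 / ((n : ℝ) + 1) with hS
  have hSpos : ∀ n, 0 < S n := fun n => by rw [hS]; positivity
  have hS0 : Tendsto S atTop (𝓝 0) := tendsto_one_div_add_atTop_nhds_zero_nat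
  have hineq : ∀ n, ∫ q in Ell α, μ * Real.exp (v q) * FLDStb_F α χ F (S n) q ^ 2 ≤
      ∫ q in Ell α, gdot (FLDStb_F α χ F (S n)) (FLDStb_F α χ F (S n)) q := by
    intro n
    have hc1 := FLDStb_c1 hχ hχ1 hF (hSpos n)
    have hsup := FLDStb_supp (a := a) hχ1 (hSpos n) hz
    have hcs : HasCompactSupport (FLDStb_F α χ F (S n)) := by
      refine (isCompact_cell hα).of_isClosed_subset (isClosed_tsupport _) ?_
      intro q hq
      have h1 := (hsup hq).1
      have h2 := hSpos n
      unfold wE at h1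
      show α ^ 2 * q.1 ^ 2 + q.2 ^ 2 ≤ 1
      linarith
    have hst := gsol_stab hα h hc1 hcs (fun q hq => by
      obtain ⟨h1, h2⟩ := hsup hq
      refine ⟨FLDStb_mem.2 (lt_of_lt_of_le (hSpos n) h1), ?_⟩
      show 0 < q.1
      linarith)
    have e1 : ∫ q in Ell α, μ * Real.exp (v q) * FLDStb_F α χ F (S n) q ^ 2 =
        ∫ q, μ * Real.exp (v q) * FLDStb_F α χ F (S n) q ^ 2 := by
      refine setIntegral_eq_integral_of_forall_compl_eq_zero fun q hq => ?_
      rw [FLDStb_out hq]
      ring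
    have e2 : ∫ q in Ell α, gdot (FLDStb_F α χ F (S n)) (FLDStb_F α χ F (S n)) q =
        ∫ q, gdot (FLDStb_F α χ F (S n)) (FLDStb_F α χ F (S n)) q := by
      refine setIntegral_eq_integral_of_forall_compl_eq_zero fun q hq => ?_
      have hq2 : q ∉ tsupport (FLDStb_F α χ F (S n)) := by
        intro h3
        exact hq (FLDStb_mem.2 (lt_of_lt_of_le (hSpos n) (hsup h3).1))
      have h4 : fderiv ℝ (FLDStb_F α χ F (S n)) q = 0 := by
        by_contra h5
        exact hq2 (support_fderiv_subset ℝ h5)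
      simp [gdot, dx, dy, h4]
    rw [e1, e2]
    exact hst
  -- limits
  have hvc := h.cont
  have hpt : ∀ q ∈ Ell α, ∀ᶠ n in atTop, 2 * S n < wE α q := by
    intro q hq
    have h1 : Tendsto (fun n => 2 * S n) atTop (𝓝 (2 * 0)) := tendsto_const_nhds.mul hS0
    rw [mul_zero] at h1
    exact h1.eventually (gt_mem_nhds (FLDStb_mem.1 hq))
  have hloc : ∀ s : ℝ, 0 < s → ∀ q ∈ Ell α, 2 * s < wE α q → FLDStb_F α χ F s =ᶠ[𝓝 q] F := by
    intro s hs q hq hlt
    have h3 : {z | 2 * s < wE α z} ∈ 𝓝 q :=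
      (isOpen_lt continuous_const (FLDStb_wsm α).continuous).mem_nhds hlt
    filter_upwards [h3, hEo.mem_nhds hq] with z hz hzE
    have hz' : 2 * s < wE α z := hz
    rw [FLDStb_in hzE, hχ2 _ (by
      rw [abs_of_pos (by have := FLDStb_mem.1 hzE; positivity), le_div_iff₀ hs]
      exact hz'.le)]
    ring
  set B := C + 2 * C * D * (2 * α + 2) with hB
  have lim1 : Tendsto (fun n => ∫ q in Ell α, μ * Real.exp (v q) * FLDStb_F α χ F (S n) q ^ 2)
      atTop (𝓝 (∫ q in Ell α, μ * Real.exp (v q) * F q ^ 2)) := by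
    refine tendsto_integral_of_dominated_convergence
      (fun _ => μ * Real.exp (v (0, 0)) * C ^ 2) (fun n => ?_) (integrable_const _)
      (fun n => ?_) ?_
    · have hc1 := FLDStb_c1 hχ hχ1 hF (hSpos n)
      exact ((continuous_const.mul hvc.rexp).mul
        (hc1.continuous.pow 2)).aestronglyMeasurable
    · refine (ae_restrict_iff' hEm).2 (Eventually.of_forall fun q hq => ?_)
      rw [Real.norm_eq_abs, abs_mul, abs_of_pos (mul_pos h.mu_pos (Real.exp_pos _)), abs_pow]
      have h1 : |FLDStb_F α χ F (S n) q| ≤ C := by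
        rw [FLDStb_in hq, abs_mul]
        have h2 := hχ01 (wE α q / S n)
        have h3 : |1 - χ (wE α q / S n)| ≤ 1 := by
          rw [abs_le]
          constructor <;> linarith
        have h4 := bF q hq
        have h5 := hw1 q
        have h6 : C * wE α q ≤ C := mul_le_of_le_one_right hC h5
        calc |1 - χ (wE α q / S n)| * |F q| ≤ 1 * C :=
              mul_le_mul h3 (h4.trans h6) (abs_nonneg _) zero_le_one
          _ = C := one_mul C
      have h2 : μ * Real.exp (v q) ≤ μ * Real.exp (v (0, 0)) :=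
        mul_le_mul_of_nonneg_left (Real.exp_le_exp.2 (h.le_max hα q)) h.mu_pos.le
      have h3 : |FLDStb_F α χ F (S n) q| ^ 2 ≤ C ^ 2 := by
        have := abs_nonneg (FLDStb_F α χ F (S n) q)
        exact pow_le_pow_left₀ this h1 2
      exact mul_le_mul h2 h3 (by positivity) (mul_nonneg h.mu_pos.le (Real.exp_pos _).le)
    · refine (ae_restrict_iff' hEm).2 (Eventually.of_forall fun q hq => ?_)
      refine tendsto_const_nhds.congr' ?_
      filter_upwards [hpt q hq] with n hn
      rw [(hloc _ (hSpos n) q hq hn).self_of_nhds]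
  have lim2 : Tendsto (fun n => ∫ q in Ell α,
      gdot (FLDStb_F α χ F (S n)) (FLDStb_F α χ F (S n)) q)
      atTop (𝓝 (∫ q in Ell α, gdot F F q)) := by
    refine tendsto_integral_of_dominated_convergence
      (fun _ => B ^ 2 + B ^ 2) (fun n => ?_) (integrable_const _)
      (fun n => ?_) ?_
    · have hc1 := FLDStb_c1 hχ hχ1 hF (hSpos n)
      have e1 : Continuous (dx (FLDStb_F α χ F (S n))) := by
        rw [← continuousOn_univ]
        exact cont_dx isOpen_univ hc1.contDiffOn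
      have e2 : Continuous (dy (FLDStb_F α χ F (S n))) := by
        rw [← continuousOn_univ]
        exact cont_dy isOpen_univ hc1.contDiffOn
      have e3 : Continuous (gdot (FLDStb_F α χ F (S n)) (FLDStb_F α χ F (S n))) :=
        (e1.mul e1).add (e2.mul e2)
      exact e3.aestronglyMeasurable
    · refine (ae_restrict_iff' hEm).2 (Eventually.of_forall fun q hq => ?_)
      obtain ⟨h1, h2⟩ := hgr _ (hSpos n) q hq
      have e : gdot (FLDStb_F α χ F (S n)) (FLDStb_F α χ F (S n)) q =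
          |dx (FLDStb_F α χ F (S n)) q| ^ 2 + |dy (FLDStb_F α χ F (S n)) q| ^ 2 := by
        rw [sq_abs, sq_abs]
        unfold gdot
        ring
      rw [Real.norm_eq_abs, e, abs_of_nonneg (by positivity)]
      exact add_le_add (pow_le_pow_left₀ (abs_nonneg _) h1 2)
        (pow_le_pow_left₀ (abs_nonneg _) h2 2)
    · refine (ae_restrict_iff' hEm).2 (Eventually.of_forall fun q hq => ?_)
      refine tendsto_const_nhds.congr' ?_
      filter_upwards [hpt q hq] with n hn
      have h1 := (hloc _ (hSpos n) q hq hn).fderiv_eq (𝕜 := ℝ)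
      simp only [gdot, dx, dy, h1]
  exact le_of_tendsto_of_tendsto lim1 lim2 (Eventually.of_forall hineq)

end Pool.Agent.MFE
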