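import Pool.Agent.MFE.FLDCst
import Pool.Agent.MFE.FLDAlg
import Pool.Agent.MFE.FLDYlp

/-!
# MFE.FLDSub: a lower barrier near the fold (regime C)

`e = e1 ast`, `V = V1 ast`, `q = pot1 ast`, `h = hE α x`, `Y = YE α (x,y)`, `b = 1 - Y²`,
`σ = fsg A₁ A₂ α κ X x = A₁ (κ + αX) + A₂ ((X-x)⁻² + (X+x)⁻²)`, `|x| < X`,
`sub = V(Y) - σ e(Y) - σ² b/2`, `g = e(Y) + ε σ (2 - Y²)`; `κ ≤ 1`, `α² ≤ κ³`, `αX ≤ 1/4`.
Let `C` denote constants which do not depend on `A₁, A₂ ≥ 1, α, μ, κ, X`.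

(0) If `sub > 0` at a point of the ellipse then `σ ≤ K`: `V ≤ C₁ b`, `e ≥ b/2` (`cst_V`, `cst_e`), `b > 0`:
`σ/2 < C₁`, `K = 2C₁`. And `s := σ e + σ² b/2` satisfies `0 ≤ s < V(Y) ≤ pst < 25/16 ≤ 2`.
(1) `0 ≤ σ''= 6A₂((X-x)⁻⁴ + (X+x)⁻⁴) ≤ (6/A₂) σ²`; `|σ'| = 2A₂|(X-x)⁻³ - (X+x)⁻³| ≤ 2A₂ (σ/A₂)^{3/2}`, so
`σ'² ≤ 4σ³/A₂`; `0 ≤ (σ²)'' = 2σ'² + 2σσ'' ≤ 20 σ³/A₂`.
(2) `α²x² ≤ α²X² ≤ σ²/A₁²`, `|μ - mu1 ast| ≤ κ² ≤ σ²/A₁²`, `α² ≤ κ³ ≤ σ³/A₁³`, `α ≤ σ/A₁` (`α² ≤ κ²`),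
`α²|x| ≤ α σ/A₁ ≤ σ²/A₁²`.
(3) By `comp_YE_lap`, `comp_YE_bd`, `lap_mul`, `lap_fst`:
`-lap sub = q/h² - σ q e/h² + σ'' e + 2σ' ∂ₓ(e(Y)) + (σ²)'' b/2 + (σ²)' ∂ₓ b - σ²/h² + R`, where
`|R| ≤ C(1 + σ + σ²) α²` (`V'' = -q`, `e'' = -qe`, `b'' = -2`), `|∂ₓ e(Y)|, |∂ₓ b| ≤ C α²|x|`.
With `μ e^{sub} = (μ/mu1 ast) q e^{-s}` (`cst_exp`) and `e^{-s} ≥ 1 - s + s²/4` (`alg_exp_lower`),
`s² ≥ σ²e²`, `1/h² ≥ 1`:
`μ e^{sub} + lap sub ≥ q(1 - σe - σ²b/2 + σ²e²/4) - q/h² + σqe/h² + σ²/h² - (errors)`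
`≥ σ² (1 - qb/2 + qe²/4) - (errors) ≥ σ²/5 - (errors)` by `alg1`, where `errors` =
`C|μ - mu1 ast| + C(1/h² - 1) + σ''e + (σ²)''b/2 + 2|σ'||∂ₓ e(Y)| + |(σ²)'||∂ₓ b| + |R|`
`≤ C(K) σ² (1/A₁ + 1/A₂)`. So `≥ 0` if `A₁, A₂ ≥ 5 C(K)·2`.
(4) `-lap g = q e/h² - ε σ''(2-Y²) - 2εσ' ∂ₓ(2-Y²) + 2εσ/h² + R'`, `|R'| ≤ C(1+σ)α²`;
`μ e^{sub} g ≤ (1 + Cκ²) q (1 - s/4)(e + εσ(2-Y²)) ≤ q e - σ q e²/4 + εσ q (2-Y²) + C(K) κ²`
(`alg_exp_upper`, `s ≥ σe`). Hence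
`-lap g - μ e^{sub} g ≥ σ (qe²/4 + ε(2 - q(2-Y²))) - errors' ≥ c σ - C(K) σ (1/A₁ + 1/A₂) > 0`,
where `ε, c` are from `alg2 (δ = 1/4)` (chosen first) and `1/h² ≥ 1`.
-/

open scoped ContDiff

namespace Pool.Agent.MFE

noncomputable def fsg (A₁ A₂ α κ X x : ℝ) : ℝ :=
  A₁ * (κ + α * X) + A₂ * (((X - x) ^ 2)⁻¹ + ((X + x) ^ 2)⁻¹)

noncomputable def fsub (A₁ A₂ α κ X : ℝ) (q : ℝ × ℝ) : ℝ :=
  V1 ast (YE α q) - fsg A₁ A₂ α κ X q.1 * e1 ast (YE α q)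
    - fsg A₁ A₂ α κ X q.1 ^ 2 / 2 * (1 - YE α q ^ 2)

noncomputable def fgg (A₁ A₂ ε α κ X : ℝ) (q : ℝ × ℝ) : ℝ :=
  e1 ast (YE α q) + ε * fsg A₁ A₂ α κ X q.1 * (2 - YE α q ^ 2)

private noncomputable def FLDSub_d (A₂ X x : ℝ) : ℝ :=
  A₂ * (2 * ((X - x)⁻¹) ^ 3 - 2 * ((X + x)⁻¹) ^ 3)

private theorem FLDSub_pos {X x : ℝ} (hX : |x| < X) : 0 < X - x ∧ 0 < X + x := by
  obtain ⟨h1, h2⟩ := abs_lt.1 hX
  constructor <;> linarith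

private theorem FLDSub_hd (A₁ A₂ α κ : ℝ) {X x : ℝ} (hX : |x| < X) :
    HasDerivAt (fsg A₁ A₂ α κ X) (FLDSub_d A₂ X x) x := by
  obtain ⟨h1, h2⟩ := FLDSub_pos hX
  have a1 : HasDerivAt (fun x : ℝ => X - x) (-1) x := by
    simpa using (hasDerivAt_id x).const_sub X
  have a2 : HasDerivAt (fun x : ℝ => X + x) 1 x := by
    simpa using (hasDerivAt_id x).const_add X
  have b1 : HasDerivAt (fun x : ℝ => ((X - x) ^ 2)⁻¹) (2 * ((X - x)⁻¹) ^ 3) x := by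
    refine ((a1.fun_pow 2).fun_inv (pow_ne_zero 2 h1.ne')).congr_deriv ?_
    simp only [Nat.cast_ofNat]
    field_simp
    norm_num
  have b2 : HasDerivAt (fun x : ℝ => ((X + x) ^ 2)⁻¹) (-(2 * ((X + x)⁻¹) ^ 3)) x := by
    refine ((a2.fun_pow 2).fun_inv (pow_ne_zero 2 h2.ne')).congr_deriv ?_
    simp only [Nat.cast_ofNat]
    field_simp
    norm_num
  have c1 := ((b1.fun_add b2).const_mul A₂).const_add (A₁ * (κ + α * X))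
  exact c1.congr_deriv (by unfold FLDSub_d; ring)

private theorem FLDSub_hdd (A₂ : ℝ) {X x : ℝ} (hX : |x| < X) :
    HasDerivAt (FLDSub_d A₂ X) (A₂ * (6 * ((X - x)⁻¹) ^ 4 + 6 * ((X + x)⁻¹) ^ 4)) x := by
  obtain ⟨h1, h2⟩ := FLDSub_pos hX
  have a1 : HasDerivAt (fun x : ℝ => X - x) (-1) x := by
    simpa using (hasDerivAt_id x).const_sub X
  have a2 : HasDerivAt (fun x : ℝ => X + x) 1 x := by
    simpa using (hasDerivAt_id x).const_add X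
  have b1 : HasDerivAt (fun x : ℝ => 2 * ((X - x)⁻¹) ^ 3) (6 * ((X - x)⁻¹) ^ 4) x := by
    refine (((a1.fun_inv h1.ne').fun_pow 3).const_mul 2).congr_deriv ?_
    simp only [Nat.cast_ofNat]
    field_simp
    norm_num
    rw [mul_assoc, mul_inv_cancel₀ (pow_ne_zero 2 h1.ne'), mul_one]
  have b2 : HasDerivAt (fun x : ℝ => 2 * ((X + x)⁻¹) ^ 3) (-(6 * ((X + x)⁻¹) ^ 4)) x := by
    refine (((a2.fun_inv h2.ne').fun_pow 3).const_mul 2).congr_deriv ?_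
    simp only [Nat.cast_ofNat]
    field_simp
    norm_num
    rw [mul_assoc, mul_inv_cancel₀ (pow_ne_zero 2 h2.ne'), mul_one]
  have c1 := (b1.fun_sub b2).const_mul A₂
  exact c1.congr_deriv (by ring)

private theorem FLDSub_nhds {X x : ℝ} (hX : |x| < X) : ∀ᶠ z in nhds x, |z| < X :=
  (continuous_abs.isOpen_preimage _ isOpen_Iio).mem_nhds hX

private theorem FLDSub_dd (A₁ A₂ α κ : ℝ) {X x : ℝ} (hX : |x| < X) :
    deriv (deriv (fsg A₁ A₂ α κ X)) x = A₂ * (6 * ((X - x)⁻¹) ^ 4 + 6 * ((X + x)⁻¹) ^ 4) := by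
  have h1 : deriv (fsg A₁ A₂ α κ X) =ᶠ[nhds x] FLDSub_d A₂ X := by
    filter_upwards [FLDSub_nhds hX] with z hz
    exact (FLDSub_hd A₁ A₂ α κ hz).deriv
  rw [h1.deriv_eq]
  exact (FLDSub_hdd A₂ hX).deriv

/-- (1), (2) -/
theorem fsg_facts {A₁ A₂ α κ X x : ℝ} (h1 : 1 ≤ A₁) (h2 : 1 ≤ A₂) (hα : 0 < α) (hκ : 0 < κ)
    (hX : |x| < X) :
    0 < fsg A₁ A₂ α κ X x ∧ A₁ * κ ≤ fsg A₁ A₂ α κ X x ∧ A₁ * (α * X) ≤ fsg A₁ A₂ α κ X x ∧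
    ContDiffOn ℝ ∞ (fsg A₁ A₂ α κ X) (Set.Ioo (-X) X) ∧
    deriv (fsg A₁ A₂ α κ X) x ^ 2 ≤ 4 * fsg A₁ A₂ α κ X x ^ 3 / A₂ ∧
    0 ≤ deriv (deriv (fsg A₁ A₂ α κ X)) x ∧
    deriv (deriv (fsg A₁ A₂ α κ X)) x ≤ 6 * fsg A₁ A₂ α κ X x ^ 2 / A₂ := by
  obtain ⟨p1, p2⟩ := FLDSub_pos hX
  have hXp : 0 < X := by linarith
  have hA1 : 0 < A₁ := by linarith
  have hA2 : 0 < A₂ := by linarith
  set u : ℝ := (X - x)⁻¹ with hu
  set w : ℝ := (X + x)⁻¹ with hw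
  have hu0 : 0 < u := inv_pos.2 p1
  have hw0 : 0 < w := inv_pos.2 p2
  have hval : fsg A₁ A₂ α κ X x = A₁ * (κ + α * X) + A₂ * (u ^ 2 + w ^ 2) := by
    unfold fsg
    rw [hu, hw, inv_pow, inv_pow]
  have hge : A₂ * (u ^ 2 + w ^ 2) ≤ fsg A₁ A₂ α κ X x := by
    rw [hval]
    have : 0 ≤ A₁ * (κ + α * X) := by positivity
    linarith
  have hs0 : 0 ≤ A₂ * (u ^ 2 + w ^ 2) := by positivity
  refine ⟨?_, ?_, ?_, ?_, ?_, ?_, ?_⟩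
  · rw [hval]
    positivity
  · rw [hval]
    have : 0 ≤ A₁ * (α * X) + A₂ * (u ^ 2 + w ^ 2) := by positivity
    linarith
  · rw [hval]
    have : 0 ≤ A₁ * κ + A₂ * (u ^ 2 + w ^ 2) := by positivity
    linarith
  · unfold fsg
    have e1 : ContDiffOn ℝ ∞ (fun x : ℝ => ((X - x) ^ 2)⁻¹) (Set.Ioo (-X) X) := by
      refine ContDiffOn.inv (by fun_prop) fun z hz => ?_
      have : 0 < X - z := by linarith [hz.2]
      positivity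
    have e2 : ContDiffOn ℝ ∞ (fun x : ℝ => ((X + x) ^ 2)⁻¹) (Set.Ioo (-X) X) := by
      refine ContDiffOn.inv (by fun_prop) fun z hz => ?_
      have : 0 < X + z := by linarith [hz.1]
      positivity
    exact contDiffOn_const.add (contDiffOn_const.mul (e1.add e2))
  · rw [(FLDSub_hd A₁ A₂ α κ hX).deriv, le_div_iff₀ hA2]
    unfold FLDSub_d
    rw [← hu, ← hw]
    have e1 : (u ^ 3 - w ^ 3) ^ 2 ≤ (u ^ 2 + w ^ 2) ^ 3 := by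
      have : 0 ≤ 2 * (u ^ 3 * w ^ 3) + 3 * (u ^ 4 * w ^ 2) + 3 * (u ^ 2 * w ^ 4) := by positivity
      nlinarith
    have e2 : (A₂ * (u ^ 2 + w ^ 2)) ^ 3 ≤ fsg A₁ A₂ α κ X x ^ 3 := pow_le_pow_left₀ hs0 hge 3
    have e3 : A₂ ^ 3 * (u ^ 3 - w ^ 3) ^ 2 ≤ A₂ ^ 3 * (u ^ 2 + w ^ 2) ^ 3 :=
      mul_le_mul_of_nonneg_left e1 (by positivity)
    calc (A₂ * (2 * u ^ 3 - 2 * w ^ 3)) ^ 2 * A₂ = 4 * (A₂ ^ 3 * (u ^ 3 - w ^ 3) ^ 2) := by ring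
      _ ≤ 4 * (A₂ ^ 3 * (u ^ 2 + w ^ 2) ^ 3) := by linarith
      _ = 4 * (A₂ * (u ^ 2 + w ^ 2)) ^ 3 := by ring
      _ ≤ _ := by linarith
  · rw [FLDSub_dd A₁ A₂ α κ hX]
    positivity
  · rw [FLDSub_dd A₁ A₂ α κ hX, le_div_iff₀ hA2, ← hu, ← hw]
    have e2 : (A₂ * (u ^ 2 + w ^ 2)) ^ 2 ≤ fsg A₁ A₂ α κ X x ^ 2 := pow_le_pow_left₀ hs0 hge 2
    have e3 : 0 ≤ A₂ ^ 2 * (u ^ 2 * w ^ 2) := by positivity
    nlinarith

private theorem FLDSub_lapfst {F : ℝ → ℝ} {a b : ℝ} (hF : ContDiffOn ℝ ∞ F (Set.Ioo a b))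
    {q : ℝ × ℝ} (hq : q.1 ∈ Set.Ioo a b) :
    lap (fun z => F z.1) q = deriv (deriv F) q.1 ∧ dx (fun z => F z.1) q = deriv F q.1 ∧
      dy (fun z => F z.1) q = 0 := by
  have hD : IsOpen {z : ℝ × ℝ | z.1 ∈ Set.Ioo a b} := isOpen_Ioo.preimage continuous_fst
  have hd : ∀ x ∈ Set.Ioo a b, DifferentiableAt ℝ F x := fun x hx =>
    (hF.differentiableOn (by simp)).differentiableAt (isOpen_Ioo.mem_nhds hx)
  have hF1 : ContDiffOn ℝ ∞ (deriv F) (Set.Ioo a b) := hF.deriv_of_isOpen isOpen_Ioo (by simp)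
  have hd1 : DifferentiableAt ℝ (deriv F) q.1 :=
    (hF1.differentiableOn (by simp)).differentiableAt (isOpen_Ioo.mem_nhds hq)
  have e1 : dx (dx (fun z => F z.1)) q = deriv (deriv F) q.1 := by
    rw [dx_congr hD (g := fun z => deriv F z.1) (fun z hz => dx_fst F (hd z.1 hz)) hq,
      dx_fst (deriv F) hd1]
  have e2 : dy (dy (fun z => F z.1)) q = 0 := by
    rw [dy_congr hD (g := fun _ => (0 : ℝ)) (fun z hz => dy_fst F (hd z.1 hz)) hq]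
    simp [dy]
  refine ⟨?_, dx_fst F (hd _ hq), dy_fst F (hd _ hq)⟩
  rw [lap, e1, e2, add_zero]

private theorem FLDSub_sq {F : ℝ → ℝ} {a b : ℝ} (hF : ContDiffOn ℝ ∞ F (Set.Ioo a b))
    {x : ℝ} (hx : x ∈ Set.Ioo a b) :
    ContDiffOn ℝ ∞ (fun x => F x ^ 2 / 2) (Set.Ioo a b) ∧
    deriv (fun x => F x ^ 2 / 2) x = F x * deriv F x ∧
    deriv (deriv (fun x => F x ^ 2 / 2)) x = deriv F x ^ 2 + F x * deriv (deriv F) x := by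
  have hd : ∀ x ∈ Set.Ioo a b, DifferentiableAt ℝ F x := fun x hx =>
    (hF.differentiableOn (by simp)).differentiableAt (isOpen_Ioo.mem_nhds hx)
  have hF1 : ContDiffOn ℝ ∞ (deriv F) (Set.Ioo a b) := hF.deriv_of_isOpen isOpen_Ioo (by simp)
  have hd1 : DifferentiableAt ℝ (deriv F) x :=
    (hF1.differentiableOn (by simp)).differentiableAt (isOpen_Ioo.mem_nhds hx)
  have e1 : ∀ x ∈ Set.Ioo a b, deriv (fun x => F x ^ 2 / 2) x = F x * deriv F x := by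
    intro z hz
    have h1 := ((hd z hz).hasDerivAt.fun_pow 2).div_const 2
    rw [h1.deriv]
    simp only [Nat.cast_ofNat]
    ring
  refine ⟨(hF.pow 2).div_const 2, e1 x hx, ?_⟩
  have e2 : deriv (fun x => F x ^ 2 / 2) =ᶠ[nhds x] fun x => F x * deriv F x := by
    filter_upwards [isOpen_Ioo.mem_nhds hx] with z hz
    exact e1 z hz
  rw [e2.deriv_eq, ((hd x hx).hasDerivAt.fun_mul hd1.hasDerivAt).deriv]
  ring

private theorem FLDSub_calc {A₁ A₂ ε α κ X : ℝ} (h1 : 1 ≤ A₁) (h2 : 1 ≤ A₂) (hα : 0 < α)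
    (hκ : 0 < κ) {q : ℝ × ℝ} (hq : α ^ 2 * q.1 ^ 2 < 1) (hX : |q.1| < X) :
    lap (fsub A₁ A₂ α κ X) q = lap (fun z => V1 ast (YE α z)) q -
      (fsg A₁ A₂ α κ X q.1 * lap (fun z => e1 ast (YE α z)) q +
        e1 ast (YE α q) * deriv (deriv (fsg A₁ A₂ α κ X)) q.1 +
        2 * (deriv (fsg A₁ A₂ α κ X) q.1 * dx (fun z => e1 ast (YE α z)) q)) -
      (fsg A₁ A₂ α κ X q.1 ^ 2 / 2 * lap (fun z => 1 - YE α z ^ 2) q +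
        (1 - YE α q ^ 2) * (deriv (fsg A₁ A₂ α κ X) q.1 ^ 2 +
          fsg A₁ A₂ α κ X q.1 * deriv (deriv (fsg A₁ A₂ α κ X)) q.1) +
        2 * (fsg A₁ A₂ α κ X q.1 * deriv (fsg A₁ A₂ α κ X) q.1 *
          dx (fun z => 1 - YE α z ^ 2) q)) ∧
    lap (fgg A₁ A₂ ε α κ X) q = lap (fun z => e1 ast (YE α z)) q +
      ε * (fsg A₁ A₂ α κ X q.1 * lap (fun z => 2 - YE α z ^ 2) q +
        (2 - YE α q ^ 2) * deriv (deriv (fsg A₁ A₂ α κ X)) q.1 +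
        2 * (deriv (fsg A₁ A₂ α κ X) q.1 * dx (fun z => 2 - YE α z ^ 2) q)) := by
  have hD : IsOpen ({q : ℝ × ℝ | α ^ 2 * q.1 ^ 2 < 1} ∩ {q : ℝ × ℝ | q.1 ∈ Set.Ioo (-X) X}) :=
    (isOpen_lt (by fun_prop) continuous_const).inter (isOpen_Ioo.preimage continuous_fst)
  set D : Set (ℝ × ℝ) := {q : ℝ × ℝ | α ^ 2 * q.1 ^ 2 < 1} ∩ {q : ℝ × ℝ | q.1 ∈ Set.Ioo (-X) X}
    with hDdef
  have hqI : q.1 ∈ Set.Ioo (-X) X := abs_lt.1 hX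
  have hqD : q ∈ D := ⟨hq, hqI⟩
  have hs : ContDiffOn ℝ ∞ (fsg A₁ A₂ α κ X) (Set.Ioo (-X) X) :=
    (fsg_facts h1 h2 hα hκ hX).2.2.2.1
  obtain ⟨hs2, d1, d2⟩ := FLDSub_sq hs hqI
  obtain ⟨l1, l2, l3⟩ := FLDSub_lapfst hs hqI
  obtain ⟨m1, m2, m3⟩ := FLDSub_lapfst hs2 hqI
  have two : (2 : WithTop ℕ∞) ≤ ∞ := WithTop.coe_le_coe.2 le_top
  have cs : ContDiffOn ℝ 2 (fun z : ℝ × ℝ => fsg A₁ A₂ α κ X z.1) D :=
    (hs.comp contDiff_fst.contDiffOn fun z hz => hz.2).of_le two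
  have cs2 : ContDiffOn ℝ 2 (fun z : ℝ × ℝ => fsg A₁ A₂ α κ X z.1 ^ 2 / 2) D :=
    (hs2.comp contDiff_fst.contDiffOn fun z hz => hz.2).of_le two
  have cY : ∀ {f : ℝ → ℝ}, ContDiff ℝ ∞ f → ContDiffOn ℝ 2 (fun z => f (YE α z)) D := fun hf =>
    ((comp_YE_smooth α hf).mono fun z hz => hz.1).of_le two
  have cE := cY (e1_smooth ast)
  have cV := cY (V1_smooth ast)
  have cB : ContDiffOn ℝ 2 (fun z => 1 - YE α z ^ 2) D :=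
    cY (f := fun y => 1 - y ^ 2) (by fun_prop)
  have cG : ContDiffOn ℝ 2 (fun z => 2 - YE α z ^ 2) D :=
    cY (f := fun y => 2 - y ^ 2) (by fun_prop)
  have g1 : gdot (fun z : ℝ × ℝ => fsg A₁ A₂ α κ X z.1) (fun z => e1 ast (YE α z)) q =
      deriv (fsg A₁ A₂ α κ X) q.1 * dx (fun z => e1 ast (YE α z)) q := by
    rw [gdot, l2, l3, zero_mul, add_zero]
  have g2 : gdot (fun z : ℝ × ℝ => fsg A₁ A₂ α κ X z.1 ^ 2 / 2) (fun z => 1 - YE α z ^ 2) q =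
      fsg A₁ A₂ α κ X q.1 * deriv (fsg A₁ A₂ α κ X) q.1 * dx (fun z => 1 - YE α z ^ 2) q := by
    rw [gdot, m2, m3, zero_mul, add_zero, d1]
  have g3 : gdot (fun z : ℝ × ℝ => fsg A₁ A₂ α κ X z.1) (fun z => 2 - YE α z ^ 2) q =
      deriv (fsg A₁ A₂ α κ X) q.1 * dx (fun z => 2 - YE α z ^ 2) q := by
    rw [gdot, l2, l3, zero_mul, add_zero]
  have k1 := lap_mul hD cs cE hqD
  have k2 := lap_mul hD cs2 cB hqD
  have k3 := lap_mul hD cs cG hqD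
  rw [g1, l1] at k1
  rw [g2, m1, d2] at k2
  rw [g3, l1] at k3
  constructor
  · have e0 : fsub A₁ A₂ α κ X = fun z : ℝ × ℝ => V1 ast (YE α z) -
      fsg A₁ A₂ α κ X z.1 * e1 ast (YE α z) - fsg A₁ A₂ α κ X z.1 ^ 2 / 2 * (1 - YE α z ^ 2) := rfl
    rw [e0, lap_sub hD (cV.sub (cs.mul cE)) (cs2.mul cB) hqD, lap_sub hD cV (cs.mul cE) hqD, k1, k2]
  · have e0 : fgg A₁ A₂ ε α κ X = fun z : ℝ × ℝ => e1 ast (YE α z) +
      ε * (fsg A₁ A₂ α κ X z.1 * (2 - YE α z ^ 2)) := by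
      funext z
      unfold fgg
      ring
    rw [e0, lap_add hD cE (contDiffOn_const.mul (cs.mul cG)) hqD,
      lap_const_mul hD ε (cs.mul cG) hqD, k3]

/-- the first inequality, arithmetic part -/
private theorem FLDSub_ar1 {K K0 D M1 t σ q e b θ s1 s2 dE dB RV RE RB Q : ℝ} (hK : 0 ≤ K)
    (hσ : 0 < σ) (hσK : σ ≤ K0) (ht : 0 ≤ t) (hD : 0 ≤ D)
    (hθ0 : 0 ≤ θ) (hθ : θ ≤ 2 * t) (hq0 : 0 ≤ q) (hq : q ≤ 4) (he0 : 0 ≤ e) (he : e ≤ K)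
    (hb0 : 0 ≤ b) (hb : b ≤ 1) (h20 : 0 ≤ s2) (h2 : s2 ≤ 6 * t) (h1 : s1 ^ 2 ≤ 4 * σ * t)
    (h1D : |s1| ≤ D) (hdE : |dE| ≤ 2 * K * t) (hdB : |dB| ≤ 4 * t) (hRV : |RV| ≤ 2 * K * t)
    (hRE : |RE| ≤ 2 * K * t) (hRB : |RB| ≤ 4 * t)
    (hQ : q * (1 - σ * e - σ ^ 2 * b / 2 + σ ^ 2 * e ^ 2 / 4) - M1 * t ≤ Q)
    (halg : 1 / 5 ≤ 1 - q * b / 2 + q * e ^ 2 / 4)
    (hC : 5 * (8 + 8 * K + 2 * K0 * K + 4 * D * K + 2 * K0 ^ 2 + 10 * K0 + 8 * K0 * D + M1) * t ≤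
      σ ^ 2) :
    -(-q * (1 + θ) + RV - (σ * (-(q * e) * (1 + θ) + RE) + e * s2 + 2 * (s1 * dE)) -
      (σ ^ 2 / 2 * (-2 * (1 + θ) + RB) + b * (s1 ^ 2 + σ * s2) + 2 * (σ * s1 * dB))) ≤ Q := by
  have hK0 : 0 < K0 := hσ.trans_le hσK
  have a1 : q * θ ≤ 8 * t := by
    calc q * θ ≤ 4 * (2 * t) := mul_le_mul hq hθ hθ0 (by norm_num)
      _ = _ := by ring
  have a2 : -RV ≤ 2 * K * t := (neg_le_abs RV).trans hRV
  have a3 : 0 ≤ σ * (q * e) * θ := by positivity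
  have a4 : σ * RE ≤ 2 * K0 * K * t := by
    calc σ * RE ≤ σ * |RE| := mul_le_mul_of_nonneg_left (le_abs_self _) hσ.le
      _ ≤ K0 * (2 * K * t) := mul_le_mul hσK hRE (abs_nonneg _) hK0.le
      _ = _ := by ring
  have a5 : e * s2 ≤ 6 * K * t := by
    calc e * s2 ≤ K * (6 * t) := mul_le_mul he h2 h20 hK
      _ = _ := by ring
  have a6 : 2 * (s1 * dE) ≤ 4 * D * K * t := by
    have h3 : s1 * dE ≤ D * (2 * K * t) := by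
      calc s1 * dE ≤ |s1 * dE| := le_abs_self _
        _ = |s1| * |dE| := abs_mul _ _
        _ ≤ _ := mul_le_mul h1D hdE (abs_nonneg _) hD
    calc 2 * (s1 * dE) ≤ 2 * (D * (2 * K * t)) := by linarith
      _ = _ := by ring
  have a7 : 0 ≤ σ ^ 2 * θ := by positivity
  have a8 : σ ^ 2 / 2 * RB ≤ 2 * K0 ^ 2 * t := by
    have h3 : σ ^ 2 ≤ K0 ^ 2 := pow_le_pow_left₀ hσ.le hσK 2
    calc σ ^ 2 / 2 * RB ≤ σ ^ 2 / 2 * |RB| := mul_le_mul_of_nonneg_left (le_abs_self _) (by positivity)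
      _ ≤ K0 ^ 2 / 2 * (4 * t) := mul_le_mul (by linarith) hRB (abs_nonneg _) (by positivity)
      _ = _ := by ring
  have a9 : b * (s1 ^ 2 + σ * s2) ≤ 10 * K0 * t := by
    have h3 : σ * s2 ≤ σ * (6 * t) := mul_le_mul_of_nonneg_left h2 hσ.le
    have h4 : σ * t ≤ K0 * t := mul_le_mul_of_nonneg_right hσK ht
    have h5 : 0 ≤ s1 ^ 2 + σ * s2 := by positivity
    calc b * (s1 ^ 2 + σ * s2) ≤ 1 * (s1 ^ 2 + σ * s2) := mul_le_mul_of_nonneg_right hb h5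
      _ ≤ 4 * σ * t + σ * (6 * t) := by linarith
      _ = 10 * (σ * t) := by ring
      _ ≤ 10 * (K0 * t) := by linarith
      _ = _ := by ring
  have a10 : 2 * (σ * s1 * dB) ≤ 8 * K0 * D * t := by
    have h3 : σ * s1 * dB ≤ K0 * D * (4 * t) := by
      calc σ * s1 * dB ≤ |σ * s1 * dB| := le_abs_self _
        _ = σ * |s1| * |dB| := by rw [abs_mul, abs_mul, abs_of_pos hσ]
        _ ≤ _ := mul_le_mul (mul_le_mul hσK h1D (abs_nonneg _) hK0.le) hdB (abs_nonneg _)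
            (by positivity)
    calc 2 * (σ * s1 * dB) ≤ 2 * (K0 * D * (4 * t)) := by linarith
      _ = _ := by ring
  have a11 : σ ^ 2 / 5 ≤ σ ^ 2 * (1 - q * b / 2 + q * e ^ 2 / 4) := by
    have h3 := mul_le_mul_of_nonneg_left halg (sq_nonneg σ)
    linarith
  linarith

/-- the second inequality, arithmetic part -/
private theorem FLDSub_ar2 {K K0 D M1 t σ q e θ s1 s2 dG RE RG Q ε c G : ℝ} (hK : 0 ≤ K)
    (hσ : 0 < σ) (hσK : σ ≤ K0) (ht : 0 ≤ t) (hD : 0 ≤ D) (hM : 0 ≤ M1)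
    (hε0 : 0 < ε) (hε : ε ≤ 1) (hG0 : 0 ≤ G) (hG : G ≤ 2)
    (hθ0 : 0 ≤ θ) (hq0 : 0 ≤ q) (he0 : 0 ≤ e) (he : e ≤ K)
    (h20 : 0 ≤ s2) (h2 : s2 ≤ 6 * t)
    (h1D : |s1| ≤ D) (hdG : |dG| ≤ 4 * t)
    (hRE : |RE| ≤ 2 * K * t) (hRG : |RG| ≤ 4 * t)
    (hQ : Q ≤ q * (1 - σ * e / 4) + M1 * t)
    (halg : c ≤ 1 / 4 * (q * e ^ 2) + ε * (2 - q * G))
    (hC : (2 * K + 4 * K0 + 12 + 8 * D + M1 * (K + 2 * K0)) * t < c * σ) :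
    Q * (e + ε * σ * G) <
      -(-(q * e) * (1 + θ) + RE + ε * (σ * (-2 * (1 + θ) + RG) + G * s2 + 2 * (s1 * dG))) := by
  have hK0 : 0 < K0 := hσ.trans_le hσK
  have hg0 : 0 ≤ e + ε * σ * G := by positivity
  have hg : e + ε * σ * G ≤ K + 2 * K0 := by
    have h3 : ε * σ * G ≤ 1 * K0 * 2 :=
      mul_le_mul (mul_le_mul hε hσK hσ.le (by norm_num)) hG hG0 (by positivity)
    linarith
  have b1 : Q * (e + ε * σ * G) ≤ (q * (1 - σ * e / 4) + M1 * t) * (e + ε * σ * G) :=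
    mul_le_mul_of_nonneg_right hQ hg0
  have b2 : M1 * t * (e + ε * σ * G) ≤ M1 * (K + 2 * K0) * t := by
    calc M1 * t * (e + ε * σ * G) ≤ M1 * t * (K + 2 * K0) :=
          mul_le_mul_of_nonneg_left hg (by positivity)
      _ = _ := by ring
  have b3 : 0 ≤ q * (σ * e / 4) * (ε * σ * G) := by positivity
  have b4 : σ * c ≤ σ * (1 / 4 * (q * e ^ 2) + ε * (2 - q * G)) :=
    mul_le_mul_of_nonneg_left halg hσ.le
  have c1 : 0 ≤ q * e * θ := by positivity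
  have c2 : RE ≤ 2 * K * t := (le_abs_self RE).trans hRE
  have c3 : 0 ≤ ε * σ * θ := by positivity
  have c4 : ε * (σ * RG) ≤ 4 * K0 * t := by
    calc ε * (σ * RG) ≤ ε * (σ * |RG|) :=
          mul_le_mul_of_nonneg_left (mul_le_mul_of_nonneg_left (le_abs_self _) hσ.le) hε0.le
      _ ≤ 1 * (K0 * (4 * t)) :=
          mul_le_mul hε (mul_le_mul hσK hRG (abs_nonneg _) hK0.le) (by positivity) (by norm_num)
      _ = _ := by ring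
  have c5 : ε * (G * s2) ≤ 12 * t := by
    calc ε * (G * s2) ≤ 1 * (2 * (6 * t)) :=
          mul_le_mul hε (mul_le_mul hG h2 h20 (by norm_num)) (by positivity) (by norm_num)
      _ = _ := by ring
  have c6 : ε * (2 * (s1 * dG)) ≤ 8 * D * t := by
    have h3 : s1 * dG ≤ |s1| * |dG| := by
      rw [← abs_mul]
      exact le_abs_self _
    calc ε * (2 * (s1 * dG)) ≤ ε * (2 * (|s1| * |dG|)) :=
          mul_le_mul_of_nonneg_left (by linarith) hε0.le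
      _ ≤ 1 * (2 * (D * (4 * t))) := by
          refine mul_le_mul hε ?_ (by positivity) (by norm_num)
          have := mul_le_mul h1D hdG (abs_nonneg _) hD
          linarith
      _ = _ := by ring
  linarith

private theorem FLDSub_V_le (y : ℝ) : V1 ast y ≤ pst := by
  unfold V1 pst
  have h1 : 1 ≤ Real.cosh (ast * y) := Real.one_le_cosh _
  have h2 : 0 < Real.cosh ast := Real.cosh_pos _
  have h3 : Real.cosh ast / Real.cosh (ast * y) ≤ Real.cosh ast := by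
    rw [div_le_iff₀ (by linarith)]
    nlinarith
  have h4 := Real.log_le_log (div_pos h2 (by linarith)) h3
  linarith

private theorem FLDSub_t {A α κ X x σ : ℝ} (hA1 : 1 ≤ A) (hα : 0 < α) (hκ : 0 < κ) (hκ1 : κ ≤ 1)
    (hακ : α ^ 2 ≤ κ ^ 3) (hαX : α * X ≤ 1 / 4) (hX : |x| < X) (f1 : 0 < σ) (f2 : A * κ ≤ σ)
    (f3 : A * (α * X) ≤ σ) :
    κ ^ 2 ≤ σ ^ 2 / A ∧ α ^ 2 ≤ σ ^ 2 / A ∧ α ^ 2 * |x| ≤ σ ^ 2 / A ∧ α ^ 2 * x ^ 2 ≤ 1 / 16 ∧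
      α ^ 2 * x ^ 2 ≤ σ ^ 2 / A := by
  have hAp : 0 < A := by linarith
  have hXp : 0 < X := (abs_nonneg _).trans_lt hX
  have hAsq : A ≤ A ^ 2 := by nlinarith
  have hκt : κ ^ 2 ≤ σ ^ 2 / A := by
    rw [le_div_iff₀ hAp]
    have h1 : (A * κ) ^ 2 ≤ σ ^ 2 := pow_le_pow_left₀ (by positivity) f2 2
    have h2 : κ ^ 2 * A ≤ κ ^ 2 * A ^ 2 := mul_le_mul_of_nonneg_left hAsq (sq_nonneg _)
    calc κ ^ 2 * A ≤ κ ^ 2 * A ^ 2 := h2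
      _ = (A * κ) ^ 2 := by ring
      _ ≤ _ := h1
  have hXt : (α * X) ^ 2 ≤ σ ^ 2 / A := by
    rw [le_div_iff₀ hAp]
    have h1 : (A * (α * X)) ^ 2 ≤ σ ^ 2 := pow_le_pow_left₀ (by positivity) f3 2
    have h2 : (α * X) ^ 2 * A ≤ (α * X) ^ 2 * A ^ 2 := mul_le_mul_of_nonneg_left hAsq (sq_nonneg _)
    calc (α * X) ^ 2 * A ≤ (α * X) ^ 2 * A ^ 2 := h2
      _ = (A * (α * X)) ^ 2 := by ring
      _ ≤ _ := h1
  have hακ2 : α ^ 2 ≤ κ ^ 2 := by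
    have : κ ^ 3 ≤ κ ^ 2 := pow_le_pow_of_le_one hκ.le hκ1 (by norm_num)
    linarith
  have hακ1 : α ≤ κ := by
    by_contra hcon
    push Not at hcon
    nlinarith
  have hαx : α * |x| ≤ α * X := mul_le_mul_of_nonneg_left hX.le hα.le
  have hax2 : α ^ 2 * x ^ 2 = (α * |x|) ^ 2 := by rw [mul_pow, sq_abs]
  refine ⟨hκt, hακ2.trans hκt, ?_, ?_, ?_⟩
  · rw [le_div_iff₀ hAp]
    have h1 : (A * κ) * (A * (α * X)) ≤ σ * σ := mul_le_mul f2 f3 (by positivity) f1.le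
    have h2 : α * (α * |x|) ≤ κ * (α * X) := mul_le_mul hακ1 hαx (by positivity) hκ.le
    have h3 : 0 ≤ κ * (α * X) := by positivity
    calc α ^ 2 * |x| * A = α * (α * |x|) * A := by ring
      _ ≤ κ * (α * X) * A := mul_le_mul_of_nonneg_right h2 hAp.le
      _ ≤ κ * (α * X) * A ^ 2 := mul_le_mul_of_nonneg_left hAsq h3
      _ = (A * κ) * (A * (α * X)) := by ring
      _ ≤ σ ^ 2 := by rw [sq]; exact h1
  · rw [hax2]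
    have h1 : α * |x| ≤ 1 / 4 := hαx.trans hαX
    have h2 : 0 ≤ α * |x| := by positivity
    nlinarith
  · rw [hax2]
    exact (pow_le_pow_left₀ (by positivity) hαx 2).trans hXt

private theorem FLDSub_dB1 (a y : ℝ) : deriv (fun y : ℝ => a - y ^ 2) y = -(2 * y) := by
  have h1 := ((hasDerivAt_id y).fun_pow 2).const_sub a
  have h2 := h1.deriv
  simp only [id] at h2
  rw [h2]
  simp

private theorem FLDSub_dB2 (a y : ℝ) : deriv (deriv (fun y : ℝ => a - y ^ 2)) y = -2 := by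
  have h1 : deriv (fun y : ℝ => a - y ^ 2) = fun y => -(2 * y) :=
    funext fun y => FLDSub_dB1 a y
  rw [h1]
  have h2 := ((hasDerivAt_id y).const_mul 2).fun_neg
  have h3 := h2.deriv
  simp only [id] at h3
  rw [h3]
  norm_num

private theorem FLDSub_quad (a : ℝ) {α t : ℝ} {q : ℝ × ℝ} (hax16 : α ^ 2 * q.1 ^ 2 ≤ 1 / 16)
    (hY : |YE α q| ≤ 1) (hαt : α ^ 2 ≤ t) (hαxt : α ^ 2 * |q.1| ≤ t) :
    (∃ R, |R| ≤ 4 * t ∧ lap (fun z => a - YE α z ^ 2) q =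
      -2 * (1 + (1 / hE α q.1 ^ 2 - 1)) + R) ∧ |dx (fun z => a - YE α z ^ 2) q| ≤ 4 * t := by
  have bM : ∀ (y : ℝ), |y| ≤ 1 → |deriv (fun y : ℝ => a - y ^ 2) y| ≤ 2 ∧
      |deriv (deriv (fun y : ℝ => a - y ^ 2)) y| ≤ 2 := by
    intro y hy
    rw [FLDSub_dB1, FLDSub_dB2]
    constructor
    · rw [abs_neg, abs_mul]
      norm_num
      linarith
    · norm_num
  have bB := comp_YE_bd (α := α) (M := 2) (f := fun y => a - y ^ 2) (by fun_prop) bM hax16 hY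
  rw [FLDSub_dB2] at bB
  obtain ⟨h1, h2, _⟩ := bB
  refine ⟨⟨lap (fun z => a - YE α z ^ 2) q - -2 / hE α q.1 ^ 2, ?_, by ring⟩, ?_⟩
  · have h3 : |lap (fun z => a - YE α z ^ 2) q - -2 / hE α q.1 ^ 2| ≤ 2 * 2 * α ^ 2 := h1
    linarith
  · have h3 : |dx (fun z => a - YE α z ^ 2) q| ≤ 2 * 2 * α ^ 2 * |q.1| := h2
    linarith

private theorem FLDSub_VE {K : ℝ} (hK0 : 0 < K)
    (hKb : ∀ y : ℝ, |y| ≤ 2 →
    |e1 ast y| ≤ K ∧ |deriv (e1 ast) y| ≤ K ∧ |deriv (deriv (e1 ast)) y| ≤ K ∧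
    |V1 ast y| ≤ K ∧ |deriv (V1 ast) y| ≤ K ∧ |deriv (deriv (V1 ast)) y| ≤ K ∧
    |pot1 ast y| ≤ K ∧ |deriv (pot1 ast) y| ≤ K) {α t : ℝ} {q : ℝ × ℝ}
    (hax16 : α ^ 2 * q.1 ^ 2 ≤ 1 / 16) (hY : |YE α q| ≤ 1) (hαt : α ^ 2 ≤ t)
    (hαxt : α ^ 2 * |q.1| ≤ t) :
    (∃ R, |R| ≤ 2 * K * t ∧ lap (fun z => V1 ast (YE α z)) q =
      -pot1 ast (YE α q) * (1 + (1 / hE α q.1 ^ 2 - 1)) + R) ∧
    (∃ R, |R| ≤ 2 * K * t ∧ lap (fun z => e1 ast (YE α z)) q =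
      -(pot1 ast (YE α q) * e1 ast (YE α q)) * (1 + (1 / hE α q.1 ^ 2 - 1)) + R) ∧
    |dx (fun z => e1 ast (YE α z)) q| ≤ 2 * K * t := by
  have hMK : ∀ y : ℝ, |y| ≤ 1 → |y| ≤ 2 := fun y hy => by linarith
  have bV := comp_YE_bd (α := α) (M := K) (V1_smooth ast)
    (fun y hy => ⟨(hKb y (hMK y hy)).2.2.2.2.1, (hKb y (hMK y hy)).2.2.2.2.2.1⟩) hax16 hY
  have bE := comp_YE_bd (α := α) (M := K) (e1_smooth ast)
    (fun y hy => ⟨(hKb y (hMK y hy)).2.1, (hKb y (hMK y hy)).2.2.1⟩) hax16 hY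
  rw [V1_deriv2] at bV
  rw [e1_deriv2] at bE
  obtain ⟨v1, v2, _⟩ := bV
  obtain ⟨w1, w2, _⟩ := bE
  refine ⟨⟨_, v1.trans (mul_le_mul_of_nonneg_left hαt (by positivity)), by ring⟩,
    ⟨_, w1.trans (mul_le_mul_of_nonneg_left hαt (by positivity)), by ring⟩, ?_⟩
  calc |dx (fun z => e1 ast (YE α z)) q| ≤ 2 * K * α ^ 2 * |q.1| := w2
    _ = 2 * K * (α ^ 2 * |q.1|) := by ring
    _ ≤ _ := mul_le_mul_of_nonneg_left hαxt (by positivity)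

private theorem FLDSub_exp {K μ t σ Y w : ℝ} (hVK : V1 ast Y ≤ K) (ht0 : 0 ≤ t)
    (hμ : |μ - mu1 ast| ≤ t) (hσ : 0 < σ) (he0 : 0 < e1 ast Y) (hb0 : 0 < 1 - Y ^ 2)
    (hw : w = σ * e1 ast Y + σ ^ 2 / 2 * (1 - Y ^ 2)) (hw2 : w ≤ 2) :
    pot1 ast Y * (1 - σ * e1 ast Y - σ ^ 2 * (1 - Y ^ 2) / 2 + σ ^ 2 * e1 ast Y ^ 2 / 4) -
      Real.exp K * t ≤ μ * Real.exp (V1 ast Y + -w) ∧
    μ * Real.exp (V1 ast Y + -w) ≤ pot1 ast Y * (1 - σ * e1 ast Y / 4) + Real.exp K * t := by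
  have hp0 : 0 < pot1 ast Y := (cst_q Y).1
  have hw0 : 0 ≤ w := by
    rw [hw]
    positivity
  have hwe : σ * e1 ast Y ≤ w := by
    rw [hw]
    have : 0 ≤ σ ^ 2 / 2 * (1 - Y ^ 2) := by positivity
    linarith
  have hexp : μ * Real.exp (V1 ast Y + -w) = pot1 ast Y * Real.exp (-w) +
      (μ - mu1 ast) * (Real.exp (V1 ast Y) * Real.exp (-w)) := by
    rw [Real.exp_add, ← pot1_eq ast Y]
    ring
  have hew1 : Real.exp (-w) ≤ 1 := Real.exp_le_one_iff.2 (by linarith)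
  have hew0 : 0 < Real.exp (-w) := Real.exp_pos _
  have hM1p : 0 < Real.exp K := Real.exp_pos _
  have herr : |(μ - mu1 ast) * (Real.exp (V1 ast Y) * Real.exp (-w))| ≤ Real.exp K * t := by
    rw [abs_mul, abs_of_pos (mul_pos (Real.exp_pos _) hew0)]
    have h1 : Real.exp (V1 ast Y) * Real.exp (-w) ≤ Real.exp K * 1 :=
      mul_le_mul (Real.exp_le_exp.2 hVK) hew1 hew0.le hM1p.le
    calc |μ - mu1 ast| * (Real.exp (V1 ast Y) * Real.exp (-w)) ≤ t * (Real.exp K * 1) :=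
          mul_le_mul hμ h1 (by positivity) ht0
      _ = _ := by ring
  obtain ⟨er1, er2⟩ := abs_le.1 herr
  rw [hexp]
  constructor
  · have h1 := alg_exp_lower hw2
    have h2 : (σ * e1 ast Y) ^ 2 ≤ w ^ 2 := pow_le_pow_left₀ (by positivity) hwe 2
    have h3 : 1 - σ * e1 ast Y - σ ^ 2 * (1 - Y ^ 2) / 2 + σ ^ 2 * e1 ast Y ^ 2 / 4 ≤
        Real.exp (-w) := by
      have h4 : 1 - σ * e1 ast Y - σ ^ 2 * (1 - Y ^ 2) / 2 + σ ^ 2 * e1 ast Y ^ 2 / 4 =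
          1 - w + (σ * e1 ast Y) ^ 2 / 4 := by
        rw [hw]
        ring
      rw [h4]
      linarith
    have h5 := mul_le_mul_of_nonneg_left h3 hp0.le
    linarith
  · have h1 := alg_exp_upper hw0 (by linarith : w ≤ 3)
    have h3 : Real.exp (-w) ≤ 1 - σ * e1 ast Y / 4 := by linarith
    have h5 := mul_le_mul_of_nonneg_left h3 hp0.le
    linarith

private theorem FLDSub_s1 {A K0 σ s1 : ℝ} (hA1 : 1 ≤ A) (hK0p : 0 < K0) (f1 : 0 < σ)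
    (hσK : σ ≤ K0) (f5 : s1 ^ 2 ≤ 4 * σ ^ 3 / A) : |s1| ≤ 1 + 4 * K0 ^ 3 := by
  have hAp : 0 < A := by linarith
  have h3 : s1 ^ 2 ≤ 4 * K0 ^ 3 := by
    rw [le_div_iff₀ hAp] at f5
    have h2 : σ ^ 3 ≤ K0 ^ 3 := pow_le_pow_left₀ f1.le hσK 3
    have h4 : s1 ^ 2 * 1 ≤ s1 ^ 2 * A := mul_le_mul_of_nonneg_left hA1 (sq_nonneg _)
    linarith
  have h4 : |s1| ≤ 1 + s1 ^ 2 := by
    rw [← sq_abs s1]
    nlinarith [sq_nonneg (|s1| - 1), abs_nonneg s1]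
  linarith

theorem fsub_main : ∃ A₁ A₂ ε : ℝ, 1 ≤ A₁ ∧ 1 ≤ A₂ ∧ 0 < ε ∧ ε ≤ 1 ∧ ∀ α μ κ X : ℝ,
    0 < α → 0 < κ → κ ≤ 1 → α ^ 2 ≤ κ ^ 3 → |μ - mu1 ast| ≤ κ ^ 2 → 0 < μ → α * X ≤ 1 / 4 →
    ∀ q ∈ Ell α, |q.1| < X → 0 < fsub A₁ A₂ α κ X q →
      -lap (fsub A₁ A₂ α κ X) q ≤ μ * Real.exp (fsub A₁ A₂ α κ X q) ∧
      μ * Real.exp (fsub A₁ A₂ α κ X q) * fgg A₁ A₂ ε α κ X q < -lap (fgg A₁ A₂ ε α κ X) q := by
  obtain ⟨K, hK0, hKb⟩ := cst_bd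
  obtain ⟨cV', CV, hcV, hCV, hV⟩ := cst_V
  obtain ⟨Ce, hCe, he⟩ := cst_e
  obtain ⟨ε, c, hε0, hε1, hc, halg2⟩ := alg2 (δ := 1 / 4) (by norm_num)
  obtain ⟨K0, hK0def⟩ : ∃ K0, K0 = 2 * CV := ⟨_, rfl⟩
  have hK0p : 0 < K0 := by rw [hK0def]; positivity
  obtain ⟨D, hDdef⟩ : ∃ D, D = 1 + 4 * K0 ^ 3 := ⟨_, rfl⟩
  have hDp : 0 < D := by rw [hDdef]; positivity
  obtain ⟨M1, hM1def⟩ : ∃ M1, M1 = Real.exp K := ⟨_, rfl⟩
  have hM1p : 0 < M1 := by rw [hM1def]; exact Real.exp_pos _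
  obtain ⟨C, hCdef⟩ : ∃ C, C = 8 + 8 * K + 2 * K0 * K + 4 * D * K + 2 * K0 ^ 2 + 10 * K0 +
    8 * K0 * D + M1 := ⟨_, rfl⟩
  have hCp : 0 < C := by rw [hCdef]; positivity
  obtain ⟨C', hC'def⟩ : ∃ C', C' = 2 * K + 4 * K0 + 12 + 8 * D + M1 * (K + 2 * K0) := ⟨_, rfl⟩
  have hC'p : 0 < C' := by rw [hC'def]; positivity
  have hq0 : 0 ≤ C' * K0 / c := by positivity
  obtain ⟨A, hAdef⟩ : ∃ A, A = 1 + 5 * C + C' * K0 / c := ⟨_, rfl⟩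
  have hA5 : 5 * C ≤ A := by linarith
  have hA1 : 1 ≤ A := by linarith
  have hAc : C' * K0 / c < A := by linarith
  have hAp : 0 < A := by linarith
  clear hAdef hq0
  refine ⟨A, A, ε, hA1, hA1, hε0, hε1, ?_⟩
  intro α μ κ X hα hκ hκ1 hακ hμ _ hαX q hq hX hsub
  have hlt := (ell_sq_lt hq).1
  obtain ⟨f1, f2, f3, f4, f5, f6, f7⟩ := fsg_facts (x := q.1) hA1 hA1 hα hκ hX
  obtain ⟨calc1, calc2⟩ := FLDSub_calc (ε := ε) hA1 hA1 hα hκ hlt hX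
  have hsubeq : fsub A A α κ X q = V1 ast (YE α q) +
      -(fsg A A α κ X q.1 * e1 ast (YE α q) + fsg A A α κ X q.1 ^ 2 / 2 * (1 - YE α q ^ 2)) := by
    unfold fsub
    ring
  have hggeq : fgg A A ε α κ X q = e1 ast (YE α q) + ε * fsg A A α κ X q.1 * (2 - YE α q ^ 2) := rfl
  rw [hsubeq] at hsub ⊢
  rw [hggeq, calc1, calc2]
  clear calc1 calc2 hsubeq hggeq f4
  generalize fsg A A α κ X q.1 = σ at *
  generalize deriv (fsg A A α κ X) q.1 = s1 at *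
  generalize deriv (deriv (fsg A A α κ X)) q.1 = s2 at *
  have hY1 : |YE α q| < 1 := (ell_iff_Y hlt).1 hq
  have hYsq : YE α q ^ 2 < 1 := (sq_lt_one_iff_abs_lt_one _).2 hY1
  have hb0 : 0 < 1 - YE α q ^ 2 := by linarith
  have hb1 : 1 - YE α q ^ 2 ≤ 1 := by linarith [sq_nonneg (YE α q)]
  have hVY := (hV (YE α q) hY1.le).2
  have heY := (he (YE α q) hY1.le).1
  have he0 : 0 < e1 ast (YE α q) := by linarith
  obtain ⟨t1, t2, t3, t4, t5⟩ := FLDSub_t hA1 hα hκ hκ1 hακ hαX hX f1 f2 f3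
  -- step (0)
  have hσK : σ ≤ K0 := by
    by_contra hcon
    push Not at hcon
    have h1 : σ * ((1 - YE α q ^ 2) / 2) ≤ σ * e1 ast (YE α q) :=
      mul_le_mul_of_nonneg_left heY f1.le
    have h2 : 0 ≤ σ ^ 2 / 2 * (1 - YE α q ^ 2) := by positivity
    have h3 : K0 * (1 - YE α q ^ 2) ≤ σ * (1 - YE α q ^ 2) :=
      mul_le_mul_of_nonneg_right hcon.le hb0.le
    rw [hK0def] at h3
    linarith
  have ht0 : 0 ≤ σ ^ 2 / A := by positivity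
  obtain ⟨g1, g2, _⟩ := hE_inv t4
  have hax0 : 0 ≤ α ^ 2 * q.1 ^ 2 := by positivity
  have hθ0 : 0 ≤ 1 / hE α q.1 ^ 2 - 1 := by linarith
  have hθt : 1 / hE α q.1 ^ 2 - 1 ≤ 2 * (σ ^ 2 / A) := by
    have h1 : 2 * (α ^ 2 * q.1 ^ 2) ^ 2 ≤ α ^ 2 * q.1 ^ 2 := by
      have h9 := mul_le_mul_of_nonneg_right t4 hax0
      rw [sq (α ^ 2 * q.1 ^ 2)]
      linarith
    linarith
  obtain ⟨⟨RB, rB, lB⟩, xB⟩ := FLDSub_quad 1 t4 hY1.le t2 t3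
  obtain ⟨⟨RG, rG, lG⟩, xG⟩ := FLDSub_quad 2 t4 hY1.le t2 t3
  obtain ⟨⟨RV, rV, lV⟩, ⟨RE, rE, lE⟩, xE⟩ := FLDSub_VE hK0 hKb t4 hY1.le t2 t3
  have s2t : s2 ≤ 6 * (σ ^ 2 / A) := by
    calc s2 ≤ 6 * σ ^ 2 / A := f7
      _ = 6 * (σ ^ 2 / A) := by ring
  have s1t : s1 ^ 2 ≤ 4 * σ * (σ ^ 2 / A) := by
    calc s1 ^ 2 ≤ 4 * σ ^ 3 / A := f5
      _ = 4 * σ * (σ ^ 2 / A) := by ring
  have s1D : |s1| ≤ D := by
    rw [hDdef]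
    exact FLDSub_s1 hA1 hK0p f1 hσK f5
  have hMK : |YE α q| ≤ 2 := by linarith
  have heK : e1 ast (YE α q) ≤ K := (le_abs_self _).trans (hKb (YE α q) hMK).1
  have hVK : V1 ast (YE α q) ≤ K := (le_abs_self _).trans (hKb (YE α q) hMK).2.2.2.1
  have hp := cst_q (YE α q)
  have hp4 : pot1 ast (YE α q) ≤ 4 := by linarith [hp.2.2]
  have hw2 : σ * e1 ast (YE α q) + σ ^ 2 / 2 * (1 - YE α q ^ 2) ≤ 2 := by
    have h1 := FLDSub_V_le (YE α q)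
    have h2 := cst_pst.2
    linarith
  obtain ⟨hQ1, hQ2⟩ := FLDSub_exp hVK ht0 (hμ.trans t1) f1 he0 hb0 rfl hw2
  rw [← hM1def] at hQ1 hQ2
  have ha1 := alg1 (YE α q)
  have ha2 := halg2 (YE α q) hY1.le
  rw [lV, lE, lB, lG]
  clear hKb hV he halg2 hcV hCV hCe hlt g1 g2 hax0 t4 t5 hVY heY hVK
  constructor
  · refine FLDSub_ar1 (K := K) (K0 := K0) (D := D) (M1 := M1) (t := σ ^ 2 / A) hK0.le f1 hσK ht0
      hDp.le hθ0 hθt hp.1.le hp4 he0.le heK hb0.le hb1 f6 s2t s1t s1D xE xB rV rE rB hQ1 ha1 ?_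
    rw [← hCdef]
    calc 5 * C * (σ ^ 2 / A) ≤ A * (σ ^ 2 / A) := mul_le_mul_of_nonneg_right hA5 ht0
      _ = σ ^ 2 := by field_simp
  · refine FLDSub_ar2 (K := K) (K0 := K0) (D := D) (M1 := M1) (t := σ ^ 2 / A) (c := c) hK0.le f1
      hσK ht0 hDp.le hM1p.le hε0 hε1 (by linarith) (by linarith) hθ0 hp.1.le he0.le heK
      f6 s2t s1D xG rE rG hQ2 ha2 ?_
    rw [← hC'def]
    have h1 : C' * K0 < c * A := by
      rw [div_lt_iff₀ hc] at hAc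
      linarith
    have h2 : σ ^ 2 / A * A = σ ^ 2 := by field_simp
    have h3 : C' * (σ ^ 2 / A) * A < c * σ * A := by
      calc C' * (σ ^ 2 / A) * A = C' * σ ^ 2 := by rw [mul_assoc, h2]
        _ = (C' * σ) * σ := by ring
        _ ≤ (C' * σ) * K0 := mul_le_mul_of_nonneg_left hσK (by positivity)
        _ = (C' * K0) * σ := by ring
        _ < (c * A) * σ := mul_lt_mul_of_pos_right h1 f1
        _ = _ := by ring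
    exact lt_of_mul_lt_mul_right h3 hAp.le

end Pool.Agent.MFE
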