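import Pool.Agent.MFE.CAL

/-!
# MFE.MVI: mean value properties and the strong minimum principle

`circAvg f q₀ r` is the average over the circle. For `F r = circAvg f q₀ r`: with
`G(r) = (2π)⁻¹ ∫ (∂_r f)(q₀ + r e^{iθ}) dθ = F'(r)` one has
`(r F'(r))' = (2π)⁻¹ ∫ (∂_r (r ∂_r f)) dθ = (2π)⁻¹ ∫ (r Δf - (1/r) f_θθ) dθ = r circAvg (lap f) r`
(periodicity kills `f_θθ`), and `r F'(r) → 0` as `r → 0`. Hence `F' ≤ 0` if `lap f ≤ 0`, `F' = 0`
if `lap f = 0`, and `F(0) = f q₀`. Alternatively prove `r F'(r) = ∫_0^r s circAvg (lap f) s ds` by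
comparing derivatives.
Disc integrals: polar coordinates (`integral_comp_polarCoord_symm`, translate by `q₀`).
Strong minimum principle: the zero set of `f ≥ 0` is closed in `U`, and open by `disc_le`
(`0 = π r² f q₀ ≥ ∫_{Disc} f ≥ 0`, so `f = 0` on the disc by continuity).
-/

open scoped ContDiff

namespace Pool.Agent.MFE

/-- average over the circle -/
noncomputable def circAvg (f : ℝ × ℝ → ℝ) (q₀ : ℝ × ℝ) (r : ℝ) : ℝ :=
  (2 * Real.pi)⁻¹ * ∫ θ in (0 : ℝ)..(2 * Real.pi),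
    f (q₀.1 + r * Real.cos θ, q₀.2 + r * Real.sin θ)

/-- the circle -/
private noncomputable def MVI_p (q₀ : ℝ × ℝ) (r θ : ℝ) : ℝ × ℝ :=
  (q₀.1 + r * Real.cos θ, q₀.2 + r * Real.sin θ)

private theorem MVI_p_mem (q₀ : ℝ × ℝ) (r θ : ℝ) : MVI_p q₀ r θ ∈ CDisc q₀ r := by
  show (q₀.1 + r * Real.cos θ - q₀.1) ^ 2 + (q₀.2 + r * Real.sin θ - q₀.2) ^ 2 ≤ r ^ 2
  have := Real.sin_sq_add_cos_sq θ
  nlinarith [this, sq_nonneg r]

private theorem MVI_p_cont (q₀ : ℝ × ℝ) : Continuous fun z : ℝ × ℝ => MVI_p q₀ z.1 z.2 := by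
  unfold MVI_p; fun_prop

private theorem MVI_p_cont2 (q₀ : ℝ × ℝ) (r : ℝ) : Continuous fun θ : ℝ => MVI_p q₀ r θ := by
  unfold MVI_p; fun_prop

private theorem MVI_cd_closed (q₀ : ℝ × ℝ) (r : ℝ) : IsClosed (CDisc q₀ r) :=
  isClosed_le (by fun_prop) continuous_const

private theorem MVI_cd_compact (q₀ : ℝ × ℝ) (r : ℝ) : IsCompact (CDisc q₀ r) := by
  apply Metric.isCompact_of_isClosed_isBounded (MVI_cd_closed q₀ r)
  have hsub : CDisc q₀ r ⊆ Set.Icc (q₀.1 - |r|) (q₀.1 + |r|) ×ˢ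
      Set.Icc (q₀.2 - |r|) (q₀.2 + |r|) := by
    intro q hq
    have hq' : (q.1 - q₀.1) ^ 2 + (q.2 - q₀.2) ^ 2 ≤ r ^ 2 := hq
    have h1 : |q.1 - q₀.1| ≤ |r| := sq_le_sq.mp (by nlinarith [sq_nonneg (q.2 - q₀.2)])
    have h2 : |q.2 - q₀.2| ≤ |r| := sq_le_sq.mp (by nlinarith [sq_nonneg (q.1 - q₀.1)])
    rw [abs_le] at h1 h2
    exact ⟨⟨by linarith [h1.1], by linarith [h1.2]⟩, ⟨by linarith [h2.1], by linarith [h2.2]⟩⟩
  exact ((isCompact_Icc.prod isCompact_Icc).isBounded).subset hsub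

private theorem MVI_d_open (q₀ : ℝ × ℝ) (r : ℝ) : IsOpen (Disc q₀ r) :=
  isOpen_lt (by fun_prop) continuous_const

private theorem MVI_d_sub (q₀ : ℝ × ℝ) (r : ℝ) : Disc q₀ r ⊆ CDisc q₀ r := by
  intro q hq
  have h : (q.1 - q₀.1) ^ 2 + (q.2 - q₀.2) ^ 2 < r ^ 2 := hq
  exact h.le

private theorem MVI_cd_mono (q₀ : ℝ × ℝ) {r s : ℝ} (hr : 0 ≤ r) (hrs : r ≤ s) :
    CDisc q₀ r ⊆ CDisc q₀ s := fun q hq => le_trans (show _ ≤ r ^ 2 from hq)
      (by nlinarith)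

/-- derivative of the circle integral with respect to the radius -/
private theorem MVI_deriv {U : Set (ℝ × ℝ)} (hU : IsOpen U) {h : ℝ × ℝ → ℝ}
    (hh : ContDiffOn ℝ 1 h U) (q₀ : ℝ × ℝ) {r₀ : ℝ} (hr : CDisc q₀ r₀ ⊆ U) {w : ℝ → ℝ}
    (hw : Continuous w) :
    HasDerivAt (fun r => ∫ θ in (0 : ℝ)..(2 * Real.pi), w θ * h (MVI_p q₀ r θ))
      (∫ θ in (0 : ℝ)..(2 * Real.pi), w θ * (Real.cos θ * dx h (MVI_p q₀ r₀ θ) +
        Real.sin θ * dy h (MVI_p q₀ r₀ θ))) r₀ := by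
  obtain ⟨δ, hδ, hδU⟩ := (MVI_cd_compact q₀ r₀).exists_cthickening_subset_open hU hr
  have hcomp : IsCompact (Metric.cthickening δ (CDisc q₀ r₀)) := (MVI_cd_compact q₀ r₀).cthickening
  have hmem : ∀ r ∈ Metric.ball r₀ δ, ∀ θ, MVI_p q₀ r θ ∈ Metric.cthickening δ (CDisc q₀ r₀) := by
    intro r hr' θ
    rw [Metric.mem_ball, Real.dist_eq] at hr'
    apply Metric.mem_cthickening_of_dist_le (MVI_p q₀ r θ) (MVI_p q₀ r₀ θ) δ _ (MVI_p_mem q₀ r₀ θ)
    rw [Prod.dist_eq]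
    apply max_le
    · rw [Real.dist_eq]
      have : (MVI_p q₀ r θ).1 - (MVI_p q₀ r₀ θ).1 = (r - r₀) * Real.cos θ := by
        simp only [MVI_p]; ring
      rw [this, abs_mul]
      calc |r - r₀| * |Real.cos θ| ≤ |r - r₀| * 1 :=
            mul_le_mul_of_nonneg_left (Real.abs_cos_le_one θ) (abs_nonneg _)
        _ ≤ δ := by linarith
    · rw [Real.dist_eq]
      have : (MVI_p q₀ r θ).2 - (MVI_p q₀ r₀ θ).2 = (r - r₀) * Real.sin θ := by
        simp only [MVI_p]; ring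
      rw [this, abs_mul]
      calc |r - r₀| * |Real.sin θ| ≤ |r - r₀| * 1 :=
            mul_le_mul_of_nonneg_left (Real.abs_sin_le_one θ) (abs_nonneg _)
        _ ≤ δ := by linarith
  have hdxc : ContinuousOn (dx h) U := cont_dx hU hh
  have hdyc : ContinuousOn (dy h) U := cont_dy hU hh
  obtain ⟨C1, hC1⟩ := hcomp.exists_bound_of_continuousOn (hdxc.mono hδU)
  obtain ⟨C2, hC2⟩ := hcomp.exists_bound_of_continuousOn (hdyc.mono hδU)
  have hcF : ∀ r ∈ Metric.ball r₀ δ, Continuous fun θ => w θ * h (MVI_p q₀ r θ) := by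
    intro r hr'
    exact hw.mul (hh.continuousOn.comp_continuous (MVI_p_cont2 q₀ r)
      fun θ => hδU (hmem r hr' θ))
  have hcF' : Continuous fun θ => w θ * (Real.cos θ * dx h (MVI_p q₀ r₀ θ) +
        Real.sin θ * dy h (MVI_p q₀ r₀ θ)) := by
    have hx : Continuous fun θ => dx h (MVI_p q₀ r₀ θ) :=
      hdxc.comp_continuous (MVI_p_cont2 q₀ r₀) fun θ => hr (MVI_p_mem q₀ r₀ θ)
    have hy : Continuous fun θ => dy h (MVI_p q₀ r₀ θ) :=
      hdyc.comp_continuous (MVI_p_cont2 q₀ r₀) fun θ => hr (MVI_p_mem q₀ r₀ θ)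
    exact hw.mul ((Real.continuous_cos.mul hx).add (Real.continuous_sin.mul hy))
  refine (intervalIntegral.hasDerivAt_integral_of_dominated_loc_of_deriv_le
    (F := fun r θ => w θ * h (MVI_p q₀ r θ))
    (F' := fun r θ => w θ * (Real.cos θ * dx h (MVI_p q₀ r θ) + Real.sin θ * dy h (MVI_p q₀ r θ)))
    (bound := fun θ => |w θ| * (C1 + C2)) (Metric.ball_mem_nhds r₀ hδ) ?_ ?_ ?_ ?_ ?_ ?_).2
  · filter_upwards [Metric.ball_mem_nhds r₀ hδ] with r hr'
    exact (hcF r hr').aestronglyMeasurable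
  · exact (hcF r₀ (Metric.mem_ball_self hδ)).intervalIntegrable _ _
  · exact hcF'.aestronglyMeasurable
  · refine Filter.Eventually.of_forall fun θ _ r hr' => ?_
    rw [norm_mul, Real.norm_eq_abs]
    apply mul_le_mul_of_nonneg_left _ (abs_nonneg _)
    refine (norm_add_le _ _).trans ?_
    apply add_le_add
    · rw [norm_mul]
      calc ‖Real.cos θ‖ * ‖dx h (MVI_p q₀ r θ)‖ ≤ 1 * ‖dx h (MVI_p q₀ r θ)‖ :=
            mul_le_mul_of_nonneg_right (Real.abs_cos_le_one θ) (norm_nonneg _)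
        _ ≤ C1 := by rw [one_mul]; exact hC1 _ (hmem r hr' θ)
    · rw [norm_mul]
      calc ‖Real.sin θ‖ * ‖dy h (MVI_p q₀ r θ)‖ ≤ 1 * ‖dy h (MVI_p q₀ r θ)‖ :=
            mul_le_mul_of_nonneg_right (Real.abs_sin_le_one θ) (norm_nonneg _)
        _ ≤ C2 := by rw [one_mul]; exact hC2 _ (hmem r hr' θ)
  · exact (hw.abs.mul continuous_const).intervalIntegrable _ _
  · refine Filter.Eventually.of_forall fun θ _ r hr' => ?_
    apply HasDerivAt.const_mul
    have hd : DifferentiableAt ℝ h (MVI_p q₀ r θ) :=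
      (hh.contDiffAt (hU.mem_nhds (hδU (hmem r hr' θ)))).differentiableAt (by norm_num)
    have h1 : HasDerivAt (fun r : ℝ => MVI_p q₀ r θ) (Real.cos θ, Real.sin θ) r := by
      have a1 : HasDerivAt (fun r : ℝ => q₀.1 + r * Real.cos θ) (Real.cos θ) r := by
        simpa using ((hasDerivAt_id r).mul_const (Real.cos θ)).const_add q₀.1
      have a2 : HasDerivAt (fun r : ℝ => q₀.2 + r * Real.sin θ) (Real.sin θ) r := by
        simpa using ((hasDerivAt_id r).mul_const (Real.sin θ)).const_add q₀.2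
      exact a1.prodMk a2
    have := hd.hasFDerivAt.comp_hasDerivAt r h1
    rw [fderiv_apply_eq hd] at this
    exact this

/-- integral of an angular derivative -/
private theorem MVI_per {U : Set (ℝ × ℝ)} (hU : IsOpen U) {h k : ℝ × ℝ → ℝ}
    (hh : ContDiffOn ℝ 1 h U) (hk : ContDiffOn ℝ 1 k U) (q₀ : ℝ × ℝ) {r : ℝ}
    (hr : CDisc q₀ r ⊆ U) :
    ∫ θ in (0 : ℝ)..(2 * Real.pi),
      ((-Real.cos θ) * h (MVI_p q₀ r θ) + (-Real.sin θ) * k (MVI_p q₀ r θ) +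
        ((-Real.sin θ) * (-(r * Real.sin θ) * dx h (MVI_p q₀ r θ) +
          r * Real.cos θ * dy h (MVI_p q₀ r θ)) +
        Real.cos θ * (-(r * Real.sin θ) * dx k (MVI_p q₀ r θ) +
          r * Real.cos θ * dy k (MVI_p q₀ r θ)))) = 0 := by
  have hmem : ∀ θ, MVI_p q₀ r θ ∈ U := fun θ => hr (MVI_p_mem q₀ r θ)
  have hp : ∀ θ, HasDerivAt (fun θ : ℝ => MVI_p q₀ r θ) (-(r * Real.sin θ), r * Real.cos θ) θ := by
    intro θ
    have a1 : HasDerivAt (fun θ : ℝ => q₀.1 + r * Real.cos θ) (-(r * Real.sin θ)) θ := by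
      have := ((Real.hasDerivAt_cos θ).const_mul r).const_add q₀.1
      rw [show r * -Real.sin θ = -(r * Real.sin θ) by ring] at this
      exact this
    have a2 : HasDerivAt (fun θ : ℝ => q₀.2 + r * Real.sin θ) (r * Real.cos θ) θ :=
      ((Real.hasDerivAt_sin θ).const_mul r).const_add q₀.2
    exact a1.prodMk a2
  have hd : ∀ {g : ℝ × ℝ → ℝ}, ContDiffOn ℝ 1 g U → ∀ θ,
      HasDerivAt (fun θ => g (MVI_p q₀ r θ)) (-(r * Real.sin θ) * dx g (MVI_p q₀ r θ) +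
        r * Real.cos θ * dy g (MVI_p q₀ r θ)) θ := by
    intro g hg θ
    have hdg : DifferentiableAt ℝ g (MVI_p q₀ r θ) :=
      (hg.contDiffAt (hU.mem_nhds (hmem θ))).differentiableAt (by norm_num)
    have := hdg.hasFDerivAt.comp_hasDerivAt θ (hp θ)
    rw [fderiv_apply_eq hdg] at this
    exact this
  have hc : ∀ {g : ℝ × ℝ → ℝ}, ContinuousOn g U → Continuous fun θ => g (MVI_p q₀ r θ) :=
    fun hg => hg.comp_continuous (MVI_p_cont2 q₀ r) hmem
  have hder : ∀ θ, HasDerivAt (fun θ => (-Real.sin θ) * h (MVI_p q₀ r θ) +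
      Real.cos θ * k (MVI_p q₀ r θ))
      ((-Real.cos θ) * h (MVI_p q₀ r θ) + (-Real.sin θ) * k (MVI_p q₀ r θ) +
        ((-Real.sin θ) * (-(r * Real.sin θ) * dx h (MVI_p q₀ r θ) +
          r * Real.cos θ * dy h (MVI_p q₀ r θ)) +
        Real.cos θ * (-(r * Real.sin θ) * dx k (MVI_p q₀ r θ) +
          r * Real.cos θ * dy k (MVI_p q₀ r θ)))) θ := by
    intro θ
    have := ((Real.hasDerivAt_sin θ).neg.mul (hd hh θ)).add
      ((Real.hasDerivAt_cos θ).mul (hd hk θ))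
    refine this.congr_deriv ?_
    simp only [Pi.neg_apply]
    ring
  rw [intervalIntegral.integral_eq_sub_of_hasDerivAt (fun θ _ => hder θ)]
  · have e1 : MVI_p q₀ r (2 * Real.pi) = MVI_p q₀ r 0 := by simp [MVI_p]
    rw [e1]; simp
  · apply Continuous.intervalIntegrable
    have c1 := hc hh.continuousOn
    have c2 := hc hk.continuousOn
    have c3 := hc (cont_dx hU hh)
    have c4 := hc (cont_dy hU hh)
    have c5 := hc (cont_dx hU hk)
    have c6 := hc (cont_dy hU hk)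
    have cs := Real.continuous_sin
    have cc := Real.continuous_cos
    exact ((cc.neg.mul c1).add (cs.neg.mul c2)).add
      ((cs.neg.mul (((continuous_const.mul cs).neg.mul c3).add ((continuous_const.mul cc).mul c4))).add
      (cc.mul (((continuous_const.mul cs).neg.mul c5).add ((continuous_const.mul cc).mul c6))))

private noncomputable def MVI_F (f : ℝ × ℝ → ℝ) (q₀ : ℝ × ℝ) (r : ℝ) : ℝ :=
  ∫ θ in (0 : ℝ)..(2 * Real.pi), f (MVI_p q₀ r θ)

private noncomputable def MVI_H (f : ℝ × ℝ → ℝ) (q₀ : ℝ × ℝ) (r : ℝ) : ℝ :=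
  ∫ θ in (0 : ℝ)..(2 * Real.pi),
    (Real.cos θ * dx f (MVI_p q₀ r θ) + Real.sin θ * dy f (MVI_p q₀ r θ))

private theorem MVI_dx1 {D : Set (ℝ × ℝ)} (hD : IsOpen D) {g : ℝ × ℝ → ℝ}
    (hg : ContDiffOn ℝ 2 g D) : ContDiffOn ℝ 1 (dx g) D := by
  have := c_dx (n := 1) hD (f := g) (by exact_mod_cast hg)
  exact_mod_cast this

private theorem MVI_dy1 {D : Set (ℝ × ℝ)} (hD : IsOpen D) {g : ℝ × ℝ → ℝ}
    (hg : ContDiffOn ℝ 2 g D) : ContDiffOn ℝ 1 (dy g) D := by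
  have := c_dy (n := 1) hD (f := g) (by exact_mod_cast hg)
  exact_mod_cast this

private theorem MVI_F_deriv {U : Set (ℝ × ℝ)} (hU : IsOpen U) {f : ℝ × ℝ → ℝ}
    (hf : ContDiffOn ℝ 2 f U) (q₀ : ℝ × ℝ) {r₀ : ℝ} (hr : CDisc q₀ r₀ ⊆ U) :
    HasDerivAt (MVI_F f q₀) (MVI_H f q₀ r₀) r₀ := by
  have := MVI_deriv hU (hf.of_le (by norm_num)) q₀ hr (w := fun _ => 1) continuous_const
  simp only [one_mul] at this
  exact this

private theorem MVI_G_deriv {U : Set (ℝ × ℝ)} (hU : IsOpen U) {f : ℝ × ℝ → ℝ}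
    (hf : ContDiffOn ℝ 2 f U) (q₀ : ℝ × ℝ) {r₀ : ℝ} (hr : CDisc q₀ r₀ ⊆ U) :
    HasDerivAt (fun r => r * MVI_H f q₀ r)
      (r₀ * ∫ θ in (0 : ℝ)..(2 * Real.pi), lap f (MVI_p q₀ r₀ θ)) r₀ := by
  have hx := MVI_dx1 hU hf
  have hy := MVI_dy1 hU hf
  have h1 := MVI_deriv hU hx q₀ hr (w := Real.cos) Real.continuous_cos
  have h2 := MVI_deriv hU hy q₀ hr (w := Real.sin) Real.continuous_sin
  have hmem : ∀ θ, MVI_p q₀ r₀ θ ∈ U := fun θ => hr (MVI_p_mem q₀ r₀ θ)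
  have hc : ∀ {g : ℝ × ℝ → ℝ}, ContinuousOn g U → Continuous fun θ => g (MVI_p q₀ r₀ θ) :=
    fun hg => hg.comp_continuous (MVI_p_cont2 q₀ r₀) hmem
  have c1 := hc hx.continuousOn
  have c2 := hc hy.continuousOn
  have c3 := hc (cont_dx hU hx)
  have c4 := hc (cont_dy hU hx)
  have c5 := hc (cont_dx hU hy)
  have c6 := hc (cont_dy hU hy)
  have cs := Real.continuous_sin
  have cc := Real.continuous_cos
  have hH : HasDerivAt (MVI_H f q₀)
      ((∫ θ in (0 : ℝ)..(2 * Real.pi), Real.cos θ * (Real.cos θ * dx (dx f) (MVI_p q₀ r₀ θ) +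
        Real.sin θ * dy (dx f) (MVI_p q₀ r₀ θ))) +
      ∫ θ in (0 : ℝ)..(2 * Real.pi), Real.sin θ * (Real.cos θ * dx (dy f) (MVI_p q₀ r₀ θ) +
        Real.sin θ * dy (dy f) (MVI_p q₀ r₀ θ))) r₀ := by
    refine (h1.add h2).congr_of_eventuallyEq ?_
    -- near `r₀` the circles stay in `U`
    obtain ⟨δ, hδ, hδU⟩ := (MVI_cd_compact q₀ r₀).exists_cthickening_subset_open hU hr
    filter_upwards [Metric.ball_mem_nhds r₀ hδ] with r hr'
    rw [Metric.mem_ball, Real.dist_eq] at hr'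
    have hm : ∀ θ, MVI_p q₀ r θ ∈ U := by
      intro θ
      apply hδU
      apply Metric.mem_cthickening_of_dist_le (MVI_p q₀ r θ) (MVI_p q₀ r₀ θ) δ _
        (MVI_p_mem q₀ r₀ θ)
      rw [Prod.dist_eq]
      apply max_le
      · rw [Real.dist_eq]
        have : (MVI_p q₀ r θ).1 - (MVI_p q₀ r₀ θ).1 = (r - r₀) * Real.cos θ := by
          simp only [MVI_p]; ring
        rw [this, abs_mul]
        calc |r - r₀| * |Real.cos θ| ≤ |r - r₀| * 1 :=
              mul_le_mul_of_nonneg_left (Real.abs_cos_le_one θ) (abs_nonneg _)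
          _ ≤ δ := by linarith
      · rw [Real.dist_eq]
        have : (MVI_p q₀ r θ).2 - (MVI_p q₀ r₀ θ).2 = (r - r₀) * Real.sin θ := by
          simp only [MVI_p]; ring
        rw [this, abs_mul]
        calc |r - r₀| * |Real.sin θ| ≤ |r - r₀| * 1 :=
              mul_le_mul_of_nonneg_left (Real.abs_sin_le_one θ) (abs_nonneg _)
          _ ≤ δ := by linarith
    have d1 : Continuous fun θ => dx f (MVI_p q₀ r θ) :=
      hx.continuousOn.comp_continuous (MVI_p_cont2 q₀ r) hm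
    have d2 : Continuous fun θ => dy f (MVI_p q₀ r θ) :=
      hy.continuousOn.comp_continuous (MVI_p_cont2 q₀ r) hm
    have e := intervalIntegral.integral_add (a := 0) (b := 2 * Real.pi)
      (μ := MeasureTheory.volume) (f := fun θ => Real.cos θ * dx f (MVI_p q₀ r θ))
      (g := fun θ => Real.sin θ * dy f (MVI_p q₀ r θ)) ((cc.mul d1).intervalIntegrable _ _)
      ((cs.mul d2).intervalIntegrable _ _)
    exact e
  have hG := (hasDerivAt_id r₀).mul hH
  refine hG.congr_deriv ?_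
  have hper := MVI_per hU hx hy q₀ hr
  have e1 : (∫ θ in (0 : ℝ)..(2 * Real.pi), Real.cos θ * (Real.cos θ * dx (dx f) (MVI_p q₀ r₀ θ) +
        Real.sin θ * dy (dx f) (MVI_p q₀ r₀ θ))) +
      ∫ θ in (0 : ℝ)..(2 * Real.pi), Real.sin θ * (Real.cos θ * dx (dy f) (MVI_p q₀ r₀ θ) +
        Real.sin θ * dy (dy f) (MVI_p q₀ r₀ θ)) =
      ∫ θ in (0 : ℝ)..(2 * Real.pi), (Real.cos θ * (Real.cos θ * dx (dx f) (MVI_p q₀ r₀ θ) +
        Real.sin θ * dy (dx f) (MVI_p q₀ r₀ θ)) +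
        Real.sin θ * (Real.cos θ * dx (dy f) (MVI_p q₀ r₀ θ) +
        Real.sin θ * dy (dy f) (MVI_p q₀ r₀ θ))) := by
    rw [intervalIntegral.integral_add]
    · exact (cc.mul ((cc.mul c3).add (cs.mul c4))).intervalIntegrable _ _
    · exact (cs.mul ((cc.mul c5).add (cs.mul c6))).intervalIntegrable _ _
  rw [e1]
  simp only [id_eq, one_mul]
  rw [MVI_H, ← intervalIntegral.integral_const_mul, ← intervalIntegral.integral_const_mul,
    ← intervalIntegral.integral_add]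
  · rw [← sub_eq_zero, ← intervalIntegral.integral_sub, ← neg_eq_zero,
      ← intervalIntegral.integral_neg]
    · refine Eq.trans ?_ hper
      apply intervalIntegral.integral_congr
      intro θ _
      have hsc := Real.sin_sq_add_cos_sq θ
      simp only [lap]
      have hc2 : Real.cos θ ^ 2 = 1 - Real.sin θ ^ 2 := by linarith
      ring_nf
      rw [hc2]
      ring
    · exact (((cc.mul c1).add (cs.mul c2)).add (continuous_const.mul
        ((cc.mul ((cc.mul c3).add (cs.mul c4))).add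
        (cs.mul ((cc.mul c5).add (cs.mul c6)))))).intervalIntegrable _ _
    · exact (continuous_const.mul (c3.add c6)).intervalIntegrable _ _
  · exact ((cc.mul c1).add (cs.mul c2)).intervalIntegrable _ _
  · exact (continuous_const.mul
        ((cc.mul ((cc.mul c3).add (cs.mul c4))).add
        (cs.mul ((cc.mul c5).add (cs.mul c6))))).intervalIntegrable _ _

private theorem MVI_H_nonpos {U : Set (ℝ × ℝ)} (hU : IsOpen U) {f : ℝ × ℝ → ℝ}
    (hf : ContDiffOn ℝ 2 f U) {q₀ : ℝ × ℝ} {s : ℝ} (hs : 0 < s) (hB : CDisc q₀ s ⊆ U)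
    (hl : ∀ q ∈ CDisc q₀ s, lap f q ≤ 0) : MVI_H f q₀ s ≤ 0 := by
  have hsub : ∀ t ∈ Set.Icc 0 s, CDisc q₀ t ⊆ CDisc q₀ s := fun t ht =>
    MVI_cd_mono q₀ ht.1 ht.2
  have hanti : AntitoneOn (fun r => r * MVI_H f q₀ r) (Set.Icc 0 s) := by
    apply antitoneOn_of_deriv_nonpos (convex_Icc 0 s)
    · intro t ht
      exact (MVI_G_deriv hU hf q₀ ((hsub t ht).trans hB)).continuousAt.continuousWithinAt
    · intro t ht
      have ht' : t ∈ Set.Icc 0 s := interior_subset ht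
      exact (MVI_G_deriv hU hf q₀
        ((hsub t ht').trans hB)).differentiableAt.differentiableWithinAt
    · intro t ht
      have ht' : t ∈ Set.Icc 0 s := interior_subset ht
      rw [(MVI_G_deriv hU hf q₀ ((hsub t ht').trans hB)).deriv]
      apply mul_nonpos_of_nonneg_of_nonpos ht'.1
      have : 0 ≤ ∫ θ in (0 : ℝ)..(2 * Real.pi), -lap f (MVI_p q₀ t θ) := by
        apply intervalIntegral.integral_nonneg (by positivity)
        intro θ _
        have := hl _ (hsub t ht' (MVI_p_mem q₀ t θ))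
        linarith
      rw [intervalIntegral.integral_neg] at this
      linarith
  have h := hanti ⟨le_rfl, hs.le⟩ ⟨hs.le, le_rfl⟩ hs.le
  simp only [zero_mul] at h
  by_contra hcon
  push Not at hcon
  have := mul_pos hs hcon
  linarith

private theorem MVI_F_anti {U : Set (ℝ × ℝ)} (hU : IsOpen U) {f : ℝ × ℝ → ℝ}
    (hf : ContDiffOn ℝ 2 f U) {q₀ : ℝ × ℝ} {s : ℝ} (hB : CDisc q₀ s ⊆ U)
    (hl : ∀ q ∈ CDisc q₀ s, lap f q ≤ 0) : AntitoneOn (MVI_F f q₀) (Set.Icc 0 s) := by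
  have hsub : ∀ t ∈ Set.Icc 0 s, CDisc q₀ t ⊆ CDisc q₀ s := fun t ht =>
    MVI_cd_mono q₀ ht.1 ht.2
  apply antitoneOn_of_deriv_nonpos (convex_Icc 0 s)
  · intro t ht
    exact (MVI_F_deriv hU hf q₀ ((hsub t ht).trans hB)).continuousAt.continuousWithinAt
  · intro t ht
    have ht' : t ∈ Set.Icc 0 s := interior_subset ht
    exact (MVI_F_deriv hU hf q₀ ((hsub t ht').trans hB)).differentiableAt.differentiableWithinAt
  · intro t ht
    have ht' : t ∈ Set.Icc 0 s := interior_subset ht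
    rw [interior_Icc] at ht
    rw [(MVI_F_deriv hU hf q₀ ((hsub t ht').trans hB)).deriv]
    exact MVI_H_nonpos hU hf ht.1 ((hsub t ht').trans hB) fun q hq => hl q (hsub t ht' hq)

private theorem MVI_F_zero (f : ℝ × ℝ → ℝ) (q₀ : ℝ × ℝ) : MVI_F f q₀ 0 = 2 * Real.pi * f q₀ := by
  rw [MVI_F]
  have : ∀ θ, MVI_p q₀ 0 θ = q₀ := by intro θ; simp [MVI_p]
  simp only [this]
  rw [intervalIntegral.integral_const]
  simp

private theorem MVI_avg (f : ℝ × ℝ → ℝ) (q₀ : ℝ × ℝ) (r : ℝ) :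
    circAvg f q₀ r = (2 * Real.pi)⁻¹ * MVI_F f q₀ r := rfl

private theorem MVI_avg_zero (f : ℝ × ℝ → ℝ) (q₀ : ℝ × ℝ) : circAvg f q₀ 0 = f q₀ := by
  rw [MVI_avg, MVI_F_zero]
  have : (2 * Real.pi) ≠ 0 := by positivity
  field_simp

theorem circAvg_le {U : Set (ℝ × ℝ)} (hU : IsOpen U) {f : ℝ × ℝ → ℝ}
    (hf : ContDiffOn ℝ 2 f U) {q₀ : ℝ × ℝ} {r : ℝ} (hr : 0 ≤ r) (hB : CDisc q₀ r ⊆ U)
    (hl : ∀ q ∈ CDisc q₀ r, lap f q ≤ 0) : circAvg f q₀ r ≤ f q₀ := by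
  rw [← MVI_avg_zero f q₀, MVI_avg, MVI_avg]
  have h := MVI_F_anti hU hf hB hl ⟨le_rfl, hr⟩ ⟨hr, le_rfl⟩ hr
  exact mul_le_mul_of_nonneg_left h (by positivity)

theorem circAvg_anti {U : Set (ℝ × ℝ)} (hU : IsOpen U) {f : ℝ × ℝ → ℝ}
    (hf : ContDiffOn ℝ 2 f U) {q₀ : ℝ × ℝ} {r s : ℝ} (hr : 0 ≤ r) (hrs : r ≤ s)
    (hB : CDisc q₀ s ⊆ U)
    (hl : ∀ q ∈ CDisc q₀ s, lap f q ≤ 0) : circAvg f q₀ s ≤ circAvg f q₀ r := by
  rw [MVI_avg, MVI_avg]
  have h := MVI_F_anti hU hf hB hl ⟨hr, hrs⟩ ⟨hr.trans hrs, le_rfl⟩ hrs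
  exact mul_le_mul_of_nonneg_left h (by positivity)

theorem circAvg_eq {U : Set (ℝ × ℝ)} (hU : IsOpen U) {f : ℝ × ℝ → ℝ}
    (hf : ContDiffOn ℝ 2 f U) {q₀ : ℝ × ℝ} {r : ℝ} (hr : 0 ≤ r) (hB : CDisc q₀ r ⊆ U)
    (hl : ∀ q ∈ CDisc q₀ r, lap f q = 0) : circAvg f q₀ r = f q₀ := by
  apply le_antisymm (circAvg_le hU hf hr hB fun q hq => (hl q hq).le)
  have h := circAvg_le hU (f := fun z => -1 * f z) (contDiffOn_const.mul hf) hr hB
    (fun q hq => by rw [lap_const_mul hU (-1) hf (hB hq), hl q hq]; simp)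
  have e : circAvg (fun z => -1 * f z) q₀ r = -circAvg f q₀ r := by
    rw [circAvg, circAvg, intervalIntegral.integral_const_mul]
    ring
  rw [e] at h
  linarith

/-- integral over a disc in polar coordinates -/
theorem disc_polar {f : ℝ × ℝ → ℝ} {q₀ : ℝ × ℝ} {r : ℝ} (hr : 0 ≤ r)
    (hf : ContinuousOn f (CDisc q₀ r)) :
    ∫ q in Disc q₀ r, f q = ∫ s in (0 : ℝ)..r, 2 * Real.pi * s * circAvg f q₀ s := by
  have hpi := Real.pi_pos
  -- extend to a function which is measurable everywhere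
  have h1 : ∫ q in Disc q₀ r, f q
      = ∫ q, (Disc (0, 0) r).indicator (fun z => f (q₀.1 + z.1, q₀.2 + z.2)) q := by
    rw [← MeasureTheory.integral_indicator (MVI_d_open q₀ r).measurableSet,
      ← MeasureTheory.integral_add_left_eq_self (fun q => (Disc q₀ r).indicator f q) q₀]
    congr 1
    ext q
    by_cases hq : q ∈ Disc (0, 0) r
    · have hq' : q₀ + q ∈ Disc q₀ r := by
        have : (q.1 - 0) ^ 2 + (q.2 - 0) ^ 2 < r ^ 2 := hq
        show (q₀.1 + q.1 - q₀.1) ^ 2 + (q₀.2 + q.2 - q₀.2) ^ 2 < r ^ 2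
        ring_nf at this ⊢
        exact this
      rw [Set.indicator_of_mem hq, Set.indicator_of_mem hq']
      rfl
    · have hq' : q₀ + q ∉ Disc q₀ r := by
        intro h
        apply hq
        have h' : (q₀.1 + q.1 - q₀.1) ^ 2 + (q₀.2 + q.2 - q₀.2) ^ 2 < r ^ 2 := h
        show (q.1 - 0) ^ 2 + (q.2 - 0) ^ 2 < r ^ 2
        ring_nf at h' ⊢
        exact h'
      rw [Set.indicator_of_notMem hq, Set.indicator_of_notMem hq']
  rw [h1, ← integral_comp_polarCoord_symm]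
  have htar : polarCoord.target = Set.Ioi (0 : ℝ) ×ˢ Set.Ioo (-Real.pi) Real.pi := rfl
  -- rewrite the integrand
  have h2 : ∫ p in polarCoord.target, p.1 • (Disc (0, 0) r).indicator
      (fun z => f (q₀.1 + z.1, q₀.2 + z.2)) (polarCoord.symm p)
      = ∫ p in Set.Ioo (0 : ℝ) r ×ˢ Set.Ioo (-Real.pi) Real.pi, p.1 * f (MVI_p q₀ p.1 p.2) := by
    have hms : MeasurableSet (Set.Ioo (0 : ℝ) r ×ˢ Set.Ioo (-Real.pi) Real.pi) :=
      measurableSet_Ioo.prod measurableSet_Ioo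
    have hmt : MeasurableSet (Set.Ioi (0 : ℝ) ×ˢ Set.Ioo (-Real.pi) Real.pi) :=
      measurableSet_Ioi.prod measurableSet_Ioo
    rw [htar, ← MeasureTheory.integral_indicator hms, ← MeasureTheory.integral_indicator hmt]
    congr 1
    ext p
    by_cases hp : p ∈ Set.Ioi (0 : ℝ) ×ˢ Set.Ioo (-Real.pi) Real.pi
    · rw [Set.indicator_of_mem hp]
      have hp0 : (0 : ℝ) < p.1 := hp.1
      have hsym : polarCoord.symm p = (p.1 * Real.cos p.2, p.1 * Real.sin p.2) := rfl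
      have hsc := Real.sin_sq_add_cos_sq p.2
      have hval : (p.1 * Real.cos p.2 - 0) ^ 2 + (p.1 * Real.sin p.2 - 0) ^ 2 = p.1 ^ 2 := by
        have : (p.1 * Real.cos p.2 - 0) ^ 2 + (p.1 * Real.sin p.2 - 0) ^ 2
          = p.1 ^ 2 * (Real.sin p.2 ^ 2 + Real.cos p.2 ^ 2) := by ring
        rw [this, hsc, mul_one]
      by_cases hpr : p.1 < r
      · have hq : polarCoord.symm p ∈ Disc (0, 0) r := by
          rw [hsym]
          show (p.1 * Real.cos p.2 - 0) ^ 2 + (p.1 * Real.sin p.2 - 0) ^ 2 < r ^ 2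
          rw [hval]
          nlinarith
        have hp' : p ∈ Set.Ioo (0 : ℝ) r ×ˢ Set.Ioo (-Real.pi) Real.pi := ⟨⟨hp0, hpr⟩, hp.2⟩
        rw [Set.indicator_of_mem hq, Set.indicator_of_mem hp']
        rfl
      · have hq : polarCoord.symm p ∉ Disc (0, 0) r := by
          rw [hsym]
          intro h
          have h' : (p.1 * Real.cos p.2 - 0) ^ 2 + (p.1 * Real.sin p.2 - 0) ^ 2 < r ^ 2 := h
          rw [hval] at h'
          push Not at hpr
          nlinarith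
        have hp' : p ∉ Set.Ioo (0 : ℝ) r ×ˢ Set.Ioo (-Real.pi) Real.pi := fun h => hpr h.1.2
        rw [Set.indicator_of_notMem hq, Set.indicator_of_notMem hp']
        simp
    · rw [Set.indicator_of_notMem hp, Set.indicator_of_notMem]
      intro h
      exact hp ⟨h.1.1, h.2⟩
  rw [h2]
  -- Fubini
  have hcont : ContinuousOn (fun p : ℝ × ℝ => p.1 * f (MVI_p q₀ p.1 p.2))
      (Set.Icc 0 r ×ˢ Set.Icc (-Real.pi) Real.pi) := by
    apply continuousOn_fst.mul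
    apply hf.comp (MVI_p_cont q₀).continuousOn
    intro p hp
    exact MVI_cd_mono q₀ hp.1.1 hp.1.2 (MVI_p_mem q₀ p.1 p.2)
  have hint : MeasureTheory.IntegrableOn (fun p : ℝ × ℝ => p.1 * f (MVI_p q₀ p.1 p.2))
      (Set.Ioo 0 r ×ˢ Set.Ioo (-Real.pi) Real.pi) (MeasureTheory.volume.prod
        MeasureTheory.volume) := by
    have : MeasureTheory.IntegrableOn (fun p : ℝ × ℝ => p.1 * f (MVI_p q₀ p.1 p.2))
      (Set.Icc 0 r ×ˢ Set.Icc (-Real.pi) Real.pi) :=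
      hcont.integrableOn_compact (isCompact_Icc.prod isCompact_Icc)
    exact this.mono_set (Set.prod_mono Set.Ioo_subset_Icc_self Set.Ioo_subset_Icc_self)
  have h3 := MeasureTheory.setIntegral_prod (μ := (MeasureTheory.volume : MeasureTheory.Measure ℝ))
    (ν := (MeasureTheory.volume : MeasureTheory.Measure ℝ))
    (fun p : ℝ × ℝ => p.1 * f (MVI_p q₀ p.1 p.2)) hint
  have h3' : ∫ p in Set.Ioo (0 : ℝ) r ×ˢ Set.Ioo (-Real.pi) Real.pi, p.1 * f (MVI_p q₀ p.1 p.2)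
      = ∫ s in Set.Ioo (0 : ℝ) r, ∫ θ in Set.Ioo (-Real.pi) Real.pi, s * f (MVI_p q₀ s θ) := h3
  rw [h3', intervalIntegral.integral_of_le hr, MeasureTheory.integral_Ioc_eq_integral_Ioo]
  apply MeasureTheory.setIntegral_congr_fun measurableSet_Ioo
  intro s _
  have h4 : ∫ θ in Set.Ioo (-Real.pi) Real.pi, s * f (MVI_p q₀ s θ)
      = ∫ θ in (-Real.pi)..Real.pi, s * f (MVI_p q₀ s θ) := by
    rw [intervalIntegral.integral_of_le (by linarith), MeasureTheory.integral_Ioc_eq_integral_Ioo]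
  have hper : Function.Periodic (fun θ => s * f (MVI_p q₀ s θ)) (2 * Real.pi) := by
    intro θ
    show s * f (MVI_p q₀ s (θ + 2 * Real.pi)) = s * f (MVI_p q₀ s θ)
    have : MVI_p q₀ s (θ + 2 * Real.pi) = MVI_p q₀ s θ := by
      simp [MVI_p]
    rw [this]
  have h5 := hper.intervalIntegral_add_eq (-Real.pi) 0
  have e1 : -Real.pi + 2 * Real.pi = Real.pi := by ring
  have e2 : 0 + 2 * Real.pi = 2 * Real.pi := by ring
  rw [e1, e2] at h5
  show ∫ θ in Set.Ioo (-Real.pi) Real.pi, s * f (MVI_p q₀ s θ) = 2 * Real.pi * s * circAvg f q₀ s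
  rw [h4, h5, intervalIntegral.integral_const_mul, MVI_avg, MVI_F]
  field_simp

theorem disc_le {U : Set (ℝ × ℝ)} (hU : IsOpen U) {f : ℝ × ℝ → ℝ}
    (hf : ContDiffOn ℝ 2 f U) {q₀ : ℝ × ℝ} {r : ℝ} (hr : 0 ≤ r) (hB : CDisc q₀ r ⊆ U)
    (hl : ∀ q ∈ CDisc q₀ r, lap f q ≤ 0) :
    ∫ q in Disc q₀ r, f q ≤ Real.pi * r ^ 2 * f q₀ := by
  rw [disc_polar hr (hf.continuousOn.mono hB)]
  have hpi := Real.pi_pos
  have hsub : ∀ t ∈ Set.Icc 0 r, CDisc q₀ t ⊆ CDisc q₀ r := fun t ht =>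
    MVI_cd_mono q₀ ht.1 ht.2
  have hcF : ContinuousOn (fun s => 2 * Real.pi * s * circAvg f q₀ s) (Set.Icc 0 r) := by
    apply (continuousOn_const.mul continuousOn_id).mul
    have : (circAvg f q₀) = fun s => (2 * Real.pi)⁻¹ * MVI_F f q₀ s := rfl
    rw [this]
    apply continuousOn_const.mul
    intro t ht
    exact (MVI_F_deriv hU hf q₀ ((hsub t ht).trans hB)).continuousAt.continuousWithinAt
  have h1 : ∫ s in (0 : ℝ)..r, 2 * Real.pi * s * circAvg f q₀ s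
      ≤ ∫ s in (0 : ℝ)..r, 2 * Real.pi * s * f q₀ := by
    apply intervalIntegral.integral_mono_on hr
    · apply ContinuousOn.intervalIntegrable
      rw [Set.uIcc_of_le hr]
      exact hcF
    · exact Continuous.intervalIntegrable (by fun_prop) _ _
    · intro s hs
      apply mul_le_mul_of_nonneg_left _ (by have := hs.1; positivity)
      exact circAvg_le hU hf hs.1 ((hsub s hs).trans hB) fun q hq => hl q (hsub s hs hq)
  refine h1.trans (le_of_eq ?_)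
  have h2 : ∫ s in (0 : ℝ)..r, 2 * Real.pi * s * f q₀
      = 2 * Real.pi * f q₀ * ∫ s in (0 : ℝ)..r, s := by
    rw [← intervalIntegral.integral_const_mul]
    congr 1; ext s; ring
  rw [h2, integral_id]
  ring

/-- harmonic functions against radial weights -/
theorem disc_radial {U : Set (ℝ × ℝ)} (hU : IsOpen U) {f : ℝ × ℝ → ℝ}
    (hf : ContDiffOn ℝ 2 f U) {q₀ : ℝ × ℝ} {r : ℝ} (hr : 0 ≤ r) (hB : CDisc q₀ r ⊆ U)
    (hl : ∀ q ∈ CDisc q₀ r, lap f q = 0) {R : ℝ → ℝ} (hR : Continuous R) :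
    ∫ q in Disc q₀ r, R ((q.1 - q₀.1) ^ 2 + (q.2 - q₀.2) ^ 2) * f q
      = f q₀ * ∫ q in Disc q₀ r, R ((q.1 - q₀.1) ^ 2 + (q.2 - q₀.2) ^ 2) := by
  have hRc : Continuous fun q : ℝ × ℝ => R ((q.1 - q₀.1) ^ 2 + (q.2 - q₀.2) ^ 2) := by
    fun_prop
  have hval : ∀ s θ : ℝ, (q₀.1 + s * Real.cos θ - q₀.1) ^ 2 + (q₀.2 + s * Real.sin θ - q₀.2) ^ 2
      = s ^ 2 := by
    intro s θ
    have : (q₀.1 + s * Real.cos θ - q₀.1) ^ 2 + (q₀.2 + s * Real.sin θ - q₀.2) ^ 2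
      = s ^ 2 * (Real.sin θ ^ 2 + Real.cos θ ^ 2) := by ring
    rw [this, Real.sin_sq_add_cos_sq, mul_one]
  have hpi := Real.pi_pos
  have e1 : ∀ s ∈ Set.uIcc 0 r, 2 * Real.pi * s * circAvg
      (fun q => R ((q.1 - q₀.1) ^ 2 + (q.2 - q₀.2) ^ 2) * f q) q₀ s
      = 2 * Real.pi * s * (R (s ^ 2) * f q₀) := by
    intro s hs
    rw [Set.uIcc_of_le hr] at hs
    have hsub : CDisc q₀ s ⊆ CDisc q₀ r := MVI_cd_mono q₀ hs.1 hs.2
    rw [← circAvg_eq hU hf hs.1 (hsub.trans hB) fun q hq => hl q (hsub hq), circAvg, circAvg]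
    simp only [hval]
    rw [intervalIntegral.integral_const_mul]
    ring
  have e2 : ∀ s, 2 * Real.pi * s * circAvg
      (fun q => R ((q.1 - q₀.1) ^ 2 + (q.2 - q₀.2) ^ 2)) q₀ s
      = 2 * Real.pi * s * R (s ^ 2) := by
    intro s
    rw [circAvg]
    simp only [hval]
    rw [intervalIntegral.integral_const]
    simp only [sub_zero, smul_eq_mul]
    field_simp
  rw [disc_polar (f := fun q => R ((q.1 - q₀.1) ^ 2 + (q.2 - q₀.2) ^ 2) * f q) hr
      (hRc.continuousOn.mul (hf.continuousOn.mono hB)),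
    disc_polar hr hRc.continuousOn, intervalIntegral.integral_congr e1]
  simp only [e2]
  rw [← intervalIntegral.integral_const_mul]
  congr 1; ext s; ring

/-- strong minimum principle for superharmonic functions -/
theorem smp {U : Set (ℝ × ℝ)} (hU : IsOpen U) (hc : IsPreconnected U) {f : ℝ × ℝ → ℝ}
    (hf : ContDiffOn ℝ 2 f U) (h0 : ∀ q ∈ U, 0 ≤ f q) (hl : ∀ q ∈ U, lap f q ≤ 0)
    {q₀ : ℝ × ℝ} (hq₀ : q₀ ∈ U) (hz : f q₀ = 0) : ∀ q ∈ U, f q = 0 := by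
  set Z : Set (ℝ × ℝ) := {q | q ∈ U ∧ f q = 0} with hZ
  have hfc : ContinuousOn f U := hf.continuousOn
  have hZo : IsOpen Z := by
    rw [isOpen_iff_mem_nhds]
    intro q hq
    obtain ⟨ε, hε, hεU⟩ := Metric.isOpen_iff.mp hU q hq.1
    have hsub : CDisc q (ε / 2) ⊆ U := by
      intro z hz'
      apply hεU
      have hz'' : (z.1 - q.1) ^ 2 + (z.2 - q.2) ^ 2 ≤ (ε / 2) ^ 2 := hz'
      rw [Metric.mem_ball, Prod.dist_eq, Real.dist_eq, Real.dist_eq]
      have h1 : |z.1 - q.1| ≤ ε / 2 := by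
        apply abs_le_of_sq_le_sq (by nlinarith [sq_nonneg (z.2 - q.2)]) (by linarith)
      have h2 : |z.2 - q.2| ≤ ε / 2 := by
        apply abs_le_of_sq_le_sq (by nlinarith [sq_nonneg (z.1 - q.1)]) (by linarith)
      exact max_lt (by linarith) (by linarith)
    have hdisc := disc_le hU hf (q₀ := q) (r := ε / 2) (by linarith) hsub
      fun z hz' => hl z (hsub hz')
    rw [hq.2, mul_zero] at hdisc
    have hint : MeasureTheory.IntegrableOn f (Disc q (ε / 2)) :=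
      ((hfc.mono hsub).integrableOn_compact (MVI_cd_compact q (ε / 2))).mono_set
        (MVI_d_sub q (ε / 2))
    have hae : ∀ᵐ z ∂(MeasureTheory.volume.restrict (Disc q (ε / 2))), 0 ≤ f z := by
      refine (MeasureTheory.ae_restrict_iff' (MVI_d_open q (ε / 2)).measurableSet).mpr
        (Filter.Eventually.of_forall fun z hz' => h0 z (hsub (MVI_d_sub _ _ hz')))
    have hzero : ∫ z in Disc q (ε / 2), f z = 0 :=
      le_antisymm hdisc (MeasureTheory.integral_nonneg_of_ae hae)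
    have hae0 : f =ᵐ[MeasureTheory.volume.restrict (Disc q (ε / 2))] 0 :=
      (MeasureTheory.integral_eq_zero_iff_of_nonneg_ae hae hint).mp hzero
    have heq : Set.EqOn f 0 (Disc q (ε / 2)) :=
      MeasureTheory.Measure.eqOn_open_of_ae_eq hae0 (MVI_d_open q (ε / 2))
        (hfc.mono ((MVI_d_sub _ _).trans hsub)) continuousOn_const
    have hqd : q ∈ Disc q (ε / 2) := by
      show (q.1 - q.1) ^ 2 + (q.2 - q.2) ^ 2 < (ε / 2) ^ 2
      have : (0 : ℝ) < (ε / 2) ^ 2 := by positivity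
      simpa using this
    refine Filter.mem_of_superset ((MVI_d_open q (ε / 2)).mem_nhds hqd) ?_
    intro z hz'
    exact ⟨hsub (MVI_d_sub _ _ hz'), heq hz'⟩
  have hsubset : U ⊆ Z := by
    apply hc.subset_of_closure_inter_subset hZo ⟨q₀, hq₀, hq₀, hz⟩
    rintro q ⟨hq1, hq2⟩
    refine ⟨hq2, ?_⟩
    -- `f` is continuous at `q` and vanishes on `Z`
    have hca : ContinuousAt f q := hfc.continuousAt (hU.mem_nhds hq2)
    by_contra hne
    have hev : ∀ᶠ z in nhds q, f z ≠ 0 := hca.eventually_ne hne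
    obtain ⟨z, hz1, hz2⟩ := mem_closure_iff_nhds.mp hq1 _ hev
    exact hz1 hz2.2
  exact fun q hq => (hsubset hq).2

end Pool.Agent.MFE
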