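import Pool.Agent.MFE.NOD
import Pool.Agent.MFE.MVI
import Pool.Agent.MFE.WMP

/-!
# MFE.GNNA: moving planes (Gidas-Ni-Nirenberg, in the form of Berestycki-Nirenberg)

`D` open, bounded, convex, symmetric under `(x,y) ↦ (-x,y)`; `v` continuous on the plane, zero
outside `D`, `C²` in `D`, `-lap v = μ e^v`, `μ > 0`.
(0) `v > 0` in `D`: `-lap v > 0`; `wmp_bdd` (for `-v`) gives `v ≥ 0`, `smp` gives `v > 0`
(if `v(q₀) = 0` then `v = 0` in `D` and `lap v = 0`, contradiction).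
(1) For `l > 0` let `Σ_l = {q ∈ D : q.1 > l}` (convex, open), `w_l(q) = v(2l - x, y) - v(x,y)`.
For `q ∈ Σ_l` the reflected point is in `D` (convexity and symmetry: `-x < 2l - x < x`).
`-lap w_l = c w_l`, `c = μ ∫_0^1 exp(s v(q') + (1-s) v(q)) ds`, `0 < c ≤ C := μ e^{max v}`.
`{q ∈ Σ_l : w_l ≤ -ε}` is compact: on the closure of `Σ_l`, `w_l = 0` on `x = l`, and
`w_l = v(q') ≥ 0` on the boundary of `D`.
Hence (`nodal_area`, applied to `ψ = -w_l` on `N = {w_l < 0}`, no connectedness is needed) either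
`w_l ≥ 0` on `Σ_l` or `|{q ∈ Σ_l : w_l < 0}| ≥ A`.
(2) `w_l ≥ 0` when `|Σ_l| < A`, in particular for `l` close to `R := sup {x}`.
(3) `l₀` := infimum of the `l' > 0` such that `w_l ≥ 0` on `Σ_l` for all `l ∈ [l', R)`. Suppose
`l₀ > 0`. By continuity `w_{l₀} ≥ 0` on `Σ_{l₀}`, superharmonic there, and not identically zero
(near a point of the boundary of `D` with `x > l₀` it is close to `v(q') > 0`: `q' ∈ D` because
`q'` is strictly between the boundary points `(-x,y)` and `(x,y)`, the origin-symmetric segment;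
use an interior point: `D` contains a ball around some point of the axis of symmetry, so open
segments from boundary points lie in `D`; if you prefer use that `Σ_{l₀}` is non-empty, pick
`(x,y) ∈ D` with `x > l₀` and move right until the boundary). So `w_{l₀} > 0` on `Σ_{l₀}` by
`smp`. Choose a compact `K ⊆ Σ_{l₀}` with `|Σ_{l₀} \ K| < A/2`; `w_{l₀} ≥ δ > 0` on `K`; for `l < l₀`
close to `l₀`: `w_l > 0` on `K` (uniform continuity of `v`) and `|Σ_l \ K| < A`, so `w_l ≥ 0` by (1).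
Contradiction; `l₀ = 0`.
(4) `l → 0`: `v(-x,y) ≥ v(x,y)` for `x > 0`; apply everything to `v(-x,y)`: `EvX v`. For
`0 ≤ x₁ < x₂`: `w_l(x₂,y) ≥ 0` with `l = (x₁+x₂)/2`: `v(x₁,y) ≥ v(x₂,y)`, so `dx v ≤ 0` on
`D ∩ {x > 0}`. `-dx v ≥ 0` satisfies `-lap (-dx v) = μ e^v (-dx v) ≥ 0` (`lap_dx`), so by `smp` it
is positive or identically zero on the convex set `D ∩ {x > 0}`; in the second case `v` is constant
along horizontal lines up to the boundary of `D` where it vanishes: contradiction to (0).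
-/

open scoped ContDiff

namespace Pool.Agent.MFE

/-- no small negativity sets -/
theorem mp_small {C : ℝ} : ∃ A : ℝ, 0 < A ∧ ∀ (S : Set (ℝ × ℝ)) (w c : ℝ × ℝ → ℝ),
    IsOpen S → Bornology.IsBounded S → ContDiffOn ℝ 2 w S → (∀ q ∈ S, 0 ≤ c q ∧ c q ≤ C) →
    (∀ q ∈ S, -lap w q = c q * w q) →
    (∀ ε : ℝ, 0 < ε → IsClosed {q | q ∈ S ∧ w q ≤ -ε}) →
    (MeasureTheory.volume {q | q ∈ S ∧ w q < 0}).toReal < A → ∀ q ∈ S, 0 ≤ w q := by
  obtain ⟨A, hA, h⟩ := nodal_area C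
  refine ⟨A, hA, ?_⟩
  intro S w c hS hb hw hc heq hcl hvol q hq
  by_contra hneg
  push Not at hneg
  obtain ⟨R, hR⟩ := hb.subset_closedBall (0 : ℝ × ℝ)
  have hNo : IsOpen {q | q ∈ S ∧ w q < 0} :=
    hw.continuousOn.isOpen_inter_preimage hS isOpen_Iio
  have hsub : {q | q ∈ S ∧ w q < 0} ⊆ S := fun z hz => hz.1
  have hstr : {q | q ∈ S ∧ w q < 0} ⊆ Str (R + 1) := by
    rintro z ⟨hz, -⟩
    have h1 := hR hz
    rw [Metric.mem_closedBall, dist_zero_right, Prod.norm_def] at h1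
    have h2 : |z.2| ≤ R := le_trans (le_max_right _ _) h1
    show |z.2| < R + 1
    linarith
  have := h {q | q ∈ S ∧ w q < 0} (fun z => -1 * w z) c (R + 1) hNo ⟨q, hq, hneg⟩ hstr
    (hb.subset hsub) (contDiffOn_const.mul (hw.mono hsub))
    (fun z hz => by have := hz.2; show 0 < -1 * w z; linarith)
    (fun z hz => hc z hz.1)
    (fun z hz => by
      rw [lap_const_mul hS (-1) hw hz.1]
      have := heq z hz.1
      nlinarith)
    (fun ε hε => by
      have e : {q | q ∈ {q | q ∈ S ∧ w q < 0} ∧ ε ≤ -1 * w q} = {q | q ∈ S ∧ w q ≤ -ε} := by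
        ext z
        constructor
        · rintro ⟨⟨h1, h2⟩, h3⟩
          exact ⟨h1, by linarith⟩
        · rintro ⟨h1, h2⟩
          exact ⟨⟨h1, by linarith⟩, by linarith⟩
      rw [e]
      exact hcl ε hε)
  linarith

theorem mp_pos {D : Set (ℝ × ℝ)} (hD : IsOpen D) (hb : Bornology.IsBounded D)
    (hcv : Convex ℝ D) {v : ℝ × ℝ → ℝ} {μ : ℝ} (hμ : 0 < μ) (hc : Continuous v)
    (h0 : ∀ q, q ∉ D → v q = 0) (hv : ContDiffOn ℝ 2 v D)
    (heq : ∀ q ∈ D, -lap v q = μ * Real.exp (v q)) : ∀ q ∈ D, 0 < v q := by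
  have hlap : ∀ q ∈ D, lap v q < 0 := fun q hq => by
    have h1 := heq q hq
    have h2 := mul_pos hμ (Real.exp_pos (v q))
    linarith
  have hconst : ∀ (c : ℝ) (q : ℝ × ℝ), lap (fun _ => c) q = 0 := fun c q => by
    have h := lap_fst (q := q) (fun _ : ℝ => c) contDiff_const
    rw [h]
    simp
  have hnn : ∀ q ∈ D, 0 ≤ v q := by
    have := wmp_bdd hD hb (u := fun z => -1 * v z) (b := fun _ => 0)
      (contDiffOn_const.mul hv) contDiffOn_const
      ((continuous_const.mul hc).continuousOn) continuousOn_const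
      (fun q hq => by
        rw [lap_const_mul hD (-1) hv hq, hconst]
        have := hlap q hq
        linarith)
      (fun q hq => by
        have hq' : q ∉ D := fun hh => by
          have := hD.frontier_eq ▸ hq
          exact this.2 hh
        simp only [h0 q hq', mul_zero, le_refl])
    intro q hq
    have h1 : -1 * v q ≤ 0 := this q (subset_closure hq)
    linarith
  intro q hq
  rcases (hnn q hq).lt_or_eq with h | h
  · exact h
  · exfalso
    have hz := smp hD hcv.isPreconnected hv hnn (fun z hz => (hlap z hz).le) hq h.symm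
    have h1 := lap_congr (f := v) (g := fun _ => 0) hD hz hq
    rw [hconst] at h1
    have := hlap q hq
    linarith

private theorem GNNA_nonneg {D : Set (ℝ × ℝ)} (hD : IsOpen D) (hb : Bornology.IsBounded D)
    (hcv : Convex ℝ D) {v : ℝ × ℝ → ℝ} {μ : ℝ} (hμ : 0 < μ) (hc : Continuous v)
    (h0 : ∀ q, q ∉ D → v q = 0) (hv : ContDiffOn ℝ 2 v D)
    (heq : ∀ q ∈ D, -lap v q = μ * Real.exp (v q)) (q : ℝ × ℝ) : 0 ≤ v q := by
  by_cases hq : q ∈ D
  · exact (mp_pos hD hb hcv hμ hc h0 hv heq q hq).le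
  · rw [h0 q hq]

private theorem GNNA_bdd {D : Set (ℝ × ℝ)} (hb : Bornology.IsBounded D)
    {v : ℝ × ℝ → ℝ} (hc : Continuous v)
    (h0 : ∀ q, q ∉ D → v q = 0) : ∃ M, ∀ q, v q ≤ M := by
  have hK : IsCompact (closure D) := hb.isCompact_closure
  obtain ⟨M, hM⟩ := (hK.image hc).bddAbove
  refine ⟨max M 0, fun q => ?_⟩
  by_cases hq : q ∈ D
  · exact le_trans (hM ⟨q, subset_closure hq, rfl⟩) (le_max_left _ _)
  · rw [h0 q hq]
    exact le_max_right _ _

private theorem GNNA_slope {a b M : ℝ} (hab : a ≠ b) (ha : a ≤ M) (hb : b ≤ M) :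
    0 ≤ (Real.exp a - Real.exp b) / (a - b) ∧
      (Real.exp a - Real.exp b) / (a - b) ≤ Real.exp M := by
  have key : ∀ {x y : ℝ}, y < x → x ≤ M → 0 ≤ (Real.exp x - Real.exp y) / (x - y) ∧
      (Real.exp x - Real.exp y) / (x - y) ≤ Real.exp M := by
    intro x y hxy hx
    have hp : 0 < x - y := by linarith
    have h1 : Real.exp y ≤ Real.exp x := Real.exp_le_exp.2 hxy.le
    refine ⟨div_nonneg (by linarith) hp.le, ?_⟩
    rw [div_le_iff₀ hp]
    have h2 : y - x + 1 ≤ Real.exp (y - x) := Real.add_one_le_exp _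
    have h3 : Real.exp y = Real.exp x * Real.exp (y - x) := by
      rw [← Real.exp_add]; congr 1; ring
    have h4 : Real.exp x ≤ Real.exp M := Real.exp_le_exp.2 hx
    have h5 := Real.exp_pos x
    nlinarith
  rcases lt_or_gt_of_ne hab with h | h
  · have := key h hb
    have e : (Real.exp a - Real.exp b) / (a - b) = (Real.exp b - Real.exp a) / (b - a) := by
      rw [← neg_sub (Real.exp b), ← neg_sub b, neg_div_neg_eq]
    rw [e]
    exact this
  · exact key h ha

private theorem GNNA_conv {D : Set (ℝ × ℝ)} (hcv : Convex ℝ D) {a b x y : ℝ}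
    (ha : (a, y) ∈ D) (hb : (b, y) ∈ D) (h1 : a ≤ x) (h2 : x ≤ b) : (x, y) ∈ D := by
  rcases h1.eq_or_lt with h | h
  · rw [← h]; exact ha
  have hab : 0 < b - a := by linarith
  have := hcv ha hb (a := (b - x) / (b - a)) (b := (x - a) / (b - a))
    (div_nonneg (by linarith) hab.le) (div_nonneg (by linarith) hab.le)
    (by rw [← add_div]; rw [div_eq_one_iff_eq hab.ne']; ring)
  have e : ((b - x) / (b - a)) • ((a, y) : ℝ × ℝ) + ((x - a) / (b - a)) • ((b, y) : ℝ × ℝ)
      = (x, y) := by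
    ext
    · simp only [Prod.smul_mk, smul_eq_mul, Prod.mk_add_mk]
      field_simp
      ring
    · simp only [Prod.smul_mk, smul_eq_mul, Prod.mk_add_mk]
      field_simp
      ring
  rwa [e] at this

/-- the right end of a horizontal section -/
private theorem GNNA_right {D : Set (ℝ × ℝ)} (hD : IsOpen D) (hb : Bornology.IsBounded D)
    (hcv : Convex ℝ D) {x₀ y : ℝ} (h : (x₀, y) ∈ D) :
    ∃ x₁, x₀ < x₁ ∧ (x₁, y) ∉ D ∧ ∀ x, x₀ ≤ x → x < x₁ → (x, y) ∈ D := by
  obtain ⟨R, hR⟩ := hb.subset_closedBall (0 : ℝ × ℝ)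
  have hbd : BddAbove {x | (x, y) ∈ D} := by
    refine ⟨R, fun x hx => ?_⟩
    have h1 := hR hx
    rw [Metric.mem_closedBall, dist_zero_right, Prod.norm_def] at h1
    have h2 : |x| ≤ R := le_trans (le_max_left _ _) h1
    exact (abs_le.1 h2).2
  have hne : ({x | (x, y) ∈ D} : Set ℝ).Nonempty := ⟨x₀, h⟩
  have hcont : Continuous (fun x : ℝ => ((x, y) : ℝ × ℝ)) := by fun_prop
  have hopen : IsOpen {x | (x, y) ∈ D} := hD.preimage hcont
  have hnot : ∀ z, z ∈ {x | (x, y) ∈ D} → z < sSup {x | (x, y) ∈ D} := by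
    intro z hz
    obtain ⟨ε, hε, hball⟩ := Metric.isOpen_iff.1 hopen z hz
    have h1 : z + ε / 2 ∈ {x | (x, y) ∈ D} := hball (by
      rw [Metric.mem_ball, Real.dist_eq]
      rw [show z + ε / 2 - z = ε / 2 by ring, abs_of_pos (by linarith)]
      linarith)
    have := le_csSup hbd h1
    linarith
  refine ⟨sSup {x | (x, y) ∈ D}, hnot x₀ h, fun hh => lt_irrefl _ (hnot _ hh), ?_⟩
  intro x hx hlt
  obtain ⟨z, hz, hxz⟩ := exists_lt_of_lt_csSup hne hlt
  exact GNNA_conv hcv h hz hx hxz.le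

section plane

variable {D : Set (ℝ × ℝ)} {v : ℝ × ℝ → ℝ} {μ : ℝ}

private def GNNA_S (D : Set (ℝ × ℝ)) (l : ℝ) : Set (ℝ × ℝ) := {q | q ∈ D ∧ l < q.1}

private noncomputable def GNNA_w (v : ℝ × ℝ → ℝ) (l : ℝ) (q : ℝ × ℝ) : ℝ :=
  v (2 * l + (-1) * q.1, 0 + 1 * q.2) - v q

private theorem GNNA_refl (hcv : Convex ℝ D) (hs : ∀ x y : ℝ, (x, y) ∈ D → (-x, y) ∈ D)
    {l : ℝ} (hl : 0 < l) {q : ℝ × ℝ} (hq : q ∈ GNNA_S D l) :
    (2 * l + (-1) * q.1, 0 + 1 * q.2) ∈ D := by
  obtain ⟨h1, h2⟩ := hq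
  have h3 : (q.1, q.2) ∈ D := h1
  have e : (0 : ℝ) + 1 * q.2 = q.2 := by ring
  rw [e]
  exact GNNA_conv hcv (hs _ _ h3) h3 (by linarith) (by linarith)

private theorem GNNA_S_open (hD : IsOpen D) (l : ℝ) : IsOpen (GNNA_S D l) :=
  hD.inter (isOpen_lt continuous_const continuous_fst)

private theorem GNNA_S_sub (l : ℝ) : GNNA_S D l ⊆ D := fun _ h => h.1

private theorem GNNA_w_cont (hc : Continuous v) : Continuous (fun p : ℝ × (ℝ × ℝ) =>
    GNNA_w v p.1 p.2) := by
  unfold GNNA_w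
  fun_prop

private theorem GNNA_w_smooth (hcv : Convex ℝ D)
    (hs : ∀ x y : ℝ, (x, y) ∈ D → (-x, y) ∈ D) (hv : ContDiffOn ℝ 2 v D) {l : ℝ} (hl : 0 < l) :
    ContDiffOn ℝ 2 (fun q : ℝ × ℝ => v (2 * l + (-1) * q.1, 0 + 1 * q.2)) (GNNA_S D l) := by
  have h1 : ContDiff ℝ 2 (fun q : ℝ × ℝ => ((2 * l + (-1) * q.1, 0 + 1 * q.2) : ℝ × ℝ)) := by
    fun_prop
  exact hv.comp h1.contDiffOn (fun q hq => GNNA_refl hcv hs hl hq)

private theorem GNNA_w_lap (hD : IsOpen D) (hcv : Convex ℝ D)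
    (hs : ∀ x y : ℝ, (x, y) ∈ D → (-x, y) ∈ D) (hv : ContDiffOn ℝ 2 v D)
    (heq : ∀ q ∈ D, -lap v q = μ * Real.exp (v q)) {l : ℝ} (hl : 0 < l) {q : ℝ × ℝ}
    (hq : q ∈ GNNA_S D l) : -lap (GNNA_w v l) q =
      μ * (Real.exp (v (2 * l + (-1) * q.1, 0 + 1 * q.2)) - Real.exp (v q)) := by
  have h1 := lap_sub (f := fun q : ℝ × ℝ => v (2 * l + (-1) * q.1, 0 + 1 * q.2)) (g := v)
    (GNNA_S_open hD l) (GNNA_w_smooth hcv hs hv hl) (hv.mono (GNNA_S_sub l)) hq
  have h2 := lap_aff (f := v) (2 * l) 0 (ε₁ := -1) (ε₂ := 1) (by norm_num) (by norm_num) hD hv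
    (GNNA_refl hcv hs hl hq)
  have h3 := heq _ (GNNA_refl hcv hs hl hq)
  have h4 := heq q hq.1
  have h5 : lap (GNNA_w v l) q = lap (fun z => (fun q : ℝ × ℝ =>
    v (2 * l + (-1) * q.1, 0 + 1 * q.2)) z - v z) q := rfl
  rw [h5, h1, h2]
  linarith

/-- the negativity sets are closed -/
private theorem GNNA_closed (hc : Continuous v) (hnn : ∀ q, 0 ≤ v q)
    (h0 : ∀ q, q ∉ D → v q = 0) (l : ℝ) {ε : ℝ} (hε : 0 < ε) :
    IsClosed {q | q ∈ GNNA_S D l ∧ GNNA_w v l q ≤ -ε} := by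
  have e : {q | q ∈ GNNA_S D l ∧ GNNA_w v l q ≤ -ε} = {q | l ≤ q.1 ∧ GNNA_w v l q ≤ -ε} := by
    ext q
    constructor
    · rintro ⟨h1, h2⟩
      exact ⟨h1.2.le, h2⟩
    · rintro ⟨h1, h2⟩
      refine ⟨⟨?_, ?_⟩, h2⟩
      · by_contra hq
        unfold GNNA_w at h2
        rw [h0 q hq] at h2
        have := hnn (2 * l + (-1) * q.1, 0 + 1 * q.2)
        linarith
      · rcases h1.lt_or_eq with h | h
        · exact h
        · exfalso
          unfold GNNA_w at h2
          have e2 : ((2 * l + (-1) * q.1, 0 + 1 * q.2) : ℝ × ℝ) = q := by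
            ext
            · simp only; linarith
            · simp only; ring
          rw [e2] at h2
          linarith
  rw [e]
  refine (isClosed_le continuous_const continuous_fst).inter ?_
  have : Continuous (GNNA_w v l) := (GNNA_w_cont hc).comp (by fun_prop : Continuous
    (fun q : ℝ × ℝ => ((l, q) : ℝ × (ℝ × ℝ))))
  exact isClosed_le this continuous_const

private theorem GNNA_small (hD : IsOpen D) (hb : Bornology.IsBounded D) (hcv : Convex ℝ D)
    (hs : ∀ x y : ℝ, (x, y) ∈ D → (-x, y) ∈ D) (hμ : 0 < μ) (hc : Continuous v)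
    (h0 : ∀ q, q ∉ D → v q = 0) (hv : ContDiffOn ℝ 2 v D)
    (heq : ∀ q ∈ D, -lap v q = μ * Real.exp (v q)) :
    ∃ A : ℝ, 0 < A ∧ ∀ l : ℝ, 0 < l →
      (MeasureTheory.volume {q | q ∈ GNNA_S D l ∧ GNNA_w v l q < 0}).toReal < A →
      ∀ q ∈ GNNA_S D l, 0 ≤ GNNA_w v l q := by
  obtain ⟨M, hM⟩ := GNNA_bdd hb hc h0
  obtain ⟨A, hA, h⟩ := mp_small (C := μ * Real.exp M)
  refine ⟨A, hA, fun l hl hvol => ?_⟩
  have hnn := GNNA_nonneg hD hb hcv hμ hc h0 hv heq
  classical
  refine h (GNNA_S D l) (GNNA_w v l) (fun q => if v (2 * l + (-1) * q.1, 0 + 1 * q.2) = v q then 0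
    else μ * ((Real.exp (v (2 * l + (-1) * q.1, 0 + 1 * q.2)) - Real.exp (v q)) /
      (v (2 * l + (-1) * q.1, 0 + 1 * q.2) - v q))) (GNNA_S_open hD l)
    (hb.subset (GNNA_S_sub l)) ?_ ?_ ?_ (fun ε hε => GNNA_closed hc hnn h0 l hε) hvol
  · exact (GNNA_w_smooth hcv hs hv hl).sub (hv.mono (GNNA_S_sub l))
  · intro q hq
    split_ifs with hh
    · exact ⟨le_rfl, by positivity⟩
    · have := GNNA_slope hh (hM _) (hM _)
      exact ⟨mul_nonneg hμ.le this.1, mul_le_mul_of_nonneg_left this.2 hμ.le⟩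
  · intro q hq
    rw [GNNA_w_lap hD hcv hs hv heq hl hq]
    split_ifs with hh
    · rw [hh]; ring
    · unfold GNNA_w
      have : v (2 * l + (-1) * q.1, 0 + 1 * q.2) - v q ≠ 0 := sub_ne_zero.2 hh
      rw [mul_assoc, div_mul_cancel₀ _ this]

end plane

theorem mp_half {D : Set (ℝ × ℝ)} (hD : IsOpen D) (hb : Bornology.IsBounded D)
    (hcv : Convex ℝ D) (hs : ∀ x y : ℝ, (x, y) ∈ D → (-x, y) ∈ D)
    {v : ℝ × ℝ → ℝ} {μ : ℝ} (hμ : 0 < μ) (hc : Continuous v)
    (h0 : ∀ q, q ∉ D → v q = 0) (hv : ContDiffOn ℝ 2 v D)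
    (heq : ∀ q ∈ D, -lap v q = μ * Real.exp (v q)) :
    ∀ l : ℝ, 0 < l → ∀ x y : ℝ, (x, y) ∈ D → l < x → v (x, y) ≤ v (2 * l - x, y) := by
  obtain ⟨A, hA, hsmall⟩ := GNNA_small hD hb hcv hs hμ hc h0 hv heq
  have hpos := mp_pos hD hb hcv hμ hc h0 hv heq
  have hnn := GNNA_nonneg hD hb hcv hμ hc h0 hv heq
  obtain ⟨R, hR⟩ := hb.subset_closedBall (0 : ℝ × ℝ)
  have hR1 : ∀ q ∈ D, |q.1| ≤ R ∧ |q.2| ≤ R := fun q hq => by
    have h1 := hR hq
    rw [Metric.mem_closedBall, dist_zero_right, Prod.norm_def] at h1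
    exact ⟨le_trans (le_max_left _ _) h1, le_trans (le_max_right _ _) h1⟩
  set G : Set ℝ := {l | 0 < l ∧ ∀ l', l ≤ l' → ∀ q ∈ GNNA_S D l', 0 ≤ GNNA_w v l' q} with hG
  have hbig : max R 0 + 1 ∈ G := by
    refine ⟨by positivity, fun l' hl' q hq => ?_⟩
    exfalso
    have h1 := (hR1 q hq.1).1
    have h2 := hq.2
    have h3 := (abs_le.1 h1).2
    have h4 := le_max_left R 0
    linarith
  have hbelow : BddBelow G := ⟨0, fun l hl => hl.1.le⟩
  have hmain : sInf G ≤ 0 := by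
    by_contra hcon
    push Not at hcon
    set l₀ := sInf G with hl₀
    -- above the infimum
    have habove : ∀ l, l₀ < l → ∀ q ∈ GNNA_S D l, 0 ≤ GNNA_w v l q := by
      intro l hl
      obtain ⟨l1, hl1, hlt⟩ := exists_lt_of_csInf_lt ⟨_, hbig⟩ hl
      exact hl1.2 l hlt.le
    -- at the infimum
    have hat : ∀ q ∈ GNNA_S D l₀, 0 ≤ GNNA_w v l₀ q := by
      intro q hq
      have hcont : Continuous (fun l : ℝ => GNNA_w v l q) :=
        (GNNA_w_cont hc).comp (by fun_prop : Continuous (fun l : ℝ => ((l, q) : ℝ × (ℝ × ℝ))))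
      have htend : Filter.Tendsto (fun l : ℝ => GNNA_w v l q) (nhdsWithin l₀ (Set.Ioi l₀))
          (nhds (GNNA_w v l₀ q)) := (hcont.tendsto l₀).mono_left nhdsWithin_le_nhds
      refine ge_of_tendsto htend ?_
      have : Set.Ioo l₀ q.1 ∈ nhdsWithin l₀ (Set.Ioi l₀) := Ioo_mem_nhdsGT hq.2
      filter_upwards [this] with l hl
      exact habove l hl.1 q ⟨hq.1, hl.2⟩
    have hconvS : Convex ℝ (GNNA_S D l₀) := by
      refine hcv.inter ?_
      have : Convex ℝ {q : ℝ × ℝ | l₀ < (LinearMap.fst ℝ ℝ ℝ) q} :=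
        convex_halfSpace_gt (LinearMap.fst ℝ ℝ ℝ).isLinear l₀
      exact this
    -- strictly positive
    have hstrict : ∀ q ∈ GNNA_S D l₀, 0 < GNNA_w v l₀ q := by
      intro q hq
      rcases (hat q hq).lt_or_eq with h | h
      · exact h
      exfalso
      have hz := smp (GNNA_S_open hD l₀) hconvS.isPreconnected
        (f := GNNA_w v l₀) ((GNNA_w_smooth hcv hs hv hcon).sub (hv.mono (GNNA_S_sub l₀))) hat
        (fun z hz => by
          have h1 := GNNA_w_lap hD hcv hs hv heq hcon hz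
          have h2 := hat z hz
          unfold GNNA_w at h2
          have h3 : Real.exp (v z) ≤ Real.exp (v (2 * l₀ + (-1) * z.1, 0 + 1 * z.2)) :=
            Real.exp_le_exp.2 (by linarith)
          have h4 := mul_nonneg hμ.le (sub_nonneg.2 h3)
          linarith) hq h.symm
      obtain ⟨x₁, hx₁, hnx, hin⟩ := GNNA_right hD hb hcv (show (q.1, q.2) ∈ D from hq.1)
      -- the limit at the right end
      have hlim : GNNA_w v l₀ (x₁, q.2) = 0 := by
        have hcont : Continuous (fun x : ℝ => GNNA_w v l₀ (x, q.2)) :=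
          (GNNA_w_cont hc).comp (by fun_prop : Continuous
            (fun x : ℝ => ((l₀, (x, q.2)) : ℝ × (ℝ × ℝ))))
        have htend : Filter.Tendsto (fun x : ℝ => GNNA_w v l₀ (x, q.2))
            (nhdsWithin x₁ (Set.Iio x₁)) (nhds (GNNA_w v l₀ (x₁, q.2))) :=
          (hcont.tendsto x₁).mono_left nhdsWithin_le_nhds
        have hev : ∀ᶠ x in nhdsWithin x₁ (Set.Iio x₁), GNNA_w v l₀ (x, q.2) = 0 := by
          have : Set.Ioo q.1 x₁ ∈ nhdsWithin x₁ (Set.Iio x₁) := Ioo_mem_nhdsLT hx₁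
          filter_upwards [this] with x hx
          exact hz _ ⟨hin x hx.1.le hx.2, lt_trans hq.2 hx.1⟩
        have h2 := htend.congr' hev
        exact (tendsto_nhds_unique h2 tendsto_const_nhds)
      have hq2 := hq.2
      set a := max q.1 (x₁ - l₀) with ha
      have ha1 : q.1 ≤ a := le_max_left _ _
      have ha2 : x₁ - l₀ ≤ a := le_max_right _ _
      have ha3 : a < x₁ := max_lt hx₁ (by linarith)
      have hmem : ((2 * l₀ + (-1) * x₁, 0 + 1 * q.2) : ℝ × ℝ) ∈ D := by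
        have e : (0 : ℝ) + 1 * q.2 = q.2 := by ring
        rw [e]
        have h1 := hin ((a + x₁) / 2) (by linarith) (by linarith)
        exact GNNA_conv hcv (hs _ _ h1) h1 (by linarith) (by linarith)
      have h3 := hpos _ hmem
      unfold GNNA_w at hlim
      rw [h0 _ hnx] at hlim
      simp only at hlim
      linarith
    -- compact exhaustion
    have hfin : MeasureTheory.volume (GNNA_S D l₀) ≠ ⊤ :=
      ((hb.subset (GNNA_S_sub l₀)).measure_lt_top).ne
    obtain ⟨K, hKsub, hK, hKvol⟩ := (GNNA_S_open hD l₀).measurableSet.exists_isCompact_sdiff_lt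
      hfin (ENNReal.ofReal_pos.2 (half_pos hA)).ne'
    have hev : ∀ᶠ l in nhds l₀, ∀ q ∈ K, 0 < GNNA_w v l q := by
      refine hK.eventually_forall_of_forall_eventually (fun q hq => ?_)
      have := (GNNA_w_cont hc).tendsto (l₀, q)
      exact this.eventually (lt_mem_nhds (hstrict q (hKsub hq)))
    obtain ⟨δ, hδ, hball⟩ := Metric.eventually_nhds_iff.1 hev
    set R' := max R 0 + 1 with hR'
    have hR'pos : 0 < R' := by positivity
    set δ' := min (min (δ / 2) (l₀ / 2)) (A / (8 * R')) with hδ'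
    have hδ'pos : 0 < δ' := by
      refine lt_min (lt_min (by linarith) (by linarith)) (by positivity)
    have hnew : l₀ - δ' ∈ G := by
      have e1 : δ' ≤ δ / 2 := le_trans (min_le_left _ _) (min_le_left _ _)
      have e2 : δ' ≤ l₀ / 2 := le_trans (min_le_left _ _) (min_le_right _ _)
      have e3 : δ' ≤ A / (8 * R') := min_le_right _ _
      refine ⟨by linarith, fun l' hl' => ?_⟩
      rcases lt_trichotomy l' l₀ with hlt | heq' | hgt
      · have hl'pos : 0 < l' := by linarith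
        refine hsmall l' hl'pos ?_
        have hKpos : ∀ q ∈ K, 0 < GNNA_w v l' q := by
          refine hball ?_
          rw [Real.dist_eq, abs_lt]
          constructor <;> linarith
        have hsub : {q | q ∈ GNNA_S D l' ∧ GNNA_w v l' q < 0} ⊆
            (GNNA_S D l₀ \ K) ∪ (Set.Ioc l' l₀ ×ˢ Set.Icc (-R') R') := by
          rintro q ⟨hq1, hq2⟩
          have hqK : q ∉ K := fun hh => by
            have := hKpos q hh
            linarith
          rcases lt_or_ge l₀ q.1 with h | h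
          · exact Or.inl ⟨⟨hq1.1, h⟩, hqK⟩
          · refine Or.inr ⟨⟨hq1.2, h⟩, ?_⟩
            have h1 := abs_le.1 (hR1 q hq1.1).2
            have h2 := le_max_left R 0
            exact ⟨by linarith [h1.1], by linarith [h1.2]⟩
        have hvol2 : MeasureTheory.volume ((Set.Ioc l' l₀ ×ˢ Set.Icc (-R') R') : Set (ℝ × ℝ))
            ≤ ENNReal.ofReal (A / 4) := by
          rw [MeasureTheory.Measure.volume_eq_prod, MeasureTheory.Measure.prod_prod,
            Real.volume_Ioc, Real.volume_Icc, ← ENNReal.ofReal_mul (by linarith)]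
          refine ENNReal.ofReal_le_ofReal ?_
          have h1 : l₀ - l' ≤ A / (8 * R') := by linarith
          have h2 : A / (8 * R') * (R' - -R') = A / 4 := by
            field_simp
            ring
          calc (l₀ - l') * (R' - -R') ≤ A / (8 * R') * (R' - -R') :=
                mul_le_mul_of_nonneg_right h1 (by linarith)
            _ = A / 4 := h2
        have htot : MeasureTheory.volume {q | q ∈ GNNA_S D l' ∧ GNNA_w v l' q < 0}
            ≤ ENNReal.ofReal (A / 2) + ENNReal.ofReal (A / 4) :=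
          le_trans (MeasureTheory.measure_mono hsub)
            (le_trans (MeasureTheory.measure_union_le _ _) (add_le_add hKvol.le hvol2))
        rw [← ENNReal.ofReal_add (by linarith) (by linarith)] at htot
        have h5 := ENNReal.toReal_mono ENNReal.ofReal_ne_top htot
        rw [ENNReal.toReal_ofReal (by linarith)] at h5
        linarith
      · rw [heq']; exact hat
      · exact habove l' hgt
    have := csInf_le hbelow hnew
    linarith
  intro l hl x y hxy hlx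
  obtain ⟨l1, hl1, hlt⟩ := exists_lt_of_csInf_lt ⟨_, hbig⟩ (lt_of_le_of_lt hmain hl)
  have := hl1.2 l hlt.le (x, y) ⟨hxy, hlx⟩
  unfold GNNA_w at this
  simp only at this
  have e : ((2 * l + (-1) * x, 0 + 1 * y) : ℝ × ℝ) = (2 * l - x, y) := by
    ext
    · simp only; ring
    · simp only; ring
  rw [e] at this
  linarith

private theorem GNNA_ev {D : Set (ℝ × ℝ)} (hD : IsOpen D) (hb : Bornology.IsBounded D)
    (hcv : Convex ℝ D) (hs : ∀ x y : ℝ, (x, y) ∈ D → (-x, y) ∈ D)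
    {v : ℝ × ℝ → ℝ} {μ : ℝ} (hμ : 0 < μ) (hc : Continuous v)
    (h0 : ∀ q, q ∉ D → v q = 0) (hv : ContDiffOn ℝ 2 v D)
    (heq : ∀ q ∈ D, -lap v q = μ * Real.exp (v q)) {x y : ℝ} (hx : 0 < x)
    (hxy : (x, y) ∈ D) : v (x, y) ≤ v (-x, y) := by
  have hcont : Continuous (fun l : ℝ => v (2 * l - x, y)) := by fun_prop
  have htend : Filter.Tendsto (fun l : ℝ => v (2 * l - x, y)) (nhdsWithin 0 (Set.Ioi 0))
      (nhds (v (2 * 0 - x, y))) := (hcont.tendsto 0).mono_left nhdsWithin_le_nhds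
  rw [show (2 : ℝ) * 0 - x = -x by ring] at htend
  refine ge_of_tendsto htend ?_
  have : Set.Ioo 0 x ∈ nhdsWithin (0 : ℝ) (Set.Ioi 0) := Ioo_mem_nhdsGT hx
  filter_upwards [this] with l hl
  exact mp_half hD hb hcv hs hμ hc h0 hv heq l hl.1 x y hxy hl.2

theorem mp_x {D : Set (ℝ × ℝ)} (hD : IsOpen D) (hb : Bornology.IsBounded D)
    (hcv : Convex ℝ D) (hs : ∀ x y : ℝ, (x, y) ∈ D → (-x, y) ∈ D)
    {v : ℝ × ℝ → ℝ} {μ : ℝ} (hμ : 0 < μ) (hc : Continuous v)
    (h0 : ∀ q, q ∉ D → v q = 0) (hv : ContDiffOn ℝ ∞ v D)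
    (heq : ∀ q ∈ D, -lap v q = μ * Real.exp (v q)) :
    EvX v ∧ ∀ q ∈ D, 0 < q.1 → dx v q < 0 := by
  have hv2 : ContDiffOn ℝ 2 v D := hv.of_le (show ((2 : ℕ∞) : WithTop ℕ∞) ≤ ((⊤ : ℕ∞) : WithTop ℕ∞) from WithTop.coe_le_coe.2 le_top)
  have hv3 : ContDiffOn ℝ 3 v D := hv.of_le (show ((3 : ℕ∞) : WithTop ℕ∞) ≤ ((⊤ : ℕ∞) : WithTop ℕ∞) from WithTop.coe_le_coe.2 le_top)
  have hpos := mp_pos hD hb hcv hμ hc h0 hv2 heq
  have hev1 : ∀ x y : ℝ, 0 < x → (x, y) ∈ D → v (x, y) = v (-x, y) := by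
    intro x y hx hxy
    refine le_antisymm (GNNA_ev hD hb hcv hs hμ hc h0 hv2 heq hx hxy) ?_
    -- the reflected function
    have hmaps : ∀ q : ℝ × ℝ, q ∈ D → ((0 + (-1) * q.1, 0 + 1 * q.2) : ℝ × ℝ) ∈ D := by
      intro q hq
      have e : ((0 + (-1) * q.1, 0 + 1 * q.2) : ℝ × ℝ) = (-q.1, q.2) := by
        ext
        · simp only; ring
        · simp only; ring
      rw [e]
      exact hs q.1 q.2 hq
    have hcd : ContDiff ℝ 2 (fun q : ℝ × ℝ => ((0 + (-1) * q.1, 0 + 1 * q.2) : ℝ × ℝ)) := by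
      fun_prop
    have h := GNNA_ev (v := fun q : ℝ × ℝ => v (0 + (-1) * q.1, 0 + 1 * q.2)) hD hb hcv hs hμ
      (hc.comp hcd.continuous)
      (fun q hq => h0 _ (fun hh => hq (by
        have := hmaps _ hh
        have e : ((0 + (-1) * (0 + (-1) * q.1), 0 + 1 * (0 + 1 * q.2)) : ℝ × ℝ) = q := by
          ext
          · simp only; ring
          · simp only; ring
        simpa only [e] using this)))
      (hv2.comp hcd.contDiffOn hmaps)
      (fun q hq => by
        rw [lap_aff (f := v) 0 0 (ε₁ := -1) (ε₂ := 1) (by norm_num) (by norm_num) hD hv2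
          (hmaps q hq)]
        exact heq _ (hmaps q hq)) hx hxy
    simp only at h
    have e1 : ((0 + (-1) * x, 0 + 1 * y) : ℝ × ℝ) = (-x, y) := by
      ext
      · simp only; ring
      · simp only; ring
    have e2 : ((0 + (-1) * -x, 0 + 1 * y) : ℝ × ℝ) = (x, y) := by
      ext
      · simp only; ring
      · simp only; ring
    rw [e1, e2] at h
    exact h
  have hEv : EvX v := by
    intro x y
    by_cases hxy : (x, y) ∈ D
    · rcases lt_trichotomy x 0 with hx | hx | hx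
      · have := hev1 (-x) y (by linarith) (hs _ _ hxy)
        rw [neg_neg] at this
        exact this
      · rw [hx, neg_zero]
      · exact (hev1 x y hx hxy).symm
    · have : (-x, y) ∉ D := fun hh => hxy (by
        have := hs _ _ hh
        rwa [neg_neg] at this)
      rw [h0 _ hxy, h0 _ this]
  refine ⟨hEv, ?_⟩
  -- monotonicity
  have hmono : ∀ x₁ x₂ y : ℝ, 0 ≤ x₁ → x₁ < x₂ → (x₂, y) ∈ D → v (x₂, y) ≤ v (x₁, y) := by
    intro x₁ x₂ y h1 h2 h3
    have := mp_half hD hb hcv hs hμ hc h0 hv2 heq ((x₁ + x₂) / 2) (by linarith) x₂ y h3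
      (by linarith)
    rw [show 2 * ((x₁ + x₂) / 2) - x₂ = x₁ by ring] at this
    exact this
  have hdiff : ∀ q ∈ D, DifferentiableAt ℝ v q := fun q hq =>
    (hv2.contDiffAt (hD.mem_nhds hq)).differentiableAt (by norm_num)
  have hle : ∀ q ∈ D, 0 < q.1 → dx v q ≤ 0 := by
    intro q hq hx
    have hd := hasDerivAt_dx (hdiff q hq)
    have hslope := hd.hasDerivWithinAt (s := Set.Iio q.1)
    have ht := (hasDerivWithinAt_iff_tendsto_slope' (by simp)).1 hslope
    refine le_of_tendsto ht ?_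
    have : Set.Ioo 0 q.1 ∈ nhdsWithin q.1 (Set.Iio q.1) := Ioo_mem_nhdsLT hx
    filter_upwards [this] with s hs'
    rw [slope_def_field]
    have h1 := hmono s q.1 q.2 hs'.1.le hs'.2 hq
    exact div_nonpos_of_nonneg_of_nonpos (by linarith) (by linarith [hs'.2])
  intro q hq hx
  rcases (hle q hq hx).lt_or_eq with h | h
  · exact h
  exfalso
  set U : Set (ℝ × ℝ) := D ∩ {q | 0 < q.1} with hU
  have hUo : IsOpen U := hD.inter (isOpen_lt continuous_const continuous_fst)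
  have hUc : Convex ℝ U := by
    refine hcv.inter ?_
    have : Convex ℝ {q : ℝ × ℝ | 0 < (LinearMap.fst ℝ ℝ ℝ) q} :=
      convex_halfSpace_gt (LinearMap.fst ℝ ℝ ℝ).isLinear 0
    exact this
  have hdxs : ContDiffOn ℝ 2 (dx v) D :=
    (smooth_dx hD hv).of_le (show ((2 : ℕ∞) : WithTop ℕ∞) ≤ ((⊤ : ℕ∞) : WithTop ℕ∞) from WithTop.coe_le_coe.2 le_top)
  have hlapdx : ∀ z ∈ D, lap (dx v) z = -(μ * Real.exp (v z) * dx v z) := by
    intro z hz
    rw [lap_dx hD hv3 hz]
    have h1 : dx (lap v) z = dx (fun p => (-μ) * Real.exp (v p)) z :=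
      dx_congr hD (fun p hp => by have := heq p hp; linarith) hz
    have h2 : DifferentiableAt ℝ (fun p => Real.exp (v p)) z := (hdiff z hz).exp
    rw [h1, dx_const_mul _ h2, dx_comp (F := Real.exp) (hdiff z hz) Real.differentiableAt_exp,
      Real.deriv_exp]
    ring
  have hz := smp hUo hUc.isPreconnected (f := fun z => -1 * dx v z)
    (contDiffOn_const.mul (hdxs.mono Set.inter_subset_left))
    (fun z hz => by have := hle z hz.1 hz.2; show 0 ≤ -1 * dx v z; linarith)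
    (fun z hz => by
      rw [lap_const_mul hD (-1) hdxs hz.1, hlapdx z hz.1]
      have h1 := hle z hz.1 hz.2
      have h2 := mul_pos hμ (Real.exp_pos (v z))
      nlinarith)
    (show q ∈ U from ⟨hq, hx⟩) (by show -1 * dx v q = 0; rw [h]; ring)
  obtain ⟨x₁, hx₁, hnx, hin⟩ := GNNA_right hD hb hcv (show (q.1, q.2) ∈ D from hq)
  have hcc : Continuous (fun s : ℝ => v (s, q.2)) := by fun_prop
  have hconst : ∀ s ∈ Set.Icc q.1 x₁, v (s, q.2) = v (q.1, q.2) := by
    refine constant_of_has_deriv_right_zero (a := q.1) (b := x₁) hcc.continuousOn ?_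
    intro s hs'
    have hsD : (s, q.2) ∈ D := hin s hs'.1 hs'.2
    have h1 := hasDerivAt_dx (hdiff (s, q.2) hsD)
    have h2 : dx v (s, q.2) = 0 := by
      have : -1 * dx v (s, q.2) = 0 := hz (s, q.2) ⟨hsD, lt_of_lt_of_le hx hs'.1⟩
      linarith
    rw [h2] at h1
    exact h1.hasDerivWithinAt
  have h1 := hconst x₁ ⟨hx₁.le, le_rfl⟩
  rw [h0 _ hnx] at h1
  have h2 := hpos _ hq
  have h3 : v q = v (q.1, q.2) := rfl
  linarith

end Pool.Agent.MFE
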