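import Pool.Agent.MFE.SEP

/-!
# MFE.HKA: arcs in the closed quadrant and the region under an arc

`Arc γ`: a path in the closed quadrant `Qd` from the positive `x`-axis to the positive `y`-axis
avoiding the origin. `Und γ`: the points of the quadrant which can be joined to the origin in the
quadrant without meeting `γ`.

* `und_far`: this is `cross` (a `JoinedIn` path gives `σ`; reparametrise to `[0,1] ⊆ ℝ`:
  `Path.extend`).
* `und_bdd`: by `und_far` and compactness of the image of `γ`.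
* `und_sub`: definition (`JoinedIn.trans`).
* `und_out`: if `q ∉ D`, `q ∈ Qd`, `q ∈ Und γ`: the ray `q + s (1,1)`, `s ≥ 0`, is outside `D`
  (solidity), hence avoids `γ` and reaches points excluded by `und_far`.
* `und_closure`: if `b ∈ closure (Und γ)`, `b ∉ D`, then `b ∈ Qd`, `b` has positive distance `r`
  from the compact image of `γ` (contained in `D`), and a point `q ∈ Und γ` with `dist q b < r` is
  joined to `b` by a segment in `Qd` avoiding `γ`; so `b ∈ Und γ`, against `und_out`.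
* `und_open`: same argument with segments: `Und γ` is open relative to `Qd`.
* `arc_order`: let `(X,0)` be the point with the largest `X` of the `x`-axis on `γ ∪ γ'` (compact,
  contains `γ 0`). If it is on `γ` then the segment from `(X,0)` to `(R,0)`, `R` large, avoids `γ'`
  (disjointness), so `(X,0) ∉ Und γ'` by `und_far` and `und_sub`. Same with the roles exchanged.
* `und_mono`: `γ' ⊆ Und γ`, disjoint: suppose `q ∈ Und γ'` is joined to the origin by a path `σ`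
  avoiding `γ'`; if `σ` meets `γ` then the image of `γ` (path connected, disjoint from `γ'`) is
  contained in `Und γ'`, against `arc_order`. So `σ` avoids `γ`.
-/

namespace Pool.Agent.MFE

/-- the closed quadrant -/
def Qd : Set (ℝ × ℝ) := {q | 0 ≤ q.1 ∧ 0 ≤ q.2}

/-- folding onto the closed quadrant -/
def fold (q : ℝ × ℝ) : ℝ × ℝ := (|q.1|, |q.2|)

/-- arcs from the `x`-axis to the `y`-axis -/
structure Arc (γ : ℝ → ℝ × ℝ) : Prop where
  cont : ContinuousOn γ (Set.Icc 0 1)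
  quad : ∀ t ∈ Set.Icc (0 : ℝ) 1, γ t ∈ Qd
  h0 : (γ 0).2 = 0
  h1 : (γ 1).1 = 0
  ne : ∀ t ∈ Set.Icc (0 : ℝ) 1, γ t ≠ (0, 0)

/-- the image of an arc -/
def im (γ : ℝ → ℝ × ℝ) : Set (ℝ × ℝ) := γ '' Set.Icc 0 1

/-- the region under the arc -/
def Und (γ : ℝ → ℝ × ℝ) : Set (ℝ × ℝ) := {q | JoinedIn (Qd \ im γ) (0, 0) q}

private theorem isCompact_im51 {γ : ℝ → ℝ × ℝ} (h : Arc γ) : IsCompact (im γ) :=
  isCompact_Icc.image_of_continuousOn h.cont

private theorem isPathConnected_im51 {γ : ℝ → ℝ × ℝ} (h : Arc γ) : IsPathConnected (im γ) :=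
  ((convex_Icc (0 : ℝ) 1).isPathConnected ⟨0, by simp⟩).image' h.cont

private theorem convex_Qd51 : Convex ℝ Qd := by
  intro p hp q hq a b ha hb _
  exact ⟨by
    have h1 := mul_nonneg ha hp.1
    have h2 := mul_nonneg hb hq.1
    simpa using add_nonneg h1 h2, by
    have h1 := mul_nonneg ha hp.2
    have h2 := mul_nonneg hb hq.2
    simpa using add_nonneg h1 h2⟩

private theorem isClosed_Qd51 : IsClosed Qd :=
  (isClosed_le continuous_const continuous_fst).inter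
    (isClosed_le continuous_const continuous_snd)

private theorem bound51 {γ : ℝ → ℝ × ℝ} (h : Arc γ) : ∃ M : ℝ, ∀ t ∈ Set.Icc (0 : ℝ) 1,
    (γ t).1 < M ∧ (γ t).2 < M := by
  obtain ⟨M, hM⟩ := (isCompact_im51 h).isBounded.subset_closedBall (0 : ℝ × ℝ)
  refine ⟨M + 1, fun t ht => ?_⟩
  have h1 : γ t ∈ Metric.closedBall (0 : ℝ × ℝ) M := hM ⟨t, ht, rfl⟩
  rw [mem_closedBall_zero_iff] at h1
  have h2 : |(γ t).1| ≤ M := (norm_fst_le (γ t)).trans h1
  have h3 : |(γ t).2| ≤ M := (norm_snd_le (γ t)).trans h1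
  exact ⟨by linarith [le_abs_self (γ t).1], by linarith [le_abs_self (γ t).2]⟩

private theorem ray_pc51 (q v : ℝ × ℝ) :
    IsPathConnected ((fun s : ℝ => q + s • v) '' Set.Ici 0) := by
  have h1 : IsPathConnected (Set.Ici (0 : ℝ)) := (convex_Ici (0 : ℝ)).isPathConnected ⟨0, by simp⟩
  exact h1.image (by fun_prop)

theorem und_quad (γ : ℝ → ℝ × ℝ) : Und γ ⊆ Qd \ im γ := by
  intro q hq
  exact hq.target_mem

theorem und_zero {γ : ℝ → ℝ × ℝ} (h : Arc γ) : ((0 : ℝ), (0 : ℝ)) ∈ Und γ := by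
  refine JoinedIn.refl ⟨⟨le_refl _, le_refl _⟩, ?_⟩
  rintro ⟨t, ht, h1⟩
  exact h.ne t ht h1

theorem und_far {γ : ℝ → ℝ × ℝ} (h : Arc γ) {q : ℝ × ℝ}
    (hq : (∀ t ∈ Set.Icc (0 : ℝ) 1, (γ t).1 < q.1) ∨ (∀ t ∈ Set.Icc (0 : ℝ) 1, (γ t).2 < q.2)) :
    q ∉ Und γ := by
  rintro ⟨p, hp⟩
  have hc : Continuous p.extend := p.continuous_extend
  have hm : ∀ s ∈ Set.Icc (0 : ℝ) 1, p.extend s ∈ Qd \ im γ := by
    intro s hs
    rw [p.extend_apply hs]
    exact hp _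
  obtain ⟨s, hs, t, ht, h1⟩ := cross (γ := γ) (σ := p.extend) h.cont hc.continuousOn
    (fun t ht => h.quad t ht) (fun s hs => (hm s hs).1) h.h0 h.h1 p.extend_zero
    (by rw [p.extend_one]; exact hq)
  exact (hm s hs).2 ⟨t, ht, h1.symm⟩

theorem und_bdd {γ : ℝ → ℝ × ℝ} (h : Arc γ) : Bornology.IsBounded (Und γ) := by
  obtain ⟨M, hM⟩ := bound51 h
  have h1 : Und γ ⊆ Set.Icc ((0 : ℝ), (0 : ℝ)) (M, M) := by
    intro q hq
    have hQ := (und_quad γ hq).1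
    refine ⟨⟨hQ.1, hQ.2⟩, ⟨?_, ?_⟩⟩
    · by_contra hc
      push Not at hc
      exact und_far h (q := q) (Or.inl fun t ht => (hM t ht).1.trans hc) hq
    · by_contra hc
      push Not at hc
      exact und_far h (q := q) (Or.inr fun t ht => (hM t ht).2.trans hc) hq
  exact (isCompact_Icc.isBounded).subset h1

theorem und_sub {γ : ℝ → ℝ × ℝ} {S : Set (ℝ × ℝ)} (hS : IsPathConnected S)
    (hSQ : S ⊆ Qd \ im γ) (hne : (S ∩ Und γ).Nonempty) : S ⊆ Und γ := by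
  obtain ⟨q, hqS, hqU⟩ := hne
  intro p hp
  exact hqU.trans ((hS.joinedIn q hqS p hp).mono hSQ)

theorem und_pathConnected {γ : ℝ → ℝ × ℝ} (h : Arc γ) : IsPathConnected (Und γ) := by
  exact isPathConnected_pathComponentIn ((und_quad γ) (und_zero h))

theorem und_out {D : Set (ℝ × ℝ)} (hD : Solid D) {γ : ℝ → ℝ × ℝ} (h : Arc γ)
    (hγ : im γ ⊆ D) : Und γ ⊆ D := by
  intro q hq
  by_contra hqD
  have hQ := (und_quad γ hq).1
  obtain ⟨M, hM⟩ := bound51 h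
  have hSQ : (fun s : ℝ => q + s • ((1 : ℝ), (1 : ℝ))) '' Set.Ici 0 ⊆ Qd \ im γ := by
    rintro z ⟨s, hs, rfl⟩
    have hs' : (0 : ℝ) ≤ s := hs
    have e1 : (q + s • ((1 : ℝ), (1 : ℝ))).1 = q.1 + s := by simp
    have e2 : (q + s • ((1 : ℝ), (1 : ℝ))).2 = q.2 + s := by simp
    have hq1 : 0 ≤ q.1 := hQ.1
    have hq2 : 0 ≤ q.2 := hQ.2
    refine ⟨⟨?_, ?_⟩, ?_⟩
    · show 0 ≤ (q + s • ((1 : ℝ), (1 : ℝ))).1
      rw [e1]; linarith
    · show 0 ≤ (q + s • ((1 : ℝ), (1 : ℝ))).2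
      rw [e2]; linarith
    · intro hz
      apply hqD
      have hzD : (q + s • ((1 : ℝ), (1 : ℝ))) ∈ D := hγ hz
      have hz2 : (q.1 + s, q.2 + s) ∈ D := by
        rw [← e1, ← e2]; exact hzD
      have := hD.solid _ _ q.1 q.2 hz2
        (by rw [abs_of_nonneg hq1, abs_of_nonneg (by linarith)]; linarith)
        (by rw [abs_of_nonneg hq2, abs_of_nonneg (by linarith)]; linarith)
      exact this
  have hsub := und_sub (ray_pc51 q (1, 1)) hSQ ⟨q, ⟨0, by simp, by simp⟩, hq⟩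
  have hmem : q + (|M|) • ((1 : ℝ), (1 : ℝ)) ∈ Und γ := hsub ⟨|M|, abs_nonneg M, rfl⟩
  refine und_far h (Or.inl fun t ht => ?_) hmem
  have e1 : (q + (|M|) • ((1 : ℝ), (1 : ℝ))).1 = q.1 + |M| := by simp
  rw [e1]
  have hq1 : 0 ≤ q.1 := hQ.1
  linarith [(hM t ht).1, le_abs_self M]

private theorem near51 {γ : ℝ → ℝ × ℝ} {b p q : ℝ × ℝ} {r : ℝ}
    (hr : ∀ z ∈ Metric.ball b r, z ∉ im γ) (hp : p ∈ Metric.ball b r) (hq : q ∈ Metric.ball b r)
    (hpQ : p ∈ Qd) (hqU : q ∈ Und γ) : p ∈ Und γ := by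
  have hqQ : q ∈ Qd := (und_quad γ hqU).1
  have hS : IsPathConnected (segment ℝ q p) :=
    (convex_segment q p).isPathConnected ⟨q, left_mem_segment ℝ q p⟩
  have hSQ : segment ℝ q p ⊆ Qd \ im γ := by
    intro z hz
    exact ⟨convex_Qd51.segment_subset hqQ hpQ hz,
      hr z ((convex_ball b r).segment_subset hq hp hz)⟩
  exact und_sub hS hSQ ⟨q, left_mem_segment ℝ q p, hqU⟩ (right_mem_segment ℝ q p)

private theorem ball51 {γ : ℝ → ℝ × ℝ} (h : Arc γ) {b : ℝ × ℝ} (hb : b ∉ im γ) :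
    ∃ r : ℝ, 0 < r ∧ ∀ z ∈ Metric.ball b r, z ∉ im γ := by
  have h1 : IsOpen (im γ)ᶜ := (isCompact_im51 h).isClosed.isOpen_compl
  obtain ⟨r, hr, h2⟩ := Metric.isOpen_iff.1 h1 b hb
  exact ⟨r, hr, fun z hz => h2 hz⟩

theorem und_closure {D : Set (ℝ × ℝ)} (hD : Solid D) {γ : ℝ → ℝ × ℝ} (h : Arc γ)
    (hγ : im γ ⊆ D) : closure (Und γ) ⊆ D := by
  intro b hb
  by_contra hbD
  have hbQ : b ∈ Qd := by
    have h1 : closure (Und γ) ⊆ Qd :=
      closure_minimal (fun q hq => (und_quad γ hq).1) isClosed_Qd51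
    exact h1 hb
  have hbim : b ∉ im γ := fun hc => hbD (hγ hc)
  obtain ⟨r, hr, hball⟩ := ball51 h hbim
  obtain ⟨q, hqU, hqb⟩ := Metric.mem_closure_iff.1 hb r hr
  have hq : q ∈ Metric.ball b r := by rw [Metric.mem_ball, dist_comm]; exact hqb
  have := near51 hball (Metric.mem_ball_self hr) hq hbQ hqU
  exact hbD (und_out hD h hγ this)

theorem und_open {γ : ℝ → ℝ × ℝ} (h : Arc γ) : ∃ O : Set (ℝ × ℝ), IsOpen O ∧ Und γ = Qd ∩ O := by
  refine ⟨{p | ∃ q ∈ Und γ, ∃ r : ℝ, (∀ z ∈ Metric.ball q r, z ∉ im γ) ∧ p ∈ Metric.ball q r},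
    ?_, ?_⟩
  · rw [Metric.isOpen_iff]
    rintro p ⟨q, hq, r, hr, hp⟩
    obtain ⟨e, he, h1⟩ := Metric.isOpen_iff.1 Metric.isOpen_ball p hp
    exact ⟨e, he, fun z hz => ⟨q, hq, r, hr, h1 hz⟩⟩
  · ext p
    constructor
    · intro hp
      obtain ⟨r, hr, hball⟩ := ball51 h (und_quad γ hp).2
      exact ⟨(und_quad γ hp).1, p, hp, r, hball, Metric.mem_ball_self hr⟩
    · rintro ⟨hpQ, q, hq, r, hr, hp⟩
      have hpos : 0 < r := by
        by_contra hc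
        rw [Metric.ball_eq_empty.2 (not_lt.1 hc)] at hp
        exact hp
      exact near51 hr hp (Metric.mem_ball_self hpos) hpQ hq

private theorem order_aux51 {γ γ' : ℝ → ℝ × ℝ} (h' : Arc γ')
    (hd : Disjoint (im γ) (im γ')) {m : ℝ × ℝ} (hmγ : m ∈ im γ) (hmQ : m ∈ Qd) (hm0 : m.2 = 0)
    (hmax : ∀ z ∈ im γ', z.2 = 0 → z.1 ≤ m.1) : m ∉ Und γ' := by
  intro hmU
  obtain ⟨M, hM⟩ := bound51 h'
  have hm1 : 0 ≤ m.1 := hmQ.1
  have hSQ : (fun s : ℝ => m + s • ((1 : ℝ), (0 : ℝ))) '' Set.Ici 0 ⊆ Qd \ im γ' := by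
    rintro z ⟨s, hs, rfl⟩
    have hs' : (0 : ℝ) ≤ s := hs
    have e1 : (m + s • ((1 : ℝ), (0 : ℝ))).1 = m.1 + s := by simp
    have e2 : (m + s • ((1 : ℝ), (0 : ℝ))).2 = m.2 := by simp
    refine ⟨⟨?_, ?_⟩, ?_⟩
    · show 0 ≤ (m + s • ((1 : ℝ), (0 : ℝ))).1
      rw [e1]; linarith
    · show 0 ≤ (m + s • ((1 : ℝ), (0 : ℝ))).2
      rw [e2]; exact hmQ.2
    · intro hz
      have h1 := hmax _ hz (by rw [e2]; exact hm0)
      rw [e1] at h1
      have hs0 : s = 0 := by linarith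
      rw [hs0] at hz
      have hz2 : m ∈ im γ' := by simpa using hz
      exact Set.disjoint_left.1 hd hmγ hz2
  have hsub := und_sub (ray_pc51 m (1, 0)) hSQ ⟨m, ⟨0, by simp, by simp⟩, hmU⟩
  have hmem : m + (|M|) • ((1 : ℝ), (0 : ℝ)) ∈ Und γ' := hsub ⟨|M|, abs_nonneg M, rfl⟩
  refine und_far h' (Or.inl fun t ht => ?_) hmem
  have e1 : (m + (|M|) • ((1 : ℝ), (0 : ℝ))).1 = m.1 + |M| := by simp
  rw [e1]
  linarith [(hM t ht).1, le_abs_self M]

theorem arc_order {γ γ' : ℝ → ℝ × ℝ} (h : Arc γ) (h' : Arc γ') (hd : Disjoint (im γ) (im γ')) :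
    ¬ (im γ ⊆ Und γ' ∧ im γ' ⊆ Und γ) := by
  rintro ⟨h1, h2⟩
  have hK : IsCompact ((im γ ∪ im γ') ∩ {q : ℝ × ℝ | q.2 = 0}) :=
    ((isCompact_im51 h).union (isCompact_im51 h')).inter_right
      (isClosed_eq continuous_snd continuous_const)
  have hne : ((im γ ∪ im γ') ∩ {q : ℝ × ℝ | q.2 = 0}).Nonempty :=
    ⟨γ 0, Or.inl ⟨0, by simp, rfl⟩, h.h0⟩
  obtain ⟨m, hm, hmax⟩ := hK.exists_isMaxOn hne continuous_fst.continuousOn
  have hmax' : ∀ z ∈ im γ ∪ im γ', z.2 = 0 → z.1 ≤ m.1 := fun z hz hz0 => hmax ⟨hz, hz0⟩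
  rcases hm.1 with hmγ | hmγ
  · have hmQ : m ∈ Qd := by
      obtain ⟨t, ht, rfl⟩ := hmγ
      exact h.quad t ht
    exact order_aux51 h' hd hmγ hmQ hm.2 (fun z hz => hmax' z (Or.inr hz)) (h1 hmγ)
  · have hmQ : m ∈ Qd := by
      obtain ⟨t, ht, rfl⟩ := hmγ
      exact h'.quad t ht
    exact order_aux51 h hd.symm hmγ hmQ hm.2 (fun z hz => hmax' z (Or.inl hz)) (h2 hmγ)

theorem und_mono {γ γ' : ℝ → ℝ × ℝ} (h : Arc γ) (h' : Arc γ') (hd : Disjoint (im γ) (im γ'))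
    (hs : im γ' ⊆ Und γ) : Und γ' ⊆ Und γ := by
  intro q hq
  have hpc := und_pathConnected h'
  obtain ⟨p, hp⟩ := hpc.joinedIn (0, 0) (und_zero h') q hq
  refine ⟨p, fun t => ⟨(und_quad γ' (hp t)).1, fun hc => ?_⟩⟩
  have hsub : im γ ⊆ Und γ' := by
    refine und_sub (isPathConnected_im51 h) ?_ ⟨p t, hc, hp t⟩
    intro z hz
    refine ⟨?_, fun hz' => Set.disjoint_left.1 hd hz hz'⟩
    obtain ⟨t, ht, rfl⟩ := hz
    exact h.quad t ht
  exact arc_order h h' hd ⟨hsub, hs⟩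

end Pool.Agent.MFE
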