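import Pool.Agent.MFE.HKA

/-!
# MFE.HKB: nodal domains which meet both axes

* `nodal_exists`: `{q ∈ D | 0 < f q}` is open (`f` continuous on the open set `D`); take the
  connected component of `q` in it (`connectedComponentIn`, open by local connectedness).
* `nodal_eq`: two nodal domains which meet are equal (`maxi` with the union).
* `nodal_refl_x`: the reflection of a nodal domain is a nodal domain; if it contains a point with
  `x = 0` it meets its reflection, so it is symmetric.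
* `nodal_halfplane`: if `N` misses `{x = 0}` then `N` or its reflection is a nodal domain
  contained in `{x > 0}`.
* `arc_of_open`: `N` open and connected is path connected; a path from `(a,0)` to `(0,b)` folded
  by `(x,y) ↦ (|x|,|y|)`; symmetry keeps it in `N`.
* `fold_path`: the image of the (path connected) set `N` under the continuous map `fold`.
* `nodal_closed`: `{q ∈ D | ε ≤ f q}` closed implies the same for each component.
* `nodal_closed_of_closure`: if the closure of `N` is contained in `D` and `f` is continuous on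
  `D`, then `{q ∈ N | ε ≤ f q}` is closed: a limit point `q` is in `D`, `f q ≥ ε > 0`, and a small
  ball around `q` in `{f > 0}` meets `N`, so `q ∈ N` by maximality.
-/

namespace Pool.Agent.MFE

variable {D N N' : Set (ℝ × ℝ)} {f : ℝ × ℝ → ℝ}

private theorem pos_open (hD : IsOpen D) (hf : ContinuousOn f D) :
    IsOpen {q : ℝ × ℝ | q ∈ D ∧ 0 < f q} :=
  hf.isOpen_inter_preimage hD isOpen_Ioi

theorem nodal_exists (hD : IsOpen D) (hf : ContinuousOn f D) {q : ℝ × ℝ} (hq : q ∈ D)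
    (hpos : 0 < f q) : ∃ N, IsNodal D f N ∧ q ∈ N := by
  have ho := pos_open hD hf
  have hqS : q ∈ {q : ℝ × ℝ | q ∈ D ∧ 0 < f q} := ⟨hq, hpos⟩
  refine ⟨connectedComponentIn {q : ℝ × ℝ | q ∈ D ∧ 0 < f q} q, ⟨ho.connectedComponentIn,
    isConnected_connectedComponentIn_iff.2 hqS, fun p hp =>
      (connectedComponentIn_subset {q : ℝ × ℝ | q ∈ D ∧ 0 < f q} q hp : _),
    fun N' hN' hs hp => ?_⟩, mem_connectedComponentIn hqS⟩
  exact hN'.subset_connectedComponentIn (hs (mem_connectedComponentIn hqS)) hp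

theorem nodal_eq (h : IsNodal D f N) (h' : IsNodal D f N') (hm : (N ∩ N').Nonempty) :
    N = N' := by
  have hu : IsPreconnected (N ∪ N') := by
    obtain ⟨x, hx1, hx2⟩ := hm
    exact h.conn.isPreconnected.union x hx1 hx2 h'.conn.isPreconnected
  have hs : ∀ q ∈ N ∪ N', q ∈ D ∧ 0 < f q := by
    rintro q (hq | hq)
    · exact h.sub q hq
    · exact h'.sub q hq
  refine Set.Subset.antisymm ?_ ?_
  · exact Set.subset_union_left.trans (h'.maxi _ hu Set.subset_union_right hs)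
  · exact Set.subset_union_right.trans (h.maxi _ hu Set.subset_union_left hs)

private theorem refl_gen {φ : ℝ × ℝ → ℝ × ℝ} (hc : Continuous φ) (hi : ∀ q, φ (φ q) = q)
    (hDφ : ∀ q ∈ D, φ q ∈ D) (hfφ : ∀ q, f (φ q) = f q) (h : IsNodal D f N) :
    IsNodal D f {q | φ q ∈ N} := by
  have him : {q | φ q ∈ N} = φ '' N := by
    ext q
    constructor
    · intro hq
      exact ⟨φ q, hq, hi q⟩
    · rintro ⟨p, hp, rfl⟩
      show φ (φ p) ∈ N
      rwa [hi]
  refine ⟨h.isOpen.preimage hc, ?_, ?_, ?_⟩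
  · rw [him]
    exact h.conn.image φ hc.continuousOn
  · intro q hq
    obtain ⟨h1, h2⟩ := h.sub _ hq
    refine ⟨?_, ?_⟩
    · have := hDφ _ h1
      rwa [hi] at this
    · rwa [hfφ] at h2
  · intro N' hN' hs hp q hq
    have h1 := h.maxi (φ '' N') (hN'.image φ hc.continuousOn) (fun p hp' => ?_) ?_
    · exact h1 ⟨q, hq, rfl⟩
    · refine ⟨φ p, hs ?_, hi p⟩
      show φ (φ p) ∈ N
      rwa [hi]
    · rintro _ ⟨p, hp', rfl⟩
      obtain ⟨h1, h2⟩ := hp p hp'
      exact ⟨hDφ p h1, by rwa [hfφ]⟩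

theorem nodal_refl_x (hD : Solid D) (hf : EvX f) (h : IsNodal D f N) :
    IsNodal D f {q | (-q.1, q.2) ∈ N} := by
  refine refl_gen (φ := fun q : ℝ × ℝ => (-q.1, q.2)) (by fun_prop) (fun q => by simp)
    (fun q hq => hD.solid q.1 q.2 _ _ hq (by simp) le_rfl) (fun q => hf q.1 q.2) h

theorem nodal_refl_y (hD : Solid D) (hf : EvY f) (h : IsNodal D f N) :
    IsNodal D f {q | (q.1, -q.2) ∈ N} := by
  refine refl_gen (φ := fun q : ℝ × ℝ => (q.1, -q.2)) (by fun_prop) (fun q => by simp)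
    (fun q hq => hD.solid q.1 q.2 _ _ hq le_rfl (by simp)) (fun q => hf q.1 q.2) h

theorem nodal_sym_x (hD : Solid D) (hf : EvX f) (h : IsNodal D f N) {b : ℝ}
    (hb : ((0 : ℝ), b) ∈ N) : ∀ x y : ℝ, (x, y) ∈ N → (-x, y) ∈ N := by
  have h1 := nodal_eq h (nodal_refl_x hD hf h) ⟨(0, b), hb, by simpa using hb⟩
  intro x y hxy
  rw [h1] at hxy
  exact hxy

theorem nodal_sym_y (hD : Solid D) (hf : EvY f) (h : IsNodal D f N) {a : ℝ}
    (ha : (a, (0 : ℝ)) ∈ N) : ∀ x y : ℝ, (x, y) ∈ N → (x, -y) ∈ N := by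
  have h1 := nodal_eq h (nodal_refl_y hD hf h) ⟨(a, 0), ha, by simpa using ha⟩
  intro x y hxy
  rw [h1] at hxy
  exact hxy

private theorem half_gen {g : ℝ × ℝ → ℝ} (hg : Continuous g) (h : IsNodal D f N)
    (hm : ∀ q ∈ N, g q ≠ 0) : N ⊆ {q | 0 < g q} ∨ N ⊆ {q | g q < 0} := by
  have h1 : IsOpen {q | 0 < g q} := isOpen_lt continuous_const hg
  have h2 : IsOpen {q | g q < 0} := isOpen_lt hg continuous_const
  have hd : Disjoint {q | 0 < g q} {q | g q < 0} := by
    rw [Set.disjoint_left]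
    intro q hq hq'
    exact lt_asymm (show (0 : ℝ) < g q from hq) hq'
  have hu : N ⊆ {q | 0 < g q} ∪ {q | g q < 0} := by
    intro q hq
    rcases lt_or_gt_of_ne (hm q hq) with h | h
    · exact Or.inr h
    · exact Or.inl h
  by_cases hne : (N ∩ {q | 0 < g q}).Nonempty
  · exact Or.inl (h.conn.isPreconnected.subset_left_of_subset_union h1 h2 hd hu hne)
  · right
    intro q hq
    rcases hu hq with h3 | h3
    · exact (hne ⟨q, hq, h3⟩).elim
    · exact h3

theorem nodal_half_x (h : IsNodal D f N) (hm : ∀ b : ℝ, ((0 : ℝ), b) ∉ N) :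
    N ⊆ {q | 0 < q.1} ∨ {q : ℝ × ℝ | (-q.1, q.2) ∈ N} ⊆ {q | 0 < q.1} := by
  rcases half_gen continuous_fst h (fun q hq h0 => hm q.2 (by
    rwa [show ((0 : ℝ), q.2) = q from Prod.ext h0.symm rfl])) with h1 | h1
  · exact Or.inl h1
  · right
    intro q hq
    have : -q.1 < 0 := h1 hq
    show 0 < q.1
    linarith

theorem nodal_half_y (h : IsNodal D f N) (hm : ∀ a : ℝ, (a, (0 : ℝ)) ∉ N) :
    N ⊆ {q | 0 < q.2} ∨ {q : ℝ × ℝ | (q.1, -q.2) ∈ N} ⊆ {q | 0 < q.2} := by
  rcases half_gen continuous_snd h (fun q hq h0 => hm q.1 (by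
    rwa [show (q.1, (0 : ℝ)) = q from Prod.ext rfl h0.symm])) with h1 | h1
  · exact Or.inl h1
  · right
    intro q hq
    have : -q.2 < 0 := h1 hq
    show 0 < q.2
    linarith

private theorem fold_cont : Continuous fold := by
  unfold fold
  fun_prop

private theorem fold_mem (sx : ∀ x y : ℝ, (x, y) ∈ N → (-x, y) ∈ N)
    (sy : ∀ x y : ℝ, (x, y) ∈ N → (x, -y) ∈ N) {q : ℝ × ℝ} (hq : q ∈ N) : fold q ∈ N := by
  obtain ⟨x, y⟩ := q
  show (|x|, |y|) ∈ N
  have h1 : (|x|, y) ∈ N := by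
    rcases abs_choice x with h | h <;> rw [h]
    · exact hq
    · exact sx _ _ hq
  rcases abs_choice y with h | h <;> rw [h]
  · exact h1
  · exact sy _ _ h1

theorem arc_of_open (hN : IsOpen N) (hc : IsConnected N)
    (sx : ∀ x y : ℝ, (x, y) ∈ N → (-x, y) ∈ N) (sy : ∀ x y : ℝ, (x, y) ∈ N → (x, -y) ∈ N)
    {a b : ℝ} (ha : (a, (0 : ℝ)) ∈ N) (hb : ((0 : ℝ), b) ∈ N)
    (h0 : ((0 : ℝ), (0 : ℝ)) ∉ N) : ∃ γ, Arc γ ∧ im γ ⊆ N := by
  have hp : IsPathConnected N := hN.isConnected_iff_isPathConnected.1 hc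
  obtain ⟨γ, hγ⟩ := hp.joinedIn _ ha _ hb
  have hmem : ∀ t : ℝ, γ.extend t ∈ N := by
    intro t
    have : γ.extend t ∈ Set.range γ := by
      rw [← γ.extend_range]
      exact Set.mem_range_self t
    obtain ⟨s, hs⟩ := this
    rw [← hs]
    exact hγ s
  refine ⟨fun t => fold (γ.extend t), ⟨?_, ?_, ?_, ?_, ?_⟩, ?_⟩
  · exact (fold_cont.comp γ.continuous_extend).continuousOn
  · intro t _
    exact ⟨abs_nonneg _, abs_nonneg _⟩
  · simp [fold]
  · simp [fold]
  · intro t _ hcon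
    have h1 := hmem t
    have h2 : γ.extend t = ((0 : ℝ), (0 : ℝ)) := by
      have e1 := congrArg Prod.fst hcon
      have e2 := congrArg Prod.snd hcon
      exact Prod.ext (abs_eq_zero.1 e1) (abs_eq_zero.1 e2)
    rw [h2] at h1
    exact h0 h1
  · rintro _ ⟨t, -, rfl⟩
    exact fold_mem sx sy (hmem t)

theorem fold_path (hN : IsOpen N) (hc : IsConnected N) : IsPathConnected (fold '' N) :=
  (hN.isConnected_iff_isPathConnected.1 hc).image fold_cont

theorem fold_sub (sx : ∀ x y : ℝ, (x, y) ∈ N → (-x, y) ∈ N)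
    (sy : ∀ x y : ℝ, (x, y) ∈ N → (x, -y) ∈ N) : fold '' N ⊆ N ∩ Qd := by
  rintro _ ⟨q, hq, rfl⟩
  exact ⟨fold_mem sx sy hq, abs_nonneg _, abs_nonneg _⟩

private theorem nodal_lim (hD : IsOpen D) (hf : ContinuousOn f D) (h : IsNodal D f N)
    {q : ℝ × ℝ} (hq : q ∈ closure N) (hqD : q ∈ D) (hpos : 0 < f q) : q ∈ N := by
  obtain ⟨N', h', hqN'⟩ := nodal_exists hD hf hqD hpos
  have hm : (N ∩ N').Nonempty := by
    obtain ⟨x, hx1, hx2⟩ := mem_closure_iff.1 hq N' h'.isOpen hqN'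
    exact ⟨x, hx2, hx1⟩
  rw [nodal_eq h h' hm]
  exact hqN'

theorem nodal_closed (hD : IsOpen D) (h : IsNodal D f N) (hf : ContinuousOn f D)
    {ε : ℝ} (hε : 0 < ε) (hcl : IsClosed {q | q ∈ D ∧ ε ≤ f q}) :
    IsClosed {q | q ∈ N ∧ ε ≤ f q} := by
  refine isClosed_of_closure_subset fun q hq => ?_
  have h1 : q ∈ {q | q ∈ D ∧ ε ≤ f q} := by
    refine closure_minimal ?_ hcl hq
    rintro p ⟨hp1, hp2⟩
    exact ⟨(h.sub p hp1).1, hp2⟩
  have h2 : q ∈ closure N := closure_mono (fun p hp => hp.1) hq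
  exact ⟨nodal_lim hD hf h h2 h1.1 (hε.trans_le h1.2), h1.2⟩

theorem nodal_closed_of_closure (hD : IsOpen D) (h : IsNodal D f N) (hf : ContinuousOn f D)
    (hcl : closure N ⊆ D) {ε : ℝ} (hε : 0 < ε) : IsClosed {q | q ∈ N ∧ ε ≤ f q} := by
  refine isClosed_of_closure_subset fun q hq => ?_
  have h2 : q ∈ closure N := closure_mono (fun p hp => hp.1) hq
  have hqD := hcl h2
  have h3 : ε ≤ f q := by
    have hca : ContinuousAt f q := hf.continuousAt (hD.mem_nhds hqD)
    by_contra hcon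
    push Not at hcon
    have hev : ∀ᶠ p in nhds q, f p < ε := hca.eventually (gt_mem_nhds hcon)
    obtain ⟨p, hp1, hp2⟩ := mem_closure_iff_nhds.1 hq _ hev
    exact absurd hp2.2 (not_le.2 hp1)
  exact ⟨nodal_lim hD hf h h2 hqD (hε.trans_le h3), h3⟩

end Pool.Agent.MFE
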