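import Pool.Agent.MFE.NOD
import Pool.Agent.MFE.HKB
import Pool.Agent.MFE.MVI

/-!
# MFE.HKG: the nodal lemma (Holzmann-Kielhoefer)

`d` even in both variables, `-lap d = c d`, `0 < c ≤ C`, `d(0) = 0`, the negative part of `d`
vanishes on the boundary of `D` (in the closed set sense `hneg`), and no nodal domain with zero
boundary values lies in one of the half planes `{x > 0}`, `{y > 0}` (hence by symmetry in one of
the four half planes). Then `d = 0`.

Proof (tools: `HKA`, `HKB`). `𝒟` := all pairs `(s, N)`, `s = ±1`, `N` a nodal domain of `s d` in `D`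
with zero boundary values (`∀ ε > 0, IsClosed {q ∈ N | ε ≤ s d q}`). All nodal domains of `-d` are
in `𝒟` by `hneg` (`nodal_closed`). Different nodal domains (also of different sign) are disjoint.
(1) Let `N ∈ 𝒟`. By `hhalf` (applied to `N` and to its reflection, which is in `𝒟` too),
`nodal_half_x/y`, `N` meets both axes, so it is symmetric (`nodal_sym_x/y`) and contains the image
of an arc `γ_N` (`arc_of_open`; the origin is not in `N` since `d(0) = 0`). `im γ_N ⊆ N ⊆ D`.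
(2) For different `N, N' ∈ 𝒟` the images of `γ_N`, `γ_{N'}` are disjoint, and `fold '' N'` is path
connected, contained in `N' ∩ Qd`, hence disjoint from `im γ_N`; so `im γ_{N'} ⊆ Und γ_N` iff
`fold '' N' ⊆ Und γ_N` (`und_sub`).
(3) Suppose `d ≠ 0` somewhere on `D`. If `d ≥ 0` on `D`: `lap d = -c d ≤ 0`, `smp` gives `d = 0` on
`D` (`D` is connected by solidity: every point is joined to the origin by a segment). So `-d` is
positive somewhere and `𝒟 ≠ ∅`. Fix `N₁ ∈ 𝒟` and let `𝓕` be the set of the `N' ∈ 𝒟` with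
`im γ_{N'} ⊆ Und γ_{N₁}`: the members of `𝓕` are pairwise disjoint open sets, contained in the
bounded set of all points whose folding is in `Und γ_{N₁}` (`und_bdd`), and each has area at least
`A(C) > 0` (`nodal_area`): `𝓕` is finite. On `𝓕 ∪ {N₁}` the relation `im γ_{N'} ⊆ Und γ_N` is
transitive (`und_mono`) and asymmetric (`arc_order`), irreflexive (`und_quad`), so the finite set
`𝓕 ∪ {N₁}` has a minimal element `N`; by transitivity it is minimal in all of `𝒟`: no `N' ∈ 𝒟`,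
`N' ≠ N`, has `im γ_{N'} ⊆ Und γ_N`.
(4) Let `q ∈ D` with `d q ≠ 0`, `fold q ∈ Und γ_N`, `q ∉ N`. Let `N'` be the nodal domain of `s' d`
(`s'` the sign of `d q`) containing `q`. `N'` is disjoint from `N` (if `s' = s` they would be equal,
as `q ∉ N`). `fold '' N'` is path connected, contains `fold q ∈ Und γ_N`, and avoids `im γ_N`
(`fold '' N'` consists of points where `s' d > 0`; if `fold p ∈ im γ_N ⊆ N`, `p ∈ N'`, then `p ∈ N` by
the symmetry of `N`), so it lies in `Und γ_N` (`und_sub`). By `und_closure` the closure of `N'` is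
inside `D` (`fold` of a limit point is in the closure of `Und γ_N`; solidity), so `(s', N') ∈ 𝒟` by
`nodal_closed_of_closure`, and `im γ_{N'} ⊆ N' ∩ Qd ⊆ fold '' N' ⊆ Und γ_N`: against minimality.
(5) So with `s` the sign of `d` on `N`: `s d ≥ 0` on `W := {q | fold q ∈ Und γ_N}  ∪ N`. `W` is open
(`und_open`: for `q` near `q₀` with `fold q₀ ∈ Und γ_N`, `fold q ∈ Qd ∩ O`), `W ⊆ D` (`und_out`),
and connected: the first set is path connected to the origin (a path in `Und γ_N` from `fold q` to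
`0` unfolds to a path from `q`: apply the signs of the coordinates of `q`), `N` is connected, and
the two sets meet or touch: `im γ_N ⊆ N` open, and the points of the segment from the origin to
the first point of `im γ_N` on the `x`-axis are in `Und γ_N` and accumulate at a point of `N`.
`lap (s d) = -c s d ≤ 0`, `s d (0) = 0`: `smp` gives `d = 0` on `W ⊇ N`: contradiction.
-/

open scoped ContDiff

namespace Pool.Agent.MFE

open MeasureTheory Filter Topology

private theorem fold_cont84 : Continuous fold := by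
  unfold fold
  fun_prop

private theorem fold_quad84 (q : ℝ × ℝ) : fold q ∈ Qd := ⟨abs_nonneg _, abs_nonneg _⟩

private theorem fold_id84 {q : ℝ × ℝ} (h : q ∈ Qd) : fold q = q := by
  unfold fold
  exact Prod.ext (abs_of_nonneg h.1) (abs_of_nonneg h.2)

private theorem fold_solid84 {D : Set (ℝ × ℝ)} (hD : Solid D) {q : ℝ × ℝ} (h : fold q ∈ D) :
    q ∈ D := by
  have := hD.solid |q.1| |q.2| q.1 q.2 h (by rw [abs_abs]) (by rw [abs_abs])
  simpa using this

private theorem unfold84 {N : Set (ℝ × ℝ)} (sx : ∀ x y : ℝ, (x, y) ∈ N → (-x, y) ∈ N)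
    (sy : ∀ x y : ℝ, (x, y) ∈ N → (x, -y) ∈ N) {q : ℝ × ℝ} (h : fold q ∈ N) : q ∈ N := by
  obtain ⟨x, y⟩ := q
  have h' : (|x|, |y|) ∈ N := h
  rcases le_total 0 x with hx | hx <;> rcases le_total 0 y with hy | hy
  · rwa [abs_of_nonneg hx, abs_of_nonneg hy] at h'
  · rw [abs_of_nonneg hx, abs_of_nonpos hy] at h'
    simpa using sy _ _ h'
  · rw [abs_of_nonpos hx, abs_of_nonneg hy] at h'
    simpa using sx _ _ h'
  · rw [abs_of_nonpos hx, abs_of_nonpos hy] at h'
    simpa using sx _ _ (sy _ _ h')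

private theorem lap_mul84 (s : ℝ) (d : ℝ × ℝ → ℝ) (hs : s = 1 ∨ s = -1) (q : ℝ × ℝ) :
    lap (fun q => s * d q) q = s * lap d q := by
  rcases hs with rfl | rfl
  · simp
  · have e : (fun q => -1 * d q) = fun q => -(d q) := by
      funext q; ring
    have e1 : dx (fun q => -(d q)) = fun q => -(dx d q) := by
      funext q
      unfold dx
      rw [fderiv_fun_neg]
      simp
    have e2 : dy (fun q => -(d q)) = fun q => -(dy d q) := by
      funext q
      unfold dy
      rw [fderiv_fun_neg]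
      simp
    unfold lap
    rw [e, e1, e2]
    unfold dx dy
    rw [fderiv_fun_neg, fderiv_fun_neg]
    simp
    ring

/-- nodal domains with zero boundary values -/
private structure Gd84 (D : Set (ℝ × ℝ)) (d : ℝ × ℝ → ℝ) (s : ℝ) (N : Set (ℝ × ℝ)) : Prop where
  sg : s = 1 ∨ s = -1
  nod : IsNodal D (fun q => s * d q) N
  cl : ∀ ε : ℝ, 0 < ε → IsClosed {q | q ∈ N ∧ ε ≤ s * d q}

private theorem nod_eq84 {D : Set (ℝ × ℝ)} {d : ℝ × ℝ → ℝ} {s s' : ℝ} {N N' : Set (ℝ × ℝ)}
    (hs : s = 1 ∨ s = -1) (hs' : s' = 1 ∨ s' = -1)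
    (h : IsNodal D (fun q => s * d q) N) (h' : IsNodal D (fun q => s' * d q) N')
    (hm : (N ∩ N').Nonempty) : N = N' := by
  obtain ⟨q, hq, hq'⟩ := hm
  have h1 := (h.sub q hq).2
  have h2 := (h'.sub q hq').2
  have e : s = s' := by
    rcases hs with rfl | rfl <;> rcases hs' with rfl | rfl
    · rfl
    · exfalso; linarith
    · exfalso; linarith
    · rfl
  subst e
  exact nodal_eq h h' ⟨q, hq, hq'⟩

private theorem conn84 {γ : ℝ → ℝ × ℝ} (h : Arc γ) : IsPreconnected {q | fold q ∈ Und γ} := by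
  have hpc := und_pathConnected h
  refine isPreconnected_of_forall (0, 0) fun q hq => ?_
  set φ : ℝ × ℝ → ℝ × ℝ := fun p => ((if 0 ≤ q.1 then 1 else -1) * p.1,
    (if 0 ≤ q.2 then 1 else -1) * p.2) with hφ
  have hφc : Continuous φ := by
    rw [hφ]
    exact (continuous_const.mul continuous_fst).prodMk (continuous_const.mul continuous_snd)
  have hfold : ∀ p ∈ Qd, fold (φ p) = p := by
    intro p hp
    rw [hφ]
    unfold fold
    refine Prod.ext ?_ ?_
    · simp only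
      rw [abs_mul, abs_of_nonneg hp.1]
      split_ifs <;> simp
    · simp only
      rw [abs_mul, abs_of_nonneg hp.2]
      split_ifs <;> simp
  refine ⟨φ '' Und γ, ?_, ?_, ?_, (hpc.image hφc).isConnected.isPreconnected⟩
  · rintro _ ⟨p, hp, rfl⟩
    show fold (φ p) ∈ Und γ
    rw [hfold p (und_quad γ hp).1]
    exact hp
  · refine ⟨(0, 0), und_zero h, ?_⟩
    rw [hφ]
    simp
  · refine ⟨fold q, hq, ?_⟩
    rw [hφ]
    unfold fold
    refine Prod.ext ?_ ?_
    · simp only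
      split_ifs with h1
      · rw [abs_of_nonneg h1, one_mul]
      · rw [abs_of_neg (not_le.1 h1)]; ring
    · simp only
      split_ifs with h1
      · rw [abs_of_nonneg h1, one_mul]
      · rw [abs_of_neg (not_le.1 h1)]; ring

private theorem meet84 {γ : ℝ → ℝ × ℝ} (h : Arc γ) {N : Set (ℝ × ℝ)} (hN : IsOpen N)
    (hγ : im γ ⊆ N) : ({q | fold q ∈ Und γ} ∩ N).Nonempty := by
  have him : IsCompact (im γ) := isCompact_Icc.image_of_continuousOn h.cont
  set K : Set ℝ := Set.Icc 0 1 ∩ (fun t : ℝ => t • γ 0) ⁻¹' im γ with hK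
  have hKc : IsCompact K :=
    isCompact_Icc.inter_right (him.isClosed.preimage (by fun_prop))
  have hKne : K.Nonempty := ⟨1, ⟨by norm_num, by norm_num⟩, by
    show (1 : ℝ) • γ 0 ∈ im γ
    rw [one_smul]
    exact ⟨0, ⟨le_refl _, by norm_num⟩, rfl⟩⟩
  have hγ0 : γ 0 ∈ Qd := h.quad 0 ⟨le_refl _, by norm_num⟩
  have ht0 := hKc.sInf_mem hKne
  set t₀ := sInf K with ht₀
  have hlow : ∀ t ∈ K, t₀ ≤ t := fun t ht => csInf_le ⟨0, fun x hx => hx.1.1⟩ ht
  have ht0pos : 0 < t₀ := by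
    rcases lt_or_eq_of_le ht0.1.1 with h1 | h1
    · exact h1
    · exfalso
      obtain ⟨u, hu, h2⟩ := ht0.2
      rw [← h1] at h2
      simp only [zero_smul] at h2
      exact h.ne u hu h2
  have hin : ∀ t, 0 ≤ t → t < t₀ → t • γ 0 ∈ Und γ := by
    intro t ht htt
    have hS : IsPathConnected ((fun u : ℝ => u • γ 0) '' Set.Icc 0 t) :=
      ((convex_Icc 0 t).isPathConnected ⟨0, le_refl _, ht⟩).image (by fun_prop)
    refine und_sub hS ?_ ⟨(0, 0), ⟨0, ⟨le_refl _, ht⟩, ?_⟩, und_zero h⟩ ⟨t, ⟨ht, le_refl _⟩, rfl⟩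
    · rintro _ ⟨u, hu, rfl⟩
      refine ⟨⟨mul_nonneg hu.1 hγ0.1, mul_nonneg hu.1 hγ0.2⟩, fun hc => ?_⟩
      have h1 : u ∈ K := ⟨⟨hu.1, by linarith [hu.2, ht0.1.2]⟩, hc⟩
      have := hlow u h1
      linarith [hu.2]
    · simp only [zero_smul]
      rfl
  have hcont : Continuous fun t : ℝ => t • γ 0 := by fun_prop
  have hnb : (fun t : ℝ => t • γ 0) ⁻¹' N ∈ 𝓝 t₀ :=
    (hN.preimage hcont).mem_nhds (hγ ht0.2)
  obtain ⟨e, he, hb⟩ := Metric.mem_nhds_iff.1 hnb
  set t := max 0 (t₀ - e / 2) with ht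
  have h1 : 0 ≤ t := le_max_left _ _
  have h2 : t < t₀ := max_lt ht0pos (by linarith)
  have h3 : t ∈ Metric.ball t₀ e := by
    rw [Metric.mem_ball, Real.dist_eq, abs_lt]
    have : t₀ - e / 2 ≤ t := le_max_right _ _
    constructor <;> linarith
  have h4 := hin t h1 h2
  refine ⟨t • γ 0, ?_, hb h3⟩
  show fold (t • γ 0) ∈ Und γ
  rw [fold_id84 (und_quad γ h4).1]
  exact h4

theorem hk_gen {D : Set (ℝ × ℝ)} (hD : Solid D) {L : ℝ} (hL : D ⊆ Str L)
    {d c : ℝ × ℝ → ℝ} {C M : ℝ} (hd : ContDiffOn ℝ 2 d D) (evx : EvX d) (evy : EvY d)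
    (h0 : d (0, 0) = 0) (hc : ∀ q ∈ D, 0 < c q ∧ c q ≤ C)
    (heq : ∀ q ∈ D, -lap d q = c q * d q) (hM : ∀ q ∈ D, |d q| ≤ M)
    (hneg : ∀ ε : ℝ, 0 < ε → IsClosed {q | q ∈ D ∧ d q ≤ -ε})
    (hhalf : ∀ (s : ℝ) (N : Set (ℝ × ℝ)), (s = 1 ∨ s = -1) →
      IsNodal D (fun q => s * d q) N →
      (∀ ε : ℝ, 0 < ε → IsClosed {q | q ∈ N ∧ ε ≤ s * d q}) →
      ¬ N ⊆ {q | 0 < q.1} ∧ ¬ N ⊆ {q | 0 < q.2}) :
    ∀ q ∈ D, d q = 0 := by
  classical
  by_contra hcon
  push Not at hcon
  obtain ⟨q0, hq0, hdq0⟩ := hcon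
  have sdc : ∀ s : ℝ, ContDiffOn ℝ 2 (fun q => s * d q) D := fun s => contDiffOn_const.mul hd
  have sdcont : ∀ s : ℝ, ContinuousOn (fun q => s * d q) D := fun s => (sdc s).continuousOn
  have hevx : ∀ s : ℝ, EvX (fun q => s * d q) := fun s x y => by
    show s * d (-x, y) = s * d (x, y)
    rw [evx]
  have hevy : ∀ s : ℝ, EvY (fun q => s * d q) := fun s x y => by
    show s * d (x, -y) = s * d (x, y)
    rw [evy]
  -- symmetry and arcs
  have hsym : ∀ s N, Gd84 D d s N → (∀ x y : ℝ, (x, y) ∈ N → (-x, y) ∈ N) ∧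
      (∀ x y : ℝ, (x, y) ∈ N → (x, -y) ∈ N) ∧ ∃ γ, Arc γ ∧ im γ ⊆ N := by
    intro s N h
    have hb : ∃ b : ℝ, ((0 : ℝ), b) ∈ N := by
      by_contra hn
      push Not at hn
      rcases nodal_half_x h.nod hn with h1 | h1
      · exact (hhalf s N h.sg h.nod h.cl).1 h1
      · refine (hhalf s _ h.sg (nodal_refl_x hD (hevx s) h.nod) ?_).1 h1
        intro ε hε
        have h2 := (h.cl ε hε).preimage
          (show Continuous fun q : ℝ × ℝ => (-q.1, q.2) by fun_prop)
        convert h2 using 1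
        ext q
        simp only [Set.mem_ofPred_eq, Set.mem_preimage]
        rw [evx q.1 q.2]
    have ha : ∃ a : ℝ, (a, (0 : ℝ)) ∈ N := by
      by_contra hn
      push Not at hn
      rcases nodal_half_y h.nod hn with h1 | h1
      · exact (hhalf s N h.sg h.nod h.cl).2 h1
      · refine (hhalf s _ h.sg (nodal_refl_y hD (hevy s) h.nod) ?_).2 h1
        intro ε hε
        have h2 := (h.cl ε hε).preimage
          (show Continuous fun q : ℝ × ℝ => (q.1, -q.2) by fun_prop)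
        convert h2 using 1
        ext q
        simp only [Set.mem_ofPred_eq, Set.mem_preimage]
        rw [evy q.1 q.2]
    obtain ⟨a, ha⟩ := ha
    obtain ⟨b, hb⟩ := hb
    have sx := nodal_sym_x hD (hevx s) h.nod hb
    have sy := nodal_sym_y hD (hevy s) h.nod ha
    refine ⟨sx, sy, arc_of_open h.nod.isOpen h.nod.conn sx sy ha hb ?_⟩
    intro hc0
    have := (h.nod.sub _ hc0).2
    simp only [h0, mul_zero, lt_self_iff_false] at this
  set 𝒟 : Set (Set (ℝ × ℝ)) := {N | ∃ s, Gd84 D d s N} with h𝒟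
  have hex : ∀ N ∈ 𝒟, ∃ γ, Arc γ ∧ im γ ⊆ N := by
    rintro N ⟨s, h⟩
    exact (hsym s N h).2.2
  choose! Γ hΓ using hex
  have imne : ∀ γ : ℝ → ℝ × ℝ, (im γ).Nonempty := fun γ => ⟨γ 0, 0, ⟨le_refl _, by norm_num⟩, rfl⟩
  -- folding of a member which is under an arc
  have hunder : ∀ N ∈ 𝒟, ∀ N' : Set (ℝ × ℝ), IsOpen N' → IsConnected N' → Disjoint N' N →
      (∃ p ∈ N', fold p ∈ Und (Γ N)) → fold '' N' ⊆ Und (Γ N) := by
    intro N hN N' ho hco hdis hp
    obtain ⟨p, hp, hpu⟩ := hp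
    refine und_sub (fold_path ho hco) ?_ ⟨fold p, ⟨p, hp, rfl⟩, hpu⟩
    rintro _ ⟨z, hz, rfl⟩
    refine ⟨fold_quad84 z, fun hc => ?_⟩
    obtain ⟨s, hs⟩ := hN
    have h1 : fold z ∈ N := (hΓ N ⟨s, hs⟩).2 hc
    have h2 : z ∈ N := unfold84 (hsym s N hs).1 (hsym s N hs).2.1 h1
    exact Set.disjoint_left.1 hdis hz h2
  have hdisj : ∀ N ∈ 𝒟, ∀ N' ∈ 𝒟, N ≠ N' → Disjoint N N' := by
    rintro N ⟨s, h⟩ N' ⟨s', h'⟩ hne
    rw [Set.disjoint_iff_inter_eq_empty]
    by_contra hcn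
    exact hne (nod_eq84 h.sg h'.sg h.nod h'.nod (Set.nonempty_iff_ne_empty.2 hcn))
  -- existence of a member
  have hDconn : IsPreconnected D := by
    refine isPreconnected_of_forall (0, 0) fun q hq => ?_
    refine ⟨segment ℝ (0, 0) q, ?_, left_mem_segment _ _ _, right_mem_segment _ _ _,
      (convex_segment _ _).isPreconnected⟩
    intro z hz
    obtain ⟨a, b, ha, hb, hab, rfl⟩ := hz
    have e : a • ((0 : ℝ), (0 : ℝ)) + b • q = (b * q.1, b * q.2) := by
      refine Prod.ext ?_ ?_ <;> simp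
    rw [e]
    have hb1 : b ≤ 1 := by linarith
    refine hD.solid q.1 q.2 _ _ hq ?_ ?_
    · rw [abs_mul, abs_of_nonneg hb]
      exact mul_le_of_le_one_left (abs_nonneg _) hb1
    · rw [abs_mul, abs_of_nonneg hb]
      exact mul_le_of_le_one_left (abs_nonneg _) hb1
  have hD1 : ∃ N₁, N₁ ∈ 𝒟 := by
    have hneg1 : ∃ q ∈ D, d q < 0 := by
      by_contra hn
      push Not at hn
      refine hdq0 (smp hD.isOpen hDconn hd hn (fun q hq => ?_) hD.zero_mem h0 q0 hq0)
      have h1 := heq q hq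
      have h2 := mul_nonneg (hc q hq).1.le (hn q hq)
      linarith
    obtain ⟨q, hq, hdq⟩ := hneg1
    obtain ⟨N, hN, hqN⟩ := nodal_exists (f := fun q => -1 * d q) hD.isOpen (sdcont (-1)) hq
      (by show 0 < -1 * d q; linarith)
    refine ⟨N, -1, Or.inr rfl, hN, fun ε hε => ?_⟩
    refine nodal_closed (f := fun q => -1 * d q) hD.isOpen hN (sdcont (-1)) hε ?_
    convert hneg ε hε using 1
    ext q
    simp only [Set.mem_ofPred_eq]
    constructor
    · rintro ⟨a, b⟩; exact ⟨a, by linarith⟩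
    · rintro ⟨a, b⟩; exact ⟨a, by linarith⟩
  obtain ⟨N₁, hN₁⟩ := hD1
  -- finiteness
  obtain ⟨A, hA, harea⟩ := nodal_area C
  set 𝓕 : Set (Set (ℝ × ℝ)) := {N' | N' ∈ 𝒟 ∧ im (Γ N') ⊆ Und (Γ N₁)} with h𝓕
  have hBbdd : Bornology.IsBounded {q | fold q ∈ Und (Γ N₁)} := by
    obtain ⟨R, hR⟩ := isBounded_iff_forall_norm_le.1 (und_bdd (hΓ N₁ hN₁).1)
    refine isBounded_iff_forall_norm_le.2 ⟨R, fun q hq => ?_⟩
    have h1 := hR _ hq
    have e : ‖fold q‖ = ‖q‖ := by
      rw [Prod.norm_def, Prod.norm_def]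
      unfold fold
      simp
    rwa [e] at h1
  have hFsub : ∀ N' ∈ 𝓕, N' ⊆ {q | fold q ∈ Und (Γ N₁)} := by
    rintro N' ⟨hN', hsub⟩
    have hne : N' ≠ N₁ := by
      rintro rfl
      obtain ⟨p, hp⟩ := imne (Γ N')
      exact (und_quad _ (hsub hp)).2 hp
    obtain ⟨s', h'⟩ := hN'
    have h1 := hunder N₁ hN₁ N' h'.nod.isOpen h'.nod.conn (hdisj N' ⟨s', h'⟩ N₁ hN₁ hne) (by
      obtain ⟨p, hp⟩ := imne (Γ N')
      refine ⟨p, (hΓ N' ⟨s', h'⟩).2 hp, ?_⟩
      rw [fold_id84 (und_quad _ (hsub hp)).1]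
      exact hsub hp)
    intro z hz
    exact h1 ⟨z, hz, rfl⟩
  have hFfin : 𝓕.Finite := by
    have hm := Measure.finite_const_le_meas_of_disjoint_iUnion (volume : Measure (ℝ × ℝ))
      (ε := ENNReal.ofReal A) (ENNReal.ofReal_pos.2 hA) (As := fun N : 𝓕 => (N : Set (ℝ × ℝ)))
      (fun N => by
        obtain ⟨s, hs⟩ := N.2.1
        exact hs.nod.isOpen.measurableSet)
      (fun N N' hne => hdisj _ N.2.1 _ N'.2.1 fun h => hne (Subtype.ext h)) (by
        refine ne_top_of_le_ne_top hBbdd.measure_lt_top.ne (measure_mono ?_)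
        exact Set.iUnion_subset fun N => hFsub N N.2)
    have huniv : {i : 𝓕 | ENNReal.ofReal A ≤ volume (i : Set (ℝ × ℝ))} = Set.univ := by
      refine Set.eq_univ_of_forall fun N => ?_
      obtain ⟨s, hs⟩ := N.2.1
      have hND : (N : Set (ℝ × ℝ)) ⊆ D := fun q hq => (hs.nod.sub q hq).1
      have h1 := harea N (fun q => s * d q) c L hs.nod.isOpen hs.nod.conn.nonempty (hND.trans hL)
        (hBbdd.subset (hFsub N N.2)) ((sdc s).mono hND) (fun q hq => (hs.nod.sub q hq).2)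
        (fun q hq => ⟨(hc q (hND hq)).1.le, (hc q (hND hq)).2⟩) (fun q hq => by
          rw [lap_mul84 s d hs.sg]
          have := heq q (hND hq)
          apply le_of_eq
          linear_combination s * this) hs.cl
      exact (ENNReal.ofReal_le_iff_le_toReal
        (hBbdd.subset (hFsub N N.2)).measure_lt_top.ne).2 h1
    rw [huniv] at hm
    exact Set.finite_coe_iff.1 (Set.finite_univ_iff.1 hm)
  -- a minimal member
  obtain ⟨N, hNmem, hNmin⟩ := Set.Finite.exists_minimalFor (fun N => Und (Γ N)) (insert N₁ 𝓕)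
    (hFfin.insert N₁) (Set.insert_nonempty _ _)
  have hND : N ∈ 𝒟 := by
    rcases hNmem with rfl | h
    · exact hN₁
    · exact h.1
  have hNU : Und (Γ N) ⊆ Und (Γ N₁) := by
    rcases hNmem with rfl | h
    · exact le_refl _
    · refine und_mono (hΓ N₁ hN₁).1 (hΓ N h.1).1 ?_ h.2
      refine Set.disjoint_left.2 fun z hz hz' => ?_
      exact (und_quad _ (h.2 hz')).2 hz
  have hmin : ∀ N' ∈ 𝒟, ¬ im (Γ N') ⊆ Und (Γ N) := by
    intro N' hN' hsub
    have hF' : N' ∈ insert N₁ 𝓕 := Or.inr ⟨hN', hsub.trans hNU⟩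
    have hmono : Und (Γ N') ⊆ Und (Γ N) := by
      refine und_mono (hΓ N hND).1 (hΓ N' hN').1 ?_ hsub
      refine Set.disjoint_left.2 fun z hz hz' => ?_
      exact (und_quad _ (hsub hz')).2 hz
    have h1 : Und (Γ N) ⊆ Und (Γ N') := hNmin hF' hmono
    obtain ⟨p, hp⟩ := imne (Γ N')
    exact (und_quad _ (h1 (hsub hp))).2 hp
  have hNgood := hND
  obtain ⟨s, hs⟩ := hND
  have hArc := (hΓ N hNgood).1
  have hIm := (hΓ N hNgood).2
  have hNsub : N ⊆ D := fun q hq => (hs.nod.sub q hq).1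
  have hImD : im (Γ N) ⊆ D := hIm.trans hNsub
  -- step (4)
  have h4 : ∀ q ∈ D, d q ≠ 0 → fold q ∈ Und (Γ N) → q ∈ N := by
    intro q hqD hdq hqU
    by_contra hqN
    obtain ⟨s', hs', hpos⟩ : ∃ s' : ℝ, (s' = 1 ∨ s' = -1) ∧ 0 < s' * d q := by
      rcases lt_or_gt_of_ne hdq with h | h
      · exact ⟨-1, Or.inr rfl, by linarith⟩
      · exact ⟨1, Or.inl rfl, by linarith⟩
    obtain ⟨N', hN', hqN'⟩ := nodal_exists (f := fun q => s' * d q) hD.isOpen (sdcont s') hqD hpos
    have hdis : Disjoint N' N := by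
      rw [Set.disjoint_iff_inter_eq_empty]
      by_contra hcn
      have := nod_eq84 hs' hs.sg hN' hs.nod (Set.nonempty_iff_ne_empty.2 hcn)
      exact hqN (this ▸ hqN')
    have hfU := hunder N hNgood N' hN'.isOpen hN'.conn hdis ⟨q, hqN', hqU⟩
    have hcl : closure N' ⊆ D := by
      intro p hp
      have h1 : fold p ∈ closure (fold '' N') :=
        image_closure_subset_closure_image fold_cont84 ⟨p, hp, rfl⟩
      exact fold_solid84 hD (und_closure hD hArc hImD (closure_mono hfU h1))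
    have hG : N' ∈ 𝒟 := ⟨s', hs', hN', fun ε hε =>
      nodal_closed_of_closure (f := fun q => s' * d q) hD.isOpen hN' (sdcont s') hcl hε⟩
    refine hmin N' hG fun z hz => ?_
    have h1 : z ∈ N' := (hΓ N' hG).2 hz
    have h2 : z ∈ Qd := by
      obtain ⟨t, ht, rfl⟩ := hz
      exact (hΓ N' hG).1.quad t ht
    have h3 := hfU ⟨z, h1, rfl⟩
    rwa [fold_id84 h2] at h3
  -- step (5)
  obtain ⟨O, hO, hUO⟩ := und_open hArc
  have hBo : IsOpen {q | fold q ∈ Und (Γ N)} := by
    have : {q | fold q ∈ Und (Γ N)} = fold ⁻¹' O := by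
      ext q
      rw [hUO]
      exact ⟨fun h => h.2, fun h => ⟨fold_quad84 q, h⟩⟩
    rw [this]
    exact hO.preimage fold_cont84
  have hBD : {q | fold q ∈ Und (Γ N)} ⊆ D := fun q hq =>
    fold_solid84 hD (und_out hD hArc hImD hq)
  obtain ⟨x, hxB, hxN⟩ := meet84 hArc hs.nod.isOpen hIm
  have hWc : IsPreconnected ({q | fold q ∈ Und (Γ N)} ∪ N) :=
    (conn84 hArc).union x hxB hxN hs.nod.conn.isPreconnected
  have hWD : {q | fold q ∈ Und (Γ N)} ∪ N ⊆ D := Set.union_subset hBD hNsub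
  have hnn : ∀ q ∈ {q | fold q ∈ Und (Γ N)} ∪ N, 0 ≤ s * d q := by
    intro q hq
    by_contra hlt
    push Not at hlt
    have hqN : q ∉ N := fun h => by
      have := (hs.nod.sub q h).2
      linarith
    rcases hq with hq | hq
    · refine hqN (h4 q (hBD hq) (fun h => ?_) hq)
      rw [h, mul_zero] at hlt
      exact lt_irrefl _ hlt
    · exact hqN hq
  have hsmp := smp (f := fun q => s * d q) (hBo.union hs.nod.isOpen) hWc ((sdc s).mono hWD) hnn
    (fun q hq => by
      rw [lap_mul84 s d hs.sg]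
      have h1 := heq q (hWD hq)
      have h2 := mul_nonneg (hc q (hWD hq)).1.le (hnn q hq)
      have h3 : s * lap d q = -(c q * (s * d q)) := by linear_combination -s * h1
      linarith) (q₀ := (0, 0)) (Or.inl (by
        show fold (0, 0) ∈ Und (Γ N)
        rw [fold_id84 (show ((0 : ℝ), (0 : ℝ)) ∈ Qd from ⟨le_refl _, le_refl _⟩)]
        exact und_zero hArc)) (by simp only [h0, mul_zero])
  have h5 := hsmp x (Or.inr hxN)
  have h6 := (hs.nod.sub x hxN).2
  linarith

end Pool.Agent.MFE
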