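import Pool.Agent.MFE.FIX

/-!
# MFE.IFT: local solution curves

`Φ (v, μ) = (v - μ K (E v), v (0,0)) : BF × ℝ → BF × ℝ` is smooth, its derivative at `(v, μ)` is
`(φ, m) ↦ (φ - μ K (E v * φ) - m K (E v), φ (0,0))`, of the form identity minus compact
(`(φ,m) ↦ (μ K (E v * φ) + m K (E v), m - φ (0,0))` is compact: sums and products of compact
operators, finite rank). At a solution (`GSol α μ v`, or `μ = 0`, `v = 0`) it is injective:
`φ = μ K (E v φ) + m K (E v)` is even, vanishes at the origin, solves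
`-lap φ = μ e^v φ + m e^v`: `nondeg` (for `μ = 0`, `v = 0`: `φ = m K 1`, `K 1 > 0` at the origin,
so `m = 0`). By the Fredholm alternative
(`IsCompactOperator.hasEigenvalue_or_mem_resolventSet` with eigenvalue `1`) it is a
continuous linear equivalence. Inverse function theorem (`ContDiffAt.toOpenPartialHomeomorph`,
`ContDiffAt.to_localInverse`): the curve is `p ↦ Φ_loc⁻¹ (0, p)`.
`local_curve` at `p₀ = 0` starts from `(0, 0)`.
-/

open scoped ContDiff BoundedContinuousFunction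

namespace Pool.Agent.MFE

open Filter Topology

theorem IFT_mem {α : ℝ} {q : ℝ × ℝ} : q ∈ Ell α ↔ 0 < wE α q := by
  unfold wE
  constructor
  · intro h
    have h' : α ^ 2 * q.1 ^ 2 + q.2 ^ 2 < 1 := h
    linarith
  · intro h
    show α ^ 2 * q.1 ^ 2 + q.2 ^ 2 < 1
    linarith

theorem IFT_zero_mem (α : ℝ) : ((0 : ℝ), (0 : ℝ)) ∈ Ell α := by
  show α ^ 2 * (0 : ℝ) ^ 2 + (0 : ℝ) ^ 2 < 1
  norm_num

theorem IFT_wE_smooth (α : ℝ) : ContDiff ℝ ∞ (wE α) := by
  unfold wE
  fun_prop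

theorem IFT_two : (2 : WithTop ℕ∞) ≤ ∞ := WithTop.coe_le_coe.2 le_top

/-- the solution with right side one -/
theorem IFT_one (α : ℝ) :
    Dir α (fun _ => 1) (fun q => 1 / (2 * (1 + α ^ 2)) * max (wE α q) 0) := by
  have hpos : 0 < 2 * (1 + α ^ 2) := by positivity
  have hw : ContDiffOn ℝ 2 (wE α) (Ell α) := ((IFT_wE_smooth α).of_le IFT_two).contDiffOn
  have heq : ∀ q ∈ Ell α, 1 / (2 * (1 + α ^ 2)) * max (wE α q) 0 =
      1 / (2 * (1 + α ^ 2)) * wE α q := fun q hq => by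
    rw [max_eq_left (IFT_mem.1 hq).le]
  refine dir_of_c2 ?_ (fun q hq => ?_) ?_ (fun q hq => ?_)
  · exact continuous_const.mul ((IFT_wE_smooth α).continuous.max continuous_const)
  · rw [IFT_mem, not_lt] at hq
    rw [max_eq_right hq, mul_zero]
  · exact (contDiffOn_const.mul hw).congr heq
  · rw [lap_congr (isOpen_ell α) heq hq, lap_const_mul (isOpen_ell α) _ hw hq, lap_wE]
    field_simp

/-- uniqueness of the exponential map -/
theorem IFT_exp_unique {E E' : BF → BF} (hE : IsExp E) (hE' : IsExp E') : E = E' := by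
  funext f
  ext q
  rw [hE, hE']

theorem IFT_K_zero {α : ℝ} {K : BF →L[ℝ] BF} (hK : IsKop α K) (f : BF) {q : ℝ × ℝ}
    (hq : q ∉ Ell α) : K f q = 0 := (hK.dir f).zero q hq

theorem IFT_K_even {α : ℝ} {K : BF →L[ℝ] BF} (hK : IsKop α K) {f : BF} (hx : EvX f)
    (hy : EvY f) : Dir α f (K f) := by
  have h := hK.dir f
  rwa [sym4_even hx hy] at h

/-- the solution with right side `exp 0` -/
theorem IFT_K_exp_zero {α : ℝ} (hα : 0 < α) {K : BF →L[ℝ] BF} (hK : IsKop α K)
    {E : BF → BF} (hE : IsExp E) : K (E 0) (0, 0) = 1 / (2 * (1 + α ^ 2)) := by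
  have h0 : ∀ q, E 0 q = 1 := fun q => by
    rw [hE]; simp
  have hx : EvX (E 0) := fun x y => by rw [h0, h0]
  have hy : EvY (E 0) := fun x y => by rw [h0, h0]
  have h1 := IFT_K_even hK hx hy
  have h2 : Dir α (E 0) (fun q => 1 / (2 * (1 + α ^ 2)) * max (wE α q) 0) :=
    dir_congr (fun q _ => (h0 q).symm) (IFT_one α)
  have h3 := dir_unique hα (E 0).continuous.continuousOn h1 h2
  have h4 := congrFun h3 (0, 0)
  rw [h4]
  simp [wE]

private theorem IFT_compact_prod {X Y Z : Type*} [NormedAddCommGroup X] [NormedAddCommGroup Y]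
    [NormedAddCommGroup Z] {f : X → Y} {g : X → Z} (hf : IsCompactOperator f)
    (hg : IsCompactOperator g) : IsCompactOperator (fun x => (f x, g x)) := by
  obtain ⟨K1, h1, h1'⟩ := hf
  obtain ⟨K2, h2, h2'⟩ := hg
  refine ⟨K1 ×ˢ K2, h1.prod h2, ?_⟩
  filter_upwards [h1', h2'] with x hx1 hx2
  exact ⟨hx1, hx2⟩

private theorem IFT_compact_real {X : Type*} [NormedAddCommGroup X] [NormedSpace ℝ X]
    (g : X →L[ℝ] ℝ) : IsCompactOperator g := by
  refine ⟨Metric.closedBall 0 1, isCompact_closedBall _ _, ?_⟩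
  have h : Tendsto g (𝓝 0) (𝓝 (g 0)) := g.continuous.tendsto 0
  rw [map_zero] at h
  exact h (Metric.closedBall_mem_nhds 0 one_pos)

private theorem IFT_inj {α : ℝ} (hα : 0 < α) (hα1 : α ≤ 1) {K : BF →L[ℝ] BF} (hK : IsKop α K)
    {E : BF → BF} (hE : IsExp E) {μ : ℝ} {v : BF} (h : GSol α μ v ∨ (μ = 0 ∧ v = 0))
    {φ : BF} {m : ℝ} (he : φ = μ • K (E v * φ) + m • K (E v)) (h0 : φ (0, 0) = 0) :
    φ = 0 ∧ m = 0 := by
  rcases h with h | ⟨rfl, rfl⟩
  · have evx : EvX φ := by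
      intro x y
      rw [he]
      have e1 := hK.evx (E v * φ) x y
      have e2 := hK.evx (E v) x y
      simp only [BoundedContinuousFunction.coe_add, BoundedContinuousFunction.coe_smul,
        Pi.add_apply, e1, e2]
    have evy : EvY φ := by
      intro x y
      rw [he]
      have e1 := hK.evy (E v * φ) x y
      have e2 := hK.evy (E v) x y
      simp only [BoundedContinuousFunction.coe_add, BoundedContinuousFunction.coe_smul,
        Pi.add_apply, e1, e2]
    have vx := GSol.evx hα h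
    have vy := GSol.evy hα h
    have ex : EvX (E v) := fun x y => by rw [hE, hE, vx x y]
    have ey : EvY (E v) := fun x y => by rw [hE, hE, vy x y]
    obtain ⟨w, hw⟩ : ∃ w : BF, w = E v * φ := ⟨_, rfl⟩
    have hwq : ∀ q, w q = E v q * φ q := fun q => by rw [hw]; rfl
    have px : EvX w := fun x y => by
      rw [hwq, hwq, ex x y, evx x y]
    have py : EvY w := fun x y => by
      rw [hwq, hwq, ey x y, evy x y]
    rw [← hw] at he
    have d1 := dir_smul μ (IFT_K_even hK px py)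
    have d2 := dir_smul m (IFT_K_even hK ex ey)
    have k1 : ContinuousOn (fun q => μ * w q) (Ell α) :=
      (continuous_const.mul w.continuous).continuousOn
    have k2 : ContinuousOn (fun q => m * E v q) (Ell α) :=
      (continuous_const.mul (E v).continuous).continuousOn
    have d3 := dir_add k1 k2 d1 d2
    have d4 : (fun q => μ * K w q + m * K (E v) q) = φ := by
      funext q
      conv_rhs => rw [he]
      simp only [BoundedContinuousFunction.coe_add, BoundedContinuousFunction.coe_smul,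
        Pi.add_apply, smul_eq_mul]
    rw [d4] at d3
    have hvs := h.smooth
    have hexp : ContDiffOn ℝ ∞ (fun q => Real.exp (v q)) (Ell α) :=
      Real.contDiff_exp.comp_contDiffOn hvs
    have hwk : Weak φ (fun q => (μ * Real.exp (v q)) * φ q + m * Real.exp (v q)) (Ell α) := by
      have hw0 := d3.weak
      have e1 : (fun q => μ * w q + m * E v q) =
          fun q => (μ * Real.exp (v q)) * φ q + m * Real.exp (v q) := by
        funext q
        rw [hwq, hE]
        ring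
      rwa [e1] at hw0
    obtain ⟨hs, hq⟩ := reg_lin (isOpen_ell α) φ.continuous.continuousOn
      (contDiffOn_const.mul hexp) (contDiffOn_const.mul hexp) hwk
    obtain ⟨r1, r2⟩ := nondeg hα hα1 h φ.continuous d3.zero hs evx evy h0 hq
    exact ⟨by ext q; rw [r1 q]; rfl, r2⟩
  · rw [zero_smul, zero_add] at he
    have h1 := IFT_K_exp_zero hα hK hE
    have h2 : φ (0, 0) = m * K (E 0) (0, 0) := by
      conv_lhs => rw [he]
      rfl
    rw [h0, h1] at h2
    have h3 : (1 : ℝ) / (2 * (1 + α ^ 2)) ≠ 0 := by positivity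
    have hm : m = 0 := by
      rcases mul_eq_zero.1 h2.symm with h4 | h4
      · exact h4
      · exact absurd h4 h3
    refine ⟨?_, hm⟩
    rw [he, hm, zero_smul]

theorem local_curve {α : ℝ} (hα : 0 < α) (hα1 : α ≤ 1) {K : BF →L[ℝ] BF} (hK : IsKop α K)
    {E : BF → BF} (hE : IsExp E) {μ : ℝ} {v : BF}
    (h : GSol α μ v ∨ (μ = 0 ∧ v = 0)) :
    ∃ (ε : ℝ) (M : ℝ → ℝ) (V : ℝ → BF), 0 < ε ∧
      ContDiffOn ℝ ∞ M (Set.Ioo (v (0, 0) - ε) (v (0, 0) + ε)) ∧
      ContDiffOn ℝ ∞ V (Set.Ioo (v (0, 0) - ε) (v (0, 0) + ε)) ∧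
      M (v (0, 0)) = μ ∧ V (v (0, 0)) = v ∧
      ∀ p ∈ Set.Ioo (v (0, 0) - ε) (v (0, 0) + ε),
        V p = M p • K (E (V p)) ∧ V p (0, 0) = p := by
  obtain ⟨E', hE', hEs, hEd⟩ := exp_exists
  obtain rfl : E' = E := IFT_exp_unique hE' hE
  obtain ⟨L, hL, hLh⟩ := hEd v
  -- the map
  set ev0 : BF →L[ℝ] ℝ := BoundedContinuousFunction.evalCLM ℝ ((0 : ℝ), (0 : ℝ)) with hev0
  set Φ : BF × ℝ → BF × ℝ := fun z => (z.1 - z.2 • K (E' z.1), ev0 z.1) with hΦ
  have hΦs : ContDiff ℝ ∞ Φ := by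
    refine (contDiff_fst.sub (contDiff_snd.smul ?_)).prodMk (ev0.contDiff.comp contDiff_fst)
    exact K.contDiff.comp (hEs.comp contDiff_fst)
  -- the derivative
  set T1 : BF × ℝ →L[ℝ] BF := μ • (K.comp (L.comp (ContinuousLinearMap.fst ℝ BF ℝ)))
    + (ContinuousLinearMap.snd ℝ BF ℝ).smulRight (K (E' v)) with hT1
  set T : BF × ℝ →L[ℝ] BF × ℝ := T1.prod
    (ContinuousLinearMap.snd ℝ BF ℝ - ev0.comp (ContinuousLinearMap.fst ℝ BF ℝ)) with hT
  have hT1a : ∀ z : BF × ℝ, T1 z = μ • K (E' v * z.1) + z.2 • K (E' v) := by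
    intro z
    rw [← hLh z.1]
    rfl
  have hder : HasFDerivAt Φ (1 - T : BF × ℝ →L[ℝ] BF × ℝ) (v, μ) := by
    have a1 : HasFDerivAt (fun z : BF × ℝ => K (E' z.1))
        (K.comp (L.comp (ContinuousLinearMap.fst ℝ BF ℝ))) (v, μ) := by
      have b1 : HasFDerivAt (fun z : BF × ℝ => E' z.1)
          (L.comp (ContinuousLinearMap.fst ℝ BF ℝ)) (v, μ) :=
        HasFDerivAt.comp (v, μ) (g := E') (f := fun z : BF × ℝ => z.1) hL.hasFDerivAt
          (ContinuousLinearMap.fst ℝ BF ℝ).hasFDerivAt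
      exact K.hasFDerivAt.comp (v, μ) b1
    have a2 : HasFDerivAt (fun z : BF × ℝ => z.2 • K (E' z.1)) T1 (v, μ) := by
      have b2 : HasFDerivAt (fun z : BF × ℝ => z.2) (ContinuousLinearMap.snd ℝ BF ℝ) (v, μ) :=
        (ContinuousLinearMap.snd ℝ BF ℝ).hasFDerivAt
      exact b2.smul a1
    have a3 : HasFDerivAt (fun z : BF × ℝ => z.1) (ContinuousLinearMap.fst ℝ BF ℝ) (v, μ) :=
      (ContinuousLinearMap.fst ℝ BF ℝ).hasFDerivAt
    have a4 : HasFDerivAt (fun z : BF × ℝ => ev0 z.1)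
        (ev0.comp (ContinuousLinearMap.fst ℝ BF ℝ)) (v, μ) := ev0.hasFDerivAt.comp (v, μ) a3
    have a5 := (a3.sub a2).prodMk a4
    have a6 : ((ContinuousLinearMap.fst ℝ BF ℝ - T1).prod
        (ev0.comp (ContinuousLinearMap.fst ℝ BF ℝ))) = (1 - T : BF × ℝ →L[ℝ] BF × ℝ) := by
      refine ContinuousLinearMap.ext fun z => ?_
      refine Prod.ext ?_ ?_
      · rfl
      · show ev0 z.1 = z.2 - (z.2 - ev0 z.1)
        ring
    rw [a6] at a5
    exact a5
  -- compactness
  have hTc : IsCompactOperator T := by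
    have c1 : IsCompactOperator T1 := by
      have c2 : IsCompactOperator (K.comp (L.comp (ContinuousLinearMap.fst ℝ BF ℝ))) :=
        hK.comp.comp_clm (L.comp (ContinuousLinearMap.fst ℝ BF ℝ))
      have c3 : IsCompactOperator
          ((ContinuousLinearMap.snd ℝ BF ℝ).smulRight (K (E' v))) := by
        have c4 := (IFT_compact_real (ContinuousLinearMap.snd ℝ BF ℝ)).clm_comp
          ((ContinuousLinearMap.id ℝ ℝ).smulRight (K (E' v)))
        exact c4
      exact (c2.smul μ).add c3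
    exact IFT_compact_prod c1 (IFT_compact_real _)
  have hunit : IsUnit (1 - T : BF × ℝ →L[ℝ] BF × ℝ) := by
    rcases IsCompactOperator.hasEigenvalue_or_mem_resolventSet (μ := (1 : ℝ)) hTc one_ne_zero
      with h1 | h1
    · exfalso
      obtain ⟨z, hz⟩ := h1.exists_hasEigenvector
      have hz1 : T z = z := by
        have := hz.apply_eq_smul
        rw [one_smul] at this
        exact this
      have hz2 : T1 z = z.1 := congrArg Prod.fst hz1
      have hz3 : z.2 - ev0 z.1 = z.2 := congrArg Prod.snd hz1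
      have hz4 : z.1 (0, 0) = 0 := by
        have : ev0 z.1 = 0 := by linarith
        exact this
      rw [hT1a] at hz2
      obtain ⟨r1, r2⟩ := IFT_inj hα hα1 hK hE h hz2.symm hz4
      exact hz.2 (Prod.ext r1 r2)
    · rw [spectrum.mem_resolventSet_iff, map_one] at h1
      exact h1
  obtain ⟨A, hA⟩ : ∃ A : (BF × ℝ) ≃L[ℝ] (BF × ℝ),
      (A : BF × ℝ →L[ℝ] BF × ℝ) = 1 - T := by
    obtain ⟨w, hw⟩ := hunit
    exact ⟨ContinuousLinearEquiv.ofUnit w, by rw [← hw]; rfl⟩
  rw [← hA] at hder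
  have hn : (∞ : WithTop ℕ∞) ≠ 0 := by simp
  set e := ContDiffAt.toOpenPartialHomeomorph Φ (hΦs.contDiffAt (x := (v, μ))) hder hn with he
  have hecoe : (e : BF × ℝ → BF × ℝ) = Φ :=
    ContDiffAt.toOpenPartialHomeomorph_coe (hΦs.contDiffAt (x := (v, μ))) hder hn
  have hmem : (v, μ) ∈ e.source :=
    ContDiffAt.mem_toOpenPartialHomeomorph_source (hΦs.contDiffAt (x := (v, μ))) hder hn
  have hS : IsOpen {z : BF × ℝ | fderiv ℝ Φ z ∈ Set.range
      (ContinuousLinearEquiv.toContinuousLinearMap :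
        ((BF × ℝ) ≃L[ℝ] (BF × ℝ)) → (BF × ℝ →L[ℝ] BF × ℝ))} :=
    ContinuousLinearEquiv.isOpen.preimage (hΦs.continuous_fderiv hn)
  have hN := e.isOpen_inter_preimage_symm hS
  have hfix : Φ (v, μ) = (0, v (0, 0)) := by
    rcases h with h | ⟨rfl, rfl⟩
    · have h1 := (fix_gsol hα hα1 h.mu_pos hK hE' v).2 h
      refine Prod.ext ?_ rfl
      show v - μ • K (E' v) = 0
      rw [← h1, sub_self]
    · refine Prod.ext ?_ rfl
      show (0 : BF) - (0 : ℝ) • K (E' 0) = 0
      rw [zero_smul, sub_zero]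
  have hsymm : e.symm (0, v (0, 0)) = (v, μ) := by
    rw [← hfix, ← hecoe]
    exact e.left_inv hmem
  have hNmem : ((0 : BF), v (0, 0)) ∈ e.target ∩ e.symm ⁻¹' {z : BF × ℝ | fderiv ℝ Φ z ∈
      Set.range (ContinuousLinearEquiv.toContinuousLinearMap :
        ((BF × ℝ) ≃L[ℝ] (BF × ℝ)) → (BF × ℝ →L[ℝ] BF × ℝ))} := by
    refine ⟨?_, ?_⟩
    · have := e.map_source hmem
      rw [hecoe, hfix] at this
      exact this
    · rw [Set.mem_preimage, Set.mem_ofPred_eq, hsymm, hder.fderiv]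
      exact ⟨A, rfl⟩
  have hcont : Continuous fun p : ℝ => ((0 : BF), p) := by fun_prop
  obtain ⟨ε, hε, hball⟩ := Metric.mem_nhds_iff.1 ((hN.preimage hcont).mem_nhds hNmem)
  have hIoo : ∀ p ∈ Set.Ioo (v (0, 0) - ε) (v (0, 0) + ε), ((0 : BF), p) ∈ e.target ∩
      e.symm ⁻¹' {z : BF × ℝ | fderiv ℝ Φ z ∈
      Set.range (ContinuousLinearEquiv.toContinuousLinearMap :
        ((BF × ℝ) ≃L[ℝ] (BF × ℝ)) → (BF × ℝ →L[ℝ] BF × ℝ))} := by
    intro p hp
    refine hball ?_
    rw [Metric.mem_ball, Real.dist_eq, abs_lt]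
    constructor <;> linarith [hp.1, hp.2]
  have hsm : ContDiffOn ℝ ∞ (fun p : ℝ => e.symm ((0 : BF), p))
      (Set.Ioo (v (0, 0) - ε) (v (0, 0) + ε)) := by
    intro p hp
    obtain ⟨t1, A', hA'⟩ := hIoo p hp
    have t2 : HasFDerivAt e (A' : BF × ℝ →L[ℝ] BF × ℝ) (e.symm (0, p)) := by
      rw [hA', hecoe]
      exact ((hΦs.differentiable hn) _).hasFDerivAt
    have t3 : ContDiffAt ℝ ∞ e (e.symm (0, p)) := by
      rw [hecoe]
      exact hΦs.contDiffAt
    have t4 := e.contDiffAt_symm t1 t2 t3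
    have t5 : ContDiffAt ℝ ∞ (fun p : ℝ => ((0 : BF), p)) p :=
      contDiffAt_const.prodMk contDiffAt_id
    exact (t4.comp p t5).contDiffWithinAt
  refine ⟨ε, fun p => (e.symm (0, p)).2, fun p => (e.symm (0, p)).1, hε,
    contDiff_snd.comp_contDiffOn hsm, contDiff_fst.comp_contDiffOn hsm, ?_, ?_, fun p hp => ?_⟩
  · show (e.symm (0, v (0, 0))).2 = μ
    rw [hsymm]
  · show (e.symm (0, v (0, 0))).1 = v
    rw [hsymm]
  · have h1 := e.right_inv (hIoo p hp).1
    rw [hecoe] at h1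
    have h2 : (e.symm (0, p)).1 - (e.symm (0, p)).2 • K (E' (e.symm (0, p)).1) = 0 :=
      congrArg Prod.fst h1
    have h3 : (e.symm (0, p)).1 (0, 0) = p := congrArg Prod.snd h1
    exact ⟨sub_eq_zero.1 h2, h3⟩

end Pool.Agent.MFE
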