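import Pool.Agent.MFE.BFD
import Pool.Agent.MFE.GRN

/-!
# MFE.KOP: the solution operator on bounded continuous functions

`kop_exists`: `K₀ f` := the solution `u` of `Dir α f u` (`dir_exists`, `dir_unique`), a bounded
continuous function (`dir_bound`: `|u| ≤ ‖f‖/2`); linear by `dir_add`, `dir_smul` and
`dir_unique`; `K f = K₀ (sym4 f)`. Evenness: `dir_evx`, `dir_evy`. Compactness: the image of the
unit ball consists of functions vanishing outside `CEll α`, bounded by `1/2` and Lipschitz with
constant `17` (`dir_lip`); such a set is relatively compact: restrict to the compact space `CEll α`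
(`BoundedContinuousFunction.arzela_ascoli` there), and note that the restriction map is an
isometry on functions vanishing outside `CEll α`; or show directly that it is totally bounded.

`exp_exists`: `E = NormedSpace.exp` (complete commutative normed algebra; evaluation at a point is
a continuous algebra homomorphism: `NormedSpace.map_exp`) or an explicit definition;
smoothness: `NormedSpace.exp_analytic`; derivative: `hasStrictFDerivAt_exp`,
`hasFDerivAt_exp`-type lemmas for commutative algebras.
-/

open scoped ContDiff BoundedContinuousFunction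

namespace Pool.Agent.MFE

private theorem kop_sym4_cont (f : BF) : Continuous (sym4 f) := by
  unfold sym4
  have hf := f.continuous
  fun_prop

private theorem kop_sym4_bound (f : BF) (q : ℝ × ℝ) : |sym4 f q| ≤ ‖f‖ := by
  unfold sym4
  have h : ∀ z, |f z| ≤ ‖f‖ := fun z => f.norm_coe_le_norm z
  have h1 := abs_le.1 (h (q.1, q.2))
  have h2 := abs_le.1 (h (-q.1, q.2))
  have h3 := abs_le.1 (h (q.1, -q.2))
  have h4 := abs_le.1 (h (-q.1, -q.2))
  rw [abs_le]
  constructor <;> linarith [h1.1, h1.2, h2.1, h2.2, h3.1, h3.2, h4.1, h4.2]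

private theorem kop_sym4_evx (f : BF) : EvX (sym4 f) := by
  intro x y
  simp only [sym4, neg_neg]
  ring

private theorem kop_sym4_evy (f : BF) : EvY (sym4 f) := by
  intro x y
  simp only [sym4, neg_neg]
  ring

private theorem kop_ell_le {α : ℝ} {q : ℝ × ℝ} (hq : q ∈ Ell α) : 0 ≤ wE α q ∧ wE α q ≤ 1 := by
  have h : α ^ 2 * q.1 ^ 2 + q.2 ^ 2 < 1 := hq
  unfold wE
  constructor
  · linarith
  · have h1 : 0 ≤ α ^ 2 * q.1 ^ 2 := by positivity
    have h2 : 0 ≤ q.2 ^ 2 := by positivity
    linarith

private theorem kop_cell_compact {α : ℝ} (hα : 0 < α) : IsCompact (CEll α) := by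
  have hsub : CEll α ⊆ Set.Icc (-(1 / α)) (1 / α) ×ˢ Set.Icc (-1 : ℝ) 1 := by
    intro q hq
    have h : α ^ 2 * q.1 ^ 2 + q.2 ^ 2 ≤ 1 := hq
    have h1 : (α * q.1) ^ 2 ≤ 1 := by nlinarith [sq_nonneg q.2]
    have h2 : q.2 ^ 2 ≤ 1 := by nlinarith [sq_nonneg (α * q.1)]
    have h3 := abs_le.1 ((sq_le_one_iff_abs_le_one _).1 h1)
    have h4 := abs_le.1 ((sq_le_one_iff_abs_le_one _).1 h2)
    refine ⟨⟨?_, ?_⟩, ⟨h4.1, h4.2⟩⟩
    · have h5 : (-1) / α ≤ q.1 := by
        rw [div_le_iff₀ hα]; linarith [h3.1]
      rw [neg_div] at h5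
      exact h5
    · rw [le_div_iff₀ hα]; linarith [h3.2]
  refine (isCompact_Icc.prod isCompact_Icc).of_isClosed_subset ?_ hsub
  have hc : Continuous fun q : ℝ × ℝ => α ^ 2 * q.1 ^ 2 + q.2 ^ 2 := by fun_prop
  exact isClosed_le hc continuous_const

/-- the compact set which contains the image of the unit ball -/
private def kopA (α : ℝ) : Set BF :=
  {u | (∀ q, q ∉ Ell α → u q = 0) ∧ (∀ q, |u q| ≤ 1 / 2) ∧
    ∀ q q' : ℝ × ℝ, |u q - u q'| ≤ 17 * (|q.1 - q'.1| + |q.2 - q'.2|)}

private def kopR (α : ℝ) (u : BF) : (CEll α) →ᵇ ℝ :=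
  u.compContinuous ⟨Subtype.val, continuous_subtype_val⟩

private theorem kopR_apply (α : ℝ) (u : BF) (q : CEll α) : kopR α u q = u q.1 := rfl

private theorem kopA_compact {α : ℝ} (hα : 0 < α) : IsCompact (closure (kopA α)) := by
  have hcs : CompactSpace (CEll α) := isCompact_iff_compactSpace.1 (kop_cell_compact hα)
  have himg : TotallyBounded (kopR α '' kopA α) := by
    have hc : IsCompact (closure (kopR α '' kopA α)) := by
      refine BoundedContinuousFunction.arzela_ascoli (Set.Icc (-(1 / 2) : ℝ) (1 / 2)) isCompact_Icc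
        _ ?_ ?_
      · rintro _ q ⟨u, hu, rfl⟩
        rw [kopR_apply]
        exact abs_le.1 (hu.2.1 q.1)
      · refine Metric.equicontinuous_of_continuity_modulus (fun t => 34 * t) ?_ _ ?_
        · have : Filter.Tendsto (fun t : ℝ => 34 * t) (nhds 0) (nhds (34 * 0)) :=
            (continuous_const.mul continuous_id).tendsto 0
          rwa [mul_zero] at this
        · rintro q q' ⟨_, u, hu, rfl⟩
          change dist (kopR α u q) (kopR α u q') ≤ _
          rw [kopR_apply, kopR_apply, Real.dist_eq]
          refine (hu.2.2 q.1 q'.1).trans ?_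
          have h1 : |q.1.1 - q'.1.1| ≤ dist q.1 q'.1 := by
            rw [← Real.dist_eq, Prod.dist_eq]; exact le_max_left _ _
          have h2 : |q.1.2 - q'.1.2| ≤ dist q.1 q'.1 := by
            rw [← Real.dist_eq, Prod.dist_eq]; exact le_max_right _ _
          have h3 : dist q q' = dist q.1 q'.1 := rfl
          rw [h3]
          linarith
    exact hc.totallyBounded.subset subset_closure
  have hiso : Isometry (fun u : kopA α => kopR α u.1) := by
    refine Isometry.of_dist_eq fun u v => ?_
    change dist (kopR α u.1) (kopR α v.1) = dist u.1 v.1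
    apply le_antisymm
    · rw [BoundedContinuousFunction.dist_le dist_nonneg]
      intro q
      exact BoundedContinuousFunction.dist_coe_le_dist (f := u.1) (g := v.1) q.1
    · rw [BoundedContinuousFunction.dist_le dist_nonneg]
      intro q
      by_cases hq : q ∈ CEll α
      · exact BoundedContinuousFunction.dist_coe_le_dist (f := kopR α u.1) (g := kopR α v.1) ⟨q, hq⟩
      · have hq' : q ∉ Ell α := fun h => hq (by
          have h' : α ^ 2 * q.1 ^ 2 + q.2 ^ 2 < 1 := h
          exact h'.le)
        rw [u.2.1 q hq', v.2.1 q hq', dist_self]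
        exact dist_nonneg
  have h1 := totallyBounded_preimage hiso.isUniformInducing himg
  have h2 : TotallyBounded (Subtype.val '' ((fun u : kopA α => kopR α u.1) ⁻¹'
      (kopR α '' kopA α))) := h1.image uniformContinuous_subtype_val
  have h3 : kopA α ⊆ Subtype.val '' ((fun u : kopA α => kopR α u.1) ⁻¹' (kopR α '' kopA α)) := by
    intro u hu
    exact ⟨⟨u, hu⟩, ⟨u, hu, rfl⟩, rfl⟩
  exact (h2.subset h3).closure.isCompact_of_isClosed isClosed_closure

theorem kop_exists {α : ℝ} (hα : 0 < α) (hα1 : α ≤ 1) : ∃ K : BF →L[ℝ] BF, IsKop α K := by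
  have hex : ∀ f : BF, ∃ u : ℝ × ℝ → ℝ, Dir α (sym4 f) u :=
    fun f => dir_exists hα (kop_sym4_cont f).continuousOn
  choose u hu using hex
  have hbd : ∀ (f : BF) q, ‖u f q‖ ≤ ‖f‖ / 2 := by
    intro f q
    by_cases hq : q ∈ Ell α
    · have h1 := dir_bound hα (kop_sym4_cont f).continuousOn (hu f)
        (fun z _ => kop_sym4_bound f z) q hq
      rw [Real.norm_eq_abs]
      refine h1.trans ?_
      have h2 := kop_ell_le hq
      have h3 := norm_nonneg f
      nlinarith [h2.1, h2.2]
    · rw [(hu f).zero q hq, norm_zero]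
      have := norm_nonneg f
      linarith
  let U : BF → BF := fun f =>
    BoundedContinuousFunction.ofNormedAddCommGroup (u f) (hu f).cont (‖f‖ / 2) (hbd f)
  have hU : ∀ f q, U f q = u f q := fun f q => rfl
  have hlin : ∀ (f : BF) (w : ℝ × ℝ → ℝ), Dir α (sym4 f) w → w = u f := fun f w hw =>
    dir_unique hα (kop_sym4_cont f).continuousOn hw (hu f)
  let K0 : BF →ₗ[ℝ] BF :=
    { toFun := U
      map_add' := fun f g => by
        ext q
        have h1 := dir_add (kop_sym4_cont f).continuousOn (kop_sym4_cont g).continuousOn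
          (hu f) (hu g)
        have h2 : (fun q => sym4 f q + sym4 g q) = sym4 (f + g : BF) := by
          funext z
          simp only [sym4, BoundedContinuousFunction.coe_add, Pi.add_apply]
          ring
        rw [h2] at h1
        have h3 := congrFun (hlin _ _ h1) q
        rw [BoundedContinuousFunction.coe_add, Pi.add_apply, hU, hU, hU]
        exact h3.symm
      map_smul' := fun c f => by
        ext q
        have h1 := dir_smul c (hu f)
        have h2 : (fun q => c * sym4 f q) = sym4 (c • f : BF) := by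
          funext z
          simp only [sym4, BoundedContinuousFunction.coe_smul, smul_eq_mul]
          ring
        rw [h2] at h1
        have h3 := congrFun (hlin _ _ h1) q
        exact h3.symm }
  let K : BF →L[ℝ] BF := K0.mkContinuous (1 / 2) (fun f => by
    have h1 : ‖U f‖ ≤ ‖f‖ / 2 :=
      BoundedContinuousFunction.norm_ofNormedAddCommGroup_le _ (by positivity) _
    have h2 : K0 f = U f := rfl
    rw [h2]
    linarith)
  have hK : ∀ f q, K f q = u f q := fun f q => rfl
  have hKf : ∀ f : BF, (K f : ℝ × ℝ → ℝ) = u f := fun f => rfl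
  refine ⟨K, ?_, ?_, ?_, ?_⟩
  · intro f
    rw [hKf]; exact hu f
  · have h1 : IsCompactOperator (K : BF →ₗ[ℝ] BF) := by
      rw [isCompactOperator_iff_isCompact_closure_image_closedBall (K : BF →ₗ[ℝ] BF) zero_lt_one]
      refine (kopA_compact hα).closure_of_subset ?_
      rintro _ ⟨f, hf, rfl⟩
      apply subset_closure
      have hf1 : ‖f‖ ≤ 1 := by simpa using hf
      refine ⟨fun q hq => ?_, fun q => ?_, fun q q' => ?_⟩
      · exact (hu f).zero q hq
      · refine (hbd f q).trans ?_
        linarith
      · have h2 := dir_lip hα hα1 (kop_sym4_cont f).continuousOn (hu f) (M := 1)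
          (fun z _ => (kop_sym4_bound f z).trans hf1) q q'
        rw [mul_one] at h2
        exact h2
    exact h1
  · intro f
    rw [hKf]
    exact dir_evx hα (kop_sym4_cont f).continuousOn (hu f) (kop_sym4_evx f)
  · intro f
    rw [hKf]
    exact dir_evy hα (kop_sym4_cont f).continuousOn (hu f) (kop_sym4_evy f)

theorem exp_exists : ∃ E : BF → BF, IsExp E ∧ ContDiff ℝ ∞ E ∧
    ∀ f : BF, ∃ L : BF →L[ℝ] BF, HasStrictFDerivAt E L f ∧ ∀ h : BF, L h = E f * h := by
  refine ⟨NormedSpace.exp, ?_, ?_, ?_⟩
  · intro f q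
    let ev : BF →+* ℝ :=
      { toFun := fun f => f q
        map_one' := rfl
        map_mul' := fun _ _ => rfl
        map_zero' := rfl
        map_add' := fun _ _ => rfl }
    have hev : Continuous ev := (BoundedContinuousFunction.lipschitz_eval_const q).continuous
    have h := NormedSpace.map_exp ev hev f
    have h2 : ev f = f q := rfl
    rw [h2, ← Real.exp_eq_exp_ℝ] at h
    exact h
  · exact contDiff_iff_contDiffAt.2 fun f => (NormedSpace.exp_analytic (𝕂 := ℝ) f).contDiffAt
  · intro f
    exact ⟨NormedSpace.exp f • (1 : BF →L[ℝ] BF), hasStrictFDerivAt_exp, fun h => rfl⟩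

/-- for even functions no symmetrisation is needed -/
theorem sym4_even {f : ℝ × ℝ → ℝ} (hx : EvX f) (hy : EvY f) : sym4 f = f := by
  funext q
  unfold sym4
  rw [hx q.1 (-q.2), hx q.1 q.2, hy q.1 q.2]
  ring

end Pool.Agent.MFE
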