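import Pool.Agent.MFE.PIC
import Pool.Agent.MFE.GNS

/-!
# MFE.NOD: a positive subsolution with zero boundary values is a multiple of a positive
supersolution

`η`, `χ` from `trunc`, `cutx`; `F_ε(q) = ε η(ψ(q)/ε)`, `f = F_ε · χ(q.1/R)` (extended by zero
outside `N`): `C²` with compact support in `N` (`{ψ ≥ ε} ∩ {|x| ≤ 2R}` is closed and bounded).
`∫ gdot f f = ∫ F² χ_x² + ∫ (-lap F) F χ²` (Green with `F χ²`; expand), and
`-lap F = -η'(ψ/ε) lap ψ - (1/ε) η'' gdot ψ ψ ≤ η' c ψ ≤ c ψ`. With `picone`: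
`∫_N g² gdot (f/g)(f/g) ≤ ∫ F² χ_x² + ∫ (c ψ F - c F²) χ²`. Let `ε → 0` (`0 ≤ ψ - F ≤ 2ε`,
dominated convergence, Fatou; on a compact set of `N` one has `F = ψ - const·ε`... for small `ε`:
`F_ε → ψ` and its derivatives converge since `η' = 1` for `s ≥ 2`): for every compact `K ⊆ N`
`∫_K g² gdot (ψχ/g)(ψχ/g) ≤ ∫_N ψ² χ_x² ≤ M² (C/R)² · 4R · 2L → 0` as `R → ∞`. Hence the gradient
of `ψ/g` vanishes on `N`, `N` connected: `ψ = κ g`.

`nodal_area`: replace `C` by `max C 1`. `N` bounded, `f = F_ε`: `∫ gdot F F ≤ ∫ c ψ F ≤ C ∫ ψ F`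
and `gns`: `∫ F² ≤ C_S |N| ∫ gdot F F`; `ε → 0` (`ψ` is bounded since `{1 ≤ ψ}` is compact):
`0 < ∫_N ψ² ≤ C_S |N| C ∫_N ψ²`, so `|N| ≥ 1/(C_S C)`.
-/

open scoped ContDiff

namespace Pool.Agent.MFE

open MeasureTheory Filter Topology

/-- properties of the truncation -/
private structure Tr51 (η : ℝ → ℝ) : Prop where
  sm : ContDiff ℝ ∞ η
  z : ∀ s, s ≤ 1 → η s = 0
  d1 : ∀ s, 0 ≤ deriv η s ∧ deriv η s ≤ 1
  d2 : ∀ s, 0 ≤ deriv (deriv η) s
  lo : ∀ s, s - 2 ≤ η s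
  nn : ∀ s, 0 ≤ η s
  up : ∀ s, 0 ≤ s → η s ≤ s
  one : ∀ s, 2 ≤ s → deriv η s = 1

private theorem exists_tr51 : ∃ η : ℝ → ℝ, Tr51 η := by
  obtain ⟨η, h1, h2, h3, h4, h5, h6, h7, h8⟩ := trunc
  exact ⟨η, h1, h2, h3, h4, h5, h6, h7, h8⟩

/-- truncated function times a factor -/
private noncomputable def FX51 (N : Set (ℝ × ℝ)) (ψ : ℝ × ℝ → ℝ) (η : ℝ → ℝ) (ε : ℝ)
    (X : ℝ × ℝ → ℝ) : ℝ × ℝ → ℝ := N.indicator fun q => ε * η (ψ q / ε) * X q

private theorem fx_of_mem51 {N : Set (ℝ × ℝ)} {ψ : ℝ × ℝ → ℝ} {η : ℝ → ℝ} {ε : ℝ}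
    {X : ℝ × ℝ → ℝ} {q : ℝ × ℝ} (hq : q ∈ N) : FX51 N ψ η ε X q = ε * η (ψ q / ε) * X q :=
  Set.indicator_of_mem hq _

private theorem fx_of_notMem51 {N : Set (ℝ × ℝ)} {ψ : ℝ × ℝ → ℝ} {η : ℝ → ℝ} {ε : ℝ}
    {X : ℝ × ℝ → ℝ} {q : ℝ × ℝ} (hq : q ∉ N) : FX51 N ψ η ε X q = 0 :=
  Set.indicator_of_notMem hq _

private theorem fx_zero51 {N : Set (ℝ × ℝ)} {ψ : ℝ × ℝ → ℝ} {η : ℝ → ℝ} (hη : Tr51 η) {ε : ℝ}
    (hε : 0 < ε) {X : ℝ × ℝ → ℝ} {q : ℝ × ℝ} (hq : q ∉ {q | q ∈ N ∧ ε ≤ ψ q}) :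
    FX51 N ψ η ε X q = 0 := by
  by_cases h : q ∈ N
  · rw [fx_of_mem51 h]
    have h1 : ψ q < ε := by
      by_contra hc
      exact hq ⟨h, not_lt.1 hc⟩
    have h2 : ψ q / ε ≤ 1 := by rw [div_le_one hε]; exact h1.le
    rw [hη.z _ h2, mul_zero, zero_mul]
  · exact fx_of_notMem51 h

private theorem fx_mul51 {N : Set (ℝ × ℝ)} {ψ : ℝ × ℝ → ℝ} {η : ℝ → ℝ} {ε : ℝ}
    (X Y : ℝ × ℝ → ℝ) (q : ℝ × ℝ) :
    FX51 N ψ η ε (fun z => X z * Y z) q = FX51 N ψ η ε X q * Y q := by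
  by_cases h : q ∈ N
  · rw [fx_of_mem51 h, fx_of_mem51 h]
    ring
  · rw [fx_of_notMem51 h, fx_of_notMem51 h, zero_mul]

private theorem fx_contDiffOn51 {N : Set (ℝ × ℝ)} {ψ : ℝ × ℝ → ℝ}
    {η : ℝ → ℝ} (hη : Tr51 η) {ε : ℝ} (hψ : ContDiffOn ℝ 2 ψ N) {X : ℝ × ℝ → ℝ}
    (hX : ContDiff ℝ 2 X) : ContDiffOn ℝ 2 (fun q => ε * η (ψ q / ε) * X q) N := by
  have h1 : ContDiff ℝ 2 η := contDiff_infty.1 hη.sm 2
  exact (contDiffOn_const.mul (h1.comp_contDiffOn (hψ.div_const ε))).mul hX.contDiffOn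

private theorem fx_contDiff51 {N : Set (ℝ × ℝ)} (hN : IsOpen N) {ψ : ℝ × ℝ → ℝ}
    {η : ℝ → ℝ} (hη : Tr51 η) {ε : ℝ} (hε : 0 < ε) (hψ : ContDiffOn ℝ 2 ψ N)
    (hz : IsClosed {q | q ∈ N ∧ ε ≤ ψ q}) {X : ℝ × ℝ → ℝ}
    (hX : ContDiff ℝ 2 X) : ContDiff ℝ 2 (FX51 N ψ η ε X) := by
  rw [contDiff_iff_contDiffAt]
  intro q
  by_cases hq : q ∈ {q | q ∈ N ∧ ε ≤ ψ q}
  · have h1 := (fx_contDiffOn51 (ε := ε) hη hψ hX).contDiffAt (hN.mem_nhds hq.1)
    refine h1.congr_of_eventuallyEq ?_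
    filter_upwards [hN.mem_nhds hq.1] with z hz'
    exact fx_of_mem51 hz'
  · refine (contDiffAt_const (c := (0 : ℝ))).congr_of_eventuallyEq ?_
    filter_upwards [hz.isOpen_compl.mem_nhds hq] with z hz'
    exact fx_zero51 hη hε hz'

private theorem dx_of_zero51 {D : Set (ℝ × ℝ)} (hD : IsOpen D) {f : ℝ × ℝ → ℝ}
    (hf : ∀ q ∈ D, f q = 0) {q : ℝ × ℝ} (hq : q ∈ D) : dx f q = 0 ∧ dy f q = 0 := by
  rw [dx_congr hD hf hq, dy_congr hD hf hq]
  unfold dx dy
  simp

private theorem cont_of51 {f : ℝ × ℝ → ℝ} (hf : ContDiff ℝ 1 f) :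
    Continuous (dx f) ∧ Continuous (dy f) :=
  ⟨by
    rw [← continuousOn_univ]
    exact cont_dx isOpen_univ hf.contDiffOn, by
    rw [← continuousOn_univ]
    exact cont_dy isOpen_univ hf.contDiffOn⟩

/-- continuous on `N` and zero off a compact part: integrable -/
private theorem int_of51 {N K : Set (ℝ × ℝ)} (hN : IsOpen N) (hK : IsCompact K) (hKN : K ⊆ N)
    {h : ℝ × ℝ → ℝ} (hc : ContinuousOn h N) (h0 : ∀ q ∈ N, q ∉ K → h q = 0) :
    IntegrableOn h N := by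
  have h1 : IntegrableOn h K := (hc.mono hKN).integrableOn_compact hK
  have h2 : IntegrableOn h (N \ K) :=
    (integrableOn_zero (s := N \ K)).congr_fun (fun q hq => (h0 q hq.1 hq.2).symm)
      (hN.measurableSet.diff hK.measurableSet)
  have h3 := h1.union h2
  rwa [Set.union_sdiff_cancel hKN] at h3

/-- the energy of the truncated function -/
private theorem energy51 {N : Set (ℝ × ℝ)} (hN : IsOpen N) {ψ c X : ℝ × ℝ → ℝ} {η : ℝ → ℝ}
    (hη : Tr51 η) {ε : ℝ} (hε : 0 < ε) (hψ : ContDiffOn ℝ 2 ψ N) (ψpos : ∀ q ∈ N, 0 < ψ q)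
    (hc : ContinuousOn c N) (hc0 : ∀ q ∈ N, 0 ≤ c q) (h1 : ∀ q ∈ N, -lap ψ q ≤ c q * ψ q)
    (hz : IsClosed {q | q ∈ N ∧ ε ≤ ψ q}) (hX : ContDiff ℝ 2 X) {K : Set (ℝ × ℝ)}
    (hK : IsCompact K) (hKN : K ⊆ N) (hXK : ∀ q, q ∉ K → FX51 N ψ η ε X q = 0) :
    ∫ q, gdot (FX51 N ψ η ε X) (FX51 N ψ η ε X) q ≤
      (∫ q, (FX51 N ψ η ε (fun _ => 1) q) ^ 2 * gdot X X q) +
      ∫ q in N, c q * ψ q * ((ε * η (ψ q / ε)) * X q ^ 2) := by
  set f := FX51 N ψ η ε X with hf
  set F0 := FX51 N ψ η ε (fun _ => 1) with hF0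
  set f2 := FX51 N ψ η ε (fun q => X q * X q) with hf2
  have cf : ContDiff ℝ 2 f := fx_contDiff51 hN hη hε hψ hz hX
  have cF : ContDiff ℝ 2 F0 := fx_contDiff51 hN hη hε hψ hz contDiff_const
  have cf2 : ContDiff ℝ 2 f2 := fx_contDiff51 hN hη hε hψ hz (hX.mul hX)
  have ef : ∀ q, f q = F0 q * X q := by
    intro q
    rw [hf, hF0, ← fx_mul51]
    simp only [one_mul]
  have ef2 : ∀ q, f2 q = f q * X q := fun q => by rw [hf2, hf, fx_mul51]
  have f2K : ∀ q, q ∉ K → f2 q = 0 := fun q hq => by rw [ef2, hXK q hq, zero_mul]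
  have hdF : Differentiable ℝ F0 := cF.differentiable (by norm_num)
  have hdX : Differentiable ℝ X := hX.differentiable (by norm_num)
  have hdf : Differentiable ℝ f := cf.differentiable (by norm_num)
  have dxf : ∀ q, dx f q = dx F0 q * X q + F0 q * dx X q := fun q => by
    rw [show f = fun z => F0 z * X z from funext ef, dx_mul (hdF q) (hdX q)]
  have dyf : ∀ q, dy f q = dy F0 q * X q + F0 q * dy X q := fun q => by
    rw [show f = fun z => F0 z * X z from funext ef, dy_mul (hdF q) (hdX q)]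
  have dxf2 : ∀ q, dx f2 q = dx f q * X q + f q * dx X q := fun q => by
    rw [show f2 = fun z => f z * X z from funext ef2, dx_mul (hdf q) (hdX q)]
  have dyf2 : ∀ q, dy f2 q = dy f q * X q + f q * dy X q := fun q => by
    rw [show f2 = fun z => f z * X z from funext ef2, dy_mul (hdf q) (hdX q)]
  -- pointwise identity
  have pt : ∀ q, gdot f f q = gdot f2 F0 q + F0 q ^ 2 * gdot X X q := by
    intro q
    unfold gdot
    rw [dxf2, dyf2, dxf, dyf, ef]
    ring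
  have hKc : IsOpen Kᶜ := hK.isClosed.isOpen_compl
  have c1f := cont_of51 (cf.of_le (by norm_num : (1 : WithTop ℕ∞) ≤ 2))
  have c1F := cont_of51 (cF.of_le (by norm_num : (1 : WithTop ℕ∞) ≤ 2))
  have c1f2 := cont_of51 (cf2.of_le (by norm_num : (1 : WithTop ℕ∞) ≤ 2))
  have i1 : Integrable (gdot f f) := by
    have hcont : Continuous (gdot f f) := by
      unfold gdot
      exact (c1f.1.mul c1f.1).add (c1f.2.mul c1f.2)
    refine hcont.integrable_of_hasCompactSupport (HasCompactSupport.intro hK fun q hq => ?_)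
    obtain ⟨a, b⟩ := dx_of_zero51 hKc (fun z hz => hXK z hz) hq
    unfold gdot
    rw [a, b]; ring
  have i2 : Integrable (gdot f2 F0) := by
    have hcont : Continuous (gdot f2 F0) := by
      unfold gdot
      exact (c1f2.1.mul c1F.1).add (c1f2.2.mul c1F.2)
    refine hcont.integrable_of_hasCompactSupport (HasCompactSupport.intro hK fun q hq => ?_)
    obtain ⟨a, b⟩ := dx_of_zero51 hKc (fun z hz => f2K z hz) hq
    unfold gdot
    rw [a, b]; ring
  have i3 : Integrable (fun q => F0 q ^ 2 * gdot X X q) := by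
    have : (fun q => F0 q ^ 2 * gdot X X q) = fun q => gdot f f q - gdot f2 F0 q := by
      funext q
      rw [pt q]; ring
    rw [this]
    exact i1.sub i2
  have s1 : ∫ q, gdot f f q = (∫ q, gdot f2 F0 q) + ∫ q, F0 q ^ 2 * gdot X X q := by
    rw [← integral_add i2 i3]
    exact integral_congr_ae (Eventually.of_forall pt)
  -- Green
  have f2c : HasCompactSupport f2 := HasCompactSupport.intro hK f2K
  have g1 := green1 isOpen_univ (f := f2) (g := F0)
    (cf2.of_le (by norm_num : (1 : WithTop ℕ∞) ≤ 2)) f2c (Set.subset_univ _) cF.contDiffOn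
  have s2 : ∫ q, gdot f2 F0 q = ∫ q, -(f2 q * lap F0 q) := by
    rw [integral_neg, g1, neg_neg]
  have s3 : ∫ q, -(f2 q * lap F0 q) = ∫ q in N, -(f2 q * lap F0 q) := by
    rw [setIntegral_eq_integral_of_forall_compl_eq_zero]
    intro q hq
    rw [hf2, fx_of_notMem51 hq]; ring
  have s4 : ∫ q in N, -(f2 q * lap F0 q) ≤
      ∫ q in N, c q * ψ q * ((ε * η (ψ q / ε)) * X q ^ 2) := by
    have cl : Continuous (lap F0) := by
      rw [← continuousOn_univ]
      exact cont_lap isOpen_univ cF.contDiffOn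
    have j1 : Integrable (fun q => -(f2 q * lap F0 q)) := by
      refine ((cf2.continuous.mul cl).neg).integrable_of_hasCompactSupport
        (HasCompactSupport.intro hK fun q hq => ?_)
      show -(f2 q * lap F0 q) = 0
      rw [f2K q hq]; ring
    have ηc : Continuous η := hη.sm.continuous
    have j2 : IntegrableOn (fun q => c q * ψ q * ((ε * η (ψ q / ε)) * X q ^ 2)) N := by
      refine int_of51 hN hK hKN ?_ ?_
      · exact (hc.mul hψ.continuousOn).mul ((continuousOn_const.mul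
          (ηc.comp_continuousOn (hψ.continuousOn.div_const ε))).mul
          (hX.continuous.pow 2).continuousOn)
      · intro q hqN hqK
        have h2 := f2K q hqK
        rw [hf2, fx_of_mem51 hqN] at h2
        have e : ε * η (ψ q / ε) * X q ^ 2 = ε * η (ψ q / ε) * (X q * X q) := by ring
        rw [e, h2, mul_zero]
    refine setIntegral_mono_on j1.integrableOn j2 hN.measurableSet fun q hq => ?_
    -- pointwise bound
    have hη2 : ContDiff ℝ 2 (fun s => ε * η (s / ε)) := by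
      have h2 : ContDiff ℝ 2 η := contDiff_infty.1 hη.sm 2
      exact contDiff_const.mul (h2.comp (contDiff_id.div_const ε))
    have eF : ∀ z ∈ N, F0 z = (fun s => ε * η (s / ε)) (ψ z) := by
      intro z hz'
      rw [hF0, fx_of_mem51 hz', mul_one]
    have hdη : Differentiable ℝ η := hη.sm.differentiable (by simp)
    have hdη' : Differentiable ℝ (deriv η) := by
      have := (contDiff_infty_iff_deriv.1 hη.sm).2
      exact this.differentiable (by simp)
    have d1 : deriv (fun s => ε * η (s / ε)) = fun s => deriv η (s / ε) := by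
      funext s
      have h3 : HasDerivAt (fun s => ε * η (s / ε)) (ε * (deriv η (s / ε) * (1 / ε))) s := by
        have h4 : HasDerivAt (fun s : ℝ => s / ε) (1 / ε) s := (hasDerivAt_id s).div_const ε
        exact ((hdη (s / ε)).hasDerivAt.comp s h4).const_mul ε
      rw [h3.deriv]
      field_simp
    have d2 : ∀ s, deriv (fun s => deriv η (s / ε)) s = deriv (deriv η) (s / ε) * (1 / ε) := by
      intro s
      have h4 : HasDerivAt (fun s : ℝ => s / ε) (1 / ε) s := (hasDerivAt_id s).div_const ε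
      exact ((hdη' (s / ε)).hasDerivAt.comp s h4).deriv
    have el : lap F0 q = deriv η (ψ q / ε) * lap ψ q
        + deriv (deriv η) (ψ q / ε) * (1 / ε) * gdot ψ ψ q := by
      rw [lap_congr hN eF hq, lap_comp hN hη2 hψ hq, d1, d2]
    have hg : 0 ≤ gdot ψ ψ q := by
      unfold gdot
      nlinarith [mul_self_nonneg (dx ψ q), mul_self_nonneg (dy ψ q)]
    have hlow : -lap F0 q ≤ c q * ψ q := by
      rw [el]
      have a1 := (hη.d1 (ψ q / ε)).1
      have a2 := (hη.d1 (ψ q / ε)).2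
      have a3 : 0 ≤ deriv (deriv η) (ψ q / ε) * (1 / ε) * gdot ψ ψ q :=
        mul_nonneg (mul_nonneg (hη.d2 _) (by positivity)) hg
      have a4 : 0 ≤ c q * ψ q := mul_nonneg (hc0 q hq) (ψpos q hq).le
      have a5 := mul_le_mul_of_nonneg_left (h1 q hq) a1
      nlinarith
    have hp : 0 ≤ ε * η (ψ q / ε) * X q ^ 2 :=
      mul_nonneg (mul_nonneg hε.le (hη.nn _)) (sq_nonneg _)
    have e2 : f2 q = ε * η (ψ q / ε) * X q ^ 2 := by
      rw [hf2, fx_of_mem51 hq]; ring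
    rw [e2]
    have := mul_le_mul_of_nonneg_left hlow hp
    nlinarith
  rw [s1, s2, s3]
  linarith

private theorem tr_shift51 {η : ℝ → ℝ} (hη : Tr51 η) {s : ℝ} (hs : 2 ≤ s) :
    η s = s - (2 - η 2) := by
  have hd : Differentiable ℝ η := hη.sm.differentiable (by simp)
  have h1 : ∀ x ∈ Set.Icc 2 s, η x - x = η 2 - 2 := by
    refine constant_of_derivWithin_zero (f := fun x => η x - x)
      ((hd.sub differentiable_id).differentiableOn) ?_
    intro x hx
    have h2 : HasDerivAt (fun x => η x - x) (deriv η x - 1) x :=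
      (hd x).hasDerivAt.sub (hasDerivAt_id x)
    rw [hη.one x hx.1, sub_self] at h2
    exact h2.hasDerivWithinAt.derivWithin (uniqueDiffOn_Icc (lt_of_le_of_lt hx.1 hx.2) x
      ⟨hx.1, hx.2.le⟩)
  have := h1 s ⟨hs, le_rfl⟩
  linarith

private theorem compactK51 {N : Set (ℝ × ℝ)} {L : ℝ} (hL : N ⊆ Str L) {ψ : ℝ × ℝ → ℝ} {ε : ℝ}
    (hz : IsClosed {q | q ∈ N ∧ ε ≤ ψ q}) (R : ℝ) :
    IsCompact ({q | q ∈ N ∧ ε ≤ ψ q} ∩ {q : ℝ × ℝ | |q.1| ≤ 2 * R}) := by
  have hcl : IsClosed ({q | q ∈ N ∧ ε ≤ ψ q} ∩ {q : ℝ × ℝ | |q.1| ≤ 2 * R}) :=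
    hz.inter (isClosed_le (by fun_prop) continuous_const)
  refine (isCompact_Icc (a := ((-(2 * R), -L) : ℝ × ℝ)) (b := (2 * R, L))).of_isClosed_subset
    hcl ?_
  rintro q ⟨⟨hqN, -⟩, hq⟩
  have h1 := abs_le.1 (show |q.1| ≤ 2 * R from hq)
  have h2 := abs_lt.1 (show |q.2| < L from hL hqN)
  exact ⟨⟨h1.1, h2.1.le⟩, ⟨h1.2, h2.2.le⟩⟩

private theorem F_bd51 {η : ℝ → ℝ} (hη : Tr51 η) {ε : ℝ} (hε : 0 < ε) {s : ℝ} (hs : 0 < s) :
    0 ≤ ε * η (s / ε) ∧ ε * η (s / ε) ≤ s ∧ s - 2 * ε ≤ ε * η (s / ε) := by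
  refine ⟨mul_nonneg hε.le (hη.nn _), ?_, ?_⟩
  · have h := mul_le_mul_of_nonneg_left (hη.up (s / ε) (by positivity)) hε.le
    rwa [mul_div_cancel₀ s hε.ne'] at h
  · have h := mul_le_mul_of_nonneg_left (hη.lo (s / ε)) hε.le
    rw [mul_sub, mul_div_cancel₀ s hε.ne'] at h
    linarith

private theorem rect_vol51 {R L : ℝ} (hR : 0 < R) (hL : 0 < L) :
    volume.real (Set.Icc ((-(2 * R), -L) : ℝ × ℝ) (2 * R, L)) = 8 * R * L := by
  have e : Set.Icc ((-(2 * R), -L) : ℝ × ℝ) (2 * R, L)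
      = Set.Icc (-(2 * R)) (2 * R) ×ˢ Set.Icc (-L) L := by
    rw [Set.Icc_prod_Icc]
  rw [e, Measure.volume_eq_prod, measureReal_prod_prod, Real.volume_real_Icc_of_le (by linarith),
    Real.volume_real_Icc_of_le (by linarith)]
  ring

private theorem gX51 {χ : ℝ → ℝ} (χs : ContDiff ℝ ∞ χ) {Cχ : ℝ}
    (χd : ∀ s, |deriv χ s| ≤ Cχ ∧ |deriv (deriv χ) s| ≤ Cχ) {R : ℝ} (hR : 0 < R) (q : ℝ × ℝ) :
    0 ≤ gdot (fun z => χ (z.1 / R)) (fun z => χ (z.1 / R)) q ∧
      gdot (fun z => χ (z.1 / R)) (fun z => χ (z.1 / R)) q ≤ (Cχ / R) ^ 2 := by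
  have hd : Differentiable ℝ χ := χs.differentiable (by simp)
  have h3 : HasDerivAt (fun s => χ (s / R)) (deriv χ (q.1 / R) * (1 / R)) q.1 := by
    have h4 : HasDerivAt (fun s : ℝ => s / R) (1 / R) q.1 := (hasDerivAt_id q.1).div_const R
    exact (hd (q.1 / R)).hasDerivAt.comp q.1 h4
  have e1 : dx (fun z : ℝ × ℝ => χ (z.1 / R)) q = deriv χ (q.1 / R) * (1 / R) := by
    rw [dx_fst (fun s => χ (s / R)) h3.differentiableAt, h3.deriv]
  have e2 : dy (fun z : ℝ × ℝ => χ (z.1 / R)) q = 0 :=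
    dy_fst (fun s => χ (s / R)) h3.differentiableAt
  unfold gdot
  rw [e1, e2]
  refine ⟨by nlinarith [mul_self_nonneg (deriv χ (q.1 / R) * (1 / R))], ?_⟩
  have h5 : (deriv χ (q.1 / R)) ^ 2 ≤ Cχ ^ 2 := sq_le_sq.2 ((χd _).1.trans (le_abs_self Cχ))
  have e3 : deriv χ (q.1 / R) * (1 / R) * (deriv χ (q.1 / R) * (1 / R)) + 0 * 0
      = (deriv χ (q.1 / R)) ^ 2 * (1 / R) ^ 2 := by ring
  have e4 : (Cχ / R) ^ 2 = Cχ ^ 2 * (1 / R) ^ 2 := by ring
  rw [e3, e4]
  exact mul_le_mul_of_nonneg_right h5 (by positivity)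

/-- the main inequality -/
private theorem main51 {N : Set (ℝ × ℝ)} (hN : IsOpen N) {L : ℝ} (hLp : 0 < L)
    (hL : N ⊆ Str L) {ψ g c : ℝ × ℝ → ℝ} {C M : ℝ} (hCn : 0 ≤ C) (hMn : 0 ≤ M)
    (hψ : ContDiffOn ℝ 2 ψ N) (ψpos : ∀ q ∈ N, 0 < ψ q) (hM : ∀ q ∈ N, ψ q ≤ M)
    (hg : ContDiffOn ℝ 2 g N) (gpos : ∀ q ∈ N, 0 < g q)
    (hc : ContinuousOn c N) (hc0 : ∀ q ∈ N, 0 ≤ c q ∧ c q ≤ C)
    (h1 : ∀ q ∈ N, -lap ψ q ≤ c q * ψ q) (h2 : ∀ q ∈ N, c q * g q ≤ -lap g q)
    {η : ℝ → ℝ} (hη : Tr51 η) {χ : ℝ → ℝ} (χs : ContDiff ℝ ∞ χ)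
    (χ0 : ∀ s, 2 ≤ |s| → χ s = 0) (χb : ∀ s, 0 ≤ χ s ∧ χ s ≤ 1) {Cχ : ℝ}
    (χd : ∀ s, |deriv χ s| ≤ Cχ ∧ |deriv (deriv χ) s| ≤ Cχ)
    {ε R : ℝ} (hε : 0 < ε) (hR : 0 < R) (hz : IsClosed {q | q ∈ N ∧ ε ≤ ψ q}) :
    (IntegrableOn (fun q => g q ^ 2 * gdot (fun z => FX51 N ψ η ε (fun z => χ (z.1 / R)) z / g z)
      (fun z => FX51 N ψ η ε (fun z => χ (z.1 / R)) z / g z) q) N) ∧
    ∫ q in N, g q ^ 2 * gdot (fun z => FX51 N ψ η ε (fun z => χ (z.1 / R)) z / g z)
      (fun z => FX51 N ψ η ε (fun z => χ (z.1 / R)) z / g z) q ≤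
      M ^ 2 * (Cχ / R) ^ 2 * (8 * R * L) + C * (2 * ε) * M * (8 * R * L) := by
  set X : ℝ × ℝ → ℝ := fun z => χ (z.1 / R) with hXd
  set f := FX51 N ψ η ε X with hf
  set K : Set (ℝ × ℝ) := {q | q ∈ N ∧ ε ≤ ψ q} ∩ {q : ℝ × ℝ | |q.1| ≤ 2 * R} with hKd
  have hK : IsCompact K := compactK51 hL hz R
  have hKN : K ⊆ N := fun q hq => hq.1.1
  have hX : ContDiff ℝ 2 X := by
    have h3 : ContDiff ℝ 2 χ := contDiff_infty.1 χs 2
    exact h3.comp (contDiff_fst.div_const R)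
  have hXz : ∀ q : ℝ × ℝ, 2 * R ≤ |q.1| → X q = 0 := by
    intro q hq
    refine χ0 _ ?_
    rw [abs_div, abs_of_pos hR, le_div_iff₀ hR]
    exact hq
  have hXK : ∀ q, q ∉ K → f q = 0 := by
    intro q hq
    by_cases h3 : q ∈ {q | q ∈ N ∧ ε ≤ ψ q}
    · have h4 : 2 * R ≤ |q.1| := by
        by_contra hcon
        exact hq ⟨h3, (not_le.1 hcon).le⟩
      by_cases h5 : q ∈ N
      · rw [hf, fx_of_mem51 h5, hXz q h4, mul_zero]
      · rw [hf, fx_of_notMem51 h5]
    · rw [hf]; exact fx_zero51 hη hε h3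
  have cf : ContDiff ℝ 2 f := fx_contDiff51 hN hη hε hψ hz hX
  have hfc : HasCompactSupport f := HasCompactSupport.intro hK hXK
  have hts : tsupport f ⊆ N := by
    refine subset_trans (closure_minimal ?_ hK.isClosed) hKN
    intro q hq
    by_contra hcon
    exact hq (hXK q hcon)
  have hpic := picone hN hg gpos hc h2 (cf.of_le (by norm_num : (1 : WithTop ℕ∞) ≤ 2)) hfc hts
  have hen := energy51 hN hη hε hψ ψpos hc (fun q hq => (hc0 q hq).1) h1 hz hX hK hKN hXK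
  refine ⟨?_, ?_⟩
  · refine int_of51 hN hK hKN ?_ ?_
    · have h3 : ContDiffOn ℝ 2 (fun z => f z / g z) N :=
        cf.contDiffOn.div hg (fun q hq => (gpos q hq).ne')
      have h4 := cont_dx hN (h3.of_le (by norm_num : (1 : WithTop ℕ∞) ≤ 2))
      have h5 := cont_dy hN (h3.of_le (by norm_num : (1 : WithTop ℕ∞) ≤ 2))
      unfold gdot
      exact (hg.continuousOn.pow 2).mul ((h4.mul h4).add (h5.mul h5))
    · intro q hqN hqK
      obtain ⟨a, b⟩ := dx_of_zero51 (f := fun z => f z / g z) hK.isClosed.isOpen_compl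
        (fun z hz' => by simp only [hXK z hz', zero_div]) hqK
      unfold gdot
      rw [a, b]; ring
  set F0 := FX51 N ψ η ε (fun _ => 1) with hF0
  have ηc : Continuous η := hη.sm.continuous
  have cF : ContinuousOn (fun q => ε * η (ψ q / ε)) N :=
    continuousOn_const.mul (ηc.comp_continuousOn (hψ.continuousOn.div_const ε))
  have hzero : ∀ q ∈ N, q ∉ K → ε * η (ψ q / ε) * X q = 0 := by
    intro q hqN hqK
    have h3 := hXK q hqK
    rwa [hf, fx_of_mem51 hqN] at h3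
  have j1 : IntegrableOn (fun q => c q * ψ q * ((ε * η (ψ q / ε)) * X q ^ 2)) N := by
    refine int_of51 hN hK hKN ?_ ?_
    · exact (hc.mul hψ.continuousOn).mul (cF.mul (hX.continuous.pow 2).continuousOn)
    · intro q hqN hqK
      have e : ε * η (ψ q / ε) * X q ^ 2 = (ε * η (ψ q / ε) * X q) * X q := by ring
      rw [e, hzero q hqN hqK, zero_mul, mul_zero]
  have j2 : IntegrableOn (fun q => c q * f q ^ 2) N := by
    refine int_of51 hN hK hKN (hc.mul (cf.continuous.pow 2).continuousOn) ?_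
    intro q hqN hqK
    rw [hXK q hqK]; ring
  have s1 : (∫ q in N, c q * ψ q * ((ε * η (ψ q / ε)) * X q ^ 2)) - ∫ q in N, c q * f q ^ 2
      = ∫ q in N, (c q * ψ q * ((ε * η (ψ q / ε)) * X q ^ 2) - c q * f q ^ 2) :=
    (integral_sub j1 j2).symm
  set Rc := Set.Icc ((-(2 * R), -L) : ℝ × ℝ) (2 * R, L) with hRc
  have hRcv : volume.real Rc = 8 * R * L := rect_vol51 hR hLp
  have hRcf : volume Rc < ⊤ := isCompact_Icc.measure_lt_top
  have hRcm : ∀ q ∈ N, q ∉ Rc → 2 * R < |q.1| := by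
    intro q hqN hq
    by_contra hcon
    push Not at hcon
    have h3 := abs_le.1 hcon
    have h4 := abs_lt.1 (show |q.2| < L from hL hqN)
    exact hq ⟨⟨h3.1, h4.1.le⟩, ⟨h3.2, h4.2.le⟩⟩
  -- bound two
  have b2 : ∫ q in N, (c q * ψ q * ((ε * η (ψ q / ε)) * X q ^ 2) - c q * f q ^ 2)
      ≤ C * (2 * ε) * M * (8 * R * L) := by
    have e1 : ∫ q in N, (c q * ψ q * ((ε * η (ψ q / ε)) * X q ^ 2) - c q * f q ^ 2)
        = ∫ q in N ∩ Rc, (c q * ψ q * ((ε * η (ψ q / ε)) * X q ^ 2) - c q * f q ^ 2) := by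
      refine setIntegral_eq_of_subset_of_forall_sdiff_eq_zero hN.measurableSet
        Set.inter_subset_left ?_
      rintro q ⟨hqN, hq⟩
      have h3 : X q = 0 := hXz q (hRcm q hqN fun h => hq ⟨hqN, h⟩).le
      rw [hf, fx_of_mem51 hqN, h3]; ring
    rw [e1]
    refine (le_abs_self _).trans ?_
    have h3 := norm_setIntegral_le_of_norm_le_const (μ := volume) (s := N ∩ Rc)
      (f := fun q => c q * ψ q * ((ε * η (ψ q / ε)) * X q ^ 2) - c q * f q ^ 2)
      (C := C * (2 * ε) * M)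
      ((measure_mono Set.inter_subset_right).trans_lt hRcf) (by
        rintro q ⟨hqN, -⟩
        obtain ⟨f1, f2, f3⟩ := F_bd51 hη hε (ψpos q hqN)
        have e2 : c q * ψ q * ((ε * η (ψ q / ε)) * X q ^ 2) - c q * f q ^ 2
            = c q * (ψ q - ε * η (ψ q / ε)) * (ε * η (ψ q / ε)) * X q ^ 2 := by
          rw [hf, fx_of_mem51 hqN]; ring
        rw [e2]
        obtain ⟨c1, c2⟩ := hc0 q hqN
        obtain ⟨x1, x2⟩ := χb (q.1 / R)
        have hX2 : X q ^ 2 ≤ 1 := by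
          have : X q = χ (q.1 / R) := rfl
          rw [this]
          exact pow_le_one₀ x1 x2
        have a1 : 0 ≤ ψ q - ε * η (ψ q / ε) := by linarith
        have a2 : ψ q - ε * η (ψ q / ε) ≤ 2 * ε := by linarith
        have a3 : ε * η (ψ q / ε) ≤ M := f2.trans (hM q hqN)
        rw [Real.norm_of_nonneg (by positivity)]
        calc c q * (ψ q - ε * η (ψ q / ε)) * (ε * η (ψ q / ε)) * X q ^ 2
            ≤ C * (2 * ε) * M * 1 := by gcongr
          _ = C * (2 * ε) * M := mul_one _)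
    rw [Real.norm_eq_abs] at h3
    refine h3.trans ?_
    rw [← hRcv]
    refine mul_le_mul_of_nonneg_left ?_ (by positivity)
    exact measureReal_mono Set.inter_subset_right hRcf.ne
  -- bound one
  have b1 : ∫ q, F0 q ^ 2 * gdot X X q ≤ M ^ 2 * (Cχ / R) ^ 2 * (8 * R * L) := by
    have e1 : ∫ q, F0 q ^ 2 * gdot X X q = ∫ q in Rc, F0 q ^ 2 * gdot X X q := by
      rw [setIntegral_eq_integral_of_forall_compl_eq_zero]
      intro q hq
      by_cases hqN : q ∈ N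
      · have hD : IsOpen {z : ℝ × ℝ | 2 * R < |z.1|} := isOpen_lt continuous_const (by fun_prop)
        obtain ⟨a, b⟩ := dx_of_zero51 hD (f := X) (fun z hz' => hXz z (le_of_lt hz'))
          (hRcm q hqN hq)
        unfold gdot
        rw [a, b]; ring
      · rw [hF0, fx_of_notMem51 hqN]; ring
    rw [e1]
    refine (le_abs_self _).trans ?_
    have h3 := norm_setIntegral_le_of_norm_le_const (μ := volume) (s := Rc)
      (f := fun q => F0 q ^ 2 * gdot X X q) (C := M ^ 2 * (Cχ / R) ^ 2) hRcf (by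
        intro q _
        obtain ⟨x1, x2⟩ := gX51 χs χd hR q
        have hF : 0 ≤ F0 q ∧ F0 q ≤ M := by
          by_cases hqN : q ∈ N
          · obtain ⟨f1, f2, f3⟩ := F_bd51 hη hε (ψpos q hqN)
            rw [hF0, fx_of_mem51 hqN, mul_one]
            exact ⟨f1, f2.trans (hM q hqN)⟩
          · rw [hF0, fx_of_notMem51 hqN]
            exact ⟨le_rfl, hMn⟩
        rw [Real.norm_of_nonneg (mul_nonneg (sq_nonneg _) x1)]
        exact mul_le_mul (pow_le_pow_left₀ hF.1 hF.2 2) x2 x1 (sq_nonneg _))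
    rw [Real.norm_eq_abs, hRcv] at h3
    exact h3
  linarith

theorem nodal_prop {N : Set (ℝ × ℝ)} (hN : IsOpen N) (hconn : IsConnected N) {L : ℝ}
    (hL : N ⊆ Str L) {ψ g c : ℝ × ℝ → ℝ} {C M : ℝ}
    (hψ : ContDiffOn ℝ 2 ψ N) (ψpos : ∀ q ∈ N, 0 < ψ q) (hM : ∀ q ∈ N, ψ q ≤ M)
    (hg : ContDiffOn ℝ 2 g N) (gpos : ∀ q ∈ N, 0 < g q)
    (hc : ContinuousOn c N) (hc0 : ∀ q ∈ N, 0 ≤ c q ∧ c q ≤ C)
    (h1 : ∀ q ∈ N, -lap ψ q ≤ c q * ψ q) (h2 : ∀ q ∈ N, c q * g q ≤ -lap g q)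
    (hz : ∀ ε : ℝ, 0 < ε → IsClosed {q | q ∈ N ∧ ε ≤ ψ q}) :
    ∃ κ : ℝ, 0 < κ ∧ ∀ q ∈ N, ψ q = κ * g q := by
  obtain ⟨η, hη⟩ := exists_tr51
  obtain ⟨χ, χs, χe, χ1, χ0, χb, Cχ, hCχ, χd⟩ := cutx
  obtain ⟨q1, hq1⟩ := hconn.nonempty
  have hLpos : 0 < L := (abs_nonneg _).trans_lt (hL hq1)
  have hMpos : 0 < M := (ψpos q1 hq1).trans_le (hM q1 hq1)
  have hCnn : 0 ≤ C := (hc0 q1 hq1).1.trans (hc0 q1 hq1).2
  have hdψg : ContDiffOn ℝ 2 (fun z => ψ z / g z) N := hψ.div hg fun q hq => (gpos q hq).ne'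
  have hd1g : ContDiffOn ℝ 2 (fun z => 1 / g z) N :=
    contDiffOn_const.div hg fun q hq => (gpos q hq).ne'
  have hcg : ∀ u : ℝ × ℝ → ℝ, ContDiffOn ℝ 2 u N →
      ContinuousOn (fun q => g q ^ 2 * gdot u u q) N := by
    intro u hu
    have h4 := cont_dx hN (hu.of_le (by norm_num : (1 : WithTop ℕ∞) ≤ 2))
    have h5 := cont_dy hN (hu.of_le (by norm_num : (1 : WithTop ℕ∞) ≤ 2))
    unfold gdot
    exact (hg.continuousOn.pow 2).mul ((h4.mul h4).add (h5.mul h5))
  have hgn : ∀ (u : ℝ × ℝ → ℝ) q, 0 ≤ g q ^ 2 * gdot u u q := by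
    intro u q
    unfold gdot
    have := mul_self_nonneg (dx u q)
    have := mul_self_nonneg (dy u q)
    positivity
  set h0 : ℝ × ℝ → ℝ := fun q => g q ^ 2 * gdot (fun z => ψ z / g z) (fun z => ψ z / g z) q with hh0
  set k0 : ℝ × ℝ → ℝ := fun q => g q ^ 2 * gdot (fun z => 1 / g z) (fun z => 1 / g z) q with hk0
  have h0c : ContinuousOn h0 N := hcg _ hdψg
  have k0c : ContinuousOn k0 N := hcg _ hd1g
  have key : ∀ q ∈ N, h0 q = 0 := by
    intro q0 hq0
    by_contra hne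
    have hpos : 0 < h0 q0 := lt_of_le_of_ne (hgn _ _) (Ne.symm hne)
    set δ := h0 q0 / 2 with hδ
    have hδpos : 0 < δ := by positivity
    have hopen : IsOpen (N ∩ h0 ⁻¹' Set.Ioi δ) := h0c.isOpen_inter_preimage hN isOpen_Ioi
    obtain ⟨r, hr, hball⟩ := Metric.isOpen_iff.1 hopen q0 ⟨hq0, by
      show δ < h0 q0
      rw [hδ]; linarith⟩
    set K0 := Metric.closedBall q0 (r / 2) with hK0
    have hK0s : K0 ⊆ N ∩ h0 ⁻¹' Set.Ioi δ := fun z hz' =>
      hball (Metric.closedBall_subset_ball (by linarith) hz')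
    have hK0c : IsCompact K0 := isCompact_closedBall q0 (r / 2)
    have hK0n : K0.Nonempty := ⟨q0, Metric.mem_closedBall_self (by linarith)⟩
    obtain ⟨qm, hqm, hmin⟩ := hK0c.exists_isMinOn hK0n
      (hψ.continuousOn.mono fun z hz' => (hK0s hz').1)
    set m := ψ qm with hm
    have hmpos : 0 < m := ψpos qm (hK0s hqm).1
    have hmle : ∀ z ∈ K0, m ≤ ψ z := fun z hz' => hmin hz'
    obtain ⟨B, hB⟩ := hK0c.exists_bound_of_continuousOn (k0c.mono fun z hz' => (hK0s hz').1)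
    have hBn : 0 ≤ B :=
      (norm_nonneg _).trans (hB q0 (Metric.mem_closedBall_self (by linarith)))
    set V := volume.real K0 with hV
    have hVpos : 0 < V := by
      rw [hV, measureReal_def, ENNReal.toReal_pos_iff]
      exact ⟨Metric.measure_closedBall_pos volume q0 (by linarith), hK0c.measure_lt_top⟩
    obtain ⟨R0, hR0⟩ := hK0c.exists_bound_of_continuousOn (f := fun z : ℝ × ℝ => z.1)
      continuous_fst.continuousOn
    have claim : ∀ R, R0 < R → 0 < R → ∀ ε, 0 < ε → 2 * ε < m →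
        (δ / 2 - 4 * ε ^ 2 * B) * V ≤
          M ^ 2 * (Cχ / R) ^ 2 * (8 * R * L) + C * (2 * ε) * M * (8 * R * L) := by
      intro R hR0R hR ε hε hεm
      obtain ⟨hint, hle⟩ := main51 hN hLpos hL hCnn hMpos.le hψ ψpos hM hg gpos hc hc0 h1 h2 hη
        χs χ0 χb χd hε hR (hz ε hε)
      set f := FX51 N ψ η ε (fun z => χ (z.1 / R)) with hf
      set c0 := 2 - η 2 with hc0d
      have c0a : 0 ≤ c0 := by
        have := hη.up 2 (by norm_num)
        linarith
      have c0b : c0 ≤ 2 := by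
        have := hη.nn 2
        linarith
      set O : Set (ℝ × ℝ) := (N ∩ ψ ⁻¹' Set.Ioi (2 * ε)) ∩ {z | |z.1| < R} with hO
      have hOo : IsOpen O := (hψ.continuousOn.isOpen_inter_preimage hN isOpen_Ioi).inter
        (isOpen_lt (by fun_prop) continuous_const)
      have hf' : ∀ z ∈ O, f z / g z = ψ z / g z - (c0 * ε) * (1 / g z) := by
        intro z hz'
        have h3 : χ (z.1 / R) = 1 := χ1 _ (by
          rw [abs_div, abs_of_pos hR, div_le_one hR]
          exact le_of_lt hz'.2)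
        have h4 : 2 ≤ ψ z / ε := by
          rw [le_div_iff₀ hε]
          exact le_of_lt hz'.1.2
        rw [hf, fx_of_mem51 hz'.1.1, h3, tr_shift51 hη h4, ← hc0d]
        have hgz := (gpos z hz'.1.1).ne'
        field_simp
      have hK0O : K0 ⊆ O := by
        intro z hz'
        refine ⟨⟨(hK0s hz').1, ?_⟩, ?_⟩
        · exact lt_of_lt_of_le hεm (hmle z hz')
        · show |z.1| < R
          have := hR0 z hz'
          rw [Real.norm_eq_abs] at this
          linarith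
      have hlow : ∀ q ∈ K0, δ / 2 - 4 * ε ^ 2 * B ≤
          g q ^ 2 * gdot (fun z => f z / g z) (fun z => f z / g z) q := by
        intro q hq
        have hqN : q ∈ N := (hK0s hq).1
        have d1 : DifferentiableAt ℝ (fun z => ψ z / g z) q :=
          (hdψg.contDiffAt (hN.mem_nhds hqN)).differentiableAt (by norm_num)
        have d2 : DifferentiableAt ℝ (fun z => 1 / g z) q :=
          (hd1g.contDiffAt (hN.mem_nhds hqN)).differentiableAt (by norm_num)
        have ex : dx (fun z => f z / g z) q =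
            dx (fun z => ψ z / g z) q - (c0 * ε) * dx (fun z => 1 / g z) q := by
          rw [dx_congr hOo hf' (hK0O hq), dx_sub d1 (d2.const_mul (c0 * ε)),
            dx_const_mul (c0 * ε) d2]
        have ey : dy (fun z => f z / g z) q =
            dy (fun z => ψ z / g z) q - (c0 * ε) * dy (fun z => 1 / g z) q := by
          rw [dy_congr hOo hf' (hK0O hq), dy_sub d1 (d2.const_mul (c0 * ε)),
            dy_const_mul (c0 * ε) d2]
        have b1 : δ < h0 q := (hK0s hq).2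
        have b2 : k0 q ≤ B := (le_abs_self _).trans (hB q hq)
        have b1' : δ < g q ^ 2 * (dx (fun z => ψ z / g z) q * dx (fun z => ψ z / g z) q
          + dy (fun z => ψ z / g z) q * dy (fun z => ψ z / g z) q) := b1
        have b2' : g q ^ 2 * (dx (fun z => 1 / g z) q * dx (fun z => 1 / g z) q
          + dy (fun z => 1 / g z) q * dy (fun z => 1 / g z) q) ≤ B := b2
        unfold gdot
        rw [ex, ey]
        generalize dx (fun z => ψ z / g z) q = a1 at b1' ⊢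
        generalize dy (fun z => ψ z / g z) q = a2 at b1' ⊢
        generalize dx (fun z => 1 / g z) q = e1 at b2' ⊢
        generalize dy (fun z => 1 / g z) q = e2 at b2' ⊢
        have k1 : (c0 * ε) ^ 2 ≤ 4 * ε ^ 2 := by
          have : c0 * ε ≤ 2 * ε := mul_le_mul_of_nonneg_right c0b hε.le
          have h5 : 0 ≤ c0 * ε := mul_nonneg c0a hε.le
          nlinarith
        have k2 : (c0 * ε) ^ 2 * (g q ^ 2 * (e1 * e1 + e2 * e2)) ≤ 4 * ε ^ 2 * B := by
          have h5 : 0 ≤ g q ^ 2 * (e1 * e1 + e2 * e2) := by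
            have := mul_self_nonneg e1
            have := mul_self_nonneg e2
            positivity
          calc (c0 * ε) ^ 2 * (g q ^ 2 * (e1 * e1 + e2 * e2))
              ≤ (4 * ε ^ 2) * (g q ^ 2 * (e1 * e1 + e2 * e2)) :=
                mul_le_mul_of_nonneg_right k1 h5
            _ ≤ (4 * ε ^ 2) * B := mul_le_mul_of_nonneg_left b2' (by positivity)
        have k3 : 0 ≤ g q ^ 2 * ((a1 / 2 - (c0 * ε) * e1) ^ 2 + (a2 / 2 - (c0 * ε) * e2) ^ 2) := by
          positivity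
        have k4 : g q ^ 2 * ((a1 - c0 * ε * e1) * (a1 - c0 * ε * e1)
            + (a2 - c0 * ε * e2) * (a2 - c0 * ε * e2))
            = 2 * (g q ^ 2 * ((a1 / 2 - (c0 * ε) * e1) ^ 2 + (a2 / 2 - (c0 * ε) * e2) ^ 2))
              + (g q ^ 2 * (a1 * a1 + a2 * a2)) / 2
              - (c0 * ε) ^ 2 * (g q ^ 2 * (e1 * e1 + e2 * e2)) := by
          ring
        rw [k4]
        linarith
      have i1 : (δ / 2 - 4 * ε ^ 2 * B) * V ≤
          ∫ q in K0, g q ^ 2 * gdot (fun z => f z / g z) (fun z => f z / g z) q := by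
        have h3 : ∫ _ in K0, (δ / 2 - 4 * ε ^ 2 * B) = (δ / 2 - 4 * ε ^ 2 * B) * V := by
          rw [setIntegral_const, smul_eq_mul, mul_comm]
        rw [← h3]
        refine setIntegral_mono_on ?_ (hint.mono_set fun z hz' => (hK0s hz').1)
          hK0c.measurableSet hlow
        exact integrableOn_const hK0c.measure_lt_top.ne
      have i2 : ∫ q in K0, g q ^ 2 * gdot (fun z => f z / g z) (fun z => f z / g z) q ≤
          ∫ q in N, g q ^ 2 * gdot (fun z => f z / g z) (fun z => f z / g z) q := by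
        refine setIntegral_mono_set hint ?_ ?_
        · exact Eventually.of_forall fun q => hgn _ q
        · exact Eventually.of_forall fun z hz' => (hK0s hz').1
      exact i1.trans (i2.trans hle)
    -- first the limit in the truncation, then in the cut off
    have claim2 : ∀ R, R0 < R → 0 < R → δ / 2 * V ≤ M ^ 2 * (Cχ / R) ^ 2 * (8 * R * L) := by
      intro R hR0R hR
      have t1 : Tendsto (fun ε : ℝ => (δ / 2 - 4 * ε ^ 2 * B) * V) (𝓝[>] 0)
          (𝓝 ((δ / 2 - 4 * (0 : ℝ) ^ 2 * B) * V)) := by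
        refine Tendsto.mono_left (Continuous.tendsto (by fun_prop) 0) nhdsWithin_le_nhds
      have t2 : Tendsto (fun ε : ℝ => M ^ 2 * (Cχ / R) ^ 2 * (8 * R * L)
          + C * (2 * ε) * M * (8 * R * L)) (𝓝[>] 0)
          (𝓝 (M ^ 2 * (Cχ / R) ^ 2 * (8 * R * L) + C * (2 * (0 : ℝ)) * M * (8 * R * L))) := by
        refine Tendsto.mono_left (Continuous.tendsto (by fun_prop) 0) nhdsWithin_le_nhds
      have h3 := le_of_tendsto_of_tendsto t1 t2 (by
        filter_upwards [Ioo_mem_nhdsGT (show (0 : ℝ) < m / 2 by positivity)] with ε hε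
        exact claim R hR0R hR ε hε.1 (by linarith [hε.2]))
      have e1 : (δ / 2 - 4 * (0 : ℝ) ^ 2 * B) * V = δ / 2 * V := by ring
      have e2 : M ^ 2 * (Cχ / R) ^ 2 * (8 * R * L) + C * (2 * (0 : ℝ)) * M * (8 * R * L)
          = M ^ 2 * (Cχ / R) ^ 2 * (8 * R * L) := by ring
      rwa [e1, e2] at h3
    have t3 : Tendsto (fun R : ℝ => M ^ 2 * (Cχ / R) ^ 2 * (8 * R * L)) atTop (𝓝 0) := by
      have h3 : Tendsto (fun R : ℝ => (8 * M ^ 2 * Cχ ^ 2 * L) * R⁻¹) atTop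
          (𝓝 ((8 * M ^ 2 * Cχ ^ 2 * L) * 0)) := tendsto_inv_atTop_zero.const_mul _
      rw [mul_zero] at h3
      refine h3.congr' ?_
      filter_upwards [eventually_gt_atTop (0 : ℝ)] with R hR
      field_simp
    have h4 : δ / 2 * V ≤ 0 := by
      refine ge_of_tendsto t3 ?_
      filter_upwards [eventually_gt_atTop (0 : ℝ), eventually_gt_atTop R0] with R hR hR'
      exact claim2 R hR' hR
    have h5 : 0 < δ / 2 * V := by positivity
    linarith
  -- the quotient is constant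
  have hfd : ∀ q ∈ N, fderiv ℝ (fun z => ψ z / g z) q = 0 := by
    intro q hq
    have h3 := key q hq
    have hgq := gpos q hq
    have h4 : dx (fun z => ψ z / g z) q * dx (fun z => ψ z / g z) q
        + dy (fun z => ψ z / g z) q * dy (fun z => ψ z / g z) q = 0 := by
      have h5 : g q ^ 2 * (dx (fun z => ψ z / g z) q * dx (fun z => ψ z / g z) q
        + dy (fun z => ψ z / g z) q * dy (fun z => ψ z / g z) q) = 0 := h3
      rcases mul_eq_zero.1 h5 with h6 | h6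
      · exact absurd h6 (by positivity)
      · exact h6
    have h5 : dx (fun z => ψ z / g z) q = 0 := by
      nlinarith [mul_self_nonneg (dx (fun z => ψ z / g z) q),
        mul_self_nonneg (dy (fun z => ψ z / g z) q)]
    have h6 : dy (fun z => ψ z / g z) q = 0 := by
      nlinarith [mul_self_nonneg (dx (fun z => ψ z / g z) q),
        mul_self_nonneg (dy (fun z => ψ z / g z) q)]
    ext
    · have h7 := fderiv_apply_eq (f := fun z => ψ z / g z) (q := q)
        ((hdψg.contDiffAt (hN.mem_nhds hq)).differentiableAt (by norm_num)) 1 0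
      rw [h5, h6] at h7
      simpa using h7
    · have h7 := fderiv_apply_eq (f := fun z => ψ z / g z) (q := q)
        ((hdψg.contDiffAt (hN.mem_nhds hq)).differentiableAt (by norm_num)) 0 1
      rw [h5, h6] at h7
      simpa using h7
  refine ⟨ψ q1 / g q1, div_pos (ψpos q1 hq1) (gpos q1 hq1), fun q hq => ?_⟩
  have h3 : (fun z => ψ z / g z) q = (fun z => ψ z / g z) q1 :=
    hN.is_const_of_fderiv_eq_zero hconn.isPreconnected
      (hdψg.differentiableOn (by norm_num)) hfd hq hq1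
  have h4 : ψ q / g q = ψ q1 / g q1 := h3
  rw [← h4, div_mul_cancel₀ _ (gpos q hq).ne']

/-- a nodal domain with zero boundary values cannot be small -/
theorem nodal_area (C : ℝ) : ∃ A : ℝ, 0 < A ∧ ∀ (N : Set (ℝ × ℝ)) (ψ c : ℝ × ℝ → ℝ) (L : ℝ),
    IsOpen N → N.Nonempty → N ⊆ Str L → Bornology.IsBounded N → ContDiffOn ℝ 2 ψ N →
    (∀ q ∈ N, 0 < ψ q) → (∀ q ∈ N, 0 ≤ c q ∧ c q ≤ C) →
    (∀ q ∈ N, -lap ψ q ≤ c q * ψ q) →
    (∀ ε : ℝ, 0 < ε → IsClosed {q | q ∈ N ∧ ε ≤ ψ q}) →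
    A ≤ (MeasureTheory.volume N).toReal := by
  obtain ⟨CS, hCS, hgns⟩ := gns
  obtain ⟨η, hη⟩ := exists_tr51
  set C' : ℝ := max C 1 with hC'
  have hC'1 : 1 ≤ C' := le_max_right _ _
  have hC'p : 0 < C' := by linarith
  refine ⟨1 / (CS * C'), by positivity, ?_⟩
  intro N ψ c L hN hne hL hb hψ ψpos hc0 h1 hz
  have hNfin : volume N ≠ ⊤ := hb.measure_lt_top.ne
  obtain ⟨q1, hq1⟩ := hne
  -- compactness of the super level sets
  have hcomp : ∀ ε : ℝ, 0 < ε → IsCompact {q | q ∈ N ∧ ε ≤ ψ q} := fun ε hε =>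
    Metric.isCompact_of_isClosed_isBounded (hz ε hε) (hb.subset fun q hq => hq.1)
  -- boundedness
  obtain ⟨M, hM1, hM⟩ : ∃ M : ℝ, 1 ≤ M ∧ ∀ q ∈ N, ψ q ≤ M := by
    obtain ⟨B, hB⟩ := (hcomp 1 one_pos).exists_bound_of_continuousOn
      (hψ.continuousOn.mono fun q hq => hq.1)
    refine ⟨max B 1, le_max_right _ _, fun q hq => ?_⟩
    by_cases h : 1 ≤ ψ q
    · exact (le_abs_self _).trans ((hB q ⟨hq, h⟩).trans (le_max_left _ _))
    · exact (not_le.1 h).le.trans (le_max_right _ _)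
  have hψi : IntegrableOn ψ N := by
    refine IntegrableOn.of_bound (C := M) hNfin.lt_top
      (hψ.continuousOn.aestronglyMeasurable hN.measurableSet) ?_
    filter_upwards [ae_restrict_mem hN.measurableSet] with q hq
    rw [Real.norm_of_nonneg (ψpos q hq).le]
    exact hM q hq
  have hψ2i : IntegrableOn (fun q => ψ q ^ 2) N := by
    refine IntegrableOn.of_bound (C := M ^ 2) hNfin.lt_top
      ((hψ.continuousOn.pow 2).aestronglyMeasurable hN.measurableSet) ?_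
    filter_upwards [ae_restrict_mem hN.measurableSet] with q hq
    rw [Real.norm_of_nonneg (sq_nonneg _)]
    exact pow_le_pow_left₀ (ψpos q hq).le (hM q hq) 2
  set I1 := ∫ q in N, ψ q with hI1
  set I2 := ∫ q in N, ψ q ^ 2 with hI2
  have hI2pos : 0 < I2 := by
    rw [hI2, setIntegral_pos_iff_support_of_nonneg_ae]
    · have h3 : Function.support (fun q => ψ q ^ 2) ∩ N = N := by
        refine Set.inter_eq_right.2 fun q hq => ?_
        exact (pow_pos (ψpos q hq) 2).ne'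
      rw [h3]
      exact hN.measure_pos volume ⟨q1, hq1⟩
    · exact Eventually.of_forall fun q => sq_nonneg _
    · exact hψ2i
  have step : ∀ ε : ℝ, 0 < ε → I2 - 4 * ε * I1 ≤ CS * (volume N).toReal * (C' * I2) := by
    intro ε hε
    set f := FX51 N ψ η ε (fun _ => 1) with hf
    have cf : ContDiff ℝ 2 f := fx_contDiff51 hN hη hε hψ (hz ε hε) contDiff_const
    have hfK : ∀ q, q ∉ {q | q ∈ N ∧ ε ≤ ψ q} → f q = 0 := fun q hq => fx_zero51 hη hε hq
    have hfc : HasCompactSupport f := HasCompactSupport.intro (hcomp ε hε) hfK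
    have hD : IsOpen {q | q ∈ N ∧ ε ≤ ψ q}ᶜ := (hz ε hε).isOpen_compl
    have g1 := hgns f N (cf.of_le (by norm_num)) hfc hN.measurableSet hNfin (by
      intro q hq
      have hq' : q ∈ {q | q ∈ N ∧ ε ≤ ψ q}ᶜ := fun h => hq h.1
      obtain ⟨a, b⟩ := dx_of_zero51 hD (fun z hz' => hfK z hz') hq'
      exact ⟨hfK q hq', a, b⟩)
    have hcc : ∀ q ∈ N, -lap ψ q ≤ (fun _ : ℝ × ℝ => C') q * ψ q := by
      intro q hq
      refine (h1 q hq).trans (mul_le_mul_of_nonneg_right ?_ (ψpos q hq).le)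
      exact (hc0 q hq).2.trans (le_max_left _ _)
    have g2 := energy51 (c := fun _ => C') (X := fun _ => 1) hN hη hε hψ ψpos continuousOn_const
      (fun _ _ => hC'p.le) hcc (hz ε hε) contDiff_const (hcomp ε hε) (fun q hq => hq.1) hfK
    have e0 : ∀ q : ℝ × ℝ, gdot (fun _ : ℝ × ℝ => (1 : ℝ)) (fun _ => 1) q = 0 := by
      intro q
      unfold gdot dx dy
      simp
    have e1 : ∫ q, f q ^ 2 * gdot (fun _ : ℝ × ℝ => (1 : ℝ)) (fun _ => 1) q = 0 := by
      simp only [e0, mul_zero, integral_zero]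
    rw [← hf, e1, zero_add] at g2
    have g3 : ∫ q in N, C' * ψ q * ((ε * η (ψ q / ε)) * 1 ^ 2) ≤ C' * I2 := by
      have h3 : C' * I2 = ∫ q in N, C' * ψ q ^ 2 := by
        rw [hI2, integral_const_mul]
      rw [h3]
      refine integral_mono_of_nonneg ?_ (hψ2i.const_mul C') ?_
      · filter_upwards [ae_restrict_mem hN.measurableSet] with q hq
        have a1 := (F_bd51 hη hε (ψpos q hq)).1
        have a2 := (ψpos q hq).le
        show 0 ≤ C' * ψ q * (ε * η (ψ q / ε) * 1 ^ 2)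
        rw [one_pow, mul_one]
        positivity
      · filter_upwards [ae_restrict_mem hN.measurableSet] with q hq
        have a1 := (F_bd51 hη hε (ψpos q hq)).2.1
        have a2 := (ψpos q hq).le
        show C' * ψ q * (ε * η (ψ q / ε) * 1 ^ 2) ≤ C' * ψ q ^ 2
        rw [one_pow, mul_one, mul_assoc, sq]
        exact mul_le_mul_of_nonneg_left (mul_le_mul_of_nonneg_left a1 a2) hC'p.le
    have g4 : I2 - 4 * ε * I1 ≤ ∫ q, f q ^ 2 := by
      have h3 : ∫ q, f q ^ 2 = ∫ q in N, f q ^ 2 := by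
        rw [setIntegral_eq_integral_of_forall_compl_eq_zero]
        intro q hq
        rw [hf, fx_of_notMem51 hq]; ring
      have h4 : I2 - 4 * ε * I1 = ∫ q in N, (ψ q ^ 2 - 4 * ε * ψ q) := by
        rw [integral_sub hψ2i (hψi.const_mul (4 * ε)), integral_const_mul]
      rw [h3, h4]
      have h5 : Integrable (fun q => f q ^ 2) := by
        refine (cf.continuous.pow 2).integrable_of_hasCompactSupport
          (HasCompactSupport.intro (hcomp ε hε) fun q hq => ?_)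
        show f q ^ 2 = 0
        rw [hfK q hq]; ring
      refine setIntegral_mono_on (hψ2i.sub (hψi.const_mul (4 * ε))) h5.integrableOn
        hN.measurableSet fun q hq => ?_
      obtain ⟨a1, a2, a3⟩ := F_bd51 hη hε (ψpos q hq)
      rw [hf, fx_of_mem51 hq, mul_one]
      have a4 := ψpos q hq
      by_cases h6 : 2 * ε ≤ ψ q
      · nlinarith [mul_nonneg (sub_nonneg.2 h6) (sub_nonneg.2 h6)]
      · push Not at h6
        nlinarith [sq_nonneg (ε * η (ψ q / ε))]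
    have g5 : CS * (volume N).toReal * ∫ q, gdot f f q ≤ CS * (volume N).toReal * (C' * I2) :=
      mul_le_mul_of_nonneg_left (g2.trans g3) (by positivity)
    linarith
  have h3 : I2 ≤ CS * (volume N).toReal * (C' * I2) := by
    have t1 : Tendsto (fun ε : ℝ => I2 - 4 * ε * I1) (𝓝[>] 0) (𝓝 (I2 - 4 * (0 : ℝ) * I1)) :=
      Tendsto.mono_left (Continuous.tendsto (by fun_prop) 0) nhdsWithin_le_nhds
    have h4 := le_of_tendsto t1 (by
      filter_upwards [self_mem_nhdsWithin] with ε hε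
      exact step ε hε)
    linarith
  have h4 : 1 ≤ CS * C' * (volume N).toReal := by
    by_contra hcon
    push Not at hcon
    have h5 := mul_lt_mul_of_pos_right hcon hI2pos
    nlinarith
  rw [div_le_iff₀ (by positivity)]
  linarith

end Pool.Agent.MFE
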