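import Pool.Agent.MFE.IBP

/-!
# MFE.PIC: Picone / Jacobi inequality

For `F = f²/g` (compact support in `N`, `C¹`): pointwise
`gdot f f - gdot g (f²/g) = g² gdot (f/g) (f/g)`, and `∫ gdot (f²/g) g = -∫ (f²/g) lap g`
(`green1` with `f²/g`, extended by zero) `≥ ∫ c f²`.
-/

open scoped ContDiff

namespace Pool.Agent.MFE

private theorem PIC_zero {k : ℝ × ℝ → ℝ} {q : ℝ × ℝ} (hq : q ∉ tsupport k) : k q = 0 :=
  image_eq_zero_of_notMem_tsupport hq

private theorem PIC_int {N : Set (ℝ × ℝ)} (hN : IsOpen N) {k h : ℝ × ℝ → ℝ} (hk : Continuous k)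
    (hkc : HasCompactSupport k) (hkN : tsupport k ⊆ N) (hh : ContinuousOn h N) :
    Continuous (fun q => k q * h q) ∧ HasCompactSupport (fun q => k q * h q) := by
  constructor
  · rw [continuous_iff_continuousAt]
    intro q
    by_cases hq : q ∈ N
    · exact hk.continuousAt.mul (hh.continuousAt (hN.mem_nhds hq))
    · have hq' : q ∉ tsupport k := fun h => hq (hkN h)
      have hev : (fun q => k q * h q) =ᶠ[nhds q] fun _ => 0 := by
        filter_upwards [(isClosed_tsupport k).isOpen_compl.mem_nhds hq'] with z hz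
        rw [PIC_zero hz, zero_mul]
      exact (continuousAt_const).congr hev.symm
  · exact hkc.mul_right

private theorem PIC_dx {k : ℝ × ℝ → ℝ} (hk : ContDiff ℝ 1 k) (hkc : HasCompactSupport k)
    (v : ℝ × ℝ) : Continuous (fun q => fderiv ℝ k q v) ∧
      HasCompactSupport (fun q => fderiv ℝ k q v) ∧
      tsupport (fun q => fderiv ℝ k q v) ⊆ tsupport k := by
  refine ⟨(hk.continuous_fderiv one_ne_zero).clm_apply continuous_const, hkc.fderiv_apply ℝ v,
    tsupport_fderiv_apply_subset ℝ v⟩


theorem picone {N : Set (ℝ × ℝ)} (hN : IsOpen N) {g f c : ℝ × ℝ → ℝ}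
    (hg : ContDiffOn ℝ 2 g N) (gpos : ∀ q ∈ N, 0 < g q) (hc : ContinuousOn c N)
    (hgc : ∀ q ∈ N, c q * g q ≤ -lap g q) (hf : ContDiff ℝ 1 f) (hfc : HasCompactSupport f)
    (hfN : tsupport f ⊆ N) :
    ∫ q in N, g q ^ 2 * gdot (fun z => f z / g z) (fun z => f z / g z) q
      ≤ (∫ q, gdot f f q) - ∫ q in N, c q * f q ^ 2 := by
  set F : ℝ × ℝ → ℝ := fun q => f q ^ 2 / g q with hF
  have hF0 : ∀ q, q ∉ tsupport f → F q = 0 := by
    intro q hq
    show f q ^ 2 / g q = 0
    rw [PIC_zero hq]
    simp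
  have hFs : tsupport F ⊆ tsupport f := by
    apply closure_minimal _ (isClosed_tsupport f)
    intro q hq
    by_contra hcon
    exact hq (hF0 q hcon)
  have hFc : HasCompactSupport F := hfc.of_isClosed_subset (isClosed_tsupport F) hFs
  have hFN : tsupport F ⊆ N := fun q hq => hfN (hFs hq)
  have hgne : ∀ q ∈ N, g q ≠ 0 := fun q hq => (gpos q hq).ne'
  have hFC : ContDiff ℝ 1 F := by
    rw [contDiff_iff_contDiffAt]
    intro q
    by_cases hq : q ∈ N
    · have h1 : ContDiffAt ℝ 1 g q :=
        ((hg.contDiffAt (hN.mem_nhds hq)).of_le (by norm_num))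
      exact (hf.contDiffAt.pow 2).div h1 (hgne q hq)
    · have hq' : q ∉ tsupport f := fun h => hq (hfN h)
      have hev : F =ᶠ[nhds q] fun _ => 0 := by
        filter_upwards [(isClosed_tsupport f).isOpen_compl.mem_nhds hq'] with z hz
        exact hF0 z hz
      exact (contDiffAt_const).congr_of_eventuallyEq hev
  have hg1 : ContDiffOn ℝ 1 g N := hg.of_le (by norm_num)
  have hgreen := green1 hN hFC hFc hFN hg
  -- pointwise identity
  have hpt : ∀ q ∈ N, g q ^ 2 * gdot (fun z => f z / g z) (fun z => f z / g z) q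
      = gdot f f q - gdot F g q := by
    intro q hq
    have df : DifferentiableAt ℝ f q := (hf.differentiable one_ne_zero) q
    have dg : DifferentiableAt ℝ g q :=
      (hg1.contDiffAt (hN.mem_nhds hq)).differentiableAt one_ne_zero
    have dff : DifferentiableAt ℝ (fun z => f z ^ 2) q := df.pow 2
    have e1 : dx (fun z => f z / g z) q = (dx f q * g q - f q * dx g q) / g q ^ 2 :=
      dx_div df dg (hgne q hq)
    have e2 : dy (fun z => f z / g z) q = (dy f q * g q - f q * dy g q) / g q ^ 2 :=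
      dy_div df dg (hgne q hq)
    have s1 : dx (fun z => f z ^ 2) q = 2 * f q * dx f q := by
      have : (fun z => f z ^ 2) = fun z => f z * f z := by funext z; ring
      rw [this, dx_mul df df]; ring
    have s2 : dy (fun z => f z ^ 2) q = 2 * f q * dy f q := by
      have : (fun z => f z ^ 2) = fun z => f z * f z := by funext z; ring
      rw [this, dy_mul df df]; ring
    have e3 : dx F q = (2 * f q * dx f q * g q - f q ^ 2 * dx g q) / g q ^ 2 := by
      rw [← s1]
      exact dx_div dff dg (hgne q hq)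
    have e4 : dy F q = (2 * f q * dy f q * g q - f q ^ 2 * dy g q) / g q ^ 2 := by
      rw [← s2]
      exact dy_div dff dg (hgne q hq)
    have hgq := hgne q hq
    unfold gdot
    rw [e1, e2, e3, e4]
    field_simp
    ring
  -- continuity
  obtain ⟨cfx, hfx, sfx⟩ := PIC_dx hf hfc (1, 0)
  obtain ⟨cfy, hfy, sfy⟩ := PIC_dx hf hfc (0, 1)
  obtain ⟨cFx, hFx, sFx⟩ := PIC_dx hFC hFc (1, 0)
  obtain ⟨cFy, hFy, sFy⟩ := PIC_dx hFC hFc (0, 1)
  have hdgx : ContinuousOn (dx g) N := cont_dx hN hg1
  have hdgy : ContinuousOn (dy g) N := cont_dy hN hg1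
  obtain ⟨a1, a2⟩ := PIC_int hN cFx hFx (sFx.trans hFN) hdgx
  obtain ⟨b1, b2⟩ := PIC_int hN cFy hFy (sFy.trans hFN) hdgy
  have i1 : MeasureTheory.Integrable (fun q => gdot F g q) :=
    (a1.integrable_of_hasCompactSupport a2).add (b1.integrable_of_hasCompactSupport b2)
  have i2 : MeasureTheory.Integrable (fun q => gdot f f q) :=
    ((cfx.mul cfx).integrable_of_hasCompactSupport hfx.mul_right).add
      ((cfy.mul cfy).integrable_of_hasCompactSupport hfy.mul_right)
  have hlg : ContinuousOn (lap g) N := cont_lap hN hg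
  obtain ⟨c1, c2⟩ := PIC_int hN hFC.continuous hFc hFN hlg
  have i3 : MeasureTheory.Integrable (fun q => F q * lap g q) :=
    c1.integrable_of_hasCompactSupport c2
  have hf2c : HasCompactSupport (fun q => f q ^ 2) := by
    apply hfc.of_isClosed_subset (isClosed_tsupport _)
    apply closure_minimal _ (isClosed_tsupport f)
    intro q hq
    by_contra hcon
    apply hq
    show f q ^ 2 = 0
    rw [PIC_zero hcon]; ring
  have hf2N : tsupport (fun q => f q ^ 2) ⊆ N := by
    refine Set.Subset.trans (closure_minimal ?_ (isClosed_tsupport f)) hfN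
    intro q hq
    by_contra hcon
    apply hq
    show f q ^ 2 = 0
    rw [PIC_zero hcon]; ring
  obtain ⟨d1, d2⟩ := PIC_int hN (hf.continuous.pow 2) hf2c hf2N hc
  have i4 : MeasureTheory.Integrable (fun q => f q ^ 2 * c q) :=
    d1.integrable_of_hasCompactSupport d2
  have hz : ∀ q, q ∉ N → gdot f f q - gdot F g q = 0 := by
    intro q hq
    have hq' : q ∉ tsupport f := fun h => hq (hfN h)
    have z1 : dx f q = 0 := PIC_zero (fun h => hq' (sfx h))
    have z2 : dy f q = 0 := PIC_zero (fun h => hq' (sfy h))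
    have z3 : dx F q = 0 := PIC_zero (fun h => hq' (hFs (sFx h)))
    have z4 : dy F q = 0 := PIC_zero (fun h => hq' (hFs (sFy h)))
    unfold gdot
    rw [z1, z2, z3, z4]; ring
  have e1 : ∫ q in N, g q ^ 2 * gdot (fun z => f z / g z) (fun z => f z / g z) q
      = (∫ q, gdot f f q) - ∫ q, gdot F g q := by
    rw [MeasureTheory.setIntegral_congr_fun hN.measurableSet hpt,
      MeasureTheory.setIntegral_eq_integral_of_forall_compl_eq_zero hz,
      MeasureTheory.integral_sub i2 i1]
  have e2 : ∫ q in N, c q * f q ^ 2 = ∫ q, f q ^ 2 * c q := by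
    rw [← MeasureTheory.setIntegral_eq_integral_of_forall_compl_eq_zero (s := N)
      (f := fun q => f q ^ 2 * c q)]
    · apply MeasureTheory.setIntegral_congr_fun hN.measurableSet
      intro q _
      show c q * f q ^ 2 = f q ^ 2 * c q
      ring
    · intro q hq
      have hq' : q ∉ tsupport f := fun h => hq (hfN h)
      rw [PIC_zero hq']; ring
  have e3 : ∫ q, F q * lap g q ≤ ∫ q, -(f q ^ 2 * c q) := by
    apply MeasureTheory.integral_mono i3 i4.neg
    intro q
    show F q * lap g q ≤ -(f q ^ 2 * c q)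
    by_cases hq : q ∈ N
    · have h1 := hgc q hq
      have h2 := gpos q hq
      have h3 : F q * lap g q ≤ F q * (-(c q * g q)) := by
        apply mul_le_mul_of_nonneg_left (by linarith)
        exact div_nonneg (sq_nonneg _) h2.le
      have h4 : F q * (-(c q * g q)) = -(f q ^ 2 * c q) := by
        show f q ^ 2 / g q * (-(c q * g q)) = -(f q ^ 2 * c q)
        field_simp
      linarith
    · have hq' : q ∉ tsupport f := fun h => hq (hfN h)
      rw [hF0 q hq', PIC_zero hq']
      simp
  rw [MeasureTheory.integral_neg] at e3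
  rw [e1, e2]
  linarith

/-- in particular the quadratic form is non-negative -/
theorem picone_nonneg {N : Set (ℝ × ℝ)} (hN : IsOpen N) {g f c : ℝ × ℝ → ℝ}
    (hg : ContDiffOn ℝ 2 g N) (gpos : ∀ q ∈ N, 0 < g q) (hc : ContinuousOn c N)
    (hgc : ∀ q ∈ N, c q * g q ≤ -lap g q) (hf : ContDiff ℝ 1 f) (hfc : HasCompactSupport f)
    (hfN : tsupport f ⊆ N) :
    ∫ q in N, c q * f q ^ 2 ≤ ∫ q, gdot f f q := by
  have h1 := picone hN hg gpos hc hgc hf hfc hfN
  have h2 : 0 ≤ ∫ q in N, g q ^ 2 * gdot (fun z => f z / g z) (fun z => f z / g z) q := by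
    apply MeasureTheory.integral_nonneg
    intro q
    show 0 ≤ g q ^ 2 * gdot (fun z => f z / g z) (fun z => f z / g z) q
    unfold gdot
    apply mul_nonneg (sq_nonneg _)
    exact add_nonneg (mul_self_nonneg _) (mul_self_nonneg _)
  linarith

end Pool.Agent.MFE
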