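import Pool.Agent.MFE.CONV

/-!
# MFE.REGA: no critical points for amplitudes below `pst`

Let `p = lim v n (0,0) ∈ [0, pst)`. If `p > 0` let `2 log cosh a = p` (`amp1_exists`), `a < ast`
(`amp1_lt`), `b = (a + ast)/2`. `μ n e^{v n(x,y)} ≤ μ n e^{v n (0,y)}` (`GSol.anti_x`), which converges
uniformly in `|y| ≤ 1` to `pot1 a y` (`conv_low`), and `pot1 a y < pot1 b y` on the compact
`[-1,1]` (`pot1_mono`), so for large `n`: `μ n e^{v n} < pot1 b y` on the ellipse. `no_cd` with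
`g q = e1 b q.2` (`e1_pos`, `lap_snd`, `e1_deriv2`). If `p = 0`: `μ n e^{v n} ≤ 4 v n (0,0) e^{v n (0,0)} → 0`
(`gsol_mu_le`) and the same `g` with any `b < ast` (`pot1 b y ≥ c > 0` on `[-1,1]`).
-/

open scoped ContDiff
open Filter Topology

namespace Pool.Agent.MFE

private theorem no_cd_b {α μ t : ℝ} {v φ : ℝ × ℝ → ℝ} (hα : 0 < α) (h : CD α μ t v φ) {b : ℝ}
    (hb : 0 < b) (hb' : b < ast) (hlt : ∀ q ∈ Ell α, μ * Real.exp (v q) < pot1 b q.2) :
    False := by
  have hsm : ContDiff ℝ 2 (e1 b) := by exact_mod_cast contDiff_infty.1 (e1_smooth b) 2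
  have hsm' : ContDiff ℝ 2 (fun q : ℝ × ℝ => e1 b q.2) := hsm.comp contDiff_snd
  have hpos : ∀ q ∈ CEll α, 0 < e1 b q.2 := by
    intro q hq
    refine e1_pos hb hb' ?_
    have h1 : α ^ 2 * q.1 ^ 2 + q.2 ^ 2 ≤ 1 := hq
    rw [← sq_le_one_iff_abs_le_one]
    nlinarith [mul_nonneg (sq_nonneg α) (sq_nonneg q.1)]
  refine no_cd (g := fun q => e1 b q.2) hα h hsm'.contDiffOn hsm'.continuous.continuousOn hpos ?_
  intro q hq
  rw [lap_snd _ hsm, e1_deriv2, neg_neg]
  have hq' : q ∈ CEll α := by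
    have h1 : α ^ 2 * q.1 ^ 2 + q.2 ^ 2 < 1 := hq
    exact (show α ^ 2 * q.1 ^ 2 + q.2 ^ 2 ≤ 1 from h1.le)
  exact mul_lt_mul_of_pos_right (hlt q hq) (hpos q hq')

private theorem pot1_cont (a : ℝ) : Continuous (pot1 a) := by
  unfold pot1
  refine Continuous.div continuous_const ?_ fun y => ?_
  · exact (Real.continuous_cosh.comp (continuous_const.mul continuous_id)).pow 2
  · have := Real.cosh_pos (a * y)
    positivity

private theorem ell_snd {α : ℝ} {q : ℝ × ℝ} (hq : q ∈ Ell α) : |q.2| < 1 := by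
  have h1 : α ^ 2 * q.1 ^ 2 + q.2 ^ 2 < 1 := hq
  rw [← sq_lt_one_iff_abs_lt_one]
  nlinarith [mul_nonneg (sq_nonneg α) (sq_nonneg q.1)]

private theorem v_le {α μ : ℝ} {v : ℝ × ℝ → ℝ} (hα : 0 < α) (h : GSol α μ v) (q : ℝ × ℝ) :
    μ * Real.exp (v q) ≤ μ * Real.exp (v (0, q.2)) := by
  refine mul_le_mul_of_nonneg_left (Real.exp_le_exp.2 ?_) h.mu_pos.le
  obtain ⟨x, y⟩ := q
  exact h.anti_x hα (by simp)

theorem regA {α μ t : ℕ → ℝ} {v φ : ℕ → ℝ × ℝ → ℝ} {p : ℝ}
    (hα : ∀ n, 0 < α n ∧ α n ≤ 1) (hα0 : Tendsto α atTop (𝓝 0))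
    (h : ∀ n, CD (α n) (μ n) (t n) (v n) (φ n)) (hp : Tendsto (fun n => v n (0, 0)) atTop (𝓝 p))
    (hlt : p < pst) : False := by
  have hp0 : 0 ≤ p := ge_of_tendsto' hp fun n => (gsol_amp_pos (hα n).1 (h n).sol).le
  have hast := ast_pos
  rcases hp0.eq_or_lt with rfl | hpp
  · -- small amplitudes
    set b := ast / 2 with hb
    have hb0 : 0 < b := by positivity
    have hb1 : b < ast := by rw [hb]; linarith
    obtain ⟨y₀, -, hmin⟩ := (isCompact_Icc (a := (-1 : ℝ)) (b := 1)).exists_isMinOn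
      ⟨0, by norm_num⟩ (pot1_cont b).continuousOn
    have hc : 0 < pot1 b y₀ := by
      unfold pot1
      have := Real.cosh_pos (b * y₀)
      positivity
    have hlim : Tendsto (fun n => 4 * v n (0, 0) * Real.exp (v n (0, 0))) atTop
        (𝓝 (4 * 0 * Real.exp 0)) :=
      (hp.const_mul 4).mul (Real.continuous_exp.continuousAt.tendsto.comp hp)
    have hev := hlim.eventually (gt_mem_nhds (show 4 * 0 * Real.exp 0 < pot1 b y₀ by simpa using hc))
    obtain ⟨n, hn⟩ := hev.exists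
    refine no_cd_b (hα n).1 (h n) hb0 hb1 fun q hq => ?_
    have h1 : μ n * Real.exp (v n q) ≤ 4 * v n (0, 0) * Real.exp (v n (0, 0)) :=
      mul_le_mul (gsol_mu_le (hα n).1 (hα n).2 (h n).sol)
        (Real.exp_le_exp.2 ((h n).sol.le_max (hα n).1 q)) (Real.exp_pos _).le
        (by linarith [gsol_amp_pos (hα n).1 (h n).sol])
    have h2 := ell_snd hq
    have h3 : pot1 b y₀ ≤ pot1 b q.2 := hmin ⟨by linarith [(abs_lt.1 h2).1], (abs_lt.1 h2).2.le⟩
    linarith
  · obtain ⟨a, ha, hap⟩ := amp1_exists hpp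
    have ha1 : a < ast := by
      rw [← amp1_lt ha hast, hap]
      exact hlt
    set b := (a + ast) / 2 with hb
    have hb0 : 0 < b := by rw [hb]; linarith
    have hb1 : b < ast := by rw [hb]; linarith
    have hab : a < b := by rw [hb]; linarith
    obtain ⟨y₀, hy₀, hmin⟩ := (isCompact_Icc (a := (-1 : ℝ)) (b := 1)).exists_isMinOn
      ⟨0, by norm_num⟩ ((pot1_cont b).sub (pot1_cont a)).continuousOn
    have hc : 0 < pot1 b y₀ - pot1 a y₀ := by
      have := pot1_mono ha hab hb1.le (y := y₀) (abs_le.2 ⟨hy₀.1, hy₀.2⟩)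
      linarith
    have hp' : Tendsto (fun n => v n (0, 0)) atTop (𝓝 (2 * Real.log (Real.cosh a))) := by
      rw [hap]
      exact hp
    obtain ⟨hμ, hU⟩ := conv_low hα hα0 (fun n => (h n).sol) ha ha1.le hp'
    -- uniform convergence of `μ e^v` on the axis
    obtain ⟨M, hM⟩ := hp.bddAbove_range
    have hM' : ∀ n, v n (0, 0) ≤ M := fun n => hM ⟨n, rfl⟩
    have hMv : ∀ n q, |v n q| ≤ M := fun n q => (gsol_abs (hα n).1 (h n).sol q).trans (hM' n)
    have hMU : ∀ q, |V1e a q| ≤ M := fun q =>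
      le_of_tendsto' (locU_tendsto hU q).abs fun n => hMv n q
    have h1 := locU_exp hU hMv hMU
    have hconst : LocU (fun n _ => μ n) (fun _ => mu1 a) := by
      intro R
      rw [Metric.tendstoUniformlyOn_iff]
      intro ε hε
      filter_upwards [Metric.tendsto_nhds.1 hμ ε hε] with n hn q _
      rw [dist_comm]
      exact hn
    have hM0 : 0 ≤ M := (abs_nonneg _).trans (hMv 0 (0, 0))
    have h2 : LocU (fun n q => μ n * Real.exp (v n q)) (fun q => mu1 a * Real.exp (V1e a q)) := by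
      refine locU_mul (M := Real.exp M + 4 * M) hconst h1 (fun n q => ?_) fun q => ?_
      · rw [abs_of_pos (h n).sol.mu_pos]
        have := Real.exp_pos M
        linarith [gsol_mu_le (hα n).1 (hα n).2 (h n).sol, hM' n]
      · rw [abs_of_pos (Real.exp_pos _)]
        have := Real.exp_le_exp.2 (le_of_abs_le (hMU q))
        linarith
    have h3 := Metric.tendstoUniformlyOn_iff.1 (h2 1) _ hc
    obtain ⟨n, hn⟩ := h3.exists
    refine no_cd_b (hα n).1 (h n) hb0 hb1 fun q hq => ?_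
    have hq2 := ell_snd hq
    have h4 := v_le (hα n).1 (h n).sol q
    have h5 := hn (0, q.2) ⟨by simp, by simpa using hq2.le⟩
    rw [Real.dist_eq] at h5
    have h6 : V1e a (0, q.2) = V1 a q.2 := by
      unfold V1e
      rw [if_pos hq2]
    rw [h6, pot1_eq] at h5
    have h7 := (abs_lt.1 h5).1
    have h8 : pot1 b y₀ - pot1 a y₀ ≤ pot1 b q.2 - pot1 a q.2 :=
      hmin ⟨by linarith [(abs_lt.1 hq2).1], (abs_lt.1 hq2).2.le⟩
    linarith

end Pool.Agent.MFE
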