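import Pool.Agent.MFE.STC
import Pool.Agent.MFE.HKC
import Pool.Agent.MFE.REG

/-!
# MFE.STN: nondegeneracy of the bump solutions

`dparam`: for a smooth function `G` on an open subset of `ℝ × (ℝ × ℝ)` the parameter derivative
commutes with the Laplace operator (symmetry of second derivatives, three times; e.g. apply
`dx_dy_comm`-type arguments in the planes spanned by the parameter and a coordinate).

`bump_eta`: let `(1, κ)` be a direction with `∂_a F + κ ∂_k F = 0` for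
`F(a,k) = Mb a k 1 = cos k cosh a - (a/k) sin k sinh a` (`∂_k F < 0`: multiply by `k/(sin k cosh a)`:
`F = (sin k cosh a/k)(k cot k - a tanh a)`, so at a zero `∂_k F = (sin k cosh a/k)(k cot k)' < 0`).
`G(s, q) = -2 log Wb (a+s) (k+κs) q`, smooth near `s = 0`, `q` in a neighbourhood of the closed
strip; `-lap G(s,·) = mu1 (a+s) e^{G(s,·)}` by `wb_pde` (valid for all parameters). Differentiate at
`s = 0`: `η := ∂_s G(0,·)` satisfies `-lap η = mu1' e^V + mu1 e^V η`. Boundary values: for `|y| = 1`,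
`Wb (a+s) (k+κs) = 1 - c F(a+s, k+κs)/(D cosh)`, whose derivative at `s = 0` is zero, so `η = 0`
there. Bounded: `∂_s` of `M/D` and of the coefficients: `x`-derivatives of `1/D` in `k` give
`x sinh(kx)/D²`, bounded (`|x| e^{-k|x|}`). Even in both variables. `mu1'(a) > 0` (`a < ast`).

`nd_bump`: `ζ` continuous, bounded, even, zero outside `Str 1`, `-lap ζ = mu1 e^V ζ`. Then `ζ = 0`.
If `ζ(0) = 0`: `hk_linear` (`hneg`: `{ζ ≤ -ε}` is closed because `ζ` is continuous on the plane and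
zero outside the strip; `Super` from `-dx V`, `-dy V`: `vb_dx_neg`, `lap_dx`). If `ζ(0) ≠ 0`: let
`m = mu1'/mu1 > 0`, `y = η + m - cζ` with `c = (η(0)+m)/ζ(0)`. `-lap y - E y = mu1' e^V - E m = 0`,
`y(0) = 0`, and `y` extends continuously to the closed strip with the boundary value `m > 0`, so
`{q ∈ Str 1 : y ≤ -ε}` is closed. `hk_linear`: `y = 0` on the strip, but its boundary value is
`m > 0`: contradiction.
-/

open scoped ContDiff
open Set

namespace Pool.Agent.MFE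

/-- directional derivative -/
private noncomputable def STN_D (v : ℝ × (ℝ × ℝ)) (G : ℝ × (ℝ × ℝ) → ℝ)
    (p : ℝ × (ℝ × ℝ)) : ℝ := fderiv ℝ G p v

private theorem STN_D_smooth {O : Set (ℝ × (ℝ × ℝ))} (hO : IsOpen O)
    {G : ℝ × (ℝ × ℝ) → ℝ} (hG : ContDiffOn ℝ ∞ G O) (v : ℝ × (ℝ × ℝ)) :
    ContDiffOn ℝ ∞ (STN_D v G) O :=
  (hG.fderiv_of_isOpen hO (by simp)).clm_apply contDiffOn_const

private theorem STN_D_congr {O : Set (ℝ × (ℝ × ℝ))} (hO : IsOpen O)
    {G H : ℝ × (ℝ × ℝ) → ℝ} (h : ∀ p ∈ O, G p = H p) (v : ℝ × (ℝ × ℝ)) {p : ℝ × (ℝ × ℝ)}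
    (hp : p ∈ O) : STN_D v G p = STN_D v H p := by
  have h1 : G =ᶠ[nhds p] H := Filter.eventually_of_mem (hO.mem_nhds hp) h
  rw [STN_D, STN_D, h1.fderiv_eq]

private theorem STN_diff {O : Set (ℝ × (ℝ × ℝ))} (hO : IsOpen O)
    {G : ℝ × (ℝ × ℝ) → ℝ} (hG : ContDiffOn ℝ ∞ G O) {p : ℝ × (ℝ × ℝ)} (hp : p ∈ O) :
    DifferentiableAt ℝ G p :=
  (hG.contDiffAt (hO.mem_nhds hp)).differentiableAt (by simp)

private theorem STN_D_comm {O : Set (ℝ × (ℝ × ℝ))} (hO : IsOpen O)
    {G : ℝ × (ℝ × ℝ) → ℝ} (hG : ContDiffOn ℝ ∞ G O) (v w : ℝ × (ℝ × ℝ))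
    {p : ℝ × (ℝ × ℝ)} (hp : p ∈ O) : STN_D v (STN_D w G) p = STN_D w (STN_D v G) p := by
  have h2 : ContDiffAt ℝ 2 G p :=
    (contDiffOn_infty.1 hG 2).contDiffAt (hO.mem_nhds hp)
  have hsym : IsSymmSndFDerivAt ℝ G p := h2.isSymmSndFDerivAt (by simp)
  have h1 : ContDiffOn ℝ ∞ (fderiv ℝ G) O := hG.fderiv_of_isOpen hO (by simp)
  have hd : DifferentiableAt ℝ (fderiv ℝ G) p :=
    (h1.contDiffAt (hO.mem_nhds hp)).differentiableAt (by simp)
  have key : ∀ a b : ℝ × (ℝ × ℝ), fderiv ℝ (fun z => fderiv ℝ G z a) p b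
      = fderiv ℝ (fderiv ℝ G) p b a := by
    intro a b
    rw [(hd.hasFDerivAt.clm_apply (hasFDerivAt_const a p)).fderiv]
    simp
  show fderiv ℝ (fun z => fderiv ℝ G z w) p v = fderiv ℝ (fun z => fderiv ℝ G z v) p w
  rw [key, key]
  exact hsym _ _

private theorem STN_fd {H : ℝ × (ℝ × ℝ) → ℝ} {s : ℝ} {q : ℝ × ℝ}
    (h : DifferentiableAt ℝ H (s, q)) (v : ℝ × ℝ) :
    fderiv ℝ (fun z => H (s, z)) q v = STN_D (0, v) H (s, q) := by
  have h1 := h.hasFDerivAt.comp q (hasFDerivAt_prodMk_right s q)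
  have h2 : fderiv ℝ (fun z => H (s, z)) q
      = (fderiv ℝ H (s, q)).comp (ContinuousLinearMap.inr ℝ ℝ (ℝ × ℝ)) := h1.fderiv
  rw [h2]
  rfl

private theorem STN_hd {H : ℝ × (ℝ × ℝ) → ℝ} {s : ℝ} {q : ℝ × ℝ}
    (h : DifferentiableAt ℝ H (s, q)) :
    HasDerivAt (fun r => H (r, q)) (STN_D (1, (0, 0)) H (s, q)) s :=
  h.hasFDerivAt.comp_hasDerivAt s ((hasDerivAt_id s).prodMk (hasDerivAt_const s q))

private theorem STN_slice {O : Set (ℝ × (ℝ × ℝ))} (hO : IsOpen O) (s : ℝ) :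
    IsOpen {z : ℝ × ℝ | (s, z) ∈ O} := hO.preimage (by fun_prop)

private theorem STN_lap {O : Set (ℝ × (ℝ × ℝ))} (hO : IsOpen O)
    {H : ℝ × (ℝ × ℝ) → ℝ} (hH : ContDiffOn ℝ ∞ H O) {s : ℝ} {q : ℝ × ℝ} (h : (s, q) ∈ O) :
    lap (fun z => H (s, z)) q = STN_D (0, (1, 0)) (STN_D (0, (1, 0)) H) (s, q)
      + STN_D (0, (0, 1)) (STN_D (0, (0, 1)) H) (s, q) := by
  have hS := STN_slice hO s
  have e1 : ∀ z ∈ {z : ℝ × ℝ | (s, z) ∈ O}, dx (fun z => H (s, z)) z
      = (fun z => STN_D (0, (1, 0)) H (s, z)) z := fun z hz => STN_fd (STN_diff hO hH hz) _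
  have e2 : ∀ z ∈ {z : ℝ × ℝ | (s, z) ∈ O}, dy (fun z => H (s, z)) z
      = (fun z => STN_D (0, (0, 1)) H (s, z)) z := fun z hz => STN_fd (STN_diff hO hH hz) _
  rw [lap, dx_congr hS e1 h, dy_congr hS e2 h]
  congr 1
  · exact STN_fd (STN_diff hO (STN_D_smooth hO hH _) h) _
  · exact STN_fd (STN_diff hO (STN_D_smooth hO hH _) h) _

theorem dparam {O : Set (ℝ × (ℝ × ℝ))} (hO : IsOpen O) {G : ℝ × (ℝ × ℝ) → ℝ}
    (hG : ContDiffOn ℝ ∞ G O) {s : ℝ} {q : ℝ × ℝ} (h : (s, q) ∈ O) :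
    lap (fun z => deriv (fun r => G (r, z)) s) q
      = deriv (fun r => lap (fun z => G (r, z)) q) s := by
  have hS := STN_slice hO s
  have h0 := STN_D_smooth hO hG (1, (0, 0))
  have e1 : ∀ z ∈ {z : ℝ × ℝ | (s, z) ∈ O}, deriv (fun r => G (r, z)) s
      = (fun z => STN_D (1, (0, 0)) G (s, z)) z := fun z hz =>
    (STN_hd (STN_diff hO hG hz)).deriv
  rw [lap_congr hS e1 h, STN_lap hO h0 h]
  have h11 := STN_D_smooth hO (STN_D_smooth hO hG (0, (1, 0))) (0, (1, 0))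
  have h22 := STN_D_smooth hO (STN_D_smooth hO hG (0, (0, 1))) (0, (0, 1))
  have hT : IsOpen {r : ℝ | (r, q) ∈ O} := hO.preimage (by fun_prop)
  have e2 : (fun r => lap (fun z => G (r, z)) q) =ᶠ[nhds s]
      fun r => STN_D (0, (1, 0)) (STN_D (0, (1, 0)) G) (r, q)
        + STN_D (0, (0, 1)) (STN_D (0, (0, 1)) G) (r, q) := by
    filter_upwards [hT.mem_nhds h] with r hr
    exact STN_lap hO hG hr
  rw [e2.deriv_eq]
  have e3 := ((STN_hd (STN_diff hO h11 h)).add (STN_hd (STN_diff hO h22 h))).deriv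
  have key : ∀ v : ℝ × (ℝ × ℝ), STN_D v (STN_D v (STN_D (1, (0, 0)) G)) (s, q)
      = STN_D (1, (0, 0)) (STN_D v (STN_D v G)) (s, q) := by
    intro v
    rw [STN_D_congr hO (fun p hp => STN_D_comm hO hG v (1, (0, 0)) hp) v h]
    exact STN_D_comm hO (STN_D_smooth hO hG v) v (1, (0, 0)) h
  rw [key, key]
  exact e3.symm

/-- the family of functions `W` -/
private noncomputable def STN_W (a k κ : ℝ) (p : ℝ × (ℝ × ℝ)) : ℝ :=
  Wb (a + p.1) (k + κ * p.1) p.2

/-- the region where it is smooth -/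
private def STN_O1 (a k κ : ℝ) : Set (ℝ × (ℝ × ℝ)) :=
  {p | 0 < a + p.1 ∧ 0 < k + κ * p.1 ∧ 0 < Db (k + κ * p.1) p.2}

private theorem STN_Db_smooth (k κ : ℝ) :
    ContDiff ℝ ∞ (fun p : ℝ × (ℝ × ℝ) => Db (k + κ * p.1) p.2) := by
  unfold Db
  fun_prop

private theorem STN_O1_open (a k κ : ℝ) : IsOpen (STN_O1 a k κ) := by
  have h1 : IsOpen {p : ℝ × (ℝ × ℝ) | 0 < a + p.1} := isOpen_lt continuous_const (by fun_prop)
  have h2 : IsOpen {p : ℝ × (ℝ × ℝ) | 0 < k + κ * p.1} :=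
    isOpen_lt continuous_const (by fun_prop)
  have h3 : IsOpen {p : ℝ × (ℝ × ℝ) | 0 < Db (k + κ * p.1) p.2} :=
    isOpen_lt continuous_const (STN_Db_smooth k κ).continuous
  exact h1.inter (h2.inter h3)

/-- the two coefficients -/
private noncomputable def STN_Q (a k κ : ℝ) (p : ℝ × ℝ) : ℝ :=
  2 * (k + κ * p.1) ^ 2 / ((a + p.1) ^ 2 + (k + κ * p.1) ^ 2)
    * Mb (a + p.1) (k + κ * p.1) p.2 / Real.cosh (a + p.1)

private noncomputable def STN_P (a : ℝ) (p : ℝ × ℝ) : ℝ :=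
  Real.cosh ((a + p.1) * p.2) / Real.cosh (a + p.1)

private theorem STN_W_eq (a k κ : ℝ) (p : ℝ × (ℝ × ℝ)) : STN_W a k κ p
    = STN_P a (p.1, p.2.2) - STN_Q a k κ (p.1, p.2.2) / Db (k + κ * p.1) p.2 := by
  unfold STN_W STN_P STN_Q Wb
  ring

private def STN_O2 (a k κ : ℝ) : Set (ℝ × ℝ) := {p | 0 < a + p.1 ∧ 0 < k + κ * p.1}

private theorem STN_O2_open (a k κ : ℝ) : IsOpen (STN_O2 a k κ) := by
  have h1 : IsOpen {p : ℝ × ℝ | 0 < a + p.1} := isOpen_lt continuous_const (by fun_prop)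
  have h2 : IsOpen {p : ℝ × ℝ | 0 < k + κ * p.1} := isOpen_lt continuous_const (by fun_prop)
  exact h1.inter h2

private theorem STN_P_smooth (a : ℝ) : ContDiff ℝ ∞ (STN_P a) := by
  unfold STN_P
  exact ContDiff.div (by fun_prop) (by fun_prop) fun p => (Real.cosh_pos _).ne'

private theorem STN_Q_smooth (a k κ : ℝ) : ContDiffOn ℝ ∞ (STN_Q a k κ) (STN_O2 a k κ) := by
  unfold STN_Q Mb
  have hK : ContDiff ℝ ∞ (fun p : ℝ × ℝ => k + κ * p.1) := by fun_prop
  have hA : ContDiff ℝ ∞ (fun p : ℝ × ℝ => a + p.1) := by fun_prop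
  have h1 : ContDiffOn ℝ ∞ (fun p : ℝ × ℝ => 2 * (k + κ * p.1) ^ 2
      / ((a + p.1) ^ 2 + (k + κ * p.1) ^ 2)) (STN_O2 a k κ) :=
    ContDiffOn.div (contDiff_const.mul (hK.pow 2)).contDiffOn
      ((hA.pow 2).add (hK.pow 2)).contDiffOn fun p hp => by
        have := hp.1
        positivity
  have h2 : ContDiffOn ℝ ∞ (fun p : ℝ × ℝ => (a + p.1) / (k + κ * p.1)) (STN_O2 a k κ) :=
    ContDiffOn.div hA.contDiffOn hK.contDiffOn fun p hp => hp.2.ne'
  have h3 : ContDiff ℝ ∞ (fun p : ℝ × ℝ => Real.cos ((k + κ * p.1) * p.2)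
      * Real.cosh ((a + p.1) * p.2)) := by fun_prop
  have h4 : ContDiff ℝ ∞ (fun p : ℝ × ℝ => Real.sin ((k + κ * p.1) * p.2)) := by fun_prop
  have h5 : ContDiff ℝ ∞ (fun p : ℝ × ℝ => Real.sinh ((a + p.1) * p.2)) := by fun_prop
  have h6 : ContDiff ℝ ∞ (fun p : ℝ × ℝ => Real.cosh (a + p.1)) := by fun_prop
  exact (h1.mul (h3.contDiffOn.sub ((h2.mul h4.contDiffOn).mul h5.contDiffOn))).div
    h6.contDiffOn fun p _ => (Real.cosh_pos _).ne'

private theorem STN_W_smooth (a k κ : ℝ) :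
    ContDiffOn ℝ ∞ (STN_W a k κ) (STN_O1 a k κ) := by
  have hpr : ContDiff ℝ ∞ (fun p : ℝ × (ℝ × ℝ) => (p.1, p.2.2)) := by fun_prop
  have h1 : ContDiffOn ℝ ∞ (fun p : ℝ × (ℝ × ℝ) => STN_Q a k κ (p.1, p.2.2))
      (STN_O1 a k κ) :=
    (STN_Q_smooth a k κ).comp hpr.contDiffOn fun p hp => ⟨hp.1, hp.2.1⟩
  have h2 : ContDiffOn ℝ ∞ (fun p : ℝ × (ℝ × ℝ) => STN_P a (p.1, p.2.2)
      - STN_Q a k κ (p.1, p.2.2) / Db (k + κ * p.1) p.2) (STN_O1 a k κ) :=
    ((STN_P_smooth a).comp hpr).contDiffOn.sub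
      (h1.div (STN_Db_smooth k κ).contDiffOn fun p hp => hp.2.2.ne')
  exact h2.congr fun p _ => STN_W_eq a k κ p

/-- the region where the logarithm is smooth -/
private def STN_O (a k κ : ℝ) : Set (ℝ × (ℝ × ℝ)) :=
  STN_O1 a k κ ∩ STN_W a k κ ⁻¹' Ioi 0

private theorem STN_O_open (a k κ : ℝ) : IsOpen (STN_O a k κ) :=
  (STN_W_smooth a k κ).continuousOn.isOpen_inter_preimage (STN_O1_open a k κ) isOpen_Ioi

private noncomputable def STN_G (a k κ : ℝ) (p : ℝ × (ℝ × ℝ)) : ℝ :=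
  -2 * Real.log (STN_W a k κ p)

private theorem STN_G_smooth (a k κ : ℝ) : ContDiffOn ℝ ∞ (STN_G a k κ) (STN_O a k κ) := by
  unfold STN_G
  exact contDiffOn_const.mul (((STN_W_smooth a k κ).mono inter_subset_left).log
    fun p hp => (show 0 < STN_W a k κ p from hp.2).ne')

private theorem STN_exp {w : ℝ} (hw : 0 < w) : Real.exp (-2 * Real.log w) = (w ^ 2)⁻¹ := by
  rw [neg_mul, Real.exp_neg, two_mul, Real.exp_add, Real.exp_log hw, sq]

private theorem STN_pde (a k κ : ℝ) {p : ℝ × (ℝ × ℝ)} (hp : p ∈ STN_O a k κ) :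
    -lap (fun z => STN_G a k κ (p.1, z)) p.2
      = mu1 (a + p.1) * Real.exp (STN_G a k κ p) := by
  obtain ⟨s, q⟩ := p
  have hS := STN_slice (STN_O_open a k κ) s
  have hq : q ∈ {z : ℝ × ℝ | (s, z) ∈ STN_O a k κ} := hp
  have hWs : ContDiffOn ℝ ∞ (fun z => STN_W a k κ (s, z)) {z : ℝ × ℝ | (s, z) ∈ STN_O a k κ} :=
    (STN_W_smooth a k κ).comp (t := STN_O1 a k κ) (contDiff_prodMk_right s).contDiffOn
      fun z hz => hz.1
  have hWs2 : ContDiffOn ℝ 2 (fun z => STN_W a k κ (s, z))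
      {z : ℝ × ℝ | (s, z) ∈ STN_O a k κ} := contDiffOn_infty.1 hWs 2
  have hpos : ∀ z ∈ {z : ℝ × ℝ | (s, z) ∈ STN_O a k κ}, 0 < STN_W a k κ (s, z) :=
    fun z hz => hz.2
  have h1 := lap_log hS hWs2 hpos hq
  have h2 := wb_pde (a := a + s) (k := k + κ * s) (q := q) hp.1.1 hp.1.2.1 hp.1.2.2
  have hlog : ContDiffOn ℝ 2 (fun z => Real.log (STN_W a k κ (s, z)))
      {z : ℝ × ℝ | (s, z) ∈ STN_O a k κ} := hWs2.log fun z hz => (hpos z hz).ne'
  have h3 := lap_const_mul hS (-2) hlog hq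
  have hw : 0 < STN_W a k κ (s, q) := hp.2
  have h4 : STN_W a k κ (s, q) * lap (fun z => STN_W a k κ (s, z)) q
      - gdot (fun z => STN_W a k κ (s, z)) (fun z => STN_W a k κ (s, z)) q
      = mu1 (a + s) / 2 := h2
  show -lap (fun z => -2 * Real.log (STN_W a k κ (s, z))) q
    = mu1 (a + s) * Real.exp (-2 * Real.log (STN_W a k κ (s, q)))
  rw [h3, h1, STN_exp hw, h4]
  field_simp

private theorem STN_sin_cos {k : ℝ} (hk : 0 < k) : Real.sin k * Real.cos k < k := by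
  have h1 : Real.sin (2 * k) < 2 * k := Real.sin_lt (by linarith)
  rw [Real.sin_two_mul] at h1
  linarith

private theorem STN_F_deriv (a k κ : ℝ) (hk : k ≠ 0) :
    HasDerivAt (fun s => Mb (a + s) (k + κ * s) 1)
      ((Real.cos k * Real.sinh a - 1 / k * Real.sin k * (Real.sinh a + a * Real.cosh a))
        + κ * (-(Real.sin k * Real.cosh a)
          - a * Real.sinh a * (k * Real.cos k - Real.sin k) / k ^ 2)) 0 := by
  unfold Mb
  have hA : HasDerivAt (fun s : ℝ => a + s) 1 0 := by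
    simpa using (hasDerivAt_id (0 : ℝ)).const_add a
  have hK : HasDerivAt (fun s : ℝ => k + κ * s) κ 0 := by
    simpa using ((hasDerivAt_id (0 : ℝ)).const_mul κ).const_add k
  have hA1 : HasDerivAt (fun s : ℝ => (a + s) * 1) 1 0 := by simpa using hA.mul_const 1
  have hK1 : HasDerivAt (fun s : ℝ => (k + κ * s) * 1) κ 0 := by simpa using hK.mul_const 1
  have hk' : k + κ * 0 ≠ 0 := by simpa using hk
  have h := (hK1.cos.mul hA1.cosh).sub (((hA.div hK hk').mul hK1.sin).mul hA1.sinh)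
  refine h.congr_deriv ?_
  simp only [mul_zero, add_zero, mul_one, Pi.mul_apply, Pi.div_apply]
  field_simp
  ring

private theorem STN_kappa {a k : ℝ} (h : Bump a k) :
    ∃ κ : ℝ, HasDerivAt (fun s => Mb (a + s) (k + κ * s) 1) 0 0 := by
  have hk := h.k_pos
  have hsin : 0 < Real.sin k := Real.sin_pos_of_pos_of_lt_pi hk (by
    have := h.k_lt
    have := Real.pi_pos
    linarith)
  have hcosh := Real.cosh_pos a
  obtain ⟨β, hβ⟩ : ∃ β : ℝ, β = -(Real.sin k * Real.cosh a)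
    - a * Real.sinh a * (k * Real.cos k - Real.sin k) / k ^ 2 := ⟨_, rfl⟩
  have hβ0 : β < 0 := by
    have h1 : a * Real.sinh a * Real.sin k = k * Real.cos k * Real.cosh a := by
      have := h.rel
      linarith
    have h2 : β * (k ^ 2 * Real.sin k)
        = -(Real.cosh a * k * (k * (Real.sin k ^ 2 + Real.cos k ^ 2)
          - Real.sin k * Real.cos k)) := by
      have h3 : β * (k ^ 2 * Real.sin k) = -(Real.sin k * Real.cosh a) * (k ^ 2 * Real.sin k)
          - (a * Real.sinh a * Real.sin k) * (k * Real.cos k - Real.sin k) := by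
        rw [hβ]
        field_simp
      rw [h3, h1]
      ring
    rw [Real.sin_sq_add_cos_sq, mul_one] at h2
    have h4 := STN_sin_cos hk
    have h5 : 0 < Real.cosh a * k * (k - Real.sin k * Real.cos k) := by
      have : 0 < k - Real.sin k * Real.cos k := by linarith
      positivity
    have h6 : 0 < k ^ 2 * Real.sin k := by positivity
    by_contra hcon
    push Not at hcon
    have := mul_nonneg hcon h6.le
    linarith
  obtain ⟨γ, hγ⟩ : ∃ γ : ℝ, γ = Real.cos k * Real.sinh a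
    - 1 / k * Real.sin k * (Real.sinh a + a * Real.cosh a) := ⟨_, rfl⟩
  refine ⟨-γ / β, (STN_F_deriv a k (-γ / β) hk.ne').congr_deriv ?_⟩
  rw [← hγ, ← hβ, div_mul_cancel₀ _ hβ0.ne]
  ring

private theorem STN_Mb_even (a k y : ℝ) : Mb a k (-y) = Mb a k y := by
  unfold Mb
  rw [mul_neg, mul_neg, Real.cos_neg, Real.cosh_neg, Real.sin_neg, Real.sinh_neg]
  ring

private theorem STN_Wb_even (a k x y : ℝ) : Wb a k (x, -y) = Wb a k (x, y) ∧
    Wb a k (-x, y) = Wb a k (x, y) := by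
  constructor
  · simp only [Wb, Db, STN_Mb_even, mul_neg, Real.cos_neg, Real.cosh_neg]
  · simp only [Wb, Db, mul_neg, Real.cosh_neg]

/-- derivative of the denominator -/
private theorem STN_Db_deriv (k κ : ℝ) (q : ℝ × ℝ) :
    HasDerivAt (fun s => Db (k + κ * s) q)
      (κ * (q.1 * Real.sinh (k * q.1)) - κ * (q.2 * Real.sin (k * q.2))) 0 := by
  unfold Db
  have hK : HasDerivAt (fun s : ℝ => k + κ * s) κ 0 := by
    simpa using ((hasDerivAt_id (0 : ℝ)).const_mul κ).const_add k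
  have h := (hK.mul_const q.1).cosh.add (hK.mul_const q.2).cos
  refine h.congr_deriv ?_
  simp only [mul_zero, add_zero]
  ring

private theorem STN_Q_hd {a k κ : ℝ} (ha : 0 < a) (hk : 0 < k) (y : ℝ) :
    HasDerivAt (fun s => STN_Q a k κ (s, y)) (fderiv ℝ (STN_Q a k κ) (0, y) (1, 0)) 0 := by
  have hmem : ((0 : ℝ), y) ∈ STN_O2 a k κ := ⟨by simpa using ha, by simpa using hk⟩
  have h : DifferentiableAt ℝ (STN_Q a k κ) (0, y) :=
    ((STN_Q_smooth a k κ).contDiffAt ((STN_O2_open a k κ).mem_nhds hmem)).differentiableAt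
      (by simp)
  exact h.hasFDerivAt.comp_hasDerivAt 0 ((hasDerivAt_id (0 : ℝ)).prodMk (hasDerivAt_const 0 y))

private theorem STN_P_hd (a y : ℝ) :
    HasDerivAt (fun s => STN_P a (s, y)) (fderiv ℝ (STN_P a) (0, y) (1, 0)) 0 := by
  have h : DifferentiableAt ℝ (STN_P a) (0, y) := (STN_P_smooth a).differentiable (by simp) _
  exact h.hasFDerivAt.comp_hasDerivAt 0 ((hasDerivAt_id (0 : ℝ)).prodMk (hasDerivAt_const 0 y))

private theorem STN_D_pos {k : ℝ} (hk : 0 < k) (hk2 : k < Real.pi / 2) {q : ℝ × ℝ}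
    (hq : |q.2| ≤ 1) : Real.cosh (k * q.1) ≤ Db k q := by
  have h1 : 0 ≤ Real.cos (k * q.2) := by
    apply Real.cos_nonneg_of_neg_pi_div_two_le_of_le
    · have := (abs_le.1 hq).1
      nlinarith
    · have := (abs_le.1 hq).2
      nlinarith
  unfold Db
  linarith

/-- the derivative of `W` with respect to the parameter -/
private theorem STN_W_hd {a k κ : ℝ} (ha : 0 < a) (hk : 0 < k) (hk2 : k < Real.pi / 2)
    {q : ℝ × ℝ} (hq : |q.2| ≤ 1) : HasDerivAt (fun s => STN_W a k κ (s, q))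
      (fderiv ℝ (STN_P a) (0, q.2) (1, 0)
        - (fderiv ℝ (STN_Q a k κ) (0, q.2) (1, 0) * Db k q
          - STN_Q a k κ (0, q.2)
            * (κ * (q.1 * Real.sinh (k * q.1)) - κ * (q.2 * Real.sin (k * q.2)))) / Db k q ^ 2)
      0 := by
  have hD : 0 < Db k q := (Real.cosh_pos _).trans_le (STN_D_pos hk hk2 hq)
  have hD' : Db (k + κ * 0) q ≠ 0 := by
    rw [mul_zero, add_zero]
    exact hD.ne'
  have h := (STN_P_hd a q.2).sub ((STN_Q_hd (κ := κ) ha hk q.2).div (STN_Db_deriv k κ q) hD')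
  have e : (fun s => STN_W a k κ (s, q)) = fun s => STN_P a (s, q.2)
      - STN_Q a k κ (s, q.2) / Db (k + κ * s) q := funext fun s => STN_W_eq a k κ (s, q)
  rw [e]
  refine h.congr_deriv ?_
  simp only [mul_zero, add_zero]

private theorem STN_sinh (k x : ℝ) (hk : 0 < k) :
    |x * Real.sinh (k * x)| ≤ Real.cosh (k * x) ^ 2 / k := by
  have h1 : |Real.sinh (k * x)| ≤ Real.cosh (k * x) := by
    rw [Real.abs_sinh, ← Real.cosh_abs]
    exact (Real.sinh_lt_cosh _).le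
  have h2 : |x| ≤ Real.cosh (k * x) / k := by
    rw [le_div_iff₀ hk]
    have h3 : |k * x| ≤ Real.sinh |k * x| := Real.self_le_sinh_iff.2 (abs_nonneg _)
    have h4 : Real.sinh |k * x| ≤ Real.cosh (k * x) := by
      rw [← Real.cosh_abs (k * x)]
      exact (Real.sinh_lt_cosh _).le
    have h5 := h3.trans h4
    rw [abs_mul, abs_of_pos hk] at h5
    linarith
  rw [abs_mul]
  calc |x| * |Real.sinh (k * x)| ≤ Real.cosh (k * x) / k * Real.cosh (k * x) :=
        mul_le_mul h2 h1 (abs_nonneg _) (by positivity)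
    _ = Real.cosh (k * x) ^ 2 / k := by ring

private theorem STN_W_bound {a k κ : ℝ} (ha : 0 < a) (hk : 0 < k) (hk2 : k < Real.pi / 2) :
    ∃ B : ℝ, 0 ≤ B ∧ ∀ q : ℝ × ℝ, |q.2| ≤ 1 →
      |deriv (fun s => STN_W a k κ (s, q)) 0| ≤ B := by
  have hyc : Continuous (fun y : ℝ => ((0 : ℝ), y)) := by fun_prop
  have hmem : ∀ y : ℝ, ((0 : ℝ), y) ∈ STN_O2 a k κ := fun y =>
    ⟨by simpa using ha, by simpa using hk⟩
  have c1 : Continuous (fun y : ℝ => fderiv ℝ (STN_P a) (0, y) (1, 0)) :=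
    (((STN_P_smooth a).continuous_fderiv (by simp)).comp hyc).clm_apply continuous_const
  have c2 : Continuous (fun y : ℝ => fderiv ℝ (STN_Q a k κ) (0, y) (1, 0)) := by
    have h1 : ContinuousOn (fderiv ℝ (STN_Q a k κ)) (STN_O2 a k κ) :=
      (STN_Q_smooth a k κ).continuousOn_fderiv_of_isOpen (STN_O2_open a k κ) (by simp)
    exact (h1.comp_continuous hyc hmem).clm_apply continuous_const
  have c3 : Continuous (fun y : ℝ => STN_Q a k κ (0, y)) :=
    (STN_Q_smooth a k κ).continuousOn.comp_continuous hyc hmem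
  obtain ⟨B1, hB1⟩ := (isCompact_Icc (a := (-1 : ℝ)) (b := 1)).exists_bound_of_continuousOn
    c1.continuousOn
  obtain ⟨B2, hB2⟩ := (isCompact_Icc (a := (-1 : ℝ)) (b := 1)).exists_bound_of_continuousOn
    c2.continuousOn
  obtain ⟨B3, hB3⟩ := (isCompact_Icc (a := (-1 : ℝ)) (b := 1)).exists_bound_of_continuousOn
    c3.continuousOn
  refine ⟨|B1| + |B2| + |B3| * (|κ| * (1 / k + 1)), by positivity, fun q hq => ?_⟩
  have hy : q.2 ∈ Icc (-1 : ℝ) 1 := abs_le.1 hq
  have b1 := (hB1 q.2 hy).trans (le_abs_self B1)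
  have b2 := (hB2 q.2 hy).trans (le_abs_self B2)
  have b3 := (hB3 q.2 hy).trans (le_abs_self B3)
  rw [Real.norm_eq_abs] at b1 b2 b3
  have hcD := STN_D_pos hk hk2 hq
  have h1c := Real.one_le_cosh (k * q.1)
  have hD1 : 1 ≤ Db k q := h1c.trans hcD
  have hD0 : 0 < Db k q := by linarith
  rw [(STN_W_hd (κ := κ) ha hk hk2 hq).deriv]
  obtain ⟨p', hp'⟩ : ∃ p' : ℝ, p' = fderiv ℝ (STN_P a) (0, q.2) (1, 0) := ⟨_, rfl⟩
  obtain ⟨q', hq'⟩ : ∃ q' : ℝ, q' = fderiv ℝ (STN_Q a k κ) (0, q.2) (1, 0) := ⟨_, rfl⟩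
  obtain ⟨r', hr'⟩ : ∃ r' : ℝ, r' = STN_Q a k κ (0, q.2) := ⟨_, rfl⟩
  obtain ⟨d', hd'⟩ : ∃ d' : ℝ, d' = κ * (q.1 * Real.sinh (k * q.1))
    - κ * (q.2 * Real.sin (k * q.2)) := ⟨_, rfl⟩
  rw [← hp'] at b1
  rw [← hq'] at b2
  rw [← hr'] at b3
  rw [← hp', ← hq', ← hr', ← hd']
  have hd2 : |d'| ≤ |κ| * (1 / k + 1) * Db k q ^ 2 := by
    have e1 := STN_sinh k q.1 hk
    have e2 : |q.2 * Real.sin (k * q.2)| ≤ 1 := by
      rw [abs_mul]
      exact mul_le_one₀ hq (abs_nonneg _) (Real.abs_sin_le_one _)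
    have e3 : Real.cosh (k * q.1) ^ 2 ≤ Db k q ^ 2 := pow_le_pow_left₀ (by linarith) hcD 2
    have e4 : (1 : ℝ) ≤ Db k q ^ 2 := one_le_pow₀ hD1
    have e5 : d' = κ * (q.1 * Real.sinh (k * q.1) - q.2 * Real.sin (k * q.2)) := by
      rw [hd']; ring
    rw [e5, abs_mul, mul_assoc]
    refine mul_le_mul_of_nonneg_left ?_ (abs_nonneg _)
    refine (abs_sub _ _).trans ?_
    have e6 : Real.cosh (k * q.1) ^ 2 / k ≤ Db k q ^ 2 / k :=
      div_le_div_of_nonneg_right e3 hk.le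
    calc |q.1 * Real.sinh (k * q.1)| + |q.2 * Real.sin (k * q.2)|
        ≤ Db k q ^ 2 / k + Db k q ^ 2 := add_le_add (e1.trans e6) (e2.trans e4)
      _ = (1 / k + 1) * Db k q ^ 2 := by ring
  have e : p' - (q' * Db k q - r' * d') / Db k q ^ 2
      = p' - q' / Db k q + r' * (d' / Db k q ^ 2) := by
    field_simp
    ring
  rw [e]
  have f1 : |q' / Db k q| ≤ |B2| := by
    rw [abs_div, abs_of_pos hD0]
    exact (div_le_self (abs_nonneg _) hD1).trans b2
  have f2 : |r' * (d' / Db k q ^ 2)| ≤ |B3| * (|κ| * (1 / k + 1)) := by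
    rw [abs_mul]
    refine mul_le_mul b3 ?_ (abs_nonneg _) (abs_nonneg _)
    rw [abs_div, abs_of_pos (by positivity : 0 < Db k q ^ 2), div_le_iff₀ (by positivity)]
    exact hd2
  calc |p' - q' / Db k q + r' * (d' / Db k q ^ 2)|
      ≤ |p' - q' / Db k q| + |r' * (d' / Db k q ^ 2)| := abs_add_le _ _
    _ ≤ (|p'| + |q' / Db k q|) + |r' * (d' / Db k q ^ 2)| := by
        gcongr
        exact abs_sub _ _
    _ ≤ _ := by linarith

/-- the derivative vanishes on the boundary of the strip -/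
private theorem STN_W_bd {a k κ : ℝ} (h : Bump a k)
    (hκ : HasDerivAt (fun s => Mb (a + s) (k + κ * s) 1) 0 0) {q : ℝ × ℝ} (hq : |q.2| = 1) :
    deriv (fun s => STN_W a k κ (s, q)) 0 = 0 := by
  have hM : ∀ s, Mb (a + s) (k + κ * s) q.2 = Mb (a + s) (k + κ * s) 1 := by
    intro s
    rcases abs_eq (zero_le_one) |>.1 hq with h1 | h1
    · rw [h1]
    · rw [h1, STN_Mb_even]
  have hMb0 : Mb (a + 0) (k + κ * 0) 1 = 0 := by
    rw [mul_zero, add_zero, add_zero]
    exact mb_one h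
  obtain ⟨u, hu⟩ : ∃ u : ℝ → ℝ, u = fun s => 2 * (k + κ * s) ^ 2
      / ((a + s) ^ 2 + (k + κ * s) ^ 2) / Real.cosh (a + s) := ⟨_, rfl⟩
  have ha := h.a_pos
  have hud : DifferentiableAt ℝ u 0 := by
    rw [hu]
    refine DifferentiableAt.div (DifferentiableAt.div (by fun_prop) (by fun_prop) ?_)
      (by fun_prop) (Real.cosh_pos _).ne'
    have : 0 < a + 0 := by simpa using ha
    positivity
  have e0 : (fun s => STN_Q a k κ (s, q.2)) = fun s => u s * Mb (a + s) (k + κ * s) 1 := by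
    funext s
    rw [hu]
    simp only [STN_Q, hM]
    ring
  have hQ := STN_Q_hd (κ := κ) ha h.k_pos q.2
  have hQ0 : STN_Q a k κ (0, q.2) = 0 := by
    have h1 : STN_Q a k κ (0, q.2) = u 0 * Mb (a + 0) (k + κ * 0) 1 := congrFun e0 0
    rw [h1, hMb0, mul_zero]
  have hQ' : fderiv ℝ (STN_Q a k κ) (0, q.2) (1, 0) = 0 := by
    rw [e0] at hQ
    have h2 := hud.hasDerivAt.mul hκ
    rw [hMb0, mul_zero, mul_zero, add_zero] at h2
    exact hQ.unique h2
  have hP' : fderiv ℝ (STN_P a) (0, q.2) (1, 0) = 0 := by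
    have e1 : (fun s => STN_P a (s, q.2)) = fun _ => 1 := by
      funext s
      show Real.cosh ((a + s) * q.2) / Real.cosh (a + s) = 1
      rcases abs_eq (zero_le_one) |>.1 hq with h1 | h1
      · rw [h1, mul_one, div_self (Real.cosh_pos _).ne']
      · rw [h1, mul_neg, mul_one, Real.cosh_neg, div_self (Real.cosh_pos _).ne']
    have h1 := STN_P_hd a q.2
    rw [e1] at h1
    exact h1.unique (hasDerivAt_const _ _)
  rw [(STN_W_hd (κ := κ) ha h.k_pos h.k_lt hq.le).deriv, hQ0, hQ', hP']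
  simp

theorem bump_eta {a k : ℝ} (h : Bump a k) : ∃ η : ℝ × ℝ → ℝ, ∃ C : ℝ, Continuous η ∧
    (∀ q, q ∉ Str 1 → η q = 0) ∧ ContDiffOn ℝ ∞ η (Str 1) ∧ EvX η ∧ EvY η ∧
    (∀ q, |η q| ≤ C) ∧ ∀ q ∈ Str 1, -lap η q
      = mu1 a * Real.exp (VB a k q) * η q + deriv mu1 a * Real.exp (VB a k q) := by
  obtain ⟨κ, hκ⟩ := STN_kappa h
  obtain ⟨L, hL1, hkL, hWpos, -⟩ := wb_nhd h
  have ha := h.a_pos
  have hk := h.k_pos
  have hO := STN_O_open a k κ
  have hG := STN_G_smooth a k κ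
  have hmem : ∀ q : ℝ × ℝ, |q.2| < L → ((0 : ℝ), q) ∈ STN_O a k κ := by
    intro q hq
    refine ⟨⟨by simpa using ha, by simpa using hk, ?_⟩, ?_⟩
    · show 0 < Db (k + κ * 0) q
      rw [mul_zero, add_zero]
      have h1 : 0 < Real.cos (k * q.2) := by
        apply Real.cos_pos_of_mem_Ioo
        have h2 := abs_lt.1 hq
        constructor <;> nlinarith [h2.1, h2.2]
      unfold Db
      have := Real.cosh_pos (k * q.1)
      linarith
    · show 0 < Wb (a + 0) (k + κ * 0) q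
      rw [mul_zero, add_zero, add_zero]
      exact hWpos q hq
  -- the function `g`
  obtain ⟨g, hg⟩ : ∃ g : ℝ × ℝ → ℝ, g = fun q => deriv (fun r => STN_G a k κ (r, q)) 0 :=
    ⟨_, rfl⟩
  have hgD : ∀ q : ℝ × ℝ, |q.2| < L → g q = STN_D (1, (0, 0)) (STN_G a k κ) (0, q) :=
    fun q hq => by rw [hg]; exact (STN_hd (STN_diff hO hG (hmem q hq))).deriv
  have hgs : ContDiffOn ℝ ∞ g (Str L) := by
    have h1 : ContDiffOn ℝ ∞ (fun q : ℝ × ℝ => STN_D (1, (0, 0)) (STN_G a k κ) (0, q))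
        (Str L) :=
      (STN_D_smooth hO hG (1, (0, 0))).comp (t := STN_O a k κ)
        (contDiff_prodMk_right (0 : ℝ)).contDiffOn fun q hq => hmem q hq
    exact h1.congr fun q hq => hgD q hq
  have hW0 : ∀ q : ℝ × ℝ, STN_W a k κ (0, q) = Wb a k q := by
    intro q
    show Wb (a + 0) (k + κ * 0) q = _
    rw [mul_zero, add_zero, add_zero]
  have hgW : ∀ q : ℝ × ℝ, |q.2| ≤ 1 →
      g q = -2 * (deriv (fun s => STN_W a k κ (s, q)) 0 / Wb a k q) := by
    intro q hq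
    have h1 := STN_W_hd (κ := κ) ha hk h.k_lt hq
    have h2 : STN_W a k κ (0, q) ≠ 0 := by
      rw [hW0]
      exact (hWpos q (by linarith)).ne'
    have h3 := (h1.log h2).const_mul (-2)
    rw [hg, h1.deriv, ← hW0 q]
    exact h3.deriv
  have hg1 : ∀ q : ℝ × ℝ, |q.2| = 1 → g q = 0 := by
    intro q hq
    rw [hgW q hq.le, STN_W_bd h hκ hq]
    simp
  have hgex : ∀ x y, g (-x, y) = g (x, y) := by
    intro x y
    rw [hg]
    simp only [STN_G, STN_W, (STN_Wb_even _ _ x y).2]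
  have hgey : ∀ x y, g (x, -y) = g (x, y) := by
    intro x y
    rw [hg]
    simp only [STN_G, STN_W, (STN_Wb_even _ _ x y).1]
  obtain ⟨B, hB0, hB⟩ := STN_W_bound (κ := κ) ha hk h.k_lt
  obtain ⟨w, hw⟩ : ∃ w : ℝ, w = a ^ 2 / ((a ^ 2 + k ^ 2) * Real.cosh a) := ⟨_, rfl⟩
  have hw0 : 0 < w := by
    rw [hw]
    have := Real.cosh_pos a
    positivity
  have hgB : ∀ q : ℝ × ℝ, |q.2| ≤ 1 → |g q| ≤ 2 * (B / w) := by
    intro q hq
    have h1 : w ≤ Wb a k q := by
      rw [hw]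
      exact wb_lower h hq
    rw [hgW q hq, abs_mul, abs_div]
    have h2 : |Wb a k q| = Wb a k q := abs_of_pos (by linarith)
    rw [h2, abs_neg, abs_two]
    refine mul_le_mul_of_nonneg_left ?_ (by norm_num)
    exact div_le_div₀ hB0 (hB q hq) hw0 h1
  -- clamping
  obtain ⟨cl, hcl⟩ : ∃ cl : ℝ → ℝ, cl = fun y => max (-1) (min 1 y) := ⟨_, rfl⟩
  have hclc : Continuous cl := by rw [hcl]; fun_prop
  have hcl1 : ∀ y, |cl y| ≤ 1 := fun y => by
    rw [hcl]
    exact abs_le.2 ⟨le_max_left _ _, max_le (by norm_num) (min_le_left _ _)⟩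
  have hcl2 : ∀ y, |y| < 1 → cl y = y := fun y hy => by
    rw [hcl]
    have := abs_lt.1 hy
    simp only
    rw [min_eq_right this.2.le, max_eq_right this.1.le]
  have hcl3 : ∀ y, ¬|y| < 1 → |cl y| = 1 := fun y hy => by
    rw [hcl]
    simp only
    rcases le_abs'.1 (not_lt.1 hy) with h1 | h1
    · rw [min_eq_right (by linarith), max_eq_left h1]
      simp
    · rw [min_eq_left h1, max_eq_right (by norm_num)]
      simp
  have hcl4 : ∀ y, cl (-y) = -cl y := fun y => by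
    rw [hcl]
    simp only
    rw [← min_neg_neg, ← max_neg_neg, neg_neg, max_min_distrib_left]
    have : max (-1 : ℝ) 1 = 1 := by norm_num
    rw [this]
  refine ⟨fun q => g (q.1, cl q.2), 2 * (B / w), ?_, fun q hq => ?_, ?_, fun x y => ?_,
    fun x y => ?_, fun q => hgB _ (hcl1 _), fun q hq => ?_⟩
  · have h1 : Continuous (fun q : ℝ × ℝ => (q.1, cl q.2)) :=
      continuous_fst.prodMk (hclc.comp continuous_snd)
    exact hgs.continuousOn.comp_continuous h1 fun q =>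
      show |cl q.2| < L from (hcl1 q.2).trans_lt hL1
  · exact hg1 _ (hcl3 _ hq)
  · have h1 : ContDiffOn ℝ ∞ g (Str 1) := hgs.mono fun q hq =>
      show |q.2| < L from lt_trans (show |q.2| < 1 from hq) hL1
    exact h1.congr fun q hq => by rw [hcl2 q.2 hq]
  · exact hgex _ _
  · show g (x, cl (-y)) = g (x, cl y)
    rw [hcl4]
    exact hgey _ _
  · have hS1 : IsOpen (Str 1) := (solid_str one_pos).isOpen
    have hq1 : |q.2| < 1 := hq
    have hqL : |q.2| < L := hq1.trans hL1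
    have hqO := hmem q hqL
    have e1 : lap (fun q : ℝ × ℝ => g (q.1, cl q.2)) q = lap g q :=
      lap_congr hS1 (fun z hz => by rw [hcl2 z.2 hz]) hq
    have e2 := dparam hO hG hqO
    have e3 : lap g q = deriv (fun r => lap (fun z => STN_G a k κ (r, z)) q) 0 := by
      rw [hg]
      exact e2
    have hT : IsOpen {r : ℝ | (r, q) ∈ STN_O a k κ} := hO.preimage (by fun_prop)
    have e4 : (fun r => lap (fun z => STN_G a k κ (r, z)) q) =ᶠ[nhds 0]
        fun r => -(mu1 (a + r) * Real.exp (STN_G a k κ (r, q))) := by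
      filter_upwards [hT.mem_nhds hqO] with r hr
      have := STN_pde a k κ hr
      simp only at this
      linarith
    have hV : STN_G a k κ (0, q) = VB a k q := by
      rw [STN_G, hW0, VB, if_pos hq1]
    have hGd : HasDerivAt (fun r => STN_G a k κ (r, q)) (g q) 0 := by
      rw [hgD q hqL]
      exact STN_hd (STN_diff hO hG hqO)
    have hmu : HasDerivAt (fun r => mu1 (a + r)) (deriv mu1 a) 0 := by
      have h1 : DifferentiableAt ℝ mu1 a := by
        unfold mu1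
        exact DifferentiableAt.div (by fun_prop) (by fun_prop)
          (pow_pos (Real.cosh_pos _) 2).ne'
      have h2 : HasDerivAt (fun r : ℝ => a + r) 1 0 := by
        simpa using (hasDerivAt_id (0 : ℝ)).const_add a
      have h3 : HasDerivAt mu1 (deriv mu1 a) (a + 0) := by
        rw [add_zero]
        exact h1.hasDerivAt
      exact (h3.comp 0 h2).congr_deriv (mul_one _)
    have e5 : deriv (fun r => -(mu1 (a + r) * Real.exp (STN_G a k κ (r, q)))) 0
        = -(deriv mu1 a * Real.exp (VB a k q)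
          + mu1 a * (Real.exp (VB a k q) * g q)) := by
      have h1 := (hmu.mul hGd.exp).neg.deriv
      rw [hV, add_zero] at h1
      exact h1
    have e6 : g (q.1, cl q.2) = g q := by rw [hcl2 q.2 hq1]
    rw [e1, e3, e4.deriv_eq, e5]
    simp only [e6]
    ring

theorem nd_bump {a k M : ℝ} (h : Bump a k) {ζ : ℝ × ℝ → ℝ} (hc : Continuous ζ)
    (h0 : ∀ q, q ∉ Str 1 → ζ q = 0) (hM : ∀ q, |ζ q| ≤ M) (evx : EvX ζ) (evy : EvY ζ)
    (hw : Weak ζ (fun q => mu1 a * Real.exp (VB a k q) * ζ q) (Str 1)) :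
    ∀ q, ζ q = 0 := by
  have hS1 : IsOpen (Str 1) := (solid_str one_pos).isOpen
  have ha := h.a_pos
  have hmu := mu1_pos ha
  have hVs := vb_smooth h
  have hVs3 : ContDiffOn ℝ 3 (VB a k) (Str 1) := contDiffOn_infty.1 hVs 3
  obtain ⟨E, hE⟩ : ∃ E : ℝ × ℝ → ℝ, E = fun q => mu1 a * Real.exp (VB a k q) := ⟨_, rfl⟩
  have hEs : ContDiffOn ℝ ∞ E (Str 1) := by
    rw [hE]
    exact contDiffOn_const.mul hVs.exp
  have hE0 : ∀ q ∈ Str 1, 0 < E q ∧ E q ≤ mu1 a * Real.exp (pB a k) := by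
    intro q _
    rw [hE]
    exact ⟨mul_pos hmu (Real.exp_pos _),
      mul_le_mul_of_nonneg_left (Real.exp_le_exp.2 (vb_le h q).2) hmu.le⟩
  have hw' : Weak ζ (fun q => E q * ζ q + 0) (Str 1) := by
    rw [hE]
    simpa using hw
  obtain ⟨hζs, hζe⟩ := reg_lin hS1 hc.continuousOn hEs contDiffOn_const hw'
  have hζ2 : ContDiffOn ℝ 2 ζ (Str 1) := contDiffOn_infty.1 hζs 2
  have hsup : Super (Str 1) E := by
    constructor
    · refine ⟨fun q => (-1) * dx (VB a k) q, ?_, fun q hq hx => ⟨?_, ?_⟩⟩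
      · exact (contDiffOn_const.mul (contDiffOn_infty.1 (smooth_dx hS1 hVs) 2)).mono
          inter_subset_left
      · have := vb_dx_neg h q hq hx
        linarith
      · have h2 : ContDiffOn ℝ 2 (dx (VB a k)) (Str 1) :=
          contDiffOn_infty.1 (smooth_dx hS1 hVs) 2
        have e1 : dx (lap (VB a k)) q = -(E q * dx (VB a k) q) := by
          have e2 : ∀ z ∈ Str 1, lap (VB a k) z = (fun z => (-mu1 a) * Real.exp (VB a k z)) z := by
            intro z hz
            have := vb_eq h z hz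
            simp only
            linarith
          have hd : DifferentiableAt ℝ (VB a k) q :=
            (hVs.contDiffAt (hS1.mem_nhds hq)).differentiableAt (by simp)
          rw [dx_congr hS1 e2 hq, dx_const_mul _ hd.exp,
            dx_comp (F := Real.exp) hd Real.differentiableAt_exp, Real.deriv_exp, hE]
          ring
        rw [lap_const_mul hS1 _ h2 hq, lap_dx hS1 hVs3 hq, e1]
        exact le_of_eq (by ring)
    · refine ⟨fun q => (-1) * dy (VB a k) q, ?_, fun q hq hx => ⟨?_, ?_⟩⟩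
      · exact (contDiffOn_const.mul (contDiffOn_infty.1 (smooth_dy hS1 hVs) 2)).mono
          inter_subset_left
      · have := vb_dy_neg h q hq hx
        linarith
      · have h2 : ContDiffOn ℝ 2 (dy (VB a k)) (Str 1) :=
          contDiffOn_infty.1 (smooth_dy hS1 hVs) 2
        have e1 : dy (lap (VB a k)) q = -(E q * dy (VB a k) q) := by
          have e2 : ∀ z ∈ Str 1, lap (VB a k) z = (fun z => (-mu1 a) * Real.exp (VB a k z)) z := by
            intro z hz
            have := vb_eq h z hz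
            simp only
            linarith
          have hd : DifferentiableAt ℝ (VB a k) q :=
            (hVs.contDiffAt (hS1.mem_nhds hq)).differentiableAt (by simp)
          rw [dy_congr hS1 e2 hq, dy_const_mul _ hd.exp,
            dy_comp (F := Real.exp) hd Real.differentiableAt_exp, Real.deriv_exp, hE]
          ring
        rw [lap_const_mul hS1 _ h2 hq, lap_dy hS1 hVs3 hq, e1]
        exact le_of_eq (by ring)
  by_cases hz : ζ (0, 0) = 0
  · have h1 := hk_linear (solid_str one_pos) (L := 1) (fun q hq => hq) hEs.continuousOn hE0 hζ2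
      evx evy hz (fun q hq => by rw [hζe q hq, add_zero]) (fun q _ => hM q)
      (fun ε hε => by
        have e : {q | q ∈ Str 1 ∧ ζ q ≤ -ε} = {q | ζ q ≤ -ε} := by
          ext q
          refine ⟨fun hq => hq.2, fun hq => ⟨?_, hq⟩⟩
          by_contra hcon
          have hq' : ζ q ≤ -ε := hq
          rw [h0 q hcon] at hq'
          linarith
        rw [e]
        exact isClosed_le hc continuous_const) hsup
    intro q
    by_cases hq : q ∈ Str 1
    · exact h1 q hq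
    · exact h0 q hq
  · exfalso
    obtain ⟨η, C, hηc, hη0, hηs, hηx, hηy, hηC, hηe⟩ := bump_eta h
    have hη2 : ContDiffOn ℝ 2 η (Str 1) := contDiffOn_infty.1 hηs 2
    obtain ⟨m, hm⟩ : ∃ m : ℝ, m = deriv mu1 a / mu1 a := ⟨_, rfl⟩
    have hm0 : 0 < m := by
      rw [hm]
      exact div_pos (mu1_deriv_pos ha h.a_lt) hmu
    have hmm : m * mu1 a = deriv mu1 a := by
      rw [hm, div_mul_cancel₀ _ hmu.ne']
    obtain ⟨c, hcdef⟩ : ∃ c : ℝ, c = (η (0, 0) + m) / ζ (0, 0) := ⟨_, rfl⟩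
    have hcz : c * ζ (0, 0) = η (0, 0) + m := by
      rw [hcdef, div_mul_cancel₀ _ hz]
    have hmc : ContDiffOn ℝ 2 (fun _ : ℝ × ℝ => m) (Str 1) := contDiffOn_const
    have hlm : ∀ q : ℝ × ℝ, lap (fun _ : ℝ × ℝ => m) q = 0 := by
      intro q
      have h2 : dx (fun _ : ℝ × ℝ => m) = fun _ => 0 := by
        funext z; show fderiv ℝ (fun _ : ℝ × ℝ => m) z (1, 0) = 0; simp
      have h3 : dy (fun _ : ℝ × ℝ => m) = fun _ => 0 := by
        funext z; show fderiv ℝ (fun _ : ℝ × ℝ => m) z (0, 1) = 0; simp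
      unfold lap
      rw [h2, h3]
      show fderiv ℝ (fun _ : ℝ × ℝ => (0 : ℝ)) q (1, 0)
        + fderiv ℝ (fun _ : ℝ × ℝ => (0 : ℝ)) q (0, 1) = 0
      simp
    have hyc : Continuous (fun q => (η q + m) - c * ζ q) :=
      (hηc.add continuous_const).sub (continuous_const.mul hc)
    have hy2 : ContDiffOn ℝ 2 (fun q => (η q + m) - c * ζ q) (Str 1) :=
      (hη2.add hmc).sub (contDiffOn_const.mul hζ2)
    have h1 := hk_linear (solid_str one_pos) (L := 1) (fun q hq => hq) hEs.continuousOn hE0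
      (ζ := fun q => (η q + m) - c * ζ q) (M := C + |m| + |c| * M) hy2
      (fun x y => by simp only [hηx x y, evx x y]) (fun x y => by simp only [hηy x y, evy x y])
      (by simp only [hcz, sub_self])
      (fun q hq => by
        have e1 := hηe q hq
        have e2 := hζe q hq
        rw [lap_sub hS1 (hη2.add hmc) (contDiffOn_const.mul hζ2) hq, lap_add hS1 hη2 hmc hq,
          lap_const_mul hS1 c hζ2 hq, hlm q]
        have e3 : E q = mu1 a * Real.exp (VB a k q) := by rw [hE]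
        rw [← hmm] at e1
        rw [e3] at e2 ⊢
        linear_combination e1 - c * e2)
      (fun q _ => by
        calc |(η q + m) - c * ζ q| ≤ |η q + m| + |c * ζ q| := abs_sub _ _
          _ ≤ (|η q| + |m|) + |c| * |ζ q| := by
              rw [abs_mul]
              gcongr
              exact abs_add_le _ _
          _ ≤ C + |m| + |c| * M := by
              gcongr
              · exact hηC q
              · exact hM q)
      (fun ε hε => by
        have e : {q | q ∈ Str 1 ∧ (η q + m) - c * ζ q ≤ -ε}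
            = {q | (η q + m) - c * ζ q ≤ -ε} := by
          ext q
          refine ⟨fun hq => hq.2, fun hq => ⟨?_, hq⟩⟩
          by_contra hcon
          have hq' : (η q + m) - c * ζ q ≤ -ε := hq
          rw [h0 q hcon, hη0 q hcon] at hq'
          linarith
        rw [e]
        exact isClosed_le hyc continuous_const) hsup
    have hcl : ((0 : ℝ), (1 : ℝ)) ∈ closure (Str 1) := by
      rw [Metric.mem_closure_iff]
      intro ε hε
      have hm : 0 < min (ε / 2) 1 := lt_min (by positivity) one_pos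
      have hm1 : min (ε / 2) 1 ≤ 1 := min_le_right _ _
      have hm2 : min (ε / 2) 1 ≤ ε / 2 := min_le_left _ _
      refine ⟨(0, 1 - min (ε / 2) 1), ?_, ?_⟩
      · show |1 - min (ε / 2) 1| < 1
        rw [abs_of_nonneg (by linarith)]
        linarith
      · rw [Prod.dist_eq, dist_self, Real.dist_eq, sub_sub_cancel, abs_of_pos hm]
        exact max_lt hε (by linarith)
    have h6 : ((0 : ℝ), (1 : ℝ)) ∈ closure {z : ℝ × ℝ | (η z + m) - c * ζ z = 0} :=
      closure_mono h1 hcl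
    rw [(isClosed_eq hyc continuous_const).closure_eq] at h6
    have h7 : (η (0, 1) + m) - c * ζ (0, 1) = 0 := h6
    have h8 : ((0 : ℝ), (1 : ℝ)) ∉ Str 1 := by
      intro h
      have : |(1 : ℝ)| < 1 := h
      simp at this
    rw [h0 _ h8, hη0 _ h8] at h7
    linarith

end Pool.Agent.MFE
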