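import Pool.Agent.MFE.CONV
import Pool.Agent.MFE.STN

/-!
# MFE.REGB: no critical points for amplitudes in a compact part of `(pst, ∞)`

`v n (0,0) → p > pst`; bump `(a,k)` with `pB a k = p` (`bump_exists`), `conv_high`. Normalise by
`cd_norm`: `|φ n| ≤ 1`, `|φ n| = 1` somewhere, `t n ≥ 0`. `E n = μ n e^{v n}`.
(1) Let `b = (a+ast)/2` (`Bump.a_lt`), `g q = e1 b q.2 ≥ g₀ > 0` for `|y| ≤ 1`. By `vb_far` and
`pot1_mono` there are `R, δ > 0` with `mu1 a e^{VB a k (R,y)} ≤ pot1 b y - 2δ` for `|y| ≤ 1`; so for large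
`n` and `|x| ≥ R`, `q ∈ Ell`: `E n ≤ μ n e^{v n (R,y)} ≤ pot1 b y - δ` (`anti_x`, `LocU`). Let
`κ = √δ/2`, `bar q = (1/g₀) e^{-κ(q.1 - R)} g q`: `-lap bar - E n bar ≥ (δ - κ²) bar > 0` for `x > R`.
(2) Upper barrier: on `Ell ∩ {x > R}` (`wmp_bdd_pot` with potential `E n`, strict supersolution
`g`): `φ n ≤ bar` (`-lap φ - Eφ = -E t ≤ 0`; on the boundary `φ ≤ 1 ≤ bar` for `x = R`, `φ = 0` on the
ellipse). Same for `x < -R` by evenness.
(3) `t n ∫ E n = ∫ E n φ n ≤ ∫ E n (φ n)⁺ ≤ C`, `C` independent of `n`, while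
`∫ E n ≥ μ n π/α n` (`area_ell`), `μ n ≥ μ₀ > 0`: `t n ≤ C' α n → 0`.
(4) Lower bound: `-φ n ≤ bar + C'' t n g` on `Ell ∩ {x > R}`: `(-lap - E)(C'' t g) ≥ C'' t δ g₀ ≥ E t` if
`C'' ≥ sup E/(δ g₀)`. So `|φ n q| ≤ C e^{-κ(|x|-R)} + C'' t n` for `|x| ≥ R`; for large `n` the maximum
of `|φ n|` is attained at a point with `|x| ≤ R'`.
(5) `cmp_dir` for `φ n` (`g n = E n (φ n - t n)`): a subsequence converges locally uniformly to `ζ`,
continuous, bounded, zero outside `Str 1`, even, `|ζ| = 1` somewhere in `|x| ≤ R'`; `cmp_eq`: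
`-lap ζ = mu1 a e^{VB} ζ` weakly. `nd_bump`: `ζ = 0`. Contradiction.
-/

open scoped ContDiff
open Filter Topology

namespace Pool.Agent.MFE

private theorem rgb_intExp {κ : ℝ} (hκ : 0 < κ) :
    MeasureTheory.Integrable (fun x : ℝ => Real.exp (-κ * |x|)) := by
  have h1 : MeasureTheory.IntegrableOn (fun x : ℝ => Real.exp (-κ * |x|)) (Set.Iic 0) := by
    refine (integrableOn_exp_mul_Iic hκ 0).congr_fun (fun x hx => ?_) measurableSet_Iic
    have hx' : x ≤ 0 := hx
    simp only [abs_of_nonpos hx']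
    congr 1
    ring
  have h2 : MeasureTheory.IntegrableOn (fun x : ℝ => Real.exp (-κ * |x|)) (Set.Ioi 0) := by
    refine (exp_neg_integrableOn_Ioi 0 hκ).congr_fun (fun x hx => ?_) measurableSet_Ioi
    have hx' : 0 < x := hx
    simp only [abs_of_pos hx']
  have h3 := h1.union h2
  rwa [Set.Iic_union_Ioi, MeasureTheory.integrableOn_univ] at h3

private theorem rgb_intStr {κ : ℝ} (hκ : 0 < κ) :
    MeasureTheory.IntegrableOn (fun q : ℝ × ℝ => Real.exp (-κ * |q.1|)) (Str 1) := by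
  have hS : Str 1 = Set.univ ×ˢ Set.Ioo (-1 : ℝ) 1 := by
    ext q
    simp [Str, abs_lt]
  have h1 : MeasureTheory.Integrable (fun _ : ℝ => (1 : ℝ))
      (MeasureTheory.volume.restrict (Set.Ioo (-1 : ℝ) 1)) := by
    rw [← MeasureTheory.IntegrableOn]
    exact MeasureTheory.integrableOn_const (by simp)
  have h2 := (rgb_intExp hκ).mul_prod h1
  rw [hS, MeasureTheory.IntegrableOn, MeasureTheory.Measure.volume_eq_prod,
    ← MeasureTheory.Measure.prod_restrict, MeasureTheory.Measure.restrict_univ]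
  simpa using h2

private theorem rgb_F (A κ R K x : ℝ) :
    deriv (deriv (fun x : ℝ => A * Real.exp (-κ * (x - R)) + K)) x
      = κ ^ 2 * (A * Real.exp (-κ * (x - R))) := by
  have h1 : ∀ (B K' x : ℝ), HasDerivAt (fun x : ℝ => B * Real.exp (-κ * (x - R)) + K')
      ((-κ * B) * Real.exp (-κ * (x - R))) x := by
    intro B K' x
    have h2 : HasDerivAt (fun x : ℝ => -κ * (x - R)) (-κ * 1) x :=
      ((hasDerivAt_id x).sub_const R).const_mul (-κ)
    have h3 : HasDerivAt (fun x : ℝ => B * Real.exp (-κ * (x - R)) + K')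
        (B * (Real.exp (-κ * (x - R)) * (-κ * 1))) x := (h2.exp.const_mul B).add_const K'
    have h4 : (-κ * B) * Real.exp (-κ * (x - R)) = B * (Real.exp (-κ * (x - R)) * (-κ * 1)) := by
      ring
    rw [h4]
    exact h3
  have h4 : deriv (fun x : ℝ => A * Real.exp (-κ * (x - R)) + K)
      = fun x => (-κ * A) * Real.exp (-κ * (x - R)) + 0 := by
    funext x
    rw [(h1 A K x).deriv, add_zero]
  rw [h4, (h1 (-κ * A) 0 x).deriv]
  ring

private theorem rgb_ell_sub (α : ℝ) : Ell α ⊆ CEll α := fun q hq => by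
  have h : α ^ 2 * q.1 ^ 2 + q.2 ^ 2 < 1 := hq
  exact h.le

private theorem rgb_cell_y {α : ℝ} {q : ℝ × ℝ} (hq : q ∈ CEll α) : |q.2| ≤ 1 := by
  have h : α ^ 2 * q.1 ^ 2 + q.2 ^ 2 ≤ 1 := hq
  have h2 : 0 ≤ α ^ 2 * q.1 ^ 2 := by positivity
  exact abs_le_one_iff_mul_self_le_one.2 (by nlinarith)

private theorem rgb_ell_y {α : ℝ} {q : ℝ × ℝ} (hq : q ∈ Ell α) : |q.2| < 1 := by
  have h : α ^ 2 * q.1 ^ 2 + q.2 ^ 2 < 1 := hq
  have h2 : 0 ≤ α ^ 2 * q.1 ^ 2 := by positivity
  have h3 : q.2 ^ 2 < 1 := by linarith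
  exact (sq_lt_one_iff_abs_lt_one q.2).1 h3

private theorem rgb_cell_closed (α : ℝ) : IsClosed (CEll α) := by
  unfold CEll
  exact isClosed_le (by fun_prop) continuous_const

private theorem rgb_bar {α μ δ b R τ : ℝ} {v u : ℝ × ℝ → ℝ} (hα : 0 < α)
    (hb : 0 < b) (hb' : b < ast) (hδ : 0 < δ) (hτ : 0 ≤ τ)
    (hu : ContDiffOn ℝ 2 u (Ell α)) (hcu : Continuous u) (hu1 : ∀ q, u q ≤ 1)
    (hu0 : ∀ q, q ∉ Ell α → u q = 0)
    (hpot : ∀ q ∈ Ell α, R < q.1 → μ * Real.exp (v q) ≤ pot1 b q.2 - δ)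
    (hle : ∀ q ∈ Ell α, -lap u q - μ * Real.exp (v q) * u q ≤ μ * Real.exp (v q) * τ) :
    ∀ q : ℝ × ℝ, R ≤ q.1 → u q ≤ 1 / e1 b 1 * Real.exp (-(√δ / 2) * (q.1 - R))
      + 2 * b ^ 2 / (δ * e1 b 1) * τ := by
  set g₀ := e1 b 1 with hg₀
  have g₀pos : 0 < g₀ := e1_pos hb hb' (by simp)
  have g₀le : g₀ ≤ 1 := e1_le_one
  set κ := √δ / 2 with hκ
  have hκ2 : κ ^ 2 = δ / 4 := by
    rw [hκ, div_pow, Real.sq_sqrt hδ.le]
    norm_num
  set K := 2 * b ^ 2 / (δ * g₀) * τ with hK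
  have hK0 : 0 ≤ K := by positivity
  have hKe : K * δ * g₀ = 2 * b ^ 2 * τ := by
    rw [hK]
    field_simp
  have hinv : 1 ≤ 1 / g₀ := by
    rw [le_div_iff₀ g₀pos]
    linarith
  set F : ℝ → ℝ := fun x => 1 / g₀ * Real.exp (-κ * (x - R)) + K with hF
  have hFs : ContDiff ℝ 2 F := by
    rw [hF]
    fun_prop
  have hGs : ContDiff ℝ 2 (e1 b) := contDiff_infty.1 (e1_smooth b) 2
  have hFpos : ∀ x, 0 < F x := fun x => by
    have : 0 < 1 / g₀ * Real.exp (-κ * (x - R)) := by positivity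
    simp only [hF]
    linarith
  -- the domain
  set D : Set (ℝ × ℝ) := Ell α ∩ {q | R < q.1} with hD
  have hDo : IsOpen D := (isOpen_ell α).inter (isOpen_lt continuous_const continuous_fst)
  have hDb : Bornology.IsBounded D :=
    (isCompact_cell hα).isBounded.subset (Set.inter_subset_left.trans (rgb_ell_sub α))
  have hcl : ∀ q ∈ closure D, q ∈ CEll α ∧ R ≤ q.1 := by
    have hcc : IsClosed (CEll α ∩ {q : ℝ × ℝ | R ≤ q.1}) :=
      (rgb_cell_closed α).inter (isClosed_le continuous_const continuous_fst)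
    have hsub : D ⊆ CEll α ∩ {q : ℝ × ℝ | R ≤ q.1} := fun q hq =>
      ⟨rgb_ell_sub α hq.1, le_of_lt (show R < q.1 from hq.2)⟩
    exact fun q hq => closure_minimal hsub hcc hq
  have hGpos : ∀ y : ℝ, |y| ≤ 1 → g₀ ≤ e1 b y := fun y hy => by
    rw [hg₀]
    exact e1_anti (by simpa using hy)
  have hpotle : ∀ y : ℝ, pot1 b y ≤ 2 * b ^ 2 := fun y => by
    unfold pot1
    have h1 : 1 ≤ Real.cosh (b * y) := Real.one_le_cosh _
    have h2 : 1 ≤ Real.cosh (b * y) ^ 2 := one_le_pow₀ h1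
    exact div_le_self (by positivity) h2
  have hlapG : ∀ q : ℝ × ℝ, lap (fun z : ℝ × ℝ => e1 b z.2) q = -(pot1 b q.2 * e1 b q.2) :=
    fun q => by rw [lap_snd (e1 b) hGs, e1_deriv2]
  have hlapB : ∀ q : ℝ × ℝ, lap (fun z : ℝ × ℝ => F z.1 * e1 b z.2) q
      = κ ^ 2 * (1 / g₀ * Real.exp (-κ * (q.1 - R))) * e1 b q.2
        - F q.1 * (pot1 b q.2 * e1 b q.2) := fun q => by
    rw [lap_prod F (e1 b) hFs hGs, e1_deriv2, hF, rgb_F]
    ring
  have key := wmp_bdd_pot hDo hDb (u := u) (b := fun z => F z.1 * e1 b z.2)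
    (g := fun z => e1 b z.2) (c := fun q => μ * Real.exp (v q))
    (hu.mono Set.inter_subset_left)
    (((hFs.comp contDiff_fst).mul (hGs.comp contDiff_snd)).contDiffOn)
    ((hGs.comp contDiff_snd).contDiffOn) hcu.continuousOn
    (((hFs.comp contDiff_fst).mul (hGs.comp contDiff_snd)).continuous.continuousOn)
    ((hGs.comp contDiff_snd).continuous.continuousOn)
    (fun q hq => lt_of_lt_of_le g₀pos (hGpos q.2 (rgb_cell_y (hcl q hq).1)))
    (fun q hq => by
      rw [hlapG q, neg_neg]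
      have h1 := hpot q hq.1 hq.2
      have h2 : 0 < e1 b q.2 := lt_of_lt_of_le g₀pos (hGpos q.2 (rgb_ell_y hq.1).le)
      exact mul_lt_mul_of_pos_right (by linarith) h2)
    (fun q hq _ => by
      have h1 := hpot q hq.1 hq.2
      have h3 := hGpos q.2 (rgb_ell_y hq.1).le
      have h2 : 0 < e1 b q.2 := lt_of_lt_of_le g₀pos h3
      have h4 := hle q hq.1
      have h5 := hpotle q.2
      refine h4.trans ?_
      rw [hlapB q]
      set X := 1 / g₀ * Real.exp (-κ * (q.1 - R)) with hX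
      have hXpos : 0 < X := by positivity
      have hFX : F q.1 = X + K := rfl
      rw [hFX, hκ2]
      have h6 : μ * Real.exp (v q) * τ ≤ K * δ * g₀ := by
        rw [hKe]
        exact mul_le_mul_of_nonneg_right (by linarith) hτ
      have h7 : K * δ * g₀ ≤ K * δ * e1 b q.2 :=
        mul_le_mul_of_nonneg_left h3 (by positivity)
      have h8 : 0 ≤ (X + K) * (pot1 b q.2 - δ - μ * Real.exp (v q)) * e1 b q.2 := by
        have : 0 ≤ pot1 b q.2 - δ - μ * Real.exp (v q) := by linarith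
        positivity
      have h9 : 0 ≤ X * δ * e1 b q.2 := by positivity
      nlinarith)
    (fun q hq => by
      have hq' : q ∈ closure D := frontier_subset_closure hq
      obtain ⟨h1, h2⟩ := hcl q hq'
      have hnot : q ∉ D := by
        rw [hDo.frontier_eq] at hq
        exact hq.2
      have h3 := hGpos q.2 (rgb_cell_y h1)
      have hB0 : 0 ≤ F q.1 * e1 b q.2 := mul_nonneg (hFpos _).le (g₀pos.le.trans h3)
      by_cases hqe : q ∈ Ell α
      · have hR : q.1 = R := by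
          rcases h2.eq_or_lt with h | h
          · exact h.symm
          · exact absurd ⟨hqe, h⟩ hnot
        have h5 : F q.1 = 1 / g₀ + K := by
          simp only [hF, hR, sub_self, mul_zero, Real.exp_zero, mul_one]
        rw [h5]
        have h6 : 1 ≤ 1 / g₀ * e1 b q.2 := by
          rw [one_div, ← div_eq_inv_mul, le_div_iff₀ g₀pos, one_mul]
          exact h3
        have h7 : 0 ≤ K * e1 b q.2 := mul_nonneg hK0 (g₀pos.le.trans h3)
        have h8 := hu1 q
        nlinarith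
      · rw [hu0 q hqe]
        exact hB0)
  intro q hq
  have hrhs : 0 < 1 / g₀ * Real.exp (-κ * (q.1 - R)) := by positivity
  by_cases hqe : q ∈ Ell α
  · rcases hq.eq_or_lt with h | h
    · rw [← h, sub_self, mul_zero, Real.exp_zero, mul_one]
      have := hu1 q
      linarith
    · have h1 := key q (subset_closure ⟨hqe, h⟩)
      have h2 : e1 b q.2 ≤ 1 := e1_le_one
      have h3 : F q.1 * e1 b q.2 ≤ F q.1 := by
        have := hFpos q.1
        nlinarith
      exact h1.trans h3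
  · rw [hu0 q hqe]
    linarith

private theorem rgb_est {b R δ M : ℝ} (hb : 0 < b) (hb' : b < ast) (hδ : 0 < δ) :
    ∃ A κ C K : ℝ, 0 < κ ∧ 0 ≤ A ∧ 0 ≤ C ∧ 0 ≤ K ∧
      ∀ (α μ t : ℝ) (v φ : ℝ × ℝ → ℝ), 0 < α → CD α μ t v φ → (∀ q, |φ q| ≤ 1) → 0 ≤ t →
        v (0, 0) ≤ M →
        (∀ q ∈ Ell α, R < |q.1| → μ * Real.exp (v q) ≤ pot1 b q.2 - δ) →
        t ≤ C * α ∧ ∀ q : ℝ × ℝ, |φ q| ≤ A * Real.exp (-κ * |q.1|) + K * t := by
  have g₀pos : 0 < e1 b 1 := e1_pos hb hb' (by simp)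
  have g₀le : e1 b 1 ≤ 1 := e1_le_one
  have hκ : 0 < √δ / 2 := by positivity
  set κ := √δ / 2 with hκd
  set A := 1 / e1 b 1 * Real.exp (κ * R) with hA
  set K := 2 * b ^ 2 / (δ * e1 b 1) with hK
  set C₁ := ∫ q in Str 1, Real.exp (-κ * |q.1|) with hC₁
  have hApos : 0 < A := by positivity
  have hC₁0 : 0 ≤ C₁ :=
    MeasureTheory.integral_nonneg fun q => (Real.exp_pos _).le
  have hexpA : ∀ x : ℝ, 1 / e1 b 1 * Real.exp (-κ * (x - R)) = A * Real.exp (-κ * x) := fun x => by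
    rw [hA, mul_assoc, ← Real.exp_add]
    congr 2
    ring
  have hinv : 1 ≤ 1 / e1 b 1 := by
    rw [le_div_iff₀ g₀pos]
    linarith
  refine ⟨A, κ, Real.exp M * A * C₁ / Real.pi, K, hκ, hApos.le, by positivity, by positivity, ?_⟩
  intro α μ t v φ hα h hφ1 ht hvM hpot
  have hsol := h.sol
  have hs2 : ContDiffOn ℝ 2 φ (Ell α) := contDiffOn_infty.1 h.smooth 2
  -- symmetric extension of one sided bounds
  have hext : ∀ (u : ℝ × ℝ → ℝ) (τ : ℝ), 0 ≤ τ → EvX u → (∀ q, u q ≤ 1) →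
      (∀ q : ℝ × ℝ, R ≤ q.1 → u q ≤ 1 / e1 b 1 * Real.exp (-κ * (q.1 - R)) + K * τ) →
      ∀ q : ℝ × ℝ, u q ≤ A * Real.exp (-κ * |q.1|) + K * τ := by
    intro u τ hτ hev hu1 hu q
    have hKτ : 0 ≤ K * τ := by positivity
    rcases le_or_gt R |q.1| with hq | hq
    · have h1 := hu (|q.1|, q.2) hq
      simp only at h1
      rw [hexpA] at h1
      have h2 : u (|q.1|, q.2) = u q := by
        rcases abs_choice q.1 with h3 | h3
        · rw [h3]
        · rw [h3, hev q.1 q.2]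
      rwa [h2] at h1
    · have h1 : 1 ≤ A * Real.exp (-κ * |q.1|) := by
        rw [← hexpA]
        have h2 : 1 ≤ Real.exp (-κ * (|q.1| - R)) := by
          apply Real.one_le_exp
          nlinarith
        nlinarith
      have := hu1 q
      linarith
  have hpot' : ∀ q ∈ Ell α, R < q.1 → μ * Real.exp (v q) ≤ pot1 b q.2 - δ :=
    fun q hq hq1 => hpot q hq (lt_of_lt_of_le hq1 (le_abs_self _))
  have hup : ∀ q : ℝ × ℝ, φ q ≤ A * Real.exp (-κ * |q.1|) + K * 0 := by
    refine hext φ 0 le_rfl h.evx (fun q => (le_abs_self _).trans (hφ1 q)) ?_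
    refine rgb_bar hα hb hb' hδ le_rfl hs2 h.cont (fun q => (le_abs_self _).trans (hφ1 q))
      h.zero hpot' ?_
    intro q hq
    have h1 := h.eq q hq
    have h2 : 0 ≤ μ * Real.exp (v q) * t := by
      have := hsol.mu_pos
      positivity
    rw [h1]
    linarith
  have hlow : ∀ q : ℝ × ℝ, -1 * φ q ≤ A * Real.exp (-κ * |q.1|) + K * t := by
    have hev : EvX (fun q => -1 * φ q) := fun x y => by
      simp only
      rw [h.evx x y]
    have h1' : ∀ q, -1 * φ q ≤ 1 := fun q => by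
      have := hφ1 q
      have := neg_abs_le (φ q)
      linarith
    refine hext (fun q => -1 * φ q) t ht hev h1' ?_
    refine rgb_bar hα hb hb' hδ ht (u := fun q => -1 * φ q) (contDiffOn_const.mul hs2)
      (continuous_const.mul h.cont) h1' (fun q hq => by rw [h.zero q hq, mul_zero])
      hpot' ?_
    intro q hq
    have h1 := h.eq q hq
    rw [lap_const_mul (isOpen_ell α) (-1) hs2 hq]
    linarith
  have habs : ∀ q : ℝ × ℝ, |φ q| ≤ A * Real.exp (-κ * |q.1|) + K * t := fun q => by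
    rw [abs_le]
    have h1 := hup q
    have h2 := hlow q
    have h3 : 0 ≤ K * t := by positivity
    constructor <;> linarith
  refine ⟨?_, habs⟩
  -- the mean value identity
  have hint : ∀ f : ℝ × ℝ → ℝ, Continuous f → MeasureTheory.IntegrableOn f (Ell α) := fun f hf =>
    (hf.continuousOn.integrableOn_compact (isCompact_cell hα)).mono_set (rgb_ell_sub α)
  have hve : Continuous fun q => Real.exp (v q) := Real.continuous_exp.comp hsol.cont
  have hmean := h.mean
  have hsplit : (∫ q in Ell α, Real.exp (v q) * φ q) = t * ∫ q in Ell α, Real.exp (v q) := by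
    have h1 : (∫ q in Ell α, Real.exp (v q) * (φ q - t))
        = (∫ q in Ell α, Real.exp (v q) * φ q) - ∫ q in Ell α, t * Real.exp (v q) := by
      have i1 : MeasureTheory.Integrable (fun q => Real.exp (v q) * φ q)
          (MeasureTheory.volume.restrict (Ell α)) := hint _ (hve.mul h.cont)
      have i2 : MeasureTheory.Integrable (fun q => t * Real.exp (v q))
          (MeasureTheory.volume.restrict (Ell α)) := hint _ (continuous_const.mul hve)
      rw [← MeasureTheory.integral_sub i1 i2]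
      congr 1
      funext q
      ring
    rw [h1, MeasureTheory.integral_const_mul] at hmean
    linarith
  have hlarge : Real.pi / α ≤ ∫ q in Ell α, Real.exp (v q) := by
    have h1 : (∫ _ in Ell α, (1 : ℝ)) = Real.pi / α := by
      rw [MeasureTheory.setIntegral_const, MeasureTheory.Measure.real, area_ell hα,
        ENNReal.toReal_ofReal (by positivity)]
      simp
    rw [← h1]
    refine MeasureTheory.setIntegral_mono_on (hint _ continuous_const) (hint _ hve)
      (isOpen_ell α).measurableSet fun q _ => ?_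
    exact Real.one_le_exp (hsol.nonneg hα q)
  have hsmall : (∫ q in Ell α, Real.exp (v q) * φ q) ≤ Real.exp M * A * C₁ := by
    have h1 : (∫ q in Ell α, Real.exp (v q) * φ q)
        ≤ ∫ q in Ell α, Real.exp M * A * Real.exp (-κ * |q.1|) := by
      refine MeasureTheory.setIntegral_mono_on (hint _ (hve.mul h.cont)) (hint _ (by fun_prop))
        (isOpen_ell α).measurableSet fun q _ => ?_
      have h2 := hup q
      rw [mul_zero, add_zero] at h2
      have h3 : Real.exp (v q) ≤ Real.exp M := Real.exp_le_exp.2 ((hsol.le_max hα q).trans hvM)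
      have h4 : 0 ≤ A * Real.exp (-κ * |q.1|) := by positivity
      calc Real.exp (v q) * φ q ≤ Real.exp (v q) * (A * Real.exp (-κ * |q.1|)) :=
            mul_le_mul_of_nonneg_left h2 (Real.exp_pos _).le
        _ ≤ Real.exp M * (A * Real.exp (-κ * |q.1|)) := mul_le_mul_of_nonneg_right h3 h4
        _ = Real.exp M * A * Real.exp (-κ * |q.1|) := by ring
    refine h1.trans ?_
    rw [MeasureTheory.integral_const_mul]
    refine mul_le_mul_of_nonneg_left ?_ (by positivity)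
    refine MeasureTheory.setIntegral_mono_set (rgb_intStr hκ)
      (Filter.Eventually.of_forall fun q => (Real.exp_pos _).le) ?_
    refine Filter.Eventually.of_forall fun q hq => ?_
    have h5 : |q.2| < 1 := rgb_ell_y hq
    exact h5
  rw [hsplit] at hsmall
  have h6 : t * (Real.pi / α) ≤ Real.exp M * A * C₁ :=
    (mul_le_mul_of_nonneg_left hlarge ht).trans hsmall
  have h7 : t * (Real.pi / α) = t * Real.pi / α := by ring
  rw [h7, div_le_iff₀ hα] at h6
  rw [div_mul_eq_mul_div, le_div_iff₀ Real.pi_pos]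
  exact h6

private theorem rgb_bdd {x : ℕ → ℝ} {l : ℝ} (h : Tendsto x atTop (𝓝 l)) :
    ∃ M : ℝ, 0 ≤ M ∧ ∀ n, |x n| ≤ M := by
  obtain ⟨M, hM⟩ := (Metric.isBounded_range_of_tendsto x h).exists_norm_le
  exact ⟨max M 0, le_max_right _ _, fun n => (hM _ (Set.mem_range_self n)).trans (le_max_left _ _)⟩

private theorem rgb_locU_comp {f : ℕ → ℝ × ℝ → ℝ} {U : ℝ × ℝ → ℝ} (h : LocU f U) {ψ : ℕ → ℕ}
    (hψ : Tendsto ψ atTop atTop) : LocU (fun n => f (ψ n)) U :=
  fun R u hu => hψ.eventually (h R u hu)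

private theorem rgb_locE {μ : ℕ → ℝ} {v : ℕ → ℝ × ℝ → ℝ} {μ₀ M : ℝ} {U : ℝ × ℝ → ℝ}
    (hμ : Tendsto μ atTop (𝓝 μ₀)) (h : LocU v U) (hM : ∀ n q, |v n q| ≤ M)
    (hU : ∀ q, |U q| ≤ M) :
    LocU (fun n q => μ n * Real.exp (v n q)) (fun q => μ₀ * Real.exp (U q)) := by
  obtain ⟨M₁, hM₁, hμM⟩ := rgb_bdd hμ
  have h1 : LocU (fun n _ => μ n) (fun _ => μ₀) := fun R => hμ.tendstoUniformlyOn_const _
  have h2 := locU_exp h hM hU
  refine locU_mul (M := max M₁ (Real.exp M)) h1 h2 (fun n q => (hμM n).trans (le_max_left _ _))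
    (fun q => ?_)
  rw [abs_of_pos (Real.exp_pos _)]
  exact (Real.exp_le_exp.2 ((le_abs_self _).trans (hU q))).trans (le_max_right _ _)

private theorem rgb_pot {a k : ℝ} (h : Bump a k) : ∃ b R δ : ℝ, 0 < b ∧ b < ast ∧ 0 < δ ∧
    0 ≤ R ∧ ∀ y : ℝ, |y| ≤ 1 → mu1 a * Real.exp (VB a k (R, y)) ≤ pot1 b y - 2 * δ := by
  have ha := h.a_pos
  have ha' := h.a_lt
  have hcont : ∀ c : ℝ, Continuous (pot1 c) := fun c => by
    unfold pot1
    refine continuous_const.div ((Real.continuous_cosh.comp (continuous_const.mul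
      continuous_id)).pow 2) fun y => ?_
    have := Real.cosh_pos (c * y)
    positivity
  set b := (a + ast) / 2 with hb
  have hab : a < b := by rw [hb]; linarith
  have hb' : b < ast := by rw [hb]; linarith
  obtain ⟨y₀, hy₀, hmin⟩ := (isCompact_Icc (a := (-1 : ℝ)) (b := 1)).exists_isMinOn
    ⟨0, by norm_num⟩ (f := fun y => pot1 b y - pot1 a y)
    (((hcont b).sub (hcont a)).continuousOn)
  set m := pot1 b y₀ - pot1 a y₀ with hm
  have hmpos : 0 < m := by
    have := pot1_mono ha hab hb'.le (abs_le.2 hy₀)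
    rw [hm]
    linarith
  obtain ⟨C, hC, hfar⟩ := vb_far h
  have hk := h.k_pos
  have hlim : Tendsto (fun R : ℝ => 2 * a ^ 2 * (Real.exp (C * Real.exp (-k * R)) - 1)) atTop
      (𝓝 (2 * a ^ 2 * (Real.exp (C * 0) - 1))) := by
    have h1 : Tendsto (fun R : ℝ => Real.exp (-k * R)) atTop (𝓝 0) := by
      have h2 : Tendsto (fun R : ℝ => -k * R) atTop atBot :=
        tendsto_id.const_mul_atTop_of_neg (by linarith)
      exact Real.tendsto_exp_atBot.comp h2
    exact (((Real.continuous_exp.tendsto _).comp (h1.const_mul C)).sub_const 1).const_mul _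
  rw [mul_zero, Real.exp_zero, sub_self, mul_zero] at hlim
  obtain ⟨R, hR1, hR0⟩ := ((hlim.eventually (gt_mem_nhds (show (0 : ℝ) < m / 3 by positivity))).and
    (eventually_ge_atTop 0)).exists
  refine ⟨b, R, m / 3, ha.trans hab, hb', by positivity, hR0, fun y hy => ?_⟩
  have h1 := (hfar (R, y) hy).2
  simp only at h1
  rw [abs_of_nonneg hR0] at h1
  have h2 : mu1 a * Real.exp (VB a k (R, y))
      ≤ mu1 a * (Real.exp (V1 a y) * Real.exp (C * Real.exp (-k * R))) := by
    rw [← Real.exp_add]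
    exact mul_le_mul_of_nonneg_left (Real.exp_le_exp.2 h1) (mu1_pos ha).le
  rw [← mul_assoc, pot1_eq] at h2
  have h3 : pot1 a y ≤ 2 * a ^ 2 := by
    unfold pot1
    have h1 : 1 ≤ Real.cosh (a * y) := Real.one_le_cosh _
    have h2 : 1 ≤ Real.cosh (a * y) ^ 2 := one_le_pow₀ h1
    exact div_le_self (by positivity) h2
  have h4 : 0 ≤ Real.exp (C * Real.exp (-k * R)) - 1 := by
    have := Real.one_le_exp (show 0 ≤ C * Real.exp (-k * R) by positivity)
    linarith
  have h5 : m ≤ pot1 b y - pot1 a y := hmin (abs_le.1 hy)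
  nlinarith

private theorem rgb_main {α μ t : ℕ → ℝ} {v φ : ℕ → ℝ × ℝ → ℝ} {a k b R δ p : ℝ}
    (hα : ∀ n, 0 < α n ∧ α n ≤ 1) (hα0 : Tendsto α atTop (𝓝 0))
    (h : ∀ n, CD (α n) (μ n) (t n) (v n) (φ n)) (hφ : ∀ n q, |φ n q| ≤ 1)
    (hφ1 : ∀ n, ∃ q, |φ n q| = 1) (ht : ∀ n, 0 ≤ t n) (hbu : Bump a k)
    (hp : Tendsto (fun n => v n (0, 0)) atTop (𝓝 p)) (hμ : Tendsto μ atTop (𝓝 (mu1 a)))
    (hv : LocU v (VB a k)) (hb : 0 < b) (hb' : b < ast) (hδ : 0 < δ)
    (hpot : ∀ n, ∀ q ∈ Ell (α n), R < |q.1| → μ n * Real.exp (v n q) ≤ pot1 b q.2 - δ) :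
    False := by
  obtain ⟨M₀, hM₀, hvM₀⟩ := rgb_bdd hp
  set M := max M₀ (pB a k) with hM
  have hvM : ∀ n, v n (0, 0) ≤ M := fun n =>
    (le_abs_self _).trans ((hvM₀ n).trans (le_max_left _ _))
  have hvabs : ∀ n q, |v n q| ≤ M := fun n q => (gsol_abs (hα n).1 (h n).sol q).trans (hvM n)
  have hVBabs : ∀ q, |VB a k q| ≤ M := fun q => by
    obtain ⟨h1, h2⟩ := vb_le hbu q
    rw [abs_of_nonneg h1]
    exact h2.trans (le_max_right _ _)
  obtain ⟨M₁, hM₁, hμM⟩ := rgb_bdd hμ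
  obtain ⟨A, κ, C, K, hκ, hA, hC, hK, hest⟩ := rgb_est (R := R) (M := M) hb hb' hδ
  have hestn := fun n => hest (α n) (μ n) (t n) (v n) (φ n) (hα n).1 (h n) (hφ n) (ht n) (hvM n)
    (hpot n)
  have htC : ∀ n, t n ≤ C := fun n => by
    have h1 := (hestn n).1
    have h2 := (hα n).2
    nlinarith
  have ht0 : Tendsto t atTop (𝓝 0) := by
    have h1 : Tendsto (fun n => C * α n) atTop (𝓝 (C * 0)) := hα0.const_mul C
    rw [mul_zero] at h1
    exact squeeze_zero ht (fun n => (hestn n).1) h1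
  have hgc : ∀ n, Continuous fun q => μ n * Real.exp (v n q) * (φ n q - t n) := fun n =>
    (continuous_const.mul (Real.continuous_exp.comp (h n).sol.cont)).mul
      ((h n).cont.sub continuous_const)
  -- compactness
  obtain ⟨ψ, U, hψ, hUc, hU1, hU0, -, hUl⟩ := cmp_dir (x := fun _ => 0)
    (f := φ) (g := fun n q => μ n * Real.exp (v n q) * (φ n q - t n)) (M := 1)
    (C := M₁ * Real.exp M * (1 + C)) hα (fun n => (hgc n).continuousOn)
    (fun n q _ => by
      rw [abs_mul, abs_mul, abs_of_pos (Real.exp_pos _)]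
      have h1 : |φ n q - t n| ≤ 1 + C := by
        have h2 := hφ n q
        rw [abs_le] at h2 ⊢
        have h3 := ht n
        have h4 := htC n
        constructor <;> linarith
      have h5 : Real.exp (v n q) ≤ Real.exp M :=
        Real.exp_le_exp.2 ((le_abs_self _).trans (hvabs n q))
      have h6 : |μ n| * Real.exp (v n q) ≤ M₁ * Real.exp M :=
        mul_le_mul (hμM n) h5 (Real.exp_pos _).le hM₁
      exact mul_le_mul h6 h1 (abs_nonneg _) (by positivity))
    (fun n => cd_dir (h n)) hφ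
  have hψ' : Tendsto ψ atTop atTop := hψ.tendsto_atTop
  have hsimp : (fun n (q : ℝ × ℝ) => φ (ψ n) (0 + q.1, q.2)) = fun n => φ (ψ n) := by
    funext n q
    rw [zero_add]
  have hUl' : LocU (fun n => φ (ψ n)) U := by
    rw [← hsimp]
    exact hUl
  have evx : EvX U := fun x y => by
    refine tendsto_nhds_unique (locU_tendsto hUl' (-x, y)) ?_
    have h1 := locU_tendsto hUl' (x, y)
    refine h1.congr fun n => ?_
    exact ((h (ψ n)).evx x y).symm
  have evy : EvY U := fun x y => by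
    refine tendsto_nhds_unique (locU_tendsto hUl' (x, -y)) ?_
    have h1 := locU_tendsto hUl' (x, y)
    refine h1.congr fun n => ?_
    exact ((h (ψ n)).evy x y).symm
  -- the limit equation
  have hE : LocU (fun n q => μ (ψ n) * Real.exp (v (ψ n) q))
      (fun q => mu1 a * Real.exp (VB a k q)) :=
    rgb_locE (hμ.comp hψ') (rgb_locU_comp hv hψ') (fun n q => hvabs (ψ n) q) hVBabs
  have hsub : LocU (fun n q => φ (ψ n) q - t (ψ n)) U := by
    intro R'
    have h1 : TendstoUniformlyOn (fun n (_ : ℝ × ℝ) => t (ψ n)) (fun _ => (0 : ℝ)) atTop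
        (Sq (0, 0) R') := (ht0.comp hψ').tendstoUniformlyOn_const _
    have h2 := (hUl' R').sub h1
    have h3 : U - (fun _ => (0 : ℝ)) = U := by
      funext q
      simp
    rw [h3] at h2
    exact h2
  have hEM : ∀ n q, |μ (ψ n) * Real.exp (v (ψ n) q)| ≤ M₁ * Real.exp M + 1 := fun n q => by
    rw [abs_mul, abs_of_pos (Real.exp_pos _)]
    have h5 : Real.exp (v (ψ n) q) ≤ Real.exp M :=
      Real.exp_le_exp.2 ((le_abs_self _).trans (hvabs (ψ n) q))
    have h6 : |μ (ψ n)| * Real.exp (v (ψ n) q) ≤ M₁ * Real.exp M :=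
      mul_le_mul (hμM _) h5 (Real.exp_pos _).le hM₁
    linarith
  have hG : LocU (fun n q => μ (ψ n) * Real.exp (v (ψ n) q) * (φ (ψ n) q - t (ψ n)))
      (fun q => mu1 a * Real.exp (VB a k q) * U q) :=
    locU_mul (M := M₁ * Real.exp M + 1) hE hsub hEM fun q => (hU1 q).trans (by
      have : 0 ≤ M₁ * Real.exp M := by positivity
      linarith)
  have hweak : Weak U (fun q => mu1 a * Real.exp (VB a k q) * U q) (Str 1) := by
    refine cmp_eq (α := fun n => α (ψ n)) (x := fun _ => 0) (f := fun n => φ (ψ n))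
      (g := fun n q => μ (ψ n) * Real.exp (v (ψ n) q) * (φ (ψ n) q - t (ψ n)))
      (fun n => hα (ψ n)) (hα0.comp hψ') (by simp) (fun n => (hgc (ψ n)).continuousOn)
      (fun n => cd_dir (h (ψ n))) hUl ?_
    intro S _ hS
    obtain ⟨B, hB⟩ := hS.isBounded.exists_norm_le
    have hsq : S ⊆ Sq (0, 0) B := fun q hq => by
      have h1 := hB q hq
      rw [Prod.norm_def, max_le_iff, Real.norm_eq_abs, Real.norm_eq_abs] at h1
      simpa [Sq] using h1
    have h2 := (hG B).mono hsq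
    have h3 : (fun n (q : ℝ × ℝ) => μ (ψ n) * Real.exp (v (ψ n) (0 + q.1, q.2))
        * (φ (ψ n) (0 + q.1, q.2) - t (ψ n)))
        = fun n q => μ (ψ n) * Real.exp (v (ψ n) q) * (φ (ψ n) q - t (ψ n)) := by
      funext n q
      rw [zero_add]
    rw [← h3] at h2
    exact h2
  have hzero := nd_bump hbu hUc hU0 hU1 evx evy hweak
  -- the maximum does not escape
  set R' := |Real.log (2 * A + 1)| / κ + 1 with hR'
  have hev1 : ∀ᶠ n in atTop, K * t (ψ n) < 1 / 2 := by
    have h1 : Tendsto (fun n => K * t (ψ n)) atTop (𝓝 (K * 0)) := (ht0.comp hψ').const_mul K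
    rw [mul_zero] at h1
    exact h1.eventually (gt_mem_nhds (by norm_num))
  have hev2 : ∀ᶠ n in atTop, ∀ q ∈ Sq (0, 0) R', dist (U q) (φ (ψ n) q) < 1 := by
    have h1 := Metric.tendstoUniformlyOn_iff.1 (hUl' R') 1 one_pos
    exact h1
  obtain ⟨n, hn1, hn2⟩ := (hev1.and hev2).exists
  obtain ⟨q, hq⟩ := hφ1 (ψ n)
  have hqe : q ∈ Ell (α (ψ n)) := by
    by_contra hc
    rw [(h (ψ n)).zero q hc, abs_zero] at hq
    exact zero_ne_one hq
  have hqy : |q.2| < 1 := rgb_ell_y hqe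
  have hb1 := (hestn (ψ n)).2 q
  rw [hq] at hb1
  have hb2 : 1 / 2 < A * Real.exp (-κ * |q.1|) := by linarith
  have hqx : |q.1| ≤ R' := by
    by_contra hc
    push Not at hc
    have h1 : |Real.log (2 * A + 1)| < κ * |q.1| := by
      have h2 : |Real.log (2 * A + 1)| / κ < |q.1| := by
        rw [hR'] at hc
        linarith
      rw [div_lt_iff₀ hκ] at h2
      linarith
    have h3 : Real.log (2 * A + 1) < κ * |q.1| := (le_abs_self _).trans_lt h1
    have h4 : 2 * A + 1 < Real.exp (κ * |q.1|) := by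
      rw [← Real.exp_log (show 0 < 2 * A + 1 by linarith)]
      exact Real.exp_lt_exp.2 h3
    have h5 : Real.exp (-κ * |q.1|) * Real.exp (κ * |q.1|) = 1 := by
      rw [← Real.exp_add]
      simp
    have h6 := Real.exp_pos (-κ * |q.1|)
    have h7 : A * Real.exp (-κ * |q.1|) * 2 < Real.exp (-κ * |q.1|) * Real.exp (κ * |q.1|) := by
      nlinarith
    rw [h5] at h7
    linarith
  have hR'1 : 1 ≤ R' := by
    have : 0 ≤ |Real.log (2 * A + 1)| / κ := by positivity
    rw [hR']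
    linarith
  have hmem : q ∈ Sq (0, 0) R' := by
    refine ⟨?_, ?_⟩
    · simpa using hqx
    · simp only [sub_zero]
      linarith
  have h8 := hn2 q hmem
  rw [hzero q, dist_comm, Real.dist_eq, sub_zero, hq] at h8
  exact lt_irrefl _ h8

theorem regB {α μ t : ℕ → ℝ} {v φ : ℕ → ℝ × ℝ → ℝ} {p : ℝ}
    (hα : ∀ n, 0 < α n ∧ α n ≤ 1) (hα0 : Tendsto α atTop (𝓝 0))
    (h : ∀ n, CD (α n) (μ n) (t n) (v n) (φ n)) (hp : Tendsto (fun n => v n (0, 0)) atTop (𝓝 p))
    (hlt : pst < p) : False := by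
  obtain ⟨a, k, hbu, hpB⟩ := bump_exists hlt
  subst hpB
  obtain ⟨hμ, hv⟩ := conv_high hα hα0 (fun n => (h n).sol) hbu hlt hp
  choose t' φ' c hc hCD ht' _ _ hφ hφ1 using fun n => cd_norm (hα n).1 (h n)
  obtain ⟨b, R, δ, hb, hb', hδ, hR, hpot⟩ := rgb_pot hbu
  obtain ⟨M₀, hM₀, hvM₀⟩ := rgb_bdd hp
  set M := max M₀ (pB a k) with hM
  have hvabs : ∀ n q, |v n q| ≤ M := fun n q => (gsol_abs (hα n).1 (h n).sol q).trans
    ((le_abs_self _).trans ((hvM₀ n).trans (le_max_left _ _)))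
  have hVBabs : ∀ q, |VB a k q| ≤ M := fun q => by
    obtain ⟨h1, h2⟩ := vb_le hbu q
    rw [abs_of_nonneg h1]
    exact h2.trans (le_max_right _ _)
  have hE := rgb_locE hμ hv hvabs hVBabs
  have hev := Metric.tendstoUniformlyOn_iff.1 (hE (max R 1)) δ hδ
  obtain ⟨N, hN⟩ := eventually_atTop.1 hev
  have hpotn : ∀ n, ∀ q ∈ Ell (α (n + N)), R < |q.1| →
      μ (n + N) * Real.exp (v (n + N) q) ≤ pot1 b q.2 - δ := by
    intro n q hq hqR
    have hy : |q.2| ≤ 1 := (rgb_ell_y hq).le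
    have h1 := hN (n + N) (by omega) (R, q.2) (by
      refine ⟨?_, ?_⟩
      · simp only [sub_zero]
        rw [abs_of_nonneg hR]
        exact le_max_left _ _
      · simp only [sub_zero]
        exact hy.trans (le_max_right _ _))
    rw [Real.dist_eq, abs_lt] at h1
    have h2 := hpot q.2 hy
    have h3 : v (n + N) q ≤ v (n + N) (R, q.2) :=
      (h (n + N)).sol.anti_x (hα _).1 (x := R) (x' := q.1) (y := q.2)
        (by rw [abs_of_nonneg hR]; exact hqR.le)
    have h4 : μ (n + N) * Real.exp (v (n + N) q)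
        ≤ μ (n + N) * Real.exp (v (n + N) (R, q.2)) :=
      mul_le_mul_of_nonneg_left (Real.exp_le_exp.2 h3) (h (n + N)).sol.mu_pos.le
    linarith [h1.1]
  have hshift : Tendsto (fun n => n + N) atTop atTop := tendsto_add_atTop_nat N
  exact rgb_main (α := fun n => α (n + N)) (μ := fun n => μ (n + N)) (t := fun n => t' (n + N))
    (v := fun n => v (n + N)) (φ := fun n => φ' (n + N)) (R := R) (fun n => hα _)
    (hα0.comp hshift) (fun n => hCD _) (fun n q => hφ _ q) (fun n => hφ1 _) (fun n => ht' _)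
    hbu (hp.comp hshift) (hμ.comp hshift) (rgb_locU_comp hv hshift) hb hb' hδ hpotn

end Pool.Agent.MFE
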