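import Pool.Agent.MFE.FLDFin

/-!
# MFE.REGC: the fold regime (assembled from the modules `FLD*`)
-/

open scoped ContDiff
open Filter Topology

namespace Pool.Agent.MFE

theorem regC {α μ t : ℕ → ℝ} {v φ : ℕ → ℝ × ℝ → ℝ}
    (hα : ∀ n, 0 < α n ∧ α n ≤ 1) (hα0 : Tendsto α atTop (𝓝 0))
    (h : ∀ n, CD (α n) (μ n) (t n) (v n) (φ n))
    (hp : Tendsto (fun n => v n (0, 0)) atTop (𝓝 pst)) :
    ∀ᶠ n in atTop, t n ≠ 0 ∧
      0 < t n * ∫ q in Ell (α n), Real.exp (v n q) * (φ n q - t n) ^ 3 :=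
  regC_core hα hα0 h hp

end Pool.Agent.MFE
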