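import Pool.Agent.MFE.BLWF
import Pool.Agent.MFE.BLWM

/-!
# MFE.REGD: the blow-up regime: `regD` (BLWM) and `blow_mass` (BLWF)
-/
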