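import Pool.Agent.MFE.ROBD
import Pool.Agent.MFE.GRN

/-!
# MFE.ROB: the centre is a critical point of the Robin function `p ↦ H p p`

`reg_exists`: fix `p ∈ Ell α`. `g q = (4π)⁻¹ log (|q-p|²)` is smooth off `p`. Let `χ` be smooth, `χ = 0`
near `p`, `χ = 1` off a compact subset of `Ell α` (`1 -` the function of `exists_cut`), `G = χ g`
(smooth on the plane), `u` with `Dir α (lap G) u` (`dir_exists`, `dir_smooth`), `H p = G + u` on the
closure of the ellipse.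
`robin_crit`: by the maximum principle (`wmp_bdd` for `±`) a harmonic function on `Ell α`,
continuous on the closure, is bounded by its boundary values; uniqueness: `H (-p) (-q) = H p q`,
`H 0` is even in both variables. For `|p| ≤ 1/4` and `q` on the boundary (`|q| ≥ 1` since `α ≤ 1`) let
`x = (-2 p·q + |p|²)/|q|²`, `|x| ≤ 2|p| + |p|² ≤ 9/16`; `H p q - H 0 q = (4π)⁻¹ log (1 + x)
= -(2π)⁻¹ p·q/|q|² + O(|p|²)`. Let `Q p = H p - H 0`. Then on the boundary `|Q p| ≤ C|p|` and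
`|Q p + Q (-p)| ≤ C|p|²` (the linear terms cancel), hence on the ellipse. As
`Q (-p) q = Q p (-q)`: `|Q p q + Q p (-q)| ≤ C|p|²`. By `ige` on `Sq q (1/8)`, `|q| ≤ 1/4`:
`|∇ Q p| ≤ C'|p|` there, so `|Q p p - Q p (-p)| ≤ C''|p|²`. Therefore `|Q p p| ≤ C|p|²`. Finally
`H p p - H 0 0 = Q p p + (H 0 p - H 0 0)` and `H 0` is differentiable at `0` with derivative zero
(evenness).
-/

open scoped ContDiff Topology

namespace Pool.Agent.MFE

private theorem ROB_two : (2 : ℕ∞ω) ≤ ∞ := WithTop.coe_le_coe.2 le_top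

private theorem ROB_cd {f : ℝ × ℝ → ℝ} {D : Set (ℝ × ℝ)} (hf : ContDiff ℝ ∞ f) :
    ContDiffOn ℝ 2 f D :=
  (hf.of_le ROB_two).contDiffOn

private theorem ROB_log (q p : ℝ × ℝ) :
    (2 * Real.pi)⁻¹ * Real.log (√((q.1 - p.1) ^ 2 + (q.2 - p.2) ^ 2))
      = (4 * Real.pi)⁻¹ * Real.log ((q.1 - p.1) ^ 2 + (q.2 - p.2) ^ 2) := by
  rw [Real.log_sqrt (by positivity)]
  have := Real.pi_pos
  field_simp
  ring

private theorem ROB_one {α : ℝ} (hα : 0 < α) {p : ℝ × ℝ} (hp : p ∈ Ell α) :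
    ∃ h : ℝ × ℝ → ℝ, ContinuousOn h (closure (Ell α)) ∧ ContDiffOn ℝ 2 h (Ell α) ∧
      (∀ q ∈ Ell α, lap h q = 0) ∧ ∀ q ∈ frontier (Ell α),
        h q = (2 * Real.pi)⁻¹ * Real.log (√((q.1 - p.1) ^ 2 + (q.2 - p.2) ^ 2)) := by
  obtain ⟨χ, hχ, hχc, hχs, -, V, hV, hpV, hχ1⟩ :=
    exists_cut (isOpen_ell α) (isCompact_singleton (x := p)) (Set.singleton_subset_iff.2 hp)
  have hpV' : p ∈ V := hpV rfl
  set g : ℝ × ℝ → ℝ := fun q =>
    (4 * Real.pi)⁻¹ * Real.log ((q.1 - p.1) ^ 2 + (q.2 - p.2) ^ 2) with hg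
  set G : ℝ × ℝ → ℝ := fun q => (1 - χ q) * g q with hG
  have hGs : ContDiff ℝ ∞ G := by
    rw [contDiff_iff_contDiffAt]
    intro q
    by_cases hq : q = p
    · have h0 : G =ᶠ[𝓝 q] fun _ => (0 : ℝ) := by
        filter_upwards [hV.mem_nhds (hq ▸ hpV')] with z hz
        simp only [hG, hχ1 z hz, sub_self, zero_mul]
      exact (contDiffAt_const (c := (0 : ℝ))).congr_of_eventuallyEq h0
    · have hne : (q.1 - p.1) ^ 2 + (q.2 - p.2) ^ 2 ≠ 0 := by
        intro h0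
        apply hq
        have h1 : (q.1 - p.1) ^ 2 = 0 := by nlinarith [sq_nonneg (q.1 - p.1), sq_nonneg (q.2 - p.2)]
        have h2 : (q.2 - p.2) ^ 2 = 0 := by nlinarith [sq_nonneg (q.1 - p.1), sq_nonneg (q.2 - p.2)]
        have h3 := pow_eq_zero_iff (two_ne_zero) |>.1 h1
        have h4 := pow_eq_zero_iff (two_ne_zero) |>.1 h2
        exact Prod.ext (by linarith) (by linarith)
      have hs : ContDiffAt ℝ ∞ (fun z : ℝ × ℝ => (z.1 - p.1) ^ 2 + (z.2 - p.2) ^ 2) q := by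
        fun_prop
      have hgq : ContDiffAt ℝ ∞ g q := contDiffAt_const.mul (hs.log hne)
      exact (contDiffAt_const.sub hχ.contDiffAt).mul hgq
  have hf : ContDiffOn ℝ ∞ (lap G) Set.univ := smooth_lap isOpen_univ hGs.contDiffOn
  obtain ⟨u, hu⟩ := dir_exists hα (f := lap G) (hf.continuousOn.mono (Set.subset_univ _))
  obtain ⟨hus, hul⟩ := dir_smooth (hf.mono (Set.subset_univ _)) hu
  have hu2 : ContDiffOn ℝ 2 u (Ell α) := hus.of_le ROB_two
  refine ⟨fun q => G q + u q, ?_, ?_, ?_, ?_⟩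
  · exact (hGs.continuous.add hu.cont).continuousOn
  · exact (ROB_cd hGs).add hu2
  · intro q hq
    rw [lap_add (isOpen_ell α) (ROB_cd hGs) hu2 hq]
    have := hul q hq
    linarith
  · intro q hq
    have hqE : q ∉ Ell α := by
      intro h
      exact (hq.2 (by rw [(isOpen_ell α).interior_eq]; exact h))
    have h1 : χ q = 0 := by
      by_contra h
      exact hqE (hχs (subset_tsupport _ h))
    show (1 - χ q) * g q + u q = _
    rw [h1, hu.zero q hqE, ROB_log]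
    simp only [hg]
    ring

theorem reg_exists {α : ℝ} (hα : 0 < α) (hα1 : α ≤ 1) : ∃ H, IsReg α H := by
  classical
  have _ := hα1
  have h : ∀ p : ℝ × ℝ, ∃ h : ℝ × ℝ → ℝ, p ∈ Ell α →
      (ContinuousOn h (closure (Ell α)) ∧ ContDiffOn ℝ 2 h (Ell α) ∧
      (∀ q ∈ Ell α, lap h q = 0) ∧ ∀ q ∈ frontier (Ell α),
        h q = (2 * Real.pi)⁻¹ * Real.log (√((q.1 - p.1) ^ 2 + (q.2 - p.2) ^ 2))) := by
    intro p
    by_cases hp : p ∈ Ell α
    · obtain ⟨h, hh⟩ := ROB_one hα hp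
      exact ⟨h, fun _ => hh⟩
    · exact ⟨fun _ => 0, fun h => absurd h hp⟩
  choose H hH using h
  exact ⟨H, ⟨fun p hp => (hH p hp).1, fun p hp => (hH p hp).2.1, fun p hp => (hH p hp).2.2.1,
    fun p hp => (hH p hp).2.2.2⟩⟩

private theorem ROB_le {α : ℝ} (hα : 0 < α) {u b : ℝ × ℝ → ℝ} (hu : ContDiffOn ℝ 2 u (Ell α))
    (hb : ContDiffOn ℝ 2 b (Ell α)) (hcu : ContinuousOn u (closure (Ell α)))
    (hcb : ContinuousOn b (closure (Ell α))) (lu : ∀ q ∈ Ell α, lap u q = 0)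
    (lb : ∀ q ∈ Ell α, lap b q = 0) (hbd : ∀ q ∈ frontier (Ell α), u q ≤ b q) :
    ∀ q ∈ closure (Ell α), u q ≤ b q := by
  have hbd' : Bornology.IsBounded (Ell α) := by
    refine (isCompact_cell hα).isBounded.subset fun q hq => ?_
    have h1 : α ^ 2 * q.1 ^ 2 + q.2 ^ 2 < 1 := hq
    exact h1.le
  exact wmp_bdd (isOpen_ell α) hbd' hu hb hcu hcb (fun q hq => by rw [lu q hq, lb q hq]) hbd

private theorem ROB_eq {α : ℝ} (hα : 0 < α) {u b : ℝ × ℝ → ℝ} (hu : ContDiffOn ℝ 2 u (Ell α))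
    (hb : ContDiffOn ℝ 2 b (Ell α)) (hcu : ContinuousOn u (closure (Ell α)))
    (hcb : ContinuousOn b (closure (Ell α))) (lu : ∀ q ∈ Ell α, lap u q = 0)
    (lb : ∀ q ∈ Ell α, lap b q = 0) (hbd : ∀ q ∈ frontier (Ell α), u q = b q) :
    ∀ q ∈ closure (Ell α), u q = b q := fun q hq =>
  le_antisymm (ROB_le hα hu hb hcu hcb lu lb (fun z hz => (hbd z hz).le) q hq)
    (ROB_le hα hb hu hcb hcu lb lu (fun z hz => (hbd z hz).ge) q hq)

private theorem ROB_lap_const (c : ℝ) (q : ℝ × ℝ) : lap (fun _ => c) q = 0 := by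
  have := lap_fst (q := q) (fun _ => c) contDiff_const
  rw [this]
  simp

private theorem ROB_abs {α : ℝ} (hα : 0 < α) {u : ℝ × ℝ → ℝ} {c : ℝ}
    (hu : ContDiffOn ℝ 2 u (Ell α)) (hcu : ContinuousOn u (closure (Ell α)))
    (lu : ∀ q ∈ Ell α, lap u q = 0) (hbd : ∀ q ∈ frontier (Ell α), |u q| ≤ c) :
    ∀ q ∈ closure (Ell α), |u q| ≤ c := by
  intro q hq
  rw [abs_le]
  exact ⟨ROB_le hα contDiffOn_const hu continuousOn_const hcu (fun z _ => ROB_lap_const _ z) lu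
      (fun z hz => (abs_le.1 (hbd z hz)).1) q hq,
    ROB_le hα hu contDiffOn_const hcu continuousOn_const lu (fun z _ => ROB_lap_const _ z)
      (fun z hz => (abs_le.1 (hbd z hz)).2) q hq⟩

private theorem ROB_fr {α : ℝ} (hα : 0 < α) {q : ℝ × ℝ} :
    q ∈ frontier (Ell α) ↔ α ^ 2 * q.1 ^ 2 + q.2 ^ 2 = 1 := by
  rw [frontier, (isOpen_ell α).interior_eq, closure_ell hα]
  constructor
  · rintro ⟨h1, h2⟩
    have h1' : α ^ 2 * q.1 ^ 2 + q.2 ^ 2 ≤ 1 := h1
    have h2' : ¬ (α ^ 2 * q.1 ^ 2 + q.2 ^ 2 < 1) := h2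
    linarith [not_lt.1 h2']
  · intro h
    exact ⟨h.le, fun h2 => absurd h (ne_of_lt h2)⟩

/-- reflection -/
private def ROB_R (a b : ℝ) (q : ℝ × ℝ) : ℝ × ℝ := (0 + a * q.1, 0 + b * q.2)

private theorem ROB_R_ell {α a b : ℝ} (ha : a ^ 2 = 1) (hb : b ^ 2 = 1) {q : ℝ × ℝ}
    (hq : q ∈ Ell α) : ROB_R a b q ∈ Ell α := by
  show α ^ 2 * (0 + a * q.1) ^ 2 + (0 + b * q.2) ^ 2 < 1
  have h : α ^ 2 * q.1 ^ 2 + q.2 ^ 2 < 1 := hq
  have e : α ^ 2 * (0 + a * q.1) ^ 2 + (0 + b * q.2) ^ 2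
      = α ^ 2 * (a ^ 2) * q.1 ^ 2 + b ^ 2 * q.2 ^ 2 := by ring
  rw [e, ha, hb]
  linarith

private theorem ROB_R_cell {α a b : ℝ} (hα : 0 < α) (ha : a ^ 2 = 1) (hb : b ^ 2 = 1) {q : ℝ × ℝ}
    (hq : q ∈ closure (Ell α)) : ROB_R a b q ∈ closure (Ell α) := by
  rw [closure_ell hα] at hq ⊢
  show α ^ 2 * (0 + a * q.1) ^ 2 + (0 + b * q.2) ^ 2 ≤ 1
  have h : α ^ 2 * q.1 ^ 2 + q.2 ^ 2 ≤ 1 := hq
  have e : α ^ 2 * (0 + a * q.1) ^ 2 + (0 + b * q.2) ^ 2
      = α ^ 2 * (a ^ 2) * q.1 ^ 2 + b ^ 2 * q.2 ^ 2 := by ring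
  rw [e, ha, hb]
  linarith

private theorem ROB_R_fr {α a b : ℝ} (hα : 0 < α) (ha : a ^ 2 = 1) (hb : b ^ 2 = 1) {q : ℝ × ℝ}
    (hq : q ∈ frontier (Ell α)) : ROB_R a b q ∈ frontier (Ell α) := by
  rw [ROB_fr hα] at hq ⊢
  show α ^ 2 * (0 + a * q.1) ^ 2 + (0 + b * q.2) ^ 2 = 1
  have e : α ^ 2 * (0 + a * q.1) ^ 2 + (0 + b * q.2) ^ 2
      = α ^ 2 * (a ^ 2) * q.1 ^ 2 + b ^ 2 * q.2 ^ 2 := by ring
  rw [e, ha, hb]
  linarith

private theorem ROB_symm {α a b : ℝ} (hα : 0 < α) (ha : a ^ 2 = 1) (hb : b ^ 2 = 1)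
    {H : ℝ × ℝ → ℝ × ℝ → ℝ} (h : IsReg α H) {p q : ℝ × ℝ}
    (hp : p ∈ Ell α) (hq : q ∈ closure (Ell α)) :
    H (ROB_R a b p) (ROB_R a b q) = H p q := by
  have hp' := ROB_R_ell ha hb hp
  have hRc : Continuous (ROB_R a b) := by
    unfold ROB_R
    fun_prop
  have hRs : ContDiff ℝ 2 (ROB_R a b) := by
    unfold ROB_R
    fun_prop
  refine ROB_eq hα (u := fun z => H (ROB_R a b p) (ROB_R a b z)) (b := H p) ?_ (h.c2 p hp) ?_
    (h.cont p hp) ?_ (h.harm p hp) ?_ q hq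
  · exact (h.c2 _ hp').comp hRs.contDiffOn fun z hz => ROB_R_ell ha hb hz
  · exact (h.cont _ hp').comp hRc.continuousOn fun z hz => ROB_R_cell hα ha hb hz
  · intro z hz
    have := lap_aff (f := H (ROB_R a b p)) (q := z) 0 0 ha hb (isOpen_ell α) (h.c2 _ hp')
      (ROB_R_ell ha hb hz)
    refine Eq.trans this ?_
    exact h.harm _ hp' _ (ROB_R_ell ha hb hz)
  · intro z hz
    show H (ROB_R a b p) (ROB_R a b z) = H p z
    rw [h.bd _ hp' _ (ROB_R_fr hα ha hb hz), h.bd _ hp _ hz]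
    have e : ((ROB_R a b z).1 - (ROB_R a b p).1) ^ 2 + ((ROB_R a b z).2 - (ROB_R a b p).2) ^ 2
        = (z.1 - p.1) ^ 2 + (z.2 - p.2) ^ 2 := by
      show (0 + a * z.1 - (0 + a * p.1)) ^ 2 + (0 + b * z.2 - (0 + b * p.2)) ^ 2 = _
      have : (0 + a * z.1 - (0 + a * p.1)) ^ 2 + (0 + b * z.2 - (0 + b * p.2)) ^ 2
          = a ^ 2 * (z.1 - p.1) ^ 2 + b ^ 2 * (z.2 - p.2) ^ 2 := by ring
      rw [this, ha, hb]
      ring
    rw [e]

theorem reg_symm {α : ℝ} (hα : 0 < α) {H : ℝ × ℝ → ℝ × ℝ → ℝ} (h : IsReg α H) {p q : ℝ × ℝ}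
    (hp : p ∈ Ell α) (hq : q ∈ closure (Ell α)) :
    H (-p.1, p.2) (-q.1, q.2) = H p q ∧ H (p.1, -p.2) (q.1, -q.2) = H p q := by
  have e1 : ∀ z : ℝ × ℝ, ROB_R (-1) 1 z = (-z.1, z.2) := fun z => by
    show (0 + (-1) * z.1, 0 + 1 * z.2) = _
    ext <;> simp
  have e2 : ∀ z : ℝ × ℝ, ROB_R 1 (-1) z = (z.1, -z.2) := fun z => by
    show (0 + 1 * z.1, 0 + (-1) * z.2) = _
    ext <;> simp
  constructor
  · rw [← e1, ← e1]
    exact ROB_symm hα (by norm_num) (by norm_num) h hp hq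
  · rw [← e2, ← e2]
    exact ROB_symm hα (by norm_num) (by norm_num) h hp hq

private theorem ROB_neg {α : ℝ} (hα : 0 < α) {H : ℝ × ℝ → ℝ × ℝ → ℝ} (h : IsReg α H)
    {p q : ℝ × ℝ} (hp : p ∈ Ell α) (hq : q ∈ closure (Ell α)) : H (-p) (-q) = H p q := by
  have e1 : ∀ z : ℝ × ℝ, ROB_R (-1) (-1) z = -z := fun z => by
    show (0 + (-1) * z.1, 0 + (-1) * z.2) = _
    ext <;> simp
  rw [← e1, ← e1]
  exact ROB_symm hα (by norm_num) (by norm_num) h hp hq

private theorem ROB_mem {α : ℝ} (hα : 0 < α) (hα1 : α ≤ 1) {q : ℝ × ℝ} (h1 : |q.1| ≤ 1 / 2)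
    (h2 : |q.2| ≤ 1 / 2) : q ∈ Ell α := by
  show α ^ 2 * q.1 ^ 2 + q.2 ^ 2 < 1
  have e1 : q.1 ^ 2 ≤ 1 / 4 := by
    rw [← sq_abs]; nlinarith [abs_nonneg q.1]
  have e2 : q.2 ^ 2 ≤ 1 / 4 := by
    rw [← sq_abs]; nlinarith [abs_nonneg q.2]
  have e3 : α ^ 2 ≤ 1 := by nlinarith
  nlinarith [sq_nonneg q.1]

private theorem ROB_logb {x : ℝ} (h : |x| ≤ 1 / 2) : |Real.log (1 + x)| ≤ 2 * |x| := by
  have h1 := abs_le.1 h
  have hpos : 0 < 1 + x := by linarith
  have hu : Real.log (1 + x) ≤ x := by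
    have := Real.log_le_sub_one_of_pos hpos
    linarith
  have hl : 1 - (1 + x)⁻¹ ≤ Real.log (1 + x) := Real.one_sub_inv_le_log_of_pos hpos
  have hx := le_abs_self x
  have hx' := neg_abs_le x
  rw [abs_le]
  constructor
  · refine le_trans ?_ hl
    have : 1 - (1 + x)⁻¹ = x / (1 + x) := by
      field_simp
      ring
    rw [this, le_div_iff₀ hpos]
    nlinarith [abs_nonneg x]
  · nlinarith [abs_nonneg x]

/-- the elementary estimates on the boundary -/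
private theorem ROB_bd {p q : ℝ × ℝ} {m : ℝ} (hm : 0 ≤ m) (hm1 : m ≤ 1 / 16) (hp1 : |p.1| ≤ m)
    (hp2 : |p.2| ≤ m) (hN : 1 ≤ q.1 ^ 2 + q.2 ^ 2) :
    |Real.log ((q.1 - p.1) ^ 2 + (q.2 - p.2) ^ 2) - Real.log (q.1 ^ 2 + q.2 ^ 2)| ≤ 8 * m ∧
    |Real.log ((q.1 - p.1) ^ 2 + (q.2 - p.2) ^ 2) + Real.log ((q.1 + p.1) ^ 2 + (q.2 + p.2) ^ 2)
      - 2 * Real.log (q.1 ^ 2 + q.2 ^ 2)| ≤ 28 * m ^ 2 := by
  set N := q.1 ^ 2 + q.2 ^ 2 with hNd
  have hN0 : 0 < N := by linarith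
  set s := p.1 * q.1 + p.2 * q.2 with hs
  set P := p.1 ^ 2 + p.2 ^ 2 with hP
  have hq1 : |q.1| ≤ (1 + q.1 ^ 2) / 2 := by
    have := sq_nonneg (|q.1| - 1)
    rw [sub_sq, sq_abs] at this
    linarith
  have hq2 : |q.2| ≤ (1 + q.2 ^ 2) / 2 := by
    have := sq_nonneg (|q.2| - 1)
    rw [sub_sq, sq_abs] at this
    linarith
  have hsb : |s| ≤ 3 / 2 * m * N := by
    calc |s| ≤ |p.1 * q.1| + |p.2 * q.2| := abs_add_le _ _
      _ = |p.1| * |q.1| + |p.2| * |q.2| := by rw [abs_mul, abs_mul]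
      _ ≤ m * |q.1| + m * |q.2| := by
          gcongr
      _ ≤ m * ((1 + q.1 ^ 2) / 2) + m * ((1 + q.2 ^ 2) / 2) := by
          gcongr
      _ = m * ((2 + N) / 2) := by rw [hNd]; ring
      _ ≤ m * (3 / 2 * N) := by
          apply mul_le_mul_of_nonneg_left _ hm
          linarith
      _ = _ := by ring
  have hP0 : 0 ≤ P := by positivity
  have hPb : P ≤ 2 * m ^ 2 := by
    have e1 : p.1 ^ 2 ≤ m ^ 2 := by
      rw [← sq_abs p.1]
      exact pow_le_pow_left₀ (abs_nonneg _) hp1 2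
    have e2 : p.2 ^ 2 ≤ m ^ 2 := by
      rw [← sq_abs p.2]
      exact pow_le_pow_left₀ (abs_nonneg _) hp2 2
    rw [hP]
    linarith
  have hm2 : m ^ 2 = m * m := sq m
  have hmm : m * m ≤ m * (1 / 16) := mul_le_mul_of_nonneg_left hm1 hm
  have hPm : P ≤ m / 2 := by
    rw [hm2] at hPb
    linarith
  have hsa := abs_le.1 hsb
  have hx : ∀ t : ℝ, |t| ≤ 3 / 2 * m * N → |(2 * t + P) / N| ≤ 4 * m := by
    intro t ht
    rw [abs_div, abs_of_pos hN0, div_le_iff₀ hN0]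
    have h1 : |2 * t + P| ≤ 2 * |t| + P := by
      calc |2 * t + P| ≤ |2 * t| + |P| := abs_add_le _ _
        _ = _ := by rw [abs_mul, abs_of_pos (two_pos : (0:ℝ) < 2), abs_of_nonneg hP0]
    have h2 : P ≤ m * N := by
      have : m * 1 ≤ m * N := mul_le_mul_of_nonneg_left hN hm
      linarith
    linarith
  have hx1 := hx (-s) (by rw [abs_neg]; exact hsb)
  have hx2 := hx s hsb
  have e1 : (q.1 - p.1) ^ 2 + (q.2 - p.2) ^ 2 = N * (1 + (2 * (-s) + P) / N) := by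
    rw [mul_add, mul_one, mul_div_cancel₀ _ hN0.ne', hNd, hs, hP]
    ring
  have e2 : (q.1 + p.1) ^ 2 + (q.2 + p.2) ^ 2 = N * (1 + (2 * s + P) / N) := by
    rw [mul_add, mul_one, mul_div_cancel₀ _ hN0.ne', hNd, hs, hP]
    ring
  have hp1' : 0 < 1 + (2 * (-s) + P) / N := by
    have := (abs_le.1 hx1).1
    linarith
  have hp2' : 0 < 1 + (2 * s + P) / N := by
    have := (abs_le.1 hx2).1
    linarith
  rw [e1, e2, Real.log_mul hN0.ne' hp1'.ne', Real.log_mul hN0.ne' hp2'.ne']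
  constructor
  · rw [add_sub_cancel_left]
    refine (ROB_logb ?_).trans ?_
    · linarith
    · linarith
  · have e3 : Real.log N + Real.log (1 + (2 * (-s) + P) / N)
        + (Real.log N + Real.log (1 + (2 * s + P) / N)) - 2 * Real.log N
        = Real.log (1 + (2 * P * N + P ^ 2 - 4 * s ^ 2) / N ^ 2) := by
      have e4 : 1 + (2 * P * N + P ^ 2 - 4 * s ^ 2) / N ^ 2
          = (1 + (2 * (-s) + P) / N) * (1 + (2 * s + P) / N) := by
        field_simp
        ring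
      rw [e4, Real.log_mul hp1'.ne' hp2'.ne']
      ring
    rw [e3]
    have hs2 : s ^ 2 ≤ (3 / 2 * m * N) ^ 2 := by
      rw [← sq_abs s]
      exact pow_le_pow_left₀ (abs_nonneg _) hsb 2
    have hy : |(2 * P * N + P ^ 2 - 4 * s ^ 2) / N ^ 2| ≤ 14 * m ^ 2 := by
      rw [abs_div, abs_of_pos (by positivity : 0 < N ^ 2), div_le_iff₀ (by positivity), abs_le]
      have f1 : 2 * P * N ≤ 4 * m ^ 2 * N ^ 2 := by
        have : P * N ≤ 2 * m ^ 2 * N ^ 2 := by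
          calc P * N ≤ 2 * m ^ 2 * N := by
                apply mul_le_mul_of_nonneg_right hPb hN0.le
            _ ≤ 2 * m ^ 2 * N ^ 2 := by
                apply mul_le_mul_of_nonneg_left _ (by positivity)
                have := mul_le_mul_of_nonneg_left hN hN0.le
                rw [sq]
                linarith
        linarith
      have f2 : P ^ 2 ≤ m ^ 2 * N ^ 2 := by
        calc P ^ 2 ≤ m ^ 2 := by
              apply pow_le_pow_left₀ hP0
              linarith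
          _ ≤ m ^ 2 * N ^ 2 := by
              exact le_mul_of_one_le_right (sq_nonneg m) (one_le_pow₀ hN)
      have f3 : 0 ≤ P * N := by positivity
      have f4 : (3 / 2 * m * N) ^ 2 = 9 / 4 * (m ^ 2 * N ^ 2) := by ring
      rw [f4] at hs2
      have f5 := sq_nonneg P
      have f6 := sq_nonneg s
      have f7 := mul_nonneg (sq_nonneg m) (sq_nonneg N)
      constructor
      · linarith
      · linarith
    refine (ROB_logb ?_).trans ?_
    · have f8 : m * m ≤ 1 / 16 * (1 / 16) := mul_le_mul hm1 hm1 hm (by norm_num)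
      rw [hm2] at hy
      linarith
    · linarith

theorem robin_crit {α : ℝ} (hα : 0 < α) (hα1 : α ≤ 1) {H : ℝ × ℝ → ℝ × ℝ → ℝ}
    (h : IsReg α H) : HasFDerivAt (fun p => H p p) (0 : ℝ × ℝ →L[ℝ] ℝ) (0, 0) := by
  have hO := isOpen_ell α
  have h0E : (0 : ℝ × ℝ) ∈ Ell α := ROB_mem hα hα1 (by simp) (by simp)
  have hsub : Ell α ⊆ closure (Ell α) := subset_closure
  have hpi : (4 * Real.pi)⁻¹ ≤ 1 / 12 := by
    have := Real.pi_gt_three
    rw [inv_le_comm₀ (by positivity) (by norm_num)]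
    norm_num
    linarith
  have hpi0 : 0 < (4 * Real.pi)⁻¹ := by
    have := Real.pi_pos
    positivity
  have hfrN : ∀ q ∈ frontier (Ell α), 1 ≤ q.1 ^ 2 + q.2 ^ 2 := by
    intro q hq
    rw [ROB_fr hα] at hq
    have e3 : α ^ 2 ≤ 1 := by nlinarith
    nlinarith [sq_nonneg q.1]
  have hbd : ∀ p ∈ Ell α, ∀ q ∈ frontier (Ell α),
      H p q = (4 * Real.pi)⁻¹ * Real.log ((q.1 - p.1) ^ 2 + (q.2 - p.2) ^ 2) := fun p hp q hq => by
    rw [h.bd p hp q hq, ROB_log]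
  -- the main estimate
  have key : ∀ p : ℝ × ℝ, ‖p‖ ≤ 1 / 16 → |H p p - H 0 p| ≤ 34 * ‖p‖ ^ 2 := by
    intro p hp
    set m := ‖p‖ with hm
    have hm0 : 0 ≤ m := norm_nonneg p
    have hp1 : |p.1| ≤ m := norm_fst_le p
    have hp2 : |p.2| ≤ m := norm_snd_le p
    have hpE : p ∈ Ell α := ROB_mem hα hα1 (by linarith) (by linarith)
    have hpE' : -p ∈ Ell α := ROB_mem hα hα1 (by simpa using (by linarith : |p.1| ≤ 1 / 2))
      (by simpa using (by linarith : |p.2| ≤ 1 / 2))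
    -- Q
    have hQc2 : ∀ z ∈ Ell α, ContDiffOn ℝ 2 (fun q => H z q - H 0 q) (Ell α) := fun z hz =>
      (h.c2 z hz).sub (h.c2 0 h0E)
    have hQc : ∀ z ∈ Ell α, ContinuousOn (fun q => H z q - H 0 q) (closure (Ell α)) :=
      fun z hz => (h.cont z hz).sub (h.cont 0 h0E)
    have hQl : ∀ z ∈ Ell α, ∀ q ∈ Ell α, lap (fun q => H z q - H 0 q) q = 0 := fun z hz q hq => by
      rw [lap_sub hO (h.c2 z hz) (h.c2 0 h0E) hq, h.harm z hz q hq, h.harm 0 h0E q hq, sub_zero]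
    have hQb : ∀ q ∈ closure (Ell α), |H p q - H 0 q| ≤ m := by
      refine ROB_abs hα (hQc2 p hpE) (hQc p hpE) (hQl p hpE) fun q hq => ?_
      show |H p q - H 0 q| ≤ m
      rw [hbd p hpE q hq, hbd 0 h0E q hq, ← mul_sub, abs_mul, abs_of_pos hpi0]
      have := (ROB_bd hm0 hp hp1 hp2 (hfrN q hq)).1
      simp only [Prod.fst_zero, Prod.snd_zero, sub_zero]
      calc (4 * Real.pi)⁻¹ * _ ≤ (1 / 12) * (8 * m) := by
            apply mul_le_mul hpi this (abs_nonneg _) (by norm_num)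
        _ ≤ m := by linarith
    have hSb : ∀ q ∈ closure (Ell α), |(H p q - H 0 q) + (H (-p) q - H 0 q)| ≤ 3 * m ^ 2 := by
      refine ROB_abs hα ((hQc2 p hpE).add (hQc2 (-p) hpE')) ((hQc p hpE).add (hQc (-p) hpE'))
        (fun q hq => ?_) fun q hq => ?_
      · rw [lap_add hO (hQc2 p hpE) (hQc2 (-p) hpE') hq, hQl p hpE q hq, hQl (-p) hpE' q hq,
          add_zero]
      · show |(H p q - H 0 q) + (H (-p) q - H 0 q)| ≤ 3 * m ^ 2
        rw [hbd p hpE q hq, hbd 0 h0E q hq, hbd (-p) hpE' q hq]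
        have := (ROB_bd hm0 hp hp1 hp2 (hfrN q hq)).2
        simp only [Prod.fst_zero, Prod.snd_zero, sub_zero, Prod.fst_neg, Prod.snd_neg,
          sub_neg_eq_add]
        have e : (4 * Real.pi)⁻¹ * Real.log ((q.1 - p.1) ^ 2 + (q.2 - p.2) ^ 2)
            - (4 * Real.pi)⁻¹ * Real.log (q.1 ^ 2 + q.2 ^ 2)
            + ((4 * Real.pi)⁻¹ * Real.log ((q.1 + p.1) ^ 2 + (q.2 + p.2) ^ 2)
            - (4 * Real.pi)⁻¹ * Real.log (q.1 ^ 2 + q.2 ^ 2))
            = (4 * Real.pi)⁻¹ * (Real.log ((q.1 - p.1) ^ 2 + (q.2 - p.2) ^ 2)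
              + Real.log ((q.1 + p.1) ^ 2 + (q.2 + p.2) ^ 2)
              - 2 * Real.log (q.1 ^ 2 + q.2 ^ 2)) := by ring
        rw [e, abs_mul, abs_of_pos hpi0]
        calc (4 * Real.pi)⁻¹ * _ ≤ (1 / 12) * (28 * m ^ 2) := by
              apply mul_le_mul hpi this (abs_nonneg _) (by norm_num)
          _ ≤ 3 * m ^ 2 := by nlinarith [sq_nonneg m]
    -- oddness
    have hodd : H (-p) p - H 0 p = H p (-p) - H 0 (-p) := by
      have e1 := ROB_neg hα h hpE (hsub hpE')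
      rw [neg_neg] at e1
      have e2 := ROB_neg hα h h0E (hsub hpE)
      rw [neg_zero] at e2
      rw [e1, e2]
    -- gradient
    have hgrad : ∀ t : ℝ, |t| ≤ 1 → |dx (fun q => H p q - H 0 q) (t • p)| ≤ 16 * m ∧
        |dy (fun q => H p q - H 0 q) (t • p)| ≤ 16 * m := by
      intro t ht
      have ht1 : |(t • p).1| ≤ 1 / 16 := by
        rw [Prod.smul_fst, smul_eq_mul, abs_mul]
        nlinarith [abs_nonneg t, abs_nonneg p.1]
      have ht2 : |(t • p).2| ≤ 1 / 16 := by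
        rw [Prod.smul_snd, smul_eq_mul, abs_mul]
        nlinarith [abs_nonneg t, abs_nonneg p.2]
      have hsq : Sq (t • p) (1 / 8) ⊆ Ell α := by
        intro z hz
        apply ROB_mem hα hα1
        · have := hz.1
          calc |z.1| = |(z.1 - (t • p).1) + (t • p).1| := by ring_nf
            _ ≤ |z.1 - (t • p).1| + |(t • p).1| := abs_add_le _ _
            _ ≤ 1 / 2 := by linarith
        · have := hz.2
          calc |z.2| = |(z.2 - (t • p).2) + (t • p).2| := by ring_nf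
            _ ≤ |z.2 - (t • p).2| + |(t • p).2| := abs_add_le _ _
            _ ≤ 1 / 2 := by linarith
      have := ige (M := m) (N := 0) hO (hQc2 p hpE) (d := 1 / 8) (by norm_num) hsq
        (fun z hz => hQb z (hsub (hsq hz)))
        (fun z hz => by rw [hQl p hpE z (hsq hz), abs_zero])
      constructor
      · refine this.1.trans (le_of_eq ?_)
        ring
      · refine this.2.trans (le_of_eq ?_)
        ring
    have hdiff : |(H p p - H 0 p) - (H p (-p) - H 0 (-p))| ≤ 64 * m ^ 2 := by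
      set Q : ℝ × ℝ → ℝ := fun q => H p q - H 0 q with hQ
      have hmem : ∀ t : ℝ, |t| ≤ 1 → t • p ∈ Ell α := fun t ht => by
        apply ROB_mem hα hα1
        · rw [Prod.smul_fst, smul_eq_mul, abs_mul]
          nlinarith [abs_nonneg t, abs_nonneg p.1]
        · rw [Prod.smul_snd, smul_eq_mul, abs_mul]
          nlinarith [abs_nonneg t, abs_nonneg p.2]
      have hder : ∀ t ∈ Set.Icc (-1 : ℝ) 1,
          HasDerivWithinAt (fun t : ℝ => Q (t • p)) (fderiv ℝ Q (t • p) p) (Set.Icc (-1) 1) t := by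
        intro t ht
        have hd : DifferentiableAt ℝ Q (t • p) :=
          ((hQc2 p hpE).differentiableOn (by norm_num)).differentiableAt
            (hO.mem_nhds (hmem t (abs_le.2 ht)))
        have h1 : HasDerivAt (fun t : ℝ => t • p) ((1 : ℝ) • p) t := (hasDerivAt_id t).smul_const p
        rw [one_smul] at h1
        exact (hd.hasFDerivAt.comp_hasDerivAt t h1).hasDerivWithinAt
      have hbdd : ∀ t ∈ Set.Icc (-1 : ℝ) 1, ‖fderiv ℝ Q (t • p) p‖ ≤ 32 * m ^ 2 := by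
        intro t ht
        have hd : DifferentiableAt ℝ Q (t • p) :=
          ((hQc2 p hpE).differentiableOn (by norm_num)).differentiableAt
            (hO.mem_nhds (hmem t (abs_le.2 ht)))
        have e := fderiv_apply_eq hd p.1 p.2
        have e' : fderiv ℝ Q (t • p) p = p.1 * dx Q (t • p) + p.2 * dy Q (t • p) := e
        rw [e', Real.norm_eq_abs]
        obtain ⟨g1, g2⟩ := hgrad t (abs_le.2 ht)
        calc |p.1 * dx Q (t • p) + p.2 * dy Q (t • p)|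
            ≤ |p.1 * dx Q (t • p)| + |p.2 * dy Q (t • p)| := abs_add_le _ _
          _ = |p.1| * |dx Q (t • p)| + |p.2| * |dy Q (t • p)| := by rw [abs_mul, abs_mul]
          _ ≤ m * (16 * m) + m * (16 * m) := by
              apply add_le_add
              · exact mul_le_mul hp1 g1 (abs_nonneg _) hm0
              · exact mul_le_mul hp2 g2 (abs_nonneg _) hm0
          _ = _ := by ring
      have := (convex_Icc (-1 : ℝ) 1).norm_image_sub_le_of_norm_hasDerivWithin_le hder hbdd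
        (Set.left_mem_Icc.2 (by norm_num)) (Set.right_mem_Icc.2 (by norm_num))
      simp only [one_smul, neg_smul] at this
      rw [Real.norm_eq_abs, Real.norm_eq_abs] at this
      have e5 : |(1 : ℝ) - -1| = 2 := by norm_num
      rw [e5] at this
      calc |(H p p - H 0 p) - (H p (-p) - H 0 (-p))| ≤ 32 * m ^ 2 * 2 := this
        _ = _ := by ring
    have hsum := hSb p (hsub hpE)
    rw [hodd] at hsum
    have h1 := abs_le.1 hsum
    have h2 := abs_le.1 hdiff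
    rw [abs_le]
    constructor
    · nlinarith [sq_nonneg m]
    · nlinarith [sq_nonneg m]
  -- derivative of H 0
  have hd0 : HasFDerivAt (fun p => H 0 p) (0 : ℝ × ℝ →L[ℝ] ℝ) 0 := by
    have hd : DifferentiableAt ℝ (H 0) 0 :=
      ((h.c2 0 h0E).differentiableOn (by norm_num)).differentiableAt (hO.mem_nhds h0E)
    have h1 := hd.hasFDerivAt
    have h2 : HasFDerivAt (fun z : ℝ × ℝ => H 0 (-z))
        ((fderiv ℝ (H 0) 0).comp (-(ContinuousLinearMap.id ℝ (ℝ × ℝ)))) 0 := by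
      have h3 : HasFDerivAt (fun z : ℝ × ℝ => -z) (-(ContinuousLinearMap.id ℝ (ℝ × ℝ))) 0 :=
        (hasFDerivAt_id (0 : ℝ × ℝ)).neg
      have h4 : HasFDerivAt (H 0) (fderiv ℝ (H 0) 0) (-(0 : ℝ × ℝ)) := by
        rw [neg_zero]
        exact h1
      exact h4.comp 0 h3
    have h5 : (fun z : ℝ × ℝ => H 0 (-z)) =ᶠ[𝓝 0] H 0 := by
      filter_upwards [hO.mem_nhds h0E] with z hz
      have := ROB_neg hα h h0E (hsub hz)
      rw [neg_zero] at this
      exact this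
    have h6 := (h2.congr_of_eventuallyEq h5.symm).unique h1
    have h7 : fderiv ℝ (H 0) 0 = 0 := by
      refine ContinuousLinearMap.ext fun v => ?_
      have h8 := congrArg (fun L : ℝ × ℝ →L[ℝ] ℝ => L v) h6
      have h9 : fderiv ℝ (H 0) 0 (-v) = fderiv ℝ (H 0) 0 v := h8
      rw [map_neg] at h9
      rw [zero_apply]
      linarith
    rw [h7] at h1
    exact h1
  have hdQ : HasFDerivAt (fun p => H p p - H 0 p) (0 : ℝ × ℝ →L[ℝ] ℝ) 0 := by
    have hO2 : (fun p : ℝ × ℝ => H p p - H 0 p) =O[𝓝 0] fun p => ‖p - 0‖ ^ 2 := by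
      rw [Asymptotics.isBigO_iff]
      refine ⟨34, ?_⟩
      filter_upwards [Metric.closedBall_mem_nhds (0 : ℝ × ℝ) (by norm_num : (0 : ℝ) < 1 / 16)]
        with z hz
      rw [mem_closedBall_zero_iff] at hz
      rw [Real.norm_eq_abs, sub_zero, norm_pow, norm_norm]
      exact key z hz
    exact hO2.hasFDerivAt one_lt_two
  have hfin := hdQ.add hd0
  rw [add_zero] at hfin
  refine hfin.congr_of_eventuallyEq (Filter.Eventually.of_forall fun p => ?_)
  show H p p = (H p p - H 0 p) + H 0 p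
  ring

end Pool.Agent.MFE
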