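import Pool.Agent.MFE.Defs

/-!
# MFE.ROBD: the regular part of the Green function (definition)
-/

namespace Pool.Agent.MFE

/-- `H p q` is the regular part of the Dirichlet Green function
`G(p,q) = (2π)⁻¹ log (1/|p - q|) + H p q` of the ellipse, with pole `p` -/
structure IsReg (α : ℝ) (H : ℝ × ℝ → ℝ × ℝ → ℝ) : Prop where
  cont : ∀ p ∈ Ell α, ContinuousOn (H p) (closure (Ell α))
  c2 : ∀ p ∈ Ell α, ContDiffOn ℝ 2 (H p) (Ell α)
  harm : ∀ p ∈ Ell α, ∀ q ∈ Ell α, lap (H p) q = 0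
  bd : ∀ p ∈ Ell α, ∀ q ∈ frontier (Ell α),
    H p q = (2 * Real.pi)⁻¹ * Real.log (√((q.1 - p.1) ^ 2 + (q.2 - p.2) ^ 2))

end Pool.Agent.MFE
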