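import Pool.Agent.MFE.Defs

/-!
# MFE.SEP: two paths in the closed quadrant cross

`γ` joins the positive `x`-axis to the positive `y`-axis and `σ` joins the origin to a point
which lies to the right of (or above) the whole of `γ`. Then they meet.

Proof. Otherwise `F(s,t) = σ(s) - γ(t) ∈ ℂ \ {0}` is continuous on the square `[0,1]²` and has a
continuous logarithm (argument) `A(s,t)` there (lift through `Complex.exp`: covering map, the
square is simply connected; or by hand: uniform continuity, subdivide into small squares). On the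
four sides of the square `F` stays in a half plane avoiding the origin:
* `s = 0`: `F = -γ(t)`, both coordinates `≤ 0`, from `(-a, 0)` to `(0, -b)`;
* `t = 1`: `F = σ(s) - (0,b)`: first coordinate `≥ 0`, never zero;
* `s = 1`: `F = σ(1) - γ(t)`: first coordinate positive for all `t` (or second coordinate
  positive for all `t`);
* `t = 0`: `F = σ(s) - (a,0)`: second coordinate `≥ 0`.
Summing the changes of the argument along the boundary (from `(-a,0)` through the third quadrant
to `(0,-b)`, then through the right half plane, then ..., then through the upper half plane back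
to `(-a,0)`) gives `2π`, while the continuous logarithm on the square gives `0`. Contradiction.
(Any other proof, e.g. by Poincare-Miranda or by a discrete Hex/Sperner argument, is welcome.)
-/

namespace Pool.Agent.MFE

private theorem side51 {c L : ℝ → ℂ} (hc : Continuous c) (hL : Continuous L)
    (h : ∀ t, Complex.exp (L t) = c t) {u : ℂ}
    (hu : ∀ t ∈ Set.Icc (0 : ℝ) 1, u * c t ∈ Complex.slitPlane) :
    (L 1).im - (L 0).im = Complex.arg (u * c 1) - Complex.arg (u * c 0) := by
  have hcont : ContinuousOn (fun t => L t - Complex.log (u * c t)) (Set.Icc (0 : ℝ) 1) := by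
    refine hL.continuousOn.sub ?_
    exact ContinuousOn.clog (continuous_const.mul hc).continuousOn hu
  have hne : ∀ t ∈ Set.Icc (0 : ℝ) 1, u * c t ≠ 0 := fun t ht => Complex.slitPlane_ne_zero (hu t ht)
  have he : ∀ t ∈ Set.Icc (0 : ℝ) 1, Complex.exp (L t - Complex.log (u * c t)) = u⁻¹ := by
    intro t ht
    have h1 := hne t ht
    have hu0 : u ≠ 0 := left_ne_zero_of_mul h1
    have hc0 : c t ≠ 0 := right_ne_zero_of_mul h1
    rw [Complex.exp_sub, h, Complex.exp_log h1]
    field_simp
  have key := Complex.isCoveringMap_exp.constOn_of_comp (isPreconnected_Icc (a := (0 : ℝ)) (b := 1))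
    hcont (fun a ha a' ha' => Subtype.ext (by
      show Complex.exp _ = Complex.exp _
      rw [he a ha, he a' ha'])) (show (1 : ℝ) ∈ Set.Icc (0 : ℝ) 1 by simp)
    (show (0 : ℝ) ∈ Set.Icc (0 : ℝ) 1 by simp)
  have key2 := congrArg Complex.im key
  simp only [Complex.sub_im, Complex.log_im] at key2
  linarith

private theorem cross_aux51 {g s : ℝ → ℂ} (hg : Continuous g) (hs : Continuous s)
    (hne : ∀ x y, s x ≠ g y) (hg0 : ∀ t, 0 ≤ (g t).re ∧ 0 ≤ (g t).im)
    (hs0 : ∀ t, 0 ≤ (s t).re ∧ 0 ≤ (s t).im) (h0 : (g 0).im = 0) (h1 : (g 1).re = 0)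
    (hz : s 0 = 0)
    (hs1 : (∀ t, (g t).re < (s 1).re) ∨ (∀ t, (g t).im < (s 1).im)) : False := by
  have hFc : Continuous (fun p : ℝ × ℝ => s p.1 - g p.2) := by fun_prop
  have hF0 : ∀ p : ℝ × ℝ, s p.1 - g p.2 ≠ 0 := fun p => sub_ne_zero.2 (hne _ _)
  obtain ⟨L, ⟨-, hL⟩, -⟩ := Complex.isCoveringMapOn_exp.existsUnique_continuousMap_lifts
    (⟨fun p : ℝ × ℝ => s p.1 - g p.2, hFc⟩ : C(ℝ × ℝ, ℂ)) (a₀ := (0, 0))
    (e₀ := Complex.log (s 0 - g 0)) (Complex.exp_log (hF0 (0, 0)))
    (fun p => hF0 p)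
  have hexp : ∀ p : ℝ × ℝ, Complex.exp (L p) = s p.1 - g p.2 := fun p => congrFun hL p
  have mem : ∀ z : ℂ, z ≠ 0 → 0 ≤ z.re → z ∈ Complex.slitPlane := by
    intro z hz hre
    rw [Complex.mem_slitPlane_iff]
    rcases hre.lt_or_eq with h | h
    · exact Or.inl h
    · refine Or.inr fun him => hz ?_
      exact Complex.ext h.symm him
  have ga : 0 < (g 0).re := by
    rcases (hg0 0).1.lt_or_eq with h | h
    · exact h
    · exact absurd (by rw [hz]; exact Complex.ext h h0.symm) (hne 0 0)
  have gb : 0 < (g 1).im := by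
    rcases (hg0 1).2.lt_or_eq with h | h
    · exact h
    · exact absurd (by rw [hz]; exact Complex.ext h1.symm h) (hne 0 1)
  have eg0 : g 0 = ((g 0).re : ℂ) := Complex.ext (by simp) (by simp [h0])
  have eg1 : g 1 = ((g 1).im : ℂ) * Complex.I := Complex.ext (by simp [h1]) (by simp)
  -- side one
  have S1 := side51 (c := fun t => s 0 - g t) (L := fun t => L (0, t)) (u := -1) (by fun_prop)
    (by fun_prop) (fun t => hexp (0, t)) (fun t _ => by
      refine mem _ (mul_ne_zero (by norm_num) (hF0 (0, t))) ?_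
      rw [hz]
      simpa using (hg0 t).1)
  have S2 := side51 (c := fun x => s x - g 1) (L := fun x => L (x, 1)) (u := 1) (by fun_prop)
    (by fun_prop) (fun x => hexp (x, 1)) (fun x _ => by
      refine mem _ (mul_ne_zero (by norm_num) (hF0 (x, 1))) ?_
      simpa [h1] using (hs0 x).1)
  have S4 := side51 (c := fun x => s x - g 0) (L := fun x => L (x, 0)) (u := -Complex.I)
    (by fun_prop) (by fun_prop) (fun x => hexp (x, 0)) (fun x _ => by
      refine mem _ (mul_ne_zero (by simp) (hF0 (x, 0))) ?_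
      simpa [h0] using (hs0 x).2)
  have v1 : Complex.arg (-1 * (s 0 - g 1)) = Real.pi / 2 := by
    have e : -1 * (s 0 - g 1) = ((g 1).im : ℂ) * Complex.I := by
      rw [hz, ← eg1]; ring
    rw [e, Complex.arg_real_mul _ gb, Complex.arg_I]
  have v0 : Complex.arg (-1 * (s 0 - g 0)) = 0 := by
    have e : -1 * (s 0 - g 0) = ((g 0).re : ℂ) := by
      rw [hz, ← eg0]; ring
    rw [e, Complex.arg_ofReal_of_nonneg ga.le]
  have v2 : Complex.arg (1 * (s 0 - g 1)) = -(Real.pi / 2) := by
    have e : 1 * (s 0 - g 1) = ((g 1).im : ℂ) * -Complex.I := by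
      rw [hz]
      linear_combination -eg1
    rw [e, Complex.arg_real_mul _ gb, Complex.arg_neg_I]
  have v4 : Complex.arg (-Complex.I * (s 0 - g 0)) = Real.pi / 2 := by
    have e : -Complex.I * (s 0 - g 0) = ((g 0).re : ℂ) * Complex.I := by
      rw [hz]
      linear_combination Complex.I * eg0
    rw [e, Complex.arg_real_mul _ ga, Complex.arg_I]
  simp only [v1, v0, v2, v4] at S1 S2 S4
  rw [one_mul] at S2
  have hpi := Real.pi_pos
  rcases hs1 with hs1 | hs1
  · have S3 := side51 (c := fun t => s 1 - g t) (L := fun t => L (1, t)) (u := 1) (by fun_prop)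
      (by fun_prop) (fun t => hexp (1, t)) (fun t _ => by
        refine mem _ (mul_ne_zero (by norm_num) (hF0 (1, t))) ?_
        simpa using (hs1 t).le)
    simp only [one_mul] at S3
    have a0 : 0 ≤ Complex.arg (s 1 - g 0) := by
      rw [Complex.arg_nonneg_iff, Complex.sub_im, h0, sub_zero]
      exact (hs0 1).2
    have a1 := Complex.arg_le_pi (-Complex.I * (s 1 - g 0))
    linarith
  · have S3 := side51 (c := fun t => s 1 - g t) (L := fun t => L (1, t)) (u := -Complex.I)
      (by fun_prop) (by fun_prop) (fun t => hexp (1, t)) (fun t _ => by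
        refine mem _ (mul_ne_zero (by simp) (hF0 (1, t))) ?_
        simpa using (hs1 t).le)
    have a0 : 0 ≤ Complex.arg (s 1 - g 1) := by
      rw [Complex.arg_nonneg_iff, Complex.sub_im]
      linarith [hs1 1]
    have a1 := Complex.arg_le_pi (-Complex.I * (s 1 - g 1))
    linarith

theorem cross {γ σ : ℝ → ℝ × ℝ} (hγ : ContinuousOn γ (Set.Icc 0 1))
    (hσ : ContinuousOn σ (Set.Icc 0 1))
    (hγ0 : ∀ t ∈ Set.Icc (0 : ℝ) 1, 0 ≤ (γ t).1 ∧ 0 ≤ (γ t).2)
    (hσ0 : ∀ t ∈ Set.Icc (0 : ℝ) 1, 0 ≤ (σ t).1 ∧ 0 ≤ (σ t).2)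
    (h0 : (γ 0).2 = 0) (h1 : (γ 1).1 = 0) (hs0 : σ 0 = (0, 0))
    (hs1 : (∀ t ∈ Set.Icc (0 : ℝ) 1, (γ t).1 < (σ 1).1) ∨
      (∀ t ∈ Set.Icc (0 : ℝ) 1, (γ t).2 < (σ 1).2)) :
    ∃ s ∈ Set.Icc (0 : ℝ) 1, ∃ t ∈ Set.Icc (0 : ℝ) 1, σ s = γ t := by
  by_contra hcon
  push Not at hcon
  set pr : ℝ → ℝ := fun t => max 0 (min 1 t) with hpr
  have prc : Continuous pr := by rw [hpr]; fun_prop
  have prm : ∀ t, pr t ∈ Set.Icc (0 : ℝ) 1 := fun t =>
    ⟨le_max_left _ _, max_le zero_le_one (min_le_left _ _)⟩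
  have pr0 : pr 0 = 0 := by simp [hpr]
  have pr1 : pr 1 = 1 := by simp [hpr]
  set tc : ℝ × ℝ → ℂ := fun q => (q.1 : ℂ) + q.2 * Complex.I with htc
  have tcc : Continuous tc := by rw [htc]; fun_prop
  have tre : ∀ q, (tc q).re = q.1 := fun q => by simp [htc]
  have tim : ∀ q, (tc q).im = q.2 := fun q => by simp [htc]
  have hG : Continuous fun t => γ (pr t) := hγ.comp_continuous prc prm
  have hS : Continuous fun t => σ (pr t) := hσ.comp_continuous prc prm
  refine cross_aux51 (g := fun t => tc (γ (pr t))) (s := fun t => tc (σ (pr t)))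
    (tcc.comp hG) (tcc.comp hS) ?_ ?_ ?_ ?_ ?_ ?_ ?_
  · intro x y he
    apply hcon (pr x) (prm x) (pr y) (prm y)
    exact Prod.ext (by rw [← tre, ← tre (γ (pr y))]; exact congrArg Complex.re he)
      (by rw [← tim, ← tim (γ (pr y))]; exact congrArg Complex.im he)
  · intro t
    simp only [tre, tim]
    exact hγ0 _ (prm t)
  · intro t
    simp only [tre, tim]
    exact hσ0 _ (prm t)
  · simp only [tim, pr0, h0]
  · simp only [tre, pr1, h1]
  · simp only [pr0, hs0, htc]
    simp
  · simp only [tre, tim, pr1]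
    rcases hs1 with h | h
    · exact Or.inl fun t => h _ (prm t)
    · exact Or.inr fun t => h _ (prm t)

end Pool.Agent.MFE
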