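import Pool.Agent.MFE.STA
import Pool.Agent.MFE.CAL

/-!
# MFE.STB: the explicit solution on the strip `{|y| < 1}` which decays to a one dimensional one

`0 < a`, `0 < k < π/2`, `k cot k = a tanh a` (`rel`), `c = 2k²/(a²+k²)`,
`D = cosh (k x) + cos (k y)`, `M(y) = cos (k y) cosh (a y) - (a/k) sin (k y) sinh (a y)`,
`W = (cosh (a y) - c M/D)/cosh a`, `V = -2 log W`.

Write `C = cosh ay`, `S = sinh ay`, `γ = cos ky`, `σ = sin ky`, `X = cosh kx`. Then
`M = γC - (a/k)σS`, `M' = -((a²+k²)/k) σC`, `M'' = -(a²+k²)(γC + (a/k)σS)`;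
`D_y = -kσ`, `D_x = k sinh kx`, `lap D = k²(X-γ)`, `|∇D|² = k²(X-γ)D`.
With `w = C - cM/D`: `lap w = a²C - cM''/D + 2cM'D_y/D² - cMk²(X-γ)/D²`,
`|∇w|² = c²M²k²(X-γ)/D³ + (aS - cM'/D)² + 2(aS - cM'/D) cM D_y/D²`, and
`w lap w - |∇w|² = a²` (for all `a`, `k ≠ 0`; collect powers of `1/D`, use `X - γ = D - 2γ`,
`C² - S² = 1`, `γ² + σ² = 1`): the `1/D³` terms cancel; `1/D`: `-CM'' - (a²+k²)CM + 2aSM' = 0`;
`1/D²`: `-2kσCM' + 2k²γCM + 2akσSM + c(MM'' - M'²) = 0`.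
Hence `W lap W - |∇W|² = a²/cosh² a = mu1 a / 2` (`wb_pde`), and for `V = -2 log W`:
`-lap V = 2 (W lap W - |∇W|²)/W² = mu1 a e^V` (`lap_log`).
`M(1) = 0` by `rel`; `M' < 0` on `(0,1]`, so `M > 0` on `|y| < 1`; `D ≥ 1 + γ > 1`.
`W_x = cM D_x/(D² cosh a) > 0` for `x > 0`, `|y| < 1`.
`cosh a · W_y = aS + 2kσC/D - (2k³/(a²+k²)) Mσ/D² ≥ aS + (2kσ/D)(C - γC/(1+γ)) > 0` for
`0 < y ≤ 1` (`0 < M ≤ γC`, `k²/(a²+k²) ≤ 1`, `D ≥ 1+γ`).
So on `|y| ≤ 1`: `W ≥ W(0,0) = (1 - k²/(a²+k²))/cosh a > 0`, `W = 1` for `|y| = 1`, `W < 1` inside.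
-/

open scoped ContDiff

namespace Pool.Agent.MFE

/-- parameters of the bump solutions -/
structure Bump (a k : ℝ) : Prop where
  a_pos : 0 < a
  k_pos : 0 < k
  k_lt : k < Real.pi / 2
  rel : k * Real.cos k * Real.cosh a = a * Real.sin k * Real.sinh a

/-- the numerator -/
noncomputable def Mb (a k y : ℝ) : ℝ :=
  Real.cos (k * y) * Real.cosh (a * y) - a / k * Real.sin (k * y) * Real.sinh (a * y)

/-- the denominator -/
noncomputable def Db (k : ℝ) (q : ℝ × ℝ) : ℝ := Real.cosh (k * q.1) + Real.cos (k * q.2)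

/-- `e^{-V/2}` -/
noncomputable def Wb (a k : ℝ) (q : ℝ × ℝ) : ℝ :=
  (Real.cosh (a * q.2) - 2 * k ^ 2 / (a ^ 2 + k ^ 2) * Mb a k q.2 / Db k q) / Real.cosh a

open Classical in
/-- the bump solution, extended by zero -/
noncomputable def VB (a k : ℝ) (q : ℝ × ℝ) : ℝ :=
  if |q.2| < 1 then -2 * Real.log (Wb a k q) else 0

/-- amplitude -/
noncomputable def pB (a k : ℝ) : ℝ := 2 * Real.log (Real.cosh a * (1 + k ^ 2 / a ^ 2))

/-- the algebraic identity behind `wb_pde` -/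
theorem STB_id {S σ Y X u p c C g k : ℝ} (h1 : S ^ 2 - C ^ 2 + 1 = 0)
    (h2 : σ ^ 2 + g ^ 2 - 1 = 0) (h3 : Y ^ 2 - X ^ 2 + 1 = 0) (h4 : u * X + u * g - 1 = 0)
    (h5 : c * p ^ 2 + c - 2 = 0) :
    (C - c * (g * C - p * σ * S) * u) *
      (c * (g * C - p * σ * S) * ((k ^ 2 * X) * u ^ 2 - 2 * (k * Y) ^ 2 * u ^ 3) +
        ((p * k) ^ 2 * C - c * (-k ^ 2 * (p ^ 2 + 1) * (g * C + p * σ * S)) * u
          + 2 * c * (-k * (p ^ 2 + 1) * σ * C) * (-k * σ) * u ^ 2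
          + c * (g * C - p * σ * S) * ((-(k ^ 2 * g)) * u ^ 2 - 2 * (-k * σ) ^ 2 * u ^ 3)))
      - (c * (g * C - p * σ * S) * (k * Y) * u ^ 2) ^ 2
      - (p * k * S - c * (-k * (p ^ 2 + 1) * σ * C) * u
          + c * (g * C - p * σ * S) * (-k * σ) * u ^ 2) ^ 2 - (p * k) ^ 2 = 0 := by
  linear_combination (σ^4*u^4*p^2*c^2*k^2 + σ^2*Y^2*u^4*p^2*c^2*k^2 - σ^2*X*u^3*p^2*c^2*k^2 + σ^2*u^3*p^2*c^2*g*k^2 + σ^2*u^2*p^4*c^2*k^2 + σ^2*u^2*p^2*c^2*k^2 - 2*σ^2*u^2*p^2*c*k^2 - p^2*k^2) * h1 + (- 2*S*σ*u^4*p*c^2*C*g*k^2 + 2*S*σ*u^3*p*c*C*k^2 + σ^2*u^4*p^2*c^2*C^2*k^2 - σ^2*u^4*p^2*c^2*k^2 + Y^2*u^4*p^2*c^2*C^2*k^2 - Y^2*u^4*p^2*c^2*k^2 - X*u^3*p^2*c^2*C^2*k^2 + X*u^3*p^2*c^2*k^2 - u^4*p^2*c^2*C^2*g^2*k^2 + u^4*p^2*c^2*C^2*k^2 + u^4*p^2*c^2*g^2*k^2 - u^4*p^2*c^2*k^2 + u^4*c^2*C^2*g^2*k^2 + u^3*p^2*c^2*C^2*g*k^2 - u^3*p^2*c^2*g*k^2 - 2*u^3*c*C^2*g*k^2 - u^2*p^4*c^2*k^2 - u^2*p^2*c^2*C^2*k^2 - u^2*p^2*c^2*k^2 + 2*u^2*p^2*c*k^2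 - u^2*c^2*C^2*k^2 + 2*u^2*c*C^2*k^2) * h2 + (- 2*S*σ*u^4*p*c^2*C*g*k^2 + 2*S*σ*u^3*p*c*C*k^2 - u^4*p^2*c^2*C^2*g^2*k^2 + u^4*p^2*c^2*C^2*k^2 + u^4*p^2*c^2*g^2*k^2 - u^4*p^2*c^2*k^2 + u^4*c^2*C^2*g^2*k^2 - 2*u^3*c*C^2*g*k^2) * h3 + (- 2*S*σ*X*u^3*p*c^2*C*g*k^2 + 2*S*σ*X*u^2*p*c*C*k^2 + 2*S*σ*u^3*p*c^2*C*g^2*k^2 - 2*S*σ*u^2*p*c*C*g*k^2 + S*σ*u*p*c*C*k^2 - X*u^3*p^2*c^2*C^2*g^2*k^2 + X*u^3*p^2*c^2*C^2*k^2 + X*u^3*p^2*c^2*g^2*k^2 - X*u^3*p^2*c^2*k^2 + X*u^3*c^2*C^2*g^2*k^2 - 2*X*u^2*c*C^2*g*k^2 + u^3*p^2*c^2*C^2*g^3*k^2 - u^3*p^2*c^2*C^2*g*k^2 - u^3*p^2*c^2*g^3*k^2 + u^3*p^2*c^2*g*k^2 - u^3*c^2*C^2*g^3*k^2 + 2*u^2*c*C^2*g^2*k^2 - u*c*C^2*g*k^2) * h4 + (u^2*p^2*c*g^2*k^2 - u^2*p^2*c*k^2 - u^2*c*C^2*k^2) * h5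

variable {a k : ℝ}

theorem STB_db_x (x y : ℝ) : HasDerivAt (fun s => Db k (s, y)) (k * Real.sinh (k * x)) x := by
  have h1 : HasDerivAt (fun s : ℝ => k * s) k x := by simpa using (hasDerivAt_id x).const_mul k
  have h2 : HasDerivAt (fun s : ℝ => Real.cosh (k * s)) (Real.sinh (k * x) * k) x :=
    HasDerivAt.comp (h₂ := Real.cosh) x (Real.hasDerivAt_cosh (k * x)) h1
  exact (h2.add_const (Real.cos (k * y))).congr_deriv (by ring)

theorem STB_db_y (x y : ℝ) : HasDerivAt (fun s => Db k (x, s)) (-(k * Real.sin (k * y))) y := by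
  have h1 : HasDerivAt (fun s : ℝ => k * s) k y := by simpa using (hasDerivAt_id y).const_mul k
  have h2 : HasDerivAt (fun s : ℝ => Real.cos (k * s)) (-Real.sin (k * y) * k) y :=
    HasDerivAt.comp (h₂ := Real.cos) y (Real.hasDerivAt_cos (k * y)) h1
  exact (h2.const_add (Real.cosh (k * x))).congr_deriv (by ring)

theorem STB_sin (b y : ℝ) : HasDerivAt (fun s : ℝ => Real.sin (b * s)) (b * Real.cos (b * y)) y := by
  have h1 : HasDerivAt (fun s : ℝ => b * s) b y := by simpa using (hasDerivAt_id y).const_mul b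
  exact (HasDerivAt.comp (h₂ := Real.sin) y (Real.hasDerivAt_sin (b * y)) h1).congr_deriv (by ring)

theorem STB_cos (b y : ℝ) : HasDerivAt (fun s : ℝ => Real.cos (b * s)) (-(b * Real.sin (b * y))) y := by
  have h1 : HasDerivAt (fun s : ℝ => b * s) b y := by simpa using (hasDerivAt_id y).const_mul b
  exact (HasDerivAt.comp (h₂ := Real.cos) y (Real.hasDerivAt_cos (b * y)) h1).congr_deriv (by ring)

theorem STB_sinh (b y : ℝ) :
    HasDerivAt (fun s : ℝ => Real.sinh (b * s)) (b * Real.cosh (b * y)) y := by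
  have h1 : HasDerivAt (fun s : ℝ => b * s) b y := by simpa using (hasDerivAt_id y).const_mul b
  exact (HasDerivAt.comp (h₂ := Real.sinh) y (Real.hasDerivAt_sinh (b * y)) h1).congr_deriv
    (by ring)

theorem STB_cosh (b y : ℝ) :
    HasDerivAt (fun s : ℝ => Real.cosh (b * s)) (b * Real.sinh (b * y)) y := by
  have h1 : HasDerivAt (fun s : ℝ => b * s) b y := by simpa using (hasDerivAt_id y).const_mul b
  exact (HasDerivAt.comp (h₂ := Real.cosh) y (Real.hasDerivAt_cosh (b * y)) h1).congr_deriv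
    (by ring)

/-- the derivative of `M` -/
noncomputable def STB_M1 (a k y : ℝ) : ℝ :=
  -((a ^ 2 + k ^ 2) / k) * (Real.sin (k * y) * Real.cosh (a * y))

/-- the second derivative of `M` -/
noncomputable def STB_M2 (a k y : ℝ) : ℝ :=
  -((a ^ 2 + k ^ 2) / k) * (k * Real.cos (k * y) * Real.cosh (a * y) +
    a * Real.sin (k * y) * Real.sinh (a * y))

theorem STB_mb (hk : k ≠ 0) (y : ℝ) : HasDerivAt (Mb a k) (STB_M1 a k y) y := by
  have h := ((STB_cos k y).mul (STB_cosh a y)).sub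
    (((STB_sin k y).const_mul (a / k)).mul (STB_sinh a y))
  refine h.congr_deriv ?_
  rw [STB_M1]
  field_simp
  ring

theorem STB_m1 (hk : k ≠ 0) (y : ℝ) : HasDerivAt (STB_M1 a k) (STB_M2 a k y) y := by
  have h := ((STB_sin k y).mul (STB_cosh a y)).const_mul (-((a ^ 2 + k ^ 2) / k))
  refine h.congr_deriv ?_
  rw [STB_M2]
  ring

/-- `∂W/∂x` -/
noncomputable def STB_wx (a k : ℝ) (q : ℝ × ℝ) : ℝ :=
  2 * k ^ 2 / (a ^ 2 + k ^ 2) * Mb a k q.2 * (k * Real.sinh (k * q.1)) / Db k q ^ 2 / Real.cosh a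

/-- `∂W/∂y` -/
noncomputable def STB_wy (a k : ℝ) (q : ℝ × ℝ) : ℝ :=
  (a * Real.sinh (a * q.2) - 2 * k ^ 2 / (a ^ 2 + k ^ 2) * STB_M1 a k q.2 / Db k q
    - 2 * k ^ 2 / (a ^ 2 + k ^ 2) * Mb a k q.2 * (k * Real.sin (k * q.2)) / Db k q ^ 2) / Real.cosh a

theorem STB_open : IsOpen {z : ℝ × ℝ | 0 < Db k z} := by
  have : Continuous (Db k) := by unfold Db; fun_prop
  exact isOpen_lt continuous_const this

theorem STB_mb_smooth : ContDiff ℝ ∞ (Mb a k) := by
  unfold Mb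
  fun_prop

theorem STB_db_smooth : ContDiff ℝ ∞ (Db k) := by
  unfold Db
  fun_prop

theorem STB_w_smooth {z : ℝ × ℝ} (hz : 0 < Db k z) : ContDiffAt ℝ ∞ (Wb a k) z := by
  have h1 : ContDiffAt ℝ ∞ (fun z : ℝ × ℝ => Mb a k z.2) z :=
    (STB_mb_smooth.comp contDiff_snd).contDiffAt
  have h2 : ContDiffAt ℝ ∞ (Db k) z := STB_db_smooth.contDiffAt
  have h3 : ContDiffAt ℝ ∞ (fun z : ℝ × ℝ => Real.cosh (a * z.2)) z := by fun_prop
  exact (h3.sub ((contDiffAt_const.mul h1).div h2 hz.ne')).div_const _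

theorem STB_wx_diff {z : ℝ × ℝ} (hz : 0 < Db k z) : DifferentiableAt ℝ (STB_wx a k) z := by
  have h1 : ContDiffAt ℝ ∞ (fun z : ℝ × ℝ => Mb a k z.2) z :=
    (STB_mb_smooth.comp contDiff_snd).contDiffAt
  have h2 : ContDiffAt ℝ ∞ (Db k) z := STB_db_smooth.contDiffAt
  have h3 : ContDiffAt ℝ ∞ (fun z : ℝ × ℝ => k * Real.sinh (k * z.1)) z := by fun_prop
  have h4 : ContDiffAt ℝ ∞ (STB_wx a k) z := (((contDiffAt_const.mul h1).mul h3).div (h2.pow 2)
    (pow_ne_zero 2 hz.ne')).div_const (Real.cosh a)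
  exact h4.differentiableAt (by simp)

theorem STB_wy_diff {z : ℝ × ℝ} (hz : 0 < Db k z) : DifferentiableAt ℝ (STB_wy a k) z := by
  have h1 : ContDiffAt ℝ ∞ (fun z : ℝ × ℝ => Mb a k z.2) z :=
    (STB_mb_smooth.comp contDiff_snd).contDiffAt
  have h2 : ContDiffAt ℝ ∞ (Db k) z := STB_db_smooth.contDiffAt
  have h3 : ContDiffAt ℝ ∞ (fun z : ℝ × ℝ => k * Real.sin (k * z.2)) z := by fun_prop
  have h5 : ContDiffAt ℝ ∞ (fun z : ℝ × ℝ => STB_M1 a k z.2) z := by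
    unfold STB_M1; fun_prop
  have h6 : ContDiffAt ℝ ∞ (fun z : ℝ × ℝ => a * Real.sinh (a * z.2)) z := by fun_prop
  have h4 : ContDiffAt ℝ ∞ (STB_wy a k) z :=
    ((h6.sub ((contDiffAt_const.mul h5).div h2 hz.ne')).sub
    (((contDiffAt_const.mul h1).mul h3).div (h2.pow 2)
    (pow_ne_zero 2 hz.ne'))).div_const (Real.cosh a)
  exact h4.differentiableAt (by simp)

theorem STB_dx {z : ℝ × ℝ} (hz : 0 < Db k z) : dx (Wb a k) z = STB_wx a k z := by
  refine (hasDerivAt_dx ((STB_w_smooth hz).differentiableAt (by simp))).unique ?_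
  have hz' : Db k (z.1, z.2) ≠ 0 := hz.ne'
  have h := ((((hasDerivAt_const z.1 (2 * k ^ 2 / (a ^ 2 + k ^ 2) * Mb a k z.2)).div
    (STB_db_x z.1 z.2) hz').const_sub (Real.cosh (a * z.2))).div_const (Real.cosh a))
  refine h.congr_deriv ?_
  rw [STB_wx]
  simp only [Prod.mk.eta]
  ring

theorem STB_dy (hk : k ≠ 0) {z : ℝ × ℝ} (hz : 0 < Db k z) : dy (Wb a k) z = STB_wy a k z := by
  refine (hasDerivAt_dy ((STB_w_smooth hz).differentiableAt (by simp))).unique ?_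
  have hz' : Db k (z.1, z.2) ≠ 0 := hz.ne'
  have h := (((STB_cosh a z.2).sub ((((STB_mb (a := a) hk z.2).const_mul
    (2 * k ^ 2 / (a ^ 2 + k ^ 2)))).div (STB_db_y z.1 z.2) hz')).div_const (Real.cosh a))
  refine h.congr_deriv ?_
  rw [STB_wy]
  simp only [Prod.mk.eta]
  have := hz.ne'
  field_simp
  ring

theorem STB_dxx {z : ℝ × ℝ} (hz : 0 < Db k z) : dx (dx (Wb a k)) z =
    2 * k ^ 2 / (a ^ 2 + k ^ 2) * Mb a k z.2 * (k ^ 2 * Real.cosh (k * z.1) / Db k z ^ 2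
      - 2 * (k * Real.sinh (k * z.1)) ^ 2 / Db k z ^ 3) / Real.cosh a := by
  rw [dx_congr STB_open (fun q hq => STB_dx hq) hz]
  refine (hasDerivAt_dx (STB_wx_diff hz)).unique ?_
  have hz' : Db k (z.1, z.2) ≠ 0 := hz.ne'
  have h2 : HasDerivAt (fun s => Db k (s, z.2) ^ 2)
      (2 * Db k z * (k * Real.sinh (k * z.1))) z.1 :=
    ((STB_db_x z.1 z.2).pow 2).congr_deriv (by simp)
  have h := ((((STB_sinh k z.1).const_mul k).const_mul
    (2 * k ^ 2 / (a ^ 2 + k ^ 2) * Mb a k z.2)).div h2 (pow_ne_zero 2 hz')).div_const (Real.cosh a)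
  refine h.congr_deriv ?_
  simp only [Prod.mk.eta]
  have := hz.ne'
  field_simp

theorem STB_dyy (hk : k ≠ 0) {z : ℝ × ℝ} (hz : 0 < Db k z) : dy (dy (Wb a k)) z =
    (a ^ 2 * Real.cosh (a * z.2) - 2 * k ^ 2 / (a ^ 2 + k ^ 2) * STB_M2 a k z.2 / Db k z
      - 2 * (2 * k ^ 2 / (a ^ 2 + k ^ 2)) * STB_M1 a k z.2 * (k * Real.sin (k * z.2)) / Db k z ^ 2
      - 2 * k ^ 2 / (a ^ 2 + k ^ 2) * Mb a k z.2 * (k ^ 2 * Real.cos (k * z.2) / Db k z ^ 2
      + 2 * (k * Real.sin (k * z.2)) ^ 2 / Db k z ^ 3)) / Real.cosh a := by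
  rw [dy_congr STB_open (fun q hq => STB_dy hk hq) hz]
  refine (hasDerivAt_dy (STB_wy_diff hz)).unique ?_
  have hz' : Db k (z.1, z.2) ≠ 0 := hz.ne'
  have h2 : HasDerivAt (fun s => Db k (z.1, s) ^ 2)
      (2 * Db k z * (-(k * Real.sin (k * z.2)))) z.2 :=
    ((STB_db_y z.1 z.2).pow 2).congr_deriv (by simp)
  have h3 := (((STB_mb (a := a) hk z.2).const_mul (2 * k ^ 2 / (a ^ 2 + k ^ 2))).mul
    ((STB_sin k z.2).const_mul k)).div h2 (pow_ne_zero 2 hz')
  have h4 := ((STB_m1 (a := a) hk z.2).const_mul (2 * k ^ 2 / (a ^ 2 + k ^ 2))).div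
    (STB_db_y z.1 z.2) hz'
  have h := ((((STB_sinh a z.2).const_mul a).sub h4).sub h3).div_const (Real.cosh a)
  refine h.congr_deriv ?_
  simp only [Prod.mk.eta, Pi.mul_apply]
  have := hz.ne'
  field_simp
  ring

theorem STB_cos_pos (hk : 0 < k) (hk2 : k < Real.pi / 2) {y : ℝ} (hy : |y| ≤ 1) :
    0 < Real.cos (k * y) := by
  refine Real.cos_pos_of_mem_Ioo ⟨?_, ?_⟩ <;> nlinarith [abs_le.1 hy]

theorem STB_sin_pos (hk : 0 < k) (hk2 : k < Real.pi / 2) {y : ℝ} (hy : 0 < y) (hy1 : y ≤ 1) :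
    0 < Real.sin (k * y) := by
  refine Real.sin_pos_of_pos_of_lt_pi (by positivity) ?_
  nlinarith [Real.pi_pos]

theorem Bump.a_lt (h : Bump a k) : a < ast := by
  rw [← tanh_lt_one_iff h.a_pos.le]
  have h1 := Real.lt_tan h.k_pos h.k_lt
  have hc : 0 < Real.cos k := by simpa using STB_cos_pos h.k_pos h.k_lt (y := 1) (by simp)
  have hs : 0 < Real.sin k := by simpa using STB_sin_pos h.k_pos h.k_lt one_pos le_rfl
  rw [Real.tan_eq_sin_div_cos, lt_div_iff₀ hc] at h1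
  have hch := Real.cosh_pos a
  rw [Real.tanh_eq_sinh_div_cosh, mul_div_assoc', div_lt_one hch]
  have h2 := h.rel
  have h3 : Real.sin k * (a * Real.sinh a) < Real.sin k * Real.cosh a := by nlinarith
  exact lt_of_mul_lt_mul_left h3 hs.le

theorem mb_one (h : Bump a k) : Mb a k 1 = 0 := by
  have := h.k_pos
  rw [Mb, mul_one, mul_one]
  have h2 := h.rel
  field_simp
  linarith

theorem STB_mb_even (y : ℝ) : Mb a k (-y) = Mb a k y := by
  rw [Mb, Mb, mul_neg, mul_neg, Real.cos_neg, Real.cosh_neg, Real.sin_neg, Real.sinh_neg]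
  ring

theorem STB_mb_abs (y : ℝ) : Mb a k |y| = Mb a k y := by
  rcases abs_cases y with ⟨h, _⟩ | ⟨h, _⟩
  · rw [h]
  · rw [h, STB_mb_even]

theorem STB_mb_anti (h : Bump a k) {L : ℝ} (hL : k * L < Real.pi / 2) :
    StrictAntiOn (Mb a k) (Set.Icc 0 L) := by
  have hk := h.k_pos
  have ha := h.a_pos
  refine strictAntiOn_of_deriv_neg (convex_Icc _ _) ?_ ?_
  · exact (continuous_iff_continuousAt.2 fun y => (STB_mb hk.ne' y).continuousAt).continuousOn
  · intro y hy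
    rw [interior_Icc] at hy
    rw [(STB_mb hk.ne' y).deriv, STB_M1]
    have h1 : 0 < Real.sin (k * y) := by
      refine Real.sin_pos_of_pos_of_lt_pi (mul_pos hk hy.1) ?_
      nlinarith [Real.pi_pos, hy.2]
    have h2 := Real.cosh_pos (a * y)
    have h3 : 0 < (a ^ 2 + k ^ 2) / k * (Real.sin (k * y) * Real.cosh (a * y)) := by positivity
    linarith

theorem mb_pos (h : Bump a k) {y : ℝ} (hy : |y| < 1) : 0 < Mb a k y := by
  rw [← STB_mb_abs, ← mb_one h]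
  exact STB_mb_anti h (L := 1) (by rw [mul_one]; exact h.k_lt) ⟨abs_nonneg _, hy.le⟩
    ⟨zero_le_one, le_rfl⟩ hy

theorem STB_mb_nonneg (h : Bump a k) {y : ℝ} (hy : |y| ≤ 1) : 0 ≤ Mb a k y := by
  rcases hy.lt_or_eq with h1 | h1
  · exact (mb_pos h h1).le
  · rw [← STB_mb_abs, h1, mb_one h]

theorem STB_mb_zero : Mb a k 0 = 1 := by
  simp [Mb]

theorem STB_mb_le (h : Bump a k) {y : ℝ} (hy : |y| ≤ 1) :
    Mb a k y ≤ Real.cos (k * y) * Real.cosh (a * y) := by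
  have key : ∀ z : ℝ, 0 ≤ z → z ≤ 1 → Mb a k z ≤ Real.cos (k * z) * Real.cosh (a * z) := by
    intro z hz hz1
    have hk := h.k_pos
    have ha := h.a_pos
    have h1 : 0 ≤ Real.sin (k * z) := by
      refine Real.sin_nonneg_of_nonneg_of_le_pi (by positivity) ?_
      nlinarith [Real.pi_pos, h.k_lt]
    have h2 : 0 ≤ Real.sinh (a * z) := Real.sinh_nonneg_iff.2 (by positivity)
    have h3 : 0 ≤ a / k * Real.sin (k * z) * Real.sinh (a * z) := by positivity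
    rw [Mb]; linarith
  rcases abs_cases y with ⟨h1, h2⟩ | ⟨h1, h2⟩
  · exact key y h2 (by linarith [abs_le.1 hy])
  · have := key (-y) (by linarith) (by linarith [(abs_le.1 hy).1])
    rwa [STB_mb_even, mul_neg, mul_neg, Real.cos_neg, Real.cosh_neg] at this

theorem STB_db_ge (x y : ℝ) : 1 + Real.cos (k * y) ≤ Db k (x, y) := by
  have := Real.one_le_cosh (k * x)
  simp only [Db]
  linarith

theorem STB_db_pos (h : Bump a k) {q : ℝ × ℝ} (hy : |q.2| ≤ 1) : 1 < Db k q := by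
  have h1 := STB_cos_pos h.k_pos h.k_lt hy
  have h2 := STB_db_ge (k := k) q.1 q.2
  simp only [Prod.mk.eta] at h2
  linarith

/-- the lower bound for `cosh a · W` -/
theorem STB_w_ge (h : Bump a k) {q : ℝ × ℝ} (hy : |q.2| ≤ 1) :
    2 * k ^ 2 / (a ^ 2 + k ^ 2) * Mb a k q.2 / Db k q ≤
      (k ^ 2 / (a ^ 2 + k ^ 2)) * Real.cosh (a * q.2) := by
  have hk := h.k_pos
  have ha := h.a_pos
  have h1 := STB_cos_pos hk h.k_lt hy
  have h2 := STB_db_ge (k := k) q.1 q.2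
  simp only [Prod.mk.eta] at h2
  have h3 := STB_mb_le h hy
  have h4 := STB_db_pos h hy
  have h5 := Real.cos_le_one (k * q.2)
  have h6 := Real.cosh_pos (a * q.2)
  have h7 : Mb a k q.2 * 2 ≤ Real.cosh (a * q.2) * Db k q := by
    have : Real.cos (k * q.2) * Real.cosh (a * q.2) * 2 ≤ Real.cosh (a * q.2) * Db k q := by
      nlinarith
    linarith
  rw [div_le_iff₀ (by linarith)]
  have h8 : 0 < k ^ 2 / (a ^ 2 + k ^ 2) := by positivity
  have h9 : 2 * k ^ 2 / (a ^ 2 + k ^ 2) = 2 * (k ^ 2 / (a ^ 2 + k ^ 2)) := by ring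
  rw [h9]
  nlinarith

theorem wb_lower (h : Bump a k) {q : ℝ × ℝ} (hy : |q.2| ≤ 1) :
    a ^ 2 / ((a ^ 2 + k ^ 2) * Real.cosh a) ≤ Wb a k q := by
  have hk := h.k_pos
  have ha := h.a_pos
  have h1 := STB_w_ge h hy
  have h2 := Real.one_le_cosh (a * q.2)
  have h3 := Real.cosh_pos a
  have h4 : a ^ 2 / (a ^ 2 + k ^ 2) = 1 - k ^ 2 / (a ^ 2 + k ^ 2) := by
    field_simp
    ring
  have h5 : 0 < a ^ 2 / (a ^ 2 + k ^ 2) := by positivity
  rw [Wb, ← div_div, div_le_div_iff_of_pos_right h3]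
  nlinarith

theorem STB_w_pos (h : Bump a k) {q : ℝ × ℝ} (hy : |q.2| ≤ 1) : 0 < Wb a k q := by
  have hk := h.k_pos
  have ha := h.a_pos
  have h3 := Real.cosh_pos a
  exact lt_of_lt_of_le (by positivity) (wb_lower h hy)

/-- a neighbourhood of the closed strip on which everything is smooth -/
theorem wb_nhd (h : Bump a k) : ∃ L : ℝ, 1 < L ∧ k * L < Real.pi / 2 ∧
    (∀ q : ℝ × ℝ, |q.2| < L → 0 < Wb a k q) ∧ ContDiffOn ℝ ∞ (Wb a k) (Str L) := by
  have hk := h.k_pos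
  have ha := h.a_pos
  obtain ⟨L, hL1, hL2⟩ := exists_between (show (1 : ℝ) < Real.pi / 2 / k by
    rw [lt_div_iff₀ hk, one_mul]; exact h.k_lt)
  have hL3 : k * L < Real.pi / 2 := by
    rw [lt_div_iff₀ hk] at hL2; linarith
  have hcos : ∀ y : ℝ, |y| < L → 0 < Real.cos (k * y) := by
    intro y hy
    have := abs_lt.1 hy
    refine Real.cos_pos_of_mem_Ioo ⟨?_, ?_⟩ <;> nlinarith
  have hD : ∀ q : ℝ × ℝ, |q.2| < L → 0 < Db k q := by
    intro q hq
    have h2 := STB_db_ge (k := k) q.1 q.2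
    simp only [Prod.mk.eta] at h2
    have := hcos q.2 hq
    linarith
  refine ⟨L, hL1, hL3, fun q hq => ?_, fun q hq => (STB_w_smooth (hD q hq)).contDiffWithinAt⟩
  rcases le_or_gt |q.2| 1 with h1 | h1
  · exact STB_w_pos h h1
  · have h2 : Mb a k q.2 ≤ 0 := by
      rw [← STB_mb_abs, ← mb_one h]
      exact ((STB_mb_anti h hL3) ⟨zero_le_one, hL1.le⟩ ⟨abs_nonneg _, hq.le⟩ h1).le
    have h3 := hD q hq
    have h4 : 2 * k ^ 2 / (a ^ 2 + k ^ 2) * Mb a k q.2 / Db k q ≤ 0 := by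
      refine div_nonpos_of_nonpos_of_nonneg ?_ h3.le
      exact mul_nonpos_of_nonneg_of_nonpos (by positivity) h2
    have h5 := Real.cosh_pos (a * q.2)
    rw [Wb]
    exact div_pos (by linarith) (Real.cosh_pos a)

theorem wb_pde (ha : 0 < a) (hk : 0 < k) {q : ℝ × ℝ} (hD : 0 < Db k q) :
    Wb a k q * lap (Wb a k) q - gdot (Wb a k) (Wb a k) q = mu1 a / 2 := by
  have hch := Real.cosh_pos a
  have h1 : Real.sinh (a * q.2) ^ 2 - Real.cosh (a * q.2) ^ 2 + 1 = 0 := by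
    have := Real.cosh_sq_sub_sinh_sq (a * q.2); linarith
  have h2 : Real.sin (k * q.2) ^ 2 + Real.cos (k * q.2) ^ 2 - 1 = 0 := by
    have := Real.sin_sq_add_cos_sq (k * q.2); linarith
  have h3 : Real.sinh (k * q.1) ^ 2 - Real.cosh (k * q.1) ^ 2 + 1 = 0 := by
    have := Real.cosh_sq_sub_sinh_sq (k * q.1); linarith
  have h4 : (Db k q)⁻¹ * Real.cosh (k * q.1) + (Db k q)⁻¹ * Real.cos (k * q.2) - 1 = 0 := by
    rw [← mul_add]
    have : Real.cosh (k * q.1) + Real.cos (k * q.2) = Db k q := rfl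
    rw [this, inv_mul_cancel₀ hD.ne', sub_self]
  have h5 : 2 * k ^ 2 / (a ^ 2 + k ^ 2) * (a / k) ^ 2 + 2 * k ^ 2 / (a ^ 2 + k ^ 2) - 2 = 0 := by
    field_simp
    ring
  have key := STB_id (k := k) h1 h2 h3 h4 h5
  have hpk : a / k * k = a := div_mul_cancel₀ a hk.ne'
  rw [lap, gdot, STB_dxx hD, STB_dyy hk.ne' hD, STB_dx hD, STB_dy hk.ne' hD, Wb, STB_wx, STB_wy,
    mu1]
  have e1 : STB_M1 a k q.2 = -k * ((a / k) ^ 2 + 1) * Real.sin (k * q.2) * Real.cosh (a * q.2) := by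
    rw [STB_M1]; field_simp
  have e2 : STB_M2 a k q.2 = -k ^ 2 * ((a / k) ^ 2 + 1) * (Real.cos (k * q.2) *
      Real.cosh (a * q.2) + a / k * Real.sin (k * q.2) * Real.sinh (a * q.2)) := by
    rw [STB_M2]; field_simp
  have e3 : Mb a k q.2 = Real.cos (k * q.2) * Real.cosh (a * q.2) - a / k * Real.sin (k * q.2) *
      Real.sinh (a * q.2) := rfl
  rw [e1, e2, e3]
  rw [hpk] at key
  generalize Real.sinh (a * q.2) = S at *
  generalize Real.cosh (a * q.2) = C at *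
  generalize Real.sin (k * q.2) = σ at *
  generalize Real.cos (k * q.2) = g at *
  generalize Real.sinh (k * q.1) = Y at *
  generalize Real.cosh (k * q.1) = X at *
  generalize Real.cosh a = A at *
  simp only [div_eq_mul_inv _ (Db k q), div_eq_mul_inv _ (Db k q ^ 2),
    div_eq_mul_inv _ (Db k q ^ 3)]
  have e4 : (Db k q ^ 2)⁻¹ = (Db k q)⁻¹ ^ 2 := (inv_pow _ _).symm
  have e5 : (Db k q ^ 3)⁻¹ = (Db k q)⁻¹ ^ 3 := (inv_pow _ _).symm
  rw [e4, e5]
  generalize (Db k q)⁻¹ = u at *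
  generalize 2 * k ^ 2 / (a ^ 2 + k ^ 2) = c at *
  generalize a / k = p at *
  rw [← sub_eq_zero]
  have hA : A ≠ 0 := hch.ne'
  field_simp
  linear_combination key

theorem wb_dx_pos (h : Bump a k) {q : ℝ × ℝ} (hx : 0 < q.1) (hy : |q.2| < 1) :
    0 < dx (Wb a k) q := by
  have hk := h.k_pos
  have ha := h.a_pos
  have hD := STB_db_pos h hy.le
  have hD0 : 0 < Db k q := by linarith
  rw [STB_dx hD0, STB_wx]
  have h1 := mb_pos h hy
  have h2 : 0 < Real.sinh (k * q.1) := Real.sinh_pos_iff.2 (mul_pos hk hx)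
  have h3 := Real.cosh_pos a
  positivity

theorem STB_wy_ge (h : Bump a k) {q : ℝ × ℝ} (hy : 0 < q.2) (hy1 : q.2 ≤ 1) :
    a * Real.sinh (a * q.2) / Real.cosh a ≤ STB_wy a k q := by
  have hk := h.k_pos
  have ha := h.a_pos
  have hab : |q.2| ≤ 1 := by rw [abs_of_pos hy]; exact hy1
  have hD := STB_db_pos h hab
  have hD0 : 0 < Db k q := by linarith
  have h1 := STB_w_ge h hab
  have h2 := STB_sin_pos hk h.k_lt hy hy1
  have h3 := Real.cosh_pos a
  have h4 := Real.cosh_pos (a * q.2)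
  rw [STB_wy, div_le_div_iff_of_pos_right h3]
  have e1 : 2 * k ^ 2 / (a ^ 2 + k ^ 2) * STB_M1 a k q.2 / Db k q =
      -(2 * k * Real.sin (k * q.2) * Real.cosh (a * q.2) / Db k q) := by
    rw [STB_M1]
    field_simp
  have e2 : 2 * k ^ 2 / (a ^ 2 + k ^ 2) * Mb a k q.2 * (k * Real.sin (k * q.2)) / Db k q ^ 2 =
      (2 * k ^ 2 / (a ^ 2 + k ^ 2) * Mb a k q.2 / Db k q) * (k * Real.sin (k * q.2) / Db k q) := by
    field_simp
  rw [e1, e2]
  have h5 : 0 < k * Real.sin (k * q.2) / Db k q := by positivity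
  have h6 : k ^ 2 / (a ^ 2 + k ^ 2) ≤ 1 := by
    rw [div_le_one (by positivity)]
    nlinarith [sq_nonneg a]
  have h7 : 2 * k ^ 2 / (a ^ 2 + k ^ 2) * Mb a k q.2 / Db k q ≤ Real.cosh (a * q.2) := by
    nlinarith
  have h8 : 2 * k * Real.sin (k * q.2) * Real.cosh (a * q.2) / Db k q =
      2 * Real.cosh (a * q.2) * (k * Real.sin (k * q.2) / Db k q) := by ring
  rw [h8]
  nlinarith

theorem wb_dy_pos (h : Bump a k) {q : ℝ × ℝ} (hy : 0 < q.2) (hy1 : q.2 ≤ 1) :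
    0 < dy (Wb a k) q := by
  have hk := h.k_pos
  have ha := h.a_pos
  have hab : |q.2| ≤ 1 := by rw [abs_of_pos hy]; exact hy1
  have hD := STB_db_pos h hab
  rw [STB_dy hk.ne' (by linarith)]
  refine lt_of_lt_of_le ?_ (STB_wy_ge h hy hy1)
  have h1 : 0 < Real.sinh (a * q.2) := Real.sinh_pos_iff.2 (mul_pos ha hy)
  have h3 := Real.cosh_pos a
  positivity

theorem wb_one (h : Bump a k) {q : ℝ × ℝ} (hy : |q.2| = 1) : Wb a k q = 1 := by
  have h1 : Mb a k q.2 = 0 := by rw [← STB_mb_abs, hy, mb_one h]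
  have h2 : Real.cosh (a * q.2) = Real.cosh a := by
    rw [← Real.cosh_abs, abs_mul, hy, mul_one, Real.cosh_abs]
  rw [Wb, h1, h2, mul_zero, zero_div, sub_zero, div_self (Real.cosh_pos a).ne']

theorem STB_w_le (h : Bump a k) {q : ℝ × ℝ} (hy : |q.2| ≤ 1) :
    Wb a k q ≤ Real.cosh (a * q.2) / Real.cosh a := by
  have hk := h.k_pos
  have ha := h.a_pos
  have hD := STB_db_pos h hy
  have hD0 : 0 < Db k q := by linarith
  have h1 := STB_mb_nonneg h hy
  have h2 : 0 ≤ 2 * k ^ 2 / (a ^ 2 + k ^ 2) * Mb a k q.2 / Db k q := by positivity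
  rw [Wb, div_le_div_iff_of_pos_right (Real.cosh_pos a)]
  linarith

theorem wb_lt_one (h : Bump a k) {q : ℝ × ℝ} (hy : |q.2| < 1) : Wb a k q < 1 := by
  refine lt_of_le_of_lt (STB_w_le h hy.le) ?_
  rw [div_lt_one (Real.cosh_pos a), Real.cosh_lt_cosh, abs_mul]
  have : 0 < |a| := abs_pos.2 h.a_pos.ne'
  nlinarith

theorem STB_vb_in {q : ℝ × ℝ} (hq : q ∈ Str 1) : VB a k q = -2 * Real.log (Wb a k q) := by
  rw [VB, if_pos]
  exact hq

theorem STB_vb_cl (h : Bump a k) {q : ℝ × ℝ} (hq : |q.2| ≤ 1) :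
    VB a k q = -2 * Real.log (Wb a k q) := by
  rcases hq.lt_or_eq with h1 | h1
  · exact STB_vb_in h1
  · rw [VB, if_neg (by rw [h1]; exact lt_irrefl _), wb_one h h1, Real.log_one, mul_zero]

theorem STB_vb_out {q : ℝ × ℝ} (hq : 1 ≤ |q.2|) : VB a k q = 0 := by
  rw [VB, if_neg (not_lt.2 hq)]

theorem vb_cont (h : Bump a k) : Continuous (VB a k) := by
  have hclip : ∀ t : ℝ, |max (-1) (min t 1)| ≤ 1 := by
    intro t
    rw [abs_le]
    exact ⟨le_max_left _ _, max_le (by norm_num) (min_le_right _ _)⟩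
  have e : VB a k = fun q => -2 * Real.log (Wb a k (q.1, max (-1) (min q.2 1))) := by
    funext q
    rcases le_or_gt |q.2| 1 with h1 | h1
    · have h2 := abs_le.1 h1
      rw [min_eq_left h2.2, max_eq_right h2.1, STB_vb_cl h h1]
    · rw [STB_vb_out h1.le]
      have h3 : |max (-1) (min q.2 1)| = 1 := by
        rcases lt_abs.1 h1 with h4 | h4
        · rw [min_eq_right h4.le]; norm_num
        · rw [min_eq_left (by linarith), max_eq_left (by linarith)]; norm_num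
      rw [wb_one h (q := (q.1, max (-1) (min q.2 1))) h3, Real.log_one, mul_zero]
  rw [e]
  have h1 : Continuous fun q : ℝ × ℝ => Wb a k (q.1, max (-1) (min q.2 1)) := by
    rw [continuous_iff_continuousAt]
    intro q
    have h2 : ContinuousAt (Wb a k) (q.1, max (-1) (min q.2 1)) := by
      refine (STB_w_smooth ?_).continuousAt
      have := STB_db_pos h (q := (q.1, max (-1) (min q.2 1))) (hclip q.2)
      linarith
    have h3 : Continuous fun q : ℝ × ℝ => (q.1, max (-1) (min q.2 1)) := by fun_prop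
    exact ContinuousAt.comp (g := Wb a k) h2 h3.continuousAt
  exact continuous_const.mul (h1.log fun q => (STB_w_pos h (hclip q.2)).ne')

theorem STB_str_open : IsOpen (Str 1) :=
  isOpen_lt (continuous_abs.comp continuous_snd) continuous_const

theorem STB_w_smooth_on (h : Bump a k) : ContDiffOn ℝ ∞ (Wb a k) (Str 1) := fun q hq => by
  have := STB_db_pos h (le_of_lt hq)
  exact (STB_w_smooth (by linarith)).contDiffWithinAt

theorem vb_smooth (h : Bump a k) : ContDiffOn ℝ ∞ (VB a k) (Str 1) := by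
  have h1 : ContDiffOn ℝ ∞ (fun q => -2 * Real.log (Wb a k q)) (Str 1) :=
    contDiffOn_const.mul ((STB_w_smooth_on h).log fun q hq => (STB_w_pos h (le_of_lt hq)).ne')
  exact h1.congr fun q hq => STB_vb_in hq

theorem vb_eq (h : Bump a k) : ∀ q ∈ Str 1, -lap (VB a k) q = mu1 a * Real.exp (VB a k q) := by
  intro q hq
  have hW := STB_w_pos h (le_of_lt hq)
  have hD := STB_db_pos h (le_of_lt hq)
  have h2 : ContDiffOn ℝ 2 (Wb a k) (Str 1) := by
    exact_mod_cast contDiffOn_infty.1 (STB_w_smooth_on h) 2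
  have h3 : ContDiffOn ℝ 2 (fun q => Real.log (Wb a k q)) (Str 1) :=
    h2.log fun q hq => (STB_w_pos h (le_of_lt hq)).ne'
  rw [lap_congr STB_str_open (fun z hz => STB_vb_in hz) hq,
    lap_const_mul STB_str_open (-2) h3 hq,
    lap_log STB_str_open h2 (fun z hz => STB_w_pos h (le_of_lt hz)) hq,
    wb_pde h.a_pos h.k_pos (by linarith), STB_vb_in hq]
  have e : Real.exp (-2 * Real.log (Wb a k q)) = 1 / Wb a k q ^ 2 := by
    have : -2 * Real.log (Wb a k q) = -(Real.log (Wb a k q) + Real.log (Wb a k q)) := by ring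
    rw [this, Real.exp_neg, Real.exp_add, Real.exp_log hW]
    field_simp
  rw [e]
  field_simp

theorem STB_w_evx (x y : ℝ) : Wb a k (-x, y) = Wb a k (x, y) := by
  simp only [Wb, Db, mul_neg, Real.cosh_neg]

theorem STB_w_evy (x y : ℝ) : Wb a k (x, -y) = Wb a k (x, y) := by
  simp only [Wb, Db, mul_neg, Real.cosh_neg, Real.cos_neg, STB_mb_even]

theorem vb_evx : EvX (VB a k) := by
  intro x y
  simp only [VB, STB_w_evx]

theorem vb_evy : EvY (VB a k) := by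
  intro x y
  simp only [VB, STB_w_evy, abs_neg]

theorem vb_pos (h : Bump a k) : ∀ q ∈ Str 1, 0 < VB a k q := by
  intro q hq
  rw [STB_vb_in hq]
  have := Real.log_neg (STB_w_pos h (le_of_lt hq)) (wb_lt_one h hq)
  linarith

theorem STB_vdx (h : Bump a k) {q : ℝ × ℝ} (hq : q ∈ Str 1) :
    dx (VB a k) q = -2 * (dx (Wb a k) q / Wb a k q) := by
  have hW := STB_w_pos h (le_of_lt hq)
  have hD := STB_db_pos h (le_of_lt hq)
  have hd : DifferentiableAt ℝ (Wb a k) q := (STB_w_smooth (by linarith)).differentiableAt (by simp)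
  rw [dx_congr STB_str_open (fun z hz => STB_vb_in hz) hq,
    dx_const_mul (-2) (hd.log hW.ne'), dx_comp hd (Real.differentiableAt_log hW.ne'),
    Real.deriv_log]
  ring

theorem STB_vdy (h : Bump a k) {q : ℝ × ℝ} (hq : q ∈ Str 1) :
    dy (VB a k) q = -2 * (dy (Wb a k) q / Wb a k q) := by
  have hW := STB_w_pos h (le_of_lt hq)
  have hD := STB_db_pos h (le_of_lt hq)
  have hd : DifferentiableAt ℝ (Wb a k) q := (STB_w_smooth (by linarith)).differentiableAt (by simp)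
  rw [dy_congr STB_str_open (fun z hz => STB_vb_in hz) hq,
    dy_const_mul (-2) (hd.log hW.ne'), dy_comp hd (Real.differentiableAt_log hW.ne'),
    Real.deriv_log]
  ring

theorem vb_dx_neg (h : Bump a k) : ∀ q ∈ Str 1, 0 < q.1 → dx (VB a k) q < 0 := by
  intro q hq hx
  rw [STB_vdx h hq]
  have h1 : 0 < dx (Wb a k) q / Wb a k q := div_pos (wb_dx_pos h hx hq) (STB_w_pos h (le_of_lt hq))
  linarith

theorem vb_dy_neg (h : Bump a k) : ∀ q ∈ Str 1, 0 < q.2 → dy (VB a k) q < 0 := by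
  intro q hq hx
  rw [STB_vdy h hq]
  have h1 : 0 < dy (Wb a k) q / Wb a k q :=
    div_pos (wb_dy_pos h hx (le_of_lt (lt_of_le_of_lt (le_abs_self _) hq)))
      (STB_w_pos h (le_of_lt hq))
  linarith

theorem STB_pb (h : Bump a k) :
    -2 * Real.log (a ^ 2 / ((a ^ 2 + k ^ 2) * Real.cosh a)) = pB a k := by
  have hk := h.k_pos
  have ha := h.a_pos
  have h3 := Real.cosh_pos a
  have e : a ^ 2 / ((a ^ 2 + k ^ 2) * Real.cosh a) = (Real.cosh a * (1 + k ^ 2 / a ^ 2))⁻¹ := by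
    field_simp
  rw [e, Real.log_inv, pB]
  ring

theorem vb_zero (h : Bump a k) : VB a k (0, 0) = pB a k := by
  have hk := h.k_pos
  have ha := h.a_pos
  have h3 := Real.cosh_pos a
  rw [STB_vb_cl h (by simp), ← STB_pb h]
  congr 2
  simp only [Wb, Db, mul_zero, Real.cosh_zero, Real.cos_zero, STB_mb_zero]
  field_simp
  ring

theorem vb_le (h : Bump a k) (q : ℝ × ℝ) : 0 ≤ VB a k q ∧ VB a k q ≤ pB a k := by
  have hk := h.k_pos
  have ha := h.a_pos
  have h3 := Real.cosh_pos a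
  rcases lt_or_ge |q.2| 1 with h1 | h1
  · refine ⟨(vb_pos h q h1).le, ?_⟩
    rw [STB_vb_in h1, ← STB_pb h]
    have h2 := Real.log_le_log (by positivity) (wb_lower h h1.le)
    linarith
  · rw [STB_vb_out h1]
    refine ⟨le_rfl, ?_⟩
    rw [pB]
    have h4 : 1 ≤ Real.cosh a * (1 + k ^ 2 / a ^ 2) := by
      have h5 := Real.one_le_cosh a
      have h6 : 0 ≤ k ^ 2 / a ^ 2 := by positivity
      nlinarith
    have := Real.log_nonneg h4
    linarith

/-- exponential convergence to the one dimensional profile: `|M| ≤ cosh a`, `D ≥ cosh kx` -/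
theorem vb_far (h : Bump a k) : ∃ C : ℝ, 0 < C ∧ ∀ q : ℝ × ℝ, |q.2| ≤ 1 →
    V1 a q.2 ≤ VB a k q ∧ VB a k q ≤ V1 a q.2 + C * Real.exp (-k * |q.1|) := by
  have hk := h.k_pos
  have ha := h.a_pos
  have h3 := Real.cosh_pos a
  refine ⟨8 * (a ^ 2 + k ^ 2) / a ^ 2, by positivity, fun q hq => ?_⟩
  have hW := STB_w_pos h hq
  have hC := Real.cosh_pos (a * q.2)
  have hle := STB_w_le h hq
  have hV1 : V1 a q.2 = -2 * Real.log (Real.cosh (a * q.2) / Real.cosh a) := by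
    rw [STA_V1_eq]
    simp only
    rw [Real.log_div hC.ne' h3.ne']
    ring
  rw [STB_vb_cl h hq, hV1]
  refine ⟨by linarith [Real.log_le_log hW hle], ?_⟩
  have hD := STB_db_pos h hq
  have hD0 : 0 < Db k q := by linarith
  -- the ratio
  set t : ℝ := 2 * k ^ 2 / (a ^ 2 + k ^ 2) * Mb a k q.2 / Db k q / Real.cosh (a * q.2) with ht
  have ht0 : 0 ≤ t := by
    have := STB_mb_nonneg h hq
    positivity
  have ht1 : t ≤ k ^ 2 / (a ^ 2 + k ^ 2) := by
    rw [ht, div_le_iff₀ hC]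
    exact STB_w_ge h hq
  have hWt : Wb a k q = Real.cosh (a * q.2) / Real.cosh a * (1 - t) := by
    rw [ht, Wb]
    field_simp
  have h1t : a ^ 2 / (a ^ 2 + k ^ 2) ≤ 1 - t := by
    have h4 : a ^ 2 / (a ^ 2 + k ^ 2) = 1 - k ^ 2 / (a ^ 2 + k ^ 2) := by
      field_simp
      ring
    linarith
  have hpos : 0 < a ^ 2 / (a ^ 2 + k ^ 2) := by positivity
  have h1t0 : 0 < 1 - t := by linarith
  have hlog : Real.log (Wb a k q) = Real.log (Real.cosh (a * q.2) / Real.cosh a) +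
      Real.log (1 - t) := by
    rw [hWt, Real.log_mul (by positivity) h1t0.ne']
  have h5 : -Real.log (1 - t) ≤ t * ((a ^ 2 + k ^ 2) / a ^ 2) := by
    have h6 := Real.log_le_sub_one_of_pos (inv_pos.2 h1t0)
    rw [Real.log_inv] at h6
    have h7 : (1 - t)⁻¹ - 1 = t * (1 - t)⁻¹ := by field_simp; ring
    rw [h7] at h6
    have h8 : (1 - t)⁻¹ ≤ (a ^ 2 + k ^ 2) / a ^ 2 := by
      rw [← inv_div]
      exact inv_anti₀ hpos h1t
    exact h6.trans (mul_le_mul_of_nonneg_left h8 ht0)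
  have h9 : t ≤ 4 * Real.exp (-k * |q.1|) := by
    have g1 : Mb a k q.2 ≤ Real.cosh (a * q.2) := by
      have := STB_mb_le h hq
      have g2 := Real.cos_le_one (k * q.2)
      nlinarith
    have g3 : Real.exp (k * |q.1|) / 2 ≤ Db k q := by
      have g4 : Real.exp (k * |q.1|) / 2 ≤ Real.cosh (k * q.1) := by
        rw [← Real.cosh_abs, abs_mul, abs_of_pos hk, Real.cosh_eq]
        have := Real.exp_pos (-(k * |q.1|))
        linarith
      have g5 := STB_cos_pos hk h.k_lt hq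
      simp only [Db]
      linarith
    have g6 : 2 * k ^ 2 / (a ^ 2 + k ^ 2) ≤ 2 := by
      rw [div_le_iff₀ (by positivity)]
      nlinarith [sq_nonneg a]
    have g7 := Real.exp_pos (k * |q.1|)
    have g8 : Real.exp (-k * |q.1|) = (Real.exp (k * |q.1|))⁻¹ := by
      rw [← Real.exp_neg]; congr 1; ring
    rw [ht, g8, div_le_iff₀ hC, div_le_iff₀ hD0]
    have g9 := STB_mb_nonneg h hq
    have g10 : 2 * k ^ 2 / (a ^ 2 + k ^ 2) * Mb a k q.2 ≤ 2 * Real.cosh (a * q.2) :=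
      (mul_le_mul_of_nonneg_right g6 g9).trans (by linarith)
    refine g10.trans ?_
    have g11 : (1 : ℝ) / 2 ≤ (Real.exp (k * |q.1|))⁻¹ * Db k q := by
      rw [inv_mul_eq_div, le_div_iff₀ g7]
      linarith
    calc 2 * Real.cosh (a * q.2) = 4 * (1 / 2) * Real.cosh (a * q.2) := by ring
      _ ≤ 4 * ((Real.exp (k * |q.1|))⁻¹ * Db k q) * Real.cosh (a * q.2) := by gcongr
      _ = 4 * (Real.exp (k * |q.1|))⁻¹ * Real.cosh (a * q.2) * Db k q := by ring
  rw [hlog]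
  have h10 : t * ((a ^ 2 + k ^ 2) / a ^ 2) ≤ 4 * Real.exp (-k * |q.1|) * ((a ^ 2 + k ^ 2) / a ^ 2) :=
    mul_le_mul_of_nonneg_right h9 (by positivity)
  have h11 : 8 * (a ^ 2 + k ^ 2) / a ^ 2 * Real.exp (-k * |q.1|) =
      2 * (4 * Real.exp (-k * |q.1|) * ((a ^ 2 + k ^ 2) / a ^ 2)) := by ring
  rw [h11]
  linarith

/-- the Euler derivative is bounded and does not vanish on the boundary -/
theorem vb_euler (h : Bump a k) : (∃ C : ℝ, ∀ q ∈ Str 1,
      |q.1 * dx (VB a k) q + q.2 * dy (VB a k) q| ≤ C) ∧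
    ∃ c : ℝ, 0 < c ∧ ∃ r : ℝ, r < 1 ∧ ∀ y : ℝ, r < y → y < 1 → dy (VB a k) (0, y) ≤ -c := by
  have hk := h.k_pos
  have ha := h.a_pos
  have h3 := Real.cosh_pos a
  set w0 : ℝ := a ^ 2 / ((a ^ 2 + k ^ 2) * Real.cosh a) with hw0
  have hw0p : 0 < w0 := by positivity
  constructor
  · refine ⟨2 * (2 / w0) + 2 * ((a + 4 * k) / w0), fun q hq => ?_⟩
    have hy : |q.2| ≤ 1 := le_of_lt hq
    have hW := STB_w_pos h hy
    have hWl := wb_lower h hy
    have hD := STB_db_pos h hy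
    have hD0 : 0 < Db k q := by linarith
    have hC := Real.cosh_pos (a * q.2)
    have hCle : Real.cosh (a * q.2) ≤ Real.cosh a := by
      rw [Real.cosh_le_cosh, abs_mul]
      have := abs_nonneg a
      nlinarith
    have hM0 := STB_mb_nonneg h hy
    have hMle : Mb a k q.2 ≤ Real.cosh a := by
      have g1 := STB_mb_le h hy
      have g2 := Real.cos_le_one (k * q.2)
      nlinarith
    have g6 : 2 * k ^ 2 / (a ^ 2 + k ^ 2) ≤ 2 := by
      rw [div_le_iff₀ (by positivity)]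
      nlinarith [sq_nonneg a]
    have g60 : 0 < 2 * k ^ 2 / (a ^ 2 + k ^ 2) := by positivity
    -- the x part
    have hx : |q.1 * dx (Wb a k) q| ≤ 2 := by
      rw [STB_dx hD0, STB_wx]
      have e : q.1 * (2 * k ^ 2 / (a ^ 2 + k ^ 2) * Mb a k q.2 * (k * Real.sinh (k * q.1)) /
          Db k q ^ 2 / Real.cosh a) = (2 * k ^ 2 / (a ^ 2 + k ^ 2)) * (Mb a k q.2 / Real.cosh a) *
          ((k * q.1) / Db k q) * (Real.sinh (k * q.1) / Db k q) := by
        field_simp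
      rw [e, abs_mul, abs_mul, abs_mul, abs_of_pos g60]
      have hcx : Real.cosh (k * q.1) ≤ Db k q := by
        have := STB_cos_pos hk h.k_lt hy
        simp only [Db]; linarith
      have a1 : |Mb a k q.2 / Real.cosh a| ≤ 1 := by
        rw [abs_of_nonneg (by positivity), div_le_one h3]
        exact hMle
      have a2 : |k * q.1 / Db k q| ≤ 1 := by
        rw [abs_div, abs_of_pos hD0, div_le_one hD0]
        refine le_trans ?_ hcx
        rw [← Real.cosh_abs]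
        have b1 := Real.quadratic_le_exp_of_nonneg (abs_nonneg (k * q.1))
        have b2 := Real.cosh_eq |k * q.1|
        have b3 := Real.exp_pos (-|k * q.1|)
        nlinarith [sq_nonneg (|k * q.1| - 1)]
      have a3 : |Real.sinh (k * q.1) / Db k q| ≤ 1 := by
        rw [abs_div, abs_of_pos hD0, div_le_one hD0]
        refine le_trans ?_ hcx
        have c1 := Real.cosh_sq_sub_sinh_sq (k * q.1)
        refine abs_le_of_sq_le_sq' ?_ (Real.cosh_pos _).le |> abs_le.2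
        linarith
      calc 2 * k ^ 2 / (a ^ 2 + k ^ 2) * |Mb a k q.2 / Real.cosh a| * |k * q.1 / Db k q| *
            |Real.sinh (k * q.1) / Db k q| ≤ 2 * 1 * 1 * 1 := by gcongr
        _ = 2 := by norm_num
    -- the y part
    have hyy : |q.2 * dy (Wb a k) q| ≤ a + 4 * k := by
      rw [STB_dy hk.ne' hD0, STB_wy]
      have e1 : 2 * k ^ 2 / (a ^ 2 + k ^ 2) * STB_M1 a k q.2 / Db k q =
          -(2 * k * Real.sin (k * q.2) * Real.cosh (a * q.2) / Db k q) := by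
        rw [STB_M1]
        field_simp
      rw [e1]
      have hs := Real.abs_sin_le_one (k * q.2)
      have d1 : |a * Real.sinh (a * q.2)| ≤ a * Real.cosh a := by
        rw [abs_mul, abs_of_pos ha]
        refine mul_le_mul_of_nonneg_left ?_ ha.le
        refine le_trans ?_ hCle
        have c1 := Real.cosh_sq_sub_sinh_sq (a * q.2)
        refine abs_le_of_sq_le_sq' ?_ (Real.cosh_pos _).le |> abs_le.2
        linarith
      have d2 : |2 * k * Real.sin (k * q.2) * Real.cosh (a * q.2) / Db k q| ≤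
          2 * k * Real.cosh a := by
        rw [abs_div, abs_of_pos hD0, div_le_iff₀ hD0, abs_mul, abs_mul, abs_of_pos hC,
          abs_of_pos (by positivity : 0 < 2 * k)]
        calc 2 * k * |Real.sin (k * q.2)| * Real.cosh (a * q.2) ≤ 2 * k * 1 * Real.cosh a := by
              gcongr
          _ = 2 * k * Real.cosh a * 1 := by ring
          _ ≤ 2 * k * Real.cosh a * Db k q := by gcongr
      have d3 : |2 * k ^ 2 / (a ^ 2 + k ^ 2) * Mb a k q.2 * (k * Real.sin (k * q.2)) /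
          Db k q ^ 2| ≤ 2 * k * Real.cosh a := by
        rw [abs_div, abs_of_pos (by positivity : 0 < Db k q ^ 2), div_le_iff₀ (by positivity),
          abs_mul, abs_mul, abs_mul, abs_of_pos g60, abs_of_nonneg hM0, abs_of_pos hk]
        calc 2 * k ^ 2 / (a ^ 2 + k ^ 2) * Mb a k q.2 * (k * |Real.sin (k * q.2)|) ≤
            2 * Real.cosh a * (k * 1) := by gcongr
          _ = 2 * k * Real.cosh a * 1 := by ring
          _ ≤ 2 * k * Real.cosh a * Db k q ^ 2 := by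
              gcongr
              nlinarith
      rw [abs_mul, abs_div, abs_of_pos h3]
      have d4 : |a * Real.sinh (a * q.2) - -(2 * k * Real.sin (k * q.2) * Real.cosh (a * q.2) /
          Db k q) - 2 * k ^ 2 / (a ^ 2 + k ^ 2) * Mb a k q.2 * (k * Real.sin (k * q.2)) /
          Db k q ^ 2| ≤ (a + 4 * k) * Real.cosh a := by
        refine (abs_sub _ _).trans ?_
        have := abs_sub (a * Real.sinh (a * q.2))
          (-(2 * k * Real.sin (k * q.2) * Real.cosh (a * q.2) / Db k q))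
        rw [abs_neg] at this
        linarith
      have d5 : |a * Real.sinh (a * q.2) - -(2 * k * Real.sin (k * q.2) * Real.cosh (a * q.2) /
          Db k q) - 2 * k ^ 2 / (a ^ 2 + k ^ 2) * Mb a k q.2 * (k * Real.sin (k * q.2)) /
          Db k q ^ 2| / Real.cosh a ≤ a + 4 * k := by
        rw [div_le_iff₀ h3]; exact d4
      calc |q.2| * _ ≤ 1 * (a + 4 * k) := by gcongr
        _ = a + 4 * k := one_mul _
    rw [STB_vdx h hq, STB_vdy h hq]
    have e : q.1 * (-2 * (dx (Wb a k) q / Wb a k q)) + q.2 * (-2 * (dy (Wb a k) q / Wb a k q)) =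
        -2 * (q.1 * dx (Wb a k) q / Wb a k q) + -2 * (q.2 * dy (Wb a k) q / Wb a k q) := by ring
    rw [e]
    refine (abs_add_le _ _).trans ?_
    rw [abs_mul, abs_mul, abs_neg, abs_two, abs_div, abs_div, abs_of_pos hW]
    gcongr
  · have h4 : 0 < Real.sinh (a / 2) := Real.sinh_pos_iff.2 (by positivity)
    refine ⟨2 * (a * Real.sinh (a / 2) / Real.cosh a), by positivity, 1 / 2, by norm_num,
      fun y hy1 hy2 => ?_⟩
    have hq : ((0 : ℝ), y) ∈ Str 1 := by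
      change |y| < 1
      rw [abs_of_pos (by linarith)]; exact hy2
    have hW := STB_w_pos h (le_of_lt hq)
    have hW1 := wb_lt_one h hq
    have hD := STB_db_pos h (le_of_lt hq)
    have h5 := STB_wy_ge h (q := (0, y)) (by simp only; linarith) hy2.le
    rw [STB_vdy h hq, STB_dy hk.ne' (by linarith)]
    have h6 : Real.sinh (a / 2) ≤ Real.sinh (a * y) := Real.sinh_le_sinh.2 (by nlinarith)
    have h7 : a * Real.sinh (a / 2) / Real.cosh a ≤ STB_wy a k (0, y) := by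
      refine le_trans ?_ h5
      simp only
      gcongr
    have h8 : 0 < a * Real.sinh (a / 2) / Real.cosh a := by positivity
    have h9 : STB_wy a k (0, y) ≤ STB_wy a k (0, y) / Wb a k (0, y) := by
      rw [le_div_iff₀ hW]
      nlinarith
    linarith

end Pool.Agent.MFE
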