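import Pool.Agent.MFE.REGA
import Pool.Agent.MFE.REGB
import Pool.Agent.MFE.REGC
import Pool.Agent.MFE.REGD

/-!
# MFE.THX: for thin ellipses every critical point of `λ` is a strict local maximum

If not, there are `α n → 0` and `CD (α n) ...` with `¬ (t n ≠ 0 ∧ 0 < t n ∫ ...)` for every `n`.
Let `p n = v n (0,0) > 0`. Either `p n` is unbounded: a subsequence tends to `∞` (`regD`); or a
subsequence converges to some `p ≥ 0`: `p < pst` (`regA`), `p = pst` (`regC`), `p > pst` (`regB`).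
-/

open scoped ContDiff
open Filter Topology

namespace Pool.Agent.MFE

private theorem thx_subseq {u : ℕ → ℝ} (h : ¬ BddAbove (Set.range u)) :
    ∃ ψ : ℕ → ℕ, StrictMono ψ ∧ Tendsto (fun n => u (ψ n)) atTop atTop := by
  have h1 : ∀ n : ℕ, ∃ᶠ k in atTop, (n : ℝ) ≤ u k := by
    intro n hn
    apply h
    rw [eventually_atTop] at hn
    obtain ⟨N, hN⟩ := hn
    obtain ⟨C, hC⟩ := ((Finset.range N).finite_toSet.image u).bddAbove
    refine ⟨max C n, ?_⟩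
    rintro _ ⟨k, rfl⟩
    rcases lt_or_ge k N with hk | hk
    · exact (hC (Set.mem_image_of_mem u (by simpa using hk))).trans (le_max_left _ _)
    · exact (not_le.1 (hN k hk)).le.trans (le_max_right _ _)
  obtain ⟨ψ, hψ, hψ'⟩ := extraction_forall_of_frequently h1
  exact ⟨ψ, hψ, tendsto_atTop_mono hψ' tendsto_natCast_atTop_atTop⟩

theorem thmX : ∃ α₀ : ℝ, 0 < α₀ ∧ α₀ ≤ 1 ∧ ∀ (α μ t : ℝ) (v φ : ℝ × ℝ → ℝ), 0 < α → α < α₀ →
    CD α μ t v φ → t ≠ 0 ∧ 0 < t * ∫ q in Ell α, Real.exp (v q) * (φ q - t) ^ 3 := by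
  by_contra hcon
  have h1 : ∀ n : ℕ, ∃ (α μ t : ℝ) (v φ : ℝ × ℝ → ℝ), 0 < α ∧ α < 1 / ((n : ℝ) + 1) ∧
      CD α μ t v φ ∧
      ¬ (t ≠ 0 ∧ 0 < t * ∫ q in Ell α, Real.exp (v q) * (φ q - t) ^ 3) := by
    intro n
    by_contra hno
    apply hcon
    refine ⟨1 / ((n : ℝ) + 1), by positivity, ?_, ?_⟩
    · rw [div_le_one (by positivity)]
      have : (0 : ℝ) ≤ n := Nat.cast_nonneg n
      linarith
    intro α μ t v φ hα hα' hcd
    by_contra hbad
    exact hno ⟨α, μ, t, v, φ, hα, hα', hcd, hbad⟩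
  choose α μ t v φ hα hα' hcd hbad using h1
  have hα1 : ∀ n, 0 < α n ∧ α n ≤ 1 := fun n => ⟨hα n, (hα' n).le.trans (by
    rw [div_le_one (by positivity)]
    have : (0 : ℝ) ≤ n := Nat.cast_nonneg n
    linarith)⟩
  have hα0 : Tendsto α atTop (𝓝 0) :=
    squeeze_zero (fun n => (hα n).le) (fun n => (hα' n).le) tendsto_one_div_add_atTop_nhds_zero_nat
  have hpos : ∀ n, 0 < v n (0, 0) := fun n => gsol_amp_pos (hα n) (hcd n).sol
  by_cases hbd : BddAbove (Set.range fun n => v n (0, 0))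
  · obtain ⟨C, hC⟩ := hbd
    have hmem : ∀ n, v n (0, 0) ∈ Set.Icc 0 C := fun n => ⟨(hpos n).le, hC ⟨n, rfl⟩⟩
    obtain ⟨p, -, ψ, hψ, hlim⟩ := isCompact_Icc.tendsto_subseq hmem
    rcases lt_trichotomy p pst with h | h | h
    · exact regA (fun n => hα1 (ψ n)) (hα0.comp hψ.tendsto_atTop) (fun n => hcd (ψ n)) hlim h
    · subst h
      have h2 := regC (fun n => hα1 (ψ n)) (hα0.comp hψ.tendsto_atTop) (fun n => hcd (ψ n)) hlim
      obtain ⟨n, hn⟩ := h2.exists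
      exact hbad (ψ n) hn
    · exact regB (fun n => hα1 (ψ n)) (hα0.comp hψ.tendsto_atTop) (fun n => hcd (ψ n)) hlim h
  · obtain ⟨ψ, hψ, hlim⟩ := thx_subseq hbd
    exact regD (fun n => hα1 (ψ n)) (hα0.comp hψ.tendsto_atTop) (fun n => hcd (ψ n)) hlim

end Pool.Agent.MFE
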